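import Pool.Agent.Work.MP_814647_an.Basic
import Pool.Agent.Work.MP_814647_an.Charts
import Pool.Agent.Work.MP_814647_an.Linear

/-! Bundle of small proof modules (one section per former module). -/

section

/-!
# A recurrent non-periodic point from a full coding
-/

open Set Filter Topology Function
open scoped Manifold ContDiff

noncomputable section

namespace Pool.Agent.OmegaStab

namespace Coding

/-- parity of the 2-adic valuation of `n + 1` -/
def tau (n : ℕ) : Bool := decide (padicValNat 2 (n + 1) % 2 = 1)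

theorem val_two_pow_mul (k r : ℕ) (hr : r % 2 = 1) : padicValNat 2 (2 ^ k * r) = k := by
  have hr0 : r ≠ 0 := by
    rintro rfl
    simp at hr
  rw [padicValNat.mul (pow_ne_zero _ two_ne_zero) hr0, padicValNat.prime_pow,
    padicValNat.eq_zero_of_not_dvd (by omega), add_zero]

/-- The sequence `tau` is uniformly aperiodic. -/
theorem tau_aperiodic (p : ℕ) (hp : 1 ≤ p) (m : ℕ) :
    ∃ n, n ∈ Finset.Ico m (m + 4 * p) ∧ tau (n + p) ≠ tau n := by
  obtain ⟨k, q, hq, hpq⟩ := Nat.exists_eq_two_pow_mul_odd (n := p) (by omega)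
  have hq1 : q % 2 = 1 := Nat.odd_iff.1 hq
  set r0 := (2 + 3 * q) % 4 with hr0
  have hr0' : r0 = 1 ∨ r0 = 3 := by omega
  set P := 2 ^ k with hP
  have hPpos : 0 < P := by positivity
  have hPp : P ≤ p := by
    rw [hpq]
    exact Nat.le_mul_of_pos_right _ (by omega)
  set t := (m + 4 * P - P * r0) / (4 * P) with ht
  have hPr0 : P * r0 ≤ 3 * P := by
    rcases hr0' with h | h <;> rw [h] <;> omega
  have hPr0' : P ≤ P * r0 := by
    rcases hr0' with h | h <;> rw [h] <;> omega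
  have h4P : 0 < 4 * P := by omega
  have h1 : 4 * P * t ≤ m + 4 * P - P * r0 := Nat.mul_div_le _ _
  have h2 : m + 4 * P - P * r0 < 4 * P * t + 4 * P := by
    have := Nat.lt_mul_div_succ (m + 4 * P - P * r0) h4P
    rw [← ht] at this
    linarith
  refine ⟨P * r0 + 4 * P * t - 1, ?_, ?_⟩
  · rw [Finset.mem_Ico]
    omega
  · have hn : P * r0 + 4 * P * t - 1 + 1 = P * (r0 + 4 * t) := by
      have : P * (r0 + 4 * t) = P * r0 + 4 * P * t := by ring
      omega
    have hodd : (r0 + 4 * t) % 2 = 1 := by omega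
    have hn2 : P * r0 + 4 * P * t - 1 + p + 1 = 2 ^ (k + 1) * ((r0 + 4 * t + q) / 2) := by
      have e1 : r0 + 4 * t + q = 2 * ((r0 + 4 * t + q) / 2) := by omega
      have e2 : P * r0 + 4 * P * t - 1 + p + 1 = P * (r0 + 4 * t + q) := by
        have : P * (r0 + 4 * t + q) = P * r0 + 4 * P * t + P * q := by ring
        rw [this, ← hpq]
        omega
      rw [e2]
      conv_lhs => rw [e1]
      rw [pow_succ, ← hP]
      ring
    have hodd2 : ((r0 + 4 * t + q) / 2) % 2 = 1 := by omega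
    rw [tau, tau, hn, hn2, hP, val_two_pow_mul k _ hodd, val_two_pow_mul (k + 1) _ hodd2]
    rcases Nat.mod_two_eq_zero_or_one k with h | h
    · simp [Nat.add_mod, h]
    · simp [Nat.add_mod, h]

end Coding

open Coding in
theorem exists_recurrent_of_coding {Y : Type*} [TopologicalSpace Y] [CompactSpace Y] [T2Space Y]
    (R : Y → Y) (hR : Continuous R) (c : Y → Bool) (hc : Continuous c)
    (hall : ∀ τ : ℕ → Bool, ∃ y, ∀ n, c (R^[n] y) = τ n) :
    ∃ y, Recurrent R y ∧ y ∉ periodicPts R := by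
  -- the closed set of points with uniformly aperiodic code
  set S : Set Y := {y | ∀ p : ℕ, 1 ≤ p → ∀ m : ℕ, ∃ n, n ∈ Finset.Ico m (m + 4 * p) ∧
    c (R^[n + p] y) ≠ c (R^[n] y)} with hS
  have hcode : ∀ n, Continuous fun y => c (R^[n] y) := fun n => hc.comp (hR.iterate n)
  have hSc : IsClosed S := by
    have h1 : S = ⋂ (p : ℕ) (_ : 1 ≤ p) (m : ℕ), ⋃ n ∈ Finset.Ico m (m + 4 * p),
        {y | c (R^[n + p] y) ≠ c (R^[n] y)} := by
      ext y
      simp only [hS, mem_iInter, mem_iUnion, exists_prop]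
      rfl
    rw [h1]
    refine isClosed_iInter fun p => isClosed_iInter fun _ => isClosed_iInter fun m => ?_
    refine Set.Finite.isClosed_biUnion (Finset.finite_toSet _) fun n _ => ?_
    have h2 : Continuous fun y => (c (R^[n + p] y), c (R^[n] y)) :=
      (hcode _).prodMk (hcode _)
    exact (isClosed_discrete {q : Bool × Bool | q.1 ≠ q.2}).preimage h2
  have hSne : S.Nonempty := by
    obtain ⟨y, hy⟩ := hall tau
    refine ⟨y, fun p hp m => ?_⟩
    obtain ⟨n, hn, hne⟩ := tau_aperiodic p hp m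
    exact ⟨n, hn, by rw [hy, hy]; exact hne⟩
  have hSinv : ∀ y ∈ S, R y ∈ S := by
    intro y hy p hp m
    obtain ⟨n, hn, hne⟩ := hy p hp (m + 1)
    rw [Finset.mem_Ico] at hn
    refine ⟨n - 1, ?_, ?_⟩
    · rw [Finset.mem_Ico]; omega
    · rw [← Function.iterate_succ_apply, ← Function.iterate_succ_apply]
      have e1 : (n - 1 + p).succ = n + p := by omega
      have e2 : (n - 1).succ = n := by omega
      rw [e1, e2]
      exact hne
  -- a minimal closed invariant subset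
  set 𝒮 : Set (Set Y) := {V | V ⊆ S ∧ IsClosed V ∧ V.Nonempty ∧ ∀ y ∈ V, R y ∈ V} with h𝒮
  obtain ⟨V, hVmin⟩ : ∃ V, Minimal (· ∈ 𝒮) V := by
    refine zorn_superset 𝒮 ?_ |>.imp fun V hV => hV
    intro C hC hchain
    rcases C.eq_empty_or_nonempty with rfl | hCne
    · exact ⟨S, ⟨Subset.rfl, hSc, hSne, hSinv⟩, by simp⟩
    · refine ⟨⋂₀ C, ⟨?_, ?_, ?_, ?_⟩, fun s hs => sInter_subset_of_mem hs⟩
      · obtain ⟨W, hW⟩ := hCne
        exact (sInter_subset_of_mem hW).trans (hC hW).1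
      · exact isClosed_sInter fun W hW => (hC hW).2.1
      · have : Nonempty C := hCne.to_subtype
        refine IsCompact.nonempty_sInter_of_directed_nonempty_isCompact_isClosed ?_ ?_ ?_ ?_
        · intro a ha b hb
          rcases hchain.total ha hb with h | h
          · exact ⟨a, ha, Subset.rfl, h⟩
          · exact ⟨b, hb, h, Subset.rfl⟩
        · exact fun W hW => (hC hW).2.2.1
        · exact fun W hW => (hC hW).2.1.isCompact
        · exact fun W hW => (hC hW).2.1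
      · intro y hy W hW
        exact (hC hW).2.2.2 y (hy W hW)
  obtain ⟨⟨hVS, hVc, ⟨y, hy⟩, hVinv⟩, hmin⟩ := hVmin
  refine ⟨y, ?_, ?_⟩
  · -- recurrence
    have hiter : ∀ n, R^[n] y ∈ V := by
      intro n
      induction n with
      | zero => exact hy
      | succ n ih => rw [Function.iterate_succ_apply']; exact hVinv _ ih
    have key : ∀ N : ℕ, y ∈ closure ((fun n : ℕ => R^[n] y) '' {n | N ≤ n}) := by
      intro N
      set W := closure ((fun n : ℕ => R^[n] y) '' {n | N ≤ n}) with hW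
      have hWV : W ⊆ V := by
        apply closure_minimal _ hVc
        rintro _ ⟨n, _, rfl⟩
        exact hiter n
      have hWmem : W ∈ 𝒮 := by
        refine ⟨hWV.trans hVS, isClosed_closure, ?_, ?_⟩
        · exact ⟨R^[N] y, subset_closure ⟨N, le_refl N, rfl⟩⟩
        · intro z hz
          have h1 : MapsTo R ((fun n : ℕ => R^[n] y) '' {n | N ≤ n})
              ((fun n : ℕ => R^[n] y) '' {n | N ≤ n}) := by
            rintro _ ⟨n, hn, rfl⟩
            refine ⟨n + 1, Nat.le_succ_of_le hn, ?_⟩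
            exact Function.iterate_succ_apply' R n y
          exact h1.closure hR hz
      exact hmin hWmem hWV hy
    rw [Recurrent, mapClusterPt_iff_frequently]
    intro U hU
    rw [Filter.frequently_atTop]
    intro N
    obtain ⟨z, hzU, n, hn, rfl⟩ := mem_closure_iff_nhds.1 (key N) U hU
    exact ⟨n, hn, hzU⟩
  · intro hper
    obtain ⟨p, hp, hpy⟩ := hper
    obtain ⟨n, _, hne⟩ := hVS hy p hp 0
    apply hne
    rw [Function.iterate_add_apply, hpy]

end Pool.Agent.OmegaStab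

end
end

section

/-!
# Families of diffeomorphisms converge in the C^r topology
-/

open Set Filter Topology Function
open scoped Manifold ContDiff

noncomputable section

namespace Pool.Agent.OmegaStab

namespace CrT

/-- The iterated derivative of a slice is jointly continuous. -/
theorem continuousAt_slice {V E F : Type*} [NormedAddCommGroup V] [NormedSpace ℝ V]
    [NormedAddCommGroup E] [NormedSpace ℝ E] [NormedAddCommGroup F] [NormedSpace ℝ F]
    (Ψ : V × E → F) (k : ℕ) (q : V × E) (h : ContDiffAt ℝ k Ψ q) :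
    ContinuousAt (fun p : V × E => iteratedFDeriv ℝ k (fun u => Ψ (p.1, u)) p.2) q := by
  have hev : ∀ᶠ p in 𝓝 q, ContDiffAt ℝ k Ψ p := h.eventually (by simp)
  obtain ⟨s, hs, hso, hqs⟩ := eventually_nhds_iff.1 hev
  have hslice : ∀ p ∈ s, iteratedFDeriv ℝ k (fun u => Ψ (p.1, u)) p.2 =
      (iteratedFDeriv ℝ k Ψ p).compContinuousLinearMap
        fun _ => ContinuousLinearMap.inr ℝ V E := by
    intro p hp
    set g : V × E → F := fun w => Ψ ((p.1, 0) + w) with hg
    set sp : Set (V × E) := {w | ((p.1, 0) : V × E) + w ∈ s} with hsp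
    have hspo : IsOpen sp := hso.preimage (continuous_const.add continuous_id)
    have hgd : ContDiffOn ℝ k g sp := by
      intro w hw
      have h1 : ContDiffAt ℝ k Ψ (((p.1, 0) : V × E) + w) := hs _ hw
      have h2 : ContDiffAt ℝ k (fun w : V × E => ((p.1, 0) : V × E) + w) w :=
        (contDiff_const.add contDiff_id).contDiffAt
      exact (h1.comp w h2).contDiffWithinAt
    have hpre : IsOpen ((ContinuousLinearMap.inr ℝ V E) ⁻¹' sp) :=
      hspo.preimage (ContinuousLinearMap.inr ℝ V E).continuous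
    have hmem : (ContinuousLinearMap.inr ℝ V E) p.2 ∈ sp := by
      show ((p.1, 0) : V × E) + (0, p.2) ∈ s
      simpa using hp
    have h3 := (ContinuousLinearMap.inr ℝ V E).iteratedFDerivWithin_comp_right hgd
      hspo.uniqueDiffOn hpre.uniqueDiffOn hmem (i := k) le_rfl
    rw [iteratedFDerivWithin_of_isOpen k hpre hmem,
      iteratedFDerivWithin_of_isOpen k hspo hmem] at h3
    have h4 : g ∘ (ContinuousLinearMap.inr ℝ V E) = fun u => Ψ (p.1, u) := by
      funext u
      simp [hg]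
    have h5 : iteratedFDeriv ℝ k g ((ContinuousLinearMap.inr ℝ V E) p.2) =
        iteratedFDeriv ℝ k Ψ p := by
      rw [hg, iteratedFDeriv_comp_add_left]
      congr 1
      simp
    rw [h4, h5] at h3
    exact h3
  have hcont : ContinuousAt (fun p : V × E => (iteratedFDeriv ℝ k Ψ p).compContinuousLinearMap
        fun _ => ContinuousLinearMap.inr ℝ V E) q := by
    have h6 := (ContinuousMultilinearMap.compContinuousLinearMapL (𝕜 := ℝ) (F := F)
      (fun _ : Fin k => ContinuousLinearMap.inr ℝ V E)).continuous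
    exact h6.continuousAt.comp (h.continuousAt_iteratedFDeriv le_rfl)
  refine hcont.congr ?_
  filter_upwards [hso.mem_nhds hqs] with p hp
  exact (hslice p hp).symm

variable {d : ℕ} {M : Type*} [MetricSpace M] [ChartedSpace (EE d) M] {r : ℕ∞}
  [IsManifold (𝓡 d) ∞ M]

theorem le_infty (r : ℕ∞) : (r : ℕ∞ω) ≤ ∞ := by exact_mod_cast le_top

/-- Joint smoothness of a family in charts. -/
theorem contDiffAt_fam {V : Type*} [NormedAddCommGroup V] [NormedSpace ℝ V]
    {h : V → Dyn d M r} (hh : IsFam h) (f : Dyn d M r) (x y z : M)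
    (hz : z ∈ (extChartAt (𝓡 d) x).source) (hy : f z ∈ (extChartAt (𝓡 d) y).source) :
    ContDiffAt ℝ r (fun q : V × EE d => inCharts x y (f.trans (h q.1)) q.2)
      (0, extChartAt (𝓡 d) x z) := by
  have : IsManifold (𝓡 d) (r : ℕ∞ω) M := IsManifold.of_le (le_infty r)
  obtain ⟨h0, U, hU, hsm⟩ := hh
  have hzt : extChartAt (𝓡 d) x z ∈ (extChartAt (𝓡 d) x).target :=
    (extChartAt (𝓡 d) x).map_source hz
  have hsymm : (extChartAt (𝓡 d) x).symm (extChartAt (𝓡 d) x z) = z :=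
    (extChartAt (𝓡 d) x).left_inv hz
  rw [← contMDiffAt_iff_contDiffAt]
  -- inner map
  have h1 : ContMDiffAt 𝓘(ℝ, V × EE d) (𝓡 d) r
      (fun q : V × EE d => (extChartAt (𝓡 d) x).symm q.2) (0, extChartAt (𝓡 d) x z) := by
    have h2 : ContMDiffAt 𝓘(ℝ, EE d) (𝓡 d) r (extChartAt (𝓡 d) x).symm
        (extChartAt (𝓡 d) x z) :=
      (contMDiffOn_extChartAt_symm x).contMDiffAt (extChartAt_target_mem_nhds' hzt)
    have h3 : ContMDiffAt 𝓘(ℝ, V × EE d) 𝓘(ℝ, EE d) r (fun q : V × EE d => q.2)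
        ((0 : V), extChartAt (𝓡 d) x z) :=
      (contDiff_snd.contDiffAt).contMDiffAt
    exact ContMDiffAt.comp ((0 : V), extChartAt (𝓡 d) x z) h2 h3
  have h4 : ContMDiffAt 𝓘(ℝ, V × EE d) (𝓡 d) r
      (fun q : V × EE d => f ((extChartAt (𝓡 d) x).symm q.2)) (0, extChartAt (𝓡 d) x z) :=
    ContMDiffAt.comp ((0 : V), extChartAt (𝓡 d) x z) (f.contMDiff.contMDiffAt) h1
  have h5 : ContMDiffAt 𝓘(ℝ, V × EE d) 𝓘(ℝ, V) r (fun q : V × EE d => q.1)
      (0, extChartAt (𝓡 d) x z) :=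
    (contDiff_fst.contDiffAt).contMDiffAt
  have h6 : ContMDiffAt (𝓘(ℝ, V).prod (𝓡 d)) (𝓡 d) r (fun q : V × M => h q.1 q.2)
      ((0 : V), f ((extChartAt (𝓡 d) x).symm (extChartAt (𝓡 d) x z))) :=
    hsm.contMDiffAt (prod_mem_nhds hU univ_mem)
  have h7 : ContMDiffAt 𝓘(ℝ, V × EE d) (𝓡 d) r
      (fun q : V × EE d => h q.1 (f ((extChartAt (𝓡 d) x).symm q.2)))
      (0, extChartAt (𝓡 d) x z) :=
    ContMDiffAt.comp₂ (h := fun q : V × M => h q.1 q.2) h6 h5 h4
  have hval : h 0 (f ((extChartAt (𝓡 d) x).symm (extChartAt (𝓡 d) x z))) = f z := by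
    rw [h0, hsymm]
    rfl
  have h8 : ContMDiffAt (𝓡 d) 𝓘(ℝ, EE d) r (extChartAt (𝓡 d) y)
      (h 0 (f ((extChartAt (𝓡 d) x).symm (extChartAt (𝓡 d) x z)))) := by
    rw [hval]
    apply contMDiffAt_extChartAt'
    rwa [extChartAt_source] at hy
  exact ContMDiffAt.comp ((0 : V), extChartAt (𝓡 d) x z) h8 h7

theorem contDiffAt_inCharts (f : Dyn d M r) (x y z : M)
    (hz : z ∈ (extChartAt (𝓡 d) x).source) (hy : f z ∈ (extChartAt (𝓡 d) y).source) :
    ContDiffAt ℝ r (inCharts x y f) (extChartAt (𝓡 d) x z) := by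
  have : IsManifold (𝓡 d) (r : ℕ∞ω) M := IsManifold.of_le (le_infty r)
  have hzt : extChartAt (𝓡 d) x z ∈ (extChartAt (𝓡 d) x).target :=
    (extChartAt (𝓡 d) x).map_source hz
  have hsymm : (extChartAt (𝓡 d) x).symm (extChartAt (𝓡 d) x z) = z :=
    (extChartAt (𝓡 d) x).left_inv hz
  rw [← contMDiffAt_iff_contDiffAt]
  have h2 : ContMDiffAt 𝓘(ℝ, EE d) (𝓡 d) r (extChartAt (𝓡 d) x).symm
      (extChartAt (𝓡 d) x z) :=
    (contMDiffOn_extChartAt_symm x).contMDiffAt (extChartAt_target_mem_nhds' hzt)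
  have h4 : ContMDiffAt 𝓘(ℝ, EE d) (𝓡 d) r
      (fun q : EE d => f ((extChartAt (𝓡 d) x).symm q)) (extChartAt (𝓡 d) x z) :=
    ContMDiffAt.comp (extChartAt (𝓡 d) x z) (f.contMDiff.contMDiffAt) h2
  have h8 : ContMDiffAt (𝓡 d) 𝓘(ℝ, EE d) r (extChartAt (𝓡 d) y)
      (f ((extChartAt (𝓡 d) x).symm (extChartAt (𝓡 d) x z))) := by
    rw [hsymm]
    apply contMDiffAt_extChartAt'
    rwa [extChartAt_source] at hy
  exact ContMDiffAt.comp (extChartAt (𝓡 d) x z) h8 h4

end CrT

variable {d : ℕ} {M : Type*} [MetricSpace M] [ChartedSpace (EE d) M] {r : ℕ∞}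
  [CompactSpace M] [IsManifold (𝓡 d) ∞ M]

omit [CompactSpace M] in
open CrT in
/-- W9 -/
theorem IsFam.tendsto {V : Type*} [NormedAddCommGroup V] [NormedSpace ℝ V]
    {h : V → Dyn d M r} (hh : IsFam h) (f : Dyn d M r) :
    Tendsto (fun v => f.trans (h v)) (𝓝 0) (@nhds _ (crTopology d M r) f) := by
  rw [TopologicalSpace.tendsto_nhds_generateFrom_iff]
  rintro S ⟨f0, x, y, K, k, ε, hK, hKs, hf0, hk, hε, rfl⟩ hf
  show ∀ᶠ v in 𝓝 (0 : V), ∀ z ∈ K, f.trans (h v) z ∈ (extChartAt (𝓡 d) y).source ∧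
    ‖iteratedFDeriv ℝ k (inCharts x y (f.trans (h v))) (extChartAt (𝓡 d) x z) -
      iteratedFDeriv ℝ k (inCharts x y f0) (extChartAt (𝓡 d) x z)‖ < ε
  apply hK.eventually_forall_of_forall_eventually
  intro z hz
  obtain ⟨hfz, hfε⟩ := hf z hz
  have hkr : ((k : ℕ) : ℕ∞ω) ≤ (r : ℕ∞ω) := by exact_mod_cast hk
  have hh' := hh
  obtain ⟨h0, U, hU, hsm⟩ := hh'
  have hcz : ContinuousAt (extChartAt (𝓡 d) x) z := continuousAt_extChartAt' (hKs hz)
  have hc : ContinuousAt (fun p : V × M => ((p.1, extChartAt (𝓡 d) x p.2) : V × EE d))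
      ((0 : V), z) :=
    continuousAt_fst.prodMk (ContinuousAt.comp (f := fun p : V × M => p.2) hcz continuousAt_snd)
  apply Filter.Eventually.and
  · have h1 : ContMDiffAt (𝓘(ℝ, V).prod (𝓡 d)) (𝓡 d) r (fun q : V × M => h q.1 q.2)
        ((0 : V), f z) := hsm.contMDiffAt (prod_mem_nhds hU univ_mem)
    have h2 : ContinuousAt (fun p : V × M => ((p.1, f p.2) : V × M)) ((0 : V), z) :=
      continuousAt_fst.prodMk (f.continuous.continuousAt.comp continuousAt_snd)
    have h3 : ContinuousAt (fun p : V × M => h p.1 (f p.2)) ((0 : V), z) :=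
      ContinuousAt.comp (g := fun q : V × M => h q.1 q.2)
        (f := fun p : V × M => ((p.1, f p.2) : V × M)) h1.continuousAt h2
    have h4 : h 0 (f z) = f z := by rw [h0]; rfl
    have h5 : (extChartAt (𝓡 d) y).source ∈ 𝓝 (h 0 (f z)) := by
      rw [h4]
      exact extChartAt_source_mem_nhds' hfz
    exact h3 h5
  · have h1 : ContinuousAt (fun p : V × EE d => iteratedFDeriv ℝ k
        (fun u => inCharts x y (f.trans (h p.1)) u) p.2) (0, extChartAt (𝓡 d) x z) :=
      continuousAt_slice _ k _ ((contDiffAt_fam hh f x y z (hKs hz) hfz).of_le hkr)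
    have h2 : ContinuousAt (iteratedFDeriv ℝ k (inCharts x y f0)) (extChartAt (𝓡 d) x z) :=
      ((contDiffAt_inCharts f0 x y z (hKs hz) (hf0 z hz)).continuousAt_iteratedFDeriv hkr)
    have h3 : ContinuousAt (fun p : V × M =>
        iteratedFDeriv ℝ k (inCharts x y (f.trans (h p.1))) (extChartAt (𝓡 d) x p.2) -
        iteratedFDeriv ℝ k (inCharts x y f0) (extChartAt (𝓡 d) x p.2)) ((0 : V), z) := by
      apply ContinuousAt.sub
      · exact ContinuousAt.comp
          (f := fun p : V × M => ((p.1, extChartAt (𝓡 d) x p.2) : V × EE d)) h1 hc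
      · exact ContinuousAt.comp (f := fun p : V × M => extChartAt (𝓡 d) x p.2) h2
          (ContinuousAt.comp (f := fun p : V × M => p.2) hcz continuousAt_snd)
    have h4 : (fun u => inCharts (d := d) x y (f.trans (h 0)) u) = inCharts x y f := by
      funext u
      simp only [inCharts]
      rw [h0]
      rfl
    have h5 := h3.norm
    have h6 : ∀ᶠ p in 𝓝 ((0 : V), z),
        ‖iteratedFDeriv ℝ k (inCharts x y (f.trans (h p.1))) (extChartAt (𝓡 d) x p.2) -
        iteratedFDeriv ℝ k (inCharts x y f0) (extChartAt (𝓡 d) x p.2)‖ < ε := by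
      apply h5.eventually_lt_const
      have h7 : inCharts (d := d) x y (f.trans (h 0)) = inCharts x y f := h4
      simp only [h7]
      exact hfε
    exact h6

end Pool.Agent.OmegaStab

end
end

section

/-!
# Local hyperbolic lemmas
-/

open Set Filter Topology Function
open scoped Manifold ContDiff

noncomputable section

set_option linter.unusedSectionVars false

namespace Pool.Agent.OmegaStab

variable {Xs Xu : Type*} [NormedAddCommGroup Xs] [NormedSpace ℝ Xs]
  [NormedAddCommGroup Xu] [NormedSpace ℝ Xu]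

namespace Cone

/-- One step of the cone estimates. -/
def Step (d d' : Xs × Xu) : Prop :=
  ‖d'.1‖ ≤ 1 / 8 * ‖d.1‖ + 1 / 8 * ‖d‖ ∧ 8 * ‖d.2‖ ≤ ‖d'.2‖ + 1 / 8 * ‖d‖

theorem norm_le_of {d : Xs × Xu} {r : ℝ} (h1 : ‖d.1‖ ≤ r) (h2 : ‖d.2‖ ≤ r) : ‖d‖ ≤ r := by
  rw [Prod.norm_def]; exact max_le h1 h2

theorem Step.of_lip {As : Xs →L[ℝ] Xs} {Au : Xu ≃L[ℝ] Xu} (hAs : ‖As‖ ≤ 1 / 8)
    (hAu : ‖(Au.symm : Xu →L[ℝ] Xu)‖ ≤ 1 / 8) {d d' : Xs × Xu}
    (h : ‖d' - (As d.1, Au d.2)‖ ≤ 1 / 8 * ‖d‖) : Step d d' := by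
  have h1 : ‖d'.1 - As d.1‖ ≤ 1 / 8 * ‖d‖ := (norm_fst_le (d' - (As d.1, Au d.2))).trans h
  have h2 : ‖d'.2 - Au d.2‖ ≤ 1 / 8 * ‖d‖ := (norm_snd_le (d' - (As d.1, Au d.2))).trans h
  constructor
  · have h3 : ‖As d.1‖ ≤ 1 / 8 * ‖d.1‖ :=
      (As.le_opNorm d.1).trans (mul_le_mul_of_nonneg_right hAs (norm_nonneg _))
    have h4 : ‖d'.1‖ ≤ ‖d'.1 - As d.1‖ + ‖As d.1‖ := by
      simpa using norm_add_le (d'.1 - As d.1) (As d.1)
    linarith
  · have h3 : ‖d.2‖ ≤ 1 / 8 * ‖Au d.2‖ := by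
      have := ((Au.symm : Xu →L[ℝ] Xu).le_opNorm (Au d.2)).trans
        (mul_le_mul_of_nonneg_right hAu (norm_nonneg _))
      simpa using this
    have h4 : ‖Au d.2‖ ≤ ‖d'.2‖ + ‖d'.2 - Au d.2‖ := by
      have := norm_sub_le d'.2 (d'.2 - Au d.2)
      simpa using this
    linarith

theorem Step.ucone {d d' : Xs × Xu} (h : Step d d') (hd : ‖d.1‖ ≤ ‖d.2‖) :
    ‖d'.1‖ ≤ 1 / 4 * ‖d.2‖ ∧ 7 * ‖d.2‖ ≤ ‖d'.2‖ := by
  have h1 : ‖d‖ ≤ ‖d.2‖ := norm_le_of hd le_rfl
  have := norm_nonneg d.2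
  constructor
  · linarith [h.1]
  · linarith [h.2]

theorem Step.ucone2 {d d' : Xs × Xu} (h : Step d d') (hd : ‖d.1‖ ≤ 2 * ‖d.2‖) :
    ‖d'.1‖ ≤ 1 / 2 * ‖d.2‖ ∧ 7 * ‖d.2‖ ≤ ‖d'.2‖ := by
  have h0 := norm_nonneg d.2
  have h1 : ‖d‖ ≤ 2 * ‖d.2‖ := norm_le_of hd (by linarith)
  constructor
  · linarith [h.1]
  · linarith [h.2]

theorem Step.ucone' {d d' : Xs × Xu} (h : Step d d') (hd : ‖d.1‖ ≤ ‖d.2‖) :
    ‖d'.1‖ ≤ ‖d'.2‖ := by
  have := h.ucone hd
  have := norm_nonneg d.2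
  linarith

theorem Step.scone {d d' : Xs × Xu} (h : Step d d') (hd : ‖d'.2‖ ≤ ‖d'.1‖) :
    ‖d.2‖ ≤ ‖d.1‖ ∧ ‖d'.1‖ ≤ 1 / 4 * ‖d.1‖ := by
  have h1 : ‖d.2‖ ≤ ‖d.1‖ := by
    by_contra hc
    push Not at hc
    have := h.ucone hc.le
    have := norm_nonneg d.1
    linarith
  have h2 : ‖d‖ ≤ ‖d.1‖ := norm_le_of le_rfl h1
  exact ⟨h1, by linarith [h.1]⟩

/-- a bounded forward sequence stays in the stable cone -/
theorem fwd_scone {d : ℕ → Xs × Xu} {C : ℝ} (h : ∀ n, Step (d n) (d (n + 1)))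
    (hC : ∀ n, ‖d n‖ ≤ C) (n : ℕ) : ‖(d n).2‖ ≤ ‖(d n).1‖ := by
  by_contra hc
  push Not at hc
  have key : ∀ k, ‖(d (n + k)).1‖ ≤ ‖(d (n + k)).2‖ ∧ (7 : ℝ) ^ k * ‖(d n).2‖ ≤ ‖(d (n + k)).2‖ := by
    intro k
    induction k with
    | zero => exact ⟨hc.le, by simp⟩
    | succ k ih =>
      have h1 := (h (n + k)).ucone ih.1
      have h2 := (h (n + k)).ucone' ih.1
      refine ⟨h2, ?_⟩
      have : (7 : ℝ) ^ (k + 1) * ‖(d n).2‖ = 7 * (7 ^ k * ‖(d n).2‖) := by ring
      rw [this]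
      have h3 := ih.2
      have h4 : ‖(d (n + (k + 1))).2‖ = ‖(d (n + k + 1)).2‖ := rfl
      linarith [h1.2]
  have hpos : 0 < ‖(d n).2‖ := lt_of_le_of_lt (norm_nonneg _) hc
  have ht : Tendsto (fun k : ℕ => (7 : ℝ) ^ k * ‖(d n).2‖) atTop atTop :=
    (tendsto_pow_atTop_atTop_of_one_lt (by norm_num)).atTop_mul_const hpos
  obtain ⟨k, hk⟩ := (ht.eventually_gt_atTop C).exists
  have := (norm_snd_le (d (n + k))).trans (hC (n + k))
  linarith [(key k).2]

theorem fwd_decay {d : ℕ → Xs × Xu} {C : ℝ} (h : ∀ n, Step (d n) (d (n + 1)))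
    (hC : ∀ n, ‖d n‖ ≤ C) (n : ℕ) : ‖d n‖ ≤ (1 / 4) ^ n * ‖d 0‖ := by
  have key : ‖(d n).1‖ ≤ (1 / 4) ^ n * ‖(d 0).1‖ := by
    induction n with
    | zero => simp
    | succ n ih =>
      have := ((h n).scone (fwd_scone h hC (n + 1))).2
      calc _ ≤ 1 / 4 * ‖(d n).1‖ := this
        _ ≤ 1 / 4 * ((1 / 4) ^ n * ‖(d 0).1‖) := by gcongr
        _ = _ := by ring
  have h1 : ‖d n‖ ≤ ‖(d n).1‖ := norm_le_of le_rfl (fwd_scone h hC n)
  refine h1.trans (key.trans ?_)
  gcongr
  exact norm_fst_le _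

/-- a bounded backward sequence stays in the unstable cone -/
theorem bwd_ucone {d : ℕ → Xs × Xu} {C : ℝ} (h : ∀ n, Step (d (n + 1)) (d n))
    (hC : ∀ n, ‖d n‖ ≤ C) (n : ℕ) : ‖(d n).1‖ ≤ ‖(d n).2‖ := by
  by_contra hc
  push Not at hc
  have key : ∀ k, ‖(d (n + k)).2‖ ≤ ‖(d (n + k)).1‖ ∧ (4 : ℝ) ^ k * ‖(d n).1‖ ≤ ‖(d (n + k)).1‖ := by
    intro k
    induction k with
    | zero => exact ⟨hc.le, by simp⟩
    | succ k ih =>
      have h1 := (h (n + k)).scone ih.1
      refine ⟨h1.1, ?_⟩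
      have : (4 : ℝ) ^ (k + 1) * ‖(d n).1‖ = 4 * (4 ^ k * ‖(d n).1‖) := by ring
      rw [this]
      have h3 := ih.2
      have h4 : ‖(d (n + (k + 1))).1‖ = ‖(d (n + k + 1)).1‖ := rfl
      linarith [h1.2]
  have hpos : 0 < ‖(d n).1‖ := lt_of_le_of_lt (norm_nonneg _) hc
  have ht : Tendsto (fun k : ℕ => (4 : ℝ) ^ k * ‖(d n).1‖) atTop atTop :=
    (tendsto_pow_atTop_atTop_of_one_lt (by norm_num)).atTop_mul_const hpos
  obtain ⟨k, hk⟩ := (ht.eventually_gt_atTop C).exists
  have := (norm_fst_le (d (n + k))).trans (hC (n + k))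
  linarith [(key k).2]

theorem bwd_decay {d : ℕ → Xs × Xu} {C : ℝ} (h : ∀ n, Step (d (n + 1)) (d n))
    (hC : ∀ n, ‖d n‖ ≤ C) (n : ℕ) : ‖d n‖ ≤ (1 / 4) ^ n * ‖d 0‖ := by
  have key : ‖(d n).2‖ ≤ (1 / 4) ^ n * ‖(d 0).2‖ := by
    induction n with
    | zero => simp
    | succ n ih =>
      have := ((h n).ucone (bwd_ucone h hC (n + 1))).2
      have h0 := norm_nonneg (d (n + 1)).2
      calc _ ≤ 1 / 4 * ‖(d n).2‖ := by linarith
        _ ≤ 1 / 4 * ((1 / 4) ^ n * ‖(d 0).2‖) := by gcongr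
        _ = _ := by ring
  have h1 : ‖d n‖ ≤ ‖(d n).2‖ := norm_le_of (bwd_ucone h hC n) le_rfl
  refine h1.trans (key.trans ?_)
  gcongr
  exact norm_snd_le _

/-- A fixed point lemma in arbitrary products. -/
theorem exists_fixed {ι E : Type*} [NormedAddCommGroup E] [CompleteSpace E] (S : ι → Set E)
    (hS : ∀ i, IsClosed (S i)) (Φ : (ι → E) → (ι → E))
    (hmap : ∀ x, (∀ i, x i ∈ S i) → ∀ i, Φ x i ∈ S i) {κ : ℝ} (hκ0 : 0 ≤ κ) (hκ : κ < 1)
    (hlip : ∀ x y, (∀ i, x i ∈ S i) → (∀ i, y i ∈ S i) → ∀ C, (∀ i, ‖x i - y i‖ ≤ C) →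
      ∀ i, ‖Φ x i - Φ y i‖ ≤ κ * C)
    (x0 : ι → E) (hx0 : ∀ i, x0 i ∈ S i) (C0 : ℝ) (hC0 : ∀ i, ‖Φ x0 i - x0 i‖ ≤ C0) :
    ∃ x, (∀ i, x i ∈ S i) ∧ Φ x = x := by
  let X : ℕ → ι → E := fun n => Φ^[n] x0
  have hXS : ∀ n i, X n i ∈ S i := by
    intro n
    induction n with
    | zero => exact hx0
    | succ n ih =>
      intro i
      have : X (n + 1) = Φ (X n) := Function.iterate_succ_apply' _ _ _
      rw [this]; exact hmap _ ih i
  have hstep : ∀ n i, ‖X (n + 1) i - X n i‖ ≤ κ ^ n * C0 := by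
    intro n
    induction n with
    | zero => intro i; simpa [X] using hC0 i
    | succ n ih =>
      intro i
      have h1 : X (n + 1 + 1) = Φ (X (n + 1)) := Function.iterate_succ_apply' _ _ _
      have h2 : X (n + 1) = Φ (X n) := Function.iterate_succ_apply' _ _ _
      have := hlip (X (n + 1)) (X n) (hXS _) (hXS _) _ ih i
      rw [h1]
      calc _ = ‖Φ (X (n + 1)) i - Φ (X n) i‖ := by rw [← h2]
        _ ≤ κ * (κ ^ n * C0) := this
        _ = _ := by ring
  have hdist : ∀ i n, dist (X n i) (X (n + 1) i) ≤ C0 * κ ^ n := by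
    intro i n
    rw [dist_comm, dist_eq_norm, mul_comm]; exact hstep n i
  have hcau : ∀ i, CauchySeq (fun n => X n i) := fun i =>
    cauchySeq_of_le_geometric κ C0 hκ (hdist i)
  choose x hx using fun i => cauchySeq_tendsto_of_complete (hcau i)
  have hxS : ∀ i, x i ∈ S i := fun i =>
    (hS i).mem_of_tendsto (hx i) (Eventually.of_forall fun n => hXS n i)
  have hxd : ∀ n i, ‖X n i - x i‖ ≤ C0 * κ ^ n / (1 - κ) := by
    intro n i
    rw [← dist_eq_norm]
    exact dist_le_of_le_geometric_of_tendsto κ C0 hκ (hdist i) (hx i) n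
  refine ⟨x, hxS, ?_⟩
  funext i
  have h1 : Tendsto (fun n => X (n + 1) i) atTop (𝓝 (Φ x i)) := by
    rw [tendsto_iff_norm_sub_tendsto_zero]
    have hlim : Tendsto (fun n : ℕ => κ * (C0 * κ ^ n / (1 - κ))) atTop (𝓝 0) := by
      have := (tendsto_pow_atTop_nhds_zero_of_lt_one hκ0 hκ).const_mul (κ * C0 / (1 - κ))
      simp only [mul_zero] at this
      refine this.congr fun n => by ring
    refine squeeze_zero (fun n => norm_nonneg _) (fun n => ?_) hlim
    have h2 : X (n + 1) = Φ (X n) := Function.iterate_succ_apply' _ _ _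
    rw [h2]
    exact hlip (X n) x (hXS n) hxS _ (hxd n) i
  have h2 : Tendsto (fun n => X (n + 1) i) atTop (𝓝 (x i)) :=
    (hx i).comp (tendsto_add_atTop_nat 1)
  exact tendsto_nhds_unique h1 h2

end Cone

open Cone

namespace LocHyp

variable {G : Xs × Xu → Xs × Xu} {As : Xs →L[ℝ] Xs} {Au : Xu ≃L[ℝ] Xu} {ρ : ℝ}

theorem step (h : LocHyp G As Au ρ) {x y : Xs × Xu} (hx : ‖x‖ ≤ ρ) (hy : ‖y‖ ≤ ρ) :
    Step (x - y) (G x - G y) :=
  Step.of_lip h.norm_As h.norm_Au (h.lip x y hx hy)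

theorem isolated (h : LocHyp G As Au ρ)
    (x : ℤ → Xs × Xu) (hx : ∀ n, ‖x n‖ ≤ ρ) (hG : ∀ n, G (x n) = x (n + 1)) : ∀ n, x n = 0 := by
  have hst : ∀ n, Step (x n) (x (n + 1)) := by
    intro n
    have := h.step (hx n) (y := 0) (by simpa using h.rho_pos.le)
    rwa [h.zero, sub_zero, sub_zero, hG] at this
  intro n
  have key : ∀ k : ℕ, ‖x n‖ ≤ (1 / 4) ^ k * ρ := by
    intro k
    have := fwd_decay (d := fun m : ℕ => x (n - k + m)) (C := ρ) (fun m => by
      have := hst (n - k + m)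
      push_cast
      rwa [← add_assoc]) (fun m => hx _) k
    simp only [Nat.cast_zero, add_zero] at this
    rw [show n - (k : ℤ) + k = n by ring] at this
    exact this.trans (by gcongr; exact hx _)
  have hlim : Tendsto (fun k : ℕ => (1 / 4 : ℝ) ^ k * ρ) atTop (𝓝 0) := by
    have := (tendsto_pow_atTop_nhds_zero_of_lt_one (r := (1 / 4 : ℝ)) (by norm_num)
      (by norm_num)).mul_const ρ
    simpa using this
  have : ‖x n‖ ≤ 0 := ge_of_tendsto' hlim key
  exact norm_le_zero_iff.1 this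

theorem forward_tendsto (h : LocHyp G As Au ρ)
    (x : ℕ → Xs × Xu) (hx : ∀ n, ‖x n‖ ≤ ρ) (hG : ∀ n, G (x n) = x (n + 1)) :
    ∀ n, ‖x n‖ ≤ (1 / 4) ^ n * ρ := by
  intro n
  have := fwd_decay (d := x) (C := ρ) (fun m => by
    have := h.step (hx m) (y := 0) (by simpa using h.rho_pos.le)
    rwa [h.zero, sub_zero, sub_zero, hG] at this) hx n
  exact this.trans (by gcongr; exact hx 0)

theorem backward_tendsto (h : LocHyp G As Au ρ)
    (x : ℕ → Xs × Xu) (hx : ∀ n, ‖x n‖ ≤ ρ) (hG : ∀ n, G (x (n + 1)) = x n) :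
    ∀ n, ‖x n‖ ≤ (1 / 4) ^ n * ρ := by
  intro n
  have := bwd_decay (d := x) (C := ρ) (fun m => by
    have := h.step (hx (m + 1)) (y := 0) (by simpa using h.rho_pos.le)
    rwa [h.zero, sub_zero, sub_zero, hG] at this) hx n
  exact this.trans (by gcongr; exact hx 0)


/-- The Lipschitz estimate for the unstable part, solved for `x.2`. -/
theorem norm_fst_G_sub (h : LocHyp G As Au ρ) {x y : Xs × Xu} (hx : ‖x‖ ≤ ρ) (hy : ‖y‖ ≤ ρ) :
    ‖(G x).1 - (G y).1‖ ≤ 1 / 4 * ‖x - y‖ := by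
  have h1 := (h.step hx hy).1
  have h2 : ‖(x - y).1‖ ≤ ‖x - y‖ := norm_fst_le _
  have h3 : ‖(G x).1 - (G y).1‖ = ‖(G x - G y).1‖ := rfl
  rw [h3]; linarith

theorem norm_back (h : LocHyp G As Au ρ) {x y : Xs × Xu} (hx : ‖x‖ ≤ ρ) (hy : ‖y‖ ≤ ρ)
    {u v : Xu} {C : ℝ} (huv : ‖u - v‖ ≤ C) (hxy : ‖x - y‖ ≤ C) :
    ‖Au.symm (u - ((G x).2 - Au x.2)) - Au.symm (v - ((G y).2 - Au y.2))‖ ≤ 1 / 4 * C := by
  have h1 : ‖(G x).2 - (G y).2 - Au (x.2 - y.2)‖ ≤ 1 / 8 * ‖x - y‖ :=
    (norm_snd_le (G x - G y - (As (x.1 - y.1), Au (x.2 - y.2)))).trans (h.lip x y hx hy)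
  have h2 : ‖(u - ((G x).2 - Au x.2)) - (v - ((G y).2 - Au y.2))‖ ≤ C + 1 / 8 * C := by
    have : (u - ((G x).2 - Au x.2)) - (v - ((G y).2 - Au y.2)) =
        (u - v) - ((G x).2 - (G y).2 - Au (x.2 - y.2)) := by
      rw [map_sub]; abel
    rw [this]
    refine (norm_sub_le _ _).trans (add_le_add huv (h1.trans (by gcongr)))
  have h3 := ((Au.symm : Xu →L[ℝ] Xu).le_opNorm
    ((u - ((G x).2 - Au x.2)) - (v - ((G y).2 - Au y.2)))).trans
      (mul_le_mul h.norm_Au h2 (norm_nonneg _) (by norm_num))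
  have hC : 0 ≤ C := (norm_nonneg _).trans hxy
  rw [← map_sub]
  refine le_trans h3 ?_
  nlinarith

theorem connect_of_complete [CompleteSpace Xs] [CompleteSpace Xu] (h : LocHyp G As Au ρ)
    (b a : ℕ → Xs × Xu) (hb : ∀ n, ‖b n‖ ≤ ρ) (hGb : ∀ n, G (b n) = b (n + 1))
    (ha : ∀ n, ‖a n‖ ≤ ρ) (hGa : ∀ n, G (a (n + 1)) = a n) (j : ℕ) :
    ∃ x : ℕ → Xs × Xu, (∀ i < j, G (x i) = x (i + 1)) ∧
      ∀ i ≤ j, ‖x i‖ ≤ ρ ∧ ‖x i - b i‖ ≤ 2 * ρ * (1 / 4) ^ (j - i) ∧
        ‖x i - a (j - i)‖ ≤ 2 * ρ * (1 / 4) ^ i := by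
  have hρ := h.rho_pos
  have h0 : ‖(0 : Xs × Xu)‖ ≤ ρ := by simpa using hρ.le
  let Φ : (ℕ → Xs × Xu) → ℕ → Xs × Xu := fun x i =>
    (if i = 0 then (b 0).1 else (G (x (i - 1))).1,
      if i < j then Au.symm ((x (i + 1)).2 - ((G (x i)).2 - Au (x i).2)) else (a 0).2)
  have hmap : ∀ x : ℕ → Xs × Xu, (∀ i, x i ∈ Metric.closedBall 0 ρ) →
      ∀ i, Φ x i ∈ Metric.closedBall 0 ρ := by
    intro x hx i
    simp only [mem_closedBall_zero_iff] at hx ⊢
    refine norm_le_of ?_ ?_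
    · simp only [Φ]
      split_ifs with hi
      · exact (norm_fst_le _).trans (hb 0)
      · have := h.norm_fst_G_sub (hx (i - 1)) h0
        rw [h.zero] at this
        simp only [Prod.fst_zero, sub_zero] at this
        have h2 := hx (i - 1)
        linarith
    · simp only [Φ]
      split_ifs with hi
      · have := h.norm_back (hx i) h0 (u := (x (i + 1)).2) (v := 0) (C := ρ)
          (by simpa using (norm_snd_le _).trans (hx (i + 1))) (by simpa using hx i)
        rw [h.zero] at this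
        simp only [Prod.snd_zero, sub_zero, map_zero] at this
        linarith
      · exact (norm_snd_le _).trans (ha 0)
  have hlip : ∀ x y : ℕ → Xs × Xu, (∀ i, x i ∈ Metric.closedBall 0 ρ) →
      (∀ i, y i ∈ Metric.closedBall 0 ρ) → ∀ C, (∀ i, ‖x i - y i‖ ≤ C) →
      ∀ i, ‖Φ x i - Φ y i‖ ≤ 1 / 4 * C := by
    intro x y hx hy C hC i
    simp only [mem_closedBall_zero_iff] at hx hy
    have hC0 : 0 ≤ C := (norm_nonneg _).trans (hC 0)
    refine norm_le_of ?_ ?_
    · simp only [Φ, Prod.fst_sub]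
      split_ifs with hi
      · simp; positivity
      · exact (h.norm_fst_G_sub (hx (i - 1)) (hy (i - 1))).trans (by gcongr; exact hC _)
    · simp only [Φ, Prod.snd_sub]
      split_ifs with hi
      · refine h.norm_back (hx i) (hy i) ?_ (hC i)
        exact (norm_snd_le (x (i + 1) - y (i + 1))).trans (hC _)
      · simp; positivity
  obtain ⟨x, hx, hfix⟩ := exists_fixed (fun _ : ℕ => Metric.closedBall (0 : Xs × Xu) ρ)
    (fun _ => Metric.isClosed_closedBall) Φ hmap (by norm_num) (by norm_num) hlip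
    (fun _ => 0) (fun _ => by simp [hρ.le]) (2 * ρ) (fun i => by
      have := hmap (fun _ => 0) (fun _ => by simp [hρ.le]) i
      rw [mem_closedBall_zero_iff] at this
      simp only [sub_zero]; linarith)
  simp only [mem_closedBall_zero_iff] at hx
  have hxG : ∀ i < j, G (x i) = x (i + 1) := by
    intro i hi
    refine Prod.ext ?_ ?_
    · have := congrArg Prod.fst (congrFun hfix (i + 1))
      simpa [Φ] using this
    · have := congrArg (fun z => Au z.2) (congrFun hfix i)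
      simp only [Φ, hi, if_true, ContinuousLinearEquiv.apply_symm_apply] at this
      rw [sub_eq_iff_eq_add] at this
      rw [this]; abel
  refine ⟨x, hxG, fun i hi => ⟨hx i, ?_, ?_⟩⟩
  · -- distance to `b`
    have hst : ∀ i < j, Step (x i - b i) (x (i + 1) - b (i + 1)) := by
      intro i hi
      rw [← hxG i hi, ← hGb i]
      exact h.step (hx i) (hb i)
    have hcone : ∀ i ≤ j, ‖(x i - b i).1‖ ≤ ‖(x i - b i).2‖ := by
      intro i
      induction i with
      | zero =>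
        intro _
        have := congrArg Prod.fst (congrFun hfix 0)
        simp only [Φ, if_true] at this
        simp [← this]
      | succ i ih => intro hi; exact (hst i hi).ucone' (ih (by omega))
    have key : ∀ k ≤ j - i, ‖(x i - b i).2‖ ≤ (1 / 4) ^ k * ‖(x (i + k) - b (i + k)).2‖ := by
      intro k
      induction k with
      | zero => intro _; simp
      | succ k ih =>
        intro hk
        have h1 := ((hst (i + k) (by omega)).ucone (hcone (i + k) (by omega))).2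
        have h2 := ih (by omega)
        have h3 := norm_nonneg (x (i + k) - b (i + k)).2
        have h4 : ‖(x (i + k) - b (i + k)).2‖ ≤
            1 / 4 * ‖(x (i + (k + 1)) - b (i + (k + 1))).2‖ := by
          have : i + (k + 1) = i + k + 1 := rfl
          rw [this]; linarith
        calc _ ≤ (1 / 4) ^ k * ‖(x (i + k) - b (i + k)).2‖ := h2
          _ ≤ (1 / 4) ^ k * (1 / 4 * ‖(x (i + (k + 1)) - b (i + (k + 1))).2‖) := by gcongr
          _ = _ := by ring
    have h1 : ‖x i - b i‖ ≤ ‖(x i - b i).2‖ := norm_le_of (hcone i hi) le_rfl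
    have h2 := key (j - i) le_rfl
    have h3 : ‖(x (i + (j - i)) - b (i + (j - i))).2‖ ≤ 2 * ρ := by
      refine (norm_snd_le _).trans ((norm_sub_le _ _).trans ?_)
      linarith [hx (i + (j - i)), hb (i + (j - i))]
    calc _ ≤ (1 / 4) ^ (j - i) * ‖(x (i + (j - i)) - b (i + (j - i))).2‖ := h1.trans h2
      _ ≤ (1 / 4) ^ (j - i) * (2 * ρ) := by gcongr
      _ = _ := by ring
  · -- distance to `a`
    have hst : ∀ i < j, Step (x i - a (j - i)) (x (i + 1) - a (j - (i + 1))) := by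
      intro i hi
      have : a (j - (i + 1)) = G (a (j - i)) := by
        rw [show j - i = (j - (i + 1)) + 1 by omega, hGa]
      rw [← hxG i hi, this]
      exact h.step (hx i) (ha _)
    have hcone : ∀ k ≤ j, ‖(x (j - k) - a (j - (j - k))).2‖ ≤ ‖(x (j - k) - a (j - (j - k))).1‖ := by
      intro k
      induction k with
      | zero =>
        intro _
        have := congrArg Prod.snd (congrFun hfix j)
        simp only [Φ, lt_irrefl, if_false] at this
        simp [← this]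
      | succ k ih =>
        intro hk
        have h1 := hst (j - (k + 1)) (by omega)
        have h2 := ih (by omega)
        rw [show j - (k + 1) + 1 = j - k by omega] at h1
        exact (h1.scone h2).1
    have hcone' : ∀ i ≤ j, ‖(x i - a (j - i)).2‖ ≤ ‖(x i - a (j - i)).1‖ := by
      intro i hi
      have := hcone (j - i) (by omega)
      rwa [show j - (j - i) = i by omega] at this
    have key : ∀ i ≤ j, ‖(x i - a (j - i)).1‖ ≤ (1 / 4) ^ i * ‖(x 0 - a j).1‖ := by
      intro i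
      induction i with
      | zero => intro _; simp
      | succ i ih =>
        intro hi
        have h1 := ((hst i hi).scone (hcone' (i + 1) hi)).2
        calc _ ≤ 1 / 4 * ‖(x i - a (j - i)).1‖ := h1
          _ ≤ 1 / 4 * ((1 / 4) ^ i * ‖(x 0 - a j).1‖) := by gcongr; exact ih (by omega)
          _ = _ := by ring
    have h1 : ‖x i - a (j - i)‖ ≤ ‖(x i - a (j - i)).1‖ := norm_le_of le_rfl (hcone' i hi)
    have h3 : ‖(x 0 - a j).1‖ ≤ 2 * ρ := by
      refine (norm_fst_le _).trans ((norm_sub_le _ _).trans ?_)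
      linarith [hx 0, ha j]
    calc _ ≤ (1 / 4) ^ i * ‖(x 0 - a j).1‖ := h1.trans (key i hi)
      _ ≤ (1 / 4) ^ i * (2 * ρ) := by gcongr
      _ = _ := by ring

theorem connect [FiniteDimensional ℝ Xs] [FiniteDimensional ℝ Xu] (h : LocHyp G As Au ρ)
    (b a : ℕ → Xs × Xu) (hb : ∀ n, ‖b n‖ ≤ ρ) (hGb : ∀ n, G (b n) = b (n + 1))
    (ha : ∀ n, ‖a n‖ ≤ ρ) (hGa : ∀ n, G (a (n + 1)) = a n) (j : ℕ) :
    ∃ x : ℕ → Xs × Xu, (∀ i < j, G (x i) = x (i + 1)) ∧
      ∀ i ≤ j, ‖x i‖ ≤ ρ ∧ ‖x i - b i‖ ≤ 2 * ρ * (1 / 4) ^ (j - i) ∧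
        ‖x i - a (j - i)‖ ≤ 2 * ρ * (1 / 4) ^ i := by
  have : CompleteSpace Xs := FiniteDimensional.complete ℝ Xs
  have : CompleteSpace Xu := FiniteDimensional.complete ℝ Xu
  exact h.connect_of_complete b a hb hGb ha hGa j

theorem norm_fderiv_sub_le (h : LocHyp G As Au ρ) {Ω : Set (Xs × Xu)} (hΩ : IsOpen Ω)
    (hball : Metric.closedBall 0 ρ ⊆ Ω) (hC : ContDiffOn ℝ 1 G Ω) {x : Xs × Xu} (hx : ‖x‖ < ρ)
    (v : Xs × Xu) : ‖fderiv ℝ G x v - (As v.1, Au v.2)‖ ≤ 1 / 8 * ‖v‖ := by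
  let A : Xs × Xu →L[ℝ] Xs × Xu := As.prodMap (Au : Xu →L[ℝ] Xu)
  have hxΩ : Ω ∈ 𝓝 x := hΩ.mem_nhds (hball (by simpa using hx.le))
  have hd : HasFDerivAt G (fderiv ℝ G x) x :=
    ((hC.contDiffAt hxΩ).differentiableAt (by norm_num)).hasFDerivAt
  have hd2 : HasFDerivAt (fun y => G y - A y) (fderiv ℝ G x - A) x := hd.sub A.hasFDerivAt
  have hball' : Metric.ball (0 : Xs × Xu) ρ ∈ 𝓝 x :=
    Metric.isOpen_ball.mem_nhds (by simpa using hx)
  have hle : ‖fderiv ℝ G x - A‖ ≤ 1 / 8 := by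
    refine hd2.le_of_lip' (by norm_num) ?_
    filter_upwards [hball'] with y hy
    have hy' : ‖y‖ ≤ ρ := by
      rw [mem_ball_zero_iff] at hy; exact hy.le
    have := h.lip y x hy' hx.le
    have e : G y - A y - (G x - A x) = G y - G x - (As (y.1 - x.1), Au (y.2 - x.2)) := by
      have : A (y - x) = (As (y.1 - x.1), Au (y.2 - x.2)) := rfl
      rw [← this, map_sub]; abel
    rw [e]; exact this
  have e : fderiv ℝ G x v - (As v.1, Au v.2) = (fderiv ℝ G x - A) v := rfl
  rw [e]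
  exact (ContinuousLinearMap.le_opNorm _ _).trans (mul_le_mul_of_nonneg_right hle (norm_nonneg _))

theorem step_fderiv (h : LocHyp G As Au ρ) {Ω : Set (Xs × Xu)} (hΩ : IsOpen Ω)
    (hball : Metric.closedBall 0 ρ ⊆ Ω) (hC : ContDiffOn ℝ 1 G Ω) {x : Xs × Xu} (hx : ‖x‖ < ρ)
    (v : Xs × Xu) : Step v (fderiv ℝ G x v) :=
  Step.of_lip h.norm_As h.norm_Au (h.norm_fderiv_sub_le hΩ hball hC hx v)

theorem fwdBdd_scone (h : LocHyp G As Au ρ) {Ω : Set (Xs × Xu)} (hΩ : IsOpen Ω)
    (hball : Metric.closedBall 0 ρ ⊆ Ω) (hC : ContDiffOn ℝ 1 G Ω) (b : ℕ → Xs × Xu)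
    (hb : ∀ n, ‖b n‖ < ρ) {v : Xs × Xu} (hv : v ∈ fwdBdd G b) : ‖v.2‖ ≤ ‖v.1‖ := by
  obtain ⟨w, h0, h1, C, h2⟩ := hv
  have := fwd_scone (d := w) (C := C) (fun n => by
    rw [← h1 n]; exact h.step_fderiv hΩ hball hC (hb n) _) h2 0
  rwa [h0] at this

theorem bwdBdd_ucone (h : LocHyp G As Au ρ) {Ω : Set (Xs × Xu)} (hΩ : IsOpen Ω)
    (hball : Metric.closedBall 0 ρ ⊆ Ω) (hC : ContDiffOn ℝ 1 G Ω) (a : ℕ → Xs × Xu)
    (ha : ∀ n, ‖a n‖ < ρ) {v : Xs × Xu} (hv : v ∈ bwdBdd G a) : ‖v.1‖ ≤ ‖v.2‖ := by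
  obtain ⟨w, h0, h1, C, h2⟩ := hv
  have := bwd_ucone (d := w) (C := C) (fun n => by
    rw [← h1 n]; exact h.step_fderiv hΩ hball hC (ha (n + 1)) _) h2 0
  rwa [h0] at this

theorem finrank_fwdBdd [FiniteDimensional ℝ Xs] (h : LocHyp G As Au ρ)
    {Ω : Set (Xs × Xu)} (hΩ : IsOpen Ω) (hball : Metric.closedBall 0 ρ ⊆ Ω)
    (hC : ContDiffOn ℝ 1 G Ω) (b : ℕ → Xs × Xu) (hb : ∀ n, ‖b n‖ < ρ)
    (_hGb : ∀ n, G (b n) = b (n + 1)) :
    Module.finrank ℝ (fwdBdd G b) ≤ Module.finrank ℝ Xs := by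
  refine LinearMap.finrank_le_finrank_of_injective
    (f := (LinearMap.fst ℝ Xs Xu).comp (fwdBdd G b).subtype) ?_
  rw [injective_iff_map_eq_zero]
  rintro ⟨v, hv⟩ hv0
  have h1 := h.fwdBdd_scone hΩ hball hC b hb hv
  have h2 : v.1 = 0 := hv0
  rw [h2, norm_zero] at h1
  exact Subtype.ext (Prod.ext h2 (norm_le_zero_iff.1 h1))

theorem finrank_bwdBdd [FiniteDimensional ℝ Xu] (h : LocHyp G As Au ρ)
    {Ω : Set (Xs × Xu)} (hΩ : IsOpen Ω) (hball : Metric.closedBall 0 ρ ⊆ Ω)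
    (hC : ContDiffOn ℝ 1 G Ω) (a : ℕ → Xs × Xu) (ha : ∀ n, ‖a n‖ < ρ)
    (_hGa : ∀ n, G (a (n + 1)) = a n) :
    Module.finrank ℝ (bwdBdd G a) ≤ Module.finrank ℝ Xu := by
  refine LinearMap.finrank_le_finrank_of_injective
    (f := (LinearMap.snd ℝ Xs Xu).comp (bwdBdd G a).subtype) ?_
  rw [injective_iff_map_eq_zero]
  rintro ⟨v, hv⟩ hv0
  have h1 := h.bwdBdd_ucone hΩ hball hC a ha hv
  have h2 : v.2 = 0 := hv0
  rw [h2, norm_zero] at h1
  exact Subtype.ext (Prod.ext (norm_le_zero_iff.1 h1) h2)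

end LocHyp

end Pool.Agent.OmegaStab

end
end

section

/-!
# Toolbox: orbits of homeomorphisms of compact metric spaces
-/

open Set Filter Topology Function

noncomputable section

namespace Pool.Agent.OmegaStab

section zpow

variable {M : Type*} [TopologicalSpace M] (h : M ≃ₜ M)

theorem npow_apply (n : ℕ) (x : M) : (h ^ n) x = h^[n] x := by
  induction n with
  | zero => simp
  | succ n ih => rw [pow_succ', Homeomorph.mul_apply, ih, Function.iterate_succ_apply']

theorem zpow_natCast_apply (n : ℕ) (x : M) : (h ^ (n : ℤ)) x = h^[n] x := by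
  rw [zpow_natCast, npow_apply]

theorem inv_apply' (x : M) : h⁻¹ x = h.symm x := rfl

theorem zpow_neg_natCast_apply (n : ℕ) (x : M) : (h ^ (-(n : ℤ))) x = h.symm^[n] x := by
  rw [zpow_neg, zpow_natCast, ← inv_pow, npow_apply]
  rfl

theorem zpow_add_apply (a b : ℤ) (x : M) : (h ^ (a + b)) x = (h ^ a) ((h ^ b) x) := by
  rw [zpow_add, Homeomorph.mul_apply]

theorem zpow_zero_apply (x : M) : (h ^ (0 : ℤ)) x = x := by simp

theorem zpow_one_apply (x : M) : (h ^ (1 : ℤ)) x = h x := by simp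

theorem apply_zpow (a : ℤ) (x : M) : h ((h ^ a) x) = (h ^ (a + 1)) x := by
  rw [add_comm, zpow_add_apply, zpow_one_apply]

theorem zpow_apply_apply (a : ℤ) (x : M) : (h ^ a) (h x) = (h ^ (a + 1)) x := by
  rw [zpow_add_apply, zpow_one_apply]

theorem iterate_zpow (n : ℕ) (a : ℤ) (x : M) : h^[n] ((h ^ a) x) = (h ^ (a + n)) x := by
  rw [add_comm, zpow_add_apply, zpow_natCast_apply]

theorem zpow_injective (a : ℤ) : Function.Injective (h ^ a : M ≃ₜ M) := (h ^ a : M ≃ₜ M).injective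

theorem zpow_continuous (a : ℤ) : Continuous (h ^ a : M ≃ₜ M) := (h ^ a : M ≃ₜ M).continuous

theorem symm_iterate_iterate (n : ℕ) (x : M) : h.symm^[n] (h^[n] x) = x :=
  (Function.LeftInverse.iterate h.symm_apply_apply n) x

theorem iterate_symm_iterate (n : ℕ) (x : M) : h^[n] (h.symm^[n] x) = x :=
  (Function.LeftInverse.iterate h.apply_symm_apply n) x

end zpow

section Orb

variable {M : Type*} {f : M → M}

theorem mem_Orb_self (f : M → M) (p : M) : p ∈ Orb f p := ⟨0, rfl⟩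

theorem iterate_mem_Orb (f : M → M) (p : M) (n : ℕ) : f^[n] p ∈ Orb f p := ⟨n, rfl⟩

theorem Orb_nonempty (f : M → M) (p : M) : (Orb f p).Nonempty := ⟨p, mem_Orb_self f p⟩

theorem mem_Orb_iterate {p q : M} (hq : q ∈ Orb f p) (n : ℕ) : f^[n] q ∈ Orb f p := by
  obtain ⟨k, rfl⟩ := hq
  exact ⟨n + k, Function.iterate_add_apply f n k p⟩

theorem exists_iterate_eq {p q : M} (hp : p ∈ periodicPts f) (hq : q ∈ Orb f p) :
    ∃ l : ℕ, f^[l] q = p := by
  obtain ⟨k, rfl⟩ := hq
  obtain ⟨m, hm0, hm⟩ := hp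
  refine ⟨m * k - k, ?_⟩
  change f^[m * k - k] (f^[k] p) = p
  rw [← Function.iterate_add_apply, Nat.sub_add_cancel (Nat.le_mul_of_pos_left k hm0),
    Function.iterate_mul]
  exact Function.iterate_fixed hm k

theorem Orb_eq_of_mem {p q : M} (hp : p ∈ periodicPts f) (hq : q ∈ Orb f p) :
    Orb f q = Orb f p := by
  apply Set.Subset.antisymm
  · rintro _ ⟨n, rfl⟩
    exact mem_Orb_iterate hq n
  · obtain ⟨l, hl⟩ := exists_iterate_eq hp hq
    rintro _ ⟨n, rfl⟩
    refine ⟨n + l, ?_⟩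
    change f^[n + l] q = f^[n] p
    rw [Function.iterate_add_apply, hl]

theorem periodic_of_mem_Orb {p q : M} (hp : p ∈ periodicPts f) (hq : q ∈ Orb f p) :
    q ∈ periodicPts f := by
  obtain ⟨k, rfl⟩ := hq
  obtain ⟨m, hm0, hm⟩ := hp
  exact ⟨m, hm0, hm.apply_iterate k⟩

theorem Orb_finite {p : M} (hp : p ∈ periodicPts f) : (Orb f p).Finite := by
  obtain ⟨m, hm0, hm⟩ := hp
  refine ((Set.finite_Iio m).image (fun n => f^[n] p)).subset ?_
  rintro _ ⟨n, rfl⟩
  exact ⟨n % m, Nat.mod_lt _ hm0, hm.iterate_mod_apply n⟩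

end Orb

section OrbHomeo

variable {M : Type*} [TopologicalSpace M] (h : M ≃ₜ M)

theorem mem_periodicPts_iff {x : M} :
    x ∈ periodicPts h ↔ ∃ n : ℕ, 0 < n ∧ h^[n] x = x := Iff.rfl

theorem symm_periodicPts : periodicPts h.symm = periodicPts h := by
  ext x
  constructor
  · rintro ⟨n, hn, hx⟩
    refine ⟨n, hn, ?_⟩
    change h^[n] x = x
    have := iterate_symm_iterate h n x
    rwa [show h.symm^[n] x = x from hx] at this
  · rintro ⟨n, hn, hx⟩
    refine ⟨n, hn, ?_⟩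
    change h.symm^[n] x = x
    have := symm_iterate_iterate h n x
    rwa [show h^[n] x = x from hx] at this

theorem symm_iterate_mem_Orb {p : M} (hp : p ∈ periodicPts h) (n : ℕ) :
    h.symm^[n] p ∈ Orb h p := by
  obtain ⟨m, hm0, hm⟩ := hp
  refine ⟨m * n - n, ?_⟩
  have h1 : h^[n] (h^[m * n - n] p) = p := by
    rw [← Function.iterate_add_apply, Nat.add_sub_cancel' (Nat.le_mul_of_pos_left n hm0),
      Function.iterate_mul]
    exact Function.iterate_fixed hm n
  change h^[m * n - n] p = _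
  rw [← symm_iterate_iterate h n (h^[m * n - n] p), h1]

theorem Orb_symm {p : M} (hp : p ∈ periodicPts h) : Orb h.symm p = Orb h p := by
  apply Set.Subset.antisymm
  · rintro _ ⟨n, rfl⟩
    exact symm_iterate_mem_Orb h hp n
  · rintro _ ⟨n, rfl⟩
    have hp' : p ∈ periodicPts h.symm := by rw [symm_periodicPts]; exact hp
    exact symm_iterate_mem_Orb h.symm hp' n

theorem zpow_mem_Orb {p q : M} (hp : p ∈ periodicPts h) (hq : q ∈ Orb h p) (n : ℤ) :
    (h ^ n) q ∈ Orb h p := by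
  have hq' := periodic_of_mem_Orb hp hq
  rcases Int.eq_nat_or_neg n with ⟨k, rfl | rfl⟩
  · rw [zpow_natCast_apply]; exact mem_Orb_iterate hq k
  · rw [zpow_neg_natCast_apply, ← Orb_eq_of_mem hp hq]
    exact symm_iterate_mem_Orb h hq' k

theorem mem_Orb_of_zpow {p q : M} (hp : p ∈ periodicPts h) (n : ℤ) (hq : (h ^ n) q ∈ Orb h p) :
    q ∈ Orb h p := by
  have := zpow_mem_Orb h hp hq (-n)
  rwa [← zpow_add_apply, neg_add_cancel, zpow_zero_apply] at this

/-- a point whose orbit converges forward to a periodic orbit, and which is periodic, belongs to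
that orbit -/
theorem mem_Orb_of_tendsto [T2Space M] {p x : M} (hp : p ∈ periodicPts h)
    (hx : x ∈ periodicPts h) (ht : Tendsto (fun n : ℕ => h^[n] x) atTop (𝓝ˢ (Orb h p))) :
    x ∈ Orb h p := by
  by_contra hnot
  have hfin : (Orb h x).Finite := Orb_finite hx
  have hdisj : Disjoint (Orb h p) (Orb h x) := by
    rw [Set.disjoint_left]
    intro y hy hy'
    apply hnot
    rw [← Orb_eq_of_mem hp hy, Orb_eq_of_mem hx hy']
    exact mem_Orb_self _ _
  have hU : (Orb h x)ᶜ ∈ 𝓝ˢ (Orb h p) :=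
    hfin.isClosed.isOpen_compl.mem_nhdsSet.2 (Set.subset_compl_iff_disjoint_right.2 hdisj)
  obtain ⟨n, hn⟩ := (ht.eventually hU).exists
  exact hn (iterate_mem_Orb _ _ n)

end OrbHomeo

section Shadow

variable {M : Type*} [MetricSpace M] [CompactSpace M] (h : M ≃ₜ M)

/-- Points staying close to a periodic orbit follow the points of the orbit. -/
theorem exists_shadow {p : M} (hp : p ∈ periodicPts h) (η : ℝ) (hη : 0 < η) :
    ∃ δ : ℝ, 0 < δ ∧ δ ≤ η ∧ ∀ x q : M, q ∈ Orb h p → dist x q ≤ δ →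
      (∀ n : ℕ, ∃ q' ∈ Orb h p, dist (h^[n] x) q' ≤ δ) → ∀ n : ℕ, dist (h^[n] x) (h^[n] q) ≤ δ := by
  have hfin := Orb_finite hp
  -- separation of the points of the orbit
  obtain ⟨s, hs0, hs⟩ : ∃ s : ℝ, 0 < s ∧ ∀ a ∈ Orb h p, ∀ b ∈ Orb h p, a ≠ b → s ≤ dist a b := by
    have hF : ((Orb h p ×ˢ Orb h p) ∩ {q : M × M | q.1 ≠ q.2}).Finite :=
      (hfin.prod hfin).subset inter_subset_left
    rcases ((Orb h p ×ˢ Orb h p) ∩ {q : M × M | q.1 ≠ q.2}).eq_empty_or_nonempty with he | hne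
    · refine ⟨1, one_pos, fun a ha b hb hab => ?_⟩
      exact absurd (show (a, b) ∈ (Orb h p ×ˢ Orb h p) ∩ {q : M × M | q.1 ≠ q.2} from
        ⟨⟨ha, hb⟩, hab⟩) (by rw [he]; exact notMem_empty _)
    · obtain ⟨q, hq, hmin⟩ := hF.exists_minimalFor (fun q => dist q.1 q.2) _ hne
      refine ⟨dist q.1 q.2, dist_pos.2 hq.2, fun a ha b hb hab => ?_⟩
      by_contra hlt
      rw [not_le] at hlt
      have hab' : (a, b) ∈ (Orb h p ×ˢ Orb h p) ∩ {q : M × M | q.1 ≠ q.2} := ⟨⟨ha, hb⟩, hab⟩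
      exact absurd (hmin hab' hlt.le) (not_le.2 hlt)
  have huc : UniformContinuous h := CompactSpace.uniformContinuous_of_continuous h.continuous
  obtain ⟨δ₀, hδ₀, hδ₀'⟩ := Metric.uniformContinuous_iff.1 huc (s / 2) (by linarith)
  refine ⟨min (δ₀ / 2) (min η (s / 4)), by positivity, (min_le_right _ _).trans (min_le_left _ _),
    fun x q hq hxq hall n => ?_⟩
  set δ := min (δ₀ / 2) (min η (s / 4)) with hδ
  have hδ1 : δ < δ₀ := lt_of_le_of_lt (min_le_left _ _) (by linarith)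
  have hδ2 : δ ≤ s / 4 := (min_le_right _ _).trans (min_le_right _ _)
  induction n with
  | zero => exact hxq
  | succ n ih =>
    rw [Function.iterate_succ_apply', Function.iterate_succ_apply']
    obtain ⟨q', hq', hd⟩ := hall (n + 1)
    rw [Function.iterate_succ_apply'] at hd
    have h1 : dist (h (h^[n] x)) (h (h^[n] q)) < s / 2 := hδ₀' (lt_of_le_of_lt ih hδ1)
    have h2 : h (h^[n] q) ∈ Orb h p := by
      have := mem_Orb_iterate hq (n + 1)
      rwa [Function.iterate_succ_apply'] at this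
    by_cases heq : q' = h (h^[n] q)
    · rw [← heq]; exact hd
    · exfalso
      have h3 := hs q' hq' _ h2 heq
      have h4 := dist_triangle_left q' (h (h^[n] q)) (h (h^[n] x))
      linarith

omit [CompactSpace M] in
/-- Convergence to a periodic orbit, quantitatively: eventually close. -/
theorem eventually_close {p x : M} (ht : Tendsto (fun n : ℕ => h^[n] x) atTop (𝓝ˢ (Orb h p)))
    (δ : ℝ) (hδ : 0 < δ) : ∃ n₀ : ℕ, ∀ n ≥ n₀, ∃ q ∈ Orb h p, dist (h^[n] x) q ≤ δ := by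
  have hU : Metric.thickening δ (Orb h p) ∈ 𝓝ˢ (Orb h p) :=
    Metric.isOpen_thickening.mem_nhdsSet.2 (Metric.self_subset_thickening hδ _)
  obtain ⟨n₀, hn₀⟩ := eventually_atTop.1 (ht.eventually hU)
  refine ⟨n₀, fun n hn => ?_⟩
  obtain ⟨q, hq, hd⟩ := Metric.mem_thickening_iff.1 (hn₀ n hn)
  exact ⟨q, hq, hd.le⟩

/-- A point converging to the orbit of `p` has an iterate which follows `p`. -/
theorem exists_iterate_follow {p x : M} (hp : p ∈ periodicPts h)
    (ht : Tendsto (fun n : ℕ => h^[n] x) atTop (𝓝ˢ (Orb h p))) (η : ℝ) (hη : 0 < η) :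
    ∃ l : ℕ, ∀ n : ℕ, dist (h^[l + n] x) (h^[n] p) ≤ η := by
  obtain ⟨δ, hδ, hδη, hsh⟩ := exists_shadow h hp η hη
  obtain ⟨n₀, hn₀⟩ := eventually_close h ht δ hδ
  obtain ⟨q, hq, hd⟩ := hn₀ n₀ le_rfl
  have h1 := hsh (h^[n₀] x) q hq hd (fun n => by
    obtain ⟨q', hq', hd'⟩ := hn₀ (n + n₀) (Nat.le_add_left _ _)
    exact ⟨q', hq', by rwa [Function.iterate_add_apply] at hd'⟩)
  obtain ⟨k, hk⟩ := exists_iterate_eq hp hq
  refine ⟨n₀ + k, fun n => ?_⟩
  have h2 := h1 (k + n)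
  rw [show h^[k + n] q = h^[n] p by rw [add_comm, Function.iterate_add_apply, hk]] at h2
  rw [show h^[n₀ + k + n] x = h^[k + n] (h^[n₀] x) by
    rw [← Function.iterate_add_apply]; congr 1; ring_nf]
  exact h2.trans hδη

end Shadow

end Pool.Agent.OmegaStab

end
end

section

/-!
# Topological lemma: finite nonwandering set or a cycle of periodic orbits
-/

open Set Filter Topology Function
open scoped Manifold ContDiff

set_option linter.unusedSectionVars false

noncomputable section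

namespace Pool.Agent.OmegaStab

namespace TopLem

variable {M : Type*} [MetricSpace M]

/-- `K` is `ε`-chain transitive for `f`. -/
def CT (f : M → M) (ε : ℝ) (K : Set M) : Prop :=
  ∀ x ∈ K, ∀ y ∈ K, Relation.TransGen (fun a b => a ∈ K ∧ b ∈ K ∧ dist (f a) b < ε) x y

/-- `K` is internally chain transitive. -/
def ICT (f : M → M) (K : Set M) : Prop := ∀ ε > 0, CT f ε K

lemma CT.mono {f : M → M} {ε ε' : ℝ} {K : Set M} (h : CT f ε K) (hε : ε ≤ ε') : CT f ε' K := by
  intro x hx y hy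
  have hle : (fun a b => a ∈ K ∧ b ∈ K ∧ dist (f a) b < ε : M → M → Prop) ≤
      (fun a b => a ∈ K ∧ b ∈ K ∧ dist (f a) b < ε') :=
    fun a b hab => ⟨hab.1, hab.2.1, hab.2.2.trans_le hε⟩
  exact Relation.TransGen.mono hle _ _ (h x hx y hy)

lemma ict_of_approx [CompactSpace M] {f : M → M} (hf : Continuous f) {K : Set M}
    (h : ∀ δ > 0, ∃ K', CT f δ K' ∧ (∀ a ∈ K', ∃ b ∈ K, dist a b < δ) ∧
      (∀ a ∈ K, ∃ b ∈ K', dist a b < δ)) : ICT f K := by
  intro ε hε x hx y hy
  have hu : UniformContinuous f := CompactSpace.uniformContinuous_of_continuous hf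
  obtain ⟨δ₀, hδ₀, hd⟩ := Metric.uniformContinuous_iff.1 hu (ε / 3) (by positivity)
  obtain ⟨K', hct, h1, h2⟩ := h (min δ₀ (ε / 3)) (lt_min hδ₀ (by positivity))
  set δ := min δ₀ (ε / 3) with hδdef
  have hδ1 : δ ≤ δ₀ := min_le_left _ _
  have hδ2 : δ ≤ ε / 3 := min_le_right _ _
  have step : ∀ a ∈ K, ∀ b ∈ K, ∀ a' b', dist a a' < δ → dist b b' < δ → dist (f a') b' < δ →
      dist (f a) b < ε := by
    intro a ha b hb a' b' haa hbb hab
    have e1 : dist (f a) (f a') < ε / 3 := hd (haa.trans_le hδ1)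
    have e2 : dist b' b < ε / 3 := by rw [dist_comm]; exact hbb.trans_le hδ2
    have e3 : dist (f a') b' < ε / 3 := hab.trans_le hδ2
    have := dist_triangle4 (f a) (f a') b' b
    linarith
  obtain ⟨x', hx', hxx'⟩ := h2 x hx
  obtain ⟨y', hy', hyy'⟩ := h2 y hy
  have key : ∀ z, Relation.TransGen (fun a b => a ∈ K' ∧ b ∈ K' ∧ dist (f a) b < δ) x' z →
      ∀ w ∈ K, dist w z < δ →
        Relation.TransGen (fun a b => a ∈ K ∧ b ∈ K ∧ dist (f a) b < ε) x w := by
    intro z hz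
    induction hz with
    | single hab =>
      intro w hw hwz
      exact Relation.TransGen.single ⟨hx, hw, step x hx w hw _ _ hxx' hwz hab.2.2⟩
    | tail _ hbc ih =>
      intro w hw hwz
      obtain ⟨v, hv, hvb⟩ := h1 _ hbc.1
      rw [dist_comm] at hvb
      exact (ih v hv hvb).tail ⟨hv, hw, step v hv w hw _ _ hvb hwz hbc.2.2⟩
  exact key y' (hct x' hx' y' hy') y hy hyy'

lemma tendsto_nhdsSet_of_cluster [CompactSpace M] {u : ℕ → M} {K : Set M}
    (h : ∀ y, MapClusterPt y atTop u → y ∈ K) : Tendsto u atTop (𝓝ˢ K) := by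
  intro W hW
  obtain ⟨V, hVo, hKV, hVW⟩ := mem_nhdsSet_iff_exists.1 hW
  suffices hh : ∀ᶠ n in atTop, u n ∈ V from hh.mono fun n hn => hVW hn
  by_contra hcon
  have hfr : ∃ᶠ n in atTop, u n ∈ Vᶜ := by
    rw [Filter.not_eventually] at hcon
    exact hcon
  obtain ⟨a, ha, hcl⟩ := (hVo.isClosed_compl.isCompact).exists_mapClusterPt_of_frequently hfr
  exact ha (hKV (h a hcl))

/-- invariance -/
lemma ICT.map_mem {f : M → M} {K : Set M} (hK : IsClosed K) (h : ICT f K)
    {x : M} (hx : x ∈ K) : f x ∈ K := by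
  rw [← hK.closure_eq, Metric.mem_closure_iff]
  intro ε hε
  have := h ε hε x hx x hx
  rcases Relation.TransGen.head'_iff.1 this with ⟨b, hb, -⟩
  exact ⟨b, hb.2.1, hb.2.2⟩

lemma ICT.symm_mem [CompactSpace M] {f : M ≃ₜ M} {K : Set M} (hK : IsClosed K) (h : ICT f K)
    {x : M} (hx : x ∈ K) : f.symm x ∈ K := by
  have hK' : IsClosed (f '' K) := f.isClosedMap K hK
  have : x ∈ f '' K := by
    rw [← hK'.closure_eq, Metric.mem_closure_iff]
    intro ε hε
    have := h ε hε x hx x hx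
    rcases Relation.TransGen.tail'_iff.1 this with ⟨b, -, hb⟩
    refine ⟨f b, mem_image_of_mem f hb.1, ?_⟩
    rw [dist_comm]; exact hb.2.2
  obtain ⟨y, hy, rfl⟩ := this
  simpa using hy

lemma ICT.iterate_mem {f : M → M} {K : Set M} (hK : IsClosed K) (h : ICT f K)
    {x : M} (hx : x ∈ K) (n : ℕ) : f^[n] x ∈ K := by
  induction n with
  | zero => simpa using hx
  | succ n ih => rw [iterate_succ_apply']; exact h.map_mem hK ih

lemma ICT.symm_iterate_mem [CompactSpace M] {f : M ≃ₜ M} {K : Set M} (hK : IsClosed K)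
    (h : ICT f K) {x : M} (hx : x ∈ K) (n : ℕ) : f.symm^[n] x ∈ K := by
  induction n with
  | zero => simpa using hx
  | succ n ih => rw [iterate_succ_apply']; exact h.symm_mem hK ih

/-- a finite internally chain transitive set is a single orbit -/
lemma ICT.finite_subset_orb {f : M → M} {K : Set M} (hK : K.Finite) (h : ICT f K)
    {p : M} (hp : p ∈ K) : K ⊆ Orb f p := by
  intro y hy
  -- separation of the points of K
  have hsep : ∃ ε > 0, ∀ a ∈ K, ∀ b ∈ K, dist a b < ε → a = b := by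
    have hfin : ((fun q : M × M => dist q.1 q.2) '' ((K ×ˢ K) \ {q | q.1 = q.2})).Finite :=
      ((hK.prod hK).subset sdiff_subset).image _
    rcases ((K ×ˢ K) \ {q : M × M | q.1 = q.2}).eq_empty_or_nonempty with he | hne
    · refine ⟨1, one_pos, fun a ha b hb _ => ?_⟩
      by_contra hab
      have : (a, b) ∈ ((K ×ˢ K) \ {q : M × M | q.1 = q.2}) := ⟨⟨ha, hb⟩, hab⟩
      rw [he] at this; exact this
    · obtain ⟨q, hq, hmin⟩ := Set.exists_min_image _ (fun q : M × M => dist q.1 q.2)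
        ((hK.prod hK).subset sdiff_subset) hne
      refine ⟨dist q.1 q.2, dist_pos.2 hq.2, fun a ha b hb hab => ?_⟩
      by_contra hne'
      have := hmin (a, b) ⟨⟨ha, hb⟩, hne'⟩
      simp only at this
      linarith
  obtain ⟨ε, hε, hs⟩ := hsep
  -- images of points of K are in K
  have hcl : IsClosed K := hK.isClosed
  have := h ε hε p hp y hy
  induction this with
  | single hab =>
    have := hs _ (h.map_mem hcl hab.1) _ hab.2.1 hab.2.2
    exact ⟨1, by simpa using this⟩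
  | tail _ hbc ih =>
    obtain ⟨n, hn⟩ := ih hbc.1
    have := hs _ (h.map_mem hcl hbc.1) _ hbc.2.1 hbc.2.2
    refine ⟨n + 1, ?_⟩
    simp only at hn ⊢
    rw [iterate_succ_apply', hn]; exact this

/-- iterates of a point of a finite invariant set -/
lemma mem_periodic_of_finite {f : M → M} (hf : Injective f) {K : Set M} (hK : K.Finite)
    {x : M} (h : ∀ n : ℕ, f^[n] x ∈ K) : x ∈ periodicPts f := by
  have : ¬ Injective (fun n : ℕ => f^[n] x) := by
    intro hinj
    exact (Set.infinite_range_of_injective hinj) (hK.subset (by rintro _ ⟨n, rfl⟩; exact h n))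
  rw [not_injective_iff] at this
  obtain ⟨a, b, hab, hne⟩ := this
  have key : ∀ a b : ℕ, a < b → f^[a] x = f^[b] x → x ∈ periodicPts f := by
    intro a b hlt hab
    refine ⟨b - a, Nat.sub_pos_of_lt hlt, ?_⟩
    have : f^[a] (f^[b - a] x) = f^[a] x := by
      rw [← iterate_add_apply, Nat.add_sub_cancel' hlt.le, hab]
    exact hf.iterate a this
  rcases lt_or_gt_of_ne hne with hlt | hlt
  · exact key a b hlt hab
  · exact key b a hlt hab.symm

lemma orb_finite {f : M → M} {p : M} (hp : p ∈ periodicPts f) : (Orb f p).Finite := by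
  obtain ⟨n, hn, hper⟩ := hp
  refine ((Set.finite_lt_nat n).image (fun k => f^[k] p)).subset ?_
  rintro _ ⟨k, rfl⟩
  exact ⟨k % n, Nat.mod_lt _ hn, hper.iterate_mod_apply k⟩

lemma self_mem_orb (f : M → M) (p : M) : p ∈ Orb f p := ⟨0, rfl⟩

/-- the omega-limit set -/
def om (f : M → M) (x : M) : Set M := {y | MapClusterPt y atTop (fun n : ℕ => f^[n] x)}

lemma om_closed (f : M → M) (x : M) : IsClosed (om f x) := isClosed_setOfPred_clusterPt

lemma cluster_mem {u : ℕ → M} {y : M} (h : MapClusterPt y atTop u) {K : Set M} (hK : IsClosed K)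
    (hu : ∀ᶠ n in atTop, u n ∈ K) : y ∈ K := by
  by_contra hy
  obtain ⟨n, hn, hn'⟩ := ((h.frequently (hK.isOpen_compl.mem_nhds hy)).and_eventually hu).exists
  exact hn hn'

lemma om_subset {f : M → M} {x : M} {K : Set M} (hK : IsClosed K) (h : ∀ n : ℕ, f^[n] x ∈ K) :
    om f x ⊆ K := fun _ hy => cluster_mem hy hK (Eventually.of_forall h)

lemma om_nonempty [CompactSpace M] (f : M → M) (x : M) : (om f x).Nonempty := by
  obtain ⟨a, -, ha⟩ := (isCompact_univ : IsCompact (univ : Set M)).exists_mapClusterPt_of_frequently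
    (l := atTop) (f := fun n : ℕ => f^[n] x) (Eventually.of_forall fun _ => mem_univ _).frequently
  exact ⟨a, ha⟩

lemma om_ict [CompactSpace M] {f : M → M} (hf : Continuous f) (x : M) : ICT f (om f x) := by
  apply ict_of_approx hf
  intro δ hδ
  have ht : Tendsto (fun n : ℕ => f^[n] x) atTop (𝓝ˢ (om f x)) :=
    tendsto_nhdsSet_of_cluster fun y hy => hy
  have hW : Metric.thickening δ (om f x) ∈ 𝓝ˢ (om f x) :=
    Metric.isOpen_thickening.mem_nhdsSet.2 (Metric.self_subset_thickening hδ _)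
  obtain ⟨N, hN⟩ := eventually_atTop.1 (ht hW)
  refine ⟨{z | ∃ n ≥ N, z = f^[n] x}, ?_, ?_, ?_⟩
  · rintro _ ⟨n, hn, rfl⟩ _ ⟨m, hm, rfl⟩
    obtain ⟨b, hb, hmb⟩ := Metric.mem_thickening_iff.1 (hN m hm)
    have hopen : {w | dist w (f^[m] x) < δ} ∈ 𝓝 b :=
      (isOpen_lt (continuous_id.dist continuous_const) continuous_const).mem_nhds
        (by simp only [mem_ofPred_eq]; rw [dist_comm]; exact hmb)
    have hfr := MapClusterPt.frequently hb hopen
    obtain ⟨k, hk, hkd⟩ := (Filter.frequently_atTop.1 hfr) (n + 1)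
    obtain ⟨k', rfl⟩ : ∃ k', k = k' + 1 := ⟨k - 1, by omega⟩
    have hk' : n ≤ k' := by omega
    have hchain : Relation.ReflTransGen (fun a b => a ∈ {z | ∃ n ≥ N, z = f^[n] x} ∧
        b ∈ {z | ∃ n ≥ N, z = f^[n] x} ∧ dist (f a) b < δ) (f^[n] x) (f^[k'] x) := by
      clear hkd hk
      induction k', hk' using Nat.le_induction with
      | base => exact Relation.ReflTransGen.refl
      | succ k hk ih =>
        refine ih.tail ⟨⟨k, hn.le.trans hk, rfl⟩, ⟨k + 1, (hn.le.trans hk).trans (Nat.le_succ k), rfl⟩, ?_⟩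
        rw [iterate_succ_apply']; simpa using hδ
    refine Relation.TransGen.tail' hchain ⟨⟨k', hn.le.trans hk', rfl⟩, ⟨m, hm, rfl⟩, ?_⟩
    have hkd' : dist (f^[k' + 1] x) (f^[m] x) < δ := hkd
    rw [iterate_succ_apply'] at hkd'
    exact hkd'
  · rintro _ ⟨n, hn, rfl⟩
    exact Metric.mem_thickening_iff.1 (hN n hn)
  · intro a ha
    have hfr := MapClusterPt.frequently ha (Metric.ball_mem_nhds a hδ)
    obtain ⟨k, hk, hkd⟩ := (Filter.frequently_atTop.1 hfr) N
    exact ⟨_, ⟨k, hk, rfl⟩, by rw [dist_comm]; exact hkd⟩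

/-- `U` is an isolating neighbourhood of the orbit of `p`. -/
def Iso (f : M ≃ₜ M) (p : M) (U : Set M) : Prop :=
  IsOpen U ∧ Orb f p ⊆ U ∧
      ∀ x, (∀ n : ℕ, f^[n] x ∈ closure U) → (∀ n : ℕ, f.symm^[n] x ∈ closure U) → x ∈ Orb f p

lemma symm_iterate_iterate (f : M ≃ₜ M) (n : ℕ) (x : M) : f.symm^[n] (f^[n] x) = x :=
  (LeftInverse.iterate f.left_inv n) x

lemma iterate_symm_iterate (f : M ≃ₜ M) (n : ℕ) (x : M) : f^[n] (f.symm^[n] x) = x :=
  (LeftInverse.iterate f.right_inv n) x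

lemma iterate_mul_of_periodic {f : M → M} {q : M} {T : ℕ} (h : f^[T] q = q) (k : ℕ) :
    f^[T * k] q = q := by
  rw [iterate_mul]
  exact iterate_fixed h k

/-- a periodic point whose orbit stays near `Orb p` is on `Orb p` -/
lemma Iso.periodic_mem {f : M ≃ₜ M} {p : M} {U : Set M} (h : Iso f p U) {q : M}
    (hq : q ∈ periodicPts f) {j : ℕ} (hj : ∀ n ≥ j, f^[n] q ∈ closure U) : q ∈ Orb f p := by
  obtain ⟨T, hT, hper⟩ := hq
  have hper' : f^[T] q = q := hper
  have hmul := iterate_mul_of_periodic hper'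
  refine h.2.2 q (fun n => ?_) (fun n => ?_)
  · have : f^[n] q = f^[n + T * j] q := by rw [iterate_add_apply, hmul]
    rw [this]
    apply hj
    have : j ≤ T * j := Nat.le_mul_of_pos_left j hT
    omega
  · have h1 : n + j ≤ T * (n + j) := Nat.le_mul_of_pos_left _ hT
    have h2 : f.symm^[n] q = f^[T * (n + j) - n] q := by
      conv_lhs => rw [← hmul (n + j)]
      have : T * (n + j) = n + (T * (n + j) - n) := by omega
      rw [this, iterate_add_apply, symm_iterate_iterate, ← this]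
    rw [h2]
    exact hj _ (by omega)

/-- every periodic orbit in an infinite internally chain transitive set can be left -/
lemma exit [CompactSpace M] {f : M ≃ₜ M} {L : Set M} (hL : IsClosed L) (hict : ICT f L)
    (hinf : L.Infinite) {p : M} (hp : p ∈ L) (hper : p ∈ periodicPts f) {U : Set M}
    (hU : Iso f p U) :
    ∃ e ∈ L, e ∉ periodicPts f ∧ Tendsto (fun n : ℕ => f.symm^[n] e) atTop (𝓝ˢ (Orb f p)) := by
  have hOf := orb_finite hper
  obtain ⟨q, hqL, hqO⟩ := hinf.exists_notMem_finite hOf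
  set B : Set M := U \ {q} with hB
  have hBo : IsOpen B := hU.1.sdiff isClosed_singleton
  have hOB : Orb f p ⊆ B := fun y hy => ⟨hU.2.1 hy, fun hyq => hqO (by rw [← mem_singleton_iff.1 hyq]; exact hy)⟩
  have hqB : q ∉ B := fun h => h.2 rfl
  have hBU : closure B ⊆ closure U := closure_mono sdiff_subset
  -- first exits
  have first : ∀ ε > 0, ∃ z, Relation.ReflTransGen
      (fun a b => a ∈ B ∧ a ∈ L ∧ b ∈ L ∧ dist (f a) b < ε) p z ∧ z ∈ L ∧ z ∉ B := by
    intro ε hε
    have hc := (hict ε hε p hp q hqL).to_reflTransGen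
    have : ∀ y, Relation.ReflTransGen (fun a b => a ∈ L ∧ b ∈ L ∧ dist (f a) b < ε) p y →
        (∃ z, Relation.ReflTransGen
        (fun a b => a ∈ B ∧ a ∈ L ∧ b ∈ L ∧ dist (f a) b < ε) p z ∧ z ∈ L ∧ z ∉ B) ∨
        Relation.ReflTransGen (fun a b => a ∈ B ∧ a ∈ L ∧ b ∈ L ∧ dist (f a) b < ε) p y := by
      intro y hy
      induction hy with
      | refl => exact Or.inr Relation.ReflTransGen.refl
      | @tail b c _ hbc ih =>
        rcases ih with h | h
        · exact Or.inl h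
        · by_cases hb : b ∈ B
          · exact Or.inr (h.tail ⟨hb, hbc.1, hbc.2.1, hbc.2.2⟩)
          · exact Or.inl ⟨b, h, hbc.1, hb⟩
    rcases this q hc with h | h
    · exact h
    · exact ⟨q, h, hqL, hqB⟩
  have hmono : ∀ {ε ε' : ℝ}, ε ≤ ε' → ∀ {z}, Relation.ReflTransGen
      (fun a b => a ∈ B ∧ a ∈ L ∧ b ∈ L ∧ dist (f a) b < ε) p z → Relation.ReflTransGen
      (fun a b => a ∈ B ∧ a ∈ L ∧ b ∈ L ∧ dist (f a) b < ε') p z := by
    intro ε ε' hle z h
    induction h with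
    | refl => exact Relation.ReflTransGen.refl
    | tail _ hbc ih => exact ih.tail ⟨hbc.1, hbc.2.1, hbc.2.2.1, hbc.2.2.2.trans_le hle⟩
  set R : Set M := {z | ∀ ε > 0, ∃ z', Relation.ReflTransGen
      (fun a b => a ∈ B ∧ a ∈ L ∧ b ∈ L ∧ dist (f a) b < ε) p z' ∧ dist z z' < ε} with hR
  -- a limit of exits
  obtain ⟨e, heL, heB, heR⟩ : ∃ e, e ∈ L ∧ e ∉ B ∧ e ∈ R := by
    choose z hz using fun k : ℕ => first (1 / ((k : ℝ) + 1)) (by positivity)
    have hcpt : IsCompact (L ∩ Bᶜ) := (hL.inter hBo.isClosed_compl).isCompact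
    obtain ⟨e, he, φ, hφ, hlim⟩ := hcpt.tendsto_subseq (x := z) fun n => ⟨(hz n).2.1, (hz n).2.2⟩
    refine ⟨e, he.1, he.2, fun ε hε => ?_⟩
    obtain ⟨N, hN⟩ := Metric.tendsto_atTop.1 hlim ε hε
    obtain ⟨k, hk⟩ := exists_nat_one_div_lt hε
    refine ⟨z (φ (max N k)), ?_, ?_⟩
    · refine hmono ?_ (hz _).1
      refine le_trans ?_ hk.le
      apply one_div_le_one_div_of_le (by positivity)
      have : k ≤ φ (max N k) := (le_max_right _ _).trans (hφ.id_le _)
      have : (k : ℝ) ≤ (φ (max N k) : ℝ) := by exact_mod_cast this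
      linarith
    · rw [dist_comm]; exact hN _ (le_max_left _ _)
  -- predecessors
  have pred : ∀ e ∈ R, e ≠ p → f.symm e ∈ R ∧ f.symm e ∈ closure B := by
    intro e he hep
    have claim : ∀ ε > 0, ∃ w ∈ B, Relation.ReflTransGen
      (fun a b => a ∈ B ∧ a ∈ L ∧ b ∈ L ∧ dist (f a) b < ε) p w ∧ dist (f.symm e) w < ε := by
      intro ε hε
      obtain ⟨δ, hδ, hcont⟩ := Metric.continuous_iff.1 f.symm.continuous e ε hε
      have hd : 0 < dist e p := dist_pos.2 hep
      set ε' := min (min (δ / 2) ε) (dist e p) with hε'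
      have hε'0 : 0 < ε' := lt_min (lt_min (by positivity) hε) hd
      have h1 : ε' ≤ δ / 2 := (min_le_left _ _).trans (min_le_left _ _)
      have h2 : ε' ≤ ε := (min_le_left _ _).trans (min_le_right _ _)
      have h3 : ε' ≤ dist e p := min_le_right _ _
      obtain ⟨z', hz', hdz⟩ := he ε' hε'0
      rcases Relation.ReflTransGen.cases_tail hz' with hzp | ⟨w, hw, hwz⟩
      · exfalso
        rw [hzp] at hdz
        linarith
      · refine ⟨w, hwz.1, hmono h2 hw, ?_⟩
        have hfw : dist (f w) e < δ := by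
          have := dist_triangle (f w) z' e
          have h4 := hwz.2.2.2
          rw [dist_comm] at hdz
          linarith
        have := hcont (f w) hfw
        rw [f.symm_apply_apply, dist_comm] at this
        exact this
    refine ⟨fun ε hε => ?_, ?_⟩
    · obtain ⟨w, -, h1, h2⟩ := claim ε hε
      exact ⟨w, h1, h2⟩
    · rw [Metric.mem_closure_iff]
      intro ε hε
      obtain ⟨w, h1, -, h2⟩ := claim ε hε
      exact ⟨w, h1, h2⟩
  have hnp : ∀ n : ℕ, f.symm^[n] e ≠ p := by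
    intro n hn
    apply heB
    apply hOB
    refine ⟨n, ?_⟩
    simp only
    rw [← hn, iterate_symm_iterate]
  have hRn : ∀ n : ℕ, f.symm^[n] e ∈ R := by
    intro n
    induction n with
    | zero => simpa using heR
    | succ n ih => rw [iterate_succ_apply']; exact (pred _ ih (hnp n)).1
  have hcn : ∀ n : ℕ, f.symm^[n + 1] e ∈ closure B := by
    intro n
    rw [iterate_succ_apply']; exact (pred _ (hRn n) (hnp n)).2
  have hlim : Tendsto (fun n : ℕ => f.symm^[n] e) atTop (𝓝ˢ (Orb f p)) := by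
    apply tendsto_nhdsSet_of_cluster
    intro y hy
    apply hU.2.2
    · intro n
      -- `f^[n] y` is a cluster point too
      have hcl : MapClusterPt (f^[n] y) atTop (fun k : ℕ => f^[n] (f.symm^[k] e)) :=
        MapClusterPt.tendsto_comp ((f.continuous.iterate n).tendsto y) hy
      refine hBU (cluster_mem hcl isClosed_closure ?_)
      filter_upwards [eventually_ge_atTop (n + 1)] with k hk
      have : k = n + ((k - n - 1) + 1) := by omega
      rw [this, iterate_add_apply, iterate_symm_iterate]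
      exact hcn _
    · intro n
      have hcl : MapClusterPt (f.symm^[n] y) atTop (fun k : ℕ => f.symm^[n] (f.symm^[k] e)) :=
        MapClusterPt.tendsto_comp ((f.symm.continuous.iterate n).tendsto y) hy
      refine hBU (cluster_mem hcl isClosed_closure ?_)
      filter_upwards [eventually_ge_atTop 1] with k hk
      rw [← iterate_add_apply]
      have : n + k = (n + k - 1) + 1 := by omega
      rw [this]
      exact hcn _
  refine ⟨e, heL, ?_, hlim⟩
  rintro ⟨T, hT, hTe⟩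
  -- `e` periodic: its backward orbit returns to `e`
  have hTe' : f^[T] e = e := hTe
  have hret : ∀ k : ℕ, f.symm^[T * k] e = e := by
    intro k
    have h1 : f^[T * k] e = e := iterate_mul_of_periodic hTe' k
    conv_lhs => rw [← h1]
    exact symm_iterate_iterate f _ e
  have hBn : B ∈ 𝓝ˢ (Orb f p) := hBo.mem_nhdsSet.2 hOB
  obtain ⟨N, hN⟩ := eventually_atTop.1 (hlim hBn)
  have : f.symm^[T * N] e ∈ B := hN (T * N) (Nat.le_mul_of_pos_left N hT)
  rw [hret] at this
  exact heB this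

/-- Hausdorff limits of almost chain transitive sets -/
lemma exists_limit [CompactSpace M] {f : M → M} (hf : Continuous f)
    (K : ℕ → Set M) (hfin : ∀ k, (K k).Finite) (hne : ∀ k, (K k).Nonempty) (ε : ℕ → ℝ)
    (hε : Tendsto ε atTop (𝓝 0)) (hct : ∀ k, CT f (ε k) (K k)) :
    ∃ (φ : ℕ → ℕ) (L : Set M), StrictMono φ ∧ IsClosed L ∧ L.Nonempty ∧ ICT f L ∧
      ∀ δ > 0, ∀ᶠ k in atTop, (∀ a ∈ K (φ k), ∃ b ∈ L, dist a b < δ) ∧
        (∀ a ∈ L, ∃ b ∈ K (φ k), dist a b < δ) := by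
  let C : ℕ → TopologicalSpace.NonemptyCompacts M := fun k => ⟨⟨K k, (hfin k).isCompact⟩, hne k⟩
  obtain ⟨L, -, φ, hφ, hlim⟩ := (isCompact_univ :
    IsCompact (univ : Set (TopologicalSpace.NonemptyCompacts M))).tendsto_subseq (x := C)
      fun n => mem_univ _
  have hL : IsClosed (L : Set M) := L.isCompact.isClosed
  have key : ∀ δ > 0, ∀ᶠ k in atTop, (∀ a ∈ K (φ k), ∃ b ∈ (L : Set M), dist a b < δ) ∧
        (∀ a ∈ (L : Set M), ∃ b ∈ K (φ k), dist a b < δ) := by
    intro δ hδ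
    have := Metric.tendsto_nhds.1 hlim δ hδ
    filter_upwards [this] with k hk
    rw [Metric.NonemptyCompacts.dist_eq] at hk
    have hk' : Metric.hausdorffDist (K (φ k)) (L : Set M) < δ := hk
    have hne1 : Metric.hausdorffEDist (K (φ k)) (L : Set M) ≠ ⊤ :=
      Metric.hausdorffEDist_ne_top_of_nonempty_of_bounded (hne _) L.nonempty
        (hfin _).isBounded L.isCompact.isBounded
    refine ⟨fun a ha => Metric.exists_dist_lt_of_hausdorffDist_lt ha hk' hne1, fun a ha => ?_⟩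
    rw [Metric.hausdorffDist_comm] at hk'
    rw [Metric.hausdorffEDist_comm] at hne1
    exact Metric.exists_dist_lt_of_hausdorffDist_lt ha hk' hne1
  refine ⟨φ, L, hφ, hL, L.nonempty, ict_of_approx hf fun δ hδ => ?_, key⟩
  have h1 : ∀ᶠ k in atTop, ε (φ k) < δ :=
    (hε.comp hφ.tendsto_atTop).eventually (gt_mem_nhds hδ)
  obtain ⟨k, hk1, hk2⟩ := (h1.and (key δ hδ)).exists
  exact ⟨K (φ k), (hct _).mono hk1.le, hk2.1, hk2.2⟩

lemma ct_of_return {f : M → M} {z : M} {n : ℕ} (hn : 0 < n) {ε : ℝ} (hε : 0 < ε)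
    (h : dist (f^[n] z) z < ε) : CT f ε (Set.range fun i : ℕ => f^[i % n] z) := by
  have step : ∀ i : ℕ, (fun a b => a ∈ (Set.range fun i : ℕ => f^[i % n] z) ∧
      b ∈ (Set.range fun i : ℕ => f^[i % n] z) ∧ dist (f a) b < ε)
      (f^[i % n] z) (f^[(i + 1) % n] z) := by
    intro i
    refine ⟨⟨i, rfl⟩, ⟨i + 1, rfl⟩, ?_⟩
    have hlt := Nat.mod_lt i hn
    rw [← iterate_succ_apply' f (i % n) z]
    rcases Nat.lt_or_ge (i % n + 1) n with h1 | h1
    · have : (i + 1) % n = i % n + 1 := by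
        rw [Nat.add_mod, Nat.mod_eq_of_lt (a := i % n + 1 % n)]
        · rw [Nat.mod_eq_of_lt (by omega : 1 < n)]
        · rw [Nat.mod_eq_of_lt (by omega : 1 < n)]; exact h1
      rw [this]; simpa using hε
    · have h2 : i % n + 1 = n := by omega
      have : (i + 1) % n = 0 := by
        have h3 : i + 1 = n * (i / n) + n := by
          have := Nat.div_add_mod i n; omega
        rw [h3]; simp
      rw [this]
      show dist (f^[i % n + 1] z) _ < ε
      rw [h2]; simpa using h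
  rintro _ ⟨i, rfl⟩ _ ⟨j, rfl⟩
  have trans : ∀ i k : ℕ, Relation.TransGen (fun a b => a ∈ (Set.range fun i : ℕ => f^[i % n] z) ∧
      b ∈ (Set.range fun i : ℕ => f^[i % n] z) ∧ dist (f a) b < ε)
      (f^[i % n] z) (f^[(i + k + 1) % n] z) := by
    intro i k
    induction k with
    | zero => exact Relation.TransGen.single (step i)
    | succ k ih => exact ih.tail (step (i + k + 1))
  have hlt : i < j + n * (i + 1) := by
    have : i + 1 ≤ n * (i + 1) := Nat.le_mul_of_pos_left _ hn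
    omega
  have hh := trans i (j + n * (i + 1) - i - 1)
  have he : i + (j + n * (i + 1) - i - 1) + 1 = j + n * (i + 1) := by omega
  rw [he, Nat.add_mul_mod_self_left] at hh
  exact hh

lemma orb_eq_range {f : M → M} {q : M} {n : ℕ} (h : f^[n] q = q) :
    Orb f q = Set.range fun i : ℕ => f^[i % n] q := by
  have hp : IsPeriodicPt f n q := h
  unfold Orb
  congr 1
  funext i
  exact (hp.iterate_mod_apply i).symm

lemma orb_ct {f : M → M} {q : M} (hq : q ∈ periodicPts f) {ε : ℝ} (hε : 0 < ε) :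
    CT f ε (Orb f q) := by
  obtain ⟨n, hn, hper⟩ := hq
  rw [orb_eq_range (n := n) hper]
  apply ct_of_return hn hε
  have : f^[n] q = q := hper
  rw [this]; simpa using hε

/-- infinitely many periodic points accumulate to an infinite internally chain transitive set -/
lemma infinite_ict_of_periodic [CompactSpace M] {f : M ≃ₜ M}
    (hiso : ∀ p ∈ periodicPts f, ∃ U : Set M, Iso f p U)
    {S : Set M} (hS : S.Infinite) (hSp : S ⊆ periodicPts f) :
    ∃ (q : ℕ → M) (L : Set M), Injective q ∧ (∀ k, q k ∈ S) ∧ IsClosed L ∧ L.Infinite ∧ ICT f L ∧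
      ∀ δ > 0, ∀ᶠ k in atTop, (∀ a ∈ Orb f (q k), ∃ b ∈ L, dist a b < δ) ∧
        (∀ a ∈ L, ∃ b ∈ Orb f (q k), dist a b < δ) := by
  let g := hS.natEmbedding
  obtain ⟨φ, L, hφ, hL, hLne, hict, hlim⟩ := exists_limit f.continuous
    (fun k => Orb f (g k : M)) (fun k => orb_finite (hSp (g k).2))
    (fun k => ⟨_, self_mem_orb _ _⟩) (fun k => 1 / ((k : ℝ) + 1))
    tendsto_one_div_add_atTop_nhds_zero_nat
    (fun k => orb_ct (hSp (g k).2) (by positivity))
  have hinj : Injective fun k => (g (φ k) : M) := fun a b hab =>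
    hφ.injective (g.injective (Subtype.ext hab))
  refine ⟨fun k => g (φ k), L, hinj, fun k => (g (φ k)).2, hL, ?_, hict, hlim⟩
  intro hfin
  obtain ⟨p, hp⟩ := hLne
  have hpp : p ∈ periodicPts f :=
    mem_periodic_of_finite f.injective hfin fun n => hict.iterate_mem hL hp n
  obtain ⟨U, hU⟩ := hiso p hpp
  have hLU : L ⊆ U := (hict.finite_subset_orb hfin hp).trans hU.2.1
  obtain ⟨δ, hδ, hδU⟩ := hL.isCompact.exists_thickening_subset_open hU.1 hLU
  obtain ⟨N, hN⟩ := eventually_atTop.1 (hlim δ hδ)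
  have hsub : ∀ k ≥ N, (g (φ k) : M) ∈ Orb f p := by
    intro k hk
    apply hU.periodic_mem (hSp (g (φ k)).2) (j := 0)
    intro n _
    apply subset_closure
    apply hδU
    rw [Metric.mem_thickening_iff]
    exact (hN k hk).1 _ ⟨n, rfl⟩
  have hfin2 := orb_finite hpp
  have : (Set.range fun k : ℕ => (g (φ (N + k)) : M)).Infinite :=
    Set.infinite_range_of_injective fun a b hab => by
      have := hinj hab; omega
  exact this (hfin2.subset (by rintro _ ⟨k, rfl⟩; exact hsub _ (Nat.le_add_right _ _)))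

lemma fix_finite [CompactSpace M] {f : M ≃ₜ M}
    (hiso : ∀ p ∈ periodicPts f, ∃ U : Set M, Iso f p U) {n : ℕ} (hn : 0 < n) :
    {x | f^[n] x = x}.Finite := by
  by_contra hinf
  have hinf : {x | f^[n] x = x}.Infinite := hinf
  let g := hinf.natEmbedding
  have hcl : IsClosed {x | f^[n] x = x} := isClosed_eq (f.continuous.iterate n) continuous_id
  obtain ⟨p, hp, φ, hφ, hlim⟩ := hcl.isCompact.tendsto_subseq (x := fun k => (g k : M))
    fun k => (g k).2
  have hpp : p ∈ periodicPts f := ⟨n, hn, hp⟩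
  obtain ⟨U, hU⟩ := hiso p hpp
  have hW : ∀ᶠ x in 𝓝 p, ∀ i ∈ Finset.range n, f^[i] x ∈ U := by
    rw [Filter.eventually_all_finset]
    intro i _
    exact ((f.continuous.iterate i).tendsto p).eventually (hU.1.mem_nhds (hU.2.1 ⟨i, rfl⟩))
  obtain ⟨N, hN⟩ := eventually_atTop.1 (hlim.eventually hW)
  have hsub : ∀ k ≥ N, (g (φ k) : M) ∈ Orb f p := by
    intro k hk
    have hper : IsPeriodicPt f n (g (φ k) : M) := (g (φ k)).2
    apply hU.periodic_mem ⟨n, hn, hper⟩ (j := 0)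
    intro m _
    apply subset_closure
    rw [← hper.iterate_mod_apply m]
    exact hN k hk (m % n) (Finset.mem_range.2 (Nat.mod_lt _ hn))
  have hfin2 := orb_finite hpp
  have : (Set.range fun k : ℕ => (g (φ (N + k)) : M)).Infinite :=
    Set.infinite_range_of_injective fun a b hab => by
      have := hφ.injective (g.injective (Subtype.ext hab)); omega
  exact this (hfin2.subset (by rintro _ ⟨k, rfl⟩; exact hsub _ (Nat.le_add_right _ _)))

lemma periodic_countable [CompactSpace M] {f : M ≃ₜ M}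
    (hiso : ∀ p ∈ periodicPts f, ∃ U : Set M, Iso f p U) : (periodicPts f).Countable := by
  have : periodicPts f ⊆ ⋃ n : ℕ, {x | f^[n + 1] x = x} := by
    rintro x ⟨n, hn, hx⟩
    refine mem_iUnion.2 ⟨n - 1, ?_⟩
    have : n - 1 + 1 = n := Nat.sub_add_cancel hn
    show f^[n - 1 + 1] x = x
    rw [this]; exact hx
  exact (countable_iUnion fun n => (fix_finite hiso (Nat.succ_pos n)).countable).mono this

lemma exists_minimal [CompactSpace M] {f : M ≃ₜ M}
    (hiso : ∀ p ∈ periodicPts f, ∃ U : Set M, Iso f p U)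
    {K : Set M} (hK : IsClosed K) (hinf : K.Infinite) (hict : ICT f K) :
    ∃ L, IsClosed L ∧ L.Infinite ∧ ICT f L ∧
      ∀ L' ⊆ L, IsClosed L' → L'.Infinite → ICT f L' → L' = L := by
  obtain ⟨L, -, hLmin⟩ := zorn_superset_nonempty {K : Set M | IsClosed K ∧ K.Infinite ∧ ICT f K}
    (by
      intro c hc hchain hcne
      have key : ∀ W : Set M, IsOpen W → ⋂₀ c ⊆ W → ∃ K ∈ c, K ⊆ W := by
        intro W hW hcW
        have : Nonempty c := hcne.to_subtype
        have hdir : Directed (fun x1 x2 => x1 ⊇ x2) (fun i : c => (i : Set M)) := by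
          intro i j
          rcases hchain.total i.2 j.2 with h | h
          · exact ⟨i, subset_rfl, h⟩
          · exact ⟨j, h, subset_rfl⟩
        obtain ⟨i, hi⟩ := exists_subset_nhds_of_isCompact' hdir
          (fun i => (hc i.2).1.isCompact) (fun i => (hc i.2).1) (U := W) (by
            intro x hx
            apply hW.mem_nhds
            apply hcW
            rw [sInter_eq_iInter]; exact hx)
        exact ⟨i, i.2, hi⟩
      have hcl : IsClosed (⋂₀ c) := isClosed_sInter fun K hK => (hc hK).1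
      have hne : (⋂₀ c).Nonempty := by
        by_contra hemp
        rw [not_nonempty_iff_eq_empty] at hemp
        obtain ⟨K, hKc, hK⟩ := key ∅ isOpen_empty hemp.subset
        exact (hc hKc).2.1 (finite_empty.subset hK)
      have hct : ICT f (⋂₀ c) := by
        apply ict_of_approx f.continuous
        intro δ hδ
        obtain ⟨K, hKc, hK⟩ := key (Metric.thickening δ (⋂₀ c)) Metric.isOpen_thickening
          (Metric.self_subset_thickening hδ _)
        refine ⟨K, (hc hKc).2.2 δ hδ, fun a ha => Metric.mem_thickening_iff.1 (hK ha),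
          fun a ha => ⟨a, ha K hKc, by simpa using hδ⟩⟩
      refine ⟨⋂₀ c, ⟨hcl, ?_, hct⟩, fun s hs => sInter_subset_of_mem hs⟩
      intro hfin
      obtain ⟨p, hp⟩ := hne
      have hpp : p ∈ periodicPts f :=
        mem_periodic_of_finite f.injective hfin fun n => hct.iterate_mem hcl hp n
      obtain ⟨U, hU⟩ := hiso p hpp
      obtain ⟨K, hKc, hK⟩ := key U hU.1 ((hct.finite_subset_orb hfin hp).trans hU.2.1)
      refine (hc hKc).2.1 ((orb_finite hpp).subset fun x hx => ?_)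
      exact hU.2.2 x (fun n => subset_closure (hK ((hc hKc).2.2.iterate_mem (hc hKc).1 hx n)))
        (fun n => subset_closure (hK ((hc hKc).2.2.symm_iterate_mem (hc hKc).1 hx n))))
    K ⟨hK, hinf, hict⟩
  refine ⟨L, hLmin.prop.1, hLmin.prop.2.1, hLmin.prop.2.2, fun L' hL' h1 h2 h3 => ?_⟩
  exact subset_antisymm hL' (hLmin.le_of_le ⟨h1, h2, h3⟩ hL')

lemma exists_cycle [CompactSpace M] {f : M ≃ₜ M}
    (hrec : ∀ x, Recurrent f x → x ∈ periodicPts f)
    (hiso : ∀ p ∈ periodicPts f, ∃ U : Set M, Iso f p U)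
    {K : Set M} (hK : IsClosed K) (hinf : K.Infinite) (hict : ICT f K) :
    ∃ m, 0 < m ∧ HasCycle f m := by
  obtain ⟨L, hL, hLinf, hLict, hmin⟩ := exists_minimal hiso hK hinf hict
  -- omega-limit sets are periodic orbits
  have hom : ∀ x ∈ L, ∃ p ∈ L, p ∈ periodicPts f ∧
      Tendsto (fun n : ℕ => f^[n] x) atTop (𝓝ˢ (Orb f p)) := by
    intro x hx
    have hsub : om f x ⊆ L := om_subset hL fun n => hLict.iterate_mem hL hx n
    have hoict := om_ict f.continuous x
    have hfin : (om f x).Finite := by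
      by_contra hi
      have heq := hmin _ hsub (om_closed f x) hi hoict
      have hxr : Recurrent f x := by
        have : x ∈ om f x := by rw [heq]; exact hx
        exact this
      have hxp := hrec x hxr
      have hof := orb_finite hxp
      exact hi (hof.subset (om_subset hof.isClosed fun n => ⟨n, rfl⟩))
    obtain ⟨p, hp⟩ := om_nonempty f x
    refine ⟨p, hsub hp, ?_, ?_⟩
    · exact mem_periodic_of_finite f.injective hfin fun n => hoict.iterate_mem (om_closed f x) hp n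
    · exact tendsto_nhdsSet_of_cluster fun y hy => hoict.finite_subset_orb hfin hp hy
  -- finitely many periodic points in `L`
  have hPfin : (L ∩ periodicPts f).Finite := by
    by_contra hi
    obtain ⟨q, L', hq, hqS, hL'c, hL'inf, hL'ict, hlim⟩ :=
      infinite_ict_of_periodic hiso hi inter_subset_right
    have hL'L : L' = L := by
      refine hmin _ (fun a ha => ?_) hL'c hL'inf hL'ict
      rw [← hL.closure_eq, Metric.mem_closure_iff]
      intro ε hε
      obtain ⟨k, hk⟩ := (hlim ε hε).exists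
      obtain ⟨b, ⟨i, rfl⟩, hb⟩ := hk.2 a ha
      exact ⟨_, hLict.iterate_mem hL (hqS k).1 i, hb⟩
    subst hL'L
    choose! U hU using hiso
    -- Baire
    have : CompactSpace L' := isCompact_iff_compactSpace.1 hL.isCompact
    have : Nonempty L' := hLinf.nonempty.to_subtype
    have : Countable (periodicPts f) := (periodic_countable fun p hp => ⟨U p, hU p hp⟩).to_subtype
    obtain ⟨⟨p, j⟩, hpj⟩ := nonempty_interior_of_iUnion_of_closed (X := L')
      (ι := periodicPts f × ℕ)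
      (f := fun i => {x : L' | ∀ n ≥ i.2, f^[n] (x : M) ∈ closure (U i.1)})
      (by
        intro i
        simp only [ofPred_forall]
        exact isClosed_iInter fun n => isClosed_iInter fun _ =>
          isClosed_closure.preimage ((f.continuous.iterate n).comp continuous_subtype_val))
      (by
        rw [eq_univ_iff_forall]
        intro x
        obtain ⟨p, hpL, hpp, ht⟩ := hom x x.2
        have hUn : U p ∈ 𝓝ˢ (Orb f p) := (hU p hpp).1.mem_nhdsSet.2 (hU p hpp).2.1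
        obtain ⟨N, hN⟩ := eventually_atTop.1 (ht hUn)
        exact mem_iUnion.2 ⟨(⟨p, hpp⟩, N), fun n hn => subset_closure (hN n hn)⟩)
    obtain ⟨v, hv⟩ := hpj
    rw [mem_interior_iff_mem_nhds, Metric.mem_nhds_iff] at hv
    obtain ⟨δ, hδ, hball⟩ := hv
    obtain ⟨N, hN⟩ := eventually_atTop.1 (hlim δ hδ)
    have hsub : ∀ k ≥ N, q k ∈ Orb f (p : M) := by
      intro k hk
      obtain ⟨b, ⟨i, rfl⟩, hb⟩ := (hN k hk).2 v v.2
      have hbL : f^[i] (q k) ∈ L' := hLict.iterate_mem hL (hqS k).1 i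
      have hin : (⟨f^[i] (q k), hbL⟩ : L') ∈ Metric.ball v δ := by
        rw [Metric.mem_ball, Subtype.dist_eq, dist_comm]; exact hb
      have hcl := hball hin
      apply (hU p p.2).periodic_mem (hqS k).2 (j := i + j)
      intro n hn
      have h1 : n = (n - i) + i := by omega
      rw [h1, iterate_add_apply]
      exact hcl (n - i) (by simp only; omega)
    have hfin2 := orb_finite p.2
    have : (Set.range fun k : ℕ => q (N + k)).Infinite :=
      Set.infinite_range_of_injective fun a b hab => by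
        have := hq hab; omega
    exact this (hfin2.subset (by rintro _ ⟨k, rfl⟩; exact hsub _ (Nat.le_add_right _ _)))
  -- connections
  have hconn : ∀ p : ↥(L ∩ periodicPts f), ∃ p' : ↥(L ∩ periodicPts f), ∃ e : M,
      e ∉ periodicPts f ∧ Tendsto (fun n : ℕ => f.symm^[n] e) atTop (𝓝ˢ (Orb f p)) ∧
      Tendsto (fun n : ℕ => f^[n] e) atTop (𝓝ˢ (Orb f p')) := by
    rintro ⟨p, hpL, hpp⟩
    obtain ⟨U, hU⟩ := hiso p hpp
    obtain ⟨e, heL, hep, het⟩ := exit hL hLict hLinf hpL hpp hU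
    obtain ⟨p', hp'L, hp'p, ht⟩ := hom e heL
    exact ⟨⟨p', hp'L, hp'p⟩, e, hep, het, ht⟩
  choose next conn hconn using hconn
  obtain ⟨p0, hp0⟩ : (L ∩ periodicPts f).Nonempty := by
    obtain ⟨x, hx⟩ := hLinf.nonempty
    obtain ⟨p, hpL, hpp, -⟩ := hom x hx
    exact ⟨p, hpL, hpp⟩
  have : Finite ↥(L ∩ periodicPts f) := hPfin.to_subtype
  obtain ⟨i, j, hij, heq⟩ : ∃ i j : ℕ, i < j ∧ next^[i] ⟨p0, hp0⟩ = next^[j] ⟨p0, hp0⟩ := by
    obtain ⟨i, j, hne, heq⟩ := Finite.exists_ne_map_eq_of_infinite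
      (fun n : ℕ => next^[n] ⟨p0, hp0⟩)
    rcases lt_or_gt_of_ne hne with h | h
    · exact ⟨i, j, h, heq⟩
    · exact ⟨j, i, h, heq.symm⟩
  refine ⟨j - i, Nat.sub_pos_of_lt hij, fun k => (next^[i + k] ⟨p0, hp0⟩ : M),
    fun k => conn (next^[i + k] ⟨p0, hp0⟩), fun k => (next^[i + k] ⟨p0, hp0⟩).2.2, ?_, ?_⟩
  · show Orb f (next^[i + (j - i)] ⟨p0, hp0⟩ : M) = Orb f (next^[i + 0] ⟨p0, hp0⟩ : M)
    rw [Nat.add_sub_cancel' hij.le, ← heq, Nat.add_zero]
  · intro k _
    have := hconn (next^[i + k] ⟨p0, hp0⟩)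
    refine ⟨this.1, this.2.1, ?_⟩
    have h2 := this.2.2
    rw [← iterate_succ_apply' next] at h2
    exact h2

end TopLem

open TopLem in
theorem finite_or_cycle {M : Type*} [MetricSpace M] [CompactSpace M] (f : M ≃ₜ M)
    (hrec : ∀ x, Recurrent f x → x ∈ periodicPts f)
    (hiso : ∀ p ∈ periodicPts f, ∃ U : Set M, IsOpen U ∧ Orb f p ⊆ U ∧
      ∀ x, (∀ n : ℕ, f^[n] x ∈ closure U) → (∀ n : ℕ, f.symm^[n] x ∈ closure U) → x ∈ Orb f p) :
    ((nonwandering f).Finite ∧ nonwandering f ⊆ periodicPts f) ∨ ∃ m, 0 < m ∧ HasCycle f m := by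
  have hiso' : ∀ p ∈ periodicPts f, ∃ U : Set M, Iso f p U := hiso
  by_cases h : nonwandering f ⊆ periodicPts f
  · by_cases hfin : (nonwandering f).Finite
    · exact Or.inl ⟨hfin, h⟩
    · right
      obtain ⟨q, L, -, -, hL, hLinf, hLict, -⟩ := infinite_ict_of_periodic hiso' hfin h
      exact exists_cycle hrec hiso' hL hLinf hLict
  · right
    obtain ⟨y, hy, hyp⟩ := not_subset.1 h
    have hret : ∀ k : ℕ, ∃ (z : M) (n : ℕ), 0 < n ∧ dist y z < 1 / ((k : ℝ) + 1) ∧
        dist (f^[n] z) z < 2 / ((k : ℝ) + 1) := by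
      intro k
      obtain ⟨n, hn, w, ⟨z, hz, hzw⟩, hw⟩ := hy _ (Metric.ball_mem_nhds y
        (by positivity : (0 : ℝ) < 1 / ((k : ℝ) + 1)))
      refine ⟨z, n, hn, by rw [dist_comm]; exact hz, ?_⟩
      rw [hzw]
      have h1 : dist w y < 1 / ((k : ℝ) + 1) := hw
      have h2 : dist z y < 1 / ((k : ℝ) + 1) := hz
      have h3 := dist_triangle_right w z y
      have h4 : (2 : ℝ) / ((k : ℝ) + 1) = 1 / ((k : ℝ) + 1) + 1 / ((k : ℝ) + 1) := by ring
      linarith
    choose z n hn hyz hzz using hret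
    obtain ⟨φ, L, hφ, hL, hLne, hLict, hlim⟩ := exists_limit f.continuous
      (fun k => Set.range fun i : ℕ => f^[i % n k] (z k))
      (fun k => ((Set.finite_lt_nat (n k)).image (fun i => f^[i] (z k))).subset (by
        rintro _ ⟨i, rfl⟩; exact ⟨i % n k, Nat.mod_lt _ (hn k), rfl⟩))
      (fun k => ⟨_, ⟨0, rfl⟩⟩) (fun k => 2 / ((k : ℝ) + 1))
      (by
        have := (tendsto_one_div_add_atTop_nhds_zero_nat (𝕜 := ℝ)).const_mul 2
        simpa [div_eq_mul_inv] using this)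
      (fun k => ct_of_return (hn k) (by positivity) (hzz k))
    have hyL : y ∈ L := by
      rw [← hL.closure_eq, Metric.mem_closure_iff]
      intro ε hε
      obtain ⟨N, hN⟩ := eventually_atTop.1 (hlim (ε / 2) (by positivity))
      obtain ⟨k, hk⟩ := exists_nat_one_div_lt (by positivity : 0 < ε / 2)
      obtain ⟨b, hb, hd⟩ := (hN (max N k) (le_max_left _ _)).1 (z (φ (max N k))) ⟨0, by simp⟩
      refine ⟨b, hb, ?_⟩
      have h1 := hyz (φ (max N k))
      have h2 : 1 / ((φ (max N k) : ℝ) + 1) ≤ 1 / ((k : ℝ) + 1) := by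
        apply one_div_le_one_div_of_le (by positivity)
        have : k ≤ φ (max N k) := (le_max_right _ _).trans (hφ.id_le _)
        have : (k : ℝ) ≤ (φ (max N k) : ℝ) := by exact_mod_cast this
        linarith
      have h3 := dist_triangle y (z (φ (max N k))) b
      linarith
    have hLinf : L.Infinite := fun hfin =>
      hyp (mem_periodic_of_finite f.injective hfin fun n => hLict.iterate_mem hL hyL n)
    exact exists_cycle hrec hiso' hL hLinf hLict

end Pool.Agent.OmegaStab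

end
end

section

/-!
# Finiteness of the fixed points, part A: periodic points of conjugate systems
-/

open Set Filter Topology Function
open scoped Manifold ContDiff

noncomputable section

namespace Pool.Agent.OmegaStab

namespace FiniteFix

section Top

variable {M : Type*} [TopologicalSpace M]

theorem nonwandering_map {f : M → M} (hf : Continuous f) {x : M} (hx : x ∈ nonwandering f) :
    f x ∈ nonwandering f := by
  intro U hU
  obtain ⟨n, hn, y, ⟨z, hz, rfl⟩, hy⟩ := hx (f ⁻¹' U) (hf.continuousAt hU)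
  refine ⟨n, hn, f (f^[n] z), ⟨f z, hz, ?_⟩, hy⟩
  rw [← Function.iterate_succ_apply, Function.iterate_succ_apply']

theorem mem_nonwandering_of_periodic {f : M → M} {n : ℕ} (hn : 0 < n) {x : M}
    (hx : f^[n] x = x) : x ∈ nonwandering f := by
  intro U hU
  exact ⟨n, hn, x, ⟨x, mem_of_mem_nhds hU, hx⟩, mem_of_mem_nhds hU⟩

/-- The points of `f^n` fixed with minimal period less than `n`. -/
def Low (f : M → M) (n : ℕ) : Set M := {x | f^[n] x = x ∧ minimalPeriod f x < n}

theorem conj_iterate {f g : M → M} (hf : Continuous f)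
    (h : nonwandering f ≃ₜ nonwandering g)
    (hh : ∀ x y : nonwandering f, (y : M) = f x → (h y : M) = g (h x)) (n : ℕ)
    (x : nonwandering f) :
    ∃ hx : f^[n] x ∈ nonwandering f, (h ⟨f^[n] x, hx⟩ : M) = g^[n] (h x) := by
  induction n with
  | zero => exact ⟨x.2, rfl⟩
  | succ n ih =>
    obtain ⟨hx, he⟩ := ih
    have hx' : f^[n + 1] x ∈ nonwandering f := by
      rw [Function.iterate_succ_apply']
      exact nonwandering_map hf hx
    refine ⟨hx', ?_⟩
    rw [hh ⟨f^[n] x, hx⟩ ⟨f^[n + 1] x, hx'⟩ (Function.iterate_succ_apply' f n x), he,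
      Function.iterate_succ_apply']

theorem conj_periodic {f g : M → M} (hf : Continuous f)
    (h : nonwandering f ≃ₜ nonwandering g)
    (hh : ∀ x y : nonwandering f, (y : M) = f x → (h y : M) = g (h x)) (n : ℕ)
    (x : nonwandering f) : f^[n] (x : M) = x ↔ g^[n] (h x : M) = h x := by
  obtain ⟨hx, he⟩ := conj_iterate hf h hh n x
  rw [← he]
  constructor
  · intro h1
    congr 2
    exact Subtype.ext h1
  · intro h1
    have := h.injective (Subtype.ext h1)
    exact congrArg Subtype.val this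

theorem conj_minimalPeriod {f g : M → M} (hf : Continuous f)
    (h : nonwandering f ≃ₜ nonwandering g)
    (hh : ∀ x y : nonwandering f, (y : M) = f x → (h y : M) = g (h x))
    (x : nonwandering f) : minimalPeriod f (x : M) = minimalPeriod g (h x : M) := by
  apply Function.minimalPeriod_eq_minimalPeriod_iff.mpr
  intro n
  exact conj_periodic hf h hh n x

/-- A property of points expressed through their periodic behaviour. -/
theorem conj_encard {f g : M → M} (hf : Continuous f)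
    (h : nonwandering f ≃ₜ nonwandering g)
    (hh : ∀ x y : nonwandering f, (y : M) = f x → (h y : M) = g (h x)) {n : ℕ} (hn : 0 < n)
    (P : ℕ → Prop) :
    {x : M | f^[n] x = x ∧ P (minimalPeriod f x)}.encard =
      {x : M | g^[n] x = x ∧ P (minimalPeriod g x)}.encard := by
  have h1 : {x : M | f^[n] x = x ∧ P (minimalPeriod f x)} =
      Subtype.val '' {x : nonwandering f | f^[n] (x : M) = x ∧ P (minimalPeriod f (x : M))} := by
    ext x
    constructor
    · rintro ⟨h2, h3⟩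
      exact ⟨⟨x, mem_nonwandering_of_periodic hn h2⟩, ⟨h2, h3⟩, rfl⟩
    · rintro ⟨y, hy, rfl⟩
      exact hy
  have h2 : {x : M | g^[n] x = x ∧ P (minimalPeriod g x)} =
      (fun x : nonwandering f => (h x : M)) ''
        {x : nonwandering f | f^[n] (x : M) = x ∧ P (minimalPeriod f (x : M))} := by
    ext y
    constructor
    · rintro ⟨h2, h3⟩
      obtain ⟨x, hx⟩ := h.surjective ⟨y, mem_nonwandering_of_periodic hn h2⟩
      have hxy : (h x : M) = y := congrArg Subtype.val hx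
      refine ⟨x, ⟨?_, ?_⟩, hxy⟩
      · rw [conj_periodic hf h hh n x, hxy]
        exact h2
      · rw [conj_minimalPeriod hf h hh x, hxy]
        exact h3
    · rintro ⟨x, ⟨h2, h3⟩, rfl⟩
      exact ⟨(conj_periodic hf h hh n x).mp h2, by
        rw [← conj_minimalPeriod hf h hh x]; exact h3⟩
  rw [h1, h2, Subtype.val_injective.encard_image]
  rw [Function.Injective.encard_image]
  exact Subtype.val_injective.comp h.injective

end Top

end FiniteFix

end Pool.Agent.OmegaStab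

end
end

section

/-!
# Horseshoe from a transverse homoclinic orbit
-/

open Set Filter Topology Function
open scoped Manifold ContDiff

noncomputable section

set_option linter.unusedSectionVars false

namespace Pool.Agent.OmegaStab

variable {Xs Xu : Type*} [NormedAddCommGroup Xs] [NormedSpace ℝ Xs]
  [NormedAddCommGroup Xu] [NormedSpace ℝ Xu]

namespace Cone

/-- The derivative cocycle of `G` along `x`. -/
def cocyc (G : Xs × Xu → Xs × Xu) (x : ℕ → Xs × Xu) : ℕ → (Xs × Xu →L[ℝ] Xs × Xu)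
  | 0 => ContinuousLinearMap.id ℝ _
  | n + 1 => (fderiv ℝ G (x n)).comp (cocyc G x n)

theorem cocyc_zero (G : Xs × Xu → Xs × Xu) (x : ℕ → Xs × Xu) (v : Xs × Xu) :
    cocyc G x 0 v = v := rfl

theorem cocyc_succ (G : Xs × Xu → Xs × Xu) (x : ℕ → Xs × Xu) (n : ℕ) (v : Xs × Xu) :
    cocyc G x (n + 1) v = fderiv ℝ G (x n) (cocyc G x n v) := rfl

theorem iterate_eq {G : Xs × Xu → Xs × Xu} {x : ℕ → Xs × Xu} {n : ℕ}
    (hx : ∀ i < n, G (x i) = x (i + 1)) : G^[n] (x 0) = x n := by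
  induction n with
  | zero => rfl
  | succ n ih =>
    rw [Function.iterate_succ_apply', ih (fun i hi => hx i (by omega)), hx n (by omega)]

theorem hasStrictFDerivAt_iterate {G : Xs × Xu → Xs × Xu} {x : ℕ → Xs × Xu} {n : ℕ}
    (hx : ∀ i < n, G (x i) = x (i + 1))
    (hd : ∀ i < n, HasStrictFDerivAt G (fderiv ℝ G (x i)) (x i)) :
    HasStrictFDerivAt (G^[n]) (cocyc G x n) (x 0) := by
  induction n with
  | zero => exact hasStrictFDerivAt_id _
  | succ n ih =>
    have h1 := ih (fun i hi => hx i (by omega)) (fun i hi => hd i (by omega))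
    have h2 : HasStrictFDerivAt G (fderiv ℝ G (x n)) (G^[n] (x 0)) := by
      rw [iterate_eq (fun i hi => hx i (by omega))]; exact hd n (by omega)
    rw [Function.iterate_succ']
    exact h2.comp (x 0) h1

/-- Along a finite chain of steps, all terms are bounded by the first and the last. -/
theorem chain_bound {d : ℕ → Xs × Xu} {K : ℕ} (h : ∀ n < K, Step (d n) (d (n + 1))) {n : ℕ}
    (hn : n ≤ K) : ‖d n‖ ≤ max ‖d 0‖ ‖(d K).2‖ := by
  rcases le_total ‖(d n).1‖ ‖(d n).2‖ with hc | hc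
  · refine le_trans ?_ (le_max_right _ _)
    have key : ∀ k, n + k ≤ K → ‖(d (n + k)).1‖ ≤ ‖(d (n + k)).2‖ ∧
        ‖(d n).2‖ ≤ ‖(d (n + k)).2‖ := by
      intro k
      induction k with
      | zero => exact fun _ => ⟨hc, le_rfl⟩
      | succ k ih =>
        intro hk
        have h1 := ih (by omega)
        have h2 := (h (n + k) (by omega)).ucone h1.1
        have h3 := (h (n + k) (by omega)).ucone' h1.1
        refine ⟨h3, ?_⟩
        have h4 : ‖(d (n + (k + 1))).2‖ = ‖(d (n + k + 1)).2‖ := rfl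
        have := norm_nonneg (d (n + k)).2
        linarith [h1.2, h2.2]
    have h1 := (key (K - n) (by omega)).2
    rw [show n + (K - n) = K by omega] at h1
    exact (norm_le_of hc le_rfl).trans h1
  · refine le_trans ?_ (le_max_left _ _)
    have key : ∀ k ≤ n, ‖(d (n - k)).2‖ ≤ ‖(d (n - k)).1‖ ∧ ‖(d n).1‖ ≤ ‖(d (n - k)).1‖ := by
      intro k
      induction k with
      | zero => exact fun _ => ⟨hc, le_rfl⟩
      | succ k ih =>
        intro hk
        have h1 := ih (by omega)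
        have h2 := h (n - (k + 1)) (by omega)
        rw [show n - (k + 1) + 1 = n - k by omega] at h2
        have h3 := h2.scone h1.1
        refine ⟨h3.1, ?_⟩
        have := norm_nonneg (d (n - (k + 1))).1
        linarith [h1.2, h3.2]
    have h1 := (key n le_rfl).2
    rw [Nat.sub_self] at h1
    exact (norm_le_of le_rfl hc).trans (h1.trans (norm_fst_le _))

/-- Dichotomy at the end of a finite chain. -/
theorem chain_end {d : ℕ → Xs × Xu} {K : ℕ} (hK : 1 ≤ K) (h : ∀ n < K, Step (d n) (d (n + 1))) :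
    ‖(d K).1‖ ≤ max ((1 / 4) ^ K * ‖d 0‖) (1 / 2 * ‖(d K).2‖) := by
  obtain ⟨K, rfl⟩ : ∃ k, K = k + 1 := ⟨K - 1, by omega⟩
  rcases le_total ‖(d K).1‖ ‖(d K).2‖ with hc | hc
  · refine le_trans ?_ (le_max_right _ _)
    have h1 := (h K (by omega)).ucone hc
    have := norm_nonneg (d K).2
    linarith [h1.1, h1.2]
  · refine le_trans ?_ (le_max_left _ _)
    have key : ∀ k ≤ K, ‖(d (K - k)).2‖ ≤ ‖(d (K - k)).1‖ ∧
        ‖(d K).1‖ ≤ (1 / 4) ^ k * ‖(d (K - k)).1‖ := by
      intro k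
      induction k with
      | zero => exact fun _ => ⟨hc, by simp⟩
      | succ k ih =>
        intro hk
        have h1 := ih (by omega)
        have h2 := h (K - (k + 1)) (by omega)
        rw [show K - (k + 1) + 1 = K - k by omega] at h2
        have h3 := h2.scone h1.1
        refine ⟨h3.1, ?_⟩
        calc _ ≤ (1 / 4) ^ k * ‖(d (K - k)).1‖ := h1.2
          _ ≤ (1 / 4) ^ k * (1 / 4 * ‖(d (K - (k + 1))).1‖) := by gcongr; exact h3.2
          _ = _ := by ring
    have h1 := (key K le_rfl).2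
    rw [Nat.sub_self] at h1
    have h2 := (h K (by omega)).1
    have h3 : ‖d K‖ ≤ ‖(d K).1‖ := norm_le_of le_rfl hc
    have h4 := norm_fst_le (d 0)
    calc ‖(d (K + 1)).1‖ ≤ 1 / 4 * ‖(d K).1‖ := by linarith
      _ ≤ 1 / 4 * ((1 / 4) ^ K * ‖(d 0).1‖) := by gcongr
      _ ≤ 1 / 4 * ((1 / 4) ^ K * ‖d 0‖) := by gcongr
      _ = _ := by ring

/-- limits along the hyperfilter of bounded sequences -/
theorem exists_hyperlim {X : Type*} [NormedAddCommGroup X] [ProperSpace X] (e : ℕ → X) (C : ℝ)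
    (he : ∀ n, ‖e n‖ ≤ C) : ∃ x, ‖x‖ ≤ C ∧ Tendsto e (hyperfilter ℕ : Filter ℕ) (𝓝 x) := by
  have hc : IsCompact (Metric.closedBall (0 : X) C) := isCompact_closedBall _ _
  obtain ⟨x, hx, hx2⟩ := hc.ultrafilter_le_nhds ((hyperfilter ℕ).map e) (by
    rw [Filter.le_principal_iff]
    exact Filter.mem_map.2 (Filter.univ_mem' fun n => by
      simpa using he n))
  exact ⟨x, by simpa using hx, hx2⟩

/-- The linear cross form. -/
theorem exists_cross [FiniteDimensional ℝ Xs] [FiniteDimensional ℝ Xu]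
    (L : Xs × Xu →L[ℝ] Xs × Xu)
    (hL : ∀ v, ‖v.2‖ ≤ 1 / 2 * max ‖v.1‖ ‖(L v).2‖ ∧
      ‖(L v).1‖ ≤ 1 / 2 * max ‖v.1‖ ‖(L v).2‖) :
    ∃ F : Xs × Xu →ₗ[ℝ] Xs × Xu, ∀ p, (F p).1 = p.1 ∧ (L (F p)).2 = p.2 ∧
      ‖(F p).2‖ ≤ 1 / 2 * ‖p‖ ∧ ‖(L (F p)).1‖ ≤ 1 / 2 * ‖p‖ := by
  let E : Xs × Xu →ₗ[ℝ] Xs × Xu := (LinearMap.fst ℝ Xs Xu).prod
    ((LinearMap.snd ℝ Xs Xu).comp (L : Xs × Xu →ₗ[ℝ] Xs × Xu))
  have hE : ∀ v, E v = (v.1, (L v).2) := fun v => rfl
  have hinj : Injective E := by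
    rw [injective_iff_map_eq_zero]
    intro v hv
    rw [hE] at hv
    have h1 : v.1 = 0 := congrArg Prod.fst hv
    have h2 : (L v).2 = 0 := congrArg Prod.snd hv
    have h3 := (hL v).1
    rw [h1, h2] at h3
    simp only [norm_zero, max_self, mul_zero] at h3
    exact Prod.ext h1 (norm_le_zero_iff.1 h3)
  let F := (LinearEquiv.ofInjectiveEndo E hinj).symm
  have hF : ∀ p, E (F p) = p := fun p => (LinearEquiv.ofInjectiveEndo E hinj).apply_symm_apply p
  refine ⟨F.toLinearMap, fun p => ?_⟩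
  have h1 : ((F p).1, (L (F p)).2) = p := by rw [← hE]; exact hF p
  have h2 : (F p).1 = p.1 := (Prod.ext_iff.1 h1).1
  have h3 : (L (F p)).2 = p.2 := (Prod.ext_iff.1 h1).2
  have h4 := hL (F p)
  rw [h2, h3, ← Prod.norm_def] at h4
  exact ⟨h2, h3, h4.1, h4.2⟩

/-- A map in cross form between balls around `c` and `c'`. -/
def CrossStep (g : Xs × Xu → Xs × Xu) (c c' : Xs × Xu) (r : ℝ) : Prop :=
  ∃ (P : Xs × Xu → Xs × Xu → Xs) (Q : Xs × Xu → Xs × Xu → Xu),
    (∀ y y' z z' : Xs × Xu, ∀ C : ℝ, ‖y - c‖ ≤ r → ‖y' - c‖ ≤ r → ‖z - c'‖ ≤ r →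
      ‖z' - c'‖ ≤ r → ‖y - y'‖ ≤ C → ‖z - z'‖ ≤ C →
        ‖P y z - P y' z'‖ ≤ 3 / 4 * C ∧ ‖Q y z - Q y' z'‖ ≤ 3 / 4 * C) ∧
    ‖P c c' - c'.1‖ ≤ r / 4 ∧ ‖Q c c' - c.2‖ ≤ r / 4 ∧
    ∀ y z, z.1 = P y z → y.2 = Q y z → g y = z

theorem chain_shadow [CompleteSpace Xs] [CompleteSpace Xu] {ι : Type*} {r : ℝ} (hr : 0 ≤ r)
    (g : ι → Xs × Xu → Xs × Xu) (c : ι → Xs × Xu) (nxt : ι → ι) (hinj : Injective nxt)
    (hcs : ∀ i, CrossStep (g i) (c i) (c (nxt i)) r) :
    ∃ y : ι → Xs × Xu, (∀ i, ‖y i - c i‖ ≤ r) ∧ ∀ i, g i (y i) = y (nxt i) := by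
  choose P Q hlip hP hQ hg using hcs
  let prv : ι → Option ι := Function.partialInv nxt
  have hprv : ∀ i i', prv i = some i' ↔ nxt i' = i := fun i i' => hinj.isPartialInv i' i
  let Φ1 : (ι → Xs × Xu) → ι → Option ι → Xs := fun y i o =>
    match o with
    | none => (c i).1
    | some i' => P i' (y i') (y i)
  let Φ : (ι → Xs × Xu) → ι → Xs × Xu := fun y i =>
    (Φ1 y i (prv i), Q i (y i) (y (nxt i)))
  have hlipΦ : ∀ x y : ι → Xs × Xu, (∀ i, x i ∈ Metric.closedBall (c i) r) →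
      (∀ i, y i ∈ Metric.closedBall (c i) r) → ∀ C, (∀ i, ‖x i - y i‖ ≤ C) →
      ∀ i, ‖Φ x i - Φ y i‖ ≤ 3 / 4 * C := by
    intro x y hx hy C hC i
    simp only [mem_closedBall_iff_norm] at hx hy
    have hC0 : 0 ≤ C := (norm_nonneg _).trans (hC i)
    refine norm_le_of ?_ ?_
    · simp only [Φ, Prod.fst_sub]
      rcases ho : prv i with _ | i'
      · simp only [Φ1, sub_self, norm_zero]; positivity
      · obtain rfl := (hprv i i').1 ho
        exact (hlip i' _ _ _ _ C (hx _) (hy _) (hx _) (hy _) (hC _) (hC _)).1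
    · simp only [Φ, Prod.snd_sub]
      exact (hlip i _ _ _ _ C (hx _) (hy _) (hx _) (hy _) (hC _) (hC _)).2
  have hcc : ∀ i, c i ∈ Metric.closedBall (c i) r := fun i => by simp [hr]
  have hΦc : ∀ i, ‖Φ c i - c i‖ ≤ r / 4 := by
    intro i
    refine norm_le_of ?_ ?_
    · simp only [Φ, Prod.fst_sub]
      rcases ho : prv i with _ | i'
      · simp only [Φ1, sub_self, norm_zero]; positivity
      · obtain rfl := (hprv i i').1 ho
        exact hP i'
    · simp only [Φ, Prod.snd_sub]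
      exact hQ i
  have hmap : ∀ x : ι → Xs × Xu, (∀ i, x i ∈ Metric.closedBall (c i) r) →
      ∀ i, Φ x i ∈ Metric.closedBall (c i) r := by
    intro x hx i
    rw [mem_closedBall_iff_norm]
    have h1 := hlipΦ x c hx hcc r (fun i => by
      have := hx i
      rwa [mem_closedBall_iff_norm] at this) i
    have h2 := hΦc i
    calc ‖Φ x i - c i‖ = ‖(Φ x i - Φ c i) + (Φ c i - c i)‖ := by congr 1; abel
      _ ≤ ‖Φ x i - Φ c i‖ + ‖Φ c i - c i‖ := norm_add_le _ _
      _ ≤ r := by linarith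
  obtain ⟨y, hy, hfix⟩ := exists_fixed (fun i => Metric.closedBall (c i) r)
    (fun _ => Metric.isClosed_closedBall) Φ hmap (κ := 3 / 4) (by norm_num) (by norm_num) hlipΦ
    c hcc (r / 4) hΦc
  refine ⟨y, fun i => mem_closedBall_iff_norm.1 (hy i), fun i => ?_⟩
  refine hg i _ _ ?_ ?_
  · have h1 := congrArg Prod.fst (congrFun hfix (nxt i))
    have h2 : prv (nxt i) = some i := (hprv _ _).2 rfl
    simp only [Φ, h2, Φ1] at h1
    exact h1.symm
  · exact (congrArg Prod.snd (congrFun hfix i)).symm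

/-- The cross form of a map with hyperbolic derivative. -/
theorem crossStep_of_approx {T1 : Xs × Xu → Xs × Xu} {L : Xs × Xu →L[ℝ] Xs × Xu}
    {a b : Xs × Xu} {r : ℝ} (hr : 0 ≤ r) (F : Xs × Xu →ₗ[ℝ] Xs × Xu)
    (hF : ∀ p, (F p).1 = p.1 ∧ (L (F p)).2 = p.2 ∧
      ‖(F p).2‖ ≤ 1 / 2 * ‖p‖ ∧ ‖(L (F p)).1‖ ≤ 1 / 2 * ‖p‖)
    (hT : ∀ y y', ‖y - a‖ ≤ r → ‖y' - a‖ ≤ r → ‖T1 y - T1 y' - L (y - y')‖ ≤ 1 / 8 * ‖y - y'‖)
    (hab : T1 a = b) : CrossStep T1 a b r := by
  let q : Xs × Xu → Xs × Xu → Xs × Xu := fun y z => ((y - a).1, (z - T1 y + L (y - a)).2)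
  have hq : ∀ y y' z z' : Xs × Xu, ∀ C : ℝ, ‖y - a‖ ≤ r → ‖y' - a‖ ≤ r → ‖y - y'‖ ≤ C →
      ‖z - z'‖ ≤ C → ‖q y z - q y' z'‖ ≤ 9 / 8 * C := by
    intro y y' z z' C hy hy' hyy hzz
    have hC0 : 0 ≤ C := (norm_nonneg _).trans hyy
    refine norm_le_of ?_ ?_
    · have : (q y z - q y' z').1 = (y - y').1 := by simp [q]
      rw [this]
      linarith [norm_fst_le (y - y')]
    · have : (q y z - q y' z').2 = ((z - z') - (T1 y - T1 y' - L (y - y'))).2 := by
        simp only [q, Prod.snd_sub, Prod.snd_add, map_sub]; abel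
      rw [this]
      refine (norm_snd_le _).trans ((norm_sub_le _ _).trans ?_)
      have := hT y y' hy hy'
      linarith
  refine ⟨fun y z => b.1 + (T1 y - b - L (y - a)).1 + (L (F (q y z))).1,
    fun y z => a.2 + (F (q y z)).2, ?_, ?_, ?_, ?_⟩
  · intro y y' z z' C hy hy' _ _ hyy hzz
    have hC0 : 0 ≤ C := (norm_nonneg _).trans hyy
    have h1 := hq y y' z z' C hy hy' hyy hzz
    have h2 := (hF (q y z - q y' z')).2.2
    constructor
    · have e : b.1 + (T1 y - b - L (y - a)).1 + (L (F (q y z))).1 -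
          (b.1 + (T1 y' - b - L (y' - a)).1 + (L (F (q y' z'))).1) =
          (T1 y - T1 y' - L (y - y')).1 + (L (F (q y z - q y' z'))).1 := by
        simp only [map_sub, Prod.fst_sub]; abel
      rw [e]
      refine (norm_add_le _ _).trans ?_
      have h3 := (norm_fst_le (T1 y - T1 y' - L (y - y'))).trans (hT y y' hy hy')
      linarith [h2.2]
    · have e : a.2 + (F (q y z)).2 - (a.2 + (F (q y' z')).2) = (F (q y z - q y' z')).2 := by
        simp only [map_sub, Prod.snd_sub]; abel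
      rw [e]
      linarith [h2.1]
  · have hq0 : q a b = 0 := by simp [q, hab]
    simp only [hq0, map_zero, hab]
    simp; positivity
  · have hq0 : q a b = 0 := by simp [q, hab]
    simp only [hq0, map_zero]
    simp; positivity
  · intro y z h1 h2
    have h3 := hF (q y z)
    have h4 : F (q y z) = y - a := by
      refine Prod.ext h3.1 ?_
      simp only at h2
      rw [Prod.snd_sub, h2]; abel
    rw [h4] at h3
    have h5 : (L (y - a)).2 = (z - T1 y + L (y - a)).2 := h3.2.1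
    simp only [h4] at h1
    refine Prod.ext ?_ ?_
    · rw [h1]; simp only [Prod.fst_sub]; abel
    · simp only [Prod.snd_add, Prod.snd_sub] at h5
      have : z.2 - (T1 y).2 = 0 := by
        have := h5.symm
        rwa [add_eq_right] at this
      exact (sub_eq_zero.1 this).symm

end Cone

open Cone

namespace LocHyp

variable {G : Xs × Xu → Xs × Xu} {As : Xs →L[ℝ] Xs} {Au : Xu ≃L[ℝ] Xu} {ρ : ℝ}

variable [FiniteDimensional ℝ Xs] [FiniteDimensional ℝ Xu]

theorem step_cocyc (h : LocHyp G As Au ρ) {Ω : Set (Xs × Xu)} (hΩ : IsOpen Ω)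
    (hball : Metric.closedBall 0 ρ ⊆ Ω) (hC : ContDiffOn ℝ 1 G Ω) {x : ℕ → Xs × Xu}
    (hx : ∀ n, ‖x n‖ < ρ) (v : Xs × Xu) (n : ℕ) : Step (cocyc G x n v) (cocyc G x (n + 1) v) :=
  h.step_fderiv hΩ hball hC (hx n) _

/-- Stage 1: transversality spreads to the images of the whole cone. -/
theorem stage1 (h : LocHyp G As Au ρ)
    {Ω : Set (Xs × Xu)} (hΩ : IsOpen Ω) (hball : Metric.closedBall 0 ρ ⊆ Ω)
    (hC : ContDiffOn ℝ 1 G Ω) (b a : ℕ → Xs × Xu) (ha : ∀ n, ‖a n‖ < ρ)
    (D : Xs × Xu →L[ℝ] Xs × Xu)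
    (htr : ∀ v ∈ bwdBdd G a, D v ∈ fwdBdd G b → v = 0) :
    ∃ K : ℕ, 1 ≤ K ∧ ∀ v : Xs × Xu, ‖v.1‖ ≤ 2 * ‖v.2‖ →
      D (cocyc G (fun i => a (K - i)) K v) ∈ fwdBdd G b → v = 0 := by
  by_contra hcon
  push Not at hcon
  have : ∀ K : ℕ, ∃ v : Xs × Xu, ‖v.1‖ ≤ 2 * ‖v.2‖ ∧
      D (cocyc G (fun i => a (K + 1 - i)) (K + 1) v) ∈ fwdBdd G b ∧ v ≠ 0 := by
    intro K
    exact hcon (K + 1) (by omega)
  choose v hv1 hv2 hv3 using this
  -- the chain
  set w : ℕ → ℕ → Xs × Xu := fun K i => cocyc G (fun i => a (K + 1 - i)) i (v K) with hw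
  have hst : ∀ K n, Step (w K n) (w K (n + 1)) := fun K n =>
    h.step_cocyc hΩ hball hC (x := fun i => a (K + 1 - i)) (fun _ => ha _) (v K) n
  have hvpos : ∀ K, 0 < ‖(v K).2‖ := by
    intro K
    rcases (norm_nonneg (v K).2).eq_or_lt with h0 | h0
    · exfalso
      apply hv3 K
      have h1 := hv1 K
      rw [← h0, mul_zero] at h1
      exact Prod.ext (norm_le_zero_iff.1 h1) (norm_le_zero_iff.1 h0.symm.le)
    · exact h0
  have hwc : ∀ K n, ‖(w K n).1‖ ≤ 2 * ‖(w K n).2‖ ∧ 0 < ‖(w K n).2‖ ∧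
      ‖(w K n).2‖ ≤ ‖(w K (n + 1)).2‖ := by
    intro K n
    induction n with
    | zero =>
      have h0 : w K 0 = v K := rfl
      have h1 := (hst K 0).ucone2 (by rw [h0]; exact hv1 K)
      have h2 := hvpos K
      refine ⟨by rw [h0]; exact hv1 K, by rw [h0]; exact h2, ?_⟩
      have := norm_nonneg (w K 0).2
      linarith [h1.2]
    | succ n ih =>
      have h1 := (hst K n).ucone2 ih.1
      have h3 : ‖(w K (n + 1)).1‖ ≤ 2 * ‖(w K (n + 1)).2‖ := by
        have := norm_nonneg (w K n).2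
        linarith [h1.1, h1.2]
      have h2 := (hst K (n + 1)).ucone2 h3
      refine ⟨h3, lt_of_lt_of_le ih.2.1 ih.2.2, ?_⟩
      have := norm_nonneg (w K (n + 1)).2
      linarith [h2.2]
  have hmono : ∀ K, Monotone fun n => ‖(w K n).2‖ := fun K =>
    monotone_nat_of_le_succ fun n => (hwc K n).2.2
  -- the normalised backward chain
  let e : ℕ → ℕ → Xs × Xu := fun n K => (‖(w K (K + 1)).2‖)⁻¹ • w K (K + 1 - n)
  have he : ∀ n K, ‖e n K‖ ≤ 2 := by
    intro n K
    have h1 : 0 < ‖(w K (K + 1)).2‖ := (hwc K (K + 1)).2.1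
    have h2 : ‖w K (K + 1 - n)‖ ≤ 2 * ‖(w K (K + 1 - n)).2‖ := by
      refine norm_le_of (hwc K _).1 ?_
      linarith [norm_nonneg (w K (K + 1 - n)).2]
    have h3 : ‖(w K (K + 1 - n)).2‖ ≤ ‖(w K (K + 1)).2‖ := hmono K (by omega)
    simp only [e, norm_smul, norm_inv, norm_norm]
    rw [inv_mul_le_iff₀ h1]
    linarith
  have hprop : ProperSpace (Xs × Xu) := FiniteDimensional.proper_real _
  choose E hE1 hE2 using fun n => exists_hyperlim (e n) 2 (he n)
  have hE0 : ‖(E 0).2‖ = 1 := by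
    have h1 : Tendsto (fun K => ‖(e 0 K).2‖) (hyperfilter ℕ : Filter ℕ) (𝓝 ‖(E 0).2‖) :=
      ((continuous_snd.norm).tendsto (E 0)).comp (hE2 0)
    have h2 : (fun K => ‖(e 0 K).2‖) = fun _ => (1 : ℝ) := by
      funext K
      have h1 : 0 < ‖(w K (K + 1)).2‖ := (hwc K (K + 1)).2.1
      simp only [e, Prod.smul_snd, norm_smul, norm_inv, norm_norm, Nat.sub_zero]
      exact inv_mul_cancel₀ h1.ne'
    rw [h2] at h1
    exact (tendsto_nhds_unique h1 tendsto_const_nhds)
  have hEb : E 0 ∈ bwdBdd G a := by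
    refine ⟨E, rfl, fun n => ?_, 2, hE1⟩
    have h1 : Tendsto (fun K => fderiv ℝ G (a (n + 1)) (e (n + 1) K))
        (hyperfilter ℕ : Filter ℕ) (𝓝 (fderiv ℝ G (a (n + 1)) (E (n + 1)))) :=
      ((fderiv ℝ G (a (n + 1))).continuous.tendsto _).comp (hE2 (n + 1))
    refine tendsto_nhds_unique h1 ((hE2 n).congr' ?_)
    have h2 : ∀ᶠ K : ℕ in (hyperfilter ℕ : Filter ℕ), n ≤ K :=
      Nat.hyperfilter_le_atTop (eventually_ge_atTop n)
    filter_upwards [h2] with K hK
    simp only [e, map_smul]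
    congr 1
    have h3 : w K (K + 1 - n) = fderiv ℝ G (a (K + 1 - (K - n))) (w K (K - n)) := by
      rw [show K + 1 - n = (K - n) + 1 by omega]; rfl
    rw [h3, show K + 1 - (K - n) = n + 1 by omega, show K + 1 - (n + 1) = K - n by omega]
  have hEf : D (E 0) ∈ fwdBdd G b := by
    have hcl : IsClosed (fwdBdd G b : Set (Xs × Xu)) := Submodule.closed_of_finiteDimensional _
    have h1 : Tendsto (fun K => D (e 0 K)) (hyperfilter ℕ : Filter ℕ) (𝓝 (D (E 0))) :=
      (D.continuous.tendsto _).comp (hE2 0)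
    refine hcl.mem_of_tendsto h1 (Eventually.of_forall fun K => ?_)
    simp only [e, map_smul, Nat.sub_zero]
    exact (fwdBdd G b).smul_mem _ (hv2 K)
  have h0 := htr _ hEb hEf
  rw [h0] at hE0
  simp at hE0

/-- Stage 2: the cone is eventually expanded. -/
theorem stage2 (h : LocHyp G As Au ρ)
    {Ω : Set (Xs × Xu)} (hΩ : IsOpen Ω) (hball : Metric.closedBall 0 ρ ⊆ Ω)
    (hC : ContDiffOn ℝ 1 G Ω) (b : ℕ → Xs × Xu) (hb : ∀ n, ‖b n‖ < ρ)
    (R : Xs × Xu →L[ℝ] Xs × Xu)
    (hR : ∀ v : Xs × Xu, ‖v.1‖ ≤ 2 * ‖v.2‖ → R v ∈ fwdBdd G b → v = 0) :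
    ∃ K₀ : ℕ, ∀ K ≥ K₀, ∀ v : Xs × Xu, ‖v.1‖ ≤ 2 * ‖v.2‖ →
      ‖v.2‖ ≤ 1 / 2 * ‖(cocyc G b K (R v)).2‖ := by
  by_contra hcon
  push Not at hcon
  choose K hK v hv1 hv2 using hcon
  have hvpos : ∀ k, 0 < ‖(v k).2‖ := fun k => lt_of_le_of_lt (by positivity) (hv2 k)
  let e : ℕ → Xs × Xu := fun k => (‖(v k).2‖)⁻¹ • v k
  have he2 : ∀ k, ‖(e k).2‖ = 1 := by
    intro k
    simp only [e, Prod.smul_snd, norm_smul, norm_inv, norm_norm]
    exact inv_mul_cancel₀ (hvpos k).ne'
  have he1 : ∀ k, ‖(e k).1‖ ≤ 2 := by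
    intro k
    simp only [e, Prod.smul_fst, norm_smul, norm_inv, norm_norm]
    rw [inv_mul_le_iff₀ (hvpos k)]
    linarith [hv1 k]
  have he : ∀ k, ‖e k‖ ≤ 2 := fun k => norm_le_of (he1 k) (by rw [he2 k]; norm_num)
  have heK : ∀ k, ‖(cocyc G b (K k) (R (e k))).2‖ ≤ 2 := by
    intro k
    simp only [e, map_smul, Prod.smul_snd, norm_smul, norm_inv, norm_norm]
    rw [inv_mul_le_iff₀ (hvpos k)]
    linarith [hv2 k]
  have hprop : ProperSpace (Xs × Xu) := FiniteDimensional.proper_real _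
  obtain ⟨E, hE1, hE2⟩ := exists_hyperlim e 2 he
  have hE2' : ‖E.2‖ = 1 := by
    have h1 : Tendsto (fun k => ‖(e k).2‖) (hyperfilter ℕ : Filter ℕ) (𝓝 ‖E.2‖) :=
      ((continuous_snd.norm).tendsto E).comp hE2
    simp only [he2] at h1
    exact tendsto_nhds_unique h1 tendsto_const_nhds
  have hE1' : ‖E.1‖ ≤ 2 * ‖E.2‖ := by
    rw [hE2']
    have h1 : Tendsto (fun k => ‖(e k).1‖) (hyperfilter ℕ : Filter ℕ) (𝓝 ‖E.1‖) :=
      ((continuous_fst.norm).tendsto E).comp hE2
    exact le_of_tendsto h1 (Eventually.of_forall fun k => by linarith [he1 k])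
  have hRE : R E ∈ fwdBdd G b := by
    refine ⟨fun n => cocyc G b n (R E), rfl, fun n => rfl, max (‖R‖ * 2) 2, fun n => ?_⟩
    have h1 : Tendsto (fun k => ‖cocyc G b n (R (e k))‖) (hyperfilter ℕ : Filter ℕ)
        (𝓝 ‖cocyc G b n (R E)‖) :=
      ((((cocyc G b n).comp R).continuous.norm).tendsto E).comp hE2
    refine le_of_tendsto h1 ?_
    have h2 : ∀ᶠ k : ℕ in (hyperfilter ℕ : Filter ℕ), n ≤ k :=
      Nat.hyperfilter_le_atTop (eventually_ge_atTop n)
    filter_upwards [h2] with k hk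
    have h3 := chain_bound (d := fun m => cocyc G b m (R (e k))) (K := K k)
      (fun m _ => h.step_cocyc hΩ hball hC hb (R (e k)) m) (n := n) (hk.trans (hK k))
    refine h3.trans (max_le_max ?_ (heK k))
    rw [cocyc_zero]
    exact (R.le_opNorm _).trans (by gcongr; exact he k)
  have h0 := hR E hE1' hRE
  rw [h0] at hE2'
  simp at hE2'

theorem crossStep_G (h : LocHyp G As Au ρ) {c c' : Xs × Xu} {r : ℝ}
    (hc : ‖c‖ + r ≤ ρ) (hcc : ‖G c - c'‖ ≤ r / 4) : CrossStep G c c' r := by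
  have hball : ∀ y : Xs × Xu, ‖y - c‖ ≤ r → ‖y‖ ≤ ρ := by
    intro y hy
    calc ‖y‖ = ‖c + (y - c)‖ := by congr 1; abel
      _ ≤ ‖c‖ + ‖y - c‖ := norm_add_le _ _
      _ ≤ ρ := by linarith
  refine ⟨fun y _ => (G y).1, fun y z => Au.symm (z.2 - ((G y).2 - Au y.2)), ?_, ?_, ?_, ?_⟩
  · intro y y' z z' C hy hy' _ _ hyy hzz
    have hC0 : 0 ≤ C := (norm_nonneg _).trans hyy
    have h1 := h.norm_fst_G_sub (hball y hy) (hball y' hy')
    have h2 := h.norm_back (hball y hy) (hball y' hy') (u := z.2) (v := z'.2) (C := C)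
      ((norm_snd_le (z - z')).trans hzz) hyy
    constructor
    · linarith
    · linarith
  · exact (norm_fst_le (G c - c')).trans hcc
  · have e : Au.symm (c'.2 - ((G c).2 - Au c.2)) - c.2 = - Au.symm ((G c - c').2) := by
      simp only [map_sub, ContinuousLinearEquiv.symm_apply_apply, Prod.snd_sub]; abel
    simp only [e, norm_neg]
    have h1 := ((Au.symm : Xu →L[ℝ] Xu).le_opNorm ((G c - c').2)).trans
      (mul_le_mul h.norm_Au ((norm_snd_le _).trans hcc) (norm_nonneg _) (by norm_num))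
    have h2 : 0 ≤ r / 4 := (norm_nonneg _).trans hcc
    refine le_trans h1 ?_
    linarith
  · intro y z h1 h2
    refine Prod.ext h1.symm ?_
    have h3 := congrArg Au h2
    simp only [ContinuousLinearEquiv.apply_symm_apply] at h3
    have h4 : z.2 - (G y).2 = (z.2 - ((G y).2 - Au y.2)) - Au y.2 := by abel
    rw [← h3, sub_self] at h4
    exact (sub_eq_zero.1 h4).symm

/-- Horseshoe: a transverse homoclinic orbit gives orbits with arbitrary return times. -/
theorem horseshoe (h : LocHyp G As Au ρ)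
    {Ω : Set (Xs × Xu)} (hΩ : IsOpen Ω) (hball : Metric.closedBall 0 ρ ⊆ Ω)
    (hC : ContDiffOn ℝ 1 G Ω) (b a : ℕ → Xs × Xu) (hb : ∀ n, ‖b n‖ < ρ)
    (hGb : ∀ n, G (b n) = b (n + 1)) (ha : ∀ n, ‖a n‖ < ρ) (hGa : ∀ n, G (a (n + 1)) = a n)
    (T : Xs × Xu → Xs × Xu) (hT : ContDiffAt ℝ 1 T (a 0)) (hTab : T (a 0) = b 0)
    (htr : ∀ v ∈ bwdBdd G a, fderiv ℝ T (a 0) v ∈ fwdBdd G b → v = 0)
    (Wa Wb : Set (Xs × Xu)) (hWa : Wa ∈ 𝓝 (a 0)) (hWb : Wb ∈ 𝓝 (b 0)) :
    ∃ n₀ : ℕ, ∀ τ : ℕ → Bool, ∃ z : ℕ → Xs × Xu, ∀ j,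
      z j ∈ Wb ∧ (∀ i ≤ n₀ + (τ j).toNat, ‖G^[i] (z j)‖ ≤ ρ) ∧
      G^[n₀ + (τ j).toNat] (z j) ∈ Wa ∧ T (G^[n₀ + (τ j).toNat] (z j)) = z (j + 1) := by
  have hρ := h.rho_pos
  have hcs : CompleteSpace Xs := FiniteDimensional.complete ℝ Xs
  have hcu : CompleteSpace Xu := FiniteDimensional.complete ℝ Xu
  have hstrict : ∀ x : Xs × Xu, ‖x‖ < ρ → HasStrictFDerivAt G (fderiv ℝ G x) x := by
    intro x hx
    exact (hC.contDiffAt (hΩ.mem_nhds (hball (by simpa using hx.le)))).hasStrictFDerivAt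
      (by norm_num)
  -- the cone constants
  obtain ⟨K', hK'1, hK'⟩ := h.stage1 hΩ hball hC b a ha (fderiv ℝ T (a 0)) htr
  set R : Xs × Xu →L[ℝ] Xs × Xu :=
    (fderiv ℝ T (a 0)).comp (cocyc G (fun i => a (K' - i)) K') with hR
  obtain ⟨K₀, hK₀⟩ := h.stage2 hΩ hball hC b hb R (fun v hv hv2 => hK' v hv hv2)
  obtain ⟨K₁, hK₁⟩ : ∃ K₁ : ℕ, (1 / 4 : ℝ) ^ K₁ * ‖R‖ ≤ 1 / 2 := by
    have h1 : Tendsto (fun K : ℕ => (1 / 4 : ℝ) ^ K * ‖R‖) atTop (𝓝 0) := by
      have := (tendsto_pow_atTop_nhds_zero_of_lt_one (r := (1 / 4 : ℝ)) (by norm_num)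
        (by norm_num)).mul_const ‖R‖
      simpa using this
    obtain ⟨K₁, hK₁⟩ := (h1.eventually (gt_mem_nhds (show (0 : ℝ) < 1 / 2 by norm_num))).exists
    exact ⟨K₁, hK₁.le⟩
  set K : ℕ := max (max K₀ K₁) 1 with hKdef
  have hK1 : 1 ≤ K := le_max_right _ _
  have hKK₀ : K₀ ≤ K := (le_max_left _ _).trans (le_max_left _ _)
  have hKK₁ : K₁ ≤ K := (le_max_right _ _).trans (le_max_left _ _)
  have hKR : (1 / 4 : ℝ) ^ K * ‖R‖ ≤ 1 / 2 :=
    (mul_le_mul_of_nonneg_right (pow_le_pow_of_le_one (by norm_num) (by norm_num) hKK₁)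
      (norm_nonneg _)).trans hK₁
  set L : Xs × Xu →L[ℝ] Xs × Xu := (cocyc G b K).comp R with hLdef
  have hL : ∀ v, ‖v.2‖ ≤ 1 / 2 * max ‖v.1‖ ‖(L v).2‖ ∧
      ‖(L v).1‖ ≤ 1 / 2 * max ‖v.1‖ ‖(L v).2‖ := by
    intro v
    have h1 : ‖v.2‖ ≤ 1 / 2 * max ‖v.1‖ ‖(L v).2‖ := by
      rcases le_or_gt ‖v.1‖ (2 * ‖v.2‖) with hc | hc
      · have := hK₀ K hKK₀ v hc
        have h2 : ‖(L v).2‖ ≤ max ‖v.1‖ ‖(L v).2‖ := le_max_right _ _
        have h3 : (cocyc G b K) (R v) = L v := rfl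
        rw [h3] at this
        linarith
      · have h2 : ‖v.1‖ ≤ max ‖v.1‖ ‖(L v).2‖ := le_max_left _ _
        linarith
    refine ⟨h1, ?_⟩
    have hM0 : 0 ≤ max ‖v.1‖ ‖(L v).2‖ := le_max_of_le_left (norm_nonneg _)
    have h2 : ‖v‖ ≤ max ‖v.1‖ ‖(L v).2‖ :=
      norm_le_of (le_max_left _ _) (by linarith)
    have h3 := chain_end (d := fun m => cocyc G b m (R v)) hK1
      (fun m _ => h.step_cocyc hΩ hball hC hb (R v) m)
    have h4 : (cocyc G b K) (R v) = L v := rfl
    simp only [h4, cocyc_zero] at h3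
    refine h3.trans (max_le ?_ ?_)
    · calc (1 / 4) ^ K * ‖R v‖ ≤ (1 / 4) ^ K * (‖R‖ * ‖v‖) := by
            gcongr; exact R.le_opNorm v
        _ = ((1 / 4) ^ K * ‖R‖) * ‖v‖ := by ring
        _ ≤ 1 / 2 * max ‖v.1‖ ‖(L v).2‖ := mul_le_mul hKR h2 (norm_nonneg _) (by norm_num)
    · have : ‖(L v).2‖ ≤ max ‖v.1‖ ‖(L v).2‖ := le_max_right _ _
      linarith
  obtain ⟨F, hF⟩ := exists_cross L hL
  -- the transition map
  have hGa' : ∀ i < K', G (a (K' - i)) = a (K' - (i + 1)) := by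
    intro i hi
    rw [show K' - i = (K' - (i + 1)) + 1 by omega]; exact hGa _
  have hQi : ∀ i ≤ K', HasStrictFDerivAt (G^[i]) (cocyc G (fun i => a (K' - i)) i) (a K') ∧
      G^[i] (a K') = a (K' - i) := by
    intro i hi
    have h1 := hasStrictFDerivAt_iterate (G := G) (x := fun i => a (K' - i)) (n := i)
      (fun k hk => hGa' k (by omega)) (fun k _ => hstrict _ (ha _))
    have h2 := iterate_eq (G := G) (x := fun i => a (K' - i)) (n := i)
      (fun k hk => hGa' k (by omega))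
    exact ⟨h1, h2⟩
  have hPi : ∀ i, HasStrictFDerivAt (G^[i]) (cocyc G b i) (b 0) ∧ G^[i] (b 0) = b i := by
    intro i
    exact ⟨hasStrictFDerivAt_iterate (fun k _ => hGb k) (fun k _ => hstrict _ (hb _)),
      iterate_eq (fun k _ => hGb k)⟩
  have hTs : HasStrictFDerivAt T (fderiv ℝ T (a 0)) (a 0) := hT.hasStrictFDerivAt (by norm_num)
  have hTQ : HasStrictFDerivAt (fun y => T (G^[K'] y)) R (a K') := by
    have h1 : G^[K'] (a K') = a 0 := by rw [(hQi K' le_rfl).2, Nat.sub_self]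
    refine HasStrictFDerivAt.comp (a K') ?_ (hQi K' le_rfl).1
    rw [h1]; exact hTs
  have hTQ0 : T (G^[K'] (a K')) = b 0 := by
    rw [(hQi K' le_rfl).2, Nat.sub_self, hTab]
  let T1 : Xs × Xu → Xs × Xu := fun y => G^[K] (T (G^[K'] y))
  have hT1 : HasStrictFDerivAt T1 L (a K') := by
    refine HasStrictFDerivAt.comp (a K') (g := G^[K]) (f := fun y => T (G^[K'] y)) ?_ hTQ
    rw [hTQ0]; exact (hPi K).1
  have hT1a : T1 (a K') = b K := by
    simp only [T1, hTQ0]; exact (hPi K).2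
  -- the radius
  obtain ⟨s, hs, hs2⟩ := hT1.approximates_deriv_on_nhds (c := 1 / 8) (Or.inr (by norm_num))
  have hev1 : ∀ᶠ y in 𝓝 (a K'), ∀ i ∈ Set.Iic K', ‖G^[i] y‖ ≤ ρ := by
    rw [Filter.eventually_all_finite (Set.finite_Iic K')]
    intro i hi
    have h1 : ContinuousAt (fun y => ‖G^[i] y‖) (a K') := (hQi i hi).1.continuousAt.norm
    have h2 : ‖G^[i] (a K')‖ < ρ := by rw [(hQi i hi).2]; exact ha _
    exact (h1.eventually (gt_mem_nhds h2)).mono fun y hy => hy.le
  have hev2 : ∀ᶠ y in 𝓝 (a K'), G^[K'] y ∈ Wa := by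
    have h1 : ContinuousAt (G^[K']) (a K') := (hQi K' le_rfl).1.continuousAt
    refine h1.eventually ?_
    rw [(hQi K' le_rfl).2, Nat.sub_self]; exact hWa
  have hev3 : ∀ᶠ y in 𝓝 (a K'), T (G^[K'] y) ∈ Wb := by
    have h1 : ContinuousAt (fun y => T (G^[K'] y)) (a K') := hTQ.continuousAt
    refine h1.eventually ?_
    change ∀ᶠ y in 𝓝 (T (G^[K'] (a K'))), y ∈ Wb
    rw [hTQ0]; exact hWb
  have hev4 : ∀ᶠ y in 𝓝 (a K'), ∀ i ∈ Set.Iic K, ‖G^[i] (T (G^[K'] y))‖ ≤ ρ := by
    rw [Filter.eventually_all_finite (Set.finite_Iic K)]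
    intro i hi
    have h0 : ContinuousAt (G^[i]) (T (G^[K'] (a K'))) := by
      rw [hTQ0]; exact (hPi i).1.continuousAt
    have h1 : ContinuousAt (fun y => ‖G^[i] (T (G^[K'] y))‖) (a K') :=
      (ContinuousAt.comp (g := G^[i]) (f := fun y => T (G^[K'] y)) h0 hTQ.continuousAt).norm
    have h2 : ‖G^[i] (T (G^[K'] (a K')))‖ < ρ := by rw [hTQ0, (hPi i).2]; exact hb _
    exact (h1.eventually (gt_mem_nhds h2)).mono fun y hy => hy.le
  have hev : ∀ᶠ y in 𝓝 (a K'), y ∈ s ∧ (∀ i ∈ Set.Iic K', ‖G^[i] y‖ ≤ ρ) ∧ G^[K'] y ∈ Wa ∧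
      T (G^[K'] y) ∈ Wb ∧ ∀ i ∈ Set.Iic K, ‖G^[i] (T (G^[K'] y))‖ ≤ ρ := by
    filter_upwards [hs, hev1, hev2, hev3, hev4] with y h1 h2 h3 h4 h5
    exact ⟨h1, h2, h3, h4, h5⟩
  obtain ⟨r₁, hr₁, hr₁2⟩ := Metric.nhds_basis_closedBall.eventually_iff.1 hev
  set r : ℝ := min r₁ (ρ / 2) with hrdef
  have hr : 0 < r := lt_min hr₁ (by positivity)
  have hrρ : r ≤ ρ / 2 := min_le_right _ _
  have hgood : ∀ y : Xs × Xu, ‖y - a K'‖ ≤ r → y ∈ s ∧ (∀ i ∈ Set.Iic K', ‖G^[i] y‖ ≤ ρ) ∧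
      G^[K'] y ∈ Wa ∧ T (G^[K'] y) ∈ Wb ∧ ∀ i ∈ Set.Iic K, ‖G^[i] (T (G^[K'] y))‖ ≤ ρ := by
    intro y hy
    exact hr₁2 (by rw [mem_closedBall_iff_norm]; exact hy.trans (min_le_left _ _))
  have hT1cross : CrossStep T1 (a K') (b K) r :=
    crossStep_of_approx hr.le F hF (fun y y' hy hy' => by
      have := hs2 y (hgood y hy).1 y' (hgood y' hy').1
      simpa using this) hT1a
  -- smallness of the middle jump
  obtain ⟨m, hm1, hm⟩ : ∃ m : ℕ, 1 ≤ m ∧ 2 * ((1 / 4 : ℝ) ^ m * ρ) ≤ r / 4 := by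
    have h1 : Tendsto (fun m : ℕ => 2 * ((1 / 4 : ℝ) ^ m * ρ)) atTop (𝓝 0) := by
      have := ((tendsto_pow_atTop_nhds_zero_of_lt_one (r := (1 / 4 : ℝ)) (by norm_num)
        (by norm_num)).mul_const ρ).const_mul 2
      simpa using this
    obtain ⟨m, hm, hm2⟩ := ((h1.eventually (gt_mem_nhds (show (0 : ℝ) < r / 4 by positivity))).and
      (eventually_ge_atTop 1)).exists
    exact ⟨m, hm2, hm.le⟩
  have hbn : ∀ n, ‖b n‖ ≤ (1 / 4) ^ n * ρ := h.forward_tendsto b (fun n => (hb n).le) hGb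
  have han : ∀ n, ‖a n‖ ≤ (1 / 4) ^ n * ρ := h.backward_tendsto a (fun n => (ha n).le) hGa
  have hpow : ∀ n k : ℕ, k ≤ n → (1 / 4 : ℝ) ^ n * ρ ≤ (1 / 4) ^ k * ρ := by
    intro n k hk
    exact mul_le_mul_of_nonneg_right (pow_le_pow_of_le_one (by norm_num) (by norm_num) hk) hρ.le
  have hbn1 : ∀ n, 1 ≤ n → ‖b n‖ ≤ ρ / 4 := fun n hn =>
    (hbn n).trans ((hpow n 1 hn).trans (by linarith))
  have han1 : ∀ n, 1 ≤ n → ‖a n‖ ≤ ρ / 4 := fun n hn =>
    (han n).trans ((hpow n 1 hn).trans (by linarith))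
  refine ⟨K + 2 * m + K', fun τ => ?_⟩
  let σ : ℕ → ℕ := fun j => match j with
    | 0 => 0
    | j + 1 => (τ j).toNat
  let len : ℕ → ℕ := fun j => 2 * m + σ j
  have hlen : ∀ j, len (j + 1) = 2 * m + (τ j).toNat := fun j => rfl
  have hlenm : ∀ j, 2 * m ≤ len j := fun j => Nat.le_add_right _ _
  let c : ℕ × ℕ → Xs × Xu := fun p =>
    if p.2 < m then b (K + p.2) else if p.2 ≤ len p.1 then a (K' + (len p.1 - p.2)) else 0
  let nxt : ℕ × ℕ → ℕ × ℕ := fun p => if p.2 = len p.1 then (p.1 + 1, 0) else (p.1, p.2 + 1)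
  have hnxt : Injective nxt := by
    rintro ⟨j, t⟩ ⟨j', t'⟩ he
    simp only [nxt] at he
    split_ifs at he with h1 h2 h2
    · simp only [Prod.mk.injEq, and_true] at he
      have : j = j' := by omega
      subst this
      simp [h1, h2]
    · simp at he
    · simp at he
    · simp only [Prod.mk.injEq] at he
      obtain ⟨h3, h4⟩ := he
      simp [h3, show t = t' by omega]
  have hcρ : ∀ p, ‖c p‖ ≤ ρ / 4 := by
    intro p
    simp only [c]
    split_ifs
    · exact hbn1 _ (by omega)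
    · exact han1 _ (by omega)
    · simp; positivity
  have hcross : ∀ p, CrossStep (if p.2 = len p.1 then T1 else G) (c p) (c (nxt p)) r := by
    rintro ⟨j, t⟩
    by_cases ht : t = len j
    · have h1 : c (j, t) = a K' := by
        have := hlenm j
        simp only [c, ht]
        rw [if_neg (by omega), if_pos le_rfl, Nat.sub_self, add_zero]
      have h2 : c (nxt (j, t)) = b K := by
        simp only [nxt, ht, if_true, c]
        rw [if_pos (by omega), add_zero]
      rw [h1, h2]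
      simp only [ht, if_true]
      exact hT1cross
    · have h2 : nxt (j, t) = (j, t + 1) := by simp [nxt, ht]
      rw [h2]
      simp only [ht, if_false]
      refine h.crossStep_G (by linarith [hcρ (j, t)]) ?_
      have hlj := hlenm j
      simp only [c]
      by_cases h3 : t + 1 < m
      · rw [if_pos (by omega), if_pos h3, hGb, show K + t + 1 = K + (t + 1) by ring]
        simp; positivity
      · by_cases h4 : t < m
        · rw [if_pos h4, if_neg h3, if_pos (by omega), hGb]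
          refine (norm_sub_le _ _).trans (le_trans (add_le_add (hbn _) (han _)) ?_)
          refine le_trans (add_le_add (hpow _ m (by omega)) (hpow _ m (by omega))) ?_
          linarith
        · rw [if_neg h4, if_neg h3]
          by_cases h5 : t < len j
          · rw [if_pos h5.le, if_pos (by omega), show K' + (len j - t) =
              (K' + (len j - (t + 1))) + 1 by omega, hGa]
            simp; positivity
          · rw [if_neg (by omega), if_neg (by omega), h.zero]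
            simp; positivity
  obtain ⟨y, hy1, hy2⟩ := chain_shadow hr.le _ c nxt hnxt hcross
  have hyend : ∀ j, ‖y (j, len j) - a K'‖ ≤ r := by
    intro j
    have h1 : c (j, len j) = a K' := by
      have := hlenm j
      simp only [c]
      rw [if_neg (by omega), if_pos le_rfl, Nat.sub_self, add_zero]
    rw [← h1]; exact hy1 _
  have hyρ : ∀ p, ‖y p‖ ≤ ρ := by
    intro p
    calc ‖y p‖ = ‖c p + (y p - c p)‖ := by congr 1; abel
      _ ≤ ‖c p‖ + ‖y p - c p‖ := norm_add_le _ _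
      _ ≤ ρ := by linarith [hcρ p, hy1 p]
  have hyG : ∀ j t, t < len j → G (y (j, t)) = y (j, t + 1) := by
    intro j t ht
    have h1 := hy2 (j, t)
    have h2 : nxt (j, t) = (j, t + 1) := by simp [nxt, ht.ne]
    rw [h2] at h1
    simpa [ht.ne] using h1
  have hyT : ∀ j, T1 (y (j, len j)) = y (j + 1, 0) := by
    intro j
    have h1 := hy2 (j, len j)
    have h2 : nxt (j, len j) = (j + 1, 0) := by simp [nxt]
    rw [h2] at h1
    simpa using h1
  have hyit : ∀ j t, t ≤ len j → G^[t] (y (j, 0)) = y (j, t) := by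
    intro j t ht
    exact iterate_eq (G := G) (x := fun t => y (j, t)) (n := t)
      (fun i hi => hyG j i (by omega))
  refine ⟨fun j => T (G^[K'] (y (j, len j))), fun j => ?_⟩
  have hg1 := hgood _ (hyend j)
  have hg2 := hgood _ (hyend (j + 1))
  have hlj := hlen j
  have hit1 : ∀ t ≤ len (j + 1), G^[K + t] (T (G^[K'] (y (j, len j)))) = y (j + 1, t) := by
    intro t ht
    rw [add_comm K t, Function.iterate_add_apply, ← hyit (j + 1) t ht, ← hyT j]
  have hit2 : ∀ i, G^[K + len (j + 1) + i] (T (G^[K'] (y (j, len j)))) =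
      G^[i] (y (j + 1, len (j + 1))) := by
    intro i
    rw [add_comm (K + len (j + 1)) i, Function.iterate_add_apply, hit1 _ le_rfl]
  have htot : K + 2 * m + K' + (τ j).toNat = K + len (j + 1) + K' := by rw [hlj]; ring
  rw [htot]
  refine ⟨hg1.2.2.2.1, fun i hi => ?_, ?_, ?_⟩
  · rcases le_or_gt i K with h1 | h1
    · exact hg1.2.2.2.2 i h1
    · rcases le_or_gt i (K + len (j + 1)) with h2 | h2
      · rw [show i = K + (i - K) by omega, hit1 _ (by omega)]
        exact hyρ _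
      · rw [show i = K + len (j + 1) + (i - (K + len (j + 1))) by omega, hit2]
        exact hg2.2.1 _ (by simp only [Set.mem_Iic]; omega)
  · rw [hit2]; exact hg2.2.2.1
  · rw [hit2]

end LocHyp

end Pool.Agent.OmegaStab

end
end

section

/-!
# Non-hyperbolic invertible linear maps: small perturbations with a surjective resonance map
-/

open Set Filter Topology Function
open scoped Manifold ContDiff

noncomputable section

namespace Pool.Agent.OmegaStab

namespace ResAux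

open LinAux Polynomial

variable {E : Type*} [NormedAddCommGroup E] [NormedSpace ℝ E] [FiniteDimensional ℝ E]

omit [FiniteDimensional ℝ E] in
lemma resMap_add (D : E →L[ℝ] E) (b : ℕ) (e : E) (L L' : E →L[ℝ] E) :
    resMap D b e (L + L') = resMap D b e L + resMap D b e L' := by
  simp only [resMap, add_apply, map_add, Finset.sum_add_distrib]

omit [FiniteDimensional ℝ E] in
lemma resMap_sub (D : E →L[ℝ] E) (b : ℕ) (e : E) (L L' : E →L[ℝ] E) :
    resMap D b e (L - L') = resMap D b e L - resMap D b e L' := by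
  simp only [resMap, sub_apply, map_sub, Finset.sum_sub_distrib]

/-- The choice of the root of unity. -/
lemma exists_root_of_unity (θ η : ℝ) (hη : 0 < η) (S : Set ℂ) (hS : S.Finite) (h1 : (1 : ℂ) ∉ S) :
    ∃ (b : ℕ) (ρ : ℂ), 0 < b ∧ ‖ρ - 1‖ < η ∧ (ρ * Complex.exp (θ * Complex.I)) ^ b = 1 ∧
      ∀ z ∈ S, z ^ b ≠ 1 := by
  obtain ⟨B, hB⟩ : ∃ B : ℕ, ∀ z ∈ S, orderOf z ≤ B := by
    obtain ⟨B, hB⟩ := (hS.image orderOf).bddAbove
    exact ⟨B, fun z hz => hB ⟨z, hz, rfl⟩⟩
  obtain ⟨N, hN⟩ := exists_nat_gt (2 * Real.pi / η)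
  obtain ⟨b, hb, hprime⟩ := Nat.exists_infinite_primes (max (B + 1) N)
  have hb0 : 0 < b := hprime.pos
  have hbR : (0 : ℝ) < b := Nat.cast_pos.2 hb0
  have hpi : (0 : ℝ) < 2 * Real.pi := Real.two_pi_pos
  set a : ℤ := ⌊b * θ / (2 * Real.pi)⌋ with ha
  set δ : ℝ := 2 * Real.pi * a / b - θ with hδ
  have hδ1 : |δ| ≤ 2 * Real.pi / b := by
    have h2 := Int.floor_le (b * θ / (2 * Real.pi))
    have h3 := Int.lt_floor_add_one (b * θ / (2 * Real.pi))
    rw [← ha] at h2 h3
    rw [le_div_iff₀ hpi] at h2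
    rw [div_lt_iff₀ hpi] at h3
    have h4 : δ * b = 2 * Real.pi * a - b * θ := by
      rw [hδ]
      field_simp
    rw [le_div_iff₀ hbR, ← abs_of_pos hbR, ← abs_mul, h4, abs_le]
    constructor
    · nlinarith
    · nlinarith
  have hb1 : 2 * Real.pi / b < η := by
    rw [div_lt_iff₀ hbR]
    rw [div_lt_iff₀ hη] at hN
    have h5 : (N : ℝ) ≤ b := Nat.cast_le.2 ((le_max_right _ _).trans hb)
    nlinarith
  refine ⟨b, Complex.exp (Complex.I * δ), hb0, ?_, ?_, ?_⟩
  · exact (Real.norm_exp_I_mul_ofReal_sub_one_le (x := δ)).trans_lt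
      ((by rw [Real.norm_eq_abs]; exact hδ1 : ‖δ‖ ≤ _).trans_lt hb1)
  · rw [← Complex.exp_add, ← Complex.exp_nat_mul, Complex.exp_eq_one_iff]
    refine ⟨a, ?_⟩
    rw [hδ]
    push_cast
    have hbC : (b : ℂ) ≠ 0 := by exact_mod_cast hb0.ne'
    field_simp
    ring
  · intro z hz hzb
    have h6 := orderOf_dvd_of_pow_eq_one hzb
    rcases (Nat.dvd_prime hprime).1 h6 with h7 | h7
    · rw [orderOf_eq_one_iff] at h7
      exact h1 (h7 ▸ hz)
    · have h8 := hB z hz
      have h9 := (le_max_left _ _).trans hb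
      omega

omit [FiniteDimensional ℝ E] in
/-- The image of the resonance map contains the range of `D ^ b - 1`. -/
lemma resMap_range (D : E →L[ℝ] E) (b : ℕ) (e : E) (hb : (D ^ b) e = e) (hDe : D e ≠ 0) (x : E) :
    ∃ L : E →L[ℝ] E, resMap D b e L = (D ^ b) x - x := by
  obtain ⟨l, hl⟩ := SeparatingDual.exists_eq_one (R := ℝ) hDe
  refine ⟨l.smulRight (D x) - (l.comp D).smulRight x, ?_⟩
  rw [resMap_sub]
  unfold resMap
  rw [← Finset.sum_sub_distrib]
  set f : ℕ → E := fun j => l ((D ^ (b + 1 - j)) e) • (D ^ j) x with hf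
  have h1 : ∀ j ∈ Finset.range b, (D ^ j) ((l.smulRight (D x)) ((D ^ (b - j)) e)) -
      (D ^ j) (((l.comp D).smulRight x) ((D ^ (b - j)) e)) = f (j + 1) - f j := by
    intro j hj
    have hjb : j < b := Finset.mem_range.1 hj
    have e1 : b + 1 - (j + 1) = b - j := by omega
    have e2 : b + 1 - j = (b - j) + 1 := by omega
    rw [hf]
    simp only [ContinuousLinearMap.smulRight_apply, map_smul, ContinuousLinearMap.comp_apply]
    rw [e1, e2, pow_succ' D (b - j), pow_succ D j]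
    rfl
  rw [Finset.sum_congr rfl h1, Finset.sum_range_sub, hf]
  simp only [Nat.sub_zero]
  have e3 : b + 1 - b = 1 := by omega
  have h3 : (D ^ (b + 1)) e = D e := by
    rw [pow_succ']
    change D ((D ^ b) e) = D e
    rw [hb]
  rw [e3, pow_one, hl, h3, hl, one_smul, one_smul, pow_zero]
  rfl

omit [FiniteDimensional ℝ E] in
lemma pow_intertw (D : E →L[ℝ] E) (φ : ℂ →ₗ[ℝ] E) (z : ℂ) (h : ∀ u, D (φ u) = φ (z * u)) (n : ℕ) :
    ∀ u, (D ^ n) (φ u) = φ (z ^ n * u) := by
  induction n with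
  | zero => intro u; rw [pow_zero, pow_zero, one_mul]; rfl
  | succ n ih =>
    intro u
    rw [pow_succ, pow_succ, mul_assoc, ← ih, ← h]
    rfl

omit [FiniteDimensional ℝ E] in
/-- Two operators which agree modulo an invariant plane. -/
lemma aeval_sub_mem (T T' : Module.End ℝ E) (φ : ℂ →ₗ[ℝ] E) (z : ℂ)
    (h : ∀ u, T (φ u) = φ (z * u)) (hTT' : ∀ x, ∃ u, T' x - T x = φ u) (P : ℝ[X]) :
    ∀ x, ∃ u, aeval T' P x - aeval T P x = φ u := by
  induction P using Polynomial.induction_on with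
  | C a =>
    intro x
    refine ⟨0, ?_⟩
    rw [aeval_C, aeval_C, Module.algebraMap_end_apply, sub_self, map_zero]
  | add p q hp hq =>
    intro x
    obtain ⟨u, hu⟩ := hp x
    obtain ⟨u', hu'⟩ := hq x
    refine ⟨u + u', ?_⟩
    rw [map_add, map_add, LinearMap.add_apply, LinearMap.add_apply, map_add, ← hu, ← hu']
    abel
  | monomial n a ih =>
    intro x
    have e : (C a * X ^ (n + 1) : ℝ[X]) = C a * X ^ n * X := by ring
    obtain ⟨u, hu⟩ := ih (T' x)
    obtain ⟨u', hu'⟩ := hTT' x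
    have h1 := aeval_intertw T φ z h (C a * X ^ n) u'
    refine ⟨u + aeval z (C a * X ^ n) * u', ?_⟩
    rw [e, map_mul (aeval T) (C a * X ^ n), map_mul (aeval T') (C a * X ^ n), aeval_X, aeval_X,
      Module.End.mul_apply, Module.End.mul_apply, map_add, ← hu, ← h1, ← hu', map_sub]
    abel

end ResAux

open ResAux LinAux Polynomial in
/-- If the invertible operator `D` has an eigenvalue of modulus one then an arbitrarily small
perturbation of it has a periodic vector with surjective resonance map. -/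
theorem exists_resonant {E : Type*} [NormedAddCommGroup E] [NormedSpace ℝ E]
    [FiniteDimensional ℝ E] (D : E →L[ℝ] E) (hD : Function.Bijective D) (hn : ¬ HypLin D) (ε : ℝ)
    (hε : 0 < ε) :
    ∃ (L : E →L[ℝ] E) (b : ℕ) (e : E), ‖L‖ < ε ∧ 0 < b ∧ e ≠ 0 ∧
      ((D + L.comp D) ^ b) e = e ∧ Function.Surjective (resMap (D + L.comp D) b e) := by
  have hD0 : D + (0 : E →L[ℝ] E).comp D = D := by
    rw [ContinuousLinearMap.zero_comp, add_zero]
  -- eigenvalue one
  by_cases h1 : ∃ e, e ≠ 0 ∧ D e = e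
  · obtain ⟨e, he, hDe⟩ := h1
    refine ⟨0, 1, e, by rwa [norm_zero], one_pos, he, ?_, ?_⟩
    · rw [hD0, pow_one, hDe]
    · rw [hD0]
      intro y
      obtain ⟨l, hl⟩ := SeparatingDual.exists_eq_one (R := ℝ) he
      refine ⟨l.smulRight y, ?_⟩
      simp [resMap, hDe, hl]
  push Not at h1
  have hinj : ∀ x, D x = x → x = 0 := fun x hx => by
    by_contra hx0
    exact h1 x hx0 hx
  -- eigenvalue minus one
  by_cases h2 : ∃ e, e ≠ 0 ∧ D e = -e
  · obtain ⟨e, he, hDe⟩ := h2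
    have hDDe : (D ^ 2) e = e := by
      rw [pow_two]
      change D (D e) = e
      rw [hDe, map_neg, hDe, neg_neg]
    refine ⟨0, 2, e, by rwa [norm_zero], two_pos, he, ?_, ?_⟩
    · rw [hD0, hDDe]
    · rw [hD0]
      have hsurj : Function.Surjective ((LinearMap.id : E →ₗ[ℝ] E) - (D : E →ₗ[ℝ] E)) := by
        rw [← LinearMap.injective_iff_surjective, injective_iff_map_eq_zero]
        intro x hx
        apply hinj
        rw [LinearMap.sub_apply, sub_eq_zero] at hx
        exact hx.symm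
      intro y
      obtain ⟨y', hy'⟩ := hsurj y
      obtain ⟨l, hl⟩ := SeparatingDual.exists_eq_one (R := ℝ) he
      refine ⟨l.smulRight y', ?_⟩
      rw [← hy', resMap, Finset.sum_range_succ, Finset.sum_range_one, Nat.sub_zero, hDDe]
      have e1 : 2 - 1 = 1 := rfl
      rw [e1, pow_one, pow_zero, hDe]
      simp only [ContinuousLinearMap.smulRight_apply, map_neg, hl, one_smul]
      rw [sub_eq_add_neg]
      rfl
  push Not at h2
  -- the plane
  unfold HypLin at hn
  push Not at hn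
  obtain ⟨θ, v, w, hv, hw, hvw⟩ := hn
  set ζ : ℂ := Complex.exp (θ * Complex.I) with hζ
  have hζre : ζ.re = Real.cos θ := Complex.exp_ofReal_mul_I_re θ
  have hζim : ζ.im = Real.sin θ := Complex.exp_ofReal_mul_I_im θ
  have hφ : ∀ u, D (pairMap v w u) = pairMap v w (ζ * u) :=
    pairMap_intertw (D : E →ₗ[ℝ] E) v w ζ (by rw [hζre, hζim]; exact hv)
      (by rw [hζre, hζim]; exact hw)
  set φ := pairMap v w with hφdef
  have hφ0 : φ ≠ 0 := by
    intro h0
    have h3 : pairMap v w 1 = 0 := by rw [← hφdef, h0]; rfl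
    have h4 : pairMap v w Complex.I = 0 := by rw [← hφdef, h0]; rfl
    rw [pairMap_apply] at h3 h4
    simp only [Complex.one_re, one_smul, Complex.one_im, zero_smul, sub_zero, Complex.I_re,
      Complex.I_im, zero_sub, neg_eq_zero] at h3 h4
    exact hvw h3 h4
  have hsin : Real.sin θ ≠ 0 := by
    intro hs
    rw [hs, zero_smul, sub_zero] at hv
    rw [hs, zero_smul, zero_add] at hw
    have hc : Real.cos θ = 1 ∨ Real.cos θ = -1 := by
      have := Real.sin_sq_add_cos_sq θ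
      rw [hs] at this
      have h5 : (Real.cos θ - 1) * (Real.cos θ + 1) = 0 := by linarith
      rcases mul_eq_zero.1 h5 with h | h
      · left; linarith
      · right; linarith
    have hvw' : v ≠ 0 ∨ w ≠ 0 := by
      by_contra hcon
      push Not at hcon
      exact hvw hcon.1 hcon.2
    rcases hc with hc | hc
    · rw [hc, one_smul] at hv hw
      rcases hvw' with h | h
      · exact h (hinj v hv)
      · exact h (hinj w hw)
    · rw [hc, neg_one_smul] at hv hw
      rcases hvw' with h | h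
      · exact h2 v h hv
      · exact h2 w h hw
  -- injectivity of `φ`
  have hφinj : LinearMap.ker φ = ⊥ := by
    rw [LinearMap.ker_eq_bot, injective_iff_map_eq_zero]
    intro u hu
    by_contra hu0
    -- `D (φ u) = 0` so `φ (ζ u) = 0`
    have h3 : φ (ζ * u) = 0 := by rw [← hφ, hu, map_zero]
    have h4 : ∀ c : ℝ, φ (c * u) = 0 := by
      intro c
      have : (c : ℂ) * u = c • u := by rw [Complex.real_smul]
      rw [this, map_smul, hu, smul_zero]
    have h5 : φ (Complex.I * u) = 0 := by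
      have h6 : Complex.I * u = (Real.sin θ)⁻¹ • (ζ * u - (Real.cos θ : ℂ) * u) := by
        have h7 : ζ = (Real.cos θ : ℂ) + (Real.sin θ : ℂ) * Complex.I := by
          rw [hζ, Complex.exp_mul_I, Complex.ofReal_cos, Complex.ofReal_sin]
        rw [h7, Complex.real_smul]
        have h8 : (Real.sin θ : ℂ) ≠ 0 := by exact_mod_cast hsin
        push_cast
        push_cast at h8
        field_simp
        ring
      rw [h6, map_smul, map_sub, h3, h4, sub_zero, smul_zero]
    apply hφ0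
    ext x
    have h9 : x = ((x / u).re : ℂ) * u + ((x / u).im : ℂ) * (Complex.I * u) := by
      have h10 := Complex.re_add_im (x / u)
      have h11 : x = (x / u) * u := by rw [div_mul_cancel₀ _ hu0]
      conv_lhs => rw [h11, ← h10]
      ring
    rw [h9, map_add, h4]
    have h12 : ((x / u).im : ℂ) * (Complex.I * u) = (x / u).im • (Complex.I * u) := by
      rw [Complex.real_smul]
    rw [h12, map_smul, h5, smul_zero, add_zero]
    rfl
  obtain ⟨g, hg⟩ := φ.exists_leftInverse_of_injective hφinj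
  have hgφ : ∀ u, g (φ u) = u := fun u => LinearMap.congr_fun hg u
  -- continuous versions
  let φc : ℂ →L[ℝ] E := LinearMap.toContinuousLinearMap φ
  let gc : E →L[ℝ] ℂ := LinearMap.toContinuousLinearMap g
  set T : Module.End ℝ E := (D : E →ₗ[ℝ] E) with hT
  have hint : IsIntegral ℝ T := Algebra.IsIntegral.isIntegral T
  have hP0 : minpoly ℝ T ≠ 0 := minpoly.ne_zero hint
  have hfin : {z : ℂ | aeval z (minpoly ℝ T) = 0}.Finite := by
    have h1 := ((minpoly ℝ T).map (algebraMap ℝ ℂ)).roots.toFinset.finite_toSet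
    refine h1.subset fun z hz => ?_
    have h2 : (minpoly ℝ T).map (algebraMap ℝ ℂ) ≠ 0 := (Polynomial.map_ne_zero_iff
      (algebraMap ℝ ℂ).injective).2 hP0
    rw [Finset.mem_coe, Multiset.mem_toFinset, mem_roots h2, IsRoot.def, eval_map_algebraMap]
    exact hz
  have h1S : (1 : ℂ) ∉ {z : ℂ | aeval z (minpoly ℝ T) = 0} := by
    intro h3
    obtain ⟨x, y, hxy, hx, hy⟩ := eig_of_root T 1 h3
    simp only [Complex.one_re, one_smul, Complex.one_im, zero_smul, sub_zero, zero_add] at hx hy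
    rcases hxy with h | h
    · exact h (hinj x hx)
    · exact h (hinj y hy)
  set K : ℝ := ‖φc‖ * ‖gc‖ + 1 with hK
  have hKpos : 0 < K := by positivity
  obtain ⟨b, ρ, hb, hρ, hρb, hroots⟩ := exists_root_of_unity θ (ε / K) (div_pos hε hKpos) _ hfin h1S
  rw [← hζ] at hρb
  let L : E →L[ℝ] E := φc.comp ((ContinuousLinearMap.mul ℝ ℂ (ρ - 1)).comp gc)
  have hLapp : ∀ x, L x = φ ((ρ - 1) * g x) := fun x => rfl
  have hLnorm : ‖L‖ < ε := by
    have h3 : ‖L‖ ≤ ‖φc‖ * (‖ρ - 1‖ * ‖gc‖) := by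
      refine (ContinuousLinearMap.opNorm_comp_le _ _).trans ?_
      apply mul_le_mul_of_nonneg_left _ (norm_nonneg _)
      refine (ContinuousLinearMap.opNorm_comp_le _ _).trans ?_
      apply mul_le_mul_of_nonneg_right _ (norm_nonneg _)
      exact ContinuousLinearMap.opNorm_mul_apply_le ℝ ℂ _
    have h4 : ‖φc‖ * (‖ρ - 1‖ * ‖gc‖) ≤ K * ‖ρ - 1‖ := by
      rw [hK]
      have := norm_nonneg (ρ - 1)
      nlinarith
    have h5 : K * ‖ρ - 1‖ < ε := by
      rw [lt_div_iff₀ hKpos] at hρ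
      linarith
    linarith
  set D' : E →L[ℝ] E := D + L.comp D with hD'
  have hD'app : ∀ x, D' x = D x + L (D x) := fun x => rfl
  have hφ' : ∀ u, D' (φ u) = φ (ρ * ζ * u) := by
    intro u
    rw [hD'app, hφ, hLapp, hgφ, ← map_add]
    congr 1
    ring
  set e : E := φ 1 with he
  have he0 : e ≠ 0 := by
    intro h3
    have h4 : g (φ 1) = 1 := hgφ 1
    rw [← he, h3, map_zero] at h4
    exact zero_ne_one h4
  have hDb : (D' ^ b) e = e := by
    rw [he, pow_intertw D' φ _ hφ' b 1, hρb, mul_one]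
  have hD'e : D' e ≠ 0 := by
    intro h3
    have h4 : (D' ^ b) e = 0 := by
      obtain ⟨k, rfl⟩ := Nat.exists_eq_succ_of_ne_zero hb.ne'
      rw [Nat.succ_eq_add_one, pow_succ]
      change (D' ^ k) (D' e) = 0
      rw [h3, map_zero]
    rw [hDb] at h4
    exact he0 h4
  refine ⟨L, b, e, hLnorm, hb, he0, hDb, ?_⟩
  -- surjectivity
  have hplane : ∀ u : ℂ, ∃ L' : E →L[ℝ] E, resMap D' b e L' = φ u := by
    intro u
    let c : ℂ := (b : ℂ)⁻¹ * u
    refine ⟨φc.comp ((ContinuousLinearMap.mul ℝ ℂ c).comp gc), ?_⟩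
    have happ : ∀ x, (φc.comp ((ContinuousLinearMap.mul ℝ ℂ c).comp gc)) x = φ (c * g x) :=
      fun x => rfl
    unfold resMap
    have h3 : ∀ j ∈ Finset.range b, (D' ^ j) ((φc.comp ((ContinuousLinearMap.mul ℝ ℂ c).comp gc))
        ((D' ^ (b - j)) e)) = φ c := by
      intro j hj
      have hjb : j < b := Finset.mem_range.1 hj
      rw [he, pow_intertw D' φ _ hφ' (b - j) 1, happ, hgφ, pow_intertw D' φ _ hφ' j]
      congr 1
      have h4 : (ρ * ζ) ^ j * (ρ * ζ) ^ (b - j) = 1 := by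
        rw [← pow_add, Nat.add_sub_cancel' hjb.le, hρb]
      calc (ρ * ζ) ^ j * (c * ((ρ * ζ) ^ (b - j) * 1)) =
          c * ((ρ * ζ) ^ j * (ρ * ζ) ^ (b - j)) := by ring
        _ = c := by rw [h4, mul_one]
    rw [Finset.sum_congr rfl h3, Finset.sum_const, Finset.card_range, ← map_nsmul]
    congr 1
    have hbC : (b : ℂ) ≠ 0 := by exact_mod_cast hb.ne'
    rw [nsmul_eq_mul]
    change (b : ℂ) * ((b : ℂ)⁻¹ * u) = u
    rw [← mul_assoc, mul_inv_cancel₀ hbC, one_mul]
  have hcop : IsCoprime (minpoly ℝ T) (X ^ b - 1) := by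
    refine (isCoprime_iff_aeval_ne_zero_of_isAlgClosed ℝ ℂ _ _).2 ?_
    intro z
    by_contra hcon
    push Not at hcon
    apply hroots z hcon.1
    have h3 := hcon.2
    rw [map_sub, map_pow, aeval_X, map_one, sub_eq_zero] at h3
    exact h3
  obtain ⟨p, q, hpq⟩ := hcop
  set T' : Module.End ℝ E := (D' : E →ₗ[ℝ] E) with hT'
  have hTT' : ∀ x, ∃ u, T' x - T x = φ u := by
    intro x
    refine ⟨(ρ - 1) * g (D x), ?_⟩
    change D' x - D x = _
    rw [hD'app, hLapp]
    abel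
  intro x
  have h3 : x = aeval T' (minpoly ℝ T) (aeval T' p x) +
      aeval T' (X ^ b - 1 : ℝ[X]) (aeval T' q x) := by
    rw [← Module.End.mul_apply, ← Module.End.mul_apply, ← map_mul, ← map_mul,
      ← LinearMap.add_apply, ← map_add, mul_comm (minpoly ℝ T) p, mul_comm (X ^ b - 1) q, hpq,
      map_one]
    rfl
  obtain ⟨u, hu⟩ := aeval_sub_mem T T' φ ζ hφ hTT' (minpoly ℝ T) (aeval T' p x)
  rw [minpoly.aeval, LinearMap.zero_apply, sub_zero] at hu
  obtain ⟨L1, hL1⟩ := hplane u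
  obtain ⟨L2, hL2⟩ := resMap_range D' b e hDb hD'e (aeval T' q x)
  refine ⟨L1 + L2, ?_⟩
  rw [resMap_add, hL1, hL2]
  conv_rhs => rw [h3]
  rw [hu, map_sub, map_pow, aeval_X, map_one, LinearMap.sub_apply, coe_pow_apply]
  rfl

end Pool.Agent.OmegaStab

end
end

section

/-!
# Finiteness of the fixed points, part B: openness lemmas along families
-/

open Set Filter Topology Function
open scoped Manifold ContDiff

noncomputable section

namespace Pool.Agent.OmegaStab

namespace FiniteFix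

variable {d : ℕ} {M : Type*} [MetricSpace M] [ChartedSpace (EE d) M] {r : ℕ∞}
  [IsManifold (𝓡 d) ∞ M]
variable {V : Type*} [NormedAddCommGroup V] [NormedSpace ℝ V]

omit [ChartedSpace (EE d) M] [IsManifold (𝓡 d) ∞ M] in
theorem eventually_ne_of_tendsto {X : Type*} {l : Filter X} {u v : X → M} {a b : M}
    (hu : Tendsto u l (𝓝 a)) (hv : Tendsto v l (𝓝 b)) (hab : a ≠ b) : ∀ᶠ x in l, u x ≠ v x := by
  have h1 := hu.prodMk_nhds hv
  exact h1.eventually (isClosed_diagonal.isOpen_compl.mem_nhds hab)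

omit [IsManifold (𝓡 d) ∞ M] in
theorem trans_zero {h : V → Dyn d M r} (hh : IsFam h) (g : Dyn d M r) : g.trans (h 0) = g := by
  rw [hh.1]
  ext x
  rfl

omit [IsManifold (𝓡 d) ∞ M] in
theorem isFam_comp_clm {W : Type*} [NormedAddCommGroup W] [NormedSpace ℝ W]
    {h : V → Dyn d M r} (hh : IsFam h) (ι : W →L[ℝ] V) : IsFam (fun w => h (ι w)) := by
  obtain ⟨h0, U, hU, hs⟩ := hh
  refine ⟨by simpa using h0, ι ⁻¹' U, ?_, ?_⟩
  · exact ι.continuous.continuousAt (by simpa using hU)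
  · have h1 : ContMDiff (𝓘(ℝ, W).prod (𝓡 d)) (𝓘(ℝ, V).prod (𝓡 d)) (r : ℕ∞ω)
        (fun q : W × M => (ι q.1, q.2)) := by
      exact (ι.contMDiff.comp contMDiff_fst).prodMk contMDiff_snd
    exact hs.comp h1.contMDiffOn (fun q hq => ⟨hq.1, mem_univ _⟩)

omit [IsManifold (𝓡 d) ∞ M] in
/-- Joint smoothness of the iterates. -/
theorem joint_smooth {h : V → Dyn d M r} (hh : IsFam h) (g : Dyn d M r) :
    ∃ U ∈ 𝓝 (0 : V), ∀ n : ℕ, ContMDiffOn (𝓘(ℝ, V).prod (𝓡 d)) (𝓡 d) r
      (fun q : V × M => (g.trans (h q.1))^[n] q.2) (U ×ˢ univ) := by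
  obtain ⟨h0, U, hU, hs⟩ := hh
  refine ⟨U, hU, fun n => ?_⟩
  induction n with
  | zero => exact contMDiffOn_snd
  | succ n ih =>
    have h1 : ContMDiffOn (𝓘(ℝ, V).prod (𝓡 d)) (𝓘(ℝ, V).prod (𝓡 d)) (r : ℕ∞ω)
        (fun q : V × M => (q.1, g ((g.trans (h q.1))^[n] q.2))) (U ×ˢ univ) :=
      contMDiffOn_fst.prodMk (g.contMDiff.comp_contMDiffOn ih)
    have h2 := hs.comp h1 (fun q hq => ⟨hq.1, mem_univ _⟩)
    refine h2.congr fun q _ => ?_
    rw [Function.iterate_succ_apply']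
    rfl

omit [IsManifold (𝓡 d) ∞ M] in
theorem joint_contMDiffAt {h : V → Dyn d M r} (hh : IsFam h) (g : Dyn d M r) (n : ℕ) (x : M) :
    ContMDiffAt (𝓘(ℝ, V).prod (𝓡 d)) (𝓡 d) r
      (fun q : V × M => (g.trans (h q.1))^[n] q.2) (0, x) := by
  obtain ⟨U, hU, hs⟩ := joint_smooth hh g
  exact (hs n).contMDiffAt (prod_mem_nhds hU univ_mem)

omit [IsManifold (𝓡 d) ∞ M] in
theorem joint_continuousAt {h : V → Dyn d M r} (hh : IsFam h) (g : Dyn d M r) (n : ℕ) (x : M) :
    ContinuousAt (fun q : V × M => (g.trans (h q.1))^[n] q.2) (0, x) :=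
  (joint_contMDiffAt hh g n x).continuousAt

omit [IsManifold (𝓡 d) ∞ M] in
theorem tendsto_iterate {h : V → Dyn d M r} (hh : IsFam h) (g : Dyn d M r) (n : ℕ) (x : M) :
    Tendsto (fun q : V × M => (g.trans (h q.1))^[n] q.2) (𝓝 (0, x)) (𝓝 (g^[n] x)) := by
  have := joint_continuousAt hh g n x
  unfold ContinuousAt at this
  simpa only [trans_zero hh g] using this

omit [IsManifold (𝓡 d) ∞ M] in
/-- An open condition on the image under an iterate persists on compact sets. -/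
theorem eventually_iterate_mem {h : V → Dyn d M r} (hh : IsFam h) (g : Dyn d M r) (n : ℕ)
    {K O : Set M} (hK : IsCompact K) (hO : IsOpen O) (hKO : ∀ x ∈ K, g^[n] x ∈ O) :
    ∀ᶠ v in 𝓝 (0 : V), ∀ x ∈ K, (g.trans (h v))^[n] x ∈ O := by
  refine hK.eventually_forall_of_forall_eventually (P := fun v x => (g.trans (h v))^[n] x ∈ O) ?_
  intro x hx
  exact (tendsto_iterate hh g n x).eventually (hO.mem_nhds (hKO x hx))

omit [IsManifold (𝓡 d) ∞ M] in
/-- Absence of fixed points persists on compact sets. -/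
theorem eventually_iterate_ne {h : V → Dyn d M r} (hh : IsFam h) (g : Dyn d M r) (n : ℕ)
    {K : Set M} (hK : IsCompact K) (hKO : ∀ x ∈ K, g^[n] x ≠ x) :
    ∀ᶠ v in 𝓝 (0 : V), ∀ x ∈ K, (g.trans (h v))^[n] x ≠ x := by
  refine hK.eventually_forall_of_forall_eventually (P := fun v x => (g.trans (h v))^[n] x ≠ x) ?_
  intro x hx
  exact eventually_ne_of_tendsto (tendsto_iterate hh g n x) continuous_snd.continuousAt (hKO x hx)

/-- The derivative of `G` in the chart at `q`. -/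
def chartD (q : M) (G : M → M) (y : M) : EE d →L[ℝ] EE d :=
  fderiv ℝ (inCharts (d := d) q q G) (extChartAt (𝓡 d) q y)

/-- Fixed points in `W` are nondegenerate. -/
def Good (q : M) (W : Set M) (G : M → M) : Prop :=
  ∀ y ∈ W, G y = y → (1 - chartD (d := d) q G y).det ≠ 0

theorem joint_inCharts {h : V → Dyn d M r} (hh : IsFam h) (g : Dyn d M r)
    (n : ℕ) {q y : M} (hy : y ∈ (extChartAt (𝓡 d) q).source)
    (hgy : g^[n] y ∈ (extChartAt (𝓡 d) q).source) :
    ContDiffAt ℝ r (fun p : V × EE d => inCharts (d := d) q q ((g.trans (h p.1))^[n]) p.2)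
      (0, extChartAt (𝓡 d) q y) := by
  have hM : IsManifold (𝓡 d) (r : ℕ∞ω) M :=
    IsManifold.of_le (n := ∞) (by exact_mod_cast le_top)
  rw [← contMDiffAt_iff_contDiffAt]
  have e1 : (extChartAt (𝓡 d) q).symm (extChartAt (𝓡 d) q y) = y :=
    (extChartAt (𝓡 d) q).left_inv hy
  have h1 : ContMDiffAt 𝓘(ℝ, V × EE d) (𝓘(ℝ, V).prod (𝓡 d)) (r : ℕ∞ω)
      (fun p : V × EE d => (p.1, (extChartAt (𝓡 d) q).symm p.2)) (0, extChartAt (𝓡 d) q y) := by
    have hfst : ContMDiffAt 𝓘(ℝ, V × EE d) 𝓘(ℝ, V) (r : ℕ∞ω)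
        (fun p : V × EE d => p.1) (0, extChartAt (𝓡 d) q y) :=
      contDiffAt_fst.contMDiffAt
    have hsnd : ContMDiffAt 𝓘(ℝ, V × EE d) 𝓘(ℝ, EE d) (r : ℕ∞ω)
        (fun p : V × EE d => p.2) (0, extChartAt (𝓡 d) q y) :=
      contDiffAt_snd.contMDiffAt
    refine hfst.prodMk ?_
    have h3 : ContMDiffAt 𝓘(ℝ, EE d) (𝓡 d) (r : ℕ∞ω) (extChartAt (𝓡 d) q).symm
        (extChartAt (𝓡 d) q y) :=
      (contMDiffOn_extChartAt_symm q).contMDiffAt
        (extChartAt_target_mem_nhds' ((extChartAt (𝓡 d) q).map_source hy))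
    exact ContMDiffAt.comp (I' := 𝓘(ℝ, EE d)) _ h3 hsnd
  have h2 := joint_contMDiffAt hh g n y
  have h3 : ContMDiffAt (𝓡 d) 𝓘(ℝ, EE d) (r : ℕ∞ω) (extChartAt (𝓡 d) q) (g^[n] y) :=
    contMDiffAt_extChartAt' (by rwa [extChartAt_source] at hgy)
  have h4 : ContMDiffAt 𝓘(ℝ, V × EE d) (𝓡 d) (r : ℕ∞ω)
      (fun p : V × EE d => (g.trans (h p.1))^[n] ((extChartAt (𝓡 d) q).symm p.2))
      (0, extChartAt (𝓡 d) q y) := by
    refine ContMDiffAt.comp (I' := 𝓘(ℝ, V).prod (𝓡 d))
      (g := fun q : V × M => (g.trans (h q.1))^[n] q.2) _ ?_ h1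
    simp only [e1]
    exact h2
  refine ContMDiffAt.comp (I' := 𝓡 d) (g := extChartAt (𝓡 d) q) _ ?_ h4
  simp only [e1, trans_zero hh g]
  exact h3

theorem continuousAt_chartD (hr : 1 ≤ r) {h : V → Dyn d M r} (hh : IsFam h) (g : Dyn d M r)
    (n : ℕ) {q y : M} (hy : y ∈ (extChartAt (𝓡 d) q).source)
    (hgy : g^[n] y ∈ (extChartAt (𝓡 d) q).source) :
    ContinuousAt (fun p : V × M => chartD (d := d) q ((g.trans (h p.1))^[n]) p.2) (0, y) := by
  have h1 := joint_inCharts hh g n hy hgy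
  have h2 : ContDiffAt ℝ 0
      (fun p : V × EE d => fderiv ℝ (fun u => inCharts (d := d) q q ((g.trans (h p.1))^[n]) u) p.2)
      (0, extChartAt (𝓡 d) q y) := by
    refine ContDiffAt.fderiv (n := 1)
      (f := fun (p : V × EE d) u => inCharts (d := d) q q ((g.trans (h p.1))^[n]) u)
      (g := fun p : V × EE d => p.2) ?_ contDiffAt_snd (by norm_num)
    have h3 : ContDiffAt ℝ 1
        (fun p : V × EE d => inCharts (d := d) q q ((g.trans (h p.1))^[n]) p.2)
        (0, extChartAt (𝓡 d) q y) := h1.of_le (by exact_mod_cast hr)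
    exact ContDiffAt.comp ((((0 : V), extChartAt (𝓡 d) q y)), extChartAt (𝓡 d) q y)
      (g := fun p : V × EE d => inCharts (d := d) q q ((g.trans (h p.1))^[n]) p.2)
      (f := fun p : (V × EE d) × EE d => (p.1.1, p.2)) h3
      ((contDiffAt_fst.fst).prodMk contDiffAt_snd)
  have h3 : ContinuousAt (fun p : V × M => (p.1, extChartAt (𝓡 d) q p.2)) (0, y) := by
    refine continuousAt_fst.prodMk ?_
    exact ContinuousAt.comp (x := ((0 : V), y)) (f := fun p : V × M => p.2)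
      (continuousAt_extChartAt' hy) continuousAt_snd
  exact ContinuousAt.comp (f := fun p : V × M => (p.1, extChartAt (𝓡 d) q p.2)) h2.continuousAt h3

/-- Nondegeneracy persists on compact sets. -/
theorem eventually_good (hr : 1 ≤ r) {h : V → Dyn d M r} (hh : IsFam h) (g : Dyn d M r)
    (n : ℕ) {q : M} {W : Set M} (hW : IsCompact W) (hWq : W ⊆ (extChartAt (𝓡 d) q).source)
    (hg : Good (d := d) q W (g^[n])) :
    ∀ᶠ v in 𝓝 (0 : V), Good (d := d) q W ((g.trans (h v))^[n]) := by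
  refine hW.eventually_forall_of_forall_eventually
    (P := fun v y => (g.trans (h v))^[n] y = y →
      (1 - chartD (d := d) q ((g.trans (h v))^[n]) y).det ≠ 0) ?_
  intro y hy
  by_cases hfix : g^[n] y = y
  · have h1 := continuousAt_chartD hr hh g n (hWq hy) (by rw [hfix]; exact hWq hy)
    have h2 : ContinuousAt (fun p : V × M =>
        (1 - chartD (d := d) q ((g.trans (h p.1))^[n]) p.2).det) (0, y) :=
      ContinuousAt.comp (g := fun L : EE d →L[ℝ] EE d => (1 - L).det)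
        (ContinuousLinearMap.continuous_det.comp (continuous_const.sub continuous_id)).continuousAt
        h1
    have h3 := h2.eventually_ne (y := 0) (by
      simp only [trans_zero hh g]
      exact hg y hy hfix)
    filter_upwards [h3] with p hp _
    exact hp
  · filter_upwards [eventually_ne_of_tendsto (tendsto_iterate hh g n y)
      continuous_snd.continuousAt hfix] with p hp hp'
    exact absurd hp' hp

end FiniteFix

end Pool.Agent.OmegaStab

end
end

section

/-!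
# Finiteness of the fixed points, part C: nondegenerate fixed points are isolated; Sard step
-/

open Set Filter Topology Function MeasureTheory
open scoped Manifold ContDiff

noncomputable section

namespace Pool.Agent.OmegaStab

namespace FiniteFix

variable {d : ℕ} {M : Type*} [MetricSpace M] [ChartedSpace (EE d) M] {r : ℕ∞}
  [IsManifold (𝓡 d) ∞ M]

theorem injective_of_det_ne_zero {L : EE d →L[ℝ] EE d} (hL : L.det ≠ 0) :
    ∃ C, AntilipschitzWith C L := by
  have h1 : LinearMap.ker (L : EE d →ₗ[ℝ] EE d) = ⊥ := by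
    by_contra hcon
    have := LinearMap.det_eq_zero_iff_ker_ne_bot.mpr hcon
    exact hL this
  obtain ⟨K, _, hK⟩ := (L : EE d →ₗ[ℝ] EE d).exists_antilipschitzWith h1
  exact ⟨K, hK⟩

theorem iterate_contMDiff (g : Dyn d M r) (n : ℕ) :
    ContMDiff (𝓡 d) (𝓡 d) (r : ℕ∞ω) (g^[n]) := contMDiff_iterate g.contMDiff n

theorem hasStrictFDerivAt_inCharts (hr : 1 ≤ r) {G : M → M}
    (hG : ContMDiff (𝓡 d) (𝓡 d) (r : ℕ∞ω) G) {q y : M}
    (hy : y ∈ (extChartAt (𝓡 d) q).source) (hgy : G y ∈ (extChartAt (𝓡 d) q).source) :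
    HasStrictFDerivAt (inCharts (d := d) q q G) (chartD q G y) (extChartAt (𝓡 d) q y) := by
  have h1 := contDiffOn_inCharts hG q q
  have h2 : ContDiffAt ℝ r (inCharts (d := d) q q G) (extChartAt (𝓡 d) q y) :=
    h1.contDiffAt ((isOpen_chartDom q q hG.continuous).mem_nhds (mem_chartDom hy hgy))
  exact h2.hasStrictFDerivAt (by
    have : (r : ℕ∞ω) ≠ 0 := by
      intro h0
      have : r = 0 := by exact_mod_cast h0
      rw [this] at hr
      exact absurd hr (by decide)
    exact this)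

/-- Nondegenerate fixed points are isolated. -/
theorem isolated_of_good (hr : 1 ≤ r) {G : M → M} (hG : ContMDiff (𝓡 d) (𝓡 d) (r : ℕ∞ω) G)
    {q y : M} (hy : y ∈ (extChartAt (𝓡 d) q).source) (hfix : G y = y)
    (hdet : (1 - chartD (d := d) q G y).det ≠ 0) :
    ∀ᶠ z in 𝓝[≠] y, G z ≠ z := by
  have h1 := hasStrictFDerivAt_inCharts hr hG hy (by rw [hfix]; exact hy)
  have h2 : HasFDerivAt (fun u => u - inCharts (d := d) q q G u)
      (1 - chartD (d := d) q G y) (extChartAt (𝓡 d) q y) :=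
    (hasFDerivAt_id _).sub h1.hasFDerivAt
  have h3 := h2.eventually_ne (c := 0) (injective_of_det_ne_zero hdet)
  have h4 : Tendsto (extChartAt (𝓡 d) q) (𝓝[≠] y) (𝓝[≠] (extChartAt (𝓡 d) q y)) := by
    rw [tendsto_nhdsWithin_iff]
    refine ⟨(continuousAt_extChartAt' hy).tendsto.mono_left nhdsWithin_le_nhds, ?_⟩
    have h5 : ∀ᶠ z in 𝓝[≠] y, z ∈ (extChartAt (𝓡 d) q).source :=
      nhdsWithin_le_nhds ((isOpen_extChartAt_source (I := 𝓡 d) q).mem_nhds hy)
    filter_upwards [h5, self_mem_nhdsWithin] with z hz hzy heq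
    exact hzy ((extChartAt (𝓡 d) q).injOn hz hy heq)
  have h5 : ∀ᶠ z in 𝓝[≠] y, z ∈ (extChartAt (𝓡 d) q).source :=
    nhdsWithin_le_nhds ((isOpen_extChartAt_source (I := 𝓡 d) q).mem_nhds hy)
  filter_upwards [h4.eventually h3, h5] with z hz hzs hfz
  apply hz
  rw [inCharts_apply hzs, hfz, sub_self]

/-- If all fixed points are nondegenerate there are finitely many. -/
theorem finite_of_isolated [CompactSpace M] {G : M → M} (hG : Continuous G)
    (h : ∀ y, G y = y → ∀ᶠ z in 𝓝[≠] y, G z ≠ z) : {x | G x = x}.Finite := by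
  have hcl : IsClosed {x | G x = x} := isClosed_eq hG continuous_id
  have hc : IsCompact {x | G x = x} := hcl.isCompact
  by_contra hinf
  obtain ⟨y, hy, hacc⟩ := Set.Infinite.exists_accPt_of_subset_isCompact hinf hc subset_rfl
  have h1 := h y hy
  rw [accPt_iff_frequently_nhdsNE] at hacc
  exact hacc (by
    filter_upwards [h1] with z hz
    exact hz)

end FiniteFix

end Pool.Agent.OmegaStab

end
end
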