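import Mathlib
import Pool.Agent.Work.MP_814647_an.Statement
import Pool.Agent.Work.MP_814647_an.PS.Defs
import Pool.Agent.Work.MP_814647_an.Linear
import Pool.Agent.Work.MP_814647_an.Bd.B04
import Pool.Agent.Work.MP_814647_an.PS.Cross

/-! Bundle of small proof modules (one section per former module). -/

section

/-!
# Products: continuation of a solution (GE8)
-/

open Set Filter Topology Function
open scoped Manifold ContDiff

noncomputable section

namespace Pool.Agent.OmegaPS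

theorem continuation {E : Type*} [NormedAddCommGroup E] [NormedSpace ℝ E] [FiniteDimensional ℝ E]
    {U : Set E} (hU : IsOpen U) {G : E → E} (hG : ContDiffOn ℝ 1 G U) {u₁ v : E} (hu₁ : u₁ ∈ U)
    (h1 : G u₁ = v) {R C : ℝ} (hC : 0 < C) (hR : 2 * C * ‖v‖ ≤ R)
    (hcl : IsClosed {p : ℝ × E | p.1 ∈ Icc (0 : ℝ) 1 ∧ p.2 ∈ Metric.closedBall u₁ R ∧ p.2 ∈ U ∧
      G p.2 = p.1 • v})
    (hinv : ∀ t ∈ Icc (0 : ℝ) 1, ∀ u ∈ Metric.closedBall u₁ R ∩ U, G u = t • v →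
      ∀ w, ‖w‖ ≤ C * ‖fderiv ℝ G u w‖) :
    ∃ u ∈ U, G u = 0 ∧ ‖u - u₁‖ ≤ 2 * C * ‖v‖ := by
  have hR0 : 0 ≤ R := le_trans (by positivity) hR
  set S : Set (ℝ × E) := {p : ℝ × E | p.1 ∈ Icc (0 : ℝ) 1 ∧ p.2 ∈ Metric.closedBall u₁ R ∧
    p.2 ∈ U ∧ G p.2 = p.1 • v} with hS
  set S' : Set (ℝ × E) := S ∩ {p | ‖p.2 - u₁‖ ≤ 2 * C * (1 - p.1) * ‖v‖} with hS'
  have hcl' : IsClosed S' := by
    refine hcl.inter (isClosed_le (by fun_prop) (by fun_prop))
  have hcomp : IsCompact S' := by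
    refine IsCompact.of_isClosed_subset
      ((isCompact_Icc (a := (0 : ℝ)) (b := 1)).prod (isCompact_closedBall u₁ R)) hcl' ?_
    rintro p ⟨⟨h2, h3, -, -⟩, -⟩
    exact ⟨h2, h3⟩
  have hne : S'.Nonempty := by
    refine ⟨(1, u₁), ⟨⟨zero_le_one, le_rfl⟩, ?_, hu₁, by simpa using h1⟩, ?_⟩
    · simpa using hR0
    · simp
  obtain ⟨p, hp, hmin⟩ := hcomp.exists_isMinOn hne (f := Prod.fst) continuous_fst.continuousOn
  obtain ⟨t₀, u₀⟩ := p
  obtain ⟨⟨ht, hb, huU, hGu⟩, hd⟩ := hp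
  simp only [mem_ofPred_eq] at ht hb huU hGu hd
  by_cases ht0 : t₀ = 0
  · refine ⟨u₀, huU, by rw [hGu, ht0, zero_smul], ?_⟩
    rw [ht0] at hd
    simpa using hd
  exfalso
  have ht0' : 0 < t₀ := lt_of_le_of_ne ht.1 (Ne.symm ht0)
  have hA := hinv t₀ ht u₀ ⟨hb, huU⟩ hGu
  have hstrict : HasStrictFDerivAt G (fderiv ℝ G u₀) u₀ :=
    (hG.contDiffAt (hU.mem_nhds huU)).hasStrictFDerivAt one_ne_zero
  have hinj : Function.Injective (fderiv ℝ G u₀) := by
    rw [injective_iff_map_eq_zero]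
    intro w hw
    have := hA w
    rw [hw, norm_zero, mul_zero] at this
    exact norm_le_zero_iff.1 this
  set A : E ≃L[ℝ] E := (LinearEquiv.ofInjectiveEndo (fderiv ℝ G u₀ : E →ₗ[ℝ] E)
    hinj).toContinuousLinearEquiv with hAdef
  have hAeq : (A : E →L[ℝ] E) = fderiv ℝ G u₀ := by
    ext w
    rfl
  have hstrict' : HasStrictFDerivAt G (A : E →L[ℝ] E) u₀ := by rw [hAeq]; exact hstrict
  have hmap : Filter.map G (𝓝 u₀) = 𝓝 (G u₀) := hstrict'.map_nhds_eq_of_equiv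
  -- estimate near u₀
  have hlit := hstrict.hasFDerivAt.isLittleO.def (show (0 : ℝ) < 1 / (2 * C) by positivity)
  have hev : ∀ᶠ u in 𝓝 u₀, u ∈ U ∧ ‖u - u₀‖ ≤ 2 * C * ‖G u - G u₀‖ := by
    filter_upwards [hlit, hU.mem_nhds huU] with u hu hu'
    refine ⟨hu', ?_⟩
    have h3 := hA (u - u₀)
    have h4 : ‖fderiv ℝ G u₀ (u - u₀)‖ ≤ ‖G u - G u₀‖ + 1 / (2 * C) * ‖u - u₀‖ := by
      calc ‖fderiv ℝ G u₀ (u - u₀)‖ = ‖(G u - G u₀) - (G u - G u₀ - fderiv ℝ G u₀ (u - u₀))‖ := by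
            congr 1; abel
        _ ≤ ‖G u - G u₀‖ + ‖G u - G u₀ - fderiv ℝ G u₀ (u - u₀)‖ := norm_sub_le _ _
        _ ≤ _ := by gcongr
    have h5 : ‖u - u₀‖ ≤ C * (‖G u - G u₀‖ + 1 / (2 * C) * ‖u - u₀‖) :=
      h3.trans (by gcongr)
    have h6 : C * (‖G u - G u₀‖ + 1 / (2 * C) * ‖u - u₀‖) =
        C * ‖G u - G u₀‖ + ‖u - u₀‖ / 2 := by
      field_simp
    linarith
  have himg : G '' {u | u ∈ U ∧ ‖u - u₀‖ ≤ 2 * C * ‖G u - G u₀‖} ∈ 𝓝 (G u₀) := by
    rw [← hmap]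
    exact Filter.image_mem_map hev
  have hcont : Tendsto (fun t : ℝ => t • v) (𝓝 t₀) (𝓝 (G u₀)) := by
    rw [hGu]
    exact (continuous_id.smul continuous_const).tendsto t₀
  have hev2 : ∀ᶠ t in 𝓝[<] t₀, t • v ∈ G '' {u | u ∈ U ∧ ‖u - u₀‖ ≤ 2 * C * ‖G u - G u₀‖} :=
    (hcont.eventually himg).filter_mono nhdsWithin_le_nhds
  have hev3 : ∀ᶠ t in 𝓝[<] t₀, 0 < t :=
    (eventually_gt_nhds ht0').filter_mono nhdsWithin_le_nhds
  obtain ⟨t, ⟨⟨u, ⟨huU', hu2⟩, hu3⟩, ht1⟩, ht2⟩ :=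
    ((hev2.and hev3).and self_mem_nhdsWithin).exists
  have ht2' : t < t₀ := ht2
  have hGd : ‖G u - G u₀‖ = (t₀ - t) * ‖v‖ := by
    rw [hu3, hGu, ← sub_smul, norm_smul, Real.norm_eq_abs, abs_sub_comm, abs_of_pos (by linarith)]
  have h7 : ‖u - u₁‖ ≤ 2 * C * (1 - t) * ‖v‖ := by
    calc ‖u - u₁‖ ≤ ‖u - u₀‖ + ‖u₀ - u₁‖ := norm_sub_le_norm_sub_add_norm_sub _ _ _
      _ ≤ 2 * C * ((t₀ - t) * ‖v‖) + 2 * C * (1 - t₀) * ‖v‖ := by
          rw [← hGd]; exact add_le_add hu2 hd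
      _ = 2 * C * (1 - t) * ‖v‖ := by ring
  have h8 : ‖u - u₁‖ ≤ R := by
    refine h7.trans (le_trans ?_ hR)
    have : 0 ≤ 2 * C * ‖v‖ := by positivity
    nlinarith
  have hmem : (t, u) ∈ S' := by
    refine ⟨⟨⟨ht1.le, ?_⟩, ?_, huU', hu3⟩, h7⟩
    · show t ≤ 1
      linarith [ht.2]
    · show u ∈ Metric.closedBall u₁ R
      rw [Metric.mem_closedBall, dist_eq_norm]
      exact h8
  have := hmin hmem
  simp only [mem_ofPred_eq] at this
  linarith

end Pool.Agent.OmegaPS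

end
end

section

/-!
# Products of diffeomorphisms: the notions in the statement
-/

open Set Filter Topology
open scoped Manifold ContDiff

noncomputable section

namespace Pool.Agent.OmegaStability

section

variable (E : Type*) [NormedAddCommGroup E] [NormedSpace ℝ E]
  {M : Type*} [MetricSpace M] [ChartedSpace E M] [IsManifold 𝓘(ℝ, E) ∞ M]

/-- The map `f`, with inverse `f'`, has a transverse homoclinic point: there are a fixed point
`p` and a point `q ≠ p` whose forward and backward orbits converge to `p`, and the closure of the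
orbit of `q` is a hyperbolic set (equivalently, `p` is a hyperbolic fixed point and its stable
and unstable manifolds intersect transversely at `q`). -/
def HasTransverseHomoclinicPoint (f f' : M → M) : Prop :=
  ∃ p q : M, f p = p ∧ q ≠ p ∧ Tendsto (fun n : ℕ => f^[n] q) atTop (𝓝 p) ∧
    Tendsto (fun n : ℕ => f'^[n] q) atTop (𝓝 p) ∧
    HyperbolicStructure E f f' (closure {x | ∃ n : ℕ, x = f^[n] q ∨ x = f'^[n] q})

/-- `A` is an Anosov diffeomorphism with dense periodic points. -/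
def IsAnosovWithDensePeriodicPoints {r : ℕ∞} (A : Diffeo E M r) : Prop :=
  HyperbolicStructure E A A.symm univ ∧ Dense (Function.periodicPts A)

end

end Pool.Agent.OmegaStability

end
end

section

/-!
# Products: last exit decomposition
-/

open Set Filter Topology Function

noncomputable section

namespace Pool.Agent.OmegaPS

namespace LastExit

theorem steps (g : ℕ → ℝ) {K : ℝ} {A B : ℕ}
    (hstep : ∀ t, A ≤ t → t < B → g (t + 1) ≤ g t + K) (t : ℕ) (hA : A ≤ t) (n : ℕ) :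
    t + n ≤ B → g (t + n) ≤ g t + K * n := by
  induction n with
  | zero => intro _; simp
  | succ n ih =>
    intro hB
    have h1 := ih (by omega)
    have h2 := hstep (t + n) (by omega) (by omega)
    have h3 : t + (n + 1) = t + n + 1 := rfl
    rw [h3]
    push_cast
    nlinarith

theorem main {κ : Type*} [DecidableEq κ] (cell : ℕ → κ) (g : ℕ → ℝ) {K δ κ₃ : ℝ} {m A B : ℕ}
    (hδ : 0 ≤ δ) (hK : 0 ≤ K) (hκ₃ : 0 ≤ κ₃) (hstep : ∀ t, A ≤ t → t < B → g (t + 1) ≤ g t + K)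
    (h : ∀ s s', A ≤ s → s + m ≤ s' → s' ≤ B → cell s = cell s' →
      g s' ≤ g s - δ * (s' - s) + κ₃) (q : ℕ) :
    ∀ t₁ t₂, A ≤ t₁ → t₁ ≤ t₂ → t₂ ≤ B → ((Finset.Icc t₁ t₂).image cell).card ≤ q →
      g t₂ ≤ g t₁ - δ * (t₂ - t₁) + q * (κ₃ + (K + δ) * (m + 1)) := by
  induction q with
  | zero =>
    intro t₁ t₂ _ h12 _ hc
    exfalso
    have h1 : ((Finset.Icc t₁ t₂).image cell).Nonempty :=
      ⟨cell t₁, Finset.mem_image_of_mem _ (Finset.mem_Icc.2 ⟨le_rfl, h12⟩)⟩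
    have := Finset.card_pos.2 h1
    omega
  | succ q ih =>
    intro t₁ t₂ hA h12 hB hc
    have hE : 0 ≤ κ₃ + (K + δ) * (m + 1) := by positivity
    have hKd : 0 ≤ (K + δ) := by positivity
    obtain ⟨s₁, hs₁, hmax⟩ := Finset.exists_max_image
      ((Finset.Icc t₁ t₂).filter (fun t => cell t = cell t₁)) (fun t => t)
      ⟨t₁, Finset.mem_filter.2 ⟨Finset.mem_Icc.2 ⟨le_rfl, h12⟩, rfl⟩⟩
    obtain ⟨hs2, hs3⟩ := Finset.mem_filter.1 hs₁
    obtain ⟨hs4, hs5⟩ := Finset.mem_Icc.1 hs2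
    have hbound : g s₁ ≤ g t₁ - δ * (s₁ - t₁) + (κ₃ + (K + δ) * m) := by
      by_cases hm : t₁ + m ≤ s₁
      · have h1 := h t₁ s₁ hA hm (by omega) hs3.symm
        have h2 : 0 ≤ (K + δ) * (m : ℝ) := by positivity
        linarith
      · obtain ⟨n, rfl⟩ := Nat.exists_eq_add_of_le hs4
        have h1 := steps g hstep t₁ hA n (by omega)
        have h2 : (n : ℝ) ≤ m := by
          have : n ≤ m := by omega
          exact_mod_cast this
        push_cast
        nlinarith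
    by_cases hst : s₁ = t₂
    · subst hst
      push_cast
      have h1 : 0 ≤ (q : ℝ) * (κ₃ + (K + δ) * (m + 1)) := by positivity
      nlinarith
    · have hlt : s₁ < t₂ := by omega
      have h1 := hstep s₁ (by omega) (by omega)
      have h2 : ((Finset.Icc (s₁ + 1) t₂).image cell).card ≤ q := by
        have h3 : (Finset.Icc (s₁ + 1) t₂).image cell ⊆
            ((Finset.Icc t₁ t₂).image cell).erase (cell t₁) := by
          intro x hx
          obtain ⟨t, ht, rfl⟩ := Finset.mem_image.1 hx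
          obtain ⟨ht1, ht2⟩ := Finset.mem_Icc.1 ht
          refine Finset.mem_erase.2 ⟨?_, Finset.mem_image_of_mem _
            (Finset.mem_Icc.2 ⟨by omega, ht2⟩)⟩
          intro hcell
          have : t ≤ s₁ := hmax t (Finset.mem_filter.2 ⟨Finset.mem_Icc.2 ⟨by omega, ht2⟩, hcell⟩)
          omega
        have h4 := Finset.card_le_card h3
        rw [Finset.card_erase_of_mem (Finset.mem_image_of_mem _
          (Finset.mem_Icc.2 ⟨le_rfl, h12⟩))] at h4
        omega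
      have h3 := ih (s₁ + 1) t₂ (by omega) (by omega) hB h2
      push_cast at h3 ⊢
      nlinarith

end LastExit

theorem last_exit {κ : Type*} [Fintype κ] (cell : ℕ → κ) (g : ℕ → ℝ) {K δ κ₃ : ℝ} {m A B : ℕ}
    (hδ : 0 ≤ δ) (hK : 0 ≤ K) (hκ₃ : 0 ≤ κ₃) (hstep : ∀ t, A ≤ t → t < B → g (t + 1) ≤ g t + K)
    (h : ∀ s s', A ≤ s → s + m ≤ s' → s' ≤ B → cell s = cell s' →
      g s' ≤ g s - δ * (s' - s) + κ₃) :
    ∀ t₁ t₂, A ≤ t₁ → t₁ ≤ t₂ → t₂ ≤ B →
      g t₂ ≤ g t₁ - δ * (t₂ - t₁) + Fintype.card κ * (κ₃ + (K + δ) * (m + 1)) := by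
  classical
  intro t₁ t₂ hA h12 hB
  exact LastExit.main cell g hδ hK hκ₃ hstep h (Fintype.card κ) t₁ t₂ hA h12 hB
    (Finset.card_le_univ _)

end Pool.Agent.OmegaPS

end
end

section

/-!
# Elementary facts on hyperbolic linear maps (item 01)
-/

set_option autoImplicit false

open Set Filter Topology Function

noncomputable section

namespace Pool.Agent.OmegaPS

open Pool.Agent.OmegaStab (HypLin)

section Lin

variable {V : Type*} [NormedAddCommGroup V] [InnerProductSpace ℝ V]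

theorem sc_zero : (sc 0 : V ≃L[ℝ] V) = 1 := by
  ext v
  rw [sc_apply, Real.exp_zero, one_smul]
  rfl

theorem sc_add (s t : ℝ) : (sc (s + t) : V ≃L[ℝ] V) = sc s * sc t := by
  ext v
  change (sc (s + t) : V ≃L[ℝ] V) v = sc s (sc t v)
  rw [sc_apply, sc_apply, sc_apply, smul_smul, Real.exp_add]

theorem sc_comm (s : ℝ) (P : V ≃L[ℝ] V) : sc s * P = P * sc s := by
  ext v
  change sc s (P v) = P (sc s v)
  rw [sc_apply, sc_apply, map_smul]

theorem sc_inv (s : ℝ) : (sc s : V ≃L[ℝ] V)⁻¹ = sc (-s) := by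
  rw [inv_eq_iff_mul_eq_one, ← sc_add, add_neg_cancel, sc_zero]

namespace LinBasic

theorem hyp_comm_aux {P Q : V ≃L[ℝ] V} (h : Hyp (Q * P)) : Hyp (P * Q) := by
  intro θ v w hv hw
  have h1 := h θ (Q v) (Q w) ?_ ?_
  · exact ⟨Q.map_eq_zero_iff.1 h1.1, Q.map_eq_zero_iff.1 h1.2⟩
  · change Q (P (Q v)) = _
    have h2 : P (Q v) = Real.cos θ • v - Real.sin θ • w := hv
    rw [h2, map_sub, map_smul, map_smul]
  · change Q (P (Q w)) = _
    have h2 : P (Q w) = Real.sin θ • v + Real.cos θ • w := hw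
    rw [h2, map_add, map_smul, map_smul]

end LinBasic

theorem hyp_mul_comm (P Q : V ≃L[ℝ] V) : Hyp (P * Q) ↔ Hyp (Q * P) :=
  ⟨LinBasic.hyp_comm_aux, LinBasic.hyp_comm_aux⟩

theorem Hyp.inv {P : V ≃L[ℝ] V} (h : Hyp P) : Hyp P⁻¹ := by
  intro θ v w hv hw
  have hv' : P⁻¹ v = Real.cos θ • v - Real.sin θ • w := hv
  have hw' : P⁻¹ w = Real.sin θ • v + Real.cos θ • w := hw
  have e1 : v = Real.cos θ • P v - Real.sin θ • P w := by
    have := congrArg P hv'
    rw [map_sub, map_smul, map_smul] at this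
    rw [← this]
    exact (P.apply_symm_apply v).symm
  have e2 : w = Real.sin θ • P v + Real.cos θ • P w := by
    have := congrArg P hw'
    rw [map_add, map_smul, map_smul] at this
    rw [← this]
    exact (P.apply_symm_apply w).symm
  have hsq : Real.cos θ * Real.cos θ + Real.sin θ * Real.sin θ = 1 := by
    have := Real.sin_sq_add_cos_sq θ
    nlinarith
  refine h (-θ) v w ?_ ?_
  · rw [Real.cos_neg, Real.sin_neg]
    change P v = _
    generalize P v = a at *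
    generalize P w = b at *
    have h1 : a = (Real.cos θ * Real.cos θ + Real.sin θ * Real.sin θ) • a := by
      rw [hsq, one_smul]
    rw [e1, e2]
    conv_lhs => rw [h1]
    module
  · rw [Real.cos_neg, Real.sin_neg]
    change P w = _
    generalize P v = a at *
    generalize P w = b at *
    have h1 : b = (Real.cos θ * Real.cos θ + Real.sin θ * Real.sin θ) • b := by
      rw [hsq, one_smul]
    rw [e1, e2]
    conv_lhs => rw [h1]
    module

theorem hyp_of_pow {P : V ≃L[ℝ] V} {a : ℕ} (h : Hyp (P ^ a)) : Hyp P := by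
  intro θ v w hv hw
  have hv' : P v = Real.cos θ • v - Real.sin θ • w := hv
  have hw' : P w = Real.sin θ • v + Real.cos θ • w := hw
  have key : ∀ n : ℕ, (P ^ n) v = Real.cos (n * θ) • v - Real.sin (n * θ) • w ∧
      (P ^ n) w = Real.sin (n * θ) • v + Real.cos (n * θ) • w := by
    intro n
    induction n with
    | zero =>
      simp only [pow_zero, Nat.cast_zero, zero_mul, Real.cos_zero, one_smul, Real.sin_zero,
        zero_smul, sub_zero, zero_add]
      exact ⟨rfl, rfl⟩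
    | succ n ih =>
      have e : ((n + 1 : ℕ) : ℝ) * θ = n * θ + θ := by push_cast; ring
      rw [pow_succ', e, Real.cos_add, Real.sin_add]
      constructor
      · change P ((P ^ n) v) = _
        rw [ih.1, map_sub, map_smul, map_smul, hv', hw']
        module
      · change P ((P ^ n) w) = _
        rw [ih.2, map_add, map_smul, map_smul, hv', hw']
        module
  exact h (a * θ) v w (key a).1 (key a).2

theorem Near.inv {c : ℝ} (hc : 0 ≤ c) (hc' : c ≤ 1 / 2) {L : V ≃L[ℝ] V} (h : Near (c / 2) L) :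
    Near c L⁻¹ := by
  refine ContinuousLinearMap.opNorm_le_bound _ hc fun v => ?_
  set u : V := L⁻¹ v with hu
  have hv : L u = v := L.apply_symm_apply v
  have h1 : ‖L u - u‖ ≤ c / 2 * ‖u‖ :=
    ((L : V →L[ℝ] V) - ContinuousLinearMap.id ℝ V).le_of_opNorm_le h u
  have h2 : ‖u‖ ≤ ‖v‖ + c / 2 * ‖u‖ := by
    have : u = L u - (L u - u) := by abel
    calc ‖u‖ = ‖L u - (L u - u)‖ := by rw [← this]
      _ ≤ ‖L u‖ + ‖L u - u‖ := norm_sub_le _ _
      _ ≤ ‖v‖ + c / 2 * ‖u‖ := by rw [hv]; rw [hv] at h1; linarith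
  have h3 : ‖u‖ ≤ 4 / 3 * ‖v‖ := by nlinarith [norm_nonneg u]
  change ‖u - v‖ ≤ c * ‖v‖
  rw [norm_sub_rev, ← hv]
  refine h1.trans ?_
  rw [hv]
  nlinarith [norm_nonneg u, norm_nonneg v]

theorem near_one {c : ℝ} (hc : 0 ≤ c) : Near c (1 : V ≃L[ℝ] V) := by
  unfold Near
  have : ((1 : V ≃L[ℝ] V) : V →L[ℝ] V) - ContinuousLinearMap.id ℝ V = 0 := by
    ext v
    simp
  rw [this, norm_zero]
  exact hc

theorem exists_equiv [FiniteDimensional ℝ V] (T : V →L[ℝ] V)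
    (h : ‖T - ContinuousLinearMap.id ℝ V‖ < 1) : ∃ L : V ≃L[ℝ] V, (L : V →L[ℝ] V) = T := by
  have : CompleteSpace V := FiniteDimensional.complete ℝ V
  have h1 : ‖(1 : V →L[ℝ] V) - T‖ < 1 := by
    rw [norm_sub_rev]
    exact h
  let U : (V →L[ℝ] V)ˣ := Units.oneSub ((1 : V →L[ℝ] V) - T) h1
  refine ⟨ContinuousLinearEquiv.unitsEquiv ℝ V U, ?_⟩
  ext v
  change (U : V →L[ℝ] V) v = T v
  have : (U : V →L[ℝ] V) = T := by
    rw [Units.val_oneSub]
    abel
  rw [this]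

theorem mem_Est_map {P : V ≃L[ℝ] V} {v : V} : P v ∈ Est P ↔ v ∈ Est P := by
  rw [mem_Est, mem_Est]
  have h1 : (fun n : ℕ => (P ^ n) (P v)) = fun n : ℕ => (P ^ (n + 1)) v := by
    funext n
    rw [pow_succ]
    rfl
  rw [h1]
  exact tendsto_add_atTop_iff_nat (f := fun n : ℕ => (P ^ n) v) 1

theorem mem_Est_conj {P Q : V ≃L[ℝ] V} {v : V} : v ∈ Est (Q * P * Q⁻¹) ↔ Q⁻¹ v ∈ Est P := by
  rw [mem_Est, mem_Est]
  have h1 : ∀ n : ℕ, ((Q * P * Q⁻¹) ^ n) v = Q ((P ^ n) (Q⁻¹ v)) := by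
    intro n
    rw [conj_pow]
    rfl
  constructor
  · intro h
    have h2 := (Q⁻¹.continuous.tendsto 0).comp h
    rw [map_zero] at h2
    refine h2.congr fun n => ?_
    change Q⁻¹ (((Q * P * Q⁻¹) ^ n) v) = _
    rw [h1]
    exact Q.symm_apply_apply _
  · intro h
    have h2 := (Q.continuous.tendsto 0).comp h
    rw [map_zero] at h2
    refine h2.congr fun n => ?_
    rw [h1]
    rfl

theorem Est_pow {P : V ≃L[ℝ] V} {a : ℕ} (ha : 1 ≤ a) : Est (P ^ a) = Est P := by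
  ext v
  rw [mem_Est, mem_Est]
  constructor
  · intro h
    have h1 : ∀ r : ℕ, Tendsto (fun n : ℕ => (P ^ r) (((P ^ a) ^ (n / a)) v)) atTop (𝓝 0) := by
      intro r
      have h2 : Tendsto (fun n : ℕ => n / a) atTop atTop :=
        Nat.tendsto_div_const_atTop (by omega)
      have h3 := ((P ^ r).continuous.tendsto 0).comp (h.comp h2)
      rw [map_zero] at h3
      exact h3
    rw [tendsto_zero_iff_norm_tendsto_zero]
    have h4 : Tendsto (fun n : ℕ => ∑ r ∈ Finset.range a, ‖(P ^ r) (((P ^ a) ^ (n / a)) v)‖)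
        atTop (𝓝 0) := by
      rw [show (0 : ℝ) = ∑ r ∈ Finset.range a, (0 : ℝ) by simp]
      exact tendsto_finsetSum _ fun r _ => tendsto_zero_iff_norm_tendsto_zero.1 (h1 r)
    refine squeeze_zero (fun n => norm_nonneg _) (fun n => ?_) h4
    have h5 : n % a ∈ Finset.range a := Finset.mem_range.2 (Nat.mod_lt _ (by omega))
    refine le_trans (le_of_eq ?_) (Finset.single_le_sum (f := fun r =>
      ‖(P ^ r) (((P ^ a) ^ (n / a)) v)‖) (fun r _ => norm_nonneg _) h5)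
    have h6 : P ^ n = P ^ (n % a) * (P ^ a) ^ (n / a) := by
      rw [← pow_mul, ← pow_add]
      congr 1
      rw [add_comm]
      exact (Nat.div_add_mod n a).symm
    rw [h6]
    rfl
  · intro h
    have h1 : Tendsto (fun n : ℕ => a * n) atTop atTop :=
      tendsto_id.const_mul_atTop' (by omega)
    refine (h.comp h1).congr fun n => ?_
    rw [← pow_mul]
    rfl

namespace LinBasic

theorem pow_coe (P : V ≃L[ℝ] V) (n : ℕ) (v : V) : (P ^ n) v = ((P : V →L[ℝ] V) ^ n) v := by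
  induction n generalizing v with
  | zero => rfl
  | succ n ih =>
    rw [pow_succ, pow_succ]
    exact ih (P v)

theorem pow_inv_pow (P : V ≃L[ℝ] V) (n : ℕ) (v : V) : (P ^ n) ((P⁻¹ ^ n) v) = v := by
  have h : P ^ n * P⁻¹ ^ n = 1 := by rw [inv_pow, mul_inv_cancel]
  change (P ^ n * P⁻¹ ^ n) v = v
  rw [h]
  rfl

/-- The splitting with the bounds. -/
theorem data [FiniteDimensional ℝ V] {P : V ≃L[ℝ] V} (h : Hyp P) :
    ∃ C μ : ℝ, 0 < C ∧ 0 < μ ∧ μ < 1 ∧ IsCompl (Est P) (Eun P) ∧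
      (∀ v ∈ Est P, ∀ n : ℕ, ‖(P ^ n) v‖ ≤ C * μ ^ n * ‖v‖) ∧
      ∀ v ∈ Eun P, ∀ n : ℕ, ‖((P⁻¹) ^ n) v‖ ≤ C * μ ^ n * ‖v‖ := by
  obtain ⟨Es, Eu, C, μ, hc, hEs, hEu, hC, hμ0, hμ1, hs, hu⟩ := HypLin.split h
  have hlim : Tendsto (fun n : ℕ => μ ^ n) atTop (𝓝 0) :=
    tendsto_pow_atTop_nhds_zero_of_lt_one hμ0.le hμ1
  -- the inverse preserves `Eu`
  have hEu' : ∀ v ∈ Eu, P⁻¹ v ∈ Eu := by
    intro v hv
    let T : Eu →ₗ[ℝ] Eu := (P : V →ₗ[ℝ] V).restrict hEu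
    have hT : Function.Injective T := by
      intro x y hxy
      apply Subtype.ext
      apply P.injective
      exact congrArg Subtype.val hxy
    obtain ⟨⟨u, hu1⟩, hu2⟩ := (LinearMap.injective_iff_surjective.1 hT) ⟨v, hv⟩
    have h3 : P u = v := congrArg Subtype.val hu2
    have h4 : P⁻¹ v = u := by
      rw [← h3]
      exact P.symm_apply_apply u
    rw [h4]
    exact hu1
  have hEupow : ∀ n : ℕ, ∀ v ∈ Eu, (P⁻¹ ^ n) v ∈ Eu := by
    intro n
    induction n with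
    | zero => exact fun v hv => hv
    | succ n ih =>
      intro v hv
      rw [pow_succ]
      exact ih _ (hEu' v hv)
  have hs' : ∀ v ∈ Es, ∀ n : ℕ, ‖(P ^ n) v‖ ≤ C * μ ^ n * ‖v‖ := by
    intro v hv n
    rw [pow_coe]
    exact hs v hv n
  have hu' : ∀ v ∈ Eu, ∀ n : ℕ, ‖(P⁻¹ ^ n) v‖ ≤ C * μ ^ n * ‖v‖ := by
    intro v hv n
    have h1 := hu _ (hEupow n v hv) n
    rw [← pow_coe, pow_inv_pow] at h1
    exact h1
  have hbd : ∀ w : V, Tendsto (fun n : ℕ => C * μ ^ n * ‖w‖) atTop (𝓝 0) := by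
    intro w
    have := (hlim.const_mul C).mul_const ‖w‖
    simpa using this
  have hEst : Es ≤ Est P := by
    intro v hv
    rw [mem_Est, tendsto_zero_iff_norm_tendsto_zero]
    exact squeeze_zero (fun n => norm_nonneg _) (hs' v hv) (hbd v)
  have hEun : Eu ≤ Eun P := by
    intro v hv
    change v ∈ Est P⁻¹
    rw [mem_Est, tendsto_zero_iff_norm_tendsto_zero]
    exact squeeze_zero (fun n => norm_nonneg _) (hu' v hv) (hbd v)
  have hE1 : Est P = Es := by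
    refine le_antisymm (fun v hv => ?_) hEst
    obtain ⟨s, hs1, u, hu1, rfl⟩ : ∃ s ∈ Es, ∃ u ∈ Eu, s + u = v := by
      have : v ∈ Es ⊔ Eu := by rw [hc.sup_eq_top]; trivial
      obtain ⟨s, hs1, u, hu1, h1⟩ := Submodule.mem_sup.1 this
      exact ⟨s, hs1, u, hu1, h1⟩
    have h1 : u ∈ Est P := by
      have := (Est P).sub_mem hv (hEst hs1)
      simpa using this
    rw [mem_Est, tendsto_zero_iff_norm_tendsto_zero] at h1
    have h2 : Tendsto (fun n : ℕ => C * μ ^ n * ‖(P ^ n) u‖) atTop (𝓝 0) := by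
      have := (hlim.const_mul C).mul h1
      simpa using this
    have h3 : ‖u‖ ≤ 0 := ge_of_tendsto' h2 fun n => by
      rw [pow_coe]
      exact hu u hu1 n
    rw [norm_le_zero_iff.1 h3, add_zero]
    exact hs1
  have hE2 : Eun P = Eu := by
    refine le_antisymm (fun v hv => ?_) hEun
    obtain ⟨s, hs1, u, hu1, rfl⟩ : ∃ s ∈ Es, ∃ u ∈ Eu, s + u = v := by
      have : v ∈ Es ⊔ Eu := by rw [hc.sup_eq_top]; trivial
      obtain ⟨s, hs1, u, hu1, h1⟩ := Submodule.mem_sup.1 this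
      exact ⟨s, hs1, u, hu1, h1⟩
    have h1 : s ∈ Eun P := by
      have := (Eun P).sub_mem hv (hEun hu1)
      simpa using this
    have h1' : Tendsto (fun n : ℕ => (P⁻¹ ^ n) s) atTop (𝓝 0) := h1
    -- the inverse preserves `Es`
    have hEs' : ∀ v ∈ Es, P⁻¹ v ∈ Es := by
      intro v hv
      let T : Es →ₗ[ℝ] Es := (P : V →ₗ[ℝ] V).restrict hEs
      have hT : Function.Injective T := by
        intro x y hxy
        apply Subtype.ext
        apply P.injective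
        exact congrArg Subtype.val hxy
      obtain ⟨⟨u, hu1⟩, hu2⟩ := (LinearMap.injective_iff_surjective.1 hT) ⟨v, hv⟩
      have h3 : P u = v := congrArg Subtype.val hu2
      have h4 : P⁻¹ v = u := by
        rw [← h3]
        exact P.symm_apply_apply u
      rw [h4]
      exact hu1
    have hEspow : ∀ n : ℕ, ∀ v ∈ Es, (P⁻¹ ^ n) v ∈ Es := by
      intro n
      induction n with
      | zero => exact fun v hv => hv
      | succ n ih =>
        intro v hv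
        rw [pow_succ]
        exact ih _ (hEs' v hv)
    rw [tendsto_zero_iff_norm_tendsto_zero] at h1'
    have h2 : Tendsto (fun n : ℕ => C * μ ^ n * ‖(P⁻¹ ^ n) s‖) atTop (𝓝 0) := by
      have := (hlim.const_mul C).mul h1'
      simpa using this
    have h3 : ‖s‖ ≤ 0 := ge_of_tendsto' h2 fun n => by
      have := hs' _ (hEspow n s hs1) n
      rwa [pow_inv_pow] at this
    rw [norm_le_zero_iff.1 h3, zero_add]
    exact hu1
  refine ⟨C, μ, hC, hμ0, hμ1, ?_, ?_, ?_⟩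
  · rw [hE1, hE2]
    exact hc
  · rw [hE1]
    exact hs'
  · rw [hE2]
    exact hu'

end LinBasic

theorem Hyp.isCompl [FiniteDimensional ℝ V] {P : V ≃L[ℝ] V} (h : Hyp P) :
    IsCompl (Est P) (Eun P) := by
  obtain ⟨C, μ, -, -, -, h1, -⟩ := LinBasic.data h
  exact h1

theorem Hyp.bound [FiniteDimensional ℝ V] {P : V ≃L[ℝ] V} (h : Hyp P) :
    ∃ C μ : ℝ, 0 < C ∧ 0 < μ ∧ μ < 1 ∧ (∀ v ∈ Est P, ∀ n : ℕ, ‖(P ^ n) v‖ ≤ C * μ ^ n * ‖v‖) ∧
      ∀ v ∈ Eun P, ∀ n : ℕ, ‖((P⁻¹) ^ n) v‖ ≤ C * μ ^ n * ‖v‖ := by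
  obtain ⟨C, μ, hC, h0, h1, -, h2, h3⟩ := LinBasic.data h
  exact ⟨C, μ, hC, h0, h1, h2, h3⟩

end Lin

end Pool.Agent.OmegaPS

end
end

section

/-!
# Real vectors of non-hyperbolic operators; colouring of the directions
-/

open Set Filter Topology Function

noncomputable section

namespace Pool.Agent.OmegaPS

open Pool.Agent.OmegaStab (HypLin)

namespace RealVec

section

variable {V : Type*} [NormedAddCommGroup V] [InnerProductSpace ℝ V]

lemma sc_mul_pow (s : ℝ) (P : V ≃L[ℝ] V) (j : ℕ) (v : V) :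
    ((sc s * P : V ≃L[ℝ] V) ^ j) v = Real.exp (s * j) • (P ^ j) v := by
  induction j with
  | zero =>
    rw [pow_zero, pow_zero, Nat.cast_zero, mul_zero, Real.exp_zero, one_smul]
  | succ j ih =>
    rw [pow_succ', pow_succ']
    show (sc s * P : V ≃L[ℝ] V) (((sc s * P : V ≃L[ℝ] V) ^ j) v) =
      Real.exp (s * ((j + 1 : ℕ) : ℝ)) • P ((P ^ j) v)
    rw [ih]
    show sc s (P (Real.exp (s * j) • (P ^ j) v)) = _
    rw [sc_apply, map_smul, smul_smul, ← Real.exp_add]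
    congr 2
    push_cast
    ring

/-- a linear map from `ℂ` which intertwines `T` with the multiplication by `lam`, `|lam| = 1`:
the powers of `T` are bounded below on its range -/
lemma lower [FiniteDimensional ℝ V] (T : V ≃L[ℝ] V) (φ : ℂ →ₗ[ℝ] V) (lam : ℂ) (hl : ‖lam‖ = 1)
    (h : ∀ z, T (φ z) = φ (lam * z)) :
    ∃ C : ℝ, 0 < C ∧ ∀ (j : ℕ) (z : ℂ), ‖(T ^ j) (φ z)‖ ≤ C * ‖z‖ ∧
      ‖φ z‖ ≤ C * ‖(T ^ j) (φ z)‖ := by
  have hpow : ∀ (j : ℕ) (z : ℂ), (T ^ j) (φ z) = φ (lam ^ j * z) := by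
    intro j
    induction j with
    | zero =>
      intro z
      rw [pow_zero, pow_zero, one_mul]
      rfl
    | succ j ih =>
      intro z
      rw [pow_succ']
      show T ((T ^ j) (φ z)) = _
      rw [ih, h, pow_succ', mul_assoc]
  obtain ⟨g, hg⟩ := LinearMap.exists_rightInverse_of_surjective φ.rangeRestrict
    (LinearMap.range_rangeRestrict φ)
  set gc : LinearMap.range φ →L[ℝ] ℂ := LinearMap.toContinuousLinearMap g with hgc
  set φc : ℂ →L[ℝ] V := LinearMap.toContinuousLinearMap φ with hφc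
  have hφb : ∀ z, ‖φ z‖ ≤ ‖φc‖ * ‖z‖ := fun z => φc.le_opNorm z
  have hgb : ∀ x, ‖g x‖ ≤ ‖gc‖ * ‖x‖ := fun x => gc.le_opNorm x
  have hl0 : lam ≠ 0 := by
    intro h0
    rw [h0, norm_zero] at hl
    exact zero_ne_one hl
  refine ⟨‖φc‖ * ‖gc‖ + ‖φc‖ + 1, by positivity, fun j z => ⟨?_, ?_⟩⟩
  · rw [hpow]
    refine (hφb _).trans ?_
    rw [norm_mul, norm_pow, hl, one_pow, one_mul]
    apply mul_le_mul_of_nonneg_right _ (norm_nonneg _)
    have : 0 ≤ ‖φc‖ * ‖gc‖ := by positivity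
    linarith
  · set x : LinearMap.range φ := ⟨φ (lam ^ j * z), ⟨_, rfl⟩⟩ with hx
    have h1 : φ (g x) = φ (lam ^ j * z) := by
      have h2 := LinearMap.congr_fun hg x
      have h3 := congrArg Subtype.val h2
      exact h3
    have h2 : (T ^ j) (φ ((lam ^ j)⁻¹ * g x)) = (T ^ j) (φ z) := by
      rw [hpow, hpow, ← mul_assoc, mul_inv_cancel₀ (pow_ne_zero _ hl0), one_mul]
      exact h1
    have h3 : φ ((lam ^ j)⁻¹ * g x) = φ z := (T ^ j).injective h2
    rw [← h3]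
    refine (hφb _).trans ?_
    rw [norm_mul, norm_inv, norm_pow, hl, one_pow, inv_one, one_mul]
    have h4 := hgb x
    have h5 : ‖x‖ = ‖(T ^ j) (φ z)‖ := by
      rw [hpow]
      rfl
    rw [h5] at h4
    rw [h3]
    have h6 := norm_nonneg ((T ^ j) (φ z))
    have h7 : ‖φc‖ * ‖g x‖ ≤ ‖φc‖ * (‖gc‖ * ‖(T ^ j) (φ z)‖) :=
      mul_le_mul_of_nonneg_left h4 (norm_nonneg _)
    have h8 : 0 ≤ ‖φc‖ * ‖(T ^ j) (φ z)‖ := by positivity
    nlinarith

lemma exists_equiv' [FiniteDimensional ℝ V] (T : V →L[ℝ] V)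
    (h : ‖T - ContinuousLinearMap.id ℝ V‖ < 1) : ∃ L : V ≃L[ℝ] V, (L : V →L[ℝ] V) = T := by
  have hinj : Function.Injective (T : V →ₗ[ℝ] V) := by
    rw [injective_iff_map_eq_zero]
    intro v hv
    have hv' : T v = 0 := hv
    by_contra hne
    have h1 := (T - ContinuousLinearMap.id ℝ V).le_opNorm v
    have h2 : (T - ContinuousLinearMap.id ℝ V) v = - v := by
      simp [hv']
    rw [h2, norm_neg] at h1
    have h3 : 0 < ‖v‖ := norm_pos_iff.2 hne
    nlinarith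
  refine ⟨(LinearEquiv.ofInjectiveEndo (T : V →ₗ[ℝ] V) hinj).toContinuousLinearEquiv, ?_⟩
  ext v
  rfl

end

end RealVec

open RealVec

section

variable {V : Type*} [NormedAddCommGroup V] [InnerProductSpace ℝ V]

theorem real_vector [FiniteDimensional ℝ V] {P : V ≃L[ℝ] V} {s : ℝ} (h : ¬ Hyp (sc s * P)) :
    ∃ (u : V) (c₀ C₀ : ℝ), 0 < c₀ ∧ ∀ j : ℕ, c₀ * Real.exp (-s * j) ≤ ‖(P ^ j) u‖ ∧
      ‖(P ^ j) u‖ ≤ C₀ * Real.exp (-s * j) := by
  unfold Hyp HypLin at h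
  push Not at h
  obtain ⟨θ, v, w, hv, hw, hvw⟩ := h
  set T : V ≃L[ℝ] V := sc s * P with hT
  set lam : ℂ := Complex.exp (θ * Complex.I) with hlam
  have hl : ‖lam‖ = 1 := Complex.norm_exp_ofReal_mul_I θ
  set φ : ℂ →ₗ[ℝ] V := OmegaStab.LinAux.pairMap v w with hφ
  have hint : ∀ z, T (φ z) = φ (lam * z) := by
    intro z
    refine OmegaStab.LinAux.pairMap_intertw ((T : V →L[ℝ] V) : Module.End ℝ V) v w lam ?_ ?_ z
    · rw [hlam, Complex.exp_ofReal_mul_I_re, Complex.exp_ofReal_mul_I_im]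
      exact hv
    · rw [hlam, Complex.exp_ofReal_mul_I_re, Complex.exp_ofReal_mul_I_im]
      exact hw
  have hz : ∃ z : ℂ, ‖z‖ = 1 ∧ φ z ≠ 0 := by
    by_cases h1 : v = 0
    · refine ⟨Complex.I, by simp, ?_⟩
      rw [hφ, OmegaStab.LinAux.pairMap_apply]
      simp only [Complex.I_re, Complex.I_im, zero_smul, one_smul, zero_sub, ne_eq, neg_eq_zero]
      exact hvw h1
    · refine ⟨1, by simp, ?_⟩
      rw [hφ, OmegaStab.LinAux.pairMap_apply]
      simpa using h1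
  obtain ⟨z, hz1, hz2⟩ := hz
  obtain ⟨C, hC, hb⟩ := lower T φ lam hl hint
  have hu : 0 < ‖φ z‖ := norm_pos_iff.2 hz2
  refine ⟨φ z, ‖φ z‖ / C, C, div_pos hu hC, fun j => ?_⟩
  have hPT : ‖(P ^ j) (φ z)‖ = Real.exp (-s * j) * ‖(T ^ j) (φ z)‖ := by
    rw [hT, sc_mul_pow, norm_smul, Real.norm_eq_abs, Real.abs_exp, ← mul_assoc, ← Real.exp_add]
    rw [show -s * (j:ℝ) + s * j = 0 by ring, Real.exp_zero, one_mul]
  obtain ⟨b1, b2⟩ := hb j z
  rw [hz1, mul_one] at b1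
  have he := Real.exp_pos (-s * j)
  rw [hPT]
  constructor
  · have h3 : ‖φ z‖ / C ≤ ‖(T ^ j) (φ z)‖ := by
      rw [div_le_iff₀ hC]
      linarith
    nlinarith
  · nlinarith

end

theorem direction_colouring (V : Type*) [NormedAddCommGroup V] [InnerProductSpace ℝ V]
    [FiniteDimensional ℝ V] {c : ℝ} (hc : 0 < c) (hc' : c ≤ 1 / 2) :
    ∃ (Q : ℕ) (dir : V → Fin Q), ∀ u u' : V, u ≠ 0 → u' ≠ 0 → dir u = dir u' →
      |Real.log ‖u‖ - Real.log ‖u'‖| ≤ c / 4 →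
      ∃ D : V ≃L[ℝ] V, Near c D ∧ D u' = u := by
  classical
  have : ProperSpace V := FiniteDimensional.proper ℝ V
  obtain ⟨t, -, htf, hcov⟩ := (isCompact_sphere (0 : V) 1).finite_cover_balls
    (show 0 < c / 8 by linarith)
  obtain ⟨t, rfl⟩ := htf.exists_finset_coe
  set F : V → Prop := fun u => ∃ x ∈ t, dist (‖u‖⁻¹ • u) x < c / 8 with hF
  have hFu : ∀ u : V, u ≠ 0 → F u := by
    intro u hu
    have h1 : ‖u‖⁻¹ • u ∈ Metric.sphere (0 : V) 1 := by
      rw [mem_sphere_zero_iff_norm, norm_smul, norm_inv, norm_norm,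
        inv_mul_cancel₀ (norm_ne_zero_iff.2 hu)]
    have h2 := hcov h1
    simp only [mem_iUnion, Metric.mem_ball] at h2
    obtain ⟨x, hx, hd⟩ := h2
    exact ⟨x, Finset.mem_coe.1 hx, hd⟩
  refine ⟨t.card + 1, fun u => if h : F u then
    (t.equivFin ⟨h.choose, h.choose_spec.1⟩).castSucc else Fin.last _, ?_⟩
  intro u u' hu hu' hdir hlog
  beta_reduce at hdir
  rw [dif_pos (hFu u hu), dif_pos (hFu u' hu')] at hdir
  have h1 := t.equivFin.injective (Fin.castSucc_injective _ hdir)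
  have h2 : (hFu u hu).choose = (hFu u' hu').choose := congrArg Subtype.val h1
  have d1 := (hFu u hu).choose_spec.2
  have d2 := (hFu u' hu').choose_spec.2
  rw [← h2] at d2
  have hd : ‖‖u‖⁻¹ • u - ‖u'‖⁻¹ • u'‖ ≤ c / 4 := by
    rw [← dist_eq_norm]
    have := dist_triangle_right (‖u‖⁻¹ • u) (‖u'‖⁻¹ • u') (hFu u hu).choose
    linarith
  have nu : 0 < ‖u‖ := norm_pos_iff.2 hu
  have nu' : 0 < ‖u'‖ := norm_pos_iff.2 hu'
  -- the quotient of the norms
  set ρ : ℝ := ‖u‖ / ‖u'‖ with hρ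
  have hρ0 : 0 < ρ := div_pos nu nu'
  have hlogρ : Real.log ρ = Real.log ‖u‖ - Real.log ‖u'‖ := Real.log_div nu.ne' nu'.ne'
  rw [← hlogρ, abs_le] at hlog
  have hρ1 : ρ ≤ 1 + c / 2 := by
    have e1 : ρ ≤ Real.exp (c / 4) := (Real.log_le_iff_le_exp hρ0).1 hlog.2
    have e2 : Real.exp (c / 4) ≤ 1 + c / 2 := by
      have e3 := Real.one_sub_le_exp_neg (c / 4)
      have e4 : Real.exp (-(c / 4)) * Real.exp (c / 4) = 1 := by
        rw [← Real.exp_add]; simp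
      have e5 := Real.exp_pos (c / 4)
      have e6 : (1 - c / 4) * Real.exp (c / 4) ≤ 1 :=
        (mul_le_mul_of_nonneg_right e3 e5.le).trans e4.le
      have e7 : (1:ℝ) ≤ (1 - c / 4) * (1 + c / 2) := by nlinarith
      have e8 : 0 < 1 - c / 4 := by linarith
      exact le_of_mul_le_mul_left (e6.trans e7) e8
    exact e1.trans e2
  have hρ2 : 1 - c / 4 ≤ ρ := by
    have e1 : Real.exp (-(c / 4)) ≤ ρ := (Real.le_log_iff_exp_le hρ0).1 hlog.1
    have e2 := Real.one_sub_le_exp_neg (c / 4)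
    linarith
  have hρ3 : |ρ - 1| ≤ c / 2 := abs_le.2 ⟨by linarith, by linarith⟩
  have hw : ‖u - u'‖ ≤ c * ‖u'‖ := by
    have e1 : u - u' = ‖u‖ • (‖u‖⁻¹ • u - ‖u'‖⁻¹ • u') + (ρ - 1) • u' := by
      rw [smul_sub, smul_smul, smul_smul, mul_inv_cancel₀ nu.ne', one_smul, sub_smul, one_smul,
        hρ, div_eq_mul_inv]
      abel
    rw [e1]
    refine (norm_add_le _ _).trans ?_
    rw [norm_smul, norm_smul, norm_norm, Real.norm_eq_abs]
    have e2 : ‖u‖ = ρ * ‖u'‖ := by rw [hρ]; field_simp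
    have e3 : ‖u‖ * ‖‖u‖⁻¹ • u - ‖u'‖⁻¹ • u'‖ ≤ ρ * ‖u'‖ * (c / 4) := by
      rw [← e2]
      exact mul_le_mul_of_nonneg_left hd nu.le
    have e4 : |ρ - 1| * ‖u'‖ ≤ c / 2 * ‖u'‖ := mul_le_mul_of_nonneg_right hρ3 nu'.le
    have e5 : ρ * ‖u'‖ * (c / 4) ≤ 5 / 4 * ‖u'‖ * (c / 4) := by
      have : ρ ≤ 5 / 4 := by linarith
      have h6 : 0 ≤ ‖u'‖ * (c / 4) := by positivity
      nlinarith
    nlinarith
  -- the operator
  set w : V := u - u' with hwd
  set K : V →L[ℝ] V := (innerSL ℝ u').smulRight ((‖u'‖ ^ 2)⁻¹ • w) with hK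
  have hKn : ‖K‖ ≤ c := by
    rw [hK, ContinuousLinearMap.norm_smulRight_apply, innerSL_apply_norm, norm_smul, norm_inv,
      norm_pow, norm_norm]
    have e1 : ‖u'‖ * ((‖u'‖ ^ 2)⁻¹ * ‖w‖) = ‖w‖ / ‖u'‖ := by
      field_simp
    rw [e1, div_le_iff₀ nu']
    exact hw
  have hT : ‖(ContinuousLinearMap.id ℝ V + K) - ContinuousLinearMap.id ℝ V‖ ≤ c := by
    rw [add_sub_cancel_left]
    exact hKn
  obtain ⟨L, hL⟩ := exists_equiv' (ContinuousLinearMap.id ℝ V + K)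
    (lt_of_le_of_lt hT (by linarith))
  refine ⟨L, ?_, ?_⟩
  · unfold Near
    rw [hL]
    exact hT
  · have h3 : L u' = (L : V →L[ℝ] V) u' := rfl
    rw [h3, hL, hK]
    simp only [add_apply, ContinuousLinearMap.coe_id', id_eq,
      ContinuousLinearMap.smulRight_apply, innerSL_apply_apply, real_inner_self_eq_norm_sq]
    rw [smul_smul, mul_inv_cancel₀ (pow_ne_zero _ nu'.ne'), one_smul, hwd]
    abel

end Pool.Agent.OmegaPS

end
end

section

/-!
# Products: approximate closed chains of vectors are small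
-/

open Set Filter Topology Function

noncomputable section

namespace Pool.Agent.OmegaPS

section Abstract

variable {X V : Type*} [NormedAddCommGroup V] [InnerProductSpace ℝ V]

theorem chain_solve [FiniteDimensional ℝ V] (S : Sys X V) {p : ℕ} (hp : 1 ≤ p) {C δ : ℝ} {n₀ : ℕ}
    (hC : 1 ≤ C) (hδ : 0 < δ) (h : ChainUH S p C δ n₀) :
    ∃ (C' : ℝ) (n₁ : ℕ), 0 < C' ∧ 1 ≤ n₁ ∧ ∀ (y : ZMod p → X) (n : ZMod p → ℕ)
      (D : ZMod p → V ≃L[ℝ] V), (∀ q, n₁ ≤ n q) →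
      (∀ q, S.Tr ((S.f ^ n q) (y q)) (y (q + 1)) (D q)) → ∀ (w : ZMod p → V) (b : ℝ),
        (∀ q, ‖w (q + 1) - D q (S.coc (n q) (y q) (w q))‖ ≤ b) → ∀ q, ‖w q‖ ≤ C' * b := by
  have : NeZero p := ⟨by omega⟩
  have hK := S.one_le_K
  set K := S.K with hKdef
  obtain ⟨N, hN⟩ := exists_nat_gt (2 * K * C / δ)
  refine ⟨3 * C, max (max n₀ 1) N, by positivity, le_max_of_le_left (le_max_right _ _), ?_⟩
  intro y n D hn hTr w b hb
  have hexp : ∀ q, K * C * Real.exp (-δ * (n q)) ≤ 1 / 2 := by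
    intro q
    have h1 : (N : ℝ) ≤ n q := by
      have : N ≤ n q := (le_max_right _ _).trans (hn q)
      exact_mod_cast this
    have h2 : 2 * K * C ≤ δ * n q := by
      rw [div_lt_iff₀ hδ] at hN
      nlinarith
    have h3 : δ * n q + 1 ≤ Real.exp (δ * n q) := Real.add_one_le_exp _
    have h4 : Real.exp (-δ * (n q)) = (Real.exp (δ * n q))⁻¹ := by
      rw [neg_mul, Real.exp_neg]
    rw [h4, ← div_eq_mul_inv, div_le_iff₀ (Real.exp_pos _)]
    linarith
  have hn₀ : ∀ q, n₀ ≤ n q := fun q => (le_max_left n₀ 1).trans ((le_max_left _ _).trans (hn q))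
  obtain ⟨Es, Eu, hcompl, hangle, hEs, hEu, hws, hwu⟩ := h y n D hn₀ hTr
  have hdec : ∀ q, ∃ s ∈ Es q, ∃ u ∈ Eu q, s + u = w q := by
    intro q
    have h1 : w q ∈ Es q ⊔ Eu q := by
      rw [(hcompl q).sup_eq_top]
      exact Submodule.mem_top
    exact Submodule.mem_sup.1 h1
  choose s hs u hu hsu using hdec
  have hDn : ∀ q v, ‖D q v‖ ≤ K * ‖v‖ := fun q v =>
    (D q : V →L[ℝ] V).le_of_opNorm_le (S.norm_Tr _ _ _ (hTr q)).1 v
  have hDn' : ∀ q v, ‖v‖ ≤ K * ‖D q v‖ := by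
    intro q v
    have h1 := ((D q)⁻¹ : V ≃L[ℝ] V).toContinuousLinearMap.le_of_opNorm_le
      (S.norm_Tr _ _ _ (hTr q)).2 (D q v)
    have h2 : ((D q)⁻¹ : V ≃L[ℝ] V).toContinuousLinearMap (D q v) = v := by
      change ((D q)⁻¹ * D q) v = v
      rw [inv_mul_cancel]
      rfl
    rw [h2] at h1
    exact h1
  have hcs : ∀ q, ‖D q (S.coc (n q) (y q) (s q))‖ ≤ 1 / 2 * ‖s q‖ := by
    intro q
    have h1 := hws q (s q) (hs q) 0 (n q) (Nat.zero_le _) le_rfl
    have h2 : S.coc 0 (y q) (s q) = s q := rfl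
    rw [h2] at h1
    have h3 : (((n q : ℕ) : ℝ) - ((0 : ℕ) : ℝ)) = n q := by simp
    rw [h3] at h1
    have h4 := hDn q (S.coc (n q) (y q) (s q))
    have h5 := hexp q
    calc ‖D q (S.coc (n q) (y q) (s q))‖ ≤ K * ‖S.coc (n q) (y q) (s q)‖ := h4
      _ ≤ K * (C * Real.exp (-δ * (n q)) * ‖s q‖) := by
          apply mul_le_mul_of_nonneg_left h1 (by linarith)
      _ = (K * C * Real.exp (-δ * (n q))) * ‖s q‖ := by ring
      _ ≤ 1 / 2 * ‖s q‖ := mul_le_mul_of_nonneg_right h5 (norm_nonneg _)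
  have hcu : ∀ q, ‖u q‖ ≤ 1 / 2 * ‖D q (S.coc (n q) (y q) (u q))‖ := by
    intro q
    have h1 := hwu q (u q) (hu q) 0 (n q) (Nat.zero_le _) le_rfl
    have h2 : S.coc 0 (y q) (u q) = u q := rfl
    rw [h2] at h1
    have h3 : (((n q : ℕ) : ℝ) - ((0 : ℕ) : ℝ)) = n q := by simp
    rw [h3] at h1
    have h4 := hDn' q (S.coc (n q) (y q) (u q))
    have h5 := hexp q
    have hpos : 0 ≤ C * Real.exp (-δ * (n q)) := by positivity
    calc ‖u q‖ ≤ C * Real.exp (-δ * (n q)) * ‖S.coc (n q) (y q) (u q)‖ := h1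
      _ ≤ C * Real.exp (-δ * (n q)) * (K * ‖D q (S.coc (n q) (y q) (u q))‖) :=
          mul_le_mul_of_nonneg_left h4 hpos
      _ = (K * C * Real.exp (-δ * (n q))) * ‖D q (S.coc (n q) (y q) (u q))‖ := by ring
      _ ≤ 1 / 2 * ‖D q (S.coc (n q) (y q) (u q))‖ :=
          mul_le_mul_of_nonneg_right h5 (norm_nonneg _)
  have hsplit : ∀ q, ‖s (q + 1) - D q (S.coc (n q) (y q) (s q))‖ ≤ C * b ∧
      ‖u (q + 1) - D q (S.coc (n q) (y q) (u q))‖ ≤ C * b := by
    intro q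
    have h1 : s (q + 1) - D q (S.coc (n q) (y q) (s q)) ∈ Es (q + 1) :=
      Submodule.sub_mem _ (hs _) (hEs q _ (hs q))
    have h2 : u (q + 1) - D q (S.coc (n q) (y q) (u q)) ∈ Eu (q + 1) :=
      Submodule.sub_mem _ (hu _) (hEu q _ (hu q))
    have h3 := hangle (q + 1) _ h1 _ h2
    have h4 : (s (q + 1) - D q (S.coc (n q) (y q) (s q))) +
        (u (q + 1) - D q (S.coc (n q) (y q) (u q))) =
        w (q + 1) - D q (S.coc (n q) (y q) (w q)) := by
      rw [← hsu q, ← hsu (q + 1), map_add, map_add]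
      abel
    rw [h4] at h3
    have h5 := mul_le_mul_of_nonneg_left (hb q) (show (0 : ℝ) ≤ C by linarith)
    exact ⟨h3.1.trans h5, h3.2.trans h5⟩
  obtain ⟨qs, -, hqs⟩ := Finset.exists_max_image (Finset.univ : Finset (ZMod p))
    (fun q => ‖s q‖) ⟨0, Finset.mem_univ _⟩
  obtain ⟨qu, -, hqu⟩ := Finset.exists_max_image (Finset.univ : Finset (ZMod p))
    (fun q => ‖u q‖) ⟨0, Finset.mem_univ _⟩
  have hsb : ∀ q, ‖s q‖ ≤ 2 * (C * b) := by
    have h1 := (hsplit (qs - 1)).1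
    rw [sub_add_cancel] at h1
    have h2 := hcs (qs - 1)
    have h3 : ‖s (qs - 1)‖ ≤ ‖s qs‖ := hqs (qs - 1) (Finset.mem_univ _)
    have h4 : ‖s qs‖ ≤ ‖s qs - D (qs - 1) (S.coc (n (qs - 1)) (y (qs - 1)) (s (qs - 1)))‖ +
        ‖D (qs - 1) (S.coc (n (qs - 1)) (y (qs - 1)) (s (qs - 1)))‖ := by
      have := norm_add_le (s qs - D (qs - 1) (S.coc (n (qs - 1)) (y (qs - 1)) (s (qs - 1))))
        (D (qs - 1) (S.coc (n (qs - 1)) (y (qs - 1)) (s (qs - 1))))
      rwa [sub_add_cancel] at this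
    intro q
    have h5 : ‖s q‖ ≤ ‖s qs‖ := hqs q (Finset.mem_univ _)
    linarith
  have hub : ∀ q, ‖u q‖ ≤ C * b := by
    have h1 := (hsplit qu).2
    have h2 := hcu qu
    have h3 : ‖u (qu + 1)‖ ≤ ‖u qu‖ := hqu (qu + 1) (Finset.mem_univ _)
    have h4 : ‖D qu (S.coc (n qu) (y qu) (u qu))‖ ≤
        ‖u (qu + 1)‖ + ‖u (qu + 1) - D qu (S.coc (n qu) (y qu) (u qu))‖ := by
      have := norm_sub_le (u (qu + 1)) (u (qu + 1) - D qu (S.coc (n qu) (y qu) (u qu)))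
      rwa [sub_sub_cancel] at this
    intro q
    have h5 : ‖u q‖ ≤ ‖u qu‖ := hqu q (Finset.mem_univ _)
    linarith
  intro q
  have h1 := norm_add_le (s q) (u q)
  rw [hsu q] at h1
  have h2 := hsb q
  have h3 := hub q
  linarith

end Abstract

end Pool.Agent.OmegaPS

end
end

section

/-!
# Basic properties of cocycles, paths and words
-/

open Set Filter Topology Function

noncomputable section

namespace Pool.Agent.OmegaPS

open Pool.Agent.OmegaStab (HypLin)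

namespace SysBasic

variable {V : Type*} [NormedAddCommGroup V] [InnerProductSpace ℝ V]

theorem sc_zero : (sc 0 : V ≃L[ℝ] V) = 1 := by
  ext v
  rw [sc_apply, Real.exp_zero, one_smul]
  rfl

theorem sc_add (s t : ℝ) : (sc (s + t) : V ≃L[ℝ] V) = sc s * sc t := by
  ext v
  change Real.exp (s + t) • v = Real.exp s • (Real.exp t • v)
  rw [smul_smul, Real.exp_add]

theorem sc_comm (s : ℝ) (P : V ≃L[ℝ] V) : sc s * P = P * sc s := by
  ext v
  change Real.exp s • P v = P (Real.exp s • v)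
  rw [map_smul]

theorem norm_mul_le' (P Q : V ≃L[ℝ] V) :
    ‖((P * Q : V ≃L[ℝ] V) : V →L[ℝ] V)‖ ≤ ‖(P : V →L[ℝ] V)‖ * ‖(Q : V →L[ℝ] V)‖ :=
  (P : V →L[ℝ] V).opNorm_comp_le (Q : V →L[ℝ] V)

theorem norm_one_le' : ‖((1 : V ≃L[ℝ] V) : V →L[ℝ] V)‖ ≤ 1 := ContinuousLinearMap.norm_id_le

end SysBasic

section Abstract

variable {X V : Type*} [NormedAddCommGroup V] [InnerProductSpace ℝ V]

theorem Sys.coc_add (S : Sys X V) (m n : ℕ) (y : X) :
    S.coc (m + n) y = S.coc n ((S.f ^ m) y) * S.coc m y := by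
  induction m generalizing y with
  | zero =>
    rw [Nat.zero_add, pow_zero]
    exact (mul_one _).symm
  | succ m ih =>
    have e : m + 1 + n = (m + n) + 1 := by omega
    rw [e]
    change S.coc (m + n) (S.f y) * S.a y = _
    rw [ih (S.f y), pow_succ, Equiv.Perm.mul_apply, mul_assoc]
    rfl

theorem Sys.norm_coc (S : Sys X V) (n : ℕ) (y : X) : ‖(S.coc n y : V →L[ℝ] V)‖ ≤ S.K ^ n := by
  have hK : 0 ≤ S.K := zero_le_one.trans S.one_le_K
  induction n generalizing y with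
  | zero =>
    rw [pow_zero]
    exact SysBasic.norm_one_le'
  | succ n ih =>
    change ‖((S.coc n (S.f y) * S.a y : V ≃L[ℝ] V) : V →L[ℝ] V)‖ ≤ _
    refine (SysBasic.norm_mul_le' _ _).trans ?_
    rw [pow_succ]
    exact mul_le_mul (ih _) (S.norm_a y) (norm_nonneg _) (pow_nonneg hK n)

theorem Sys.norm_coc_inv (S : Sys X V) (n : ℕ) (y : X) :
    ‖((S.coc n y)⁻¹ : V ≃L[ℝ] V).toContinuousLinearMap‖ ≤ S.K ^ n := by
  have hK : 0 ≤ S.K := zero_le_one.trans S.one_le_K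
  induction n generalizing y with
  | zero =>
    rw [pow_zero]
    have e : (S.coc 0 y)⁻¹ = 1 := inv_one
    rw [e]
    exact SysBasic.norm_one_le'
  | succ n ih =>
    have e : (S.coc (n + 1) y)⁻¹ = (S.a y)⁻¹ * (S.coc n (S.f y))⁻¹ := by
      change (S.coc n (S.f y) * S.a y)⁻¹ = _
      rw [mul_inv_rev]
    rw [e]
    refine (SysBasic.norm_mul_le' _ _).trans ?_
    rw [pow_succ, mul_comm]
    exact mul_le_mul (ih _) (S.norm_a' y) (norm_nonneg _) (pow_nonneg hK n)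

theorem Sys.coc_scale (S : Sys X V) (η : ℝ) (n : ℕ) (y : X) :
    (S.scale η).coc n y = sc (η * n) * S.coc n y := by
  induction n generalizing y with
  | zero =>
    rw [Nat.cast_zero, mul_zero, SysBasic.sc_zero, one_mul]
    rfl
  | succ n ih =>
    change (S.scale η).coc n (S.f y) * (sc η * S.a y) = sc (η * ((n + 1 : ℕ) : ℝ)) *
      (S.coc n (S.f y) * S.a y)
    rw [ih (S.f y)]
    have e : η * ((n + 1 : ℕ) : ℝ) = η * n + η := by
      push_cast
      ring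
    rw [e, SysBasic.sc_add, mul_assoc, mul_assoc, ← mul_assoc (S.coc n (S.f y)),
      ← SysBasic.sc_comm, mul_assoc]

theorem Path.mono {S : Sys X V} {ι : Type*} {τ : ι → Trans X V} {m m' : ℕ} (hm : m ≤ m')
    {i j : ι} {n : ℕ} {M : V ≃L[ℝ] V} (h : Path S τ m' i j n M) : Path S τ m i j n M := by
  induction h with
  | stage n hn h => exact Path.stage n (hm.trans hn) h
  | comp _ _ ih ih' => exact Path.comp ih ih'

theorem Star.mono {S : Sys X V} {m m' k k' : ℕ} (h : Star S m k) (hm : m ≤ m') (hk : k' ≤ k) :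
    Star S m' k' := by
  intro ι _ hι τ hτ i n M hP
  exact h ι (hι.trans hk) τ hτ i n M (hP.mono hm)

theorem Path.map {S : Sys X V} {ι ι' : Type*} {τ : ι → Trans X V} {τ' : ι' → Trans X V}
    (e : ι → ι') (he : ∀ i, τ' (e i) = τ i) {m : ℕ} {i j : ι} {n : ℕ} {M : V ≃L[ℝ] V}
    (h : Path S τ m i j n M) : Path S τ' m (e i) (e j) n M := by
  induction h with
  | @stage i j n hn h =>
    have h1 := Path.stage (S := S) (τ := τ') (i := e i) (j := e j) n hn (by rw [he, he]; exact h)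
    rwa [he] at h1
  | @comp i j l n n' M M' _ _ ih ih' =>
    have h1 := Path.comp ih ih'
    rwa [he] at h1

theorem path_scale_iff {S : Sys X V} {η : ℝ} {ι : Type*} {τ : ι → Trans X V} {m : ℕ} {i j : ι}
    {n : ℕ} {M : V ≃L[ℝ] V} :
    Path (S.scale η) τ m i j n (sc (η * n) * M) ↔ Path S τ m i j n M := by
  have key : ∀ (n n' : ℕ) (M M' T : V ≃L[ℝ] V),
      sc (η * ((n + n' : ℕ) : ℝ)) * (M' * T * M) = (sc (η * n') * M') * T * (sc (η * n) * M) := by
    intro n n' M M' T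
    have e : η * ((n + n' : ℕ) : ℝ) = η * n' + η * n := by
      push_cast
      ring
    have c1 : sc (η * n) * (M' * T) = M' * T * sc (η * n) := SysBasic.sc_comm _ _
    calc sc (η * ((n + n' : ℕ) : ℝ)) * (M' * T * M)
        = sc (η * n') * (sc (η * n) * (M' * T)) * M := by
          rw [e, SysBasic.sc_add]
          simp only [mul_assoc]
      _ = (sc (η * n') * M') * T * (sc (η * n) * M) := by
          rw [c1]
          simp only [mul_assoc]
  constructor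
  · intro h
    have ha : ∀ {i j : ι} {n : ℕ} {M' : V ≃L[ℝ] V}, Path (S.scale η) τ m i j n M' →
        ∃ M, M' = sc (η * n) * M ∧ Path S τ m i j n M := by
      intro i j n M' h
      induction h with
      | stage n hn h => exact ⟨_, Sys.coc_scale S η n _, Path.stage n hn h⟩
      | @comp i j l n n' M M' _ _ ih ih' =>
        obtain ⟨M1, e1, h1⟩ := ih
        obtain ⟨M2, e2, h2⟩ := ih'
        refine ⟨M2 * (τ j).mat * M1, ?_, Path.comp h1 h2⟩
        rw [e1, e2, key]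
    obtain ⟨M1, e1, h1⟩ := ha h
    rwa [mul_left_cancel e1]
  · intro h
    induction h with
    | stage n hn h =>
      rw [← Sys.coc_scale]
      exact Path.stage (S := S.scale η) n hn h
    | @comp i j l n n' M M' _ _ ih ih' =>
      rw [key]
      exact Path.comp ih ih'

theorem Path.stage' {S : Sys X V} {ι : Type*} {τ : ι → Trans X V} {m : ℕ} {i j : ι} {n : ℕ}
    {x y : X} (hn : m ≤ n) (hx : (τ i).tgt = x) (hy : (τ j).src = y) (h : (S.f ^ n) x = y) :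
    Path S τ m i j n (S.coc n x) := by
  subst hx
  subst hy
  exact Path.stage n hn h

theorem Word.comp {S : Sys X V} {ι : Type*} {τ : ι → Trans X V} {m : ℕ} {p i j q : ι}
    {n n' n'' : ℕ} {M B M' : V ≃L[ℝ] V} (h : Path S τ m p i n M) (hw : Word S τ m i j n' B)
    (h' : Path S τ m j q n'' M') : Path S τ m p q (n + n' + n'') (M' * B * M) := by
  rcases hw with ⟨rfl, rfl, rfl⟩ | ⟨M1, h1, rfl⟩
  · exact Path.comp h h'
  · have h2 := Path.comp (Path.comp h h1) h'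
    have e : M' * ((τ j).mat * M1 * (τ i).mat) * M = M' * (τ j).mat * (M1 * (τ i).mat * M) := by
      simp only [mul_assoc]
    rw [e]
    exact h2

end Abstract

end Pool.Agent.OmegaPS

end
end

section

/-!
# MP_814647_an, item 10 (helper40): good points on a path
-/

open Set Filter Topology Function

noncomputable section

namespace Pool.Agent.OmegaPS

section Abstract

variable {X V : Type*} [NormedAddCommGroup V] [InnerProductSpace ℝ V]

/-! AB3 : the gap -/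
theorem good_family (S : Sys X V) {m : ℕ} (hm : 1 ≤ m) {ι : Type} {τ : ι → Trans X V} {i j : ι}
    {n : ℕ} {M : V ≃L[ℝ] V} (h : Path S τ (4 * m) i j n M) :
    ∃ (K : ℕ) (x : Fin K → X) (A : Fin K → V ≃L[ℝ] V), n ≤ 2 * m * K ∧
      ∀ (ι' : Type) (τ' : ι' → Trans X V) (e : ι → ι'), (∀ i, τ' (e i) = τ i) →
        (∀ b r, (τ' b).src = x r → ∃ t, Path S τ' m (e i) b t (A r)) ∧
        (∀ a r, (τ' a).tgt = x r → ∃ t, Path S τ' m a (e j) t (M * (A r)⁻¹)) ∧
        ∀ a b r s, r < s → (τ' a).tgt = x r → (τ' b).src = x s →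
          ∃ t, Path S τ' m a b t (A s * (A r)⁻¹) := by
  induction h with
  | @stage i j n hn h =>
    have hq : 4 ≤ n / m := by
      rw [Nat.le_div_iff_mul_le (by omega)]
      exact hn
    have hdiv : n / m * m ≤ n := Nat.div_mul_le_self n m
    have hK : ∀ r : Fin (n / m - 1), (r.1 + 1) * m + m ≤ n := by
      intro r
      have h1 : r.1 + 1 + 1 ≤ n / m := by omega
      calc (r.1 + 1) * m + m = (r.1 + 1 + 1) * m := by ring
        _ ≤ n / m * m := Nat.mul_le_mul_right m h1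
        _ ≤ n := hdiv
    have hm' : ∀ r : Fin (n / m - 1), m ≤ (r.1 + 1) * m := by
      intro r
      nlinarith
    refine ⟨n / m - 1, fun r => (S.f ^ ((r.1 + 1) * m)) (τ i).tgt,
      fun r => S.coc ((r.1 + 1) * m) (τ i).tgt, ?_, ?_⟩
    · have h1 : n < m * (n / m + 1) := Nat.lt_mul_div_succ n (by omega)
      obtain ⟨q, hq'⟩ : ∃ q, n / m = q + 4 := ⟨n / m - 4, by omega⟩
      rw [hq'] at h1 ⊢
      have h2 : q + 4 - 1 = q + 3 := by omega
      rw [h2]
      nlinarith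
    · intro ι' τ' e he
      refine ⟨?_, ?_, ?_⟩
      · intro b r hb
        exact ⟨(r.1 + 1) * m, Path.stage' (hm' r) (by rw [he]) hb rfl⟩
      · intro a r ha
        have h1 : (r.1 + 1) * m + (n - (r.1 + 1) * m) = n := by
          have := hK r
          omega
        refine ⟨n - (r.1 + 1) * m, ?_⟩
        have h2 : S.coc n (τ i).tgt * (S.coc ((r.1 + 1) * m) (τ i).tgt)⁻¹ =
            S.coc (n - (r.1 + 1) * m) ((S.f ^ ((r.1 + 1) * m)) (τ i).tgt) := by
          have h3 := Sys.coc_add S ((r.1 + 1) * m) (n - (r.1 + 1) * m) (τ i).tgt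
          rw [h1] at h3
          rw [h3, mul_inv_cancel_right]
        show Path S τ' m a (e j) (n - (r.1 + 1) * m)
          (S.coc n (τ i).tgt * (S.coc ((r.1 + 1) * m) (τ i).tgt)⁻¹)
        rw [h2]
        refine Path.stage' ?_ ha rfl ?_
        · have := hK r
          omega
        · rw [he, ← h, ← Equiv.Perm.mul_apply, ← pow_add]
          congr 2
          omega
      · intro a b r s hrs ha hb
        have hrs' : r.1 < s.1 := hrs
        obtain ⟨d, hd⟩ : ∃ d, s.1 = r.1 + 1 + d := ⟨s.1 - r.1 - 1, by omega⟩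
        have h1 : (s.1 + 1) * m = (r.1 + 1) * m + (d + 1) * m := by
          rw [hd]
          ring
        refine ⟨(d + 1) * m, ?_⟩
        have h2 : S.coc ((s.1 + 1) * m) (τ i).tgt * (S.coc ((r.1 + 1) * m) (τ i).tgt)⁻¹ =
            S.coc ((d + 1) * m) ((S.f ^ ((r.1 + 1) * m)) (τ i).tgt) := by
          rw [h1, Sys.coc_add, mul_inv_cancel_right]
        show Path S τ' m a b ((d + 1) * m)
          (S.coc ((s.1 + 1) * m) (τ i).tgt * (S.coc ((r.1 + 1) * m) (τ i).tgt)⁻¹)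
        rw [h2]
        refine Path.stage' ?_ ha hb ?_
        · nlinarith
        · show (S.f ^ ((d + 1) * m)) ((S.f ^ ((r.1 + 1) * m)) (τ i).tgt) =
            (S.f ^ ((s.1 + 1) * m)) (τ i).tgt
          rw [h1, ← Equiv.Perm.mul_apply, ← pow_add]
          congr 2
          ring
  | @comp i j l n n' M M' hp hp' ih ih' =>
    obtain ⟨K₁, x₁, A₁, hK₁, h₁⟩ := ih
    obtain ⟨K₂, x₂, A₂, hK₂, h₂⟩ := ih'
    refine ⟨K₁ + K₂, Fin.append x₁ x₂, Fin.append A₁ (fun r => A₂ r * (τ j).mat * M), ?_, ?_⟩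
    · nlinarith
    · intro ι' τ' e he
      obtain ⟨a₁, b₁, c₁⟩ := h₁ ι' τ' e he
      obtain ⟨a₂, b₂, c₂⟩ := h₂ ι' τ' e he
      have q₁ : Path S τ' m (e i) (e j) n M := Path.map e he (Path.mono (by omega) hp)
      have q₂ : Path S τ' m (e j) (e l) n' M' := Path.map e he (Path.mono (by omega) hp')
      refine ⟨?_, ?_, ?_⟩
      · intro b r
        refine Fin.addCases (fun r hb => ?_) (fun r hb => ?_) r
        · rw [Fin.append_left] at hb ⊢
          exact a₁ b r hb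
        · rw [Fin.append_right] at hb ⊢
          obtain ⟨t, ht⟩ := a₂ b r hb
          have h3 := Path.comp q₁ ht
          rw [he] at h3
          exact ⟨_, h3⟩
      · intro a r
        refine Fin.addCases (fun r ha => ?_) (fun r ha => ?_) r
        · rw [Fin.append_left] at ha ⊢
          obtain ⟨t, ht⟩ := b₁ a r ha
          have h3 := Path.comp ht q₂
          rw [he] at h3
          refine ⟨t + n', ?_⟩
          convert h3 using 1
          simp only [mul_assoc]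
        · rw [Fin.append_right] at ha ⊢
          obtain ⟨t, ht⟩ := b₂ a r ha
          refine ⟨t, ?_⟩
          convert ht using 1
          simp only [mul_inv_rev, mul_assoc, mul_inv_cancel_left]
      · intro a b r s
        refine Fin.addCases (fun r => ?_) (fun r => ?_) r <;>
          refine Fin.addCases (fun s => ?_) (fun s => ?_) s <;> intro hrs ha hb
        · rw [Fin.append_left] at ha hb ⊢
          rw [Fin.append_left]
          exact c₁ a b r s (by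
            rw [Fin.lt_def] at hrs ⊢
            simpa using hrs) ha hb
        · rw [Fin.append_left] at ha
          rw [Fin.append_right] at hb
          rw [Fin.append_right, Fin.append_left]
          obtain ⟨t, ht⟩ := b₁ a r ha
          obtain ⟨t', ht'⟩ := a₂ b s hb
          have h3 := Path.comp ht ht'
          rw [he] at h3
          refine ⟨t + t', ?_⟩
          convert h3 using 1
          simp only [mul_assoc]
        · exfalso
          rw [Fin.lt_def] at hrs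
          simp at hrs
          omega
        · rw [Fin.append_right] at ha hb ⊢
          rw [Fin.append_right]
          obtain ⟨t, ht⟩ := c₂ a b r s (by
            rw [Fin.lt_def] at hrs ⊢
            simpa using hrs) ha hb
          refine ⟨t, ?_⟩
          convert ht using 1
          simp only [mul_inv_rev, mul_assoc, mul_inv_cancel_left]

end Abstract

end Pool.Agent.OmegaPS

end
end

section

/-!
# Periodic horseshoe with several transit maps
-/

open Set Filter Topology Function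
open scoped Manifold ContDiff

noncomputable section

namespace Pool.Agent.OmegaStab

open Cone

namespace LocHyp

variable {Xs Xu : Type*} [NormedAddCommGroup Xs] [NormedSpace ℝ Xs]
  [NormedAddCommGroup Xu] [NormedSpace ℝ Xu] [FiniteDimensional ℝ Xs] [FiniteDimensional ℝ Xu]
  {G : Xs × Xu → Xs × Xu} {As : Xs →L[ℝ] Xs} {Au : Xu ≃L[ℝ] Xu} {ρ : ℝ}

/-- One transit map, brought into cross form. -/
theorem horsePer_transit (h : LocHyp G As Au ρ)
    {Ω : Set (Xs × Xu)} (hΩ : IsOpen Ω) (hball : Metric.closedBall 0 ρ ⊆ Ω)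
    (hC : ContDiffOn ℝ 1 G Ω) (b a : ℕ → Xs × Xu) (hb : ∀ n, ‖b n‖ < ρ)
    (hGb : ∀ n, G (b n) = b (n + 1)) (ha : ∀ n, ‖a n‖ < ρ) (hGa : ∀ n, G (a (n + 1)) = a n)
    (T : Xs × Xu → Xs × Xu) (hT : ContDiffAt ℝ 1 T (a 0)) (hTab : T (a 0) = b 0)
    (htr : ∀ v ∈ bwdBdd G a, fderiv ℝ T (a 0) v ∈ fwdBdd G b → v = 0)
    {ε : ℝ} (hε : 0 < ε) :
    ∃ K K' : ℕ, 1 ≤ K ∧ 1 ≤ K' ∧ ∃ r₁ : ℝ, 0 < r₁ ∧ ∀ r, 0 < r → r ≤ r₁ →
      CrossStep (fun y => G^[K] (T (G^[K'] y))) (a K') (b K) r ∧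
      ∀ y : Xs × Xu, ‖y - a K'‖ ≤ r →
        (∀ i ≤ K', ‖G^[i] y‖ ≤ ρ ∧ ‖G^[i] y - a (K' - i)‖ ≤ ε) ∧
        (∀ i ≤ K, ‖G^[i] (T (G^[K'] y))‖ ≤ ρ ∧ ‖G^[i] (T (G^[K'] y)) - b i‖ ≤ ε) := by
  have hρ := h.rho_pos
  have hcs : CompleteSpace Xs := FiniteDimensional.complete ℝ Xs
  have hcu : CompleteSpace Xu := FiniteDimensional.complete ℝ Xu
  have hstrict : ∀ x : Xs × Xu, ‖x‖ < ρ → HasStrictFDerivAt G (fderiv ℝ G x) x := by
    intro x hx
    exact (hC.contDiffAt (hΩ.mem_nhds (hball (by simpa using hx.le)))).hasStrictFDerivAt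
      (by norm_num)
  -- the cone constants
  obtain ⟨K', hK'1, hK'⟩ := h.stage1 hΩ hball hC b a ha (fderiv ℝ T (a 0)) htr
  set R : Xs × Xu →L[ℝ] Xs × Xu :=
    (fderiv ℝ T (a 0)).comp (cocyc G (fun i => a (K' - i)) K') with hR
  obtain ⟨K₀, hK₀⟩ := h.stage2 hΩ hball hC b hb R (fun v hv hv2 => hK' v hv hv2)
  obtain ⟨K₁, hK₁⟩ : ∃ K₁ : ℕ, (1 / 4 : ℝ) ^ K₁ * ‖R‖ ≤ 1 / 2 := by
    have h1 : Tendsto (fun K : ℕ => (1 / 4 : ℝ) ^ K * ‖R‖) atTop (𝓝 0) := by
      have := (tendsto_pow_atTop_nhds_zero_of_lt_one (r := (1 / 4 : ℝ)) (by norm_num)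
        (by norm_num)).mul_const ‖R‖
      simpa using this
    obtain ⟨K₁, hK₁⟩ := (h1.eventually (gt_mem_nhds (show (0 : ℝ) < 1 / 2 by norm_num))).exists
    exact ⟨K₁, hK₁.le⟩
  set K : ℕ := max (max K₀ K₁) 1 with hKdef
  have hK1 : 1 ≤ K := le_max_right _ _
  have hKK₀ : K₀ ≤ K := (le_max_left _ _).trans (le_max_left _ _)
  have hKK₁ : K₁ ≤ K := (le_max_right _ _).trans (le_max_left _ _)
  have hKR : (1 / 4 : ℝ) ^ K * ‖R‖ ≤ 1 / 2 :=
    (mul_le_mul_of_nonneg_right (pow_le_pow_of_le_one (by norm_num) (by norm_num) hKK₁)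
      (norm_nonneg _)).trans hK₁
  set L : Xs × Xu →L[ℝ] Xs × Xu := (cocyc G b K).comp R with hLdef
  have hL : ∀ v, ‖v.2‖ ≤ 1 / 2 * max ‖v.1‖ ‖(L v).2‖ ∧
      ‖(L v).1‖ ≤ 1 / 2 * max ‖v.1‖ ‖(L v).2‖ := by
    intro v
    have h1 : ‖v.2‖ ≤ 1 / 2 * max ‖v.1‖ ‖(L v).2‖ := by
      rcases le_or_gt ‖v.1‖ (2 * ‖v.2‖) with hc | hc
      · have := hK₀ K hKK₀ v hc
        have h2 : ‖(L v).2‖ ≤ max ‖v.1‖ ‖(L v).2‖ := le_max_right _ _
        have h3 : (cocyc G b K) (R v) = L v := rfl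
        rw [h3] at this
        linarith
      · have h2 : ‖v.1‖ ≤ max ‖v.1‖ ‖(L v).2‖ := le_max_left _ _
        linarith
    refine ⟨h1, ?_⟩
    have hM0 : 0 ≤ max ‖v.1‖ ‖(L v).2‖ := le_max_of_le_left (norm_nonneg _)
    have h2 : ‖v‖ ≤ max ‖v.1‖ ‖(L v).2‖ :=
      norm_le_of (le_max_left _ _) (by linarith)
    have h3 := chain_end (d := fun m => cocyc G b m (R v)) hK1
      (fun m _ => h.step_cocyc hΩ hball hC hb (R v) m)
    have h4 : (cocyc G b K) (R v) = L v := rfl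
    simp only [h4, cocyc_zero] at h3
    refine h3.trans (max_le ?_ ?_)
    · calc (1 / 4) ^ K * ‖R v‖ ≤ (1 / 4) ^ K * (‖R‖ * ‖v‖) := by
            gcongr; exact R.le_opNorm v
        _ = ((1 / 4) ^ K * ‖R‖) * ‖v‖ := by ring
        _ ≤ 1 / 2 * max ‖v.1‖ ‖(L v).2‖ := mul_le_mul hKR h2 (norm_nonneg _) (by norm_num)
    · have : ‖(L v).2‖ ≤ max ‖v.1‖ ‖(L v).2‖ := le_max_right _ _
      linarith
  obtain ⟨F, hF⟩ := exists_cross L hL
  -- the transition map
  have hGa' : ∀ i < K', G (a (K' - i)) = a (K' - (i + 1)) := by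
    intro i hi
    rw [show K' - i = (K' - (i + 1)) + 1 by omega]; exact hGa _
  have hQi : ∀ i ≤ K', HasStrictFDerivAt (G^[i]) (cocyc G (fun i => a (K' - i)) i) (a K') ∧
      G^[i] (a K') = a (K' - i) := by
    intro i hi
    have h1 := hasStrictFDerivAt_iterate (G := G) (x := fun i => a (K' - i)) (n := i)
      (fun k hk => hGa' k (by omega)) (fun k _ => hstrict _ (ha _))
    have h2 := iterate_eq (G := G) (x := fun i => a (K' - i)) (n := i)
      (fun k hk => hGa' k (by omega))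
    exact ⟨h1, h2⟩
  have hPi : ∀ i, HasStrictFDerivAt (G^[i]) (cocyc G b i) (b 0) ∧ G^[i] (b 0) = b i := by
    intro i
    exact ⟨hasStrictFDerivAt_iterate (fun k _ => hGb k) (fun k _ => hstrict _ (hb _)),
      iterate_eq (fun k _ => hGb k)⟩
  have hTs : HasStrictFDerivAt T (fderiv ℝ T (a 0)) (a 0) := hT.hasStrictFDerivAt (by norm_num)
  have hTQ : HasStrictFDerivAt (fun y => T (G^[K'] y)) R (a K') := by
    have h1 : G^[K'] (a K') = a 0 := by rw [(hQi K' le_rfl).2, Nat.sub_self]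
    refine HasStrictFDerivAt.comp (a K') ?_ (hQi K' le_rfl).1
    rw [h1]; exact hTs
  have hTQ0 : T (G^[K'] (a K')) = b 0 := by
    rw [(hQi K' le_rfl).2, Nat.sub_self, hTab]
  let T1 : Xs × Xu → Xs × Xu := fun y => G^[K] (T (G^[K'] y))
  have hT1 : HasStrictFDerivAt T1 L (a K') := by
    refine HasStrictFDerivAt.comp (a K') (g := G^[K]) (f := fun y => T (G^[K'] y)) ?_ hTQ
    rw [hTQ0]; exact (hPi K).1
  have hT1a : T1 (a K') = b K := by
    simp only [T1, hTQ0]; exact (hPi K).2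
  -- the radius
  obtain ⟨s, hs, hs2⟩ := hT1.approximates_deriv_on_nhds (c := 1 / 8) (Or.inr (by norm_num))
  have hev1 : ∀ᶠ y in 𝓝 (a K'), ∀ i ∈ Set.Iic K',
      ‖G^[i] y‖ ≤ ρ ∧ ‖G^[i] y - a (K' - i)‖ ≤ ε := by
    rw [Filter.eventually_all_finite (Set.finite_Iic K')]
    intro i hi
    have h0 : ContinuousAt (G^[i]) (a K') := (hQi i hi).1.continuousAt
    have h1 : ContinuousAt (fun y => ‖G^[i] y‖) (a K') := h0.norm
    have h2 : ‖G^[i] (a K')‖ < ρ := by rw [(hQi i hi).2]; exact ha _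
    have h3 : ContinuousAt (fun y => ‖G^[i] y - a (K' - i)‖) (a K') :=
      (h0.sub continuousAt_const).norm
    have h4 : ‖G^[i] (a K') - a (K' - i)‖ < ε := by
      rw [(hQi i hi).2, sub_self, norm_zero]; exact hε
    filter_upwards [h1.eventually (gt_mem_nhds h2), h3.eventually (gt_mem_nhds h4)] with y h5 h6
    exact ⟨h5.le, h6.le⟩
  have hev4 : ∀ᶠ y in 𝓝 (a K'), ∀ i ∈ Set.Iic K,
      ‖G^[i] (T (G^[K'] y))‖ ≤ ρ ∧ ‖G^[i] (T (G^[K'] y)) - b i‖ ≤ ε := by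
    rw [Filter.eventually_all_finite (Set.finite_Iic K)]
    intro i hi
    have h0 : ContinuousAt (G^[i]) (T (G^[K'] (a K'))) := by
      rw [hTQ0]; exact (hPi i).1.continuousAt
    have h0' : ContinuousAt (fun y => G^[i] (T (G^[K'] y))) (a K') :=
      ContinuousAt.comp (g := G^[i]) (f := fun y => T (G^[K'] y)) h0 hTQ.continuousAt
    have h1 : ContinuousAt (fun y => ‖G^[i] (T (G^[K'] y))‖) (a K') := h0'.norm
    have h2 : ‖G^[i] (T (G^[K'] (a K')))‖ < ρ := by rw [hTQ0, (hPi i).2]; exact hb _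
    have h3 : ContinuousAt (fun y => ‖G^[i] (T (G^[K'] y)) - b i‖) (a K') :=
      (h0'.sub continuousAt_const).norm
    have h4 : ‖G^[i] (T (G^[K'] (a K'))) - b i‖ < ε := by
      rw [hTQ0, (hPi i).2, sub_self, norm_zero]; exact hε
    filter_upwards [h1.eventually (gt_mem_nhds h2), h3.eventually (gt_mem_nhds h4)] with y h5 h6
    exact ⟨h5.le, h6.le⟩
  have hev : ∀ᶠ y in 𝓝 (a K'), y ∈ s ∧ (∀ i ∈ Set.Iic K',
      ‖G^[i] y‖ ≤ ρ ∧ ‖G^[i] y - a (K' - i)‖ ≤ ε) ∧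
      ∀ i ∈ Set.Iic K, ‖G^[i] (T (G^[K'] y))‖ ≤ ρ ∧ ‖G^[i] (T (G^[K'] y)) - b i‖ ≤ ε := by
    filter_upwards [hs, hev1, hev4] with y h1 h2 h5
    exact ⟨h1, h2, h5⟩
  obtain ⟨r₁, hr₁, hr₁2⟩ := Metric.nhds_basis_closedBall.eventually_iff.1 hev
  refine ⟨K, K', hK1, hK'1, r₁, hr₁, fun r hr hrr => ?_⟩
  have hgood : ∀ y : Xs × Xu, ‖y - a K'‖ ≤ r → y ∈ s ∧ (∀ i ∈ Set.Iic K',
      ‖G^[i] y‖ ≤ ρ ∧ ‖G^[i] y - a (K' - i)‖ ≤ ε) ∧
      ∀ i ∈ Set.Iic K, ‖G^[i] (T (G^[K'] y))‖ ≤ ρ ∧ ‖G^[i] (T (G^[K'] y)) - b i‖ ≤ ε := by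
    intro y hy
    exact hr₁2 (by rw [mem_closedBall_iff_norm]; exact hy.trans hrr)
  refine ⟨crossStep_of_approx hr.le F hF (fun y y' hy hy' => by
      have := hs2 y (hgood y hy).1 y' (hgood y' hy').1
      simpa using this) hT1a, fun y hy => ?_⟩
  exact ⟨fun i hi => (hgood y hy).2.1 i hi, fun i hi => (hgood y hy).2.2 i hi⟩

theorem horseshoe_per (h : LocHyp G As Au ρ)
    {Ω : Set (Xs × Xu)} (hΩ : IsOpen Ω) (hball : Metric.closedBall 0 ρ ⊆ Ω)
    (hC : ContDiffOn ℝ 1 G Ω) {μ : ℕ} (hμ : 0 < μ) (b : Fin μ → ℕ → Xs × Xu)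
    (a : ℕ → Xs × Xu) (hb : ∀ s n, ‖b s n‖ < ρ) (hGb : ∀ s n, G (b s n) = b s (n + 1))
    (ha : ∀ n, ‖a n‖ < ρ) (hGa : ∀ n, G (a (n + 1)) = a n)
    (T : Fin μ → Xs × Xu → Xs × Xu) (hT : ∀ s, ContDiffAt ℝ 1 (T s) (a 0))
    (hTab : ∀ s, T s (a 0) = b s 0)
    (htr : ∀ s, ∀ v ∈ bwdBdd G a, fderiv ℝ (T s) (a 0) v ∈ fwdBdd G (b s) → v = 0)
    {ε : ℝ} (hε : 0 < ε) :
    ∃ n₀ : ℕ, 1 ≤ n₀ ∧ ∀ (p : ℕ) (σ : ZMod p → Fin μ) (l : ZMod p → ℕ), 0 < p →
      (∀ j, n₀ ≤ l j) → ∃ z : ZMod p → Xs × Xu, ∀ j,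
        ‖z j - b (σ j) 0‖ ≤ ε ∧
        (∀ i ≤ l j, ‖G^[i] (z j)‖ ≤ ρ ∧
          (‖G^[i] (z j) - b (σ j) i‖ ≤ ε ∨ ‖G^[i] (z j) - a (l j - i)‖ ≤ ε)) ∧
        ‖G^[l j] (z j) - a 0‖ ≤ ε ∧
        T (σ (j + 1)) (G^[l j] (z j)) = z (j + 1) := by
  classical
  have hρ := h.rho_pos
  have hcs : CompleteSpace Xs := FiniteDimensional.complete ℝ Xs
  have hcu : CompleteSpace Xu := FiniteDimensional.complete ℝ Xu
  choose K K' hK1 hK'1 r₁ hr₁ hcr using fun s => h.horsePer_transit hΩ hball hC (b s) a (hb s)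
    (hGb s) ha hGa (T s) (hT s) (hTab s) (htr s) hε
  have : Nonempty (Fin μ) := ⟨⟨0, hμ⟩⟩
  -- the radius
  obtain ⟨r, hr, hrr, hrρ, hrε⟩ : ∃ r : ℝ, 0 < r ∧ (∀ s, r ≤ r₁ s) ∧ r ≤ ρ / 2 ∧ r ≤ ε := by
    let r₀ : ℝ := Finset.univ.inf' Finset.univ_nonempty r₁
    have h0 : 0 < r₀ := by
      rw [Finset.lt_inf'_iff]
      exact fun s _ => hr₁ s
    refine ⟨min r₀ (min (ρ / 2) ε), lt_min h0 (lt_min (by positivity) hε), fun s => ?_, ?_, ?_⟩
    · exact (min_le_left _ _).trans (Finset.inf'_le _ (Finset.mem_univ s))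
    · exact (min_le_right _ _).trans (min_le_left _ _)
    · exact (min_le_right _ _).trans (min_le_right _ _)
  have hcross1 := fun s => (hcr s r hr (hrr s)).1
  have hgood := fun s => (hcr s r hr (hrr s)).2
  -- smallness of the middle jump
  obtain ⟨m, hm1, hm⟩ : ∃ m : ℕ, 1 ≤ m ∧ 2 * ((1 / 4 : ℝ) ^ m * ρ) ≤ r / 4 := by
    have h1 : Tendsto (fun m : ℕ => 2 * ((1 / 4 : ℝ) ^ m * ρ)) atTop (𝓝 0) := by
      have := ((tendsto_pow_atTop_nhds_zero_of_lt_one (r := (1 / 4 : ℝ)) (by norm_num)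
        (by norm_num)).mul_const ρ).const_mul 2
      simpa using this
    obtain ⟨m, hm, hm2⟩ := ((h1.eventually (gt_mem_nhds (show (0 : ℝ) < r / 4 by positivity))).and
      (eventually_ge_atTop 1)).exists
    exact ⟨m, hm2, hm.le⟩
  have hbn : ∀ s n, ‖b s n‖ ≤ (1 / 4) ^ n * ρ := fun s =>
    h.forward_tendsto (b s) (fun n => (hb s n).le) (hGb s)
  have han : ∀ n, ‖a n‖ ≤ (1 / 4) ^ n * ρ := h.backward_tendsto a (fun n => (ha n).le) hGa
  have hpow : ∀ n k : ℕ, k ≤ n → (1 / 4 : ℝ) ^ n * ρ ≤ (1 / 4) ^ k * ρ := by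
    intro n k hk
    exact mul_le_mul_of_nonneg_right (pow_le_pow_of_le_one (by norm_num) (by norm_num) hk) hρ.le
  have hbn1 : ∀ s n, 1 ≤ n → ‖b s n‖ ≤ ρ / 4 := fun s n hn =>
    (hbn s n).trans ((hpow n 1 hn).trans (by linarith))
  have han1 : ∀ n, 1 ≤ n → ‖a n‖ ≤ ρ / 4 := fun n hn =>
    (han n).trans ((hpow n 1 hn).trans (by linarith))
  -- the bound for the lengths
  let KK : ℕ := Finset.univ.sup K
  let KK' : ℕ := Finset.univ.sup K'
  have hKK : ∀ s, K s ≤ KK := fun s => Finset.le_sup (f := K) (Finset.mem_univ s)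
  have hKK' : ∀ s, K' s ≤ KK' := fun s => Finset.le_sup (f := K') (Finset.mem_univ s)
  refine ⟨KK + 2 * m + KK', by omega, fun p σ l hp hl => ?_⟩
  let len : ZMod p → ℕ := fun j => l j - K (σ j) - K' (σ (j + 1))
  have hlen : ∀ j, K (σ j) + len j + K' (σ (j + 1)) = l j := by
    intro j
    have h1 := hl j
    have h2 := hKK (σ j)
    have h3 := hKK' (σ (j + 1))
    simp only [len]
    omega
  have hlenm : ∀ j, 2 * m ≤ len j := by
    intro j
    have h1 := hl j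
    have h2 := hKK (σ j)
    have h3 := hKK' (σ (j + 1))
    simp only [len]
    omega
  let c : ZMod p × ℕ → Xs × Xu := fun q =>
    if q.2 < m then b (σ q.1) (K (σ q.1) + q.2) else
      if q.2 ≤ len q.1 then a (K' (σ (q.1 + 1)) + (len q.1 - q.2)) else 0
  let nxt : ZMod p × ℕ → ZMod p × ℕ := fun q =>
    if q.2 = len q.1 then (q.1 + 1, 0) else (q.1, q.2 + 1)
  have hnxt : Injective nxt := by
    rintro ⟨j, t⟩ ⟨j', t'⟩ he
    simp only [nxt] at he
    split_ifs at he with h1 h2 h2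
    · simp only [Prod.mk.injEq, and_true] at he
      have : j = j' := add_right_cancel he
      subst this
      simp [h1, h2]
    · simp at he
    · simp at he
    · simp only [Prod.mk.injEq] at he
      obtain ⟨h3, h4⟩ := he
      simp [h3, show t = t' by omega]
  have hcρ : ∀ q, ‖c q‖ ≤ ρ / 4 := by
    intro q
    simp only [c]
    have h1 := hK1 (σ q.1)
    have h2 := hK'1 (σ (q.1 + 1))
    split_ifs
    · exact hbn1 _ _ (by omega)
    · exact han1 _ (by omega)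
    · simp; positivity
  have hcross : ∀ q, CrossStep (if q.2 = len q.1 then
      (fun y => G^[K (σ (q.1 + 1))] (T (σ (q.1 + 1)) (G^[K' (σ (q.1 + 1))] y))) else G)
      (c q) (c (nxt q)) r := by
    rintro ⟨j, t⟩
    by_cases ht : t = len j
    · have h1 : c (j, t) = a (K' (σ (j + 1))) := by
        have := hlenm j
        simp only [c, ht]
        rw [if_neg (by omega), if_pos le_rfl, Nat.sub_self, add_zero]
      have h2 : c (nxt (j, t)) = b (σ (j + 1)) (K (σ (j + 1))) := by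
        simp only [nxt, ht, if_true, c]
        rw [if_pos (by omega), add_zero]
      rw [h1, h2]
      simp only [ht, if_true]
      exact hcross1 (σ (j + 1))
    · have h2 : nxt (j, t) = (j, t + 1) := by simp [nxt, ht]
      rw [h2]
      simp only [ht, if_false]
      refine h.crossStep_G (by linarith [hcρ (j, t)]) ?_
      have hlj := hlenm j
      simp only [c]
      by_cases h3 : t + 1 < m
      · rw [if_pos (by omega), if_pos h3, hGb,
          show K (σ j) + t + 1 = K (σ j) + (t + 1) by ring]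
        simp; positivity
      · by_cases h4 : t < m
        · rw [if_pos h4, if_neg h3, if_pos (by omega), hGb]
          refine (norm_sub_le _ _).trans (le_trans (add_le_add (hbn _ _) (han _)) ?_)
          refine le_trans (add_le_add (hpow _ m (by omega)) (hpow _ m (by omega))) ?_
          linarith
        · rw [if_neg h4, if_neg h3]
          by_cases h5 : t < len j
          · rw [if_pos h5.le, if_pos (by omega), show K' (σ (j + 1)) + (len j - t) =
              (K' (σ (j + 1)) + (len j - (t + 1))) + 1 by omega, hGa]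
            simp; positivity
          · rw [if_neg (by omega), if_neg (by omega), h.zero]
            simp; positivity
  obtain ⟨y, hy1, hy2⟩ := chain_shadow hr.le _ c nxt hnxt hcross
  have hyend : ∀ j, ‖y (j, len j) - a (K' (σ (j + 1)))‖ ≤ r := by
    intro j
    have h1 : c (j, len j) = a (K' (σ (j + 1))) := by
      have := hlenm j
      simp only [c]
      rw [if_neg (by omega), if_pos le_rfl, Nat.sub_self, add_zero]
    rw [← h1]; exact hy1 _
  have hyρ : ∀ q, ‖y q‖ ≤ ρ := by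
    intro q
    calc ‖y q‖ = ‖c q + (y q - c q)‖ := by congr 1; abel
      _ ≤ ‖c q‖ + ‖y q - c q‖ := norm_add_le _ _
      _ ≤ ρ := by linarith [hcρ q, hy1 q]
  have hyG : ∀ j t, t < len j → G (y (j, t)) = y (j, t + 1) := by
    intro j t ht
    have h1 := hy2 (j, t)
    have h2 : nxt (j, t) = (j, t + 1) := by simp [nxt, ht.ne]
    rw [h2] at h1
    simpa [ht.ne] using h1
  have hyT : ∀ j, G^[K (σ (j + 1))] (T (σ (j + 1)) (G^[K' (σ (j + 1))] (y (j, len j)))) =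
      y (j + 1, 0) := by
    intro j
    have h1 := hy2 (j, len j)
    have h2 : nxt (j, len j) = (j + 1, 0) := by simp [nxt]
    rw [h2] at h1
    simpa using h1
  have hyit : ∀ j t, t ≤ len j → G^[t] (y (j, 0)) = y (j, t) := by
    intro j t ht
    exact iterate_eq (G := G) (x := fun t => y (j, t)) (n := t)
      (fun i hi => hyG j i (by omega))
  -- the points
  let z : ZMod p → Xs × Xu := fun j => T (σ j) (G^[K' (σ j)] (y (j - 1, len (j - 1))))
  have hz1 : ∀ j, ∀ i ≤ K (σ j), ‖G^[i] (z j)‖ ≤ ρ ∧ ‖G^[i] (z j) - b (σ j) i‖ ≤ ε := by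
    intro j
    have h1 := hyend (j - 1)
    rw [sub_add_cancel] at h1
    exact (hgood (σ j) _ h1).2
  have hz2 : ∀ j, G^[K (σ j)] (z j) = y (j, 0) := by
    intro j
    have h1 := hyT (j - 1)
    rw [sub_add_cancel] at h1
    exact h1
  have hz3 : ∀ j, ∀ t ≤ len j, G^[K (σ j) + t] (z j) = y (j, t) := by
    intro j t ht
    rw [add_comm (K (σ j)) t, Function.iterate_add_apply, hz2, hyit j t ht]
  have hz4 : ∀ j i, G^[K (σ j) + len j + i] (z j) = G^[i] (y (j, len j)) := by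
    intro j i
    rw [add_comm (K (σ j) + len j) i, Function.iterate_add_apply, hz3 j _ le_rfl]
  have hz5 : ∀ j, ∀ i ≤ K' (σ (j + 1)), ‖G^[i] (y (j, len j))‖ ≤ ρ ∧
      ‖G^[i] (y (j, len j)) - a (K' (σ (j + 1)) - i)‖ ≤ ε := by
    intro j
    exact (hgood (σ (j + 1)) _ (hyend j)).1
  have hz6 : ∀ j, G^[l j] (z j) = G^[K' (σ (j + 1))] (y (j, len j)) := by
    intro j
    rw [← hlen j, hz4]
  refine ⟨z, fun j => ⟨?_, fun i hi => ?_, ?_, ?_⟩⟩
  · simpa using (hz1 j 0 (Nat.zero_le _)).2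
  · rcases le_or_gt i (K (σ j)) with h1 | h1
    · exact ⟨(hz1 j i h1).1, Or.inl (hz1 j i h1).2⟩
    · rcases le_or_gt i (K (σ j) + len j) with h2 | h2
      · obtain ⟨t, rfl⟩ : ∃ t, i = K (σ j) + t := ⟨i - K (σ j), by omega⟩
        have ht : t ≤ len j := by omega
        rw [hz3 j t ht]
        refine ⟨hyρ _, ?_⟩
        have h3 := (hy1 (j, t)).trans hrε
        by_cases h4 : t < m
        · left
          have h5 : c (j, t) = b (σ j) (K (σ j) + t) := by simp [c, h4]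
          rwa [h5] at h3
        · right
          have h5 : c (j, t) = a (K' (σ (j + 1)) + (len j - t)) := by
            simp only [c]
            rw [if_neg h4, if_pos ht]
          rw [h5] at h3
          rw [← hlen j, show K (σ j) + len j + K' (σ (j + 1)) - (K (σ j) + t) =
            K' (σ (j + 1)) + (len j - t) by omega]
          exact h3
      · obtain ⟨i', rfl⟩ : ∃ i', i = K (σ j) + len j + i' :=
          ⟨i - (K (σ j) + len j), by omega⟩
        have hi' : i' ≤ K' (σ (j + 1)) := by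
          have := hlen j
          omega
        rw [hz4]
        refine ⟨(hz5 j i' hi').1, Or.inr ?_⟩
        rw [← hlen j, show K (σ j) + len j + K' (σ (j + 1)) - (K (σ j) + len j + i') =
            K' (σ (j + 1)) - i' by omega]
        exact (hz5 j i' hi').2
  · rw [hz6]
    have := (hz5 j _ le_rfl).2
    rwa [Nat.sub_self] at this
  · rw [hz6]
    simp only [z, add_sub_cancel_right]

end LocHyp

end Pool.Agent.OmegaStab

end
end

section

/-!
# Lemma N: a stable operator all of whose perturbations are hyperbolic contracts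
-/

open Set Filter Topology Function

noncomputable section

namespace Pool.Agent.OmegaPS

open Pool.Agent.OmegaStab (HypLin)

section Lin

namespace LemmaN

/-- A root of the characteristic polynomial of a real matrix whose powers tend to zero
entrywise has modulus at most one. -/
theorem root_le {d : ℕ} (A : Matrix (Fin d) (Fin d) ℝ)
    (hA : ∀ i j, Tendsto (fun n : ℕ => (A ^ n) i j) atTop (𝓝 0)) (z : ℂ)
    (hz : z ∈ (A.map (algebraMap ℝ ℂ)).charpoly.roots) : ‖z‖ ≤ 1 := by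
  set B := A.map (algebraMap ℝ ℂ) with hB
  have hroot : B.charpoly.IsRoot z := Polynomial.isRoot_of_mem_roots hz
  have hdet : (Matrix.scalar (Fin d) z - B).det = 0 := by
    rw [← Matrix.eval_charpoly]
    exact hroot
  obtain ⟨v, hv, hv0⟩ := Matrix.exists_mulVec_eq_zero_iff.2 hdet
  have hBv : B.mulVec v = z • v := by
    rw [Matrix.sub_mulVec, sub_eq_zero] at hv0
    rw [← hv0]
    ext i
    simp [Matrix.scalar_apply, Matrix.mulVec_diagonal]
  have hpow : ∀ n : ℕ, (B ^ n).mulVec v = z ^ n • v := by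
    intro n
    induction n with
    | zero => simp
    | succ n ih =>
      rw [pow_succ', ← Matrix.mulVec_mulVec, ih, Matrix.mulVec_smul, hBv, smul_smul, pow_succ]
  obtain ⟨i, hi⟩ : ∃ i, v i ≠ 0 := by
    by_contra hcon
    push Not at hcon
    exact hv (funext hcon)
  have hBn : ∀ n : ℕ, B ^ n = (A ^ n).map (algebraMap ℝ ℂ) := by
    intro n
    rw [hB]
    exact (map_pow (algebraMap ℝ ℂ).mapMatrix A n).symm
  have ht : Tendsto (fun n : ℕ => z ^ n * v i) atTop (𝓝 0) := by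
    have h1 : (fun n : ℕ => z ^ n * v i) =
        fun n : ℕ => ∑ j, (((A ^ n) i j : ℝ) : ℂ) * v j := by
      funext n
      have h2 := congrFun (hpow n) i
      rw [hBn n] at h2
      simp only [Matrix.mulVec, dotProduct, Matrix.map_apply, Pi.smul_apply, smul_eq_mul] at h2
      rw [← h2]
      rfl
    rw [h1]
    have h3 : Tendsto (fun n : ℕ => ∑ j, (((A ^ n) i j : ℝ) : ℂ) * v j) atTop
        (𝓝 (∑ j : Fin d, ((0 : ℝ) : ℂ) * v j)) := by
      refine tendsto_finsetSum _ fun j _ => ?_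
      exact ((Complex.continuous_ofReal.tendsto 0).comp (hA i j)).mul_const _
    simpa using h3
  by_contra hlt
  push Not at hlt
  have h4 := (tendsto_norm_zero.comp ht).eventually (gt_mem_nhds (norm_pos_iff.2 hi))
  obtain ⟨n, hn⟩ := h4.exists
  simp only [Function.comp, norm_mul, norm_pow] at hn
  have h5 : 1 ≤ ‖z‖ ^ n := one_le_pow₀ hlt.le
  have h6 : 0 < ‖v i‖ := norm_pos_iff.2 hi
  nlinarith

theorem matrix_trace_le {d : ℕ} (A : Matrix (Fin d) (Fin d) ℝ)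
    (hA : ∀ i j, Tendsto (fun n : ℕ => (A ^ n) i j) atTop (𝓝 0)) : |A.trace| ≤ d := by
  have h1 : ((A.trace : ℝ) : ℂ) = (A.map (algebraMap ℝ ℂ)).trace := by
    simp [Matrix.trace, Matrix.map_apply]
  have h2 : ‖(A.map (algebraMap ℝ ℂ)).trace‖ ≤ d := by
    rw [Matrix.trace_eq_sum_roots_charpoly]
    refine (norm_multiset_sum_le _).trans ?_
    refine (Multiset.sum_le_card_nsmul _ 1 fun r hr => ?_).trans ?_
    · obtain ⟨z, hz, rfl⟩ := Multiset.mem_map.1 hr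
      exact root_le A hA z hz
    · rw [Multiset.card_map, nsmul_eq_mul, mul_one]
      have h3 := Polynomial.card_roots' (A.map (algebraMap ℝ ℂ)).charpoly
      rw [Matrix.charpoly_natDegree_eq_dim, Fintype.card_fin] at h3
      exact_mod_cast h3
  rw [← h1, Complex.norm_real] at h2
  exact h2

end LemmaN

variable {V : Type*} [NormedAddCommGroup V] [InnerProductSpace ℝ V] [FiniteDimensional ℝ V]

theorem trace_le (T : V →L[ℝ] V) (h : ∀ v, Tendsto (fun n : ℕ => (T ^ n) v) atTop (𝓝 0)) :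
    |LinearMap.trace ℝ V T| ≤ Module.finrank ℝ V := by
  set b := Module.finBasis ℝ V with hb
  rw [LinearMap.trace_eq_matrix_trace ℝ b]
  refine LemmaN.matrix_trace_le _ fun i j => ?_
  have h1 : ∀ n : ℕ, (LinearMap.toMatrix b b (T : V →ₗ[ℝ] V)) ^ n =
      LinearMap.toMatrix b b ((T ^ n : V →L[ℝ] V) : V →ₗ[ℝ] V) := by
    intro n
    rw [LinearMap.toMatrix_pow]
    rw [ContinuousLinearMap.toLinearMap_pow]
  have h2 : (fun n : ℕ => ((LinearMap.toMatrix b b (T : V →ₗ[ℝ] V)) ^ n) i j) =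
      fun n : ℕ => (b.coord i).toContinuousLinearMap ((T ^ n) (b j)) := by
    funext n
    rw [h1, LinearMap.toMatrix_apply]
    rfl
  rw [h2]
  have h3 := (((b.coord i).toContinuousLinearMap).continuous.tendsto 0).comp (h (b j))
  simpa [Function.comp_def] using h3

theorem lemmaN (P : V ≃L[ℝ] V) {c : ℝ} (hc : 0 < c) (hc' : c ≤ 1 / 2)
    (h : ∀ L, Near c L → Hyp (L * P)) {v : V} (hv : v ∈ Est P) :
    ‖P v‖ ≤ 2 * Module.finrank ℝ V / c * ‖v‖ := by
  by_contra hcon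
  push Not at hcon
  have hv0 : v ≠ 0 := by
    rintro rfl
    simp at hcon
  have hPv : P v ≠ 0 := fun h0 => hv0 (by simpa using h0)
  have hnv : 0 < ‖v‖ := norm_pos_iff.2 hv0
  have hnP : 0 < ‖P v‖ := norm_pos_iff.2 hPv
  set s : ℝ := c * ‖P v‖ / ‖v‖ with hs
  have hs0 : 0 < s := by positivity
  have hs2 : 2 * (Module.finrank ℝ V : ℝ) < s := by
    rw [hs, lt_div_iff₀ hnv]
    have h1 : 2 * (Module.finrank ℝ V : ℝ) / c * ‖v‖ * c < ‖P v‖ * c :=
      mul_lt_mul_of_pos_right hcon hc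
    have h2 : 2 * (Module.finrank ℝ V : ℝ) / c * ‖v‖ * c = 2 * (Module.finrank ℝ V : ℝ) * ‖v‖ := by
      field_simp
    linarith
  -- the rank one operator
  set R : V →L[ℝ] V := ((‖P v‖ ^ 2)⁻¹ • innerSL ℝ (P v)).smulRight v with hR
  have hRapp : ∀ u, R u = ((‖P v‖ ^ 2)⁻¹ * inner ℝ (P v) u) • v := by
    intro u
    simp [hR]
  have hRn : ‖R‖ ≤ ‖v‖ / ‖P v‖ := by
    refine ContinuousLinearMap.opNorm_le_bound _ (by positivity) fun u => ?_
    rw [hRapp, norm_smul, norm_mul, norm_inv, norm_pow, norm_norm]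
    have h1 := norm_inner_le_norm (𝕜 := ℝ) (P v) u
    calc (‖P v‖ ^ 2)⁻¹ * ‖(inner ℝ (P v) u : ℝ)‖ * ‖v‖
        ≤ (‖P v‖ ^ 2)⁻¹ * (‖P v‖ * ‖u‖) * ‖v‖ := by gcongr
      _ = ‖v‖ / ‖P v‖ * ‖u‖ := by field_simp
  set T : ℝ → V →L[ℝ] V := fun t => ContinuousLinearMap.id ℝ V + (t * s) • R with hT
  have hTn : ∀ t ∈ Icc (0 : ℝ) 1, ‖T t - ContinuousLinearMap.id ℝ V‖ ≤ c := by
    intro t ht
    have h1 : T t - ContinuousLinearMap.id ℝ V = (t * s) • R := by
      simp [hT]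
    rw [h1, norm_smul, Real.norm_eq_abs, abs_of_nonneg (by have := ht.1; positivity)]
    calc t * s * ‖R‖ ≤ 1 * s * (‖v‖ / ‖P v‖) := by
          have := ht.2; have := ht.1
          gcongr
      _ = c := by
          rw [hs]; field_simp
  set F : ℝ → V →L[ℝ] V := fun t => (T t).comp (P : V →L[ℝ] V) with hF
  have hFapp : ∀ t u, F t u = P u + (t * s) • R (P u) := by
    intro t u
    simp [hF, hT]
  have hFhyp : ∀ t ∈ Icc (0 : ℝ) 1, HypLin (F t) := by
    intro t ht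
    obtain ⟨L, hL⟩ := exists_equiv (T t) (by have := hTn t ht; linarith)
    have h1 : Near c L := by
      unfold Near
      rw [hL]
      exact hTn t ht
    have h2 := h L h1
    unfold Hyp at h2
    have h3 : ((L * P : V ≃L[ℝ] V) : V →L[ℝ] V) = F t := by
      ext u
      change L (P u) = _
      have h4 : (L : V →L[ℝ] V) (P u) = T t (P u) := by rw [hL]
      exact h4
    rwa [h3] at h2
  have hFcont : ContinuousOn F (Icc 0 1) := by
    refine Continuous.continuousOn ?_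
    have h1 : F = fun t : ℝ => (P : V →L[ℝ] V) + (t * s) • (R.comp (P : V →L[ℝ] V)) := by
      funext t
      ext u
      simp [hFapp]
    rw [h1]
    fun_prop
  have hW : ∀ u ∈ Est P, P u ∈ Est P := fun u hu => mem_Est_map.2 hu
  have hinv : ∀ t ∈ Icc (0 : ℝ) 1, ∀ u ∈ Est P, F t u ∈ Est P := by
    intro t _ u hu
    rw [hFapp, hRapp]
    exact (Est P).add_mem (hW u hu) ((Est P).smul_mem _ ((Est P).smul_mem _ hv))
  have hpowP : ∀ (n : ℕ) (u : V), ((P : V →L[ℝ] V) ^ n) u = (P ^ n) u := by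
    intro n
    induction n with
    | zero => intro u; rfl
    | succ n ih =>
      intro u
      rw [pow_succ, pow_succ]
      exact ih (P u)
  have hF0 : F 0 = (P : V →L[ℝ] V) := by
    ext u
    rw [hFapp]
    simp
  have h0 : ∀ u ∈ Est P, Tendsto (fun n : ℕ => (F 0 ^ n) u) atTop (𝓝 0) := by
    intro u hu
    rw [hF0]
    simp_rw [hpowP]
    exact hu
  have h1 := cross (Est P) F hFcont hinv hFhyp h0 1 ⟨zero_le_one, le_rfl⟩
  -- restriction to the stable space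
  have key : ∀ G : V →L[ℝ] V, ∀ hG : ∀ u ∈ Est P, G u ∈ Est P,
      (∀ u ∈ Est P, Tendsto (fun n : ℕ => (G ^ n) u) atTop (𝓝 0)) →
      |LinearMap.trace ℝ (Est P) ((G : V →ₗ[ℝ] V).restrict hG)| ≤
        Module.finrank ℝ (Est P) := by
    intro G hG hlim
    set G' : Est P →L[ℝ] Est P := ((G : V →ₗ[ℝ] V).restrict hG).toContinuousLinearMap with hG'
    have h2 : ∀ (n : ℕ) (u : Est P), (((G' ^ n) u : Est P) : V) = (G ^ n) (u : V) := by
      intro n
      induction n with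
      | zero => intro u; rfl
      | succ n ih =>
        intro u
        rw [pow_succ, pow_succ]
        exact ih (G' u)
    have h3 := trace_le G' fun u => by
      rw [tendsto_subtype_rng]
      simp_rw [h2]
      exact hlim u u.2
    exact h3
  have hP1 := key (P : V →L[ℝ] V) hW (fun u hu => by simp_rw [hpowP]; exact hu)
  have hF1 := key (F 1) (hinv 1 ⟨zero_le_one, le_rfl⟩) h1
  -- the trace of the rank one part
  set φ : Est P →ₗ[ℝ] ℝ :=
    (((‖P v‖ ^ 2)⁻¹ • innerSL ℝ (P v) : V →L[ℝ] ℝ) : V →ₗ[ℝ] ℝ) ∘ₗ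
      (P : V →L[ℝ] V).toLinearMap ∘ₗ (Est P).subtype with hφ
  have hsum : ((F 1 : V →L[ℝ] V) : V →ₗ[ℝ] V).restrict (hinv 1 ⟨zero_le_one, le_rfl⟩) =
      ((P : V →L[ℝ] V) : V →ₗ[ℝ] V).restrict hW + s • φ.smulRight (⟨v, hv⟩ : Est P) := by
    ext u
    change F 1 (u : V) = P (u : V) + s • (φ u • v)
    rw [hFapp, hRapp, one_mul]
    rfl
  have htr : LinearMap.trace ℝ (Est P) (φ.smulRight (⟨v, hv⟩ : Est P)) = 1 := by
    rw [LinearMap.trace_smulRight]
    change (‖P v‖ ^ 2)⁻¹ * inner ℝ (P v) (P v) = (1 : ℝ)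
    rw [real_inner_self_eq_norm_sq]
    field_simp
  rw [hsum, map_add, map_smul, htr, smul_eq_mul, mul_one] at hF1
  have hdim : (Module.finrank ℝ (Est P) : ℝ) ≤ Module.finrank ℝ V := by
    exact_mod_cast Submodule.finrank_le (Est P)
  have h5 := abs_le.1 hP1
  have h6 := abs_le.1 hF1
  linarith [h5.1, h6.2]

end Lin

end Pool.Agent.OmegaPS

end
end

section

/-!
# MP_814647_an, products, item 13: path algebra (helper18)
-/

open Set Filter Topology Function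

noncomputable section

namespace Pool.Agent.OmegaPS

open Pool.Agent.OmegaStab (HypLin)

section Abstract

variable {X V : Type*} [NormedAddCommGroup V] [InnerProductSpace ℝ V]

namespace PathAlg

/-- In every family extending `τ` by three transitions, the first one being `(b, a, 1)`, there is
a path with matrix `M` and length `N` from every transition with target `a` to every transition
with source `b`. -/
def Seg (S : Sys X V) {ι : Type} (τ : ι → Trans X V) (m : ℕ) (e₁ : Trans X V) (a b : X) (N : ℕ)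
    (M : V ≃L[ℝ] V) : Prop :=
  ∀ σ : Fin 3 → Trans X V, σ 0 = e₁ → ∀ p q : ι ⊕ Fin 3,
    (Sum.elim τ σ p).tgt = a → (Sum.elim τ σ q).src = b → Path S (Sum.elim τ σ) m p q N M

theorem closed_hyp (S : Sys X V) {m k : ℕ} {δ : ℝ}
    (h : ∀ η : ℝ, |η| ≤ δ → Star (S.scale η) m (k + 3)) {ι : Type} [Fintype ι]
    (hι : Fintype.card ι ≤ k) {τ : ι → Trans X V}
    (hτ : ∀ i, S.Tr (τ i).src (τ i).tgt (τ i).mat) {σ : Fin 3 → Trans X V}
    (hσ : ∀ i, S.Tr (σ i).src (σ i).tgt (σ i).mat) {p : ι ⊕ Fin 3} {N : ℕ} {M : V ≃L[ℝ] V}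
    (hp : Path S (Sum.elim τ σ) m p p N M) {η : ℝ} (hη : |η| ≤ δ) :
    Hyp (sc (η * N) * ((Sum.elim τ σ p).mat * M)) := by
  have h1 : Hyp ((Sum.elim τ σ p).mat * (sc (η * N) * M)) := by
    refine h η hη (ι ⊕ Fin 3) ?_ (Sum.elim τ σ) ?_ p N _ (path_scale_iff.2 hp)
    · rw [Fintype.card_sum, Fintype.card_fin]
      omega
    · rintro (i | i)
      · exact hτ i
      · exact hσ i
  rw [← mul_assoc, sc_comm, mul_assoc]
  rwa [← mul_assoc] at h1 ⊢

theorem pair_of_seg (S : Sys X V) {m k : ℕ} {δ : ℝ}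
    (h : ∀ η : ℝ, |η| ≤ δ → Star (S.scale η) m (k + 3)) {ι : Type} [Fintype ι]
    (hι : Fintype.card ι ≤ k) {τ : ι → Trans X V}
    (hτ : ∀ i, S.Tr (τ i).src (τ i).tgt (τ i).mat) {e₁ : Trans X V}
    (he₁ : S.Tr e₁.src e₁.tgt e₁.mat) {x₁ x₂ y₁ y₂ : X} {P Q : V ≃L[ℝ] V} {α β : ℕ}
    (hc₁ : S.cell x₂ = S.cell x₁) (hc₂ : S.cell y₁ = S.cell x₁) (hc₃ : S.cell y₂ = S.cell x₁)
    (hP : ∀ a : ℕ, 1 ≤ a → Seg S τ m e₁ x₁ x₂ (a * α) (P ^ a))
    (hQ : ∀ b : ℕ, 1 ≤ b → Seg S τ m e₁ y₁ y₂ (b * β) (Q ^ b)) :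
    PairHyp P Q α β S.c δ := by
  refine ⟨?_, ?_, ?_⟩
  · intro a ha η hη L hL
    have hp := hP a ha ![e₁, ⟨x₂, x₁, L⟩, e₁] rfl (Sum.inr 1) (Sum.inr 1) rfl rfl
    have hh := closed_hyp S h hι hτ (σ := ![e₁, ⟨x₂, x₁, L⟩, e₁]) (by
      intro i
      fin_cases i
      · exact he₁
      · exact S.tr_cell _ _ _ hc₁ hL
      · exact he₁) hp hη
    rw [Nat.cast_mul] at hh
    exact hh
  · intro b hb η hη L hL
    have hp := hQ b hb ![e₁, ⟨y₂, y₁, L⟩, e₁] rfl (Sum.inr 1) (Sum.inr 1) rfl rfl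
    have hh := closed_hyp S h hι hτ (σ := ![e₁, ⟨y₂, y₁, L⟩, e₁]) (by
      intro i
      fin_cases i
      · exact he₁
      · exact S.tr_cell _ _ _ (hc₃.trans hc₂.symm) hL
      · exact he₁) hp hη
    rw [Nat.cast_mul] at hh
    exact hh
  · intro a b ha hb η hη L R hL hR
    have hp := hP a ha ![e₁, ⟨x₂, y₁, L⟩, ⟨y₂, x₁, R⟩] rfl (Sum.inr 2) (Sum.inr 1) rfl rfl
    have hq := hQ b hb ![e₁, ⟨x₂, y₁, L⟩, ⟨y₂, x₁, R⟩] rfl (Sum.inr 1) (Sum.inr 2) rfl rfl
    have hh := closed_hyp S h hι hτ (σ := ![e₁, ⟨x₂, y₁, L⟩, ⟨y₂, x₁, R⟩]) (by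
      intro i
      fin_cases i
      · exact he₁
      · exact S.tr_cell _ _ _ (hc₁.trans hc₂.symm) hL
      · exact S.tr_cell _ _ _ hc₃ hR) (Path.comp hp hq) hη
    rw [Nat.cast_add, Nat.cast_mul, Nat.cast_mul] at hh
    have e : (R * Q ^ b * L * P ^ a) = R * (Q ^ b * L * P ^ a) := by
      simp only [mul_assoc]
    rw [e]
    exact hh

/-- Repeating one segment. -/
theorem segA (S : Sys X V) {ι : Type} (τ : ι → Trans X V) {m α : ℕ} (hm : m ≤ α) {x x' : X}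
    (hx : (S.f ^ α) x = x') (a : ℕ) (ha : 1 ≤ a) :
    Seg S τ m ⟨x', x, 1⟩ x x' (a * α) (S.coc α x ^ a) := by
  intro σ hσ
  induction a, ha using Nat.le_induction with
  | base =>
    intro p q hp hq
    rw [one_mul, pow_one]
    exact Path.stage' hm hp hq hx
  | succ a _ ih =>
    intro p q hp hq
    have h1 := ih p (Sum.inr 0) hp (by simp [hσ])
    have h2 : Path S (Sum.elim τ σ) m (Sum.inr 0) q α (S.coc α x) :=
      Path.stage' hm (by simp [hσ]) hq hx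
    have h3 := Path.comp h1 h2
    have e1 : (a + 1) * α = a * α + α := by ring
    have e2 : S.coc α x ^ (a + 1) =
        S.coc α x * (Sum.elim τ σ (Sum.inr 0)).mat * S.coc α x ^ a := by
      simp [hσ, pow_succ']
    rw [e1, e2]
    exact h3

/-- Going around the word. -/
theorem segB (S : Sys X V) {ι : Type} (τ : ι → Trans X V) {m : ℕ} {i j : ι} {l : ℕ}
    {B : V ≃L[ℝ] V} (hB : Word S τ m i j l B) {n : ℕ} (hn : (S.f ^ n) (τ j).tgt = (τ i).src)
    {t : ℕ} (ht : m ≤ t) (ht' : t + m ≤ n) (e₁ : Trans X V) (b : ℕ) (hb : 1 ≤ b) :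
    Seg S τ m e₁ ((S.f ^ t) (τ j).tgt) ((S.f ^ t) (τ j).tgt) (b * (n + l))
      ((S.coc t (τ j).tgt * B * S.coc (n - t) ((S.f ^ t) (τ j).tgt)) ^ b) := by
  intro σ _ p q hp hq
  obtain ⟨s, rfl⟩ : ∃ s, n = t + s := ⟨n - t, by omega⟩
  have hs : m ≤ s := by omega
  rw [Nat.add_sub_cancel_left]
  set y := (τ j).tgt with hy
  set x := (S.f ^ t) y with hx
  have hxs : (S.f ^ s) x = (τ i).src := by
    rw [hx, ← hn, ← Equiv.Perm.mul_apply, ← pow_add, add_comm s t]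
  have hB' : Word S (Sum.elim τ σ) m (Sum.inl i) (Sum.inl j) l B := by
    rcases hB with ⟨h1, h2, h3⟩ | ⟨M, hM, hM'⟩
    · left
      exact ⟨by rw [h1], h2, h3⟩
    · right
      exact ⟨M, hM.map Sum.inl (fun _ => rfl), hM'⟩
  set Y := S.coc t y * B * S.coc s x with hY
  have key : ∀ b' : ℕ, Path S (Sum.elim τ σ) m p (Sum.inl i) (s + b' * (t + s + l))
      (S.coc s x * Y ^ b') := by
    intro b'
    induction b' with
    | zero =>
      rw [zero_mul, add_zero, pow_zero, mul_one]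
      exact Path.stage' hs hp rfl hxs
    | succ b' ih =>
      have h2 : Path S (Sum.elim τ σ) m (Sum.inl j) (Sum.inl i) (t + s) (S.coc (t + s) y) :=
        Path.stage' (by omega) rfl rfl hn
      have h3 := Word.comp ih hB' h2
      have e1 : s + (b' + 1) * (t + s + l) = s + b' * (t + s + l) + l + (t + s) := by ring
      have e2 : S.coc s x * Y ^ (b' + 1) = S.coc (t + s) y * B * (S.coc s x * Y ^ b') := by
        rw [S.coc_add, pow_succ', hY]
        simp only [mul_assoc, hx]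
      rw [e1, e2]
      exact h3
  obtain ⟨b', rfl⟩ : ∃ b', b = b' + 1 := ⟨b - 1, by omega⟩
  have h2 : Path S (Sum.elim τ σ) m (Sum.inl j) q t (S.coc t y) :=
    Path.stage' ht rfl hq rfl
  have h3 := Word.comp (key b') hB' h2
  have e1 : (b' + 1) * (t + s + l) = s + b' * (t + s + l) + l + t := by ring
  have e2 : Y ^ (b' + 1) = S.coc t y * B * (S.coc s x * Y ^ b') := by
    rw [pow_succ', hY]
    simp only [mul_assoc]
  rw [e1, e2]
  exact h3

end PathAlg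

open PathAlg

theorem pathalg_pair (S : Sys X V) {m k : ℕ} {δ : ℝ}
    (h : ∀ η : ℝ, |η| ≤ δ → Star (S.scale η) m (k + 3)) (ι : Type) [Fintype ι]
    (hι : Fintype.card ι ≤ k) (τ : ι → Trans X V)
    (hτ : ∀ i, S.Tr (τ i).src (τ i).tgt (τ i).mat) {i j : ι} {l : ℕ} {B : V ≃L[ℝ] V}
    (hB : Word S τ m i j l B) {n : ℕ} (hn : (S.f ^ n) (τ j).tgt = (τ i).src) {t t' : ℕ}
    (ht : m ≤ t) (htt : t + m ≤ t') (ht' : t' + m ≤ n) (hm : 1 ≤ m)
    (hcell : S.cell ((S.f ^ t) (τ j).tgt) = S.cell ((S.f ^ t') (τ j).tgt)) :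
    PairHyp (S.coc (t' - t) ((S.f ^ t) (τ j).tgt))
        (S.coc t' (τ j).tgt * B * S.coc (n - t') ((S.f ^ t') (τ j).tgt))
        ((t' : ℝ) - t) (n + l) S.c δ ∧
      PairHyp (S.coc (t' - t) ((S.f ^ t) (τ j).tgt)) (S.coc (t' - t) ((S.f ^ t) (τ j).tgt))
        ((t' : ℝ) - t) ((t' : ℝ) - t) S.c δ := by
  have hxx : (S.f ^ (t' - t)) ((S.f ^ t) (τ j).tgt) = (S.f ^ t') (τ j).tgt := by
    rw [← Equiv.Perm.mul_apply, ← pow_add]
    congr 2
    omega
  have hA : ∀ a : ℕ, 1 ≤ a → _ := fun a ha => segA S τ (m := m) (α := t' - t) (by omega) hxx a ha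
  have hB' : ∀ b : ℕ, 1 ≤ b → _ := fun b hb => segB S τ hB hn (t := t') (by omega) ht'
    ⟨(S.f ^ t') (τ j).tgt, (S.f ^ t) (τ j).tgt, 1⟩ b hb
  have he₁ : S.Tr ((S.f ^ t') (τ j).tgt) ((S.f ^ t) (τ j).tgt) 1 :=
    S.tr_cell _ _ _ hcell.symm (near_one S.c_pos.le)
  have e1 : ((t' - t : ℕ) : ℝ) = (t' : ℝ) - t := by
    rw [Nat.cast_sub (by omega)]
  constructor
  · have := pair_of_seg S h hι hτ he₁ hcell.symm hcell.symm hcell.symm hA hB'
    rwa [e1, Nat.cast_add] at this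
  · have := pair_of_seg S h hι hτ he₁ hcell.symm rfl hcell.symm hA hA
    rwa [e1] at this

theorem pathalg_self (S : Sys X V) {m k : ℕ} {δ : ℝ}
    (h : ∀ η : ℝ, |η| ≤ δ → Star (S.scale η) m (k + 3)) (ι : Type) [Fintype ι]
    (hι : Fintype.card ι ≤ k) (τ : ι → Trans X V)
    (hτ : ∀ i, S.Tr (τ i).src (τ i).tgt (τ i).mat) {i j : ι} {l : ℕ} {B : V ≃L[ℝ] V}
    (hB : Word S τ m i j l B) {n : ℕ} (hn : (S.f ^ n) (τ j).tgt = (τ i).src) {t : ℕ}
    (ht : m ≤ t) (ht' : t + m ≤ n) (hm : 1 ≤ m) :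
    PairHyp (S.coc t (τ j).tgt * B * S.coc (n - t) ((S.f ^ t) (τ j).tgt))
        (S.coc t (τ j).tgt * B * S.coc (n - t) ((S.f ^ t) (τ j).tgt))
        (n + l) (n + l) S.c δ := by
  have hB' : ∀ b : ℕ, 1 ≤ b → _ := fun b hb => segB S τ hB hn (t := t) ht ht'
    ⟨(S.f ^ t) (τ j).tgt, (S.f ^ t) (τ j).tgt, 1⟩ b hb
  have he₁ : S.Tr ((S.f ^ t) (τ j).tgt) ((S.f ^ t) (τ j).tgt) 1 :=
    S.tr_cell _ _ _ rfl (near_one S.c_pos.le)
  have := pair_of_seg S h hι hτ he₁ rfl rfl rfl hB' hB'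
  rwa [Nat.cast_add] at this

end Abstract

end Pool.Agent.OmegaPS

end
end

section

/-!
# Item 06: the stable space of one word is transverse to the unstable space of another
-/

open Set Filter Topology Function

noncomputable section

namespace Pool.Agent.OmegaPS

namespace SeparationAux

variable {V : Type*} [NormedAddCommGroup V] [InnerProductSpace ℝ V]

lemma pow_inv_apply (P : V ≃L[ℝ] V) (n : ℕ) (x : V) : (P ^ n) ((P⁻¹ ^ n) x) = x := by
  have h : P ^ n * P⁻¹ ^ n = 1 := by rw [inv_pow, mul_inv_cancel]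
  exact congrArg (fun Q : V ≃L[ℝ] V => Q x) h

lemma inv_pow_apply (P : V ≃L[ℝ] V) (n : ℕ) (x : V) : (P⁻¹ ^ n) ((P ^ n) x) = x := by
  have h : P⁻¹ ^ n * P ^ n = 1 := by rw [inv_pow, inv_mul_cancel]
  exact congrArg (fun Q : V ≃L[ℝ] V => Q x) h

lemma inv_apply_self (P : V ≃L[ℝ] V) (x : V) : P⁻¹ (P x) = x := by
  simpa using inv_pow_apply P 1 x

lemma apply_inv_self (P : V ≃L[ℝ] V) (x : V) : P (P⁻¹ x) = x := by
  simpa using pow_inv_apply P 1 x

lemma pow_mem_Est (P : V ≃L[ℝ] V) (n : ℕ) {x : V} (hx : x ∈ Est P) : (P ^ n) x ∈ Est P := by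
  induction n with
  | zero => rw [pow_zero]; exact hx
  | succ n ih =>
    have : (P ^ (n + 1)) x = P ((P ^ n) x) := by rw [pow_succ']; rfl
    rw [this]
    exact mem_Est_map.2 ih

lemma pow_mem_Eun (P : V ≃L[ℝ] V) (n : ℕ) {x : V} (hx : x ∈ Eun P) : (P ^ n) x ∈ Eun P := by
  induction n with
  | zero => rw [pow_zero]; exact hx
  | succ n ih =>
    have : (P ^ (n + 1)) x = P ((P ^ n) x) := by rw [pow_succ']; rfl
    rw [this]
    refine (mem_Est_map (P := P⁻¹)).1 ?_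
    rw [inv_apply_self]
    exact ih

lemma inv_pow_mem_Eun (P : V ≃L[ℝ] V) (n : ℕ) {x : V} (hx : x ∈ Eun P) :
    (P⁻¹ ^ n) x ∈ Eun P := pow_mem_Est P⁻¹ n hx

variable [FiniteDimensional ℝ V]

/-- The projections of a hyperbolic map. -/
structure IsProj (P : V ≃L[ℝ] V) (S U : V →L[ℝ] V) : Prop where
  memS : ∀ x, S x ∈ Est P
  memU : ∀ x, U x ∈ Eun P
  add : ∀ x, S x + U x = x
  idS : ∀ x ∈ Est P, S x = x
  zeroU : ∀ x ∈ Est P, U x = 0
  zeroS : ∀ x ∈ Eun P, S x = 0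
  idU : ∀ x ∈ Eun P, U x = x

lemma exists_proj {P : V ≃L[ℝ] V} (h : Hyp P) : ∃ S U : V →L[ℝ] V, IsProj P S U := by
  have hc := Hyp.isCompl h
  refine ⟨LinearMap.toContinuousLinearMap ((Est P).projection (Eun P) hc),
    ContinuousLinearMap.id ℝ V -
      LinearMap.toContinuousLinearMap ((Est P).projection (Eun P) hc), ?_, ?_, ?_, ?_, ?_, ?_, ?_⟩
  · intro x
    simp
  · intro x
    have h1 : ((Est P).projection (Eun P) hc) (x - ((Est P).projection (Eun P) hc) x) = 0 := by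
      rw [map_sub, Submodule.projection_apply_of_mem_left hc
        (Submodule.projection_apply_mem hc x), sub_self]
    have h2 : x - ((Est P).projection (Eun P) hc) x ∈
        LinearMap.ker ((Est P).projection (Eun P) hc) := h1
    rw [Submodule.ker_projection] at h2
    simpa using h2
  · intro x
    simp
  · intro x hx
    simpa using Submodule.projection_apply_of_mem_left hc hx
  · intro x hx
    have := Submodule.projection_apply_of_mem_left hc hx
    simp [this]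
  · intro x hx
    have h2 : x ∈ LinearMap.ker ((Est P).projection (Eun P) hc) := by
      rw [Submodule.ker_projection]; exact hx
    simpa using h2
  · intro x hx
    have h2 : x ∈ LinearMap.ker ((Est P).projection (Eun P) hc) := by
      rw [Submodule.ker_projection]; exact hx
    have h3 : ((Est P).projection (Eun P) hc) x = 0 := h2
    simp [h3]

variable {P : V ≃L[ℝ] V} {S U : V →L[ℝ] V}

lemma IsProj.pow_comm (h : IsProj P S U) (n : ℕ) (x : V) :
    S ((P ^ n) x) = (P ^ n) (S x) ∧ U ((P ^ n) x) = (P ^ n) (U x) := by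
  have e : (P ^ n) x = (P ^ n) (S x) + (P ^ n) (U x) := by rw [← map_add, h.add]
  have h1 := pow_mem_Est P n (h.memS x)
  have h2 := pow_mem_Eun P n (h.memU x)
  constructor
  · rw [e, map_add S, h.idS _ h1, h.zeroS _ h2, add_zero]
  · rw [e, map_add U, h.zeroU _ h1, h.idU _ h2, zero_add]

/-- `S + P⁻ⁿ U`. -/
def FF (P : V ≃L[ℝ] V) (S U : V →L[ℝ] V) (n : ℕ) : V →L[ℝ] V :=
  S + ((P⁻¹ ^ n : V ≃L[ℝ] V) : V →L[ℝ] V) ∘L U

/-- `Pⁿ S + U`. -/
def GG (P : V ≃L[ℝ] V) (S U : V →L[ℝ] V) (n : ℕ) : V →L[ℝ] V :=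
  ((P ^ n : V ≃L[ℝ] V) : V →L[ℝ] V) ∘L S + U

lemma FF_apply (n : ℕ) (x : V) : FF P S U n x = S x + (P⁻¹ ^ n) (U x) := rfl

lemma GG_apply (n : ℕ) (x : V) : GG P S U n x = (P ^ n) (S x) + U x := rfl

lemma pow_FF (n : ℕ) (x : V) : (P ^ n) (FF P S U n x) = GG P S U n x := by
  rw [FF_apply, GG_apply, map_add, pow_inv_apply]

lemma FF_pow (h : IsProj P S U) (n : ℕ) (x : V) : FF P S U n ((P ^ n) x) = GG P S U n x := by
  rw [FF_apply, GG_apply, (h.pow_comm n x).1, (h.pow_comm n x).2, inv_pow_apply]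

lemma eq_zero_of_add (hP : Hyp P) {x y : V} (hx : x ∈ Est P) (hy : y ∈ Eun P)
    (h : x + y = 0) : x = 0 ∧ y = 0 := by
  have hx' : x ∈ Eun P := by
    rw [eq_neg_of_add_eq_zero_left h]
    exact (Eun P).neg_mem hy
  have h0 : x = 0 := by
    have := (Hyp.isCompl hP).disjoint.le_bot (show x ∈ Est P ⊓ Eun P from ⟨hx, hx'⟩)
    simpa using this
  refine ⟨h0, ?_⟩
  rw [h0, zero_add] at h
  exact h

lemma FF_inj (hP : Hyp P) (h : IsProj P S U) (n : ℕ) {x : V} (hx : FF P S U n x = 0) : x = 0 := by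
  rw [FF_apply] at hx
  obtain ⟨h1, h2⟩ := eq_zero_of_add hP (h.memS x) (inv_pow_mem_Eun P n (h.memU x)) hx
  have h3 : U x = 0 := by
    have := congrArg (P ^ n) h2
    rwa [pow_inv_apply, map_zero] at this
  rw [← h.add x, h1, h3, add_zero]

lemma tendsto_FF (hP : Hyp P) (h : IsProj P S U) :
    Tendsto (fun n => FF P S U n) atTop (𝓝 S) := by
  obtain ⟨C, μ, hC, hμ0, hμ1, -, hb⟩ := Hyp.bound hP
  rw [tendsto_iff_norm_sub_tendsto_zero]
  have hlim : Tendsto (fun n : ℕ => C * μ ^ n * ‖U‖) atTop (𝓝 0) := by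
    have := (tendsto_pow_atTop_nhds_zero_of_lt_one hμ0.le hμ1).const_mul C
    simpa using this.mul_const ‖U‖
  refine squeeze_zero (fun n => norm_nonneg _) (fun n => ?_) hlim
  refine ContinuousLinearMap.opNorm_le_bound _ (by positivity) fun x => ?_
  have e : (FF P S U n - S) x = (P⁻¹ ^ n) (U x) := by
    rw [sub_apply, FF_apply, add_sub_cancel_left]
  rw [e]
  calc ‖(P⁻¹ ^ n) (U x)‖ ≤ C * μ ^ n * ‖U x‖ := hb _ (h.memU x) n
    _ ≤ C * μ ^ n * (‖U‖ * ‖x‖) :=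
        mul_le_mul_of_nonneg_left (U.le_opNorm x) (by positivity)
    _ = C * μ ^ n * ‖U‖ * ‖x‖ := by ring

lemma tendsto_GG (hP : Hyp P) (h : IsProj P S U) :
    Tendsto (fun n => GG P S U n) atTop (𝓝 U) := by
  obtain ⟨C, μ, hC, hμ0, hμ1, hb, -⟩ := Hyp.bound hP
  rw [tendsto_iff_norm_sub_tendsto_zero]
  have hlim : Tendsto (fun n : ℕ => C * μ ^ n * ‖S‖) atTop (𝓝 0) := by
    have := (tendsto_pow_atTop_nhds_zero_of_lt_one hμ0.le hμ1).const_mul C
    simpa using this.mul_const ‖S‖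
  refine squeeze_zero (fun n => norm_nonneg _) (fun n => ?_) hlim
  refine ContinuousLinearMap.opNorm_le_bound _ (by positivity) fun x => ?_
  have e : (GG P S U n - U) x = (P ^ n) (S x) := by
    rw [sub_apply, GG_apply, add_sub_cancel_right]
  rw [e]
  calc ‖(P ^ n) (S x)‖ ≤ C * μ ^ n * ‖S x‖ := hb _ (h.memS x) n
    _ ≤ C * μ ^ n * (‖S‖ * ‖x‖) :=
        mul_le_mul_of_nonneg_left (S.le_opNorm x) (by positivity)
    _ = C * μ ^ n * ‖S‖ * ‖x‖ := by ring

lemma det_ne_zero_of_inj (T : V →L[ℝ] V) (h : ∀ x, T x = 0 → x = 0) : T.det ≠ 0 := by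
  intro h0
  have h1 := LinearMap.bot_lt_ker_of_det_eq_zero (f := (T : V →ₗ[ℝ] V)) h0
  refine h1.ne' (LinearMap.ker_eq_bot'.2 fun x hx => h x hx)

lemma sign_const (f : ℝ → ℝ) (hf : Continuous f) (h : ∀ t ∈ Icc (0 : ℝ) 1, f t ≠ 0) :
    0 < f 0 * f 1 := by
  by_contra hcon
  push Not at hcon
  have h01 : (0 : ℝ) ∈ uIcc (f 0) (f 1) := by
    rw [mem_uIcc]
    rcases mul_nonpos_iff.1 hcon with h2 | h2
    · exact Or.inr ⟨h2.2, h2.1⟩
    · exact Or.inl ⟨h2.1, h2.2⟩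
  obtain ⟨t, ht, h0⟩ := intermediate_value_uIcc (a := (0 : ℝ)) (b := 1) hf.continuousOn h01
  rw [uIcc_of_le zero_le_one] at ht
  exact h t ht h0

end SeparationAux

open SeparationAux

variable {V : Type*} [NormedAddCommGroup V] [InnerProductSpace ℝ V] [FiniteDimensional ℝ V]

theorem separation {X Y : V ≃L[ℝ] V} {c : ℝ} (hc : 0 < c) (hc' : c ≤ 1 / 2) (hX : Hyp X)
    (hY : Hyp Y) (hdim : Module.finrank ℝ (Est X) = Module.finrank ℝ (Est Y))
    (h : ∀ a b : ℕ, 1 ≤ a → 1 ≤ b → ∀ L R, Near c L → Near c R → Hyp (R * Y ^ b * L * X ^ a))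
    {v w : V} (hw : w ∈ Eun X) (hv : v ∈ Est Y) : c / 4 * ‖w‖ ≤ ‖w - v‖ := by
  by_contra hcon
  push Not at hcon
  have hw0 : 0 < ‖w‖ := by
    by_contra h0
    have : ‖w‖ = 0 := le_antisymm (not_lt.1 h0) (norm_nonneg _)
    rw [this, mul_zero] at hcon
    exact absurd hcon (not_lt.2 (norm_nonneg _))
  obtain ⟨SX, UX, pX⟩ := exists_proj hX
  obtain ⟨SY, UY, pY⟩ := exists_proj hY
  have dX := Submodule.finrank_add_eq_of_isCompl (Hyp.isCompl hX)
  have dY := Submodule.finrank_add_eq_of_isCompl (Hyp.isCompl hY)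
  obtain ⟨L₁, hL₁, tL⟩ := Pool.Agent.OmegaStab.exists_small_transverse (Eun X) (Est Y)
    (by omega) (c / 12) (by positivity)
  obtain ⟨R₁, hR₁, tR⟩ := Pool.Agent.OmegaStab.exists_small_transverse (Est X) (Eun Y)
    (by omega) (c / 2) (by positivity)
  -- the operators
  set A0 : V →L[ℝ] V := ContinuousLinearMap.id ℝ V + L₁ with hA0
  set R' : V →L[ℝ] V := ContinuousLinearMap.id ℝ V + R₁ with hR'
  have hA0x : ∀ x, A0 x = x + L₁ x := fun x => rfl
  have hR'x : ∀ x, R' x = x + R₁ x := fun x => rfl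
  set z : V := A0 w - v with hz
  set φ : V →L[ℝ] ℝ := (‖w‖ ^ 2)⁻¹ • innerSL ℝ w with hφ
  have hφw : φ w = 1 := by
    simp only [hφ, smul_apply, innerSL_apply_apply, smul_eq_mul,
      real_inner_self_eq_norm_sq]
    exact inv_mul_cancel₀ (by positivity)
  have hφn : ∀ x, |φ x| ≤ ‖x‖ / ‖w‖ := by
    intro x
    simp only [hφ, smul_apply, innerSL_apply_apply, smul_eq_mul]
    rw [abs_mul, abs_inv, abs_of_nonneg (by positivity : (0 : ℝ) ≤ ‖w‖ ^ 2)]
    have h1 := abs_real_inner_le_norm w x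
    rw [inv_mul_le_iff₀ (by positivity)]
    calc |inner ℝ w x| ≤ ‖w‖ * ‖x‖ := h1
      _ = ‖w‖ ^ 2 * (‖x‖ / ‖w‖) := by field_simp
  set A : ℝ → V →L[ℝ] V := fun t => A0 - (2 * t) • (φ.smulRight z) with hA
  have hAx : ∀ t x, A t x = A0 x - (2 * t * φ x) • z := by
    intro t x
    simp only [hA, sub_apply, smul_apply,
      ContinuousLinearMap.smulRight_apply, smul_smul]
  have hzn : ‖z‖ ≤ c / 3 * ‖w‖ := by
    have e : z = (w - v) + L₁ w := by rw [hz, hA0x]; abel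
    rw [e]
    have h1 := L₁.le_opNorm w
    have h2 : ‖L₁‖ * ‖w‖ ≤ c / 12 * ‖w‖ := mul_le_mul_of_nonneg_right hL₁.le (norm_nonneg _)
    calc ‖(w - v) + L₁ w‖ ≤ ‖w - v‖ + ‖L₁ w‖ := norm_add_le _ _
      _ ≤ c / 4 * ‖w‖ + c / 12 * ‖w‖ := by linarith
      _ = c / 3 * ‖w‖ := by ring
  have hAnear : ∀ t ∈ Icc (0 : ℝ) 1, ‖A t - ContinuousLinearMap.id ℝ V‖ ≤ c := by
    intro t ht
    refine ContinuousLinearMap.opNorm_le_bound _ hc.le fun x => ?_
    have e : (A t - ContinuousLinearMap.id ℝ V) x = L₁ x - (2 * t * φ x) • z := by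
      rw [sub_apply, hAx, hA0x, ContinuousLinearMap.id_apply]
      abel
    rw [e]
    have h1 := L₁.le_opNorm x
    have h2 : ‖L₁‖ * ‖x‖ ≤ c / 12 * ‖x‖ := mul_le_mul_of_nonneg_right hL₁.le (norm_nonneg _)
    have h3 : ‖(2 * t * φ x) • z‖ ≤ 2 / 3 * c * ‖x‖ := by
      rw [norm_smul, Real.norm_eq_abs, abs_mul, abs_of_nonneg (by linarith [ht.1] : 0 ≤ 2 * t)]
      calc 2 * t * |φ x| * ‖z‖ ≤ 2 * 1 * (‖x‖ / ‖w‖) * (c / 3 * ‖w‖) := by
            refine mul_le_mul ?_ hzn (norm_nonneg _) (by positivity)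
            refine mul_le_mul ?_ (hφn x) (abs_nonneg _) (by norm_num)
            linarith [ht.2]
        _ = 2 / 3 * c * ‖x‖ := by field_simp
    calc ‖L₁ x - (2 * t * φ x) • z‖ ≤ ‖L₁ x‖ + ‖(2 * t * φ x) • z‖ := norm_sub_le _ _
      _ ≤ c / 12 * ‖x‖ + 2 / 3 * c * ‖x‖ := by linarith
      _ ≤ c * ‖x‖ := by nlinarith [norm_nonneg x]
  -- R' is invertible
  have hR'near : ‖R' - ContinuousLinearMap.id ℝ V‖ ≤ c / 2 := by
    have : R' - ContinuousLinearMap.id ℝ V = R₁ := by rw [hR']; abel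
    rw [this]; exact hR₁.le
  obtain ⟨Re, hRe⟩ := exists_equiv R' (by linarith)
  have hRenear : Near c Re⁻¹ := by
    refine Near.inv hc.le hc' ?_
    unfold Near
    rw [hRe]; exact hR'near
  set N : ℕ → ℝ → V →L[ℝ] V := fun n t =>
    FF Y SY UY n ∘L R' ∘L FF X SX UX n - GG Y SY UY n ∘L A t ∘L GG X SX UX n with hN
  set Ni : ℝ → V →L[ℝ] V := fun t => SY ∘L R' ∘L SX - UY ∘L A t ∘L UX with hNi
  have hNx : ∀ n t x, N n t x = FF Y SY UY n (R' (FF X SX UX n x) -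
      (Y ^ n) (A t ((X ^ n) (FF X SX UX n x)))) := by
    intro n t x
    rw [map_sub, FF_pow pY, pow_FF]
    rfl
  have hNinj : ∀ n : ℕ, 1 ≤ n → ∀ t ∈ Icc (0 : ℝ) 1, (N n t).det ≠ 0 := by
    intro n hn t ht
    refine det_ne_zero_of_inj _ fun x hx => ?_
    rw [hNx] at hx
    have h1 := FF_inj hY pY n hx
    obtain ⟨Le, hLe⟩ := exists_equiv (A t) (lt_of_le_of_lt (hAnear t ht) (by linarith))
    have hLen : Near c Le := by unfold Near; rw [hLe]; exact hAnear t ht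
    have hH := h n n hn hn Le Re⁻¹ hLen hRenear
    set x₀ := FF X SX UX n x with hx₀
    have h2 : (Re⁻¹ * Y ^ n * Le * X ^ n) x₀ = x₀ := by
      have h3 : Re x₀ = (Y ^ n) (Le ((X ^ n) x₀)) := by
        have e1 : Re x₀ = R' x₀ := by rw [← hRe]; rfl
        have e2 : Le ((X ^ n) x₀) = A t ((X ^ n) x₀) := by rw [← hLe]; rfl
        rw [e1, e2]
        exact sub_eq_zero.1 h1
      have h4 : (Re⁻¹ * Y ^ n * Le * X ^ n) x₀ = Re⁻¹ ((Y ^ n) (Le ((X ^ n) x₀))) := rfl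
      rw [h4, ← h3, inv_apply_self]
    have h5 := hH 0 x₀ 0
      (by rw [Real.cos_zero, Real.sin_zero, one_smul, zero_smul, sub_zero]; exact h2) (by simp)
    exact FF_inj hX pX n h5.1
  have hcont : ∀ n, Continuous fun t => (N n t).det := by
    intro n
    refine ContinuousLinearMap.continuous_det.comp ?_
    have hAc : Continuous A := by
      simp only [hA]
      fun_prop
    simp only [hN]
    fun_prop
  have hsign : ∀ n : ℕ, 1 ≤ n → 0 < (N n 0).det * (N n 1).det := fun n hn =>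
    sign_const (fun t => (N n t).det) (hcont n) (hNinj n hn)
  have hlim : ∀ t, Tendsto (fun n => N n t) atTop (𝓝 (Ni t)) := by
    intro t
    have hc2 : Continuous fun p : ((V →L[ℝ] V) × (V →L[ℝ] V)) × ((V →L[ℝ] V) × (V →L[ℝ] V)) =>
        p.1.1 ∘L R' ∘L p.1.2 - p.2.1 ∘L A t ∘L p.2.2 := by fun_prop
    have := (hc2.tendsto ((SY, SX), (UY, UX))).comp
      (((tendsto_FF hY pY).prodMk_nhds (tendsto_FF hX pX)).prodMk_nhds
        ((tendsto_GG hY pY).prodMk_nhds (tendsto_GG hX pX)))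
    exact this
  have hge : 0 ≤ (Ni 0).det * (Ni 1).det := by
    have h1 := ((ContinuousLinearMap.continuous_det.tendsto _).comp (hlim 0)).mul
      ((ContinuousLinearMap.continuous_det.tendsto _).comp (hlim 1))
    refine ge_of_tendsto h1 ?_
    filter_upwards [eventually_ge_atTop 1] with n hn
    exact (hsign n hn).le
  -- the limit at 1
  have hA1 : ∀ x, A 1 x = A0 x - (2 * φ x) • z := by
    intro x; rw [hAx, mul_one]
  have hA00 : ∀ x, A 0 x = A0 x := by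
    intro x; rw [hAx]; simp
  have hdet : (Ni 1).det = -(Ni 0).det := by
    let f : Module.Dual ℝ V := -(2 : ℝ) • ((φ ∘L UX : V →L[ℝ] ℝ) : V →ₗ[ℝ] ℝ)
    have hf : ∀ x, f x = -(2 * φ (UX x)) := by
      intro x
      simp [f]
    have e : ((Ni 1 : V →L[ℝ] V) : V →ₗ[ℝ] V) =
        ((Ni 0 : V →L[ℝ] V) : V →ₗ[ℝ] V) ∘ₗ LinearMap.transvection f w := by
      ext x
      have hUYv : UY z = UY (A0 w) := by rw [hz, map_sub, pY.zeroU v hv, sub_zero]
      have e1 : (Ni 1) x = SY (R' (SX x)) - UY (A 1 (UX x)) := rfl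
      have e2 : (Ni 0) (x + f x • w) =
        SY (R' (SX (x + f x • w))) - UY (A 0 (UX (x + f x • w))) := rfl
      have e3 : SX (x + f x • w) = SX x := by
        rw [map_add, map_smul, pX.zeroS w hw, smul_zero, add_zero]
      have e4 : UX (x + f x • w) = UX x + f x • w := by
        rw [map_add, map_smul, pX.idU w hw]
      show (Ni 1) x = (Ni 0) (x + f x • w)
      rw [e1, e2, e3, e4, hA1, hA00, map_sub UY, map_smul UY, hUYv, map_add A0, map_smul A0,
        map_add UY, map_smul UY, hf]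
      module
    have hd : (LinearMap.transvection f w).det = -1 := by
      rw [LinearMap.transvection.det, hf, pX.idU w hw, hφw]
      norm_num
    show LinearMap.det ((Ni 1 : V →L[ℝ] V) : V →ₗ[ℝ] V) =
      -LinearMap.det ((Ni 0 : V →L[ℝ] V) : V →ₗ[ℝ] V)
    rw [e, LinearMap.det_comp, hd]
    ring
  have hne : (Ni 0).det ≠ 0 := by
    refine det_ne_zero_of_inj _ fun x hx => ?_
    have e1 : (Ni 0) x = SY (R' (SX x)) - UY (A 0 (UX x)) := rfl
    rw [e1, hA00] at hx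
    have hx' : SY (R' (SX x)) + (-(UY (A0 (UX x)))) = 0 := by rw [← sub_eq_add_neg]; exact hx
    obtain ⟨h1, h2⟩ := eq_zero_of_add hY (pY.memS _) ((Eun Y).neg_mem (pY.memU (A0 (UX x)))) hx'
    have h3 : SX x = 0 := by
      refine tR (SX x) (pX.memS x) ?_
      have : SX x + R₁ (SX x) = UY (R' (SX x)) := by
        have := pY.add (R' (SX x))
        rw [h1, zero_add] at this
        rw [this, hR'x]
      rw [this]
      exact pY.memU _
    have h4 : UX x = 0 := by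
      refine tL (UX x) (pX.memU x) ?_
      have : UX x + L₁ (UX x) = SY (A0 (UX x)) := by
        have := pY.add (A0 (UX x))
        rw [neg_eq_zero.1 h2, add_zero] at this
        rw [this, hA0x]
      rw [this]
      exact pY.memS _
    rw [← pX.add x, h3, h4, add_zero]
  rw [hdet] at hge
  have : 0 < (Ni 0).det * (Ni 0).det := mul_self_pos.2 hne
  linarith

end Pool.Agent.OmegaPS

end
end

section

/-!
# Products: approximate closed chains of vectors are small, step version (item 50)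
-/

open Set Filter Topology Function

noncomputable section

namespace Pool.Agent.OmegaPS

section Abstract

variable {X V : Type*} [NormedAddCommGroup V] [InnerProductSpace ℝ V]

namespace SolveSteps

theorem coc_one (S : Sys X V) (z : X) : S.coc 1 z = S.a z := by
  change (1 : V ≃L[ℝ] V) * S.a z = S.a z
  rw [one_mul]

theorem coc_succ_apply (S : Sys X V) (t : ℕ) (y : X) (v : V) :
    S.coc (t + 1) y v = S.a ((S.f ^ t) y) (S.coc t y v) := by
  rw [S.coc_add t 1 y, coc_one]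
  rfl

theorem coc_fwd (S : Sys X V) (t s : ℕ) (y : X) (v : V) :
    ‖S.coc (t + s) y v‖ ≤ S.K ^ s * ‖S.coc t y v‖ := by
  rw [S.coc_add t s y]
  exact (S.coc s ((S.f ^ t) y) : V →L[ℝ] V).le_of_opNorm_le (S.norm_coc s _) (S.coc t y v)

theorem coc_bwd (S : Sys X V) (t s : ℕ) (y : X) (v : V) :
    ‖S.coc t y v‖ ≤ S.K ^ s * ‖S.coc (t + s) y v‖ := by
  have h1 := ((S.coc s ((S.f ^ t) y))⁻¹ : V ≃L[ℝ] V).toContinuousLinearMap.le_of_opNorm_le
    (S.norm_coc_inv s _) (S.coc (t + s) y v)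
  have h2 : ((S.coc s ((S.f ^ t) y))⁻¹ : V ≃L[ℝ] V).toContinuousLinearMap (S.coc (t + s) y v) =
      S.coc t y v := by
    rw [S.coc_add t s y]
    change ((S.coc s ((S.f ^ t) y))⁻¹ * (S.coc s ((S.f ^ t) y) * S.coc t y)) v = _
    rw [inv_mul_cancel_left]
  rw [h2] at h1
  exact h1

theorem ang {a b X P Q Y k : ℝ} (_ha : 0 ≤ a) (hb : 0 ≤ b) (hX : 0 ≤ X) (h1 : a ≤ X + b)
    (hP : P ≤ 1 / 4 * a) (hQ : b ≤ 1 / 4 * Q) (h3 : Q ≤ Y + P) (hY : Y ≤ k * X) (hk : 1 ≤ k) :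
    a ≤ 2 * k * X ∧ b ≤ 2 * k * X := by
  have hX' : X ≤ k * X := le_mul_of_one_le_left hX hk
  have e : 2 * k * X = 2 * (k * X) := by ring
  rw [e]
  rcases le_total a (2 * b) with h | h
  · constructor <;> linarith
  · constructor <;> linarith

/-- the angle between the stable and the unstable vectors is bounded at all times -/
theorem angle (S : Sys X V) {C δ : ℝ} {s₀ N : ℕ} (hs₀ : C * Real.exp (-δ * s₀) ≤ 1 / 4)
    (y : X) (hN : 2 * s₀ ≤ N) {Es Eu : Submodule ℝ V}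
    (hws : ∀ v ∈ Es, ∀ t₁ t₂ : ℕ, t₁ ≤ t₂ → t₂ ≤ N →
      ‖S.coc t₂ y v‖ ≤ C * Real.exp (-δ * (t₂ - t₁)) * ‖S.coc t₁ y v‖)
    (hwu : ∀ v ∈ Eu, ∀ t₁ t₂ : ℕ, t₁ ≤ t₂ → t₂ ≤ N →
      ‖S.coc t₁ y v‖ ≤ C * Real.exp (-δ * (t₂ - t₁)) * ‖S.coc t₂ y v‖) :
    ∀ t ≤ N, ∀ v ∈ Es, ∀ w ∈ Eu, ‖S.coc t y v‖ ≤ 2 * S.K ^ s₀ * ‖S.coc t y (v + w)‖ ∧
      ‖S.coc t y w‖ ≤ 2 * S.K ^ s₀ * ‖S.coc t y (v + w)‖ := by
  intro t ht v hv w hw
  have hk : 1 ≤ S.K ^ s₀ := one_le_pow₀ S.one_le_K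
  have e1 : ∀ t, ‖S.coc t y v‖ ≤ ‖S.coc t y (v + w)‖ + ‖S.coc t y w‖ := by
    intro t
    have h1 := norm_sub_le (S.coc t y (v + w)) (S.coc t y w)
    rwa [← map_sub, add_sub_cancel_right] at h1
  have e2 : ∀ t, ‖S.coc t y w‖ ≤ ‖S.coc t y (v + w)‖ + ‖S.coc t y v‖ := by
    intro t
    have h1 := norm_sub_le (S.coc t y (v + w)) (S.coc t y v)
    rwa [← map_sub, add_sub_cancel_left] at h1
  by_cases hcase : t + s₀ ≤ N
  · have h1 := hws v hv t (t + s₀) (Nat.le_add_right _ _) hcase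
    have h2 := hwu w hw t (t + s₀) (Nat.le_add_right _ _) hcase
    have e : (((t + s₀ : ℕ) : ℝ) - (t : ℝ)) = s₀ := by push_cast; ring
    rw [e] at h1 h2
    refine ang (norm_nonneg _) (norm_nonneg _) (norm_nonneg _) (e1 t)
      (P := ‖S.coc (t + s₀) y v‖) (Q := ‖S.coc (t + s₀) y w‖)
      (h1.trans (mul_le_mul_of_nonneg_right hs₀ (norm_nonneg _)))
      (h2.trans (mul_le_mul_of_nonneg_right hs₀ (norm_nonneg _))) (e2 (t + s₀))
      (coc_fwd S t s₀ y (v + w)) hk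
  · obtain ⟨t', rfl⟩ : ∃ t', t = t' + s₀ := ⟨t - s₀, by omega⟩
    have h1 := hws v hv t' (t' + s₀) (Nat.le_add_right _ _) ht
    have h2 := hwu w hw t' (t' + s₀) (Nat.le_add_right _ _) ht
    have e : (((t' + s₀ : ℕ) : ℝ) - (t' : ℝ)) = s₀ := by push_cast; ring
    rw [e] at h1 h2
    refine (ang (norm_nonneg _) (norm_nonneg _) (norm_nonneg _) (e2 (t' + s₀))
      (P := ‖S.coc t' y w‖) (Q := ‖S.coc t' y v‖)
      (h2.trans (mul_le_mul_of_nonneg_right hs₀ (norm_nonneg _)))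
      (h1.trans (mul_le_mul_of_nonneg_right hs₀ (norm_nonneg _))) (e1 t')
      (coc_bwd S t' s₀ y (v + w)) hk).symm

theorem geom_le {r : ℝ} (hr0 : 0 ≤ r) (hr1 : r < 1) (n : ℕ) :
    ∑ k ∈ Finset.range n, r ^ k ≤ (1 - r)⁻¹ := by
  rw [← tsum_geometric_of_lt_one hr0 hr1]
  exact (summable_geometric_of_lt_one hr0 hr1).sum_le_tsum _ (fun k _ => pow_nonneg hr0 k)

/-- estimates on one stage -/
theorem stage (S : Sys X V) {C δ C₁ b : ℝ} {N : ℕ} (hC : 1 ≤ C) (hδ : 0 < δ) (hC₁ : 0 ≤ C₁)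
    (hb : 0 ≤ b) (y : X) {Es Eu : Submodule ℝ V} (hcompl : IsCompl Es Eu)
    (hws : ∀ v ∈ Es, ∀ t₁ t₂ : ℕ, t₁ ≤ t₂ → t₂ ≤ N →
      ‖S.coc t₂ y v‖ ≤ C * Real.exp (-δ * (t₂ - t₁)) * ‖S.coc t₁ y v‖)
    (hwu : ∀ v ∈ Eu, ∀ t₁ t₂ : ℕ, t₁ ≤ t₂ → t₂ ≤ N →
      ‖S.coc t₁ y v‖ ≤ C * Real.exp (-δ * (t₂ - t₁)) * ‖S.coc t₂ y v‖)
    (hang : ∀ t ≤ N, ∀ v ∈ Es, ∀ w ∈ Eu, ‖S.coc t y v‖ ≤ C₁ * ‖S.coc t y (v + w)‖ ∧
      ‖S.coc t y w‖ ≤ C₁ * ‖S.coc t y (v + w)‖) (w : ℕ → V)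
    (hw : ∀ t < N, ‖w (t + 1) - S.a ((S.f ^ t) y) (w t)‖ ≤ b) :
    ∃ s u : ℕ → V, (∀ t, s t ∈ Es) ∧ (∀ t, u t ∈ Eu) ∧ (∀ t, S.coc t y (s t + u t) = w t) ∧
      (∀ t ≤ N, ‖S.coc t y (s t)‖ ≤
        C * Real.exp (-δ * t) * ‖s 0‖ + C * C₁ * (1 - Real.exp (-δ))⁻¹ * b) ∧
      ∀ t ≤ N, ‖S.coc t y (u t)‖ ≤
        C * Real.exp (-δ * (N - t)) * ‖S.coc N y (u N)‖ + C * C₁ * (1 - Real.exp (-δ))⁻¹ * b := by
  set r := Real.exp (-δ) with hr
  have hr0 : 0 ≤ r := (Real.exp_pos _).le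
  have hr1 : r < 1 := by rw [hr, Real.exp_lt_one_iff]; linarith
  have hrpow : ∀ k : ℕ, Real.exp (-δ * k) = r ^ k := by
    intro k
    rw [hr, ← Real.exp_nat_mul]
    congr 1
    ring
  have hdec : ∀ x : V, ∃ s ∈ Es, ∃ u ∈ Eu, s + u = x := by
    intro x
    have h1 : x ∈ Es ⊔ Eu := by
      rw [hcompl.sup_eq_top]
      exact Submodule.mem_top
    exact Submodule.mem_sup.1 h1
  choose ps hps pu hpu hpsu using hdec
  set g : ℕ → V := fun τ => (S.coc (τ + 1) y).symm (w (τ + 1) - S.a ((S.f ^ τ) y) (w τ)) with hg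
  have hcg : ∀ τ, S.coc (τ + 1) y (g τ) = w (τ + 1) - S.a ((S.f ^ τ) y) (w τ) := fun τ =>
    (S.coc (τ + 1) y).apply_symm_apply _
  set s : ℕ → V := fun t => ps (w 0) + ∑ τ ∈ Finset.range t, ps (g τ) with hs
  set u : ℕ → V := fun t => pu (w 0) + ∑ τ ∈ Finset.range t, pu (g τ) with hu
  have hxs : ∀ τ < N, ‖S.coc (τ + 1) y (ps (g τ))‖ ≤ C₁ * b := by
    intro τ hτ
    have h1 := (hang (τ + 1) hτ _ (hps (g τ)) _ (hpu (g τ))).1
    rw [hpsu, hcg] at h1
    exact h1.trans (mul_le_mul_of_nonneg_left (hw τ hτ) hC₁)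
  have hxu : ∀ τ < N, ‖S.coc (τ + 1) y (pu (g τ))‖ ≤ C₁ * b := by
    intro τ hτ
    have h1 := (hang (τ + 1) hτ _ (hps (g τ)) _ (hpu (g τ))).2
    rw [hpsu, hcg] at h1
    exact h1.trans (mul_le_mul_of_nonneg_left (hw τ hτ) hC₁)
  have hC0 : 0 ≤ C := by linarith
  have hCb : 0 ≤ C * C₁ * b := by positivity
  refine ⟨s, u, ?_, ?_, ?_, ?_, ?_⟩
  · intro t
    exact Es.add_mem (hps _) (Submodule.sum_mem _ fun τ _ => hps _)
  · intro t
    exact Eu.add_mem (hpu _) (Submodule.sum_mem _ fun τ _ => hpu _)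
  · intro t
    induction t with
    | zero =>
      simp only [hs, hu, Finset.range_zero, Finset.sum_empty, add_zero]
      exact hpsu (w 0)
    | succ t ih =>
      have h1 : s (t + 1) + u (t + 1) = (s t + u t) + g t := by
        have e := hpsu (g t)
        simp only [hs, hu, Finset.sum_range_succ]
        calc _ = ps (w 0) + ∑ τ ∈ Finset.range t, ps (g τ) +
              (pu (w 0) + ∑ τ ∈ Finset.range t, pu (g τ)) + (ps (g t) + pu (g t)) := by abel
          _ = _ := by rw [e]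
      rw [h1, map_add, hcg, coc_succ_apply, ih]
      abel
  · intro t ht
    have h1 : S.coc t y (s t) = S.coc t y (s 0) + ∑ τ ∈ Finset.range t, S.coc t y (ps (g τ)) := by
      simp only [hs, Finset.range_zero, Finset.sum_empty, add_zero]
      rw [map_add, map_sum]
    have h2 := hws (s 0) (Es.add_mem (hps _) (Submodule.sum_mem _ fun τ _ => hps _)) 0 t
      (Nat.zero_le _) ht
    rw [Nat.cast_zero, sub_zero] at h2
    have h3 : S.coc 0 y (s 0) = s 0 := rfl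
    rw [h3] at h2
    have h4 : ∀ τ ∈ Finset.range t, ‖S.coc t y (ps (g τ))‖ ≤ C * C₁ * b * r ^ (t - 1 - τ) := by
      intro τ hτ
      rw [Finset.mem_range] at hτ
      have h5 := hws (ps (g τ)) (hps _) (τ + 1) t hτ ht
      have e : ((t : ℝ) - ((τ + 1 : ℕ) : ℝ)) = ((t - 1 - τ : ℕ) : ℝ) := by
        have : t = (t - 1 - τ) + (τ + 1) := by omega
        conv_lhs => rw [this]
        push_cast
        ring
      rw [e, hrpow] at h5
      calc ‖S.coc t y (ps (g τ))‖ ≤ C * r ^ (t - 1 - τ) * ‖S.coc (τ + 1) y (ps (g τ))‖ := h5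
        _ ≤ C * r ^ (t - 1 - τ) * (C₁ * b) :=
            mul_le_mul_of_nonneg_left (hxs τ (by omega)) (by positivity)
        _ = C * C₁ * b * r ^ (t - 1 - τ) := by ring
    have h6 : ∑ τ ∈ Finset.range t, C * C₁ * b * r ^ (t - 1 - τ) ≤ C * C₁ * b * (1 - r)⁻¹ := by
      rw [← Finset.mul_sum, Finset.sum_range_reflect (fun k => r ^ k) t]
      exact mul_le_mul_of_nonneg_left (geom_le hr0 hr1 t) hCb
    calc ‖S.coc t y (s t)‖ ≤ ‖S.coc t y (s 0)‖ + ‖∑ τ ∈ Finset.range t, S.coc t y (ps (g τ))‖ := by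
          rw [h1]; exact norm_add_le _ _
      _ ≤ C * Real.exp (-δ * t) * ‖s 0‖ + ∑ τ ∈ Finset.range t, C * C₁ * b * r ^ (t - 1 - τ) :=
          add_le_add h2 ((norm_sum_le _ _).trans (Finset.sum_le_sum h4))
      _ ≤ C * Real.exp (-δ * t) * ‖s 0‖ + C * C₁ * b * (1 - r)⁻¹ := by linarith
      _ = _ := by ring
  · intro t ht
    have h0 : u N = u t + ∑ τ ∈ Finset.Ico t N, pu (g τ) := by
      simp only [hu]
      rw [add_assoc, Finset.sum_range_add_sum_Ico _ ht]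
    have h1 : S.coc t y (u t) = S.coc t y (u N) - ∑ τ ∈ Finset.Ico t N, S.coc t y (pu (g τ)) := by
      have e1 := map_add (S.coc t y) (u t) (∑ τ ∈ Finset.Ico t N, pu (g τ))
      have e2 := map_sum (S.coc t y) (fun τ => pu (g τ)) (Finset.Ico t N)
      rw [h0, e1, e2, add_sub_cancel_right]
    have h2 := hwu (u N) (Eu.add_mem (hpu _) (Submodule.sum_mem _ fun τ _ => hpu _)) t N ht le_rfl
    have h4 : ∀ τ ∈ Finset.Ico t N, ‖S.coc t y (pu (g τ))‖ ≤ C * C₁ * b * r ^ (τ - t) := by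
      intro τ hτ
      rw [Finset.mem_Ico] at hτ
      have h5 := hwu (pu (g τ)) (hpu _) t (τ + 1) (by omega) hτ.2
      have e : (((τ + 1 : ℕ) : ℝ) - (t : ℝ)) = ((τ - t + 1 : ℕ) : ℝ) := by
        have : τ = (τ - t) + t := by omega
        conv_lhs => rw [this]
        push_cast
        ring
      rw [e, hrpow] at h5
      calc ‖S.coc t y (pu (g τ))‖ ≤ C * r ^ (τ - t + 1) * ‖S.coc (τ + 1) y (pu (g τ))‖ := h5
        _ ≤ C * r ^ (τ - t) * (C₁ * b) := by
            refine mul_le_mul (mul_le_mul_of_nonneg_left ?_ hC0) (hxu τ hτ.2) (norm_nonneg _)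
              (by positivity)
            exact pow_le_pow_of_le_one hr0 hr1.le (Nat.le_succ _)
        _ = C * C₁ * b * r ^ (τ - t) := by ring
    have h6 : ∑ τ ∈ Finset.Ico t N, C * C₁ * b * r ^ (τ - t) ≤ C * C₁ * b * (1 - r)⁻¹ := by
      rw [← Finset.mul_sum, Finset.sum_Ico_eq_sum_range]
      simp only [Nat.add_sub_cancel_left]
      exact mul_le_mul_of_nonneg_left (geom_le hr0 hr1 _) hCb
    calc ‖S.coc t y (u t)‖
        ≤ ‖S.coc t y (u N)‖ + ‖∑ τ ∈ Finset.Ico t N, S.coc t y (pu (g τ))‖ := by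
          rw [h1]; exact norm_sub_le _ _
      _ ≤ C * Real.exp (-δ * (N - t)) * ‖S.coc N y (u N)‖ +
          ∑ τ ∈ Finset.Ico t N, C * C₁ * b * r ^ (τ - t) :=
          add_le_add h2 ((norm_sum_le _ _).trans (Finset.sum_le_sum h4))
      _ ≤ C * Real.exp (-δ * (N - t)) * ‖S.coc N y (u N)‖ + C * C₁ * b * (1 - r)⁻¹ := by linarith
      _ = _ := by ring

theorem exp_small {a δ : ℝ} (hδ : 0 < δ) : ∃ N : ℕ, ∀ n : ℕ, N ≤ n →
    a * Real.exp (-δ * n) ≤ 1 / 4 := by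
  obtain ⟨N, hN⟩ := exists_nat_gt (4 * a / δ)
  refine ⟨N, fun n hn => ?_⟩
  have h1 : (N : ℝ) ≤ n := by exact_mod_cast hn
  rw [div_lt_iff₀ hδ] at hN
  have h2 : 4 * a ≤ δ * n := by nlinarith
  have h3 : δ * n + 1 ≤ Real.exp (δ * n) := Real.add_one_le_exp _
  have h4 : Real.exp (-δ * n) = (Real.exp (δ * n))⁻¹ := by rw [neg_mul, Real.exp_neg]
  rw [h4, ← div_eq_mul_inv, div_le_iff₀ (Real.exp_pos _)]
  linarith

end SolveSteps

open SolveSteps

theorem chain_solve_steps [FiniteDimensional ℝ V] (S : Sys X V) {p : ℕ} (hp : 1 ≤ p) {C δ : ℝ}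
    {n₀ : ℕ} (hC : 1 ≤ C) (hδ : 0 < δ) (h : ChainUH S p C δ n₀) :
    ∃ (C' : ℝ) (n₁ : ℕ), 0 < C' ∧ 1 ≤ n₁ ∧ ∀ (y : ZMod p → X) (n : ZMod p → ℕ)
      (D : ZMod p → V ≃L[ℝ] V), (∀ q, n₁ ≤ n q) →
      (∀ q, S.Tr ((S.f ^ n q) (y q)) (y (q + 1)) (D q)) → ∀ (w : ZMod p → ℕ → V) (b : ℝ),
        (∀ q, ∀ t < n q, ‖w q (t + 1) - S.a ((S.f ^ t) (y q)) (w q t)‖ ≤ b) →
        (∀ q, ‖w (q + 1) 0 - D q (w q (n q))‖ ≤ b) → ∀ q, ∀ t ≤ n q, ‖w q t‖ ≤ C' * b := by
  have : NeZero p := ⟨by omega⟩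
  have hK := S.one_le_K
  set K := S.K with hKdef
  obtain ⟨s₀, hs₀⟩ := exp_small (a := C) hδ
  obtain ⟨m₁, hm₁⟩ := exp_small (a := K * C) hδ
  set C₁ : ℝ := 2 * K ^ s₀ with hC₁
  have hC₁0 : 0 ≤ C₁ := by positivity
  have hr1 : Real.exp (-δ) < 1 := by rw [Real.exp_lt_one_iff]; linarith
  set C₂ : ℝ := C * C₁ * (1 - Real.exp (-δ))⁻¹ with hC₂
  have hinv : 0 ≤ (1 - Real.exp (-δ))⁻¹ := inv_nonneg.2 (by linarith)
  have hC₂0 : 0 ≤ C₂ := by positivity
  set C₃ : ℝ := C + K * C₂ with hC₃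
  set C₄ : ℝ := K * (C₂ + C) with hC₄
  have hC₃0 : 0 ≤ C₃ := by positivity
  have hC₄0 : 0 ≤ C₄ := by positivity
  refine ⟨C * (2 * C₃) + C₂ + (C * (2 * C₄) + C₂) + 1, max (max n₀ 1) (max (2 * s₀) m₁),
    by positivity, le_max_of_le_left (le_max_right _ _), ?_⟩
  intro y n D hn hTr w b hw hj
  have hb : 0 ≤ b := (norm_nonneg _).trans (hj 0)
  have hn₀ : ∀ q, n₀ ≤ n q := fun q => (le_max_left n₀ 1).trans ((le_max_left _ _).trans (hn q))
  have hns : ∀ q, 2 * s₀ ≤ n q := fun q =>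
    (le_max_left (2 * s₀) m₁).trans ((le_max_right _ _).trans (hn q))
  have hnm : ∀ q, m₁ ≤ n q := fun q =>
    (le_max_right (2 * s₀) m₁).trans ((le_max_right _ _).trans (hn q))
  obtain ⟨Es, Eu, hcompl, hangle, hEs, hEu, hws, hwu⟩ := h y n D hn₀ hTr
  have hstage := fun q => stage S hC hδ hC₁0 hb (y q) (hcompl q) (hws q) (hwu q)
    (angle S (hs₀ s₀ le_rfl) (y q) (hns q) (hws q) (hwu q)) (w q) (hw q)
  choose s u hsE huE hsu hsb hub using hstage
  have hDn : ∀ q v, ‖D q v‖ ≤ K * ‖v‖ := fun q v =>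
    (D q : V →L[ℝ] V).le_of_opNorm_le (S.norm_Tr _ _ _ (hTr q)).1 v
  have hDn' : ∀ q v, ‖v‖ ≤ K * ‖D q v‖ := by
    intro q v
    have h1 := ((D q)⁻¹ : V ≃L[ℝ] V).toContinuousLinearMap.le_of_opNorm_le
      (S.norm_Tr _ _ _ (hTr q)).2 (D q v)
    have h2 : ((D q)⁻¹ : V ≃L[ℝ] V).toContinuousLinearMap (D q v) = v := by
      change ((D q)⁻¹ * D q) v = v
      rw [inv_mul_cancel]
      rfl
    rw [h2] at h1
    exact h1
  have hsplit : ∀ q, ‖s (q + 1) 0 - D q (S.coc (n q) (y q) (s q (n q)))‖ ≤ C * b ∧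
      ‖u (q + 1) 0 - D q (S.coc (n q) (y q) (u q (n q)))‖ ≤ C * b := by
    intro q
    have h1 : s (q + 1) 0 - D q (S.coc (n q) (y q) (s q (n q))) ∈ Es (q + 1) :=
      Submodule.sub_mem _ (hsE _ _) (hEs q _ (hsE _ _))
    have h2 : u (q + 1) 0 - D q (S.coc (n q) (y q) (u q (n q))) ∈ Eu (q + 1) :=
      Submodule.sub_mem _ (huE _ _) (hEu q _ (huE _ _))
    have h3 := hangle (q + 1) _ h1 _ h2
    have h4 : (s (q + 1) 0 - D q (S.coc (n q) (y q) (s q (n q)))) +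
        (u (q + 1) 0 - D q (S.coc (n q) (y q) (u q (n q)))) =
        w (q + 1) 0 - D q (w q (n q)) := by
      have h5 : S.coc 0 (y (q + 1)) (s (q + 1) 0 + u (q + 1) 0) = s (q + 1) 0 + u (q + 1) 0 := rfl
      rw [← hsu q (n q), ← hsu (q + 1) 0, h5, map_add (S.coc (n q) (y q)), map_add (D q)]
      abel
    rw [h4] at h3
    have h5 := mul_le_mul_of_nonneg_left (hj q) (show (0 : ℝ) ≤ C by linarith)
    exact ⟨h3.1.trans h5, h3.2.trans h5⟩
  -- stable part
  have hstep : ∀ q, ‖s (q + 1) 0‖ ≤ 1 / 4 * ‖s q 0‖ + C₃ * b := by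
    intro q
    have h1 := (hsplit q).1
    have h2 := hsb q (n q) le_rfl
    have h3 := hDn q (S.coc (n q) (y q) (s q (n q)))
    have h4 : ‖s (q + 1) 0‖ ≤ ‖s (q + 1) 0 - D q (S.coc (n q) (y q) (s q (n q)))‖ +
        ‖D q (S.coc (n q) (y q) (s q (n q)))‖ := by
      have := norm_add_le (s (q + 1) 0 - D q (S.coc (n q) (y q) (s q (n q))))
        (D q (S.coc (n q) (y q) (s q (n q))))
      rwa [sub_add_cancel] at this
    have h5 := hm₁ (n q) (hnm q)
    have h6 : K * ‖S.coc (n q) (y q) (s q (n q))‖ ≤ 1 / 4 * ‖s q 0‖ + K * C₂ * b := by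
      calc K * ‖S.coc (n q) (y q) (s q (n q))‖
          ≤ K * (C * Real.exp (-δ * (n q)) * ‖s q 0‖ + C₂ * b) :=
            mul_le_mul_of_nonneg_left h2 (by linarith)
        _ = (K * C * Real.exp (-δ * (n q))) * ‖s q 0‖ + K * C₂ * b := by ring
        _ ≤ _ := by
            have := mul_le_mul_of_nonneg_right h5 (norm_nonneg (s q 0))
            linarith
    have h7 : C₃ * b = C * b + K * C₂ * b := by rw [hC₃]; ring
    linarith
  have hs0 : ∀ q, ‖s q 0‖ ≤ 2 * C₃ * b := by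
    obtain ⟨qs, -, hqs⟩ := Finset.exists_max_image (Finset.univ : Finset (ZMod p))
      (fun q => ‖s q 0‖) ⟨0, Finset.mem_univ _⟩
    have h1 := hstep (qs - 1)
    rw [sub_add_cancel] at h1
    have h2 : ‖s (qs - 1) 0‖ ≤ ‖s qs 0‖ := hqs (qs - 1) (Finset.mem_univ _)
    intro q
    have h3 : ‖s q 0‖ ≤ ‖s qs 0‖ := hqs q (Finset.mem_univ _)
    have h4 : 0 ≤ C₃ * b := mul_nonneg hC₃0 hb
    linarith
  -- unstable part
  have hstepu : ∀ q, ‖S.coc (n q) (y q) (u q (n q))‖ ≤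
      1 / 4 * ‖S.coc (n (q + 1)) (y (q + 1)) (u (q + 1) (n (q + 1)))‖ + C₄ * b := by
    intro q
    have h1 := (hsplit q).2
    have h2 := hub (q + 1) 0 (Nat.zero_le _)
    have h0 : S.coc 0 (y (q + 1)) (u (q + 1) 0) = u (q + 1) 0 := rfl
    rw [h0, Nat.cast_zero, sub_zero] at h2
    have h3 := hDn' q (S.coc (n q) (y q) (u q (n q)))
    have h4 : ‖D q (S.coc (n q) (y q) (u q (n q)))‖ ≤
        ‖u (q + 1) 0‖ + ‖u (q + 1) 0 - D q (S.coc (n q) (y q) (u q (n q)))‖ := by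
      have := norm_sub_le (u (q + 1) 0) (u (q + 1) 0 - D q (S.coc (n q) (y q) (u q (n q))))
      rwa [sub_sub_cancel] at this
    have h5 := hm₁ (n (q + 1)) (hnm (q + 1))
    set U := ‖S.coc (n (q + 1)) (y (q + 1)) (u (q + 1) (n (q + 1)))‖ with hU
    calc ‖S.coc (n q) (y q) (u q (n q))‖ ≤ K * ‖D q (S.coc (n q) (y q) (u q (n q)))‖ := h3
      _ ≤ K * ((C * Real.exp (-δ * (n (q + 1))) * U + C₂ * b) + C * b) :=
          mul_le_mul_of_nonneg_left (by linarith) (by linarith)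
      _ = (K * C * Real.exp (-δ * (n (q + 1)))) * U + C₄ * b := by rw [hC₄]; ring
      _ ≤ _ := by
          have := mul_le_mul_of_nonneg_right h5 (show 0 ≤ U from norm_nonneg _)
          linarith
  have hu0 : ∀ q, ‖S.coc (n q) (y q) (u q (n q))‖ ≤ 2 * C₄ * b := by
    obtain ⟨qu, -, hqu⟩ := Finset.exists_max_image (Finset.univ : Finset (ZMod p))
      (fun q => ‖S.coc (n q) (y q) (u q (n q))‖) ⟨0, Finset.mem_univ _⟩
    have h1 := hstepu qu
    have h2 : ‖S.coc (n (qu + 1)) (y (qu + 1)) (u (qu + 1) (n (qu + 1)))‖ ≤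
      ‖S.coc (n qu) (y qu) (u qu (n qu))‖ := hqu (qu + 1) (Finset.mem_univ _)
    intro q
    have h3 : ‖S.coc (n q) (y q) (u q (n q))‖ ≤ ‖S.coc (n qu) (y qu) (u qu (n qu))‖ :=
      hqu q (Finset.mem_univ _)
    have h4 : 0 ≤ C₄ * b := mul_nonneg hC₄0 hb
    linarith
  intro q t ht
  have h1 := hsb q t ht
  have h2 := hub q t ht
  have h3 : ‖w q t‖ ≤ ‖S.coc t (y q) (s q t)‖ + ‖S.coc t (y q) (u q t)‖ := by
    rw [← hsu q t, map_add]
    exact norm_add_le _ _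
  have e1 : Real.exp (-δ * t) ≤ 1 := by
    rw [Real.exp_le_one_iff]
    have : (0 : ℝ) ≤ t := Nat.cast_nonneg t
    nlinarith
  have e2 : Real.exp (-δ * (n q - t)) ≤ 1 := by
    rw [Real.exp_le_one_iff]
    have : (t : ℝ) ≤ n q := by exact_mod_cast ht
    nlinarith
  have h4 : C * Real.exp (-δ * t) * ‖s q 0‖ ≤ C * (2 * C₃ * b) := by
    have : C * Real.exp (-δ * t) ≤ C := mul_le_of_le_one_right (by linarith) e1
    exact mul_le_mul this (hs0 q) (norm_nonneg _) (by linarith)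
  have h5 : C * Real.exp (-δ * (n q - t)) * ‖S.coc (n q) (y q) (u q (n q))‖ ≤
      C * (2 * C₄ * b) := by
    have : C * Real.exp (-δ * (n q - t)) ≤ C := mul_le_of_le_one_right (by linarith) e2
    exact mul_le_mul this (hu0 q) (norm_nonneg _) (by linarith)
  have h6 : (C * (2 * C₃) + C₂ + (C * (2 * C₄) + C₂) + 1) * b =
      C * (2 * C₃ * b) + C₂ * b + (C * (2 * C₄ * b) + C₂ * b) + b := by ring
  linarith

end Abstract

end Pool.Agent.OmegaPS

end
end

section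

/-!
# MP_814647_an, item 09 (helper40): the inverse system
-/

open Set Filter Topology Function

noncomputable section

namespace Pool.Agent.OmegaPS

section Abstract

variable {X V : Type*} [NormedAddCommGroup V] [InnerProductSpace ℝ V]

namespace SysInv

/-- The inverse system. -/
def invSys (S : Sys X V) : Sys X V where
  f := S.f⁻¹
  a y := (S.a (S.f⁻¹ y))⁻¹
  K := S.K
  one_le_K := S.one_le_K
  norm_a y := S.norm_a' _
  norm_a' y := by
    rw [inv_inv]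
    exact S.norm_a _
  κ := S.κ
  fin := S.fin
  cell := S.cell
  c := S.c / 2
  c_pos := by linarith [S.c_pos]
  c_le := by linarith [S.c_le, S.c_pos]
  Tr z y D := S.Tr y z D⁻¹
  norm_Tr z y D h := by
    have h1 := S.norm_Tr y z D⁻¹ h
    rw [inv_inv] at h1
    exact ⟨h1.2, h1.1⟩
  tr_cell z y D h hD := S.tr_cell y z D⁻¹ h.symm (Near.inv S.c_pos.le S.c_le hD)

theorem invSys_coc (S : Sys X V) (n : ℕ) (y : X) :
    (invSys S).coc n ((S.f ^ n) y) = (S.coc n y)⁻¹ := by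
  induction n with
  | zero => simp [Sys.coc]
  | succ n ih =>
    have h1 : (S.f ^ (n + 1)) y = S.f ((S.f ^ n) y) := by
      rw [pow_succ', Equiv.Perm.mul_apply]
    have h2 : S.f⁻¹ (S.f ((S.f ^ n) y)) = (S.f ^ n) y := Equiv.symm_apply_apply _ _
    have h3 : S.coc (n + 1) y = S.a ((S.f ^ n) y) * S.coc n y := by
      rw [Sys.coc_add S n 1 y]
      rfl
    have h4 : (invSys S).coc (n + 1) ((S.f ^ (n + 1)) y) =
        (invSys S).coc n (S.f⁻¹ ((S.f ^ (n + 1)) y)) * (S.a (S.f⁻¹ ((S.f ^ (n + 1)) y)))⁻¹ := rfl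
    rw [h4, h1, h2, ih, h3, mul_inv_rev]

end SysInv

theorem Path.inv {S S' : Sys X V} (hf : S'.f = S.f⁻¹)
    (hcoc : ∀ n y, S'.coc n ((S.f ^ n) y) = (S.coc n y)⁻¹) {ι : Type*} {τ : ι → Trans X V}
    {m : ℕ} {i j : ι} {n : ℕ} {M : V ≃L[ℝ] V} (h : Path S τ m i j n M) :
    Path S' (fun i => (τ i).inv) m j i n M⁻¹ := by
  induction h with
  | @stage i j n hn h =>
    rw [← hcoc, h]
    refine Path.stage (τ := fun i => (τ i).inv) (i := j) (j := i) n hn ?_
    show (S'.f ^ n) (τ j).src = (τ i).tgt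
    rw [← h, hf, inv_pow]
    exact Equiv.symm_apply_apply _ _
  | @comp i j l n n' M M' _ _ ih ih' =>
    have h1 := Path.comp ih' ih
    have h2 : M⁻¹ * ((fun i => (τ i).inv) j).mat * M'⁻¹ = (M' * (τ j).mat * M)⁻¹ := by
      show M⁻¹ * (τ j).mat⁻¹ * M'⁻¹ = (M' * (τ j).mat * M)⁻¹
      rw [mul_inv_rev, mul_inv_rev, mul_assoc]
    rw [h2, Nat.add_comm] at h1
    exact h1

theorem Word.inv {S S' : Sys X V} (hf : S'.f = S.f⁻¹)
    (hcoc : ∀ n y, S'.coc n ((S.f ^ n) y) = (S.coc n y)⁻¹) {ι : Type*} {τ : ι → Trans X V}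
    {m : ℕ} {i j : ι} {n : ℕ} {B : V ≃L[ℝ] V} (h : Word S τ m i j n B) :
    Word S' (fun i => (τ i).inv) m j i n B⁻¹ := by
  rcases h with ⟨rfl, hn, rfl⟩ | ⟨M, hM, rfl⟩
  · exact Or.inl ⟨rfl, hn, rfl⟩
  · refine Or.inr ⟨M⁻¹, Path.inv hf hcoc hM, ?_⟩
    show ((τ j).mat * M * (τ i).mat)⁻¹ = (τ i).mat⁻¹ * M⁻¹ * (τ j).mat⁻¹
    rw [mul_inv_rev, mul_inv_rev, mul_assoc]

/-! AB2 : the inverse system -/
theorem exists_inv_sys (S : Sys X V) (m k : ℕ) (h : Star S m k) :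
    ∃ S' : Sys X V, S'.f = S.f⁻¹ ∧ S'.K = S.K ∧ S'.c = S.c / 2 ∧ Star S' m k ∧
      (∀ n y, S'.coc n ((S.f ^ n) y) = (S.coc n y)⁻¹) ∧
      ∀ z y D, S'.Tr z y D ↔ S.Tr y z D⁻¹ := by
  refine ⟨SysInv.invSys S, rfl, rfl, rfl, ?_, SysInv.invSys_coc S, fun z y D => Iff.rfl⟩
  intro ι _ hι τ hτ i n M hM
  have hf : S.f = (SysInv.invSys S).f⁻¹ := (inv_inv _).symm
  have hcoc : ∀ n y, S.coc n (((SysInv.invSys S).f ^ n) y) = ((SysInv.invSys S).coc n y)⁻¹ := by
    intro n y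
    have h1 := SysInv.invSys_coc S n (((SysInv.invSys S).f ^ n) y)
    have h2 : (S.f ^ n) (((SysInv.invSys S).f ^ n) y) = y := by
      show (S.f ^ n) ((S.f⁻¹ ^ n) y) = y
      rw [inv_pow]
      exact Equiv.apply_symm_apply _ _
    rw [h2] at h1
    rw [h1, inv_inv]
  have h1 := Path.inv hf hcoc hM
  have h2 := h ι hι (fun i => (τ i).inv) (fun i => hτ i) i n M⁻¹ h1
  have h3 := Hyp.inv h2
  have h4 : (((fun i => (τ i).inv) i).mat * M⁻¹)⁻¹ = M * (τ i).mat := by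
    show ((τ i).mat⁻¹ * M⁻¹)⁻¹ = M * (τ i).mat
    rw [mul_inv_rev, inv_inv, inv_inv]
  rw [h4] at h3
  exact (hyp_mul_comm _ _).1 h3

end Abstract

end Pool.Agent.OmegaPS

end
end

section

/-!
# The gap
-/

open Set Filter Topology Function

noncomputable section

namespace Pool.Agent.OmegaPS

open Pool.Agent.OmegaStab (HypLin)

namespace IGap

variable {X V : Type*} [NormedAddCommGroup V] [InnerProductSpace ℝ V]

theorem len {S : Sys X V} {ι : Type*} {τ : ι → Trans X V} {m : ℕ} {i j : ι} {n : ℕ}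
    {M : V ≃L[ℝ] V} (h : Path S τ m i j n M) : m ≤ n := by
  induction h with
  | stage n hn h => exact hn
  | comp _ _ h1 h2 => omega

/-- Full periods. -/
theorem periods {S : Sys X V} {ι : Type*} {τ : ι → Trans X V} {m : ℕ} {a i : ι} {n t : ℕ}
    {M W : V ≃L[ℝ] V} (h : Path S τ m i i n M) (h1 : Path S τ m a i t W) (q : ℕ) :
    ∃ t', Path S τ m a i t' ((M * (τ i).mat) ^ q * W) := by
  induction q with
  | zero => exact ⟨t, by simpa using h1⟩
  | succ q ih =>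
    obtain ⟨t', ht'⟩ := ih
    refine ⟨t' + n, ?_⟩
    have := Path.comp ht' h
    rw [pow_succ', mul_assoc]
    exact this

/-- The enlarged family. -/
def ex (ι : Type) (τ : ι → Trans X V) (y x : X) (D : V ≃L[ℝ] V) : Option ι → Trans X V
  | none => ⟨y, x, D⟩
  | some i => τ i

/-- The contradiction: a word which fixes a nonzero vector. -/
theorem not_fix {S : Sys X V} {m k : ℕ} (h : Star S m (k + 1)) {ι : Type} [Fintype ι]
    (hι : Fintype.card ι ≤ k) {τ : ι → Trans X V}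
    (hτ : ∀ i, S.Tr (τ i).src (τ i).tgt (τ i).mat) {x y : X} {D : V ≃L[ℝ] V}
    (hcell : S.cell y = S.cell x) (hD : Near S.c D) {t : ℕ} {W : V ≃L[ℝ] V}
    (hW : Path S (ex ι τ y x D) m none none t W)
    {u : V} (hu : u ≠ 0) (hfix : D (W u) = u) : False := by
  have h1 := h (Option ι) (by rw [Fintype.card_option]; omega) (ex ι τ y x D) (by
      intro o
      cases o with
      | none => exact S.tr_cell y x D hcell hD
      | some i => exact hτ i) none t W hW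
  have h2 := h1 0 u 0 (by
    simp only [Real.cos_zero, Real.sin_zero, one_smul, smul_zero, sub_zero]
    exact hfix) (by simp)
  exact hu h2.1

/-- Pigeonhole. -/
theorem pigeon {κ : Type} [Fintype κ] {Q K m n : ℕ} {c : ℝ} (hc : 0 < c) (hm : 1 ≤ m)
    (hn : 1 ≤ n) (hnK : n ≤ 2 * m * K) {η : ℝ}
    (hη : |η| ≤ c / (32 * m * (Fintype.card κ * Q + 1))) {C₁ : ℝ} (hC₁ : 0 ≤ C₁)
    (cell : Fin K → κ) (dir : Fin K → ℕ → Fin Q) (g : Fin K → ℕ → ℝ)
    (hg : ∀ r j, |g r j + η * n * j| ≤ C₁) :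
    ∃ (r : Fin K) (j : ℕ) (s : Fin K) (l : ℕ), (j < l ∨ (j = l ∧ r < s)) ∧ cell r = cell s ∧
      dir r j = dir s l ∧ |g r j - g s l| ≤ c / 4 := by
  obtain ⟨Q', hQ'⟩ : ∃ Q' : ℝ, Q' = Fintype.card κ * Q + 1 := ⟨_, rfl⟩
  have hQ0 : 0 < Q' := by rw [hQ']; positivity
  rw [← hQ'] at hη
  obtain ⟨N, hN⟩ := exists_nat_gt (2 * (Q' * (8 / c * C₁ + 3)))
  have hm0 : (0 : ℝ) < m := by exact_mod_cast hm
  have hK1 : 1 ≤ K := by
    rcases Nat.eq_zero_or_pos K with h | h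
    · subst h
      omega
    · exact h
  have hK0 : (1 : ℝ) ≤ K := by exact_mod_cast hK1
  have hN0 : (0 : ℝ) ≤ N := by positivity
  have hnK' : (n : ℝ) ≤ 2 * m * K := by exact_mod_cast hnK
  have hn0 : (0 : ℝ) ≤ n := by positivity
  obtain ⟨Y, hY⟩ : ∃ Y : ℝ, Y = 4 / c * (C₁ + |η| * n * N) := ⟨_, rfl⟩
  have hY0 : 0 ≤ Y := by rw [hY]; positivity
  have hcount : Q' * (2 * Y + 3) < K * N := by
    have e1 : Q' * (2 * Y + 3) = Q' * (8 / c * C₁ + 3) + Q' * (8 / c * |η|) * (n * N) := by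
      rw [hY]; ring
    have e2 : Q' * (8 / c * |η|) ≤ 1 / (4 * m) := by
      have : Q' * (8 / c * |η|) ≤ Q' * (8 / c * (c / (32 * m * Q'))) := by
        refine mul_le_mul_of_nonneg_left ?_ hQ0.le
        exact mul_le_mul_of_nonneg_left hη (by positivity)
      refine this.trans (le_of_eq ?_)
      field_simp
      norm_num
    have e3 : Q' * (8 / c * |η|) * (n * N) ≤ K * N / 2 := by
      calc Q' * (8 / c * |η|) * (n * N) ≤ 1 / (4 * m) * (n * N) :=
            mul_le_mul_of_nonneg_right e2 (by positivity)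
        _ ≤ 1 / (4 * m) * (2 * m * K * N) := by
            refine mul_le_mul_of_nonneg_left ?_ (by positivity)
            exact mul_le_mul_of_nonneg_right hnK' hN0
        _ = K * N / 2 := by field_simp; norm_num
    have e4 : Q' * (8 / c * C₁ + 3) < N / 2 := by linarith
    have e5 : (N : ℝ) / 2 ≤ K * N / 2 := by nlinarith
    rw [e1]
    linarith
  have hlev : ∀ r j, j < N → ⌊4 / c * g r j⌋ ∈ Finset.Icc (-⌈Y⌉) ⌈Y⌉ := by
    intro r j hj
    have h1 : |g r j| ≤ C₁ + |η| * n * N := by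
      have h2 := hg r j
      have h3 : |η * n * j| ≤ |η| * n * N := by
        rw [abs_mul, abs_mul, Nat.abs_cast, Nat.abs_cast]
        refine mul_le_mul_of_nonneg_left ?_ (by positivity)
        exact_mod_cast hj.le
      calc |g r j| = |(g r j + η * n * j) - η * n * j| := by congr 1; ring
        _ ≤ |g r j + η * n * j| + |η * n * j| := abs_sub _ _
        _ ≤ _ := add_le_add h2 h3
    have h4 : |4 / c * g r j| ≤ Y := by
      rw [abs_mul, abs_of_pos (by positivity : 0 < 4 / c), hY]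
      exact mul_le_mul_of_nonneg_left h1 (by positivity)
    rw [abs_le] at h4
    rw [Finset.mem_Icc]
    constructor
    · rw [Int.le_floor]
      push_cast
      have := Int.le_ceil Y
      linarith
    · have h5 : (⌊4 / c * g r j⌋ : ℝ) ≤ (⌈Y⌉ : ℝ) :=
        (Int.floor_le _).trans (h4.2.trans (Int.le_ceil Y))
      exact_mod_cast h5
  have hcard : ((Finset.univ : Finset κ) ×ˢ ((Finset.univ : Finset (Fin Q)) ×ˢ
      Finset.Icc (-⌈Y⌉) ⌈Y⌉)).card <
      ((Finset.univ : Finset (Fin K)) ×ˢ Finset.range N).card := by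
    rw [Finset.card_product, Finset.card_product, Finset.card_product, Finset.card_univ,
      Finset.card_univ, Finset.card_univ, Fintype.card_fin, Fintype.card_fin, Finset.card_range,
      Int.card_Icc]
    have h6 : ((⌈Y⌉ + 1 - -⌈Y⌉).toNat : ℝ) ≤ 2 * Y + 3 := by
      have h7 : ((⌈Y⌉ + 1 - -⌈Y⌉).toNat : ℤ) = 2 * ⌈Y⌉ + 1 := by
        have : 0 ≤ ⌈Y⌉ := Int.ceil_nonneg hY0
        omega
      have h8 : ((⌈Y⌉ + 1 - -⌈Y⌉).toNat : ℝ) = 2 * ⌈Y⌉ + 1 := by exact_mod_cast h7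
      rw [h8]
      have := Int.ceil_lt_add_one Y
      linarith
    have h9 : ((Fintype.card κ * (Q * (⌈Y⌉ + 1 - -⌈Y⌉).toNat) : ℕ) : ℝ) < ((K * N : ℕ) : ℝ) := by
      push_cast
      refine lt_of_le_of_lt ?_ hcount
      rw [← mul_assoc]
      refine mul_le_mul ?_ h6 (by positivity) hQ0.le
      rw [hQ']
      linarith
    exact_mod_cast h9
  obtain ⟨p, hp, q, hq, hne, heq⟩ := Finset.exists_ne_map_eq_of_card_lt_of_maps_to hcard
    (f := fun p : Fin K × ℕ => (cell p.1, dir p.1 p.2, ⌊4 / c * g p.1 p.2⌋)) (by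
      intro p hp
      rw [Finset.coe_product, Set.mem_prod] at hp
      have h10 : p.2 < N := by simpa using hp.2
      simp only [Finset.coe_product, Set.mem_prod, Finset.coe_univ, Set.mem_univ, true_and]
      exact hlev p.1 p.2 h10)
  obtain ⟨r, j⟩ := p
  obtain ⟨s, l⟩ := q
  simp only [Prod.mk.injEq] at heq
  obtain ⟨g1, g2, g3⟩ := heq
  have h11 : |g r j - g s l| ≤ c / 4 := by
    have h12 := Int.abs_sub_lt_one_of_floor_eq_floor g3
    rw [← mul_sub, abs_mul, abs_of_pos (by positivity : 0 < 4 / c), div_mul_eq_mul_div,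
      div_lt_one hc] at h12
    linarith
  rcases lt_trichotomy j l with hjl | hjl | hjl
  · exact ⟨r, j, s, l, Or.inl hjl, g1, g2, h11⟩
  · subst hjl
    rcases lt_trichotomy r s with hrs | hrs | hrs
    · exact ⟨r, j, s, j, Or.inr ⟨rfl, hrs⟩, g1, g2, h11⟩
    · exact absurd (by rw [hrs]) hne
    · exact ⟨s, j, r, j, Or.inr ⟨rfl, hrs⟩, g1.symm, g2.symm, by rw [abs_sub_comm]; exact h11⟩
  · exact ⟨s, l, r, j, Or.inl hjl, g1.symm, g2.symm, by rw [abs_sub_comm]; exact h11⟩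

/-- Uniform bounds for finitely many operators. -/
theorem bds {K : ℕ} (A : Fin K → V ≃L[ℝ] V) : ∃ B : ℝ, 1 ≤ B ∧
    ∀ r v, ‖A r v‖ ≤ B * ‖v‖ ∧ ‖v‖ ≤ B * ‖A r v‖ := by
  refine ⟨1 + ∑ r, (‖(A r : V →L[ℝ] V)‖ + ‖((A r).symm : V →L[ℝ] V)‖), ?_, ?_⟩
  · have : 0 ≤ ∑ r, (‖(A r : V →L[ℝ] V)‖ + ‖((A r).symm : V →L[ℝ] V)‖) :=
      Finset.sum_nonneg fun _ _ => by positivity
    linarith
  · intro r v
    have h1 : ‖(A r : V →L[ℝ] V)‖ + ‖((A r).symm : V →L[ℝ] V)‖ ≤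
        ∑ r, (‖(A r : V →L[ℝ] V)‖ + ‖((A r).symm : V →L[ℝ] V)‖) :=
      Finset.single_le_sum (f := fun r => ‖(A r : V →L[ℝ] V)‖ + ‖((A r).symm : V →L[ℝ] V)‖)
        (fun _ _ => by positivity) (Finset.mem_univ r)
    have h2 : 0 ≤ ‖(A r : V →L[ℝ] V)‖ := norm_nonneg _
    have h3 : 0 ≤ ‖((A r).symm : V →L[ℝ] V)‖ := norm_nonneg _
    constructor
    · refine ((A r : V →L[ℝ] V).le_opNorm v).trans ?_
      exact mul_le_mul_of_nonneg_right (by linarith) (norm_nonneg _)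
    · have h4 := ((A r).symm : V →L[ℝ] V).le_opNorm (A r v)
      have h5 : ((A r).symm : V →L[ℝ] V) (A r v) = v := (A r).symm_apply_apply v
      rw [h5] at h4
      refine h4.trans ?_
      exact mul_le_mul_of_nonneg_right (by linarith) (norm_nonneg _)

/-- The logarithms of the norms. -/
theorem logs {K : ℕ} (A : Fin K → V ≃L[ℝ] V) (P : V ≃L[ℝ] V) (u : V) {s c₀ C₀ : ℝ}
    (hc₀ : 0 < c₀) (h : ∀ j : ℕ, c₀ * Real.exp (-s * j) ≤ ‖(P ^ j) u‖ ∧
      ‖(P ^ j) u‖ ≤ C₀ * Real.exp (-s * j)) :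
    ∃ C₁ : ℝ, 0 ≤ C₁ ∧ ∀ r (j : ℕ), A r ((P ^ j) u) ≠ 0 ∧
      |Real.log ‖A r ((P ^ j) u)‖ + s * j| ≤ C₁ := by
  obtain ⟨B, hB1, hB⟩ := bds A
  have hB0 : 0 < B := by linarith
  refine ⟨|Real.log (c₀ / B)| + |Real.log (B * C₀)|, by positivity, ?_⟩
  intro r j
  obtain ⟨h1, h2⟩ := h j
  obtain ⟨h3, h4⟩ := hB r ((P ^ j) u)
  have hE : 0 < Real.exp (-s * j) := Real.exp_pos _
  have hC₀ : 0 < C₀ := by
    have h5 : c₀ * Real.exp (-s * j) ≤ C₀ * Real.exp (-s * j) := h1.trans h2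
    have := le_of_mul_le_mul_right h5 hE
    linarith
  have lo : c₀ / B * Real.exp (-s * j) ≤ ‖A r ((P ^ j) u)‖ := by
    rw [div_mul_eq_mul_div, div_le_iff₀ hB0, mul_comm _ B]
    exact h1.trans h4
  have up : ‖A r ((P ^ j) u)‖ ≤ B * C₀ * Real.exp (-s * j) := by
    rw [mul_assoc]
    exact h3.trans (mul_le_mul_of_nonneg_left h2 hB0.le)
  have lo0 : 0 < c₀ / B * Real.exp (-s * j) := by positivity
  have hpos : 0 < ‖A r ((P ^ j) u)‖ := lt_of_lt_of_le lo0 lo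
  refine ⟨norm_pos_iff.1 hpos, ?_⟩
  have l1 := Real.log_le_log lo0 lo
  have l2 := Real.log_le_log hpos up
  rw [Real.log_mul (by positivity) hE.ne', Real.log_exp] at l1 l2
  have a1 := neg_abs_le (Real.log (c₀ / B))
  have a2 := le_abs_self (Real.log (B * C₀))
  have a3 := abs_nonneg (Real.log (c₀ / B))
  have a4 := abs_nonneg (Real.log (B * C₀))
  rw [abs_le]
  constructor <;> linarith

end IGap

variable {X V : Type*} [NormedAddCommGroup V] [InnerProductSpace ℝ V]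

theorem gap [FiniteDimensional ℝ V] (S : Sys X V) {m k : ℕ} (hm : 1 ≤ m)
    (h : Star S m (k + 1)) :
    ∃ δ : ℝ, 0 < δ ∧ ∀ η : ℝ, |η| ≤ δ → Star (S.scale η) (4 * m) k := by
  have := S.fin
  have := Fintype.ofFinite S.κ
  obtain ⟨Q, dir, hdir⟩ := direction_colouring V S.c_pos S.c_le
  have hm0 : (0 : ℝ) < m := by exact_mod_cast hm
  refine ⟨S.c / (32 * m * (Fintype.card S.κ * Q + 1)), div_pos S.c_pos (by positivity), ?_⟩
  intro η hη ι _ hι τ hτ i n Mη hp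
  obtain ⟨M, rfl⟩ : ∃ M, Mη = sc (η * n) * M := by
    refine ⟨sc (-(η * n)) * Mη, ?_⟩
    rw [← mul_assoc, ← sc_add, add_neg_cancel, sc_zero, one_mul]
  rw [path_scale_iff] at hp
  have hτ' : ∀ i, S.Tr (τ i).src (τ i).tgt (τ i).mat := hτ
  have hn : 1 ≤ n := by
    have := IGap.len hp
    omega
  obtain ⟨P, hP⟩ : ∃ P, P = (τ i).mat * M := ⟨_, rfl⟩
  have e1 : (τ i).mat * (sc (η * n) * M) = sc (η * n) * P := by
    rw [hP, ← mul_assoc, ← mul_assoc, sc_comm]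
  rw [e1]
  by_contra hnot
  obtain ⟨u, c₀, C₀, hc₀, hu⟩ := real_vector hnot
  obtain ⟨K, x, A, hnK, hfam⟩ := good_family S hm hp
  obtain ⟨C₁, hC₁, hlog⟩ := IGap.logs A P u hc₀ hu
  obtain ⟨r, j, s, l, hord, hcell, hd, habs⟩ := IGap.pigeon S.c_pos hm hn hnK hη hC₁
    (fun r => S.cell (x r)) (fun r j => dir (A r ((P ^ j) u)))
    (fun r j => Real.log ‖A r ((P ^ j) u)‖) (fun r j => (hlog r j).2)
  obtain ⟨D, hD, hDu⟩ := hdir _ _ (hlog r j).1 (hlog s l).1 hd habs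
  obtain ⟨f1, f2, f3⟩ := hfam (Option ι) (IGap.ex ι τ (x s) (x r) D) some (fun _ => rfl)
  have key : ∃ (t : ℕ) (W : V ≃L[ℝ] V), Path S (IGap.ex ι τ (x s) (x r) D) m none none t W ∧
      W (A r ((P ^ j) u)) = A s ((P ^ l) u) := by
    rcases hord with hjl | ⟨rfl, hrs⟩
    · obtain ⟨q, rfl⟩ : ∃ q, l = q + 1 + j := ⟨l - j - 1, by omega⟩
      obtain ⟨t1, p1⟩ := f2 none r rfl
      obtain ⟨t2, p2⟩ := f1 none s rfl
      have p3 : Path S (IGap.ex ι τ (x s) (x r) D) m (some i) (some i) n M :=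
        Path.map some (fun _ => rfl) (Path.mono (by omega) hp)
      obtain ⟨t4, p4⟩ := IGap.periods p3 p1 q
      refine ⟨_, _, Path.comp p4 p2, ?_⟩
      have e2 : A s * (IGap.ex ι τ (x s) (x r) D (some i)).mat *
          ((M * (IGap.ex ι τ (x s) (x r) D (some i)).mat) ^ q * (M * (A r)⁻¹)) =
          A s * P ^ (q + 1) * (A r)⁻¹ := by
        show A s * (τ i).mat * ((M * (τ i).mat) ^ q * (M * (A r)⁻¹)) = _
        have e3 : (τ i).mat * (M * (τ i).mat) ^ q = P ^ q * (τ i).mat := by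
          rw [hP, mul_pow_mul]
        rw [mul_assoc (A s), ← mul_assoc (τ i).mat, e3, pow_succ, hP]
        simp only [mul_assoc]
      rw [e2]
      show A s ((P ^ (q + 1)) ((A r)⁻¹ (A r ((P ^ j) u)))) = _
      have e4 : (A r)⁻¹ (A r ((P ^ j) u)) = (P ^ j) u := (A r).symm_apply_apply _
      rw [e4]
      congr 1
      rw [pow_add P (q + 1) j]
      rfl
    · obtain ⟨t1, p1⟩ := f3 none none r s hrs rfl rfl
      refine ⟨t1, _, p1, ?_⟩
      show A s ((A r)⁻¹ (A r ((P ^ j) u))) = _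
      have e4 : (A r)⁻¹ (A r ((P ^ j) u)) = (P ^ j) u := (A r).symm_apply_apply _
      rw [e4]
  obtain ⟨t, W, hW, hWu⟩ := key
  exact IGap.not_fix h hι hτ' hcell.symm hD hW (hlog r j).1 (by rw [hWu, hDu])

end Pool.Agent.OmegaPS

end
end

section

/-!
# Lemma N with scaling
-/

open Set Filter Topology Function

noncomputable section

namespace Pool.Agent.OmegaPS

open Pool.Agent.OmegaStab (HypLin)

variable {V : Type*} [NormedAddCommGroup V] [InnerProductSpace ℝ V]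

namespace LemmaNS

theorem coe_pow (P : V ≃L[ℝ] V) (n : ℕ) (v : V) : ((P : V →L[ℝ] V) ^ n) v = (P ^ n) v := by
  induction n generalizing v with
  | zero => rfl
  | succ n ih =>
    rw [pow_succ, pow_succ]
    exact ih (P v)

theorem coe_sc_mul (s : ℝ) (P : V ≃L[ℝ] V) :
    ((sc s * P : V ≃L[ℝ] V) : V →L[ℝ] V) = Real.exp s • (P : V →L[ℝ] V) := by
  ext v
  rfl

theorem stable [FiniteDimensional ℝ V] (P : V ≃L[ℝ] V) {α c δ : ℝ} (_hα : 0 ≤ α) (hc : 0 < c)
    (hc' : c ≤ 1 / 2) (hδ : 0 ≤ δ)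
    (h : ∀ η : ℝ, |η| ≤ δ → ∀ L, Near c L → Hyp (sc (η * α) * (L * P))) :
    ∀ v ∈ Est P, ‖P v‖ ≤ 2 * Module.finrank ℝ V / c * Real.exp (-δ * α) * ‖v‖ := by
  intro v hv
  have h1 : ∀ s ∈ Icc (0 : ℝ) 1, HypLin (Real.exp (s * (δ * α)) • (P : V →L[ℝ] V)) := by
    intro s hs
    have h2 := h (s * δ) (by
      rw [abs_of_nonneg (mul_nonneg hs.1 hδ)]
      exact mul_le_of_le_one_left hδ hs.2) 1 (near_one hc.le)
    rw [one_mul] at h2
    unfold Hyp at h2
    rw [coe_sc_mul, mul_assoc] at h2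
    exact h2
  have h2 := cross (Est P) (fun s => Real.exp (s * (δ * α)) • (P : V →L[ℝ] V))
    (by
      refine Continuous.continuousOn ?_
      exact (Real.continuous_exp.comp (continuous_id.mul continuous_const)).smul continuous_const)
    (by
      intro s _ w hw
      show Real.exp (s * (δ * α)) • P w ∈ Est P
      exact (Est P).smul_mem _ (mem_Est_map.2 hw))
    h1
    (by
      intro w hw
      have : (fun n : ℕ => ((Real.exp (0 * (δ * α)) • (P : V →L[ℝ] V)) ^ n) w) =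
          fun n : ℕ => (P ^ n) w := by
        funext n
        rw [zero_mul, Real.exp_zero, one_smul, coe_pow]
      rw [this]
      exact hw)
    1 ⟨zero_le_one, le_rfl⟩ v hv
  have h3 : v ∈ Est (sc (δ * α) * P) := by
    rw [mem_Est]
    have : (fun n : ℕ => ((sc (δ * α) * P : V ≃L[ℝ] V) ^ n) v) =
        fun n : ℕ => ((Real.exp (1 * (δ * α)) • (P : V →L[ℝ] V)) ^ n) v := by
      funext n
      rw [← coe_pow, coe_sc_mul, one_mul]
    rw [this]
    exact h2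
  have h4 := lemmaN (sc (δ * α) * P) hc hc' (fun L hL => by
    have h5 := h δ (by rw [abs_of_nonneg hδ]) L hL
    have h6 : L * (sc (δ * α) * P) = sc (δ * α) * (L * P) := by
      rw [← mul_assoc, ← sc_comm, mul_assoc]
    rw [h6]
    exact h5) h3
  have h5 : (sc (δ * α) * P : V ≃L[ℝ] V) v = Real.exp (δ * α) • P v := rfl
  rw [h5, norm_smul, Real.norm_eq_abs, Real.abs_exp] at h4
  have h6 : Real.exp (-δ * α) * Real.exp (δ * α) = 1 := by
    rw [← Real.exp_add, show -δ * α + δ * α = 0 by ring, Real.exp_zero]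
  calc ‖P v‖ = Real.exp (-δ * α) * (Real.exp (δ * α) * ‖P v‖) := by
        rw [← mul_assoc, h6, one_mul]
    _ ≤ Real.exp (-δ * α) * (2 * Module.finrank ℝ V / c * ‖v‖) :=
        mul_le_mul_of_nonneg_left h4 (Real.exp_pos _).le
    _ = _ := by ring

end LemmaNS

theorem lemmaN_scaled [FiniteDimensional ℝ V] (P : V ≃L[ℝ] V) {α c δ : ℝ} (hα : 0 ≤ α)
    (hc : 0 < c) (hc' : c ≤ 1 / 2) (hδ : 0 ≤ δ)
    (h : ∀ η : ℝ, |η| ≤ δ → ∀ L, Near c L → Hyp (sc (η * α) * (L * P))) :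
    (∀ v ∈ Est P, ‖P v‖ ≤ 2 * Module.finrank ℝ V / c * Real.exp (-δ * α) * ‖v‖) ∧
      ∀ v ∈ Eun P, ‖P⁻¹ v‖ ≤ 4 * Module.finrank ℝ V / c * Real.exp (-δ * α) * ‖v‖ := by
  refine ⟨LemmaNS.stable P hα hc hc' hδ h, fun v hv => ?_⟩
  have h1 := LemmaNS.stable P⁻¹ hα (half_pos hc) (by linarith) hδ (fun η hη L hL => by
    have h2 := h (-η) (by rwa [abs_neg]) L⁻¹ (Near.inv hc.le hc' hL)
    have h3 : Hyp (P * (sc (-η * α) * L⁻¹)) := by
      rw [hyp_mul_comm, mul_assoc]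
      exact h2
    have h4 := h3.inv
    have h5 : (P * (sc (-η * α) * L⁻¹))⁻¹ = sc (η * α) * (L * P⁻¹) := by
      rw [mul_inv_rev, mul_inv_rev, inv_inv, sc_inv, show -(-η * α) = η * α by ring, ← sc_comm,
        mul_assoc]
    rw [← h5]
    exact h4) v hv
  have h2 : 2 * (Module.finrank ℝ V : ℝ) / (c / 2) = 4 * Module.finrank ℝ V / c := by
    field_simp
    ring
  rwa [h2] at h1

end Pool.Agent.OmegaPS

end
end
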