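import Pool.Agent.Work.MP_814647_an.Statement

/-! Bundle of small proof modules (one section per former module). -/

section

/-!
# Projective circle extensions of Anosov diffeomorphisms: the notions in the statement
-/

open Set Filter Topology
open scoped Manifold ContDiff ComplexConjugate

noncomputable section

namespace Pool.Agent.OmegaStability

variable {d : ℕ} {B M : Type*} [MetricSpace B] [ChartedSpace (EuclideanSpace ℝ (Fin d)) B]
  [MetricSpace M] [ChartedSpace (EuclideanSpace ℝ (Fin (d + 1))) M] [MulAction Circle M]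

variable (d) in
/-- `π : M → B` is a smooth principal circle bundle: the circle acts smoothly and freely on `M`,
and `π` is a surjective smooth submersion whose fibres are the orbits of the action. -/
structure IsCircleBundle (π : M → B) : Prop where
  smooth_action : ContMDiff ((𝓡 1).prod (𝓡 (d + 1))) (𝓡 (d + 1)) ∞
    (fun p : Circle × M => p.1 • p.2)
  free : ∀ (z : Circle) (y : M), z • y = y → z = 1
  smooth_proj : ContMDiff (𝓡 (d + 1)) (𝓡 d) ∞ π
  submersion : ∀ y, Function.Surjective (mfderiv (𝓡 (d + 1)) (𝓡 d) π y)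
  surjective : Function.Surjective π
  fibre : ∀ y y' : M, π y = π y' ↔ ∃ z : Circle, z • y = y'

/-- The map `f` acts on the circle fibres by orientation-preserving projective (Moebius) maps:
for each `y` there are complex numbers `a`, `b` with `|b| < |a|` such that `f (z • y) = w • f y`
only if `w = (a z + b) / (conj b z + conj a)`. -/
def FibrewiseProjective (f : M → M) : Prop :=
  ∀ y : M, ∃ a b : ℂ, ‖b‖ < ‖a‖ ∧ ∀ z w : Circle, f (z • y) = w • f y →
    (w : ℂ) * (conj b * z + conj a) = a * z + b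

variable [IsManifold 𝓘(ℝ, EuclideanSpace ℝ (Fin d)) ∞ B]

/-- `A` is an Anosov diffeomorphism with dense periodic points. -/
def IsTransitiveAnosov {r : ℕ∞} (A : Diffeo (EuclideanSpace ℝ (Fin d)) B r) : Prop :=
  HyperbolicStructure (EuclideanSpace ℝ (Fin d)) A A.symm univ ∧
    Dense (Function.periodicPts A)

end Pool.Agent.OmegaStability

end
end

section

/-!
# Hyperbolic estimates and the generator of the circle action: definitions
-/

open Set Filter Topology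
open scoped Manifold ContDiff

noncomputable section

namespace Pool.Agent.OmegaStability

/-- Two-sided invariant splitting over `Λ` with hyperbolic estimates. -/
structure HypEst {E : Type*} [NormedAddCommGroup E] [NormedSpace ℝ E]
    {M : Type*} [MetricSpace M] [ChartedSpace E M] [IsManifold 𝓘(ℝ, E) ∞ M]
    (f f' : M → M) (γ : RMetric E M) (Λ : Set M) (Es Eu : TFamily E M) (c μ : ℝ) : Prop where
  c_pos : 0 < c
  mu_pos : 0 < μ
  mu_lt : μ < 1
  compl : ∀ x ∈ Λ, IsCompl (Es x) (Eu x)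
  inv_s : InvariantOver f Es Λ
  inv_s' : InvariantOver f' Es Λ
  inv_u : InvariantOver f Eu Λ
  inv_u' : InvariantOver f' Eu Λ
  contr_s : ContractedOver f γ Es Λ c μ
  contr_u : ContractedOver f' γ Eu Λ c μ

/-- The generator of the circle action. -/
def gen (d : ℕ) {M : Type*} [MetricSpace M] [ChartedSpace (EuclideanSpace ℝ (Fin (d + 1))) M]
    [MulAction Circle M] (y : M) : TangentSpace (𝓡 (d + 1)) y :=
  mfderiv 𝓘(ℝ, ℝ) (𝓡 (d + 1)) (fun θ : ℝ => Circle.exp θ • y) 0 (1 : ℝ)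

end Pool.Agent.OmegaStability

end
end

section

/-!
# Homogeneous continuous functions on the tangent bundle of a compact manifold
-/

open Set Filter Topology
open scoped Manifold ContDiff ComplexConjugate

noncomputable section

namespace Pool.Agent.OmegaStability

open Bundle

variable {E : Type*} [NormedAddCommGroup E] [NormedSpace ℝ E]
  {M : Type*} [MetricSpace M] [ChartedSpace E M] [IsManifold 𝓘(ℝ, E) ∞ M]

theorem continuous_rnorm (γ : RMetric E M) :
    Continuous fun v : TangentBundle 𝓘(ℝ, E) M => rnorm γ v.1 v.2 := by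
  have h0 : Continuous fun v : TangentBundle 𝓘(ℝ, E) M =>
      TotalSpace.mk' ℝ (E := Bundle.Trivial M ℝ) v.1 (γ.inner v.1 v.2 v.2) := by
    have h1 : Continuous fun v : TangentBundle 𝓘(ℝ, E) M => v.1 :=
      FiberBundle.continuous_proj E (fun x : M => TangentSpace 𝓘(ℝ, E) x)
    have h2 := γ.continuous.comp h1
    exact Continuous.clm_bundle_apply₂ (F₁ := E) (F₂ := E) h2 continuous_id continuous_id
  have h3 : Continuous fun v : TangentBundle 𝓘(ℝ, E) M => γ.inner v.1 v.2 v.2 := by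
    rw [continuous_iff_continuousAt] at h0 ⊢
    intro v
    have := h0 v
    rw [FiberBundle.continuousAt_totalSpace] at this
    exact this.2
  exact Real.continuous_sqrt.comp h3

theorem local_bound [FiniteDimensional ℝ E] [LocallyCompactSpace M]
    (N₁ N₂ : TangentBundle 𝓘(ℝ, E) M → ℝ) (h₁ : Continuous N₁) (h₂ : Continuous N₂)
    (hom₁ : ∀ (x : M) (v : TangentSpace 𝓘(ℝ, E) x) (t : ℝ), N₁ ⟨x, t • v⟩ = |t| * N₁ ⟨x, v⟩)
    (hom₂ : ∀ (x : M) (v : TangentSpace 𝓘(ℝ, E) x) (t : ℝ), N₂ ⟨x, t • v⟩ = |t| * N₂ ⟨x, v⟩)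
    (hpos : ∀ (x : M) (v : TangentSpace 𝓘(ℝ, E) x), v ≠ 0 → 0 < N₂ ⟨x, v⟩) (x₀ : M) :
    ∃ U ∈ 𝓝 x₀, ∃ C : ℝ, 0 ≤ C ∧ ∀ x ∈ U, ∀ v : TangentSpace 𝓘(ℝ, E) x,
      N₁ ⟨x, v⟩ ≤ C * N₂ ⟨x, v⟩ := by
  have : ProperSpace E := FiniteDimensional.proper_real E
  let e := trivializationAt E (fun x : M => TangentSpace 𝓘(ℝ, E) x) x₀
  have hx₀ : x₀ ∈ e.baseSet := FiberBundle.mem_baseSet_trivializationAt' x₀
  obtain ⟨K, hK, hKsub, hKc⟩ := local_compact_nhds (e.open_baseSet.mem_nhds hx₀)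
  have hcont : ContinuousOn (fun q : M × E => e.toOpenPartialHomeomorph.symm q)
      (K ×ˢ Metric.sphere (0 : E) 1) := by
    apply e.continuousOn_invFun.mono
    rintro ⟨x, w⟩ ⟨hx, _⟩
    rw [e.target_eq]
    exact ⟨hKsub hx, trivial⟩
  have hΦ : ∀ x (hx : x ∈ e.baseSet) (w : E), e.toOpenPartialHomeomorph.symm (x, w) =
      ⟨x, (e.continuousLinearEquivAt ℝ x hx).symm w⟩ := fun x hx w =>
    e.symm_apply_eq_mk_continuousLinearEquivAt_symm x hx w
  have hcr : ContinuousOn (fun q : M × E => N₁ (e.toOpenPartialHomeomorph.symm q) /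
      N₂ (e.toOpenPartialHomeomorph.symm q)) (K ×ˢ Metric.sphere (0 : E) 1) := by
    apply ContinuousOn.div (h₁.comp_continuousOn hcont) (h₂.comp_continuousOn hcont)
    rintro ⟨x, w⟩ ⟨hx, hw⟩
    rw [Function.comp_apply, hΦ x (hKsub hx) w]
    apply ne_of_gt
    apply hpos
    intro h
    rw [ContinuousLinearEquiv.map_eq_zero_iff] at h
    change w ∈ Metric.sphere (0 : E) 1 at hw
    rw [h] at hw
    simp at hw
  obtain ⟨C, hC⟩ := (hKc.prod (isCompact_sphere (0 : E) 1)).exists_bound_of_continuousOn hcr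
  refine ⟨K, hK, max C 0, le_max_right _ _, fun x hx v => ?_⟩
  have hxb := hKsub hx
  have hN0 : ∀ N : TangentBundle 𝓘(ℝ, E) M → ℝ,
      (∀ (x : M) (v : TangentSpace 𝓘(ℝ, E) x) (t : ℝ), N ⟨x, t • v⟩ = |t| * N ⟨x, v⟩) →
      N ⟨x, 0⟩ = 0 := by
    intro N hN
    have := hN x 0 0
    rwa [smul_zero, abs_zero, zero_mul] at this
  by_cases hv : v = 0
  · rw [hv, hN0 N₁ hom₁, hN0 N₂ hom₂, mul_zero]
  · set L := e.continuousLinearEquivAt ℝ x hxb with hL
    have hw : L v ≠ 0 := by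
      intro h
      exact hv ((ContinuousLinearEquiv.map_eq_zero_iff L).1 h)
    have hn : 0 < ‖L v‖ := norm_pos_iff.2 hw
    set w : E := ‖L v‖⁻¹ • L v with hwdef
    have hws : w ∈ Metric.sphere (0 : E) 1 := by
      rw [mem_sphere_zero_iff_norm, hwdef, norm_smul, norm_inv, norm_norm,
        inv_mul_cancel₀ hn.ne']
    have hvw : v = ‖L v‖ • L.symm w := by
      rw [hwdef, map_smul, smul_smul, mul_inv_cancel₀ hn.ne', one_smul,
        ContinuousLinearEquiv.symm_apply_apply]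
    have hb := hC (x, w) ⟨hx, hws⟩
    simp only [hΦ x hxb w] at hb
    rw [← hL] at hb
    have hwne : L.symm w ≠ 0 := by
      intro h
      apply hv
      rw [hvw, h, smul_zero]
    have hpw := hpos x (L.symm w) hwne
    have h3 : N₁ ⟨x, L.symm w⟩ ≤ max C 0 * N₂ ⟨x, L.symm w⟩ := by
      rw [← div_le_iff₀ hpw]
      exact (le_abs_self _).trans (hb.trans (le_max_left _ _))
    rw [hvw, hom₁, hom₂, abs_of_pos hn]
    nlinarith

theorem exists_comparison [FiniteDimensional ℝ E] [CompactSpace M]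
    (N₁ N₂ : TangentBundle 𝓘(ℝ, E) M → ℝ) (h₁ : Continuous N₁) (h₂ : Continuous N₂)
    (hom₁ : ∀ (x : M) (v : TangentSpace 𝓘(ℝ, E) x) (t : ℝ), N₁ ⟨x, t • v⟩ = |t| * N₁ ⟨x, v⟩)
    (hom₂ : ∀ (x : M) (v : TangentSpace 𝓘(ℝ, E) x) (t : ℝ), N₂ ⟨x, t • v⟩ = |t| * N₂ ⟨x, v⟩)
    (hpos : ∀ (x : M) (v : TangentSpace 𝓘(ℝ, E) x), v ≠ 0 → 0 < N₂ ⟨x, v⟩) :
    ∃ C : ℝ, 0 < C ∧ ∀ (x : M) (v : TangentSpace 𝓘(ℝ, E) x), N₁ ⟨x, v⟩ ≤ C * N₂ ⟨x, v⟩ := by
  choose U hU C hC0 hC using fun x₀ : M => local_bound N₁ N₂ h₁ h₂ hom₁ hom₂ hpos x₀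
  obtain ⟨t, ht⟩ := CompactSpace.elim_nhds_subcover U hU
  refine ⟨∑ y ∈ t, C y + 1, by
    have := Finset.sum_nonneg (s := t) (fun y _ => hC0 y)
    linarith, fun x v => ?_⟩
  have hN2 : 0 ≤ N₂ ⟨x, v⟩ := by
    by_cases hv : v = 0
    · have := hom₂ x 0 0
      rw [smul_zero, abs_zero, zero_mul] at this
      rw [hv, this]
    · exact (hpos x v hv).le
  have hx : x ∈ ⋃ y ∈ t, U y := by rw [ht]; trivial
  rw [mem_iUnion₂] at hx
  obtain ⟨y, hy, hxy⟩ := hx
  have hle : C y ≤ ∑ y ∈ t, C y :=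
    Finset.single_le_sum (f := C) (fun y _ => hC0 y) hy
  calc N₁ ⟨x, v⟩ ≤ C y * N₂ ⟨x, v⟩ := hC y x hxy v
    _ ≤ (∑ y ∈ t, C y + 1) * N₂ ⟨x, v⟩ := by
      apply mul_le_mul_of_nonneg_right _ hN2
      linarith

theorem rnorm_smul (γ : RMetric E M) (x : M) (v : TangentSpace 𝓘(ℝ, E) x) (t : ℝ) :
    rnorm γ x (t • v) = |t| * rnorm γ x v := by
  unfold rnorm
  have h : γ.inner x (t • v) (t • v) = t ^ 2 * γ.inner x v v := by
    rw [map_smul, map_smul, smul_apply, smul_eq_mul, smul_eq_mul]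
    ring
  rw [h, Real.sqrt_mul (sq_nonneg t), Real.sqrt_sq_eq_abs]

theorem rnorm_pos (γ : RMetric E M) (x : M) (v : TangentSpace 𝓘(ℝ, E) x) (hv : v ≠ 0) :
    0 < rnorm γ x v := Real.sqrt_pos.2 (γ.pos x v hv)

theorem exists_bound [FiniteDimensional ℝ E] [CompactSpace M] (γ : RMetric E M)
    (N : TangentBundle 𝓘(ℝ, E) M → ℝ) (hN : Continuous N)
    (hhom : ∀ (x : M) (v : TangentSpace 𝓘(ℝ, E) x) (t : ℝ), N ⟨x, t • v⟩ = |t| * N ⟨x, v⟩) :
    ∃ C : ℝ, 0 < C ∧ ∀ (x : M) (v : TangentSpace 𝓘(ℝ, E) x), N ⟨x, v⟩ ≤ C * rnorm γ x v :=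
  exists_comparison N (fun v => rnorm γ v.1 v.2) hN (continuous_rnorm γ) hhom
    (fun x v t => rnorm_smul γ x v t) (fun x v hv => rnorm_pos γ x v hv)

theorem exists_bound_below [FiniteDimensional ℝ E] [CompactSpace M] (γ : RMetric E M)
    (N : TangentBundle 𝓘(ℝ, E) M → ℝ) (hN : Continuous N)
    (hhom : ∀ (x : M) (v : TangentSpace 𝓘(ℝ, E) x) (t : ℝ), N ⟨x, t • v⟩ = |t| * N ⟨x, v⟩)
    (hpos : ∀ (x : M) (v : TangentSpace 𝓘(ℝ, E) x), v ≠ 0 → 0 < N ⟨x, v⟩) :
    ∃ C : ℝ, 0 < C ∧ ∀ (x : M) (v : TangentSpace 𝓘(ℝ, E) x), rnorm γ x v ≤ C * N ⟨x, v⟩ :=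
  exists_comparison (fun v => rnorm γ v.1 v.2) N (continuous_rnorm γ) hN
    (fun x v t => rnorm_smul γ x v t) hhom hpos

end Pool.Agent.OmegaStability

end
end
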