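import Mathlib
import Pool.Agent.Work.MP_814647_an.ProjBasic
import Pool.Agent.Work.MP_814647_an.Statement
import Pool.Agent.Work.MP_814647_an.Bd.B03
import Pool.Agent.Work.MP_814647_an.Basic

/-! Bundle of small proof modules (one section per former module). -/

section

/-!
# Hyperbolic splitting of a circle extension: the linear cocycle part
-/

set_option autoImplicit false

open Set Filter Topology

noncomputable section

namespace Pool.Agent.OmegaStability.P7

variable {M B V W : Type*} [AddCommGroup V] [Module ℝ V] [AddCommGroup W] [Module ℝ W]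

/-- The iterates of a linear cocycle. -/
def it {M V : Type*} [AddCommGroup V] [Module ℝ V] (f : M → M) (F : M → V →ₗ[ℝ] V) :
    ℕ → M → V →ₗ[ℝ] V
  | 0, _ => LinearMap.id
  | k + 1, y => (F (f^[k] y)).comp (it f F k y)

theorem it_zero (f : M → M) (F : M → V →ₗ[ℝ] V) (y : M) (v : V) : it f F 0 y v = v := rfl

theorem it_succ (f : M → M) (F : M → V →ₗ[ℝ] V) (k : ℕ) (y : M) (v : V) :
    it f F (k + 1) y v = F (f^[k] y) (it f F k y v) := rfl

theorem it_shift (f : M → M) (F : M → V →ₗ[ℝ] V) (k : ℕ) (y : M) (v : V) :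
    it f F (k + 1) y v = it f F k (f y) (F y v) := by
  induction k with
  | zero => rfl
  | succ k ih =>
    rw [it_succ, ih, it_succ, Function.iterate_succ_apply]

/-- The data of the extension. -/
structure Setup (π : M → B) (f f' : M → M) (A A' : B → B) (X : M → V) (T : M → V →ₗ[ℝ] W)
    (F F' : M → V →ₗ[ℝ] V) (G G' : B → W →ₗ[ℝ] W) (D : M → ℝ) (n : M → V → ℝ) (m : B → W → ℝ)
    (ω : M → V →ₗ[ℝ] ℝ) (K : ℝ) : Prop where
  ff' : ∀ y, f (f' y) = y
  f'f : ∀ y, f' (f y) = y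
  cov : ∀ y, π (f y) = A (π y)
  cov' : ∀ y, π (f' y) = A' (π y)
  FF' : ∀ y v, F (f' y) (F' y v) = v
  F'F : ∀ y v, F' (f y) (F y v) = v
  GG' : ∀ x w, G (A' x) (G' x w) = w
  TF : ∀ y v, T (f y) (F y v) = G (π y) (T y v)
  TF' : ∀ y v, T (f' y) (F' y v) = G' (π y) (T y v)
  Tsurj : ∀ y, Function.Surjective (T y)
  Tker : ∀ y v, T y v = 0 → ∃ c : ℝ, v = c • X y
  TX : ∀ y, T y (X y) = 0
  FX : ∀ y, F y (X y) = D y • X (f y)
  D_pos : ∀ y, 0 < D y
  ωX : ∀ y, ω y (X y) = 1
  n_nonneg : ∀ y v, 0 ≤ n y v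
  n_add : ∀ y v w, n y (v + w) ≤ n y v + n y w
  n_smul : ∀ y (c : ℝ) v, n y (c • v) = |c| * n y v
  m_nonneg : ∀ x w, 0 ≤ m x w
  K_pos : 0 < K
  n_le : ∀ y v, n y v ≤ K * (m (π y) (T y v) + |ω y v|)
  le_n : ∀ y v, m (π y) (T y v) + |ω y v| ≤ K * n y v
  F_le : ∀ y v, n (f y) (F y v) ≤ K * n y v

/-- Hyperbolic estimates downstairs. -/
structure BHyp (A A' : B → B) (G G' : B → W →ₗ[ℝ] W) (m : B → W → ℝ)
    (Es Eu : B → Submodule ℝ W) (c μ : ℝ) : Prop where
  c_pos : 0 < c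
  mu_pos : 0 < μ
  mu_lt : μ < 1
  compl : ∀ x, IsCompl (Es x) (Eu x)
  inv_s : ∀ x, ∀ w ∈ Es x, G x w ∈ Es (A x)
  inv_s' : ∀ x, ∀ w ∈ Es x, G' x w ∈ Es (A' x)
  inv_u : ∀ x, ∀ w ∈ Eu x, G x w ∈ Eu (A x)
  inv_u' : ∀ x, ∀ w ∈ Eu x, G' x w ∈ Eu (A' x)
  contr_s : ∀ x, ∀ w ∈ Es x, ∀ k : ℕ, m (A^[k] x) (it A G k x w) ≤ c * μ ^ k * m x w
  contr_u : ∀ x, ∀ w ∈ Eu x, ∀ k : ℕ, m (A'^[k] x) (it A' G' k x w) ≤ c * μ ^ k * m x w

section

variable {π : M → B} {f f' : M → M} {A A' : B → B} {X : M → V} {T : M → V →ₗ[ℝ] W}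
    {F F' : M → V →ₗ[ℝ] V} {G G' : B → W →ₗ[ℝ] W} {D : M → ℝ} {n : M → V → ℝ} {m : B → W → ℝ}
    {ω : M → V →ₗ[ℝ] ℝ} {K : ℝ}

namespace Setup

variable (S : Setup π f f' A A' X T F F' G G' D n m ω K)

include S

theorem iter_cov (k : ℕ) (y : M) : π (f^[k] y) = A^[k] (π y) := by
  induction k with
  | zero => rfl
  | succ k ih => rw [Function.iterate_succ_apply', Function.iterate_succ_apply', S.cov, ih]

theorem iter_cov' (k : ℕ) (y : M) : π (f'^[k] y) = A'^[k] (π y) := by
  induction k with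
  | zero => rfl
  | succ k ih => rw [Function.iterate_succ_apply', Function.iterate_succ_apply', S.cov', ih]

theorem it_T (k : ℕ) (y : M) (v : V) : T (f^[k] y) (it f F k y v) = it A G k (π y) (T y v) := by
  induction k with
  | zero => rfl
  | succ k ih =>
    rw [it_succ, it_succ, Function.iterate_succ_apply', S.TF, ih, S.iter_cov]

theorem it_T' (k : ℕ) (y : M) (v : V) :
    T (f'^[k] y) (it f' F' k y v) = it A' G' k (π y) (T y v) := by
  induction k with
  | zero => rfl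
  | succ k ih =>
    rw [it_succ, it_succ, Function.iterate_succ_apply', S.TF', ih, S.iter_cov']

theorem defect (y : M) (v : V) :
    |ω (f y) (F y v) - D y * ω y v| ≤ K * K * K * m (π y) (T y v) := by
  have h1 : ω (f y) (F y (v - ω y v • X y)) = ω (f y) (F y v) - D y * ω y v := by
    rw [map_sub, map_smul, S.FX, map_sub, map_smul, map_smul, S.ωX, smul_eq_mul, smul_eq_mul,
      mul_one, mul_comm (ω y v)]
  have h2 : T y (v - ω y v • X y) = T y v := by
    rw [map_sub, map_smul, S.TX, smul_zero, sub_zero]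
  have h3 : ω y (v - ω y v • X y) = 0 := by
    rw [map_sub, map_smul, S.ωX, smul_eq_mul, mul_one, sub_self]
  have h4 := S.le_n (f y) (F y (v - ω y v • X y))
  have h5 := S.F_le y (v - ω y v • X y)
  have h6 := S.n_le y (v - ω y v • X y)
  have h7 := S.m_nonneg (π (f y)) (T (f y) (F y (v - ω y v • X y)))
  have hK := S.K_pos
  rw [h2, h3, abs_zero, add_zero] at h6
  rw [h1] at h4
  calc |ω (f y) (F y v) - D y * ω y v| ≤ K * n (f y) (F y (v - ω y v • X y)) := by linarith
    _ ≤ K * (K * n y (v - ω y v • X y)) := mul_le_mul_of_nonneg_left h5 hK.le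
    _ ≤ K * (K * (K * m (π y) (T y v))) :=
        mul_le_mul_of_nonneg_left (mul_le_mul_of_nonneg_left h6 hK.le) hK.le
    _ = K * K * K * m (π y) (T y v) := by ring

theorem exists_lift (y : M) (w : W) : ∃ v, T y v = w ∧ ω y v = 0 := by
  obtain ⟨v, hv⟩ := S.Tsurj y w
  refine ⟨v - ω y v • X y, ?_, ?_⟩
  · rw [map_sub, map_smul, S.TX, smul_zero, sub_zero, hv]
  · rw [map_sub, map_smul, S.ωX, smul_eq_mul, mul_one, sub_self]

/-- A vector is determined by its projection and its component along the fibre. -/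
theorem ext_of {y : M} {v w : V} (h1 : T y v = T y w) (h2 : ω y v = ω y w) : v = w := by
  obtain ⟨c, hc⟩ := S.Tker y (v - w) (by rw [map_sub, h1, sub_self])
  have h3 : ω y (v - w) = c := by rw [hc, map_smul, S.ωX, smul_eq_mul, mul_one]
  rw [map_sub, h2, sub_self] at h3
  rw [← h3, zero_smul] at hc
  exact sub_eq_zero.mp hc

end Setup

/-! ### The adapted function -/

/-- The supremum of the normalised products of `D` along the orbit. -/
def hfun (f : M → M) (D : M → ℝ) (κ : ℝ) (y : M) : ℝ :=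
  ⨆ l : ℕ, (∏ i ∈ Finset.range l, D (f^[i] y)) / κ ^ l

theorem hfun_bdd {f : M → M} {D : M → ℝ} {κ C : ℝ} (hκ : 0 < κ) {y : M}
    (h : ∀ l : ℕ, ∏ i ∈ Finset.range l, D (f^[i] y) ≤ C * κ ^ l) :
    BddAbove (Set.range fun l : ℕ => (∏ i ∈ Finset.range l, D (f^[i] y)) / κ ^ l) := by
  refine ⟨C, ?_⟩
  rintro _ ⟨l, rfl⟩
  exact (div_le_iff₀ (pow_pos hκ l)).mpr (h l)

theorem hfun_le {f : M → M} {D : M → ℝ} {κ C : ℝ} (hκ : 0 < κ) {y : M}
    (h : ∀ l : ℕ, ∏ i ∈ Finset.range l, D (f^[i] y) ≤ C * κ ^ l) : hfun f D κ y ≤ C :=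
  ciSup_le (fun l => (div_le_iff₀ (pow_pos hκ l)).mpr (h l))

theorem one_le_hfun {f : M → M} {D : M → ℝ} {κ C : ℝ} (hκ : 0 < κ) {y : M}
    (h : ∀ l : ℕ, ∏ i ∈ Finset.range l, D (f^[i] y) ≤ C * κ ^ l) : 1 ≤ hfun f D κ y := by
  refine le_trans ?_ (le_ciSup (hfun_bdd hκ h) 0)
  simp

theorem hfun_step {f : M → M} {D : M → ℝ} {κ C : ℝ} (hκ : 0 < κ) {y : M} (hD : 0 < D y)
    (h : ∀ l : ℕ, ∏ i ∈ Finset.range l, D (f^[i] y) ≤ C * κ ^ l) :
    D y * hfun f D κ (f y) ≤ κ * hfun f D κ y := by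
  rw [← le_div_iff₀' hD]
  refine ciSup_le (fun l => ?_)
  rw [le_div_iff₀' hD]
  have h1 := le_ciSup (hfun_bdd hκ h) (l + 1)
  have h2 : D y * ((∏ i ∈ Finset.range l, D (f^[i] (f y))) / κ ^ l) =
      κ * ((∏ i ∈ Finset.range (l + 1), D (f^[i] y)) / κ ^ (l + 1)) := by
    rw [Finset.prod_range_succ' (fun i => D (f^[i] y)), pow_succ]
    simp only [Function.iterate_succ_apply, Function.iterate_zero, id_eq]
    field_simp
  rw [h2]
  exact mul_le_mul_of_nonneg_left h1 hκ.le

/-! ### The stable part -/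

/-- A recursive inequality. -/
theorem rec_bound {a : ℕ → ℝ} {lam μ N : ℝ} (hμ : 0 < μ) (hl : μ < lam) (hN : 0 ≤ N)
    (h : ∀ k, a (k + 1) ≤ lam * a k + N * μ ^ k) (k : ℕ) :
    a k ≤ lam ^ k * (a 0 + N / (lam - μ)) := by
  have hd : 0 < lam - μ := sub_pos.mpr hl
  have key : a k + N / (lam - μ) * μ ^ k ≤ lam ^ k * (a 0 + N / (lam - μ)) := by
    induction k with
    | zero => simp
    | succ k ih =>
      have h1 : N * μ ^ k + N / (lam - μ) * μ ^ (k + 1) = lam * (N / (lam - μ) * μ ^ k) := by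
        field_simp
        ring
      calc a (k + 1) + N / (lam - μ) * μ ^ (k + 1)
          ≤ lam * a k + N * μ ^ k + N / (lam - μ) * μ ^ (k + 1) := by linarith [h k]
        _ = lam * (a k + N / (lam - μ) * μ ^ k) := by rw [add_assoc, h1]; ring
        _ ≤ lam * (lam ^ k * (a 0 + N / (lam - μ))) :=
            mul_le_mul_of_nonneg_left ih (hμ.le.trans hl.le)
        _ = lam ^ (k + 1) * (a 0 + N / (lam - μ)) := by ring
  have h2 : 0 ≤ N / (lam - μ) * μ ^ k := by positivity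
  linarith

variable {EsB EuB : B → Submodule ℝ W} {cB μB : ℝ} {Λ : Set M} {C κ : ℝ}

theorem mem_iter {f : M → M} {Λ : Set M} (h : ∀ y ∈ Λ, f y ∈ Λ) {y : M} (hy : y ∈ Λ) (k : ℕ) :
    f^[k] y ∈ Λ := by
  induction k with
  | zero => exact hy
  | succ k ih => rw [Function.iterate_succ_apply']; exact h _ ih

/-- The estimate for the stable part. -/
theorem stable_est (S : Setup π f f' A A' X T F F' G G' D n m ω K)
    (H : BHyp A A' G G' m EsB EuB cB μB) (hΛ : ∀ y ∈ Λ, f y ∈ Λ) (hC : 0 < C) (hκ : 0 < κ)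
    (hest : ∀ y ∈ Λ, ∀ l : ℕ, ∏ i ∈ Finset.range l, D (f^[i] y) ≤ C * κ ^ l) {lam : ℝ}
    (h1 : κ ≤ lam) (h2 : μB < lam) {y : M} (hy : y ∈ Λ) {v : V} (hv : T y v ∈ EsB (π y)) (k : ℕ) :
    n (f^[k] y) (it f F k y v) ≤
      (K * (cB + (C + C * (K * K * K * cB) / (lam - μB))) * K) * lam ^ k * n y v := by
  have hK := S.K_pos
  have hm0 := S.m_nonneg (π y) (T y v)
  have hlam : 0 < lam := H.mu_pos.trans h2
  have hd : 0 < lam - μB := sub_pos.mpr h2
  have hcB := H.c_pos
  set M0 := m (π y) (T y v) with hM0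
  have hyk : ∀ k, f^[k] y ∈ Λ := fun k => mem_iter hΛ hy k
  have hmk : ∀ k, m (π (f^[k] y)) (T (f^[k] y) (it f F k y v)) ≤ cB * μB ^ k * M0 := by
    intro k
    rw [S.it_T, S.iter_cov]
    exact H.contr_s (π y) _ hv k
  have hrec : ∀ k, hfun f D κ (f^[k + 1] y) * |ω (f^[k + 1] y) (it f F (k + 1) y v)| ≤
      lam * (hfun f D κ (f^[k] y) * |ω (f^[k] y) (it f F k y v)|) +
        (C * (K * K * K * cB) * M0) * μB ^ k := by
    intro k
    have e1 := S.defect (f^[k] y) (it f F k y v)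
    have e2 := hfun_step hκ (S.D_pos (f^[k] y)) (hest _ (hyk k))
    have e3 := hfun_le hκ (hest _ (hyk (k + 1)))
    have e4 := one_le_hfun hκ (hest _ (hyk (k + 1)))
    have e5 := one_le_hfun hκ (hest _ (hyk k))
    rw [← Function.iterate_succ_apply' f k y, ← it_succ f F k y v] at e1
    rw [← Function.iterate_succ_apply' f k y] at e2
    have e6 : |ω (f^[k + 1] y) (it f F (k + 1) y v)| ≤
        D (f^[k] y) * |ω (f^[k] y) (it f F k y v)| +
          K * K * K * m (π (f^[k] y)) (T (f^[k] y) (it f F k y v)) := by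
      have e7 := abs_sub_abs_le_abs_sub (ω (f^[k + 1] y) (it f F (k + 1) y v))
        (D (f^[k] y) * ω (f^[k] y) (it f F k y v))
      rw [abs_mul, abs_of_pos (S.D_pos _)] at e7
      linarith
    have e8 : K * K * K * m (π (f^[k] y)) (T (f^[k] y) (it f F k y v)) ≤
        K * K * K * (cB * μB ^ k * M0) := mul_le_mul_of_nonneg_left (hmk k) (by positivity)
    have hμk : 0 < μB ^ k := pow_pos H.mu_pos k
    calc hfun f D κ (f^[k + 1] y) * |ω (f^[k + 1] y) (it f F (k + 1) y v)|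
        ≤ hfun f D κ (f^[k + 1] y) * (D (f^[k] y) * |ω (f^[k] y) (it f F k y v)| +
          K * K * K * (cB * μB ^ k * M0)) :=
          mul_le_mul_of_nonneg_left (e6.trans (by linarith)) (by linarith)
      _ = (D (f^[k] y) * hfun f D κ (f^[k + 1] y)) * |ω (f^[k] y) (it f F k y v)| +
          hfun f D κ (f^[k + 1] y) * (K * K * K * (cB * μB ^ k * M0)) := by ring
      _ ≤ (κ * hfun f D κ (f^[k] y)) * |ω (f^[k] y) (it f F k y v)| +
          C * (K * K * K * (cB * μB ^ k * M0)) :=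
          add_le_add (mul_le_mul_of_nonneg_right e2 (abs_nonneg _))
            (mul_le_mul_of_nonneg_right e3 (by positivity))
      _ ≤ (lam * hfun f D κ (f^[k] y)) * |ω (f^[k] y) (it f F k y v)| +
          C * (K * K * K * (cB * μB ^ k * M0)) := by
          have : κ * hfun f D κ (f^[k] y) ≤ lam * hfun f D κ (f^[k] y) :=
            mul_le_mul_of_nonneg_right h1 (by linarith)
          have := mul_le_mul_of_nonneg_right this (abs_nonneg (ω (f^[k] y) (it f F k y v)))
          linarith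
      _ = _ := by ring
  have hb := rec_bound (a := fun k => hfun f D κ (f^[k] y) * |ω (f^[k] y) (it f F k y v)|)
    (N := C * (K * K * K * cB) * M0) H.mu_pos h2 (by positivity) hrec k
  have e9 := one_le_hfun hκ (hest _ (hyk k))
  have e10 := hfun_le hκ (hest _ hy)
  have hωk : |ω (f^[k] y) (it f F k y v)| ≤
      lam ^ k * (C * |ω y v| + C * (K * K * K * cB) * M0 / (lam - μB)) := by
    calc |ω (f^[k] y) (it f F k y v)|
        ≤ hfun f D κ (f^[k] y) * |ω (f^[k] y) (it f F k y v)| :=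
          le_mul_of_one_le_left (abs_nonneg _) e9
      _ ≤ _ := hb
      _ ≤ _ := by
          refine mul_le_mul_of_nonneg_left (add_le_add ?_ (le_refl _)) (by positivity)
          exact mul_le_mul_of_nonneg_right e10 (abs_nonneg _)
  have hnv := S.le_n y v
  have hμlam : μB ^ k ≤ lam ^ k := pow_le_pow_left₀ H.mu_pos.le h2.le k
  have hlk : 0 < lam ^ k := pow_pos hlam k
  have hM0n : M0 ≤ K * n y v := by
    have := abs_nonneg (ω y v)
    linarith
  have hωn : |ω y v| ≤ K * n y v := by linarith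
  have hnn := S.n_nonneg y v
  calc n (f^[k] y) (it f F k y v)
      ≤ K * (m (π (f^[k] y)) (T (f^[k] y) (it f F k y v)) + |ω (f^[k] y) (it f F k y v)|) :=
        S.n_le _ _
    _ ≤ K * (cB * lam ^ k * (K * n y v) +
        lam ^ k * (C * (K * n y v) + C * (K * K * K * cB) * (K * n y v) / (lam - μB))) := by
        refine mul_le_mul_of_nonneg_left (add_le_add ((hmk k).trans ?_) (hωk.trans ?_)) hK.le
        · have := mul_le_mul (mul_le_mul_of_nonneg_left hμlam hcB.le) hM0n hm0 (by positivity)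
          exact this
        · refine mul_le_mul_of_nonneg_left (add_le_add ?_ ?_) hlk.le
          · exact mul_le_mul_of_nonneg_left hωn hC.le
          · exact div_le_div_of_nonneg_right (mul_le_mul_of_nonneg_left hM0n (by positivity)) hd.le
    _ = (K * (cB + (C + C * (K * K * K * cB) / (lam - μB))) * K) * lam ^ k * n y v := by
        field_simp

/-! ### The unstable part -/

section unstable

variable (S : Setup π f f' A A' X T F F' G G' D n m ω K)

include S

theorem F'X (y : M) : F' (f y) (X (f y)) = (D y)⁻¹ • X y := by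
  have h := S.F'F y (X y)
  rw [S.FX, map_smul] at h
  rw [← h, smul_smul, inv_mul_cancel₀ (S.D_pos y).ne', one_smul]

omit [AddCommGroup V] [Module ℝ V] [AddCommGroup W] [Module ℝ W] S in
theorem mem_back (hΛ' : ∀ y ∈ Λ, f' y ∈ Λ) {y : M} (hy : y ∈ Λ) (k : ℕ) : f'^[k] y ∈ Λ :=
  mem_iter hΛ' hy k

theorem f_back (y : M) (k : ℕ) : f (f'^[k + 1] y) = f'^[k] y := by
  rw [Function.iterate_succ_apply', S.ff']

/-- The fibre direction grows exponentially in the past. -/
theorem back_X (hΛ' : ∀ y ∈ Λ, f' y ∈ Λ) (hκ : 0 < κ)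
    (hest : ∀ y ∈ Λ, ∀ l : ℕ, ∏ i ∈ Finset.range l, D (f^[i] y) ≤ C * κ ^ l) {y : M} (hy : y ∈ Λ)
    (k : ℕ) : ∃ c : ℝ, it f' F' k y (X y) = c • X (f'^[k] y) ∧
      κ⁻¹ ^ k ≤ c * hfun f D κ (f'^[k] y) := by
  induction k with
  | zero =>
    refine ⟨1, by rw [one_smul]; rfl, ?_⟩
    rw [pow_zero, one_mul]
    exact one_le_hfun hκ (hest _ hy)
  | succ k ih =>
    obtain ⟨c, hc, hk⟩ := ih
    have hD := S.D_pos (f'^[k + 1] y)
    have h1 := F'X S (f'^[k + 1] y)
    rw [f_back S] at h1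
    have h2 := hfun_step hκ hD (hest _ (mem_back hΛ' hy (k + 1)))
    rw [f_back S] at h2
    refine ⟨c * (D (f'^[k + 1] y))⁻¹, ?_, ?_⟩
    · rw [it_succ, hc, map_smul, h1, smul_smul]
    · have h3 : hfun f D κ (f'^[k] y) ≤ (D (f'^[k + 1] y))⁻¹ * (κ * hfun f D κ (f'^[k + 1] y)) := by
        rw [← div_eq_inv_mul, le_div_iff₀ hD, mul_comm]
        exact h2
      have h4 : 0 < hfun f D κ (f'^[k] y) :=
        lt_of_lt_of_le one_pos (one_le_hfun hκ (hest _ (mem_back hΛ' hy k)))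
      have hc0 : 0 < c := by
        have h5 : 0 < c * hfun f D κ (f'^[k] y) := lt_of_lt_of_le (by positivity) hk
        exact (mul_pos_iff_of_pos_right h4).mp h5
      have h6 := mul_le_mul_of_nonneg_left h3 hc0.le
      rw [pow_succ]
      calc κ⁻¹ ^ k * κ⁻¹ ≤ (c * hfun f D κ (f'^[k] y)) * κ⁻¹ :=
            mul_le_mul_of_nonneg_right hk (inv_pos.mpr hκ).le
        _ ≤ (c * ((D (f'^[k + 1] y))⁻¹ * (κ * hfun f D κ (f'^[k + 1] y)))) * κ⁻¹ :=
            mul_le_mul_of_nonneg_right h6 (inv_pos.mpr hκ).le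
        _ = c * (D (f'^[k + 1] y))⁻¹ * hfun f D κ (f'^[k + 1] y) := by
            field_simp

/-- A multiple of the fibre direction with bounded backward orbit vanishes. -/
theorem zero_of_back (hΛ' : ∀ y ∈ Λ, f' y ∈ Λ) (hC : 0 < C) (hκ : 0 < κ) (hκ1 : κ < 1)
    (hest : ∀ y ∈ Λ, ∀ l : ℕ, ∏ i ∈ Finset.range l, D (f^[i] y) ≤ C * κ ^ l) {y : M} (hy : y ∈ Λ)
    {a R : ℝ} (hR : ∀ k, n (f'^[k] y) (it f' F' k y (a • X y)) ≤ R) : a = 0 := by
  by_contra ha
  have ha' : 0 < |a| := abs_pos.mpr ha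
  have hK := S.K_pos
  have h1 : ∀ k : ℕ, κ⁻¹ ^ k ≤ K * C * R / |a| := by
    intro k
    obtain ⟨c, hc, hk⟩ := back_X S hΛ' hκ hest hy k
    have h2 := hR k
    rw [map_smul, hc, S.n_smul, S.n_smul] at h2
    have h3 := S.le_n (f'^[k] y) (X (f'^[k] y))
    rw [S.TX, S.ωX, abs_one] at h3
    have h4 := S.m_nonneg (π (f'^[k] y)) (0 : W)
    have h5 := hfun_le hκ (hest _ (mem_back hΛ' hy k))
    have h6 : 1 ≤ K * n (f'^[k] y) (X (f'^[k] y)) := by linarith
    have h7 : 0 < hfun f D κ (f'^[k] y) :=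
      lt_of_lt_of_le one_pos (one_le_hfun hκ (hest _ (mem_back hΛ' hy k)))
    have h8 : c * hfun f D κ (f'^[k] y) ≤ |c| * C := by
      calc c * hfun f D κ (f'^[k] y) ≤ |c| * hfun f D κ (f'^[k] y) :=
            mul_le_mul_of_nonneg_right (le_abs_self c) h7.le
        _ ≤ |c| * C := mul_le_mul_of_nonneg_left h5 (abs_nonneg c)
    rw [le_div_iff₀ ha']
    calc κ⁻¹ ^ k * |a| ≤ (|c| * C) * |a| := mul_le_mul_of_nonneg_right (hk.trans h8) ha'.le
      _ = (|c| * C * |a|) * 1 := by ring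
      _ ≤ (|c| * C * |a|) * (K * n (f'^[k] y) (X (f'^[k] y))) :=
          mul_le_mul_of_nonneg_left h6 (by positivity)
      _ = K * C * (|a| * (|c| * n (f'^[k] y) (X (f'^[k] y)))) := by ring
      _ ≤ K * C * R := mul_le_mul_of_nonneg_left h2 (by positivity)
  have h2 : Tendsto (fun k : ℕ => κ⁻¹ ^ k) atTop atTop :=
    tendsto_pow_atTop_atTop_of_one_lt ((one_lt_inv₀ hκ).mpr hκ1)
  obtain ⟨k, hk⟩ := (h2.eventually_gt_atTop (K * C * R / |a|)).exists
  exact absurd (h1 k) (not_le.mpr hk)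

/-- The lift of an unstable vector. -/
theorem exists_unstable (H : BHyp A A' G G' m EsB EuB cB μB) (hΛ' : ∀ y ∈ Λ, f' y ∈ Λ)
    (hC : 0 < C) (hκ : 0 < κ) (hκ1 : κ < 1)
    (hest : ∀ y ∈ Λ, ∀ l : ℕ, ∏ i ∈ Finset.range l, D (f^[i] y) ≤ C * κ ^ l) {y : M} (hy : y ∈ Λ)
    {b : W} (hb : b ∈ EuB (π y)) : ∃ v, T y v = b ∧ ∀ k : ℕ, n (f'^[k] y) (it f' F' k y v) ≤
      (K * (cB + C * (K * K * K * cB) / (1 - κ))) * μB ^ k * m (π y) b := by
  have hK := S.K_pos
  have hcB := H.c_pos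
  have hμ := H.mu_pos
  have hκ1' : 0 < 1 - κ := sub_pos.mpr hκ1
  set yk : ℕ → M := fun k => f'^[k] y with hyk
  set bk : ℕ → W := fun k => it A' G' k (π y) b with hbk
  set M0 := m (π y) b with hM0
  have hM00 : 0 ≤ M0 := S.m_nonneg _ _
  have hykΛ : ∀ k, yk k ∈ Λ := fun k => mem_back hΛ' hy k
  have hmb : ∀ k, m (π (yk k)) (bk k) ≤ cB * μB ^ k * M0 := by
    intro k
    have := H.contr_u (π y) b hb k
    rw [hyk, S.iter_cov']
    exact this
  choose hk hT hω using fun k => S.exists_lift (yk k) (bk k)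
  set s : ℕ → ℝ := fun k => ω (yk k) (F (yk (k + 1)) (hk (k + 1))) with hs
  have hfy : ∀ k, f (yk (k + 1)) = yk k := fun k => f_back S y k
  have hs_le : ∀ k, |s k| ≤ K * K * K * cB * M0 * μB ^ (k + 1) := by
    intro k
    have h1 := S.defect (yk (k + 1)) (hk (k + 1))
    rw [hω, mul_zero, sub_zero, hfy, hT] at h1
    refine h1.trans ((mul_le_mul_of_nonneg_left (hmb (k + 1)) (by positivity)).trans
      (le_of_eq (by ring)))
  have hFh : ∀ k, F (yk (k + 1)) (hk (k + 1)) = hk k + s k • X (yk k) := by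
    intro k
    have e : T (yk k) (F (yk (k + 1)) (hk (k + 1))) = bk k := by
      have h1 := S.TF (yk (k + 1)) (hk (k + 1))
      rw [hfy, hT] at h1
      rw [h1]
      have h2 : π (yk (k + 1)) = A' (A'^[k] (π y)) := by
        rw [hyk, S.iter_cov', Function.iterate_succ_apply']
      rw [h2]
      exact S.GG' (A'^[k] (π y)) (bk k)
    refine S.ext_of (y := yk k) ?_ ?_
    · rw [e, map_add, map_smul, S.TX, smul_zero, add_zero, hT]
    · rw [map_add, map_smul, S.ωX, hω, smul_eq_mul, mul_one, zero_add]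
  -- products of `D` along the backward orbit
  set P : ℕ → ℕ → ℝ := fun k j => ∏ i ∈ Finset.range j, D (yk (k + i + 1)) with hP
  have hPpos : ∀ k j, 0 < P k j := fun k j => Finset.prod_pos (fun i _ => S.D_pos _)
  have hP1 : ∀ k j, P k j * hfun f D κ (yk k) ≤ κ ^ j * hfun f D κ (yk (k + j)) := by
    intro k j
    induction j with
    | zero => simp [hP]
    | succ j ih =>
      have h1 := hfun_step hκ (S.D_pos (yk (k + j + 1))) (hest _ (hykΛ (k + j + 1)))
      rw [hfy] at h1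
      have h2 : P k (j + 1) = P k j * D (yk (k + j + 1)) := Finset.prod_range_succ _ _
      calc P k (j + 1) * hfun f D κ (yk k)
          = D (yk (k + j + 1)) * (P k j * hfun f D κ (yk k)) := by rw [h2]; ring
        _ ≤ D (yk (k + j + 1)) * (κ ^ j * hfun f D κ (yk (k + j))) :=
            mul_le_mul_of_nonneg_left ih (S.D_pos _).le
        _ = κ ^ j * (D (yk (k + j + 1)) * hfun f D κ (yk (k + j))) := by ring
        _ ≤ κ ^ j * (κ * hfun f D κ (yk (k + j + 1))) :=
            mul_le_mul_of_nonneg_left h1 (by positivity)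
        _ = κ ^ (j + 1) * hfun f D κ (yk (k + (j + 1))) := by rw [pow_succ]; ring_nf
  have hPC : ∀ k j, P k j ≤ C * κ ^ j := by
    intro k j
    have h1 := one_le_hfun hκ (hest _ (hykΛ k))
    have h2 := hfun_le hκ (hest _ (hykΛ (k + j)))
    calc P k j ≤ P k j * hfun f D κ (yk k) := le_mul_of_one_le_right (hPpos k j).le h1
      _ ≤ κ ^ j * hfun f D κ (yk (k + j)) := hP1 k j
      _ ≤ κ ^ j * C := mul_le_mul_of_nonneg_left h2 (by positivity)
      _ = C * κ ^ j := mul_comm _ _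
  have hterm : ∀ k j, |P k j * s (k + j)| ≤ (C * (K * K * K * cB) * M0 * μB ^ k) * κ ^ j := by
    intro k j
    rw [abs_mul, abs_of_pos (hPpos k j)]
    have h1 : μB ^ (k + j + 1) ≤ μB ^ k := by
      refine pow_le_pow_of_le_one hμ.le H.mu_lt.le (by omega)
    calc P k j * |s (k + j)| ≤ (C * κ ^ j) * (K * K * K * cB * M0 * μB ^ (k + j + 1)) :=
          mul_le_mul (hPC k j) (hs_le (k + j)) (abs_nonneg _) (by positivity)
      _ ≤ (C * κ ^ j) * (K * K * K * cB * M0 * μB ^ k) :=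
          mul_le_mul_of_nonneg_left (mul_le_mul_of_nonneg_left h1 (by positivity)) (by positivity)
      _ = _ := by ring
  have hgeo : ∀ k, Summable fun j : ℕ => (C * (K * K * K * cB) * M0 * μB ^ k) * κ ^ j :=
    fun k => (summable_geometric_of_lt_one hκ.le hκ1).mul_left _
  have hsum : ∀ k, Summable fun j : ℕ => P k j * s (k + j) := fun k =>
    Summable.of_norm_bounded (hgeo k) (hterm k)
  set w : ℕ → ℝ := fun k => ∑' j : ℕ, P k j * s (k + j) with hw
  have hw_le : ∀ k, |w k| ≤ C * (K * K * K * cB) * M0 * μB ^ k / (1 - κ) := by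
    intro k
    have h1 : ‖w k‖ ≤ ∑' j : ℕ, (C * (K * K * K * cB) * M0 * μB ^ k) * κ ^ j :=
      tsum_of_norm_bounded (hgeo k).hasSum (hterm k)
    rw [tsum_mul_left, tsum_geometric_of_lt_one hκ.le hκ1, ← div_eq_mul_inv] at h1
    exact h1
  have hw_rec : ∀ k, w k = s k + D (yk (k + 1)) * w (k + 1) := by
    intro k
    show (∑' j : ℕ, P k j * s (k + j)) = s k + D (yk (k + 1)) * ∑' j : ℕ, P (k + 1) j * s (k + 1 + j)
    rw [(hsum k).tsum_eq_zero_add, ← tsum_mul_left]
    congr 1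
    · simp [hP]
    · refine tsum_congr (fun j => ?_)
      have h1 : P k (j + 1) = D (yk (k + 1)) * P (k + 1) j := by
        show (∏ i ∈ Finset.range (j + 1), D (yk (k + i + 1))) =
          D (yk (k + 1)) * ∏ i ∈ Finset.range j, D (yk (k + 1 + i + 1))
        rw [Finset.prod_range_succ', mul_comm]
        congr 1
        refine Finset.prod_congr rfl (fun i _ => ?_)
        have : k + (i + 1) + 1 = k + 1 + i + 1 := by ring
        rw [this]
      have h2 : k + (j + 1) = k + 1 + j := by ring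
      rw [h1, h2]
      ring
  set g : ℕ → V := fun k => hk k + w k • X (yk k) with hg
  have hFg : ∀ k, F (yk (k + 1)) (g (k + 1)) = g k := by
    intro k
    show F (yk (k + 1)) (hk (k + 1) + w (k + 1) • X (yk (k + 1))) = hk k + w k • X (yk k)
    rw [map_add, map_smul, hFh, S.FX, hfy, smul_smul, add_assoc, ← add_smul, hw_rec k,
      mul_comm (w (k + 1))]
  have hit : ∀ k, it f' F' k y (g 0) = g k := by
    intro k
    induction k with
    | zero => rfl
    | succ k ih =>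
      have h1 := S.F'F (yk (k + 1)) (g (k + 1))
      rw [hFg, hfy] at h1
      rw [it_succ, ih]
      exact h1
  have hTg : ∀ k, T (yk k) (g k) = bk k := by
    intro k
    show T (yk k) (hk k + w k • X (yk k)) = bk k
    rw [map_add, map_smul, S.TX, smul_zero, add_zero, hT]
  have hωg : ∀ k, ω (yk k) (g k) = w k := by
    intro k
    show ω (yk k) (hk k + w k • X (yk k)) = w k
    rw [map_add, map_smul, S.ωX, hω, smul_eq_mul, mul_one, zero_add]
  refine ⟨g 0, hTg 0, fun k => ?_⟩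
  rw [hit]
  calc n (yk k) (g k) ≤ K * (m (π (yk k)) (T (yk k) (g k)) + |ω (yk k) (g k)|) := S.n_le _ _
    _ ≤ K * (cB * μB ^ k * M0 + C * (K * K * K * cB) * M0 * μB ^ k / (1 - κ)) := by
        rw [hTg, hωg]
        exact mul_le_mul_of_nonneg_left (add_le_add (hmb k) (hw_le k)) hK.le
    _ = _ := by
        field_simp

/-- The unstable subspaces. -/
def EuM (EuB : B → Submodule ℝ W) (y : M) : Submodule ℝ V where
  carrier := {v | T y v ∈ EuB (π y) ∧ ∃ R : ℝ, ∀ k : ℕ, n (f'^[k] y) (it f' F' k y v) ≤ R}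
  add_mem' := by
    rintro a b ⟨ha, R, hR⟩ ⟨hb, R', hR'⟩
    refine ⟨by rw [map_add]; exact Submodule.add_mem _ ha hb, R + R', fun k => ?_⟩
    rw [map_add]
    exact (S.n_add _ _ _).trans (add_le_add (hR k) (hR' k))
  zero_mem' := by
    refine ⟨by rw [map_zero]; exact Submodule.zero_mem _, 0, fun k => ?_⟩
    have h := S.n_smul (f'^[k] y) 0 (0 : V)
    rw [zero_smul, abs_zero, zero_mul] at h
    rw [map_zero, h]
  smul_mem' := by
    rintro c v ⟨hv, R, hR⟩
    refine ⟨by rw [map_smul]; exact Submodule.smul_mem _ _ hv, |c| * R, fun k => ?_⟩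
    rw [map_smul, S.n_smul]
    exact mul_le_mul_of_nonneg_left (hR k) (abs_nonneg c)

theorem mem_EuM {y : M} {v : V} : v ∈ EuM S EuB y ↔
    T y v ∈ EuB (π y) ∧ ∃ R : ℝ, ∀ k : ℕ, n (f'^[k] y) (it f' F' k y v) ≤ R := Iff.rfl

theorem EuM_inv (H : BHyp A A' G G' m EsB EuB cB μB) {y : M} {v : V} (hv : v ∈ EuM S EuB y) :
    F y v ∈ EuM S EuB (f y) := by
  obtain ⟨h1, R, hR⟩ := hv
  refine ⟨?_, max R (n (f y) (F y v)), fun k => ?_⟩
  · rw [S.TF, S.cov]
    exact H.inv_u _ _ h1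
  · cases k with
    | zero => exact le_max_right _ _
    | succ k =>
      rw [it_shift, S.F'F, Function.iterate_succ_apply, S.f'f]
      exact (hR k).trans (le_max_left _ _)

theorem EuM_inv' (H : BHyp A A' G G' m EsB EuB cB μB) {y : M} {v : V} (hv : v ∈ EuM S EuB y) :
    F' y v ∈ EuM S EuB (f' y) := by
  obtain ⟨h1, R, hR⟩ := hv
  refine ⟨?_, R, fun k => ?_⟩
  · rw [S.TF', S.cov']
    exact H.inv_u' _ _ h1
  · rw [← it_shift, ← Function.iterate_succ_apply]
    exact hR (k + 1)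

/-- A vector of the unstable space is the lift of its projection. -/
theorem EuM_est (H : BHyp A A' G G' m EsB EuB cB μB) (hΛ' : ∀ y ∈ Λ, f' y ∈ Λ)
    (hC : 0 < C) (hκ : 0 < κ) (hκ1 : κ < 1)
    (hest : ∀ y ∈ Λ, ∀ l : ℕ, ∏ i ∈ Finset.range l, D (f^[i] y) ≤ C * κ ^ l) {y : M} (hy : y ∈ Λ)
    {v : V} (hv : v ∈ EuM S EuB y) (k : ℕ) : n (f'^[k] y) (it f' F' k y v) ≤
      (K * (cB + C * (K * K * K * cB) / (1 - κ)) * K) * μB ^ k * n y v := by
  obtain ⟨hv1, R, hR⟩ := hv
  obtain ⟨g, hg, hgk⟩ := exists_unstable S H hΛ' hC hκ hκ1 hest hy hv1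
  have hK := S.K_pos
  have hcB := H.c_pos
  have hμ := H.mu_pos
  have hκ1' : 0 < 1 - κ := sub_pos.mpr hκ1
  obtain ⟨a, ha⟩ := S.Tker y (v - g) (by rw [map_sub, hg, sub_self])
  have hM00 := S.m_nonneg (π y) (T y v)
  have ha0 : a = 0 := by
    refine zero_of_back S hΛ' hC hκ hκ1 hest hy (a := a)
      (R := R + (K * (cB + C * (K * K * K * cB) / (1 - κ))) * m (π y) (T y v)) (fun j => ?_)
    rw [← ha, map_sub, sub_eq_add_neg, ← neg_one_smul ℝ (it f' F' j y g)]
    refine (S.n_add _ _ _).trans (add_le_add (hR j) ?_)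
    rw [S.n_smul, abs_neg, abs_one, one_mul]
    refine (hgk j).trans ?_
    have h1 : μB ^ j ≤ 1 := pow_le_one₀ hμ.le H.mu_lt.le
    calc (K * (cB + C * (K * K * K * cB) / (1 - κ))) * μB ^ j * m (π y) (T y v)
        ≤ (K * (cB + C * (K * K * K * cB) / (1 - κ))) * 1 * m (π y) (T y v) :=
          mul_le_mul_of_nonneg_right (mul_le_mul_of_nonneg_left h1 (by positivity)) hM00
      _ = _ := by ring
  rw [ha0, zero_smul] at ha
  rw [sub_eq_zero.mp ha]
  refine (hgk k).trans ?_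
  have h1 := S.le_n y v
  have h2 : m (π y) (T y v) ≤ K * n y v := by
    have := abs_nonneg (ω y v)
    linarith
  rw [sub_eq_zero.mp ha] at h2 ⊢
  calc (K * (cB + C * (K * K * K * cB) / (1 - κ))) * μB ^ k * m (π y) (T y g)
      ≤ (K * (cB + C * (K * K * K * cB) / (1 - κ))) * μB ^ k * (K * n y g) :=
        mul_le_mul_of_nonneg_left h2 (by positivity)
    _ = _ := by ring

end unstable

/-- The splitting of the extension. -/
theorem exists_splitting (S : Setup π f f' A A' X T F F' G G' D n m ω K)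
    (H : BHyp A A' G G' m EsB EuB cB μB) (hΛ : ∀ y ∈ Λ, f y ∈ Λ) (hΛ' : ∀ y ∈ Λ, f' y ∈ Λ)
    (hC : 0 < C) (hκ : 0 < κ) (hκ1 : κ < 1)
    (hest : ∀ y ∈ Λ, ∀ l : ℕ, ∏ i ∈ Finset.range l, D (f^[i] y) ≤ C * κ ^ l) :
    ∃ (Es Eu : M → Submodule ℝ V) (c μ : ℝ), 0 < c ∧ 0 < μ ∧ μ < 1 ∧
      (∀ y ∈ Λ, IsCompl (Es y) (Eu y)) ∧
      (∀ y, ∀ v ∈ Es y, F y v ∈ Es (f y)) ∧ (∀ y, ∀ v ∈ Es y, F' y v ∈ Es (f' y)) ∧
      (∀ y, ∀ v ∈ Eu y, F y v ∈ Eu (f y)) ∧ (∀ y, ∀ v ∈ Eu y, F' y v ∈ Eu (f' y)) ∧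
      (∀ y ∈ Λ, ∀ v ∈ Es y, ∀ k : ℕ, n (f^[k] y) (it f F k y v) ≤ c * μ ^ k * n y v) ∧
      (∀ y ∈ Λ, ∀ v ∈ Eu y, ∀ k : ℕ, n (f'^[k] y) (it f' F' k y v) ≤ c * μ ^ k * n y v) := by
  have hK := S.K_pos
  have hcB := H.c_pos
  have hμ := H.mu_pos
  have hκ1' : 0 < 1 - κ := sub_pos.mpr hκ1
  obtain ⟨lam, hl1, hl2⟩ : ∃ lam, max κ μB < lam ∧ lam < 1 := exists_between (max_lt hκ1 H.mu_lt)
  have h1 : κ ≤ lam := ((le_max_left κ μB).trans_lt hl1).le
  have h2 : μB < lam := (le_max_right κ μB).trans_lt hl1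
  have hd : 0 < lam - μB := sub_pos.mpr h2
  have hlam : 0 < lam := hμ.trans h2
  set c1 := K * (cB + (C + C * (K * K * K * cB) / (lam - μB))) * K with hc1
  set c2 := K * (cB + C * (K * K * K * cB) / (1 - κ)) * K with hc2
  have hc1' : 0 < c1 := by positivity
  refine ⟨fun y => (EsB (π y)).comap (T y), EuM S EuB, max c1 c2, lam,
    lt_of_lt_of_le hc1' (le_max_left _ _), hlam, hl2, ?_, ?_, ?_, ?_, ?_, ?_, ?_⟩
  · intro y hy
    refine IsCompl.of_eq ?_ ?_
    · rw [eq_bot_iff]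
      rintro v ⟨hv1, hv2⟩
      have hv2' := hv2
      obtain ⟨hv3, R, hR⟩ := hv2'
      have h3 : T y v = 0 := by
        have := (H.compl (π y)).disjoint.le_bot ⟨hv1, hv3⟩
        simpa using this
      obtain ⟨a, ha⟩ := S.Tker y v h3
      have ha0 : a = 0 := zero_of_back S hΛ' hC hκ hκ1 hest hy (a := a) (R := R) (by
        rw [← ha]
        exact hR)
      rw [ha, ha0, zero_smul]
      exact Submodule.zero_mem _
    · rw [eq_top_iff]
      rintro v -
      have h3 : T y v ∈ EsB (π y) ⊔ EuB (π y) := by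
        rw [(H.compl (π y)).sup_eq_top]
        exact Submodule.mem_top
      obtain ⟨a, ha, b, hb, hab⟩ := Submodule.mem_sup.mp h3
      obtain ⟨g, hg, hgk⟩ := exists_unstable S H hΛ' hC hκ hκ1 hest hy hb
      refine Submodule.mem_sup.mpr ⟨v - g, ?_, g, ⟨by rw [hg]; exact hb, ?_⟩, sub_add_cancel v g⟩
      · show T y (v - g) ∈ EsB (π y)
        rw [map_sub, hg, ← hab, add_sub_cancel_right]
        exact ha
      · have hM00 := S.m_nonneg (π y) b
        refine ⟨(K * (cB + C * (K * K * K * cB) / (1 - κ))) * m (π y) b, fun k => (hgk k).trans ?_⟩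
        have h4 : μB ^ k ≤ 1 := pow_le_one₀ hμ.le H.mu_lt.le
        calc (K * (cB + C * (K * K * K * cB) / (1 - κ))) * μB ^ k * m (π y) b
            ≤ (K * (cB + C * (K * K * K * cB) / (1 - κ))) * 1 * m (π y) b :=
              mul_le_mul_of_nonneg_right (mul_le_mul_of_nonneg_left h4 (by positivity)) hM00
          _ = _ := by ring
  · intro y v hv
    show T (f y) (F y v) ∈ EsB (π (f y))
    rw [S.TF, S.cov]
    exact H.inv_s _ _ hv
  · intro y v hv
    show T (f' y) (F' y v) ∈ EsB (π (f' y))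
    rw [S.TF', S.cov']
    exact H.inv_s' _ _ hv
  · exact fun y v hv => EuM_inv S H hv
  · exact fun y v hv => EuM_inv' S H hv
  · intro y hy v hv k
    refine (stable_est S H hΛ hC hκ hest h1 h2 hy hv k).trans ?_
    exact mul_le_mul_of_nonneg_right (mul_le_mul_of_nonneg_right (le_max_left _ _)
      (by positivity)) (S.n_nonneg _ _)
  · intro y hy v hv k
    refine (EuM_est S H hΛ' hC hκ hκ1 hest hy hv k).trans ?_
    refine mul_le_mul_of_nonneg_right (mul_le_mul (le_max_right _ _)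
      (pow_le_pow_left₀ hμ.le h2.le k) (by positivity) ?_) (S.n_nonneg _ _)
    exact hc1'.le.trans (le_max_left _ _)

end

end Pool.Agent.OmegaStability.P7

end
end

section

/-!
# Closing lemma for lifts of Moebius maps with rotations
-/

open Set Filter Topology

noncomputable section

namespace Pool.Agent.OmegaStability

namespace ClosingAux

variable {L D : ℕ → ℝ → ℝ}

theorem lift_cont (hL : ∀ j, MLift (L j) (D j)) (j : ℕ) : Continuous (L j) :=
  continuous_iff_continuousAt.2 fun θ => ((hL j).deriv θ).continuousAt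

theorem lift_strictMono (hL : ∀ j, MLift (L j) (D j)) (j : ℕ) : StrictMono (L j) := by
  apply strictMono_of_deriv_pos
  intro x
  rw [((hL j).deriv x).deriv]
  exact (hL j).pos x

theorem orb_cont (hL : ∀ j, MLift (L j) (D j)) (j : ℕ) :
    Continuous fun p : ℝ × ℝ => orb L p.1 j p.2 := by
  induction j with
  | zero => simpa [orb] using continuous_snd
  | succ j ih =>
    simp only [orb]
    exact ((lift_cont hL j).comp ih).add continuous_fst

theorem orb_strictMono (hL : ∀ j, MLift (L j) (D j)) (t : ℝ) (j : ℕ) :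
    StrictMono (orb L t j) := by
  induction j with
  | zero => intro a b h; simpa [orb] using h
  | succ j ih =>
    intro a b h
    simp only [orb]
    have := lift_strictMono hL j (ih h)
    linarith

theorem orb_le_of_le (hL : ∀ j, MLift (L j) (D j)) {s t : ℝ} (hst : s ≤ t) (j : ℕ) (θ : ℝ) :
    orb L s j θ ≤ orb L t j θ := by
  induction j with
  | zero => simp [orb]
  | succ j ih =>
    simp only [orb]
    have := (lift_strictMono hL j).monotone ih
    linarith

theorem orb_add_le (hL : ∀ j, MLift (L j) (D j)) {s t : ℝ} (hst : s ≤ t) {j : ℕ} (hj : 0 < j)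
    (θ : ℝ) : orb L s j θ + (t - s) ≤ orb L t j θ := by
  obtain ⟨i, rfl⟩ : ∃ i, j = i + 1 := ⟨j - 1, by omega⟩
  simp only [orb]
  have := (lift_strictMono hL i).monotone (orb_le_of_le hL hst i θ)
  linarith

theorem lift_int (hL : ∀ j, MLift (L j) (D j)) (j : ℕ) (k : ℤ) (θ : ℝ) :
    L j (θ + 2 * Real.pi * k) = L j θ + 2 * Real.pi * k := by
  have hnat : ∀ (k : ℕ) (θ : ℝ), L j (θ + 2 * Real.pi * k) = L j θ + 2 * Real.pi * k := by
    intro k
    induction k with
    | zero => intro θ; simp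
    | succ k ih =>
      intro θ
      have h1 : θ + 2 * Real.pi * ((k + 1 : ℕ) : ℝ) = (θ + 2 * Real.pi * k) + 2 * Real.pi := by
        push_cast; ring
      rw [h1, (hL j).per, ih]
      push_cast; ring
  rcases Int.eq_nat_or_neg k with ⟨m, rfl | rfl⟩
  · exact_mod_cast hnat m θ
  · have h := hnat m (θ + 2 * Real.pi * ((-(m : ℤ) : ℤ) : ℝ))
    have h2 : θ + 2 * Real.pi * ((-(m : ℤ) : ℤ) : ℝ) + 2 * Real.pi * (m : ℝ) = θ := by
      push_cast; ring
    rw [h2] at h
    push_cast at h ⊢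
    linarith

theorem orb_int (hL : ∀ j, MLift (L j) (D j)) (t : ℝ) (j : ℕ) (k : ℤ) (θ : ℝ) :
    orb L t j (θ + 2 * Real.pi * k) = orb L t j θ + 2 * Real.pi * k := by
  induction j with
  | zero => simp [orb]
  | succ j ih =>
    simp only [orb]
    rw [ih, lift_int hL]
    ring

theorem lift_period {n : ℕ} (hper : ∀ j, L (j + n) = L j) (a j : ℕ) : L (a * n + j) = L j := by
  induction a with
  | zero => simp
  | succ a ih =>
    have h : (a + 1) * n + j = (a * n + j) + n := by ring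
    rw [h, hper, ih]

theorem orb_add {n : ℕ} (hper : ∀ j, L (j + n) = L j) (t : ℝ) (a i : ℕ) (θ : ℝ) :
    orb L t (a * n + i) θ = orb L t i (orb L t (a * n) θ) := by
  induction i with
  | zero => simp [orb]
  | succ i ih =>
    have h : a * n + (i + 1) = (a * n + i) + 1 := by ring
    rw [h]
    simp only [orb]
    rw [ih, lift_period hper]

theorem orb_deriv (hL : ∀ j, MLift (L j) (D j)) (t : ℝ) (j : ℕ) (θ : ℝ) :
    HasDerivAt (orb L t j) (∏ i ∈ Finset.range j, D i (orb L t i θ)) θ := by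
  induction j with
  | zero =>
    have : orb L t 0 = fun θ => θ := by funext x; rfl
    rw [this]
    simpa using hasDerivAt_id' θ
  | succ j ih =>
    have h1 : HasDerivAt (L j) (D j (orb L t j θ)) (orb L t j θ) := (hL j).deriv _
    have h2 := (h1.comp θ ih).add_const t
    rw [Finset.prod_range_succ, mul_comm]
    exact h2

theorem recurrence (x : ℕ → ℝ) (t₀ : ℝ) (ht₀ : 0 < t₀) :
    ∃ i j : ℕ, i < j ∧ ∃ k : ℤ, |x j - x i - 2 * Real.pi * k| < t₀ := by
  have hpi : 0 < 2 * Real.pi := by positivity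
  obtain ⟨N, hN⟩ := exists_nat_gt (2 * Real.pi / t₀)
  have hNpos : (0 : ℝ) < N := lt_trans (by positivity) hN
  have hNn : 0 < N := by exact_mod_cast hNpos
  let f : ℕ → Fin N := fun i => ⟨⌊(N : ℝ) * Int.fract (x i / (2 * Real.pi))⌋₊, by
    rw [Nat.floor_lt (by have := Int.fract_nonneg (x i / (2 * Real.pi)); positivity)]
    have := Int.fract_lt_one (x i / (2 * Real.pi))
    nlinarith⟩
  obtain ⟨i, j, hij, hf⟩ := Finite.exists_ne_map_eq_of_infinite f
  have key : ∀ i j : ℕ, f i = f j → ∃ k : ℤ, |x j - x i - 2 * Real.pi * k| < t₀ := by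
    intro i j hf
    have hf' : ⌊(N : ℝ) * Int.fract (x i / (2 * Real.pi))⌋₊ =
        ⌊(N : ℝ) * Int.fract (x j / (2 * Real.pi))⌋₊ := by
      simpa [f, Fin.ext_iff] using hf
    have hi0 : 0 ≤ (N : ℝ) * Int.fract (x i / (2 * Real.pi)) := by
      have := Int.fract_nonneg (x i / (2 * Real.pi)); positivity
    have hj0 : 0 ≤ (N : ℝ) * Int.fract (x j / (2 * Real.pi)) := by
      have := Int.fract_nonneg (x j / (2 * Real.pi)); positivity
    have a1 := Nat.floor_le hi0
    have a2 := Nat.lt_floor_add_one ((N : ℝ) * Int.fract (x i / (2 * Real.pi)))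
    have b1 := Nat.floor_le hj0
    have b2 := Nat.lt_floor_add_one ((N : ℝ) * Int.fract (x j / (2 * Real.pi)))
    rw [hf'] at a1 a2
    have hd : |(N : ℝ) * (Int.fract (x j / (2 * Real.pi)) - Int.fract (x i / (2 * Real.pi)))| < 1 := by
      rw [abs_lt]
      constructor <;> nlinarith
    refine ⟨⌊x j / (2 * Real.pi)⌋ - ⌊x i / (2 * Real.pi)⌋, ?_⟩
    have e1 : x j - x i - 2 * Real.pi * ((⌊x j / (2 * Real.pi)⌋ - ⌊x i / (2 * Real.pi)⌋ : ℤ) : ℝ) =
        2 * Real.pi * (Int.fract (x j / (2 * Real.pi)) - Int.fract (x i / (2 * Real.pi))) := by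
      simp only [Int.fract]
      push_cast
      field_simp
      ring
    rw [e1]
    have e2 : |2 * Real.pi * (Int.fract (x j / (2 * Real.pi)) - Int.fract (x i / (2 * Real.pi)))| =
        (2 * Real.pi / N) * |(N : ℝ) * (Int.fract (x j / (2 * Real.pi)) -
          Int.fract (x i / (2 * Real.pi)))| := by
      rw [abs_mul (2 * Real.pi), abs_mul (N : ℝ), abs_of_pos hpi, abs_of_pos hNpos]
      field_simp
    rw [e2]
    have hq : 0 < 2 * Real.pi / N := by positivity
    calc (2 * Real.pi / N) * |(N : ℝ) * (Int.fract (x j / (2 * Real.pi)) -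
          Int.fract (x i / (2 * Real.pi)))| ≤ (2 * Real.pi / N) * 1 :=
          mul_le_mul_of_nonneg_left hd.le hq.le
      _ < t₀ := by
        rw [mul_one, div_lt_iff₀ hNpos]
        rw [div_lt_iff₀ ht₀] at hN
        linarith
  rcases lt_or_gt_of_ne hij with h | h
  · exact ⟨i, j, h, key i j hf⟩
  · exact ⟨j, i, h, key j i hf.symm⟩

end ClosingAux

open ClosingAux

theorem closing (L D : ℕ → ℝ → ℝ) (n : ℕ) (hn : 0 < n) (hL : ∀ j, MLift (L j) (D j))
    (hper : ∀ j, L (j + n) = L j) (t₀ : ℝ) (ht₀ : 0 < t₀)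
    (hyp : ∀ t, |t| ≤ t₀ → ∀ m, 0 < m → ∀ (θ : ℝ) (k : ℤ),
      orb L t (m * n) θ = θ + 2 * Real.pi * k →
      ∏ j ∈ Finset.range (m * n), D j (orb L t j θ) ≠ 1) :
    ∃ m, 0 < m ∧ ∃ k : ℤ, ∀ t, |t| ≤ t₀ → ∃ θ, orb L t (m * n) θ = θ + 2 * Real.pi * k := by
  obtain ⟨i, i', hii, k, hk⟩ := recurrence (fun i => orb L 0 (i * n) 0) t₀ ht₀
  obtain ⟨m, rfl⟩ : ∃ m, i' = i + m := ⟨i' - i, by omega⟩
  have hm : 0 < m := by omega
  have hmn : 0 < m * n := Nat.mul_pos hm hn
  set θ₀ : ℝ := orb L 0 (i * n) 0 with hθ₀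
  have h0 : orb L 0 ((i + m) * n) 0 = orb L 0 (m * n) θ₀ := by
    rw [add_mul, orb_add hper]
  rw [h0, abs_lt] at hk
  refine ⟨m, hm, k, ?_⟩
  -- the function of `t` and `θ`
  let G : ℝ × ℝ → ℝ := fun p => orb L p.1 (m * n) p.2 - p.2 - 2 * Real.pi * k
  have hG : Continuous G := ((orb_cont hL (m * n)).sub continuous_snd).sub continuous_const
  let S : Set (Icc (-t₀) t₀) := {t | ∃ θ, G (t.1, θ) = 0}
  have hne : S.Nonempty := by
    have hc : Continuous fun t : ℝ => G (t, θ₀) := hG.comp (by fun_prop)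
    have hneg : G (-t₀, θ₀) ≤ 0 := by
      have := orb_add_le hL (s := -t₀) (t := 0) (by linarith) hmn θ₀
      simp only [G]; linarith [hk.2]
    have hpos : 0 ≤ G (t₀, θ₀) := by
      have := orb_add_le hL (s := 0) (t := t₀) (by linarith) hmn θ₀
      simp only [G]; linarith [hk.1]
    obtain ⟨t, ht, hGt⟩ := intermediate_value_Icc (a := -t₀) (b := t₀) (by linarith)
      hc.continuousOn ⟨hneg, hpos⟩
    exact ⟨⟨t, ht⟩, θ₀, hGt⟩
  have hGper : ∀ (t θ : ℝ) (q : ℤ), G (t, θ + 2 * Real.pi * q) = G (t, θ) := by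
    intro t θ q
    simp only [G]
    rw [orb_int hL]
    ring
  have hclosed : IsClosed S := by
    have hS : S = Prod.fst '' {p : Icc (-t₀) t₀ × Icc (0 : ℝ) (2 * Real.pi) |
        G (p.1.1, p.2.1) = 0} := by
      ext t
      simp only [S, mem_setOf_eq, mem_image, Prod.exists, exists_and_right, exists_eq_right]
      constructor
      · rintro ⟨θ, hθ⟩
        have hpi : 0 < 2 * Real.pi := by positivity
        let θ' : ℝ := θ + 2 * Real.pi * ((-⌊θ / (2 * Real.pi)⌋ : ℤ) : ℝ)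
        have e : θ' = 2 * Real.pi * Int.fract (θ / (2 * Real.pi)) := by
          simp only [θ', Int.fract]
          push_cast
          field_simp
          ring
        refine ⟨⟨θ', ?_⟩, ?_⟩
        · rw [e]
          have h1 := Int.fract_nonneg (θ / (2 * Real.pi))
          have h2 := (Int.fract_lt_one (θ / (2 * Real.pi))).le
          constructor
          · positivity
          · nlinarith
        · change G (t.1, θ + 2 * Real.pi * ((-⌊θ / (2 * Real.pi)⌋ : ℤ) : ℝ)) = 0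
          rw [hGper]; exact hθ
      · rintro ⟨θ, hθ⟩
        exact ⟨θ.1, hθ⟩
    rw [hS]
    apply isClosedMap_fst_of_compactSpace
    apply isClosed_eq
    · exact hG.comp (by fun_prop)
    · exact continuous_const
  have hopen : IsOpen S := by
    rw [isOpen_iff_mem_nhds]
    rintro t ⟨θ, hθ⟩
    have ht : |t.1| ≤ t₀ := abs_le.2 ⟨t.2.1, t.2.2⟩
    have hper' : orb L t.1 (m * n) θ = θ + 2 * Real.pi * k := by
      simp only [G] at hθ; linarith
    have hne1 := hyp t.1 ht m hm θ k hper'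
    have hd : HasDerivAt (fun x => G (t.1, x))
        (∏ j ∈ Finset.range (m * n), D j (orb L t.1 j θ) - 1) θ := by
      have := ((orb_deriv hL t.1 (m * n) θ).sub (hasDerivAt_id θ)).sub_const (2 * Real.pi * k)
      exact this
    have hneg : ∃ x, G (t.1, x) < 0 := by
      by_contra hcon
      push Not at hcon
      apply hne1
      have hmin : IsLocalMin (fun x => G (t.1, x)) θ := by
        apply Filter.Eventually.of_forall
        intro x
        simp only [hθ]
        exact hcon x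
      have := hmin.hasDerivAt_eq_zero hd
      linarith
    have hpos : ∃ x, 0 < G (t.1, x) := by
      by_contra hcon
      push Not at hcon
      apply hne1
      have hmax : IsLocalMax (fun x => G (t.1, x)) θ := by
        apply Filter.Eventually.of_forall
        intro x
        simp only [hθ]
        exact hcon x
      have := hmax.hasDerivAt_eq_zero hd
      linarith
    obtain ⟨x, hx⟩ := hneg
    obtain ⟨y, hy⟩ := hpos
    have hcx : Continuous fun s : Icc (-t₀) t₀ => G (s.1, x) := hG.comp (by fun_prop)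
    have hcy : Continuous fun s : Icc (-t₀) t₀ => G (s.1, y) := hG.comp (by fun_prop)
    have e1 : ∀ᶠ s in 𝓝 t, G (s.1, x) < 0 := hcx.tendsto t (gt_mem_nhds hx)
    have e2 : ∀ᶠ s in 𝓝 t, 0 < G (s.1, y) := hcy.tendsto t (lt_mem_nhds hy)
    filter_upwards [e1, e2] with s h1 h2
    have hcs : Continuous fun z : ℝ => G (s.1, z) := hG.comp (by fun_prop)
    obtain ⟨z, hz⟩ := mem_range_of_exists_le_of_exists_ge hcs ⟨x, h1.le⟩ ⟨y, h2.le⟩
    exact ⟨z, hz⟩
  haveI : PreconnectedSpace (Icc (-t₀) t₀) :=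
    Subtype.preconnectedSpace isPreconnected_Icc
  have huniv : S = univ := IsClopen.eq_univ ⟨hclosed, hopen⟩ hne
  intro t ht
  have : (⟨t, abs_le.1 ht⟩ : Icc (-t₀) t₀) ∈ S := by rw [huniv]; trivial
  obtain ⟨θ, hθ⟩ := this
  refine ⟨θ, ?_⟩
  simp only [G] at hθ
  linarith

end Pool.Agent.OmegaStability

end
end

section

/-!
# Contraction along the orbits of projective circle maps (item P3)
-/

open Set Filter Topology

noncomputable section

namespace Pool.Agent.OmegaStability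

namespace ProjP3

open Real

/-- The density (a form of the Hilbert metric) at `y` of the arc from `p` to `q`. -/
def rho (p q y : ℝ) : ℝ := sin ((q - p) / 2) / (2 * (sin ((y - p) / 2) * sin ((q - y) / 2)))

lemma lift_strictMono {L D : ℝ → ℝ} (h : MLift L D) : StrictMono L :=
  strictMono_of_deriv_pos fun x => by
    rw [(h.deriv x).deriv]
    exact h.pos x

lemma lift_continuous {L D : ℝ → ℝ} (h : MLift L D) : Continuous L :=
  continuous_iff_continuousAt.mpr fun x => (h.deriv x).continuousAt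

lemma lift_lip {L D : ℝ → ℝ} (h : MLift L D) {Λ : ℝ} (hΛ : ∀ θ, D θ ≤ Λ) {x y : ℝ} (hxy : x ≤ y) :
    L y - L x ≤ Λ * (y - x) := by
  refine image_sub_le_mul_sub_of_deriv_le (fun z => (h.deriv z).differentiableAt) (fun z => ?_) hxy
  rw [(h.deriv z).deriv]
  exact hΛ z

lemma lift_per_nat {L D : ℝ → ℝ} (h : MLift L D) (θ : ℝ) (n : ℕ) :
    L (θ + 2 * π * n) = L θ + 2 * π * n := by
  induction n with
  | zero => simp
  | succ n ih =>
    have e : θ + 2 * π * ((n + 1 : ℕ) : ℝ) = (θ + 2 * π * n) + 2 * π := by push_cast; ring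
    rw [e, h.per, ih]
    push_cast
    ring

lemma lift_per_int {L D : ℝ → ℝ} (h : MLift L D) (θ : ℝ) (n : ℤ) :
    L (θ + 2 * π * n) = L θ + 2 * π * n := by
  obtain ⟨m, rfl | rfl⟩ := n.eq_nat_or_neg
  · exact_mod_cast lift_per_nat h θ m
  · have := lift_per_nat h (θ + 2 * π * ((-(m : ℤ) : ℤ) : ℝ)) m
    have e : θ + 2 * π * ((-(m : ℤ) : ℤ) : ℝ) + 2 * π * (m : ℝ) = θ := by push_cast; ring
    rw [e] at this
    rw [this]
    push_cast
    ring

/-- The chord identity without squares. -/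
lemma sin_lift {L D : ℝ → ℝ} (h : MLift L D) {p q : ℝ} (h1 : p < q) (h2 : q < p + 2 * π) :
    sin ((L q - L p) / 2) = sqrt (D q) * sqrt (D p) * sin ((q - p) / 2) := by
  have hm := lift_strictMono h
  have e1 : L p < L q := hm h1
  have e2 : L q < L p + 2 * π := by
    rw [← h.per]
    exact hm h2
  have s1 : 0 < sin ((L q - L p) / 2) := sin_pos_of_pos_of_lt_pi (by linarith) (by linarith)
  have s2 : 0 < sin ((q - p) / 2) := sin_pos_of_pos_of_lt_pi (by linarith) (by linarith)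
  have hq := h.pos q
  have hp := h.pos p
  have hc := h.chord q p
  have s3 : 0 < sqrt (D q) * sqrt (D p) * sin ((q - p) / 2) := by positivity
  have e3 : (sqrt (D q) * sqrt (D p) * sin ((q - p) / 2)) ^ 2 = D q * D p * sin ((q - p) / 2) ^ 2 := by
    rw [mul_pow, mul_pow, sq_sqrt hq.le, sq_sqrt hp.le]
  rw [← e3] at hc
  exact (pow_left_inj₀ s1.le s3.le two_ne_zero).mp hc

lemma rho_map {L D : ℝ → ℝ} (h : MLift L D) {p q y : ℝ} (h1 : p < y) (h2 : y < q)
    (h3 : q < p + 2 * π) : rho p q y = D y * rho (L p) (L q) (L y) := by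
  unfold rho
  rw [sin_lift h (h1.trans h2) h3, sin_lift h h1 (h2.trans h3), sin_lift h h2 (by linarith)]
  have sp : 0 < sqrt (D p) := sqrt_pos.mpr (h.pos p)
  have sq : 0 < sqrt (D q) := sqrt_pos.mpr (h.pos q)
  have sy : 0 < sqrt (D y) := sqrt_pos.mpr (h.pos y)
  have s1 : 0 < sin ((y - p) / 2) := sin_pos_of_pos_of_lt_pi (by linarith) (by linarith)
  have s2 : 0 < sin ((q - y) / 2) := sin_pos_of_pos_of_lt_pi (by linarith) (by linarith)
  have e : D y = sqrt (D y) * sqrt (D y) := (mul_self_sqrt (h.pos y).le).symm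
  rw [e]
  field_simp
  simp only [sqrt_sq sy.le]

/-- `2 ρ = cot α + cot β`. -/
lemma two_rho {p q y : ℝ} (h1 : sin ((y - p) / 2) ≠ 0) (h2 : sin ((q - y) / 2) ≠ 0) :
    2 * rho p q y = cos ((y - p) / 2) / sin ((y - p) / 2) + cos ((q - y) / 2) / sin ((q - y) / 2) := by
  unfold rho
  have e : (q - p) / 2 = (y - p) / 2 + (q - y) / 2 := by ring
  rw [e, sin_add]
  field_simp
  ring

lemma cot_step {α h : ℝ} (hα : 0 < α) (hh : 0 ≤ h) (hαh : α + h < π) :
    (1 + sin h) * (cos (α + h) / sin (α + h)) ≤ cos α / sin α := by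
  have s1 : 0 < sin α := sin_pos_of_pos_of_lt_pi hα (by linarith)
  have s2 : 0 < sin (α + h) := sin_pos_of_pos_of_lt_pi (by linarith) hαh
  have s3 : 0 ≤ sin h := sin_nonneg_of_nonneg_of_le_pi hh (by linarith)
  have e : sin h = sin (α + h) * cos α - cos (α + h) * sin α := by
    rw [← sin_sub]
    congr 1
    ring
  have h4 : cos (α + h) * sin α ≤ 1 := by
    have h5 := sq_nonneg (cos (α + h) - sin α)
    have h6 := sin_sq_add_cos_sq (α + h)
    have h7 := sin_sq_add_cos_sq α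
    have h8 : cos (α + h) ^ 2 ≤ 1 := by nlinarith [sq_nonneg (sin (α + h))]
    have h9 : sin α ^ 2 ≤ 1 := by nlinarith [sq_nonneg (cos α)]
    nlinarith
  rw [mul_div_assoc', div_le_div_iff₀ s2 s1]
  have h10 : sin h * (cos (α + h) * sin α) ≤ sin h := by
    nlinarith
  nlinarith

lemma rho_shrink {p q y τ : ℝ} (hτ : 0 ≤ τ) (h1 : p < y) (h2 : y < q)
    (h3 : q + τ < p - τ + 2 * π) :
    (1 + sin (τ / 2)) * rho (p - τ) (q + τ) y ≤ rho p q y := by
  have hα : 0 < (y - p) / 2 := by linarith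
  have hβ : 0 < (q - y) / 2 := by linarith
  have eα : (y - (p - τ)) / 2 = (y - p) / 2 + τ / 2 := by ring
  have eβ : (q + τ - y) / 2 = (q - y) / 2 + τ / 2 := by ring
  have a1 : (y - p) / 2 + τ / 2 < π := by linarith
  have b1 : (q - y) / 2 + τ / 2 < π := by linarith
  have s1 : 0 < sin ((y - p) / 2) := sin_pos_of_pos_of_lt_pi hα (by linarith)
  have s2 : 0 < sin ((q - y) / 2) := sin_pos_of_pos_of_lt_pi hβ (by linarith)
  have s3 : 0 < sin ((y - (p - τ)) / 2) := by
    rw [eα]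
    exact sin_pos_of_pos_of_lt_pi (by linarith) a1
  have s4 : 0 < sin ((q + τ - y) / 2) := by
    rw [eβ]
    exact sin_pos_of_pos_of_lt_pi (by linarith) b1
  have r1 := two_rho s1.ne' s2.ne'
  have r2 := two_rho s3.ne' s4.ne'
  have c1 := cot_step hα (by linarith : 0 ≤ τ / 2) a1
  have c2 := cot_step hβ (by linarith : 0 ≤ τ / 2) b1
  rw [eα, eβ] at r2
  have e : (1 + sin (τ / 2)) * (2 * rho (p - τ) (q + τ) y) =
      (1 + sin (τ / 2)) * (cos ((y - p) / 2 + τ / 2) / sin ((y - p) / 2 + τ / 2)) +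
      (1 + sin (τ / 2)) * (cos ((q - y) / 2 + τ / 2) / sin ((q - y) / 2 + τ / 2)) := by
    rw [r2, mul_add]
  linarith

lemma sin_ge {x d : ℝ} (hd : 0 ≤ d) (h1 : d ≤ x) (h2 : x ≤ π - d) : sin d ≤ sin x := by
  rcases le_total x (π / 2) with h | h
  · exact sin_le_sin_of_le_of_le_pi_div_two (by linarith [pi_pos]) h h1
  · rw [← sin_pi_sub x]
    exact sin_le_sin_of_le_of_le_pi_div_two (by linarith [pi_pos]) (by linarith) (by linarith)

lemma rho_bounds {p q y d : ℝ} (hd : 0 < d) (hd2 : d ≤ 1 / 2) (h1 : d ≤ (y - p) / 2)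
    (h2 : d ≤ (q - y) / 2) (h3 : (q - p) / 2 ≤ π - 2 * d) :
    sin (2 * d) / 2 ≤ rho p q y ∧ rho p q y ≤ 1 / (2 * sin d ^ 2) := by
  have hpi := pi_gt_three
  have sd : 0 < sin d := sin_pos_of_pos_of_lt_pi hd (by linarith)
  have s2d : 0 < sin (2 * d) := sin_pos_of_pos_of_lt_pi (by linarith) (by linarith)
  have a1 : sin (2 * d) ≤ sin ((q - p) / 2) := sin_ge (by linarith) (by linarith) (by linarith)
  have a2 : sin d ≤ sin ((y - p) / 2) := sin_ge hd.le h1 (by linarith)
  have a3 : sin d ≤ sin ((q - y) / 2) := sin_ge hd.le h2 (by linarith)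
  have b1 := sin_le_one ((q - p) / 2)
  have b2 := sin_le_one ((y - p) / 2)
  have b3 := sin_le_one ((q - y) / 2)
  have p1 : 0 < sin ((q - p) / 2) := s2d.trans_le a1
  have p2 : 0 < sin ((y - p) / 2) := sd.trans_le a2
  have p3 : 0 < sin ((q - y) / 2) := sd.trans_le a3
  unfold rho
  constructor
  · rw [div_le_div_iff₀ (by norm_num) (by positivity)]
    have : sin ((y - p) / 2) * sin ((q - y) / 2) ≤ 1 := by nlinarith
    nlinarith
  · rw [div_le_div_iff₀ (by positivity) (by positivity)]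
    have : sin d * sin d ≤ sin ((y - p) / 2) * sin ((q - y) / 2) := by gcongr
    nlinarith

lemma orb_succ (L : ℕ → ℝ → ℝ) (t : ℝ) (j : ℕ) (θ : ℝ) :
    orb L t (j + 1) θ = L j (orb L t j θ) + t := rfl

lemma orb_add_N {L : ℕ → ℝ → ℝ} {N : ℕ} (hper : ∀ j, L (j + N) = L j) (t : ℝ) (j : ℕ) (θ : ℝ) :
    orb L t (j + N) θ = orb L t j (orb L t N θ) := by
  induction j with
  | zero => simp [orb]
  | succ j ih =>
    have e : j + 1 + N = (j + N) + 1 := by ring
    rw [e, orb_succ, ih, hper, orb_succ]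

lemma orb_per_int {L D : ℕ → ℝ → ℝ} (hL : ∀ j, MLift (L j) (D j)) (t : ℝ) (j : ℕ) (θ : ℝ)
    (n : ℤ) : orb L t j (θ + 2 * π * n) = orb L t j θ + 2 * π * n := by
  induction j with
  | zero => rfl
  | succ j ih =>
    rw [orb_succ, ih, lift_per_int (hL j), orb_succ]
    ring

lemma orb_continuous {L D : ℕ → ℝ → ℝ} (hL : ∀ j, MLift (L j) (D j)) (t : ℝ) (j : ℕ) :
    Continuous (orb L t j) := by
  induction j with
  | zero => exact continuous_id
  | succ j ih => exact ((lift_continuous (hL j)).comp ih).add continuous_const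

lemma orb_le {L D : ℕ → ℝ → ℝ} (hL : ∀ j, MLift (L j) (D j)) {s t : ℝ} (hst : s ≤ t) (j : ℕ)
    (θ : ℝ) : orb L s j θ ≤ orb L t j θ := by
  induction j with
  | zero => exact le_rfl
  | succ j ih =>
    rw [orb_succ, orb_succ]
    exact add_le_add ((lift_strictMono (hL j)).monotone ih) hst

lemma orb_gap {L D : ℕ → ℝ → ℝ} (hL : ∀ j, MLift (L j) (D j)) {s t : ℝ} (hst : s ≤ t) {N : ℕ}
    (hN : 0 < N) (θ : ℝ) : orb L s N θ + (t - s) ≤ orb L t N θ := by
  obtain ⟨j, rfl⟩ := Nat.exists_eq_add_of_lt hN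
  rw [zero_add, orb_succ, orb_succ]
  have := (lift_strictMono (hL j)).monotone (orb_le hL hst j θ)
  linarith

lemma orb_shift {L D : ℕ → ℝ → ℝ} (hL : ∀ j, MLift (L j) (D j)) {N : ℕ}
    (hper : ∀ j, L (j + N) = L j) {t θ : ℝ} {k : ℤ} (h : orb L t N θ = θ + 2 * π * k) (j : ℕ) :
    orb L t (j + N) θ = orb L t j θ + 2 * π * k := by
  rw [orb_add_N hper, h, orb_per_int hL]

/-- A property that propagates forward and is periodic backwards holds at `0`. -/
lemma periodic_back {P : ℕ → Prop} {N : ℕ} (hN : 0 < N) (step : ∀ j, P j → P (j + 1))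
    (per : ∀ j, P (j + N) → P j) {j : ℕ} (h : P j) : P 0 := by
  have h1 : ∀ i, j ≤ i → P i := fun i hi => Nat.le_induction h (fun n _ hn => step n hn) i hi
  have h2 : P (j * N) := h1 _ (Nat.le_mul_of_pos_right j hN)
  have h3 : ∀ s, P (s * N) → P 0 := by
    intro s
    induction s with
    | zero => intro h; simpa using h
    | succ s ih =>
      intro h
      apply ih
      apply per
      have e : (s + 1) * N = s * N + N := by ring
      rwa [e] at h
  exact h3 j h2

lemma tele_a {d P : ℕ → ℝ} {κ : ℝ} (hκ : 0 ≤ κ) (hd : ∀ j, 0 ≤ d j)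
    (h : ∀ j, d j * P (j + 1) ≤ κ * P j) (j l : ℕ) :
    (∏ i ∈ Finset.range l, d (j + i)) * P (j + l) ≤ κ ^ l * P j := by
  induction l with
  | zero => simp
  | succ l ih =>
    rw [Finset.prod_range_succ, pow_succ]
    have h1 : 0 ≤ ∏ i ∈ Finset.range l, d (j + i) := Finset.prod_nonneg fun i _ => hd _
    calc (∏ i ∈ Finset.range l, d (j + i)) * d (j + l) * P (j + (l + 1))
        = (∏ i ∈ Finset.range l, d (j + i)) * (d (j + l) * P (j + l + 1)) := by
          rw [← add_assoc]; ring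
      _ ≤ (∏ i ∈ Finset.range l, d (j + i)) * (κ * P (j + l)) :=
          mul_le_mul_of_nonneg_left (h (j + l)) h1
      _ = κ * ((∏ i ∈ Finset.range l, d (j + i)) * P (j + l)) := by ring
      _ ≤ κ * (κ ^ l * P j) := mul_le_mul_of_nonneg_left ih hκ
      _ = κ ^ l * κ * P j := by ring

lemma tele_b {d P : ℕ → ℝ} {κ : ℝ} (hκ : 0 ≤ κ) (hd : ∀ j, 0 ≤ d j)
    (h : ∀ j, P j ≤ κ * (d j * P (j + 1))) (j l : ℕ) :
    P j ≤ κ ^ l * ((∏ i ∈ Finset.range l, d (j + i)) * P (j + l)) := by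
  induction l with
  | zero => simp
  | succ l ih =>
    rw [Finset.prod_range_succ, pow_succ]
    have h1 : 0 ≤ ∏ i ∈ Finset.range l, d (j + i) := Finset.prod_nonneg fun i _ => hd _
    calc P j ≤ κ ^ l * ((∏ i ∈ Finset.range l, d (j + i)) * P (j + l)) := ih
      _ ≤ κ ^ l * ((∏ i ∈ Finset.range l, d (j + i)) * (κ * (d (j + l) * P (j + l + 1)))) := by
          gcongr
          exact h (j + l)
      _ = κ ^ l * κ * ((∏ i ∈ Finset.range l, d (j + i)) * d (j + l) * P (j + (l + 1))) := by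
          rw [← add_assoc]; ring

end ProjP3

open ProjP3 in
theorem contraction (τ Λ : ℝ) (hτ : 0 < τ) (hτ1 : τ ≤ 1) (hΛ : 1 ≤ Λ) :
    ∃ C κ : ℝ, 0 < C ∧ 0 < κ ∧ κ < 1 ∧ ∀ (L D : ℕ → ℝ → ℝ) (N : ℕ), 0 < N →
      (∀ j, MLift (L j) (D j)) → (∀ j, L (j + N) = L j) → (∀ j θ, D j θ ≤ Λ) →
      ∀ k : ℤ, (∀ t, |t| ≤ τ → ∃ θ, orb L t N θ = θ + 2 * Real.pi * k) →
      ∃ a b : ℝ, orb L 0 N a = a + 2 * Real.pi * k ∧ orb L 0 N b = b + 2 * Real.pi * k ∧
        (∀ j l, ∏ i ∈ Finset.range l, D (j + i) (orb L 0 (j + i) a) ≤ C * κ ^ l) ∧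
        (∀ j l, 1 ≤ C * κ ^ l * ∏ i ∈ Finset.range l, D (j + i) (orb L 0 (j + i) b)) := by
  have hpi := Real.pi_gt_three
  have hΛ0 : 0 < Λ := by linarith
  obtain ⟨d, hd⟩ : ∃ d, d = τ / (2 * Λ) := ⟨_, rfl⟩
  have hd0 : 0 < d := by rw [hd]; positivity
  have hdτ : 2 * d * Λ = τ := by rw [hd]; field_simp
  have h2d : 2 * d ≤ τ := by nlinarith
  have hd2 : d ≤ 1 / 2 := by linarith
  have sτ : 0 < Real.sin (τ / 2) := Real.sin_pos_of_pos_of_lt_pi (by linarith) (by linarith)
  have sd : 0 < Real.sin d := Real.sin_pos_of_pos_of_lt_pi hd0 (by linarith)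
  have s2d : 0 < Real.sin (2 * d) := Real.sin_pos_of_pos_of_lt_pi (by linarith) (by linarith)
  obtain ⟨c1, hc1⟩ : ∃ c1, c1 = Real.sin (2 * d) / 2 := ⟨_, rfl⟩
  obtain ⟨c2, hc2⟩ : ∃ c2, c2 = 1 / (2 * Real.sin d ^ 2) := ⟨_, rfl⟩
  have hc10 : 0 < c1 := by rw [hc1]; positivity
  have hc20 : 0 < c2 := by rw [hc2]; positivity
  obtain ⟨κ, hκ⟩ : ∃ κ, κ = 1 / (1 + Real.sin (τ / 2)) := ⟨_, rfl⟩
  have hκ0 : 0 < κ := by rw [hκ]; positivity
  have hκ1 : κ < 1 := by
    rw [hκ, div_lt_one (by linarith)]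
    linarith
  have hκe : κ * (1 + Real.sin (τ / 2)) = 1 := by
    rw [hκ]
    field_simp
  refine ⟨c2 / c1, κ, by positivity, hκ0, hκ1, ?_⟩
  intro L D N hN hL hper hD k hyp
  obtain ⟨u0, hu0⟩ := hyp (-τ) (by rw [abs_neg, abs_of_pos hτ])
  obtain ⟨v', hv'⟩ := hyp τ (by rw [abs_of_pos hτ])
  obtain ⟨v0, hv0, hv01, hv02⟩ : ∃ v0, orb L τ N v0 = v0 + 2 * Real.pi * k ∧ u0 < v0 ∧
      v0 ≤ u0 + 2 * Real.pi := by
    refine ⟨toIocMod Real.two_pi_pos u0 v', ?_, (toIocMod_mem_Ioc Real.two_pi_pos u0 v').1,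
      (toIocMod_mem_Ioc Real.two_pi_pos u0 v').2⟩
    have e : toIocMod Real.two_pi_pos u0 v' =
        v' + 2 * Real.pi * ((-(toIocDiv Real.two_pi_pos u0 v') : ℤ) : ℝ) := by
      rw [toIocMod]
      push_cast
      rw [zsmul_eq_mul]
      ring
    rw [e, orb_per_int hL, hv']
    ring
  have hmono : ∀ j, StrictMono (L j) := fun j => lift_strictMono (hL j)
  obtain ⟨u, hu⟩ : ∃ u : ℕ → ℝ, ∀ j, u j = orb L (-τ) j u0 := ⟨_, fun _ => rfl⟩
  obtain ⟨v, hv⟩ : ∃ v : ℕ → ℝ, ∀ j, v j = orb L τ j v0 := ⟨_, fun _ => rfl⟩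
  have u_zero : u 0 = u0 := hu 0
  have v_zero : v 0 = v0 := hv 0
  have u_succ : ∀ j, u (j + 1) = L j (u j) - τ := fun j => by
    rw [hu, hu, orb_succ]
    ring
  have v_succ : ∀ j, v (j + 1) = L j (v j) + τ := fun j => by
    rw [hv, hv, orb_succ]
  have u_per : ∀ j, u (j + N) = u j + 2 * Real.pi * k := fun j => by
    rw [hu, hu, orb_shift hL hper hu0]
  have v_per : ∀ j, v (j + N) = v j + 2 * Real.pi * k := fun j => by
    rw [hv, hv, orb_shift hL hper hv0]
  have hv03 : v0 < u0 + 2 * Real.pi := by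
    refine lt_of_le_of_ne hv02 fun h => ?_
    have h1 : orb L τ N u0 = u0 + 2 * Real.pi * k := by
      have h2 := orb_per_int hL τ N u0 1
      have e : u0 + 2 * Real.pi * ((1 : ℤ) : ℝ) = v0 := by
        rw [h]
        push_cast
        ring
      rw [e, hv0, h] at h2
      push_cast at h2
      linarith
    have h3 := orb_gap hL (by linarith : -τ ≤ τ) hN u0
    rw [h1, hu0] at h3
    linarith
  have huv : ∀ j, u j < v j := by
    intro j
    induction j with
    | zero => rw [u_zero, v_zero]; exact hv01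
    | succ j ih =>
      rw [u_succ, v_succ]
      have := hmono j ih
      linarith
  have huv2 : ∀ j, 2 * τ < v (j + 1) - u (j + 1) := by
    intro j
    rw [u_succ, v_succ]
    have := hmono j (huv j)
    linarith
  have Lu2 : ∀ j, L j (u j + 2 * Real.pi) = u (j + 1) + τ + 2 * Real.pi := fun j => by
    rw [(hL j).per, u_succ]
    ring
  have hvu : ∀ j, v j < u j + 2 * Real.pi := by
    intro j
    by_contra hcon
    rw [not_lt] at hcon
    have := periodic_back (P := fun j => u j + 2 * Real.pi ≤ v j) hN (fun i hi => by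
      have h1 := (hmono i).monotone hi
      rw [Lu2] at h1
      rw [v_succ]
      linarith) (fun i hi => by
      rw [u_per, v_per] at hi
      linarith) hcon
    rw [u_zero, v_zero] at this
    linarith
  -- the two periodic points
  have hcont : Continuous fun y => orb L 0 N y - y := (orb_continuous hL 0 N).sub continuous_id
  have φu : 2 * Real.pi * k ≤ orb L 0 N u0 - u0 := by
    have := orb_gap hL (by linarith : -τ ≤ 0) hN u0
    rw [hu0] at this
    linarith
  have φv : orb L 0 N v0 - v0 ≤ 2 * Real.pi * k := by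
    have := orb_gap hL (by linarith : 0 ≤ τ) hN v0
    rw [hv0] at this
    linarith
  have φu2 : 2 * Real.pi * k ≤ orb L 0 N (u0 + 2 * Real.pi) - (u0 + 2 * Real.pi) := by
    have h2 := orb_per_int hL 0 N u0 1
    push_cast at h2
    rw [mul_one] at h2
    rw [h2]
    linarith
  obtain ⟨a, ha, haN⟩ := intermediate_value_Icc' hv01.le hcont.continuousOn ⟨φv, φu⟩
  obtain ⟨b, hb, hbN⟩ := intermediate_value_Icc hv03.le hcont.continuousOn ⟨φv, φu2⟩
  have haN' : orb L 0 N a = a + 2 * Real.pi * k := by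
    simp only at haN
    linarith
  have hbN' : orb L 0 N b = b + 2 * Real.pi * k := by
    simp only at hbN
    linarith
  obtain ⟨A, hA⟩ : ∃ A : ℕ → ℝ, ∀ j, A j = orb L 0 j a := ⟨_, fun _ => rfl⟩
  obtain ⟨B, hB⟩ : ∃ B : ℕ → ℝ, ∀ j, B j = orb L 0 j b := ⟨_, fun _ => rfl⟩
  have A_zero : A 0 = a := hA 0
  have B_zero : B 0 = b := hB 0
  have A_succ : ∀ j, A (j + 1) = L j (A j) := fun j => by
    rw [hA, hA, orb_succ, add_zero]
  have B_succ : ∀ j, B (j + 1) = L j (B j) := fun j => by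
    rw [hB, hB, orb_succ, add_zero]
  have A_per : ∀ j, A (j + N) = A j + 2 * Real.pi * k := fun j => by
    rw [hA, hA, orb_shift hL hper haN']
  have B_per : ∀ j, B (j + N) = B j + 2 * Real.pi * k := fun j => by
    rw [hB, hB, orb_shift hL hper hbN']
  -- position of `A`
  have A_mem : ∀ j, u j ≤ A j ∧ A j ≤ v j := by
    intro j
    induction j with
    | zero => rw [u_zero, v_zero, A_zero]; exact ⟨ha.1, ha.2⟩
    | succ j ih =>
      rw [u_succ, v_succ, A_succ]
      have h1 := (hmono j).monotone ih.1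
      have h2 := (hmono j).monotone ih.2
      exact ⟨by linarith, by linarith⟩
  obtain ⟨N', rfl⟩ : ∃ N', N = N' + 1 := ⟨N - 1, by omega⟩
  have A_gap : ∀ j, u j + τ ≤ A j ∧ A j + τ ≤ v j := by
    intro j
    have h1 := (hmono (j + N')).monotone (A_mem (j + N')).1
    have h2 := (hmono (j + N')).monotone (A_mem (j + N')).2
    rw [← A_succ] at h1 h2
    have h3 := u_succ (j + N')
    have h4 := v_succ (j + N')
    have e : j + N' + 1 = j + (N' + 1) := by ring
    rw [e] at h1 h2 h3 h4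
    rw [u_per] at h3
    rw [v_per] at h4
    rw [A_per] at h1 h2
    exact ⟨by linarith, by linarith⟩
  -- position of `B`
  have B_ge : ∀ j, v j ≤ B j := by
    intro j
    by_contra hcon
    rw [not_le] at hcon
    have := periodic_back (P := fun j => B j < v j) hN (fun i hi => by
      have h1 := hmono i hi
      simp only [B_succ, v_succ]
      linarith) (fun i hi => by
      rw [B_per, v_per] at hi
      linarith) hcon
    rw [B_zero, v_zero] at this
    linarith [hb.1]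
  have B_le : ∀ j, B j ≤ u j + 2 * Real.pi := by
    intro j
    by_contra hcon
    rw [not_le] at hcon
    have := periodic_back (P := fun j => u j + 2 * Real.pi < B j) hN (fun i hi => by
      have h1 := hmono i hi
      rw [Lu2] at h1
      rw [B_succ]
      linarith) (fun i hi => by
      rw [B_per, u_per] at hi
      linarith) hcon
    rw [B_zero, u_zero] at this
    linarith [hb.2]
  have B_gap : ∀ j, v j + 2 * d ≤ B j ∧ B j + 2 * d ≤ u j + 2 * Real.pi := by
    intro j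
    have h1 := lift_lip (hL j) (hD j) (B_ge j)
    have h2 := lift_lip (hL j) (hD j) (B_le j)
    have h3 := B_ge (j + 1)
    have h4 := B_le (j + 1)
    rw [Lu2] at h2
    rw [v_succ] at h3
    rw [B_succ] at h3 h4
    constructor
    · have : 2 * d * Λ ≤ Λ * (B j - v j) := by
        rw [hdτ]
        linarith
      have h5 : 2 * d ≤ B j - v j := by
        have h6 : Λ * (2 * d) ≤ Λ * (B j - v j) := by linarith
        exact le_of_mul_le_mul_left h6 hΛ0
      linarith
    · have : 2 * d * Λ ≤ Λ * (u j + 2 * Real.pi - B j) := by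
        rw [hdτ]
        linarith
      have h5 : 2 * d ≤ u j + 2 * Real.pi - B j := by
        have h6 : Λ * (2 * d) ≤ Λ * (u j + 2 * Real.pi - B j) := by linarith
        exact le_of_mul_le_mul_left h6 hΛ0
      linarith
  -- bounds of the densities
  have Pb : ∀ j, c1 ≤ rho (u j) (v j) (A j) ∧ rho (u j) (v j) (A j) ≤ c2 := by
    intro j
    rw [hc1, hc2]
    have h1 := A_gap j
    have h2 := B_gap j
    exact rho_bounds hd0 hd2 (by linarith) (by linarith) (by linarith)
  have Rb : ∀ j, c1 ≤ rho (v j) (u j + 2 * Real.pi) (B j) ∧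
      rho (v j) (u j + 2 * Real.pi) (B j) ≤ c2 := by
    intro j
    rw [hc1, hc2]
    have h1 := A_gap j
    have h2 := B_gap j
    exact rho_bounds hd0 hd2 (by linarith) (by linarith) (by linarith)
  -- one step
  have Pstep : ∀ j, D j (A j) * rho (u (j + 1)) (v (j + 1)) (A (j + 1)) ≤
      κ * rho (u j) (v j) (A j) := by
    intro j
    have h1 := A_gap j
    have h2 := hvu j
    have h3 := hvu (j + 1)
    have h4 := A_gap (j + 1)
    have e1 := rho_map (hL j) (p := u j) (q := v j) (y := A j) (by linarith) (by linarith) h2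
    have e2 : L j (u j) = u (j + 1) + τ := by rw [u_succ]; ring
    have e3 : L j (v j) = v (j + 1) - τ := by rw [v_succ]; ring
    have l1 : u (j + 1) + τ < A (j + 1) := by
      rw [← e2, A_succ]
      exact hmono j (by linarith)
    have l2 : A (j + 1) < v (j + 1) - τ := by
      rw [← e3, A_succ]
      exact hmono j (by linarith)
    have sh := rho_shrink (p := u (j + 1) + τ) (q := v (j + 1) - τ) (y := A (j + 1)) hτ.le l1 l2
      (by linarith)
    rw [e2, e3, ← A_succ] at e1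
    have e4 : u (j + 1) + τ - τ = u (j + 1) := by ring
    have e5 : v (j + 1) - τ + τ = v (j + 1) := by ring
    rw [e4, e5] at sh
    have hDpos := (hL j).pos (A j)
    rw [e1]
    calc D j (A j) * rho (u (j + 1)) (v (j + 1)) (A (j + 1))
        = κ * (D j (A j) * ((1 + Real.sin (τ / 2)) *
            rho (u (j + 1)) (v (j + 1)) (A (j + 1)))) := by
          calc D j (A j) * rho (u (j + 1)) (v (j + 1)) (A (j + 1))
              = (κ * (1 + Real.sin (τ / 2))) *
                (D j (A j) * rho (u (j + 1)) (v (j + 1)) (A (j + 1))) := by rw [hκe, one_mul]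
            _ = _ := by ring
      _ ≤ κ * (D j (A j) * rho (u (j + 1) + τ) (v (j + 1) - τ) (A (j + 1))) := by
          gcongr
  have Rstep : ∀ j, rho (v j) (u j + 2 * Real.pi) (B j) ≤
      κ * (D j (B j) * rho (v (j + 1)) (u (j + 1) + 2 * Real.pi) (B (j + 1))) := by
    intro j
    have h1 := B_gap j
    have h2 := huv j
    have h3 := huv2 j
    have h4 := B_gap (j + 1)
    have e1 := rho_map (hL j) (p := v j) (q := u j + 2 * Real.pi) (y := B j) (by linarith)
      (by linarith) (by linarith)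
    have e2 : L j (v j) = v (j + 1) - τ := by rw [v_succ]; ring
    have e3 : L j (u j + 2 * Real.pi) = u (j + 1) + 2 * Real.pi + τ := by rw [Lu2]; ring
    have sh := rho_shrink (p := v (j + 1)) (q := u (j + 1) + 2 * Real.pi) (y := B (j + 1)) hτ.le
      (by linarith) (by linarith) (by linarith)
    rw [e2, e3, ← B_succ] at e1
    have hDpos := (hL j).pos (B j)
    rw [e1]
    calc D j (B j) * rho (v (j + 1) - τ) (u (j + 1) + 2 * Real.pi + τ) (B (j + 1))
        = κ * (D j (B j) * ((1 + Real.sin (τ / 2)) *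
            rho (v (j + 1) - τ) (u (j + 1) + 2 * Real.pi + τ) (B (j + 1)))) := by
          calc D j (B j) * rho (v (j + 1) - τ) (u (j + 1) + 2 * Real.pi + τ) (B (j + 1))
              = (κ * (1 + Real.sin (τ / 2))) *
                (D j (B j) * rho (v (j + 1) - τ) (u (j + 1) + 2 * Real.pi + τ) (B (j + 1))) := by
                  rw [hκe, one_mul]
            _ = _ := by ring
      _ ≤ κ * (D j (B j) * rho (v (j + 1)) (u (j + 1) + 2 * Real.pi) (B (j + 1))) := by
          gcongr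
  refine ⟨a, b, haN', hbN', fun j l => ?_, fun j l => ?_⟩
  · have t := tele_a (d := fun j => D j (A j)) (P := fun j => rho (u j) (v j) (A j)) hκ0.le
      (fun j => ((hL j).pos _).le) Pstep j l
    have e : ∏ i ∈ Finset.range l, D (j + i) (orb L 0 (j + i) a) =
        ∏ i ∈ Finset.range l, D (j + i) (A (j + i)) := by
      refine Finset.prod_congr rfl fun i _ => ?_
      rw [hA]
    rw [e]
    have hp : 0 ≤ ∏ i ∈ Finset.range l, D (j + i) (A (j + i)) :=
      Finset.prod_nonneg fun i _ => ((hL _).pos _).le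
    have h1 := (Pb (j + l)).1
    have h2 := (Pb j).2
    have h3 : (∏ i ∈ Finset.range l, D (j + i) (A (j + i))) * c1 ≤ κ ^ l * c2 :=
      calc (∏ i ∈ Finset.range l, D (j + i) (A (j + i))) * c1
          ≤ (∏ i ∈ Finset.range l, D (j + i) (A (j + i))) * rho (u (j + l)) (v (j + l)) (A (j + l)) :=
            mul_le_mul_of_nonneg_left h1 hp
        _ ≤ κ ^ l * rho (u j) (v j) (A j) := t
        _ ≤ κ ^ l * c2 := by gcongr
    rw [div_mul_eq_mul_div, le_div_iff₀ hc10]
    linarith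
  · have t := tele_b (d := fun j => D j (B j)) (P := fun j => rho (v j) (u j + 2 * Real.pi) (B j))
      hκ0.le (fun j => ((hL j).pos _).le) Rstep j l
    have e : ∏ i ∈ Finset.range l, D (j + i) (orb L 0 (j + i) b) =
        ∏ i ∈ Finset.range l, D (j + i) (B (j + i)) := by
      refine Finset.prod_congr rfl fun i _ => ?_
      rw [hB]
    rw [e]
    have hp : 0 ≤ ∏ i ∈ Finset.range l, D (j + i) (B (j + i)) :=
      Finset.prod_nonneg fun i _ => ((hL _).pos _).le
    have h1 := (Rb j).1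
    have h2 := (Rb (j + l)).2
    have h3 : c1 ≤ κ ^ l * ((∏ i ∈ Finset.range l, D (j + i) (B (j + i))) * c2) :=
      calc c1 ≤ rho (v j) (u j + 2 * Real.pi) (B j) := h1
        _ ≤ κ ^ l * ((∏ i ∈ Finset.range l, D (j + i) (B (j + i))) *
            rho (v (j + l)) (u (j + l) + 2 * Real.pi) (B (j + l))) := t
        _ ≤ κ ^ l * ((∏ i ∈ Finset.range l, D (j + i) (B (j + i))) * c2) := by gcongr
    have h4 : c2 / c1 * κ ^ l * ∏ i ∈ Finset.range l, D (j + i) (B (j + i)) =
        (κ ^ l * ((∏ i ∈ Finset.range l, D (j + i) (B (j + i))) * c2)) / c1 := by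
      field_simp
    rw [h4, le_div_iff₀ hc10, one_mul]
    exact h3

end Pool.Agent.OmegaStability

end
end

section

/-!
# Chords of a free circle action depend continuously on their end points
-/

open Set Filter Topology
open scoped Manifold ContDiff ComplexConjugate

noncomputable section

namespace Pool.Agent.OmegaStability

variable {M : Type*} [TopologicalSpace M] [MulAction Circle M]

omit [TopologicalSpace M] in
theorem p4_smul_inj_of_free (free : ∀ (z : Circle) (y : M), z • y = y → z = 1) {z w : Circle} {y : M}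
    (h : z • y = w • y) : z = w := by
  have h1 : (w⁻¹ * z) • y = y := by
    rw [mul_smul, h, inv_smul_smul]
  have h2 := free _ _ h1
  rw [inv_mul_eq_one] at h2
  exact h2.symm

omit [TopologicalSpace M] in
theorem chord_smul (free : ∀ (z : Circle) (y : M), z • y = y → z = 1) (z : Circle) (y : M) :
    chord y (z • y) = ‖(z : ℂ) - 1‖ := by
  have h : ∃ w : Circle, w • y = z • y := ⟨z, rfl⟩
  unfold chord
  rw [dif_pos h]
  have h1 : Classical.choose h = z := p4_smul_inj_of_free free (Classical.choose_spec h)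
  rw [h1]

theorem continuous_chord [T2Space M]
    (hact : Continuous fun p : Circle × M => p.1 • p.2)
    (free : ∀ (z : Circle) (y : M), z • y = y → z = 1) {X : Type*} [TopologicalSpace X]
    (s t : X → M) (hs : Continuous s) (ht : Continuous t) (hst : ∀ x, ∃ z : Circle, z • s x = t x) :
    Continuous fun x => chord (s x) (t x) := by
  choose z hz using hst
  have hzc : Continuous z := by
    rw [continuous_iff_continuousAt]
    intro x
    refine tendsto_iff_ultrafilter _ _ _ |>.2 fun U hU => ?_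
    obtain ⟨z0, -, hz0⟩ := (isCompact_univ : IsCompact (univ : Set Circle)).ultrafilter_le_nhds
      (U.map z) (by simp)
    have h1 : Tendsto z U (𝓝 z0) := hz0
    have h2 : Tendsto (fun x => z x • s x) U (𝓝 (z0 • s x)) := by
      have h3 : Tendsto (fun x => (z x, s x)) U (𝓝 (z0, s x)) :=
        h1.prodMk_nhds ((hs.tendsto x).mono_left hU)
      exact (hact.tendsto (z0, s x)).comp h3
    have h4 : Tendsto (fun x => z x • s x) U (𝓝 (t x)) := by
      simp only [hz]
      exact (ht.tendsto x).mono_left hU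
    have h5 : z0 • s x = t x := tendsto_nhds_unique h2 h4
    have h6 : z0 = z x := p4_smul_inj_of_free free (h5.trans (hz x).symm)
    rw [← h6]
    exact h1
  have h : (fun x => chord (s x) (t x)) = fun x => ‖((z x : Circle) : ℂ) - 1‖ := by
    funext x
    rw [← hz x, chord_smul free]
  rw [h]
  exact (continuous_subtype_val.comp hzc |>.sub continuous_const).norm

end Pool.Agent.OmegaStability

end
end

section

/-!
# The continuous invariant section of attracting points of a projective circle extension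
-/

open Set Filter Topology
open scoped Manifold ContDiff ComplexConjugate

noncomputable section

namespace Pool.Agent.OmegaStability

namespace ProjP5

theorem chord_nonneg {M : Type*} [MulAction Circle M] (y y' : M) : 0 ≤ chord y y' := by
  classical
  unfold chord
  split_ifs with h
  · exact norm_nonneg _
  · exact le_rfl

theorem chord_le_two {M : Type*} [MulAction Circle M] (y y' : M) : chord y y' ≤ 2 := by
  classical
  unfold chord
  split_ifs with h
  · refine (norm_sub_le _ _).trans ?_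
    rw [Circle.norm_coe, norm_one]
    norm_num
  · norm_num

theorem eq_of_chord_eq_zero {M : Type*} [MulAction Circle M] {y y' : M}
    (h : ∃ z : Circle, z • y = y') (h0 : chord y y' = 0) : y = y' := by
  classical
  unfold chord at h0
  rw [dif_pos h] at h0
  have h1 : ((Classical.choose h : Circle) : ℂ) = 1 := by
    rwa [norm_eq_zero, sub_eq_zero] at h0
  have h2 : (Classical.choose h : Circle) = 1 := by
    apply Circle.ext
    rw [h1, Circle.coe_one]
  have h3 := Classical.choose_spec h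
  rw [h2, one_smul] at h3
  exact h3

end ProjP5

open ProjP5

theorem exists_section {B M : Type*} [MetricSpace B] [CompactSpace B] [MetricSpace M]
    [CompactSpace M] [MulAction Circle M] (π : M → B) (hπ : Continuous π)
    (hπs : Function.Surjective π)
    (hact : Continuous fun p : Circle × M => p.1 • p.2)
    (free : ∀ (z : Circle) (y : M), z • y = y → z = 1)
    (fibre : ∀ y y' : M, π y = π y' ↔ ∃ z : Circle, z • y = y')
    (A : B ≃ₜ B) (f : M ≃ₜ M) (hcov : ∀ y, π (f y) = A (π y))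
    (D : M → ℝ) (hD : Continuous D) (hD0 : ∀ y, 0 < D y)
    (hchord : ∀ y y', π y = π y' → chord (f y) (f y') ^ 2 = D y * D y' * chord y y' ^ 2)
    (hdense : Dense (Function.periodicPts A)) (C κ : ℝ) (hκ0 : 0 < κ) (hκ1 : κ < 1)
    (hper : ∀ x ∈ Function.periodicPts A, ∃ y, π y = x ∧ y ∈ Function.periodicPts f ∧
      ∀ j l : ℕ, ∏ i ∈ Finset.range l, D (f^[j + i] y) ≤ C * κ ^ l) :
    ∃ σ : B → M, Continuous σ ∧ (∀ x, π (σ x) = x) ∧ (∀ x, σ (A x) = f (σ x)) ∧
      (∀ x (l : ℕ), ∏ i ∈ Finset.range l, D (f^[i] (σ x)) ≤ C * κ ^ l) ∧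
      ∀ x, σ x ∈ closure (Function.periodicPts f) := by
  classical
  -- the set of points with uniformly contracted orbits
  set Λ : Set M := {y | ∀ j l : ℕ, ∏ i ∈ Finset.range l, D (f^[i] (f^[j] y)) ≤ C * κ ^ l ∧
    ∏ i ∈ Finset.range l, D (f^[i] (f.symm^[j] y)) ≤ C * κ ^ l} with hΛ
  have hfi : ∀ n : ℕ, Continuous (f^[n]) := fun n => f.continuous.iterate n
  have hfs : ∀ n : ℕ, Continuous (f.symm^[n]) := fun n => f.symm.continuous.iterate n
  have hclosed : IsClosed Λ := by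
    rw [hΛ]
    simp only [ofPred_forall]
    refine isClosed_iInter fun j => isClosed_iInter fun l => ?_
    refine IsClosed.inter ?_ ?_
    · exact isClosed_le (continuous_finsetProd _ fun i _ => hD.comp ((hfi i).comp (hfi j)))
        continuous_const
    · exact isClosed_le (continuous_finsetProd _ fun i _ => hD.comp ((hfi i).comp (hfs j)))
        continuous_const
  have hinv : ∀ y ∈ Λ, f y ∈ Λ := by
    intro y hy j l
    refine ⟨?_, ?_⟩
    · have h := (hy (j + 1) l).1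
      rwa [Function.iterate_succ_apply] at h
    · rcases j with _ | j
      · have h := (hy 1 l).1
        rwa [Function.iterate_one] at h
      · have h := (hy j l).2
        rw [Function.iterate_succ_apply, f.symm_apply_apply]
        exact h
  have hinvl : ∀ (n : ℕ) (y : M), f^[n] (f.symm^[n] y) = y := fun n y =>
    (Function.LeftInverse.iterate (fun z => f.apply_symm_apply z) n) y
  have hinvr : ∀ (n : ℕ) (y : M), f.symm^[n] (f^[n] y) = y := fun n y =>
    (Function.LeftInverse.iterate (fun z => f.symm_apply_apply z) n) y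
  -- the projections of backward orbits
  have hcov' : ∀ y, π (f.symm y) = A.symm (π y) := by
    intro y
    rw [A.eq_symm_apply, ← hcov, f.apply_symm_apply]
  have hback : ∀ (n : ℕ) (y y' : M), π y = π y' → π (f.symm^[n] y) = π (f.symm^[n] y') := by
    intro n
    induction n with
    | zero => intro y y' h; exact h
    | succ n ih =>
      intro y y' h
      rw [Function.iterate_succ_apply, Function.iterate_succ_apply]
      apply ih
      rw [hcov', hcov', h]
  have hforw : ∀ (n : ℕ) (y y' : M), π y = π y' → π (f^[n] y) = π (f^[n] y') := by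
    intro n
    induction n with
    | zero => intro y y' h; exact h
    | succ n ih =>
      intro y y' h
      rw [Function.iterate_succ_apply, Function.iterate_succ_apply]
      apply ih
      rw [hcov, hcov, h]
  have hiter : ∀ (n : ℕ) (y y' : M), π y = π y' → chord (f^[n] y) (f^[n] y') ^ 2 =
      (∏ i ∈ Finset.range n, D (f^[i] y)) * (∏ i ∈ Finset.range n, D (f^[i] y')) *
        chord y y' ^ 2 := by
    intro n y y' h
    induction n with
    | zero => simp
    | succ n ih =>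
      rw [Function.iterate_succ_apply', Function.iterate_succ_apply', hchord _ _ (hforw n y y' h),
        ih, Finset.prod_range_succ, Finset.prod_range_succ]
      ring
  -- uniqueness in the fibre
  have huniq : ∀ y ∈ Λ, ∀ y' ∈ Λ, π y = π y' → y = y' := by
    intro y hy y' hy' h
    apply eq_of_chord_eq_zero ((fibre y y').1 h)
    have hC0 : ∀ n : ℕ, chord y y' ^ 2 ≤ (C * κ ^ n) * (C * κ ^ n) * 4 := by
      intro n
      have h1 := hiter n (f.symm^[n] y) (f.symm^[n] y') (hback n y y' h)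
      rw [hinvl, hinvl] at h1
      rw [h1]
      have p1 : 0 ≤ ∏ i ∈ Finset.range n, D (f^[i] (f.symm^[n] y)) :=
        Finset.prod_nonneg fun i _ => (hD0 _).le
      have p2 : 0 ≤ ∏ i ∈ Finset.range n, D (f^[i] (f.symm^[n] y')) :=
        Finset.prod_nonneg fun i _ => (hD0 _).le
      have q1 := (hy n n).2
      have q2 := (hy' n n).2
      have q3 : chord (f.symm^[n] y) (f.symm^[n] y') ^ 2 ≤ 4 := by
        have := chord_nonneg (f.symm^[n] y) (f.symm^[n] y')
        have := chord_le_two (f.symm^[n] y) (f.symm^[n] y')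
        nlinarith
      refine mul_le_mul (mul_le_mul q1 q2 p2 (p1.trans q1)) q3 (sq_nonneg _) ?_
      exact mul_nonneg (p1.trans q1) (p1.trans q1)
    have hlim : Tendsto (fun n : ℕ => (C * κ ^ n) * (C * κ ^ n) * 4) atTop (𝓝 0) := by
      have h1 : Tendsto (fun n : ℕ => C * κ ^ n) atTop (𝓝 (C * 0)) :=
        (tendsto_pow_atTop_nhds_zero_of_lt_one hκ0.le hκ1).const_mul C
      have h2 := (h1.mul h1).mul_const 4
      simpa using h2
    have h3 : chord y y' ^ 2 ≤ 0 := ge_of_tendsto' hlim hC0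
    have h4 : chord y y' ^ 2 = 0 := le_antisymm h3 (sq_nonneg _)
    exact pow_eq_zero_iff (two_ne_zero) |>.1 h4
  -- periodic points
  have hperΛ : ∀ x ∈ Function.periodicPts A, ∃ y ∈ Λ, π y = x ∧ y ∈ Function.periodicPts f := by
    intro x hx
    obtain ⟨y, hyx, hyp, hb⟩ := hper x hx
    refine ⟨y, ?_, hyx, hyp⟩
    have hf : ∀ j l : ℕ, ∏ i ∈ Finset.range l, D (f^[i] (f^[j] y)) ≤ C * κ ^ l := by
      intro j l
      refine le_trans (le_of_eq ?_) (hb j l)
      refine Finset.prod_congr rfl fun i _ => ?_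
      rw [← Function.iterate_add_apply, add_comm]
    intro j l
    refine ⟨hf j l, ?_⟩
    obtain ⟨n, hn, hny⟩ := hyp
    have hj : f.symm^[j] y = f^[n * j - j] y := by
      have h1 : f^[j] (f^[n * j - j] y) = y := by
        rw [← Function.iterate_add_apply, Nat.add_sub_cancel' (Nat.le_mul_of_pos_left j hn)]
        exact (hny.mul_const j)
      calc f.symm^[j] y = f.symm^[j] (f^[j] (f^[n * j - j] y)) := by rw [h1]
        _ = f^[n * j - j] y := hinvr j _
    rw [hj]
    exact hf _ _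
  -- existence
  have hcompact : IsCompact Λ := hclosed.isCompact
  have himage : π '' Λ = univ := by
    have h1 : IsClosed (π '' Λ) := (hcompact.image hπ).isClosed
    have h2 : Function.periodicPts A ⊆ π '' Λ := by
      intro x hx
      obtain ⟨y, hy, hyx, _⟩ := hperΛ x hx
      exact ⟨y, hy, hyx⟩
    have h3 : closure (Function.periodicPts A) ⊆ π '' Λ := closure_minimal h2 h1
    rw [hdense.closure_eq] at h3
    exact eq_univ_of_univ_subset h3
  have : CompactSpace Λ := isCompact_iff_compactSpace.1 hcompact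
  let e : Λ ≃ B := Equiv.ofBijective (fun y : Λ => π y.1) ⟨by
    intro y y' h
    exact Subtype.ext (huniq y.1 y.2 y'.1 y'.2 h), by
    intro x
    have hx : x ∈ π '' Λ := by rw [himage]; exact mem_univ x
    obtain ⟨y, hy, hyx⟩ := hx
    exact ⟨⟨y, hy⟩, hyx⟩⟩
  have he : Continuous e := hπ.comp continuous_subtype_val
  let h := he.homeoOfEquivCompactToT2
  have hσΛ : ∀ x, (h.symm x).1 ∈ Λ := fun x => (h.symm x).2
  have hσπ : ∀ x, π (h.symm x).1 = x := fun x => h.apply_symm_apply x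
  have hσc : Continuous fun x => (h.symm x).1 := continuous_subtype_val.comp h.symm.continuous
  refine ⟨fun x => (h.symm x).1, hσc, hσπ, ?_, ?_, ?_⟩
  · intro x
    refine huniq _ (hσΛ _) _ (hinv _ (hσΛ _)) ?_
    rw [hσπ, hcov, hσπ]
  · intro x l
    exact (hσΛ x 0 l).1
  · intro x
    refine map_mem_closure (f := fun x => ((h.symm x).1 : M)) hσc (hdense x) ?_
    intro w hw
    obtain ⟨y, hy, hyx, hyp⟩ := hperΛ w hw
    have : (h.symm w).1 = y := huniq _ (hσΛ _) _ hy (by rw [hσπ, hyx])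
    change (h.symm w).1 ∈ Function.periodicPts f
    rw [this]
    exact hyp

end Pool.Agent.OmegaStability

end
end

section

/-!
# Lyapunov pairs: location of the nonwandering set and absence of cycles
-/

open Set Filter Topology
open scoped Manifold ContDiff ComplexConjugate

noncomputable section

namespace Pool.Agent.OmegaStability

variable {M : Type*} [MetricSpace M] [CompactSpace M]

omit [CompactSpace M] in
/-- Return times and returning points of a nonwandering point. -/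
theorem p6_exists_returns (f : M ≃ₜ M) {y : M} (hy : y ∈ Omega f) :
    ∃ (n : ℕ → ℕ) (w : ℕ → M), (∀ k, 0 < n k) ∧ Tendsto w atTop (𝓝 y) ∧
      Tendsto (fun k => f^[n k] (w k)) atTop (𝓝 y) := by
  have h : ∀ k : ℕ, ∃ (n : ℕ) (w : M), 0 < n ∧ dist w y < 1 / ((k : ℝ) + 1) ∧
      dist (f^[n] w) y < 1 / ((k : ℝ) + 1) := by
    intro k
    obtain ⟨n, hn, z, ⟨w, hw, rfl⟩, hz⟩ := hy (Metric.ball y (1 / ((k : ℝ) + 1)))
      (Metric.ball_mem_nhds y (by positivity))
    exact ⟨n, w, hn, hw, hz⟩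
  choose n w hn hw hz using h
  refine ⟨n, w, hn, ?_, ?_⟩
  · rw [tendsto_iff_dist_tendsto_zero]
    exact squeeze_zero (fun _ => dist_nonneg) (fun k => (hw k).le)
      tendsto_one_div_add_atTop_nhds_zero_nat
  · rw [tendsto_iff_dist_tendsto_zero]
    exact squeeze_zero (fun _ => dist_nonneg) (fun k => (hz k).le)
      tendsto_one_div_add_atTop_nhds_zero_nat

theorem omega_subset_of_pair (f : M ≃ₜ M) (g h : M → ℝ) (hg : Continuous g) (hh : Continuous h)
    (hg0 : ∀ y, 0 ≤ g y) (hh0 : ∀ y, 0 ≤ h y) (C κ : ℝ) (hC : 0 < C)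
    (hκ0 : 0 < κ) (hκ1 : κ < 1)
    (hineq : ∀ y (n : ℕ), g (f^[n] y) * h y ≤ C * κ ^ n * (h (f^[n] y) * g y)) :
    Omega f ⊆ {y | g y = 0} ∪ {y | h y = 0} := by
  intro y hy
  have hprod : g y * h y ≤ 0 := by
    by_cases hper : ∃ n : ℕ, 0 < n ∧ f^[n] y = y
    · obtain ⟨n, hn, hny⟩ := hper
      have h1 : ∀ m : ℕ, f^[n * m] y = y := fun m => by
        have : Function.IsPeriodicPt f n y := hny
        exact (this.mul_const m)
      have h2 : ∀ m : ℕ, g y * h y ≤ C * (κ ^ n) ^ m * (h y * g y) := fun m => by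
        have := hineq y (n * m)
        rw [h1 m, pow_mul] at this
        exact this
      have h3 : κ ^ n < 1 := pow_lt_one₀ hκ0.le hκ1 hn.ne'
      have h4 : Tendsto (fun m : ℕ => C * (κ ^ n) ^ m * (h y * g y)) atTop (𝓝 0) := by
        have := ((tendsto_pow_atTop_nhds_zero_of_lt_one (pow_pos hκ0 n).le h3).const_mul
          C).mul_const (h y * g y)
        simpa using this
      exact ge_of_tendsto' h4 h2
    · push Not at hper
      obtain ⟨n, w, hn, hw, hfw⟩ := p6_exists_returns f hy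
      have hne : ∀ j : ℕ, ∀ᶠ k in atTop, n k ≠ j := by
        intro j
        rcases Nat.eq_zero_or_pos j with rfl | hj
        · exact Eventually.of_forall fun k => (hn k).ne'
        · have h1 : Tendsto (fun k => dist (f^[j] (w k)) (f^[n k] (w k))) atTop
              (𝓝 (dist (f^[j] y) y)) :=
            (((f.continuous.iterate j).tendsto y).comp hw).dist hfw
          have h2 : 0 < dist (f^[j] y) y := dist_pos.2 (hper j hj)
          filter_upwards [h1.eventually (lt_mem_nhds h2)] with k hk hkj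
          rw [hkj, dist_self] at hk
          exact lt_irrefl _ hk
      have hnT : Tendsto n atTop atTop := by
        rw [tendsto_atTop]
        intro N
        have h1 : ∀ᶠ k in atTop, ∀ j ∈ Finset.range N, n k ≠ j :=
          (Filter.eventually_all_finset _).2 fun j _ => hne j
        filter_upwards [h1] with k hk
        by_contra hlt
        exact hk (n k) (Finset.mem_range.2 (not_le.1 hlt)) rfl
      have h1 : Tendsto (fun k => g (f^[n k] (w k)) * h (w k)) atTop (𝓝 (g y * h y)) :=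
        ((hg.tendsto y).comp hfw).mul ((hh.tendsto y).comp hw)
      have h2 : Tendsto (fun k => C * κ ^ (n k) * (h (f^[n k] (w k)) * g (w k))) atTop (𝓝 0) := by
        have h3 : Tendsto (fun k => κ ^ (n k)) atTop (𝓝 0) :=
          (tendsto_pow_atTop_nhds_zero_of_lt_one hκ0.le hκ1).comp hnT
        have h4 := (h3.const_mul C).mul (((hh.tendsto y).comp hfw).mul ((hg.tendsto y).comp hw))
        simpa using h4
      exact le_of_tendsto_of_tendsto' h1 h2 fun k => hineq (w k) (n k)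
  have h1 : g y * h y = 0 := le_antisymm hprod (mul_nonneg (hg0 y) (hh0 y))
  rcases mul_eq_zero.1 h1 with h2 | h2
  · exact Or.inl h2
  · exact Or.inr h2

/-- A continuous function which is positive on a closed set is bounded below along a sequence
asymptotic to a sequence of points of the set. -/
theorem p6_exists_lower {Z : Set M} (hZ : IsClosed Z) {φ : M → ℝ} (hφ : Continuous φ)
    (hpos : ∀ z ∈ Z, 0 < φ z) {b y : ℕ → M} (hb : ∀ n, b n ∈ Z)
    (hby : Tendsto (fun n => dist (b n) (y n)) atTop (𝓝 0)) :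
    ∃ δ : ℝ, 0 < δ ∧ ∀ᶠ n in atTop, δ ≤ φ (y n) := by
  obtain ⟨z0, hz0, hmin⟩ := hZ.isCompact.exists_isMinOn ⟨b 0, hb 0⟩ hφ.continuousOn
  have hm : 0 < φ z0 := hpos z0 hz0
  have huc : UniformContinuous φ := CompactSpace.uniformContinuous_of_continuous hφ
  obtain ⟨ε, hε, hε2⟩ := Metric.uniformContinuous_iff.1 huc (φ z0 / 2) (by positivity)
  refine ⟨φ z0 / 2, by positivity, ?_⟩
  filter_upwards [hby.eventually (gt_mem_nhds hε)] with n hn
  have h1 := hε2 hn
  have h2 : φ z0 ≤ φ (b n) := hmin (hb n)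
  rw [Real.dist_eq] at h1
  have h3 := (abs_lt.1 h1).2
  linarith

theorem p6_mem_of_decay {a δ B C κ : ℝ} (ha : 0 ≤ a) (hδ : 0 < δ) (hκ0 : 0 < κ) (hκ1 : κ < 1)
    (h : ∀ᶠ n : ℕ in atTop, a * δ ≤ C * κ ^ n * B) : a = 0 := by
  have h4 : Tendsto (fun m : ℕ => C * κ ^ m * B) atTop (𝓝 0) := by
    have := ((tendsto_pow_atTop_nhds_zero_of_lt_one hκ0.le hκ1).const_mul C).mul_const B
    simpa using this
  have h1 : a * δ ≤ 0 := ge_of_tendsto h4 h
  by_contra hne
  have : 0 < a := lt_of_le_of_ne ha (Ne.symm hne)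
  have := mul_pos this hδ
  linarith

omit [CompactSpace M] in
theorem p6_piece_iff (f : M ≃ₜ M) {S : Set M} (hS : IsPiece f S) (x : M) : f x ∈ S ↔ x ∈ S := by
  constructor
  · intro h
    rw [← hS.2.2.1] at h
    obtain ⟨z, hz, hzx⟩ := h
    rwa [← f.injective hzx]
  · intro h
    rw [← hS.2.2.1]
    exact ⟨x, h, rfl⟩

theorem p6_iff_iterate {X : Type*} {f : X → X} {S : Set X} (h : ∀ x, f x ∈ S ↔ x ∈ S) (n : ℕ) (x : X) :
    f^[n] x ∈ S ↔ x ∈ S := by
  induction n generalizing x with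
  | zero => exact Iff.rfl
  | succ n ih => rw [Function.iterate_succ_apply, ih, h]

theorem p6_iff_symm {f : M ≃ₜ M} {S : Set M} (h : ∀ x, f x ∈ S ↔ x ∈ S) (x : M) :
    f.symm x ∈ S ↔ x ∈ S := by
  rw [← h, Homeomorph.apply_symm_apply]

/-- An invariant set of nonwandering points contained in a piece asymptotically is in the piece. -/
theorem p6_mem_piece_of_asymp (f F : M → M) {Ω S : Set M} (hΩ : ∀ x, F x ∈ Ω ↔ x ∈ Ω)
    (hS : ∀ x, F x ∈ S ↔ x ∈ S) (hcl : IsClosed S) {U : Set M} (hU : IsOpen U) (hSU : S = U ∩ Ω)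
    {a y : M} (ha : a ∈ S) (hy : y ∈ Ω)
    (hay : Tendsto (fun n : ℕ => dist (F^[n] a) (F^[n] y)) atTop (𝓝 0)) : y ∈ S := by
  have h1 : S ⊆ U := by
    rw [hSU]
    exact inter_subset_left
  obtain ⟨δ, hδ, hth⟩ := hcl.isCompact.exists_thickening_subset_open hU h1
  obtain ⟨n, hn⟩ := (hay.eventually (gt_mem_nhds hδ)).exists
  have h2 : F^[n] a ∈ S := (p6_iff_iterate hS n a).2 ha
  have h3 : F^[n] y ∈ U := hth (Metric.mem_thickening_iff.2 ⟨F^[n] a, h2, by
    rwa [dist_comm]⟩)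
  have h4 : F^[n] y ∈ Ω := (p6_iff_iterate hΩ n y).2 hy
  have h5 : F^[n] y ∈ S := by
    rw [hSU]
    exact ⟨h3, h4⟩
  exact (p6_iff_iterate hS n y).1 h5

theorem p6_piece_subset_of_meet (f : M ≃ₜ M) {S T : Set M} (hS : IsPiece f S) (hT : IsPiece f T)
    {z : M} (hzS : z ∈ S) (hzT : z ∈ T) : S ⊆ T := by
  obtain ⟨hSΩ, -, -, -, x, hx, hdense⟩ := id hS
  obtain ⟨-, hTcl, -, ⟨U, hU, hTU⟩, -⟩ := id hT
  have hzU : z ∈ U := by
    rw [hTU] at hzT
    exact hzT.1
  obtain ⟨_, hwU, n, rfl⟩ := mem_closure_iff.1 (hdense hzS) U hU hzU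
  have h1 : f^[n] x ∈ S := (p6_iff_iterate (p6_piece_iff f hS) n x).2 hx
  have h2 : f^[n] x ∈ T := by
    rw [hTU]
    exact ⟨hwU, hSΩ h1⟩
  have h3 : x ∈ T := (p6_iff_iterate (p6_piece_iff f hT) n x).1 h2
  refine hdense.trans (closure_minimal ?_ hTcl)
  rintro _ ⟨m, rfl⟩
  exact (p6_iff_iterate (p6_piece_iff f hT) m x).2 h3

theorem noCycle_of_pair (f : M ≃ₜ M) (g h : M → ℝ) (hg : Continuous g) (hh : Continuous h)
    (hg0 : ∀ y, 0 ≤ g y) (hh0 : ∀ y, 0 ≤ h y) (hgh : ∀ y, g y = 0 → h y ≠ 0)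
    (hgf : ∀ y, g (f y) = 0 ↔ g y = 0) (hhf : ∀ y, h (f y) = 0 ↔ h y = 0)
    (C κ : ℝ) (hC : 0 < C) (hκ0 : 0 < κ) (hκ1 : κ < 1)
    (hineq : ∀ y (n : ℕ), g (f^[n] y) * h y ≤ C * κ ^ n * (h (f^[n] y) * g y))
    (hΩ : {y | g y = 0} ∪ {y | h y = 0} ⊆ Omega f) :
    NoCycleProperty f f.symm := by
  have hΩeq : Omega f = {y | g y = 0} ∪ {y | h y = 0} :=
    Subset.antisymm (omega_subset_of_pair f g h hg hh hg0 hh0 C κ hC hκ0 hκ1 hineq) hΩ
  have hΩf : ∀ x, f x ∈ Omega f ↔ x ∈ Omega f := by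
    intro x
    rw [hΩeq]
    simp only [mem_union, mem_setOf_eq, hgf, hhf]
  have hΩs : ∀ x, f.symm x ∈ Omega f ↔ x ∈ Omega f := p6_iff_symm hΩf
  have hZcl : IsClosed {y | g y = 0} := isClosed_eq hg continuous_const
  have hZcl' : IsClosed {y | h y = 0} := isClosed_eq hh continuous_const
  have hZs : ∀ x, f.symm x ∈ {y | g y = 0} ↔ x ∈ {y | g y = 0} := p6_iff_symm hgf
  have hghpos : ∀ z ∈ {y | g y = 0}, 0 < h z := fun z hz =>
    lt_of_le_of_ne (hh0 z) (Ne.symm (hgh z hz))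
  have hhgpos : ∀ z ∈ {y | h y = 0}, 0 < g z := fun z hz =>
    lt_of_le_of_ne (hg0 z) (fun h1 => hgh z h1.symm hz)
  obtain ⟨G, hG⟩ : ∃ G, ∀ x, g x ≤ G := by
    obtain ⟨G, hG⟩ := (isCompact_range hg).bddAbove
    exact ⟨G, fun x => hG ⟨x, rfl⟩⟩
  obtain ⟨H, hH⟩ : ∃ H, ∀ x, h x ≤ H := by
    obtain ⟨H, hH⟩ := (isCompact_range hh).bddAbove
    exact ⟨H, fun x => hH ⟨x, rfl⟩⟩
  -- backward asymptotic to the zero set of `g`
  have hback : ∀ b y : M, g b = 0 →
      Tendsto (fun n : ℕ => dist (f.symm^[n] b) (f.symm^[n] y)) atTop (𝓝 0) → g y = 0 := by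
    intro b y hb hby
    obtain ⟨δ, hδ, hev⟩ := p6_exists_lower hZcl hh hghpos
      (b := fun n => f.symm^[n] b) (y := fun n => f.symm^[n] y)
      (fun n => (p6_iff_iterate hZs n b).2 hb) hby
    refine p6_mem_of_decay (a := g y) (δ := δ) (B := h y * G) (C := C) (hg0 y) hδ hκ0 hκ1 ?_
    filter_upwards [hev] with n hn
    have h1 := hineq (f.symm^[n] y) n
    have h2 : f^[n] (f.symm^[n] y) = y := by
      have : Function.LeftInverse f f.symm := f.apply_symm_apply
      exact this.iterate n y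
    rw [h2] at h1
    have hκn : 0 < κ ^ n := pow_pos hκ0 n
    calc g y * δ ≤ g y * h (f.symm^[n] y) := mul_le_mul_of_nonneg_left hn (hg0 y)
      _ ≤ C * κ ^ n * (h y * g (f.symm^[n] y)) := h1
      _ ≤ C * κ ^ n * (h y * G) :=
        mul_le_mul_of_nonneg_left (mul_le_mul_of_nonneg_left (hG _) (hh0 y)) (by positivity)
  -- forward asymptotic to the zero set of `h`
  have hforw : ∀ a y : M, h a = 0 →
      Tendsto (fun n : ℕ => dist (f^[n] a) (f^[n] y)) atTop (𝓝 0) → h y = 0 := by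
    intro a y ha hay
    obtain ⟨δ, hδ, hev⟩ := p6_exists_lower hZcl' hg hhgpos
      (b := fun n => f^[n] a) (y := fun n => f^[n] y)
      (fun n => (p6_iff_iterate hhf n a).2 ha) hay
    refine p6_mem_of_decay (a := h y) (δ := δ) (B := H * g y) (C := C) (hh0 y) hδ hκ0 hκ1 ?_
    filter_upwards [hev] with n hn
    have h1 := hineq y n
    have hκn : 0 < κ ^ n := pow_pos hκ0 n
    calc h y * δ ≤ h y * g (f^[n] y) := mul_le_mul_of_nonneg_left hn (hh0 y)
      _ = g (f^[n] y) * h y := mul_comm _ _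
      _ ≤ C * κ ^ n * (h (f^[n] y) * g y) := h1
      _ ≤ C * κ ^ n * (H * g y) :=
        mul_le_mul_of_nonneg_left (mul_le_mul_of_nonneg_right (hH _) (hg0 y)) (by positivity)
  -- a piece lies in one of the two zero sets
  have hdich : ∀ S : Set M, IsPiece f S → S ⊆ {y | g y = 0} ∨ S ⊆ {y | h y = 0} := by
    intro S hS
    obtain ⟨hSΩ, -, -, -, x, hx, hdense⟩ := id hS
    have hx' := hSΩ hx
    rw [hΩeq] at hx'
    rcases hx' with hx1 | hx1
    · left
      refine hdense.trans (closure_minimal ?_ hZcl)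
      rintro _ ⟨m, rfl⟩
      exact (p6_iff_iterate hgf m x).2 hx1
    · right
      refine hdense.trans (closure_minimal ?_ hZcl')
      rintro _ ⟨m, rfl⟩
      exact (p6_iff_iterate hhf m x).2 hx1
  intro k hk S hS hinj
  by_contra hcon
  push Not at hcon
  have hkey : ∀ (i : ZMod k) (y : M), y ∈ Omega f → y ∈ StableSet f (S (i + 1)) →
      y ∈ StableSet f.symm (S i) → False := by
    rintro i y hyΩ ⟨a, ha, hay⟩ ⟨b, hb, hby⟩
    obtain ⟨-, hcl1, -, ⟨U1, hU1, hSU1⟩, -⟩ := id (hS (i + 1))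
    obtain ⟨-, hcl0, -, ⟨U0, hU0, hSU0⟩, -⟩ := id (hS i)
    have h1 : y ∈ S (i + 1) :=
      p6_mem_piece_of_asymp f f hΩf (p6_piece_iff f (hS (i + 1))) hcl1 hU1 hSU1 ha hyΩ hay
    have h0 : y ∈ S i :=
      p6_mem_piece_of_asymp f f.symm hΩs (p6_iff_symm (p6_piece_iff f (hS i))) hcl0 hU0 hSU0 hb hyΩ hby
    have h2 : S i = S (i + 1) := Subset.antisymm
      (p6_piece_subset_of_meet f (hS i) (hS (i + 1)) h0 h1)
      (p6_piece_subset_of_meet f (hS (i + 1)) (hS i) h1 h0)
    have h3 : i = i + 1 := hinj h2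
    have h4 : (1 : ZMod k) = 0 := by
      have := congrArg (fun j => j - i) h3
      simpa using this.symm
    have : Fact (1 < k) := ⟨hk⟩
    exact one_ne_zero h4
  have hZcase : ∀ i : ZMod k, ¬ S i ⊆ {y | g y = 0} := by
    intro i hi
    obtain ⟨y, hy1, hy0⟩ := hcon i
    obtain ⟨b, hb, hby⟩ := id hy0
    have hy : g y = 0 := hback b y (hi hb) hby
    exact hkey i y (hΩ (Or.inl hy)) hy1 hy0
  obtain ⟨y, hy1, hy0⟩ := hcon 0
  obtain ⟨a, ha, hay⟩ := id hy1
  have hS1 : S (0 + 1) ⊆ {y | h y = 0} := (hdich _ (hS (0 + 1))).resolve_left (hZcase _)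
  have hy : h y = 0 := hforw a y (hS1 ha) hay
  exact hkey 0 y (hΩ (Or.inr hy)) hy1 hy0

end Pool.Agent.OmegaStability

end
end

section

/-!
# The generator of the circle action: it does not vanish, it is continuous, and the derivative of
a map of the fibres given by a lift to the real line
-/

open Set Filter Topology
open scoped Manifold ContDiff ComplexConjugate

noncomputable section

namespace Pool.Agent.OmegaStability

variable {d : ℕ} {B M : Type*} [MetricSpace B] [CompactSpace B]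
  [ChartedSpace (EuclideanSpace ℝ (Fin d)) B]
  [IsManifold 𝓘(ℝ, EuclideanSpace ℝ (Fin d)) ∞ B]
  [MetricSpace M] [CompactSpace M] [ChartedSpace (EuclideanSpace ℝ (Fin (d + 1))) M]
  [IsManifold 𝓘(ℝ, EuclideanSpace ℝ (Fin (d + 1))) ∞ M] [MulAction Circle M]

omit [CompactSpace B] [IsManifold 𝓘(ℝ, EuclideanSpace ℝ (Fin d)) ∞ B] [CompactSpace M]
  [IsManifold 𝓘(ℝ, EuclideanSpace ℝ (Fin (d + 1))) ∞ M] in
private theorem flow_smooth {π : M → B} (hb : IsCircleBundle d π) :
    ContMDiff (𝓘(ℝ, ℝ).prod (𝓡 (d + 1))) (𝓡 (d + 1)) ∞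
      (fun p : ℝ × M => Circle.exp p.1 • p.2) :=
  hb.smooth_action.comp ((contMDiff_circleExp.comp contMDiff_fst).prodMk contMDiff_snd)

omit [CompactSpace B] [IsManifold 𝓘(ℝ, EuclideanSpace ℝ (Fin d)) ∞ B] [CompactSpace M]
  [IsManifold 𝓘(ℝ, EuclideanSpace ℝ (Fin (d + 1))) ∞ M] in
private theorem curve_smooth {π : M → B} (hb : IsCircleBundle d π) (y : M) :
    ContMDiff 𝓘(ℝ, ℝ) (𝓡 (d + 1)) ∞ (fun θ : ℝ => Circle.exp θ • y) :=
  (flow_smooth hb).comp (contMDiff_id.prodMk contMDiff_const)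

omit [CompactSpace B] [IsManifold 𝓘(ℝ, EuclideanSpace ℝ (Fin d)) ∞ B] [CompactSpace M]
  [IsManifold 𝓘(ℝ, EuclideanSpace ℝ (Fin (d + 1))) ∞ M] in
private theorem curve_mdiff {π : M → B} (hb : IsCircleBundle d π) (y : M) (θ : ℝ) :
    MDifferentiableAt 𝓘(ℝ, ℝ) (𝓡 (d + 1)) (fun θ : ℝ => Circle.exp θ • y) θ :=
  (curve_smooth hb y).mdifferentiableAt (by simp)

omit [CompactSpace B] [IsManifold 𝓘(ℝ, EuclideanSpace ℝ (Fin d)) ∞ B] [CompactSpace M]
  [IsManifold 𝓘(ℝ, EuclideanSpace ℝ (Fin (d + 1))) ∞ M] in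
private theorem mul_smooth {π : M → B} (hb : IsCircleBundle d π) (z : Circle) :
    ContMDiff (𝓡 (d + 1)) (𝓡 (d + 1)) ∞ (fun y : M => z • y) :=
  hb.smooth_action.comp (contMDiff_const.prodMk contMDiff_id)

omit [CompactSpace B] [IsManifold 𝓘(ℝ, EuclideanSpace ℝ (Fin d)) ∞ B] [CompactSpace M]
  [IsManifold 𝓘(ℝ, EuclideanSpace ℝ (Fin (d + 1))) ∞ M] in
theorem mfderiv_curve {π : M → B} (hb : IsCircleBundle d π) (y : M) (θ : ℝ) :
    mfderiv 𝓘(ℝ, ℝ) (𝓡 (d + 1)) (fun θ : ℝ => Circle.exp θ • y) θ (1 : ℝ) =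
      gen d (Circle.exp θ • y) := by
  have h1 : (fun s : ℝ => Circle.exp s • (Circle.exp θ • y)) =
      (fun θ : ℝ => Circle.exp θ • y) ∘ (fun s : ℝ => s + θ) := by
    funext s
    simp only [Function.comp_apply, Circle.exp_add, mul_smul]
  have h2 : HasMFDerivAt 𝓘(ℝ, ℝ) 𝓘(ℝ, ℝ) (fun s : ℝ => s + θ) (0 : ℝ)
      (ContinuousLinearMap.id ℝ ℝ) := ((hasFDerivAt_id (0 : ℝ)).add_const θ).hasMFDerivAt
  have h3 : HasMFDerivAt 𝓘(ℝ, ℝ) (𝓡 (d + 1)) (fun θ : ℝ => Circle.exp θ • y) (0 + θ)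
      (mfderiv 𝓘(ℝ, ℝ) (𝓡 (d + 1)) (fun θ : ℝ => Circle.exp θ • y) (0 + θ)) :=
    (curve_mdiff hb y _).hasMFDerivAt
  have h4 := HasMFDerivAt.comp (0 : ℝ) h3 h2
  unfold gen
  rw [h1, h4.mfderiv]
  have h5 : (0 : ℝ) + θ = θ := zero_add θ
  rw [h5]
  rfl

omit [CompactSpace B] [IsManifold 𝓘(ℝ, EuclideanSpace ℝ (Fin d)) ∞ B] [CompactSpace M]
  [IsManifold 𝓘(ℝ, EuclideanSpace ℝ (Fin (d + 1))) ∞ M] in
theorem mfderiv_smul_gen {π : M → B} (hb : IsCircleBundle d π) (z : Circle) (y : M) :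
    mfderiv (𝓡 (d + 1)) (𝓡 (d + 1)) (fun y : M => z • y) y (gen d y) = gen d (z • y) := by
  have h1 : (fun s : ℝ => Circle.exp s • (z • y)) =
      (fun y : M => z • y) ∘ (fun θ : ℝ => Circle.exp θ • y) := by
    funext s
    simp only [Function.comp_apply, smul_smul, mul_comm]
  have h0 : Circle.exp 0 • y = y := by simp
  have h3 : HasMFDerivAt (𝓡 (d + 1)) (𝓡 (d + 1)) (fun y : M => z • y) (Circle.exp 0 • y)
      (mfderiv (𝓡 (d + 1)) (𝓡 (d + 1)) (fun y : M => z • y) (Circle.exp 0 • y)) :=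
    ((mul_smooth hb z).mdifferentiableAt (by simp)).hasMFDerivAt
  have h4 := HasMFDerivAt.comp (0 : ℝ) h3 (curve_mdiff hb y 0).hasMFDerivAt
  unfold gen
  rw [h1, h4.mfderiv]
  rw [h0]
  rfl

omit [CompactSpace B] [IsManifold 𝓘(ℝ, EuclideanSpace ℝ (Fin d)) ∞ B] [CompactSpace M] in
theorem gen_ne_zero {π : M → B} (hb : IsCircleBundle d π) (y : M) : gen d y ≠ 0 := by
  intro h0
  have hz : ∀ θ : ℝ, mfderiv 𝓘(ℝ, ℝ) (𝓡 (d + 1)) (fun θ : ℝ => Circle.exp θ • y) θ = 0 := by
    intro θ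
    have h1 := mfderiv_curve hb y θ
    rw [← mfderiv_smul_gen hb (Circle.exp θ) y, h0, map_zero] at h1
    refine ContinuousLinearMap.ext_ring h1
  have hcl : IsClosed {θ : ℝ | Circle.exp θ • y = y} :=
    isClosed_eq (curve_smooth hb y).continuous continuous_const
  have hop : IsOpen {θ : ℝ | Circle.exp θ • y = y} := by
    rw [Metric.isOpen_iff]
    intro θ₀ hθ₀
    have hθ₀' : Circle.exp θ₀ • y = y := hθ₀
    have hc : Continuous (fun θ : ℝ => Circle.exp θ • y) := (curve_smooth hb y).continuous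
    have hnb : (fun θ : ℝ => Circle.exp θ • y) ⁻¹'
        (extChartAt (𝓡 (d + 1)) y).source ∈ 𝓝 θ₀ := by
      refine hc.continuousAt.preimage_mem_nhds ?_
      simp only [hθ₀']
      exact extChartAt_source_mem_nhds y
    obtain ⟨ε, hε, hball⟩ := Metric.mem_nhds_iff.1 hnb
    refine ⟨ε, hε, fun θ hθ => ?_⟩
    have hder : ∀ x ∈ Metric.ball θ₀ ε,
        HasFDerivAt (fun θ : ℝ => extChartAt (𝓡 (d + 1)) y (Circle.exp θ • y))
          (0 : ℝ →L[ℝ] EuclideanSpace ℝ (Fin (d + 1))) x := by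
      intro x hx
      have hxs : Circle.exp x • y ∈ (extChartAt (𝓡 (d + 1)) y).source := hball hx
      have h1 : MDifferentiableAt (𝓡 (d + 1)) 𝓘(ℝ, EuclideanSpace ℝ (Fin (d + 1)))
          (extChartAt (𝓡 (d + 1)) y) (Circle.exp x • y) :=
        mdifferentiableAt_extChartAt (by simpa using hxs)
      have h2 := HasMFDerivAt.comp x h1.hasMFDerivAt (curve_mdiff hb y x).hasMFDerivAt
      rw [hz x] at h2
      have key : ∀ (F : ℝ → EuclideanSpace ℝ (Fin (d + 1)))
          (A : EuclideanSpace ℝ (Fin (d + 1)) →L[ℝ] EuclideanSpace ℝ (Fin (d + 1))),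
          HasFDerivAt F (A.comp (0 : ℝ →L[ℝ] EuclideanSpace ℝ (Fin (d + 1)))) x →
          HasFDerivAt F (0 : ℝ →L[ℝ] EuclideanSpace ℝ (Fin (d + 1))) x := by
        intro F A h
        rwa [ContinuousLinearMap.comp_zero] at h
      exact key _ _ h2.hasFDerivAt
    have hconst : extChartAt (𝓡 (d + 1)) y (Circle.exp θ • y) =
        extChartAt (𝓡 (d + 1)) y (Circle.exp θ₀ • y) := by
      refine (convex_ball θ₀ ε).is_const_of_fderivWithin_eq_zero (𝕜 := ℝ)
        (f := fun θ : ℝ => extChartAt (𝓡 (d + 1)) y (Circle.exp θ • y)) ?_ ?_ hθ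
        (Metric.mem_ball_self hε)
      · intro x hx
        exact (hder x hx).differentiableAt.differentiableWithinAt
      · intro x hx
        rw [fderivWithin_of_isOpen Metric.isOpen_ball hx]
        exact (hder x hx).fderiv
    have := (extChartAt (𝓡 (d + 1)) y).injOn (hball hθ) (hball (Metric.mem_ball_self hε)) hconst
    exact this.trans hθ₀'
  have huniv : {θ : ℝ | Circle.exp θ • y = y} = univ :=
    IsClopen.eq_univ ⟨hcl, hop⟩ ⟨0, by simp⟩
  have h1 : Circle.exp 1 • y = y := by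
    have : (1 : ℝ) ∈ {θ : ℝ | Circle.exp θ • y = y} := by rw [huniv]; trivial
    exact this
  have h2 := hb.free _ _ h1
  rw [← Circle.exp_zero, Circle.exp_eq_exp] at h2
  obtain ⟨m, hm⟩ := h2
  have hpi := Real.pi_gt_three
  rcases lt_trichotomy m 0 with h | h | h
  · have : (m : ℝ) < 0 := by exact_mod_cast h
    nlinarith
  · rw [h] at hm
    norm_num at hm
  · have : (1 : ℝ) ≤ m := by exact_mod_cast h
    nlinarith

omit [CompactSpace B] [IsManifold 𝓘(ℝ, EuclideanSpace ℝ (Fin d)) ∞ B] [CompactSpace M] in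
theorem continuous_gen {π : M → B} (hb : IsCircleBundle d π) :
    Continuous fun y : M => (⟨y, gen d y⟩ : TangentBundle (𝓡 (d + 1)) M) := by
  have h1 : Continuous (tangentMap (𝓘(ℝ, ℝ).prod (𝓡 (d + 1))) (𝓡 (d + 1))
      (fun p : ℝ × M => Circle.exp p.1 • p.2)) :=
    (flow_smooth hb).continuous_tangentMap (by simp)
  have h2 : Continuous (fun y : M => ((⟨(0 : ℝ), (1 : ℝ)⟩ : TangentBundle 𝓘(ℝ, ℝ) ℝ),
      (⟨y, 0⟩ : TangentBundle (𝓡 (d + 1)) M))) := by
    refine continuous_const.prodMk ?_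
    exact (Bundle.contMDiff_zeroSection (IB := 𝓡 (d + 1))
      (F := EuclideanSpace ℝ (Fin (d + 1))) ℝ
      (TangentSpace (𝓡 (d + 1)) : M → Type _) (n := 0)).continuous
  have h3 := (contMDiff_equivTangentBundleProd_symm (I := 𝓘(ℝ, ℝ)) (I' := 𝓡 (d + 1))
    (M := ℝ) (M' := M) (n := 0)).continuous
  have h4 := (h1.comp h3).comp h2
  refine h4.congr fun y => ?_
  have h0 : Circle.exp 0 • y = y := by simp
  have h5 : HasMFDerivAt 𝓘(ℝ, ℝ) (𝓘(ℝ, ℝ).prod (𝓡 (d + 1))) (fun s : ℝ => (s, y)) (0 : ℝ)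
      ((ContinuousLinearMap.id ℝ ℝ).prod (0 : ℝ →L[ℝ] EuclideanSpace ℝ (Fin (d + 1)))) :=
    (hasMFDerivAt_id (0 : ℝ)).prodMk (hasMFDerivAt_const y (0 : ℝ))
  have h6 : HasMFDerivAt (𝓘(ℝ, ℝ).prod (𝓡 (d + 1))) (𝓡 (d + 1))
      (fun p : ℝ × M => Circle.exp p.1 • p.2) ((0 : ℝ), y)
      (mfderiv (𝓘(ℝ, ℝ).prod (𝓡 (d + 1))) (𝓡 (d + 1))
        (fun p : ℝ × M => Circle.exp p.1 • p.2) ((0 : ℝ), y)) :=
    ((flow_smooth hb).mdifferentiableAt (by simp)).hasMFDerivAt
  have h7 := HasMFDerivAt.comp (0 : ℝ) h6 h5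
  have h8 : mfderiv (𝓘(ℝ, ℝ).prod (𝓡 (d + 1))) (𝓡 (d + 1))
        (fun p : ℝ × M => Circle.exp p.1 • p.2) ((0 : ℝ), y) ((1 : ℝ), 0) = gen d y :=
    (DFunLike.congr_fun h7.mfderiv (1 : ℝ)).symm
  exact Bundle.TotalSpace.ext h0 (heq_of_eq h8)

omit [CompactSpace B] [IsManifold 𝓘(ℝ, EuclideanSpace ℝ (Fin d)) ∞ B] [CompactSpace M]
  [IsManifold 𝓘(ℝ, EuclideanSpace ℝ (Fin (d + 1))) ∞ M] in
theorem mfderiv_lift {π : M → B} (hb : IsCircleBundle d π)
    (g : M → M) (y y' : M) (L : ℝ → ℝ) (θ D : ℝ)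
    (hg : MDifferentiableAt (𝓡 (d + 1)) (𝓡 (d + 1)) g (Circle.exp θ • y))
    (hL : HasDerivAt L D θ)
    (hf : ∀ η, g (Circle.exp η • y) = Circle.exp (L η) • y') :
    mfderiv (𝓡 (d + 1)) (𝓡 (d + 1)) g (Circle.exp θ • y) (gen d (Circle.exp θ • y)) =
      D • gen d (Circle.exp (L θ) • y') := by
  have h1 : g ∘ (fun θ : ℝ => Circle.exp θ • y) = (fun θ : ℝ => Circle.exp θ • y') ∘ L :=
    funext hf
  have h2 := HasMFDerivAt.comp θ hg.hasMFDerivAt (curve_mdiff hb y θ).hasMFDerivAt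
  have h3 := HasMFDerivAt.comp θ (curve_mdiff hb y' (L θ)).hasMFDerivAt
    hL.hasFDerivAt.hasMFDerivAt
  rw [← mfderiv_curve hb y θ, ← mfderiv_curve hb y' (L θ)]
  rw [h1] at h2
  have h4 := h2.mfderiv.symm.trans h3.mfderiv
  have h5 := DFunLike.congr_fun h4 (1 : ℝ)
  refine h5.trans ?_
  have key : ∀ A : ℝ →L[ℝ] EuclideanSpace ℝ (Fin (d + 1)),
      (A.comp (ContinuousLinearMap.toSpanSingleton ℝ D)) (1 : ℝ) = D • A 1 := by
    intro A
    rw [ContinuousLinearMap.comp_apply, ContinuousLinearMap.toSpanSingleton_apply, map_smul,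
      one_smul]
    have : A D = A (D • (1 : ℝ)) := by simp
    rw [this, map_smul]
  exact key _

end Pool.Agent.OmegaStability

end
end

section

/-!
# The kernel of the projection of a circle bundle is spanned by the generator
-/

open Set Filter Topology
open scoped Manifold ContDiff ComplexConjugate

noncomputable section

namespace Pool.Agent.OmegaStability

variable {d : ℕ} {B M : Type*} [MetricSpace B] [CompactSpace B]
  [ChartedSpace (EuclideanSpace ℝ (Fin d)) B]
  [IsManifold 𝓘(ℝ, EuclideanSpace ℝ (Fin d)) ∞ B]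
  [MetricSpace M] [CompactSpace M] [ChartedSpace (EuclideanSpace ℝ (Fin (d + 1))) M]
  [IsManifold 𝓘(ℝ, EuclideanSpace ℝ (Fin (d + 1))) ∞ M] [MulAction Circle M]

omit [CompactSpace B] [IsManifold 𝓘(ℝ, EuclideanSpace ℝ (Fin d)) ∞ B] [CompactSpace M]
  [IsManifold 𝓘(ℝ, EuclideanSpace ℝ (Fin (d + 1))) ∞ M] in
/-- The generator of the action is in the kernel of the projection. -/
theorem mfderiv_proj_gen {π : M → B} (hb : IsCircleBundle d π) (y : M) :
    mfderiv (𝓡 (d + 1)) (𝓡 d) π y (gen d y) = 0 := by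
  have hc : ContMDiff 𝓘(ℝ, ℝ) (𝓡 (d + 1)) ∞ (fun θ : ℝ => Circle.exp θ • y) :=
    hb.smooth_action.comp (contMDiff_circleExp.prodMk contMDiff_const)
  have hc0 : Circle.exp (0 : ℝ) • y = y := by rw [Circle.exp_zero, one_smul]
  have hcd : MDifferentiableAt 𝓘(ℝ, ℝ) (𝓡 (d + 1)) (fun θ : ℝ => Circle.exp θ • y) 0 :=
    hc.mdifferentiableAt (by simp)
  have hpd : MDifferentiableAt (𝓡 (d + 1)) (𝓡 d) π ((fun θ : ℝ => Circle.exp θ • y) 0) :=
    hb.smooth_proj.mdifferentiableAt (by simp)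
  have h1 := mfderiv_comp (0 : ℝ) hpd hcd
  have h2 : π ∘ (fun θ : ℝ => Circle.exp θ • y) = fun _ => π y := by
    funext θ
    exact ((hb.fibre y (Circle.exp θ • y)).2 ⟨_, rfl⟩).symm
  rw [h2, mfderiv_const] at h1
  have h3 : ∀ y' : M, y' = y → ∀ w : EuclideanSpace ℝ (Fin (d + 1)),
      (mfderiv (𝓡 (d + 1)) (𝓡 d) π y' :
        EuclideanSpace ℝ (Fin (d + 1)) →L[ℝ] EuclideanSpace ℝ (Fin d)) w =
      (mfderiv (𝓡 (d + 1)) (𝓡 d) π y :
        EuclideanSpace ℝ (Fin (d + 1)) →L[ℝ] EuclideanSpace ℝ (Fin d)) w := by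
    rintro _ rfl w
    rfl
  have h4 := congrArg (fun L : ℝ →L[ℝ] EuclideanSpace ℝ (Fin d) => L 1) h1
  have h5 := h3 _ hc0 (gen d y)
  exact h5.symm.trans h4.symm

omit [CompactSpace B] [IsManifold 𝓘(ℝ, EuclideanSpace ℝ (Fin d)) ∞ B] [CompactSpace M]
  [IsManifold 𝓘(ℝ, EuclideanSpace ℝ (Fin (d + 1))) ∞ M] in
/-- The kernel of the derivative of the projection is spanned by the generator (assumed to be
nonzero). -/
theorem ker_proj_of_gen_ne_zero {π : M → B} (hb : IsCircleBundle d π) (y : M)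
    (h0 : gen d y ≠ 0) (v : TangentSpace (𝓡 (d + 1)) y) :
    mfderiv (𝓡 (d + 1)) (𝓡 d) π y v = 0 ↔ ∃ c : ℝ, v = c • gen d y := by
  constructor
  · intro hv
    let L : EuclideanSpace ℝ (Fin (d + 1)) →L[ℝ] EuclideanSpace ℝ (Fin d) :=
      mfderiv (𝓡 (d + 1)) (𝓡 d) π y
    have hsurj : Function.Surjective L.toLinearMap := hb.submersion y
    have hdim := LinearMap.finrank_range_add_finrank_ker L.toLinearMap
    rw [LinearMap.range_eq_top.2 hsurj, finrank_top, finrank_euclideanSpace_fin,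
      finrank_euclideanSpace_fin] at hdim
    have hk : Module.finrank ℝ (LinearMap.ker L.toLinearMap) = 1 := by omega
    let g : LinearMap.ker L.toLinearMap := ⟨gen d y, mfderiv_proj_gen hb y⟩
    have hg : g ≠ 0 := by
      intro h
      exact h0 (congrArg Subtype.val h)
    obtain ⟨c, hc⟩ := (finrank_eq_one_iff_of_nonzero' g hg).1 hk ⟨v, hv⟩
    exact ⟨c, (congrArg Subtype.val hc).symm⟩
  · rintro ⟨c, rfl⟩
    rw [map_smul, mfderiv_proj_gen hb y, smul_zero]

end Pool.Agent.OmegaStability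

end
end

section

/-!
# A hyperbolic structure of the whole manifold is two-sided invariant
-/

open Set Filter Topology
open scoped Manifold ContDiff ComplexConjugate

noncomputable section

namespace Pool.Agent.OmegaStability

/-- An injective linear map sending each of two complementary subspaces into the corresponding
one of another complementary pair is onto on each. -/
theorem p8a_surj_of_compl {V : Type*} [AddCommGroup V] [Module ℝ V] [FiniteDimensional ℝ V]
    {W : Type*} [AddCommGroup W] [Module ℝ W] [FiniteDimensional ℝ W]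
    (hVW : Module.finrank ℝ V = Module.finrank ℝ W)
    {S U : Submodule ℝ V} {S' U' : Submodule ℝ W} (h : IsCompl S U) (h' : IsCompl S' U')
    (D : V →ₗ[ℝ] W) (hD : Function.Injective D) (hS : ∀ v ∈ S, D v ∈ S') (hU : ∀ v ∈ U, D v ∈ U') :
    ∀ w ∈ S', ∃ v ∈ S, D v = w := by
  have h1 : S.map D ≤ S' := by
    rintro _ ⟨v, hv, rfl⟩
    exact hS v hv
  have h2 : U.map D ≤ U' := by
    rintro _ ⟨v, hv, rfl⟩
    exact hU v hv
  have e1 : Module.finrank ℝ S = Module.finrank ℝ (S.map D) :=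
    LinearEquiv.finrank_eq (Submodule.equivMapOfInjective D hD S)
  have e2 : Module.finrank ℝ U = Module.finrank ℝ (U.map D) :=
    LinearEquiv.finrank_eq (Submodule.equivMapOfInjective D hD U)
  have l1 := Submodule.finrank_mono h1
  have l2 := Submodule.finrank_mono h2
  have a1 := Submodule.finrank_add_eq_of_isCompl h
  have a2 := Submodule.finrank_add_eq_of_isCompl h'
  have h3 : S.map D = S' := Submodule.eq_of_le_of_finrank_le h1 (by omega)
  intro w hw
  rw [← h3] at hw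
  obtain ⟨v, hv, hvw⟩ := hw
  exact ⟨v, hv, hvw⟩

variable {E : Type*} [NormedAddCommGroup E] [NormedSpace ℝ E] [FiniteDimensional ℝ E]
  {M : Type*} [MetricSpace M] [ChartedSpace E M]

omit [FiniteDimensional ℝ E] in
theorem mfderiv_symm_apply {r : ℕ∞} (hr : 1 ≤ r) (A : Diffeo E M r) (x : M)
    (v : TangentSpace 𝓘(ℝ, E) x) :
    mfderiv 𝓘(ℝ, E) 𝓘(ℝ, E) A.symm (A x) (mfderiv 𝓘(ℝ, E) 𝓘(ℝ, E) A x v) = v := by
  have hr0 : (r : ℕ∞ω) ≠ 0 := by
    have : r ≠ 0 := by
      rintro rfl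
      simp at hr
    exact_mod_cast this
  have h1 : MDifferentiable 𝓘(ℝ, E) 𝓘(ℝ, E) A := A.mdifferentiable hr0
  have h2 : MDifferentiable 𝓘(ℝ, E) 𝓘(ℝ, E) A.symm := A.symm.mdifferentiable hr0
  have h3 := mfderiv_comp x (h2 (A x)) (h1 x)
  have h4 : (A.symm ∘ A : M → M) = id := by
    funext y
    simp
  rw [h4, mfderiv_id] at h3
  have h5 := congrArg (fun T : TangentSpace 𝓘(ℝ, E) x →L[ℝ] TangentSpace 𝓘(ℝ, E) x => T v) h3
  exact h5.symm

theorem invariantOver_symm {r : ℕ∞} (hr : 1 ≤ r) (A : Diffeo E M r) {Es Eu : TFamily E M}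
    (hc : ∀ x, IsCompl (Es x) (Eu x)) (hs : InvariantOver A Es univ)
    (hu : InvariantOver A Eu univ) : InvariantOver A.symm Es univ := by
  intro y _ w hw
  obtain ⟨x, rfl⟩ : ∃ x, A x = y := ⟨A.symm y, by simp⟩
  have hinj : Function.Injective (mfderiv 𝓘(ℝ, E) 𝓘(ℝ, E) A x) := by
    intro v v' hvv
    rw [← mfderiv_symm_apply hr A x v, hvv, mfderiv_symm_apply hr A x v']
  let D : E →L[ℝ] E := mfderiv 𝓘(ℝ, E) 𝓘(ℝ, E) A x
  let S : Submodule ℝ E := Es x
  let U : Submodule ℝ E := Eu x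
  let S' : Submodule ℝ E := Es (A x)
  let U' : Submodule ℝ E := Eu (A x)
  have h1 : IsCompl S U := hc x
  have h2 : IsCompl S' U' := hc (A x)
  have h3 : ∀ v ∈ S, (D : E →ₗ[ℝ] E) v ∈ S' := fun v hv => hs x (mem_univ _) v hv
  have h4 : ∀ v ∈ U, (D : E →ₗ[ℝ] E) v ∈ U' := fun v hv => hu x (mem_univ _) v hv
  obtain ⟨v, hv, hvw⟩ := p8a_surj_of_compl (V := E) (W := E) rfl h1 h2
    (D : E →ₗ[ℝ] E) hinj h3 h4 w hw
  have h1 : w = mfderiv 𝓘(ℝ, E) 𝓘(ℝ, E) A x v := hvw.symm
  rw [h1, mfderiv_symm_apply hr A x v]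
  have h2 : A.symm (A x) = x := by simp
  rw [h2]
  exact hv

variable [CompactSpace M] [IsManifold 𝓘(ℝ, E) ∞ M]

omit [CompactSpace M] in
theorem hypEst_of_structure {r : ℕ∞} (hr : 1 ≤ r) (A : Diffeo E M r)
    (h : HyperbolicStructure E A A.symm univ) :
    ∃ (γ : RMetric E M) (Es Eu : TFamily E M) (c μ : ℝ), HypEst A A.symm γ univ Es Eu c μ := by
  obtain ⟨Es, Eu, -, -, hc, hs, hu, γ, c, μ, c0, μ0, μ1, cs, cu⟩ := h
  have hc' : ∀ x, IsCompl (Es x) (Eu x) := fun x => hc x (mem_univ x)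
  exact ⟨γ, Es, Eu, c, μ, c0, μ0, μ1, hc, hs, invariantOver_symm hr A hc' hs hu, hu,
    invariantOver_symm hr A (fun x => (hc' x).symm) hu hs, cs, cu⟩

end Pool.Agent.OmegaStability

end
end

section

/-!
# The rotations of a circle bundle form a smooth family
-/

open Set Filter Topology
open scoped Manifold ContDiff ComplexConjugate

noncomputable section

namespace Pool.Agent.OmegaStability

variable {d : ℕ} {B M : Type*} [MetricSpace B] [CompactSpace B]
  [ChartedSpace (EuclideanSpace ℝ (Fin d)) B]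
  [IsManifold 𝓘(ℝ, EuclideanSpace ℝ (Fin d)) ∞ B]
  [MetricSpace M] [CompactSpace M] [ChartedSpace (EuclideanSpace ℝ (Fin (d + 1))) M]
  [IsManifold 𝓘(ℝ, EuclideanSpace ℝ (Fin (d + 1))) ∞ M] [MulAction Circle M]

omit [CompactSpace B] [IsManifold 𝓘(ℝ, EuclideanSpace ℝ (Fin d)) ∞ B] [CompactSpace M]
  [IsManifold 𝓘(ℝ, EuclideanSpace ℝ (Fin (d + 1))) ∞ M] in
theorem p9_contMDiff_rot {π : M → B} (hb : IsCircleBundle d π) :
    ContMDiff (𝓘(ℝ, ℝ).prod (𝓡 (d + 1))) (𝓡 (d + 1)) ∞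
      (fun q : ℝ × M => Circle.exp q.1 • q.2) := by
  have h1 : ContMDiff (𝓘(ℝ, ℝ).prod (𝓡 (d + 1))) ((𝓡 1).prod (𝓡 (d + 1))) ∞
      (fun q : ℝ × M => (Circle.exp q.1, q.2)) :=
    (contMDiff_circleExp.comp contMDiff_fst).prodMk contMDiff_snd
  exact hb.smooth_action.comp h1

omit [CompactSpace B] [IsManifold 𝓘(ℝ, EuclideanSpace ℝ (Fin d)) ∞ B] [CompactSpace M]
  [IsManifold 𝓘(ℝ, EuclideanSpace ℝ (Fin (d + 1))) ∞ M] in
theorem p9_contMDiff_smul_const {π : M → B} (hb : IsCircleBundle d π) (z : Circle) :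
    ContMDiff (𝓡 (d + 1)) (𝓡 (d + 1)) ∞ (fun y : M => z • y) := by
  have h1 : ContMDiff (𝓡 (d + 1)) ((𝓡 1).prod (𝓡 (d + 1))) ∞
      (fun y : M => (z, y)) := contMDiff_const.prodMk contMDiff_id
  exact hb.smooth_action.comp h1

omit [CompactSpace B] [IsManifold 𝓘(ℝ, EuclideanSpace ℝ (Fin d)) ∞ B] [CompactSpace M]
  [IsManifold 𝓘(ℝ, EuclideanSpace ℝ (Fin (d + 1))) ∞ M] in
theorem exists_rot {π : M → B} (hb : IsCircleBundle d π) (r : ℕ∞) :
    ∃ h : ℝ → OmegaStab.Dyn (d + 1) M r, OmegaStab.IsFam h ∧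
      ∀ t y, h t y = Circle.exp t • y := by
  have hr : (r : ℕ∞ω) ≤ ∞ := by exact_mod_cast le_top
  refine ⟨fun t => { toFun := fun y => Circle.exp t • y
                     invFun := fun y => (Circle.exp t)⁻¹ • y
                     left_inv := fun y => inv_smul_smul _ y
                     right_inv := fun y => smul_inv_smul _ y
                     contMDiff_toFun := (p9_contMDiff_smul_const hb _).of_le hr
                     contMDiff_invFun := (p9_contMDiff_smul_const hb _).of_le hr },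
    ⟨?_, univ, univ_mem, ?_⟩, fun t y => rfl⟩
  · apply Diffeomorph.ext
    intro y
    change Circle.exp 0 • y = y
    simp
  · exact ((p9_contMDiff_rot hb).of_le hr).contMDiffOn

end Pool.Agent.OmegaStability

end
end

section

/-!
# Hyperbolic splitting of a circle extension over a set with a contracted fibre direction
-/

open Set Filter Topology
open scoped Manifold ContDiff ComplexConjugate

noncomputable section

namespace Pool.Agent.OmegaStability

namespace P7

/-! ### The norm of a Riemannian metric -/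

section Norms

variable {E : Type*} [NormedAddCommGroup E] [NormedSpace ℝ E] {M : Type*} [MetricSpace M]
  [ChartedSpace E M] [IsManifold 𝓘(ℝ, E) ∞ M]

theorem rm_inner_nonneg (γ : RMetric E M) (x : M) (v : TangentSpace 𝓘(ℝ, E) x) :
    0 ≤ γ.inner x v v := by
  by_cases hv : v = 0
  · rw [hv, map_zero]
  · exact (γ.pos x v hv).le

theorem rm_inner_sq_le (γ : RMetric E M) (x : M) (v w : TangentSpace 𝓘(ℝ, E) x) :
    γ.inner x v w ^ 2 ≤ γ.inner x v v * γ.inner x w w := by
  by_cases hw : w = 0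
  · rw [hw, map_zero, map_zero]
    simp
  · have hp := γ.pos x w hw
    have h := rm_inner_nonneg γ x (γ.inner x w w • v - γ.inner x v w • w)
    have e : γ.inner x (γ.inner x w w • v - γ.inner x v w • w)
        (γ.inner x w w • v - γ.inner x v w • w) =
        γ.inner x w w * (γ.inner x v v * γ.inner x w w - γ.inner x v w ^ 2) := by
      simp only [map_sub, map_smul, sub_apply, smul_apply,
        smul_eq_mul, γ.symm x w v]
      ring
    rw [e] at h
    have h2 := nonneg_of_mul_nonneg_right h hp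
    linarith

theorem rnorm_nonneg (γ : RMetric E M) (x : M) (v : TangentSpace 𝓘(ℝ, E) x) :
    0 ≤ rnorm γ x v := Real.sqrt_nonneg _

theorem rnorm_add (γ : RMetric E M) (x : M) (v w : TangentSpace 𝓘(ℝ, E) x) :
    rnorm γ x (v + w) ≤ rnorm γ x v + rnorm γ x w := by
  unfold rnorm
  have hv := rm_inner_nonneg γ x v
  have hw := rm_inner_nonneg γ x w
  have e : γ.inner x (v + w) (v + w) = γ.inner x v v + 2 * γ.inner x v w + γ.inner x w w := by
    simp only [map_add, add_apply, γ.symm x w v]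
    ring
  have h1 : γ.inner x v w ≤ √(γ.inner x v v) * √(γ.inner x w w) := by
    rw [← Real.sqrt_mul hv]
    exact Real.le_sqrt_of_sq_le (rm_inner_sq_le γ x v w)
  rw [Real.sqrt_le_left (by positivity), e, add_sq, Real.sq_sqrt hv, Real.sq_sqrt hw]
  linarith

end Norms

/-! ### Derivatives as endomorphisms of the model space -/

section Der

variable {E : Type*} [NormedAddCommGroup E] [NormedSpace ℝ E] {M : Type*} [TopologicalSpace M]
  [ChartedSpace E M]

/-- The derivative as a continuous linear endomorphism of the model space. -/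
def cder (g : M → M) (x : M) : E →L[ℝ] E := mfderiv 𝓘(ℝ, E) 𝓘(ℝ, E) g x

/-- The derivative as a linear endomorphism of the model space. -/
def lder (g : M → M) (x : M) : E →ₗ[ℝ] E := (cder (E := E) g x).toLinearMap

theorem mdiff_iterate {g : M → M} (hg : MDifferentiable 𝓘(ℝ, E) 𝓘(ℝ, E) g) (n : ℕ) :
    MDifferentiable 𝓘(ℝ, E) 𝓘(ℝ, E) g^[n] := by
  induction n with
  | zero => exact mdifferentiable_id
  | succ n ih => rw [Function.iterate_succ]; exact ih.comp hg

theorem it_lder {g : M → M} (hg : MDifferentiable 𝓘(ℝ, E) 𝓘(ℝ, E) g) (n : ℕ) (x : M) (v : E) :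
    it g (lder (E := E) g) n x v = mfderiv 𝓘(ℝ, E) 𝓘(ℝ, E) g^[n] x v := by
  induction n with
  | zero =>
    have h : mfderiv 𝓘(ℝ, E) 𝓘(ℝ, E) (id : M → M) x = ContinuousLinearMap.id ℝ _ := mfderiv_id
    exact (congrArg (fun T : TangentSpace 𝓘(ℝ, E) x →L[ℝ] TangentSpace 𝓘(ℝ, E) x => T v) h).symm
  | succ n ih =>
    rw [it_succ, ih, Function.iterate_succ']
    have h := mfderiv_comp x (hg (g^[n] x)) (mdiff_iterate hg n x)
    rw [h]
    rfl

theorem lder_comp_id (g h : M → M) (hg : MDifferentiable 𝓘(ℝ, E) 𝓘(ℝ, E) g)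
    (hh : MDifferentiable 𝓘(ℝ, E) 𝓘(ℝ, E) h) (hgh : ∀ y, g (h y) = y) (y : M) (v : E) :
    lder (E := E) g (h y) (lder (E := E) h y v) = v := by
  have h1 := mfderiv_comp y (hg (h y)) (hh y)
  have h2 : g ∘ h = id := funext hgh
  rw [h2] at h1
  have h3 : mfderiv 𝓘(ℝ, E) 𝓘(ℝ, E) (id : M → M) y = ContinuousLinearMap.id ℝ _ := mfderiv_id
  rw [h3] at h1
  exact (congrArg (fun T : E →L[ℝ] E => T v) h1).symm

end Der

/-! ### The splitting -/

variable {d : ℕ} {B M : Type*} [MetricSpace B] [CompactSpace B]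
  [ChartedSpace (EuclideanSpace ℝ (Fin d)) B]
  [IsManifold 𝓘(ℝ, EuclideanSpace ℝ (Fin d)) ∞ B]
  [MetricSpace M] [CompactSpace M] [ChartedSpace (EuclideanSpace ℝ (Fin (d + 1))) M]
  [IsManifold 𝓘(ℝ, EuclideanSpace ℝ (Fin (d + 1))) ∞ M] [MulAction Circle M]

/-- The scalar product with the generator. -/
def omC (γ : RMetric (EuclideanSpace ℝ (Fin (d + 1))) M) (y : M) :
    EuclideanSpace ℝ (Fin (d + 1)) →L[ℝ] ℝ := γ.inner y (gen d y)

/-- The component along the fibre. -/
def om (γ : RMetric (EuclideanSpace ℝ (Fin (d + 1))) M) (y : M) :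
    EuclideanSpace ℝ (Fin (d + 1)) →ₗ[ℝ] ℝ :=
  (γ.inner y (gen d y) (gen d y))⁻¹ • (omC γ y).toLinearMap

/-- The derivative of the projection. -/
def piC (π : M → B) (y : M) : EuclideanSpace ℝ (Fin (d + 1)) →L[ℝ] EuclideanSpace ℝ (Fin d) :=
  mfderiv (𝓡 (d + 1)) (𝓡 d) π y

omit [CompactSpace M] in
theorem om_apply (γ : RMetric (EuclideanSpace ℝ (Fin (d + 1))) M) (y : M)
    (v : TangentSpace (𝓡 (d + 1)) y) :
    om γ y v = (γ.inner y (gen d y) (gen d y))⁻¹ * γ.inner y (gen d y) v := rfl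

section InnerCont

open scoped Bundle

/-- The scalar product of two continuous vector fields along a map is continuous. -/
theorem continuous_inner {E : Type*} [NormedAddCommGroup E] [NormedSpace ℝ E] {M : Type*}
    [MetricSpace M] [ChartedSpace E M] [IsManifold 𝓘(ℝ, E) ∞ M] (γ : RMetric E M)
    {Y : Type*} [TopologicalSpace Y] {b : Y → M} {v w : ∀ t, TangentSpace 𝓘(ℝ, E) (b t)}
    (hv : Continuous fun t => (⟨b t, v t⟩ : TangentBundle 𝓘(ℝ, E) M))
    (hw : Continuous fun t => (⟨b t, w t⟩ : TangentBundle 𝓘(ℝ, E) M)) :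
    Continuous fun t => γ.inner (b t) (v t) (w t) := by
  let _ : Bundle.RiemannianBundle (fun x : M => TangentSpace 𝓘(ℝ, E) x) :=
    ⟨γ.toRiemannianMetric⟩
  exact Continuous.inner_bundle (F := E) (E := fun x : M => TangentSpace 𝓘(ℝ, E) x) hv hw

end InnerCont

omit [CompactSpace B] [IsManifold (𝓡 d) ∞ B] [CompactSpace M] in
theorem continuous_om {π : M → B} (hb : IsCircleBundle d π)
    (γ : RMetric (EuclideanSpace ℝ (Fin (d + 1))) M) :
    Continuous fun v : TangentBundle (𝓡 (d + 1)) M => om γ v.1 v.2 := by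
  have hg := continuous_gen hb
  have h1 : Continuous fun v : TangentBundle (𝓡 (d + 1)) M =>
      (⟨v.1, gen d v.1⟩ : TangentBundle (𝓡 (d + 1)) M) :=
    hg.comp (FiberBundle.continuous_proj _ _)
  have h2 : Continuous fun v : TangentBundle (𝓡 (d + 1)) M => γ.inner v.1 (gen d v.1) v.2 :=
    continuous_inner γ h1 continuous_id
  have h3 : Continuous fun v : TangentBundle (𝓡 (d + 1)) M =>
      γ.inner v.1 (gen d v.1) (gen d v.1) := continuous_inner γ h1 h1
  exact (h3.inv₀ (fun v => (γ.pos _ _ (gen_ne_zero hb v.1)).ne')).mul h2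

end P7

open P7

variable {d : ℕ} {B M : Type*} [MetricSpace B] [CompactSpace B]
  [ChartedSpace (EuclideanSpace ℝ (Fin d)) B]
  [IsManifold 𝓘(ℝ, EuclideanSpace ℝ (Fin d)) ∞ B]
  [MetricSpace M] [CompactSpace M] [ChartedSpace (EuclideanSpace ℝ (Fin (d + 1))) M]
  [IsManifold 𝓘(ℝ, EuclideanSpace ℝ (Fin (d + 1))) ∞ M] [MulAction Circle M]

theorem exists_hypEst {π : M → B} (hb : IsCircleBundle d π) {r : ℕ∞} (hr : 1 ≤ r)
    (A : Diffeo (EuclideanSpace ℝ (Fin d)) B r) (f : Diffeo (EuclideanSpace ℝ (Fin (d + 1))) M r)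
    (hcov : ∀ y, π (f y) = A (π y)) (γB : RMetric (EuclideanSpace ℝ (Fin d)) B)
    {EsB EuB : TFamily (EuclideanSpace ℝ (Fin d)) B} {cB μB : ℝ}
    (hA : HypEst A A.symm γB univ EsB EuB cB μB)
    (γ : RMetric (EuclideanSpace ℝ (Fin (d + 1))) M) (D : M → ℝ) (hD0 : ∀ y, 0 < D y)
    (hDf : ∀ y, mfderiv (𝓡 (d + 1)) (𝓡 (d + 1)) f y (gen d y) = D y • gen d (f y))
    (Λ : Set M) (hΛ : ∀ y, f y ∈ Λ ↔ y ∈ Λ) (C κ : ℝ) (hC : 0 < C) (hκ0 : 0 < κ)
    (hκ1 : κ < 1) (hest : ∀ y ∈ Λ, ∀ l : ℕ, ∏ i ∈ Finset.range l, D (f^[i] y) ≤ C * κ ^ l) :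
    ∃ (Es Eu : TFamily (EuclideanSpace ℝ (Fin (d + 1))) M) (c μ : ℝ),
      HypEst f f.symm γ Λ Es Eu c μ := by
  have hr1 : (1 : ℕ∞ω) ≤ ((r : ℕ∞) : ℕ∞ω) := by exact_mod_cast hr
  have hr0 : ((r : ℕ∞) : ℕ∞ω) ≠ 0 := by
    intro h
    rw [h] at hr1
    exact absurd hr1 (by norm_num)
  have hf : MDifferentiable (𝓡 (d + 1)) (𝓡 (d + 1)) f := f.mdifferentiable hr0
  have hf' : MDifferentiable (𝓡 (d + 1)) (𝓡 (d + 1)) f.symm := f.symm.mdifferentiable hr0
  have hA1 : MDifferentiable (𝓡 d) (𝓡 d) A := A.mdifferentiable hr0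
  have hA1' : MDifferentiable (𝓡 d) (𝓡 d) A.symm := A.symm.mdifferentiable hr0
  have hπ : MDifferentiable (𝓡 (d + 1)) (𝓡 d) π := hb.smooth_proj.mdifferentiable (by simp)
  -- the covering relation for the inverse
  have hcov' : ∀ y, π (f.symm y) = A.symm (π y) := by
    intro y
    have h := hcov (f.symm y)
    rw [f.apply_symm_apply] at h
    rw [h, A.symm_apply_apply]
  -- continuous homogeneous functions
  have ht1 : Continuous fun v : TangentBundle (𝓡 (d + 1)) M =>
      rnorm γB (π v.1) (mfderiv (𝓡 (d + 1)) (𝓡 d) π v.1 v.2) :=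
    (continuous_rnorm γB).comp (hb.smooth_proj.continuous_tangentMap (by simp))
  have ht2 := continuous_om hb γ
  have ht3 : Continuous fun v : TangentBundle (𝓡 (d + 1)) M =>
      rnorm γ (f v.1) (mfderiv (𝓡 (d + 1)) (𝓡 (d + 1)) f v.1 v.2) :=
    (continuous_rnorm γ).comp (f.contMDiff_toFun.continuous_tangentMap hr1)
  have hN : Continuous fun v : TangentBundle (𝓡 (d + 1)) M =>
      rnorm γB (π v.1) (mfderiv (𝓡 (d + 1)) (𝓡 d) π v.1 v.2) + |om γ v.1 v.2| := ht1.add ht2.abs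
  have hNhom : ∀ (x : M) (v : TangentSpace (𝓡 (d + 1)) x) (t : ℝ),
      rnorm γB (π x) (mfderiv (𝓡 (d + 1)) (𝓡 d) π x (t • v)) + |om γ x (t • v)| =
        |t| * (rnorm γB (π x) (mfderiv (𝓡 (d + 1)) (𝓡 d) π x v) + |om γ x v|) := by
    intro x v t
    have e1 : om γ x (t • v) = t * om γ x v := (om γ x).map_smul t v
    rw [map_smul, rnorm_smul, e1, abs_mul]
    ring
  have omX : ∀ y, om γ y (gen d y) = 1 := by
    intro y
    rw [om_apply]
    exact inv_mul_cancel₀ (γ.pos _ _ (gen_ne_zero hb y)).ne'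
  obtain ⟨K1, hK1, hK1'⟩ := exists_bound γ (fun v : TangentBundle (𝓡 (d + 1)) M =>
    rnorm γB (π v.1) (mfderiv (𝓡 (d + 1)) (𝓡 d) π v.1 v.2) + |om γ v.1 v.2|) hN hNhom
  obtain ⟨K2, hK2, hK2'⟩ := exists_bound_below γ (fun v : TangentBundle (𝓡 (d + 1)) M =>
    rnorm γB (π v.1) (mfderiv (𝓡 (d + 1)) (𝓡 d) π v.1 v.2) + |om γ v.1 v.2|) hN hNhom (by
      intro x v hv
      show 0 < rnorm γB (π x) (mfderiv (𝓡 (d + 1)) (𝓡 d) π x v) + |om γ x v|
      by_cases h : mfderiv (𝓡 (d + 1)) (𝓡 d) π x v = 0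
      · obtain ⟨c, hc⟩ := (ker_proj_of_gen_ne_zero hb x (gen_ne_zero hb x) v).mp h
        have hc0 : c ≠ 0 := by
          intro h0
          rw [h0, zero_smul] at hc
          exact hv hc
        have h1 : om γ x v = c := by
          rw [hc]
          exact ((om γ x).map_smul c (gen d x)).trans (by rw [omX, smul_eq_mul, mul_one])
        rw [h1]
        have := rnorm_nonneg γB (π x) (mfderiv (𝓡 (d + 1)) (𝓡 d) π x v)
        have := abs_pos.mpr hc0
        linarith
      · have h1 : 0 < rnorm γB (π x) (mfderiv (𝓡 (d + 1)) (𝓡 d) π x v) :=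
          Real.sqrt_pos.mpr (γB.pos _ _ h)
        have := abs_nonneg (om γ x v)
        linarith)
  obtain ⟨K3, hK3, hK3'⟩ := exists_bound γ (fun v : TangentBundle (𝓡 (d + 1)) M =>
    rnorm γ (f v.1) (mfderiv (𝓡 (d + 1)) (𝓡 (d + 1)) f v.1 v.2)) ht3 (by
      intro x v t
      show rnorm γ (f x) (mfderiv (𝓡 (d + 1)) (𝓡 (d + 1)) f x (t • v)) = _
      rw [map_smul, rnorm_smul])
  -- chain rules
  have hTF : ∀ (g : M → M) (a : B → B) (hg : MDifferentiable (𝓡 (d + 1)) (𝓡 (d + 1)) g)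
      (ha : MDifferentiable (𝓡 d) (𝓡 d) a) (hc : ∀ y, π (g y) = a (π y)) (y : M)
      (v : TangentSpace (𝓡 (d + 1)) y), mfderiv (𝓡 (d + 1)) (𝓡 d) π (g y)
        (mfderiv (𝓡 (d + 1)) (𝓡 (d + 1)) g y v) =
        mfderiv (𝓡 d) (𝓡 d) a (π y) (mfderiv (𝓡 (d + 1)) (𝓡 d) π y v) := by
    intro g a hg ha hc y v
    have h1 := mfderiv_comp y (hπ (g y)) (hg y)
    have h2 := mfderiv_comp y (ha (π y)) (hπ y)
    have h3 : π ∘ g = a ∘ π := funext hc
    rw [h3] at h1
    rw [h2] at h1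
    exact (congrArg (fun T : EuclideanSpace ℝ (Fin (d + 1)) →L[ℝ] EuclideanSpace ℝ (Fin d) => T v)
      h1).symm
  set K := max K1 (max K2 K3) with hK
  have hK1le : K1 ≤ K := le_max_left _ _
  have hK2le : K2 ≤ K := (le_max_left _ _).trans (le_max_right _ _)
  have hK3le : K3 ≤ K := (le_max_right _ _).trans (le_max_right _ _)
  have S : P7.Setup (M := M) (B := B) (V := EuclideanSpace ℝ (Fin (d + 1)))
      (W := EuclideanSpace ℝ (Fin d)) π f f.symm A A.symm (fun y => gen d y)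
      (fun y => (piC π y).toLinearMap)
      (lder f) (lder f.symm) (lder A) (lder A.symm) D (fun y v => rnorm γ y v)
      (fun x w => rnorm γB x w) (om γ) K :=
    { ff' := fun y => f.apply_symm_apply y
      f'f := fun y => f.symm_apply_apply y
      cov := hcov
      cov' := hcov'
      FF' := lder_comp_id f f.symm hf hf' (fun y => f.apply_symm_apply y)
      F'F := lder_comp_id f.symm f hf' hf (fun y => f.symm_apply_apply y)
      GG' := lder_comp_id A A.symm hA1 hA1' (fun y => A.apply_symm_apply y)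
      TF := hTF f A hf hA1 hcov
      TF' := hTF f.symm A.symm hf' hA1' hcov'
      Tsurj := fun y => hb.submersion y
      Tker := fun y v h => (ker_proj_of_gen_ne_zero hb y (gen_ne_zero hb y) v).mp h
      TX := fun y => (ker_proj_of_gen_ne_zero hb y (gen_ne_zero hb y) (gen d y)).mpr ⟨1, (one_smul ℝ _).symm⟩
      FX := hDf
      D_pos := hD0
      ωX := omX
      n_nonneg := fun y v => rnorm_nonneg γ y v
      n_add := fun y v w => rnorm_add γ y v w
      n_smul := fun y c v => rnorm_smul γ y v c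
      m_nonneg := fun x w => rnorm_nonneg γB x w
      K_pos := lt_of_lt_of_le hK1 hK1le
      n_le := fun y v => (hK2' y v).trans (mul_le_mul_of_nonneg_right hK2le
        (add_nonneg (rnorm_nonneg γB _ _) (abs_nonneg _)))
      le_n := fun y v => (hK1' y v).trans (mul_le_mul_of_nonneg_right hK1le
        (rnorm_nonneg γ _ _))
      F_le := fun y v => (hK3' y v).trans (mul_le_mul_of_nonneg_right hK3le
        (rnorm_nonneg γ _ _)) }
  have H : P7.BHyp (B := B) (W := EuclideanSpace ℝ (Fin d)) A A.symm (lder A) (lder A.symm)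
      (fun x w => rnorm γB x w) (fun x => EsB x) (fun x => EuB x) cB μB :=
    { c_pos := hA.c_pos
      mu_pos := hA.mu_pos
      mu_lt := hA.mu_lt
      compl := fun x => hA.compl x (mem_univ x)
      inv_s := fun x w hw => hA.inv_s x (mem_univ x) w hw
      inv_s' := fun x w hw => hA.inv_s' x (mem_univ x) w hw
      inv_u := fun x w hw => hA.inv_u x (mem_univ x) w hw
      inv_u' := fun x w hw => hA.inv_u' x (mem_univ x) w hw
      contr_s := fun x w hw k => by
        rw [it_lder hA1]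
        exact hA.contr_s x (mem_univ x) w hw k
      contr_u := fun x w hw k => by
        rw [it_lder hA1']
        exact hA.contr_u x (mem_univ x) w hw k }
  have hΛ1 : ∀ y ∈ Λ, f y ∈ Λ := fun y hy => (hΛ y).mpr hy
  have hΛ2 : ∀ y ∈ Λ, f.symm y ∈ Λ := fun y hy => by
    rw [← hΛ (f.symm y), f.apply_symm_apply]
    exact hy
  obtain ⟨Es, Eu, c, μ, hc, hμ, hμ1, h1, h2, h3, h4, h5, h6, h7⟩ :=
    P7.exists_splitting S H hΛ1 hΛ2 hC hκ0 hκ1 hest
  refine ⟨fun y => Es y, fun y => Eu y, c, μ, hc, hμ, hμ1, h1, fun y _ v hv => h2 y v hv,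
    fun y _ v hv => h3 y v hv, fun y _ v hv => h4 y v hv, fun y _ v hv => h5 y v hv, ?_, ?_⟩
  · intro y hy v hv k
    have h := h6 y hy v hv k
    exact (congrArg (fun z : EuclideanSpace ℝ (Fin (d + 1)) => rnorm γ (f^[k] y) z)
      (it_lder hf k y v).symm).trans_le h
  · intro y hy v hv k
    have h := h7 y hy v hv k
    exact (congrArg (fun z : EuclideanSpace ℝ (Fin (d + 1)) => rnorm γ (f.symm^[k] y) z)
      (it_lder hf' k y v).symm).trans_le h

end Pool.Agent.OmegaStability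

end
end
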