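import Pool.Agent.Work.MP_814647_an.ModelUse
import Pool.Agent.Work.MP_814647_an.Bd.B04
import Pool.Agent.Work.MP_814647_an.Family

/-! Bundle of small proof modules (one section per former module). -/

section

/-!
# Shortening cycles by perturbation
-/

open Set Filter Topology Function
open scoped Manifold ContDiff

noncomputable section

namespace Pool.Agent.OmegaStab

section Top

variable {M : Type*} [MetricSpace M] [CompactSpace M]

omit [CompactSpace M] in
/-- Two homeomorphisms which agree along an orbit have the same iterates there. -/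
theorem zpow_eq_of_agree (h h' : M ≃ₜ M) (x : M) (hag : ∀ n : ℤ, h' ((h ^ n) x) = h ((h ^ n) x)) :
    ∀ n : ℤ, (h' ^ n) x = (h ^ n) x := by
  have h1 : ∀ n : ℕ, (h' ^ (n : ℤ)) x = (h ^ (n : ℤ)) x := by
    intro n
    induction n with
    | zero => simp
    | succ n ih =>
      rw [Nat.cast_succ, ← apply_zpow, ← apply_zpow, ih, hag]
  have h2 : ∀ n : ℕ, (h' ^ (-(n : ℤ))) x = (h ^ (-(n : ℤ))) x := by
    intro n
    induction n with
    | zero => simp
    | succ n ih =>
      apply h'.injective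
      rw [apply_zpow, hag, apply_zpow]
      rw [show -((n + 1 : ℕ) : ℤ) + 1 = -(n : ℤ) by push_cast; ring]
      exact ih
  intro n
  rcases Int.eq_nat_or_neg n with ⟨k, rfl | rfl⟩
  · exact h1 k
  · exact h2 k

omit [CompactSpace M] in
theorem tendsto_zpow_atTop {h : M ≃ₜ M} {A : Set M} {x : M}
    (hx : Tendsto (fun n : ℕ => h^[n] x) atTop (𝓝ˢ A)) (k : ℤ) :
    Tendsto (fun n : ℕ => h^[n] ((h ^ k) x)) atTop (𝓝ˢ A) := by
  have h1 : Tendsto (fun n : ℤ => (h ^ n) x) atTop (𝓝ˢ A) := by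
    rw [tendsto_atTop'] at hx ⊢
    intro s hs
    obtain ⟨a, ha⟩ := hx s hs
    refine ⟨(a : ℤ), fun b hb => ?_⟩
    have hb0 : 0 ≤ b := le_trans (by positivity) hb
    obtain ⟨b', rfl⟩ := Int.eq_ofNat_of_zero_le hb0
    rw [zpow_natCast_apply]
    exact ha b' (by exact_mod_cast hb)
  have h2 : Tendsto (fun n : ℕ => (k + (n : ℤ))) atTop atTop :=
    tendsto_atTop_add_const_left _ _ tendsto_natCast_atTop_atTop
  refine (h1.comp h2).congr fun n => ?_
  rw [iterate_zpow]
  rfl

omit [CompactSpace M] in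
theorem tendsto_symm_zpow_atTop {h : M ≃ₜ M} {A : Set M} {x : M}
    (hx : Tendsto (fun n : ℕ => h.symm^[n] x) atTop (𝓝ˢ A)) (k : ℤ) :
    Tendsto (fun n : ℕ => h.symm^[n] ((h ^ k) x)) atTop (𝓝ˢ A) := by
  have h1 := tendsto_zpow_atTop (h := h.symm) hx (-k)
  refine h1.congr fun n => ?_
  congr 1
  rcases Int.eq_nat_or_neg k with ⟨j, rfl | rfl⟩
  · rw [zpow_neg_natCast_apply, zpow_natCast_apply]
    rfl
  · rw [neg_neg, zpow_neg_natCast_apply, zpow_natCast_apply]

omit [CompactSpace M] in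
/-- uniqueness of the limit periodic orbit -/
theorem Orb_eq_of_tendsto {h : M ≃ₜ M} {p q : M} (hp : p ∈ periodicPts h)
    (hq : q ∈ periodicPts h) {u : ℕ → M} (h1 : Tendsto u atTop (𝓝ˢ (Orb h p)))
    (h2 : Tendsto u atTop (𝓝ˢ (Orb h q))) : Orb h p = Orb h q := by
  by_contra hne
  have hdisj : Disjoint (Orb h p) (Orb h q) := by
    rw [Set.disjoint_left]
    intro y hy hy'
    exact hne ((Orb_eq_of_mem hp hy).symm.trans (Orb_eq_of_mem hq hy'))
  obtain ⟨U, V, hU, hV, hpU, hqV, hUV⟩ :=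
    SeparatedNhds.of_isCompact_isCompact (Orb_finite hp).isCompact (Orb_finite hq).isCompact hdisj
  have h3 := h1.eventually (hU.mem_nhdsSet.2 hpU)
  have h4 := h2.eventually (hV.mem_nhdsSet.2 hqV)
  obtain ⟨n, hn3, hn4⟩ := (h3.and h4).exists
  exact Set.disjoint_left.1 hUV hn3 hn4

omit [CompactSpace M] in
/-- The full orbit of a point asymptotic to periodic orbits does not accumulate elsewhere. -/
theorem exists_ball_avoid {h : M ≃ₜ M} {p q x z : M} (hp : p ∈ periodicPts h)
    (hq : q ∈ periodicPts h) (hb : Tendsto (fun n : ℕ => h.symm^[n] x) atTop (𝓝ˢ (Orb h p)))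
    (hf : Tendsto (fun n : ℕ => h^[n] x) atTop (𝓝ˢ (Orb h q))) (hz : z ∉ periodicPts h) :
    ∃ ε : ℝ, 0 < ε ∧ ∀ n : ℤ, (h ^ n) x = z ∨ ε ≤ dist ((h ^ n) x) z := by
  have hzp : ∀ q' ∈ periodicPts h, ∃ δ : ℝ, 0 < δ ∧
      ∀ y, (∃ w ∈ Orb h q', dist y w ≤ δ) → δ ≤ dist y z := by
    intro q' hq'
    have hne : (Orb h q').Nonempty := Orb_nonempty _ _
    have hcl : IsClosed (Orb h q') := (Orb_finite hq').isClosed
    have hpos : 0 < Metric.infDist z (Orb h q') := by
      rw [← hcl.notMem_iff_infDist_pos hne]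
      intro hmem
      exact hz (periodic_of_mem_Orb hq' hmem)
    refine ⟨Metric.infDist z (Orb h q') / 2, by linarith, ?_⟩
    rintro y ⟨w, hw, hd⟩
    have h1 := Metric.infDist_le_dist_of_mem (x := z) hw
    have h2 := dist_triangle z y w
    rw [dist_comm z y] at h2
    linarith
  obtain ⟨δ₁, hδ₁, h1⟩ := hzp p hp
  obtain ⟨δ₂, hδ₂, h2⟩ := hzp q hq
  obtain ⟨n₁, hn₁⟩ := eventually_close h.symm (p := p) (x := x)
    (by rw [Orb_symm h hp]; exact hb) δ₁ hδ₁
  obtain ⟨n₂, hn₂⟩ := eventually_close h hf δ₂ hδ₂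
  rw [Orb_symm h hp] at hn₁
  -- the finitely many remaining times
  have hfin : ∀ n : ℤ, ∃ δ : ℝ, 0 < δ ∧ ((h ^ n) x = z ∨ δ ≤ dist ((h ^ n) x) z) := by
    intro n
    by_cases he : (h ^ n) x = z
    · exact ⟨1, one_pos, Or.inl he⟩
    · exact ⟨dist ((h ^ n) x) z, dist_pos.2 he, Or.inr le_rfl⟩
  choose δf hδf hδf' using hfin
  have hne : (Finset.Icc (-(n₁ : ℤ)) (n₂ : ℤ)).Nonempty := Finset.nonempty_Icc.2 (by omega)
  refine ⟨min (min δ₁ δ₂) ((Finset.Icc (-(n₁ : ℤ)) (n₂ : ℤ)).inf' hne δf), ?_, ?_⟩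
  · refine lt_min (lt_min hδ₁ hδ₂) ?_
    rw [Finset.lt_inf'_iff]
    exact fun n _ => hδf n
  · intro n
    by_cases hn : n ∈ Finset.Icc (-(n₁ : ℤ)) (n₂ : ℤ)
    · rcases hδf' n with h3 | h3
      · exact Or.inl h3
      · exact Or.inr ((min_le_right _ _).trans ((Finset.inf'_le _ hn).trans h3))
    · right
      rw [Finset.mem_Icc, not_and_or, not_le, not_le] at hn
      rcases hn with hn | hn
      · obtain ⟨k, hk⟩ := Int.eq_ofNat_of_zero_le (show 0 ≤ -n by omega)
        have hk' : n = -(k : ℤ) := by omega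
        rw [hk', zpow_neg_natCast_apply]
        refine ((min_le_left _ _).trans (min_le_left _ _)).trans (h1 _ ?_)
        exact hn₁ k (by omega)
      · obtain ⟨k, hk⟩ := Int.eq_ofNat_of_zero_le (show 0 ≤ n by omega)
        have hk' : n = (k : ℤ) := by omega
        rw [hk', zpow_natCast_apply]
        refine ((min_le_left _ _).trans (min_le_right _ _)).trans (h2 _ ?_)
        exact hn₂ k (by omega)

omit [CompactSpace M] in
theorem exists_dist_Orb {h : M ≃ₜ M} {p z : M} (hp : p ∈ periodicPts h)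
    (hz : z ∉ periodicPts h) : ∃ ε : ℝ, 0 < ε ∧ ∀ q ∈ Orb h p, ε ≤ dist q z := by
  have hpos : 0 < Metric.infDist z (Orb h p) := by
    rw [← (Orb_finite hp).isClosed.notMem_iff_infDist_pos (Orb_nonempty _ _)]
    intro hmem
    exact hz (periodic_of_mem_Orb hp hmem)
  refine ⟨_, hpos, fun q hq => ?_⟩
  rw [dist_comm]
  exact Metric.infDist_le_dist_of_mem hq

/-- finite minimum of positive numbers -/
theorem exists_min_pos (m : ℕ) (P : ℕ → ℝ → Prop) (hP : ∀ i < m, ∃ ε : ℝ, 0 < ε ∧ P i ε)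
    (hmono : ∀ i, ∀ ε ε', 0 < ε' → ε' ≤ ε → P i ε → P i ε') :
    ∃ ε : ℝ, 0 < ε ∧ ∀ i < m, P i ε := by
  induction m with
  | zero => exact ⟨1, one_pos, fun i hi => absurd hi (Nat.not_lt_zero _)⟩
  | succ m ih =>
    obtain ⟨ε₁, hε₁, h1⟩ := ih fun i hi => hP i (Nat.lt_succ_of_lt hi)
    obtain ⟨ε₂, hε₂, h2⟩ := hP m (Nat.lt_succ_self m)
    refine ⟨min ε₁ ε₂, lt_min hε₁ hε₂, fun i hi => ?_⟩
    rcases Nat.lt_succ_iff_lt_or_eq.1 hi with hi | rfl
    · exact hmono i _ _ (lt_min hε₁ hε₂) (min_le_left _ _) (h1 i hi)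
    · exact hmono i _ _ (lt_min hε₁ hε₂) (min_le_right _ _) h2

theorem shorten_aux {d : ℕ} [ChartedSpace (EE d) M] (h : M ≃ₜ M) (m : ℕ) (hm : 2 ≤ m)
    (p x : ℕ → M) (hp : ∀ i, p i ∈ periodicPts h) (hpm : Orb h (p m) = Orb h (p 0))
    (hx : ∀ i < m, x i ∉ periodicPts h ∧
      Tendsto (fun n : ℕ => h.symm^[n] (x i)) atTop (𝓝ˢ (Orb h (p i))) ∧
      Tendsto (fun n : ℕ => h^[n] (x i)) atTop (𝓝ˢ (Orb h (p (i + 1)))))
    (hdist : ∀ i < m, ∀ j < m, i ≠ j → Orb h (p i) ≠ Orb h (p j))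
    (W : LocModel (d := d) h (p 1)) :
    ∃ ε : ℝ, 0 < ε ∧ Disjoint (Metric.ball (x 0) ε) (Metric.ball (x 1) ε) ∧
      ∀ ε' : ℝ, 0 < ε' → ∃ a z : M, dist a (x 0) < ε' ∧ dist z (x 1) < ε' ∧
        ∀ h' : M ≃ₜ M,
          (∀ w, h w ∉ Metric.ball (x 0) ε → h w ∉ Metric.ball (x 1) ε → h' w = h w) →
          h' (h.symm (x 0)) = a → h' (h.symm z) = x 1 → HasCycle h' (m - 1) := by
  have h0m : 0 < m := by omega
  have h1m : 1 < m := by omega
  -- a uniform distance
  obtain ⟨ε₁, hε₁, hP⟩ := exists_min_pos m (fun i ε =>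
      ((∀ n : ℤ, (h ^ n) (x i) = x 0 ∨ ε ≤ dist ((h ^ n) (x i)) (x 0)) ∧
        (∀ n : ℤ, (h ^ n) (x i) = x 1 ∨ ε ≤ dist ((h ^ n) (x i)) (x 1))) ∧
      (∀ q ∈ Orb h (p i), ε ≤ dist q (x 0)) ∧ (∀ q ∈ Orb h (p i), ε ≤ dist q (x 1)))
    (by
      intro i hi
      obtain ⟨hxi, hbi, hfi⟩ := hx i hi
      obtain ⟨e1, he1, h1⟩ := exists_ball_avoid (hp i) (hp (i + 1)) hbi hfi (hx 0 h0m).1
      obtain ⟨e2, he2, h2⟩ := exists_ball_avoid (hp i) (hp (i + 1)) hbi hfi (hx 1 h1m).1
      obtain ⟨e3, he3, h3⟩ := exists_dist_Orb (hp i) (hx 0 h0m).1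
      obtain ⟨e4, he4, h4⟩ := exists_dist_Orb (hp i) (hx 1 h1m).1
      refine ⟨min (min e1 e2) (min e3 e4), lt_min (lt_min he1 he2) (lt_min he3 he4),
        ⟨fun n => ?_, fun n => ?_⟩, fun q hq => ?_, fun q hq => ?_⟩
      · exact (h1 n).imp id (fun h => ((min_le_left _ _).trans (min_le_left _ _)).trans h)
      · exact (h2 n).imp id (fun h => ((min_le_left _ _).trans (min_le_right _ _)).trans h)
      · exact ((min_le_right _ _).trans (min_le_left _ _)).trans (h3 q hq)
      · exact ((min_le_right _ _).trans (min_le_right _ _)).trans (h4 q hq))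
    (by
      intro i ε ε' _ hle hPi
      exact ⟨⟨fun n => (hPi.1.1 n).imp id hle.trans, fun n => (hPi.1.2 n).imp id hle.trans⟩,
        fun q hq => hle.trans (hPi.2.1 q hq), fun q hq => hle.trans (hPi.2.2 q hq)⟩)
  -- identification of coincidences
  have hnot : ∀ j < m, ∀ n : ℤ, n ≠ 0 → (h ^ n) (x j) ≠ x j := by
    intro j hj n hn he
    apply (hx j hj).1
    rcases Int.eq_nat_or_neg n with ⟨k, rfl | rfl⟩
    · refine ⟨k, by omega, ?_⟩
      rwa [zpow_natCast_apply] at he
    · refine ⟨k, by omega, ?_⟩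
      rw [zpow_neg_natCast_apply] at he
      have := iterate_symm_iterate h k (x j)
      rwa [he] at this
  have hcoin : ∀ i < m, ∀ j < m, ∀ n : ℤ, (h ^ n) (x i) = x j → i = j ∧ n = 0 := by
    intro i hi j hj n he
    have hij : i = j := by
      by_contra hne
      apply hdist i hi j hj hne
      have h1 := tendsto_symm_zpow_atTop (hx i hi).2.1 n
      rw [he] at h1
      exact Orb_eq_of_tendsto (hp i) (hp j) h1 (hx j hj).2.1
    subst hij
    exact ⟨rfl, by_contra fun hn => hnot i hi n hn he⟩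
  have far0 : ∀ i < m, ∀ n : ℤ, ¬ (i = 0 ∧ n = 0) → ε₁ ≤ dist ((h ^ n) (x i)) (x 0) := by
    intro i hi n hne
    rcases (hP i hi).1.1 n with h1 | h1
    · exact absurd (hcoin i hi 0 h0m n h1) hne
    · exact h1
  have far1 : ∀ i < m, ∀ n : ℤ, ¬ (i = 1 ∧ n = 0) → ε₁ ≤ dist ((h ^ n) (x i)) (x 1) := by
    intro i hi n hne
    rcases (hP i hi).1.2 n with h1 | h1
    · exact absurd (hcoin i hi 1 h1m n h1) hne
    · exact h1
  have hle2 : ε₁ / 2 ≤ ε₁ := by linarith
  refine ⟨ε₁ / 2, by linarith, ?_, fun ε' hε' => ?_⟩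
  · refine Metric.ball_disjoint_ball ?_
    have h1 := far0 1 h1m 0 (by omega)
    rw [zpow_zero_apply, dist_comm] at h1
    linarith
  obtain ⟨a, n, hn0, ha, hna, hint⟩ := W.exists_connect (hx 0 h0m).2.2 (hx 1 h1m).2.1
    (min ε' (ε₁ / 2)) (lt_min hε' (by linarith))
  refine ⟨a, h^[n] a, lt_of_lt_of_le ha (min_le_left _ _), lt_of_lt_of_le hna (min_le_left _ _),
    fun h' hag ha' hz' => ?_⟩
  have hag' : ∀ w, ε₁ / 2 ≤ dist (h w) (x 0) → ε₁ / 2 ≤ dist (h w) (x 1) → h' w = h w :=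
    fun w h1 h2 => hag w (by rw [Metric.mem_ball, not_lt]; exact h1)
      (by rw [Metric.mem_ball, not_lt]; exact h2)
  -- (B) the other connecting orbits
  have hB : ∀ i, 2 ≤ i → i < m → ∀ k : ℤ, (h' ^ k) (x i) = (h ^ k) (x i) := by
    intro i hi2 him
    refine zpow_eq_of_agree h h' (x i) fun k => hag' _ ?_ ?_
    · rw [apply_zpow]; exact hle2.trans (far0 i him _ (by omega))
    · rw [apply_zpow]; exact hle2.trans (far1 i him _ (by omega))
  -- (C) the periodic orbits
  have hC : ∀ i < m, ∀ q ∈ Orb h (p i), (∀ k : ℕ, h'^[k] q = h^[k] q) := by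
    intro i hi q hq k
    induction k with
    | zero => rfl
    | succ k ih =>
      rw [Function.iterate_succ_apply', Function.iterate_succ_apply', ih]
      have hmem : h (h^[k] q) ∈ Orb h (p i) := by
        have := mem_Orb_iterate hq (k + 1)
        rwa [Function.iterate_succ_apply'] at this
      exact hag' _ (hle2.trans ((hP i hi).2.1 _ hmem)) (hle2.trans ((hP i hi).2.2 _ hmem))
  have hC' : ∀ i ≤ m, ∀ k : ℕ, h'^[k] (p i) = h^[k] (p i) := by
    intro i hi
    rcases hi.lt_or_eq with hlt | rfl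
    · exact hC i hlt (p i) (mem_Orb_self _ _)
    · exact hC 0 h0m (p i) (by rw [← hpm]; exact mem_Orb_self _ _)
  have hOrb : ∀ i ≤ m, Orb h' (p i) = Orb h (p i) := by
    intro i hi
    unfold Orb
    congr 1
    funext k
    exact hC' i hi k
  have hper : ∀ i ≤ m, p i ∈ periodicPts h' := by
    intro i hi
    obtain ⟨k, hk0, hk⟩ := hp i
    refine ⟨k, hk0, ?_⟩
    change h'^[k] (p i) = p i
    rw [hC' i hi k]
    exact hk
  -- (D) the backward orbit of `a`
  have hD : ∀ k : ℕ, h'.symm^[k + 1] a = h.symm^[k + 1] (x 0) := by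
    intro k
    induction k with
    | zero =>
      rw [zero_add, Function.iterate_one, Function.iterate_one, ← ha', h'.symm_apply_apply]
    | succ k ih =>
      rw [Function.iterate_succ_apply', ih, Function.iterate_succ_apply' h.symm (k + 1)]
      apply h'.injective
      rw [h'.apply_symm_apply]
      have h1 : h (h.symm (h.symm^[k + 1] (x 0))) = h.symm^[k + 1] (x 0) := h.apply_symm_apply _
      have h2 : h.symm^[k + 1] (x 0) = (h ^ (-((k + 1 : ℕ) : ℤ))) (x 0) :=
        (zpow_neg_natCast_apply h (k + 1) (x 0)).symm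
      rw [hag', h1]
      · rw [h1, h2]; exact hle2.trans (far0 0 h0m _ (by omega))
      · rw [h1, h2]; exact hle2.trans (far1 0 h0m _ (by omega))
  have hDt : Tendsto (fun n : ℕ => h'.symm^[n] a) atTop (𝓝ˢ (Orb h (p 0))) := by
    refine (hx 0 h0m).2.1.congr' ?_
    filter_upwards [eventually_ge_atTop 1] with k hk
    obtain ⟨j, rfl⟩ := Nat.exists_eq_add_of_le' hk
    exact (hD j).symm
  -- (E) the forward orbit of `a`
  have hE1 : ∀ i < n, h'^[i] a = h^[i] a := by
    intro i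
    induction i with
    | zero => intro _; rfl
    | succ i ih =>
      intro hi
      rw [Function.iterate_succ_apply', ih (by omega), Function.iterate_succ_apply']
      have hnear : ∀ w, (∃ k : ℕ, 0 < k ∧ dist w (h^[k] (x 0)) < min ε' (ε₁ / 2)) ∨
          (∃ k : ℕ, 0 < k ∧ dist w (h.symm^[k] (x 1)) < min ε' (ε₁ / 2)) →
          ε₁ / 2 ≤ dist w (x 0) ∧ ε₁ / 2 ≤ dist w (x 1) := by
        intro w hw
        rcases hw with ⟨k, hk, hd⟩ | ⟨k, hk, hd⟩
        · have hd' := lt_of_lt_of_le hd (min_le_right _ _)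
          have f0 := far0 0 h0m (k : ℤ) (by omega)
          have f1 := far1 0 h0m (k : ℤ) (by omega)
          rw [zpow_natCast_apply] at f0 f1
          have t0 := dist_triangle_left (h^[k] (x 0)) (x 0) w
          have t1 := dist_triangle_left (h^[k] (x 0)) (x 1) w
          constructor <;> linarith
        · have hd' := lt_of_lt_of_le hd (min_le_right _ _)
          have f0 := far0 1 h1m (-(k : ℤ)) (by omega)
          have f1 := far1 1 h1m (-(k : ℤ)) (by omega)
          rw [zpow_neg_natCast_apply] at f0 f1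
          have t0 := dist_triangle_left (h.symm^[k] (x 1)) (x 0) w
          have t1 := dist_triangle_left (h.symm^[k] (x 1)) (x 1) w
          constructor <;> linarith
      have h1 := hnear _ (hint (i + 1) (by omega) hi)
      rw [Function.iterate_succ_apply'] at h1
      exact hag' _ h1.1 h1.2
  have hE2 : h'^[n] a = x 1 := by
    obtain ⟨j, rfl⟩ := Nat.exists_eq_add_of_le' (show 1 ≤ n from hn0)
    rw [Function.iterate_succ_apply', hE1 j (by omega)]
    rw [Function.iterate_succ_apply', h.symm_apply_apply] at hz'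
    exact hz'
  have hE3 : ∀ k : ℕ, h'^[k] (x 1) = h^[k] (x 1) := by
    intro k
    induction k with
    | zero => rfl
    | succ k ih =>
      rw [Function.iterate_succ_apply', ih, Function.iterate_succ_apply']
      have h2 : h (h^[k] (x 1)) = (h ^ ((k + 1 : ℕ) : ℤ)) (x 1) := by
        rw [zpow_natCast_apply, Function.iterate_succ_apply']
      refine hag' _ ?_ ?_
      · rw [h2]; exact hle2.trans (far0 1 h1m _ (by omega))
      · rw [h2]; exact hle2.trans (far1 1 h1m _ (by omega))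
  have hEt : Tendsto (fun n : ℕ => h'^[n] a) atTop (𝓝ˢ (Orb h (p 2))) := by
    rw [← tendsto_add_atTop_iff_nat n]
    refine (hx 1 h1m).2.2.congr fun k => ?_
    rw [Function.iterate_add_apply, hE2, hE3]
  -- (F) `a` is not periodic
  have hF : a ∉ periodicPts h' := by
    intro hper'
    have h1 : a ∈ Orb h'.symm (p 0) := by
      refine mem_Orb_of_tendsto h'.symm ?_ ?_ ?_
      · rw [symm_periodicPts]; exact hper 0 (by omega)
      · rw [symm_periodicPts]; exact hper'
      · rw [Orb_symm h' (hper 0 (by omega)), hOrb 0 (by omega)]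
        exact hDt
    rw [Orb_symm h' (hper 0 (by omega)), hOrb 0 (by omega)] at h1
    have h2 := (hP 0 h0m).2.1 a h1
    have h3 := lt_of_lt_of_le ha (min_le_right _ _)
    linarith
  -- the new cycle
  refine ⟨fun i => if i = 0 then p 0 else if i + 1 ≤ m then p (i + 1) else p 0,
    fun i => if i = 0 then a else x (i + 1), fun i => ?_, ?_, fun i hi => ?_⟩
  · by_cases hi0 : i = 0
    · simp only [hi0, if_true]; exact hper 0 (by omega)
    · by_cases him : i + 1 ≤ m
      · simp only [hi0, if_false, him, if_true]; exact hper (i + 1) him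
      · simp only [hi0, if_false, him]; exact hper 0 (by omega)
  · have h1 : ¬ (m - 1 = 0) := by omega
    have h2 : m - 1 + 1 ≤ m := by omega
    have h3 : m - 1 + 1 = m := by omega
    simp only [h1, if_false, h3, le_refl, if_true]
    rw [hOrb m le_rfl, hOrb 0 (by omega), hpm]
  · by_cases hi0 : i = 0
    · subst hi0
      simp only [if_true, zero_add, one_ne_zero, if_false, show 1 + 1 ≤ m by omega,
        show 1 + 1 = 2 from rfl]
      refine ⟨hF, ?_, ?_⟩
      · rw [hOrb 0 (by omega)]; exact hDt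
      · rw [hOrb 2 (by omega)]; exact hEt
    · have h1 : i + 1 ≤ m := by omega
      have h2 : i + 1 + 1 ≤ m := by omega
      simp only [hi0, if_false, h1, if_true, h2, Nat.add_eq_zero_iff, one_ne_zero, and_false]
      have hBi := hB (i + 1) (by omega) (by omega)
      refine ⟨?_, ?_, ?_⟩
      · rintro ⟨k, hk0, hk⟩
        have h3 : h'^[k] (x (i + 1)) = x (i + 1) := hk
        rw [← zpow_natCast_apply, hBi, zpow_natCast_apply] at h3
        exact (hx (i + 1) (by omega)).1 ⟨k, hk0, h3⟩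
      · rw [hOrb (i + 1) (by omega)]
        refine (hx (i + 1) (by omega)).2.1.congr fun k => ?_
        rw [← zpow_neg_natCast_apply, ← zpow_neg_natCast_apply, hBi]
      · rw [hOrb (i + 1 + 1) (by omega)]
        refine (hx (i + 1) (by omega)).2.2.congr fun k => ?_
        rw [← zpow_natCast_apply, ← zpow_natCast_apply, hBi]

end Top

section Man

variable {d : ℕ} {M : Type*} [MetricSpace M] [ChartedSpace (EE d) M] {r : ℕ∞}
  [CompactSpace M] [IsManifold (𝓡 d) ∞ M]

/-- Translations in a chart move nearby points to each other. -/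
theorem exists_moving_fam (q : M) (U : Set M) (hU : U ∈ 𝓝 q) :
    ∃ h : EE d → Dyn d M r, IsFam h ∧ (∀ v, ∀ x ∉ U, h v x = x) ∧
      ∀ s ∈ 𝓝 (0 : EE d), ∀ᶠ a in 𝓝 q, ∀ᶠ b in 𝓝 q, ∃ v ∈ s, h v a = b := by
  obtain ⟨h, hh, hsupp, W, hW, hform⟩ := exists_fam (d := d) (r := r) q U hU
  refine ⟨fun v => h (v, 0), ⟨hh.1, ?_⟩, fun v x hx => hsupp (v, 0) x hx, ?_⟩
  · obtain ⟨V, hV, hC⟩ := hh.2
    have hlin : Continuous (fun v : EE d => ((v, 0) : PP d)) := by fun_prop
    refine ⟨(fun v : EE d => ((v, 0) : PP d)) ⁻¹' V, hlin.continuousAt.preimage_mem_nhds hV, ?_⟩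
    have hsm : ContMDiff (𝓘(ℝ, EE d).prod (𝓡 d)) (𝓘(ℝ, PP d).prod (𝓡 d)) (r : ℕ∞ω)
        (fun q : EE d × M => (((q.1, 0) : PP d), q.2)) := by
      have h1 : ContMDiff 𝓘(ℝ, EE d) 𝓘(ℝ, PP d) (r : ℕ∞ω) (fun v : EE d => ((v, 0) : PP d)) :=
        (contDiff_id.prodMk contDiff_const).contMDiff
      exact (h1.comp contMDiff_fst).prodMk contMDiff_snd
    exact hC.comp hsm.contMDiffOn (fun q hq => ⟨hq.1, mem_univ _⟩)
  · intro s hs
    have hlin : Continuous (fun v : EE d => ((v, 0) : PP d)) := by fun_prop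
    have h1 : ∀ᶠ v in 𝓝 (0 : EE d), v ∈ s ∧ ∀ x ∈ W,
        h (v, 0) x ∈ (extChartAt (𝓡 d) q).source ∧
        extChartAt (𝓡 d) q (h (v, 0) x) = extChartAt (𝓡 d) q x + v := by
      have h2 := (hlin.tendsto (0 : EE d)).eventually (p := fun π : PP d => ∀ x ∈ W,
        h π x ∈ (extChartAt (𝓡 d) q).source ∧
        extChartAt (𝓡 d) q (h π x) = extChartAt (𝓡 d) q x + π.1 +
          π.2 (extChartAt (𝓡 d) q x - extChartAt (𝓡 d) q q)) hform
      filter_upwards [hs, h2] with v hv hv'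
      refine ⟨hv, fun x hx => ⟨(hv' x hx).1, ?_⟩⟩
      rw [(hv' x hx).2]
      simp
    obtain ⟨δ, hδ, hδ'⟩ := Metric.eventually_nhds_iff.1 h1
    have hcont : ContinuousAt (extChartAt (𝓡 d) q) q := continuousAt_extChartAt q
    have hnear : ∀ᶠ a in 𝓝 q, a ∈ W ∧ a ∈ (extChartAt (𝓡 d) q).source ∧
        dist (extChartAt (𝓡 d) q a) (extChartAt (𝓡 d) q q) < δ / 2 := by
      filter_upwards [hW, extChartAt_source_mem_nhds (I := 𝓡 d) q,
        hcont.eventually (Metric.ball_mem_nhds _ (show 0 < δ / 2 by linarith))] with a h3 h4 h5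
      exact ⟨h3, h4, h5⟩
    filter_upwards [hnear] with a ha
    filter_upwards [hnear] with b hb
    have hv : dist (extChartAt (𝓡 d) q b - extChartAt (𝓡 d) q a) 0 < δ := by
      rw [dist_zero_right, ← dist_eq_norm]
      have := dist_triangle_right (extChartAt (𝓡 d) q b) (extChartAt (𝓡 d) q a)
        (extChartAt (𝓡 d) q q)
      linarith [ha.2.2, hb.2.2]
    obtain ⟨h6, h7⟩ := hδ' hv
    refine ⟨_, h6, ?_⟩
    obtain ⟨h8, h9⟩ := h7 a ha.1
    apply (extChartAt (𝓡 d) q).injOn h8 hb.2.1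
    rw [h9]
    abel

/-- One step: a cycle of length at least two can be shortened by a small perturbation. -/
theorem exists_shorter_cycle {N : Set (Dyn d M r)} (hN : IsOpen[crTopology d M r] N)
    (hr : 1 ≤ r) (hhyp : ∀ g ∈ N, ∀ p ∈ periodicPts g, HypAt (d := d) g p)
    {g : Dyn d M r} (hg : g ∈ N) {m : ℕ} (hm : 2 ≤ m) (hcyc : HasCycle g.toHomeomorph m) :
    ∃ g' ∈ N, ∃ m', 0 < m' ∧ m' < m ∧ HasCycle (Diffeomorph.toHomeomorph g') m' := by
  obtain ⟨p, x, hp, hpm, hx⟩ := hcyc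
  by_cases hdist : ∀ i < m, ∀ j < m, i ≠ j → Orb g.toHomeomorph (p i) ≠ Orb g.toHomeomorph (p j)
  · have h1m : 1 < m := hm
    obtain ⟨W⟩ := exists_locModel hr g (p 1) (hhyp g hg (p 1) (hp 1))
    obtain ⟨ε, hε, hdisj, haux⟩ := shorten_aux g.toHomeomorph m hm p x hp hpm hx hdist W
    obtain ⟨h0, hh0, hs0, hm0⟩ := exists_moving_fam (d := d) (r := r) (x 0) _ (Metric.ball_mem_nhds (x 0) hε)
    obtain ⟨h1, hh1, hs1, hm1⟩ := exists_moving_fam (d := d) (r := r) (x 1) _ (Metric.ball_mem_nhds (x 1) hε)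
    have hten := (hh0.comp hh1).tendsto g
    have hNg : N ∈ @nhds _ (crTopology d M r) g := by
      let _ := crTopology d M r
      exact IsOpen.mem_nhds hN hg
    have hev : ∀ᶠ v : EE d × EE d in 𝓝 0, g.trans ((h0 v.1).trans (h1 v.2)) ∈ N :=
      hten.eventually hNg
    rw [show (0 : EE d × EE d) = (0, 0) from rfl, nhds_prod_eq] at hev
    obtain ⟨s0, hs0', s1, hs1', hprod⟩ := Filter.eventually_prod_iff.1 hev
    have e0 := (hm0 {v | s0 v} hs0').self_of_nhds
    have e1 := hm1 {v | s1 v} hs1'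
    obtain ⟨δ0, hδ0, hδ0'⟩ := Metric.eventually_nhds_iff.1 e0
    obtain ⟨δ1, hδ1, hδ1'⟩ := Metric.eventually_nhds_iff.1 e1
    obtain ⟨a, z, ha, hz, hfin⟩ := haux (min ε (min δ0 δ1)) (lt_min hε (lt_min hδ0 hδ1))
    obtain ⟨v0, hv0, hv0'⟩ := hδ0' (lt_of_lt_of_le ha ((min_le_right _ _).trans (min_le_left _ _)))
    obtain ⟨v1, hv1, hv1'⟩ :=
      (hδ1' (lt_of_lt_of_le hz ((min_le_right _ _).trans (min_le_right _ _)))).self_of_nhds
    refine ⟨g.trans ((h0 v0).trans (h1 v1)), hprod hv0 hv1, m - 1, by omega, by omega, ?_⟩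
    have haball : a ∈ Metric.ball (x 0) ε := lt_of_lt_of_le ha (min_le_left _ _)
    have hzball : z ∈ Metric.ball (x 1) ε := lt_of_lt_of_le hz (min_le_left _ _)
    refine hfin _ (fun w hw0 hw1 => ?_) ?_ ?_
    · change h1 v1 (h0 v0 (g w)) = g w
      have e2 : h0 v0 (g w) = g w := hs0 v0 _ hw0
      rw [e2]
      exact hs1 v1 _ hw1
    · change h1 v1 (h0 v0 (g (g.symm (x 0)))) = a
      rw [g.apply_symm_apply, hv0']
      exact hs1 v1 _ (Set.disjoint_left.1 hdisj haball)
    · change h1 v1 (h0 v0 (g (g.symm z))) = x 1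
      rw [g.apply_symm_apply, hs0 v0 _ (Set.disjoint_right.1 hdisj hzball)]
      exact hv1'
  · push Not at hdist
    obtain ⟨i, hi, j, hj, hij, heq⟩ := hdist
    have key : ∀ i j, i < j → j < m → Orb g.toHomeomorph (p i) = Orb g.toHomeomorph (p j) →
        ∃ m', 0 < m' ∧ m' < m ∧ HasCycle g.toHomeomorph m' := by
      intro i j hij hj heq
      refine ⟨j - i, by omega, by omega, fun k => p (i + k), fun k => x (i + k),
        fun k => hp _, ?_, fun k hk => ?_⟩
      · simp only [add_zero, show i + (j - i) = j by omega]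
        exact heq.symm
      · exact hx (i + k) (by omega)
    rcases lt_or_gt_of_ne hij with h1 | h1
    · obtain ⟨m', h2, h3, h4⟩ := key i j h1 hj heq
      exact ⟨g, hg, m', h2, h3, h4⟩
    · obtain ⟨m', h2, h3, h4⟩ := key j i h1 hi heq.symm
      exact ⟨g, hg, m', h2, h3, h4⟩

theorem exists_homoclinic {N : Set (Dyn d M r)} (hN : IsOpen[crTopology d M r] N)
    (hr : 1 ≤ r) (hhyp : ∀ g ∈ N, ∀ p ∈ periodicPts g, HypAt (d := d) g p)
    (m : ℕ) : ∀ g ∈ N, 0 < m → HasCycle (Diffeomorph.toHomeomorph g) m →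
    ∃ g' ∈ N, HasCycle (Diffeomorph.toHomeomorph g') 1 := by
  induction m using Nat.strong_induction_on with
  | _ m ih =>
    intro g hg hm hcyc
    by_cases h1 : m = 1
    · subst h1
      exact ⟨g, hg, hcyc⟩
    · obtain ⟨g', hg', m', hm', hlt, hcyc'⟩ :=
        exists_shorter_cycle hN hr hhyp hg (show 2 ≤ m by omega) hcyc
      exact ih m' hlt g' hg' hm' hcyc'

end Man

end Pool.Agent.OmegaStab

end
end

section

/-!
# Finiteness of the fixed points, part D: the Sard step
-/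

open Set Filter Topology Function MeasureTheory
open scoped Manifold ContDiff

noncomputable section

namespace Pool.Agent.OmegaStab

namespace FiniteFix

variable {d : ℕ} {M : Type*} [MetricSpace M] [ChartedSpace (EE d) M] {r : ℕ∞}
  [IsManifold (𝓡 d) ∞ M]

/-- The points of `B` do not return to `B` before time `n`. -/
def Disj (g : M → M) (n : ℕ) (B : Set M) : Prop :=
  ∀ x ∈ B, ∀ j : ℕ, 0 < j → j < n → g^[j] x ∉ B

omit [IsManifold (𝓡 d) ∞ M] in
theorem eventually_disj {V : Type*} [NormedAddCommGroup V] [NormedSpace ℝ V] {h : V → Dyn d M r}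
    (hh : IsFam h) (g : Dyn d M r) (n : ℕ) {B : Set M} (hB : IsCompact B) (hd : Disj g n B) :
    ∀ᶠ v in 𝓝 (0 : V), Disj (g.trans (h v)) n B := by
  have h1 : ∀ j ∈ Finset.range n, ∀ᶠ v in 𝓝 (0 : V), 0 < j → ∀ x ∈ B,
      (g.trans (h v))^[j] x ∈ Bᶜ := by
    intro j hj
    by_cases hj0 : 0 < j
    · have := eventually_iterate_mem hh g j hB hB.isClosed.isOpen_compl
        (fun x hx => hd x hx j hj0 (Finset.mem_range.mp hj))
      filter_upwards [this] with v hv _
      exact hv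
    · exact Eventually.of_forall fun v h0 => absurd h0 hj0
  have h2 := (Filter.eventually_all_finset (Finset.range n)).mpr h1
  filter_upwards [h2] with v hv x hx j hj0 hj
  exact hv j (Finset.mem_range.mpr hj) hj0 x hx

omit [MetricSpace M] [ChartedSpace (EE d) M] [IsManifold (𝓡 d) ∞ M] in
/-- If the perturbation is supported in `B` and `x` does not visit `B` at the times
`0 < j < n`, the perturbed orbit only changes at time `n`. -/
theorem iterate_trans_eq {g k : M → M} {B : Set M} (hk : ∀ x ∉ B, k x = x) {n : ℕ} {x : M}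
    (hx : ∀ j : ℕ, 0 < j → j < n → g^[j] x ∉ B) :
    ∀ j : ℕ, j < n → (k ∘ g)^[j] x = g^[j] x := by
  intro j
  induction j with
  | zero => intro _; rfl
  | succ j ih =>
    intro hj
    rw [Function.iterate_succ_apply', ih (by omega), Function.comp_apply,
      ← Function.iterate_succ_apply' g]
    exact hk _ (hx (j + 1) (by omega) hj)

omit [MetricSpace M] [ChartedSpace (EE d) M] [IsManifold (𝓡 d) ∞ M] in
theorem iterate_trans_eq' {g k : M → M} {B : Set M} (hk : ∀ x ∉ B, k x = x) {n : ℕ}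
    (hn : 0 < n) {x : M} (hx : ∀ j : ℕ, 0 < j → j < n → g^[j] x ∉ B) :
    (k ∘ g)^[n] x = k (g^[n] x) := by
  obtain ⟨m, rfl⟩ : ∃ m, n = m + 1 := ⟨n - 1, by omega⟩
  rw [Function.iterate_succ_apply', iterate_trans_eq hk hx m (by omega), Function.comp_apply,
    ← Function.iterate_succ_apply' g]

/-- **Sard step.** -/
theorem sard_step [CompactSpace M] (hr : 1 ≤ r) {q : M} {B W W' : Set M} {k : EE d → Dyn d M r}
    (hk : IsFam k) (hsupp : ∀ v, ∀ x ∉ B, k v x = x)
    (hWq : W ⊆ (extChartAt (𝓡 d) q).source)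
    (htr : ∀ᶠ v in 𝓝 (0 : EE d), ∀ x ∈ W,
      extChartAt (𝓡 d) q (k v x) = extChartAt (𝓡 d) q x + v)
    (hW' : IsCompact W') (hW'W : W' ⊆ interior W) (hW'B : W' ⊆ interior B)
    (g : Dyn d M r) {n : ℕ} (hn : 0 < n) (hd : Disj g n B) :
    ∃ Z : Set (EE d), volume Z = 0 ∧
      ∀ᶠ v in 𝓝 (0 : EE d), v ∉ Z → Good (d := d) q W' ((g.trans (k v))^[n]) := by
  classical
  set G : M → M := g^[n] with hG
  have hGs : ContMDiff (𝓡 d) (𝓡 d) (r : ℕ∞ω) G := iterate_contMDiff g n
  set S : EE d → EE d := fun u => u - inCharts (d := d) q q G u with hS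
  set A : Set (EE d) := {u | ∃ y, y ∈ (extChartAt (𝓡 d) q).source ∧
    G y ∈ (extChartAt (𝓡 d) q).source ∧ u = extChartAt (𝓡 d) q y ∧
    (1 - chartD (d := d) q G y).det = 0} with hA
  refine ⟨S '' A, ?_, ?_⟩
  · refine addHaar_image_eq_zero_of_det_fderivWithin_eq_zero volume
      (f' := fun u => 1 - fderiv ℝ (inCharts (d := d) q q G) u) ?_ ?_
    · rintro u ⟨y, hy, hGy, rfl, -⟩
      exact ((hasFDerivAt_id _).sub
        (hasStrictFDerivAt_inCharts hr hGs hy hGy).hasFDerivAt).hasFDerivWithinAt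
    · rintro u ⟨y, hy, hGy, rfl, hdet⟩
      exact hdet
  · have h1 : ∀ᶠ v in 𝓝 (0 : EE d), ∀ x ∈ (interior W)ᶜ,
        ((Diffeomorph.refl (𝓡 d) M (r : ℕ∞ω)).trans (k v))^[1] x ∈ W'ᶜ := by
      refine eventually_iterate_mem hk (Diffeomorph.refl (𝓡 d) M (r : ℕ∞ω)) 1
        isOpen_interior.isClosed_compl.isCompact hW'.isClosed.isOpen_compl ?_
      intro x hx hxW'
      exact hx (hW'W hxW')
    filter_upwards [htr, h1] with v hv1 hv2 hvZ y hy hfix
    have hcoe : ((g.trans (k v) : Dyn d M r) : M → M) = (k v) ∘ g := rfl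
    have hyB : y ∈ B := interior_subset (hW'B hy)
    have hyq : y ∈ (extChartAt (𝓡 d) q).source := hWq (interior_subset (hW'W hy))
    have h2 : ∀ y' ∈ B, (g.trans (k v))^[n] y' = k v (G y') := by
      intro y' hy'
      rw [hcoe]
      exact iterate_trans_eq' (hsupp v) hn (hd y' hy')
    have h3 : k v (G y) = y := by rw [← h2 y hyB]; exact hfix
    have h4 : G y ∈ interior W := by
      by_contra hcon
      have h5 := hv2 (G y) hcon
      apply h5
      have h6 : ((Diffeomorph.refl (𝓡 d) M (r : ℕ∞ω)).trans (k v))^[1] (G y) = k v (G y) := rfl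
      rw [h6, h3]
      exact hy
    have hGyq : G y ∈ (extChartAt (𝓡 d) q).source := hWq (interior_subset h4)
    have h5 : S (extChartAt (𝓡 d) q y) = v := by
      simp only [hS]
      rw [inCharts_apply hyq]
      have := hv1 (G y) (interior_subset h4)
      rw [h3] at this
      rw [this]
      abel
    have h6 : chartD (d := d) q ((g.trans (k v))^[n]) y = chartD (d := d) q G y := by
      unfold chartD
      have h7 : inCharts (d := d) q q ((g.trans (k v))^[n]) =ᶠ[𝓝 (extChartAt (𝓡 d) q y)]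
          fun u => inCharts (d := d) q q G u + v := by
        have h8 : Tendsto (extChartAt (𝓡 d) q).symm (𝓝 (extChartAt (𝓡 d) q y)) (𝓝 y) := by
          have := (continuousAt_extChartAt_symm' (I := 𝓡 d) hyq)
          unfold ContinuousAt at this
          rwa [(extChartAt (𝓡 d) q).left_inv hyq] at this
        have h9 : ∀ᶠ z in 𝓝 y, z ∈ B ∧ G z ∈ W := by
          have a1 : B ∈ 𝓝 y := mem_interior_iff_mem_nhds.mp (hW'B hy)
          have a2 : W ∈ 𝓝 (G y) := mem_interior_iff_mem_nhds.mp h4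
          exact Filter.Eventually.and a1 (hGs.continuous.continuousAt a2)
        filter_upwards [h8.eventually h9] with u hu
        simp only [inCharts]
        rw [h2 _ hu.1, hv1 _ hu.2]
      rw [h7.fderiv_eq, fderiv_add_const]
    rw [h6]
    intro hdet
    exact hvZ ⟨extChartAt (𝓡 d) q y, ⟨y, hyq, hGyq, rfl, hdet⟩, h5⟩

/-- A null set can be avoided. -/
theorem exists_notMem_of_null {P : EE d → Prop} (hP : ∀ᶠ v in 𝓝 (0 : EE d), P v)
    {Z : Set (EE d)} (hZ : volume Z = 0) : ∃ v, P v ∧ v ∉ Z := by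
  by_contra hcon
  push Not at hcon
  have h1 : 0 < volume {v | P v} := Measure.measure_pos_of_mem_nhds volume hP
  have h2 : volume {v | P v} ≤ volume Z := measure_mono fun v hv => hcon v hv
  rw [hZ] at h2
  exact absurd h1 (not_lt.mpr h2)

end FiniteFix

end Pool.Agent.OmegaStab

end
end

section

/-!
# Finiteness of the fixed points, part E: making the points of lower period nondegenerate
-/

open Set Filter Topology Function MeasureTheory
open scoped Manifold ContDiff

noncomputable section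

namespace Pool.Agent.OmegaStab

namespace FiniteFix

variable {d : ℕ} {M : Type*} [MetricSpace M] [ChartedSpace (EE d) M] {r : ℕ∞}
  [IsManifold (𝓡 d) ∞ M]

theorem one_le_ne_zero (hr : 1 ≤ r) : (r : ℕ∞ω) ≠ 0 := by
  intro h0
  have : r = 0 := by exact_mod_cast h0
  rw [this] at hr
  exact absurd hr (by decide)

omit [IsManifold (𝓡 d) ∞ M] in
theorem tendsto_extChartAt_symm {q y : M} (hy : y ∈ (extChartAt (𝓡 d) q).source) :
    Tendsto (extChartAt (𝓡 d) q).symm (𝓝 (extChartAt (𝓡 d) q y)) (𝓝 y) := by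
  have := (continuousAt_extChartAt_symm' (I := 𝓡 d) hy)
  unfold ContinuousAt at this
  rwa [(extChartAt (𝓡 d) q).left_inv hy] at this

theorem chartD_iterate (hr : 1 ≤ r) {F : M → M} (hF : ContMDiff (𝓡 d) (𝓡 d) (r : ℕ∞ω) F) {p : M}
    (hp : F p = p) (l : ℕ) : chartD (d := d) p (F^[l]) p = (chartD (d := d) p F p) ^ l := by
  have hps : p ∈ (extChartAt (𝓡 d) p).source := mem_extChartAt_source p
  have hpl : ∀ l, F^[l] p = p := fun l => Function.iterate_fixed hp l
  induction l with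
  | zero =>
    rw [pow_zero]
    have h1 : inCharts (d := d) p p (F^[0]) =ᶠ[𝓝 (extChartAt (𝓡 d) p p)] id := by
      filter_upwards [extChartAt_target_mem_nhds (I := 𝓡 d) p] with u hu
      simp only [inCharts, Function.iterate_zero, id]
      exact (extChartAt (𝓡 d) p).right_inv hu
    unfold chartD
    rw [h1.fderiv_eq, fderiv_id]
    rfl
  | succ l ih =>
    have h1 : inCharts (d := d) p p (F^[l + 1]) =ᶠ[𝓝 (extChartAt (𝓡 d) p p)]
        inCharts (d := d) p p F ∘ inCharts (d := d) p p (F^[l]) := by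
      have h2 : chartDom (d := d) p p (F^[l]) ∈ 𝓝 (extChartAt (𝓡 d) p p) :=
        (isOpen_chartDom p p (hF.continuous.iterate l)).mem_nhds
          (mem_chartDom hps (by rw [hpl]; exact hps))
      filter_upwards [h2] with u hu
      rw [Function.comp_apply, inCharts_comp hu, ← Function.iterate_succ']
    have h2 : inCharts (d := d) p p (F^[l]) (extChartAt (𝓡 d) p p) = extChartAt (𝓡 d) p p := by
      rw [inCharts_apply hps, hpl]
    have h3 : HasFDerivAt (inCharts (d := d) p p (F^[l])) (chartD p (F^[l]) p)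
        (extChartAt (𝓡 d) p p) :=
      (hasStrictFDerivAt_inCharts hr (contMDiff_iterate hF l) hps
        (by rw [hpl]; exact hps)).hasFDerivAt
    have h4 : HasFDerivAt (inCharts (d := d) p p F) (chartD p F p)
        (inCharts (d := d) p p (F^[l]) (extChartAt (𝓡 d) p p)) := by
      rw [h2]
      exact (hasStrictFDerivAt_inCharts hr hF hps (by rw [hp]; exact hps)).hasFDerivAt
    have h5 := h4.comp _ h3
    have h6 : chartD (d := d) p (F^[l + 1]) p =
        (chartD (d := d) p F p) ∘L (chartD (d := d) p (F^[l]) p) := by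
      rw [← h5.fderiv, ← h1.fderiv_eq]
      rfl
    rw [h6, ih, pow_succ']
    rfl

/-- scaling the derivative -/
theorem chartD_scale (hr : 1 ≤ r) {F k : M → M} (hF : ContMDiff (𝓡 d) (𝓡 d) (r : ℕ∞ω) F) {p : M}
    (hp : F p = p) {W : Set M} (hW : W ∈ 𝓝 p) {t : ℝ}
    (hk : ∀ x ∈ W, extChartAt (𝓡 d) p (k x) = extChartAt (𝓡 d) p x +
      t • (extChartAt (𝓡 d) p x - extChartAt (𝓡 d) p p)) {H : M → M}
    (hH : ∀ᶠ y in 𝓝 p, H y = k (F y)) :
    chartD (d := d) p H p = (1 + t) • chartD (d := d) p F p := by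
  have hps : p ∈ (extChartAt (𝓡 d) p).source := mem_extChartAt_source p
  have h1 : HasFDerivAt (inCharts (d := d) p p F) (chartD p F p) (extChartAt (𝓡 d) p p) :=
    (hasStrictFDerivAt_inCharts hr hF hps (by rw [hp]; exact hps)).hasFDerivAt
  have h2 : inCharts (d := d) p p H =ᶠ[𝓝 (extChartAt (𝓡 d) p p)]
      fun u => inCharts (d := d) p p F u +
        t • (inCharts (d := d) p p F u - extChartAt (𝓡 d) p p) := by
    have h3 : ∀ᶠ y in 𝓝 p, H y = k (F y) ∧ F y ∈ W := by
      refine hH.and ?_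
      exact hF.continuous.continuousAt (by rw [hp]; exact hW)
    filter_upwards [(tendsto_extChartAt_symm hps).eventually h3] with u hu
    simp only [inCharts]
    rw [hu.1, hk _ hu.2]
  have h3 := h1.add ((h1.sub_const (extChartAt (𝓡 d) p p)).const_smul t)
  unfold chartD at h3 ⊢
  rw [h2.fderiv_eq]
  refine h3.fderiv.trans ?_
  generalize fderiv ℝ (inCharts p p F) (extChartAt (𝓡 d) p p) = A
  ext1 v
  simp only [add_apply, smul_apply]
  module

theorem eventually_det_ne_zero (D : EE d →L[ℝ] EE d) {l : ℕ} (hl : 0 < l) :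
    ∀ᶠ t : ℝ in 𝓝[≠] 0, (1 - (1 + t) ^ l • D).det ≠ 0 := by
  have hfin := Module.End.finite_hasEigenvalue (D : EE d →ₗ[ℝ] EE d)
  have h1 : ∀ᶠ μ : ℝ in 𝓝[≠] 1, ¬ Module.End.HasEigenvalue (D : EE d →ₗ[ℝ] EE d) μ := by
    have h2 : ({μ | Module.End.HasEigenvalue (D : EE d →ₗ[ℝ] EE d) μ} \ {1})ᶜ ∈ 𝓝 (1 : ℝ) := by
      refine (hfin.subset sdiff_subset).isClosed.isOpen_compl.mem_nhds ?_
      simp
    filter_upwards [nhdsWithin_le_nhds h2, self_mem_nhdsWithin] with μ hμ hμ1 hcon
    exact hμ ⟨hcon, hμ1⟩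
  have h2 : Tendsto (fun t : ℝ => ((1 + t) ^ l)⁻¹) (𝓝[≠] 0) (𝓝[≠] 1) := by
    rw [tendsto_nhdsWithin_iff]
    constructor
    · have h3 : ContinuousAt (fun t : ℝ => ((1 + t) ^ l)⁻¹) 0 := by
        refine ContinuousAt.inv₀ (by fun_prop) (by norm_num)
      have h4 : Tendsto (fun t : ℝ => ((1 + t) ^ l)⁻¹) (𝓝 0) (𝓝 1) := by
        unfold ContinuousAt at h3
        simpa using h3
      exact h4.mono_left nhdsWithin_le_nhds
    · have h3 : ∀ᶠ t : ℝ in 𝓝[≠] 0, -1 < t :=
        nhdsWithin_le_nhds (lt_mem_nhds (by norm_num))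
      filter_upwards [h3, self_mem_nhdsWithin] with t ht ht0 hcon
      apply ht0
      have h5 : (1 + t) ^ l = 1 := by
        have : ((1 + t) ^ l)⁻¹ = 1 := hcon
        exact inv_eq_one.mp this
      have h6 : 1 + t = 1 := (pow_eq_one_iff_of_nonneg (by linarith) hl.ne').mp h5
      show t = 0
      linarith
  have h3 : ∀ᶠ t : ℝ in 𝓝[≠] 0, -1 < t := nhdsWithin_le_nhds (lt_mem_nhds (by norm_num))
  filter_upwards [h2.eventually h1, h3] with t ht ht1 hdet
  apply ht
  have hs : (1 + t) ^ l ≠ 0 := pow_ne_zero _ (by linarith)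
  have h4 : LinearMap.ker ((1 - (1 + t) ^ l • D : EE d →L[ℝ] EE d) : EE d →ₗ[ℝ] EE d) ≠ ⊥ :=
    LinearMap.det_eq_zero_iff_ker_ne_bot.mp hdet
  obtain ⟨v, hv, hv0⟩ := Submodule.exists_mem_ne_zero_of_ne_bot h4
  have h5 : v = (1 + t) ^ l • D v := by
    have : (1 - (1 + t) ^ l • D : EE d →L[ℝ] EE d) v = 0 := hv
    simpa [sub_eq_zero] using this
  refine Module.End.hasEigenvalue_of_hasEigenvector (x := v) ⟨?_, hv0⟩
  rw [Module.End.mem_eigenspace_iff]
  show D v = ((1 + t) ^ l)⁻¹ • v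
  conv_rhs => rw [h5]
  rw [smul_smul, inv_mul_cancel₀ hs, one_smul]

end FiniteFix

end Pool.Agent.OmegaStab

end
end

section

/-!
# A homoclinic point gives, after a small perturbation, a non-periodic recurrent point
-/

open Set Filter Topology Function
open scoped Manifold ContDiff

noncomputable section

namespace Pool.Agent.OmegaStab

section Coding

variable {M : Type*} [TopologicalSpace M] [CompactSpace M] [T2Space M]

/-- From orbits with arbitrary return times to a recurrent point. `A` is the set before the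
excursion, `B` the set after it; the passage from `B` to `A` takes time `m * (n₀ + t)`, `t = 0, 1`,
the excursion from `A` to `B` takes time `l`. -/
theorem exists_recurrent_of_passages (f : M → M) (hf : Continuous f) (A B : Set M)
    (hA : IsClosed A) (hB : IsClosed B) (m n₀ l : ℕ) (hl : 0 < l)
    (hAA : ∀ z ∈ A, f^[m] z ∉ A)
    (hall : ∀ τ : ℕ → Bool, ∃ w : ℕ → M, ∀ j, w j ∈ B ∧ f^[m * (n₀ + (τ j).toNat)] (w j) ∈ A ∧
      w (j + 1) = f^[l] (f^[m * (n₀ + (τ j).toNat)] (w j))) :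
    ∃ y, Recurrent f y ∧ y ∉ periodicPts f := by
  -- the compact space of itineraries
  let S : Set ((ℕ → M) × (ℕ → Bool)) := {q | ∀ j, q.1 j ∈ B ∧
    f^[m * (n₀ + (q.2 j).toNat)] (q.1 j) ∈ A ∧
      q.1 (j + 1) = f^[l] (f^[m * (n₀ + (q.2 j).toNat)] (q.1 j))}
  have hcont : ∀ j, Continuous (fun q : (ℕ → M) × (ℕ → Bool) =>
      f^[m * (n₀ + (q.2 j).toNat)] (q.1 j)) := by
    intro j
    have h1 : Continuous (fun q : M × Bool => f^[m * (n₀ + q.2.toNat)] q.1) := by
      refine continuous_prod_of_discrete_right.2 fun b => ?_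
      change Continuous fun x => f^[m * (n₀ + b.toNat)] x
      exact hf.iterate _
    have h2 : Continuous (fun q : (ℕ → M) × (ℕ → Bool) => (q.1 j, q.2 j)) :=
      ((continuous_apply j).comp continuous_fst).prodMk
        ((continuous_apply j).comp continuous_snd)
    exact h1.comp h2
  have hSc : IsClosed S := by
    have h1 : S = ⋂ j, ({q | q.1 j ∈ B} ∩ ({q | f^[m * (n₀ + (q.2 j).toNat)] (q.1 j) ∈ A} ∩
        {q : (ℕ → M) × (ℕ → Bool) |
          q.1 (j + 1) = f^[l] (f^[m * (n₀ + (q.2 j).toNat)] (q.1 j))})) := by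
      ext q
      simp only [S, mem_ofPred_eq, mem_iInter, mem_inter_iff]
    rw [h1]
    refine isClosed_iInter fun j => ?_
    refine (hB.preimage ((continuous_apply j).comp continuous_fst)).inter
      ((hA.preimage (hcont j)).inter ?_)
    exact isClosed_eq ((continuous_apply (j + 1)).comp continuous_fst)
      ((hf.iterate l).comp (hcont j))
  let sh : ((ℕ → M) × (ℕ → Bool)) → ((ℕ → M) × (ℕ → Bool)) :=
    fun q => (fun j => q.1 (j + 1), fun j => q.2 (j + 1))
  have hshc : Continuous sh := by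
    refine Continuous.prodMk ?_ ?_
    · exact continuous_pi fun j => (continuous_apply (j + 1)).comp continuous_fst
    · exact continuous_pi fun j => (continuous_apply (j + 1)).comp continuous_snd
  have hshS : ∀ q ∈ S, sh q ∈ S := fun q hq j => hq (j + 1)
  have hsh_iter : ∀ (n : ℕ) (q), sh^[n] q = (fun j => q.1 (j + n), fun j => q.2 (j + n)) := by
    intro n
    induction n with
    | zero => intro q; rfl
    | succ n ih =>
      intro q
      rw [Function.iterate_succ_apply, ih]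
      simp only [sh, add_assoc]
  have : CompactSpace S := isCompact_iff_compactSpace.1 hSc.isCompact
  let R : S → S := fun q => ⟨sh q.1, hshS q.1 q.2⟩
  have hR : Continuous R := (hshc.comp continuous_subtype_val).subtype_mk _
  have hRiter : ∀ (n : ℕ) (q : S), ((R^[n] q : S) : (ℕ → M) × (ℕ → Bool)) = sh^[n] q.1 := by
    intro n
    induction n with
    | zero => intro q; rfl
    | succ n ih =>
      intro q
      rw [Function.iterate_succ_apply, ih, Function.iterate_succ_apply]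
  let c : S → Bool := fun q => q.1.2 0
  have hc : Continuous c :=
    (continuous_apply 0).comp (continuous_snd.comp continuous_subtype_val)
  obtain ⟨y, hyrec, hyper⟩ := exists_recurrent_of_coding R hR c hc (by
    intro τ
    obtain ⟨w, hw⟩ := hall τ
    refine ⟨⟨(w, τ), hw⟩, fun n => ?_⟩
    change (R^[n] _ : S).1.2 0 = τ n
    rw [hRiter, hsh_iter]
    simp)
  -- the base point
  set w : ℕ → M := y.1.1 with hw
  set τ : ℕ → Bool := y.1.2 with hτ
  have hyS : ∀ j, w j ∈ B ∧ f^[m * (n₀ + (τ j).toNat)] (w j) ∈ A ∧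
      w (j + 1) = f^[l] (f^[m * (n₀ + (τ j).toNat)] (w j)) := y.2
  -- the times
  let t : ℕ → ℕ := fun j => ∑ i ∈ Finset.range j, (l + m * (n₀ + (τ i).toNat))
  have ht : ∀ j, f^[t j] (w 0) = w j := by
    intro j
    induction j with
    | zero => simp [t]
    | succ j ih =>
      rw [(hyS j).2.2]
      simp only [t, Finset.sum_range_succ]
      rw [add_comm, Function.iterate_add_apply]
      change f^[l + m * (n₀ + (τ j).toNat)] (f^[t j] (w 0)) = _
      rw [ih, Function.iterate_add_apply]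
  have htj : ∀ j, j ≤ t j := by
    intro j
    induction j with
    | zero => simp
    | succ j ih =>
      have h1 : t (j + 1) = t j + (l + m * (n₀ + (τ j).toNat)) := Finset.sum_range_succ _ _
      omega
  have htt : Tendsto t atTop atTop := tendsto_atTop_mono htj tendsto_id
  -- recurrence of the coordinates
  have hrec' : MapClusterPt (w 0) atTop (fun n : ℕ => w n) := by
    have h1 : Continuous (fun q : S => q.1.1 0) :=
      (continuous_apply 0).comp (continuous_fst.comp continuous_subtype_val)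
    have h2 : MapClusterPt ((fun q : S => q.1.1 0) y) atTop
        ((fun q : S => q.1.1 0) ∘ (fun n : ℕ => R^[n] y)) :=
      MapClusterPt.continuousAt_comp h1.continuousAt hyrec
    have h3 : (fun q : S => q.1.1 0) ∘ (fun n : ℕ => R^[n] y) = fun n : ℕ => w n := by
      funext n
      change (R^[n] y : S).1.1 0 = w n
      rw [hRiter, hsh_iter]
      simp [hw]
    rw [h3] at h2
    exact h2
  refine ⟨w 0, ?_, fun hper => hyper ?_⟩
  · have h1 : MapClusterPt (w 0) atTop (fun n : ℕ => f^[t n] (w 0)) := by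
      simpa only [ht] using hrec'
    exact MapClusterPt.of_comp htt h1
  · -- if `w 0` is `f`-periodic then `y` is `R`-periodic
    have hfin : (Orb f (w 0)).Finite := Orb_finite hper
    have hopen : ∃ n : ℕ, 0 < n ∧ w n = w 0 := by
      have hU : (Orb f (w 0) \ {w 0})ᶜ ∈ 𝓝 (w 0) := by
        refine (hfin.subset sdiff_subset).isClosed.isOpen_compl.mem_nhds ?_
        simp
      have h1 := (hrec'.frequently hU).and_eventually (eventually_gt_atTop 0)
      obtain ⟨n, hn1, hn2⟩ := h1.exists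
      refine ⟨n, hn2, ?_⟩
      by_contra hne
      exact hn1 ⟨⟨t n, ht n⟩, hne⟩
    obtain ⟨n, hn0, hn⟩ := hopen
    have hdet : ∀ i j, w i = w j → τ i = τ j := by
      intro i j hij
      have h1 : ∀ i j, w i = w j → τ i = false → τ j = true → False := by
        intro i j hij hi hj
        have e1 := (hyS i).2.1
        have e2 := (hyS j).2.1
        rw [hi, hij] at e1
        rw [hj] at e2
        simp only [Bool.toNat_false, add_zero, Bool.toNat_true] at e1 e2
        apply hAA _ e1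
        rw [← Function.iterate_add_apply, show m + m * n₀ = m * (n₀ + 1) by ring]
        exact e2
      rcases hi : τ i with _ | _ <;> rcases hj : τ j with _ | _
      · rfl
      · exact (h1 i j hij hi hj).elim
      · exact (h1 j i hij.symm hj hi).elim
      · rfl
    have hshift : ∀ j, w (j + n) = w j := by
      intro j
      induction j with
      | zero => simpa using hn
      | succ j ih =>
        rw [show j + 1 + n = (j + n) + 1 by ring, (hyS (j + n)).2.2, ih, hdet _ _ ih]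
        exact (hyS j).2.2.symm
    refine ⟨n, hn0, ?_⟩
    change R^[n] y = y
    apply Subtype.ext
    rw [hRiter, hsh_iter]
    refine Prod.ext ?_ ?_
    · funext j; exact hshift j
    · funext j; exact hdet _ _ (hshift j)

end Coding

section Agree

variable {M : Type*}

theorem iterate_eq_of_agree {h h' : M → M} {y : M} (n : ℕ)
    (hag : ∀ j < n, h' (h^[j] y) = h (h^[j] y)) : ∀ j ≤ n, h'^[j] y = h^[j] y := by
  intro j
  induction j with
  | zero => intro _; rfl
  | succ j ih =>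
    intro hj
    rw [Function.iterate_succ_apply', ih (by omega), Function.iterate_succ_apply']
    exact hag j (by omega)

theorem eventually_iterate_eq [TopologicalSpace M] {h h' : M → M} (hc : Continuous h) {C : Set M}
    (hC : IsClosed C) (hag : ∀ w, h w ∉ C → h' w = h w) (z : M) (n : ℕ)
    (hz : ∀ j, 1 ≤ j → j ≤ n → h^[j] z ∉ C) : ∀ᶠ y in 𝓝 z, h'^[n] y = h^[n] y := by
  have h1 : ∀ j ∈ Finset.range n, ∀ᶠ y in 𝓝 z, h^[j + 1] y ∉ C := by
    intro j hj
    rw [Finset.mem_range] at hj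
    have h2 : Cᶜ ∈ 𝓝 (h^[j + 1] z) := hC.isOpen_compl.mem_nhds (hz (j + 1) (by omega) (by omega))
    exact (hc.iterate (j + 1)).continuousAt.eventually h2
  have h2 := (Finset.eventually_all (Finset.range n)).2 h1
  filter_upwards [h2] with y hy
  refine iterate_eq_of_agree n (fun j hj => hag _ ?_) n le_rfl
  have := hy j (Finset.mem_range.2 hj)
  rwa [Function.iterate_succ_apply'] at this

end Agree

section Man

variable {d : ℕ} {M : Type*} [MetricSpace M] [ChartedSpace (EE d) M] {r : ℕ∞}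
  [CompactSpace M] [IsManifold (𝓡 d) ∞ M]

omit [CompactSpace M] in
theorem contDiffAt_inCharts_iterate (hr : 1 ≤ r) (g : Dyn d M r) (n : ℕ) (p q z : M)
    (hz : z ∈ (extChartAt (𝓡 d) p).source) (hgz : g^[n] z ∈ (extChartAt (𝓡 d) q).source) :
    ContDiffAt ℝ 1 (inCharts (d := d) p q g^[n]) (extChartAt (𝓡 d) p z) := by
  have hC := contDiffOn_inCharts (r := r) (contMDiff_iterate g.contMDiff n) p q
  have hC' := hC.contDiffAt ((isOpen_chartDom p q (g.continuous.iterate n)).mem_nhds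
    (mem_chartDom hz hgz))
  exact hC'.of_le (by exact_mod_cast hr)

omit [CompactSpace M] in
theorem fderiv_inCharts_injective (hr : 1 ≤ r) (g : Dyn d M r) (n : ℕ) (p q z : M)
    (hz : z ∈ (extChartAt (𝓡 d) p).source) (hgz : g^[n] z ∈ (extChartAt (𝓡 d) q).source) :
    Injective (fderiv ℝ (inCharts (d := d) p q g^[n]) (extChartAt (𝓡 d) p z)) := by
  have hsz : g.symm^[n] (g^[n] z) = z := symm_iterate_iterate g.toHomeomorph n z
  have h1 := contDiffAt_inCharts_iterate hr g n p q z hz hgz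
  have h2 := contDiffAt_inCharts_iterate hr g.symm n q p (g^[n] z) hgz (by rw [hsz]; exact hz)
  have hval : inCharts (d := d) p q g^[n] (extChartAt (𝓡 d) p z) =
      extChartAt (𝓡 d) q (g^[n] z) := inCharts_apply hz
  have h3 : (inCharts (d := d) q p g.symm^[n]) ∘ (inCharts (d := d) p q g^[n])
      =ᶠ[𝓝 (extChartAt (𝓡 d) p z)] id := by
    filter_upwards [(isOpen_chartDom p q (g.continuous.iterate n)).mem_nhds
      (mem_chartDom hz hgz)] with u hu
    rw [Function.comp_apply, inCharts_comp hu]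
    simp only [inCharts, Function.comp_apply, id]
    have h4 : g.symm^[n] (g^[n] ((extChartAt (𝓡 d) p).symm u)) = (extChartAt (𝓡 d) p).symm u :=
      symm_iterate_iterate g.toHomeomorph n _
    rw [h4, (extChartAt (𝓡 d) p).right_inv hu.1]
  have hd1 := (h1.differentiableAt (by norm_num)).hasFDerivAt
  have hd2 := (h2.differentiableAt (by norm_num)).hasFDerivAt
  rw [← hval] at hd2
  have h5 := hd2.comp _ hd1
  have h6 := h5.congr_of_eventuallyEq h3.symm
  have h7 := h6.unique (hasFDerivAt_id _)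
  intro v w hvw
  have h8 := congrArg (fun L => L v) h7
  have h9 := congrArg (fun L => L w) h7
  simp only [ContinuousLinearMap.comp_apply, ContinuousLinearMap.id_apply] at h8 h9
  rw [← h8, ← h9, hvw]

/-- The family of local linear perturbations at `q`. -/
theorem exists_linear_fam (q : M) (U : Set M) (hU : U ∈ 𝓝 q) :
    ∃ h : (EE d →L[ℝ] EE d) → Dyn d M r, IsFam h ∧ (∀ L, ∀ x ∉ U, h L x = x) ∧
      ∃ W ∈ 𝓝 q, ∀ᶠ L in 𝓝 (0 : EE d →L[ℝ] EE d), ∀ x ∈ W,
        h L x ∈ (extChartAt (𝓡 d) q).source ∧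
        extChartAt (𝓡 d) q (h L x) = extChartAt (𝓡 d) q x +
          L (extChartAt (𝓡 d) q x - extChartAt (𝓡 d) q q) := by
  obtain ⟨h, hh, hsupp, W, hW, hform⟩ := exists_fam (d := d) (r := r) q U hU
  have hlin : Continuous (fun L : EE d →L[ℝ] EE d => ((0, L) : PP d)) := by fun_prop
  refine ⟨fun L => h (0, L), ⟨hh.1, ?_⟩, fun L x hx => hsupp (0, L) x hx, W, hW, ?_⟩
  · obtain ⟨V, hV, hC⟩ := hh.2
    refine ⟨(fun L : EE d →L[ℝ] EE d => ((0, L) : PP d)) ⁻¹' V,
      hlin.continuousAt.preimage_mem_nhds hV, ?_⟩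
    have hsm : ContMDiff (𝓘(ℝ, EE d →L[ℝ] EE d).prod (𝓡 d)) (𝓘(ℝ, PP d).prod (𝓡 d)) (r : ℕ∞ω)
        (fun q : (EE d →L[ℝ] EE d) × M => (((0, q.1) : PP d), q.2)) := by
      have h1 : ContMDiff 𝓘(ℝ, EE d →L[ℝ] EE d) 𝓘(ℝ, PP d) (r : ℕ∞ω)
          (fun L : EE d →L[ℝ] EE d => ((0, L) : PP d)) :=
        (contDiff_const.prodMk contDiff_id).contMDiff
      exact (h1.comp contMDiff_fst).prodMk contMDiff_snd
    exact hC.comp hsm.contMDiffOn (fun q hq => ⟨hq.1, mem_univ _⟩)
  · have h2 := (hlin.tendsto (0 : EE d →L[ℝ] EE d)).eventually (p := fun π : PP d => ∀ x ∈ W,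
        h π x ∈ (extChartAt (𝓡 d) q).source ∧
        extChartAt (𝓡 d) q (h π x) = extChartAt (𝓡 d) q x + π.1 +
          π.2 (extChartAt (𝓡 d) q x - extChartAt (𝓡 d) q q)) hform
    filter_upwards [h2] with L hL x hx
    refine ⟨(hL x hx).1, ?_⟩
    rw [(hL x hx).2]
    simp

/-- A homoclinic point gives, after a small perturbation, a non-periodic recurrent point. -/
theorem exists_nonperiodic_recurrent {N : Set (Dyn d M r)} (hN : IsOpen[crTopology d M r] N)
    (hr : 1 ≤ r) (hhyp : ∀ g ∈ N, ∀ p ∈ periodicPts g, HypAt (d := d) g p)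
    (g : Dyn d M r) (hg : g ∈ N) (hcyc : HasCycle (Diffeomorph.toHomeomorph g) 1) :
    ∃ g' ∈ N, ∃ y, Recurrent g' y ∧ y ∉ periodicPts g' := by
  obtain ⟨pp, xx, hpp, hp1, hxx⟩ := hcyc
  obtain ⟨hxper, hxb, hxf⟩ := hxx 0 one_pos
  rw [zero_add, hp1] at hxf
  have hp := hpp 0
  clear hxx hp1 hpp
  generalize pp 0 = p at hxb hxf hp
  generalize xx 0 = x at hxb hxf hxper
  generalize hh : g.toHomeomorph = h at hxper hxb hxf hp
  have hgh : ∀ y, g y = h y := fun y => by rw [← hh]; rfl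
  have hgh' : (g : M → M) = h := funext hgh
  obtain ⟨W⟩ : Nonempty (LocModel (d := d) h p) := by
    have := exists_locModel hr g p (hhyp g hg p (by rw [hgh']; exact hp))
    rwa [hgh'] at this
  have hhc : ∀ n : ℕ, Continuous (h^[n]) := fun n => h.continuous.iterate n
  -- distances
  obtain ⟨εP, hεP, hP⟩ := exists_dist_Orb hp hxper
  obtain ⟨ε₁, hε₁, hx1⟩ := exists_ball_avoid hp hp hxb hxf hxper
  have hx1' : ∀ n : ℤ, n ≠ 0 → ε₁ ≤ dist ((h ^ n) x) x := by
    intro n hn
    refine (hx1 n).resolve_left fun he => hxper ?_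
    rcases Int.eq_nat_or_neg n with ⟨k, rfl | rfl⟩
    · refine ⟨k, by omega, ?_⟩
      rwa [zpow_natCast_apply] at he
    · refine ⟨k, by omega, ?_⟩
      rw [zpow_neg_natCast_apply] at he
      have := iterate_symm_iterate h k x
      rwa [he] at this
  set ε₀ : ℝ := min (ε₁ / 2) (εP / 2) with hε₀def
  have hε₀ : 0 < ε₀ := lt_min (by linarith) (by linarith)
  have hε₀1 : ε₀ ≤ ε₁ / 2 := min_le_left _ _
  have hε₀P : ε₀ ≤ εP / 2 := min_le_right _ _
  have far : ∀ n : ℤ, n ≠ 0 → (h ^ n) x ∉ Metric.closedBall x ε₀ := by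
    intro n hn hmem
    rw [Metric.mem_closedBall] at hmem
    have := hx1' n hn
    linarith
  -- the radius
  obtain ⟨ρ', hρ'0, hρ'le, hρ'⟩ : ∃ ρ' : ℝ, 0 < ρ' ∧ ρ' ≤ W.ρ ∧
      ∀ u, ‖u‖ ≤ ρ' → ∀ j ≤ W.m, h^[j] (W.ι u) ∉ Metric.closedBall x ε₀ := by
    have hι0 : ContinuousAt W.ι 0 := W.continuousOn_ι.continuousAt (W.hΩ.mem_nhds W.zero_mem)
    have h1 : ∀ j ∈ Finset.range (W.m + 1), ∀ᶠ u in 𝓝 (0 : W.Es × W.Eu),
        h^[j] (W.ι u) ∉ Metric.closedBall x ε₀ := by
      intro j _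
      have h2 : ContinuousAt (fun u => h^[j] (W.ι u)) 0 := (hhc j).continuousAt.comp hι0
      have h3 : (Metric.closedBall x ε₀)ᶜ ∈ 𝓝 (h^[j] (W.ι 0)) := by
        refine Metric.isClosed_closedBall.isOpen_compl.mem_nhds ?_
        rw [W.ι_zero]
        intro hmem
        rw [Metric.mem_closedBall] at hmem
        have := hP _ (iterate_mem_Orb h p j)
        linarith
      exact h2.eventually h3
    have h2 := (Finset.eventually_all (Finset.range (W.m + 1))).2 h1
    obtain ⟨ρ₁, hρ₁, h3⟩ := Metric.eventually_nhds_iff.1 h2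
    refine ⟨min W.ρ (ρ₁ / 2), lt_min W.hyp.rho_pos (by linarith), min_le_left _ _,
      fun u hu j hj => ?_⟩
    refine h3 ?_ j (Finset.mem_range.2 (by omega))
    rw [dist_zero_right]
    have := hu.trans (min_le_right _ _)
    linarith
  have hyp : LocHyp W.G W.As W.Au ρ' := ⟨hρ'0, W.hyp'.zero, W.hyp'.norm_As, W.hyp'.norm_Au,
    fun x y hx hy => W.hyp'.lip x y (hx.trans hρ'le) (hy.trans hρ'le)⟩
  have hball : Metric.closedBall (0 : W.Es × W.Eu) ρ' ⊆ W.Ω :=
    (Metric.closedBall_subset_closedBall hρ'le).trans W.hball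
  -- the local homoclinic orbit
  obtain ⟨l₁, hl₁0, hl₁⟩ : ∃ l : ℕ, 0 < l ∧ ∀ n : ℕ,
      h^[l + W.m * n] x ∈ (extChartAt (𝓡 d) p).source ∧
      ‖W.ψ (h^[l + W.m * n] x)‖ < ρ' ∧
      W.G (W.ψ (h^[l + W.m * n] x)) = W.ψ (h^[l + W.m * (n + 1)] x) := by
    obtain ⟨l, hl⟩ := W.fwd_seq hxf ρ' hρ'0
    refine ⟨l + W.m, by have := W.hm; omega, fun n => ?_⟩
    have := hl (n + 1)
    rwa [show l + W.m * (n + 1) = l + W.m + W.m * n by ring,
      show l + W.m * (n + 1 + 1) = l + W.m + W.m * (n + 1) by ring] at this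
  obtain ⟨l₂, hl₂0, hl₂⟩ : ∃ l : ℕ, 0 < l ∧ ∀ n : ℕ,
      h.symm^[l + W.m * n] x ∈ (extChartAt (𝓡 d) p).source ∧
      ‖W.ψ (h.symm^[l + W.m * n] x)‖ < ρ' ∧
      W.G (W.ψ (h.symm^[l + W.m * (n + 1)] x)) = W.ψ (h.symm^[l + W.m * n] x) := by
    obtain ⟨l, hl⟩ := W.bwd_seq hxb ρ' hρ'0
    refine ⟨l + W.m, by have := W.hm; omega, fun n => ?_⟩
    have := hl (n + 1)
    rwa [show l + W.m * (n + 1) = l + W.m + W.m * n by ring,
      show l + W.m * (n + 1 + 1) = l + W.m + W.m * (n + 1) by ring] at this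
  set b : ℕ → W.Es × W.Eu := fun n => W.ψ (h^[l₁ + W.m * n] x) with hbdef
  set a : ℕ → W.Es × W.Eu := fun n => W.ψ (h.symm^[l₂ + W.m * n] x) with hadef
  set z0 : M := h.symm^[l₂] x with hz0
  set x1 : M := h^[l₁] x with hx1def
  have hb0 : b 0 = W.ψ x1 := by simp [hbdef, hx1def]
  have ha0 : a 0 = W.ψ z0 := by simp [hadef, hz0]
  have hz0s : z0 ∈ (extChartAt (𝓡 d) p).source := by simpa using (hl₂ 0).1
  have hx1s : x1 ∈ (extChartAt (𝓡 d) p).source := by simpa using (hl₁ 0).1
  have hz0x : h^[l₂] z0 = x := iterate_symm_iterate h l₂ x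
  have haΩ : a 0 ∈ W.Ω := W.ball_sub ((hl₂ 0).2.1.le.trans hρ'le)
  have hιa : W.ι (a 0) = z0 := by rw [ha0, W.ι_ψ hz0s]
  have hca : extChartAt (𝓡 d) p p + W.Θ.symm (a 0) = extChartAt (𝓡 d) p z0 := by
    rw [ha0]
    change extChartAt (𝓡 d) p p + W.Θ.symm (W.Θ (extChartAt (𝓡 d) p z0 - extChartAt (𝓡 d) p p)) = _
    rw [W.Θ.symm_apply_apply, add_sub_cancel]
  have hxs : x ∈ (extChartAt (𝓡 d) x).source := mem_extChartAt_source x
  -- the derivatives of the two transition maps
  set D1 : W.Es × W.Eu →L[ℝ] EE d :=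
    (fderiv ℝ (inCharts (d := d) p x h^[l₂]) (extChartAt (𝓡 d) p z0)).comp
      (W.Θ.symm : W.Es × W.Eu →L[ℝ] EE d) with hD1
  set D2 : EE d →L[ℝ] W.Es × W.Eu :=
    (W.Θ : EE d →L[ℝ] W.Es × W.Eu).comp
      (fderiv ℝ (inCharts (d := d) x p h^[l₁]) (extChartAt (𝓡 d) x x)) with hD2
  have hD1inj : Injective D1 := by
    have := fderiv_inCharts_injective hr g l₂ p x z0 hz0s (by rw [hgh', hz0x]; exact hxs)
    rw [hgh'] at this
    exact this.comp W.Θ.symm.injective
  have hD2inj : Injective D2 := by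
    have := fderiv_inCharts_injective hr g l₁ x p x hxs (by rw [hgh']; exact hx1s)
    rw [hgh'] at this
    exact W.Θ.injective.comp this
  have hT1 : HasFDerivAt (fun u => extChartAt (𝓡 d) x (h^[l₂] (W.ι u))) D1 (a 0) := by
    have h1 := contDiffAt_inCharts_iterate hr g l₂ p x z0 hz0s (by rw [hgh', hz0x]; exact hxs)
    rw [hgh', ← hca] at h1
    have h2 := (h1.differentiableAt (by norm_num)).hasFDerivAt
    have h3 : HasFDerivAt (fun u : W.Es × W.Eu => extChartAt (𝓡 d) p p + W.Θ.symm u)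
        (W.Θ.symm : W.Es × W.Eu →L[ℝ] EE d) (a 0) := W.Θ.symm.hasFDerivAt.const_add _
    have h4 := h2.comp (a 0) h3
    rw [hca] at h4
    exact h4
  have hT2 : HasFDerivAt (fun w => W.ψ (h^[l₁] ((extChartAt (𝓡 d) x).symm w))) D2
      (extChartAt (𝓡 d) x x) := by
    have h1 := contDiffAt_inCharts_iterate hr g l₁ x p x hxs (by rw [hgh']; exact hx1s)
    rw [hgh'] at h1
    have h2 := (h1.differentiableAt (by norm_num)).hasFDerivAt
    exact W.Θ.hasFDerivAt.comp _ (h2.sub_const (extChartAt (𝓡 d) p p))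
  -- dimension count
  have hdim : Module.finrank ℝ ((bwdBdd W.G a).map (D1 : W.Es × W.Eu →ₗ[ℝ] EE d)) +
      Module.finrank ℝ ((fwdBdd W.G b).comap (D2 : EE d →ₗ[ℝ] W.Es × W.Eu)) ≤
      Module.finrank ℝ (EE d) := by
    have h1 : Module.finrank ℝ ((bwdBdd W.G a).map (D1 : W.Es × W.Eu →ₗ[ℝ] EE d)) ≤
        Module.finrank ℝ W.Eu :=
      (Submodule.finrank_map_le _ _).trans (hyp.finrank_bwdBdd W.hΩ hball W.smooth' a
        (fun n => (hl₂ n).2.1) (fun n => (hl₂ n).2.2))
    have h2 : Module.finrank ℝ ((fwdBdd W.G b).comap (D2 : EE d →ₗ[ℝ] W.Es × W.Eu)) ≤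
        Module.finrank ℝ W.Es := by
      refine le_trans ?_ (hyp.finrank_fwdBdd W.hΩ hball W.smooth' b
        (fun n => (hl₁ n).2.1) (fun n => (hl₁ n).2.2))
      have h3 := LinearEquiv.finrank_eq (Submodule.equivMapOfInjective
        (D2 : EE d →ₗ[ℝ] W.Es × W.Eu) hD2inj ((fwdBdd W.G b).comap
          (D2 : EE d →ₗ[ℝ] W.Es × W.Eu)))
      rw [h3]
      exact Submodule.finrank_mono (Submodule.map_comap_le _ _)
    have h3 : Module.finrank ℝ (EE d) = Module.finrank ℝ W.Es + Module.finrank ℝ W.Eu := by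
      rw [← Module.finrank_prod]
      exact LinearEquiv.finrank_eq W.Θ.toLinearEquiv
    omega
  -- the family
  obtain ⟨k, hk, hksupp, Wn, hWn, hkform⟩ := exists_linear_fam (d := d) (r := r) x _
    (Metric.ball_mem_nhds x hε₀)
  have hNg : N ∈ @nhds _ (crTopology d M r) g := by
    let _ := crTopology d M r
    exact IsOpen.mem_nhds hN hg
  have hev := ((hk.tendsto g).eventually hNg).and hkform
  obtain ⟨δ, hδ, hδ'⟩ := Metric.eventually_nhds_iff.1 hev
  obtain ⟨L, hLδ, hL⟩ := exists_small_transverse _ _ hdim δ hδ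
  obtain ⟨hfN, hform⟩ := hδ' (by rwa [dist_zero_right] : dist L 0 < δ)
  set f : Dyn d M r := g.trans (k L) with hf
  have hfapp : ∀ y, f y = k L (h y) := fun y => by rw [← hgh]; rfl
  have hag : ∀ w, h w ∉ Metric.closedBall x ε₀ → f w = h w := by
    intro w hw
    rw [hfapp]
    exact hksupp L _ fun hmem => hw (Metric.ball_subset_closedBall hmem)
  have hkx : k L x = x := by
    obtain ⟨h1, h2⟩ := hform x (mem_of_mem_nhds hWn)
    apply (extChartAt (𝓡 d) x).injOn h1 hxs
    rw [h2, sub_self, map_zero, add_zero]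
  have hfm : ∀ u, ‖u‖ ≤ ρ' → f^[W.m] (W.ι u) = h^[W.m] (W.ι u) := by
    intro u hu
    refine iterate_eq_of_agree W.m (fun j hj => hag _ ?_) W.m le_rfl
    rw [← Function.iterate_succ_apply' h j]
    exact hρ' u hu (j + 1) (by omega)
  -- the two passages
  have hpass1 : ∀ᶠ y in 𝓝 z0, f^[l₂] y = k L (h^[l₂] y) := by
    obtain ⟨j, hj⟩ := Nat.exists_eq_add_of_le' (show 1 ≤ l₂ from hl₂0)
    have h1 := eventually_iterate_eq (h' := f) h.continuous Metric.isClosed_closedBall hag z0 j (by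
      intro i hi1 hij
      have h2 : h^[i] z0 = (h ^ (-((l₂ - i : ℕ) : ℤ))) x := by
        rw [hz0, ← zpow_neg_natCast_apply, iterate_zpow]
        congr 2
        omega
      rw [h2]
      exact far _ (by omega))
    filter_upwards [h1] with y hy
    rw [hj, Function.iterate_succ_apply', hy, hfapp, Function.iterate_succ_apply']
  have hpass2 : ∀ᶠ y in 𝓝 x, f^[l₁] y = h^[l₁] y := by
    refine eventually_iterate_eq h.continuous Metric.isClosed_closedBall hag x l₁ ?_
    intro i hi1 _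
    rw [← zpow_natCast_apply]
    exact far _ (by omega)
  have hfz0 : f^[l₁ + l₂] z0 = x1 := by
    rw [Function.iterate_add_apply, hpass1.self_of_nhds, hz0x, hkx, hpass2.self_of_nhds]
  have hιc : ContinuousAt W.ι (a 0) := W.continuousOn_ι.continuousAt (W.hΩ.mem_nhds haΩ)
  have hιc' : Tendsto W.ι (𝓝 (a 0)) (𝓝 z0) := by
    have := hιc.tendsto
    rwa [hιa] at this
  -- the transition map
  set T : W.Es × W.Eu → W.Es × W.Eu := fun u => W.ψ (f^[l₁ + l₂] (W.ι u)) with hTdef
  have hTab : T (a 0) = b 0 := by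
    simp only [hTdef]
    rw [hιa, hfz0, hb0]
  have hTC : ContDiffAt ℝ 1 T (a 0) := by
    have h1 := contDiffAt_inCharts_iterate hr f (l₁ + l₂) p p z0 hz0s (by rw [hfz0]; exact hx1s)
    rw [← hca] at h1
    have h3 : ContDiffAt ℝ 1 (fun u : W.Es × W.Eu => extChartAt (𝓡 d) p p + W.Θ.symm u) (a 0) :=
      contDiffAt_const.add W.Θ.symm.contDiff.contDiffAt
    have h4 : ContDiffAt ℝ 1 ((inCharts (d := d) p p f^[l₁ + l₂]) ∘
      (fun u : W.Es × W.Eu => extChartAt (𝓡 d) p p + W.Θ.symm u)) (a 0) := h1.comp (a 0) h3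
    exact W.Θ.contDiff.contDiffAt.comp (a 0) (h4.sub contDiffAt_const)
  have hTeq : T =ᶠ[𝓝 (a 0)] fun u => W.ψ (h^[l₁] ((extChartAt (𝓡 d) x).symm
      (extChartAt (𝓡 d) x (h^[l₂] (W.ι u)) +
        L (extChartAt (𝓡 d) x (h^[l₂] (W.ι u)) - extChartAt (𝓡 d) x x)))) := by
    have h1 : Tendsto (fun u => h^[l₂] (W.ι u)) (𝓝 (a 0)) (𝓝 x) := by
      have := (hhc l₂).tendsto z0
      rw [hz0x] at this
      exact this.comp hιc'
    have h2 : Tendsto (fun u => k L (h^[l₂] (W.ι u))) (𝓝 (a 0)) (𝓝 x) := by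
      have := (k L).continuous.tendsto x
      rw [hkx] at this
      exact this.comp h1
    filter_upwards [hιc'.eventually hpass1, h1.eventually hWn, h2.eventually hpass2]
      with u h3 h4 h5
    obtain ⟨h6, h7⟩ := hform _ h4
    simp only [hTdef]
    rw [← h7, (extChartAt (𝓡 d) x).left_inv h6, Function.iterate_add_apply, h3, h5]
  have hTD : ∀ v, fderiv ℝ T (a 0) v = D2 (D1 v + L (D1 v)) := by
    intro v
    have hT1a : extChartAt (𝓡 d) x (h^[l₂] (W.ι (a 0))) = extChartAt (𝓡 d) x x := by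
      rw [hιa, hz0x]
    have hA : HasFDerivAt (fun w : EE d => w + L (w - extChartAt (𝓡 d) x x))
        (ContinuousLinearMap.id ℝ (EE d) + L) (extChartAt (𝓡 d) x (h^[l₂] (W.ι (a 0)))) := by
      refine (hasFDerivAt_id _).add ?_
      have h1 : HasFDerivAt (fun w : EE d => w - extChartAt (𝓡 d) x x)
        (ContinuousLinearMap.id ℝ (EE d)) (extChartAt (𝓡 d) x (h^[l₂] (W.ι (a 0)))) :=
        (hasFDerivAt_id _).sub_const _
      exact L.hasFDerivAt.comp _ h1
    have h2 := hA.comp (a 0) hT1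
    have hT2' : HasFDerivAt (fun w => W.ψ (h^[l₁] ((extChartAt (𝓡 d) x).symm w))) D2
        (extChartAt (𝓡 d) x (h^[l₂] (W.ι (a 0))) +
          L (extChartAt (𝓡 d) x (h^[l₂] (W.ι (a 0))) - extChartAt (𝓡 d) x x)) := by
      rw [hT1a, sub_self, map_zero, add_zero]
      exact hT2
    have h3 := hT2'.comp (a 0) h2
    have h4 := (h3.congr_of_eventuallyEq hTeq).fderiv
    rw [h4]
    rfl
  have htr : ∀ v ∈ bwdBdd W.G a, fderiv ℝ T (a 0) v ∈ fwdBdd W.G b → v = 0 := by
    intro v hv hv'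
    rw [hTD] at hv'
    have h1 := hL (D1 v) (Submodule.mem_map_of_mem hv) hv'
    exact hD1inj (h1.trans (map_zero D1).symm)
  -- the neighbourhoods
  have hfz0m : f^[W.m] z0 ≠ z0 := by
    intro he
    have h1 := hfm (a 0) (hl₂ 0).2.1.le
    rw [hιa, he] at h1
    apply hxper
    have h2 : z0 ∈ periodicPts h := ⟨W.m, W.hm, h1.symm⟩
    obtain ⟨n, hn, hn'⟩ := h2
    refine ⟨n, hn, ?_⟩
    have := hn'.apply_iterate l₂
    rwa [hz0x] at this
  obtain ⟨O, hO, hO'⟩ : ∃ O ∈ 𝓝 z0, ∀ z ∈ O, f^[W.m] z ∉ O := by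
    obtain ⟨U, V, hU, hV, hzU, hzV, hUV⟩ := t2_separation (Ne.symm hfz0m)
    refine ⟨U ∩ f^[W.m] ⁻¹' V, inter_mem (hU.mem_nhds hzU)
      ((f.continuous.iterate W.m).continuousAt.preimage_mem_nhds (hV.mem_nhds hzV)), ?_⟩
    rintro z ⟨_, hz⟩ ⟨hz', _⟩
    exact Set.disjoint_left.1 hUV hz' hz
  have hOa : {u : W.Es × W.Eu | ‖u‖ < ρ' ∧ W.ι u ∈ O ∧
      f^[l₁ + l₂] (W.ι u) ∈ (extChartAt (𝓡 d) p).source} ∈ 𝓝 (a 0) := by
    have h1 : ∀ᶠ u in 𝓝 (a 0), ‖u‖ < ρ' :=
      continuous_norm.continuousAt.eventually (gt_mem_nhds (hl₂ 0).2.1)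
    have h2 : ∀ᶠ u in 𝓝 (a 0), f^[l₁ + l₂] (W.ι u) ∈ (extChartAt (𝓡 d) p).source := by
      have h3 := ((f.continuous.iterate (l₁ + l₂)).tendsto z0).comp hιc'
      rw [hfz0] at h3
      exact h3.eventually ((isOpen_extChartAt_source (I := 𝓡 d) p).mem_nhds hx1s)
    filter_upwards [h1, hιc'.eventually hO, h2] with u h3 h4 h5
    exact ⟨h3, h4, h5⟩
  have hOb : {u : W.Es × W.Eu | ‖u‖ < ρ'} ∈ 𝓝 (b 0) :=
    continuous_norm.continuousAt.eventually (gt_mem_nhds (hl₁ 0).2.1)
  obtain ⟨Wa, hWa, hWaO, hWac⟩ := local_compact_nhds hOa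
  obtain ⟨Wb, hWb, hWbO, hWbc⟩ := local_compact_nhds hOb
  obtain ⟨n₀, hn₀⟩ := hyp.horseshoe W.hΩ hball W.smooth' b a (fun n => (hl₁ n).2.1)
    (fun n => (hl₁ n).2.2) (fun n => (hl₂ n).2.1) (fun n => (hl₂ n).2.2) T hTC hTab htr Wa Wb
    hWa hWb
  have hsubΩ : ∀ u : W.Es × W.Eu, ‖u‖ < ρ' → u ∈ W.Ω := fun u hu => hball (by simpa using hu.le)
  refine ⟨f, hfN, exists_recurrent_of_passages f f.continuous (W.ι '' Wa) (W.ι '' Wb)
    (hWac.image_of_continuousOn (W.continuousOn_ι.mono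
      fun u hu => hsubΩ u (hWaO hu).1)).isClosed
    (hWbc.image_of_continuousOn (W.continuousOn_ι.mono
      fun u hu => hsubΩ u (hWbO hu))).isClosed W.m n₀ (l₁ + l₂) (by omega) ?_ ?_⟩
  · rintro _ ⟨u, hu, rfl⟩ ⟨v, hv, he⟩
    refine hO' _ (hWaO hu).2.1 ?_
    rw [← he]
    exact (hWaO hv).2.1
  · intro τ
    obtain ⟨z, hz⟩ := hn₀ τ
    have hiter : ∀ j, ∀ i ≤ n₀ + (τ j).toNat, f^[W.m * i] (W.ι (z j)) = W.ι (W.G^[i] (z j)) := by
      intro j i
      induction i with
      | zero => intro _; rfl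
      | succ i ih =>
        intro hi
        have h1 := (hz j).2.1 i (by omega)
        rw [Nat.mul_succ, Nat.add_comm, Function.iterate_add_apply, ih (by omega), hfm _ h1,
          Function.iterate_succ_apply' W.G i, W.ι_G (hball (by simpa using h1))]
    refine ⟨fun j => W.ι (z j), fun j => ?_⟩
    rw [hiter j _ le_rfl]
    refine ⟨mem_image_of_mem _ (hz j).1, mem_image_of_mem _ (hz j).2.2.1, ?_⟩
    change W.ι (z (j + 1)) = _
    rw [← (hz j).2.2.2]
    exact W.ι_ψ (hWaO (hz j).2.2.1).2.2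

end Man

end Pool.Agent.OmegaStab

end
end

section

/-!
# Finiteness of the fixed points, part G: the two perturbation procedures
-/

open Set Filter Topology Function MeasureTheory
open scoped Manifold ContDiff

noncomputable section

namespace Pool.Agent.OmegaStab

namespace FiniteFix

variable {d : ℕ} {M : Type*} [MetricSpace M] [ChartedSpace (EE d) M] {r : ℕ∞}
  [IsManifold (𝓡 d) ∞ M]

variable (d M r) in
/-- The statement of item FAM. -/
def FamStatement : Prop :=
  ∀ (q : M) (U : Set M), U ∈ 𝓝 q →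
    ∃ h : PP d → Dyn d M r, IsFam h ∧ (∀ π, ∀ x ∉ U, h π x = x) ∧
      ∃ W ∈ 𝓝 q, ∀ᶠ π in 𝓝 (0 : PP d), ∀ x ∈ W,
        h π x ∈ (extChartAt (𝓡 d) q).source ∧
        extChartAt (𝓡 d) q (h π x) = extChartAt (𝓡 d) q x + π.1 +
          π.2 (extChartAt (𝓡 d) q x - extChartAt (𝓡 d) q q)

variable (d M r) in
/-- The statement of item CRT (for parameter spaces in `Type`). -/
def TendStatement : Prop :=
  ∀ (V : Type) [NormedAddCommGroup V] [NormedSpace ℝ V] [FiniteDimensional ℝ V]
    (h : V → Dyn d M r), IsFam h → ∀ f : Dyn d M r,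
    Tendsto (fun v => f.trans (h v)) (𝓝 0) (@nhds _ (crTopology d M r) f)

omit [IsManifold (𝓡 d) ∞ M] in
theorem eventually_mem {V : Type} [NormedAddCommGroup V] [NormedSpace ℝ V]
    [FiniteDimensional ℝ V] (htend : TendStatement d M r) {N : Set (Dyn d M r)}
    (hN : IsOpen[crTopology d M r] N) {h : V → Dyn d M r} (hh : IsFam h) {g : Dyn d M r}
    (hg : g ∈ N) : ∀ᶠ v in 𝓝 (0 : V), g.trans (h v) ∈ N := by
  have h1 := htend V h hh g
  exact h1.eventually (@IsOpen.mem_nhds _ (crTopology d M r) _ _ hN hg)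

omit [IsManifold (𝓡 d) ∞ M] in
theorem low_encard {N : Set (Dyn d M r)} (hconj : ConjClass N) {g g' : Dyn d M r} (hg : g ∈ N)
    (hg' : g' ∈ N) {n : ℕ} (hn : 0 < n) : (Low g n).encard = (Low g' n).encard := by
  obtain ⟨h, hh⟩ := hconj g hg g' hg'
  exact conj_encard g.continuous h hh hn (fun m => m < n)

omit [IsManifold (𝓡 d) ∞ M] in
theorem fix_finite_iff {N : Set (Dyn d M r)} (hconj : ConjClass N) {g g' : Dyn d M r}
    (hg : g ∈ N) (hg' : g' ∈ N) {n : ℕ} (hn : 0 < n) :
    {x : M | g^[n] x = x}.Finite ↔ {x : M | g'^[n] x = x}.Finite := by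
  obtain ⟨h, hh⟩ := hconj g hg g' hg'
  have := conj_encard g.continuous h hh hn (fun _ => True)
  simp only [and_true] at this
  rw [← Set.encard_lt_top_iff, ← Set.encard_lt_top_iff, this]

omit [MetricSpace M] [ChartedSpace (EE d) M] [IsManifold (𝓡 d) ∞ M] in
theorem low_map {g : M → M} {n : ℕ} {x : M} (hx : x ∈ Low g n) : g x ∈ Low g n := by
  obtain ⟨h1, h2⟩ := hx
  refine ⟨?_, ?_⟩
  · rw [← Function.iterate_succ_apply, Function.iterate_succ_apply', h1]
  · have h3 : minimalPeriod g (g x) = minimalPeriod g x := by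
      by_cases h0 : x ∈ periodicPts g
      · exact Function.minimalPeriod_apply h0
      · have h4 : n = 0 := by
          by_contra hn
          exact h0 ⟨n, Nat.pos_of_ne_zero hn, h1⟩
        omega
    rw [h3]
    exact h2

omit [MetricSpace M] [ChartedSpace (EE d) M] [IsManifold (𝓡 d) ∞ M] in
theorem low_iterate {g : M → M} {n : ℕ} {x : M} (hx : x ∈ Low g n) (j : ℕ) :
    g^[j] x ∈ Low g n := by
  induction j with
  | zero => exact hx
  | succ j ih =>
    rw [Function.iterate_succ_apply']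
    exact low_map ih

omit [MetricSpace M] [ChartedSpace (EE d) M] [IsManifold (𝓡 d) ∞ M] in
theorem low_iterate_eq {g k : M → M} {n : ℕ} (hk : ∀ x ∈ Low g n, k x = x) {x : M}
    (hx : x ∈ Low g n) (j : ℕ) : (k ∘ g)^[j] x = g^[j] x := by
  induction j with
  | zero => rfl
  | succ j ih =>
    rw [Function.iterate_succ_apply', ih, Function.comp_apply, ← Function.iterate_succ_apply' g]
    exact hk _ (low_iterate hx _)

omit [MetricSpace M] [ChartedSpace (EE d) M] [IsManifold (𝓡 d) ∞ M] in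
theorem low_subset {g k : M → M} {n : ℕ} (hk : ∀ x ∈ Low g n, k x = x) :
    Low g n ⊆ Low (k ∘ g) n := by
  intro x hx
  refine ⟨?_, ?_⟩
  · rw [low_iterate_eq hk hx]
    exact hx.1
  · have : minimalPeriod (k ∘ g) x = minimalPeriod g x := by
      apply Function.minimalPeriod_eq_minimalPeriod_iff.mpr
      intro j
      unfold Function.IsPeriodicPt Function.IsFixedPt
      rw [low_iterate_eq hk hx]
    rw [this]
    exact hx.2

theorem smul_pow' (s : ℝ) (A : EE d →L[ℝ] EE d) (l : ℕ) : (s • A) ^ l = s ^ l • A ^ l := by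
  induction l with
  | zero => simp
  | succ l ih =>
    ext1 v
    rw [pow_succ', ih, pow_succ' A, pow_succ' s]
    simp only [mul_apply_eq_comp, smul_apply, map_smul, smul_smul]
    rw [mul_comm s]

theorem low_step [CompactSpace M] (hr : 1 ≤ r) (hfam : FamStatement d M r)
    (htend : TendStatement d M r) {N : Set (Dyn d M r)} (hN : IsOpen[crTopology d M r] N)
    (hconj : ConjClass N) {n : ℕ} (hn : 0 < n) {g : Dyn d M r} (hg : g ∈ N)
    (hlow : (Low g n).Finite) {p : M} (hp : p ∈ Low g n) :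
    ∃ g' ∈ N, Low g' n = Low g n ∧
      (1 - chartD (d := d) p (g'^[n]) p).det ≠ 0 ∧
      ∀ x ∈ Low g n, (1 - chartD (d := d) x (g^[n]) x).det ≠ 0 →
        (1 - chartD (d := d) x (g'^[n]) x).det ≠ 0 := by
  classical
  have hps : p ∈ (extChartAt (𝓡 d) p).source := mem_extChartAt_source p
  -- a compact neighbourhood of p avoiding the other points
  have h1 : (Low g n \ {p})ᶜ ∈ 𝓝 p := by
    refine (hlow.subset sdiff_subset).isClosed.isOpen_compl.mem_nhds ?_
    simp
  obtain ⟨B, hBp, hBsub, hBc⟩ := local_compact_nhds h1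
  obtain ⟨h, hh, hsupp, W, hW, hform⟩ := hfam p B hBp
  let ι : ℝ →L[ℝ] PP d := ContinuousLinearMap.toSpanSingleton ℝ (0, ContinuousLinearMap.id ℝ (EE d))
  have hι : ∀ t : ℝ, ι t = (0, t • ContinuousLinearMap.id ℝ (EE d)) := by
    intro t
    simp [ι, ContinuousLinearMap.toSpanSingleton_apply]
  have hs : IsFam (fun t : ℝ => h (ι t)) := isFam_comp_clm hh ι
  have hs1 : ∀ᶠ t : ℝ in 𝓝 0, ∀ x ∈ W, h (ι t) x ∈ (extChartAt (𝓡 d) p).source ∧
      extChartAt (𝓡 d) p (h (ι t) x) = extChartAt (𝓡 d) p x +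
        t • (extChartAt (𝓡 d) p x - extChartAt (𝓡 d) p p) := by
    have hc : Tendsto ι (𝓝 0) (𝓝 0) := by
      have := ι.continuous.tendsto 0
      rwa [map_zero] at this
    filter_upwards [hc.eventually hform] with t ht x hx
    refine ⟨(ht x hx).1, ?_⟩
    rw [(ht x hx).2, hι]
    simp
  have hs2 := eventually_mem htend hN hs hg
  have hs3 : ∀ᶠ t : ℝ in 𝓝 0, ∀ x ∈ Low g n, (1 - chartD (d := d) x (g^[n]) x).det ≠ 0 →
      Good (d := d) x {x} ((g.trans (h (ι t)))^[n]) := by
    rw [Filter.eventually_all_finite hlow]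
    intro x hx
    by_cases hdet : (1 - chartD (d := d) x (g^[n]) x).det ≠ 0
    · have h2 : Good (d := d) x {x} (g^[n]) := by
        intro y hy _
        rw [mem_singleton_iff.mp hy]
        exact hdet
      filter_upwards [eventually_good hr hs g n isCompact_singleton
        (singleton_subset_iff.mpr (mem_extChartAt_source x)) h2] with t ht _
      exact ht
    · exact Eventually.of_forall fun t h0 => absurd h0 hdet
  set m := minimalPeriod g p with hm
  obtain ⟨l, hl⟩ : m ∣ n := IsPeriodicPt.minimalPeriod_dvd hp.1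
  have hm0 : 0 < m := by
    rcases Nat.eq_zero_or_pos m with h0 | h0
    · rw [h0, zero_mul] at hl
      omega
    · exact h0
  have hl0 : 0 < l := by
    rcases Nat.eq_zero_or_pos l with h0 | h0
    · rw [h0, mul_zero] at hl
      omega
    · exact h0
  have hs4 := eventually_det_ne_zero (chartD (d := d) p (g^[n]) p) hl0
  obtain ⟨t, ⟨ht1, ht2, ht3⟩, ht4⟩ :=
    ((Filter.Eventually.filter_mono nhdsWithin_le_nhds (hs1.and (hs2.and hs3))).and hs4).exists
  set k : Dyn d M r := h (ι t) with hk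
  have hkp : k p = p := by
    obtain ⟨h2, h3⟩ := ht1 p (mem_of_mem_nhds hW)
    rw [sub_self, smul_zero, add_zero] at h3
    exact (extChartAt (𝓡 d) p).injOn h2 hps h3
  have hksupp : ∀ x ∉ B, k x = x := hsupp (ι t)
  have hBlow : ∀ x ∈ Low g n, x ≠ p → x ∉ B := by
    intro x hx hxp hxB
    exact hBsub hxB ⟨hx, hxp⟩
  have hkfix : ∀ x ∈ Low g n, k x = x := by
    intro x hx
    by_cases hxp : x = p
    · rw [hxp]
      exact hkp
    · exact hksupp x (hBlow x hx hxp)
  have hcoe : ((g.trans k : Dyn d M r) : M → M) = k ∘ g := rfl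
  have hsub : Low g n ⊆ Low (g.trans k) n := by
    rw [hcoe]
    exact low_subset hkfix
  have heq : Low (g.trans k) n = Low g n :=
    (hlow.eq_of_subset_of_encard_le hsub (low_encard hconj hg ht2 hn).ge).symm
  refine ⟨g.trans k, ht2, heq, ?_, ?_⟩
  · -- the derivative at p
    have hFp : g^[m] p = p := Function.iterate_minimalPeriod
    have hFs : ContMDiff (𝓡 d) (𝓡 d) (r : ℕ∞ω) (g^[m]) := iterate_contMDiff g m
    have hHs : ContMDiff (𝓡 d) (𝓡 d) (r : ℕ∞ω) ((g.trans k)^[m]) := iterate_contMDiff _ m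
    have hHp : (g.trans k)^[m] p = p := by
      rw [hcoe, low_iterate_eq hkfix hp]
      exact hFp
    have hev : ∀ᶠ y in 𝓝 p, (g.trans k)^[m] y = k (g^[m] y) := by
      have h2 : ∀ᶠ y in 𝓝 p, ∀ j ∈ Finset.range m, 0 < j → g^[j] y ∉ B := by
        rw [Filter.eventually_all_finset]
        intro j hj
        by_cases hj0 : 0 < j
        · have h3 : g^[j] p ∈ Bᶜ := by
            refine hBlow _ (low_iterate hp j) ?_
            intro h4
            have := Function.IsPeriodicPt.minimalPeriod_le hj0 h4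
            rw [Finset.mem_range] at hj
            omega
          have h4 := (g.continuous.iterate j).continuousAt (x := p)
          filter_upwards [h4.eventually (hBc.isClosed.isOpen_compl.mem_nhds h3)] with y hy _
          exact hy
        · exact Eventually.of_forall fun y h0 => absurd h0 hj0
      filter_upwards [h2] with y hy
      rw [hcoe]
      exact iterate_trans_eq' hksupp hm0 fun j hj0 hjm => hy j (Finset.mem_range.mpr hjm) hj0
    have h5 := chartD_scale hr hFs hFp hW (fun x hx => (ht1 x hx).2) hev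
    have h6 : chartD (d := d) p ((g.trans k)^[n]) p =
        (1 + t) ^ l • chartD (d := d) p (g^[n]) p := by
      rw [hl, Function.iterate_mul, Function.iterate_mul, chartD_iterate hr hHs hHp l,
        chartD_iterate hr hFs hFp l, h5, smul_pow']
    rw [h6]
    exact ht4
  · intro x hx hdet
    exact ht3 x hx hdet x rfl (by
      rw [hcoe, low_iterate_eq hkfix hx]
      exact hx.1)

/-- All points of lower period can be made nondegenerate. -/
theorem exists_low_nondeg [CompactSpace M] (hr : 1 ≤ r) (hfam : FamStatement d M r)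
    (htend : TendStatement d M r) {N : Set (Dyn d M r)} (hN : IsOpen[crTopology d M r] N)
    (hconj : ConjClass N) {n : ℕ} (hn : 0 < n) {g : Dyn d M r} (hg : g ∈ N)
    (hlow : (Low g n).Finite) :
    ∃ g' ∈ N, Low g' n = Low g n ∧ ∀ x ∈ Low g n, (1 - chartD (d := d) x (g'^[n]) x).det ≠ 0 := by
  classical
  have key : ∀ S : Finset M, (S : Set M) ⊆ Low g n → ∃ g' ∈ N, Low g' n = Low g n ∧
      ∀ x ∈ S, (1 - chartD (d := d) x (g'^[n]) x).det ≠ 0 := by
    intro S
    induction S using Finset.induction_on with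
    | empty => exact fun _ => ⟨g, hg, rfl, by simp⟩
    | insert p S hpS ih =>
      intro hS
      obtain ⟨g', hg', hl, hd⟩ := ih (fun x hx => hS (by simp at hx ⊢; exact Or.inr hx))
      have hp : p ∈ Low g' n := by
        rw [hl]
        exact hS (by simp)
      obtain ⟨g'', hg'', hl', hd1, hd2⟩ :=
        low_step hr hfam htend hN hconj hn hg' (by rw [hl]; exact hlow) hp
      refine ⟨g'', hg'', hl'.trans hl, ?_⟩
      intro x hx
      rw [Finset.mem_insert] at hx
      rcases hx with rfl | hx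
      · exact hd1
      · refine hd2 x ?_ (hd x hx)
        rw [hl]
        exact hS (by simp [hx])
  obtain ⟨g', hg', hl, hd⟩ := key hlow.toFinset (by simp)
  exact ⟨g', hg', hl, fun x hx => hd x (by simpa using hx)⟩

end FiniteFix

end Pool.Agent.OmegaStab

end
end

section

/-!
# Finiteness of the fixed points, part H: the Sard procedure and the main statement
-/

open Set Filter Topology Function MeasureTheory
open scoped Manifold ContDiff

noncomputable section

namespace Pool.Agent.OmegaStab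

namespace FiniteFix

variable {d : ℕ} {M : Type*} [MetricSpace M] [ChartedSpace (EE d) M] {r : ℕ∞}
  [IsManifold (𝓡 d) ∞ M]

variable (d M r) in
/-- A family of diffeomorphisms supported in `B` which translates near `W'`. -/
def HData (q : M) (W' B : Set M) : Prop :=
  IsCompact B ∧ W' ⊆ interior B ∧ ∃ (k : EE d → Dyn d M r) (W : Set M), IsFam k ∧
    (∀ v, ∀ x ∉ B, k v x = x) ∧ W ⊆ (extChartAt (𝓡 d) q).source ∧
    (∀ᶠ v in 𝓝 (0 : EE d), ∀ x ∈ W,
      extChartAt (𝓡 d) q (k v x) = extChartAt (𝓡 d) q x + v) ∧ W' ⊆ interior W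

omit [IsManifold (𝓡 d) ∞ M] in
theorem low_finite {g : Dyn d M r} {n : ℕ} (hn : 0 < n)
    (ih : ∀ k, 0 < k → k < n → {x : M | g^[k] x = x}.Finite) : (Low g n).Finite := by
  have h1 : Low g n ⊆ ⋃ k ∈ (Finset.range n).filter (fun k => 0 < k), {x : M | g^[k] x = x} := by
    intro x hx
    have h2 : 0 < minimalPeriod g x := Function.IsPeriodicPt.minimalPeriod_pos hn hx.1
    simp only [mem_iUnion, Finset.mem_filter, Finset.mem_range]
    exact ⟨minimalPeriod g x, ⟨hx.2, h2⟩, Function.iterate_minimalPeriod⟩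
  refine Set.Finite.subset ?_ h1
  refine Set.Finite.biUnion (Finset.finite_toSet _) ?_
  intro k hk
  simp only [Finset.coe_filter, Finset.mem_range, mem_ofPred_eq] at hk
  exact ih k hk.2 hk.1

omit [IsManifold (𝓡 d) ∞ M] in
theorem isFam_const : IsFam (fun _ : ℝ => Diffeomorph.refl (𝓡 d) M (r : ℕ∞ω)) := by
  refine ⟨rfl, univ, univ_mem, ?_⟩
  exact contMDiffOn_snd

theorem data_low [CompactSpace M] (hr : 1 ≤ r) {g : Dyn d M r} {n : ℕ} {y : M}
    (hy : g^[n] y = y) (hdet : (1 - chartD (d := d) y (g^[n]) y).det ≠ 0) :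
    ∃ W' : Set M, IsCompact W' ∧ W' ∈ 𝓝 y ∧ W' ⊆ (extChartAt (𝓡 d) y).source ∧
      Good (d := d) y W' (g^[n]) := by
  have hys : y ∈ (extChartAt (𝓡 d) y).source := mem_extChartAt_source y
  have h1 := continuousAt_chartD hr (isFam_const (d := d) (M := M) (r := r)) g n hys
    (by rw [hy]; exact hys)
  have h2 : ContinuousAt (fun z : M => chartD (d := d) y (g^[n]) z) y := by
    have h3 : ContinuousAt (fun z : M => ((0 : ℝ), z)) y := by fun_prop
    exact ContinuousAt.comp (f := fun z : M => ((0 : ℝ), z)) h1 h3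
  have h3 : ContinuousAt (fun z : M => (1 - chartD (d := d) y (g^[n]) z).det) y :=
    ContinuousAt.comp (g := fun L : EE d →L[ℝ] EE d => (1 - L).det)
      (ContinuousLinearMap.continuous_det.comp (continuous_const.sub continuous_id)).continuousAt
      h2
  have h4 := h3.eventually_ne (y := 0) hdet
  obtain ⟨W', hW'y, hW's, hW'c⟩ := local_compact_nhds
    (Filter.inter_mem h4 ((isOpen_extChartAt_source (I := 𝓡 d) y).mem_nhds hys))
  exact ⟨W', hW'c, hW'y, fun z hz => (hW's hz).2, fun z hz _ => (hW's hz).1⟩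

omit [IsManifold (𝓡 d) ∞ M] in
theorem data_high [CompactSpace M] (hfam : FamStatement d M r)
    {g : Dyn d M r} {n : ℕ} {y : M}
    (hy : g^[n] y = y) (hlow : y ∉ Low g n) :
    ∃ W' B : Set M, IsCompact W' ∧ W' ∈ 𝓝 y ∧ W' ⊆ (extChartAt (𝓡 d) y).source ∧
      HData d M r y W' B ∧ Disj g n B := by
  have hys : y ∈ (extChartAt (𝓡 d) y).source := mem_extChartAt_source y
  have hmp : ∀ j, 0 < j → j < n → g^[j] y ≠ y := by
    intro j hj0 hjn hcon
    apply hlow
    refine ⟨hy, ?_⟩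
    exact lt_of_le_of_lt (Function.IsPeriodicPt.minimalPeriod_le hj0 hcon) hjn
  have h1 : ∀ j ∈ Finset.range n, ∃ U ∈ 𝓝 y, 0 < j → ∀ x ∈ U, g^[j] x ∉ U := by
    intro j hj
    by_cases hj0 : 0 < j
    · have h2 := hmp j hj0 (Finset.mem_range.mp hj)
      obtain ⟨U, V, hU, hV, hUV⟩ := t2_separation_nhds h2
      refine ⟨V ∩ (g^[j]) ⁻¹' U, Filter.inter_mem hV
        ((g.continuous.iterate j).continuousAt hU), fun _ x hx hx' => ?_⟩
      exact Set.disjoint_left.mp hUV hx.2 hx'.1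
    · exact ⟨univ, univ_mem, fun h0 => absurd h0 hj0⟩
  choose! U hU hUd using h1
  have h2 : (⋂ j ∈ Finset.range n, U j) ∈ 𝓝 y := by
    rw [Filter.biInter_finset_mem]
    exact hU
  obtain ⟨B, hBy, hBsub, hBc⟩ := local_compact_nhds h2
  have hdisj : Disj g n B := by
    intro x hx j hj0 hjn hx'
    have a1 : x ∈ U j := by
      have := hBsub hx
      simp only [mem_iInter] at this
      exact this j (Finset.mem_range.mpr hjn)
    have a2 : g^[j] x ∈ U j := by
      have := hBsub hx'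
      simp only [mem_iInter] at this
      exact this j (Finset.mem_range.mpr hjn)
    exact hUd j (Finset.mem_range.mpr hjn) hj0 x a1 a2
  obtain ⟨h, hh, hsupp, W, hW, hform⟩ := hfam y B hBy
  set ι : EE d →L[ℝ] PP d := ContinuousLinearMap.inl ℝ (EE d) (EE d →L[ℝ] EE d) with hι
  have hc : Tendsto ι (𝓝 0) (𝓝 0) := by
    have := ι.continuous.tendsto 0
    rwa [map_zero] at this
  obtain ⟨W', hW'y, hW's, hW'c⟩ := local_compact_nhds (x := y)
    (n := interior (W ∩ (extChartAt (𝓡 d) y).source) ∩ interior B)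
    (Filter.inter_mem (interior_mem_nhds.mpr (Filter.inter_mem hW
      ((isOpen_extChartAt_source (I := 𝓡 d) y).mem_nhds hys))) (interior_mem_nhds.mpr hBy))
  refine ⟨W', B, hW'c, hW'y, fun z hz => (interior_subset (hW's hz).1).2, ⟨hBc,
    fun z hz => (hW's hz).2, fun v => h (ι v), W ∩ (extChartAt (𝓡 d) y).source,
    isFam_comp_clm hh ι, fun v => hsupp (ι v), inter_subset_right, ?_,
    fun z hz => (hW's hz).1⟩, hdisj⟩
  filter_upwards [hc.eventually hform] with v hv x hx
  rw [(hv x hx.1).2]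
  simp [hι]

/-- **Finiteness of the fixed points**, from the two local statements. -/
theorem finite_fix_of [CompactSpace M] (hr : 1 ≤ r) (hfam : FamStatement d M r)
    (htend : TendStatement d M r) {N : Set (Dyn d M r)} (hN : IsOpen[crTopology d M r] N)
    (hconj : ConjClass N) (n : ℕ) (hn : 0 < n) :
    ∀ g ∈ N, {x : M | g^[n] x = x}.Finite := by
  classical
  induction n using Nat.strong_induction_on with
  | _ n ih =>
  intro g hg
  have hlowf : (Low g n).Finite := low_finite hn fun k hk hkn => ih k hkn hk g hg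
  obtain ⟨g₁, hg₁, hl₁, hd₁⟩ := exists_low_nondeg hr hfam htend hN hconj hn hg hlowf
  -- the data at the fixed points
  have hdata : ∀ y : M, g₁^[n] y = y → ∃ W' B : Set M, IsCompact W' ∧ W' ∈ 𝓝 y ∧
      W' ⊆ (extChartAt (𝓡 d) y).source ∧
      (Good (d := d) y W' (g₁^[n]) ∨ (HData d M r y W' B ∧ Disj g₁ n B)) := by
    intro y hy
    by_cases hyl : y ∈ Low g₁ n
    · obtain ⟨W', h1, h2, h3, h4⟩ := data_low hr hy (hd₁ y (by rw [← hl₁]; exact hyl))
      exact ⟨W', univ, h1, h2, h3, Or.inl h4⟩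
    · obtain ⟨W', B, h1, h2, h3, h4, h5⟩ := data_high hfam hy hyl
      exact ⟨W', B, h1, h2, h3, Or.inr ⟨h4, h5⟩⟩
  choose! W' B hWc hWn hWs hWd using hdata
  have hFc : IsCompact {x : M | g₁^[n] x = x} :=
    (isClosed_eq (g₁.continuous.iterate n) continuous_id).isCompact
  obtain ⟨T, hT, hcov⟩ := hFc.elim_nhds_subcover (fun y => interior (W' y))
    (fun y hy => interior_mem_nhds.mpr (hWn y hy))
  set K : Set M := (⋃ y ∈ T, interior (W' y))ᶜ with hK
  have hKc : IsCompact K := by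
    refine IsClosed.isCompact ?_
    rw [hK, isClosed_compl_iff]
    exact isOpen_biUnion fun y _ => isOpen_interior
  have hK₁ : ∀ x ∈ K, g₁^[n] x ≠ x := by
    intro x hx hfix
    exact hx (hcov hfix)
  -- the induction
  let P : Dyn d M r → Prop := fun g' => g' ∈ N ∧ (∀ x ∈ K, g'^[n] x ≠ x) ∧
    ∀ y ∈ T, Good (d := d) y (W' y) (g'^[n]) ∨ (HData d M r y (W' y) (B y) ∧ Disj g' n (B y))
  have hPst : ∀ (k : EE d → Dyn d M r), IsFam k → ∀ g', P g' →
      ∀ᶠ v in 𝓝 (0 : EE d), P (g'.trans (k v)) := by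
    intro k hk g' hg'
    obtain ⟨h1, h2, h3⟩ := hg'
    have e1 := eventually_mem htend hN hk h1
    have e2 := eventually_iterate_ne hk g' n hKc h2
    have e3 : ∀ᶠ v in 𝓝 (0 : EE d), ∀ y ∈ T,
        Good (d := d) y (W' y) ((g'.trans (k v))^[n]) ∨
          (HData d M r y (W' y) (B y) ∧ Disj (g'.trans (k v)) n (B y)) := by
      rw [Filter.eventually_all_finset]
      intro y hy
      rcases h3 y hy with h4 | ⟨h4, h5⟩
      · filter_upwards [eventually_good hr hk g' n (hWc y (hT y hy)) (hWs y (hT y hy)) h4]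
          with v hv
        exact Or.inl hv
      · filter_upwards [eventually_disj hk g' n h4.1 h5] with v hv
        exact Or.inr ⟨h4, hv⟩
    filter_upwards [e1, e2, e3] with v hv1 hv2 hv3
    exact ⟨hv1, hv2, hv3⟩
  have key : ∀ S : Finset M, S ⊆ T → ∃ g', P g' ∧ ∀ y ∈ S, Good (d := d) y (W' y) (g'^[n]) := by
    intro S
    induction S using Finset.induction_on with
    | empty =>
      intro _
      exact ⟨g₁, ⟨hg₁, hK₁, fun y hy => hWd y (hT y hy)⟩, by simp⟩
    | insert p S hpS ihS =>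
      intro hST
      obtain ⟨g', hPg', hS⟩ := ihS (fun x hx => hST (Finset.mem_insert_of_mem hx))
      have hpT : p ∈ T := hST (Finset.mem_insert_self _ _)
      rcases hPg'.2.2 p hpT with h1 | ⟨⟨hBc, hWB, k, W, hk, hsupp, hWq, htr, hWW⟩, h2⟩
      · refine ⟨g', hPg', fun y hy => ?_⟩
        rw [Finset.mem_insert] at hy
        rcases hy with rfl | hy
        · exact h1
        · exact hS y hy
      · obtain ⟨Z, hZ, hev⟩ := sard_step hr hk hsupp hWq htr (hWc p (hT p hpT)) hWW hWB g' hn h2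
        have e1 : ∀ᶠ v in 𝓝 (0 : EE d), ∀ y ∈ S,
            Good (d := d) y (W' y) ((g'.trans (k v))^[n]) := by
          rw [Filter.eventually_all_finset]
          intro y hy
          have hyT : y ∈ T := hST (Finset.mem_insert_of_mem hy)
          exact eventually_good hr hk g' n (hWc y (hT y hyT)) (hWs y (hT y hyT)) (hS y hy)
        obtain ⟨v, ⟨hv1, hv2, hv3⟩, hvZ⟩ :=
          exists_notMem_of_null (hev.and ((hPst k hk g' hPg').and e1)) hZ
        refine ⟨g'.trans (k v), hv2, fun y hy => ?_⟩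
        rw [Finset.mem_insert] at hy
        rcases hy with rfl | hy
        · exact hv1 hvZ
        · exact hv3 y hy
  obtain ⟨g', hPg', hgood⟩ := key T subset_rfl
  rw [fix_finite_iff hconj hg hPg'.1 hn]
  refine finite_of_isolated (g'.continuous.iterate n) ?_
  intro x hx
  have h1 : x ∉ K := fun hxK => hPg'.2.1 x hxK hx
  rw [hK, Set.notMem_compl_iff] at h1
  simp only [mem_iUnion] at h1
  obtain ⟨y, hyT, hxy⟩ := h1
  have hxW : x ∈ W' y := interior_subset hxy
  exact isolated_of_good hr (iterate_contMDiff g' n) (hWs y (hT y hyT) hxW) hx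
    (hgood y hyT x hxW hx)

end FiniteFix

end Pool.Agent.OmegaStab

end
end

section

/-!
# Finiteness of the fixed points, from the existence of the local affine families
-/

open Set Filter Topology Function
open scoped Manifold ContDiff

noncomputable section

namespace Pool.Agent.OmegaStab

namespace FiniteFix

variable {d : ℕ} {M : Type*} [MetricSpace M] [ChartedSpace (EE d) M] {r : ℕ∞}
  [CompactSpace M] [IsManifold (𝓡 d) ∞ M]

omit [CompactSpace M] in
theorem tendStatement : TendStatement d M r := by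
  intro V _ _ _ h hh f
  exact hh.tendsto f

/-- `finite_fix`, granted the statement `exists_fam` of item FAM. -/
theorem finite_fix_of_fam (hfam : FamStatement d M r) (hr : 1 ≤ r) {N : Set (Dyn d M r)}
    (hN : IsOpen[crTopology d M r] N) (hconj : ConjClass N) {g : Dyn d M r} (hg : g ∈ N) (n : ℕ)
    (hn : 0 < n) : {x : M | g^[n] x = x}.Finite :=
  finite_fix_of hr hfam tendStatement hN hconj n hn g hg

end FiniteFix

end Pool.Agent.OmegaStab

end
end

section

/-!
# Finiteness of the fixed points of the iterates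
-/

open Set Filter Topology Function
open scoped Manifold ContDiff

noncomputable section

namespace Pool.Agent.OmegaStab

variable {d : ℕ} {M : Type*} [MetricSpace M] [ChartedSpace (EE d) M] {r : ℕ∞}
  [CompactSpace M] [IsManifold (𝓡 d) ∞ M]

theorem finite_fix (hr : 1 ≤ r) {N : Set (Dyn d M r)} (hN : IsOpen[crTopology d M r] N)
    (hconj : ConjClass N) {g : Dyn d M r} (hg : g ∈ N) (n : ℕ) (hn : 0 < n) :
    {x : M | g^[n] x = x}.Finite :=
  FiniteFix.finite_fix_of_fam (fun q U hU => exists_fam q U hU) hr hN hconj hg n hn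

end Pool.Agent.OmegaStab

end
end

section

/-!
# In a conjugacy class with nonempty interior all periodic points are hyperbolic
-/

open Set Filter Topology Function
open scoped Manifold ContDiff

noncomputable section

namespace Pool.Agent.OmegaStab

section Agree

variable {M : Type*}

theorem exists_nhds_iterate_eq [TopologicalSpace M] {h : M → M} (hc : Continuous h) {C : Set M}
    (hC : IsClosed C) (z : M) (n : ℕ) (hz : ∀ j, 1 ≤ j → j ≤ n → h^[j] z ∉ C) :
    ∃ V ∈ 𝓝 z, ∀ h' : M → M, (∀ w, h w ∉ C → h' w = h w) → ∀ y ∈ V, h'^[n] y = h^[n] y := by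
  have h1 : ∀ j ∈ Finset.range n, ∀ᶠ y in 𝓝 z, h^[j + 1] y ∉ C := by
    intro j hj
    rw [Finset.mem_range] at hj
    have h2 : Cᶜ ∈ 𝓝 (h^[j + 1] z) := hC.isOpen_compl.mem_nhds (hz (j + 1) (by omega) (by omega))
    exact (hc.iterate (j + 1)).continuousAt.eventually h2
  have h2 := (Finset.eventually_all (Finset.range n)).2 h1
  refine ⟨_, h2, fun h' hag y hy => ?_⟩
  refine iterate_eq_of_agree n (fun j hj => hag _ ?_) n le_rfl
  have := hy j (Finset.mem_range.2 hj)
  rwa [Function.iterate_succ_apply'] at this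

end Agree

section Man

variable {d : ℕ} {M : Type*} [MetricSpace M] [ChartedSpace (EE d) M] {r : ℕ∞}

theorem fix_subset_nonwandering {M : Type*} [TopologicalSpace M] {f : M → M} {n : ℕ} (hn : 0 < n)
    {x : M} (hx : f^[n] x = x) : x ∈ nonwandering f := by
  intro U hU
  exact ⟨n, hn, x, ⟨x, mem_of_mem_nhds hU, hx⟩, mem_of_mem_nhds hU⟩

theorem nonwandering_map (f : Dyn d M r) {x : M} (hx : x ∈ nonwandering f) :
    f x ∈ nonwandering f := by
  intro U hU
  obtain ⟨n, hn, y, ⟨z, hz, hzy⟩, hy⟩ := hx (f ⁻¹' U) (f.continuous.continuousAt.preimage_mem_nhds hU)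
  refine ⟨n, hn, f y, ⟨f z, hz, ?_⟩, hy⟩
  rw [← hzy, ← Function.iterate_succ_apply f n z, Function.iterate_succ_apply' f n z]

theorem nonwandering_iterate (f : Dyn d M r) {x : M} (hx : x ∈ nonwandering f) (n : ℕ) :
    f^[n] x ∈ nonwandering f := by
  induction n with
  | zero => exact hx
  | succ n ih => rw [Function.iterate_succ_apply']; exact nonwandering_map f ih

theorem conj_iterate {f g : Dyn d M r} (h : nonwandering f ≃ₜ nonwandering g)
    (hh : ∀ x y : nonwandering f, (y : M) = f x → (h y : M) = g (h x)) (n : ℕ)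
    (x y : nonwandering f) (hy : (y : M) = f^[n] x) : (h y : M) = g^[n] (h x) := by
  induction n generalizing y with
  | zero =>
    have : y = x := Subtype.ext hy
    rw [this]; rfl
  | succ n ih =>
    rw [Function.iterate_succ_apply'] at hy ⊢
    have h1 := ih ⟨f^[n] x, nonwandering_iterate f x.2 n⟩ rfl
    rw [← h1]
    exact hh _ y hy

theorem ncard_fix_le {N : Set (Dyn d M r)} (hconj : ConjClass N)
    {f g : Dyn d M r} (hf : f ∈ N) (hg : g ∈ N) {n : ℕ} (hn : 0 < n)
    (hfin : {x : M | g^[n] x = x}.Finite) :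
    {x : M | f^[n] x = x}.ncard ≤ {x : M | g^[n] x = x}.ncard := by
  classical
  obtain ⟨h, hh⟩ := hconj f hf g hg
  refine Set.ncard_le_ncard_of_injOn
    (fun x => if hx : x ∈ nonwandering f then (h ⟨x, hx⟩ : M) else x) ?_ ?_ hfin
  · intro x hx
    have hx' : x ∈ nonwandering f := fix_subset_nonwandering hn hx
    simp only [hx', dif_pos]
    exact (conj_iterate h hh n ⟨x, hx'⟩ ⟨x, hx'⟩ hx.symm).symm
  · intro x hx y hy hxy
    have hx' : x ∈ nonwandering f := fix_subset_nonwandering hn hx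
    have hy' : y ∈ nonwandering f := fix_subset_nonwandering hn hy
    simp only [hx', hy', dif_pos] at hxy
    exact congrArg Subtype.val (h.injective (Subtype.ext hxy))

variable [CompactSpace M] [IsManifold (𝓡 d) ∞ M]

theorem hypAt_of_conjClass (hr : 1 ≤ r) {N : Set (Dyn d M r)} (hN : IsOpen[crTopology d M r] N)
    (hconj : ConjClass N) : ∀ g ∈ N, ∀ p ∈ periodicPts g, HypAt (d := d) g p := by
  intro g hg p hp
  refine ⟨hp, ?_⟩
  by_contra hnot
  set k := minimalPeriod g p with hkdef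
  have hk0 : 0 < k := minimalPeriod_pos_of_mem_periodicPts hp
  have hk : g^[k] p = p := iterate_minimalPeriod
  have hkj : ∀ j, 1 ≤ j → j ≤ k - 1 → g^[j] p ≠ p := fun j hj1 hjk he =>
    absurd (IsPeriodicPt.minimalPeriod_le (by omega) he) (by omega)
  have hps : p ∈ (extChartAt (𝓡 d) p).source := mem_extChartAt_source p
  set c := extChartAt (𝓡 d) p p with hc
  set D := fderiv ℝ (inCharts (d := d) p p g^[k]) c with hD
  -- a closed ball which the orbit of `p` meets only at `p`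
  obtain ⟨ε, hε, hεj⟩ : ∃ ε : ℝ, 0 < ε ∧ ∀ j, 1 ≤ j → j ≤ k - 1 →
      g^[j] p ∉ Metric.closedBall p ε := by
    have h1 : ∀ j ∈ Finset.Icc 1 (k - 1), ∀ᶠ ε : ℝ in 𝓝[>] 0, g^[j] p ∉ Metric.closedBall p ε := by
      intro j hj
      rw [Finset.mem_Icc] at hj
      have h2 : 0 < dist (g^[j] p) p := dist_pos.2 (hkj j hj.1 hj.2)
      filter_upwards [Ioo_mem_nhdsGT h2] with ε hε hmem
      rw [Metric.mem_closedBall] at hmem
      exact absurd hε.2 (not_lt.2 hmem)
    have h2 := ((Finset.eventually_all (Finset.Icc 1 (k - 1))).2 h1).and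
      (eventually_mem_nhdsWithin)
    obtain ⟨ε, h3, h4⟩ := h2.exists
    exact ⟨ε, h4, fun j hj1 hj2 => h3 j (Finset.mem_Icc.2 ⟨hj1, hj2⟩)⟩
  -- the derivative is invertible
  have hDinj : Injective D := fderiv_inCharts_injective hr g k p p p hps (by rw [hk]; exact hps)
  have hDbij : Bijective D :=
    ⟨hDinj, (LinearMap.injective_iff_surjective (f := (D : EE d →ₗ[ℝ] EE d))).1 hDinj⟩
  have hgD : HasStrictFDerivAt (inCharts (d := d) p p g^[k]) D c :=
    (contDiffAt_inCharts_iterate hr g k p p p hps (by rw [hk]; exact hps)).hasStrictFDerivAt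
      (by norm_num)
  -- first perturbation
  obtain ⟨h₁, hh₁, hs₁, W₁, hW₁, hform₁⟩ := exists_linear_fam (d := d) (r := r) p _
    (Metric.ball_mem_nhds p hε)
  have hNg : N ∈ @nhds _ (crTopology d M r) g := by
    let _ := crTopology d M r
    exact IsOpen.mem_nhds hN hg
  obtain ⟨δ₁, hδ₁, hδ₁'⟩ := Metric.eventually_nhds_iff.1
    (((hh₁.tendsto g).eventually hNg).and hform₁)
  obtain ⟨L₁, b, e, hL₁, hb, he, hDe, hsurj⟩ := exists_resonant D hDbij hnot δ₁ hδ₁
  obtain ⟨hg₁N, hform₁'⟩ := hδ₁' (by rwa [dist_zero_right] : dist L₁ 0 < δ₁)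
  set g₁ : Dyn d M r := g.trans (h₁ L₁) with hg₁
  have hg₁app : ∀ y, g₁ y = h₁ L₁ (g y) := fun y => rfl
  have hag₁ : ∀ w, g w ∉ Metric.closedBall p ε → g₁ w = g w := fun w hw =>
    hs₁ L₁ _ fun hmem => hw (Metric.ball_subset_closedBall hmem)
  have hh₁p : h₁ L₁ p = p := by
    obtain ⟨h1, h2⟩ := hform₁' p (mem_of_mem_nhds hW₁)
    apply (extChartAt (𝓡 d) p).injOn h1 hps
    rw [h2, sub_self, map_zero, add_zero]
  obtain ⟨V₁, hV₁, hV₁'⟩ := exists_nhds_iterate_eq g.continuous Metric.isClosed_closedBall p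
    (k - 1) hεj
  have hg₁j : ∀ j ≤ k - 1, g₁^[j] p = g^[j] p := by
    refine iterate_eq_of_agree (k - 1) fun j hj => hag₁ _ ?_
    rw [← Function.iterate_succ_apply' g j]
    exact hεj (j + 1) (by omega) (by omega)
  have hg₁k : ∀ y ∈ V₁, g₁^[k] y = h₁ L₁ (g^[k] y) := by
    intro y hy
    obtain ⟨j, hj⟩ := Nat.exists_eq_add_of_le' (show 1 ≤ k from hk0)
    have h1 := hV₁' g₁ hag₁ y hy
    rw [show k - 1 = j by omega] at h1
    rw [hj, Function.iterate_succ_apply', h1, hg₁app, Function.iterate_succ_apply']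
  have hg₁p : g₁^[k] p = p := by rw [hg₁k p (mem_of_mem_nhds hV₁), hk, hh₁p]
  set D₁ : EE d →L[ℝ] EE d := D + L₁.comp D with hD₁
  have hcsymm : Tendsto (extChartAt (𝓡 d) p).symm (𝓝 c) (𝓝 p) := by
    have h1 := continuousAt_extChartAt_symm (I := 𝓡 d) p
    have h2 := h1.tendsto
    rwa [(extChartAt (𝓡 d) p).left_inv hps] at h2
  have hkc : Tendsto (g^[k]) (𝓝 p) (𝓝 p) := by
    have := (g.continuous.iterate k).tendsto p
    rwa [hk] at this
  have hk₁c : Tendsto (g₁^[k]) (𝓝 p) (𝓝 p) := by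
    have := (g₁.continuous.iterate k).tendsto p
    rwa [hg₁p] at this
  have hg₁eq : (inCharts (d := d) p p g₁^[k]) =ᶠ[𝓝 c] fun u =>
      inCharts p p g^[k] u + L₁ (inCharts p p g^[k] u - c) := by
    filter_upwards [hcsymm.eventually hV₁, (hkc.comp hcsymm).eventually hW₁] with u h1 h2
    simp only [inCharts]
    rw [hg₁k _ h1]
    exact (hform₁' _ h2).2
  have hg₁D : HasStrictFDerivAt (inCharts (d := d) p p g₁^[k]) D₁ c := by
    refine HasStrictFDerivAt.congr_of_eventuallyEq ?_ hg₁eq.symm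
    exact hgD.add (L₁.hasStrictFDerivAt.comp c (hgD.sub_const c))
  -- second perturbation
  have hfin := finite_fix hr hN hconj hg₁N (k * b) (Nat.mul_pos hk0 hb)
  set S : Set M := {x : M | g₁^[k * b] x = x} with hS
  obtain ⟨ε₂, hε₂, hε₂ε, hε₂S⟩ : ∃ ε₂ : ℝ, 0 < ε₂ ∧ ε₂ ≤ ε ∧ ∀ x ∈ S, x ≠ p →
      x ∉ Metric.ball p ε₂ := by
    have h1 : (S \ {p})ᶜ ∈ 𝓝 p := by
      refine (hfin.subset sdiff_subset).isClosed.isOpen_compl.mem_nhds ?_
      simp
    obtain ⟨ε', hε', h2⟩ := Metric.mem_nhds_iff.1 h1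
    refine ⟨min ε ε', lt_min hε hε', min_le_left _ _, fun x hx hxp hmem => ?_⟩
    exact h2 (Metric.ball_subset_ball (min_le_right _ _) hmem) ⟨hx, hxp⟩
  obtain ⟨h₂, hh₂, hs₂, W₂, hW₂, hform₂⟩ := exists_linear_fam (d := d) (r := r) p _
    (Metric.ball_mem_nhds p hε₂)
  have hNg₁ : N ∈ @nhds _ (crTopology d M r) g₁ := by
    let _ := crTopology d M r
    exact IsOpen.mem_nhds hN hg₁N
  obtain ⟨δ₂, hδ₂, hδ₂'⟩ := Metric.eventually_nhds_iff.1
    (((hh₂.tendsto g₁).eventually hNg₁).and hform₂)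
  obtain ⟨V₂, hV₂, hV₂'⟩ := exists_nhds_iterate_eq g₁.continuous Metric.isClosed_closedBall p
    (k - 1) (C := Metric.closedBall p ε) (fun j hj1 hj2 => by rw [hg₁j j hj2]; exact hεj j hj1 hj2)
  -- the neighbourhood in the chart
  set F : EE d → EE d := fun u => inCharts (d := d) p p g₁^[k] (c + u) - c with hF
  have hFD : HasStrictFDerivAt F D₁ 0 := by
    have h1 : HasStrictFDerivAt (fun u : EE d => c + u) (ContinuousLinearMap.id ℝ (EE d)) 0 :=
      (hasStrictFDerivAt_id _).const_add _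
    have h2 : HasStrictFDerivAt (inCharts (d := d) p p g₁^[k]) D₁ (c + 0) := by
      rw [add_zero]; exact hg₁D
    exact (h2.comp (0 : EE d) h1).sub_const c
  have hF0 : F 0 = 0 := by
    simp only [hF]
    rw [add_zero, hc, inCharts_apply hps, hg₁p, sub_self]
  have hcadd : Tendsto (fun u : EE d => c + u) (𝓝 0) (𝓝 c) := by
    have : Tendsto (fun u : EE d => c + u) (𝓝 0) (𝓝 (c + 0)) :=
      (continuous_const.add continuous_id).tendsto 0
    rwa [add_zero] at this
  obtain ⟨η, hη, hη'⟩ : ∃ η : ℝ, 0 < η ∧ ∀ u : EE d, ‖u‖ < η →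
      c + u ∈ (extChartAt (𝓡 d) p).target ∧
      (extChartAt (𝓡 d) p).symm (c + u) ∈ V₂ ∧
      (extChartAt (𝓡 d) p).symm (c + u) ∈ W₂ ∧
      (extChartAt (𝓡 d) p).symm (c + u) ∈ Metric.ball p ε₂ ∧
      g₁^[k] ((extChartAt (𝓡 d) p).symm (c + u)) ∈ (extChartAt (𝓡 d) p).source := by
    have h1 : Tendsto (fun u : EE d => (extChartAt (𝓡 d) p).symm (c + u)) (𝓝 0) (𝓝 p) :=
      hcsymm.comp hcadd
    have h2 : ∀ᶠ u in 𝓝 (0 : EE d), c + u ∈ (extChartAt (𝓡 d) p).target :=
      hcadd.eventually (extChartAt_target_mem_nhds (I := 𝓡 d) p)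
    have h3 := (((h2.and (h1.eventually hV₂)).and (h1.eventually hW₂)).and
      (h1.eventually (Metric.ball_mem_nhds p hε₂))).and
      ((hk₁c.comp h1).eventually (extChartAt_source_mem_nhds (I := 𝓡 d) p))
    obtain ⟨η, hη, h4⟩ := Metric.eventually_nhds_iff.1 h3
    refine ⟨η, hη, fun u hu => ?_⟩
    obtain ⟨⟨⟨⟨h5, h6⟩, h7⟩, h8⟩, h9⟩ := h4 (by rwa [dist_zero_right] : dist u 0 < η)
    exact ⟨h5, h6, h7, h8, h9⟩
  obtain ⟨L₂, z, hL₂, hz0, hzb, hzsmall, hzstep⟩ := exists_periodic_perturbation F D₁ hFD hF0 b hb e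
    he hDe hsurj (min η δ₂) (lt_min hη hδ₂)
  obtain ⟨hg₂N, hform₂'⟩ := hδ₂' (by
    rw [dist_zero_right]; exact lt_of_lt_of_le hL₂ (min_le_right _ _) : dist L₂ 0 < δ₂)
  set g₂ : Dyn d M r := g₁.trans (h₂ L₂) with hg₂
  have hg₂app : ∀ y, g₂ y = h₂ L₂ (g₁ y) := fun y => rfl
  have hh₂p : h₂ L₂ p = p := by
    obtain ⟨h1, h2⟩ := hform₂' p (mem_of_mem_nhds hW₂)
    apply (extChartAt (𝓡 d) p).injOn h1 hps
    rw [h2, sub_self, map_zero, add_zero]
  have hag₂ : ∀ w, g₁ w ∉ Metric.ball p ε₂ ∨ g₁ w = p → g₂ w = g₁ w := by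
    rintro w (hw | hw)
    · exact hs₂ L₂ _ hw
    · rw [hg₂app, hw, hh₂p]
  have hag₂' : ∀ w, g₁ w ∉ Metric.closedBall p ε → g₂ w = g₁ w := fun w hw =>
    hag₂ w (Or.inl fun hmem => hw (Metric.ball_subset_closedBall
      (Metric.ball_subset_ball hε₂ε hmem)))
  have hg₂k : ∀ y ∈ V₂, g₂^[k] y = h₂ L₂ (g₁^[k] y) := by
    intro y hy
    obtain ⟨j, hj⟩ := Nat.exists_eq_add_of_le' (show 1 ≤ k from hk0)
    have h1 := hV₂' g₂ hag₂' y hy
    rw [show k - 1 = j by omega] at h1
    rw [hj, Function.iterate_succ_apply', h1, hg₂app, Function.iterate_succ_apply']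
  -- old fixed points persist
  have hold : S ⊆ {x : M | g₂^[k * b] x = x} := by
    intro x hx
    have hxS : ∀ j, g₁^[j] x ∈ S := by
      intro j
      change g₁^[k * b] (g₁^[j] x) = g₁^[j] x
      rw [← Function.iterate_add_apply, Nat.add_comm, Function.iterate_add_apply,
        show g₁^[k * b] x = x from hx]
    have h1 := iterate_eq_of_agree (h := g₁) (h' := g₂) (y := x) (k * b) (fun j _ => by
      apply hag₂
      rw [← Function.iterate_succ_apply' g₁ j]
      by_cases hjp : g₁^[j + 1] x = p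
      · exact Or.inr hjp
      · exact Or.inl (hε₂S _ (hxS (j + 1)) hjp)) (k * b) le_rfl
    change g₂^[k * b] x = x
    rw [h1]
    exact hx
  -- the new fixed point
  set y : ℕ → M := fun i => (extChartAt (𝓡 d) p).symm (c + z i) with hy
  have hzη : ∀ i ≤ b, ‖z i‖ < η ∧ ‖F (z i)‖ < η := fun i hi =>
    ⟨lt_of_lt_of_le (hzsmall i hi).1 (min_le_left _ _),
      lt_of_lt_of_le (hzsmall i hi).2 (min_le_left _ _)⟩
  have hystep : ∀ i ≤ b, g₂^[k] (y i) = y (i + 1) := by
    intro i hi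
    obtain ⟨h1, h2, -, -, h5⟩ := hη' (z i) (hzη i hi).1
    obtain ⟨k1, -, k3, -, -⟩ := hη' (F (z i)) (hzη i hi).2
    have h6 : g₁^[k] (y i) = (extChartAt (𝓡 d) p).symm (c + F (z i)) := by
      simp only [hF, hy, inCharts]
      rw [add_sub_cancel, (extChartAt (𝓡 d) p).left_inv h5]
    rw [hg₂k (y i) h2, h6]
    obtain ⟨h7, h8⟩ := hform₂' _ k3
    rw [(extChartAt (𝓡 d) p).right_inv k1, add_sub_cancel_left] at h8
    rw [← (extChartAt (𝓡 d) p).left_inv h7, h8, hy]
    simp only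
    rw [hzstep i, add_assoc]
  have hyiter : ∀ i ≤ b, g₂^[k * i] (y 0) = y i := by
    intro i
    induction i with
    | zero => intro _; rfl
    | succ i ih =>
      intro hi
      rw [Nat.mul_succ, Nat.add_comm, Function.iterate_add_apply, ih (by omega),
        hystep i (by omega)]
  have hynew : g₂^[k * b] (y 0) = y 0 := by
    rw [hyiter b le_rfl, hy]
    simp only
    rw [hzb]
  have hyS : y 0 ∉ S := by
    intro hmem
    obtain ⟨h1, -, -, h4, -⟩ := hη' (z 0) (hzη 0 (Nat.zero_le _)).1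
    refine hε₂S _ hmem (fun hyp => hz0 ?_) h4
    have h5 := congrArg (extChartAt (𝓡 d) p) hyp
    simp only [hy] at h5
    rw [(extChartAt (𝓡 d) p).right_inv h1] at h5
    simpa [hc] using h5
  -- contradiction
  have hfin₂ := finite_fix hr hN hconj hg₂N (k * b) (Nat.mul_pos hk0 hb)
  have h1 : {x : M | g₂^[k * b] x = x}.ncard ≤ S.ncard :=
    ncard_fix_le hconj hg₂N hg₁N (Nat.mul_pos hk0 hb) hfin
  have h2 : (insert (y 0) S).ncard ≤ {x : M | g₂^[k * b] x = x}.ncard :=
    Set.ncard_le_ncard (insert_subset hynew hold) hfin₂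
  rw [Set.ncard_insert_of_notMem hyS hfin] at h2
  omega

end Man

end Pool.Agent.OmegaStab

end
end
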