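import Pool.Agent.Work.MP_814647_an.Bd.B01
import Pool.Agent.Work.MP_814647_an.PS.Geo
import Pool.Agent.Work.MP_814647_an.Bd.B03
import Pool.Agent.Work.MP_814647_an.PS.Geo2

/-! Bundle of small proof modules (one section per former module). -/

section

/-!
# The two operators of a hyperbolic pair have the same index
-/

open Set Filter Topology Function

noncomputable section

namespace Pool.Agent.OmegaPS

open Pool.Agent.OmegaStab (HypLin)

variable {V : Type*} [NormedAddCommGroup V] [InnerProductSpace ℝ V]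

namespace Index

/-- strong contraction and expansion -/
def Sml (P : V ≃L[ℝ] V) (ε : ℝ) : Prop :=
  (∀ v ∈ Est P, ‖P v‖ ≤ ε * ‖v‖) ∧ ∀ v ∈ Eun P, ‖P⁻¹ v‖ ≤ ε * ‖v‖

/-- bounds for an operator and its inverse -/
def Bd (A : V ≃L[ℝ] V) (k : ℝ) : Prop := (∀ v, ‖A v‖ ≤ k * ‖v‖) ∧ ∀ v, ‖A⁻¹ v‖ ≤ k * ‖v‖

theorem inv_apply_self (P : V ≃L[ℝ] V) (v : V) : P⁻¹ (P v) = v := P.symm_apply_apply v

theorem self_inv_apply (P : V ≃L[ℝ] V) (v : V) : P (P⁻¹ v) = v := P.apply_symm_apply v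

theorem Bd.inv {A : V ≃L[ℝ] V} {k : ℝ} (h : Bd A k) : Bd A⁻¹ k := by
  refine ⟨h.2, ?_⟩
  rw [inv_inv]
  exact h.1

theorem bd_one {k : ℝ} (hk : 1 ≤ k) : Bd (1 : V ≃L[ℝ] V) k := by
  have h : ∀ v : V, ‖v‖ ≤ k * ‖v‖ := fun v => le_mul_of_one_le_left (norm_nonneg v) hk
  refine ⟨h, ?_⟩
  rw [inv_one]
  exact h

theorem map_mem_Eun {P : V ≃L[ℝ] V} {v : V} (hv : v ∈ Eun P) : P v ∈ Eun P := by
  unfold Eun at hv ⊢
  rw [← mem_Est_map, inv_apply_self]
  exact hv

theorem idx_le [FiniteDimensional ℝ V] {P Q A B : V ≃L[ℝ] V} {ε k : ℝ} (hQ : Hyp Q)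
    (hPQ : P = A * Q * B) (hε : 0 ≤ ε) (hk : 0 ≤ k) (hεk : (ε * k) ^ 2 < 1)
    (hP1 : Sml P ε) (hQ1 : Sml Q ε) (hA : Bd A k) (hB : Bd B k) :
    Module.finrank ℝ (Est P) ≤ Module.finrank ℝ (Est Q) := by
  by_contra hlt
  push Not at hlt
  set T : Submodule ℝ V := (Eun Q).map (B.symm.toLinearEquiv : V →ₗ[ℝ] V) with hT
  have hTr : Module.finrank ℝ T = Module.finrank ℝ (Eun Q) :=
    LinearEquiv.finrank_map_eq B.symm.toLinearEquiv (Eun Q)
  have hQd : Module.finrank ℝ (Est Q) + Module.finrank ℝ (Eun Q) = Module.finrank ℝ V :=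
    Submodule.finrank_add_eq_of_isCompl hQ.isCompl
  have h1 := Submodule.finrank_sup_add_finrank_inf_eq (Est P) T
  have h2 : Module.finrank ℝ (Est P ⊔ T : Submodule ℝ V) ≤ Module.finrank ℝ V :=
    Submodule.finrank_le _
  have h3 : 0 < Module.finrank ℝ (Est P ⊓ T : Submodule ℝ V) := by omega
  have h4 : (Est P ⊓ T : Submodule ℝ V) ≠ ⊥ := by
    intro h
    rw [h, finrank_bot] at h3
    exact absurd h3 (lt_irrefl 0)
  obtain ⟨v, hv, hv0⟩ := Submodule.exists_mem_ne_zero_of_ne_bot h4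
  obtain ⟨hvP, w, hw, hwv⟩ := hv
  have hwv' : B v = w := by
    rw [← hwv]
    exact B.apply_symm_apply w
  have e1 : ‖v‖ ≤ k * ‖w‖ := by
    have := hB.2 (B v)
    rwa [inv_apply_self, hwv'] at this
  have e2 : ‖w‖ ≤ ε * ‖Q w‖ := by
    have := hQ1.2 (Q w) (map_mem_Eun hw)
    rwa [inv_apply_self] at this
  have e3 : ‖Q w‖ ≤ k * ‖P v‖ := by
    have h5 : P v = A (Q w) := by
      rw [hPQ, ← hwv']
      rfl
    have := hA.2 (P v)
    rwa [h5, inv_apply_self, ← h5] at this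
  have e4 := hP1.1 v hvP
  have hvpos : 0 < ‖v‖ := norm_pos_iff.2 hv0
  have e5 : ‖v‖ ≤ (ε * k) ^ 2 * ‖v‖ := by
    calc ‖v‖ ≤ k * ‖w‖ := e1
      _ ≤ k * (ε * ‖Q w‖) := mul_le_mul_of_nonneg_left e2 hk
      _ ≤ k * (ε * (k * ‖P v‖)) :=
          mul_le_mul_of_nonneg_left (mul_le_mul_of_nonneg_left e3 hε) hk
      _ ≤ k * (ε * (k * (ε * ‖v‖))) :=
          mul_le_mul_of_nonneg_left (mul_le_mul_of_nonneg_left
            (mul_le_mul_of_nonneg_left e4 hk) hε) hk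
      _ = (ε * k) ^ 2 * ‖v‖ := by ring
  have e6 : (ε * k) ^ 2 * ‖v‖ < 1 * ‖v‖ := mul_lt_mul_of_pos_right hεk hvpos
  linarith

theorem idx [FiniteDimensional ℝ V] {P Q A B : V ≃L[ℝ] V} {ε k : ℝ} (hP : Hyp P) (hQ : Hyp Q)
    (hPQ : P = A * Q * B) (hε : 0 ≤ ε) (hk : 0 ≤ k) (hεk : (ε * k) ^ 2 < 1)
    (hP1 : Sml P ε) (hQ1 : Sml Q ε) (hA : Bd A k) (hB : Bd B k) :
    Module.finrank ℝ (Est P) = Module.finrank ℝ (Est Q) := by
  refine le_antisymm (idx_le hQ hPQ hε hk hεk hP1 hQ1 hA hB)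
    (idx_le (A := A⁻¹) (B := B⁻¹) hP ?_ hε hk hεk hQ1 hP1 hA.inv hB.inv)
  rw [hPQ]
  group

theorem exists_len (d c δ ε : ℝ) (hδ : 0 < δ) (hε : 0 < ε) :
    ∃ l₀ : ℝ, ∀ l, l₀ ≤ l → 4 * d / c * Real.exp (-δ * l) ≤ ε := by
  have h1 : Tendsto (fun l : ℝ => 4 * d / c * Real.exp (-δ * l)) atTop (𝓝 (4 * d / c * 0)) := by
    refine Tendsto.const_mul _ (Real.tendsto_exp_atBot.comp ?_)
    exact tendsto_id.const_mul_atTop_of_neg (by linarith)
  rw [mul_zero] at h1
  have h2 := h1.eventually (eventually_le_nhds hε)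
  exact eventually_atTop.1 h2

theorem sml_of [FiniteDimensional ℝ V] (P : V ≃L[ℝ] V) {l c δ ε : ℝ} (hl : 0 ≤ l) (hc : 0 < c)
    (hc' : c ≤ 1 / 2) (hδ : 0 ≤ δ)
    (h : ∀ η : ℝ, |η| ≤ δ → ∀ L, Near c L → Hyp (sc (η * l) * (L * P)))
    (hε : 4 * (Module.finrank ℝ V : ℝ) / c * Real.exp (-δ * l) ≤ ε) : Sml P ε := by
  obtain ⟨h1, h2⟩ := lemmaN_scaled P hl hc hc' hδ h
  refine ⟨fun v hv => (h1 v hv).trans ?_, fun v hv => (h2 v hv).trans ?_⟩
  · refine mul_le_mul_of_nonneg_right (le_trans ?_ hε) (norm_nonneg v)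
    refine mul_le_mul_of_nonneg_right ?_ (Real.exp_pos _).le
    refine div_le_div_of_nonneg_right ?_ hc.le
    have : (0 : ℝ) ≤ Module.finrank ℝ V := Nat.cast_nonneg _
    linarith
  · exact mul_le_mul_of_nonneg_right hε (norm_nonneg v)

end Index

open Index in
theorem PairHyp.finrank_eq [FiniteDimensional ℝ V] {X Y : V ≃L[ℝ] V} {α β c δ : ℝ}
    (h : PairHyp X Y α β c δ)
    (hα : 0 < α) (hβ : 0 < β) (hc : 0 < c) (hc' : c ≤ 1 / 2) (hδ : 0 < δ) :
    Module.finrank ℝ (Est X) = Module.finrank ℝ (Est Y) := by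
  set k : ℝ := 1 + ‖(X : V →L[ℝ] V)‖ + ‖(X⁻¹ : V ≃L[ℝ] V).toContinuousLinearMap‖ +
    ‖(Y : V →L[ℝ] V)‖ + ‖(Y⁻¹ : V ≃L[ℝ] V).toContinuousLinearMap‖ with hk
  have n1 := norm_nonneg (X : V →L[ℝ] V)
  have n2 := norm_nonneg (X⁻¹ : V ≃L[ℝ] V).toContinuousLinearMap
  have n3 := norm_nonneg (Y : V →L[ℝ] V)
  have n4 := norm_nonneg (Y⁻¹ : V ≃L[ℝ] V).toContinuousLinearMap
  have hk1 : 1 ≤ k := by linarith
  have bX : Bd X k := ⟨fun v => (X : V →L[ℝ] V).le_of_opNorm_le (by linarith) v,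
    fun v => (X⁻¹ : V ≃L[ℝ] V).toContinuousLinearMap.le_of_opNorm_le (by linarith) v⟩
  have bY : Bd Y k := ⟨fun v => (Y : V →L[ℝ] V).le_of_opNorm_le (by linarith) v,
    fun v => (Y⁻¹ : V ≃L[ℝ] V).toContinuousLinearMap.le_of_opNorm_le (by linarith) v⟩
  set ε : ℝ := 1 / (2 * k) with hε
  have hε0 : 0 < ε := by positivity
  have hεk : (ε * k) ^ 2 < 1 := by
    have : ε * k = 1 / 2 := by
      rw [hε]
      field_simp
    rw [this]
    norm_num
  obtain ⟨l₀, hl₀⟩ := exists_len (Module.finrank ℝ V) c δ ε hδ hε0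
  obtain ⟨N, hN1, hNα, hNβ⟩ : ∃ N : ℕ, 1 ≤ N ∧ l₀ ≤ N * α ∧ l₀ ≤ N * β := by
    obtain ⟨N1, h1⟩ := exists_nat_ge (l₀ / α)
    obtain ⟨N2, h2⟩ := exists_nat_ge (l₀ / β)
    refine ⟨N1 + N2 + 1, by omega, ?_, ?_⟩
    · rw [div_le_iff₀ hα] at h1
      push_cast
      nlinarith [(Nat.cast_nonneg N2 : (0 : ℝ) ≤ N2)]
    · rw [div_le_iff₀ hβ] at h2
      push_cast
      nlinarith [(Nat.cast_nonneg N1 : (0 : ℝ) ≤ N1)]
  have sW : ∀ a b : ℕ, 1 ≤ a → 1 ≤ b → (N ≤ a ∨ N ≤ b) → Sml (Y ^ b * X ^ a) ε := by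
    intro a b ha hb hab
    refine sml_of (Y ^ b * X ^ a) (l := a * α + b * β) (by positivity) hc hc' hδ.le ?_ ?_
    · intro η hη L hL
      have := h.xy a b ha hb η hη 1 L (near_one hc.le) hL
      rw [mul_one, mul_assoc] at this
      exact this
    · refine hl₀ _ ?_
      rcases hab with h1 | h1
      · have : (N : ℝ) * α ≤ a * α := mul_le_mul_of_nonneg_right (by exact_mod_cast h1) hα.le
        have : 0 ≤ (b : ℝ) * β := by positivity
        linarith
      · have : (N : ℝ) * β ≤ b * β := mul_le_mul_of_nonneg_right (by exact_mod_cast h1) hβ.le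
        have : 0 ≤ (a : ℝ) * α := by positivity
        linarith
  have hW : ∀ a b : ℕ, 1 ≤ a → 1 ≤ b → Hyp (Y ^ b * X ^ a) := by
    intro a b ha hb
    have := h.xy a b ha hb 0 (by rw [abs_zero]; exact hδ.le) 1 1 (near_one hc.le) (near_one hc.le)
    rw [zero_mul, sc_zero, one_mul, one_mul, mul_one] at this
    exact this
  have sX : Sml (X ^ N) ε := by
    refine sml_of (X ^ N) (l := N * α) (by positivity) hc hc' hδ.le (fun η hη L hL => ?_)
      (hl₀ _ hNα)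
    exact h.xx N hN1 η hη L hL
  have sY : Sml (Y ^ N) ε := by
    refine sml_of (Y ^ N) (l := N * β) (by positivity) hc hc' hδ.le (fun η hη L hL => ?_)
      (hl₀ _ hNβ)
    exact h.yy N hN1 η hη L hL
  have hX : Hyp (X ^ N) := by
    have := h.xx N hN1 0 (by rw [abs_zero]; exact hδ.le) 1 (near_one hc.le)
    rw [zero_mul, sc_zero, one_mul, one_mul] at this
    exact this
  have hY : Hyp (Y ^ N) := by
    have := h.yy N hN1 0 (by rw [abs_zero]; exact hδ.le) 1 (near_one hc.le)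
    rw [zero_mul, sc_zero, one_mul, one_mul] at this
    exact this
  have hk0 : 0 ≤ k := by linarith
  have s1 : ∀ b : ℕ, 1 ≤ b → Module.finrank ℝ (Est (Y ^ b * X ^ N)) =
      Module.finrank ℝ (Est (Y ^ 1 * X ^ N)) := by
    intro b hb
    induction b, hb using Nat.le_induction with
    | base => rfl
    | succ b hb ih =>
      rw [← ih]
      refine idx (A := Y) (B := 1) (hW N (b + 1) hN1 (by omega)) (hW N b hN1 hb) ?_ hε0.le hk0 hεk
        (sW N (b + 1) hN1 (by omega) (Or.inl le_rfl)) (sW N b hN1 hb (Or.inl le_rfl)) bY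
        (bd_one hk1)
      rw [pow_succ', mul_one, mul_assoc]
  have s2 : ∀ a : ℕ, 1 ≤ a → Module.finrank ℝ (Est (Y ^ N * X ^ a)) =
      Module.finrank ℝ (Est (Y ^ N * X ^ 1)) := by
    intro a ha
    induction a, ha using Nat.le_induction with
    | base => rfl
    | succ a ha ih =>
      rw [← ih]
      refine idx (A := 1) (B := X) (hW (a + 1) N (by omega) hN1) (hW a N ha hN1) ?_ hε0.le hk0 hεk
        (sW (a + 1) N (by omega) hN1 (Or.inr le_rfl)) (sW a N ha hN1 (Or.inr le_rfl))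
        (bd_one hk1) bX
      rw [pow_succ, one_mul, mul_assoc]
  have s3 : Module.finrank ℝ (Est (Y ^ 1 * X ^ N)) = Module.finrank ℝ (Est (X ^ N)) := by
    refine idx (A := Y) (B := 1) (hW N 1 hN1 le_rfl) hX ?_ hε0.le hk0 hεk
      (sW N 1 hN1 le_rfl (Or.inl le_rfl)) sX bY (bd_one hk1)
    rw [pow_one, mul_one]
  have s4 : Module.finrank ℝ (Est (Y ^ N * X ^ 1)) = Module.finrank ℝ (Est (Y ^ N)) := by
    refine idx (A := 1) (B := X) (hW 1 N le_rfl hN1) hY ?_ hε0.le hk0 hεk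
      (sW 1 N le_rfl hN1 (Or.inr le_rfl)) sY (bd_one hk1) bX
    rw [pow_one, one_mul]
  rw [← Est_pow (P := X) hN1, ← Est_pow (P := Y) hN1, ← s3, ← s4, ← s1 N hN1, s2 N hN1]

end Pool.Agent.OmegaPS

end
end

section

/-!
# Products: pairs of words
-/

open Set Filter Topology Function

noncomputable section

namespace Pool.Agent.OmegaPS

section Lin

variable {V : Type*} [NormedAddCommGroup V] [InnerProductSpace ℝ V]
variable [FiniteDimensional ℝ V]

theorem PairHyp.hyp_left {X Y : V ≃L[ℝ] V} {α β c δ : ℝ} (h : PairHyp X Y α β c δ)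
    (hc : 0 < c) (hδ : 0 < δ) : Hyp X ∧ Hyp Y := by
  have h0 : |(0 : ℝ)| ≤ δ := by rw [abs_zero]; exact hδ.le
  refine ⟨?_, ?_⟩
  · have h1 := h.xx 1 le_rfl 0 h0 1 (near_one hc.le)
    rwa [zero_mul, sc_zero, one_mul, one_mul, pow_one] at h1
  · have h1 := h.yy 1 le_rfl 0 h0 1 (near_one hc.le)
    rwa [zero_mul, sc_zero, one_mul, one_mul, pow_one] at h1

theorem PairHyp.separation {X Y : V ≃L[ℝ] V} {α β c δ : ℝ} (h : PairHyp X Y α β c δ)
    (hα : 0 < α) (hβ : 0 < β) (hc : 0 < c) (hc' : c ≤ 1 / 2) (hδ : 0 < δ) {v w : V}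
    (hw : w ∈ Eun X) (hv : v ∈ Est Y) : c / 4 * ‖w‖ ≤ ‖w - v‖ := by
  obtain ⟨hX, hY⟩ := h.hyp_left hc hδ
  refine Pool.Agent.OmegaPS.separation hc hc' hX hY (h.finrank_eq hα hβ hc hc' hδ) ?_ hw hv
  intro a b ha hb L R hL hR
  have h0 : |(0 : ℝ)| ≤ δ := by rw [abs_zero]; exact hδ.le
  have h1 := h.xy a b ha hb 0 h0 L R hL hR
  rwa [zero_mul, sc_zero, one_mul] at h1

theorem PairHyp.contract {X Y : V ≃L[ℝ] V} {α β c δ : ℝ} (h : PairHyp X Y α β c δ)
    (h' : PairHyp X X α α c δ) (hα : 0 < α) (hβ : 0 < β) (hc : 0 < c) (hc' : c ≤ 1 / 2)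
    (hδ : 0 < δ) {v : V} (hv : X v ∈ Est Y) :
    ‖X v‖ ≤ (1 + 4 / c) ^ 2 * (2 * Module.finrank ℝ V / c) * Real.exp (-δ * α) * ‖v‖ := by
  obtain ⟨hX, -⟩ := h.hyp_left hc hδ
  have hmem : v ∈ Est X ⊔ Eun X := by
    rw [hX.isCompl.sup_eq_top]
    exact Submodule.mem_top
  obtain ⟨s, hs, u, hu, hsu⟩ := Submodule.mem_sup.1 hmem
  have h1 := h'.separation hα hα hc hc' hδ hu (Submodule.neg_mem _ hs)
  have e1 : u - -s = v := by rw [← hsu]; abel
  rw [e1] at h1
  have h2 : ‖s‖ ≤ (1 + 4 / c) * ‖v‖ := by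
    have h3 : ‖s‖ ≤ ‖v‖ + ‖u‖ := by
      have h4 := norm_sub_le v u
      have e2 : v - u = s := by rw [← hsu]; abel
      rwa [e2] at h4
    have h5 : ‖u‖ ≤ 4 / c * ‖v‖ := by
      have h6 : ‖u‖ = 4 / c * (c / 4 * ‖u‖) := by field_simp
      rw [h6]
      exact mul_le_mul_of_nonneg_left h1 (by positivity)
    linarith
  have hXu : X u ∈ Eun X := by
    have h3 : X⁻¹ (X u) = u := by
      change (X⁻¹ * X) u = u
      rw [inv_mul_cancel]
      rfl
    have h4 : X⁻¹ (X u) ∈ Est X⁻¹ := by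
      rw [h3]
      exact hu
    exact mem_Est_map.1 h4
  have h3 := h.separation hα hβ hc hc' hδ hXu hv
  have e3 : X u - X v = -(X s) := by
    rw [← hsu, map_add]
    abel
  rw [e3, norm_neg] at h3
  have h4 : ‖X v‖ ≤ (1 + 4 / c) * ‖X s‖ := by
    have h5 : ‖X v‖ ≤ ‖X s‖ + ‖X u‖ := by
      rw [← hsu, map_add]
      exact norm_add_le _ _
    have h6 : ‖X u‖ ≤ 4 / c * ‖X s‖ := by
      have h7 : ‖X u‖ = 4 / c * (c / 4 * ‖X u‖) := by field_simp
      rw [h7]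
      exact mul_le_mul_of_nonneg_left h3 (by positivity)
    linarith
  have h5 := (lemmaN_scaled X (α := α) (c := c) (δ := δ) hα.le hc hc' hδ.le (by
    intro η hη L hL
    have h6 := h.xx 1 le_rfl η hη L hL
    rwa [Nat.cast_one, one_mul, pow_one] at h6)).1 s hs
  have hd : 0 ≤ 2 * (Module.finrank ℝ V : ℝ) / c * Real.exp (-δ * α) := by positivity
  calc ‖X v‖ ≤ (1 + 4 / c) * ‖X s‖ := h4
    _ ≤ (1 + 4 / c) * (2 * (Module.finrank ℝ V : ℝ) / c * Real.exp (-δ * α) *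
        ((1 + 4 / c) * ‖v‖)) := by
      apply mul_le_mul_of_nonneg_left _ (by positivity)
      exact h5.trans (mul_le_mul_of_nonneg_left h2 hd)
    _ = (1 + 4 / c) ^ 2 * (2 * Module.finrank ℝ V / c) * Real.exp (-δ * α) * ‖v‖ := by ring

end Lin

end Pool.Agent.OmegaPS

end
end

section

/-!
# One stage of a closed word is uniformly hyperbolic (item 15, helper86)
-/

open Set Filter Topology Function

noncomputable section

namespace Pool.Agent.OmegaPS

open Pool.Agent.OmegaStab (HypLin)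

section Abstract

variable {X V : Type*} [NormedAddCommGroup V] [InnerProductSpace ℝ V]

namespace StageUH

theorem word_mono {S : Sys X V} {ι : Type*} {τ : ι → Trans X V} {m m' : ℕ} (hm : m ≤ m')
    {i j : ι} {n : ℕ} {B : V ≃L[ℝ] V} (h : Word S τ m' i j n B) : Word S τ m i j n B := by
  rcases h with h | ⟨M, h1, h2⟩
  · exact Or.inl h
  · exact Or.inr ⟨M, h1.mono hm, h2⟩

/-- Conjugation of the return map along the stage. -/
theorem conj_eq (S : Sys X V) (B : V ≃L[ℝ] V) {n t : ℕ} (ht : t ≤ n) (y : X) :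
    S.coc t y * B * S.coc (n - t) ((S.f ^ t) y) =
      S.coc t y * (B * S.coc n y) * (S.coc t y)⁻¹ := by
  have h1 : S.coc n y = S.coc (n - t) ((S.f ^ t) y) * S.coc t y := by
    have := S.coc_add t (n - t) y
    rwa [Nat.add_sub_cancel' ht] at this
  rw [h1]
  group

theorem coc_split (S : Sys X V) {s s' : ℕ} (h : s ≤ s') (y : X) (v : V) :
    S.coc s' y v = S.coc (s' - s) ((S.f ^ s) y) (S.coc s y v) := by
  have h1 : S.coc s' y = S.coc (s' - s) ((S.f ^ s) y) * S.coc s y := by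
    have := S.coc_add s (s' - s) y
    rwa [Nat.add_sub_cancel' h] at this
  rw [h1]
  rfl

theorem norm_apply_le (T : V ≃L[ℝ] V) {K : ℝ} (h : ‖(T : V →L[ℝ] V)‖ ≤ K) (v : V) :
    ‖T v‖ ≤ K * ‖v‖ := (T : V →L[ℝ] V).le_of_opNorm_le h v

theorem norm_le_apply (T : V ≃L[ℝ] V) {K : ℝ}
    (h : ‖((T⁻¹ : V ≃L[ℝ] V) : V →L[ℝ] V)‖ ≤ K) (v : V) : ‖v‖ ≤ K * ‖T v‖ := by
  have h1 := norm_apply_le T⁻¹ h (T v)
  have h2 : (T⁻¹ : V ≃L[ℝ] V) (T v) = v := by
    have : (T⁻¹ * T : V ≃L[ℝ] V) v = v := by rw [inv_mul_cancel]; rfl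
    exact this
  rwa [h2] at h1

/-- Forward steps only. -/
theorem fwd (g : ℕ → ℝ) {L : ℝ} {N : ℕ} (h : ∀ t, t < N → g (t + 1) ≤ g t + L) :
    ∀ s t, s ≤ t → t ≤ N → g t ≤ g s + L * (t - s) := by
  intro s t hst
  induction t, hst using Nat.le_induction with
  | base => intro _; simp
  | succ t hst ih =>
    intro htN
    have h1 := ih (by omega)
    have h2 := h t (by omega)
    push_cast
    linarith

/-- The two ends. -/
theorem ends (g : ℕ → ℝ) {L δ E : ℝ} {m n : ℕ} (hL : 0 ≤ L) (hδ : 0 ≤ δ) (hE : 0 ≤ E)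
    (hmn : 2 * m ≤ n) (h : ∀ t, t < n → g (t + 1) ≤ g t + L)
    (hw : ∀ t₁ t₂, m ≤ t₁ → t₁ ≤ t₂ → t₂ ≤ n - m → g t₂ ≤ g t₁ - δ * (t₂ - t₁) + E) :
    ∀ t₁ t₂, t₁ ≤ t₂ → t₂ ≤ n → g t₂ ≤ g t₁ - δ * (t₂ - t₁) + (E + 2 * m * (L + δ)) := by
  intro t₁ t₂ h12 h2n
  have hf := fwd g h
  have hm0 : (0 : ℝ) ≤ m := Nat.cast_nonneg m
  have hpos : 0 ≤ (m : ℝ) * (L + δ) := by positivity
  -- a short window
  have short : ∀ a b : ℕ, a ≤ b → b ≤ n → b ≤ a + m →
      g b ≤ g a - δ * (b - a) + m * (L + δ) := by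
    intro a b hab hbn hbm
    have h1 := hf a b hab hbn
    have h2 : (b : ℝ) ≤ a + m := by exact_mod_cast hbm
    have h3 : (b - a : ℝ) * (L + δ) ≤ m * (L + δ) :=
      mul_le_mul_of_nonneg_right (by linarith) (by linarith)
    nlinarith
  rcases le_total t₂ m with c1 | c1
  · have := short t₁ t₂ h12 h2n (by omega)
    linarith
  rcases le_total (n - m) t₁ with c2 | c2
  · have := short t₁ t₂ h12 h2n (by omega)
    linarith
  have e1 : m ≤ max t₁ m := le_max_right _ _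
  have e2 : max t₁ m ≤ min t₂ (n - m) := by
    rw [le_min_iff, max_le_iff, max_le_iff]
    refine ⟨⟨h12, c1⟩, ⟨c2, by omega⟩⟩
  have e3 : min t₂ (n - m) ≤ n - m := min_le_right _ _
  have w1 := short t₁ (max t₁ m) (le_max_left _ _) (by omega) (by omega)
  have w2 := hw (max t₁ m) (min t₂ (n - m)) e1 e2 e3
  have w3 := short (min t₂ (n - m)) t₂ (min_le_left _ _) h2n (by omega)
  nlinarith

end StageUH

open StageUH

/-! AB6 : one stage -/
theorem stage_uh [FiniteDimensional ℝ V] (S : Sys X V) {m k : ℕ} (hm : 1 ≤ m)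
    (h : Star S m (k + 4)) :
    ∃ (C δ : ℝ) (n₀ : ℕ), 1 ≤ C ∧ 0 < δ ∧ ∀ (ι : Type) [Fintype ι], Fintype.card ι ≤ k →
      ∀ τ : ι → Trans X V, (∀ i, S.Tr (τ i).src (τ i).tgt (τ i).mat) → ∀ (i j : ι) (l : ℕ)
        (B : V ≃L[ℝ] V), Word S τ n₀ i j l B → ∀ n : ℕ, n₀ ≤ n →
        (S.f ^ n) (τ j).tgt = (τ i).src →
        Hyp (B * S.coc n (τ j).tgt) ∧
        (∀ v ∈ Est (B * S.coc n (τ j).tgt), ∀ w ∈ Eun (B * S.coc n (τ j).tgt),
          ‖v‖ ≤ C * ‖v + w‖ ∧ ‖w‖ ≤ C * ‖v + w‖) ∧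
        ∀ v ∈ Est (B * S.coc n (τ j).tgt), ∀ t₁ t₂ : ℕ, t₁ ≤ t₂ → t₂ ≤ n →
          ‖S.coc t₂ (τ j).tgt v‖ ≤ C * Real.exp (-δ * (t₂ - t₁)) * ‖S.coc t₁ (τ j).tgt v‖ := by
  obtain ⟨δ, hδ, hgap⟩ := gap (k := k + 3) S hm h
  have := S.fin
  let _ : Fintype S.κ := Fintype.ofFinite S.κ
  have hc := S.c_pos
  have hc' := S.c_le
  have hK := S.one_le_K
  have hm' : 1 ≤ 4 * m := by omega
  obtain ⟨L, hLd⟩ : ∃ L, L = Real.log S.K := ⟨_, rfl⟩
  have hL : 0 ≤ L := by rw [hLd]; exact Real.log_nonneg hK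
  obtain ⟨A, hA⟩ : ∃ A : ℝ, A = (1 + 4 / S.c) ^ 2 * (2 * Module.finrank ℝ V / S.c) := ⟨_, rfl⟩
  obtain ⟨κ₃, hκ₃⟩ : ∃ κ₃, κ₃ = max 0 (Real.log A) := ⟨_, rfl⟩
  have hκ₃0 : 0 ≤ κ₃ := by rw [hκ₃]; exact le_max_left _ _
  have hκ₃A : Real.log A ≤ κ₃ := by rw [hκ₃]; exact le_max_right _ _
  obtain ⟨E, hE⟩ : ∃ E : ℝ, E = Fintype.card S.κ * (κ₃ + (L + δ) * ((4 * m : ℕ) + 1)) :=
    ⟨_, rfl⟩
  have hE0 : 0 ≤ E := by rw [hE]; positivity
  obtain ⟨C₂, hC₂⟩ : ∃ C₂ : ℝ, C₂ = E + 2 * (4 * m : ℕ) * (L + δ) := ⟨_, rfl⟩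
  obtain ⟨C, hC⟩ : ∃ C : ℝ, C = max (Real.exp C₂)
    (1 + S.K ^ (4 * m) * (4 / S.c * S.K ^ (4 * m))) := ⟨_, rfl⟩
  have hC1 : Real.exp C₂ ≤ C := by rw [hC]; exact le_max_left _ _
  have hC2 : 1 + S.K ^ (4 * m) * (4 / S.c * S.K ^ (4 * m)) ≤ C := by
    rw [hC]; exact le_max_right _ _
  have hKm : 0 < S.K ^ (4 * m) := by positivity
  have hCpos : 1 ≤ C := by
    have : 0 ≤ S.K ^ (4 * m) * (4 / S.c * S.K ^ (4 * m)) := by positivity
    linarith
  refine ⟨C, δ, 2 * (4 * m) + 1, hCpos, hδ, ?_⟩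
  intro ι _ hι τ hτ i j l B hB n hn hend
  obtain ⟨y, hy⟩ : ∃ y, y = (τ j).tgt := ⟨_, rfl⟩
  have hB' : Word S τ (4 * m) i j l B := word_mono (by omega) hB
  rw [← hy] at hend ⊢
  have hn0 : 0 < (n : ℝ) + l := by
    have : 0 < n := by omega
    positivity
  -- the conjugated return map at time `4 m`
  have hself := pathalg_self S hgap ι hι τ hτ hB' (by rw [← hy]; exact hend) (t := 4 * m)
    le_rfl (by omega) hm'
  rw [← hy, conj_eq S B (by omega : 4 * m ≤ n) y] at hself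
  obtain ⟨T, hT⟩ : ∃ T, T = S.coc (4 * m) y := ⟨_, rfl⟩
  obtain ⟨P, hP⟩ : ∃ P, P = B * S.coc n y := ⟨_, rfl⟩
  rw [← hT, ← hP] at hself
  have hTn : ‖(T : V →L[ℝ] V)‖ ≤ S.K ^ (4 * m) := by rw [hT]; exact S.norm_coc _ _
  have hTn' : ‖((T⁻¹ : V ≃L[ℝ] V) : V →L[ℝ] V)‖ ≤ S.K ^ (4 * m) := by
    rw [hT]; exact S.norm_coc_inv _ _
  rw [← hP]
  have hPH : Hyp P := by
    have h1 := (hself.hyp_left hc hδ).1
    have h2 : Hyp (T⁻¹ * (T * P)) := by
      rw [hyp_mul_comm]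
      exact h1
    rwa [inv_mul_cancel_left] at h2
  have hstT : ∀ v ∈ Est P, T v ∈ Est (T * P * T⁻¹) := by
    intro v hv
    rw [mem_Est_conj]
    have : (T⁻¹ : V ≃L[ℝ] V) (T v) = v := by
      have : (T⁻¹ * T : V ≃L[ℝ] V) v = v := by rw [inv_mul_cancel]; rfl
      exact this
    rw [this]
    exact hv
  have hunT : ∀ v ∈ Eun P, T v ∈ Eun (T * P * T⁻¹) := by
    intro v hv
    have e : (T * P * T⁻¹ : V ≃L[ℝ] V)⁻¹ = T * P⁻¹ * T⁻¹ := by group
    rw [Eun, e, mem_Est_conj]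
    have : (T⁻¹ : V ≃L[ℝ] V) (T v) = v := by
      have : (T⁻¹ * T : V ≃L[ℝ] V) v = v := by rw [inv_mul_cancel]; rfl
      exact this
    rw [this]
    exact hv
  refine ⟨hPH, ?_, ?_⟩
  · -- the angle
    intro v hv w hw
    have h1 := hself.separation hn0 hn0 hc hc' hδ (hunT w hw)
      (Submodule.neg_mem _ (hstT v hv))
    rw [sub_neg_eq_add, ← map_add] at h1
    have h2 := norm_apply_le T hTn (w + v)
    have h3 := norm_le_apply T hTn' w
    have h4 : ‖T w‖ ≤ 4 / S.c * (S.K ^ (4 * m) * ‖w + v‖) := by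
      have : ‖T w‖ = 4 / S.c * (S.c / 4 * ‖T w‖) := by field_simp
      rw [this]
      exact mul_le_mul_of_nonneg_left (h1.trans h2) (by positivity)
    have h5 : ‖w‖ ≤ S.K ^ (4 * m) * (4 / S.c * S.K ^ (4 * m)) * ‖v + w‖ := by
      calc ‖w‖ ≤ S.K ^ (4 * m) * ‖T w‖ := h3
        _ ≤ S.K ^ (4 * m) * (4 / S.c * (S.K ^ (4 * m) * ‖w + v‖)) :=
          mul_le_mul_of_nonneg_left h4 hKm.le
        _ = S.K ^ (4 * m) * (4 / S.c * S.K ^ (4 * m)) * ‖v + w‖ := by
          rw [add_comm w v]; ring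
    have h6 : ‖v‖ ≤ ‖v + w‖ + ‖w‖ := by
      have : v = (v + w) - w := by abel
      calc ‖v‖ = ‖(v + w) - w‖ := by rw [← this]
        _ ≤ _ := norm_sub_le _ _
    have h7 : (1 + S.K ^ (4 * m) * (4 / S.c * S.K ^ (4 * m))) * ‖v + w‖ ≤ C * ‖v + w‖ :=
      mul_le_mul_of_nonneg_right hC2 (norm_nonneg _)
    have h8 := norm_nonneg (v + w)
    constructor
    · linarith
    · linarith
  · -- the windows
    intro v hv t₁ t₂ h12 h2n
    by_cases hv0 : v = 0
    · rw [hv0]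
      simp
    have hpos : ∀ t, 0 < ‖S.coc t y v‖ := by
      intro t
      rw [norm_pos_iff]
      intro hcon
      exact hv0 ((S.coc t y).map_eq_zero_iff.1 hcon)
    obtain ⟨g, hg⟩ : ∃ g : ℕ → ℝ, ∀ t, g t = Real.log ‖S.coc t y v‖ := ⟨_, fun _ => rfl⟩
    have hstep : ∀ t, t < n → g (t + 1) ≤ g t + L := by
      intro t _
      rw [hg, hg, hLd, ← Real.log_mul (hpos t).ne' (by positivity)]
      apply Real.log_le_log (hpos _)
      rw [coc_split S (Nat.le_succ t) y v]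
      have h1 := norm_apply_le (S.coc (t + 1 - t) ((S.f ^ t) y)) (S.norm_coc _ _) (S.coc t y v)
      have e : t + 1 - t = 1 := by omega
      rw [e, pow_one] at h1
      rw [Nat.succ_eq_add_one, e, mul_comm]
      exact h1
    have hcell : ∀ s s', 4 * m ≤ s → s + 4 * m ≤ s' → s' ≤ n - 4 * m →
        S.cell ((S.f ^ s) y) = S.cell ((S.f ^ s') y) → g s' ≤ g s - δ * (s' - s) + κ₃ := by
      intro s s' hs hss hs' hce
      have hpair := pathalg_pair S hgap ι hι τ hτ hB' (by rw [← hy]; exact hend) (t := s)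
        (t' := s') hs hss (by omega) hm' (by rw [← hy]; exact hce)
      rw [← hy, conj_eq S B (by omega : s' ≤ n) y, ← hP] at hpair
      have hα : 0 < (s' : ℝ) - s := by
        have : (s : ℝ) < s' := by exact_mod_cast (by omega : s < s')
        linarith
      have hmem : S.coc (s' - s) ((S.f ^ s) y) (S.coc s y v) ∈
          Est (S.coc s' y * P * (S.coc s' y)⁻¹) := by
        rw [← coc_split S (by omega : s ≤ s') y v, mem_Est_conj]
        have : ((S.coc s' y)⁻¹ : V ≃L[ℝ] V) (S.coc s' y v) = v := by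
          have : ((S.coc s' y)⁻¹ * S.coc s' y : V ≃L[ℝ] V) v = v := by
            rw [inv_mul_cancel]; rfl
          exact this
        rw [this]
        exact hv
      have hcon := hpair.1.contract hpair.2 hα hn0 hc hc' hδ hmem
      rw [← coc_split S (by omega : s ≤ s') y v, ← hA] at hcon
      have hA0 : 0 < A := by
        by_contra hA0
        rw [not_lt] at hA0
        have h1 : A * Real.exp (-δ * ((s' : ℝ) - s)) * ‖S.coc s y v‖ ≤ 0 :=
          mul_nonpos_of_nonpos_of_nonneg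
            (mul_nonpos_of_nonpos_of_nonneg hA0 (Real.exp_pos _).le) (norm_nonneg _)
        linarith [hpos s']
      have h2 := Real.log_le_log (hpos s') hcon
      rw [Real.log_mul (by positivity) (hpos s).ne', Real.log_mul hA0.ne' (Real.exp_pos _).ne',
        Real.log_exp, ← hg, ← hg] at h2
      linarith
    have hlast := last_exit (fun t => S.cell ((S.f ^ t) y)) g (m := 4 * m) (A := 4 * m)
      (B := n - 4 * m) hδ.le hL hκ₃0 (fun t _ ht => hstep t (by omega)) hcell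
    have hfin := ends g (m := 4 * m) (n := n) hL hδ.le hE0 (by omega) hstep
      (by rw [hE]; exact hlast) t₁ t₂ h12 h2n
    rw [← hC₂, hg, hg] at hfin
    have h1 : Real.log ‖S.coc t₂ y v‖ ≤
        Real.log (Real.exp C₂ * Real.exp (-δ * ((t₂ : ℝ) - t₁)) * ‖S.coc t₁ y v‖) := by
      rw [Real.log_mul (by positivity) (hpos t₁).ne', Real.log_mul (Real.exp_pos _).ne'
        (Real.exp_pos _).ne', Real.log_exp, Real.log_exp]
      linarith
    have h2 : ‖S.coc t₂ y v‖ ≤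
        Real.exp C₂ * Real.exp (-δ * ((t₂ : ℝ) - t₁)) * ‖S.coc t₁ y v‖ :=
      (Real.log_le_log_iff (hpos t₂) (mul_pos (by positivity) (hpos t₁))).1 h1
    refine h2.trans ?_
    apply mul_le_mul_of_nonneg_right _ (norm_nonneg _)
    exact mul_le_mul_of_nonneg_right hC1 (Real.exp_pos _).le

end Abstract

end Pool.Agent.OmegaPS

end
end

section

/-!
# Closed chains with a bounded number of jumps are uniformly hyperbolic
-/

open Set Filter Topology Function

noncomputable section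

namespace Pool.Agent.OmegaPS

open Pool.Agent.OmegaStab (HypLin)

namespace ItChain

section Abstract

variable {X V : Type*} [NormedAddCommGroup V] [InnerProductSpace ℝ V]

theorem mem_Est_conj' {P Q : V ≃L[ℝ] V} {v : V} (h : v ∈ Est P) : Q v ∈ Est (Q * P * Q⁻¹) := by
  rw [mem_Est_conj]
  have : Q⁻¹ (Q v) = v := Q.symm_apply_apply v
  rw [this]
  exact h

/-- A word continued by a stage and a transition. -/
theorem word_snoc {S : Sys X V} {ι : Type*} {τ : ι → Trans X V} {m : ℕ} {i j r : ι}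
    {l n : ℕ} {B : V ≃L[ℝ] V} (hw : Word S τ m i j l B) (hn : m ≤ n)
    (h : (S.f ^ n) (τ j).tgt = (τ r).src) :
    Word S τ m i r (l + n) ((τ r).mat * S.coc n (τ j).tgt * B) := by
  rcases hw with ⟨rfl, rfl, rfl⟩ | ⟨M, hM, rfl⟩
  · refine Or.inr ⟨S.coc n (τ i).tgt, ?_, rfl⟩
    rw [zero_add]
    exact Path.stage n hn h
  · refine Or.inr ⟨S.coc n (τ j).tgt * (τ j).mat * M, Path.comp hM (Path.stage n hn h), ?_⟩
    simp only [mul_assoc]

/-- The product of a stage and the transition after it. -/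
def St (S : Sys X V) {p : ℕ} (y : ZMod p → X) (n : ZMod p → ℕ) (D : ZMod p → V ≃L[ℝ] V)
    (q : ZMod p) : V ≃L[ℝ] V := D q * S.coc (n q) (y q)

/-- Products of consecutive stages and transitions. -/
def cp (S : Sys X V) {p : ℕ} (y : ZMod p → X) (n : ZMod p → ℕ) (D : ZMod p → V ≃L[ℝ] V) :
    ℕ → ZMod p → (V ≃L[ℝ] V)
  | 0, _ => 1
  | j + 1, q => cp S y n D j (q + 1) * St S y n D q

variable {S : Sys X V} {p : ℕ} {y : ZMod p → X} {n : ZMod p → ℕ} {D : ZMod p → V ≃L[ℝ] V}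

theorem cp_left (j : ℕ) : ∀ q : ZMod p,
    cp S y n D (j + 1) q = St S y n D (q + (j : ZMod p)) * cp S y n D j q := by
  induction j with
  | zero =>
    intro q
    simp [cp]
  | succ j ih =>
    intro q
    have e1 : cp S y n D (j + 1 + 1) q = cp S y n D (j + 1) (q + 1) * St S y n D q := rfl
    have e2 : cp S y n D (j + 1) q = cp S y n D j (q + 1) * St S y n D q := rfl
    rw [e1, e2, ih (q + 1), mul_assoc]
    congr 2
    push_cast
    ring

theorem cp_comm (q : ZMod p) :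
    St S y n D q * cp S y n D p q = cp S y n D p (q + 1) * St S y n D q := by
  have e1 : cp S y n D (p + 1) q = cp S y n D p (q + 1) * St S y n D q := rfl
  have e2 := cp_left (S := S) (y := y) (n := n) (D := D) p q
  rw [ZMod.natCast_self, add_zero] at e2
  rw [← e1, e2]

/-- The transitions of a chain. -/
def tr (S : Sys X V) {p : ℕ} (y : ZMod p → X) (n : ZMod p → ℕ) (D : ZMod p → V ≃L[ℝ] V)
    (q : ZMod p) : Trans X V := ⟨(S.f ^ n q) (y q), y (q + 1), D q⟩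

theorem word_cp {n₀ : ℕ} (hn : ∀ q, n₀ ≤ n q) (q : ZMod p) (j : ℕ) :
    ∃ l, Word S (tr S y n D) n₀ q (q + (j : ZMod p)) l (cp S y n D j (q + 1) * D q) := by
  induction j with
  | zero =>
    refine ⟨0, Or.inl ⟨by simp, rfl, ?_⟩⟩
    simp [cp, tr]
  | succ j ih =>
    obtain ⟨l, hl⟩ := ih
    have h1 : (S.f ^ n (q + (j : ZMod p) + 1)) (tr S y n D (q + (j : ZMod p))).tgt =
        (tr S y n D (q + (j : ZMod p) + 1)).src := rfl
    have h2 := word_snoc hl (hn _) h1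
    refine ⟨l + n (q + (j : ZMod p) + 1), ?_⟩
    have e1 : q + ((j + 1 : ℕ) : ZMod p) = q + (j : ZMod p) + 1 := by push_cast; ring
    have e2 : cp S y n D (j + 1) (q + 1) * D q =
        (tr S y n D (q + (j : ZMod p) + 1)).mat * S.coc (n (q + (j : ZMod p) + 1))
          (tr S y n D (q + (j : ZMod p))).tgt * (cp S y n D j (q + 1) * D q) := by
      rw [cp_left, show q + 1 + (j : ZMod p) = q + (j : ZMod p) + 1 by ring]
      simp only [St, tr, mul_assoc]
    rw [e1, e2]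
    exact h2

end Abstract

end ItChain

section Abstract

variable {X V : Type*} [NormedAddCommGroup V] [InnerProductSpace ℝ V]

open ItChain in
/-- Closed chains are uniformly hyperbolic. -/
theorem chain_uh [FiniteDimensional ℝ V] (S : Sys X V) {m p : ℕ} (hp : 1 ≤ p) (hm : 1 ≤ m)
    (h : Star S m (p + 4)) : ∃ (C δ : ℝ) (n₀ : ℕ), 1 ≤ C ∧ 0 < δ ∧ ChainUH S p C δ n₀ := by
  have : NeZero p := ⟨by omega⟩
  obtain ⟨S', hf, -, -, hS', hcoc, htr⟩ := exists_inv_sys S m (p + 4) h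
  obtain ⟨C₁, δ₁, n₁, hC₁, hδ₁, H₁⟩ := stage_uh S hm h
  obtain ⟨C₂, δ₂, n₂, hC₂, hδ₂, H₂⟩ := stage_uh S' hm hS'
  have hcard : Fintype.card (ZMod p) ≤ p := (ZMod.card p).le
  refine ⟨max C₁ C₂, min δ₁ δ₂, max n₁ n₂, hC₁.trans (le_max_left _ _), lt_min hδ₁ hδ₂, ?_⟩
  intro y n D hn hD
  have hn₁ : ∀ q, n₁ ≤ n q := fun q => (le_max_left _ _).trans (hn q)
  have hn₂ : ∀ q, n₂ ≤ n q := fun q => (le_max_right _ _).trans (hn q)
  have hτ : ∀ q, S.Tr (tr S y n D q).src (tr S y n D q).tgt (tr S y n D q).mat := hD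
  have hτ' : ∀ q, S'.Tr ((tr S y n D q).inv).src ((tr S y n D q).inv).tgt
      ((tr S y n D q).inv).mat := by
    intro q
    refine (htr _ _ _).2 ?_
    change S.Tr (tr S y n D q).src (tr S y n D q).tgt ((tr S y n D q).mat⁻¹)⁻¹
    rw [inv_inv]
    exact hτ q
  -- the index `q - 1`
  have hpred : ∀ q : ZMod p, q + ((p - 1 : ℕ) : ZMod p) = q - 1 := by
    intro q
    rw [Nat.cast_sub hp, ZMod.natCast_self]
    push_cast
    ring
  have hcpp : ∀ q, cp S y n D p q = cp S y n D (p - 1) (q + 1) * D q * S.coc (n q) (y q) := by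
    intro q
    obtain ⟨r, rfl⟩ : ∃ r, p = r + 1 := ⟨p - 1, by omega⟩
    simp only [Nat.add_sub_cancel]
    rw [mul_assoc]
    rfl
  have htgt : ∀ q : ZMod p, (tr S y n D (q - 1)).tgt = y q := by
    intro q
    change y (q - 1 + 1) = y q
    rw [sub_add_cancel]
  have main₁ : ∀ q, Hyp (cp S y n D p q) ∧
      (∀ v ∈ Est (cp S y n D p q), ∀ w ∈ Eun (cp S y n D p q),
        ‖v‖ ≤ C₁ * ‖v + w‖ ∧ ‖w‖ ≤ C₁ * ‖v + w‖) ∧
      ∀ v ∈ Est (cp S y n D p q), ∀ t₁ t₂ : ℕ, t₁ ≤ t₂ → t₂ ≤ n q →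
        ‖S.coc t₂ (y q) v‖ ≤ C₁ * Real.exp (-δ₁ * (t₂ - t₁)) * ‖S.coc t₁ (y q) v‖ := by
    intro q
    obtain ⟨l, hl⟩ := word_cp (S := S) (y := y) (n := n) (D := D) hn₁ q (p - 1)
    rw [hpred] at hl
    have hst : (S.f ^ n q) (tr S y n D (q - 1)).tgt = (tr S y n D q).src := by
      rw [htgt]; rfl
    have := H₁ (ZMod p) hcard (tr S y n D) hτ q (q - 1) l _ hl (n q) (hn₁ q) hst
    rw [htgt, ← hcpp] at this
    exact this
  have main₂ : ∀ q, ∀ v ∈ Est ((cp S y n D (p - 1) (q + 1) * D q)⁻¹ *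
      S'.coc (n q) ((S.f ^ n q) (y q))), ∀ t₁ t₂ : ℕ, t₁ ≤ t₂ → t₂ ≤ n q →
        ‖S'.coc t₂ ((S.f ^ n q) (y q)) v‖ ≤
          C₂ * Real.exp (-δ₂ * (t₂ - t₁)) * ‖S'.coc t₁ ((S.f ^ n q) (y q)) v‖ := by
    intro q
    obtain ⟨l, hl⟩ := word_cp (S := S) (y := y) (n := n) (D := D) hn₂ q (p - 1)
    rw [hpred] at hl
    have hl' := Word.inv hf hcoc hl
    have hst : (S'.f ^ n q) ((tr S y n D q).inv).tgt = ((tr S y n D (q - 1)).inv).src := by
      change (S'.f ^ n q) ((S.f ^ n q) (y q)) = (tr S y n D (q - 1)).tgt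
      rw [htgt, hf, inv_pow]
      exact (S.f ^ n q).symm_apply_apply (y q)
    have := H₂ (ZMod p) hcard (fun i => (tr S y n D i).inv) hτ' (q - 1) q l _ hl' (n q) (hn₂ q) hst
    exact this.2.2
  have hinv : ∀ q (v : V), v ∈ Est (cp S y n D p q) →
      D q (S.coc (n q) (y q) v) ∈ Est (cp S y n D p (q + 1)) := by
    intro q v hv
    have h1 := mem_Est_conj' (Q := St S y n D q) hv
    have h2 : St S y n D q * cp S y n D p q * (St S y n D q)⁻¹ = cp S y n D p (q + 1) := by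
      rw [cp_comm, mul_inv_cancel_right]
    rw [h2] at h1
    exact h1
  have hinv' : ∀ q (v : V), v ∈ Eun (cp S y n D p q) →
      D q (S.coc (n q) (y q) v) ∈ Eun (cp S y n D p (q + 1)) := by
    intro q v hv
    have h1 := mem_Est_conj' (Q := St S y n D q) (P := (cp S y n D p q)⁻¹) hv
    have h2 : St S y n D q * (cp S y n D p q)⁻¹ * (St S y n D q)⁻¹ =
        (cp S y n D p (q + 1))⁻¹ := by
      have h3 : cp S y n D p (q + 1) = St S y n D q * cp S y n D p q * (St S y n D q)⁻¹ := by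
        rw [cp_comm, mul_inv_cancel_right]
      rw [h3]
      group
    rw [h2] at h1
    exact h1
  have mono : ∀ (C δ' : ℝ) (s t : ℕ) (a : ℝ), s ≤ t → 0 ≤ a → C ≤ max C₁ C₂ →
      min δ₁ δ₂ ≤ δ' →
      C * Real.exp (-δ' * ((t : ℝ) - s)) * a ≤
        max C₁ C₂ * Real.exp (-(min δ₁ δ₂) * ((t : ℝ) - s)) * a := by
    intro C δ' s t a hst ha hC hδ
    have h1 : (0 : ℝ) ≤ (t : ℝ) - s := by
      have : (s : ℝ) ≤ t := by exact_mod_cast hst
      linarith
    apply mul_le_mul_of_nonneg_right _ ha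
    apply mul_le_mul hC _ (Real.exp_pos _).le (by positivity)
    apply Real.exp_le_exp.2
    nlinarith
  refine ⟨fun q => Est (cp S y n D p q), fun q => Eun (cp S y n D p q), fun q =>
    (main₁ q).1.isCompl, fun q v hv w hw => ?_, hinv, hinv', fun q v hv t₁ t₂ h12 h2n => ?_,
    fun q v hv t₁ t₂ h12 h2n => ?_⟩
  · have := (main₁ q).2.1 v hv w hw
    constructor
    · exact this.1.trans (mul_le_mul_of_nonneg_right (le_max_left _ _) (norm_nonneg _))
    · exact this.2.trans (mul_le_mul_of_nonneg_right (le_max_left _ _) (norm_nonneg _))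
  · exact ((main₁ q).2.2 v hv t₁ t₂ h12 h2n).trans
      (mono C₁ δ₁ t₁ t₂ _ h12 (norm_nonneg _) (le_max_left _ _) (min_le_left _ _))
  · -- windows on the unstable space through the inverse system
    set z := (S.f ^ n q) (y q) with hz
    have hP : (cp S y n D (p - 1) (q + 1) * D q)⁻¹ * S'.coc (n q) z =
        S.coc (n q) (y q) * (cp S y n D p q)⁻¹ * (S.coc (n q) (y q))⁻¹ := by
      rw [hz, hcoc, hcpp]
      group
    have hw' : S.coc (n q) (y q) v ∈ Est ((cp S y n D (p - 1) (q + 1) * D q)⁻¹ *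
        S'.coc (n q) z) := by
      rw [hP]
      exact mem_Est_conj' hv
    have hback : ∀ t ≤ n q, S'.coc t z (S.coc (n q) (y q) v) = S.coc (n q - t) (y q) v := by
      intro t ht
      have e1 : z = (S.f ^ t) ((S.f ^ (n q - t)) (y q)) := by
        rw [hz, ← Equiv.Perm.mul_apply, ← pow_add, Nat.add_sub_cancel' ht]
      have e2 : S.coc (n q) (y q) = S.coc t ((S.f ^ (n q - t)) (y q)) * S.coc (n q - t) (y q) := by
        rw [← S.coc_add, Nat.sub_add_cancel ht]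
      rw [e1, hcoc, e2]
      change (S.coc t ((S.f ^ (n q - t)) (y q)))⁻¹ (S.coc t ((S.f ^ (n q - t)) (y q))
        (S.coc (n q - t) (y q) v)) = _
      exact ContinuousLinearEquiv.symm_apply_apply _ _
    have h3 := main₂ q (S.coc (n q) (y q) v) hw' (n q - t₂) (n q - t₁) (by omega) (by omega)
    have h4 : ∀ t ≤ n q, S'.coc (n q - t) z (S.coc (n q) (y q) v) = S.coc t (y q) v := by
      intro t ht
      rw [hback _ (Nat.sub_le _ _), Nat.sub_sub_self ht]
    rw [← hz] at h3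
    rw [h4 t₁ (by omega), h4 t₂ h2n, Nat.cast_sub (by omega), Nat.cast_sub h2n] at h3
    have e : ((n q : ℝ) - t₁) - ((n q : ℝ) - t₂) = (t₂ : ℝ) - t₁ := by ring
    rw [e] at h3
    exact h3.trans (mono C₂ δ₂ t₁ t₂ _ h12 (norm_nonneg _) (le_max_right _ _) (min_le_right _ _))

end Abstract

end Pool.Agent.OmegaPS

end
end

section

/-!
# Products, item 36 (GE9a): radii of a finite atlas
-/

open Set Filter Topology Function
open scoped Manifold ContDiff

noncomputable section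

namespace Pool.Agent.OmegaPS

open Pool.Agent.OmegaStab (EE Dyn IsFam PP HypAt crTopology HypLin)
open Pool.Agent.OmegaStab.FinHyp (der)

section AtlasRadius

variable {d : ℕ} {N : Type*} [MetricSpace N] [ChartedSpace (EE d) N] {r : ℕ∞}

namespace AtlasRadius

theorem all_small {J : Type*} [Finite J] (P : J → ℝ → Prop)
    (hmono : ∀ j R R', 0 < R' → R' ≤ R → P j R → P j R') (h : ∀ j, ∃ R > 0, P j R) :
    ∃ R > 0, ∀ j, P j R := by
  have h1 : ∀ᶠ R in 𝓝[>] (0 : ℝ), ∀ j, P j R := by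
    rw [Filter.eventually_all]
    intro j
    obtain ⟨R, hR, hP⟩ := h j
    filter_upwards [Ioc_mem_nhdsGT hR] with R' hR'
    exact hmono j R R' hR'.1 hR'.2 hP
  obtain ⟨R, hR, hR'⟩ := (h1.and self_mem_nhdsWithin).exists
  exact ⟨R, hR', hR⟩

theorem target_radius [CompactSpace N] (x : N) {W : Set N}
    (hW : closure W ⊆ (extChartAt (𝓡 d) x).source) {ε₁ : ℝ} (hε₁ : 0 < ε₁) :
    ∃ R > 0, ∀ y ∈ W, ∀ u : EE d, ‖u - extChartAt (𝓡 d) x y‖ ≤ R →
      u ∈ (extChartAt (𝓡 d) x).target ∧ dist ((extChartAt (𝓡 d) x).symm u) y ≤ ε₁ := by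
  have hK : IsCompact (extChartAt (𝓡 d) x '' closure W) :=
    isClosed_closure.isCompact.image_of_continuousOn ((continuousOn_extChartAt x).mono hW)
  have hKT : extChartAt (𝓡 d) x '' closure W ⊆ (extChartAt (𝓡 d) x).target := by
    rintro _ ⟨z, hz, rfl⟩
    exact (extChartAt (𝓡 d) x).map_source (hW hz)
  obtain ⟨R₁, hR₁, hsub⟩ := hK.exists_cthickening_subset_open (isOpen_extChartAt_target x) hKT
  have hC : IsCompact (Metric.cthickening R₁ (extChartAt (𝓡 d) x '' closure W)) := hK.cthickening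
  have huc := hC.uniformContinuousOn_of_continuous ((continuousOn_extChartAt_symm x).mono hsub)
  rw [Metric.uniformContinuousOn_iff] at huc
  obtain ⟨R₂, hR₂, huc⟩ := huc ε₁ hε₁
  refine ⟨min R₁ (R₂ / 2), lt_min hR₁ (by linarith), fun y hy u hu => ?_⟩
  have hyK : extChartAt (𝓡 d) x y ∈ extChartAt (𝓡 d) x '' closure W :=
    ⟨y, subset_closure hy, rfl⟩
  have hd : dist u (extChartAt (𝓡 d) x y) ≤ min R₁ (R₂ / 2) := by rwa [dist_eq_norm]
  have huC : u ∈ Metric.cthickening R₁ (extChartAt (𝓡 d) x '' closure W) :=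
    Metric.mem_cthickening_of_dist_le u _ R₁ _ hyK (hd.trans (min_le_left _ _))
  refine ⟨hsub huC, ?_⟩
  have h1 := huc u huC _ (Metric.self_subset_cthickening _ hyK)
    (lt_of_le_of_lt (hd.trans (min_le_right _ _)) (by linarith))
  rw [(extChartAt (𝓡 d) x).left_inv (hW (subset_closure hy))] at h1
  exact h1.le

theorem source_unif [CompactSpace N] (x : N) {W : Set N}
    (hW : closure W ⊆ (extChartAt (𝓡 d) x).source) {ε₁ : ℝ} (hε₁ : 0 < ε₁) :
    ∃ R > 0, ∀ y ∈ W, ∀ z ∈ W, dist z y ≤ R →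
      ‖extChartAt (𝓡 d) x z - extChartAt (𝓡 d) x y‖ ≤ ε₁ := by
  have huc := (isClosed_closure (s := W)).isCompact.uniformContinuousOn_of_continuous
    ((continuousOn_extChartAt (I := 𝓡 d) x).mono hW)
  rw [Metric.uniformContinuousOn_iff] at huc
  obtain ⟨R₂, hR₂, huc⟩ := huc ε₁ hε₁
  refine ⟨R₂ / 2, by linarith, fun y hy z hz hd => ?_⟩
  have h1 := huc z (subset_closure hz) y (subset_closure hy) (by linarith)
  rw [dist_eq_norm] at h1
  exact h1.le

end AtlasRadius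

open AtlasRadius in
theorem atlas_radius [CompactSpace N] (At : Atlas d N r) :
    ∃ η₀ : ℝ, 0 < η₀ ∧ (∀ y, ∃ j, Metric.ball y η₀ ⊆ At.W j) ∧
      (∀ ε₁ > 0, ∃ R > 0, ∀ (j : At.J) (y : N), Metric.ball y η₀ ⊆ At.W j → ∀ u : EE d,
        ‖u - extChartAt (𝓡 d) (At.ctr j) y‖ ≤ R → u ∈ (extChartAt (𝓡 d) (At.ctr j)).target ∧
          dist ((extChartAt (𝓡 d) (At.ctr j)).symm u) y ≤ ε₁) ∧
      ∀ ε₁ > 0, ∃ ε₂ > 0, ∀ (j : At.J) (y z : N), y ∈ At.W j → z ∈ At.W j → dist z y ≤ ε₂ →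
        ‖extChartAt (𝓡 d) (At.ctr j) z - extChartAt (𝓡 d) (At.ctr j) y‖ ≤ ε₁ := by
  have hfin : Finite At.J := At.fin
  obtain ⟨η₀, hη₀, hcov⟩ := lebesgue_number_lemma_of_metric (isCompact_univ (X := N))
    At.isOpen_W (fun z _ => mem_iUnion.2 (At.cover z))
  refine ⟨η₀, hη₀, fun y => hcov y (mem_univ y), fun ε₁ hε₁ => ?_, fun ε₁ hε₁ => ?_⟩
  · obtain ⟨R, hR, h⟩ := all_small (fun (j : At.J) (R : ℝ) => ∀ y ∈ At.W j, ∀ u : EE d,
        ‖u - extChartAt (𝓡 d) (At.ctr j) y‖ ≤ R → u ∈ (extChartAt (𝓡 d) (At.ctr j)).target ∧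
          dist ((extChartAt (𝓡 d) (At.ctr j)).symm u) y ≤ ε₁)
      (fun j R R' _ hRR h y hy u hu => h y hy u (hu.trans hRR))
      (fun j => target_radius (At.ctr j) (At.closure_W j) hε₁)
    exact ⟨R, hR, fun j y hy u hu => h j y (hy (Metric.mem_ball_self hη₀)) u hu⟩
  · obtain ⟨R, hR, h⟩ := all_small (fun (j : At.J) (R : ℝ) => ∀ y ∈ At.W j, ∀ z ∈ At.W j,
        dist z y ≤ R →
        ‖extChartAt (𝓡 d) (At.ctr j) z - extChartAt (𝓡 d) (At.ctr j) y‖ ≤ ε₁)
      (fun j R R' _ hRR h y hy z hz hd => h y hy z hz (hd.trans hRR))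
      (fun j => source_unif (At.ctr j) (At.closure_W j) hε₁)
    exact ⟨R, hR, fun j y z hy hz hd => h j y hy z hz hd⟩

end AtlasRadius

end Pool.Agent.OmegaPS

end
end

section

/-!
# Comparison of homogeneous functions on the tangent bundle over a compact set
-/

open Set Filter Topology Function
open scoped Manifold ContDiff

noncomputable section

namespace Pool.Agent.OmegaPS

open Pool.Agent.OmegaStab (EE Dyn IsFam PP HypAt crTopology HypLin ConjClass)
open Pool.Agent.OmegaStab.FinHyp (der)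
open Pool.Agent.OmegaStability

variable {d : ℕ} {N : Type*} [MetricSpace N] [ChartedSpace (EE d) N] [IsManifold (𝓡 d) ∞ N]

namespace CmpCompact

theorem local_bound {K : Set N} (hK : IsCompact K) (φ ψ : TangentBundle (𝓡 d) N → ℝ)
    (hφ : ContinuousOn φ {v | v.1 ∈ K}) (hψ : ContinuousOn ψ {v | v.1 ∈ K})
    (hφh : ∀ (x : N) (v : TangentSpace (𝓡 d) x) (c : ℝ), φ ⟨x, c • v⟩ = |c| * φ ⟨x, v⟩)
    (hψh : ∀ (x : N) (v : TangentSpace (𝓡 d) x) (c : ℝ), ψ ⟨x, c • v⟩ = |c| * ψ ⟨x, v⟩)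
    (hψp : ∀ x ∈ K, ∀ v : TangentSpace (𝓡 d) x, v ≠ 0 → 0 < ψ ⟨x, v⟩) (x₀ : N) :
    ∃ U ∈ 𝓝 x₀, ∃ C : ℝ, 0 ≤ C ∧ ∀ x ∈ U, x ∈ K → ∀ v : TangentSpace (𝓡 d) x,
      φ ⟨x, v⟩ ≤ C * ψ ⟨x, v⟩ := by
  let e := trivializationAt (EE d) (fun x : N => TangentSpace (𝓡 d) x) x₀
  have hx₀ : x₀ ∈ e.baseSet := FiberBundle.mem_baseSet_trivializationAt' x₀
  obtain ⟨r, hr, hball⟩ := Metric.nhds_basis_closedBall.mem_iff.1 (e.open_baseSet.mem_nhds hx₀)
  set K' : Set N := Metric.closedBall x₀ r ∩ K with hK'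
  have hKc : IsCompact K' := hK.inter_left Metric.isClosed_closedBall
  have hKsub : K' ⊆ e.baseSet := fun x hx => hball hx.1
  have hΦ : ∀ x (hx : x ∈ e.baseSet) (w : EE d), e.toOpenPartialHomeomorph.symm (x, w) =
      ⟨x, (e.continuousLinearEquivAt ℝ x hx).symm w⟩ := fun x hx w =>
    e.symm_apply_eq_mk_continuousLinearEquivAt_symm x hx w
  have hmaps : MapsTo (fun q : N × EE d => e.toOpenPartialHomeomorph.symm q)
      (K' ×ˢ Metric.sphere (0 : EE d) 1) {v | v.1 ∈ K} := by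
    rintro ⟨x, w⟩ ⟨hx, _⟩
    change (e.toOpenPartialHomeomorph.symm (x, w)).1 ∈ K
    rw [hΦ x (hKsub hx) w]
    exact hx.2
  have hcont : ContinuousOn (fun q : N × EE d => e.toOpenPartialHomeomorph.symm q)
      (K' ×ˢ Metric.sphere (0 : EE d) 1) := by
    apply e.continuousOn_invFun.mono
    rintro ⟨x, w⟩ ⟨hx, _⟩
    rw [e.target_eq]
    exact ⟨hKsub hx, trivial⟩
  have hcr : ContinuousOn (fun q : N × EE d => φ (e.toOpenPartialHomeomorph.symm q) /
      ψ (e.toOpenPartialHomeomorph.symm q)) (K' ×ˢ Metric.sphere (0 : EE d) 1) := by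
    apply ContinuousOn.div (hφ.comp hcont hmaps) (hψ.comp hcont hmaps)
    rintro ⟨x, w⟩ ⟨hx, hw⟩
    rw [Function.comp_apply, hΦ x (hKsub hx) w]
    apply ne_of_gt
    apply hψp x hx.2
    intro h
    rw [ContinuousLinearEquiv.map_eq_zero_iff] at h
    change w ∈ Metric.sphere (0 : EE d) 1 at hw
    rw [h] at hw
    simp at hw
  obtain ⟨C, hC⟩ := (hKc.prod (isCompact_sphere (0 : EE d) 1)).exists_bound_of_continuousOn hcr
  refine ⟨Metric.closedBall x₀ r, Metric.closedBall_mem_nhds x₀ hr, max C 0, le_max_right _ _,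
    fun x hxb hxK v => ?_⟩
  have hx : x ∈ K' := ⟨hxb, hxK⟩
  have hxb := hKsub hx
  have hN0 : ∀ N' : TangentBundle (𝓡 d) N → ℝ,
      (∀ (x : N) (v : TangentSpace (𝓡 d) x) (t : ℝ), N' ⟨x, t • v⟩ = |t| * N' ⟨x, v⟩) →
      N' ⟨x, 0⟩ = 0 := by
    intro N' hN
    have := hN x 0 0
    rwa [smul_zero, abs_zero, zero_mul] at this
  by_cases hv : v = 0
  · rw [hv, hN0 φ hφh, hN0 ψ hψh, mul_zero]
  · set L := e.continuousLinearEquivAt ℝ x hxb with hL
    have hw : L v ≠ 0 := by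
      intro h
      exact hv ((ContinuousLinearEquiv.map_eq_zero_iff L).1 h)
    have hn : 0 < ‖L v‖ := norm_pos_iff.2 hw
    set w : EE d := ‖L v‖⁻¹ • L v with hwdef
    have hws : w ∈ Metric.sphere (0 : EE d) 1 := by
      rw [mem_sphere_zero_iff_norm, hwdef, norm_smul, norm_inv, norm_norm,
        inv_mul_cancel₀ hn.ne']
    have hvw : v = ‖L v‖ • L.symm w := by
      rw [hwdef, map_smul, smul_smul, mul_inv_cancel₀ hn.ne', one_smul,
        ContinuousLinearEquiv.symm_apply_apply]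
    have hb := hC (x, w) ⟨hx, hws⟩
    simp only [hΦ x hxb w] at hb
    rw [← hL] at hb
    have hwne : L.symm w ≠ 0 := by
      intro h
      apply hv
      rw [hvw, h, smul_zero]
    have hpw := hψp x hxK (L.symm w) hwne
    have h3 : φ ⟨x, L.symm w⟩ ≤ max C 0 * ψ ⟨x, L.symm w⟩ := by
      rw [← div_le_iff₀ hpw]
      exact (le_abs_self _).trans (hb.trans (le_max_left _ _))
    rw [hvw, hφh, hψh, abs_of_pos hn]
    nlinarith

theorem continuousOn_norm_fr (x : N) :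
    ContinuousOn (fun v : TangentBundle (𝓡 d) N => ‖fr (d := d) x v.1 v.2‖)
      {v | v.1 ∈ (extChartAt (𝓡 d) x).source} := by
  let e := trivializationAt (EE d) (fun x : N => TangentSpace (𝓡 d) x) x
  have hs : (extChartAt (𝓡 d) x).source = e.baseSet := by
    rw [extChartAt_source]
    rfl
  have h1 : ContinuousOn e {v : TangentBundle (𝓡 d) N | v.1 ∈ e.baseSet} := by
    have := e.continuousOn
    rwa [e.source_eq] at this
  have h2 : ContinuousOn (fun v : TangentBundle (𝓡 d) N => ‖(e v).2‖)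
      {v | v.1 ∈ (extChartAt (𝓡 d) x).source} := by
    rw [hs]
    exact (continuous_snd.comp_continuousOn h1).norm
  refine h2.congr fun v hv => ?_
  have hv' : v.1 ∈ (chartAt (EE d) x).source := by
    rw [← extChartAt_source (𝓡 d)]
    exact hv
  have h3 := TangentBundle.continuousLinearMapAt_trivializationAt (I := 𝓡 d) (𝕜 := ℝ) hv'
  have h4 : fr (d := d) x v.1 v.2 = (e v).2 := by
    have hv'' : v.1 ∈ e.baseSet := by rw [← hs]; exact hv
    have h5 : e.continuousLinearMapAt ℝ v.1 v.2 = (e v).2 :=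
      e.continuousLinearMapAt_apply_of_mem ℝ hv'' v.2
    have h6 : e.continuousLinearMapAt ℝ v.1 v.2 = fr (d := d) x v.1 v.2 :=
      DFunLike.congr_fun h3 v.2
    exact h6.symm.trans h5
  rw [h4]

end CmpCompact

theorem cmp_compact {K : Set N} (hK : IsCompact K) (φ ψ : TangentBundle (𝓡 d) N → ℝ)
    (hφ : ContinuousOn φ {v | v.1 ∈ K}) (hψ : ContinuousOn ψ {v | v.1 ∈ K})
    (hφh : ∀ (x : N) (v : TangentSpace (𝓡 d) x) (c : ℝ), φ ⟨x, c • v⟩ = |c| * φ ⟨x, v⟩)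
    (hψh : ∀ (x : N) (v : TangentSpace (𝓡 d) x) (c : ℝ), ψ ⟨x, c • v⟩ = |c| * ψ ⟨x, v⟩)
    (hψp : ∀ x ∈ K, ∀ v : TangentSpace (𝓡 d) x, v ≠ 0 → 0 < ψ ⟨x, v⟩) :
    ∃ β : ℝ, 0 < β ∧ ∀ x ∈ K, ∀ v : TangentSpace (𝓡 d) x, φ ⟨x, v⟩ ≤ β * ψ ⟨x, v⟩ := by
  choose U hU C hC0 hC using fun x₀ : N =>
    CmpCompact.local_bound hK φ ψ hφ hψ hφh hψh hψp x₀
  obtain ⟨t, -, ht⟩ := hK.elim_nhds_subcover U (fun x _ => hU x)
  refine ⟨∑ y ∈ t, C y + 1, by
    have := Finset.sum_nonneg (s := t) (fun y _ => hC0 y)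
    linarith, fun x hx v => ?_⟩
  have hN2 : 0 ≤ ψ ⟨x, v⟩ := by
    by_cases hv : v = 0
    · have := hψh x 0 0
      rw [smul_zero, abs_zero, zero_mul] at this
      rw [hv, this]
    · exact (hψp x hx v hv).le
  have hx' := ht hx
  rw [mem_iUnion₂] at hx'
  obtain ⟨y, hy, hxy⟩ := hx'
  have hle : C y ≤ ∑ y ∈ t, C y :=
    Finset.single_le_sum (f := C) (fun y _ => hC0 y) hy
  calc φ ⟨x, v⟩ ≤ C y * ψ ⟨x, v⟩ := hC y x hxy hx v
    _ ≤ (∑ y ∈ t, C y + 1) * ψ ⟨x, v⟩ := by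
      apply mul_le_mul_of_nonneg_right _ hN2
      linarith

theorem rnorm_compare [CompactSpace N] {d' : ℕ} {N' : Type*} [MetricSpace N']
    [ChartedSpace (EE d') N'] [IsManifold (𝓡 d') ∞ N'] (γ : RMetric (EE d) N)
    (γ' : RMetric (EE d') N') {q : N → N'} (hq : ContMDiff (𝓡 d) (𝓡 d') 1 q) :
    ∃ β : ℝ, 0 < β ∧ ∀ (x : N) (v : TangentSpace (𝓡 d) x),
      rnorm γ' (q x) (mfderiv (𝓡 d) (𝓡 d') q x v) ≤ β * rnorm γ x v := by
  refine exists_comparison (E := EE d)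
    (fun v => rnorm γ' (q v.1) (mfderiv (𝓡 d) (𝓡 d') q v.1 v.2))
    (fun v => rnorm γ v.1 v.2) ?_ (continuous_rnorm γ) ?_ ?_ ?_
  · exact (continuous_rnorm γ').comp (hq.continuous_tangentMap le_rfl)
  · intro x v t
    rw [map_smul, rnorm_smul]
  · intro x v t
    exact rnorm_smul γ x v t
  · intro x v hv
    exact rnorm_pos γ x v hv

theorem fr_compare [CompactSpace N] (γ : RMetric (EE d) N) (x : N) {W : Set N}
    (hW : closure W ⊆ (extChartAt (𝓡 d) x).source) :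
    ∃ β : ℝ, 0 < β ∧ ∀ z ∈ W, ∀ v : EE d, rnorm γ z v ≤ β * ‖fr x z v‖ ∧
      ‖fr x z v‖ ≤ β * rnorm γ z v := by
  have hK : IsCompact (closure W) := isClosed_closure.isCompact
  have h1 : ContinuousOn (fun v : TangentBundle (𝓡 d) N => ‖fr (d := d) x v.1 v.2‖)
      {v | v.1 ∈ closure W} := (CmpCompact.continuousOn_norm_fr x).mono fun v hv => hW hv
  have h2 : ContinuousOn (fun v : TangentBundle (𝓡 d) N => rnorm γ v.1 v.2)
      {v | v.1 ∈ closure W} := (continuous_rnorm γ).continuousOn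
  have h3 : ∀ (z : N) (v : TangentSpace (𝓡 d) z) (c : ℝ),
      ‖fr (d := d) x z (c • v)‖ = |c| * ‖fr (d := d) x z v‖ := by
    intro z v c
    have : fr (d := d) x z (c • v) = c • fr (d := d) x z v := map_smul (fr (d := d) x z) c v
    rw [this, norm_smul, Real.norm_eq_abs]
  have h4 : ∀ z ∈ closure W, ∀ v : TangentSpace (𝓡 d) z, v ≠ 0 → 0 < ‖fr (d := d) x z v‖ := by
    intro z hz v hv
    rw [norm_pos_iff]
    intro h
    obtain ⟨L, hL⟩ := isInvertible_mfderiv_extChartAt (I := 𝓡 d) (hW hz)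
    apply hv
    have h5 : L v = 0 := (DFunLike.congr_fun hL v).trans h
    exact (ContinuousLinearEquiv.map_eq_zero_iff L).1 h5
  obtain ⟨β₁, hβ₁, H₁⟩ := cmp_compact hK _ _ h2 h1 (fun z v c => rnorm_smul γ z v c) h3 h4
  obtain ⟨β₂, hβ₂, H₂⟩ := cmp_compact hK _ _ h1 h2 h3 (fun z v c => rnorm_smul γ z v c)
    (fun z _ v hv => rnorm_pos γ z v hv)
  refine ⟨max β₁ β₂, lt_max_of_lt_left hβ₁, fun z hz v => ⟨?_, ?_⟩⟩
  · exact (H₁ z (subset_closure hz) v).trans
      (mul_le_mul_of_nonneg_right (le_max_left _ _) (norm_nonneg _))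
  · exact (H₂ z (subset_closure hz) v).trans
      (mul_le_mul_of_nonneg_right (le_max_right _ _) (Real.sqrt_nonneg _))

end Pool.Agent.OmegaPS

end
end

section

/-!
# Products: the cylinder family (item 25)
-/

open Set Filter Topology Function
open scoped Manifold ContDiff

noncomputable section

namespace Pool.Agent.OmegaPS

open Pool.Agent.OmegaStab (EE Dyn IsFam PP HypAt crTopology HypLin ConjClass)
open Pool.Agent.OmegaStab.FinHyp (der)
open Pool.Agent.OmegaStability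

section Product

variable {d₁ d₂ d : ℕ} {N₁ N₂ M : Type*} [MetricSpace N₁] [ChartedSpace (EE d₁) N₁]
  [IsManifold (𝓡 d₁) ∞ N₁] [MetricSpace N₂] [ChartedSpace (EE d₂) N₂]
  [IsManifold (𝓡 d₂) ∞ N₂] [MetricSpace M] [ChartedSpace (EE d) M] [IsManifold (𝓡 d) ∞ M]
  [CompactSpace N₁] [CompactSpace N₂] [CompactSpace M] {r : ℕ∞}

omit [IsManifold (𝓡 d₁) ∞ N₁] [IsManifold (𝓡 d₂) ∞ N₂] [IsManifold (𝓡 d) ∞ M]
  [CompactSpace N₁] [CompactSpace N₂] [CompactSpace M] in
theorem CylFam.smooth (Φ : Diffeomorph (𝓡 d) ((𝓡 d₁).prod (𝓡 d₂)) M (N₁ × N₂) ∞)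
    {g : PP d₁ → N₁ → N₁} {ρ : ℝ}
    (hg : ContMDiffOn (𝓘(ℝ, PP d₁).prod (𝓡 d₁)) (𝓡 d₁) r (fun q : PP d₁ × N₁ => g q.1 q.2)
      (Metric.ball 0 ρ ×ˢ univ))
    {β : N₂ → ℝ} (hβ : ContMDiff (𝓡 d₂) 𝓘(ℝ, ℝ) ∞ β) (hβ' : ∀ x, β x ∈ Icc (0 : ℝ) 1) :
    ContMDiffOn (𝓘(ℝ, PP d₁).prod (𝓡 d)) (𝓡 d) r
      (fun p : PP d₁ × M => Φ.symm (g (β (Φ p.2).2 • p.1) (Φ p.2).1, (Φ p.2).2))
      (Metric.ball 0 ρ ×ˢ univ) := by
  have hr : (r : ℕ∞ω) ≤ ∞ := by exact_mod_cast (le_top : r ≤ ⊤)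
  have e1 : ContMDiff (𝓘(ℝ, PP d₁).prod (𝓡 d)) ((𝓡 d₁).prod (𝓡 d₂)) r
      (fun p : PP d₁ × M => Φ p.2) := (Φ.contMDiff.of_le hr).comp contMDiff_snd
  have e2 : ContMDiff (𝓘(ℝ, PP d₁).prod (𝓡 d)) (𝓡 d₁) r
      (fun p : PP d₁ × M => (Φ p.2).1) := contMDiff_fst.comp e1
  have e3 : ContMDiff (𝓘(ℝ, PP d₁).prod (𝓡 d)) (𝓡 d₂) r
      (fun p : PP d₁ × M => (Φ p.2).2) := contMDiff_snd.comp e1
  have e4 : ContMDiff (𝓘(ℝ, PP d₁).prod (𝓡 d)) 𝓘(ℝ, ℝ) r
      (fun p : PP d₁ × M => β (Φ p.2).2) := (hβ.of_le hr).comp e3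
  have e5 : ContMDiff (𝓘(ℝ, PP d₁).prod (𝓡 d)) 𝓘(ℝ, PP d₁) r
      (fun p : PP d₁ × M => β (Φ p.2).2 • p.1) := e4.smul contMDiff_fst
  have e6 : ContMDiff (𝓘(ℝ, PP d₁).prod (𝓡 d)) (𝓘(ℝ, PP d₁).prod (𝓡 d₁)) r
      (fun p : PP d₁ × M => (β (Φ p.2).2 • p.1, (Φ p.2).1)) := e5.prodMk e2
  have e7 : ContMDiffOn (𝓘(ℝ, PP d₁).prod (𝓡 d)) (𝓡 d₁) r
      (fun p : PP d₁ × M => g (β (Φ p.2).2 • p.1) (Φ p.2).1) (Metric.ball 0 ρ ×ˢ univ) := by
    refine hg.comp e6.contMDiffOn ?_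
    rintro ⟨π, z⟩ ⟨hπ, -⟩
    refine ⟨?_, mem_univ _⟩
    have h1 : ‖π‖ < ρ := by simpa using hπ
    show β (Φ z).2 • π ∈ Metric.ball (0 : PP d₁) ρ
    rw [mem_ball_zero_iff, norm_smul, Real.norm_of_nonneg (hβ' _).1]
    have h2 := (hβ' (Φ z).2).2
    nlinarith [norm_nonneg π]
  exact (Φ.symm.contMDiff.of_le hr).comp_contMDiffOn (e7.prodMk e3.contMDiffOn)

/-! GE3a -/
omit [IsManifold (𝓡 d₁) ∞ N₁] [IsManifold (𝓡 d₂) ∞ N₂] [IsManifold (𝓡 d) ∞ M]
  [CompactSpace N₁] [CompactSpace N₂] [CompactSpace M] in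
theorem cyl_fam (Φ : Diffeomorph (𝓡 d) ((𝓡 d₁).prod (𝓡 d₂)) M (N₁ × N₂) ∞)
    {h : PP d₁ → Dyn d₁ N₁ r} (hh : IsFam h) (hh' : IsFam (fun π => (h π).symm))
    {β : N₂ → ℝ} (hβ : ContMDiff (𝓡 d₂) 𝓘(ℝ, ℝ) ∞ β) (hβ' : ∀ x, β x ∈ Icc (0 : ℝ) 1) :
    ∃ P : PP d₁ → Dyn d M r, IsFam P ∧ ∀ᶠ π in 𝓝 (0 : PP d₁), ∀ (y : N₁) (x : N₂),
      Φ (P π (Φ.symm (y, x))) = (h (β x • π) y, x) := by
  classical
  obtain ⟨h0, U, hU, hUs⟩ := hh
  obtain ⟨-, U', hU', hUs'⟩ := hh'
  obtain ⟨ρ, hρ, hρU⟩ := Metric.mem_nhds_iff.1 (Filter.inter_mem hU hU')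
  have hs1 := CylFam.smooth Φ (g := fun π y => h π y)
    (hUs.mono (prod_mono (fun x hx => (hρU hx).1) subset_rfl)) hβ hβ'
  have hs2 := CylFam.smooth Φ (g := fun π y => (h π).symm y)
    (hUs'.mono (prod_mono (fun x hx => (hρU hx).2) subset_rfl)) hβ hβ'
  have slice : ∀ {F : PP d₁ × M → M}, ContMDiffOn (𝓘(ℝ, PP d₁).prod (𝓡 d)) (𝓡 d) r F
      (Metric.ball 0 ρ ×ˢ univ) → ∀ π ∈ Metric.ball (0 : PP d₁) ρ,
      ContMDiff (𝓡 d) (𝓡 d) r (fun z => F (π, z)) := by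
    intro F hF π hπ
    rw [← contMDiffOn_univ]
    refine hF.comp (contMDiff_const.prodMk contMDiff_id).contMDiffOn ?_
    intro z _
    exact ⟨hπ, mem_univ _⟩
  set P : PP d₁ → Dyn d M r := fun π =>
    if hπ : π ∈ Metric.ball (0 : PP d₁) ρ then
      { toFun := fun z => Φ.symm (h (β (Φ z).2 • π) (Φ z).1, (Φ z).2)
        invFun := fun z => Φ.symm ((h (β (Φ z).2 • π)).symm (Φ z).1, (Φ z).2)
        left_inv := fun z => by simp
        right_inv := fun z => by simp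
        contMDiff_toFun := slice hs1 π hπ
        contMDiff_invFun := slice hs2 π hπ }
    else Diffeomorph.refl (𝓡 d) M r with hP
  have hPe : ∀ π ∈ Metric.ball (0 : PP d₁) ρ, ∀ z,
      P π z = Φ.symm (h (β (Φ z).2 • π) (Φ z).1, (Φ z).2) := by
    intro π hπ z
    simp only [hP, dif_pos hπ]
    rfl
  have h0mem : (0 : PP d₁) ∈ Metric.ball (0 : PP d₁) ρ := Metric.mem_ball_self hρ
  refine ⟨P, ⟨?_, Metric.ball 0 ρ, Metric.ball_mem_nhds _ hρ, ?_⟩, ?_⟩
  · ext z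
    rw [hPe 0 h0mem]
    have e0 : β (Φ z).2 • (0 : PP d₁) = 0 := by
      refine Prod.ext (smul_zero (A := EE d₁) (β (Φ z).2)) ?_
      apply ContinuousLinearMap.ext
      intro x
      exact smul_zero (A := EE d₁) (β (Φ z).2)
    have e : h (β (Φ z).2 • (0 : PP d₁)) = Diffeomorph.refl (𝓡 d₁) N₁ r :=
      (congrArg h e0).trans h0
    rw [e]
    exact Φ.symm_apply_apply z
  · refine hs1.congr ?_
    rintro ⟨π, z⟩ ⟨hπ, -⟩
    exact hPe π hπ z
  · filter_upwards [Metric.ball_mem_nhds (0 : PP d₁) hρ] with π hπ y x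
    rw [hPe π hπ]
    simp

end Product

end Pool.Agent.OmegaPS

end
end

section

/-!
# GE0: families of local affine perturbations with smooth families of inverses
-/

open Set Filter Topology Function
open scoped Manifold ContDiff

noncomputable section

namespace Pool.Agent.OmegaPS

open Pool.Agent.OmegaStab (EE Dyn IsFam PP HypAt crTopology HypLin ConjClass)
open Pool.Agent.OmegaStab.FinHyp (der)
open Pool.Agent.OmegaStability

namespace Fam2

open Pool.Agent.OmegaStab.Fam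

section

variable {d : ℕ} {a : EE d} {χ : ContDiffBump a} {C : NNReal}
  {G : PP d → EE d → EE d}

theorem inv_cont (hC : ∀ π : PP d, LipschitzWith (C * ‖π‖₊) (gg χ π))
    (hG : ∀ π : PP d, C * ‖π‖₊ < 1 → (∀ x, G π (x + gg χ π x) = x) ∧
      ∀ x, G π x + gg χ π (G π x) = x) :
    ContinuousOn (fun p : PP d × EE d => G p.1 p.2) ({π | C * ‖π‖₊ < 1} ×ˢ univ) := by
  rintro ⟨π₀, y₀⟩ ⟨hπ₀, -⟩
  have hπ₀' : (C : ℝ) * ‖π₀‖ < 1 := by
    have : C * ‖π₀‖₊ < 1 := hπ₀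
    exact_mod_cast this
  set x₀ := G π₀ y₀ with hx₀
  -- the estimate
  have hest : ∀ π : PP d, C * ‖π‖₊ < 1 → ∀ y, (1 - (C : ℝ) * ‖π‖) * ‖G π y - x₀‖ ≤
      ‖y - y₀‖ + ‖gg χ π x₀ - gg χ π₀ x₀‖ := by
    intro π hπ y
    have h1 := (hG π hπ).2 y
    have h2 := (hG π₀ hπ₀).2 y₀
    have h3 := (hC π).norm_sub_le (G π y) x₀
    have h4 : G π y - x₀ = (y - y₀) - (gg χ π (G π y) - gg χ π x₀) -
        (gg χ π x₀ - gg χ π₀ x₀) := by
      have e1 : y - y₀ = (G π y + gg χ π (G π y)) - (G π₀ y₀ + gg χ π₀ (G π₀ y₀)) := by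
        rw [h1, h2]
      rw [e1, hx₀]
      abel
    have h5 : ‖G π y - x₀‖ ≤ ‖y - y₀‖ + ‖gg χ π (G π y) - gg χ π x₀‖ +
        ‖gg χ π x₀ - gg χ π₀ x₀‖ := by
      calc ‖G π y - x₀‖ = ‖(y - y₀) - (gg χ π (G π y) - gg χ π x₀) -
        (gg χ π x₀ - gg χ π₀ x₀)‖ := by rw [← h4]
        _ ≤ ‖(y - y₀) - (gg χ π (G π y) - gg χ π x₀)‖ + ‖gg χ π x₀ - gg χ π₀ x₀‖ :=
          norm_sub_le _ _
        _ ≤ _ := by
          gcongr
          exact norm_sub_le _ _
    push_cast at h3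
    nlinarith
  rw [ContinuousWithinAt, tendsto_iff_norm_sub_tendsto_zero]
  have hgc0 : Continuous (fun p : PP d × EE d => gg χ p.1 p.2) := (gg_contDiff χ).continuous
  have hgc1 : Continuous (fun π : PP d => ((π, x₀) : PP d × EE d)) :=
    Continuous.prodMk continuous_id continuous_const
  have hgc2 : Continuous ((fun p : PP d × EE d => gg χ p.1 p.2) ∘
      (fun π : PP d => ((π, x₀) : PP d × EE d))) := hgc0.comp hgc1
  have hgc : Continuous (fun π : PP d => gg χ π x₀) := hgc2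
  have hnum : Continuous (fun p : PP d × EE d => ‖p.2 - y₀‖ + ‖gg χ p.1 x₀ - gg χ π₀ x₀‖) :=
    ((continuous_snd.sub continuous_const).norm).add
      (((hgc.comp continuous_fst).sub continuous_const).norm)
  have hden : Continuous (fun p : PP d × EE d => 1 - (C : ℝ) * ‖p.1‖) :=
    continuous_const.sub (continuous_const.mul continuous_fst.norm)
  have hlim : Tendsto (fun p : PP d × EE d =>
      (‖p.2 - y₀‖ + ‖gg χ p.1 x₀ - gg χ π₀ x₀‖) / (1 - (C : ℝ) * ‖p.1‖))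
      (𝓝[{π | C * ‖π‖₊ < 1} ×ˢ univ] (π₀, y₀)) (𝓝 0) := by
    have h1 : Tendsto (fun p : PP d × EE d =>
      (‖p.2 - y₀‖ + ‖gg χ p.1 x₀ - gg χ π₀ x₀‖) / (1 - (C : ℝ) * ‖p.1‖))
      (𝓝 (π₀, y₀)) (𝓝 ((‖y₀ - y₀‖ + ‖gg χ π₀ x₀ - gg χ π₀ x₀‖) / (1 - (C : ℝ) * ‖π₀‖))) :=
      (hnum.tendsto (π₀, y₀)).div (hden.tendsto (π₀, y₀)) (by
        linarith)
    have h2 : (‖y₀ - y₀‖ + ‖gg χ π₀ x₀ - gg χ π₀ x₀‖) / (1 - (C : ℝ) * ‖π₀‖) = 0 := by
      simp
    rw [h2] at h1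
    exact h1.mono_left nhdsWithin_le_nhds
  refine squeeze_zero' (Eventually.of_forall fun p => norm_nonneg _) ?_ hlim
  filter_upwards [self_mem_nhdsWithin] with p hp
  have hp1 : C * ‖p.1‖₊ < 1 := hp.1
  have hp2 : (C : ℝ) * ‖p.1‖ < 1 := by exact_mod_cast hp1
  rw [le_div_iff₀ (by linarith), mul_comm]
  exact hest p.1 hp1 p.2

theorem inv_smooth (hC : ∀ π : PP d, LipschitzWith (C * ‖π‖₊) (gg χ π))
    (hG : ∀ π : PP d, C * ‖π‖₊ < 1 → (∀ x, G π (x + gg χ π x) = x) ∧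
      ∀ x, G π x + gg χ π (G π x) = x) :
    ContDiffOn ℝ ∞ (fun p : PP d × EE d => G p.1 p.2) ({π | C * ‖π‖₊ < 1} ×ˢ univ) := by
  have hopen : IsOpen ({π : PP d | C * ‖π‖₊ < 1} ×ˢ (univ : Set (EE d))) :=
    (isOpen_lt (continuous_const.mul continuous_nnnorm) continuous_const).prod isOpen_univ
  have hgs := gg_contDiff χ
  have hs : ContDiff ℝ ∞ (fun p : PP d × EE d => (p.1, p.2 + gg χ p.1 p.2)) :=
    contDiff_fst.prodMk (contDiff_snd.add hgs)
  let Φ : OpenPartialHomeomorph (PP d × EE d) (PP d × EE d) :=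
    { toFun := fun p => (p.1, p.2 + gg χ p.1 p.2)
      invFun := fun p => (p.1, G p.1 p.2)
      source := {π | C * ‖π‖₊ < 1} ×ˢ univ
      target := {π | C * ‖π‖₊ < 1} ×ˢ univ
      map_source' := fun p hp => ⟨hp.1, mem_univ _⟩
      map_target' := fun p hp => ⟨hp.1, mem_univ _⟩
      left_inv' := fun p hp => by
        have := (hG p.1 hp.1).1 p.2
        exact Prod.ext rfl this
      right_inv' := fun p hp => by
        have := (hG p.1 hp.1).2 p.2
        exact Prod.ext rfl this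
      open_source := hopen
      open_target := hopen
      continuousOn_toFun := hs.continuous.continuousOn
      continuousOn_invFun := continuousOn_fst.prodMk (inv_cont hC hG) }
  rintro ⟨π, y⟩ hp
  have hπ : C * ‖π‖₊ < 1 := hp.1
  have hsymm : ContDiffAt ℝ ∞ Φ.symm (π, y) := by
    set x := G π y with hx
    -- derivative
    have hD : HasFDerivAt (fun p : PP d × EE d => gg χ p.1 p.2)
        (fderiv ℝ (fun p : PP d × EE d => gg χ p.1 p.2) (π, x)) (π, x) :=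
      ((hgs.differentiable (by simp)) (π, x)).hasFDerivAt
    set D := fderiv ℝ (fun p : PP d × EE d => gg χ p.1 p.2) (π, x) with hDd
    have hDx : HasFDerivAt (gg χ π) (D.comp (ContinuousLinearMap.inr ℝ (PP d) (EE d))) x := by
      have h1 : HasFDerivAt (fun x' : EE d => ((π, x') : PP d × EE d))
          (ContinuousLinearMap.inr ℝ (PP d) (EE d)) x := by
        have h2 := (hasFDerivAt_const (𝕜 := ℝ) π x).prodMk (hasFDerivAt_id (𝕜 := ℝ) x)
        exact h2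
      exact hD.comp x h1
    have hnorm : ‖D.comp (ContinuousLinearMap.inr ℝ (PP d) (EE d))‖ ≤ (C * ‖π‖₊ : NNReal) := by
      rw [← hDx.fderiv]
      exact norm_fderiv_le_of_lipschitz ℝ (hC π)
    have h3 : ‖-(D.comp (ContinuousLinearMap.inr ℝ (PP d) (EE d)))‖ < 1 := by
      rw [norm_neg]
      exact hnorm.trans_lt (by exact_mod_cast hπ)
    set A := ContinuousLinearEquiv.unitsEquiv ℝ (EE d)
      (Units.oneSub (-(D.comp (ContinuousLinearMap.inr ℝ (PP d) (EE d)))) h3) with hA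
    have hAv : ∀ w, A w = w + D (0, w) := by
      intro w
      simp [hA]
    set L : (PP d × EE d) ≃L[ℝ] (PP d × EE d) :=
      ContinuousLinearEquiv.skewProd (ContinuousLinearEquiv.refl ℝ (PP d)) A
        (D.comp (ContinuousLinearMap.inl ℝ (PP d) (EE d))) with hL
    refine Φ.contDiffAt_symm (f₀' := L) (a := (π, y)) ⟨hπ, mem_univ _⟩ ?_ ?_
    · change HasFDerivAt (fun p : PP d × EE d => (p.1, p.2 + gg χ p.1 p.2))
        (L : (PP d × EE d) →L[ℝ] (PP d × EE d)) (π, G π y)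
      rw [← hx]
      have h5 : HasFDerivAt (fun p : PP d × EE d => (p.1, p.2 + gg χ p.1 p.2))
        ((ContinuousLinearMap.fst ℝ (PP d) (EE d)).prod
          (ContinuousLinearMap.snd ℝ (PP d) (EE d) + D)) (π, x) :=
        hasFDerivAt_fst.prodMk (hasFDerivAt_snd.add hD)
      have h6 : (L : (PP d × EE d) →L[ℝ] (PP d × EE d)) =
          (ContinuousLinearMap.fst ℝ (PP d) (EE d)).prod
          (ContinuousLinearMap.snd ℝ (PP d) (EE d) + D) := by
        apply ContinuousLinearMap.ext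
        rintro ⟨ρ, w⟩
        have h7 : D (ρ, w) = D (ρ, 0) + D (0, w) := by
          rw [← map_add]
          simp
        change L (ρ, w) = (ρ, w + D (ρ, w))
        rw [hL, ContinuousLinearEquiv.skewProd_apply]
        simp only [ContinuousLinearEquiv.coe_refl', id_eq, ContinuousLinearMap.coe_comp,
          Function.comp_apply, ContinuousLinearMap.inl_apply]
        rw [hAv, h7]
        refine Prod.ext rfl ?_
        simp only
        abel
      rw [h6]
      exact h5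
    · exact hs.contDiffAt
  have h8 : ContDiffAt ℝ ∞ (fun p : PP d × EE d => (Φ.symm p).2) (π, y) :=
    contDiff_snd.contDiffAt.comp (π, y) hsymm
  exact h8.contDiffWithinAt

end

end Fam2

section One

variable {d : ℕ} {N : Type*} [MetricSpace N] [ChartedSpace (EE d) N] {r : ℕ∞}
  [IsManifold (𝓡 d) ∞ N]

/-! GE0 -/
open Pool.Agent.OmegaStab in
theorem exists_fam2 (q : N) :
    ∃ h : PP d → Dyn d N r, IsFam h ∧ IsFam (fun π => (h π).symm) ∧
      ∃ W ∈ 𝓝 q, ∀ᶠ π in 𝓝 (0 : PP d), ∀ x ∈ W,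
        h π x ∈ (extChartAt (𝓡 d) q).source ∧
        extChartAt (𝓡 d) q (h π x) = extChartAt (𝓡 d) q x + π.1 +
          π.2 (extChartAt (𝓡 d) q x - extChartAt (𝓡 d) q q) := by
  classical
  set a := extChartAt (𝓡 d) q q with ha
  have hT : (extChartAt (𝓡 d) q).target ∈ 𝓝 a :=
    (isOpen_extChartAt_target q).mem_nhds (mem_extChartAt_target q)
  obtain ⟨R, hR, hKt⟩ := Metric.nhds_basis_closedBall.mem_iff.1 hT
  obtain ⟨χ, hχi, hχo⟩ : ∃ χ : ContDiffBump a, χ.rIn = R / 2 ∧ χ.rOut = R :=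
    ⟨⟨R / 2, R, by positivity, by linarith⟩, rfl, rfl⟩
  obtain ⟨C, hC⟩ := Fam.gg_lip χ
  -- the good parameters
  obtain ⟨U₀, hU₀d⟩ : ∃ U₀ : Set (PP d), U₀ = {π | C * ‖π‖₊ < 1} := ⟨_, rfl⟩
  have hU₀ : IsOpen U₀ := by
    rw [hU₀d]
    exact isOpen_lt (continuous_const.mul continuous_nnnorm) continuous_const
  have h0 : (0 : PP d) ∈ U₀ := by simp [hU₀d]
  have hgsm : ∀ π : PP d, ContDiff ℝ ∞ (Fam.gg χ π) := Fam.gg_contDiff' χ
  have hinv : ∀ π : PP d, ∃ G : EE d → EE d, π ∈ U₀ → ContDiff ℝ ∞ G ∧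
      (∀ x, G (x + Fam.gg χ π x) = x) ∧ ∀ x, G x + Fam.gg χ π (G x) = x := by
    intro π
    by_cases hπ : π ∈ U₀
    · obtain ⟨G, hG⟩ := Fam.exists_inv (by rwa [hU₀d] at hπ) (hC π) (hgsm π)
      exact ⟨G, fun _ => hG⟩
    · exact ⟨id, fun h => absurd h hπ⟩
  choose G hG using hinv
  have hg0 : ∀ π : PP d, ∀ x ∉ Metric.closedBall a R, Fam.gg χ π x = 0 := by
    intro π x hx
    have : χ x = 0 := by
      by_contra h
      have h1 : x ∈ support χ := h
      rw [χ.support_eq, hχo] at h1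
      exact hx (Metric.ball_subset_closedBall h1)
    simp [Fam.gg, this]
  have hle : ((r : ℕ∞) : ℕ∞ω) ≤ ∞ := by exact_mod_cast le_top
  have hexh : ∀ π : PP d, ∃ h : Dyn d N r,
      π ∈ U₀ → (∀ x, h x = Fam.T q (fun x => x + Fam.gg χ π x) x) ∧
        ∀ x, h.symm x = Fam.T q (G π) x := by
    intro π
    by_cases hπ : π ∈ U₀
    · have hs1 := Fam.supp_of (hg0 π) (hG π hπ).2.1 (hG π hπ).2.2
      have hs2 : ContDiff ℝ ∞ (fun x => x + Fam.gg χ π x) := contDiff_id.add (hgsm π)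
      refine ⟨Fam.TD (isCompact_closedBall a R) hKt
        (fun x => x + Fam.gg χ π x) (G π) hs1.1 hs1.2 (hs2.of_le hle)
        ((hG π hπ).1.of_le hle) (hG π hπ).2.2 (hG π hπ).2.1, fun _ => ⟨fun x => rfl, fun x => rfl⟩⟩
    · exact ⟨Diffeomorph.refl (𝓡 d) N r, fun h => absurd h hπ⟩
  choose h hhh using hexh
  have hh := fun π hπ => (hhh π hπ).1
  have hh' := fun π hπ => (hhh π hπ).2
  have hn : U₀ ∈ 𝓝 (0 : PP d) := hU₀.mem_nhds h0
  have hfam1 : h 0 = Diffeomorph.refl (𝓡 d) N r := by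
    ext x
    rw [hh 0 h0]
    have h1 : (fun x => x + Fam.gg χ (0 : PP d) x) = id := by
      funext x
      simp [Fam.gg]
    rw [h1]
    by_cases hx : x ∈ (extChartAt (𝓡 d) q).source
    · rw [Fam.T_of_mem hx]
      exact (extChartAt (𝓡 d) q).left_inv hx
    · exact Fam.T_of_notMem hx
  have hfam2 : ContMDiffOn (𝓘(ℝ, PP d).prod (𝓡 d)) (𝓡 d) r (fun q : PP d × N => h q.1 q.2)
      (U₀ ×ˢ univ) := by
    have h1 := Fam.T_contMDiffOn (r := r) (isCompact_closedBall a R) hKt hU₀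
      (H := fun π x => x + Fam.gg χ π x)
      (fun π hπ => (Fam.supp_of (hg0 π) (hG π hπ).2.1 (hG π hπ).2.2).1)
      (((contDiff_snd.add (Fam.gg_contDiff χ)).of_le hle).contDiffOn)
    refine h1.congr ?_
    rintro ⟨π, x⟩ ⟨hπ, -⟩
    exact hh π hπ x
  have hfam3 : ContMDiffOn (𝓘(ℝ, PP d).prod (𝓡 d)) (𝓡 d) r
      (fun q : PP d × N => (h q.1).symm q.2) (U₀ ×ˢ univ) := by
    have hGs : ContDiffOn ℝ ∞ (fun p : PP d × EE d => G p.1 p.2) (U₀ ×ˢ univ) := by
      rw [hU₀d]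
      refine Fam2.inv_smooth hC fun π hπ => (hG π ?_).2
      rw [hU₀d]
      exact hπ
    have h1 := Fam.T_contMDiffOn (r := r) (isCompact_closedBall a R) hKt hU₀
      (H := G) (fun π hπ => (Fam.supp_of (hg0 π) (hG π hπ).2.1 (hG π hπ).2.2).2)
      (hGs.of_le hle)
    refine h1.congr ?_
    rintro ⟨π, x⟩ ⟨hπ, -⟩
    exact hh' π hπ x
  have hfam : IsFam h := ⟨hfam1, U₀, hn, hfam2⟩
  have hfam' : IsFam (fun π => (h π).symm) := by
    refine ⟨?_, U₀, hn, hfam3⟩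
    simp only
    rw [hfam1]
    rfl
  refine ⟨h, hfam, hfam', ?_⟩
  refine ⟨(extChartAt (𝓡 d) q).source ∩ extChartAt (𝓡 d) q ⁻¹' (Metric.ball a (R / 2)), ?_, ?_⟩
  · refine Filter.inter_mem (extChartAt_source_mem_nhds q) ?_
    exact (continuousAt_extChartAt q).preimage_mem_nhds
      (Metric.ball_mem_nhds _ (by positivity))
  · filter_upwards [hU₀.mem_nhds h0] with π hπ x hx
    have h1 := (Fam.supp_of (hg0 π) (hG π hπ).2.1 (hG π hπ).2.2).1.mapsTo_target hKt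
      ((extChartAt (𝓡 d) q).map_source hx.1)
    rw [hh π hπ, Fam.T_of_mem hx.1]
    have h3 := (extChartAt (𝓡 d) q).map_target h1
    have h4 := (extChartAt (𝓡 d) q).right_inv h1
    constructor
    · exact h3
    rw [h4]
    have h2 : χ (extChartAt (𝓡 d) q x) = 1 :=
      χ.one_of_mem_closedBall (by rw [hχi]; exact Metric.ball_subset_closedBall hx.2)
    simp only [Fam.gg, h2, one_smul]
    rw [add_assoc]

end One

end Pool.Agent.OmegaPS

end
end

section

/-!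
# MP_814647_an, products, item 22: basic properties of the geometric system (helper5)
-/

open Set Filter Topology Function
open scoped Manifold ContDiff

noncomputable section

namespace Pool.Agent.OmegaPS

open Pool.Agent.OmegaStab (EE Dyn IsFam PP HypAt crTopology HypLin ConjClass)
open Pool.Agent.OmegaStab.FinHyp (der)
open Pool.Agent.OmegaStability

section One

variable {d : ℕ} {N : Type*} [MetricSpace N] [ChartedSpace (EE d) N] {r : ℕ∞}
  [IsManifold (𝓡 d) ∞ N]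

omit [IsManifold (𝓡 d) ∞ N] in
theorem GeoSys.pow_eq {At : Atlas d N r} {F : Dyn d N r} {ε : ℝ} (G : GeoSys At F ε) (n : ℕ)
    (z : N) : (G.S.f ^ n) z = F^[n] z := by
  induction n generalizing z with
  | zero => rfl
  | succ n ih =>
    rw [pow_succ, Equiv.Perm.mul_apply, ih, G.f_eq, iterate_succ_apply]

omit [IsManifold (𝓡 d) ∞ N] in
theorem GeoSys.coc_frame (hr : 1 ≤ r) {At : Atlas d N r} {F : Dyn d N r} {ε : ℝ}
    (G : GeoSys At F ε) (n : ℕ) (z : N) (v : EE d) :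
    G.S.coc n z (G.frame z v) = G.frame (F^[n] z) (der (d := d) F^[n] z v) := by
  have hF := Pool.Agent.OmegaStab.FinHyp.mdiff hr F
  induction n generalizing z v with
  | zero =>
    have h1 : der (d := d) (F^[0]) z = 1 := Pool.Agent.OmegaStab.FinHyp.der_id z
    rw [h1]
    rfl
  | succ n ih =>
    have h1 : der (d := d) (F^[n + 1]) z = der (d := d) (F^[n]) (F z) * der (d := d) F z := by
      rw [iterate_succ]
      exact Pool.Agent.OmegaStab.FinHyp.der_comp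
        (Pool.Agent.OmegaStab.FinHyp.mdiff_iter hF n) hF z
    have h2 : G.S.coc (n + 1) z (G.frame z v) =
        G.S.coc n (G.S.f z) (G.S.a z (G.frame z v)) := rfl
    rw [h2, G.a_eq, G.f_eq, ih, h1, iterate_succ_apply]
    rfl

omit [IsManifold (𝓡 d) ∞ N] in
theorem GeoSys.tr_one {At : Atlas d N r} {F : Dyn d N r} {ε : ℝ} (hε : 0 ≤ ε)
    (G : GeoSys At F ε) {j : At.J} {z y : N} (hz : z ∈ At.W j) (hy : y ∈ At.W j)
    (h : ‖extChartAt (𝓡 d) (At.ctr j) y - extChartAt (𝓡 d) (At.ctr j) z‖ ≤ ε) :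
    G.S.Tr z y (G.frame y * (G.e j y)⁻¹ * G.e j z * (G.frame z)⁻¹) := by
  rw [G.tr_iff]
  refine ⟨j, hz, hy, h, 1, ?_, ?_⟩
  · change ‖ContinuousLinearMap.id ℝ (EE d) - ContinuousLinearMap.id ℝ (EE d)‖ ≤ ε
    rw [sub_self, norm_zero]
    exact hε
  · rw [mul_one]

end One

namespace GeoBasic

variable {X V : Type*} [NormedAddCommGroup V] [InnerProductSpace ℝ V]

/-- The partial products along a sequence of transitions. -/
def PPr (S : Sys X V) {ι : Type*} (τ : ι → Trans X V) (s : ℕ → ι) (l : ℕ → ℕ) :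
    ℕ → (V ≃L[ℝ] V)
  | 0 => 1
  | q + 1 => (τ (s (q + 1))).mat * S.coc (l q) (τ (s q)).tgt * PPr S τ s l q

theorem PPr_congr (S : Sys X V) {ι : Type*} (τ : ι → Trans X V) {s s' : ℕ → ι} {l l' : ℕ → ℕ}
    {p : ℕ} (hs : ∀ q ≤ p, s q = s' q) (hl : ∀ q < p, l q = l' q) :
    PPr S τ s l p = PPr S τ s' l' p := by
  induction p with
  | zero => rfl
  | succ p ih =>
    change (τ (s (p + 1))).mat * S.coc (l p) (τ (s p)).tgt * PPr S τ s l p =
      (τ (s' (p + 1))).mat * S.coc (l' p) (τ (s' p)).tgt * PPr S τ s' l' p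
    rw [ih (fun q hq => hs q (by omega)) (fun q hq => hl q (by omega)), hs (p + 1) le_rfl,
      hs p (by omega), hl p (by omega)]

theorem PPr_add (S : Sys X V) {ι : Type*} (τ : ι → Trans X V) (s : ℕ → ι) (l : ℕ → ℕ)
    (p q : ℕ) :
    PPr S τ s l (p + q) = PPr S τ (fun t => s (p + t)) (fun t => l (p + t)) q * PPr S τ s l p := by
  induction q with
  | zero => exact (one_mul _).symm
  | succ q ih =>
    change (τ (s (p + q + 1))).mat * S.coc (l (p + q)) (τ (s (p + q))).tgt *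
        PPr S τ s l (p + q) = (τ (s (p + (q + 1)))).mat * S.coc (l (p + q)) (τ (s (p + q))).tgt *
        PPr S τ (fun t => s (p + t)) (fun t => l (p + t)) q * PPr S τ s l p
    rw [ih]
    simp only [mul_assoc, Nat.add_assoc]

end GeoBasic

open GeoBasic in
theorem path_seq {X V : Type*} [NormedAddCommGroup V] [InnerProductSpace ℝ V] (S : Sys X V)
    {ι : Type*} {τ : ι → Trans X V} {m : ℕ} {i j : ι} {n : ℕ} {M : V ≃L[ℝ] V}
    (h : Path S τ m i j n M) :
    ∃ (p : ℕ) (s : ℕ → ι) (l : ℕ → ℕ) (P : ℕ → V ≃L[ℝ] V), 0 < p ∧ s 0 = i ∧ s p = j ∧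
      (∀ q < p, m ≤ l q ∧ (S.f ^ l q) (τ (s q)).tgt = (τ (s (q + 1))).src) ∧
      n = ∑ q ∈ Finset.range p, l q ∧ P 0 = 1 ∧
      (∀ q < p, P (q + 1) = (τ (s (q + 1))).mat * S.coc (l q) (τ (s q)).tgt * P q) ∧
      (τ j).mat * M = P p := by
  suffices hmain : ∃ (p : ℕ) (s : ℕ → ι) (l : ℕ → ℕ), 0 < p ∧ s 0 = i ∧ s p = j ∧
      (∀ q < p, m ≤ l q ∧ (S.f ^ l q) (τ (s q)).tgt = (τ (s (q + 1))).src) ∧
      n = ∑ q ∈ Finset.range p, l q ∧ (τ j).mat * M = PPr S τ s l p by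
    obtain ⟨p, s, l, h1, h2, h3, h4, h5, h6⟩ := hmain
    exact ⟨p, s, l, PPr S τ s l, h1, h2, h3, h4, h5, rfl, fun q _ => rfl, h6⟩
  induction h with
  | @stage i j n hn h =>
    refine ⟨1, fun q => if q = 0 then i else j, fun _ => n, one_pos, rfl, rfl, ?_, by simp, ?_⟩
    · intro q hq
      obtain rfl : q = 0 := by omega
      exact ⟨hn, h⟩
    · exact (mul_one _).symm
  | @comp i j l n n' M M' _ _ ih ih' =>
    obtain ⟨p, s, g, h1, h2, h3, h4, h5, h6⟩ := ih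
    obtain ⟨p', s', g', h1', h2', h3', h4', h5', h6'⟩ := ih'
    have es : ∀ q, (if p + q ≤ p then s (p + q) else s' (p + q - p)) = s' q := by
      intro q
      by_cases hq : q = 0
      · subst hq
        simp [h3, h2']
      · rw [if_neg (by omega)]
        congr 1
        omega
    have eg : ∀ q, (if p + q < p then g (p + q) else g' (p + q - p)) = g' q := by
      intro q
      rw [if_neg (by omega)]
      congr 1
      omega
    refine ⟨p + p', fun q => if q ≤ p then s q else s' (q - p),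
      fun q => if q < p then g q else g' (q - p), by omega, ?_, ?_, ?_, ?_, ?_⟩
    · simp [h2]
    · exact (es p').trans h3'
    · intro q hq
      by_cases hqp : q < p
      · simp only [if_pos hqp, if_pos hqp.le, if_pos (show q + 1 ≤ p by omega)]
        exact h4 q hqp
      · obtain ⟨t, rfl⟩ : ∃ t, q = p + t := ⟨q - p, by omega⟩
        have e1 := es t
        have e2 := es (t + 1)
        have e3 := eg t
        rw [← Nat.add_assoc] at e2
        simp only [e1, e2, e3]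
        exact h4' t (by omega)
    · rw [Finset.sum_range_add, h5, h5']
      congr 1
      · apply Finset.sum_congr rfl
        intro q hq
        rw [Finset.mem_range] at hq
        simp only [if_pos hq]
      · apply Finset.sum_congr rfl
        intro q _
        exact (eg q).symm
    · rw [PPr_add]
      have e1 : PPr S τ (fun q => if q ≤ p then s q else s' (q - p))
          (fun q => if q < p then g q else g' (q - p)) p = PPr S τ s g p := by
        apply PPr_congr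
        · intro q hq
          simp only [if_pos hq]
        · intro q hq
          simp only [if_pos hq]
      have e2 : PPr S τ (fun t => if p + t ≤ p then s (p + t) else s' (p + t - p))
          (fun t => if p + t < p then g (p + t) else g' (p + t - p)) p' = PPr S τ s' g' p' := by
        apply PPr_congr
        · intro q _
          exact es q
        · intro q _
          exact eg q
      rw [e1, e2, ← h6, ← h6']
      simp only [mul_assoc]

end Pool.Agent.OmegaPS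

end
end

section

/-!
# Products: no cycles (GE11)
-/

open Set Filter Topology Function
open scoped Manifold ContDiff

noncomputable section

namespace Pool.Agent.OmegaPS

open Pool.Agent.OmegaStability

namespace NoCyc

variable {B : Type*} [MetricSpace B]

theorem per_mem_Omega {F : B → B} {x : B} (hx : x ∈ periodicPts F) : x ∈ Omega F := by
  obtain ⟨n, hn, hper⟩ := hx
  intro U hU
  exact ⟨n, hn, x, ⟨x, mem_of_mem_nhds hU, hper⟩, mem_of_mem_nhds hU⟩

theorem closure_Omega {F : B → B} {x : B} (hx : x ∈ closure (Omega F)) : x ∈ Omega F := by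
  intro U hU
  obtain ⟨V, hVU, hVo, hxV⟩ := mem_nhds_iff.1 hU
  obtain ⟨y, hyV, hy⟩ := mem_closure_iff.1 hx V hVo hxV
  exact hy U (mem_of_superset (hVo.mem_nhds hyV) hVU)

theorem Omega_fwd (f : B ≃ₜ B) {x : B} (hx : x ∈ Omega f) : f x ∈ Omega f := by
  intro U hU
  have hV : f ⁻¹' U ∈ 𝓝 x := f.continuous.continuousAt.preimage_mem_nhds hU
  obtain ⟨n, hn, y, ⟨v, hv, hvy⟩, hy⟩ := hx _ hV
  refine ⟨n, hn, f y, ⟨f v, hv, ?_⟩, hy⟩
  rw [← hvy]
  exact (Function.iterate_succ_apply f n v).symm.trans (Function.iterate_succ_apply' f n v)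

theorem Omega_bwd (f : B ≃ₜ B) {x : B} (hx : x ∈ Omega f) : f.symm x ∈ Omega f := by
  intro U hU
  have hV : f.symm ⁻¹' U ∈ 𝓝 x := f.symm.continuous.continuousAt.preimage_mem_nhds hU
  obtain ⟨n, hn, y, ⟨v, hv, hvy⟩, hy⟩ := hx _ hV
  refine ⟨n, hn, f.symm y, ⟨f.symm v, hv, ?_⟩, hy⟩
  rw [← hvy]
  apply f.injective
  rw [f.apply_symm_apply]
  have : f (f^[n] (f.symm v)) = f^[n] (f (f.symm v)) :=
    (Function.iterate_succ_apply' f n _).symm.trans (Function.iterate_succ_apply f n _)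
  rw [this, f.apply_symm_apply]

omit [MetricSpace B] in
theorem iter_mem {g : B → B} {S : Set B} (hS : ∀ x ∈ S, g x ∈ S) (n : ℕ) {x : B} (hx : x ∈ S) :
    g^[n] x ∈ S := by
  induction n with
  | zero => exact hx
  | succ n ih => rw [Function.iterate_succ_apply']; exact hS _ ih

theorem of_iter_mem (g : B ≃ₜ B) {S : Set B} (hS : g '' S = S) (n : ℕ) {x : B}
    (hx : g^[n] x ∈ S) : x ∈ S := by
  induction n with
  | zero => exact hx
  | succ n ih =>
    apply ih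
    rw [Function.iterate_succ_apply'] at hx
    rw [← hS] at hx
    obtain ⟨y, hy, hyx⟩ := hx
    rwa [← g.injective hyx]

/-- a point of Omega which is forward asymptotic to the piece `S` is in `S` -/
theorem mem_of_stable [CompactSpace B] (g : B ≃ₜ B) {Om S U : Set B}
    (hOm : ∀ x ∈ Om, g x ∈ Om) (hcl : IsClosed S) (hS : g '' S = S) (hU : IsOpen U)
    (hSU : S = U ∩ Om) {z : B} (hz : z ∈ Om) (hst : z ∈ StableSet g S) : z ∈ S := by
  obtain ⟨x, hx, hlim⟩ := hst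
  obtain ⟨δ, hδ, hth⟩ := hcl.isCompact.exists_thickening_subset_open hU
    (by rw [hSU]; exact inter_subset_left)
  have hinv : ∀ y ∈ S, g y ∈ S := fun y hy => by rw [← hS]; exact mem_image_of_mem _ hy
  obtain ⟨n, hn⟩ := (hlim.eventually (gt_mem_nhds hδ)).exists
  refine of_iter_mem g hS n (x := z) ?_
  rw [hSU]
  refine ⟨hth ?_, iter_mem hOm n hz⟩
  rw [Metric.mem_thickening_iff]
  exact ⟨g^[n] x, iter_mem hinv n hx, by rw [dist_comm]; exact hn⟩

theorem piece_subset {f : B ≃ₜ B} {S S' : Set B} (hS : IsPiece f S) (hS' : IsPiece f S') {x : B}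
    (hx : x ∈ S) (hx' : x ∈ S') : S ⊆ S' := by
  obtain ⟨h1, -, h3, -, w, hw, hdense⟩ := hS
  obtain ⟨-, h2', h3', ⟨U', hU', hSU'⟩, -⟩ := hS'
  have hxU : x ∈ U' := by rw [hSU'] at hx'; exact hx'.1
  obtain ⟨y, hyU, n, hny⟩ := mem_closure_iff.1 (hdense hx) U' hU' hxU
  have hny' : f^[n] w = y := hny
  have hfS : ∀ y ∈ S, f y ∈ S := fun y hy => by
    have : f y ∈ f '' S := mem_image_of_mem _ hy
    rwa [h3] at this
  have hfS' : ∀ y ∈ S', f y ∈ S' := fun y hy => by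
    have : f y ∈ f '' S' := mem_image_of_mem _ hy
    rwa [h3'] at this
  have hyS' : f^[n] w ∈ S' := by
    rw [hSU']
    exact ⟨by rw [hny']; exact hyU, h1 (iter_mem hfS n hw)⟩
  have hwS' : w ∈ S' := of_iter_mem f h3' n hyS'
  refine hdense.trans (closure_minimal ?_ h2')
  rintro _ ⟨m, rfl⟩
  exact iter_mem hfS' m hwS'

/-- one stage of a chain -/
def Conn (F : B → B) (ε : ℝ) (n₁ : ℕ) (a b : B) : Prop :=
  ∃ (y : B) (n : ℕ), n₁ ≤ n ∧ dist y a ≤ ε ∧ dist (F^[n] y) b ≤ ε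

theorem connect {f : B ≃ₜ B} (hΩ : Omega f ⊆ closure (periodicPts f)) {S : Set B}
    (hS : IsPiece f S) {a b : B} (ha : a ∈ S) (hb : b ∈ S) {ε : ℝ} (hε : 0 < ε) (n₁ : ℕ) :
    Conn f ε n₁ a b := by
  obtain ⟨h1, -, -, ⟨U, hU, hSU⟩, w, hw, hdense⟩ := hS
  obtain ⟨s, hs⟩ : ∃ s : ℕ, dist (f^[s] w) a < ε := by
    obtain ⟨y, ⟨s, hs⟩, hy⟩ := Metric.mem_closure_iff.1 (hdense ha) ε hε
    refine ⟨s, ?_⟩
    have hs' : f^[s] w = y := hs
    rw [hs', dist_comm]
    exact hy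
  obtain ⟨p, hpS, P, hP, hpP, hpb⟩ : ∃ p ∈ S, ∃ P : ℕ, 0 < P ∧ f^[P] p = p ∧
      dist p b < ε / 2 := by
    have hbU : b ∈ U := by rw [hSU] at hb; exact hb.1
    obtain ⟨δ, hδ, hball⟩ := Metric.isOpen_iff.1 hU b hbU
    obtain ⟨p, hp, hpd⟩ := Metric.mem_closure_iff.1 (hΩ (h1 hb)) (min δ (ε / 2))
      (lt_min hδ (by linarith))
    rw [dist_comm] at hpd
    have hpS : p ∈ S := by
      rw [hSU]
      exact ⟨hball (Metric.mem_ball.2 (hpd.trans_le (min_le_left _ _))), per_mem_Omega hp⟩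
    obtain ⟨P, hP, hper⟩ := hp
    exact ⟨p, hpS, P, hP, hper, hpd.trans_le (min_le_right _ _)⟩
  set N := P * (s + n₁) with hN
  have hNp : f^[N] p = p := by
    have : IsPeriodicPt f P p := hpP
    exact this.mul_const _
  have hcont : ContinuousAt (f^[N]) p := (f.continuous.iterate N).continuousAt
  obtain ⟨δ, hδ, hδ'⟩ := Metric.continuousAt_iff.1 hcont (ε / 2) (by linarith)
  obtain ⟨y, ⟨t, ht⟩, hy⟩ := Metric.mem_closure_iff.1 (hdense hpS) δ hδ
  have ht' : f^[t] w = y := ht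
  rw [dist_comm, ← ht'] at hy
  have h2 := hδ' hy
  rw [hNp, ← Function.iterate_add_apply] at h2
  have hNs : s + n₁ ≤ N := by
    rw [hN]
    exact Nat.le_mul_of_pos_left _ hP
  refine ⟨f^[s] w, N + t - s, by omega, hs.le, ?_⟩
  rw [← Function.iterate_add_apply]
  have : N + t - s + s = N + t := by omega
  rw [this]
  calc dist (f^[N + t] w) b ≤ dist (f^[N + t] w) p + dist p b := dist_triangle _ _ _
    _ ≤ ε := by linarith

theorem inv_iter (f : B ≃ₜ B) (n : ℕ) (x : B) : f^[n] (f.symm^[n] x) = x := by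
  have : Function.RightInverse (f.symm : B → B) f := f.apply_symm_apply
  exact (this.iterate n) x

theorem conn_from {f : B ≃ₜ B} {S : Set B} (hS : f '' S = S) {z : B} (hz : z ∈ StableSet f S)
    {ε : ℝ} (hε : 0 < ε) (n₁ : ℕ) : ∃ a ∈ S, Conn f ε n₁ z a := by
  obtain ⟨x, hx, hlim⟩ := hz
  have hinv : ∀ y ∈ S, f y ∈ S := fun y hy => by rw [← hS]; exact mem_image_of_mem _ hy
  obtain ⟨n, hn, hn'⟩ := ((hlim.eventually (gt_mem_nhds hε)).and (eventually_ge_atTop n₁)).exists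
  refine ⟨f^[n] x, iter_mem hinv n hx, z, n, hn', ?_, ?_⟩
  · rw [dist_self]; exact hε.le
  · rw [dist_comm]; exact hn.le

theorem symm_image {f : B ≃ₜ B} {S : Set B} (hS : f '' S = S) : f.symm '' S = S := by
  conv_lhs => rw [← hS]
  rw [← image_comp]
  simp

theorem conn_to {f : B ≃ₜ B} {S : Set B} (hS : f '' S = S) {z : B}
    (hz : z ∈ StableSet f.symm S) {ε : ℝ} (hε : 0 < ε) (n₁ : ℕ) : ∃ b ∈ S, Conn f ε n₁ b z := by
  obtain ⟨x, hx, hlim⟩ := hz
  have hS' := symm_image hS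
  have hinv : ∀ y ∈ S, f.symm y ∈ S := fun y hy => by rw [← hS']; exact mem_image_of_mem _ hy
  obtain ⟨n, hn, hn'⟩ := ((hlim.eventually (gt_mem_nhds hε)).and (eventually_ge_atTop n₁)).exists
  refine ⟨f.symm^[n] x, iter_mem hinv n hx, f.symm^[n] z, n, hn', ?_, ?_⟩
  · rw [dist_comm]; exact hn.le
  · rw [inv_iter, dist_self]; exact hε.le

/-- chains with `p` stages -/
def CR (F : B → B) (ε : ℝ) (n₁ : ℕ) : ℕ → B → B → Prop
  | 0, a, b => a = b
  | p + 1, a, b => ∃ c, CR F ε n₁ p a c ∧ Conn F ε n₁ c b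

theorem CR_seq {F : B → B} {ε : ℝ} {n₁ p : ℕ} {a b : B} (h : CR F ε n₁ p a b) :
    ∃ c : ℕ → B, c 0 = a ∧ c p = b ∧ ∀ q < p, Conn F ε n₁ (c q) (c (q + 1)) := by
  induction p generalizing b with
  | zero => exact ⟨fun _ => a, rfl, h, fun q hq => absurd hq (by omega)⟩
  | succ p ih =>
    obtain ⟨e, he, hconn⟩ := h
    obtain ⟨c, hc0, hcp, hc⟩ := ih he
    refine ⟨Function.update c (p + 1) b, ?_, by simp, ?_⟩
    · rw [Function.update_of_ne (by omega), hc0]
    · intro q hq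
      rw [Function.update_of_ne (show q ≠ p + 1 by omega)]
      by_cases hqp : q = p
      · subst hqp
        rw [Function.update_self, hcp]
        exact hconn
      · rw [Function.update_of_ne (show q + 1 ≠ p + 1 by omega)]
        exact hc q (by omega)

theorem mem_chainPts {F : B → B} {p : ℕ} (hp : 1 ≤ p) {x : B}
    (h : ∀ ε > 0, ∀ n₁ : ℕ, CR F ε n₁ p x x) : x ∈ ChainPts F p := by
  have : NeZero p := ⟨by omega⟩
  have : Nonempty B := ⟨x⟩
  intro ε hε n₁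
  obtain ⟨c, hc0, hcp, hc⟩ := CR_seq (h (ε / 2) (by linarith) n₁)
  choose! y n hn hy1 hy2 using hc
  refine ⟨fun q => y q.val, fun q => n q.val, ?_, fun q => hn _ (ZMod.val_lt q), fun q => ?_⟩
  · have := hy1 0 (by omega)
    rw [hc0] at this
    simp only [ZMod.val_zero]
    linarith
  · have h1 := hy2 q.val (ZMod.val_lt q)
    have h2 : dist (y (q + 1).val) (c (q.val + 1)) ≤ ε / 2 := by
      have hv := ZMod.val_lt q
      by_cases hq : q.val + 1 < p
      · have : (q + 1).val = q.val + 1 := by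
          by_cases hp1 : p = 1
          · omega
          · have : Fact (1 < p) := ⟨by omega⟩
            rw [ZMod.val_add, ZMod.val_one, Nat.mod_eq_of_lt hq]
        rw [this]
        exact hy1 _ hq
      · have hqp : q.val + 1 = p := by omega
        have : (q + 1).val = 0 := by
          rw [ZMod.val_eq_zero]
          have h3 : ((q.val + 1 : ℕ) : ZMod p) = 0 := by rw [hqp]; exact ZMod.natCast_self p
          push_cast at h3
          rwa [ZMod.natCast_zmod_val] at h3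
        rw [this, hqp, hcp, ← hc0]
        exact hy1 0 (by omega)
    calc dist (F^[n q.val] (y q.val)) (y (q + 1).val)
        ≤ dist (F^[n q.val] (y q.val)) (c (q.val + 1)) + dist (c (q.val + 1)) (y (q + 1).val) :=
          dist_triangle _ _ _
      _ ≤ ε / 2 + ε / 2 := add_le_add h1 (by rw [dist_comm]; exact h2)
      _ = ε := by ring

end NoCyc

open NoCyc

variable {B : Type*} [MetricSpace B]

theorem noCycle_of_chainClosed [CompactSpace B] (f : B ≃ₜ B)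
    (h : ChainClosed f) (hΩ : Omega f ⊆ closure (periodicPts f)) :
    NoCycleProperty f f.symm := by
  intro k hk S hS hinj
  by_contra hcon
  push Not at hcon
  have hz : ∀ i, ∃ z, z ∈ StableSet f (S (i + 1)) ∧ z ∈ StableSet f.symm (S i) := fun i => by
    obtain ⟨z, hz⟩ := hcon i
    exact ⟨z, hz.1, hz.2⟩
  choose z hz1 hz2 using hz
  have hinv : ∀ i, f '' S i = S i := fun i => (hS i).2.2.1
  -- chains
  have hCR : ∀ (ε : ℝ), 0 < ε → ∀ (n₁ : ℕ) (i : ZMod k) (m : ℕ),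
      CR f ε n₁ (3 * m) (z i) (z (i + m)) := by
    intro ε hε n₁ i m
    induction m with
    | zero => simp [CR]
    | succ m ih =>
      obtain ⟨a, ha, ha'⟩ := conn_from (hinv _) (hz1 (i + m)) hε n₁
      obtain ⟨b, hb, hb'⟩ := conn_to (hinv _) (hz2 (i + m + 1)) hε n₁
      have hab := connect hΩ (hS (i + m + 1)) ha hb hε n₁
      have e : i + ((m + 1 : ℕ) : ZMod k) = i + m + 1 := by push_cast; ring
      rw [e]
      exact ⟨b, ⟨a, ⟨z (i + m), ih, ha'⟩, hab⟩, hb'⟩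
  have hcyc : ∀ i, z i ∈ Omega f := by
    intro i
    have h1 : z i ∈ ChainPts f (3 * k) := by
      refine mem_chainPts (by omega) (fun ε hε n₁ => ?_)
      have := hCR ε hε n₁ i k
      rwa [ZMod.natCast_self, add_zero] at this
    have h2 := h (3 * k) (by omega) h1
    exact closure_Omega (closure_mono (fun x hx => per_mem_Omega hx) h2)
  have hmem1 : ∀ i, z i ∈ S (i + 1) := by
    intro i
    obtain ⟨-, hcl, himg, ⟨U, hU, hSU⟩, -⟩ := hS (i + 1)
    exact mem_of_stable f (fun x hx => Omega_fwd f hx) hcl himg hU hSU (hcyc i) (hz1 i)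
  have hmem2 : ∀ i, z i ∈ S i := by
    intro i
    obtain ⟨-, hcl, himg, ⟨U, hU, hSU⟩, -⟩ := hS i
    exact mem_of_stable f.symm (fun x hx => Omega_bwd f hx) hcl (symm_image himg) hU hSU
      (hcyc i) (hz2 i)
  have heq : S 0 = S (0 + 1) :=
    Subset.antisymm (piece_subset (hS 0) (hS (0 + 1)) (hmem2 0) (hmem1 0))
      (piece_subset (hS (0 + 1)) (hS 0) (hmem1 0) (hmem2 0))
  have h01 := hinj heq
  rw [zero_add] at h01
  have : Fact (1 < k) := ⟨hk⟩
  exact zero_ne_one h01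

end Pool.Agent.OmegaPS

end
end

section

/-!
# MP_814647_an, products, item 31: topology of the nonwandering set and of chains (helper5)
-/

open Set Filter Topology Function
open scoped Manifold ContDiff

noncomputable section

namespace Pool.Agent.OmegaPS

open Pool.Agent.OmegaStab (EE Dyn IsFam PP HypAt crTopology HypLin ConjClass)
open Pool.Agent.OmegaStab.FinHyp (der)
open Pool.Agent.OmegaStability

section Top

variable {B : Type*} [MetricSpace B]

theorem isClosed_Omega {X : Type*} [TopologicalSpace X] (F : X → X) : IsClosed (Omega F) := by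
  rw [← isOpen_compl_iff, isOpen_iff_mem_nhds]
  intro x hx
  obtain ⟨U, hU, h⟩ : ∃ U ∈ 𝓝 x, ∀ n : ℕ, 0 < n → ¬ (F^[n] '' U ∩ U).Nonempty := by
    by_contra hcon
    apply hx
    intro U hU
    by_contra h2
    exact hcon ⟨U, hU, fun n hn h3 => h2 ⟨n, hn, h3⟩⟩
  filter_upwards [interior_mem_nhds.2 hU] with y hy hyΩ
  obtain ⟨n, hn, h'⟩ := hyΩ U (mem_interior_iff_mem_nhds.1 hy)
  exact h n hn h'

theorem Omega_map {X : Type*} [TopologicalSpace X] (F : X ≃ₜ X) {x : X} (hx : x ∈ Omega F) :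
    F x ∈ Omega F ∧ F.symm x ∈ Omega F := by
  refine ⟨?_, ?_⟩
  · intro U hU
    obtain ⟨n, hn, y, ⟨z, hz, hzy⟩, hy⟩ := hx (F ⁻¹' U) (F.continuous.continuousAt.preimage_mem_nhds hU)
    refine ⟨n, hn, F y, ⟨F z, hz, ?_⟩, hy⟩
    rw [← hzy, ← iterate_succ_apply, iterate_succ_apply']
  · intro V hV
    obtain ⟨n, hn, y, ⟨z, hz, hzy⟩, hy⟩ :=
      hx (F.symm ⁻¹' V) (F.symm.continuous.continuousAt.preimage_mem_nhds hV)
    refine ⟨n, hn, F.symm y, ⟨F.symm z, hz, ?_⟩, hy⟩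
    apply F.injective
    rw [F.apply_symm_apply, ← iterate_succ_apply' F, iterate_succ_apply, F.apply_symm_apply, hzy]

theorem omega_return {F : B → B} (hF : Continuous F) {x : B} (hx : x ∈ Omega F) {η : ℝ}
    (hη : 0 < η) (n₁ : ℕ) : ∃ (y : B) (n : ℕ), n₁ ≤ n ∧ dist y x < η ∧ dist (F^[n] y) x < η := by
  by_cases hper : ∃ n : ℕ, 0 < n ∧ F^[n] x = x
  · obtain ⟨n, hn, hnx⟩ := hper
    refine ⟨x, n * n₁, Nat.le_mul_of_pos_left n₁ hn, by simpa using hη, ?_⟩
    have h1 : F^[n * n₁] x = x := by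
      rw [iterate_mul]
      exact iterate_fixed hnx n₁
    rw [h1]
    simpa using hη
  · push Not at hper
    have h1 : ∀ n : ℕ, 0 < n → ∀ᶠ p in 𝓝 x ×ˢ 𝓝 x, F^[n] p.1 ≠ p.2 := by
      intro n hn
      rw [← nhds_prod_eq]
      have hc : Continuous fun p : B × B => (F^[n] p.1, p.2) :=
        ((hF.iterate n).comp continuous_fst).prodMk continuous_snd
      have ho : IsOpen {p : B × B | p.1 ≠ p.2} := isOpen_ne_fun continuous_fst continuous_snd
      exact (ho.preimage hc).mem_nhds (hper n hn)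
    have h2 : ∀ᶠ p in 𝓝 x ×ˢ 𝓝 x, ∀ n < n₁, 0 < n → F^[n] p.1 ≠ p.2 := by
      refine (eventually_all_finite (Set.finite_lt_nat n₁)).2 ?_
      intro n _
      by_cases hn : 0 < n
      · filter_upwards [h1 n hn] with p hp _ using hp
      · exact Eventually.of_forall fun p h => absurd h hn
    obtain ⟨U, hU, hUU⟩ := mem_prod_same_iff.1 h2
    obtain ⟨n, hn, y, ⟨z, hz, hzy⟩, hy⟩ :=
      hx (U ∩ Metric.ball x η) (inter_mem hU (Metric.ball_mem_nhds x hη))
    refine ⟨z, n, ?_, hz.2, ?_⟩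
    · by_contra hlt
      push Not at hlt
      exact hUU (⟨hz.1, hy.1⟩ : (z, y) ∈ U ×ˢ U) n hlt hn hzy
    · rw [hzy]
      exact hy.2

theorem omega_subset_of_chainClosed {F : B → B} (hF : Continuous F) (h : ChainClosed F) :
    Omega F ⊆ closure (periodicPts F) := by
  intro x hx
  refine h 1 le_rfl fun ε hε n₁ => ?_
  obtain ⟨y, n, hn, h1, h2⟩ := omega_return hF hx (half_pos hε) n₁
  refine ⟨fun _ => y, fun _ => n, by linarith, fun _ => hn, fun _ => ?_⟩
  have h3 := dist_triangle_right (F^[n] y) y x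
  change dist (F^[n] y) y ≤ ε
  linarith

namespace OmegaTop

theorem iter_fst {M N₁ N₂ : Type*} {Φ : M → N₁ × N₂} {f : M → M} {f₁ : N₁ → N₁} {f₂ : N₂ → N₂}
    (hf : ∀ x, Φ (f x) = (f₁ (Φ x).1, f₂ (Φ x).2)) (n : ℕ) (z : M) :
    Φ (f^[n] z) = (f₁^[n] (Φ z).1, f₂^[n] (Φ z).2) := by
  induction n with
  | zero => rfl
  | succ n ih =>
    rw [iterate_succ_apply', iterate_succ_apply', iterate_succ_apply', hf, ih]

end OmegaTop

open OmegaTop in
theorem product_chainClosed {M N₁ N₂ : Type*} [MetricSpace M] [MetricSpace N₁] [MetricSpace N₂]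
    [CompactSpace M] (Φ : M ≃ₜ N₁ × N₂) (f : M → M) (f₁ : N₁ → N₁) (f₂ : N₂ → N₂)
    (hf : ∀ x, Φ (f x) = (f₁ (Φ x).1, f₂ (Φ x).2)) (h₁ : ChainClosed f₁)
    (h₂ : ChainClosed f₂) : ChainClosed f := by
  intro p hp x hx
  have hu := CompactSpace.uniformContinuous_of_continuous Φ.continuous
  rw [Metric.uniformContinuous_iff] at hu
  have key : ∀ ε > 0, ∀ n₁ : ℕ, ∃ (y : ZMod p → M) (n : ZMod p → ℕ),
      dist (Φ (y 0)) (Φ x) ≤ ε ∧ (∀ q, n₁ ≤ n q) ∧
      ∀ q, dist (Φ (f^[n q] (y q))) (Φ (y (q + 1))) ≤ ε := by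
    intro ε hε n₁
    obtain ⟨δ, hδ, h⟩ := hu ε hε
    obtain ⟨y, n, h3, h4, h5⟩ := hx (δ / 2) (half_pos hδ) n₁
    refine ⟨y, n, (h (lt_of_le_of_lt h3 (half_lt_self hδ))).le, h4, fun q => ?_⟩
    exact (h (lt_of_le_of_lt (h5 q) (half_lt_self hδ))).le
  have hx1 : (Φ x).1 ∈ closure (periodicPts f₁) := by
    refine h₁ p hp fun ε hε n₁ => ?_
    obtain ⟨y, n, h3, h4, h5⟩ := key ε hε n₁
    refine ⟨fun q => (Φ (y q)).1, n, le_trans (le_max_left _ _) h3, h4, fun q => ?_⟩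
    have h6 := h5 q
    rw [iter_fst hf] at h6
    exact le_trans (le_max_left _ _) h6
  have hx2 : (Φ x).2 ∈ closure (periodicPts f₂) := by
    refine h₂ p hp fun ε hε n₁ => ?_
    obtain ⟨y, n, h3, h4, h5⟩ := key ε hε n₁
    refine ⟨fun q => (Φ (y q)).2, n, le_trans (le_max_right _ _) h3, h4, fun q => ?_⟩
    have h6 := h5 q
    rw [iter_fst hf] at h6
    exact le_trans (le_max_right _ _) h6
  have hx3 : Φ x ∈ closure (periodicPts f₁ ×ˢ periodicPts f₂) := by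
    rw [closure_prod_eq]
    exact ⟨hx1, hx2⟩
  have hx4 : Φ.symm (Φ x) ∈ closure (Φ.symm '' (periodicPts f₁ ×ˢ periodicPts f₂)) :=
    image_closure_subset_closure_image Φ.symm.continuous ⟨_, hx3, rfl⟩
  rw [Φ.symm_apply_apply] at hx4
  refine closure_mono ?_ hx4
  rintro _ ⟨⟨a, b⟩, ⟨ha, hb⟩, rfl⟩
  obtain ⟨n, hn, hna⟩ := ha
  obtain ⟨m, hm, hmb⟩ := hb
  refine ⟨n * m, Nat.mul_pos hn hm, ?_⟩
  have h7 : f^[n * m] (Φ.symm (a, b)) = Φ.symm (a, b) := by
    apply Φ.injective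
    rw [iter_fst hf, Φ.apply_symm_apply]
    have h8 : f₁^[n * m] a = a := by
      rw [iterate_mul]
      exact iterate_fixed hna m
    have h9 : f₂^[n * m] b = b := by
      rw [Nat.mul_comm, iterate_mul]
      exact iterate_fixed hmb n
    simp only [h8, h9]
  exact h7

theorem chainClosed_of_dense {F : B → B} (h : Dense (periodicPts F)) : ChainClosed F := by
  intro p _ x _
  exact h x

open OmegaTop in
theorem product_omega {M N₁ N₂ : Type*} [MetricSpace M] [MetricSpace N₁] [MetricSpace N₂]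
    (Φ : M ≃ₜ N₁ × N₂) (f : M → M) (f₁ : N₁ → N₁) (f₂ : N₂ → N₂)
    (hf : ∀ x, Φ (f x) = (f₁ (Φ x).1, f₂ (Φ x).2)) :
    ∀ x ∈ Omega f, (Φ x).1 ∈ Omega f₁ ∧ (Φ x).2 ∈ Omega f₂ := by
  intro x hx
  refine ⟨?_, ?_⟩
  · intro U hU
    have hc : Continuous fun z => (Φ z).1 := continuous_fst.comp Φ.continuous
    obtain ⟨n, hn, y, ⟨z, hz, hzy⟩, hy⟩ := hx _ (hc.continuousAt.preimage_mem_nhds hU)
    refine ⟨n, hn, (Φ y).1, ⟨(Φ z).1, hz, ?_⟩, hy⟩
    rw [← hzy, iter_fst hf]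
  · intro U hU
    have hc : Continuous fun z => (Φ z).2 := continuous_snd.comp Φ.continuous
    obtain ⟨n, hn, y, ⟨z, hz, hzy⟩, hy⟩ := hx _ (hc.continuousAt.preimage_mem_nhds hU)
    refine ⟨n, hn, (Φ y).2, ⟨(Φ z).2, hz, ?_⟩, hy⟩
    rw [← hzy, iter_fst hf]

end Top

end Pool.Agent.OmegaPS

end
end

section

/-!
# Products: transitions are realised by affine perturbations (GE4b)
-/

open Set Filter Topology Function
open scoped Manifold ContDiff

noncomputable section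

namespace Pool.Agent.OmegaPS

open Pool.Agent.OmegaStab (EE Dyn IsFam PP HypAt crTopology HypLin ConjClass)
open Pool.Agent.OmegaStab.FinHyp (der)
open Pool.Agent.OmegaStability

section One

variable {d : ℕ} {N : Type*} [MetricSpace N] [ChartedSpace (EE d) N] {r : ℕ∞}
  [IsManifold (𝓡 d) ∞ N]

namespace Realise

omit [IsManifold (𝓡 d) ∞ N] in
theorem exists_radius (At : Atlas d N r) : ∃ ρ : ℝ, 0 < ρ ∧ ∀ j, ∀ π : PP d, ‖π‖ < ρ →
    ∀ z ∈ At.W j, At.h j π z ∈ (extChartAt (𝓡 d) (At.ctr j)).source ∧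
    extChartAt (𝓡 d) (At.ctr j) (At.h j π z) = extChartAt (𝓡 d) (At.ctr j) z + π.1 +
      π.2 (extChartAt (𝓡 d) (At.ctr j) z - extChartAt (𝓡 d) (At.ctr j) (At.ctr j)) := by
  have := At.fin
  have h : ∀ᶠ π in 𝓝 (0 : PP d), ∀ j, ∀ z ∈ At.W j,
      At.h j π z ∈ (extChartAt (𝓡 d) (At.ctr j)).source ∧
      extChartAt (𝓡 d) (At.ctr j) (At.h j π z) = extChartAt (𝓡 d) (At.ctr j) z + π.1 +
        π.2 (extChartAt (𝓡 d) (At.ctr j) z - extChartAt (𝓡 d) (At.ctr j) (At.ctr j)) :=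
    Filter.eventually_all.2 At.affine
  obtain ⟨ρ, hρ, h1⟩ := Metric.eventually_nhds_iff.1 h
  exact ⟨ρ, hρ, fun j π hπ => h1 (by rwa [dist_zero_right]) j⟩

omit [IsManifold (𝓡 d) ∞ N] in
theorem exists_bound [CompactSpace N] (At : Atlas d N r) : ∃ R : ℝ, 0 ≤ R ∧ ∀ j, ∀ z ∈ At.W j,
    ‖extChartAt (𝓡 d) (At.ctr j) z - extChartAt (𝓡 d) (At.ctr j) (At.ctr j)‖ ≤ R := by
  have := At.fin
  have h : ∀ j, ∃ R : ℝ, ∀ z ∈ closure (At.W j),
      ‖extChartAt (𝓡 d) (At.ctr j) z - extChartAt (𝓡 d) (At.ctr j) (At.ctr j)‖ ≤ R := by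
    intro j
    refine isClosed_closure.isCompact.exists_bound_of_continuousOn ?_
    refine ContinuousOn.sub ?_ continuousOn_const
    exact (continuousOn_extChartAt (At.ctr j)).mono (At.closure_W j)
  choose R hR using h
  obtain ⟨B, hB⟩ := Set.finite_range R |>.bddAbove
  refine ⟨max B 0, le_max_right _ _, fun j z hz => ?_⟩
  exact (hR j z (subset_closure hz)).trans ((hB ⟨j, rfl⟩).trans (le_max_left _ _))

end Realise

theorem realise [CompactSpace N] (hr : 1 ≤ r) (At : Atlas d N r) {c₀ : ℝ} (hc₀ : 0 < c₀) :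
    ∃ ε₀ : ℝ, 0 < ε₀ ∧ ∀ ε ≤ ε₀, ∀ (F : Dyn d N r) (G : GeoSys At F ε) (z y : N)
      (D : EE d ≃L[ℝ] EE d), G.S.Tr z y D → ∃ (j : At.J) (π : PP d), ‖π‖ ≤ c₀ ∧
        At.h j π z = y ∧ ∀ v, D (G.frame z v) = G.frame y (der (d := d) (At.h j π) z v) := by
  obtain ⟨ρ, hρ, haff⟩ := Realise.exists_radius At
  obtain ⟨R, hR0, hR⟩ := Realise.exists_bound At
  have hR1 : 0 < 1 + R := by linarith
  refine ⟨min c₀ (ρ / 2) / (1 + R), div_pos (lt_min hc₀ (by linarith)) hR1, ?_⟩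
  intro ε hε F G z y D hTr
  obtain ⟨j, hz, hy, hd, L, hL, hD⟩ := (G.tr_iff z y D).1 hTr
  have hε0 : 0 ≤ ε := (norm_nonneg _).trans hd
  have hεR : ε * (1 + R) ≤ min c₀ (ρ / 2) := (le_div_iff₀ hR1).1 hε
  set ψ := extChartAt (𝓡 d) (At.ctr j) with hψ
  set P : EE d →L[ℝ] EE d := (L : EE d →L[ℝ] EE d) - ContinuousLinearMap.id ℝ (EE d) with hP
  have hPn : ‖P‖ ≤ ε := hL
  set π : PP d := (ψ y - ψ z - P (ψ z - ψ (At.ctr j)), P) with hπ
  have hπn : ‖π‖ ≤ ε * (1 + R) := by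
    rw [Prod.norm_def]
    refine max_le ?_ ?_
    · calc ‖ψ y - ψ z - P (ψ z - ψ (At.ctr j))‖ ≤ ‖ψ y - ψ z‖ + ‖P (ψ z - ψ (At.ctr j))‖ :=
            norm_sub_le _ _
        _ ≤ ε + ε * R := by
            refine add_le_add hd ?_
            exact (P.le_of_opNorm_le hPn _).trans (mul_le_mul_of_nonneg_left (hR j z hz) hε0)
        _ = ε * (1 + R) := by ring
    · calc ‖P‖ ≤ ε := hPn
        _ ≤ ε * (1 + R) := by nlinarith
  have hπc : ‖π‖ ≤ c₀ := hπn.trans (hεR.trans (min_le_left _ _))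
  have hπρ : ‖π‖ < ρ := by
    have := hπn.trans (hεR.trans (min_le_right _ _))
    linarith
  have hzs : z ∈ ψ.source := At.closure_W j (subset_closure hz)
  have hys : y ∈ ψ.source := At.closure_W j (subset_closure hy)
  obtain ⟨hhs, hhe⟩ := haff j π hπρ z hz
  have hhy : At.h j π z = y := by
    refine ψ.injOn hhs hys ?_
    rw [hhe]
    simp only [hπ]
    abel
  refine ⟨j, π, hπc, hhy, fun v => ?_⟩
  -- the derivative
  have hmd : MDifferentiable (𝓡 d) (𝓡 d) (At.h j π) := Pool.Agent.OmegaStab.FinHyp.mdiff hr _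
  have hev : (fun x => ψ (At.h j π x)) =ᶠ[𝓝 z]
      (fun x => ψ x + π.1 + π.2 (ψ x - ψ (At.ctr j))) := by
    filter_upwards [(At.isOpen_W j).mem_nhds hz] with x hx
    exact (haff j π hπρ x hx).2
  have hψz : MDifferentiableAt (𝓡 d) 𝓘(ℝ, EE d) ψ z := by
    refine mdifferentiableAt_extChartAt ?_
    rwa [← extChartAt_source (𝓡 d)]
  have hψy : MDifferentiableAt (𝓡 d) 𝓘(ℝ, EE d) ψ (At.h j π z) := by
    refine mdifferentiableAt_extChartAt ?_
    rw [← extChartAt_source (𝓡 d)]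
    exact hhs
  have hl : mfderiv (𝓡 d) 𝓘(ℝ, EE d) (fun x => ψ (At.h j π x)) z =
      (fr (At.ctr j) (At.h j π z)).comp (der (d := d) (At.h j π) z) :=
    mfderiv_comp z hψy (hmd z)
  set A : EE d → EE d := fun u => u + π.1 + π.2 (u - ψ (At.ctr j)) with hA
  have hAd : HasFDerivAt A (L : EE d →L[ℝ] EE d) (ψ z) := by
    have h1 : HasFDerivAt (fun u : EE d => u + π.1) (ContinuousLinearMap.id ℝ (EE d)) (ψ z) :=
      (hasFDerivAt_id (ψ z)).add_const _
    have h2 : HasFDerivAt (fun u : EE d => π.2 (u - ψ (At.ctr j))) π.2 (ψ z) := by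
      have := (π.2.hasFDerivAt (x := ψ z - ψ (At.ctr j))).comp (ψ z)
        ((hasFDerivAt_id (ψ z)).sub_const (ψ (At.ctr j)))
      exact this
    have h3 := h1.add h2
    have h4 : ContinuousLinearMap.id ℝ (EE d) + π.2 = (L : EE d →L[ℝ] EE d) := by
      simp only [hπ, hP]
      abel
    rw [h4] at h3
    exact h3
  have hrr : mfderiv (𝓡 d) 𝓘(ℝ, EE d) (fun x => A (ψ x)) z =
      (L : EE d →L[ℝ] EE d).comp (fr (At.ctr j) z) := by
    have h1 := mfderiv_comp (I := 𝓡 d) (I' := 𝓘(ℝ, EE d)) (I'' := 𝓘(ℝ, EE d)) z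
      (g := A) (f := ψ) hAd.hasMFDerivAt.mdifferentiableAt hψz
    have h2 : mfderiv 𝓘(ℝ, EE d) 𝓘(ℝ, EE d) A (ψ z) = (L : EE d →L[ℝ] EE d) :=
      hAd.hasMFDerivAt.mfderiv
    rw [h2] at h1
    exact h1
  have heq : (fr (At.ctr j) (At.h j π z)).comp (der (d := d) (At.h j π) z) =
      (L : EE d →L[ℝ] EE d).comp (fr (At.ctr j) z) := by
    rw [← hl, ← hrr]
    exact hev.mfderiv_eq
  have heq2 : ∀ v : EE d, G.e j y (der (d := d) (At.h j π) z v) = L (G.e j z v) := by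
    intro v
    have h1 := congrArg (fun T : EE d →L[ℝ] EE d => T v) heq
    simp only [ContinuousLinearMap.comp_apply, hhy] at h1
    have h2 : ∀ w : EE d, G.e j y w = fr (At.ctr j) y w := fun w =>
      congrArg (fun T : EE d →L[ℝ] EE d => T w) (G.e_eq j y hy)
    have h3 : ∀ w : EE d, G.e j z w = fr (At.ctr j) z w := fun w =>
      congrArg (fun T : EE d →L[ℝ] EE d => T w) (G.e_eq j z hz)
    rw [h2, h3]
    exact h1
  rw [hD]
  change G.frame y ((G.e j y).symm (L (G.e j z ((G.frame z).symm (G.frame z v))))) = _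
  rw [ContinuousLinearEquiv.symm_apply_apply, ← heq2, ContinuousLinearEquiv.symm_apply_apply]

end One

end Pool.Agent.OmegaPS

end
end

section

/-!
# Vectorwise hyperbolicity
-/

open Set Filter Topology Function
open scoped Manifold ContDiff

noncomputable section

namespace Pool.Agent.OmegaPS

open Pool.Agent.OmegaStab (EE)
open Pool.Agent.OmegaStab.FinHyp (der)
open Pool.Agent.OmegaStability

variable {d : ℕ} {N : Type*} [MetricSpace N] [ChartedSpace (EE d) N] [IsManifold (𝓡 d) ∞ N]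

/-- Every tangent vector over `Λ` is the sum of a forward contracted and a backward contracted
one. -/
def VecHyp (F F' : N → N) (γ : RMetric (EE d) N) (Λ : Set N) (C δ : ℝ) : Prop :=
  ∀ x ∈ Λ, ∀ v : EE d, ∃ s u : EE d, v = s + u ∧
    (∀ n : ℕ, rnorm γ (F^[n] x) (der (d := d) F^[n] x s) ≤
      C * Real.exp (-δ * n) * rnorm γ x s) ∧
    (∀ n : ℕ, rnorm γ x s ≤ C * Real.exp (-δ * n) *
      rnorm γ (F'^[n] x) (der (d := d) F'^[n] x s)) ∧
    (∀ n : ℕ, rnorm γ (F'^[n] x) (der (d := d) F'^[n] x u) ≤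
      C * Real.exp (-δ * n) * rnorm γ x u) ∧
    ∀ n : ℕ, rnorm γ x u ≤ C * Real.exp (-δ * n) *
      rnorm γ (F^[n] x) (der (d := d) F^[n] x u)

end Pool.Agent.OmegaPS

end
end

section

/-!
# Products: existence of atlases (item 19)
-/

open Set Filter Topology Function
open scoped Manifold ContDiff

noncomputable section

namespace Pool.Agent.OmegaPS

open Pool.Agent.OmegaStab (EE Dyn IsFam PP HypAt crTopology HypLin ConjClass)
open Pool.Agent.OmegaStab.FinHyp (der)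
open Pool.Agent.OmegaStability

section One

variable {d : ℕ} {N : Type*} [MetricSpace N] [ChartedSpace (EE d) N] {r : ℕ∞}
  [IsManifold (𝓡 d) ∞ N]

/-! GE1 -/
theorem exists_atlas [CompactSpace N] : Nonempty (Atlas d N r) := by
  classical
  choose h hf hf' W hW haff using fun q : N => exists_fam2 (d := d) (r := r) q
  have hex : ∀ q : N, ∃ ρ : ℝ, 0 < ρ ∧
      Metric.closedBall q ρ ⊆ (extChartAt (𝓡 d) q).source ∩ W q := by
    intro q
    exact Metric.nhds_basis_closedBall.mem_iff.1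
      (Filter.inter_mem (extChartAt_source_mem_nhds q) (hW q))
  choose ρ hρ hρW using hex
  obtain ⟨t, -, ht⟩ := isCompact_univ.elim_nhds_subcover (fun q : N => Metric.ball q (ρ q))
    (fun q _ => Metric.ball_mem_nhds q (hρ q))
  exact ⟨{
    J := Fin t.card
    fin := inferInstance
    ctr := fun j => (t.equivFin.symm j : N)
    W := fun j => Metric.ball (t.equivFin.symm j : N) (ρ (t.equivFin.symm j : N))
    isOpen_W := fun j => Metric.isOpen_ball
    closure_W := fun j => Metric.closure_ball_subset_closedBall.trans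
      ((hρW _).trans inter_subset_left)
    cover := fun z => by
      have hz := ht (mem_univ z)
      rw [mem_iUnion₂] at hz
      obtain ⟨q, hq, hz⟩ := hz
      refine ⟨t.equivFin ⟨q, hq⟩, ?_⟩
      rw [Equiv.symm_apply_apply]
      exact hz
    h := fun j => h (t.equivFin.symm j : N)
    isFam := fun j => hf _
    isFam' := fun j => hf' _
    affine := fun j => by
      filter_upwards [haff (t.equivFin.symm j : N)] with π hπ z hz
      exact hπ z (hρW _ (Metric.ball_subset_closedBall hz)).2 }⟩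

end One

end Pool.Agent.OmegaPS

end
end

section

/-!
# Products: close periodic points, subsets of hyperbolic sets (item 53)
-/

open Set Filter Topology Function
open scoped Manifold ContDiff

noncomputable section

namespace Pool.Agent.OmegaPS

open Pool.Agent.OmegaStab (EE Dyn IsFam PP HypAt crTopology HypLin ConjClass)
open Pool.Agent.OmegaStab.FinHyp (der)
open Pool.Agent.OmegaStability

section One

variable {d : ℕ} {N : Type*} [MetricSpace N] [ChartedSpace (EE d) N] {r : ℕ∞}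
  [IsManifold (𝓡 d) ∞ N]

omit r in
theorem hyperbolicStructure_mono {F F' : N → N} {Λ Λ' : Set N} (hΛ' : IsClosed Λ') (hs : Λ' ⊆ Λ)
    (h : HyperbolicStructure (EE d) F F' Λ) : HyperbolicStructure (EE d) F F' Λ' := by
  obtain ⟨Es, Eu, hc1, hc2, hcompl, hi1, hi2, γ, c, μ, hc, hμ, hμ1, hk1, hk2⟩ := h
  have hmono : ∀ V : TFamily (EE d) N, ClosedOver V Λ → ClosedOver V Λ' := by
    intro V hV
    have hproj : Continuous (fun v : TangentBundle (𝓡 d) N => v.1) :=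
      FiberBundle.continuous_proj (EE d) (TangentSpace (𝓡 d) : N → Type _)
    have h1 : IsClosed ((fun v : TangentBundle (𝓡 d) N => v.1) ⁻¹' Λ') := hΛ'.preimage hproj
    have h2 := h1.inter hV
    have h3 : {v : TangentBundle (𝓡 d) N | v.1 ∈ Λ' ∧ v.2 ∈ V v.1} =
        ((fun v : TangentBundle (𝓡 d) N => v.1) ⁻¹' Λ') ∩
          {v : TangentBundle (𝓡 d) N | v.1 ∈ Λ ∧ v.2 ∈ V v.1} := by
      ext v
      simp only [mem_ofPred_eq, mem_inter_iff, mem_preimage]
      constructor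
      · rintro ⟨h4, h5⟩
        exact ⟨h4, hs h4, h5⟩
      · rintro ⟨h4, -, h5⟩
        exact ⟨h4, h5⟩
    show IsClosed {v : TangentBundle (𝓡 d) N | v.1 ∈ Λ' ∧ v.2 ∈ V v.1}
    rw [h3]
    exact h2
  exact ⟨Es, Eu, hmono _ hc1, hmono _ hc2, fun x hx => hcompl x (hs hx),
    fun x hx => hi1 x (hs hx), fun x hx => hi2 x (hs hx), γ, c, μ, hc, hμ, hμ1,
    fun x hx => hk1 x (hs hx), fun x hx => hk2 x (hs hx)⟩

theorem exists_close_periodic {B : Type*} [MetricSpace B] [CompactSpace B] {F : B → B}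
    (hinf : (Omega F).Infinite) (hper : Omega F ⊆ closure (periodicPts F)) {ε : ℝ}
    (hε : 0 < ε) : ∃ p q : B, p ∈ periodicPts F ∧ q ∈ periodicPts F ∧ dist p q < ε ∧
      ∀ n : ℕ, F^[n] p ≠ q := by
  have hPinf : (periodicPts F).Infinite := by
    intro hfin
    rw [hfin.isClosed.closure_eq] at hper
    exact hinf (hfin.subset hper)
  obtain ⟨x, -, hx⟩ := hPinf.exists_accPt_of_subset_isCompact isCompact_univ (subset_univ _)
  have hinf2 : (Metric.ball x (ε / 2) ∩ periodicPts F).Infinite := by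
    rw [accPt_iff_nhds] at hx
    intro hfin
    have hfin' : ((Metric.ball x (ε / 2) ∩ periodicPts F) \ {x}).Finite := hfin.subset sdiff_subset
    have hopen : IsOpen ((((Metric.ball x (ε / 2) ∩ periodicPts F) \ {x})ᶜ) : Set B) :=
      hfin'.isClosed.isOpen_compl
    have hmem : Metric.ball x (ε / 2) ∩ ((Metric.ball x (ε / 2) ∩ periodicPts F) \ {x})ᶜ ∈ 𝓝 x := by
      refine inter_mem (Metric.ball_mem_nhds x (by linarith)) (hopen.mem_nhds ?_)
      simp
    obtain ⟨y, ⟨⟨hy1, hy2⟩, hy3⟩, hyx⟩ := hx _ hmem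
    exact hy2 ⟨⟨hy1, hy3⟩, hyx⟩
  obtain ⟨p, hp1, hp⟩ := hinf2.nonempty
  have horb : (range fun n : ℕ => F^[n] p).Finite := by
    obtain ⟨P, hP, hPp⟩ := hp
    refine (finite_range (fun i : Fin P => F^[(i : ℕ)] p)).subset ?_
    rintro _ ⟨n, rfl⟩
    refine ⟨⟨n % P, Nat.mod_lt n hP⟩, ?_⟩
    exact hPp.iterate_mod_apply n
  obtain ⟨q, ⟨hq1, hq⟩, hqo⟩ := (hinf2.sdiff horb).nonempty
  refine ⟨p, q, hp, hq, ?_, fun n hn => hqo ⟨n, hn⟩⟩
  rw [Metric.mem_ball] at hp1 hq1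
  calc dist p q ≤ dist p x + dist x q := dist_triangle _ _ _
    _ < ε := by rw [dist_comm x q]; linarith

end One

end Pool.Agent.OmegaPS

end
end

section

/-!
# Products, item 36 (GE9): closed chains of a uniformly hyperbolic system are close to periodic
orbits
-/

open Set Filter Topology Function
open scoped Manifold ContDiff

noncomputable section

namespace Pool.Agent.OmegaPS

open Pool.Agent.OmegaStab (EE Dyn IsFam PP HypAt crTopology HypLin)
open Pool.Agent.OmegaStab.FinHyp (der)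

namespace Closing

variable {d : ℕ} {N : Type*} [MetricSpace N] [ChartedSpace (EE d) N] {r : ℕ∞}

/-- domain of `Fn` in charts -/
def dom (x x' : N) (Fn : N → N) : Set (EE d) :=
  {a | a ∈ (extChartAt (𝓡 d) x).target ∧
    Fn ((extChartAt (𝓡 d) x).symm a) ∈ (extChartAt (𝓡 d) x').source}

/-- `Fn` in charts -/
def loc (x x' : N) (Fn : N → N) (a : EE d) : EE d :=
  extChartAt (𝓡 d) x' (Fn ((extChartAt (𝓡 d) x).symm a))

theorem isOpen_dom (x x' : N) {Fn : N → N} (hF : Continuous Fn) :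
    IsOpen (dom (d := d) x x' Fn) := by
  have h : ContinuousOn (fun a => Fn ((extChartAt (𝓡 d) x).symm a))
      (extChartAt (𝓡 d) x).target := hF.comp_continuousOn (continuousOn_extChartAt_symm x)
  exact h.isOpen_inter_preimage (isOpen_extChartAt_target x) (isOpen_extChartAt_source x')

variable [IsManifold (𝓡 d) ∞ N]

theorem contDiffOn_loc (x x' : N) {Fn : N → N} (hF : ContMDiff (𝓡 d) (𝓡 d) 1 Fn) :
    ContDiffOn ℝ 1 (loc (d := d) x x' Fn) (dom (d := d) x x' Fn) := by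
  have : IsManifold (𝓡 d) 1 N := IsManifold.of_le (n := ∞) (by exact_mod_cast le_top)
  rw [← contMDiffOn_iff_contDiffOn]
  have h1 : ContMDiffOn 𝓘(ℝ, EE d) (𝓡 d) 1 (extChartAt (𝓡 d) x).symm
      (dom (d := d) x x' Fn) := (contMDiffOn_extChartAt_symm x).mono fun a ha => ha.1
  have h2 : ContMDiffOn (𝓡 d) 𝓘(ℝ, EE d) 1 (extChartAt (𝓡 d) x')
      (extChartAt (𝓡 d) x').source := by
    rw [extChartAt_source]
    exact contMDiffOn_extChartAt
  exact h2.comp (hF.comp_contMDiffOn h1) fun a ha => ha.2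

theorem symm_deriv (x : N) {a : EE d} (ha : a ∈ (extChartAt (𝓡 d) x).target)
    (e : EE d ≃L[ℝ] EE d)
    (he : (e : EE d →L[ℝ] EE d) = fr x ((extChartAt (𝓡 d) x).symm a)) :
    HasMFDerivAt 𝓘(ℝ, EE d) (𝓡 d) (extChartAt (𝓡 d) x).symm a
      ((e.symm : EE d ≃L[ℝ] EE d) : EE d →L[ℝ] EE d) := by
  have : IsManifold (𝓡 d) 1 N := IsManifold.of_le (n := ∞) (by exact_mod_cast le_top)
  have h1 : MDifferentiableAt 𝓘(ℝ, EE d) (𝓡 d) (extChartAt (𝓡 d) x).symm a :=
    ((contMDiffOn_extChartAt_symm (n := 1) x).contMDiffAt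
      ((isOpen_extChartAt_target x).mem_nhds ha)).mdifferentiableAt one_ne_zero
  have h2 : MDifferentiableAt (𝓡 d) 𝓘(ℝ, EE d) (extChartAt (𝓡 d) x)
      ((extChartAt (𝓡 d) x).symm a) :=
    mdifferentiableAt_extChartAt (by
      rw [← extChartAt_source (𝓡 d)]
      exact (extChartAt (𝓡 d) x).map_target ha)
  have h3 := (h2.hasMFDerivAt).comp a h1.hasMFDerivAt
  have h4 : HasMFDerivAt 𝓘(ℝ, EE d) 𝓘(ℝ, EE d)
      (extChartAt (𝓡 d) x ∘ (extChartAt (𝓡 d) x).symm) a (ContinuousLinearMap.id ℝ (EE d)) := by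
    refine (hasMFDerivAt_id a).congr_of_eventuallyEq ?_
    filter_upwards [(isOpen_extChartAt_target (I := 𝓡 d) x).mem_nhds ha] with b hb
    exact (extChartAt (𝓡 d) x).right_inv hb
  have h5 := hasMFDerivAt_unique h3 h4
  have h6 : mfderiv 𝓘(ℝ, EE d) (𝓡 d) (extChartAt (𝓡 d) x).symm a =
      ((e.symm : EE d ≃L[ℝ] EE d) : EE d →L[ℝ] EE d) := by
    apply ContinuousLinearMap.ext
    intro w
    have h7 : fr x ((extChartAt (𝓡 d) x).symm a)
        (mfderiv 𝓘(ℝ, EE d) (𝓡 d) (extChartAt (𝓡 d) x).symm a w) = w :=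
      congrArg (fun T : EE d →L[ℝ] EE d => T w) h5
    rw [← he] at h7
    exact (e.eq_symm_apply).2 h7
  rw [← h6]
  exact h1.hasMFDerivAt

theorem fderiv_loc (x x' : N) {Fn : N → N} (hF : MDifferentiable (𝓡 d) (𝓡 d) Fn) {a : EE d}
    (ha : a ∈ dom (d := d) x x' Fn) (e : EE d ≃L[ℝ] EE d)
    (he : (e : EE d →L[ℝ] EE d) = fr x ((extChartAt (𝓡 d) x).symm a)) (w : EE d) :
    fderiv ℝ (loc (d := d) x x' Fn) a w =
      fr x' (Fn ((extChartAt (𝓡 d) x).symm a))
        (der (d := d) Fn ((extChartAt (𝓡 d) x).symm a) (e.symm w)) := by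
  have : IsManifold (𝓡 d) 1 N := IsManifold.of_le (n := ∞) (by exact_mod_cast le_top)
  have h1 := symm_deriv x ha.1 e he
  have h2 := (hF ((extChartAt (𝓡 d) x).symm a)).hasMFDerivAt
  have h3 : MDifferentiableAt (𝓡 d) 𝓘(ℝ, EE d) (extChartAt (𝓡 d) x')
      (Fn ((extChartAt (𝓡 d) x).symm a)) :=
    mdifferentiableAt_extChartAt (by
      rw [← extChartAt_source (𝓡 d)]
      exact ha.2)
  have h4 := (h3.hasMFDerivAt).comp a (h2.comp a h1)
  have h5 : HasFDerivAt (loc (d := d) x x' Fn)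
      ((fr x' (Fn ((extChartAt (𝓡 d) x).symm a))).comp
        ((der (d := d) Fn ((extChartAt (𝓡 d) x).symm a)).comp
          ((e.symm : EE d ≃L[ℝ] EE d) : EE d →L[ℝ] EE d))) a :=
    hasMFDerivAt_iff_hasFDerivAt.1 h4
  rw [h5.fderiv]
  rfl

omit [IsManifold (𝓡 d) ∞ N] in
theorem contMDiff_iter (hr : 1 ≤ r) (F : Dyn d N r) (n : ℕ) :
    ContMDiff (𝓡 d) (𝓡 d) 1 (F^[n]) := by
  have h1 : ContMDiff (𝓡 d) (𝓡 d) 1 F := F.contMDiff.of_le (by exact_mod_cast hr)
  induction n with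
  | zero => exact contMDiff_id
  | succ n ih =>
    rw [Function.iterate_succ]
    exact ih.comp h1

end Closing

open Closing in
theorem closing {d : ℕ} {N : Type*} [MetricSpace N] [ChartedSpace (EE d) N] {r : ℕ∞}
    [IsManifold (𝓡 d) ∞ N] [CompactSpace N] (hr : 1 ≤ r) {At : Atlas d N r} {F : Dyn d N r}
    {ε : ℝ}
    (hε : 0 < ε) (G : GeoSys At F ε) {p : ℕ} (hp : 1 ≤ p) {C δ : ℝ} {n₀ : ℕ} (hC : 1 ≤ C)
    (hδ : 0 < δ) (h : ChainUH G.S p C δ n₀) {ε₁ : ℝ} (hε₁ : 0 < ε₁) :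
    ∃ (ε₂ : ℝ) (n₁ : ℕ), 0 < ε₂ ∧ ∀ (y : ZMod p → N) (n : ZMod p → ℕ), (∀ q, n₁ ≤ n q) →
      (∀ q, dist (F^[n q] (y q)) (y (q + 1)) ≤ ε₂) →
      ∃ u ∈ periodicPts F, dist u (y 0) ≤ ε₁ := by
  have hne : NeZero p := ⟨by omega⟩
  obtain ⟨C', n₁, hC', hn₁, hsol⟩ := chain_solve G.S hp hC hδ h
  obtain ⟨η₀, hη₀, hcov, hrad, hunif⟩ := atlas_radius At
  obtain ⟨R, hR, hrad⟩ := hrad (min ε₁ (η₀ / 2)) (lt_min hε₁ (by linarith))
  set Kp : ℝ := max |G.Kθ| 1 with hKp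
  have hK1 : 1 ≤ Kp := le_max_right _ _
  have hK2 : G.Kθ ≤ Kp := (le_abs_self _).trans (le_max_left _ _)
  have hK0 : 0 < Kp := by linarith
  set C2 : ℝ := Kp * (Kp * C') with hC2
  have hC20 : 0 < C2 := by positivity
  set b : ℝ := min (R / 2 / (2 * C2)) (min (R / 2) ε) with hb
  have hb0 : 0 < b := lt_min (by positivity) (lt_min (by linarith) hε)
  have hb1 : 2 * C2 * b ≤ R / 2 := by
    have : b ≤ R / 2 / (2 * C2) := min_le_left _ _
    rw [le_div_iff₀ (by positivity)] at this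
    linarith
  have hb2 : b ≤ R / 2 := (min_le_right _ _).trans (min_le_left _ _)
  have hb3 : b ≤ ε := (min_le_right _ _).trans (min_le_right _ _)
  obtain ⟨ε₂, hε₂, hunif⟩ := hunif b hb0
  refine ⟨min ε₂ (η₀ / 2), n₁, lt_min hε₂ (by linarith), fun y n hn hjump => ?_⟩
  choose j hj using fun q => hcov (y q)
  let x : ZMod p → N := fun q => At.ctr (j q)
  have hyW : ∀ q, y q ∈ At.W (j q) := fun q => hj q (Metric.mem_ball_self hη₀)
  have hyS : ∀ q, y q ∈ (extChartAt (𝓡 d) (x q)).source := fun q =>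
    At.closure_W _ (subset_closure (hyW q))
  have hzW : ∀ q, F^[n q] (y q) ∈ At.W (j (q + 1)) := fun q =>
    hj (q + 1) (Metric.mem_ball.2 (lt_of_le_of_lt ((hjump q).trans (min_le_right _ _))
      (by linarith)))
  have hFn : ∀ q : ZMod p, ContMDiff (𝓡 d) (𝓡 d) 1 (F^[n q]) := fun q => contMDiff_iter hr F _
  -- the map
  let Gm : (ZMod p → EE d) → (ZMod p → EE d) := fun u q =>
    loc (x (q - 1)) (x q) (F^[n (q - 1)]) (u (q - 1)) - u q
  let U : Set (ZMod p → EE d) :=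
    {u | ∀ q, u (q - 1) ∈ dom (d := d) (x (q - 1)) (x q) (F^[n (q - 1)])}
  have hU1 : ∀ u ∈ U, ∀ q, u q ∈ dom (d := d) (x q) (x (q + 1)) (F^[n q]) := by
    intro u hu q
    have h1 := hu (q + 1)
    simpa only [add_sub_cancel_right] using h1
  have hU2 : ∀ u : ZMod p → EE d, (∀ q, u q ∈ dom (d := d) (x q) (x (q + 1)) (F^[n q])) →
      u ∈ U := by
    intro u hu q
    have h1 := hu (q - 1)
    simpa only [sub_add_cancel] using h1
  have hGm : ∀ u q, Gm u (q + 1) = loc (x q) (x (q + 1)) (F^[n q]) (u q) - u (q + 1) := by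
    intro u q
    show loc (x (q + 1 - 1)) (x (q + 1)) (F^[n (q + 1 - 1)]) (u (q + 1 - 1)) - u (q + 1) = _
    rw [add_sub_cancel_right]
  have hshift : ∀ P : ZMod p → Prop, (∀ q, P (q + 1)) → ∀ q, P q := by
    intro P hP q
    have h1 := hP (q - 1)
    rwa [sub_add_cancel] at h1
  have hUo : IsOpen U := by
    have : U = ⋂ q, (fun u : ZMod p → EE d => u (q - 1)) ⁻¹'
        dom (d := d) (x (q - 1)) (x q) (F^[n (q - 1)]) := by
      ext u
      simp [U]
    rw [this]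
    exact isOpen_iInter_of_finite fun q =>
      (isOpen_dom (x (q - 1)) (x q) (hFn (q - 1)).continuous).preimage
        (continuous_apply (q - 1) : Continuous (fun u : ZMod p → EE d => u (q - 1)))
  have hGmC : ContDiffOn ℝ 1 Gm U := by
    refine contDiffOn_pi.2 fun q => ContDiffOn.sub ?_ (contDiff_apply ℝ (EE d) q).contDiffOn
    exact (contDiffOn_loc _ _ (hFn _)).comp (contDiff_apply ℝ (EE d) (q - 1)).contDiffOn
      fun u hu => hu q
  let u₁ : ZMod p → EE d := fun q => extChartAt (𝓡 d) (x q) (y q)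
  have hleft : ∀ q, (extChartAt (𝓡 d) (x q)).symm (u₁ q) = y q := fun q =>
    (extChartAt (𝓡 d) (x q)).left_inv (hyS q)
  have hu₁ : u₁ ∈ U := by
    refine hU2 u₁ fun q => ⟨(extChartAt (𝓡 d) (x q)).map_source (hyS q), ?_⟩
    rw [hleft]
    exact At.closure_W _ (subset_closure (hzW q))
  set v : ZMod p → EE d := Gm u₁ with hv
  have hvb : ∀ q, ‖v q‖ ≤ b := by
    refine hshift _ fun q => ?_
    rw [hv, hGm]
    show ‖extChartAt (𝓡 d) (x (q + 1)) (F^[n q] ((extChartAt (𝓡 d) (x q)).symm (u₁ q))) -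
      extChartAt (𝓡 d) (x (q + 1)) (y (q + 1))‖ ≤ b
    rw [hleft]
    exact hunif (j (q + 1)) (y (q + 1)) (F^[n q] (y q)) (hyW _) (hzW _)
      ((hjump q).trans (min_le_left _ _))
  have hvn : ‖v‖ ≤ b := (pi_norm_le_iff_of_nonneg hb0.le).2 hvb
  have hbound : 2 * C2 * ‖v‖ ≤ R / 2 :=
    (mul_le_mul_of_nonneg_left hvn (by positivity)).trans hb1
  -- points of the ball
  have hball : ∀ u ∈ Metric.closedBall u₁ (R / 2), ∀ q, ‖u q - u₁ q‖ ≤ R / 2 := by
    intro u hu q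
    rw [mem_closedBall_iff_norm] at hu
    exact (norm_le_pi_norm (u - u₁) q).trans hu
  have hA1 : ∀ u ∈ Metric.closedBall u₁ (R / 2), ∀ q,
      u q ∈ (extChartAt (𝓡 d) (x q)).target ∧
      dist ((extChartAt (𝓡 d) (x q)).symm (u q)) (y q) ≤ min ε₁ (η₀ / 2) := fun u hu q =>
    hrad (j q) (y q) (hj q) (u q) ((hball u hu q).trans (by linarith))
  have hA2 : ∀ u ∈ Metric.closedBall u₁ (R / 2), ∀ t ∈ Icc (0 : ℝ) 1, ∀ q,
      u q + t • v q ∈ (extChartAt (𝓡 d) (x q)).target ∧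
      dist ((extChartAt (𝓡 d) (x q)).symm (u q + t • v q)) (y q) ≤ min ε₁ (η₀ / 2) := by
    intro u hu t ht q
    refine hrad (j q) (y q) (hj q) _ ?_
    have h1 : u q + t • v q - extChartAt (𝓡 d) (At.ctr (j q)) (y q) =
        (u q - u₁ q) + t • v q := by
      show u q + t • v q - u₁ q = _
      abel
    rw [h1]
    refine (norm_add_le _ _).trans ?_
    rw [norm_smul, Real.norm_eq_abs, abs_of_nonneg ht.1]
    have h2 : t * ‖v q‖ ≤ 1 * b := mul_le_mul ht.2 (hvb q) (norm_nonneg _) zero_le_one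
    have h3 := hball u hu q
    linarith
  have hWball : ∀ q z, dist z (y q) ≤ min ε₁ (η₀ / 2) → z ∈ At.W (j q) := fun q z hz =>
    hj q (Metric.mem_ball.2 (lt_of_le_of_lt (hz.trans (min_le_right _ _)) (by linarith)))
  -- the equation Gm u = t v
  have heq : ∀ u ∈ Metric.closedBall u₁ (R / 2), ∀ t ∈ Icc (0 : ℝ) 1,
      ((u ∈ U ∧ Gm u = t • v) ↔ ∀ q, F^[n q] ((extChartAt (𝓡 d) (x q)).symm (u q)) =
        (extChartAt (𝓡 d) (x (q + 1))).symm (u (q + 1) + t • v (q + 1))) := by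
    intro u hu t ht
    constructor
    · rintro ⟨huU, hu2⟩ q
      have h1 := congrFun hu2 (q + 1)
      rw [hGm] at h1
      have h2 : extChartAt (𝓡 d) (x (q + 1))
          (F^[n q] ((extChartAt (𝓡 d) (x q)).symm (u q))) = u (q + 1) + t • v (q + 1) := by
        have h3 : loc (x q) (x (q + 1)) (F^[n q]) (u q) = t • v (q + 1) + u (q + 1) :=
          sub_eq_iff_eq_add.1 h1
        exact h3.trans (add_comm _ _)
      rw [← h2]
      exact ((extChartAt (𝓡 d) (x (q + 1))).left_inv (hU1 u huU q).2).symm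
    · intro hq
      have hmem : ∀ q, u q ∈ dom (d := d) (x q) (x (q + 1)) (F^[n q]) := by
        intro q
        refine ⟨(hA1 u hu q).1, ?_⟩
        rw [hq q]
        exact (extChartAt (𝓡 d) (x (q + 1))).map_target (hA2 u hu t ht (q + 1)).1
      refine ⟨hU2 u hmem, ?_⟩
      funext q
      revert q
      refine hshift _ fun q => ?_
      rw [hGm]
      have h1 : loc (x q) (x (q + 1)) (F^[n q]) (u q) = u (q + 1) + t • v (q + 1) := by
        show extChartAt (𝓡 d) (x (q + 1))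
          (F^[n q] ((extChartAt (𝓡 d) (x q)).symm (u q))) = _
        rw [hq q]
        exact (extChartAt (𝓡 d) (x (q + 1))).right_inv (hA2 u hu t ht (q + 1)).1
      rw [h1]
      show _ = t • v (q + 1)
      abel
  have hcl : IsClosed {P : ℝ × (ZMod p → EE d) | P.1 ∈ Icc (0 : ℝ) 1 ∧
      P.2 ∈ Metric.closedBall u₁ (R / 2) ∧ P.2 ∈ U ∧ Gm P.2 = P.1 • v} := by
    have hset : {P : ℝ × (ZMod p → EE d) | P.1 ∈ Icc (0 : ℝ) 1 ∧
        P.2 ∈ Metric.closedBall u₁ (R / 2) ∧ P.2 ∈ U ∧ Gm P.2 = P.1 • v} =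
        (Icc (0 : ℝ) 1 ×ˢ Metric.closedBall u₁ (R / 2)) ∩ ⋂ q : ZMod p,
          ((Icc (0 : ℝ) 1 ×ˢ Metric.closedBall u₁ (R / 2)) ∩
            (fun P : ℝ × (ZMod p → EE d) =>
              (F^[n q] ((extChartAt (𝓡 d) (x q)).symm (P.2 q)),
                (extChartAt (𝓡 d) (x (q + 1))).symm (P.2 (q + 1) + P.1 • v (q + 1)))) ⁻¹'
              diagonal N) := by
      ext P
      constructor
      · rintro ⟨h1, h2, h3⟩
        refine ⟨⟨h1, h2⟩, mem_iInter.2 fun q => ⟨⟨h1, h2⟩, ?_⟩⟩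
        exact (heq P.2 h2 P.1 h1).1 h3 q
      · rintro ⟨⟨h1, h2⟩, h3⟩
        refine ⟨h1, h2, ?_⟩
        exact (heq P.2 h2 P.1 h1).2 fun q => (mem_iInter.1 h3 q).2
    rw [hset]
    have hK : IsClosed (Icc (0 : ℝ) 1 ×ˢ Metric.closedBall u₁ (R / 2)) :=
      isClosed_Icc.prod Metric.isClosed_closedBall
    refine hK.inter (isClosed_iInter fun q => ?_)
    refine ContinuousOn.preimage_isClosed_of_isClosed ?_ hK isClosed_diagonal
    refine ContinuousOn.prodMk ?_ ?_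
    · refine (hFn q).continuous.comp_continuousOn ?_
      refine (continuousOn_extChartAt_symm (x q)).comp
        (((continuous_apply q).comp continuous_snd).continuousOn) fun P hP => ?_
      exact (hA1 P.2 hP.2 q).1
    · refine (continuousOn_extChartAt_symm (x (q + 1))).comp
        (Continuous.continuousOn ?_) fun P hP => ?_
      · exact ((continuous_apply (q + 1)).comp continuous_snd).add
          (continuous_fst.smul continuous_const)
      · exact (hA2 P.2 hP.2 P.1 hP.1 (q + 1)).1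
  have hinv : ∀ t ∈ Icc (0 : ℝ) 1, ∀ u ∈ Metric.closedBall u₁ (R / 2) ∩ U, Gm u = t • v →
      ∀ w, ‖w‖ ≤ C2 * ‖fderiv ℝ Gm u w‖ := by
    rintro t ht u ⟨hu, huU⟩ hut w
    have hq := (heq u hu t ht).1 ⟨huU, hut⟩
    set y' : ZMod p → N := fun q => (extChartAt (𝓡 d) (x q)).symm (u q) with hy'
    have hy'W : ∀ q, y' q ∈ At.W (j q) := fun q => hWball q _ (hA1 u hu q).2
    have hz'W : ∀ q, F^[n q] (y' q) ∈ At.W (j (q + 1)) := by
      intro q
      rw [show F^[n q] (y' q) = _ from hq q]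
      exact hWball (q + 1) _ (hA2 u hu t ht (q + 1)).2
    have hdist : ∀ q, ‖extChartAt (𝓡 d) (At.ctr (j (q + 1))) (y' (q + 1)) -
        extChartAt (𝓡 d) (At.ctr (j (q + 1))) (F^[n q] (y' q))‖ ≤ ε := by
      intro q
      have h1 : extChartAt (𝓡 d) (x (q + 1)) (y' (q + 1)) = u (q + 1) :=
        (extChartAt (𝓡 d) (x (q + 1))).right_inv (hA1 u hu (q + 1)).1
      have h2 : extChartAt (𝓡 d) (x (q + 1)) (F^[n q] (y' q)) = u (q + 1) + t • v (q + 1) := by
        rw [show F^[n q] (y' q) = _ from hq q]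
        exact (extChartAt (𝓡 d) (x (q + 1))).right_inv (hA2 u hu t ht (q + 1)).1
      show ‖extChartAt (𝓡 d) (x (q + 1)) (y' (q + 1)) -
        extChartAt (𝓡 d) (x (q + 1)) (F^[n q] (y' q))‖ ≤ ε
      rw [h1, h2, sub_add_cancel_left, norm_neg, norm_smul, Real.norm_eq_abs,
        abs_of_nonneg ht.1]
      have h3 : t * ‖v (q + 1)‖ ≤ 1 * b :=
        mul_le_mul ht.2 (hvb (q + 1)) (norm_nonneg _) zero_le_one
      linarith
    have htr : ∀ q, G.S.Tr ((G.S.f ^ n q) (y' q)) (y' (q + 1))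
        (G.frame (y' (q + 1)) * (G.e (j (q + 1)) (y' (q + 1)))⁻¹ *
          G.e (j (q + 1)) (F^[n q] (y' q)) * (G.frame (F^[n q] (y' q)))⁻¹) := by
      intro q
      rw [G.pow_eq]
      exact G.tr_one hε.le (hz'W q) (hy'W (q + 1)) (hdist q)
    -- derivative
    have hder : ∀ q, fderiv ℝ Gm u w (q + 1) =
        G.e (j (q + 1)) (F^[n q] (y' q)) (der (d := d) F^[n q] (y' q)
          ((G.e (j q) (y' q)).symm (w q))) - w (q + 1) := by
      intro q
      have hdiff : DifferentiableAt ℝ Gm u :=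
        (hGmC.contDiffAt (hUo.mem_nhds huU)).differentiableAt one_ne_zero
      have h1 : fderiv ℝ Gm u w (q + 1) = fderiv ℝ (fun a => Gm a (q + 1)) u w := by
        rw [fderiv_apply hdiff]
        rfl
      rw [h1]
      have hdom := hU1 u huU q
      have h2 : HasFDerivAt (fun a : ZMod p → EE d => Gm a (q + 1))
          ((fderiv ℝ (loc (d := d) (x q) (x (q + 1)) (F^[n q])) (u q)).comp
            (ContinuousLinearMap.proj (R := ℝ) (φ := fun _ : ZMod p => EE d) q) -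
            ContinuousLinearMap.proj (R := ℝ) (φ := fun _ : ZMod p => EE d) (q + 1)) u := by
        have h3 : (fun a : ZMod p → EE d => Gm a (q + 1)) = fun a =>
            loc (x q) (x (q + 1)) (F^[n q]) (a q) - a (q + 1) := funext fun a => hGm a q
        rw [h3]
        refine HasFDerivAt.sub ?_
          (ContinuousLinearMap.proj (R := ℝ) (φ := fun _ : ZMod p => EE d) (q + 1)).hasFDerivAt
        have h4 : DifferentiableAt ℝ (loc (d := d) (x q) (x (q + 1)) (F^[n q])) (u q) :=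
          ((contDiffOn_loc (x q) (x (q + 1)) (hFn q)).contDiffAt
            ((isOpen_dom _ _ (hFn q).continuous).mem_nhds hdom)).differentiableAt one_ne_zero
        exact h4.hasFDerivAt.comp u
          (ContinuousLinearMap.proj (R := ℝ) (φ := fun _ : ZMod p => EE d) q).hasFDerivAt
      rw [h2.fderiv]
      show fderiv ℝ (loc (d := d) (x q) (x (q + 1)) (F^[n q])) (u q) (w q) - w (q + 1) = _
      have h7 : ∀ a, G.e (j (q + 1)) (F^[n q] (y' q)) a = fr (x (q + 1)) (F^[n q] (y' q)) a :=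
        fun a => congrArg (fun T : EE d →L[ℝ] EE d => T a)
          (G.e_eq (j (q + 1)) (F^[n q] (y' q)) (hz'W q))
      rw [fderiv_loc (x q) (x (q + 1)) ((hFn q).mdifferentiable one_ne_zero) hdom
        (G.e (j q) (y' q)) (G.e_eq (j q) (y' q) (hy'W q)) (w q), h7]
    have hfr : ∀ q (a : EE d), ‖G.frame (y' q) ((G.e (j q) (y' q)).symm a)‖ ≤ Kp * ‖a‖ ∧
        ‖a‖ ≤ Kp * ‖G.frame (y' q) ((G.e (j q) (y' q)).symm a)‖ := by
      intro q a
      have h1 := G.bound (j q) (y' q) (hy'W q) ((G.e (j q) (y' q)).symm a)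
      rw [ContinuousLinearEquiv.apply_symm_apply] at h1
      exact ⟨h1.1.trans (mul_le_mul_of_nonneg_right hK2 (norm_nonneg _)),
        h1.2.trans (mul_le_mul_of_nonneg_right hK2 (norm_nonneg _))⟩
    have hsolve := hsol y' n _ hn htr
      (fun q => G.frame (y' q) ((G.e (j q) (y' q)).symm (w q))) (Kp * ‖fderiv ℝ Gm u w‖)
      (by
        intro q
        have h1 : G.S.coc (n q) (y' q) (G.frame (y' q) ((G.e (j q) (y' q)).symm (w q))) =
            G.frame (F^[n q] (y' q)) (der (d := d) F^[n q] (y' q)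
              ((G.e (j q) (y' q)).symm (w q))) := G.coc_frame hr _ _ _
        have h2 : (G.frame (y' (q + 1)) * (G.e (j (q + 1)) (y' (q + 1)))⁻¹ *
            G.e (j (q + 1)) (F^[n q] (y' q)) * (G.frame (F^[n q] (y' q)))⁻¹)
            (G.S.coc (n q) (y' q) (G.frame (y' q) ((G.e (j q) (y' q)).symm (w q)))) =
            G.frame (y' (q + 1)) ((G.e (j (q + 1)) (y' (q + 1))).symm
              (G.e (j (q + 1)) (F^[n q] (y' q)) (der (d := d) F^[n q] (y' q)
                ((G.e (j q) (y' q)).symm (w q))))) := by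
          rw [h1]
          show G.frame (y' (q + 1)) ((G.e (j (q + 1)) (y' (q + 1))).symm
            (G.e (j (q + 1)) (F^[n q] (y' q)) ((G.frame (F^[n q] (y' q))).symm
              (G.frame (F^[n q] (y' q)) (der (d := d) F^[n q] (y' q)
                ((G.e (j q) (y' q)).symm (w q))))))) = _
          rw [ContinuousLinearEquiv.symm_apply_apply]
        show ‖G.frame (y' (q + 1)) ((G.e (j (q + 1)) (y' (q + 1))).symm (w (q + 1))) - _‖ ≤ _
        rw [h2, ← map_sub, ← map_sub]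
        refine ((hfr (q + 1) _).1).trans (mul_le_mul_of_nonneg_left ?_ hK0.le)
        rw [norm_sub_rev, ← hder q]
        exact norm_le_pi_norm _ (q + 1))
    refine (pi_norm_le_iff_of_nonneg (by positivity)).2 fun q => ?_
    have h1 := (hfr q (w q)).2
    have h2 := hsolve q
    calc ‖w q‖ ≤ Kp * ‖G.frame (y' q) ((G.e (j q) (y' q)).symm (w q))‖ := h1
      _ ≤ Kp * (C' * (Kp * ‖fderiv ℝ Gm u w‖)) := mul_le_mul_of_nonneg_left h2 hK0.le
      _ = C2 * ‖fderiv ℝ Gm u w‖ := by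
          rw [hC2]
          ring
  obtain ⟨u, huU, hu0, hud⟩ := continuation hUo hGmC hu₁ rfl hC20 hbound hcl hinv
  have hub : u ∈ Metric.closedBall u₁ (R / 2) := by
    rw [mem_closedBall_iff_norm]
    exact hud.trans hbound
  have hstep : ∀ q, F^[n q] ((extChartAt (𝓡 d) (x q)).symm (u q)) =
      (extChartAt (𝓡 d) (x (q + 1))).symm (u (q + 1)) := by
    intro q
    have h1 := (heq u hub 0 ⟨le_rfl, zero_le_one⟩).1 ⟨huU, by rw [hu0, zero_smul]⟩ q
    rwa [zero_smul, add_zero] at h1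
  have hiter : ∀ k : ℕ, F^[∑ i ∈ Finset.range k, n (i : ZMod p)]
      ((extChartAt (𝓡 d) (x 0)).symm (u 0)) =
      (extChartAt (𝓡 d) (x (k : ZMod p))).symm (u (k : ZMod p)) := by
    intro k
    induction k with
    | zero => simp
    | succ k ih =>
      rw [Finset.sum_range_succ, add_comm, Function.iterate_add_apply, ih, hstep]
      push_cast
      rfl
  refine ⟨(extChartAt (𝓡 d) (x 0)).symm (u 0), ?_, (hA1 u hub 0).2.trans (min_le_left _ _)⟩
  refine mk_mem_periodicPts (n := ∑ i ∈ Finset.range p, n (i : ZMod p)) ?_ ?_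
  · refine Finset.sum_pos (fun i _ => lt_of_lt_of_le (by omega) (hn i)) ?_
    exact Finset.nonempty_range_iff.2 (by omega)
  · show F^[∑ i ∈ Finset.range p, n (i : ZMod p)] _ = _
    rw [hiter p, ZMod.natCast_self]

end Pool.Agent.OmegaPS

end
end
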