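import Pool.Agent.Work.MP_814647_an.DensStatement
import Pool.Agent.Work.MP_814647_an.Final
import Pool.Agent.Work.MP_814647_an.Bd.B04
import Pool.Agent.Work.MP_814647_an.ProjP11
import Pool.Agent.Work.MP_814647_an.ProjBasic
import Pool.Agent.Work.MP_814647_an.Metric
import Pool.Agent.Work.MP_814647_an.Bd.B03
import Pool.Agent.Work.MP_814647_an.IdxStatement

/-! Bundle of small proof modules (one section per former module). -/

section

/-!
# Closing by rotations in circle extensions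
-/

open Set Filter Topology Function
open scoped Manifold ContDiff

noncomputable section

namespace Pool.Agent.OmegaStability

namespace Dens

section Act

variable {M : Type*} [MulAction Circle M]

/-- The orbit of `0` under the lifts `L j + c j + s`. -/
def lorb (L : ℕ → ℝ → ℝ) (c : ℕ → ℝ) (s : ℝ) : ℕ → ℝ
  | 0 => 0
  | j + 1 => L j (lorb L c s j) + c j + s

theorem continuous_lorb {L : ℕ → ℝ → ℝ} (hL : ∀ j, Continuous (L j)) (c : ℕ → ℝ) (j : ℕ) :
    Continuous fun s => lorb L c s j := by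
  induction j with
  | zero => exact continuous_const
  | succ j ih => exact (((hL j).comp ih).add continuous_const).add continuous_id

theorem lorb_nonneg {L : ℕ → ℝ → ℝ} (hL : ∀ j, Monotone (L j)) (hL0 : ∀ j, L j 0 = 0)
    {c : ℕ → ℝ} {ε : ℝ} {n : ℕ} (hc : ∀ j < n, |c j| ≤ ε) :
    ∀ j ≤ n, 0 ≤ lorb L c ε j := by
  intro j
  induction j with
  | zero => intro _; exact le_rfl
  | succ j ih =>
    intro hj
    have h1 := ih (by omega)
    have h2 := hL j h1
    rw [hL0] at h2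
    have h3 := neg_le_of_abs_le (hc j (by omega))
    show 0 ≤ L j (lorb L c ε j) + c j + ε
    linarith

theorem lorb_nonpos {L : ℕ → ℝ → ℝ} (hL : ∀ j, Monotone (L j)) (hL0 : ∀ j, L j 0 = 0)
    {c : ℕ → ℝ} {ε : ℝ} {n : ℕ} (hc : ∀ j < n, |c j| ≤ ε) :
    ∀ j ≤ n, lorb L c (-ε) j ≤ 0 := by
  intro j
  induction j with
  | zero => intro _; exact le_rfl
  | succ j ih =>
    intro hj
    have h1 := ih (by omega)
    have h2 := hL j h1
    rw [hL0] at h2
    have h3 := le_of_abs_le (hc j (by omega))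
    show L j (lorb L c (-ε) j) + c j + -ε ≤ 0
    linarith

/-- A periodic chain of points, each mapped close to the next one inside its circle, is closed by
a small rotation. -/
theorem exists_close (hfree : ∀ (z : Circle) (y : M), z • y = y → z = 1) {F : M → M}
    (hF : PreservesOrientedCircles F) {n : ℕ} {ε : ℝ} (hε : 0 ≤ ε) (e : ℕ → M) (c : ℕ → ℝ)
    (hc : ∀ j < n, |c j| ≤ ε) (hstep : ∀ j < n, F (e j) = Circle.exp (c j) • e (j + 1))
    (hn : e n = e 0) :
    ∃ s : ℝ, |s| ≤ ε ∧ (fun y => Circle.exp s • F y)^[n] (e 0) = e 0 := by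
  choose L' hLc hLm hL' using fun j => hF (e j)
  have h0 : ∀ j, Circle.exp (L' j 0) = 1 := by
    intro j
    have h1 := hL' j 0
    rw [Circle.exp_zero, one_smul] at h1
    exact hfree _ _ h1.symm
  set L : ℕ → ℝ → ℝ := fun j θ => L' j θ - L' j 0 with hLdef
  have hLc' : ∀ j, Continuous (L j) := fun j => (hLc j).sub continuous_const
  have hLmono : ∀ j, Monotone (L j) := fun j a b hab =>
    sub_le_sub_right ((hLm j).monotone hab) _
  have hL0 : ∀ j, L j 0 = 0 := fun j => sub_self _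
  have hmap : ∀ j < n, ∀ θ : ℝ,
      F (Circle.exp θ • e j) = Circle.exp (L j θ + c j) • e (j + 1) := by
    intro j hj θ
    have h1 : Circle.exp (L j θ) = Circle.exp (L' j θ) := by
      simp only [hLdef]
      rw [sub_eq_add_neg, Circle.exp_add, Circle.exp_neg, h0, inv_one, mul_one]
    rw [hL', hstep j hj, smul_smul, ← h1, ← Circle.exp_add]
  have hiter : ∀ s : ℝ, ∀ j ≤ n, (fun y => Circle.exp s • F y)^[j] (e 0) =
      Circle.exp (lorb L c s j) • e j := by
    intro s j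
    induction j with
    | zero =>
      intro _
      show e 0 = Circle.exp 0 • e 0
      rw [Circle.exp_zero, one_smul]
    | succ j ih =>
      intro hj
      rw [iterate_succ_apply', ih (by omega)]
      show Circle.exp s • F (Circle.exp (lorb L c s j) • e j) = _
      rw [hmap j (by omega), smul_smul, ← Circle.exp_add]
      show _ = Circle.exp (L j (lorb L c s j) + c j + s) • _
      rw [add_comm]
  have hle : -ε ≤ ε := by linarith
  have hivt := intermediate_value_Icc hle (f := fun s => lorb L c s n)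
    (continuous_lorb hLc' c n).continuousOn
  obtain ⟨s, hs, hs0⟩ := hivt ⟨lorb_nonpos hLmono hL0 hc n le_rfl,
    lorb_nonneg hLmono hL0 hc n le_rfl⟩
  have hs0' : lorb L c s n = 0 := hs0
  refine ⟨s, abs_le.2 hs, ?_⟩
  rw [hiter s n le_rfl, hs0', Circle.exp_zero, one_smul, hn]

end Act

section Compact

variable {B M : Type*} [MetricSpace B] [MetricSpace M] [CompactSpace M] [MulAction Circle M]

theorem exists_small_rotation (hact : Continuous fun p : Circle × M => p.1 • p.2)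
    (hfree : ∀ (z : Circle) (y : M), z • y = y → z = 1) {ε : ℝ} (hε : 0 < ε) :
    ∃ δ > 0, ∀ (z : Circle) (y : M), dist (z • y) y < δ → ∃ c : ℝ, |c| ≤ ε ∧ Circle.exp c = z := by
  -- small argument
  have h1 : ContinuousAt (fun z : Circle => Complex.arg (z : ℂ)) 1 := by
    have h2 : ContinuousAt Complex.arg ((1 : Circle) : ℂ) :=
      Complex.continuousAt_arg (by simp [Complex.slitPlane])
    exact h2.comp continuous_subtype_val.continuousAt
  have h2 : ∀ᶠ z : Circle in 𝓝 (1 : Circle), |Complex.arg (z : ℂ)| < ε := by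
    have h3 : Tendsto (fun z : Circle => |Complex.arg (z : ℂ)|) (𝓝 1)
        (𝓝 |Complex.arg ((1 : Circle) : ℂ)|) := h1.abs
    have h4 : |Complex.arg ((1 : Circle) : ℂ)| = 0 := by simp
    rw [h4] at h3
    exact h3.eventually (gt_mem_nhds hε)
  obtain ⟨W, hW, hWo, h1W⟩ := eventually_nhds_iff.1 h2
  have hK : IsCompact (Wᶜ ×ˢ (univ : Set M)) := hWo.isClosed_compl.isCompact.prod isCompact_univ
  have hcont : ContinuousOn (fun p : Circle × M => dist (p.1 • p.2) p.2) (Wᶜ ×ˢ (univ : Set M)) :=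
    (hact.dist continuous_snd).continuousOn
  by_cases hne : (Wᶜ ×ˢ (univ : Set M)).Nonempty
  · obtain ⟨q, hq, hmin⟩ := hK.exists_isMinOn hne hcont
    have hpos : 0 < dist (q.1 • q.2) q.2 := by
      rw [dist_pos]
      intro h
      have := hfree _ _ h
      exact hq.1 (this ▸ h1W)
    refine ⟨_, hpos, fun z y hzy => ?_⟩
    have hz : z ∈ W := by
      by_contra hz
      have := isMinOn_iff.1 hmin (z, y) ⟨hz, mem_univ _⟩
      exact absurd hzy (not_lt.2 this)
    exact ⟨Complex.arg z, (hW z hz).le, Circle.exp_arg z⟩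
  · refine ⟨1, one_pos, fun z y _ => ?_⟩
    have hz : z ∈ W := by
      by_contra hz
      exact hne ⟨(z, y), hz, mem_univ _⟩
    exact ⟨Complex.arg z, (hW z hz).le, Circle.exp_arg z⟩

theorem exists_near_fibre (hact : Continuous fun p : Circle × M => p.1 • p.2) {π : M → B}
    (hπ : Continuous π) (hsurj : Surjective π)
    (hfib : ∀ y y' : M, π y = π y' ↔ ∃ z : Circle, z • y = y') {ε : ℝ} (hε : 0 < ε) :
    ∃ δ > 0, ∀ (y : M) (b : B), dist (π y) b < δ → ∃ y' : M, π y' = b ∧ dist y y' < ε := by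
  by_contra hcon
  push Not at hcon
  choose! y b hd hno using fun n : ℕ => hcon (1 / ((n : ℝ) + 1)) (by positivity)
  choose y' hy' using fun n => hsurj (b n)
  obtain ⟨⟨u, u'⟩, -, φ, hφ, hlim⟩ := isCompact_univ.tendsto_subseq
    (x := fun n => (y n, y' n)) (fun n => mem_univ _)
  have h1 : Tendsto (fun n => y (φ n)) atTop (𝓝 u) := (continuous_fst.tendsto _).comp hlim
  have h2 : Tendsto (fun n => y' (φ n)) atTop (𝓝 u') := (continuous_snd.tendsto _).comp hlim
  have h3 : Tendsto (fun n => dist (π (y (φ n))) (b (φ n))) atTop (𝓝 0) := by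
    refine squeeze_zero (fun n => dist_nonneg) (fun n => (hd (φ n)).le) ?_
    exact tendsto_one_div_add_atTop_nhds_zero_nat.comp hφ.tendsto_atTop
  have h4 : Tendsto (fun n => dist (π (y (φ n))) (b (φ n))) atTop (𝓝 (dist (π u) (π u'))) := by
    have h5 := (hπ.tendsto u).comp h1
    have h6 := (hπ.tendsto u').comp h2
    have h7 := h5.dist h6
    refine h7.congr fun n => ?_
    simp only [comp_apply, hy']
  have h5 : π u = π u' := by
    have := tendsto_nhds_unique h4 h3
    exact dist_eq_zero.1 this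
  obtain ⟨z, hz⟩ := (hfib u' u).1 h5.symm
  have h6 : Tendsto (fun n => z • y' (φ n)) atTop (𝓝 u) := by
    have h7 : Continuous fun w : M => z • w :=
      hact.comp (continuous_const.prodMk continuous_id)
    have := (h7.tendsto u').comp h2
    rw [hz] at this
    exact this
  have h7 : Tendsto (fun n => dist (y (φ n)) (z • y' (φ n))) atTop (𝓝 0) := by
    have := h1.dist h6
    rwa [dist_self] at this
  obtain ⟨n, hn⟩ := (h7.eventually (gt_mem_nhds hε)).exists
  have h8 := hno (φ n) (z • y' (φ n)) (by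
    rw [← hy' (φ n)]
    exact ((hfib _ _).2 ⟨z, rfl⟩).symm)
  exact absurd hn (not_lt.2 h8)

/-- Closing by rotations: near a nonwandering point of a circle extension `F` of a map with the
closing property there is a periodic point of a map obtained from `F` by a small rotation. -/
theorem exists_closing (hact : Continuous fun p : Circle × M => p.1 • p.2)
    (hfree : ∀ (z : Circle) (y : M), z • y = y → z = 1) {π : M → B}
    (hπ : Continuous π) (hsurj : Surjective π)
    (hfib : ∀ y y' : M, π y = π y' ↔ ∃ z : Circle, z • y = y') {A : B → B}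
    (hA : ClosingProperty A) {F : M → M} (hFc : Continuous F)
    (hcov : ∀ y, π (F y) = A (π y)) (hF : PreservesOrientedCircles F) {z : M}
    (hz : z ∈ Omega F) {U : Set M} (hU : U ∈ 𝓝 z) {ε : ℝ} (hε : 0 < ε) :
    ∃ s : ℝ, |s| ≤ ε ∧ ∃ y ∈ U, y ∈ periodicPts (fun y => Circle.exp s • F y) := by
  obtain ⟨ρ, hρ, hρU⟩ := Metric.mem_nhds_iff.1 hU
  obtain ⟨δ₁, hδ₁, hrot⟩ := exists_small_rotation hact hfree hε
  -- uniform continuity of `F`
  obtain ⟨δ₂, hδ₂, huc⟩ := Metric.uniformContinuous_iff.1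
    (CompactSpace.uniformContinuous_of_continuous hFc) (δ₁ / 2) (by positivity)
  set η : ℝ := min (ρ / 4) (min (δ₂ / 4) (δ₁ / 8)) with hη
  have hη0 : 0 < η := by positivity
  have hη1 : η ≤ ρ / 4 := min_le_left _ _
  have hη2 : η ≤ δ₂ / 4 := (min_le_right _ _).trans (min_le_left _ _)
  have hη3 : η ≤ δ₁ / 8 := (min_le_right _ _).trans (min_le_right _ _)
  obtain ⟨δ₃, hδ₃, hnear⟩ := exists_near_fibre hact hπ hsurj hfib hη0
  obtain ⟨δ₄, hδ₄, hclose⟩ := hA δ₃ hδ₃
  obtain ⟨δ₅, hδ₅, hucπ⟩ := Metric.uniformContinuous_iff.1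
    (CompactSpace.uniformContinuous_of_continuous hπ) δ₄ hδ₄
  -- an orbit segment of `F` which almost returns
  obtain ⟨n, hn, w', ⟨w, hw, hww'⟩, hw'⟩ := hz (Metric.ball z (min η (δ₅ / 2)))
    (Metric.ball_mem_nhds z (by positivity))
  have hw1 : dist w z < η := (Metric.mem_ball.1 hw).trans_le (min_le_left _ _)
  have hw2 : dist w z < δ₅ / 2 := (Metric.mem_ball.1 hw).trans_le (min_le_right _ _)
  have hw1' : dist w' z < η := (Metric.mem_ball.1 hw').trans_le (min_le_left _ _)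
  have hw2' : dist w' z < δ₅ / 2 := (Metric.mem_ball.1 hw').trans_le (min_le_right _ _)
  have hitcov : ∀ j, π (F^[j] w) = A^[j] (π w) := by
    intro j
    induction j with
    | zero => rfl
    | succ j ih => rw [iterate_succ_apply', hcov, ih, iterate_succ_apply']
  obtain ⟨p, hp, hpj⟩ := hclose (π w) n hn (by
    rw [← hitcov, hww']
    apply hucπ
    calc dist w' w ≤ dist w' z + dist w z := dist_triangle_right _ _ _
      _ < δ₅ := by linarith)
  -- points of the fibres over the periodic orbit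
  have hex : ∀ j, ∃ y' : M, j ≤ n → π y' = A^[j] p ∧ dist (F^[j] w) y' < η := by
    intro j
    by_cases hj : j ≤ n
    · obtain ⟨y', h1, h2⟩ := hnear (F^[j] w) (A^[j] p) (by rw [hitcov]; exact hpj j hj)
      exact ⟨y', fun _ => ⟨h1, h2⟩⟩
    · exact ⟨w, fun h => absurd h hj⟩
  choose e' he' using hex
  set e : ℕ → M := fun j => if j = n then e' 0 else e' j with he
  have hen : e n = e' 0 := by simp [he]
  have he0 : e 0 = e' 0 := by simp [he]
  have hejn : ∀ j, j < n → e j = e' j := fun j hj => by simp [he, hj.ne]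
  have hdw : dist (F^[n] w) w < 2 * η := by
    rw [hww']
    calc dist w' w ≤ dist w' z + dist w z := dist_triangle_right _ _ _
      _ < 2 * η := by linarith
  have hall : ∀ j ≤ n, π (e j) = A^[j] p ∧ dist (F^[j] w) (e j) < 3 * η := by
    intro j hj
    rcases hj.lt_or_eq with hj' | rfl
    · rw [hejn j hj']
      obtain ⟨h1, h2⟩ := he' j hj
      exact ⟨h1, by linarith⟩
    · rw [hen]
      obtain ⟨h1, h2⟩ := he' 0 (Nat.zero_le _)
      refine ⟨by rw [h1, hp]; rfl, ?_⟩
      have h3 : dist w (e' 0) < η := h2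
      calc dist (F^[j] w) (e' 0) ≤ dist (F^[j] w) w + dist w (e' 0) := dist_triangle _ _ _
        _ < 3 * η := by linarith
  have hstep : ∀ j, ∃ c : ℝ, j < n → |c| ≤ ε ∧ F (e j) = Circle.exp c • e (j + 1) := by
    intro j
    by_cases hj : j < n
    · obtain ⟨h1, h2⟩ := hall j hj.le
      obtain ⟨h3, h4⟩ := hall (j + 1) hj
      obtain ⟨ζ, hζ⟩ := (hfib (e (j + 1)) (F (e j))).1 (by
        rw [hcov, h1, h3, iterate_succ_apply'])
      have h5 : dist (F (e j)) (F^[j + 1] w) < δ₁ / 2 := by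
        rw [iterate_succ_apply', dist_comm]
        apply huc
        linarith
      have h6 : dist (ζ • e (j + 1)) (e (j + 1)) < δ₁ := by
        rw [hζ]
        calc dist (F (e j)) (e (j + 1)) ≤ dist (F (e j)) (F^[j + 1] w) +
              dist (F^[j + 1] w) (e (j + 1)) := dist_triangle _ _ _
          _ < δ₁ := by linarith
      obtain ⟨c, hc, hcζ⟩ := hrot ζ _ h6
      exact ⟨c, fun _ => ⟨hc, by rw [hcζ, hζ]⟩⟩
    · exact ⟨0, fun h => absurd h hj⟩
  choose c hc using hstep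
  obtain ⟨s, hs, hper⟩ := exists_close hfree hF hε.le e c (fun j hj => (hc j hj).1)
    (fun j hj => (hc j hj).2) (by rw [hen, he0])
  refine ⟨s, hs, e 0, hρU ?_, n, hn, hper⟩
  obtain ⟨h1, h2⟩ := hall 0 (Nat.zero_le _)
  have h3 : dist w (e 0) < 3 * η := h2
  rw [Metric.mem_ball]
  calc dist (e 0) z ≤ dist w (e 0) + dist w z := by
        rw [dist_comm w (e 0)]; exact dist_triangle _ _ _
    _ < ρ := by linarith

end Compact

end Dens

end Pool.Agent.OmegaStability

end
end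

section

/-!
# Density of the periodic points of Omega-stable circle extensions
-/

open Set Filter Topology Function
open scoped Manifold ContDiff

noncomputable section

namespace Pool.Agent.OmegaStability

namespace Dens

/-! ### Persistence of hyperbolic periodic points -/

section Persist

open OmegaStab

variable {m : ℕ} {M : Type*} [MetricSpace M] [ChartedSpace (EuclideanSpace ℝ (Fin m)) M]
  [IsManifold 𝓘(ℝ, EuclideanSpace ℝ (Fin m)) ∞ M] {r : ℕ∞}

theorem persist (hr : 1 ≤ r) {h : ℝ → Dyn m M r} (hh : IsFam h) (g : Dyn m M r) {p : M}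
    (hp : HypAt (d := m) g p) {U : Set M} (hU : U ∈ 𝓝 p) :
    ∀ᶠ t in 𝓝 (0 : ℝ), ∃ y ∈ U, y ∈ periodicPts (g.trans (h t)) := by
  obtain ⟨hper, hlin⟩ := hp
  set n := minimalPeriod g p with hn
  have hn0 : 0 < n := minimalPeriod_pos_of_mem_periodicPts hper
  have hk : g^[n] p = p := iterate_minimalPeriod
  have hps : p ∈ (extChartAt (𝓡 m) p).source := mem_extChartAt_source p
  set c := extChartAt (𝓡 m) p p with hc
  have hsc : (extChartAt (𝓡 m) p).symm c = p := (extChartAt (𝓡 m) p).left_inv hps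
  set G : ℝ × EE m → EE m := fun q => inCharts (d := m) p p ((g.trans (h q.1))^[n]) q.2 with hG
  have hC : ContDiffAt ℝ r G (0, c) :=
    FiniteFix.joint_inCharts hh g n hps (by rw [hk]; exact hps)
  have hr0 : (r : ℕ∞ω) ≠ 0 := by
    intro h0
    have h1 : r = 0 := by exact_mod_cast h0
    rw [h1] at hr
    exact absurd hr (by decide)
  have hGs := hC.hasStrictFDerivAt hr0
  set P := fderiv ℝ G (0, c) with hP
  set D := fderiv ℝ (inCharts (d := m) p p (g^[n])) c with hD
  have hG0 : ∀ u, G (0, u) = inCharts (d := m) p p (g^[n]) u := by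
    intro u
    simp only [hG]
    rw [FiniteFix.trans_zero hh g]
  have hPD : ∀ v, P (0, v) = D v := by
    intro v
    have h1 : HasFDerivAt (fun u : EE m => ((0 : ℝ), u)) (ContinuousLinearMap.inr ℝ ℝ (EE m)) c :=
      hasFDerivAt_prodMk_right 0 c
    have h2 : HasFDerivAt (fun u : EE m => G (0, u)) (P.comp (ContinuousLinearMap.inr ℝ ℝ (EE m)))
        c := hGs.hasFDerivAt.comp c h1
    have h3 : (fun u : EE m => G (0, u)) = inCharts (d := m) p p (g^[n]) := funext hG0
    rw [h3] at h2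
    have h4 := h2.fderiv
    rw [hD, h4]
    rfl
  have hinj : Injective (D - 1 : EE m →L[ℝ] EE m) := by
    rw [injective_iff_map_eq_zero]
    intro v hv
    have h1 : D v = v := by
      have : D v - v = 0 := hv
      exact sub_eq_zero.1 this
    exact (hlin 0 v 0 (by simpa using h1) (by simp)).1
  have hsurj : Surjective (D - 1 : EE m →L[ℝ] EE m) :=
    (LinearMap.injective_iff_surjective (f := ((D - 1 : EE m →L[ℝ] EE m) : EE m →ₗ[ℝ] EE m))).1
      hinj
  set Ψ : ℝ × EE m → ℝ × EE m := fun q => (q.1, G q - q.2) with hΨ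
  set T : ℝ × EE m →L[ℝ] ℝ × EE m := (ContinuousLinearMap.fst ℝ ℝ (EE m)).prod
    (P - ContinuousLinearMap.snd ℝ ℝ (EE m)) with hT
  have hΨs : HasStrictFDerivAt Ψ T (0, c) :=
    hasStrictFDerivAt_fst.prodMk (hGs.sub hasStrictFDerivAt_snd)
  have hTs : T.range = ⊤ := by
    rw [LinearMap.range_eq_top]
    rintro ⟨τ, w⟩
    obtain ⟨v, hv⟩ := hsurj (w - P (τ, 0))
    refine ⟨(τ, v), ?_⟩
    have h1 : P (τ, v) = P (τ, 0) + D v := by
      rw [← hPD, ← map_add]
      simp
    have h2 : D v - v = w - P (τ, 0) := hv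
    show (τ, P (τ, v) - v) = (τ, w)
    rw [h1, add_sub_assoc, h2]
    simp
  have hmap := hΨs.map_nhds_eq_of_surj hTs
  have hΨ0 : Ψ (0, c) = (0, 0) := by
    simp only [hΨ]
    rw [hG0, hc, OmegaStab.inCharts_apply hps, hk, sub_self]
  rw [hΨ0] at hmap
  set W : Set (ℝ × EE m) := {q | q.2 ∈ (extChartAt (𝓡 m) p).target ∧
    (extChartAt (𝓡 m) p).symm q.2 ∈ U ∧
    (g.trans (h q.1))^[n] ((extChartAt (𝓡 m) p).symm q.2) ∈ (extChartAt (𝓡 m) p).source} with hW
  have hsymm : Tendsto (fun q : ℝ × EE m => (extChartAt (𝓡 m) p).symm q.2) (𝓝 (0, c)) (𝓝 p) := by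
    have h1 := (continuousAt_extChartAt_symm (I := 𝓡 m) p).tendsto
    rw [hsc] at h1
    exact h1.comp (continuous_snd.tendsto _)
  have hWn : W ∈ 𝓝 ((0 : ℝ), c) := by
    have h1 : ∀ᶠ q : ℝ × EE m in 𝓝 (0, c), q.2 ∈ (extChartAt (𝓡 m) p).target :=
      (continuous_snd.tendsto ((0 : ℝ), c)).eventually (extChartAt_target_mem_nhds (I := 𝓡 m) p)
    have h2 := hsymm.eventually hU
    have h3 : Tendsto (fun q : ℝ × EE m => (q.1, (extChartAt (𝓡 m) p).symm q.2)) (𝓝 (0, c))
        (𝓝 (0, p)) := (continuous_fst.tendsto ((0 : ℝ), c)).prodMk_nhds hsymm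
    have h4 := (FiniteFix.tendsto_iterate hh g n p).comp h3
    rw [hk] at h4
    have h5 := h4.eventually (extChartAt_source_mem_nhds (I := 𝓡 m) p)
    filter_upwards [h1, h2, h5] with q h6 h7 h8
    exact ⟨h6, h7, h8⟩
  have hΨW : Ψ '' W ∈ 𝓝 ((0 : ℝ), (0 : EE m)) := by
    rw [← hmap]
    exact image_mem_map hWn
  have hcont : Tendsto (fun t : ℝ => (t, (0 : EE m))) (𝓝 0) (𝓝 (0, 0)) :=
    (continuous_id.prodMk continuous_const).tendsto 0
  filter_upwards [hcont.eventually hΨW] with t ht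
  obtain ⟨⟨t', u⟩, ⟨h1, h2, h3⟩, h4⟩ := ht
  simp only [hΨ, Prod.mk.injEq] at h4
  obtain ⟨h5, h6⟩ := h4
  subst h5
  refine ⟨(extChartAt (𝓡 m) p).symm u, h2, n, hn0, ?_⟩
  show (g.trans (h t'))^[n] ((extChartAt (𝓡 m) p).symm u) = _
  have h7 : extChartAt (𝓡 m) p ((g.trans (h t'))^[n] ((extChartAt (𝓡 m) p).symm u)) = u :=
    sub_eq_zero.1 h6
  rw [← (extChartAt (𝓡 m) p).left_inv h3, h7]

end Persist

/-! ### A generic parameter -/

theorem exists_generic {τ : ℝ} (hτ : 0 < τ) {S : Set (Set ℝ)} (hS : S.Countable)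
    (hO : ∀ O ∈ S, IsOpen O) : ∃ t : ℝ, |t| < τ ∧ ∀ O ∈ S, t ∉ frontier O := by
  have h1 : Dense (⋂ O ∈ S, (frontier O)ᶜ) := by
    refine dense_biInter_of_isOpen (fun O _ => isClosed_frontier.isOpen_compl) hS fun O hOS => ?_
    rw [← interior_eq_empty_iff_dense_compl, ← frontier_compl]
    exact interior_frontier (hO O hOS).isClosed_compl
  obtain ⟨t, ht1, ht2⟩ := h1.exists_mem_open (Metric.isOpen_ball (x := (0 : ℝ)) (ε := τ))
    ⟨0, Metric.mem_ball_self hτ⟩
  refine ⟨t, by simpa using ht2, fun O hOS => ?_⟩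
  have := mem_iInter₂.1 ht1 O hOS
  exact this

/-! ### Transfer by conjugacy -/

theorem density_of_conjugate {M : Type*} [TopologicalSpace M] {f g : M → M} (hf : Continuous f)
    (hconj : OmegaConjugate f g) (hg : Omega g ⊆ closure (periodicPts g)) :
    Omega f ⊆ closure (periodicPts f) := by
  obtain ⟨h, hh⟩ := hconj
  intro x hx
  rw [mem_closure_iff]
  intro U hU hxU
  have h1 : IsOpen (h.symm ⁻¹' (Subtype.val ⁻¹' U)) :=
    (hU.preimage continuous_subtype_val).preimage h.symm.continuous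
  obtain ⟨V, hV, hVeq⟩ := isOpen_induced_iff.1 h1
  have h2 : (h ⟨x, hx⟩ : M) ∈ V := by
    have : h ⟨x, hx⟩ ∈ (Subtype.val ⁻¹' V : Set (Omega g)) := by
      rw [hVeq]
      show (h.symm (h ⟨x, hx⟩) : M) ∈ U
      rw [h.symm_apply_apply]
      exact hxU
    exact this
  obtain ⟨q, hqV, n, hn, hq⟩ := mem_closure_iff.1 (hg (h ⟨x, hx⟩).2) V hV h2
  have hq' : g^[n] q = q := hq
  have hqΩ : q ∈ Omega g := by
    intro U' hU'
    exact ⟨n, hn, q, ⟨q, mem_of_mem_nhds hU', hq'⟩, mem_of_mem_nhds hU'⟩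
  set q₁ : Omega f := h.symm ⟨q, hqΩ⟩ with hq₁
  have h3 : (q₁ : M) ∈ U := by
    have : (⟨q, hqΩ⟩ : Omega g) ∈ (Subtype.val ⁻¹' V : Set (Omega g)) := hqV
    rw [hVeq] at this
    exact this
  refine ⟨q₁, h3, n, hn, ?_⟩
  have h4 := OmegaStab.FiniteFix.conj_periodic (f := f) (g := g) hf h hh n q₁
  have h5 : h q₁ = ⟨q, hqΩ⟩ := by
    rw [hq₁]
    exact h.apply_symm_apply _
  have h6 : g^[n] (h q₁ : M) = h q₁ := by
    rw [h5]
    exact hq'
  exact h4.2 h6

/-! ### The rotations -/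

section Rot

variable {m : ℕ} {M : Type*} [MetricSpace M] [ChartedSpace (EuclideanSpace ℝ (Fin m)) M]
  [MulAction Circle M]

theorem exists_rot (hact : SmoothCircleAction (EuclideanSpace ℝ (Fin m)) M) (r : ℕ∞) :
    ∃ h : ℝ → OmegaStab.Dyn m M r, OmegaStab.IsFam h ∧
      ∀ t y, h t y = Circle.exp t • y := by
  have hr : (r : ℕ∞ω) ≤ ∞ := by exact_mod_cast le_top
  have hconst : ∀ z : Circle, ContMDiff (𝓡 m) (𝓡 m) ∞ (fun y : M => z • y) := by
    intro z
    have h1 : ContMDiff (𝓡 m) ((𝓡 1).prod (𝓡 m)) ∞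
        (fun y : M => (z, y)) := contMDiff_const.prodMk contMDiff_id
    exact hact.comp h1
  have hrot : ContMDiff (𝓘(ℝ, ℝ).prod (𝓡 m)) (𝓡 m) ∞
      (fun q : ℝ × M => Circle.exp q.1 • q.2) := by
    have h1 : ContMDiff (𝓘(ℝ, ℝ).prod (𝓡 m)) ((𝓡 1).prod (𝓡 m)) ∞
        (fun q : ℝ × M => (Circle.exp q.1, q.2)) :=
      (contMDiff_circleExp.comp contMDiff_fst).prodMk contMDiff_snd
    exact hact.comp h1
  refine ⟨fun t => { toFun := fun y => Circle.exp t • y
                     invFun := fun y => (Circle.exp t)⁻¹ • y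
                     left_inv := fun y => inv_smul_smul _ y
                     right_inv := fun y => smul_inv_smul _ y
                     contMDiff_toFun := (hconst _).of_le hr
                     contMDiff_invFun := (hconst _).of_le hr },
    ⟨?_, univ, univ_mem, ?_⟩, fun t y => rfl⟩
  · apply Diffeomorph.ext
    intro y
    change Circle.exp 0 • y = y
    simp
  · exact (hrot.of_le hr).contMDiffOn

end Rot

/-! ### The main theorem -/

theorem dense_main {m : ℕ} {B M : Type*} [MetricSpace B] [MetricSpace M] [CompactSpace M]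
    [ChartedSpace (EuclideanSpace ℝ (Fin m)) M]
    [IsManifold 𝓘(ℝ, EuclideanSpace ℝ (Fin m)) ∞ M] [MulAction Circle M]
    {π : M → B} (hb : FreeCircleAction (EuclideanSpace ℝ (Fin m)) π) {r : ℕ∞} (hr : 1 ≤ r)
    {A : B → B} (hA : ClosingProperty A) (f : Diffeo (EuclideanSpace ℝ (Fin m)) M r)
    (hcov : ∀ y, π (f y) = A (π y)) (hcirc : PreservesOrientedCircles f)
    (hst : OmegaStable f) : Omega f ⊆ closure (periodicPts f) := by
  have hact : Continuous fun p : Circle × M => p.1 • p.2 := hb.smooth_action.continuous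
  have hst' : OmegaStab.OmegaStable f := hst
  obtain ⟨N, hN, hfN, hNconj⟩ := hst'
  have hconj : OmegaStab.ConjClass N := OmegaStab.conjClass_of_conj hNconj
  have hhyp := OmegaStab.hypAt_of_conjClass hr hN hconj
  obtain ⟨h, hfam, hh⟩ := exists_rot hb.smooth_action r
  have hev : ∀ᶠ t in 𝓝 (0 : ℝ), f.trans (h t) ∈ N := by
    let _ := OmegaStab.crTopology m M r
    exact (hfam.tendsto f).eventually (IsOpen.mem_nhds hN hfN)
  obtain ⟨τ, hτ, hball⟩ := Metric.eventually_nhds_iff.1 hev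
  have hτN : ∀ t : ℝ, |t| < τ → f.trans (h t) ∈ N := fun t ht => hball (by simpa using ht)
  have hfun : ∀ t, ⇑(f.trans (h t)) = fun y => Circle.exp t • f y := by
    intro t
    funext y
    exact hh t (f y)
  have hadd : ∀ s t, (f.trans (h t)).trans (h s) = f.trans (h (t + s)) := by
    intro s t
    apply Diffeomorph.ext
    intro y
    show h s (h t (f y)) = h (t + s) (f y)
    rw [hh, hh, hh, smul_smul, ← Circle.exp_add, add_comm]
  -- the sets of parameters
  set O : Set M → Set ℝ := fun U => {t | |t| < τ ∧ ∃ y ∈ U, y ∈ periodicPts (f.trans (h t))} with hO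
  have hOopen : ∀ U, IsOpen U → IsOpen (O U) := by
    intro U hU
    rw [isOpen_iff_mem_nhds]
    rintro t ⟨ht, y, hyU, hy⟩
    have h1 := persist hr hfam (f.trans (h t)) (hhyp _ (hτN t ht) y hy) (hU.mem_nhds hyU)
    have h2 : Tendsto (fun t' : ℝ => t' - t) (𝓝 t) (𝓝 0) := by
      have : Tendsto (fun t' : ℝ => t' - t) (𝓝 t) (𝓝 (t - t)) :=
        (continuous_id.sub continuous_const).tendsto t
      rwa [sub_self] at this
    have h3 : ∀ᶠ t' in 𝓝 t, |t'| < τ := (continuous_abs.tendsto t).eventually (gt_mem_nhds ht)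
    filter_upwards [h2.eventually h1, h3] with t' h4 h5
    refine ⟨h5, ?_⟩
    rw [hadd, add_sub_cancel] at h4
    exact h4
  -- the generic parameter
  obtain ⟨t, ht, hgen⟩ := exists_generic hτ (S := O '' (TopologicalSpace.countableBasis M))
    ((TopologicalSpace.countable_countableBasis M).image O) (by
      rintro _ ⟨U, hU, rfl⟩
      exact hOopen U (TopologicalSpace.isOpen_of_mem_countableBasis hU))
  have hdense : Omega (f.trans (h t)) ⊆ closure (periodicPts (f.trans (h t))) := by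
    intro z hz
    rw [mem_closure_iff]
    intro V hV hzV
    obtain ⟨U, hU, hzU, hUV⟩ := (TopologicalSpace.isBasis_countableBasis M).exists_subset_of_mem_open
      hzV hV
    have h1 : t ∉ frontier (O U) := hgen _ ⟨U, hU, rfl⟩
    have h2 : t ∈ closure (O U) := by
      rw [Metric.mem_closure_iff]
      intro ε hε
      have hcov' : ∀ y, π ((f.trans (h t)) y) = A (π y) := by
        intro y
        rw [hfun, ← hcov]
        exact ((hb.fibre _ _).2 ⟨_, rfl⟩).symm
      have hcirc' : PreservesOrientedCircles (f.trans (h t)) := by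
        intro y
        obtain ⟨L, hL1, hL2, hL3⟩ := hcirc y
        refine ⟨L, hL1, hL2, fun θ => ?_⟩
        rw [hfun]
        show Circle.exp t • f (Circle.exp θ • y) = Circle.exp (L θ) • Circle.exp t • f y
        rw [hL3, smul_smul, smul_smul, mul_comm]
      obtain ⟨s, hs, y, hyU, hy⟩ := exists_closing hact hb.free hb.continuous_proj hb.surjective
        hb.fibre hA (f.trans (h t)).continuous hcov' hcirc' hz
        ((TopologicalSpace.isOpen_of_mem_countableBasis hU).mem_nhds hzU)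
        (ε := min (ε / 2) ((τ - |t|) / 2)) (by
          have : 0 < τ - |t| := by linarith
          positivity)
      have hs1 : |s| ≤ ε / 2 := hs.trans (min_le_left _ _)
      have hs2 : |s| ≤ (τ - |t|) / 2 := hs.trans (min_le_right _ _)
      refine ⟨t + s, ⟨?_, y, hyU, ?_⟩, ?_⟩
      · have := abs_add_le t s
        have h3 : 0 < τ - |t| := by linarith
        linarith
      · have h3 : (fun y => Circle.exp s • (f.trans (h t)) y) = ⇑(f.trans (h (t + s))) := by
          funext w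
          rw [hfun, hfun]
          show Circle.exp s • Circle.exp t • f w = _
          rw [smul_smul, ← Circle.exp_add, add_comm]
        rw [← h3]
        exact hy
      · rw [Real.dist_eq]
        have h3 : t - (t + s) = -s := by ring
        rw [h3, abs_neg]
        linarith
    have h3 : t ∈ O U := by
      by_contra h4
      apply h1
      rw [(hOopen U (TopologicalSpace.isOpen_of_mem_countableBasis hU)).frontier_eq]
      exact ⟨h2, h4⟩
    obtain ⟨-, y, hyU, hy⟩ := h3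
    exact ⟨y, hUV hyU, hy⟩
  exact density_of_conjugate f.continuous (hNconj _ (hτN t ht)) hdense

end Dens

end Pool.Agent.OmegaStability

end
end

section

/-!
# Crossing: a hyperbolic periodic point is crossed by the return map of its circle
-/

open Set Filter Topology Function
open scoped Manifold ContDiff

noncomputable section

namespace Pool.Agent.OmegaStability

namespace Dens

set_option linter.unusedSectionVars false

variable {m : ℕ} {M : Type*} [MetricSpace M] [ChartedSpace (EuclideanSpace ℝ (Fin m)) M]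
  [IsManifold 𝓘(ℝ, EuclideanSpace ℝ (Fin m)) ∞ M] [MulAction Circle M]

omit [IsManifold 𝓘(ℝ, EuclideanSpace ℝ (Fin m)) ∞ M] in
variable (m) in
/-- The generator of the circle action. -/
def vgen (y : M) : TangentSpace (𝓡 m) y :=
  mfderiv 𝓘(ℝ, ℝ) (𝓡 m) (fun θ : ℝ => Circle.exp θ • y) 0 (1 : ℝ)

theorem flow_smooth (ha : SmoothCircleAction (EuclideanSpace ℝ (Fin m)) M) :
    ContMDiff (𝓘(ℝ, ℝ).prod (𝓡 m)) (𝓡 m) ∞
      (fun p : ℝ × M => Circle.exp p.1 • p.2) :=
  ContMDiff.comp ha ((contMDiff_circleExp.comp contMDiff_fst).prodMk contMDiff_snd)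

theorem curve_smooth (ha : SmoothCircleAction (EuclideanSpace ℝ (Fin m)) M) (y : M) :
    ContMDiff 𝓘(ℝ, ℝ) (𝓡 m) ∞ (fun θ : ℝ => Circle.exp θ • y) :=
  (flow_smooth ha).comp (contMDiff_id.prodMk contMDiff_const)

theorem curve_mdiff (ha : SmoothCircleAction (EuclideanSpace ℝ (Fin m)) M) (y : M) (θ : ℝ) :
    MDifferentiableAt 𝓘(ℝ, ℝ) (𝓡 m) (fun θ : ℝ => Circle.exp θ • y) θ :=
  (curve_smooth ha y).mdifferentiableAt (by simp)

theorem mul_smooth (ha : SmoothCircleAction (EuclideanSpace ℝ (Fin m)) M) (z : Circle) :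
    ContMDiff (𝓡 m) (𝓡 m) ∞ (fun y : M => z • y) := by
  have h1 : ContMDiff (𝓡 m) ((𝓡 1).prod (𝓡 m)) ∞
      (fun y : M => (z, y)) := contMDiff_const.prodMk contMDiff_id
  have h2 : ContMDiff ((𝓡 1).prod (𝓡 m)) (𝓡 m) ∞ (fun p : Circle × M => p.1 • p.2) := ha
  exact h2.comp h1

theorem mfderiv_curve (ha : SmoothCircleAction (EuclideanSpace ℝ (Fin m)) M) (y : M) (θ : ℝ) :
    mfderiv 𝓘(ℝ, ℝ) (𝓡 m) (fun θ : ℝ => Circle.exp θ • y) θ (1 : ℝ) =
      vgen m (Circle.exp θ • y) := by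
  have h1 : (fun s : ℝ => Circle.exp s • (Circle.exp θ • y)) =
      (fun θ : ℝ => Circle.exp θ • y) ∘ (fun s : ℝ => s + θ) := by
    funext s
    simp only [Function.comp_apply, Circle.exp_add, mul_smul]
  have h2 : HasMFDerivAt 𝓘(ℝ, ℝ) 𝓘(ℝ, ℝ) (fun s : ℝ => s + θ) (0 : ℝ)
      (ContinuousLinearMap.id ℝ ℝ) := ((hasFDerivAt_id (0 : ℝ)).add_const θ).hasMFDerivAt
  have h3 : HasMFDerivAt 𝓘(ℝ, ℝ) (𝓡 m) (fun θ : ℝ => Circle.exp θ • y) (0 + θ)
      (mfderiv 𝓘(ℝ, ℝ) (𝓡 m) (fun θ : ℝ => Circle.exp θ • y) (0 + θ)) :=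
    (curve_mdiff ha y _).hasMFDerivAt
  have h4 := HasMFDerivAt.comp (0 : ℝ) h3 h2
  unfold vgen
  rw [h1, h4.mfderiv]
  have h5 : (0 : ℝ) + θ = θ := zero_add θ
  rw [h5]
  rfl

theorem mfderiv_smul_gen (ha : SmoothCircleAction (EuclideanSpace ℝ (Fin m)) M) (z : Circle) (y : M) :
    mfderiv (𝓡 m) (𝓡 m) (fun y : M => z • y) y (vgen m y) = vgen m (z • y) := by
  have h1 : (fun s : ℝ => Circle.exp s • (z • y)) =
      (fun y : M => z • y) ∘ (fun θ : ℝ => Circle.exp θ • y) := by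
    funext s
    simp only [Function.comp_apply, smul_smul, mul_comm]
  have h0 : Circle.exp 0 • y = y := by simp
  have h3 : HasMFDerivAt (𝓡 m) (𝓡 m) (fun y : M => z • y) (Circle.exp 0 • y)
      (mfderiv (𝓡 m) (𝓡 m) (fun y : M => z • y) (Circle.exp 0 • y)) :=
    ((mul_smooth ha z).mdifferentiableAt (by simp)).hasMFDerivAt
  have h4 := HasMFDerivAt.comp (0 : ℝ) h3 (curve_mdiff ha y 0).hasMFDerivAt
  unfold vgen
  rw [h1, h4.mfderiv]
  rw [h0]
  rfl

theorem gen_ne_zero (ha : SmoothCircleAction (EuclideanSpace ℝ (Fin m)) M)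
    (hfree : ∀ (z : Circle) (y : M), z • y = y → z = 1) (y : M) : vgen m y ≠ 0 := by
  intro h0
  have hz : ∀ θ : ℝ, mfderiv 𝓘(ℝ, ℝ) (𝓡 m) (fun θ : ℝ => Circle.exp θ • y) θ = 0 := by
    intro θ
    have h1 := mfderiv_curve ha y θ
    rw [← mfderiv_smul_gen ha (Circle.exp θ) y, h0, map_zero] at h1
    refine ContinuousLinearMap.ext_ring h1
  have hcl : IsClosed {θ : ℝ | Circle.exp θ • y = y} :=
    isClosed_eq (curve_smooth ha y).continuous continuous_const
  have hop : IsOpen {θ : ℝ | Circle.exp θ • y = y} := by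
    rw [Metric.isOpen_iff]
    intro θ₀ hθ₀
    have hθ₀' : Circle.exp θ₀ • y = y := hθ₀
    have hc : Continuous (fun θ : ℝ => Circle.exp θ • y) := (curve_smooth ha y).continuous
    have hnb : (fun θ : ℝ => Circle.exp θ • y) ⁻¹'
        (extChartAt (𝓡 m) y).source ∈ 𝓝 θ₀ := by
      refine hc.continuousAt.preimage_mem_nhds ?_
      simp only [hθ₀']
      exact extChartAt_source_mem_nhds y
    obtain ⟨ε, hε, hball⟩ := Metric.mem_nhds_iff.1 hnb
    refine ⟨ε, hε, fun θ hθ => ?_⟩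
    have hder : ∀ x ∈ Metric.ball θ₀ ε,
        HasFDerivAt (fun θ : ℝ => extChartAt (𝓡 m) y (Circle.exp θ • y))
          (0 : ℝ →L[ℝ] EuclideanSpace ℝ (Fin m)) x := by
      intro x hx
      have hxs : Circle.exp x • y ∈ (extChartAt (𝓡 m) y).source := hball hx
      have h1 : MDifferentiableAt (𝓡 m) 𝓘(ℝ, EuclideanSpace ℝ (Fin m))
          (extChartAt (𝓡 m) y) (Circle.exp x • y) :=
        mdifferentiableAt_extChartAt (by simpa using hxs)
      have h2 := HasMFDerivAt.comp x h1.hasMFDerivAt (curve_mdiff ha y x).hasMFDerivAt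
      rw [hz x] at h2
      have key : ∀ (F : ℝ → EuclideanSpace ℝ (Fin m))
          (A : EuclideanSpace ℝ (Fin m) →L[ℝ] EuclideanSpace ℝ (Fin m)),
          HasFDerivAt F (A.comp (0 : ℝ →L[ℝ] EuclideanSpace ℝ (Fin m))) x →
          HasFDerivAt F (0 : ℝ →L[ℝ] EuclideanSpace ℝ (Fin m)) x := by
        intro F A h
        rwa [ContinuousLinearMap.comp_zero] at h
      exact key _ _ h2.hasFDerivAt
    have hconst : extChartAt (𝓡 m) y (Circle.exp θ • y) =
        extChartAt (𝓡 m) y (Circle.exp θ₀ • y) := by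
      refine (convex_ball θ₀ ε).is_const_of_fderivWithin_eq_zero (𝕜 := ℝ)
        (f := fun θ : ℝ => extChartAt (𝓡 m) y (Circle.exp θ • y)) ?_ ?_ hθ
        (Metric.mem_ball_self hε)
      · intro x hx
        exact (hder x hx).differentiableAt.differentiableWithinAt
      · intro x hx
        rw [fderivWithin_of_isOpen Metric.isOpen_ball hx]
        exact (hder x hx).fderiv
    have := (extChartAt (𝓡 m) y).injOn (hball hθ) (hball (Metric.mem_ball_self hε)) hconst
    exact this.trans hθ₀'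
  have huniv : {θ : ℝ | Circle.exp θ • y = y} = univ :=
    IsClopen.eq_univ ⟨hcl, hop⟩ ⟨0, by simp⟩
  have h1 : Circle.exp 1 • y = y := by
    have : (1 : ℝ) ∈ {θ : ℝ | Circle.exp θ • y = y} := by rw [huniv]; trivial
    exact this
  have h2 := hfree _ _ h1
  rw [← Circle.exp_zero, Circle.exp_eq_exp] at h2
  obtain ⟨m, hm⟩ := h2
  have hpi := Real.pi_gt_three
  rcases lt_trichotomy m 0 with h | h | h
  · have : (m : ℝ) < 0 := by exact_mod_cast h
    nlinarith
  · rw [h] at hm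
    norm_num at hm
  · have : (1 : ℝ) ≤ m := by exact_mod_cast h
    nlinarith


/-- The return map of a circle crosses the identity at a hyperbolic periodic point. -/
theorem crossing_aux {r : ℕ∞} (hr : 1 ≤ r) (ha : SmoothCircleAction (EuclideanSpace ℝ (Fin m)) M)
    (hfree : ∀ (z : Circle) (y : M), z • y = y → z = 1) (g : OmegaStab.Dyn m M r) {e : M} {n : ℕ}
    (hn : 0 < n) {G : ℝ → ℝ} (hGc : Continuous G)
    (hG : ∀ θ : ℝ, g^[n] (Circle.exp θ • e) = Circle.exp (G θ) • e) {θ₀ : ℝ} (h0 : G θ₀ = θ₀)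
    (hyp : OmegaStab.HypAt (d := m) g (Circle.exp θ₀ • e)) :
    ∃ g₁ : ℝ, HasDerivAt G g₁ θ₀ ∧ g₁ ≠ 1 := by
  set y₀ : M := Circle.exp θ₀ • e with hy₀
  have hfix : g^[n] y₀ = y₀ := by rw [hy₀, hG, h0]
  -- the curve
  set φ := extChartAt (𝓡 m) y₀ with hφ
  set c : ℝ → EuclideanSpace ℝ (Fin m) := fun θ => φ (Circle.exp θ • e) with hc
  have hcs : ContMDiffAt 𝓘(ℝ, ℝ) 𝓘(ℝ, EuclideanSpace ℝ (Fin m)) ∞ c θ₀ := by
    have h1 : ContMDiffAt (𝓡 m) 𝓘(ℝ, EuclideanSpace ℝ (Fin m)) ∞ φ (Circle.exp θ₀ • e) :=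
      contMDiffAt_extChartAt
    exact ContMDiffAt.comp θ₀ h1 (curve_smooth ha e).contMDiffAt
  have hcd : ContDiffAt ℝ ∞ c θ₀ := contMDiffAt_iff_contDiffAt.1 hcs
  have hcstrict : HasStrictFDerivAt c (fderiv ℝ c θ₀) θ₀ := hcd.hasStrictFDerivAt (by simp)
  set w : EuclideanSpace ℝ (Fin m) := fderiv ℝ c θ₀ 1 with hw
  have hcD : HasStrictDerivAt c w θ₀ := hcstrict.hasStrictDerivAt
  have hw0 : w ≠ 0 := by
    have h1 : w = vgen m y₀ := by
      rw [hy₀, ← mfderiv_curve ha e θ₀, (curve_mdiff ha e θ₀).mfderiv]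
      simp only [mfld_simps, fderivWithin_univ]
      rfl
    rw [h1]
    exact gen_ne_zero ha hfree y₀
  -- the return map in the chart
  set D := fderiv ℝ (OmegaStab.inCharts (d := m) y₀ y₀ (g^[n])) (φ y₀) with hD
  have hys : y₀ ∈ φ.source := mem_extChartAt_source y₀
  have hH : HasFDerivAt (OmegaStab.inCharts (d := m) y₀ y₀ (g^[n])) D (φ y₀) := by
    have h1 := (OmegaStab.FiniteFix.hasStrictFDerivAt_inCharts (d := m) hr
      (OmegaStab.FiniteFix.iterate_contMDiff g n) hys (by rw [hfix]; exact hys)).hasFDerivAt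
    exact h1.differentiableAt.hasFDerivAt
  have hcθ : c θ₀ = φ y₀ := rfl
  have hcomp : HasDerivAt (fun θ => c (G θ)) (D w) θ₀ := by
    have h1 : HasDerivAt (OmegaStab.inCharts (d := m) y₀ y₀ (g^[n]) ∘ c) (D w) θ₀ :=
      HasFDerivAt.comp_hasDerivAt θ₀ (by rw [hcθ]; exact hH) hcD.hasDerivAt
    refine h1.congr_of_eventuallyEq ?_
    have h2 : ∀ᶠ θ in 𝓝 θ₀, Circle.exp θ • e ∈ φ.source :=
      (curve_smooth ha e).continuous.continuousAt.preimage_mem_nhds
        (extChartAt_source_mem_nhds (I := 𝓡 m) y₀)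
    filter_upwards [h2] with θ hθ
    show c (G θ) = φ (g^[n] (φ.symm (φ (Circle.exp θ • e))))
    rw [φ.left_inv hθ, hG]
  -- a coordinate
  obtain ⟨ℓ, hℓ⟩ := SeparatingDual.exists_eq_one (R := ℝ) hw0
  have hψ : HasStrictDerivAt (fun θ => ℓ (c θ)) 1 θ₀ := by
    have h1 := ℓ.hasStrictFDerivAt (x := c θ₀) |>.comp_hasStrictDerivAt θ₀ hcD
    rw [hℓ] at h1
    exact h1
  have hψG : HasDerivAt (fun θ => ℓ (c (G θ))) (ℓ (D w)) θ₀ :=
    ℓ.hasFDerivAt.comp_hasDerivAt θ₀ hcomp
  set inv := HasStrictDerivAt.localInverse (fun θ => ℓ (c θ)) 1 θ₀ hψ one_ne_zero with hinv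
  have hinvD : HasStrictDerivAt inv (1 : ℝ)⁻¹ (ℓ (c θ₀)) := hψ.to_localInverse one_ne_zero
  have hleft : ∀ᶠ x in 𝓝 θ₀, inv (ℓ (c x)) = x := hψ.eventually_left_inverse one_ne_zero
  have hGt : Tendsto G (𝓝 θ₀) (𝓝 θ₀) := by
    have := hGc.tendsto θ₀
    rwa [h0] at this
  have hGD : HasDerivAt G (ℓ (D w)) θ₀ := by
    have h1 : HasDerivAt (inv ∘ fun θ => ℓ (c (G θ))) ((1 : ℝ)⁻¹ * ℓ (D w)) θ₀ := by
      refine HasDerivAt.comp θ₀ ?_ hψG
      rw [h0]
      exact hinvD.hasDerivAt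
    rw [inv_one, one_mul] at h1
    refine h1.congr_of_eventuallyEq ?_
    filter_upwards [hGt.eventually hleft] with θ hθ
    exact hθ.symm
  refine ⟨ℓ (D w), hGD, fun hone => ?_⟩
  -- the eigenvector
  have hcG : HasDerivAt (fun θ => c (G θ)) (ℓ (D w) • w) θ₀ := by
    have h1 : HasDerivAt c w (G θ₀) := by
      rw [h0]
      exact hcD.hasDerivAt
    exact h1.scomp θ₀ hGD
  have hDw : D w = w := by
    have := hcomp.unique hcG
    rw [this, hone, one_smul]
  obtain ⟨hper, hlin⟩ := hyp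
  have hg := OmegaStab.FinHyp.mdiff hr g
  have hfx : g^[minimalPeriod g y₀] y₀ = y₀ := Function.iterate_minimalPeriod
  obtain ⟨j, hj⟩ : minimalPeriod g y₀ ∣ n := Function.IsPeriodicPt.minimalPeriod_dvd hfix
  have hj0 : 0 < j := by
    rcases Nat.eq_zero_or_pos j with h | h
    · rw [h, mul_zero] at hj
      omega
    · exact h
  rw [← OmegaStab.FinHyp.der_eq_fderiv (OmegaStab.FinHyp.mdiff_iter hg _) hfx] at hlin
  have hD' : OmegaStab.FinHyp.der (d := m) (g^[n]) y₀ = D :=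
    OmegaStab.FinHyp.der_eq_fderiv (OmegaStab.FinHyp.mdiff_iter hg _) hfix
  have h5 : (OmegaStab.FinHyp.der (d := m) g^[minimalPeriod g y₀ * j] y₀) w = w := by
    rw [← hj, hD', hDw]
  rw [OmegaStab.FinHyp.der_iter_mul hg hfx j] at h5
  exact hw0 (hypLin_pow_fixed hlin hj0 h5)

/-- The return map of a circle crosses the identity at a hyperbolic periodic point. -/
theorem crossing {r : ℕ∞} (hr : 1 ≤ r) (ha : SmoothCircleAction (EuclideanSpace ℝ (Fin m)) M)
    (hfree : ∀ (z : Circle) (y : M), z • y = y → z = 1) (g : OmegaStab.Dyn m M r) {e : M} {n : ℕ}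
    (hn : 0 < n) {G : ℝ → ℝ} (hGc : Continuous G)
    (hG : ∀ θ : ℝ, g^[n] (Circle.exp θ • e) = Circle.exp (G θ) • e) {θ₀ : ℝ} (h0 : G θ₀ = θ₀)
    (hyp : OmegaStab.HypAt (d := m) g (Circle.exp θ₀ • e)) :
    ¬ IsLocalExtr (fun θ => G θ - θ) θ₀ := by
  obtain ⟨g₁, hg₁, hne⟩ := crossing_aux hr ha hfree g hn hGc hG h0 hyp
  intro hext
  have h1 : HasDerivAt (fun θ => G θ - θ) (g₁ - 1) θ₀ := hg₁.sub (hasDerivAt_id θ₀)
  have h2 := hext.hasDerivAt_eq_zero h1
  exact hne (by linarith)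

end Dens

end Pool.Agent.OmegaStability

end
end

section

/-!
# The periodic points over a periodic orbit of the base
-/

open Set Filter Topology Function
open scoped Manifold ContDiff

noncomputable section

namespace Pool.Agent.OmegaStability

namespace Dens

/-! ### Lifts of the return maps of the circles -/

section Lift

variable {M : Type*} [MulAction Circle M]

theorem exp_eq_one_int {x : ℝ} (h : Circle.exp x = 1) : ∃ k : ℤ, x = 2 * Real.pi * k := by
  rw [Circle.exp_eq_one] at h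
  obtain ⟨k, hk⟩ := h
  exact ⟨k, by rw [hk]; ring⟩

theorem lift_degree (hfree : ∀ (z : Circle) (y : M), z • y = y → z = 1) {f : M → M}
    (hinj : Injective f) {y : M} {L : ℝ → ℝ} (hLc : Continuous L) (hLm : StrictMono L)
    (hL : ∀ θ : ℝ, f (Circle.exp θ • y) = Circle.exp (L θ) • f y) (θ : ℝ) :
    L (θ + 2 * Real.pi) = L θ + 2 * Real.pi := by
  have hpi := Real.pi_pos
  have hper : ∀ η : ℝ, Circle.exp (η + 2 * Real.pi) = Circle.exp η := by
    intro η
    rw [Circle.exp_add, Circle.exp_two_pi, mul_one]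
  have key : ∀ a b : ℝ, Circle.exp a • f y = Circle.exp b • f y → ∃ k : ℤ,
      a - b = 2 * Real.pi * k := by
    intro a b hab
    apply exp_eq_one_int
    have h1 : (Circle.exp b)⁻¹ • Circle.exp a • f y = f y := by rw [hab, inv_smul_smul]
    rw [smul_smul] at h1
    have h2 := hfree _ _ h1
    rw [sub_eq_add_neg, Circle.exp_add, Circle.exp_neg, mul_comm]
    exact h2
  obtain ⟨k, hk⟩ := key (L (θ + 2 * Real.pi)) (L θ) (by rw [← hL, ← hL, hper])
  have h1 : 0 < L (θ + 2 * Real.pi) - L θ := sub_pos.2 (hLm (by linarith))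
  rw [hk] at h1
  have hk0 : 0 < (k : ℝ) := by
    by_contra h
    have : 2 * Real.pi * (k : ℝ) ≤ 0 := mul_nonpos_of_nonneg_of_nonpos (by linarith) (not_lt.1 h)
    linarith
  have hk1 : 1 ≤ k := by exact_mod_cast hk0
  rcases hk1.lt_or_eq with h2 | h2
  · exfalso
    have h3 : (2 : ℝ) ≤ k := by exact_mod_cast h2
    have h4 : L θ + 2 * Real.pi ≤ L (θ + 2 * Real.pi) := by nlinarith
    have h5 := intermediate_value_Icc (show θ ≤ θ + 2 * Real.pi by linarith) hLc.continuousOn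
    obtain ⟨η, hη, hη'⟩ := h5 ⟨by linarith, h4⟩
    have h6 : f (Circle.exp η • y) = f (Circle.exp θ • y) := by
      rw [hL, hL, hη', hper]
    have h7 := hinj h6
    have h8 : Circle.exp (η - θ) = 1 := by
      have h9 : (Circle.exp θ)⁻¹ • Circle.exp η • y = y := by rw [h7, inv_smul_smul]
      rw [smul_smul] at h9
      have := hfree _ _ h9
      rw [sub_eq_add_neg, Circle.exp_add, Circle.exp_neg, mul_comm]
      exact this
    obtain ⟨l, hl⟩ := exp_eq_one_int h8
    have h10 : θ < η := by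
      rcases hη.1.lt_or_eq with h | h
      · exact h
      · rw [← h] at hη'
        linarith
    have h11 : η < θ + 2 * Real.pi := by
      rcases hη.2.lt_or_eq with h | h
      · exact h
      · rw [h] at hη'
        nlinarith
    have h12 : (0 : ℝ) < l := by
      by_contra h
      have : 2 * Real.pi * (l : ℝ) ≤ 0 := mul_nonpos_of_nonneg_of_nonpos (by linarith) (not_lt.1 h)
      linarith
    have h13 : (l : ℝ) < 1 := by
      by_contra h
      have : 2 * Real.pi * (l : ℝ) ≥ 2 * Real.pi := by nlinarith [not_lt.1 h]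
      linarith
    have h14 : 0 < l := by exact_mod_cast h12
    have h15 : l < 1 := by exact_mod_cast h13
    omega
  · rw [← h2] at hk
    push_cast at hk
    linarith

/-- The return maps of the circle of `e`. -/
structure RetMap (f : M → M) (e : M) (n : ℕ) (c : ℝ) (G : ℝ → ℝ → ℝ) : Prop where
  cont : Continuous fun q : ℝ × ℝ => G q.1 q.2
  mono : ∀ t, StrictMono (G t)
  map : ∀ t θ : ℝ, (fun y => Circle.exp t • f y)^[n] (Circle.exp θ • e) =
    Circle.exp (G t θ) • e
  per : ∀ t θ, G t (θ + 2 * Real.pi) = G t θ + 2 * Real.pi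
  incr : ∀ t t' θ, t ≤ t' → G t θ + (t' - t) ≤ G t' θ
  base : G 0 0 = c

theorem exists_retMap (hfree : ∀ (z : Circle) (y : M), z • y = y → z = 1) {f : M → M}
    (hinj : Injective f) (hf : PreservesOrientedCircles f) {e : M} {n : ℕ} (hn : 0 < n) {c : ℝ}
    (hc : f^[n] e = Circle.exp c • e) : ∃ G : ℝ → ℝ → ℝ, RetMap f e n c G := by
  choose L' hLc hLm hL' using fun j : ℕ => hf (f^[j] e)
  have h0 : ∀ j, Circle.exp (L' j 0) = 1 := by
    intro j
    have h1 := hL' j 0
    rw [Circle.exp_zero, one_smul] at h1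
    exact hfree _ _ h1.symm
  set L : ℕ → ℝ → ℝ := fun j θ => L' j θ - L' j 0 with hLdef
  have hLc' : ∀ j, Continuous (L j) := fun j => (hLc j).sub continuous_const
  have hLmono : ∀ j, StrictMono (L j) := fun j a b hab =>
    sub_lt_sub_right ((hLm j) hab) _
  have hL0 : ∀ j, L j 0 = 0 := fun j => sub_self _
  have hmap : ∀ j, ∀ θ : ℝ,
      f (Circle.exp θ • f^[j] e) = Circle.exp (L j θ) • f^[j + 1] e := by
    intro j θ
    have h1 : Circle.exp (L j θ) = Circle.exp (L' j θ) := by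
      simp only [hLdef]
      rw [sub_eq_add_neg, Circle.exp_add, Circle.exp_neg, h0, inv_one, mul_one]
    rw [hL', h1, iterate_succ_apply']
  have hper : ∀ j θ, L j (θ + 2 * Real.pi) = L j θ + 2 * Real.pi := by
    intro j θ
    have := lift_degree hfree hinj (hLc j) (hLm j) (hL' j) θ
    simp only [hLdef]
    linarith
  have hiter : ∀ (t θ : ℝ) (j : ℕ), (fun y => Circle.exp t • f y)^[j] (Circle.exp θ • e) =
      Circle.exp (orb L t j θ) • f^[j] e := by
    intro t θ j
    induction j with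
    | zero => rfl
    | succ j ih =>
      rw [iterate_succ_apply', ih]
      show Circle.exp t • f (Circle.exp (orb L t j θ) • f^[j] e) = _
      rw [hmap, smul_smul, ← Circle.exp_add]
      show _ = Circle.exp (L j (orb L t j θ) + t) • _
      rw [add_comm]
  have hcont : ∀ j, Continuous fun q : ℝ × ℝ => orb L q.1 j q.2 := by
    intro j
    induction j with
    | zero => exact continuous_snd
    | succ j ih => exact ((hLc' j).comp ih).add continuous_fst
  have hmono : ∀ t j, StrictMono (orb L t j) := by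
    intro t j
    induction j with
    | zero => exact strictMono_id
    | succ j ih =>
      intro a b hab
      have := hLmono j (ih hab)
      show L j (orb L t j a) + t < L j (orb L t j b) + t
      linarith
  have hperiod : ∀ t j θ, orb L t j (θ + 2 * Real.pi) = orb L t j θ + 2 * Real.pi := by
    intro t j
    induction j with
    | zero => intro θ; rfl
    | succ j ih =>
      intro θ
      show L j (orb L t j (θ + 2 * Real.pi)) + t = L j (orb L t j θ) + t + 2 * Real.pi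
      rw [ih, hper]
      ring
  have hle : ∀ t t' θ, t ≤ t' → ∀ j, orb L t j θ ≤ orb L t' j θ := by
    intro t t' θ htt j
    induction j with
    | zero => exact le_rfl
    | succ j ih =>
      have := (hLmono j).monotone ih
      show L j (orb L t j θ) + t ≤ L j (orb L t' j θ) + t'
      linarith
  have horb0 : ∀ j, orb L 0 j 0 = 0 := by
    intro j
    induction j with
    | zero => rfl
    | succ j ih =>
      show L j (orb L 0 j 0) + 0 = 0
      rw [ih, hL0, add_zero]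
  refine ⟨fun t θ => orb L t n θ + c, ⟨(hcont n).add continuous_const, fun t a b hab => ?_,
    fun t θ => ?_, fun t θ => ?_, fun t t' θ htt => ?_, ?_⟩⟩
  · have := hmono t n hab
    show orb L t n a + c < orb L t n b + c
    linarith
  · rw [hiter, hc, smul_smul, ← Circle.exp_add]
  · show orb L t n (θ + 2 * Real.pi) + c = orb L t n θ + c + 2 * Real.pi
    rw [hperiod]
    ring
  · obtain ⟨k, rfl⟩ : ∃ k, n = k + 1 := ⟨n - 1, by omega⟩
    have h1 := (hLmono k).monotone (hle t t' θ htt k)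
    show L k (orb L t k θ) + t + c + (t' - t) ≤ L k (orb L t' k θ) + t' + c
    linarith
  · show orb L 0 n 0 + c = c
    rw [horb0, zero_add]

end Lift

/-! ### Monotone families without tangencies -/

section Family

/-- No zero of `G t θ - θ` is a local extremum, for `|t| < τ`. -/
def NoTangency (G : ℝ → ℝ → ℝ) (τ : ℝ) : Prop :=
  ∀ t, |t| < τ → ∀ θ, G t θ = θ → ¬ IsLocalExtr (fun θ => G t θ - θ) θ

/-- Two zeros at parameter `0` are far apart. -/
theorem separated {G : ℝ → ℝ → ℝ} (hc : Continuous fun q : ℝ × ℝ => G q.1 q.2)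
    (hmono : ∀ t, StrictMono (G t)) (hinc : ∀ t t' θ, t ≤ t' → G t θ + (t' - t) ≤ G t' θ)
    {τ : ℝ} (hX : NoTangency G τ) {a b t : ℝ} (hab : a < b) (ha : G 0 a = a) (hb : G 0 b = b)
    (ht : |t| < τ) (ht0 : 0 ≤ t) : t < b - a := by
  by_contra hcon
  have hcon' : b - a ≤ t := not_lt.1 hcon
  have ht0' : 0 < t := by linarith
  have hττ : ∀ s, |s| ≤ t → |s| < τ := fun s hs => hs.trans_lt (by rwa [abs_of_nonneg ht0] at ht)
  have hcs : ∀ θ, Continuous fun s => G s θ := fun θ =>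
    hc.comp (continuous_id.prodMk continuous_const)
  by_cases h1 : ∃ θ ∈ Icc a b, G 0 θ < θ
  · -- positive parameters
    have hu : IsOpen {s : ℝ | ∃ θ ∈ Icc a b, G s θ < θ} := by
      have : {s : ℝ | ∃ θ ∈ Icc a b, G s θ < θ} = ⋃ θ ∈ Icc a b, {s | G s θ < θ} := by
        ext s; simp
      rw [this]
      exact isOpen_biUnion fun θ _ => isOpen_lt (hcs θ) continuous_const
    have hv : IsOpen {s : ℝ | ∀ θ ∈ Icc a b, θ < G s θ} := by
      rw [isOpen_iff_eventually]
      intro s hs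
      refine isCompact_Icc.eventually_forall_of_forall_eventually
        (P := fun s θ => θ < G s θ) fun θ hθ => ?_
      exact (isOpen_lt continuous_snd hc).mem_nhds (hs θ hθ)
    have hsub := isPreconnected_Icc (a := (0 : ℝ)) (b := t) |>.subset_left_of_subset_union hu hv
      (by
        rw [Set.disjoint_left]
        rintro s ⟨θ, hθ, h2⟩ h3
        exact absurd (h3 θ hθ) (not_lt.2 h2.le)) (by
        intro s hs
        by_cases h2 : ∃ θ ∈ Icc a b, G s θ < θ
        · exact Or.inl h2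
        · right
          push Not at h2
          have hs0 : 0 < s := by
            rcases hs.1.lt_or_eq with h | h
            · exact h
            · exfalso
              obtain ⟨θ, hθ, h3⟩ := h1
              rw [h] at h3
              exact absurd h3 (not_lt.2 (h2 θ hθ))
          intro θ hθ
          rcases (h2 θ hθ).lt_or_eq with h3 | h3
          · exact h3
          · exfalso
            have hea : a < G s a := by
              have := hinc 0 s a hs0.le
              rw [ha] at this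
              linarith
            have heb : b < G s b := by
              have := hinc 0 s b hs0.le
              rw [hb] at this
              linarith
            have hθa : a < θ := by
              rcases hθ.1.lt_or_eq with h | h
              · exact h
              · rw [← h] at h3; linarith
            have hθb : θ < b := by
              rcases hθ.2.lt_or_eq with h | h
              · exact h
              · rw [h] at h3; linarith
            refine hX s (hττ s (by rw [abs_of_pos hs0]; exact hs.2)) θ h3.symm (Or.inl ?_)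
            filter_upwards [Icc_mem_nhds hθa hθb] with x hx
            have := h2 x hx
            show G s θ - θ ≤ G s x - x
            linarith) (show (Icc (0 : ℝ) t ∩ {s : ℝ | ∃ θ ∈ Icc a b, G s θ < θ}).Nonempty from
              ⟨0, ⟨le_rfl, ht0⟩, h1⟩)
    obtain ⟨θ, hθ, h2⟩ := hsub (⟨ht0, le_rfl⟩ : t ∈ Icc 0 t)
    have h3 := hinc 0 t a ht0
    have h4 := (hmono t).monotone hθ.1
    rw [ha] at h3
    linarith [hθ.2]
  · by_cases h1' : ∃ θ ∈ Icc a b, θ < G 0 θ
    · -- negative parameters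
      have hu : IsOpen {s : ℝ | ∃ θ ∈ Icc a b, θ < G (-s) θ} := by
        have : {s : ℝ | ∃ θ ∈ Icc a b, θ < G (-s) θ} = ⋃ θ ∈ Icc a b, {s | θ < G (-s) θ} := by
          ext s; simp
        rw [this]
        exact isOpen_biUnion fun θ _ => isOpen_lt continuous_const ((hcs θ).comp continuous_neg)
      have hv : IsOpen {s : ℝ | ∀ θ ∈ Icc a b, G (-s) θ < θ} := by
        rw [isOpen_iff_eventually]
        intro s hs
        refine isCompact_Icc.eventually_forall_of_forall_eventually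
          (P := fun s θ => G (-s) θ < θ) fun θ hθ => ?_
        exact (isOpen_lt (hc.comp ((continuous_neg.comp continuous_fst).prodMk continuous_snd))
          continuous_snd).mem_nhds (hs θ hθ)
      have hsub := isPreconnected_Icc (a := (0 : ℝ)) (b := t) |>.subset_left_of_subset_union hu hv
        (by
          rw [Set.disjoint_left]
          rintro s ⟨θ, hθ, h2⟩ h3
          exact absurd (h3 θ hθ) (not_lt.2 h2.le)) (by
          intro s hs
          by_cases h2 : ∃ θ ∈ Icc a b, θ < G (-s) θ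
          · exact Or.inl h2
          · right
            push Not at h2
            have hs0 : 0 < s := by
              rcases hs.1.lt_or_eq with h | h
              · exact h
              · exfalso
                obtain ⟨θ, hθ, h3⟩ := h1'
                have h4 := h2 θ hθ
                rw [← h, neg_zero] at h4
                linarith
            intro θ hθ
            rcases (h2 θ hθ).lt_or_eq with h3 | h3
            · exact h3
            · exfalso
              have hea : G (-s) a < a := by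
                have := hinc (-s) 0 a (by linarith)
                rw [ha] at this
                linarith
              have heb : G (-s) b < b := by
                have := hinc (-s) 0 b (by linarith)
                rw [hb] at this
                linarith
              have hθa : a < θ := by
                rcases hθ.1.lt_or_eq with h | h
                · exact h
                · rw [← h] at h3; linarith
              have hθb : θ < b := by
                rcases hθ.2.lt_or_eq with h | h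
                · exact h
                · rw [h] at h3; linarith
              refine hX (-s) (hττ (-s) (by rw [abs_neg, abs_of_pos hs0]; exact hs.2)) θ h3
                (Or.inr ?_)
              filter_upwards [Icc_mem_nhds hθa hθb] with x hx
              have := h2 x hx
              show G (-s) x - x ≤ G (-s) θ - θ
              linarith) (show (Icc (0 : ℝ) t ∩ {s : ℝ | ∃ θ ∈ Icc a b, θ < G (-s) θ}).Nonempty
                from ⟨0, ⟨le_rfl, ht0⟩, by simpa using h1'⟩)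
      obtain ⟨θ, hθ, h2⟩ := hsub (⟨ht0, le_rfl⟩ : t ∈ Icc 0 t)
      have h3 := hinc (-t) 0 b (by linarith)
      have h4 := (hmono (-t)).monotone hθ.2
      rw [hb] at h3
      linarith [hθ.1]
    · -- identity on the interval
      push Not at h1 h1'
      have hid : ∀ θ ∈ Icc a b, G 0 θ = θ := fun θ hθ => le_antisymm (h1' θ hθ) (h1 θ hθ)
      have hmid : (a + b) / 2 ∈ Icc a b := ⟨by linarith, by linarith⟩
      refine hX 0 (hττ 0 (by simpa using ht0)) ((a + b) / 2) (hid _ hmid) (Or.inl ?_)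
      filter_upwards [Icc_mem_nhds (show a < (a + b) / 2 by linarith)
        (show (a + b) / 2 < b by linarith)] with x hx
      show G 0 ((a + b) / 2) - (a + b) / 2 ≤ G 0 x - x
      rw [hid _ hmid, hid x hx]
      linarith

/-- Zeros persist from one parameter to the parameter `0`. -/
theorem zero_persists {G : ℝ → ℝ → ℝ} (hc : Continuous fun q : ℝ × ℝ => G q.1 q.2)
    (hper : ∀ t θ, G t (θ + 2 * Real.pi) = G t θ + 2 * Real.pi)
    {τ : ℝ} (hX : NoTangency G τ) {t₁ θ₁ : ℝ} (ht₁ : |t₁| < τ) (h1 : G t₁ θ₁ = θ₁) :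
    ∃ θ, G 0 θ = θ := by
  have hpi := Real.pi_pos
  have hcs : ∀ θ, Continuous fun s => G s θ := fun θ =>
    hc.comp (continuous_id.prodMk continuous_const)
  -- reduction to one period
  have hperz : ∀ (s θ : ℝ) (k : ℤ), G s (θ + k * (2 * Real.pi)) = G s θ + k * (2 * Real.pi) := by
    intro s θ k
    have hf : Function.Periodic (fun θ => G s θ - θ) (2 * Real.pi) := by
      intro x
      show G s (x + 2 * Real.pi) - (x + 2 * Real.pi) = G s x - x
      rw [hper]
      ring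
    have h2 : G s (θ + k * (2 * Real.pi)) - (θ + k * (2 * Real.pi)) = G s θ - θ :=
      hf.int_mul k θ
    linarith
  have hred : ∀ θ : ℝ, ∃ k : ℤ, θ + k * (2 * Real.pi) ∈ Icc 0 (2 * Real.pi) := by
    intro θ
    obtain ⟨k, hk, -⟩ := existsUnique_add_zsmul_mem_Ico (by linarith : (0 : ℝ) < 2 * Real.pi) θ 0
    refine ⟨k, ?_⟩
    rw [zsmul_eq_mul, zero_add] at hk
    exact ⟨hk.1, hk.2.le⟩
  have hv : ∀ (R : ℝ → ℝ → Prop), IsOpen {q : ℝ × ℝ | R q.1 q.2} →
      IsOpen {s : ℝ | ∀ θ ∈ Icc 0 (2 * Real.pi), R s θ} := by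
    intro R hR
    rw [isOpen_iff_eventually]
    intro s hs
    refine isCompact_Icc.eventually_forall_of_forall_eventually
      (P := fun s θ => R s θ) fun θ hθ => ?_
    exact hR.mem_nhds (hs θ hθ)
  set u : Set ℝ := {s | (∃ θ, G s θ < θ) ∧ ∃ θ, θ < G s θ} with hu
  set v : Set ℝ := {s | ∀ θ ∈ Icc 0 (2 * Real.pi), G s θ < θ} ∪
    {s | ∀ θ ∈ Icc 0 (2 * Real.pi), θ < G s θ} with hvdef
  have huo : IsOpen u := by
    have h2 : u = (⋃ θ, {s | G s θ < θ}) ∩ ⋃ θ, {s | θ < G s θ} := by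
      ext s; simp [hu]
    rw [h2]
    exact (isOpen_iUnion fun θ => isOpen_lt (hcs θ) continuous_const).inter
      (isOpen_iUnion fun θ => isOpen_lt continuous_const (hcs θ))
  have hvo : IsOpen v := (hv (fun s θ => G s θ < θ) (isOpen_lt hc continuous_snd)).union
    (hv (fun s θ => θ < G s θ) (isOpen_lt continuous_snd hc))
  have hdisj : Disjoint u v := by
    rw [Set.disjoint_left]
    rintro s ⟨⟨θ, hθ⟩, ⟨η, hη⟩⟩ (h2 | h2)
    · obtain ⟨k, hk⟩ := hred η
      have h3 := h2 _ hk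
      rw [hperz] at h3
      linarith
    · obtain ⟨k, hk⟩ := hred θ
      have h3 := h2 _ hk
      rw [hperz] at h3
      linarith
  have hcover : ∀ s, |s| < τ → s ∈ u ∪ v := by
    intro s hs
    by_cases hsu : s ∈ u
    · exact Or.inl hsu
    right
    have hsu' : (∀ θ, θ ≤ G s θ) ∨ ∀ θ, G s θ ≤ θ := by
      by_contra hcon
      push Not at hcon
      exact hsu ⟨hcon.1, hcon.2⟩
    rcases hsu' with h2 | h2
    · right
      intro θ _
      rcases (h2 θ).lt_or_eq with h3 | h3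
      · exact h3
      · exfalso
        refine hX s hs θ h3.symm (Or.inl (Filter.Eventually.of_forall fun x => ?_))
        have := h2 x
        show G s θ - θ ≤ G s x - x
        linarith
    · left
      intro θ _
      rcases (h2 θ).lt_or_eq with h3 | h3
      · exact h3
      · exfalso
        refine hX s hs θ h3 (Or.inr (Filter.Eventually.of_forall fun x => ?_))
        have := h2 x
        show G s x - x ≤ G s θ - θ
        linarith
  have hmem : t₁ ∈ u := by
    rcases hcover t₁ ht₁ with h | h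
    · exact h
    · exfalso
      obtain ⟨k, hk⟩ := hred θ₁
      rcases h with h | h
      · have h3 := h _ hk
        rw [hperz, h1] at h3
        exact lt_irrefl _ h3
      · have h3 := h _ hk
        rw [hperz, h1] at h3
        exact lt_irrefl _ h3
  have hsub : Icc (-|t₁|) |t₁| ⊆ u := by
    refine isPreconnected_Icc.subset_left_of_subset_union huo hvo hdisj (fun s hs => ?_)
      ⟨t₁, ⟨neg_abs_le t₁, le_abs_self t₁⟩, hmem⟩
    exact hcover s ((abs_le.2 hs).trans_lt ht₁)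
  obtain ⟨⟨θ, hθ⟩, ⟨η, hη⟩⟩ := hsub (⟨neg_nonpos.2 (abs_nonneg _), abs_nonneg _⟩ :
    (0 : ℝ) ∈ Icc (-|t₁|) |t₁|)
  have hcθ : Continuous fun x => G 0 x - x :=
    (hc.comp (continuous_const.prodMk continuous_id)).sub continuous_id
  obtain ⟨x, hx⟩ := mem_range_of_exists_le_of_exists_ge hcθ
    ⟨θ, (by linarith : G 0 θ - θ ≤ 0)⟩ ⟨η, (by linarith : (0 : ℝ) ≤ G 0 η - η)⟩
  exact ⟨x, by linarith [show G 0 x - x = 0 from hx]⟩

end Family

end Dens

end Pool.Agent.OmegaStability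

end
end

section

/-!
# The periodic points of Omega-stable circle extensions: lifting and separation
-/

open Set Filter Topology Function
open scoped Manifold ContDiff

noncomputable section

namespace Pool.Agent.OmegaStability

namespace Dens

variable {m : ℕ} {B M : Type*} [MetricSpace B] [MetricSpace M] [CompactSpace M]
  [ChartedSpace (EuclideanSpace ℝ (Fin m)) M]
  [IsManifold 𝓘(ℝ, EuclideanSpace ℝ (Fin m)) ∞ M] [MulAction Circle M]

omit [CompactSpace M] [ChartedSpace (EuclideanSpace ℝ (Fin m)) M]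
  [IsManifold 𝓘(ℝ, EuclideanSpace ℝ (Fin m)) ∞ M] [MetricSpace M] in
theorem iterate_rot_zero (f : M → M) (n : ℕ) :
    (fun y => Circle.exp (0 : ℝ) • f y)^[n] = f^[n] := by
  have : (fun y => Circle.exp (0 : ℝ) • f y) = f := by
    funext y
    rw [Circle.exp_zero, one_smul]
  rw [this]

/-- The return maps of the circles of an Omega-stable circle extension, composed with small
rotations, have no tangencies with the identity. -/
theorem exists_noTangency (ha : SmoothCircleAction (EuclideanSpace ℝ (Fin m)) M)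
    (hfree : ∀ (z : Circle) (y : M), z • y = y → z = 1) {r : ℕ∞} (hr : 1 ≤ r)
    (f : Diffeo (EuclideanSpace ℝ (Fin m)) M r) (hst : OmegaStable f) :
    ∃ τ : ℝ, 0 < τ ∧ ∀ (e : M) (n : ℕ) (c : ℝ) (G : ℝ → ℝ → ℝ), 0 < n → RetMap f e n c G →
      NoTangency G τ := by
  have hst' : OmegaStab.OmegaStable f := hst
  obtain ⟨N, hN, hfN, hNconj⟩ := hst'
  have hconj : OmegaStab.ConjClass N := OmegaStab.conjClass_of_conj hNconj
  have hhyp := OmegaStab.hypAt_of_conjClass hr hN hconj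
  obtain ⟨h, hfam, hh⟩ := exists_rot ha r
  have hev : ∀ᶠ t in 𝓝 (0 : ℝ), f.trans (h t) ∈ N := by
    let _ := OmegaStab.crTopology m M r
    exact (hfam.tendsto f).eventually (IsOpen.mem_nhds hN hfN)
  obtain ⟨τ, hτ, hball⟩ := Metric.eventually_nhds_iff.1 hev
  refine ⟨τ, hτ, fun e n c G hn hG t ht θ hθ => ?_⟩
  have hfun : ⇑(f.trans (h t)) = fun y => Circle.exp t • f y := by
    funext y
    exact hh t (f y)
  have hmap : ∀ η : ℝ, (f.trans (h t))^[n] (Circle.exp η • e) = Circle.exp (G t η) • e := by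
    intro η
    rw [hfun]
    exact hG.map t η
  refine crossing hr ha hfree (f.trans (h t)) hn
    (hG.cont.comp (continuous_const.prodMk continuous_id)) hmap hθ ?_
  refine hhyp _ (hball (by simpa using ht)) _ ⟨n, hn, ?_⟩
  show (f.trans (h t))^[n] (Circle.exp θ • e) = _
  rw [hmap, hθ]

theorem lift_main {π : M → B} (hb : FreeCircleAction (EuclideanSpace ℝ (Fin m)) π) {r : ℕ∞}
    (hr : 1 ≤ r) {A : B → B} (f : Diffeo (EuclideanSpace ℝ (Fin m)) M r)
    (hcov : ∀ y, π (f y) = A (π y)) (hcirc : PreservesOrientedCircles f)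
    (hst : OmegaStable f) : π '' periodicPts f = periodicPts A := by
  have hact : Continuous fun p : Circle × M => p.1 • p.2 := hb.smooth_action.continuous
  have hit : ∀ (j : ℕ) (y : M), π (f^[j] y) = A^[j] (π y) := by
    intro j y
    induction j with
    | zero => rfl
    | succ j ih => rw [iterate_succ_apply', hcov, ih, iterate_succ_apply']
  apply Subset.antisymm
  · rintro _ ⟨y, ⟨n, hn, hy⟩, rfl⟩
    refine ⟨n, hn, ?_⟩
    have hy' : f^[n] y = y := hy
    show A^[n] (π y) = π y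
    rw [← hit, hy']
  · rintro p ⟨n, hn, hp⟩
    have hp' : A^[n] p = p := hp
    obtain ⟨τ, hτ, hX⟩ := exists_noTangency hb.smooth_action hb.free hr f hst
    obtain ⟨δ, hδ, hrot⟩ := exists_small_rotation hact hb.free (ε := τ / 2) (by positivity)
    obtain ⟨e₀, he₀⟩ := hb.surjective p
    have hAj : ∀ j, A^[j * n] p = p := by
      intro j
      induction j with
      | zero => simp
      | succ j ih => rw [Nat.succ_mul, iterate_add_apply, hp', ih]
    obtain ⟨a, -, φ, hφ, hlim⟩ := isCompact_univ.tendsto_subseq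
      (x := fun j : ℕ => f^[j * n] e₀) (fun _ => mem_univ _)
    have hcau := hlim.cauchySeq
    obtain ⟨K, hK⟩ := Metric.cauchySeq_iff.1 hcau δ hδ
    have h1 := hK (K + 1) (by omega) K le_rfl
    set i := φ K with hi
    obtain ⟨l, hl0, hl⟩ : ∃ l, 0 < l ∧ φ (K + 1) = i + l := by
      have h2 : φ K < φ (K + 1) := hφ (Nat.lt_succ_self K)
      exact ⟨φ (K + 1) - φ K, by omega, by omega⟩
    set e := f^[i * n] e₀ with he
    have hln : 0 < l * n := Nat.mul_pos hl0 hn
    have he2 : f^[φ (K + 1) * n] e₀ = f^[l * n] e := by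
      rw [he, ← iterate_add_apply, hl, Nat.add_mul, Nat.add_comm]
    have hπe : π e = p := by rw [he, hit, he₀, hAj]
    have hπe2 : π (f^[l * n] e) = p := by rw [hit, hπe, hAj]
    obtain ⟨z, hz⟩ := (hb.fibre e (f^[l * n] e)).1 (by rw [hπe, hπe2])
    obtain ⟨c, hc, hcz⟩ := hrot z e (by
      rw [hz, ← he2]
      exact h1)
    obtain ⟨G, hG⟩ := exists_retMap (f := (⇑f : M → M)) hb.free f.injective hcirc hln (e := e) (c := c)
      (by rw [hcz, hz])
    have hNT := hX e (l * n) c G hln hG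
    obtain ⟨hc1, hc2⟩ := abs_le.1 hc
    have hup : 0 ≤ G (τ / 2) 0 := by
      have := hG.incr 0 (τ / 2) 0 (by positivity)
      rw [hG.base] at this
      linarith
    have hdn : G (-(τ / 2)) 0 ≤ 0 := by
      have := hG.incr (-(τ / 2)) 0 0 (by linarith)
      rw [hG.base] at this
      linarith
    have hcs : Continuous fun s => G s 0 := hG.cont.comp (continuous_id.prodMk continuous_const)
    obtain ⟨t₁, ht₁, hG1⟩ := intermediate_value_Icc (show -(τ / 2) ≤ τ / 2 by linarith)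
      hcs.continuousOn ⟨hdn, hup⟩
    obtain ⟨θ, hθ⟩ := zero_persists hG.cont hG.per hNT (t₁ := t₁) (θ₁ := 0)
      ((abs_le.2 ht₁).trans_lt (by linarith)) hG1
    refine ⟨Circle.exp θ • e, ⟨l * n, hln, ?_⟩, ?_⟩
    · have h2 := hG.map 0 θ
      rw [iterate_rot_zero, hθ] at h2
      exact h2
    · rw [← hπe]
      exact ((hb.fibre _ _).2 ⟨_, rfl⟩).symm

theorem separation_main {π : M → B} (hb : FreeCircleAction (EuclideanSpace ℝ (Fin m)) π) {r : ℕ∞}
    (hr : 1 ≤ r) (f : Diffeo (EuclideanSpace ℝ (Fin m)) M r)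
    (hcirc : PreservesOrientedCircles f) (hst : OmegaStable f) :
    ∃ ρ > 0, ∀ y ∈ periodicPts f, ∀ y' ∈ periodicPts f, π y = π y' → y ≠ y' →
      ρ ≤ dist y y' := by
  have hact : Continuous fun p : Circle × M => p.1 • p.2 := hb.smooth_action.continuous
  have hpi := Real.pi_gt_three
  obtain ⟨τ, hτ, hX⟩ := exists_noTangency hb.smooth_action hb.free hr f hst
  obtain ⟨δ, hδ, hrot⟩ := exists_small_rotation hact hb.free (ε := min (τ / 2) 1) (by positivity)
  -- ordered pairs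
  have key : ∀ (y : M) (c : ℝ), 0 < c → c ≤ min (τ / 2) 1 → y ∈ periodicPts f →
      Circle.exp c • y ∈ periodicPts f → False := by
    rintro y c hc0 hc ⟨n, hn, hy⟩ ⟨n', hn', hy'⟩
    have hc1 : c ≤ τ / 2 := hc.trans (min_le_left _ _)
    have hc2 : c ≤ 1 := hc.trans (min_le_right _ _)
    have h1 : f^[n * n'] y = y := (hy.mul_const n')
    have h2 : f^[n * n'] (Circle.exp c • y) = Circle.exp c • y := (hy'.const_mul n)
    have hnn : 0 < n * n' := Nat.mul_pos hn hn'
    obtain ⟨G, hG⟩ := exists_retMap (f := (⇑f : M → M)) hb.free f.injective hcirc hnn (e := y) (c := 0)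
      (by rw [h1, Circle.exp_zero, one_smul])
    have hNT := hX y (n * n') 0 G hnn hG
    have h3 := hG.map 0 c
    rw [iterate_rot_zero, h2] at h3
    have h4 : Circle.exp (G 0 c - c) = 1 := by
      apply hb.free _ y
      rw [sub_eq_add_neg, Circle.exp_add, Circle.exp_neg, mul_comm, mul_smul, ← h3,
        inv_smul_smul]
    obtain ⟨k, hk⟩ := exp_eq_one_int h4
    have h5 : 0 < G 0 c := by
      have := hG.mono 0 hc0
      rwa [hG.base] at this
    have h6 : G 0 c < 2 * Real.pi := by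
      have h7 := hG.mono 0 (show c < 0 + 2 * Real.pi by linarith)
      rw [hG.per, hG.base, zero_add] at h7
      exact h7
    have h7 : k = 0 := by
      have h8 : (k : ℝ) < 1 := by
        by_contra h
        have : 2 * Real.pi * (k : ℝ) ≥ 2 * Real.pi := by nlinarith [not_lt.1 h]
        linarith
      have h9 : (-1 : ℝ) < k := by
        by_contra h
        have : 2 * Real.pi * (k : ℝ) ≤ -(2 * Real.pi) := by nlinarith [not_lt.1 h]
        linarith
      have h10 : k < 1 := by exact_mod_cast h8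
      have h11 : -1 < k := by exact_mod_cast h9
      omega
    rw [h7] at hk
    have h8 : G 0 c = c := by
      push_cast at hk
      linarith
    have h9 := separated hG.cont hG.mono hG.incr hNT hc0 hG.base h8 (t := c)
      (by rw [abs_of_pos hc0]; linarith) hc0.le
    linarith
  refine ⟨δ, hδ, fun y hy y' hy' hπ hne => ?_⟩
  by_contra hcon
  obtain ⟨z, hz⟩ := (hb.fibre y y').1 hπ
  obtain ⟨c, hc, hcz⟩ := hrot z y (by
    rw [hz, dist_comm]
    exact not_le.1 hcon)
  rw [← hcz] at hz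
  rcases lt_trichotomy c 0 with h | h | h
  · have h1 : y = Circle.exp (-c) • y' := by
      rw [← hz, Circle.exp_neg, inv_smul_smul]
    rw [abs_of_neg h] at hc
    exact key y' (-c) (by linarith) hc hy' (h1 ▸ hy)
  · rw [h, Circle.exp_zero, one_smul] at hz
    exact hne hz
  · rw [abs_of_pos h] at hc
    exact key y c h hc hy (hz ▸ hy')

end Dens

end Pool.Agent.OmegaStability

end
end

section

/-!
# The derivative along the circles
-/

open Set Filter Topology Function
open scoped Manifold ContDiff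

noncomputable section

namespace Pool.Agent.OmegaStability

namespace Dens

set_option linter.unusedSectionVars false

variable {m : ℕ} {M : Type*} [MetricSpace M] [ChartedSpace (EuclideanSpace ℝ (Fin m)) M]
  [IsManifold 𝓘(ℝ, EuclideanSpace ℝ (Fin m)) ∞ M] [MulAction Circle M]

theorem continuous_vgen (ha : SmoothCircleAction (EuclideanSpace ℝ (Fin m)) M) :
    Continuous fun y : M => (⟨y, vgen m y⟩ : TangentBundle (𝓡 m) M) := by
  have h1 : Continuous (tangentMap (𝓘(ℝ, ℝ).prod (𝓡 m)) (𝓡 m)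
      (fun p : ℝ × M => Circle.exp p.1 • p.2)) :=
    (flow_smooth ha).continuous_tangentMap (by simp)
  have h2 : Continuous (fun y : M => ((⟨(0 : ℝ), (1 : ℝ)⟩ : TangentBundle 𝓘(ℝ, ℝ) ℝ),
      (⟨y, 0⟩ : TangentBundle (𝓡 m) M))) := by
    refine continuous_const.prodMk ?_
    exact (Bundle.contMDiff_zeroSection (IB := 𝓡 m)
      (F := EuclideanSpace ℝ (Fin m)) ℝ
      (TangentSpace (𝓡 m) : M → Type _) (n := 0)).continuous
  have h3 := (contMDiff_equivTangentBundleProd_symm (I := 𝓘(ℝ, ℝ)) (I' := 𝓡 m)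
    (M := ℝ) (M' := M) (n := 0)).continuous
  have h4 := (h1.comp h3).comp h2
  refine h4.congr fun y => ?_
  have h0 : Circle.exp 0 • y = y := by simp
  have h5 : HasMFDerivAt 𝓘(ℝ, ℝ) (𝓘(ℝ, ℝ).prod (𝓡 m)) (fun s : ℝ => (s, y)) (0 : ℝ)
      ((ContinuousLinearMap.id ℝ ℝ).prod (0 : ℝ →L[ℝ] EuclideanSpace ℝ (Fin m))) :=
    (hasMFDerivAt_id (0 : ℝ)).prodMk (hasMFDerivAt_const y (0 : ℝ))
  have h6 : HasMFDerivAt (𝓘(ℝ, ℝ).prod (𝓡 m)) (𝓡 m)
      (fun p : ℝ × M => Circle.exp p.1 • p.2) ((0 : ℝ), y)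
      (mfderiv (𝓘(ℝ, ℝ).prod (𝓡 m)) (𝓡 m)
        (fun p : ℝ × M => Circle.exp p.1 • p.2) ((0 : ℝ), y)) :=
    ((flow_smooth ha).mdifferentiableAt (by simp)).hasMFDerivAt
  have h7 := HasMFDerivAt.comp (0 : ℝ) h6 h5
  have h8 : mfderiv (𝓘(ℝ, ℝ).prod (𝓡 m)) (𝓡 m)
        (fun p : ℝ × M => Circle.exp p.1 • p.2) ((0 : ℝ), y) ((1 : ℝ), 0) = vgen m y :=
    (DFunLike.congr_fun h7.mfderiv (1 : ℝ)).symm
  exact Bundle.TotalSpace.ext h0 (heq_of_eq h8)

theorem mfderiv_lift (ha : SmoothCircleAction (EuclideanSpace ℝ (Fin m)) M)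
    (g : M → M) (y y' : M) (L : ℝ → ℝ) (θ D : ℝ)
    (hg : MDifferentiableAt (𝓡 m) (𝓡 m) g (Circle.exp θ • y))
    (hL : HasDerivAt L D θ)
    (hf : ∀ η, g (Circle.exp η • y) = Circle.exp (L η) • y') :
    mfderiv (𝓡 m) (𝓡 m) g (Circle.exp θ • y) (vgen m (Circle.exp θ • y)) =
      D • vgen m (Circle.exp (L θ) • y') := by
  have h1 : g ∘ (fun θ : ℝ => Circle.exp θ • y) = (fun θ : ℝ => Circle.exp θ • y') ∘ L :=
    funext hf
  have h2 := HasMFDerivAt.comp θ hg.hasMFDerivAt (curve_mdiff ha y θ).hasMFDerivAt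
  have h3 := HasMFDerivAt.comp θ (curve_mdiff ha y' (L θ)).hasMFDerivAt
    hL.hasFDerivAt.hasMFDerivAt
  rw [← mfderiv_curve ha y θ, ← mfderiv_curve ha y' (L θ)]
  rw [h1] at h2
  have h4 := h2.mfderiv.symm.trans h3.mfderiv
  have h5 := DFunLike.congr_fun h4 (1 : ℝ)
  refine h5.trans ?_
  have key : ∀ A : ℝ →L[ℝ] EuclideanSpace ℝ (Fin m),
      (A.comp (ContinuousLinearMap.toSpanSingleton ℝ D)) (1 : ℝ) = D • A 1 := by
    intro A
    rw [ContinuousLinearMap.comp_apply, ContinuousLinearMap.toSpanSingleton_apply, map_smul,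
      one_smul]
    have : A D = A (D • (1 : ℝ)) := by simp
    rw [this, map_smul]
  exact key _


/-- A lift is differentiable. -/
theorem exists_hasDerivAt (ha : SmoothCircleAction (EuclideanSpace ℝ (Fin m)) M)
    (hfree : ∀ (z : Circle) (y : M), z • y = y → z = 1) {g : M → M}
    (hg : MDifferentiable (𝓡 m) (𝓡 m) g) {e e' : M} {L : ℝ → ℝ} (hLc : Continuous L)
    (hL : ∀ θ : ℝ, g (Circle.exp θ • e) = Circle.exp (L θ) • e') (θ₀ : ℝ) :
    ∃ d : ℝ, HasDerivAt L d θ₀ := by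
  set y₀ : M := Circle.exp (L θ₀) • e' with hy₀
  set φ := extChartAt (𝓡 m) y₀ with hφ
  set c : ℝ → EuclideanSpace ℝ (Fin m) := fun θ => φ (Circle.exp θ • e') with hc
  have hcs : ContMDiffAt 𝓘(ℝ, ℝ) 𝓘(ℝ, EuclideanSpace ℝ (Fin m)) ∞ c (L θ₀) := by
    have h1 : ContMDiffAt (𝓡 m) 𝓘(ℝ, EuclideanSpace ℝ (Fin m)) ∞ φ (Circle.exp (L θ₀) • e') :=
      contMDiffAt_extChartAt
    exact ContMDiffAt.comp (L θ₀) h1 (curve_smooth ha e').contMDiffAt
  have hcd : ContDiffAt ℝ ∞ c (L θ₀) := contMDiffAt_iff_contDiffAt.1 hcs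
  have hcstrict : HasStrictFDerivAt c (fderiv ℝ c (L θ₀)) (L θ₀) :=
    hcd.hasStrictFDerivAt (by simp)
  set w : EuclideanSpace ℝ (Fin m) := fderiv ℝ c (L θ₀) 1 with hw
  have hcD : HasStrictDerivAt c w (L θ₀) := hcstrict.hasStrictDerivAt
  have hw0 : w ≠ 0 := by
    have h1 : w = vgen m y₀ := by
      rw [hy₀, ← mfderiv_curve ha e' (L θ₀), (curve_mdiff ha e' (L θ₀)).mfderiv]
      simp only [mfld_simps, fderivWithin_univ]
      rfl
    rw [h1]
    exact gen_ne_zero ha hfree y₀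
  -- differentiability of the image curve in the chart
  obtain ⟨v, hv⟩ : ∃ v, HasDerivAt (fun θ => c (L θ)) v θ₀ := by
    have h1 : MDifferentiableAt 𝓘(ℝ, ℝ) (𝓡 m) (fun θ : ℝ => g (Circle.exp θ • e)) θ₀ :=
      MDifferentiableAt.comp θ₀ (hg _) (curve_mdiff ha e θ₀)
    have h2 : MDifferentiableAt (𝓡 m) 𝓘(ℝ, EuclideanSpace ℝ (Fin m)) φ
        (g (Circle.exp θ₀ • e)) := by
      rw [hL]
      exact mdifferentiableAt_extChartAt (by simp [hy₀])
    have h3 : MDifferentiableAt 𝓘(ℝ, ℝ) 𝓘(ℝ, EuclideanSpace ℝ (Fin m))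
        (fun θ : ℝ => φ (g (Circle.exp θ • e))) θ₀ := MDifferentiableAt.comp θ₀ h2 h1
    have h4 : (fun θ : ℝ => φ (g (Circle.exp θ • e))) = fun θ => c (L θ) := by
      funext θ
      rw [hL]
    rw [h4] at h3
    exact ⟨_, (mdifferentiableAt_iff_differentiableAt.1 h3).hasDerivAt⟩
  -- a coordinate
  obtain ⟨ℓ, hℓ⟩ := SeparatingDual.exists_eq_one (R := ℝ) hw0
  have hψ : HasStrictDerivAt (fun θ => ℓ (c θ)) 1 (L θ₀) := by
    have h1 := ℓ.hasStrictFDerivAt (x := c (L θ₀)) |>.comp_hasStrictDerivAt (L θ₀) hcD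
    rw [hℓ] at h1
    exact h1
  have hψG : HasDerivAt (fun θ => ℓ (c (L θ))) (ℓ v) θ₀ :=
    ℓ.hasFDerivAt.comp_hasDerivAt θ₀ hv
  set inv := HasStrictDerivAt.localInverse (fun θ => ℓ (c θ)) 1 (L θ₀) hψ one_ne_zero with hinv
  have hinvD : HasStrictDerivAt inv (1 : ℝ)⁻¹ (ℓ (c (L θ₀))) := hψ.to_localInverse one_ne_zero
  have hleft : ∀ᶠ x in 𝓝 (L θ₀), inv (ℓ (c x)) = x := hψ.eventually_left_inverse one_ne_zero
  refine ⟨ℓ v, ?_⟩
  have h1 : HasDerivAt (inv ∘ fun θ => ℓ (c (L θ))) ((1 : ℝ)⁻¹ * ℓ v) θ₀ :=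
    HasDerivAt.comp θ₀ hinvD.hasDerivAt hψG
  rw [inv_one, one_mul] at h1
  refine h1.congr_of_eventuallyEq ?_
  filter_upwards [(hLc.tendsto θ₀).eventually hleft] with θ hθ
  exact hθ.symm

theorem rnorm_smul' (γ : RMetric (EuclideanSpace ℝ (Fin m)) M) (x : M) (v : TangentSpace (𝓡 m) x)
    (c : ℝ) : rnorm γ x (c • v) = |c| * rnorm γ x v := by
  unfold rnorm
  simp only [map_smul, smul_apply, smul_eq_mul]
  rw [← mul_assoc, Real.sqrt_mul (mul_self_nonneg c), Real.sqrt_mul_self_eq_abs]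

/-- The derivative along the circles of a `C^1` diffeomorphism which preserves oriented
circles. -/
theorem exists_fibreDeriv [CompactSpace M] (ha : SmoothCircleAction (EuclideanSpace ℝ (Fin m)) M)
    (hfree : ∀ (z : Circle) (y : M), z • y = y → z = 1) {r : ℕ∞} (hr : 1 ≤ r)
    (f : OmegaStab.Dyn m M r) :
    ∃ Dm : M → ℝ, Continuous Dm ∧ ∀ (e e' : M) (L : ℝ → ℝ), Continuous L → Monotone L →
      (∀ θ : ℝ, f (Circle.exp θ • e) = Circle.exp (L θ) • e') →
      ∀ θ, HasDerivAt L (Dm (Circle.exp θ • e)) θ := by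
  obtain ⟨γ⟩ := OmegaStab.exists_metric m M
  have hfd : MDifferentiable (𝓡 m) (𝓡 m) f := OmegaStab.FinHyp.mdiff hr f
  have hgp : ∀ y : M, 0 < rnorm γ y (vgen m y) := fun y =>
    Real.sqrt_pos.2 (γ.pos y _ (gen_ne_zero ha hfree y))
  refine ⟨fun y => rnorm γ (f y) (mfderiv (𝓡 m) (𝓡 m) f y (vgen m y)) /
    rnorm γ (f y) (vgen m (f y)), ?_, ?_⟩
  · have h1 : Continuous fun y : M =>
        rnorm γ (f y) (mfderiv (𝓡 m) (𝓡 m) f y (vgen m y)) :=
      (continuous_rnorm γ).comp ((f.contMDiff.continuous_tangentMap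
        (by exact_mod_cast hr)).comp (continuous_vgen ha))
    have h2 : Continuous fun y : M => rnorm γ (f y) (vgen m (f y)) :=
      ((continuous_rnorm γ).comp (continuous_vgen ha)).comp f.continuous
    exact h1.div h2 fun y => (hgp _).ne'
  · intro e e' L hLc hLm hL θ
    obtain ⟨d, hd⟩ := exists_hasDerivAt ha hfree hfd hLc hL θ
    have hd0 : 0 ≤ d := by
      have := hd.deriv ▸ hLm.deriv_nonneg (x := θ)
      exact this
    have h1 := mfderiv_lift ha f e e' L θ d (hfd _) hd hL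
    convert hd using 1
    rw [div_eq_iff (hgp _).ne', h1]
    have h2 : rnorm γ (f (Circle.exp θ • e)) (d • vgen m (Circle.exp (L θ) • e')) =
        |d| * rnorm γ (f (Circle.exp θ • e)) (vgen m (Circle.exp (L θ) • e')) :=
      rnorm_smul' _ _ _ _
    refine h2.trans ?_
    rw [abs_of_nonneg hd0]
    congr 1
    exact congrArg (fun y : M => rnorm γ (f (Circle.exp θ • e))
      (vgen m y : EuclideanSpace ℝ (Fin m))) (hL θ).symm

end Dens

end Pool.Agent.OmegaStability

end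
end

section

/-!
# Monotone families without tangencies: zeros, their separation and their motion
-/

open Set Filter Topology Function

noncomputable section

namespace Pool.Agent.OmegaStability

namespace Dens

/-- A family of lifts of circle homeomorphisms which is increasing in the parameter. -/
structure MonoFam (G : ℝ → ℝ → ℝ) : Prop where
  cont : Continuous fun q : ℝ × ℝ => G q.1 q.2
  mono : ∀ t, StrictMono (G t)
  per : ∀ t θ, G t (θ + 2 * Real.pi) = G t θ + 2 * Real.pi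
  incr : ∀ t t' θ, t ≤ t' → G t θ + (t' - t) ≤ G t' θ

theorem RetMap.monoFam {M : Type*} [MulAction Circle M] {f : M → M} {e : M} {n : ℕ} {c : ℝ}
    {G : ℝ → ℝ → ℝ} (h : RetMap f e n c G) : MonoFam G := ⟨h.cont, h.mono, h.per, h.incr⟩

namespace MonoFam

variable {G : ℝ → ℝ → ℝ}

theorem cont_left (h : MonoFam G) (θ : ℝ) : Continuous fun s => G s θ :=
  h.cont.comp (continuous_id.prodMk continuous_const)

theorem cont_right (h : MonoFam G) (s : ℝ) : Continuous (G s) :=
  h.cont.comp (continuous_const.prodMk continuous_id)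

theorem per_int (h : MonoFam G) (s θ : ℝ) (k : ℤ) :
    G s (θ + k * (2 * Real.pi)) = G s θ + k * (2 * Real.pi) := by
  have hf : Function.Periodic (fun θ => G s θ - θ) (2 * Real.pi) := by
    intro x
    show G s (x + 2 * Real.pi) - (x + 2 * Real.pi) = G s x - x
    rw [h.per]
    ring
  have h2 : G s (θ + k * (2 * Real.pi)) - (θ + k * (2 * Real.pi)) = G s θ - θ :=
    hf.int_mul k θ
  linarith

theorem shift (h : MonoFam G) (s : ℝ) : MonoFam (fun t => G (s + t)) where
  cont := h.cont.comp ((continuous_const.add continuous_fst).prodMk continuous_snd)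
  mono t := h.mono _
  per t := h.per _
  incr t t' θ htt := by
    have := h.incr (s + t) (s + t') θ (by linarith)
    have h2 : s + t' - (s + t) = t' - t := by ring
    rwa [h2] at this

end MonoFam

/-- Negative values persist as the parameter increases. -/
theorem neg_persists {G : ℝ → ℝ → ℝ} (h : MonoFam G) {τ : ℝ} (hX : NoTangency G τ)
    {u v s₀ s₁ : ℝ} (h0 : |s₀| < τ) (h1 : |s₁| < τ) (h01 : s₀ ≤ s₁)
    (hu : ∀ s ∈ Icc s₀ s₁, u < G s u) (hv : ∀ s ∈ Icc s₀ s₁, v < G s v)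
    (hw : ∃ w ∈ Icc u v, G s₀ w < w) : ∃ w ∈ Icc u v, G s₁ w < w := by
  have hsτ : ∀ s ∈ Icc s₀ s₁, |s| < τ := by
    intro s hs
    rw [abs_lt] at h0 h1 ⊢
    exact ⟨by linarith [hs.1], by linarith [hs.2]⟩
  have hU : IsOpen {s : ℝ | ∃ θ ∈ Icc u v, G s θ < θ} := by
    have : {s : ℝ | ∃ θ ∈ Icc u v, G s θ < θ} = ⋃ θ ∈ Icc u v, {s | G s θ < θ} := by
      ext s; simp
    rw [this]
    exact isOpen_biUnion fun θ _ => isOpen_lt (h.cont_left θ) continuous_const
  have hV : IsOpen {s : ℝ | ∀ θ ∈ Icc u v, θ < G s θ} := by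
    rw [isOpen_iff_eventually]
    intro s hs
    refine isCompact_Icc.eventually_forall_of_forall_eventually
      (P := fun s θ => θ < G s θ) fun θ hθ => ?_
    exact (isOpen_lt continuous_snd h.cont).mem_nhds (hs θ hθ)
  have hsub := isPreconnected_Icc (a := s₀) (b := s₁) |>.subset_left_of_subset_union hU hV
    (by
      rw [Set.disjoint_left]
      rintro s ⟨θ, hθ, h2⟩ h3
      exact absurd (h3 θ hθ) (not_lt.2 h2.le)) (by
      intro s hs
      by_cases h2 : ∃ θ ∈ Icc u v, G s θ < θ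
      · exact Or.inl h2
      · right
        push Not at h2
        intro θ hθ
        rcases (h2 θ hθ).lt_or_eq with h3 | h3
        · exact h3
        · exfalso
          have hθa : u < θ := by
            rcases hθ.1.lt_or_eq with h | h
            · exact h
            · have := hu s hs
              rw [← h] at h3; linarith
          have hθb : θ < v := by
            rcases hθ.2.lt_or_eq with h | h
            · exact h
            · have := hv s hs
              rw [h] at h3; linarith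
          refine hX s (hsτ s hs) θ h3.symm (Or.inl ?_)
          filter_upwards [Icc_mem_nhds hθa hθb] with x hx
          have := h2 x hx
          show G s θ - θ ≤ G s x - x
          linarith) (show (Icc s₀ s₁ ∩ {s : ℝ | ∃ θ ∈ Icc u v, G s θ < θ}).Nonempty from
            ⟨s₀, ⟨le_rfl, h01⟩, hw⟩)
  exact hsub (⟨h01, le_rfl⟩ : s₁ ∈ Icc s₀ s₁)

/-- Positive values persist as the parameter decreases. -/
theorem pos_persists {G : ℝ → ℝ → ℝ} (h : MonoFam G) {τ : ℝ} (hX : NoTangency G τ)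
    {u v s₀ s₁ : ℝ} (h0 : |s₀| < τ) (h1 : |s₁| < τ) (h01 : s₁ ≤ s₀)
    (hu : ∀ s ∈ Icc s₁ s₀, G s u < u) (hv : ∀ s ∈ Icc s₁ s₀, G s v < v)
    (hw : ∃ w ∈ Icc u v, w < G s₀ w) : ∃ w ∈ Icc u v, w < G s₁ w := by
  have hsτ : ∀ s ∈ Icc s₁ s₀, |s| < τ := by
    intro s hs
    rw [abs_lt] at h0 h1 ⊢
    exact ⟨by linarith [hs.1], by linarith [hs.2]⟩
  have hU : IsOpen {s : ℝ | ∃ θ ∈ Icc u v, θ < G s θ} := by
    have : {s : ℝ | ∃ θ ∈ Icc u v, θ < G s θ} = ⋃ θ ∈ Icc u v, {s | θ < G s θ} := by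
      ext s; simp
    rw [this]
    exact isOpen_biUnion fun θ _ => isOpen_lt continuous_const (h.cont_left θ)
  have hV : IsOpen {s : ℝ | ∀ θ ∈ Icc u v, G s θ < θ} := by
    rw [isOpen_iff_eventually]
    intro s hs
    refine isCompact_Icc.eventually_forall_of_forall_eventually
      (P := fun s θ => G s θ < θ) fun θ hθ => ?_
    exact (isOpen_lt h.cont continuous_snd).mem_nhds (hs θ hθ)
  have hsub := isPreconnected_Icc (a := s₁) (b := s₀) |>.subset_left_of_subset_union hU hV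
    (by
      rw [Set.disjoint_left]
      rintro s ⟨θ, hθ, h2⟩ h3
      exact absurd (h3 θ hθ) (not_lt.2 h2.le)) (by
      intro s hs
      by_cases h2 : ∃ θ ∈ Icc u v, θ < G s θ
      · exact Or.inl h2
      · right
        push Not at h2
        intro θ hθ
        rcases (h2 θ hθ).lt_or_eq with h3 | h3
        · exact h3
        · exfalso
          have hθa : u < θ := by
            rcases hθ.1.lt_or_eq with h | h
            · exact h
            · have := hu s hs
              rw [← h] at h3; linarith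
          have hθb : θ < v := by
            rcases hθ.2.lt_or_eq with h | h
            · exact h
            · have := hv s hs
              rw [h] at h3; linarith
          refine hX s (hsτ s hs) θ h3 (Or.inr ?_)
          filter_upwards [Icc_mem_nhds hθa hθb] with x hx
          have := h2 x hx
          show G s x - x ≤ G s θ - θ
          linarith) (show (Icc s₁ s₀ ∩ {s : ℝ | ∃ θ ∈ Icc u v, θ < G s θ}).Nonempty from
            ⟨s₀, ⟨h01, le_rfl⟩, hw⟩)
  exact hsub (⟨le_rfl, h01⟩ : s₁ ∈ Icc s₁ s₀)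

/-- Two zeros at the same parameter are far apart. -/
theorem separated_at {G : ℝ → ℝ → ℝ} (h : MonoFam G) {τ : ℝ} (hX : NoTangency G τ) {s a b : ℝ}
    (hs : |s| < τ) (hab : a < b) (ha : G s a = a) (hb : G s b = b) : τ - |s| ≤ b - a := by
  have hX' : NoTangency (fun t => G (s + t)) (τ - |s|) := by
    intro t ht θ hθ
    exact hX (s + t) (by have := abs_add_le s t; linarith) θ hθ
  have h' := h.shift s
  by_contra hcon
  have h1 : b - a < τ - |s| := not_le.1 hcon
  have h2 := separated h'.cont h'.mono h'.incr hX' (t := b - a) hab (by simpa using ha)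
    (by simpa using hb) (by rw [abs_of_pos (by linarith)]; exact h1) (by linarith)
  exact lt_irrefl _ h2

/-- Zeros exist at all parameters. -/
theorem exists_zero {G : ℝ → ℝ → ℝ} (h : MonoFam G) {τ : ℝ} (hX : NoTangency G τ) {t₁ θ₁ : ℝ}
    (ht₁ : |t₁| < τ) (h1 : G t₁ θ₁ = θ₁) (s : ℝ) (hs : |s| < τ) : ∃ θ, G s θ = θ := by
  have hpi := Real.pi_pos
  -- negative and positive values at `t₁`
  by_contra hcon
  push Not at hcon
  -- constant sign at `s`
  have hsign : (∀ θ, G s θ < θ) ∨ ∀ θ, θ < G s θ := by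
    by_contra hc
    push Not at hc
    obtain ⟨⟨a, ha⟩, ⟨b, hb⟩⟩ := hc
    have hcθ : Continuous fun x => G s x - x := (h.cont_right s).sub continuous_id
    obtain ⟨x, hx⟩ := mem_range_of_exists_le_of_exists_ge hcθ
      ⟨b, (by linarith : G s b - b ≤ 0)⟩ ⟨a, (by linarith : (0 : ℝ) ≤ G s a - a)⟩
    exact hcon x (by linarith [show G s x - x = 0 from hx])
  have hz : ∀ k : ℤ, G t₁ (θ₁ + k * (2 * Real.pi)) = θ₁ + k * (2 * Real.pi) := by
    intro k
    rw [h.per_int, h1]
  have hz1 : G t₁ (θ₁ + 2 * Real.pi) = θ₁ + 2 * Real.pi := by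
    have := hz 1
    simpa using this
  have hτ : 0 < τ := (abs_nonneg _).trans_lt ht₁
  -- signs near the zero at `t₁`
  have hn : ∃ w ∈ Icc θ₁ (θ₁ + 2 * Real.pi), G t₁ w < w := by
    by_contra hc
    push Not at hc
    refine hX t₁ ht₁ (θ₁ + 2 * Real.pi) hz1 (Or.inl (Filter.Eventually.of_forall fun x => ?_))
    obtain ⟨k, hk, -⟩ := existsUnique_add_zsmul_mem_Ico (by linarith : (0 : ℝ) < 2 * Real.pi) x θ₁
    rw [zsmul_eq_mul] at hk
    have h2 := hc _ ⟨hk.1, hk.2.le⟩
    rw [h.per_int] at h2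
    show G t₁ (θ₁ + 2 * Real.pi) - (θ₁ + 2 * Real.pi) ≤ G t₁ x - x
    rw [hz1]
    linarith
  have hp : ∃ w ∈ Icc θ₁ (θ₁ + 2 * Real.pi), w < G t₁ w := by
    by_contra hc
    push Not at hc
    refine hX t₁ ht₁ (θ₁ + 2 * Real.pi) hz1 (Or.inr (Filter.Eventually.of_forall fun x => ?_))
    obtain ⟨k, hk, -⟩ := existsUnique_add_zsmul_mem_Ico (by linarith : (0 : ℝ) < 2 * Real.pi) x θ₁
    rw [zsmul_eq_mul] at hk
    have h2 := hc _ ⟨hk.1, hk.2.le⟩
    rw [h.per_int] at h2
    show G t₁ x - x ≤ G t₁ (θ₁ + 2 * Real.pi) - (θ₁ + 2 * Real.pi)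
    rw [hz1]
    linarith
  rcases lt_trichotomy t₁ s with hlt | heq | hgt
  · rcases hsign with h2 | h2
    · have h3 := h.incr t₁ s θ₁ hlt.le
      have h4 := h2 θ₁
      rw [h1] at h3
      linarith
    · -- negative values must persist
      obtain ⟨w, hw, hw'⟩ := hn
      have hwl : θ₁ < w := by
        rcases hw.1.lt_or_eq with h | h
        · exact h
        · rw [← h, h1] at hw'; exact absurd hw' (lt_irrefl _)
      have hwr : w < θ₁ + 2 * Real.pi := by
        rcases hw.2.lt_or_eq with h | h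
        · exact h
        · rw [h, hz1] at hw'; exact absurd hw' (lt_irrefl _)
      -- a parameter slightly larger than `t₁`
      have hev : ∀ᶠ t in 𝓝[>] t₁, G t w < w := nhdsWithin_le_nhds
        ((isOpen_lt (h.cont_left w) continuous_const).mem_nhds hw')
      obtain ⟨t, ht, ht1, ht2⟩ := (hev.and (Ioo_mem_nhdsGT hlt)).exists
      have htτ : |t| < τ := by
        rw [abs_lt] at ht₁ hs ⊢
        exact ⟨by linarith, by linarith⟩
      obtain ⟨w', -, hw2⟩ := neg_persists h hX htτ hs ht2.le (u := θ₁) (v := θ₁ + 2 * Real.pi)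
        (fun x hx => by
          have := h.incr t₁ x θ₁ (by linarith [hx.1])
          rw [h1] at this
          linarith [hx.1]) (fun x hx => by
          have := h.incr t₁ x (θ₁ + 2 * Real.pi) (by linarith [hx.1])
          rw [hz1] at this
          linarith [hx.1]) ⟨w, hw, ht⟩
      exact absurd (h2 w') (not_lt.2 hw2.le)
  · exact hcon θ₁ (by rw [← heq]; exact h1)
  · rcases hsign with h2 | h2
    · obtain ⟨w, hw, hw'⟩ := hp
      have hev : ∀ᶠ t in 𝓝[<] t₁, w < G t w := nhdsWithin_le_nhds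
        ((isOpen_lt continuous_const (h.cont_left w)).mem_nhds hw')
      obtain ⟨t, ht, ht1, ht2⟩ := (hev.and (Ioo_mem_nhdsLT hgt)).exists
      have htτ : |t| < τ := by
        rw [abs_lt] at ht₁ hs ⊢
        exact ⟨by linarith, by linarith⟩
      obtain ⟨w', -, hw2⟩ := pos_persists h hX htτ hs ht1.le (u := θ₁) (v := θ₁ + 2 * Real.pi)
        (fun x hx => by
          have := h.incr x t₁ θ₁ (by linarith [hx.2])
          rw [h1] at this
          linarith [hx.2]) (fun x hx => by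
          have := h.incr x t₁ (θ₁ + 2 * Real.pi) (by linarith [hx.2])
          rw [hz1] at this
          linarith [hx.2]) ⟨w, hw, ht⟩
      exact absurd (h2 w') (not_lt.2 hw2.le)
    · have h3 := h.incr s t₁ θ₁ hgt.le
      have h4 := h2 θ₁
      rw [h1] at h3
      linarith

/-! ### Drift -/

theorem iterate_le_max {F : ℝ → ℝ} (hF : Monotone F) {w y c : ℝ} (hc : 0 ≤ c) (hw : F w ≤ w)
    (hd : ∀ x ∈ Icc w y, F x ≤ x - c) (k : ℕ) : F^[k] y ≤ max w (y - k * c) := by
  induction k with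
  | zero => simp
  | succ k ih =>
    rw [iterate_succ_apply']
    refine (hF ih).trans ?_
    rcases le_total (y - k * c) w with h | h
    · rw [max_eq_left h]
      exact hw.trans (le_max_left _ _)
    · rw [max_eq_right h]
      have h1 : y - k * c ≤ y := by
        have : 0 ≤ (k : ℝ) * c := mul_nonneg (Nat.cast_nonneg _) hc
        linarith
      have h2 := hd _ ⟨h, h1⟩
      refine h2.trans (le_trans ?_ (le_max_right _ _))
      push_cast
      linarith

theorem min_le_iterate {F : ℝ → ℝ} (hF : Monotone F) {w y c : ℝ} (hc : 0 ≤ c) (hw : w ≤ F w)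
    (hd : ∀ x ∈ Icc y w, x + c ≤ F x) (k : ℕ) : min w (y + k * c) ≤ F^[k] y := by
  induction k with
  | zero => simp
  | succ k ih =>
    rw [iterate_succ_apply']
    refine le_trans ?_ (hF ih)
    rcases le_total w (y + k * c) with h | h
    · rw [min_eq_left h]
      exact (min_le_left _ _).trans hw
    · rw [min_eq_right h]
      have h1 : y ≤ y + k * c := by
        have : 0 ≤ (k : ℝ) * c := mul_nonneg (Nat.cast_nonneg _) hc
        linarith
      have h2 := hd _ ⟨h1, h⟩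
      refine le_trans (le_trans (min_le_right _ _) ?_) h2
      push_cast
      linarith

theorem iterate_le_of_drift {F : ℝ → ℝ} (hF : Monotone F) {w y c : ℝ} (hc : 0 ≤ c) (hw : F w ≤ w)
    (hd : ∀ x ∈ Icc w y, F x ≤ x - c) {k : ℕ} (hk : y - w ≤ k * c) : F^[k] y ≤ w := by
  refine (iterate_le_max hF hc hw hd k).trans (max_le le_rfl (by linarith))

theorem le_iterate_of_drift {F : ℝ → ℝ} (hF : Monotone F) {w y c : ℝ} (hc : 0 ≤ c) (hw : w ≤ F w)
    (hd : ∀ x ∈ Icc y w, x + c ≤ F x) {k : ℕ} (hk : w - y ≤ k * c) : w ≤ F^[k] y := by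
  refine le_trans (le_min le_rfl (by linarith)) (min_le_iterate hF hc hw hd k)

/-- Iterates at a parameter are below the iterates at a larger parameter, whatever the numbers
of iterates, if these are large. -/
theorem iterate_comparison {P : ℝ → ℝ → ℝ} (h : MonoFam P) {t δ : ℝ} (hδ : 0 < δ)
    (hz : ∃ θ, P (t + δ / 2) θ = θ) {K K' N : ℕ} (hN : 4 * Real.pi ≤ N * δ) (hK : N ≤ K)
    (hK' : N ≤ K') (y : ℝ) : (P t)^[K'] y ≤ (P (t + δ))^[K] y := by
  have hpi := Real.pi_pos
  set s := t + δ / 2 with hs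
  obtain ⟨θ, hθ⟩ := hz
  have hzk : ∀ k : ℤ, P s (θ + k * (2 * Real.pi)) = θ + k * (2 * Real.pi) := by
    intro k
    rw [h.per_int, hθ]
  have hcl : IsClosed {x | P s x = x} := isClosed_eq (h.cont_right s) continuous_id
  have hst : ∀ x, P t x ≤ P s x - δ / 2 := by
    intro x
    have := h.incr t s x (by linarith)
    linarith
  have hst' : ∀ x, P s x + δ / 2 ≤ P (t + δ) x := by
    intro x
    have := h.incr s (t + δ) x (by linarith)
    linarith
  have hstay1 : ∀ w, P s w = w → ∀ k x, x ≤ w → (P t)^[k] x ≤ w := by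
    intro w hw k x hx
    have h1 : (P t)^[k] w ≤ w := by
      refine iterate_le_of_drift (h.mono t).monotone (c := 0) le_rfl ?_ (fun x hx => ?_) (by simp)
      · have := hst w
        rw [hw] at this
        linarith
      · have h2 : x = w := le_antisymm hx.2 hx.1
        rw [h2]
        have := hst w
        rw [hw] at this
        linarith
    exact ((h.mono t).monotone.iterate k hx).trans h1
  have hstay2 : ∀ w, P s w = w → ∀ k x, w ≤ x → w ≤ (P (t + δ))^[k] x := by
    intro w hw k x hx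
    have h1 : w ≤ (P (t + δ))^[k] w := by
      refine le_iterate_of_drift (h.mono _).monotone (c := 0) le_rfl ?_ (fun x hx => ?_) (by simp)
      · have := hst' w
        rw [hw] at this
        linarith
      · have h2 : x = w := le_antisymm hx.2 hx.1
        rw [h2]
        have := hst' w
        rw [hw] at this
        linarith
    exact h1.trans ((h.mono _).monotone.iterate k hx)
  rcases lt_trichotomy (P s y) y with hlt | heq | hgt
  · -- the largest zero below `y`
    obtain ⟨k, hk, -⟩ := existsUnique_add_zsmul_mem_Ioc (by linarith : (0 : ℝ) < 2 * Real.pi) θ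
      (y - 2 * Real.pi)
    rw [zsmul_eq_mul] at hk
    set S := {x | P s x = x} ∩ Icc (y - 2 * Real.pi) y with hS
    have hSne : S.Nonempty := ⟨θ + k * (2 * Real.pi), hzk k, hk.1.le, by linarith [hk.2]⟩
    have hSc : IsCompact S := (isCompact_Icc).inter_left hcl
    have hwS := hSc.sSup_mem hSne
    set w := sSup S with hw
    have hmax : ∀ x ∈ S, x ≤ w := fun x hx => le_csSup hSc.bddAbove hx
    have hneg : ∀ x ∈ Icc w y, P s x ≤ x := by
      intro x hx
      by_contra hc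
      push Not at hc
      have hxw : w < x := by
        rcases hx.1.lt_or_eq with h | h
        · exact h
        · rw [← h, hwS.1] at hc; exact absurd hc (lt_irrefl _)
      have hcθ : ContinuousOn (fun x => P s x - x) (Icc x y) :=
        ((h.cont_right s).sub continuous_id).continuousOn
      obtain ⟨z, hz, hz'⟩ := intermediate_value_Icc' hx.2 hcθ
        (show (0 : ℝ) ∈ Icc (P s y - y) (P s x - x) from ⟨by linarith, by linarith⟩)
      have hz2 : P s z = z := by linarith [show P s z - z = 0 from hz']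
      have := hmax z ⟨hz2, by linarith [hwS.2.1, hz.1], hz.2⟩
      linarith [hz.1]
    refine le_trans ?_ (hstay2 w hwS.1 K y hwS.2.2)
    have h1 : (P t)^[N] y ≤ w := by
      refine iterate_le_of_drift (h.mono t).monotone (c := δ / 2) (by linarith) ?_
        (fun x hx => ?_) ?_
      · have := hst w
        rw [hwS.1] at this
        linarith
      · have := hst x
        have := hneg x hx
        linarith
      · have := hwS.2.1
        linarith
    obtain ⟨j, rfl⟩ := Nat.exists_eq_add_of_le' hK'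
    rw [iterate_add_apply]
    exact hstay1 w hwS.1 j _ h1
  · exact (hstay1 y heq K' y le_rfl).trans (hstay2 y heq K y le_rfl)
  · -- the smallest zero above `y`
    obtain ⟨k, hk, -⟩ := existsUnique_add_zsmul_mem_Ico (by linarith : (0 : ℝ) < 2 * Real.pi) θ y
    rw [zsmul_eq_mul] at hk
    set S := {x | P s x = x} ∩ Icc y (y + 2 * Real.pi) with hS
    have hSne : S.Nonempty := ⟨θ + k * (2 * Real.pi), hzk k, hk.1, hk.2.le⟩
    have hSc : IsCompact S := (isCompact_Icc).inter_left hcl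
    have hwS := hSc.sInf_mem hSne
    set w := sInf S with hw
    have hmin : ∀ x ∈ S, w ≤ x := fun x hx => csInf_le hSc.bddBelow hx
    have hpos : ∀ x ∈ Icc y w, x ≤ P s x := by
      intro x hx
      by_contra hc
      push Not at hc
      have hcθ : ContinuousOn (fun x => P s x - x) (Icc y x) :=
        ((h.cont_right s).sub continuous_id).continuousOn
      obtain ⟨z, hz, hz'⟩ := intermediate_value_Icc' hx.1 hcθ
        (show (0 : ℝ) ∈ Icc (P s x - x) (P s y - y) from ⟨by linarith, by linarith⟩)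
      have hz2 : P s z = z := by linarith [show P s z - z = 0 from hz']
      have := hmin z ⟨hz2, hz.1, by linarith [hwS.2.2, hz.2, hx.2]⟩
      have hzx : z = x := le_antisymm hz.2 (by linarith [hx.2])
      rw [hzx] at hz2
      linarith
    refine (hstay1 w hwS.1 K' y hwS.2.1).trans ?_
    have h1 : w ≤ (P (t + δ))^[N] y := by
      refine le_iterate_of_drift (h.mono _).monotone (c := δ / 2) (by linarith) ?_
        (fun x hx => ?_) ?_
      · have := hst' w
        rw [hwS.1] at this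
        linarith
      · have := hst' x
        have := hpos x hx
        linarith
      · have := hwS.2.2
        linarith
    obtain ⟨j, rfl⟩ := Nat.exists_eq_add_of_le' hK
    rw [iterate_add_apply]
    exact hstay2 w hwS.1 j _ h1

/-! ### The two patterns -/

theorem zero_between {G : ℝ → ℝ → ℝ} (h : MonoFam G) {s a b : ℝ} (hab : a ≤ b)
    (ha : G s a < a) (hb : b < G s b) : ∃ z ∈ Ioo a b, G s z = z := by
  have hcθ : ContinuousOn (fun x => G s x - x) (Icc a b) :=
    ((h.cont_right s).sub continuous_id).continuousOn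
  obtain ⟨z, hz, hz'⟩ := intermediate_value_Icc hab hcθ
    (show (0 : ℝ) ∈ Icc (G s a - a) (G s b - b) from ⟨by linarith, by linarith⟩)
  have hz2 : G s z = z := by linarith [show G s z - z = 0 from hz']
  refine ⟨z, ⟨?_, ?_⟩, hz2⟩
  · rcases hz.1.lt_or_eq with h | h
    · exact h
    · rw [← h] at hz2; linarith
  · rcases hz.2.lt_or_eq with h | h
    · exact h
    · rw [h] at hz2; linarith

theorem zero_between' {G : ℝ → ℝ → ℝ} (h : MonoFam G) {s a b : ℝ} (hab : a ≤ b)
    (ha : a < G s a) (hb : G s b < b) : ∃ z ∈ Ioo a b, G s z = z := by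
  have hcθ : ContinuousOn (fun x => G s x - x) (Icc a b) :=
    ((h.cont_right s).sub continuous_id).continuousOn
  obtain ⟨z, hz, hz'⟩ := intermediate_value_Icc' hab hcθ
    (show (0 : ℝ) ∈ Icc (G s b - b) (G s a - a) from ⟨by linarith, by linarith⟩)
  have hz2 : G s z = z := by linarith [show G s z - z = 0 from hz']
  refine ⟨z, ⟨?_, ?_⟩, hz2⟩
  · rcases hz.1.lt_or_eq with h | h
    · exact h
    · rw [← h] at hz2; linarith
  · rcases hz.2.lt_or_eq with h | h
    · exact h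
    · rw [h] at hz2; linarith

/-- `X` is the largest zero of `G s θ - θ` in `(-∞, 0]`. -/
def LastZero (G : ℝ → ℝ → ℝ) (s X : ℝ) : Prop :=
  X ≤ 0 ∧ G s X = X ∧ ∀ x ≤ 0, G s x = x → x ≤ X

theorem exists_lastZero {G : ℝ → ℝ → ℝ} (h : MonoFam G) {s : ℝ} (hz : ∃ θ, G s θ = θ) :
    ∃ X, LastZero G s X := by
  have hpi := Real.pi_pos
  obtain ⟨θ, hθ⟩ := hz
  obtain ⟨k, hk, -⟩ := existsUnique_add_zsmul_mem_Ioc (by linarith : (0 : ℝ) < 2 * Real.pi) θ
    (-(2 * Real.pi))
  rw [zsmul_eq_mul] at hk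
  have hcl : IsClosed {x | G s x = x} := isClosed_eq (h.cont_right s) continuous_id
  set S := {x | G s x = x} ∩ Icc (-(2 * Real.pi)) 0 with hS
  have hSne : S.Nonempty := ⟨θ + k * (2 * Real.pi), by rw [Set.mem_ofPred_eq, h.per_int, hθ],
    hk.1.le, by linarith [hk.2]⟩
  have hSc : IsCompact S := (isCompact_Icc).inter_left hcl
  have hwS := hSc.sSup_mem hSne
  refine ⟨sSup S, hwS.2.2, hwS.1, fun x hx hx' => ?_⟩
  by_cases h1 : -(2 * Real.pi) ≤ x
  · exact le_csSup hSc.bddAbove ⟨hx', h1, hx⟩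
  · linarith [hwS.2.1]

/-- The expanding pattern. -/
theorem pattern_expanding {G : ℝ → ℝ → ℝ} (h : MonoFam G) {τ : ℝ} (hX : NoTangency G τ)
    {σ t₁ t t₂ k X Y : ℝ} (ht₁ : |t₁| < τ) (ht₂ : |t₂| < τ) (h1 : t₁ < t) (h2 : t < t₂)
    (hk : k ∈ Ioo 0 σ) (hneg : ∀ x ∈ Ioo (-σ) σ, G t₁ x < x) (hpos : ∀ x ∈ Ioo (-σ) σ, x < G t₂ x)
    (hl : G t (-k) < -k) (hr : k < G t k) (hXz : LastZero G t₁ X) (hYz : LastZero G t₂ Y) :
    X + (τ - |t₂|) ≤ Y := by
  obtain ⟨hX0, hXe, hXm⟩ := hXz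
  obtain ⟨hY0, hYe, hYm⟩ := hYz
  have hσ : 0 < σ := hk.1.trans hk.2
  have hXσ : X ≤ -σ := by
    by_contra hc
    have := hneg X ⟨not_le.1 hc, by linarith⟩
    rw [hXe] at this
    exact lt_irrefl _ this
  have htτ : |t| < τ := by
    rw [abs_lt] at ht₁ ht₂ ⊢
    exact ⟨by linarith, by linarith⟩
  obtain ⟨w, hw, hw'⟩ := neg_persists h hX htτ ht₂ h2.le (u := X) (v := k)
    (fun s hs => by
      have := h.incr t₁ s X (by linarith [hs.1])
      rw [hXe] at this
      linarith [hs.1]) (fun s hs => by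
      have := h.incr t s k hs.1
      linarith [hs.1]) ⟨-k, ⟨by linarith [hk.2], by linarith [hk.1]⟩, hl⟩
  have hwσ : w ≤ -σ := by
    by_contra hc
    have := hpos w ⟨not_le.1 hc, by linarith [hw.2, hk.2]⟩
    linarith
  obtain ⟨β, hβ, hβz⟩ := zero_between h (a := w) (b := 0) (by linarith) hw'
    (hpos 0 ⟨by linarith, hσ⟩)
  have hXt2 : X < G t₂ X := by
    have := h.incr t₁ t₂ X (by linarith)
    rw [hXe] at this
    linarith
  obtain ⟨α, hα, hαz⟩ := zero_between' h (a := X) (b := w) hw.1 hXt2 hw'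
  have h3 := separated_at h hX ht₂ (hα.2.trans hβ.1) hαz hβz
  have h4 := hYm β hβ.2.le hβz
  linarith [hα.1]

/-- The contracting pattern. -/
theorem pattern_contracting {G : ℝ → ℝ → ℝ} (h : MonoFam G) {τ : ℝ} (hX : NoTangency G τ)
    {σ t₁ t t₂ k X Y : ℝ} (ht₁ : |t₁| < τ) (ht₂ : |t₂| < τ) (h1 : t₁ < t) (h2 : t < t₂)
    (hk : k ∈ Ioo 0 σ) (hneg : ∀ x ∈ Ioo (-σ) σ, G t₁ x < x) (hpos : ∀ x ∈ Ioo (-σ) σ, x < G t₂ x)
    (hl : -k < G t (-k)) (hr : G t k < k) (hXz : LastZero G t₁ X) (hYz : LastZero G t₂ Y) :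
    Y + (τ - |t₁|) ≤ X := by
  obtain ⟨hX0, hXe, hXm⟩ := hXz
  obtain ⟨hY0, hYe, hYm⟩ := hYz
  have hσ : 0 < σ := hk.1.trans hk.2
  have hYσ : Y ≤ -σ := by
    by_contra hc
    have := hpos Y ⟨not_le.1 hc, by linarith⟩
    rw [hYe] at this
    exact lt_irrefl _ this
  have htτ : |t| < τ := by
    rw [abs_lt] at ht₁ ht₂ ⊢
    exact ⟨by linarith, by linarith⟩
  obtain ⟨w, hw, hw'⟩ := pos_persists h hX htτ ht₁ h1.le (u := Y) (v := k)
    (fun s hs => by
      have := h.incr s t₂ Y (by linarith [hs.2])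
      rw [hYe] at this
      linarith [hs.2]) (fun s hs => by
      have := h.incr s t k hs.2
      linarith [hs.2]) ⟨-k, ⟨by linarith [hk.2], by linarith [hk.1]⟩, hl⟩
  have hwσ : w ≤ -σ := by
    by_contra hc
    have := hneg w ⟨not_le.1 hc, by linarith [hw.2, hk.2]⟩
    linarith
  obtain ⟨β, hβ, hβz⟩ := zero_between' h (a := w) (b := 0) (by linarith) hw'
    (hneg 0 ⟨by linarith, hσ⟩)
  have hYt1 : G t₁ Y < Y := by
    have := h.incr t₁ t₂ Y (by linarith)
    rw [hYe] at this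
    linarith
  obtain ⟨α, hα, hαz⟩ := zero_between h (a := Y) (b := w) hw.1 hYt1 hw'
  have h3 := separated_at h hX ht₁ (hα.2.trans hβ.1) hαz hβz
  have h4 := hXm β hβ.2.le hβz
  linarith [hα.1]

/-- The two patterns exclude each other for families which are close to each other. -/
theorem no_two_patterns {G H : ℝ → ℝ → ℝ} (hG : MonoFam G) (hH : MonoFam H) {τ : ℝ}
    (hXG : NoTangency G τ) (hXH : NoTangency H τ) {σ t₁ t₂ δ tG tH k : ℝ} (hδ : 0 ≤ δ)
    (hzG : ∃ θ, G 0 θ = θ) (hzH : ∃ θ, H 0 θ = θ)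
    (hcmp : ∀ x, H t₂ x ≤ G (t₂ + δ) x) (hcmp' : ∀ x, H (t₁ - δ) x ≤ G t₁ x)
    (h1 : |t₁ - δ| < τ) (h2 : |t₂ + δ| < τ) (h1' : |t₁| < τ) (h2' : |t₂| < τ)
    (hk : k ∈ Ioo 0 σ)
    (hnegG : ∀ x ∈ Ioo (-σ) σ, G t₁ x < x) (hposG : ∀ x ∈ Ioo (-σ) σ, x < G t₂ x)
    (hnegH : ∀ x ∈ Ioo (-σ) σ, H t₁ x < x) (hposH : ∀ x ∈ Ioo (-σ) σ, x < H t₂ x)
    (htG : tG ∈ Ioo t₁ t₂) (htH : tH ∈ Ioo t₁ t₂)
    (hGl : G tG (-k) < -k) (hGr : k < G tG k) (hHl : -k < H tH (-k)) (hHr : H tH k < k) :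
    False := by
  have hτ : 0 < τ := (abs_nonneg _).trans_lt h1
  obtain ⟨θG, hθG⟩ := hzG
  obtain ⟨θH, hθH⟩ := hzH
  have h0 : |(0 : ℝ)| < τ := by simpa using hτ
  have hσ : 0 < σ := hk.1.trans hk.2
  obtain ⟨X₁, hX₁⟩ := exists_lastZero hG (s := t₁) (exists_zero hG hXG h0 hθG t₁ h1')
  obtain ⟨Y₁, hY₁⟩ := exists_lastZero hG (s := t₂ + δ) (exists_zero hG hXG h0 hθG _ h2)
  obtain ⟨X₂, hX₂⟩ := exists_lastZero hH (s := t₁ - δ) (exists_zero hH hXH h0 hθH _ h1)
  obtain ⟨Y₂, hY₂⟩ := exists_lastZero hH (s := t₂) (exists_zero hH hXH h0 hθH t₂ h2')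
  have hposG' : ∀ x ∈ Ioo (-σ) σ, x < G (t₂ + δ) x := by
    intro x hx
    have := hG.incr t₂ (t₂ + δ) x (by linarith)
    linarith [hposG x hx]
  have hnegH' : ∀ x ∈ Ioo (-σ) σ, H (t₁ - δ) x < x := by
    intro x hx
    have := hH.incr (t₁ - δ) t₁ x (by linarith)
    linarith [hnegH x hx]
  have hE := pattern_expanding hG hXG h1' h2 htG.1 (by linarith [htG.2]) hk hnegG hposG' hGl hGr
    hX₁ hY₁
  have hC := pattern_contracting hH hXH h1 h2' (by linarith [htH.1]) htH.2 hk hnegH' hposH hHl hHr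
    hX₂ hY₂
  -- comparison of the last zeros
  have hX₂σ : X₂ ≤ -σ := by
    by_contra hc
    have := hnegH' X₂ ⟨not_le.1 hc, by linarith [hX₂.1]⟩
    rw [hX₂.2.1] at this
    exact lt_irrefl _ this
  have hY₁σ : Y₁ ≤ -σ := by
    by_contra hc
    have := hposG' Y₁ ⟨not_le.1 hc, by linarith [hY₁.1]⟩
    rw [hY₁.2.1] at this
    exact lt_irrefl _ this
  have hXX : X₂ ≤ X₁ := by
    have h3 := hcmp' X₂
    rw [hX₂.2.1] at h3
    rcases h3.lt_or_eq with h4 | h4
    · obtain ⟨z, hz, hz'⟩ := zero_between' hG (a := X₂) (b := 0) (by linarith) h4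
        (hnegG 0 ⟨by linarith, hσ⟩)
      exact hz.1.le.trans (hX₁.2.2 z hz.2.le hz')
    · exact hX₁.2.2 X₂ hX₂.1 h4.symm
  have hYY : Y₁ ≤ Y₂ := by
    have h3 := hcmp Y₁
    rw [hY₁.2.1] at h3
    rcases h3.lt_or_eq with h4 | h4
    · obtain ⟨z, hz, hz'⟩ := zero_between hH (a := Y₁) (b := 0) (by linarith) h4
        (hposH 0 ⟨by linarith, hσ⟩)
      exact hz.1.le.trans (hY₂.2.2 z hz.2.le hz')
    · exact hY₂.2.2 Y₁ hY₁.1 h4
  linarith

end Dens

end Pool.Agent.OmegaStability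

end
end

section

/-!
# Lifts along chains: closeness, gaps and comparison
-/

open Set Filter Topology Function

noncomputable section

namespace Pool.Agent.OmegaStability

namespace Dens

/-! ### Orbits of sequences of maps of the line -/

theorem orb_add (L : ℕ → ℝ → ℝ) (t : ℝ) (i j : ℕ) (x : ℝ) :
    orb L t (i + j) x = orb (fun k => L (i + k)) t j (orb L t i x) := by
  induction j with
  | zero => rfl
  | succ j ih =>
    show L (i + j) (orb L t (i + j) x) + t = L (i + j) (orb (fun k => L (i + k)) t j _) + t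
    rw [ih]

theorem orb_congr {L L' : ℕ → ℝ → ℝ} (t : ℝ) {N : ℕ} (h : ∀ j < N, L j = L' j) (x : ℝ) :
    ∀ j ≤ N, orb L t j x = orb L' t j x := by
  intro j
  induction j with
  | zero => intro _; rfl
  | succ j ih =>
    intro hj
    show L j (orb L t j x) + t = L' j (orb L' t j x) + t
    rw [ih (by omega), h j (by omega)]

theorem orb_mono {L : ℕ → ℝ → ℝ} (hL : ∀ j, Monotone (L j)) (t : ℝ) (j : ℕ) :
    Monotone (orb L t j) := by
  induction j with
  | zero => exact monotone_id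
  | succ j ih =>
    intro a b hab
    have := hL j (ih hab)
    show L j (orb L t j a) + t ≤ L j (orb L t j b) + t
    linarith

theorem orb_strictMono {L : ℕ → ℝ → ℝ} (hL : ∀ j, StrictMono (L j)) (t : ℝ) (j : ℕ) :
    StrictMono (orb L t j) := by
  induction j with
  | zero => exact strictMono_id
  | succ j ih =>
    intro a b hab
    have := hL j (ih hab)
    show L j (orb L t j a) + t < L j (orb L t j b) + t
    linarith

theorem orb_cont {L : ℕ → ℝ → ℝ} (hL : ∀ j, Continuous (L j)) (j : ℕ) :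
    Continuous fun q : ℝ × ℝ => orb L q.1 j q.2 := by
  induction j with
  | zero => exact continuous_snd
  | succ j ih => exact ((hL j).comp ih).add continuous_fst

theorem orb_sandwich {l L : ℕ → ℝ → ℝ} (hL : ∀ j, Monotone (L j)) {ε : ℝ} {N : ℕ}
    (h : ∀ j < N, ∀ x, |l j x - L j x| ≤ ε) (t x : ℝ) :
    ∀ j ≤ N, orb L (t - ε) j x ≤ orb l t j x ∧ orb l t j x ≤ orb L (t + ε) j x := by
  intro j
  induction j with
  | zero => intro _; exact ⟨le_rfl, le_rfl⟩
  | succ j ih =>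
    intro hj
    obtain ⟨h1, h2⟩ := ih (by omega)
    have h3 := abs_le.1 (h j (by omega) (orb l t j x))
    have h4 := hL j h1
    have h5 := hL j h2
    constructor
    · show L j (orb L (t - ε) j x) + (t - ε) ≤ l j (orb l t j x) + t
      linarith [h3.1]
    · show l j (orb l t j x) + t ≤ L j (orb L (t + ε) j x) + (t + ε)
      linarith [h3.2]

theorem orb_le_orb {L : ℕ → ℝ → ℝ} (hL : ∀ j, Monotone (L j)) {t t' : ℝ} (htt : t ≤ t') (x : ℝ)
    (j : ℕ) : orb L t j x ≤ orb L t' j x := by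
  induction j with
  | zero => exact le_rfl
  | succ j ih =>
    have := hL j ih
    show L j (orb L t j x) + t ≤ L j (orb L t' j x) + t'
    linarith

/-- Loops of a periodic sequence of maps. -/
theorem orb_loops {L : ℕ → ℝ → ℝ} {n : ℕ} (hper : ∀ j, L (j + n) = L j) (t x : ℝ) (K : ℕ) :
    orb L t (K * n) x = (orb L t n)^[K] x := by
  have hper' : ∀ K j, L (K * n + j) = L j := by
    intro K
    induction K with
    | zero => intro j; simp
    | succ K ih =>
      intro j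
      rw [show (K + 1) * n + j = (K * n + j) + n by ring, hper, ih]
  induction K with
  | zero => simp [orb]
  | succ K ih =>
    rw [iterate_succ_apply', ← ih, show (K + 1) * n = K * n + n by ring, orb_add]
    exact orb_congr t (fun j _ => hper' K j) _ n le_rfl

theorem orb_per {L : ℕ → ℝ → ℝ} (hL : ∀ j θ, L j (θ + 2 * Real.pi) = L j θ + 2 * Real.pi)
    (t : ℝ) (j : ℕ) (θ : ℝ) : orb L t j (θ + 2 * Real.pi) = orb L t j θ + 2 * Real.pi := by
  induction j with
  | zero => rfl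
  | succ j ih =>
    show L j (orb L t j (θ + 2 * Real.pi)) + t = L j (orb L t j θ) + t + 2 * Real.pi
    rw [ih, hL]
    ring

/-! ### Normalised lifts -/

section Lifts

variable {M : Type*} [MulAction Circle M]

/-- Normalised lifts of `f` at the points of `M`. -/
structure NLift (f : M → M) (ℒ : M → ℝ → ℝ) : Prop where
  cont : ∀ y, Continuous (ℒ y)
  mono : ∀ y, StrictMono (ℒ y)
  zero : ∀ y, ℒ y 0 = 0
  per : ∀ y θ, ℒ y (θ + 2 * Real.pi) = ℒ y θ + 2 * Real.pi
  map : ∀ y (θ : ℝ), f (Circle.exp θ • y) = Circle.exp (ℒ y θ) • f y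

theorem exists_nlift (hfree : ∀ (z : Circle) (y : M), z • y = y → z = 1) {f : M → M}
    (hinj : Injective f) (hf : PreservesOrientedCircles f) : ∃ ℒ : M → ℝ → ℝ, NLift f ℒ := by
  choose L' hLc hLm hL' using hf
  have h0 : ∀ y, Circle.exp (L' y 0) = 1 := by
    intro y
    have h1 := hL' y 0
    rw [Circle.exp_zero, one_smul] at h1
    exact hfree _ _ h1.symm
  refine ⟨fun y θ => L' y θ - L' y 0, ⟨fun y => (hLc y).sub continuous_const,
    fun y a b hab => sub_lt_sub_right (hLm y hab) _, fun y => sub_self _, fun y θ => ?_,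
    fun y θ => ?_⟩⟩
  · have := lift_degree hfree hinj (hLc y) (hLm y) (hL' y) θ
    show L' y (θ + 2 * Real.pi) - L' y 0 = L' y θ - L' y 0 + 2 * Real.pi
    linarith
  · rw [hL', sub_eq_add_neg, Circle.exp_add, Circle.exp_neg, h0, inv_one, mul_one]

/-- A chain of points, each mapped into the circle of the next one. -/
structure Chain (f : M → M) (ℒ : M → ℝ → ℝ) (N : ℕ) (e : ℕ → M) (l : ℕ → ℝ → ℝ) : Prop where
  pos : 0 < N
  closed : e N = e 0
  form : ∃ c : ℕ → ℝ, ∀ j θ, l j θ = ℒ (e j) θ + c j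
  map : ∀ j < N, ∀ θ : ℝ, f (Circle.exp θ • e j) = Circle.exp (l j θ) • e (j + 1)

namespace Chain

variable {f : M → M} {ℒ : M → ℝ → ℝ} {N : ℕ} {e : ℕ → M} {l : ℕ → ℝ → ℝ}

theorem cont (h : Chain f ℒ N e l) (hℒ : NLift f ℒ) (j : ℕ) : Continuous (l j) := by
  obtain ⟨c, hc⟩ := h.form
  have : l j = fun θ => ℒ (e j) θ + c j := funext (hc j)
  rw [this]
  exact (hℒ.cont _).add continuous_const

theorem mono (h : Chain f ℒ N e l) (hℒ : NLift f ℒ) (j : ℕ) : StrictMono (l j) := by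
  obtain ⟨c, hc⟩ := h.form
  intro a b hab
  rw [hc, hc]
  have := hℒ.mono (e j) hab
  linarith

theorem per (h : Chain f ℒ N e l) (hℒ : NLift f ℒ) (j : ℕ) (θ : ℝ) :
    l j (θ + 2 * Real.pi) = l j θ + 2 * Real.pi := by
  obtain ⟨c, hc⟩ := h.form
  rw [hc, hc, hℒ.per]
  ring

theorem iterate (h : Chain f ℒ N e l) (t θ : ℝ) :
    ∀ j ≤ N, (fun y => Circle.exp t • f y)^[j] (Circle.exp θ • e 0) =
      Circle.exp (orb l t j θ) • e j := by
  intro j
  induction j with
  | zero => intro _; rfl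
  | succ j ih =>
    intro hj
    rw [iterate_succ_apply', ih (by omega)]
    show Circle.exp t • f (Circle.exp (orb l t j θ) • e j) = _
    rw [h.map j (by omega), smul_smul, ← Circle.exp_add]
    show _ = Circle.exp (l j (orb l t j θ) + t) • _
    rw [add_comm]

theorem retMap (h : Chain f ℒ N e l) (hℒ : NLift f ℒ) :
    RetMap f (e 0) N (orb l 0 N 0) (fun t θ => orb l t N θ) where
  cont := orb_cont (h.cont hℒ) N
  mono t := orb_strictMono (h.mono hℒ) t N
  map t θ := by rw [h.iterate t θ N le_rfl, h.closed]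
  per t θ := orb_per (h.per hℒ) t N θ
  incr t t' θ htt := by
    obtain ⟨k, rfl⟩ : ∃ k, N = k + 1 := ⟨N - 1, by have := h.pos; omega⟩
    have h1 := (h.mono hℒ k).monotone (orb_le_orb (fun j => (h.mono hℒ j).monotone) htt θ k)
    show l k (orb l t k θ) + t + (t' - t) ≤ l k (orb l t' k θ) + t'
    linarith
  base := rfl

end Chain

/-- The chain of the orbit of a periodic point. -/
theorem chain_periodic {f : M → M} {ℒ : M → ℝ → ℝ} (hℒ : NLift f ℒ) {a : M} {n : ℕ} (hn : 0 < n)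
    (ha : f^[n] a = a) : Chain f ℒ n (fun j => f^[j] a) (fun j => ℒ (f^[j] a)) where
  pos := hn
  closed := ha
  form := ⟨fun _ => 0, fun j θ => by simp⟩
  map j _ θ := by rw [hℒ.map, iterate_succ_apply']

theorem orb_zero_zero {f : M → M} {ℒ : M → ℝ → ℝ} (hℒ : NLift f ℒ) (a : M) (j : ℕ) :
    orb (fun j => ℒ (f^[j] a)) 0 j 0 = 0 := by
  induction j with
  | zero => rfl
  | succ j ih =>
    show ℒ (f^[j] a) (orb (fun j => ℒ (f^[j] a)) 0 j 0) + 0 = 0
    rw [ih, hℒ.zero, add_zero]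

end Lifts

/-! ### Uniform estimates -/

section Compact

variable {M : Type*} [MetricSpace M] [CompactSpace M] [MulAction Circle M]

theorem exists_smul_close (hact : Continuous fun p : Circle × M => p.1 • p.2) {ε : ℝ}
    (hε : 0 < ε) : ∃ δ > 0, ∀ (z : Circle) (y y' : M), dist y y' < δ →
      dist (z • y) (z • y') < ε := by
  obtain ⟨δ, hδ, h⟩ := Metric.uniformContinuous_iff.1
    (CompactSpace.uniformContinuous_of_continuous hact) ε hε
  refine ⟨δ, hδ, fun z y y' hy => ?_⟩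
  apply h (a := (z, y)) (b := (z, y'))
  rw [Prod.dist_eq]
  simpa using hy

theorem exists_rot_close (hact : Continuous fun p : Circle × M => p.1 • p.2) {ε : ℝ}
    (hε : 0 < ε) : ∃ δ > 0, ∀ (c : ℝ) (y : M), |c| < δ → dist (Circle.exp c • y) y < ε := by
  obtain ⟨δ, hδ, h⟩ := Metric.uniformContinuous_iff.1
    (CompactSpace.uniformContinuous_of_continuous hact) ε hε
  have h1 : Tendsto (fun c : ℝ => dist (Circle.exp c) 1) (𝓝 0) (𝓝 0) := by
    have h2 : Tendsto (fun c : ℝ => Circle.exp c) (𝓝 0) (𝓝 (Circle.exp 0)) :=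
      Circle.exp.continuous.tendsto 0
    have h3 := h2.dist (tendsto_const_nhds (x := (1 : Circle)))
    rwa [Circle.exp_zero, dist_self] at h3
  obtain ⟨δ', hδ', h2⟩ := Metric.eventually_nhds_iff.1 (h1.eventually (gt_mem_nhds hδ))
  refine ⟨δ', hδ', fun c y hc => ?_⟩
  have h3 := h (a := (Circle.exp c, y)) (b := (1, y)) (by
    rw [Prod.dist_eq]
    simp only [dist_self, max_eq_left dist_nonneg]
    exact h2 (by simpa using hc))
  simpa using h3

/-- Lifts of `f` at points which are close to each other are close. -/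
theorem lift_close (hact : Continuous fun p : Circle × M => p.1 • p.2)
    (hfree : ∀ (z : Circle) (y : M), z • y = y → z = 1) {f : M → M} (hf : Continuous f) {ε : ℝ}
    (hε : 0 < ε) (hε1 : ε < 1) : ∃ δ > 0, ∀ (e y e' y' : M) (l L : ℝ → ℝ), Continuous l →
      Continuous L → (∀ θ : ℝ, f (Circle.exp θ • e) = Circle.exp (l θ) • e') →
      (∀ θ : ℝ, f (Circle.exp θ • y) = Circle.exp (L θ) • y') → dist e y < δ → dist e' y' < δ →
      |l 0 - L 0| < 2 → ∀ θ, |l θ - L θ| ≤ ε := by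
  have hpi := Real.pi_gt_three
  obtain ⟨δ₁, hδ₁, hrot⟩ := exists_small_rotation hact hfree hε
  obtain ⟨δ₂, hδ₂, h2⟩ := exists_smul_close (M := M) hact (ε := δ₁ / 2) (by positivity)
  obtain ⟨δ₃, hδ₃, h3⟩ := Metric.uniformContinuous_iff.1
    (CompactSpace.uniformContinuous_of_continuous hf) (δ₁ / 2) (by positivity)
  obtain ⟨δ₄, hδ₄, h4⟩ := exists_smul_close (M := M) hact hδ₃
  refine ⟨min δ₂ δ₄, by positivity, fun e y e' y' l L hl hL hle hLy hey hey' h0 => ?_⟩
  have hey2 : dist e y < δ₄ := hey.trans_le (min_le_right _ _)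
  have hey2' : dist e' y' < δ₂ := hey'.trans_le (min_le_left _ _)
  have key : ∀ θ, ∃ k : ℤ, |l θ - L θ - 2 * Real.pi * k| ≤ ε := by
    intro θ
    set w := Circle.exp (L θ) • e' with hw
    have h5 : Circle.exp (l θ - L θ) • w = f (Circle.exp θ • e) := by
      rw [hle, hw, smul_smul, ← Circle.exp_add, sub_add_cancel]
    have h6 : dist (Circle.exp (l θ - L θ) • w) w < δ₁ := by
      rw [h5]
      calc dist (f (Circle.exp θ • e)) w ≤ dist (f (Circle.exp θ • e)) (f (Circle.exp θ • y)) +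
            dist (f (Circle.exp θ • y)) w := dist_triangle _ _ _
        _ < δ₁ / 2 + δ₁ / 2 := by
            apply add_lt_add
            · exact h3 (h4 _ _ _ hey2)
            · rw [hLy, hw, dist_comm]
              exact h2 _ _ _ hey2'
        _ = δ₁ := by ring
    obtain ⟨c, hc, hc'⟩ := hrot _ _ h6
    have h7 : Circle.exp (l θ - L θ - c) = 1 := by
      rw [sub_eq_add_neg (l θ - L θ), Circle.exp_add, Circle.exp_neg, hc', mul_inv_cancel]
    obtain ⟨k, hk⟩ := exp_eq_one_int h7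
    refine ⟨k, ?_⟩
    have h8 : l θ - L θ - 2 * Real.pi * k = c := by linarith
    rw [h8]
    exact hc
  -- the integer vanishes
  have huc : Continuous fun θ => l θ - L θ := hl.sub hL
  have hhalf : ∀ θ, |l θ - L θ| ≠ Real.pi := by
    intro θ hθ
    obtain ⟨k, hk⟩ := key θ
    rw [abs_le] at hk
    rcases abs_eq (by linarith) |>.1 hθ with h | h
    · rw [h] at hk
      rcases le_or_gt k 0 with hk0 | hk0
      · have : (k : ℝ) ≤ 0 := by exact_mod_cast hk0
        nlinarith [hk.2]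
      · have : (1 : ℝ) ≤ k := by exact_mod_cast hk0
        nlinarith [hk.1]
    · rw [h] at hk
      rcases le_or_gt 0 k with hk0 | hk0
      · have : (0 : ℝ) ≤ k := by exact_mod_cast hk0
        nlinarith [hk.1]
      · have h9 : k ≤ -1 := by omega
        have : (k : ℝ) ≤ -1 := by exact_mod_cast h9
        nlinarith [hk.2]
  have hlt : ∀ θ, |l θ - L θ| < Real.pi := by
    intro θ
    by_contra hc
    push Not at hc
    have hcabs : Continuous fun θ => |l θ - L θ| := huc.abs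
    obtain ⟨x, hx⟩ := mem_range_of_exists_le_of_exists_ge hcabs
      ⟨0, (by linarith : |l 0 - L 0| ≤ Real.pi)⟩ ⟨θ, hc⟩
    exact hhalf x hx
  intro θ
  obtain ⟨k, hk⟩ := key θ
  have h5 := abs_lt.1 (hlt θ)
  have h6 := abs_le.1 hk
  have hk1 : (k : ℝ) < 1 := by
    by_contra hc
    have : (1 : ℝ) ≤ k := not_lt.1 hc
    nlinarith [h6.1]
  have hk2 : (-1 : ℝ) < k := by
    by_contra hc
    have : (k : ℝ) ≤ -1 := not_lt.1 hc
    nlinarith [h6.2]
  have hk1' : k < 1 := by exact_mod_cast hk1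
  have hk2' : -1 < k := by exact_mod_cast hk2
  have hk0 : k = 0 := by omega
  rw [hk0] at hk
  simpa using hk

/-- Lifts of a homeomorphism do not shrink gaps too much. -/
theorem lift_gap (hact : Continuous fun p : Circle × M => p.1 • p.2)
    (hfree : ∀ (z : Circle) (y : M), z • y = y → z = 1) {f f' : M → M} (hf' : Continuous f')
    (hinv : ∀ x, f' (f x) = x) {γ : ℝ} (hγ : 0 < γ) : ∃ γ' > 0, ∀ (e e' : M) (l : ℝ → ℝ),
      Monotone l → (∀ θ : ℝ, f (Circle.exp θ • e) = Circle.exp (l θ) • e') →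
      ∀ x y, γ ≤ y - x → γ' ≤ l y - l x := by
  have hpi := Real.pi_gt_three
  set g := min γ 1 with hg
  have hg0 : 0 < g := by positivity
  have hg1 : g ≤ 1 := min_le_right _ _
  have hgγ : g ≤ γ := min_le_left _ _
  obtain ⟨δ₁, hδ₁, hrot⟩ := exists_small_rotation hact hfree (ε := g / 2) (by positivity)
  obtain ⟨δ₂, hδ₂, h2⟩ := Metric.uniformContinuous_iff.1
    (CompactSpace.uniformContinuous_of_continuous hf') δ₁ hδ₁
  obtain ⟨γ', hγ', h3⟩ := exists_rot_close (M := M) hact hδ₂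
  refine ⟨γ', hγ', fun e e' l hl hle x y hxy => ?_⟩
  by_contra hcon
  push Not at hcon
  have h4 : l (x + g) - l x < γ' := by
    have := hl (show x + g ≤ y by linarith)
    linarith
  have h5 : 0 ≤ l (x + g) - l x := by
    have := hl (show x ≤ x + g by linarith)
    linarith
  have h6 : f (Circle.exp (x + g) • e) = Circle.exp (l (x + g) - l x) • f (Circle.exp x • e) := by
    rw [hle, hle, smul_smul, ← Circle.exp_add, sub_add_cancel]
  have h7 : dist (f (Circle.exp (x + g) • e)) (f (Circle.exp x • e)) < δ₂ := by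
    rw [h6]
    exact h3 _ _ (by rw [abs_of_nonneg h5]; exact h4)
  have h8 : dist (Circle.exp (x + g) • e) (Circle.exp x • e) < δ₁ := by
    have := h2 h7
    rwa [hinv, hinv] at this
  have h9 : Circle.exp (x + g) • e = Circle.exp g • Circle.exp x • e := by
    rw [smul_smul, ← Circle.exp_add, add_comm]
  rw [h9] at h8
  obtain ⟨c, hc, hc'⟩ := hrot _ _ h8
  have h10 : Circle.exp (g - c) = 1 := by
    rw [sub_eq_add_neg, Circle.exp_add, Circle.exp_neg, hc', mul_inv_cancel]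
  obtain ⟨k, hk⟩ := exp_eq_one_int h10
  have h11 := abs_le.1 hc
  have hk1 : (k : ℝ) < 1 := by
    by_contra hc
    have : (1 : ℝ) ≤ k := not_lt.1 hc
    nlinarith
  have hk2 : (0 : ℝ) < k := by
    by_contra hc
    have : (k : ℝ) ≤ 0 := not_lt.1 hc
    nlinarith
  have hk1' : k < 1 := by exact_mod_cast hk1
  have hk2' : 0 < k := by exact_mod_cast hk2
  omega

/-- Gaps after a given number of steps. -/
theorem orb_gap (hact : Continuous fun p : Circle × M => p.1 • p.2)
    (hfree : ∀ (z : Circle) (y : M), z • y = y → z = 1) {f f' : M → M} (hf' : Continuous f')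
    (hinv : ∀ x, f' (f x) = x) (J : ℕ) {γ : ℝ} (hγ : 0 < γ) :
    ∃ γ' > 0, ∀ (e : ℕ → M) (l : ℕ → ℝ → ℝ), (∀ j, Monotone (l j)) →
      (∀ j < J, ∀ θ : ℝ, f (Circle.exp θ • e j) = Circle.exp (l j θ) • e (j + 1)) →
      ∀ t x y, γ ≤ y - x → γ' ≤ orb l t J y - orb l t J x := by
  induction J with
  | zero => exact ⟨γ, hγ, fun e l _ _ t x y hxy => hxy⟩
  | succ J ih =>
    obtain ⟨γ₁, hγ₁, h1⟩ := ih
    obtain ⟨γ₂, hγ₂, h2⟩ := lift_gap hact hfree hf' hinv hγ₁
    refine ⟨γ₂, hγ₂, fun e l hl hle t x y hxy => ?_⟩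
    have h3 := h1 e l hl (fun j hj => hle j (by omega)) t x y hxy
    have h4 := h2 (e J) (e (J + 1)) (l J) (hl J) (hle J (by omega)) _ _ h3
    show γ₂ ≤ l J (orb l t J y) + t - (l J (orb l t J x) + t)
    linarith

end Compact

end Dens

end Pool.Agent.OmegaStability

end
end

section

/-!
# Displacement functions: traps around attracting and repelling zeros
-/

open Set Filter Topology Function

noncomputable section

namespace Pool.Agent.OmegaStability

namespace Dens

/-- The displacements of a family of circle maps without tangencies. -/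
structure DispFam (φ : ℝ → ℝ → ℝ) (τ : ℝ) : Prop where
  cont : Continuous fun q : ℝ × ℝ => φ q.1 q.2
  per : ∀ (t θ : ℝ) (k : ℤ), φ t (θ + k * (2 * Real.pi)) = φ t θ
  incr : ∀ t t' θ, t ≤ t' → φ t θ + (t' - t) ≤ φ t' θ
  noext : ∀ t, |t| < τ → ∀ θ, φ t θ = 0 → ¬ IsLocalExtr (φ t) θ
  sep : ∀ t, |t| < τ → ∀ a b, a < b → φ t a = 0 → φ t b = 0 → τ - |t| ≤ b - a

theorem MonoFam.dispFam {G : ℝ → ℝ → ℝ} (h : MonoFam G) {τ : ℝ} (hX : NoTangency G τ) :
    DispFam (fun t θ => G t θ - θ) τ where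
  cont := h.cont.sub continuous_snd
  per t θ k := by
    show G t (θ + k * (2 * Real.pi)) - (θ + k * (2 * Real.pi)) = G t θ - θ
    rw [h.per_int]
    ring
  incr t t' θ htt := by
    have := h.incr t t' θ htt
    show G t θ - θ + (t' - t) ≤ G t' θ - θ
    linarith
  noext t ht θ hθ := hX t ht θ (by
    have h1 : G t θ - θ = 0 := hθ
    linarith)
  sep t ht a b hab ha hb := by
    have h1 : G t a - a = 0 := ha
    have h2 : G t b - b = 0 := hb
    exact separated_at h hX ht hab (by linarith) (by linarith)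

namespace DispFam

variable {φ : ℝ → ℝ → ℝ} {τ : ℝ}

theorem cont_left (h : DispFam φ τ) (θ : ℝ) : Continuous fun s => φ s θ :=
  h.cont.comp (continuous_id.prodMk continuous_const)

theorem cont_right (h : DispFam φ τ) (s : ℝ) : Continuous (φ s) :=
  h.cont.comp (continuous_const.prodMk continuous_id)

theorem rev (h : DispFam φ τ) : DispFam (fun t θ => -φ (-t) θ) τ where
  cont := (h.cont.comp ((continuous_fst.neg).prodMk continuous_snd)).neg
  per t θ k := by
    show -φ (-t) (θ + k * (2 * Real.pi)) = -φ (-t) θ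
    rw [h.per]
  incr t t' θ htt := by
    have := h.incr (-t') (-t) θ (by linarith)
    show -φ (-t) θ + (t' - t) ≤ -φ (-t') θ
    linarith
  noext t ht θ hθ hext := by
    have h1 : φ (-t) θ = 0 := by
      have : -φ (-t) θ = 0 := hθ
      linarith
    refine h.noext (-t) (by rwa [abs_neg]) θ h1 ?_
    have h2 := hext.neg
    have h3 : (fun x => -(-φ (-t) x)) = φ (-t) := by
      funext x
      exact neg_neg _
    rwa [h3] at h2
  sep t ht a b hab ha hb := by
    have h1 : -φ (-t) a = 0 := ha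
    have h2 : -φ (-t) b = 0 := hb
    have := h.sep (-t) (by rwa [abs_neg]) a b hab (by linarith) (by linarith)
    rwa [abs_neg] at this

theorem refl (h : DispFam φ τ) : DispFam (fun t θ => φ t (-θ)) τ where
  cont := h.cont.comp (continuous_fst.prodMk continuous_snd.neg)
  per t θ k := by
    have h1 := h.per t (-(θ + k * (2 * Real.pi))) k
    show φ t (-(θ + k * (2 * Real.pi))) = φ t (-θ)
    rw [← h1]
    congr 1
    ring
  incr t t' θ htt := h.incr t t' (-θ) htt
  noext t ht θ hθ hext := by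
    refine h.noext t ht (-θ) hθ ?_
    rcases hext with hm | hm
    · left
      have h1 : Tendsto (fun x : ℝ => -x) (𝓝 (-θ)) (𝓝 θ) := by
        have := (continuous_neg (G := ℝ)).tendsto (-θ)
        rwa [neg_neg] at this
      filter_upwards [h1.eventually hm] with x hx
      have hx' : φ t (-θ) ≤ φ t (-(-x)) := hx
      rwa [neg_neg] at hx'
    · right
      have h1 : Tendsto (fun x : ℝ => -x) (𝓝 (-θ)) (𝓝 θ) := by
        have := (continuous_neg (G := ℝ)).tendsto (-θ)
        rwa [neg_neg] at this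
      filter_upwards [h1.eventually hm] with x hx
      have hx' : φ t (-(-x)) ≤ φ t (-θ) := hx
      rwa [neg_neg] at hx'
  sep t ht a b hab ha hb := by
    have := h.sep t ht (-b) (-a) (by linarith) hb ha
    linarith

/-- A zero between a negative and a positive value. -/
theorem zero_between (h : DispFam φ τ) {s a b : ℝ} (hab : a ≤ b) (ha : φ s a < 0)
    (hb : 0 < φ s b) : ∃ z ∈ Ioo a b, φ s z = 0 := by
  obtain ⟨z, hz, hz'⟩ := intermediate_value_Icc hab (h.cont_right s).continuousOn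
    (show (0 : ℝ) ∈ Icc (φ s a) (φ s b) from ⟨ha.le, hb.le⟩)
  refine ⟨z, ⟨?_, ?_⟩, hz'⟩
  · rcases hz.1.lt_or_eq with h | h
    · exact h
    · rw [← h] at hz'; linarith
  · rcases hz.2.lt_or_eq with h | h
    · exact h
    · rw [h] at hz'; linarith

/-- A zero between a positive and a negative value. -/
theorem zero_between' (h : DispFam φ τ) {s a b : ℝ} (hab : a ≤ b) (ha : 0 < φ s a)
    (hb : φ s b < 0) : ∃ z ∈ Ioo a b, φ s z = 0 := by
  obtain ⟨z, hz, hz'⟩ := intermediate_value_Icc' hab (h.cont_right s).continuousOn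
    (show (0 : ℝ) ∈ Icc (φ s b) (φ s a) from ⟨hb.le, ha.le⟩)
  refine ⟨z, ⟨?_, ?_⟩, hz'⟩
  · rcases hz.1.lt_or_eq with h | h
    · exact h
    · rw [← h] at hz'; linarith
  · rcases hz.2.lt_or_eq with h | h
    · exact h
    · rw [h] at hz'; linarith

/-- Negative values persist as the parameter increases. -/
theorem neg_persists (h : DispFam φ τ) {u v s₀ s₁ : ℝ} (h0 : |s₀| < τ) (h1 : |s₁| < τ)
    (h01 : s₀ ≤ s₁) (hu : 0 < φ s₀ u) (hv : 0 < φ s₀ v) (hw : ∃ w ∈ Icc u v, φ s₀ w < 0) :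
    ∃ w ∈ Icc u v, φ s₁ w < 0 := by
  have hu' : ∀ s ∈ Icc s₀ s₁, 0 < φ s u := fun s hs => by
    have := h.incr s₀ s u hs.1
    linarith [hs.1]
  have hv' : ∀ s ∈ Icc s₀ s₁, 0 < φ s v := fun s hs => by
    have := h.incr s₀ s v hs.1
    linarith [hs.1]
  have hsτ : ∀ s ∈ Icc s₀ s₁, |s| < τ := by
    intro s hs
    rw [abs_lt] at h0 h1 ⊢
    exact ⟨by linarith [hs.1], by linarith [hs.2]⟩
  have hU : IsOpen {s : ℝ | ∃ θ ∈ Icc u v, φ s θ < 0} := by
    have : {s : ℝ | ∃ θ ∈ Icc u v, φ s θ < 0} = ⋃ θ ∈ Icc u v, {s | φ s θ < 0} := by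
      ext s; simp
    rw [this]
    exact isOpen_biUnion fun θ _ => isOpen_lt (h.cont_left θ) continuous_const
  have hV : IsOpen {s : ℝ | ∀ θ ∈ Icc u v, 0 < φ s θ} := by
    rw [isOpen_iff_eventually]
    intro s hs
    refine isCompact_Icc.eventually_forall_of_forall_eventually
      (P := fun s θ => 0 < φ s θ) fun θ hθ => ?_
    exact (isOpen_lt continuous_const h.cont).mem_nhds (hs θ hθ)
  have hsub := isPreconnected_Icc (a := s₀) (b := s₁) |>.subset_left_of_subset_union hU hV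
    (by
      rw [Set.disjoint_left]
      rintro s ⟨θ, hθ, h2⟩ h3
      exact absurd (h3 θ hθ) (not_lt.2 h2.le)) (by
      intro s hs
      by_cases h2 : ∃ θ ∈ Icc u v, φ s θ < 0
      · exact Or.inl h2
      · right
        push Not at h2
        intro θ hθ
        rcases (h2 θ hθ).lt_or_eq with h3 | h3
        · exact h3
        · exfalso
          have hθa : u < θ := by
            rcases hθ.1.lt_or_eq with h | h
            · exact h
            · rw [← h] at h3; linarith [hu' s hs]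
          have hθb : θ < v := by
            rcases hθ.2.lt_or_eq with h | h
            · exact h
            · rw [h] at h3; linarith [hv' s hs]
          refine h.noext s (hsτ s hs) θ h3.symm (Or.inl ?_)
          filter_upwards [Icc_mem_nhds hθa hθb] with x hx
          rw [← h3]
          exact h2 x hx) (show (Icc s₀ s₁ ∩ {s : ℝ | ∃ θ ∈ Icc u v, φ s θ < 0}).Nonempty from
            ⟨s₀, ⟨le_rfl, h01⟩, hw⟩)
  exact hsub (⟨h01, le_rfl⟩ : s₁ ∈ Icc s₀ s₁)

/-- Positive values persist as the parameter decreases. -/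
theorem pos_persists (h : DispFam φ τ) {u v s₀ s₁ : ℝ} (h0 : |s₀| < τ) (h1 : |s₁| < τ)
    (h01 : s₁ ≤ s₀) (hu : φ s₀ u < 0) (hv : φ s₀ v < 0) (hw : ∃ w ∈ Icc u v, 0 < φ s₀ w) :
    ∃ w ∈ Icc u v, 0 < φ s₁ w := by
  obtain ⟨w, hw, hw'⟩ := hw
  obtain ⟨x, hx, hx'⟩ := h.rev.neg_persists (u := u) (v := v) (s₀ := -s₀) (s₁ := -s₁)
    (by rwa [abs_neg]) (by rwa [abs_neg]) (by linarith) (by simpa using hu) (by simpa using hv)
    ⟨w, hw, by simpa using hw'⟩
  exact ⟨x, hx, by simpa using hx'⟩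

/-- The barrier on the right of an attracting zero. -/
theorem barrier (h : DispFam φ τ) (h0 : φ 0 0 = 0) {ρ : ℝ} (hρ : 0 < ρ)
    (hr : ∀ x ∈ Ioo 0 ρ, φ 0 x < 0) {s₁ k : ℝ} (hs : 0 ≤ s₁) (hsτ : s₁ < τ) (hk : k < τ - s₁) :
    ∃ W, k ≤ W ∧ 0 < W ∧ φ s₁ W < 0 ∧ ∀ x ∈ Ioc 0 W, φ 0 x < 0 := by
  have hpi := Real.pi_pos
  have hτ : 0 < τ := by linarith
  have h0τ : |(0 : ℝ)| < τ := by simpa using hτ
  have hs₁τ : |s₁| < τ := by rwa [abs_of_nonneg hs]
  -- the next zero
  set x₀ := ρ / 2 with hx₀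
  have hx₀0 : 0 < x₀ := by positivity
  have hx₀ρ : x₀ ∈ Ioo 0 ρ := ⟨hx₀0, by linarith⟩
  set S := {x | φ 0 x = 0} ∩ Ici x₀ with hS
  have hSc : IsClosed S := (isClosed_eq (h.cont_right 0) continuous_const).inter isClosed_Ici
  have hSne : S.Nonempty := by
    obtain ⟨j, hj⟩ := exists_nat_gt (x₀ / (2 * Real.pi))
    refine ⟨0 + (j : ℤ) * (2 * Real.pi), ?_, ?_⟩
    · show φ 0 (0 + (j : ℤ) * (2 * Real.pi)) = 0
      rw [h.per, h0]
    · rw [div_lt_iff₀ (by positivity)] at hj
      show x₀ ≤ 0 + ((j : ℤ) : ℝ) * (2 * Real.pi)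
      push_cast
      linarith
  have hSb : BddBelow S := ⟨x₀, fun x hx => hx.2⟩
  set v := sInf S with hv
  have hvS : v ∈ S := hSc.csInf_mem hSne hSb
  have hv0 : φ 0 v = 0 := hvS.1
  have hvx : x₀ < v := by
    rcases (show x₀ ≤ v from hvS.2).lt_or_eq with h1 | h1
    · exact h1
    · have := hr x₀ hx₀ρ
      rw [h1, hv0] at this
      exact absurd this (lt_irrefl _)
  have hneg : ∀ x ∈ Ioo 0 v, φ 0 x < 0 := by
    intro x hx
    by_cases h1 : x < ρ
    · exact hr x ⟨hx.1, h1⟩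
    · have h1' : ρ ≤ x := not_lt.1 h1
      by_contra hc
      rcases (not_lt.1 hc).lt_or_eq with h2 | h2
      · obtain ⟨z, hz, hz'⟩ := h.zero_between (a := x₀) (b := x) (by linarith) (hr x₀ hx₀ρ) h2
        have : v ≤ z := csInf_le hSb ⟨hz', hz.1.le⟩
        linarith [hz.2, hx.2]
      · have : v ≤ x := csInf_le hSb ⟨h2.symm, by show x₀ ≤ x; linarith⟩
        linarith [hx.2]
  -- a negative value at `s₁`
  obtain ⟨w, hw, hwneg⟩ : ∃ w ∈ Ioo 0 v, φ s₁ w < 0 := by
    rcases hs.lt_or_eq with hs' | hs'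
    · have h1 : ∀ᶠ s in 𝓝[>] (0 : ℝ), φ s x₀ < 0 :=
        nhdsWithin_le_nhds (((h.cont_left x₀).tendsto 0).eventually (gt_mem_nhds (hr x₀ hx₀ρ)))
      have h2 : ∀ᶠ s in 𝓝[>] (0 : ℝ), s ∈ Ioo 0 s₁ := Ioo_mem_nhdsGT hs'
      obtain ⟨s₀, h3, h4⟩ := (h1.and h2).exists
      have h5 : 0 < φ s₀ 0 := by
        have := h.incr 0 s₀ 0 h4.1.le
        rw [h0] at this
        linarith [h4.1]
      have h6 : 0 < φ s₀ v := by
        have := h.incr 0 s₀ v h4.1.le
        rw [hv0] at this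
        linarith [h4.1]
      obtain ⟨w, hw, hw'⟩ := h.neg_persists (u := 0) (v := v) (s₀ := s₀) (s₁ := s₁)
        (by rw [abs_of_pos h4.1]; linarith [h4.2]) hs₁τ h4.2.le h5 h6
        ⟨x₀, ⟨hx₀0.le, hvx.le⟩, h3⟩
      refine ⟨w, ⟨?_, ?_⟩, hw'⟩
      · rcases hw.1.lt_or_eq with h7 | h7
        · exact h7
        · exfalso
          have := h.incr s₀ s₁ 0 h4.2.le
          rw [← h7] at hw'
          linarith [h4.2]
      · rcases hw.2.lt_or_eq with h7 | h7
        · exact h7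
        · exfalso
          have := h.incr s₀ s₁ v h4.2.le
          rw [h7] at hw'
          linarith [h4.2]
    · exact ⟨x₀, ⟨hx₀0, hvx⟩, by rw [← hs']; exact hr x₀ hx₀ρ⟩
  -- the last zero below `w`
  set T := {x | φ s₁ x = 0} ∩ Icc 0 w with hT
  have hTc : IsCompact T := isCompact_Icc.inter_left
    (isClosed_eq (h.cont_right s₁) continuous_const)
  have h00 : 0 ≤ φ s₁ 0 := by
    have := h.incr 0 s₁ 0 hs
    rw [h0] at this
    linarith
  have hTne : T.Nonempty := by
    rcases h00.lt_or_eq with h1 | h1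
    · obtain ⟨z, hz, hz'⟩ := h.zero_between' hw.1.le h1 hwneg
      exact ⟨z, hz', hz.1.le, hz.2.le⟩
    · exact ⟨0, h1.symm, le_rfl, hw.1.le⟩
  set α := sSup T with hα
  have hαT : α ∈ T := hTc.sSup_mem hTne
  have hα0 : φ s₁ α = 0 := hαT.1
  have hαw : α < w := by
    rcases (show α ≤ w from hαT.2.2).lt_or_eq with h1 | h1
    · exact h1
    · rw [← h1, hα0] at hwneg
      exact absurd hwneg (lt_irrefl _)
  have hnz : ∀ z, α < z → z ≤ w → φ s₁ z ≠ 0 := by
    intro z hz1 hz2 hz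
    have : z ≤ α := le_csSup hTc.bddAbove ⟨hz, hαT.2.1.trans hz1.le, hz2⟩
    linarith
  have hext : ∀ x, w ≤ x → x < α + (τ - s₁) → φ s₁ x < 0 := by
    intro x hx1 hx2
    by_contra hc
    obtain ⟨z, hz1, hz2, hz3⟩ : ∃ z, w ≤ z ∧ z ≤ x ∧ φ s₁ z = 0 := by
      rcases (not_lt.1 hc).lt_or_eq with h1 | h1
      · obtain ⟨z, hz, hz'⟩ := h.zero_between hx1 hwneg h1
        exact ⟨z, hz.1.le, hz.2.le, hz'⟩
      · exact ⟨x, hx1, le_rfl, h1.symm⟩
    have := h.sep s₁ hs₁τ α z (by linarith) hα0 hz3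
    rw [abs_of_nonneg hs] at this
    linarith
  rcases le_or_gt k w with hkw | hkw
  · exact ⟨w, hkw, hw.1, hwneg, fun x hx => hneg x ⟨hx.1, hx.2.trans_lt hw.2⟩⟩
  · have hk1 : k < α + (τ - s₁) := by linarith [hαT.2.1]
    have hkv : k < v := by
      by_contra hc
      have h1 := hext v hw.2.le ((not_lt.1 hc).trans_lt hk1)
      have h2 := h.incr 0 s₁ v hs
      rw [hv0] at h2
      linarith
    exact ⟨k, le_rfl, hw.1.trans hkw, hext k hkw.le hk1,
      fun x hx => hneg x ⟨hx.1, hx.2.trans_lt hkv⟩⟩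

/-- The attracting zero on the right of `0`. -/
theorem attractor_right (h : DispFam φ τ) (h0 : φ 0 0 = 0) {W s₁ : ℝ} (hW : 0 < W)
    (hsτ : s₁ < τ) (hWs : φ s₁ W < 0) (hneg : ∀ x ∈ Ioc 0 W, φ 0 x < 0) {s : ℝ} (hs0 : 0 ≤ s)
    (hs1 : s ≤ s₁) : ∃ α ∈ Ico 0 W, φ s α = 0 ∧ (∀ x ∈ Ioc α W, φ s x < 0) ∧
      ∀ x ∈ Ico 0 α, 0 < φ s x := by
  have hτ : 0 < τ := by linarith
  have h0τ : |(0 : ℝ)| < τ := by simpa using hτ
  have hssτ : |s| < τ := by rw [abs_of_nonneg hs0]; linarith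
  rcases hs0.lt_or_eq with hs | hs
  · have hs0' : 0 < φ s 0 := by
      have := h.incr 0 s 0 hs0
      rw [h0] at this
      linarith
    have hsW : φ s W < 0 := by
      have := h.incr s s₁ W hs1
      linarith
    set T := {x | φ s x = 0} ∩ Icc 0 W with hT
    have hTc : IsCompact T := isCompact_Icc.inter_left
      (isClosed_eq (h.cont_right s) continuous_const)
    have hTne : T.Nonempty := by
      obtain ⟨z, hz, hz'⟩ := h.zero_between' hW.le hs0' hsW
      exact ⟨z, hz', hz.1.le, hz.2.le⟩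
    set α := sInf T with hα
    have hαT : α ∈ T := hTc.sInf_mem hTne
    have hα0 : φ s α = 0 := hαT.1
    have hαW : α < W := by
      rcases (show α ≤ W from hαT.2.2).lt_or_eq with h1 | h1
      · exact h1
      · rw [← h1, hα0] at hsW
        exact absurd hsW (lt_irrefl _)
    have hαpos : 0 < α := by
      rcases (show 0 ≤ α from hαT.2.1).lt_or_eq with h1 | h1
      · exact h1
      · exfalso
        rw [← h1] at hα0
        linarith
    have hpos : ∀ x ∈ Ico 0 α, 0 < φ s x := by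
      intro x hx
      by_contra hc
      obtain ⟨z, hz1, hz2, hz3⟩ : ∃ z, 0 ≤ z ∧ z ≤ x ∧ φ s z = 0 := by
        rcases (not_lt.1 hc).lt_or_eq with h1 | h1
        · obtain ⟨z, hz, hz'⟩ := h.zero_between' hx.1 hs0' h1
          exact ⟨z, hz.1.le, hz.2.le, hz'⟩
        · exact ⟨x, hx.1, le_rfl, h1⟩
      have : α ≤ z := csInf_le hTc.bddBelow ⟨hz3, hz1, by linarith [hx.2]⟩
      linarith [hx.2]
    refine ⟨α, ⟨hαT.2.1, hαW⟩, hα0, ?_, hpos⟩
    intro x hx
    by_contra hc
    -- a negative value between `α` and `x`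
    obtain ⟨u, hu, hu'⟩ : ∃ u ∈ Ioo α x, φ s u < 0 := by
      by_contra hcon
      push Not at hcon
      refine h.noext s hssτ α hα0 (Or.inl ?_)
      filter_upwards [Icc_mem_nhds hαpos hx.1] with y hy
      rw [hα0]
      rcases lt_trichotomy y α with h1 | h1 | h1
      · exact (hpos y ⟨hy.1, h1⟩).le
      · rw [h1, hα0]
      · rcases hy.2.lt_or_eq with h2 | h2
        · exact hcon y ⟨h1, h2⟩
        · rw [h2]; exact not_lt.1 hc
    obtain ⟨w, hw, hw'⟩ : ∃ w ∈ Icc u W, 0 < φ s w := by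
      rcases (not_lt.1 hc).lt_or_eq with h1 | h1
      · exact ⟨x, ⟨hu.2.le, hx.2⟩, h1⟩
      · have hxW : x < W := by
          rcases hx.2.lt_or_eq with h2 | h2
          · exact h2
          · rw [← h2, ← h1] at hsW
            exact absurd hsW (lt_irrefl _)
        by_contra hcon
        push Not at hcon
        refine h.noext s hssτ x h1.symm (Or.inr ?_)
        filter_upwards [Icc_mem_nhds hu.2 hxW] with y hy
        rw [← h1]
        exact hcon y hy
    obtain ⟨y, hy, hy'⟩ := h.pos_persists (u := u) (v := W) (s₀ := s) (s₁ := 0) hssτ h0τ hs0 hu'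
      hsW ⟨w, hw, hw'⟩
    have := hneg y ⟨by linarith [hu.1, hy.1], hy.2⟩
    linarith
  · rw [← hs]
    exact ⟨0, ⟨le_rfl, hW⟩, h0, hneg, fun x hx => absurd hx.2 (not_lt.2 hx.1)⟩

/-- The trap around an attracting zero. -/
theorem trap (h : DispFam φ τ) (h0 : φ 0 0 = 0) {ρ : ℝ} (hρ : 0 < ρ)
    (hr : ∀ x ∈ Ioo 0 ρ, φ 0 x < 0) (hl : ∀ x ∈ Ioo (-ρ) 0, 0 < φ 0 x) {s₁ k : ℝ}
    (hs : 0 ≤ s₁) (hsτ : s₁ < τ) (hk : k < τ - s₁) :
    ∃ W W', k ≤ W ∧ k ≤ W' ∧ 0 < W ∧ 0 < W' ∧ ∀ s, |s| ≤ s₁ → ∃ α ∈ Ioo (-W') W, φ s α = 0 ∧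
      (∀ x ∈ Ioc α W, φ s x < 0) ∧ ∀ x ∈ Ico (-W') α, 0 < φ s x := by
  have h' := h.rev.refl
  obtain ⟨W, hW1, hW2, hW3, hW4⟩ := h.barrier h0 hρ hr hs hsτ hk
  obtain ⟨W', hW1', hW2', hW3', hW4'⟩ := h'.barrier (by simp [h0]) hρ (by
    intro x hx
    show -φ (-0) (-x) < 0
    rw [neg_zero]
    have := hl (-x) ⟨by linarith [hx.2], by linarith [hx.1]⟩
    linarith) hs hsτ hk
  have hpos0 : ∀ x ∈ Ico (-W') 0, 0 < φ 0 x := by
    intro x hx
    have h1 : -φ (-0) (-(-x)) < 0 := hW4' (-x) ⟨by linarith [hx.2], by linarith [hx.1]⟩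
    rw [neg_zero, neg_neg] at h1
    linarith
  refine ⟨W, W', hW1, hW1', hW2, hW2', fun s hs' => ?_⟩
  rcases le_total 0 s with hs0 | hs0
  · rw [abs_of_nonneg hs0] at hs'
    obtain ⟨α, hα, hα0, h1, h2⟩ := h.attractor_right h0 hW2 hsτ hW3 hW4 hs0 hs'
    refine ⟨α, ⟨by linarith [hα.1], hα.2⟩, hα0, h1, fun x hx => ?_⟩
    rcases le_or_gt 0 x with hx0 | hx0
    · exact h2 x ⟨hx0, hx.2⟩
    · have := h.incr 0 s x hs0
      linarith [hpos0 x ⟨hx.1, hx0⟩]
  · rw [abs_of_nonpos hs0] at hs'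
    obtain ⟨α, hα, hα0, h1, h2⟩ := h'.attractor_right (by simp [h0]) hW2' hsτ hW3' hW4'
      (s := -s) (by linarith) hs'
    have hα0' : -φ (-(-s)) (-α) = 0 := hα0
    rw [neg_neg] at hα0'
    refine ⟨-α, ⟨by linarith [hα.2], by linarith [hα.1]⟩, by linarith, fun x hx => ?_,
      fun x hx => ?_⟩
    · rcases le_or_gt x 0 with hx0 | hx0
      · rcases hx0.lt_or_eq with hx1 | hx1
        · have h3 : 0 < -φ (-(-s)) (-(-x)) := h2 (-x) ⟨by linarith, by linarith [hx.1]⟩
          rw [neg_neg, neg_neg] at h3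
          linarith
        · have h3 : 0 < -φ (-(-s)) (-(-x)) := h2 (-x) ⟨by linarith, by linarith [hx.1]⟩
          rw [neg_neg, neg_neg] at h3
          linarith
      · have := h.incr s 0 x hs0
        linarith [hW4 x ⟨hx0, hx.2⟩]
    · have h3 : -φ (-(-s)) (-(-x)) < 0 := h1 (-x) ⟨by linarith [hx.2], by linarith [hx.1]⟩
      rw [neg_neg, neg_neg] at h3
      linarith

end DispFam

end Dens

end Pool.Agent.OmegaStability

end
end

section

/-!
# Shadowing of two periodic orbits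
-/

open Set Filter Topology Function

noncomputable section

namespace Pool.Agent.OmegaStability

namespace Dens

section Base

variable {B : Type*} [MetricSpace B]

theorem iterate_emod {A : B → B} {p : B} {n : ℕ} (hp : A^[n] p = p) (k : ℕ) :
    A^[k % n] p = A^[k] p :=
  (Function.IsPeriodicPt.iterate_mod_apply (f := A) (n := n) hp k)

/-- The full orbit of a periodic point, placed at time `j`. -/
def fullOrbit (A : B → B) (p : B) (n j : ℕ) (i : ℤ) : B := A^[(((j : ℤ) + i) % n).toNat] p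

theorem fullOrbit_succ {A : B → B} {p : B} {n : ℕ} (hn : 0 < n) (hp : A^[n] p = p) (j : ℕ)
    (i : ℤ) : fullOrbit A p n j (i + 1) = A (fullOrbit A p n j i) := by
  unfold fullOrbit
  have hn' : (0 : ℤ) < n := by exact_mod_cast hn
  set k := (((j : ℤ) + i) % n).toNat with hk
  have hk' : (k : ℤ) = ((j : ℤ) + i) % n := Int.toNat_of_nonneg (Int.emod_nonneg _ hn'.ne')
  have h1 : (((j : ℤ) + (i + 1)) % n).toNat = (k + 1) % n := by
    have h2 : ((j : ℤ) + (i + 1)) % n = ((k : ℤ) + 1) % n := by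
      rw [hk', ← add_assoc, Int.emod_add_emod]
    rw [h2]
    have h3 : ((k : ℤ) + 1) % n = (((k + 1) % n : ℕ) : ℤ) := by push_cast; rfl
    rw [h3, Int.toNat_natCast]
  rw [h1, iterate_emod hp, iterate_succ_apply']

theorem fullOrbit_nat {A : B → B} {p : B} {n : ℕ} (hp : A^[n] p = p) (j k : ℕ) {i : ℤ}
    (hi : (k : ℤ) = j + i) : fullOrbit A p n j i = A^[k] p := by
  unfold fullOrbit
  have h3 : (((j : ℤ) + i) % n).toNat = k % n := by
    rw [← hi]
    have h3 : (k : ℤ) % n = ((k % n : ℕ) : ℤ) := by push_cast; rfl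
    rw [h3, Int.toNat_natCast]
  rw [h3, iterate_emod hp]

/-- Uniform expansivity. -/
theorem expansive_accuracy [CompactSpace B] {A : B → B} (hA : Continuous A)
    (hexp : ExpansiveOnPeriodic A) :
    ∃ κ > 0, ∀ δ > 0, ∃ ℓ : ℕ, ∀ p ∈ periodicPts A, ∀ q ∈ periodicPts A, ∀ j : ℕ, ℓ ≤ j →
      (∀ i, j ≤ i + ℓ → i ≤ j + ℓ → dist (A^[i] p) (A^[i] q) ≤ κ) →
      dist (A^[j] p) (A^[j] q) < δ := by
  obtain ⟨κ, hκ, hexp⟩ := hexp
  refine ⟨κ, hκ, fun δ hδ => ?_⟩
  by_contra hcon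
  push Not at hcon
  set C : ℕ → Set ((ℤ → B) × (ℤ → B)) := fun ℓ => {z | (∀ j, z.1 j ∈ closure (periodicPts A)) ∧
    (∀ j, z.2 j ∈ closure (periodicPts A)) ∧ (∀ j, z.1 (j + 1) = A (z.1 j)) ∧
    (∀ j, z.2 (j + 1) = A (z.2 j)) ∧ (∀ j : ℤ, |j| ≤ ℓ → dist (z.1 j) (z.2 j) ≤ κ) ∧
    δ ≤ dist (z.1 0) (z.2 0)} with hC
  have hc1 : ∀ j : ℤ, Continuous fun z : (ℤ → B) × (ℤ → B) => z.1 j := fun j =>
    (continuous_apply j).comp continuous_fst
  have hc2 : ∀ j : ℤ, Continuous fun z : (ℤ → B) × (ℤ → B) => z.2 j := fun j =>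
    (continuous_apply j).comp continuous_snd
  have hclosed : ∀ ℓ, IsClosed (C ℓ) := by
    intro ℓ
    simp only [hC]
    refine IsClosed.inter ?_ (IsClosed.inter ?_ (IsClosed.inter ?_ (IsClosed.inter ?_
      (IsClosed.inter ?_ ?_))))
    · have : {z : (ℤ → B) × (ℤ → B) | ∀ j, z.1 j ∈ closure (periodicPts A)} =
          ⋂ j, (fun z : (ℤ → B) × (ℤ → B) => z.1 j) ⁻¹' closure (periodicPts A) := by
        ext z; simp
      show IsClosed {z : (ℤ → B) × (ℤ → B) | ∀ j, z.1 j ∈ closure (periodicPts A)}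
      rw [this]
      exact isClosed_iInter fun j => isClosed_closure.preimage (hc1 j)
    · have : {z : (ℤ → B) × (ℤ → B) | ∀ j, z.2 j ∈ closure (periodicPts A)} =
          ⋂ j, (fun z : (ℤ → B) × (ℤ → B) => z.2 j) ⁻¹' closure (periodicPts A) := by
        ext z; simp
      show IsClosed {z : (ℤ → B) × (ℤ → B) | ∀ j, z.2 j ∈ closure (periodicPts A)}
      rw [this]
      exact isClosed_iInter fun j => isClosed_closure.preimage (hc2 j)
    · have : {z : (ℤ → B) × (ℤ → B) | ∀ j, z.1 (j + 1) = A (z.1 j)} =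
          ⋂ j, {z : (ℤ → B) × (ℤ → B) | z.1 (j + 1) = A (z.1 j)} := by
        ext z; simp
      show IsClosed {z : (ℤ → B) × (ℤ → B) | ∀ j, z.1 (j + 1) = A (z.1 j)}
      rw [this]
      exact isClosed_iInter fun j => isClosed_eq (hc1 (j + 1)) (hA.comp (hc1 j))
    · have : {z : (ℤ → B) × (ℤ → B) | ∀ j, z.2 (j + 1) = A (z.2 j)} =
          ⋂ j, {z : (ℤ → B) × (ℤ → B) | z.2 (j + 1) = A (z.2 j)} := by
        ext z; simp
      show IsClosed {z : (ℤ → B) × (ℤ → B) | ∀ j, z.2 (j + 1) = A (z.2 j)}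
      rw [this]
      exact isClosed_iInter fun j => isClosed_eq (hc2 (j + 1)) (hA.comp (hc2 j))
    · have : {z : (ℤ → B) × (ℤ → B) | ∀ j : ℤ, |j| ≤ ℓ → dist (z.1 j) (z.2 j) ≤ κ} =
          ⋂ j : ℤ, ⋂ _ : |j| ≤ ℓ, {z : (ℤ → B) × (ℤ → B) | dist (z.1 j) (z.2 j) ≤ κ} := by
        ext z; simp
      show IsClosed {z : (ℤ → B) × (ℤ → B) | ∀ j : ℤ, |j| ≤ ℓ → dist (z.1 j) (z.2 j) ≤ κ}
      rw [this]
      exact isClosed_iInter fun j => isClosed_iInter fun _ =>
        isClosed_le ((hc1 j).dist (hc2 j)) continuous_const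
    · exact isClosed_le continuous_const ((hc1 0).dist (hc2 0))
  have hne : ∀ ℓ, (C ℓ).Nonempty := by
    intro ℓ
    obtain ⟨p, ⟨n, hn, hp⟩, q, ⟨n', hn', hq⟩, j, hj, hclose, hfar⟩ := hcon ℓ
    have hp' : A^[n] p = p := hp
    have hq' : A^[n'] q = q := hq
    refine ⟨(fullOrbit A p n j, fullOrbit A q n' j), ?_, ?_, ?_, ?_, ?_, ?_⟩
    · intro i
      apply subset_closure
      exact ⟨n, hn, Function.IsPeriodicPt.apply_iterate hp _⟩
    · intro i
      apply subset_closure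
      exact ⟨n', hn', Function.IsPeriodicPt.apply_iterate hq _⟩
    · exact fun i => fullOrbit_succ hn hp' j i
    · exact fun i => fullOrbit_succ hn' hq' j i
    · intro i hi
      have h1 := abs_le.1 hi
      obtain ⟨k, hk⟩ : ∃ k : ℕ, (k : ℤ) = j + i := ⟨((j : ℤ) + i).toNat, by
        rw [Int.toNat_of_nonneg]
        omega⟩
      show dist (fullOrbit A p n j i) (fullOrbit A q n' j i) ≤ κ
      rw [fullOrbit_nat hp' j k hk, fullOrbit_nat hq' j k hk]
      exact hclose k (by omega) (by omega)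
    · show δ ≤ dist (fullOrbit A p n j 0) (fullOrbit A q n' j 0)
      rw [fullOrbit_nat hp' j j (by simp), fullOrbit_nat hq' j j (by simp)]
      exact hfar
  have hdec : ∀ ℓ, C (ℓ + 1) ⊆ C ℓ := by
    rintro ℓ z ⟨h1, h2, h3, h4, h5, h6⟩
    exact ⟨h1, h2, h3, h4, fun j hj => h5 j (by push_cast; omega), h6⟩
  obtain ⟨z, hz⟩ := IsCompact.nonempty_iInter_of_sequence_nonempty_isCompact_isClosed C hdec hne
    (hclosed 0).isCompact hclosed
  rw [mem_iInter] at hz
  obtain ⟨h1, h2, h3, h4, -, h6⟩ := hz 0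
  have h7 := hexp z.1 z.2 h1 h2 h3 h4 (fun j => (hz j.natAbs).2.2.2.2.1 j (by simp))
  rw [h7, dist_self] at h6
  linarith

end Base

section Shadow

variable {B M : Type*} [MetricSpace B] [MetricSpace M] [CompactSpace M] [MulAction Circle M]

theorem exists_nearest {π : M → B} (hπ : Continuous π) (hsurj : Surjective π) :
    ∃ ν : M → B → M, (∀ y b, π (ν y b) = b) ∧ ∀ y b y', π y' = b → dist y (ν y b) ≤ dist y y' := by
  have h : ∀ y b, ∃ y', π y' = b ∧ ∀ y'', π y'' = b → dist y y' ≤ dist y y'' := by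
    intro y b
    have hc : IsCompact (π ⁻¹' {b}) := (isClosed_singleton.preimage hπ).isCompact
    obtain ⟨y₀, hy₀⟩ := hsurj b
    obtain ⟨y', hy', hmin⟩ := hc.exists_isMinOn (f := fun y' => dist y y') ⟨y₀, hy₀⟩
      (continuous_const.dist continuous_id).continuousOn
    exact ⟨y', hy', fun y'' hy'' => isMinOn_iff.1 hmin y'' hy''⟩
  choose ν h1 h2 using h
  exact ⟨ν, h1, h2⟩

open Classical in
/-- The pseudo-orbit made of the orbits of `a` and `b`. -/
def pseudo (f : M → M) (a b : M) (N₁ N : ℕ) (j : ℕ) : M :=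
  if j < N₁ then f^[j] a else if j < N then f^[j - N₁] b else a

theorem exists_shadow (hact : Continuous fun p : Circle × M => p.1 • p.2)
    (hfree : ∀ (z : Circle) (y : M), z • y = y → z = 1) {π : M → B}
    (hπ : Continuous π) (hsurj : Surjective π)
    (hfib : ∀ y y' : M, π y = π y' ↔ ∃ z : Circle, z • y = y') {A : B → B}
    (hAc : Continuous A) [CompactSpace B] (hsh : PeriodicShadowing A)
    (hexp : ExpansiveOnPeriodic A) {f : M → M} (hf : Continuous f)
    (hcov : ∀ y, π (f y) = A (π y)) {ℒ : M → ℝ → ℝ} (hℒ : NLift f ℒ) {ε : ℝ} (hε : 0 < ε)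
    (hε1 : ε < 1) :
    ∃ η > 0, ∃ ℓ : ℝ → ℕ, ∀ (a b : M) (n n' : ℕ), 0 < n → 0 < n' → f^[n] a = a → f^[n'] b = b →
      dist a b < η → ∀ K K' : ℕ, 0 < K → 0 < K' → ∃ (e : ℕ → M) (l : ℕ → ℝ → ℝ),
      Chain f ℒ (K * n + K' * n') e l ∧
      (∀ j < K * n, ∀ θ, |l j θ - ℒ (f^[j] a) θ| ≤ ε) ∧
      (∀ j < K' * n', ∀ θ, |l (K * n + j) θ - ℒ (f^[j] b) θ| ≤ ε) ∧
      ∀ δ > 0, (∀ j, ℓ δ ≤ j → j + ℓ δ < K * n → dist (e j) (f^[j] a) < δ ∧
          ∀ θ, |l j θ - ℒ (f^[j] a) θ| ≤ δ) ∧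
        (∀ j, ℓ δ ≤ j → j + ℓ δ < K' * n' → dist (e (K * n + j)) (f^[j] b) < δ ∧
          ∀ θ, |l (K * n + j) θ - ℒ (f^[j] b) θ| ≤ δ) := by
  obtain ⟨κ, hκ, hacc⟩ := expansive_accuracy hAc hexp
  obtain ⟨ν, hν1, hν2⟩ := exists_nearest hπ hsurj
  have hit : ∀ (j : ℕ) (y : M), π (f^[j] y) = A^[j] (π y) := by
    intro j y
    induction j with
    | zero => rfl
    | succ j ih => rw [iterate_succ_apply', hcov, ih, iterate_succ_apply']
  -- coarse constants
  obtain ⟨δ₁, hδ₁, hrot⟩ := exists_small_rotation hact hfree hε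
  obtain ⟨δ₂, hδ₂, hlift⟩ := lift_close hact hfree hf hε hε1
  set δ₃ := min δ₁ δ₂ with hδ₃
  have hδ₃0 : 0 < δ₃ := by positivity
  obtain ⟨δ₄, hδ₄, huc⟩ := Metric.uniformContinuous_iff.1
    (CompactSpace.uniformContinuous_of_continuous hf) (δ₃ / 4) (by positivity)
  set δ₅ := min (δ₃ / 4) δ₄ with hδ₅
  have hδ₅0 : 0 < δ₅ := by positivity
  obtain ⟨δ₆, hδ₆, hnear⟩ := exists_near_fibre hact hπ hsurj hfib hδ₅0
  obtain ⟨δ₇, hδ₇, hshad⟩ := hsh (min δ₆ κ) (by positivity)
  obtain ⟨δ₈, hδ₈, hucπ⟩ := Metric.uniformContinuous_iff.1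
    (CompactSpace.uniformContinuous_of_continuous hπ) δ₇ hδ₇
  -- fine constants
  have hfine : ∀ δ : ℝ, ∃ ℓ : ℕ, 0 < δ → ∀ p ∈ periodicPts A, ∀ q ∈ periodicPts A, ∀ j : ℕ,
      ℓ ≤ j → (∀ i, j ≤ i + ℓ → i ≤ j + ℓ → dist (A^[i] p) (A^[i] q) ≤ κ) →
      ∀ y : M, π y = A^[j] p → dist y (ν y (A^[j] q)) < δ := by
    intro δ
    by_cases hδ : 0 < δ
    · obtain ⟨δ', hδ', h1⟩ := exists_near_fibre hact hπ hsurj hfib hδ
      obtain ⟨ℓ, hℓ⟩ := hacc δ' hδ'
      refine ⟨ℓ, fun _ p hp q hq j hj hcl y hy => ?_⟩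
      obtain ⟨y', hy', hy2⟩ := h1 y (A^[j] q) (by rw [hy]; exact hℓ p hp q hq j hj hcl)
      exact (hν2 y _ y' hy').trans_lt hy2
    · exact ⟨0, fun h => absurd h hδ⟩
  choose ℓ₀ hℓ₀ using hfine
  -- thresholds for the fine closeness of lifts
  have hlf : ∀ δ : ℝ, ∃ δ' : ℝ, 0 < δ → 0 < δ' ∧ δ' ≤ δ ∧
      ∀ (e y e' y' : M) (l L : ℝ → ℝ), Continuous l →
      Continuous L → (∀ θ : ℝ, f (Circle.exp θ • e) = Circle.exp (l θ) • e') →
      (∀ θ : ℝ, f (Circle.exp θ • y) = Circle.exp (L θ) • y') → dist e y < δ' → dist e' y' < δ' →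
      |l 0 - L 0| < 2 → ∀ θ, |l θ - L θ| ≤ δ := by
    intro δ
    by_cases hδ : 0 < δ
    · obtain ⟨δ', hδ', h1⟩ := lift_close hact hfree hf (ε := min δ (1 / 2)) (by positivity)
        ((min_le_right _ _).trans_lt (by norm_num))
      refine ⟨min δ' δ, fun _ => ⟨by positivity, min_le_right _ _, ?_⟩⟩
      intro e y e' y' l L hl hL hle hLy h2 h3 h4 θ
      exact (h1 e y e' y' l L hl hL hle hLy (h2.trans_le (min_le_left _ _))
        (h3.trans_le (min_le_left _ _)) h4 θ).trans (min_le_left _ _)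
    · exact ⟨0, fun h => absurd h hδ⟩
  choose δf hδf using hlf
  refine ⟨min δ₈ (δ₃ / 4), by positivity, fun δ => ℓ₀ (δf δ) + 1, ?_⟩
  intro a b n n' hn hn' ha hb hab K K' hK hK'
  have hab1 : dist a b < δ₈ := hab.trans_le (min_le_left _ _)
  have hab2 : dist a b < δ₃ / 4 := hab.trans_le (min_le_right _ _)
  set N₁ := K * n with hN₁
  set N := K * n + K' * n' with hN
  have hN₁0 : 0 < N₁ := Nat.mul_pos hK hn
  have hN₂0 : 0 < K' * n' := Nat.mul_pos hK' hn'
  have haK : f^[N₁] a = a := (show Function.IsPeriodicPt f n a from ha).const_mul K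
  have hbK : f^[K' * n'] b = b := (show Function.IsPeriodicPt f n' b from hb).const_mul K'
  set y : ℕ → M := pseudo f a b N₁ N with hy
  have hya : ∀ j < N₁, y j = f^[j] a := fun j hj => by simp [hy, pseudo, hj]
  have hyb : ∀ j < K' * n', y (N₁ + j) = f^[j] b := by
    intro j hj
    simp only [hy, pseudo]
    rw [if_neg (by omega), if_pos (by omega)]
    congr 1
    omega
  have hyN : y N = a := by
    simp only [hy, pseudo]
    rw [if_neg (by omega), if_neg (by omega)]
  have hy0 : y 0 = a := hya 0 hN₁0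
  -- jumps in `M`
  have hjump : ∀ j < N, dist (f (y j)) (y (j + 1)) ≤ dist a b := by
    intro j hj
    rcases lt_or_ge j N₁ with h1 | h1
    · rw [hya j h1, ← iterate_succ_apply' f]
      rcases (show j + 1 ≤ N₁ from h1).lt_or_eq with h2 | h2
      · rw [hya _ h2, dist_self]
        exact dist_nonneg
      · have h3 := hyb 0 hN₂0
        rw [Nat.add_zero] at h3
        have h4 : f^[j.succ] a = a := by
          rw [show j.succ = N₁ from h2]
          exact haK
        rw [h4, h2, h3]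
        exact le_rfl
    · obtain ⟨i, rfl⟩ := Nat.exists_eq_add_of_le h1
      have hi : i < K' * n' := by omega
      rw [hyb i hi, ← iterate_succ_apply' f]
      rcases (show i + 1 ≤ K' * n' from hi).lt_or_eq with h2 | h2
      · rw [show N₁ + i + 1 = N₁ + (i + 1) by ring, hyb _ h2, dist_self]
        exact dist_nonneg
      · have h4 : f^[i.succ] b = b := by
          rw [show i.succ = K' * n' from h2]
          exact hbK
        rw [h4, show N₁ + i + 1 = N by omega, hyN, dist_comm]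
  obtain ⟨q, hq, hqj⟩ := hshad N (fun j => π (y j)) (by omega) (by rw [hyN, hy0]) (by
    intro j hj
    rw [← hcov]
    exact hucπ ((hjump j hj).trans_lt hab1))
  have hqper : q ∈ periodicPts A := ⟨N, by omega, hq⟩
  have hq1per : A^[N₁] q ∈ periodicPts A :=
    ⟨N, by omega, Function.IsPeriodicPt.apply_iterate (f := A) (n := N) hq N₁⟩
  have hπa : π a ∈ periodicPts A := ⟨n, hn, by
    show A^[n] (π a) = π a
    rw [← hit, ha]⟩
  have hπb : π b ∈ periodicPts A := ⟨n', hn', by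
    show A^[n'] (π b) = π b
    rw [← hit, hb]⟩
  set e : ℕ → M := fun j => ν (y j) (A^[j] q) with he
  have hπe : ∀ j, π (e j) = A^[j] q := fun j => hν1 _ _
  have hey : ∀ j ≤ N, dist (y j) (e j) < δ₅ := by
    intro j hj
    obtain ⟨y', hy1, hy2⟩ := hnear (y j) (A^[j] q) (by
      rw [dist_comm]
      exact (hqj j hj).trans_le (min_le_left _ _))
    exact (hν2 _ _ _ hy1).trans_lt hy2
  have heN : e N = e 0 := by
    show ν (y N) (A^[N] q) = ν (y 0) (A^[0] q)
    rw [hyN, hy0, hq]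
    rfl
  have hfe : ∀ j < N, dist (e (j + 1)) (f (y j)) < δ₃ / 2 := by
    intro j hj
    have h1 := hey (j + 1) hj
    have h2 := hjump j hj
    have h3 : δ₅ ≤ δ₃ / 4 := min_le_left _ _
    calc dist (e (j + 1)) (f (y j)) ≤ dist (e (j + 1)) (y (j + 1)) + dist (y (j + 1)) (f (y j)) :=
          dist_triangle _ _ _
      _ < δ₃ / 2 := by
          rw [dist_comm (e (j + 1)), dist_comm (y (j + 1)) (f (y j))]
          linarith
  have hc : ∀ j, ∃ c : ℝ, j < N → |c| ≤ ε ∧ f (e j) = Circle.exp c • e (j + 1) := by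
    intro j
    by_cases hj : j < N
    · obtain ⟨z, hz⟩ := (hfib (e (j + 1)) (f (e j))).1 (by
        rw [hcov, hπe, hπe, iterate_succ_apply'])
      have h1 : dist (f (y j)) (f (e j)) < δ₃ / 4 :=
        huc ((hey j hj.le).trans_le (min_le_right _ _))
      have h2 := hfe j hj
      obtain ⟨c, hc, hcz⟩ := hrot z (e (j + 1)) (by
        rw [hz]
        calc dist (f (e j)) (e (j + 1)) ≤ dist (f (e j)) (f (y j)) + dist (f (y j)) (e (j + 1)) :=
              dist_triangle _ _ _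
          _ < δ₃ := by
              rw [dist_comm (f (e j)), dist_comm (f (y j)) (e (j + 1))]
              linarith
          _ ≤ δ₁ := min_le_left _ _)
      exact ⟨c, fun _ => ⟨hc, by rw [hcz, hz]⟩⟩
    · exact ⟨0, fun h => absurd h hj⟩
  choose c hc using hc
  set l : ℕ → ℝ → ℝ := fun j θ => ℒ (e j) θ + c j with hl
  have hmap : ∀ j < N, ∀ θ : ℝ, f (Circle.exp θ • e j) = Circle.exp (l j θ) • e (j + 1) := by
    intro j hj θ
    rw [hℒ.map, (hc j hj).2, smul_smul, ← Circle.exp_add]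
  have hlc : ∀ j, Continuous (l j) := fun j => (hℒ.cont _).add continuous_const
  have hl0 : ∀ j < N, ∀ w : M, |l j 0 - ℒ w 0| < 2 := by
    intro j hj w
    have h1 : l j 0 - ℒ w 0 = c j := by
      simp only [hl]
      rw [hℒ.zero, hℒ.zero]
      ring
    rw [h1]
    have := (hc j hj).1
    linarith
  have hcoarse : ∀ j < N, ∀ θ, |l j θ - ℒ (y j) θ| ≤ ε := by
    intro j hj
    have h3 : δ₃ ≤ δ₂ := min_le_right _ _
    have h4 : δ₅ ≤ δ₃ / 4 := min_le_left _ _
    refine hlift (e j) (y j) (e (j + 1)) (f (y j)) (l j) (ℒ (y j)) (hlc j) (hℒ.cont _)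
      (hmap j hj) (hℒ.map _) ?_ ?_ (hl0 j hj _)
    · rw [dist_comm]
      linarith [hey j hj.le]
    · linarith [hfe j hj]
  refine ⟨e, l, ⟨by omega, heN, ⟨c, fun j θ => rfl⟩, hmap⟩, ?_, ?_, ?_⟩
  · intro j hj θ
    have := hcoarse j (by omega) θ
    rwa [hya j hj] at this
  · intro j hj θ
    have := hcoarse (N₁ + j) (by omega) θ
    rwa [hyb j hj] at this
  · intro δ hδ
    obtain ⟨hδf0, hδfle, hδf'⟩ := hδf δ hδ
    -- closeness of the points
    have hA1 : ∀ j, ℓ₀ (δf δ) ≤ j → j + ℓ₀ (δf δ) < N₁ → dist (f^[j] a) (e j) < δf δ := by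
      intro j h1 h2
      have h3 := hℓ₀ (δf δ) hδf0 (π a) hπa q hqper j h1 (fun i hi1 hi2 => by
        rw [dist_comm, ← hit, ← hya i (by omega)]
        exact ((hqj i (by omega)).trans_le (min_le_right _ _)).le) (f^[j] a) (hit j a)
      show dist (f^[j] a) (ν (y j) (A^[j] q)) < δf δ
      rw [hya j (by omega)]
      exact h3
    have hB1 : ∀ j, ℓ₀ (δf δ) ≤ j → j + ℓ₀ (δf δ) < K' * n' →
        dist (f^[j] b) (e (N₁ + j)) < δf δ := by
      intro j h1 h2
      have h3 := hℓ₀ (δf δ) hδf0 (π b) hπb (A^[N₁] q) hq1per j h1 (fun i hi1 hi2 => by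
        rw [dist_comm, ← hit, ← hyb i (by omega), ← iterate_add_apply, Nat.add_comm i N₁]
        exact ((hqj (N₁ + i) (by omega)).trans_le (min_le_right _ _)).le) (f^[j] b) (hit j b)
      show dist (f^[j] b) (ν (y (N₁ + j)) (A^[N₁ + j] q)) < δf δ
      rw [hyb j (by omega), Nat.add_comm N₁ j, iterate_add_apply]
      exact h3
    constructor
    · intro j h1' h2'
      have h1 : ℓ₀ (δf δ) + 1 ≤ j := h1'
      have h2 : j + (ℓ₀ (δf δ) + 1) < N₁ := h2'
      have h3 := hA1 j (by omega) (by omega)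
      have h4 := hA1 (j + 1) (by omega) (by omega)
      refine ⟨by rw [dist_comm]; exact h3.trans_le hδfle, ?_⟩
      refine hδf' (e j) (f^[j] a) (e (j + 1)) (f (f^[j] a)) (l j) (ℒ (f^[j] a)) (hlc j)
        (hℒ.cont _) (hmap j (by omega)) (hℒ.map _) (by rw [dist_comm]; exact h3) ?_
        (hl0 j (by omega) _)
      rw [dist_comm, ← iterate_succ_apply' f]
      exact h4
    · intro j h1' h2'
      have h1 : ℓ₀ (δf δ) + 1 ≤ j := h1'
      have h2 : j + (ℓ₀ (δf δ) + 1) < K' * n' := h2'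
      have h3 := hB1 j (by omega) (by omega)
      have h4 := hB1 (j + 1) (by omega) (by omega)
      refine ⟨by rw [dist_comm]; exact h3.trans_le hδfle, ?_⟩
      refine hδf' (e (N₁ + j)) (f^[j] b) (e (N₁ + j + 1)) (f (f^[j] b)) (l (N₁ + j))
        (ℒ (f^[j] b)) (hlc _) (hℒ.cont _) (hmap _ (by omega)) (hℒ.map _)
        (by rw [dist_comm]; exact h3) ?_ (hl0 _ (by omega) _)
      rw [dist_comm, ← iterate_succ_apply' f]
      exact h4

end Shadow

end Dens

end Pool.Agent.OmegaStability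

end
end

section

/-!
# Long passages near a periodic circle
-/

open Set Filter Topology Function

noncomputable section

namespace Pool.Agent.OmegaStability

namespace Dens

/-- The product of the derivatives along a circle orbit. -/
def loopD {M : Type*} [MulAction Circle M] (Dm : M → ℝ) (e : ℕ → M) (l : ℕ → ℝ → ℝ) (t : ℝ)
    (n : ℕ) (θ : ℝ) : ℝ := ∏ i ∈ Finset.range n, Dm (Circle.exp (orb l t i θ) • e i)

theorem orb_hasDerivAt {M : Type*} [MulAction Circle M] {Dm : M → ℝ} {e : ℕ → M}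
    {l : ℕ → ℝ → ℝ} {n : ℕ} (h : ∀ j < n, ∀ θ, HasDerivAt (l j) (Dm (Circle.exp θ • e j)) θ)
    (t θ : ℝ) : ∀ j ≤ n, HasDerivAt (orb l t j) (loopD Dm e l t j θ) θ := by
  intro j
  induction j with
  | zero =>
    intro _
    unfold loopD
    rw [Finset.range_zero, Finset.prod_empty]
    exact hasDerivAt_id θ
  | succ j ih =>
    intro hj
    have h1 := ih (by omega)
    have h2 := (h j (by omega) (orb l t j θ)).comp θ h1
    have h3 := h2.add_const t
    unfold loopD at h3 ⊢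
    rw [Finset.prod_range_succ, mul_comm]
    exact h3

theorem loopD_close {M : Type*} [MetricSpace M] [MulAction Circle M]
    (hact : Continuous fun p : Circle × M => p.1 • p.2) {Dm : M → ℝ} (hD : Continuous Dm)
    {E : ℕ → M} {L : ℕ → ℝ → ℝ} (hL : ∀ j, Continuous (L j)) (n : ℕ) (t₀ z : ℝ) {ζ : ℝ}
    (hζ : 0 < ζ) : ∃ δ > 0, ∀ (e : ℕ → M) (l : ℕ → ℝ → ℝ) (t θ : ℝ),
      (∀ j < n, dist (e j) (E j) < δ) → (∀ j < n, ∀ x, |l j x - L j x| ≤ δ) →
      |t - t₀| ≤ δ → |θ - z| ≤ δ → |loopD Dm e l t n θ - loopD Dm E L t₀ n z| < ζ := by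
  by_contra hcon
  push Not at hcon
  choose! e l t θ h1 h2 h3 h4 h5 using fun k : ℕ => hcon (1 / ((k : ℝ) + 1)) (by positivity)
  have hlim : Tendsto (fun k : ℕ => 1 / ((k : ℝ) + 1)) atTop (𝓝 0) :=
    tendsto_one_div_add_atTop_nhds_zero_nat
  have ht : Tendsto t atTop (𝓝 t₀) := by
    rw [tendsto_iff_dist_tendsto_zero]
    exact squeeze_zero (fun k => dist_nonneg) (fun k => h3 k) hlim
  have hθ : Tendsto θ atTop (𝓝 z) := by
    rw [tendsto_iff_dist_tendsto_zero]
    exact squeeze_zero (fun k => dist_nonneg) (fun k => h4 k) hlim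
  have horb : ∀ j ≤ n, Tendsto (fun k => orb (l k) (t k) j (θ k)) atTop (𝓝 (orb L t₀ j z)) := by
    intro j
    induction j with
    | zero => intro _; exact hθ
    | succ j ih =>
      intro hj
      have h6 := ih (by omega)
      have h7 := ((hL j).tendsto _).comp h6
      have h8 : Tendsto (fun k => l k j (orb (l k) (t k) j (θ k)) -
          L j (orb (l k) (t k) j (θ k))) atTop (𝓝 0) := by
        rw [tendsto_zero_iff_abs_tendsto_zero]
        exact squeeze_zero (fun k => abs_nonneg _) (fun k => h2 k j (by omega) _) hlim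
      have h9 := (h8.add h7).add ht
      have h10 : (0 : ℝ) + L j (orb L t₀ j z) + t₀ = orb L t₀ (j + 1) z := by
        show (0 : ℝ) + L j (orb L t₀ j z) + t₀ = L j (orb L t₀ j z) + t₀
        ring
      rw [h10] at h9
      refine h9.congr fun k => ?_
      show l k j (orb (l k) (t k) j (θ k)) - L j (orb (l k) (t k) j (θ k)) +
        L j (orb (l k) (t k) j (θ k)) + t k = l k j (orb (l k) (t k) j (θ k)) + t k
      ring
  have hprod : Tendsto (fun k => loopD Dm (e k) (l k) (t k) n (θ k)) atTop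
      (𝓝 (loopD Dm E L t₀ n z)) := by
    unfold loopD
    refine tendsto_finsetProd _ fun i hi => ?_
    have hi' : i < n := Finset.mem_range.1 hi
    have h6 : Tendsto (fun k => e k i) atTop (𝓝 (E i)) := by
      rw [tendsto_iff_dist_tendsto_zero]
      exact squeeze_zero (fun k => dist_nonneg) (fun k => (h1 k i hi').le) hlim
    have h7 : Tendsto (fun k => Circle.exp (orb (l k) (t k) i (θ k))) atTop
        (𝓝 (Circle.exp (orb L t₀ i z))) := (Circle.exp.continuous.tendsto _).comp (horb i hi'.le)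
    exact (hD.tendsto _).comp ((hact.tendsto _).comp (h7.prodMk_nhds h6))
  obtain ⟨k, hk⟩ := ((Metric.tendsto_nhds.1 hprod) ζ hζ).exists
  exact absurd hk (not_lt.2 (h5 k))

/-- A sequence of maps which follows a periodic circle. -/
structure Passage {M : Type*} [MetricSpace M] [MulAction Circle M] (f : M → M) (E : ℕ → M)
    (L : ℕ → ℝ → ℝ) (ε : ℝ) (ℓ : ℝ → ℕ) (N : ℕ) (e : ℕ → M) (l : ℕ → ℝ → ℝ) : Prop where
  mono : ∀ j, Monotone (l j)
  cont : ∀ j, Continuous (l j)
  map : ∀ j < N, ∀ θ : ℝ, f (Circle.exp θ • e j) = Circle.exp (l j θ) • e (j + 1)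
  coarse : ∀ j < N, ∀ θ, |l j θ - L j θ| ≤ ε
  fine : ∀ δ > 0, ∀ j, ℓ δ ≤ j → j + ℓ δ < N → dist (e j) (E j) < δ ∧ ∀ θ, |l j θ - L j θ| ≤ δ

theorem per_mul {X : Type*} {L : ℕ → X} {n : ℕ} (hper : ∀ j, L (j + n) = L j) (i j : ℕ) :
    L (i * n + j) = L j := by
  induction i with
  | zero => simp
  | succ i ih => rw [show (i + 1) * n + j = (i * n + j) + n by ring, hper, ih]

theorem orb_succ_loop (l : ℕ → ℝ → ℝ) (t : ℝ) (n i : ℕ) (x : ℝ) :
    orb l t ((i + 1) * n) x = orb (fun k => l (i * n + k)) t n (orb l t (i * n) x) := by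
  rw [show (i + 1) * n = i * n + n by ring, orb_add]

theorem loop_sandwich {l L : ℕ → ℝ → ℝ} {n : ℕ} (hLm : ∀ j, Monotone (L j))
    (hLp : ∀ j, L (j + n) = L j) {ε : ℝ} {i : ℕ}
    (h : ∀ j < n, ∀ θ, |l (i * n + j) θ - L (i * n + j) θ| ≤ ε) (t x : ℝ) :
    orb L (t - ε) n (orb l t (i * n) x) ≤ orb l t ((i + 1) * n) x ∧
      orb l t ((i + 1) * n) x ≤ orb L (t + ε) n (orb l t (i * n) x) := by
  rw [orb_succ_loop]
  exact orb_sandwich (l := fun k => l (i * n + k)) hLm (fun j hj y => by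
    have := h j hj y
    rwa [per_mul hLp] at this) t _ n le_rfl

/-- A mean value estimate for the composition of a loop. -/
theorem loop_mean {M : Type*} [MulAction Circle M] {Dm : M → ℝ} {e : ℕ → M}
    {l : ℕ → ℝ → ℝ} {n : ℕ} (h : ∀ j < n, ∀ θ, HasDerivAt (l j) (Dm (Circle.exp θ • e j)) θ)
    (t : ℝ) {x y : ℝ} (hxy : x < y) : ∃ c ∈ Ioo x y,
      orb l t n y - orb l t n x = loopD Dm e l t n c * (y - x) := by
  have hd : ∀ θ, HasDerivAt (orb l t n) (loopD Dm e l t n θ) θ := fun θ =>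
    orb_hasDerivAt h t θ n le_rfl
  have hc : ContinuousOn (orb l t n) (Icc x y) := fun θ _ => (hd θ).continuousAt.continuousWithinAt
  obtain ⟨c, hc1, hc2⟩ := exists_hasDerivAt_eq_slope (orb l t n) (loopD Dm e l t n) hxy hc
    (fun θ _ => hd θ)
  refine ⟨c, hc1, ?_⟩
  rw [hc2, div_mul_cancel₀]
  linarith

theorem orb_lip {M : Type*} [MulAction Circle M] {Dm : M → ℝ} {e : ℕ → M}
    {l : ℕ → ℝ → ℝ} {n : ℕ} (h : ∀ j < n, ∀ θ, HasDerivAt (l j) (Dm (Circle.exp θ • e j)) θ)
    {C : ℝ} (hC : ∀ y, |Dm y| ≤ C) (t : ℝ) {x y : ℝ} (hxy : x ≤ y) :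
    orb l t n y - orb l t n x ≤ C ^ n * (y - x) := by
  rcases hxy.lt_or_eq with h1 | h1
  · obtain ⟨c, -, hc⟩ := loop_mean h t h1
    rw [hc]
    refine mul_le_mul_of_nonneg_right ?_ (by linarith)
    refine (le_abs_self _).trans ?_
    unfold loopD
    rw [Finset.abs_prod]
    refine (Finset.prod_le_prod (fun i _ => abs_nonneg _) (fun i _ => hC _)).trans ?_
    rw [Finset.prod_const, Finset.card_range]
  · rw [h1]
    simp

/-! ### Drift -/

theorem eventually_neg {φ : ℝ → ℝ → ℝ} (hc : Continuous fun q : ℝ × ℝ => φ q.1 q.2) {t₀ u v : ℝ}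
    (h : ∀ x ∈ Icc u v, φ t₀ x < x) : ∀ᶠ s in 𝓝 t₀, ∀ x ∈ Icc u v, φ s x < x := by
  refine isCompact_Icc.eventually_forall_of_forall_eventually
    (P := fun s θ => φ s θ < θ) fun θ hθ => ?_
  exact (isOpen_lt hc continuous_snd).mem_nhds (h θ hθ)

theorem eventually_pos {φ : ℝ → ℝ → ℝ} (hc : Continuous fun q : ℝ × ℝ => φ q.1 q.2) {t₀ u v : ℝ}
    (h : ∀ x ∈ Icc u v, x < φ t₀ x) : ∀ᶠ s in 𝓝 t₀, ∀ x ∈ Icc u v, x < φ s x := by
  refine isCompact_Icc.eventually_forall_of_forall_eventually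
    (P := fun s θ => θ < φ s θ) fun θ hθ => ?_
  exact (isOpen_lt continuous_snd hc).mem_nhds (h θ hθ)

theorem exists_drift_neg {F : ℝ → ℝ} (hF : Continuous F) {u v : ℝ} (huv : u ≤ v)
    (h : ∀ x ∈ Icc u v, F x < x) : ∃ c > 0, ∀ x ∈ Icc u v, F x ≤ x - c := by
  obtain ⟨z, hz, hmin⟩ := isCompact_Icc.exists_isMinOn (nonempty_Icc.2 huv)
    (f := fun x => x - F x) (continuous_id.sub hF).continuousOn
  refine ⟨z - F z, sub_pos.2 (h z hz), fun x hx => ?_⟩
  have := isMinOn_iff.1 hmin x hx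
  linarith

theorem exists_drift_pos {F : ℝ → ℝ} (hF : Continuous F) {u v : ℝ} (huv : u ≤ v)
    (h : ∀ x ∈ Icc u v, x < F x) : ∃ c > 0, ∀ x ∈ Icc u v, x + c ≤ F x := by
  obtain ⟨z, hz, hmin⟩ := isCompact_Icc.exists_isMinOn (nonempty_Icc.2 huv)
    (f := fun x => F x - x) (hF.sub continuous_id).continuousOn
  refine ⟨F z - z, sub_pos.2 (h z hz), fun x hx => ?_⟩
  have := isMinOn_iff.1 hmin x hx
  linarith

/-! ### Passages -/

section Passages

variable {M : Type*} [MetricSpace M] [CompactSpace M] [MulAction Circle M]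

/-- A long passage near an attracting circle contracts the trap. -/
theorem contract_passage (hact : Continuous fun p : Circle × M => p.1 • p.2) {f : M → M}
    {Dm : M → ℝ} (hD : Continuous Dm)
    (hDm : ∀ (e e' : M) (L : ℝ → ℝ), Continuous L → Monotone L →
      (∀ θ : ℝ, f (Circle.exp θ • e) = Circle.exp (L θ) • e') →
      ∀ θ, HasDerivAt L (Dm (Circle.exp θ • e)) θ)
    {E : ℕ → M} {L : ℕ → ℝ → ℝ} {n : ℕ} (hn : 0 < n) (hLc : ∀ j, Continuous (L j))
    (hLm : ∀ j, Monotone (L j)) (hLp : ∀ j, L (j + n) = L j) (hEp : ∀ j, E (j + n) = E j)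
    {ε : ℝ} {W W' : ℝ} (hW : ∀ s, |s| ≤ 3 * ε → orb L s n W < W)
    (hW' : ∀ s, |s| ≤ 3 * ε → -W' < orb L s n (-W')) {t₀ α : ℝ}
    (hα : α ∈ Ioo (-W') W) (hα1 : ∀ x ∈ Ioc α W, orb L t₀ n x < x)
    (hα2 : ∀ x ∈ Ico (-W') α, x < orb L t₀ n x) (hκ : loopD Dm E L t₀ n α < 1) (ℓ : ℝ → ℕ)
    {γ : ℝ} (hγ : 0 < γ) :
    ∃ δ > 0, ∃ K₁ : ℕ, ∀ K ≥ K₁, ∀ t, |t - t₀| ≤ δ → |t| ≤ 2 * ε →
      ∀ (e : ℕ → M) (l : ℕ → ℝ → ℝ), Passage f E L ε ℓ (K * n) e l →
      ∀ x y, x ∈ Icc (-W') W → y ∈ Icc (-W') W → x ≤ y →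
        orb l t (K * n) y - orb l t (K * n) x ≤ γ := by
  set P : ℝ → ℝ → ℝ := fun s => orb L s n with hP
  have hPc : Continuous fun q : ℝ × ℝ => P q.1 q.2 := orb_cont hLc n
  have hPm : ∀ s, Monotone (P s) := fun s => orb_mono hLm s n
  have hPs : ∀ s s' x, s ≤ s' → P s x ≤ P s' x := fun s s' x h => orb_le_orb hLm h x n
  have hPc' : ∀ s, Continuous (P s) := fun s => hPc.comp (continuous_const.prodMk continuous_id)
  set D := loopD Dm E L t₀ n α with hDdef
  set κ := max ((1 + D) / 2) (1 / 2) with hκdef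
  have hκ1 : κ < 1 := max_lt (by linarith) (by norm_num)
  have hκ0 : 0 < κ := lt_of_lt_of_le (by norm_num) (le_max_right _ _)
  have hDκ : D < κ := lt_of_lt_of_le (by linarith) (le_max_left _ _)
  obtain ⟨δ₁, hδ₁, hloop⟩ := loopD_close hact hD (E := E) hLc n t₀ α (ζ := κ - D) (by linarith)
  set ρ := min δ₁ (min ((W - α) / 2) ((α + W') / 2)) with hρdef
  have hα' := hα.1
  have hα'' := hα.2
  have hρ0 : 0 < ρ := by
    refine lt_min hδ₁ (lt_min ?_ ?_) <;> linarith
  have hρ1 : ρ ≤ δ₁ := min_le_left _ _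
  have hρ2 : α + ρ < W := by
    have : ρ ≤ (W - α) / 2 := (min_le_right _ _).trans (min_le_left _ _)
    linarith
  have hρ3 : -W' < α - ρ := by
    have : ρ ≤ (α + W') / 2 := (min_le_right _ _).trans (min_le_right _ _)
    linarith
  have hev1 := eventually_neg hPc (t₀ := t₀) (u := α + ρ) (v := W)
    (fun x hx => hα1 x ⟨by linarith [hx.1], hx.2⟩)
  have hev2 := eventually_pos hPc (t₀ := t₀) (u := -W') (v := α - ρ)
    (fun x hx => hα2 x ⟨hx.1, by linarith [hx.2]⟩)
  obtain ⟨δ₂, hδ₂, hball⟩ := Metric.eventually_nhds_iff.1 (hev1.and hev2)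
  set δ := min δ₁ (δ₂ / 4) with hδdef
  have hδ0 : 0 < δ := by positivity
  have hδδ₁ : δ ≤ δ₁ := min_le_left _ _
  have hδδ₂ : δ ≤ δ₂ / 4 := min_le_right _ _
  obtain ⟨c₁, hc₁, hd₁⟩ := exists_drift_neg (hPc' (t₀ + 2 * δ)) (u := α + ρ) (v := W) hρ2.le
    (hball (show dist (t₀ + 2 * δ) t₀ < δ₂ by
      rw [Real.dist_eq, add_sub_cancel_left, abs_of_pos (by positivity)]
      linarith)).1
  obtain ⟨c₂, hc₂, hd₂⟩ := exists_drift_pos (hPc' (t₀ - 2 * δ)) (u := -W') (v := α - ρ) hρ3.le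
    (hball (show dist (t₀ - 2 * δ) t₀ < δ₂ by
      rw [Real.dist_eq, show t₀ - 2 * δ - t₀ = -(2 * δ) by ring, abs_neg,
        abs_of_pos (by positivity)]
      linarith)).2
  obtain ⟨M₁, hM₁⟩ := exists_nat_gt ((W + W') / c₁)
  obtain ⟨M₂, hM₂⟩ := exists_nat_gt ((W + W') / c₂)
  rw [div_lt_iff₀ hc₁] at hM₁
  rw [div_lt_iff₀ hc₂] at hM₂
  set M₀ := max M₁ M₂ with hM₀
  set ℓ₀ := ℓ δ with hℓ₀
  -- a bound of the derivative
  obtain ⟨C, hC⟩ : ∃ C, ∀ y, |Dm y| ≤ C := by
    obtain ⟨C, hC⟩ := isCompact_univ.exists_bound_of_continuousOn hD.continuousOn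
    exact ⟨C, fun y => by simpa using hC y (mem_univ _)⟩
  set C' := max C 1 with hC'
  have hC'b : ∀ y, |Dm y| ≤ C' := fun y => (hC y).trans (le_max_left _ _)
  have hC'0 : 0 < C' := lt_of_lt_of_le one_pos (le_max_right _ _)
  have hlimκ : Tendsto (fun k : ℕ => C' ^ (ℓ₀ * n) * (κ ^ k * (2 * ρ))) atTop (𝓝 0) := by
    have h1 := (tendsto_pow_atTop_nhds_zero_of_lt_one hκ0.le hκ1).mul_const (2 * ρ)
    have h2 := h1.const_mul (C' ^ (ℓ₀ * n))
    simpa using h2
  obtain ⟨K₂, hK₂⟩ := eventually_atTop.1 (hlimκ.eventually (gt_mem_nhds hγ))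
  refine ⟨δ, hδ0, K₂ + 2 * ℓ₀ + M₀, fun K hK t ht htε e l hpass x y hx hy hxy => ?_⟩
  have ht' := abs_le.1 ht
  have htε' := abs_le.1 htε
  -- one loop
  have hidx : ∀ i < K, ∀ j < n, i * n + j < K * n := by
    intro i hi j hj
    calc i * n + j < i * n + n := by omega
      _ = (i + 1) * n := by ring
      _ ≤ K * n := Nat.mul_le_mul_right n hi
  have hcoarse : ∀ i < K, ∀ z, P (t - ε) (orb l t (i * n) z) ≤ orb l t ((i + 1) * n) z ∧
      orb l t ((i + 1) * n) z ≤ P (t + ε) (orb l t (i * n) z) := fun i hi z =>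
    loop_sandwich hLm hLp (fun j hj θ => hpass.coarse _ (hidx i hi j hj) θ) t z
  have hfineidx : ∀ i, ℓ₀ ≤ i → i + 1 + ℓ₀ ≤ K → ∀ j < n, ℓ₀ ≤ i * n + j ∧
      i * n + j + ℓ₀ < K * n := by
    intro i hi1 hi2 j hj
    constructor
    · calc ℓ₀ ≤ i * 1 := by omega
        _ ≤ i * n := Nat.mul_le_mul_left i hn
        _ ≤ i * n + j := Nat.le_add_right _ _
    · calc i * n + j + ℓ₀ < i * n + n + ℓ₀ := by omega
        _ ≤ i * n + n + ℓ₀ * n := by
            have : ℓ₀ * 1 ≤ ℓ₀ * n := Nat.mul_le_mul_left ℓ₀ hn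
            omega
        _ = (i + 1 + ℓ₀) * n := by ring
        _ ≤ K * n := Nat.mul_le_mul_right n hi2
  have hfine : ∀ i, ℓ₀ ≤ i → i + 1 + ℓ₀ ≤ K → ∀ z,
      P (t - δ) (orb l t (i * n) z) ≤ orb l t ((i + 1) * n) z ∧
      orb l t ((i + 1) * n) z ≤ P (t + δ) (orb l t (i * n) z) := fun i hi1 hi2 z =>
    loop_sandwich hLm hLp (fun j hj θ => (hpass.fine δ hδ0 _ (hfineidx i hi1 hi2 j hj).1
      (hfineidx i hi1 hi2 j hj).2).2 θ) t z
  -- the trap
  have htrap : ∀ z ∈ Icc (-W') W, ∀ i ≤ K, orb l t (i * n) z ∈ Icc (-W') W := by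
    intro z hz i
    induction i with
    | zero => intro _; simpa [orb] using hz
    | succ i ih =>
      intro hi
      have h1 := ih (by omega)
      obtain ⟨h2, h3⟩ := hcoarse i (by omega) z
      constructor
      · have h4 := hPm (t - ε) h1.1
        have h5 := hW' (t - ε) (by rw [abs_le]; constructor <;> linarith)
        have h6 : orb L (t - ε) n (-W') = P (t - ε) (-W') := rfl
        linarith
      · have h4 := hPm (t + ε) h1.2
        have h5 := hW (t + ε) (by rw [abs_le]; constructor <;> linarith)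
        have h6 : orb L (t + ε) n W = P (t + ε) W := rfl
        linarith
  -- attraction
  have hup : ∀ z ∈ Icc (-W') W, ∀ k, ℓ₀ + k + ℓ₀ ≤ K →
      orb l t ((ℓ₀ + k) * n) z ≤ (P (t₀ + 2 * δ))^[k] W := by
    intro z hz k
    induction k with
    | zero =>
      intro hk
      exact (htrap z hz ℓ₀ (by omega)).2
    | succ k ih =>
      intro hk
      have h1 := (hfine (ℓ₀ + k) (by omega) (by omega) z).2
      have h2 := hPm (t + δ) (ih (by omega))
      have h3 := hPs (t + δ) (t₀ + 2 * δ) ((P (t₀ + 2 * δ))^[k] W) (by linarith)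
      rw [iterate_succ_apply', show ℓ₀ + (k + 1) = ℓ₀ + k + 1 by ring]
      linarith
  have hdown : ∀ z ∈ Icc (-W') W, ∀ k, ℓ₀ + k + ℓ₀ ≤ K →
      (P (t₀ - 2 * δ))^[k] (-W') ≤ orb l t ((ℓ₀ + k) * n) z := by
    intro z hz k
    induction k with
    | zero =>
      intro hk
      exact (htrap z hz ℓ₀ (by omega)).1
    | succ k ih =>
      intro hk
      have h1 := (hfine (ℓ₀ + k) (by omega) (by omega) z).1
      have h2 := hPm (t - δ) (ih (by omega))
      have h3 := hPs (t₀ - 2 * δ) (t - δ) ((P (t₀ - 2 * δ))^[k] (-W')) (by linarith)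
      rw [iterate_succ_apply', show ℓ₀ + (k + 1) = ℓ₀ + k + 1 by ring]
      linarith
  have hWW : 0 < W + W' := by linarith
  have hnear : ∀ z ∈ Icc (-W') W, ∀ k, M₀ ≤ k → ℓ₀ + k + ℓ₀ ≤ K →
      orb l t ((ℓ₀ + k) * n) z ∈ Icc (α - ρ) (α + ρ) := by
    intro z hz k hk hk'
    have hk1 : (M₁ : ℝ) ≤ k := by exact_mod_cast (le_max_left M₁ M₂).trans hk
    have hk2 : (M₂ : ℝ) ≤ k := by exact_mod_cast (le_max_right M₁ M₂).trans hk
    constructor
    · refine le_trans ?_ (hdown z hz k hk')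
      refine le_iterate_of_drift (hPm _) hc₂.le ?_ hd₂ ?_
      · have := hd₂ (α - ρ) ⟨hρ3.le, le_rfl⟩
        linarith
      · have h1 := mul_le_mul_of_nonneg_right hk2 hc₂.le
        linarith
    · refine (hup z hz k hk').trans ?_
      refine iterate_le_of_drift (hPm _) hc₁.le ?_ hd₁ ?_
      · have := hd₁ (α + ρ) ⟨le_rfl, hρ2.le⟩
        linarith
      · have h1 := mul_le_mul_of_nonneg_right hk1 hc₁.le
        linarith
  -- derivatives
  have hder : ∀ j < K * n, ∀ θ, HasDerivAt (l j) (Dm (Circle.exp θ • e j)) θ := fun j hj θ =>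
    hDm (e j) (e (j + 1)) (l j) (hpass.cont j) (hpass.mono j) (hpass.map j hj) θ
  have hmono : ∀ i, orb l t (i * n) x ≤ orb l t (i * n) y := fun i => orb_mono hpass.mono t _ hxy
  -- contraction
  have hgap : ∀ m, ℓ₀ + M₀ + m + ℓ₀ ≤ K →
      orb l t ((ℓ₀ + M₀ + m) * n) y - orb l t ((ℓ₀ + M₀ + m) * n) x ≤ κ ^ m * (2 * ρ) := by
    intro m
    induction m with
    | zero =>
      intro hm
      have h1 := hnear x hx M₀ le_rfl (by omega)
      have h2 := hnear y hy M₀ le_rfl (by omega)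
      rw [pow_zero, one_mul, Nat.add_zero]
      linarith [h1.1, h2.2]
    | succ m ih =>
      intro hm
      have h0 := ih (by omega)
      set i := ℓ₀ + M₀ + m with hi
      have h1 := hnear x hx (M₀ + m) (by omega) (by omega)
      have h2 := hnear y hy (M₀ + m) (by omega) (by omega)
      rw [show ℓ₀ + (M₀ + m) = i by omega] at h1 h2
      rw [show ℓ₀ + M₀ + (m + 1) = i + 1 by omega, orb_succ_loop, orb_succ_loop]
      rcases (hmono i).lt_or_eq with h3 | h3
      · obtain ⟨c, hc1, hc2⟩ := loop_mean (l := fun k => l (i * n + k))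
          (e := fun k => e (i * n + k)) (n := n)
          (fun j hj θ => hder _ (hidx i (by omega) j hj) θ) t h3
        have h4 : loopD Dm (fun k => e (i * n + k)) (fun k => l (i * n + k)) t n c < κ := by
          have h5 := hloop (fun k => e (i * n + k)) (fun k => l (i * n + k)) t c
            (fun j hj => by
              have h6 := (hpass.fine δ hδ0 _ (hfineidx i (by omega) (by omega) j hj).1
                (hfineidx i (by omega) (by omega) j hj).2).1
              rw [per_mul hEp] at h6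
              exact h6.trans_le hδδ₁)
            (fun j hj θ => by
              have h6 := (hpass.fine δ hδ0 _ (hfineidx i (by omega) (by omega) j hj).1
                (hfineidx i (by omega) (by omega) j hj).2).2 θ
              rw [per_mul hLp] at h6
              exact h6.trans hδδ₁)
            (ht.trans hδδ₁) (by
              rw [abs_le]
              constructor
              · linarith [hc1.1, h1.1]
              · linarith [hc1.2, h2.2])
          have h6 := (abs_lt.1 h5).2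
          linarith
        rw [hc2]
        calc _ ≤ κ * (orb l t (i * n) y - orb l t (i * n) x) :=
              mul_le_mul_of_nonneg_right h4.le (by linarith)
          _ ≤ κ * (κ ^ m * (2 * ρ)) := mul_le_mul_of_nonneg_left h0 hκ0.le
          _ = κ ^ (m + 1) * (2 * ρ) := by ring
      · rw [h3, sub_self]
        positivity
  -- the end
  have hKsub : K - ℓ₀ = ℓ₀ + M₀ + (K - 2 * ℓ₀ - M₀) := by omega
  have h1 := hgap (K - 2 * ℓ₀ - M₀) (by omega)
  rw [← hKsub] at h1
  have hKn : K * n = (K - ℓ₀) * n + ℓ₀ * n := by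
    rw [← Nat.add_mul]
    congr 1
    omega
  have h2 := orb_lip (l := fun k => l ((K - ℓ₀) * n + k)) (e := fun k => e ((K - ℓ₀) * n + k))
    (n := ℓ₀ * n) (fun j hj θ => hder _ (by omega) θ) hC'b t (hmono (K - ℓ₀))
  rw [hKn, orb_add, orb_add]
  refine h2.trans ?_
  have h3 := hK₂ (K - 2 * ℓ₀ - M₀) (by omega)
  calc _ ≤ C' ^ (ℓ₀ * n) * (κ ^ (K - 2 * ℓ₀ - M₀) * (2 * ρ)) :=
        mul_le_mul_of_nonneg_left h1 (by positivity)
    _ ≤ γ := h3.le

/-- A long passage near a repelling circle expels one of the two points of a gap. -/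
theorem expand_passage (hact : Continuous fun p : Circle × M => p.1 • p.2)
    (hfree : ∀ (z : Circle) (y : M), z • y = y → z = 1) {f f' : M → M} (hf' : Continuous f')
    (hinv : ∀ x, f' (f x) = x)
    {Dm : M → ℝ} (hD : Continuous Dm)
    (hDm : ∀ (e e' : M) (L : ℝ → ℝ), Continuous L → Monotone L →
      (∀ θ : ℝ, f (Circle.exp θ • e) = Circle.exp (L θ) • e') →
      ∀ θ, HasDerivAt L (Dm (Circle.exp θ • e)) θ)
    {E : ℕ → M} {L : ℕ → ℝ → ℝ} {n : ℕ} (hn : 0 < n) (hLc : ∀ j, Continuous (L j))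
    (hLm : ∀ j, Monotone (L j)) (hLp : ∀ j, L (j + n) = L j) (hEp : ∀ j, E (j + n) = E j)
    {ε : ℝ} {W W' : ℝ} (hW : ∀ s, |s| ≤ 3 * ε → W < orb L s n W)
    (hW' : ∀ s, |s| ≤ 3 * ε → orb L s n (-W') < -W') {t₀ β : ℝ}
    (hβ : β ∈ Ioo (-W') W) (hβ1 : ∀ x ∈ Ioc β W, x < orb L t₀ n x)
    (hβ2 : ∀ x ∈ Ico (-W') β, orb L t₀ n x < x) (hκ : 1 < loopD Dm E L t₀ n β) (ℓ : ℝ → ℕ)
    {γ : ℝ} (hγ : 0 < γ) :
    ∃ δ > 0, ∃ K₁ : ℕ, ∀ K ≥ K₁, ∀ t, |t - t₀| ≤ δ → |t| ≤ 2 * ε →
      ∀ (e : ℕ → M) (l : ℕ → ℝ → ℝ), Passage f E L ε ℓ (K * n) e l →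
      ∀ x y, γ ≤ y - x → orb l t (K * n) x ≤ -W' ∨ W ≤ orb l t (K * n) y := by
  set P : ℝ → ℝ → ℝ := fun s => orb L s n with hP
  have hPc : Continuous fun q : ℝ × ℝ => P q.1 q.2 := orb_cont hLc n
  have hPm : ∀ s, Monotone (P s) := fun s => orb_mono hLm s n
  have hPs : ∀ s s' x, s ≤ s' → P s x ≤ P s' x := fun s s' x h => orb_le_orb hLm h x n
  have hPc' : ∀ s, Continuous (P s) := fun s => hPc.comp (continuous_const.prodMk continuous_id)
  set D := loopD Dm E L t₀ n β with hDdef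
  set κ := (1 + D) / 2 with hκdef
  have hκ1 : 1 < κ := by linarith
  have hκ0 : 0 < κ := by linarith
  have hDκ : κ < D := by linarith
  obtain ⟨δ₁, hδ₁, hloop⟩ := loopD_close hact hD (E := E) hLc n t₀ β (ζ := D - κ) (by linarith)
  set ρ := min δ₁ (min ((W - β) / 2) ((β + W') / 2)) with hρdef
  have hβ' := hβ.1
  have hβ'' := hβ.2
  have hρ0 : 0 < ρ := by
    refine lt_min hδ₁ (lt_min ?_ ?_) <;> linarith
  have hρ1 : ρ ≤ δ₁ := min_le_left _ _
  have hρ2 : β + ρ < W := by
    have : ρ ≤ (W - β) / 2 := (min_le_right _ _).trans (min_le_left _ _)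
    linarith
  have hρ3 : -W' < β - ρ := by
    have : ρ ≤ (β + W') / 2 := (min_le_right _ _).trans (min_le_right _ _)
    linarith
  have hev1 := eventually_pos hPc (t₀ := t₀) (u := β + ρ) (v := W)
    (fun x hx => hβ1 x ⟨by linarith [hx.1], hx.2⟩)
  have hev2 := eventually_neg hPc (t₀ := t₀) (u := -W') (v := β - ρ)
    (fun x hx => hβ2 x ⟨hx.1, by linarith [hx.2]⟩)
  obtain ⟨δ₂, hδ₂, hball⟩ := Metric.eventually_nhds_iff.1 (hev1.and hev2)
  set δ := min δ₁ (δ₂ / 4) with hδdef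
  have hδ0 : 0 < δ := by positivity
  have hδδ₁ : δ ≤ δ₁ := min_le_left _ _
  have hδδ₂ : δ ≤ δ₂ / 4 := min_le_right _ _
  obtain ⟨c₁, hc₁, hd₁⟩ := exists_drift_pos (hPc' (t₀ - 2 * δ)) (u := β + ρ) (v := W) hρ2.le
    (hball (show dist (t₀ - 2 * δ) t₀ < δ₂ by
      rw [Real.dist_eq, show t₀ - 2 * δ - t₀ = -(2 * δ) by ring, abs_neg,
        abs_of_pos (by positivity)]
      linarith)).1
  obtain ⟨c₂, hc₂, hd₂⟩ := exists_drift_neg (hPc' (t₀ + 2 * δ)) (u := -W') (v := β - ρ) hρ3.le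
    (hball (show dist (t₀ + 2 * δ) t₀ < δ₂ by
      rw [Real.dist_eq, add_sub_cancel_left, abs_of_pos (by positivity)]
      linarith)).2
  obtain ⟨M₁, hM₁⟩ := exists_nat_gt ((W + W') / c₁)
  obtain ⟨M₂, hM₂⟩ := exists_nat_gt ((W + W') / c₂)
  rw [div_lt_iff₀ hc₁] at hM₁
  rw [div_lt_iff₀ hc₂] at hM₂
  set M₀ := max M₁ M₂ with hM₀
  have hWW : 0 < W + W' := by linarith
  have hM₁' : (M₁ : ℝ) * c₁ ≤ M₀ * c₁ :=
    mul_le_mul_of_nonneg_right (by exact_mod_cast le_max_left M₁ M₂) hc₁.le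
  have hM₂' : (M₂ : ℝ) * c₂ ≤ M₀ * c₂ :=
    mul_le_mul_of_nonneg_right (by exact_mod_cast le_max_right M₁ M₂) hc₂.le
  have hM₀pos : 0 < M₀ := by
    by_contra hc
    have h1 : M₀ = 0 := by omega
    rw [h1] at hM₁'
    push_cast at hM₁'
    linarith
  set ℓ₀ := ℓ δ with hℓ₀
  obtain ⟨γ₀, hγ₀, hγ₀'⟩ := orb_gap hact hfree hf' hinv (ℓ₀ * n) hγ
  have hlimκ : Tendsto (fun k : ℕ => κ ^ k * γ₀) atTop atTop :=
    (tendsto_pow_atTop_atTop_of_one_lt hκ1).atTop_mul_const hγ₀
  obtain ⟨K₂, hK₂⟩ := eventually_atTop.1 (hlimκ.eventually (eventually_gt_atTop (2 * ρ)))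
  refine ⟨δ, hδ0, K₂ + 2 * ℓ₀ + M₀, fun K hK t ht htε e l hpass x y hxy => ?_⟩
  by_contra hcon
  push Not at hcon
  obtain ⟨hconx, hcony⟩ := hcon
  have ht' := abs_le.1 ht
  have htε' := abs_le.1 htε
  -- one loop
  have hidx : ∀ i < K, ∀ j < n, i * n + j < K * n := by
    intro i hi j hj
    calc i * n + j < i * n + n := by omega
      _ = (i + 1) * n := by ring
      _ ≤ K * n := Nat.mul_le_mul_right n hi
  have hcoarse : ∀ i < K, ∀ z, P (t - ε) (orb l t (i * n) z) ≤ orb l t ((i + 1) * n) z ∧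
      orb l t ((i + 1) * n) z ≤ P (t + ε) (orb l t (i * n) z) := fun i hi z =>
    loop_sandwich hLm hLp (fun j hj θ => hpass.coarse _ (hidx i hi j hj) θ) t z
  have hfineidx : ∀ i, ℓ₀ ≤ i → i + 1 + ℓ₀ ≤ K → ∀ j < n, ℓ₀ ≤ i * n + j ∧
      i * n + j + ℓ₀ < K * n := by
    intro i hi1 hi2 j hj
    constructor
    · calc ℓ₀ ≤ i * 1 := by omega
        _ ≤ i * n := Nat.mul_le_mul_left i hn
        _ ≤ i * n + j := Nat.le_add_right _ _
    · calc i * n + j + ℓ₀ < i * n + n + ℓ₀ := by omega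
        _ ≤ i * n + n + ℓ₀ * n := by
            have : ℓ₀ * 1 ≤ ℓ₀ * n := Nat.mul_le_mul_left ℓ₀ hn
            omega
        _ = (i + 1 + ℓ₀) * n := by ring
        _ ≤ K * n := Nat.mul_le_mul_right n hi2
  have hfine : ∀ i, ℓ₀ ≤ i → i + 1 + ℓ₀ ≤ K → ∀ z,
      P (t - δ) (orb l t (i * n) z) ≤ orb l t ((i + 1) * n) z ∧
      orb l t ((i + 1) * n) z ≤ P (t + δ) (orb l t (i * n) z) := fun i hi1 hi2 z =>
    loop_sandwich hLm hLp (fun j hj θ => (hpass.fine δ hδ0 _ (hfineidx i hi1 hi2 j hj).1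
      (hfineidx i hi1 hi2 j hj).2).2 θ) t z
  -- no escape before the end
  have hYup : ∀ i k, i + k ≤ K → W ≤ orb l t (i * n) y → W ≤ orb l t ((i + k) * n) y := by
    intro i k
    induction k with
    | zero => intro _ h; exact h
    | succ k ih =>
      intro hk h
      have h1 := ih (by omega) h
      obtain ⟨h2, h3⟩ := hcoarse (i + k) (by omega) y
      have h4 := hPm (t - ε) h1
      have h5 := hW (t - ε) (by rw [abs_le]; constructor <;> linarith)
      have h6 : orb L (t - ε) n W = P (t - ε) W := rfl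
      rw [show i + (k + 1) = i + k + 1 by ring]
      linarith
  have hXdown : ∀ i k, i + k ≤ K → orb l t (i * n) x ≤ -W' → orb l t ((i + k) * n) x ≤ -W' := by
    intro i k
    induction k with
    | zero => intro _ h; exact h
    | succ k ih =>
      intro hk h
      have h1 := ih (by omega) h
      obtain ⟨h2, h3⟩ := hcoarse (i + k) (by omega) x
      have h4 := hPm (t + ε) h1
      have h5 := hW' (t + ε) (by rw [abs_le]; constructor <;> linarith)
      have h6 : orb L (t + ε) n (-W') = P (t + ε) (-W') := rfl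
      rw [show i + (k + 1) = i + k + 1 by ring]
      linarith
  have hY : ∀ i ≤ K, orb l t (i * n) y < W := by
    intro i hi
    by_contra hc
    have := hYup i (K - i) (by omega) (not_lt.1 hc)
    rw [show i + (K - i) = K by omega] at this
    linarith
  have hX : ∀ i ≤ K, -W' < orb l t (i * n) x := by
    intro i hi
    by_contra hc
    have := hXdown i (K - i) (by omega) (not_lt.1 hc)
    rw [show i + (K - i) = K by omega] at this
    linarith
  -- expulsion
  have hYn : ∀ i, ℓ₀ ≤ i → i + M₀ + ℓ₀ ≤ K → orb l t (i * n) y < β + ρ := by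
    intro i hi1 hi2
    by_contra hc
    have hc' := not_lt.1 hc
    have h1 : ∀ k, k ≤ M₀ → (P (t₀ - 2 * δ))^[k] (β + ρ) ≤ orb l t ((i + k) * n) y := by
      intro k
      induction k with
      | zero => intro _; exact hc'
      | succ k ih =>
        intro hk
        have h1 := (hfine (i + k) (by omega) (by omega) y).1
        have h2 := hPm (t - δ) (ih (by omega))
        have h3 := hPs (t₀ - 2 * δ) (t - δ) ((P (t₀ - 2 * δ))^[k] (β + ρ)) (by linarith)
        rw [iterate_succ_apply', show i + (k + 1) = i + k + 1 by ring]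
        linarith
    have h2 := h1 M₀ le_rfl
    have h3 : W ≤ (P (t₀ - 2 * δ))^[M₀] (β + ρ) := by
      refine le_iterate_of_drift (hPm _) hc₁.le ?_ hd₁ ?_
      · have := hd₁ W ⟨hρ2.le, le_rfl⟩
        linarith
      · linarith
    have h4 := hY (i + M₀) (by omega)
    linarith
  have hXn : ∀ i, ℓ₀ ≤ i → i + M₀ + ℓ₀ ≤ K → β - ρ < orb l t (i * n) x := by
    intro i hi1 hi2
    by_contra hc
    have hc' := not_lt.1 hc
    have h1 : ∀ k, k ≤ M₀ → orb l t ((i + k) * n) x ≤ (P (t₀ + 2 * δ))^[k] (β - ρ) := by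
      intro k
      induction k with
      | zero => intro _; exact hc'
      | succ k ih =>
        intro hk
        have h1 := (hfine (i + k) (by omega) (by omega) x).2
        have h2 := hPm (t + δ) (ih (by omega))
        have h3 := hPs (t + δ) (t₀ + 2 * δ) ((P (t₀ + 2 * δ))^[k] (β - ρ)) (by linarith)
        rw [iterate_succ_apply', show i + (k + 1) = i + k + 1 by ring]
        linarith
    have h2 := h1 M₀ le_rfl
    have h3 : (P (t₀ + 2 * δ))^[M₀] (β - ρ) ≤ -W' := by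
      refine iterate_le_of_drift (hPm _) hc₂.le ?_ hd₂ ?_
      · have := hd₂ (-W') ⟨le_rfl, hρ3.le⟩
        linarith
      · linarith
    have h4 := hX (i + M₀) (by omega)
    linarith
  -- derivatives
  have hder : ∀ j < K * n, ∀ θ, HasDerivAt (l j) (Dm (Circle.exp θ • e j)) θ := fun j hj θ =>
    hDm (e j) (e (j + 1)) (l j) (hpass.cont j) (hpass.mono j) (hpass.map j hj) θ
  -- expansion
  have hgap : ∀ m, ℓ₀ + m + M₀ + ℓ₀ ≤ K →
      κ ^ m * γ₀ ≤ orb l t ((ℓ₀ + m) * n) y - orb l t ((ℓ₀ + m) * n) x := by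
    intro m
    induction m with
    | zero =>
      intro hm
      rw [pow_zero, one_mul, Nat.add_zero]
      refine hγ₀' e l hpass.mono (fun j hj θ => hpass.map j ?_ θ) t x y hxy
      exact hj.trans_le (Nat.mul_le_mul_right n (by omega))
    | succ m ih =>
      intro hm
      have h0 := ih (by omega)
      set i := ℓ₀ + m with hi
      have h1 := hXn i (by omega) (by omega)
      have h2 := hYn i (by omega) (by omega)
      have h3 : orb l t (i * n) x < orb l t (i * n) y := by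
        have : 0 < κ ^ m * γ₀ := by positivity
        linarith
      rw [show ℓ₀ + (m + 1) = i + 1 by omega, orb_succ_loop, orb_succ_loop]
      obtain ⟨c, hc1, hc2⟩ := loop_mean (l := fun k => l (i * n + k))
        (e := fun k => e (i * n + k)) (n := n)
        (fun j hj θ => hder _ (hidx i (by omega) j hj) θ) t h3
      have h4 : κ < loopD Dm (fun k => e (i * n + k)) (fun k => l (i * n + k)) t n c := by
        have h5 := hloop (fun k => e (i * n + k)) (fun k => l (i * n + k)) t c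
          (fun j hj => by
            have h6 := (hpass.fine δ hδ0 _ (hfineidx i (by omega) (by omega) j hj).1
              (hfineidx i (by omega) (by omega) j hj).2).1
            rw [per_mul hEp] at h6
            exact h6.trans_le hδδ₁)
          (fun j hj θ => by
            have h6 := (hpass.fine δ hδ0 _ (hfineidx i (by omega) (by omega) j hj).1
              (hfineidx i (by omega) (by omega) j hj).2).2 θ
            rw [per_mul hLp] at h6
            exact h6.trans hδδ₁)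
          (ht.trans hδδ₁) (by
            rw [abs_le]
            constructor
            · linarith [hc1.1]
            · linarith [hc1.2])
        have h6 := (abs_lt.1 h5).1
        linarith
      rw [hc2]
      calc κ ^ (m + 1) * γ₀ = κ * (κ ^ m * γ₀) := by ring
        _ ≤ κ * (orb l t (i * n) y - orb l t (i * n) x) := mul_le_mul_of_nonneg_left h0 hκ0.le
        _ ≤ _ := mul_le_mul_of_nonneg_right h4.le (by linarith)
  -- the end
  have h1 := hgap (K - 2 * ℓ₀ - M₀) (by omega)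
  have h2 := hK₂ (K - 2 * ℓ₀ - M₀) (by omega)
  have h3 := hYn (ℓ₀ + (K - 2 * ℓ₀ - M₀)) (by omega) (by omega)
  have h4 := hXn (ℓ₀ + (K - 2 * ℓ₀ - M₀)) (by omega) (by omega)
  linarith

end Passages

end Dens

end Pool.Agent.OmegaStability

end
end

section

/-!
# Contracting and expanding periodic points cannot be close to each other
-/

open Set Filter Topology Function

noncomputable section

namespace Pool.Agent.OmegaStability

namespace Dens

/-! ### Signs and derivatives -/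

theorem slope_signs {F : ℝ → ℝ} {d : ℝ} (hF : HasDerivAt F d 0) (h0 : F 0 = 0) (hd : d < 1) :
    ∃ ρ > 0, (∀ x ∈ Ioo 0 ρ, F x < x) ∧ ∀ x ∈ Ioo (-ρ) 0, x < F x := by
  have h1 := hasDerivAt_iff_tendsto_slope.1 hF
  have h2 := h1.eventually (gt_mem_nhds hd)
  obtain ⟨ρ, hρ, h3⟩ := Metric.mem_nhdsWithin_iff.1 h2
  refine ⟨ρ, hρ, fun x hx => ?_, fun x hx => ?_⟩
  · have h4 : slope F 0 x < 1 := h3 ⟨by
      rw [Metric.mem_ball, Real.dist_eq, sub_zero, abs_of_pos hx.1]
      exact hx.2, hx.1.ne'⟩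
    rw [slope_def_field, h0, sub_zero, sub_zero, div_lt_one hx.1] at h4
    exact h4
  · have h4 : slope F 0 x < 1 := h3 ⟨by
      rw [Metric.mem_ball, Real.dist_eq, sub_zero, abs_of_neg hx.2]
      linarith [hx.1], hx.2.ne⟩
    rw [slope_def_field, h0, sub_zero, sub_zero, div_lt_one_of_neg hx.2] at h4
    exact h4

theorem slope_signs' {F : ℝ → ℝ} {d : ℝ} (hF : HasDerivAt F d 0) (h0 : F 0 = 0) (hd : 1 < d) :
    ∃ ρ > 0, (∀ x ∈ Ioo 0 ρ, x < F x) ∧ ∀ x ∈ Ioo (-ρ) 0, F x < x := by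
  have h1 := hasDerivAt_iff_tendsto_slope.1 hF
  have h2 := h1.eventually (lt_mem_nhds hd)
  obtain ⟨ρ, hρ, h3⟩ := Metric.mem_nhdsWithin_iff.1 h2
  refine ⟨ρ, hρ, fun x hx => ?_, fun x hx => ?_⟩
  · have h4 : 1 < slope F 0 x := h3 ⟨by
      rw [Metric.mem_ball, Real.dist_eq, sub_zero, abs_of_pos hx.1]
      exact hx.2, hx.1.ne'⟩
    rw [slope_def_field, h0, sub_zero, sub_zero, one_lt_div hx.1] at h4
    exact h4
  · have h4 : 1 < slope F 0 x := h3 ⟨by
      rw [Metric.mem_ball, Real.dist_eq, sub_zero, abs_of_neg hx.2]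
      linarith [hx.1], hx.2.ne⟩
    rw [slope_def_field, h0, sub_zero, sub_zero, one_lt_div_of_neg hx.2] at h4
    exact h4

theorem deriv_le_one {F : ℝ → ℝ} {d α W : ℝ} (hF : HasDerivAt F d α) (h0 : F α = α) (hW : α < W)
    (h : ∀ x ∈ Ioc α W, F x < x) : d ≤ 1 := by
  have h1 := hasDerivAt_iff_tendsto_slope.1 hF
  have h2 : Tendsto (slope F α) (𝓝[>] α) (𝓝 d) :=
    h1.mono_left (nhdsWithin_mono _ fun x hx => ne_of_gt hx)
  refine le_of_tendsto h2 ?_
  filter_upwards [Ioc_mem_nhdsGT hW] with x hx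
  rw [slope_def_field, h0, div_le_one (by linarith [hx.1])]
  linarith [h x hx]

theorem one_le_deriv {F : ℝ → ℝ} {d α W : ℝ} (hF : HasDerivAt F d α) (h0 : F α = α) (hW : α < W)
    (h : ∀ x ∈ Ioc α W, x < F x) : 1 ≤ d := by
  have h1 := hasDerivAt_iff_tendsto_slope.1 hF
  have h2 : Tendsto (slope F α) (𝓝[>] α) (𝓝 d) :=
    h1.mono_left (nhdsWithin_mono _ fun x hx => ne_of_gt hx)
  refine ge_of_tendsto h2 ?_
  filter_upwards [Ioc_mem_nhdsGT hW] with x hx
  rw [slope_def_field, h0, one_le_div (by linarith [hx.1])]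
  linarith [h x hx]

/-- Uniformity over a compact interval of parameters. -/
theorem uniform_of_local {a b : ℝ} {R : ℕ → ℝ → Prop}
    (h : ∀ t₀ ∈ Icc a b, ∃ δ > 0, ∃ K₁ : ℕ, ∀ K ≥ K₁, ∀ t ∈ Icc a b, |t - t₀| ≤ δ → R K t) :
    ∃ K₁ : ℕ, ∀ K ≥ K₁, ∀ t ∈ Icc a b, R K t := by
  suffices h' : ∃ K₁ : ℕ, ∀ K ≥ K₁, ∀ t ∈ Icc a b, t ∈ Icc a b → R K t by
    obtain ⟨K₁, hK₁⟩ := h'
    exact ⟨K₁, fun K hK t ht => hK₁ K hK t ht ht⟩
  refine isCompact_Icc.induction_on
    (p := fun T => ∃ K₁ : ℕ, ∀ K ≥ K₁, ∀ t ∈ T, t ∈ Icc a b → R K t) ?_ ?_ ?_ ?_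
  · exact ⟨0, fun K _ t ht => absurd ht (notMem_empty t)⟩
  · rintro S T hST ⟨K₁, hK₁⟩
    exact ⟨K₁, fun K hK t ht => hK₁ K hK t (hST ht)⟩
  · rintro S T ⟨K₁, hK₁⟩ ⟨K₂, hK₂⟩
    refine ⟨max K₁ K₂, fun K hK t ht => ?_⟩
    rcases ht with ht | ht
    · exact hK₁ K ((le_max_left _ _).trans hK) t ht
    · exact hK₂ K ((le_max_right _ _).trans hK) t ht
  · intro t₀ ht₀
    obtain ⟨δ, hδ, K₁, hK₁⟩ := h t₀ ht₀
    refine ⟨Metric.ball t₀ δ, mem_nhdsWithin_of_mem_nhds (Metric.ball_mem_nhds t₀ hδ), K₁,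
      fun K hK t ht ht' => hK₁ K hK t ht' ?_⟩
    rw [← Real.dist_eq]
    exact (Metric.mem_ball.1 ht).le

/-! ### Periodic points -/

section Data

variable {M : Type*} [MetricSpace M] [CompactSpace M] [MulAction Circle M]

theorem per_point {f : M → M} {a : M} {n : ℕ} (ha : f^[n] a = a) (j : ℕ) :
    f^[j + n] a = f^[j] a := by
  rw [iterate_add_apply, ha]

theorem retMap_periodic {f : M → M} {ℒ : M → ℝ → ℝ} (hℒ : NLift f ℒ) {a : M} {n : ℕ} (hn : 0 < n)
    (ha : f^[n] a = a) :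
    RetMap f a n (orb (fun j => ℒ (f^[j] a)) 0 n 0) (fun t => orb (fun j => ℒ (f^[j] a)) t n) :=
  (chain_periodic hℒ hn ha).retMap hℒ

/-- The trap of a contracting periodic point. -/
theorem contracting_data (hact : Continuous fun p : Circle × M => p.1 • p.2) {f : M → M}
    {Dm : M → ℝ} (hD : Continuous Dm)
    (hDm : ∀ (e e' : M) (L : ℝ → ℝ), Continuous L → Monotone L →
      (∀ θ : ℝ, f (Circle.exp θ • e) = Circle.exp (L θ) • e') →
      ∀ θ, HasDerivAt L (Dm (Circle.exp θ • e)) θ)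
    {ℒ : M → ℝ → ℝ} (hℒ : NLift f ℒ) {a : M} {n : ℕ} (hn : 0 < n) (ha : f^[n] a = a) {τ : ℝ}
    (hX : NoTangency (fun t => orb (fun j => ℒ (f^[j] a)) t n) τ)
    (hN : ∀ t, |t| < τ → ∀ θ, orb (fun j => ℒ (f^[j] a)) t n θ = θ →
      ∀ d, HasDerivAt (orb (fun j => ℒ (f^[j] a)) t n) d θ → d ≠ 1)
    (hda : loopD Dm (fun j => f^[j] a) (fun j => ℒ (f^[j] a)) 0 n 0 < 1)
    {ε : ℝ} (hε : 0 < ε) (hετ : 16 * ε ≤ τ) :
    ∃ W W' : ℝ, τ / 2 ≤ W ∧ τ / 2 ≤ W' ∧
      (∀ x ∈ Icc 0 W, orb (fun j => ℒ (f^[j] a)) 0 n x ≤ x) ∧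
      (∀ x ∈ Icc (-W') 0, x ≤ orb (fun j => ℒ (f^[j] a)) 0 n x) ∧
      ∀ (ℓ : ℝ → ℕ) (γ : ℝ), 0 < γ → ∃ K₁ : ℕ, ∀ K ≥ K₁, ∀ t ∈ Icc (-(2 * ε)) (2 * ε),
        ∀ (e : ℕ → M) (l : ℕ → ℝ → ℝ),
        Passage f (fun j => f^[j] a) (fun j => ℒ (f^[j] a)) ε ℓ (K * n) e l →
        ∀ x y, x ∈ Icc (-W') W → y ∈ Icc (-W') W → x ≤ y →
          orb l t (K * n) y - orb l t (K * n) x ≤ γ := by
  set L : ℕ → ℝ → ℝ := fun j => ℒ (f^[j] a) with hL
  set E : ℕ → M := fun j => f^[j] a with hE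
  have hτ : 0 < τ := by linarith
  have hLc : ∀ j, Continuous (L j) := fun j => hℒ.cont _
  have hLm : ∀ j, Monotone (L j) := fun j => (hℒ.mono _).monotone
  have hLp : ∀ j, L (j + n) = L j := fun j => by simp only [hL]; rw [per_point ha]
  have hEp : ∀ j, E (j + n) = E j := fun j => per_point ha j
  have hder : ∀ t θ, HasDerivAt (orb L t n) (loopD Dm E L t n θ) θ := by
    intro t θ
    refine orb_hasDerivAt (n := n) (fun j _ θ => ?_) t θ n le_rfl
    exact hDm (E j) (f (E j)) (L j) (hLc j) (hLm j) (hℒ.map _) θ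
  have hfam := (retMap_periodic hℒ hn ha).monoFam
  have h00 : orb L 0 n 0 = 0 := orb_zero_zero hℒ a n
  obtain ⟨ρ, hρ, hr, hl⟩ := slope_signs (hder 0 0) h00 hda
  obtain ⟨W, W', hW1, hW1', hW2, hW2', htr⟩ := (hfam.dispFam hX).trap
    (show orb L 0 n 0 - 0 = 0 by rw [h00, sub_zero]) hρ
    (fun x hx => by
      have := hr x hx
      show orb L 0 n x - x < 0
      linarith)
    (fun x hx => by
      have := hl x hx
      show 0 < orb L 0 n x - x
      linarith) (s₁ := 3 * ε) (k := τ / 2) (by positivity) (by linarith) (by linarith)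
  have htr' : ∀ s, |s| ≤ 3 * ε → ∃ α ∈ Ioo (-W') W, orb L s n α = α ∧
      (∀ x ∈ Ioc α W, orb L s n x < x) ∧ ∀ x ∈ Ico (-W') α, x < orb L s n x := by
    intro s hs
    obtain ⟨α, hα, h1, h2, h3⟩ := htr s hs
    refine ⟨α, hα, ?_, fun x hx => ?_, fun x hx => ?_⟩
    · have h4 : orb L s n α - α = 0 := h1
      linarith
    · have h4 : orb L s n x - x < 0 := h2 x hx
      linarith
    · have h4 : 0 < orb L s n x - x := h3 x hx
      linarith
  have hWs : ∀ s, |s| ≤ 3 * ε → orb L s n W < W := by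
    intro s hs
    obtain ⟨α, hα, h1, h2, h3⟩ := htr' s hs
    exact h2 W ⟨hα.2, le_rfl⟩
  have hWs' : ∀ s, |s| ≤ 3 * ε → -W' < orb L s n (-W') := by
    intro s hs
    obtain ⟨α, hα, h1, h2, h3⟩ := htr' s hs
    exact h3 (-W') ⟨le_rfl, hα.1⟩
  have hz : (∀ x ∈ Icc 0 W, orb L 0 n x ≤ x) ∧ ∀ x ∈ Icc (-W') 0, x ≤ orb L 0 n x := by
    obtain ⟨α, hα, h1, h2, h3⟩ := htr' 0 (by rw [abs_zero]; positivity)
    have hα0 : α = 0 := by
      rcases lt_trichotomy α 0 with h4 | h4 | h4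
      · have := h2 0 ⟨h4, hW2.le⟩
        rw [h00] at this
        exact absurd this (lt_irrefl _)
      · exact h4
      · have := h3 0 ⟨by linarith, h4⟩
        rw [h00] at this
        exact absurd this (lt_irrefl _)
    rw [hα0] at h2 h3
    constructor
    · intro x hx
      rcases hx.1.lt_or_eq with h4 | h4
      · exact (h2 x ⟨h4, hx.2⟩).le
      · rw [← h4, h00]
    · intro x hx
      rcases hx.2.lt_or_eq with h4 | h4
      · exact (h3 x ⟨hx.1, h4⟩).le
      · rw [h4, h00]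
  refine ⟨W, W', hW1, hW1', hz.1, hz.2, fun ℓ γ hγ => ?_⟩
  refine uniform_of_local (R := fun K t => ∀ (e : ℕ → M) (l : ℕ → ℝ → ℝ),
    Passage f E L ε ℓ (K * n) e l → ∀ x y, x ∈ Icc (-W') W → y ∈ Icc (-W') W → x ≤ y →
      orb l t (K * n) y - orb l t (K * n) x ≤ γ) fun t₀ ht₀ => ?_
  have ht₀' : |t₀| ≤ 2 * ε := abs_le.2 ht₀
  obtain ⟨α, hα, h1, h2, h3⟩ := htr' t₀ (by linarith)
  have hd1 : loopD Dm E L t₀ n α < 1 := by
    have h4 := deriv_le_one (hder t₀ α) h1 hα.2 h2
    have h5 := hN t₀ (by linarith) α h1 _ (hder t₀ α)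
    exact lt_of_le_of_ne h4 h5
  obtain ⟨δ, hδ, K₁, hK₁⟩ := contract_passage hact hD hDm hn hLc hLm hLp hEp hWs hWs' hα h2 h3
    hd1 ℓ hγ
  exact ⟨δ, hδ, K₁, fun K hK t ht htt => hK₁ K hK t htt (abs_le.2 ht)⟩

/-- The trap of an expanding periodic point. -/
theorem expanding_data (hact : Continuous fun p : Circle × M => p.1 • p.2)
    (hfree : ∀ (z : Circle) (y : M), z • y = y → z = 1) {f f' : M → M} (hf' : Continuous f')
    (hinv : ∀ x, f' (f x) = x)
    {Dm : M → ℝ} (hD : Continuous Dm)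
    (hDm : ∀ (e e' : M) (L : ℝ → ℝ), Continuous L → Monotone L →
      (∀ θ : ℝ, f (Circle.exp θ • e) = Circle.exp (L θ) • e') →
      ∀ θ, HasDerivAt L (Dm (Circle.exp θ • e)) θ)
    {ℒ : M → ℝ → ℝ} (hℒ : NLift f ℒ) {a : M} {n : ℕ} (hn : 0 < n) (ha : f^[n] a = a) {τ : ℝ}
    (hX : NoTangency (fun t => orb (fun j => ℒ (f^[j] a)) t n) τ)
    (hN : ∀ t, |t| < τ → ∀ θ, orb (fun j => ℒ (f^[j] a)) t n θ = θ →
      ∀ d, HasDerivAt (orb (fun j => ℒ (f^[j] a)) t n) d θ → d ≠ 1)
    (hda : 1 < loopD Dm (fun j => f^[j] a) (fun j => ℒ (f^[j] a)) 0 n 0)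
    {ε : ℝ} (hε : 0 < ε) (hετ : 16 * ε ≤ τ) :
    ∃ W W' : ℝ, τ / 2 ≤ W ∧ τ / 2 ≤ W' ∧
      (∀ x ∈ Icc 0 W, x ≤ orb (fun j => ℒ (f^[j] a)) 0 n x) ∧
      (∀ x ∈ Icc (-W') 0, orb (fun j => ℒ (f^[j] a)) 0 n x ≤ x) ∧
      ∀ (ℓ : ℝ → ℕ) (γ : ℝ), 0 < γ → ∃ K₁ : ℕ, ∀ K ≥ K₁, ∀ t ∈ Icc (-(2 * ε)) (2 * ε),
        ∀ (e : ℕ → M) (l : ℕ → ℝ → ℝ),
        Passage f (fun j => f^[j] a) (fun j => ℒ (f^[j] a)) ε ℓ (K * n) e l →
        ∀ x y, γ ≤ y - x → orb l t (K * n) x ≤ -W' ∨ W ≤ orb l t (K * n) y := by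
  set L : ℕ → ℝ → ℝ := fun j => ℒ (f^[j] a) with hL
  set E : ℕ → M := fun j => f^[j] a with hE
  have hτ : 0 < τ := by linarith
  have hLc : ∀ j, Continuous (L j) := fun j => hℒ.cont _
  have hLm : ∀ j, Monotone (L j) := fun j => (hℒ.mono _).monotone
  have hLp : ∀ j, L (j + n) = L j := fun j => by simp only [hL]; rw [per_point ha]
  have hEp : ∀ j, E (j + n) = E j := fun j => per_point ha j
  have hder : ∀ t θ, HasDerivAt (orb L t n) (loopD Dm E L t n θ) θ := by
    intro t θ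
    refine orb_hasDerivAt (n := n) (fun j _ θ => ?_) t θ n le_rfl
    exact hDm (E j) (f (E j)) (L j) (hLc j) (hLm j) (hℒ.map _) θ
  have hfam := (retMap_periodic hℒ hn ha).monoFam
  have h00 : orb L 0 n 0 = 0 := orb_zero_zero hℒ a n
  obtain ⟨ρ, hρ, hr, hl⟩ := slope_signs' (hder 0 0) h00 hda
  obtain ⟨W, W', hW1, hW1', hW2, hW2', htr⟩ := (hfam.dispFam hX).rev.trap
    (show -(orb L (-0) n 0 - 0) = 0 by rw [neg_zero, h00, sub_zero, neg_zero]) hρ
    (fun x hx => by
      have := hr x hx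
      show -(orb L (-0) n x - x) < 0
      rw [neg_zero]
      linarith)
    (fun x hx => by
      have := hl x hx
      show 0 < -(orb L (-0) n x - x)
      rw [neg_zero]
      linarith) (s₁ := 3 * ε) (k := τ / 2) (by positivity) (by linarith) (by linarith)
  have htr' : ∀ s, |s| ≤ 3 * ε → ∃ α ∈ Ioo (-W') W, orb L s n α = α ∧
      (∀ x ∈ Ioc α W, x < orb L s n x) ∧ ∀ x ∈ Ico (-W') α, orb L s n x < x := by
    intro s hs
    obtain ⟨α, hα, h1, h2, h3⟩ := htr (-s) (by rwa [abs_neg])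
    refine ⟨α, hα, ?_, fun x hx => ?_, fun x hx => ?_⟩
    · have h4 : -(orb L (-(-s)) n α - α) = 0 := h1
      rw [neg_neg] at h4
      linarith
    · have h4 : -(orb L (-(-s)) n x - x) < 0 := h2 x hx
      rw [neg_neg] at h4
      linarith
    · have h4 : 0 < -(orb L (-(-s)) n x - x) := h3 x hx
      rw [neg_neg] at h4
      linarith
  have hWs : ∀ s, |s| ≤ 3 * ε → W < orb L s n W := by
    intro s hs
    obtain ⟨α, hα, h1, h2, h3⟩ := htr' s hs
    exact h2 W ⟨hα.2, le_rfl⟩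
  have hWs' : ∀ s, |s| ≤ 3 * ε → orb L s n (-W') < -W' := by
    intro s hs
    obtain ⟨α, hα, h1, h2, h3⟩ := htr' s hs
    exact h3 (-W') ⟨le_rfl, hα.1⟩
  have hz : (∀ x ∈ Icc 0 W, x ≤ orb L 0 n x) ∧ ∀ x ∈ Icc (-W') 0, orb L 0 n x ≤ x := by
    obtain ⟨α, hα, h1, h2, h3⟩ := htr' 0 (by rw [abs_zero]; positivity)
    have hα0 : α = 0 := by
      rcases lt_trichotomy α 0 with h4 | h4 | h4
      · have := h2 0 ⟨h4, hW2.le⟩
        rw [h00] at this
        exact absurd this (lt_irrefl _)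
      · exact h4
      · have := h3 0 ⟨by linarith, h4⟩
        rw [h00] at this
        exact absurd this (lt_irrefl _)
    rw [hα0] at h2 h3
    constructor
    · intro x hx
      rcases hx.1.lt_or_eq with h4 | h4
      · exact (h2 x ⟨h4, hx.2⟩).le
      · rw [← h4, h00]
    · intro x hx
      rcases hx.2.lt_or_eq with h4 | h4
      · exact (h3 x ⟨hx.1, h4⟩).le
      · rw [h4, h00]
  refine ⟨W, W', hW1, hW1', hz.1, hz.2, fun ℓ γ hγ => ?_⟩
  refine uniform_of_local (R := fun K t => ∀ (e : ℕ → M) (l : ℕ → ℝ → ℝ),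
    Passage f E L ε ℓ (K * n) e l → ∀ x y, γ ≤ y - x →
      orb l t (K * n) x ≤ -W' ∨ W ≤ orb l t (K * n) y) fun t₀ ht₀ => ?_
  have ht₀' : |t₀| ≤ 2 * ε := abs_le.2 ht₀
  obtain ⟨α, hα, h1, h2, h3⟩ := htr' t₀ (by linarith)
  have hd1 : 1 < loopD Dm E L t₀ n α := by
    have h4 := one_le_deriv (hder t₀ α) h1 hα.2 h2
    have h5 := hN t₀ (by linarith) α h1 _ (hder t₀ α)
    exact lt_of_le_of_ne h4 (Ne.symm h5)
  obtain ⟨δ, hδ, K₁, hK₁⟩ := expand_passage hact hfree hf' hinv hD hDm hn hLc hLm hLp hEp hWs hWs'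
    hα h2 h3 hd1 ℓ hγ
  exact ⟨δ, hδ, K₁, fun K hK t ht htt => hK₁ K hK t htt (abs_le.2 ht)⟩

end Data

end Dens

end Pool.Agent.OmegaStability

end
end

section

/-!
# The contradiction for close contracting and expanding periodic points
-/

open Set Filter Topology Function

noncomputable section

namespace Pool.Agent.OmegaStability

namespace Dens

section Pair

variable {M : Type*} [MetricSpace M] [CompactSpace M] [MulAction Circle M]

/-- A chain made of two passages is between compositions of the return maps. -/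
theorem two_passages {f : M → M} {E E' : ℕ → M} {L L' : ℕ → ℝ → ℝ} {n n' : ℕ}
    (hLm : ∀ j, Monotone (L j)) (hLm' : ∀ j, Monotone (L' j)) (hLp : ∀ j, L (j + n) = L j)
    (hLp' : ∀ j, L' (j + n') = L' j) {ε : ℝ} {ℓ : ℝ → ℕ} {K K' : ℕ} {e : ℕ → M} {l : ℕ → ℝ → ℝ}
    (h1 : Passage f E L ε ℓ (K * n) e l)
    (h2 : Passage f E' L' ε ℓ (K' * n') (fun j => e (K * n + j)) (fun j => l (K * n + j)))
    (t x : ℝ) :
    (orb L' (t - ε) n')^[K'] ((orb L (t - ε) n)^[K] x) ≤ orb l t (K * n + K' * n') x ∧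
      orb l t (K * n + K' * n') x ≤ (orb L' (t + ε) n')^[K'] ((orb L (t + ε) n)^[K] x) := by
  obtain ⟨h3, h4⟩ := orb_sandwich hLm h1.coarse t x (K * n) le_rfl
  rw [orb_loops hLp] at h3 h4
  rw [orb_add]
  obtain ⟨h5, h6⟩ := orb_sandwich hLm' h2.coarse t (orb l t (K * n) x) (K' * n') le_rfl
  rw [orb_loops hLp'] at h5 h6
  constructor
  · exact ((orb_mono hLm' (t - ε) n').iterate K' h3).trans h5
  · exact h6.trans ((orb_mono hLm' (t + ε) n').iterate K' h4)

theorem no_close_pair (hact : Continuous fun p : Circle × M => p.1 • p.2)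
    (hfree : ∀ (z : Circle) (y : M), z • y = y → z = 1) {f f' : M → M} (hf' : Continuous f')
    (hinv : ∀ x, f' (f x) = x)
    {Dm : M → ℝ} (hD : Continuous Dm)
    (hDm : ∀ (e e' : M) (L : ℝ → ℝ), Continuous L → Monotone L →
      (∀ θ : ℝ, f (Circle.exp θ • e) = Circle.exp (L θ) • e') →
      ∀ θ, HasDerivAt L (Dm (Circle.exp θ • e)) θ)
    {ℒ : M → ℝ → ℝ} (hℒ : NLift f ℒ) {τ : ℝ}
    (hX : ∀ (e : M) (n : ℕ) (c : ℝ) (G : ℝ → ℝ → ℝ), 0 < n → RetMap f e n c G → NoTangency G τ)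
    (hN : ∀ (e : M) (n : ℕ) (c : ℝ) (G : ℝ → ℝ → ℝ), 0 < n → RetMap f e n c G →
      ∀ t, |t| < τ → ∀ θ, G t θ = θ → ∀ d, HasDerivAt (G t) d θ → d ≠ 1)
    {a b : M} {n n' : ℕ} (hn : 0 < n) (hn' : 0 < n') (ha : f^[n] a = a) (hb : f^[n'] b = b)
    (hda : loopD Dm (fun j => f^[j] a) (fun j => ℒ (f^[j] a)) 0 n 0 < 1)
    (hdb : 1 < loopD Dm (fun j => f^[j] b) (fun j => ℒ (f^[j] b)) 0 n' 0)
    {ε : ℝ} (hε : 0 < ε) (hετ : 16 * ε ≤ τ) (ℓ : ℝ → ℕ)
    (hsh : ∀ K K' : ℕ, 0 < K → 0 < K' → ∃ (e : ℕ → M) (l : ℕ → ℝ → ℝ),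
      Chain f ℒ (K * n + K' * n') e l ∧
      (∀ j < K * n, ∀ θ, |l j θ - ℒ (f^[j] a) θ| ≤ ε) ∧
      (∀ j < K' * n', ∀ θ, |l (K * n + j) θ - ℒ (f^[j] b) θ| ≤ ε) ∧
      ∀ δ > 0, (∀ j, ℓ δ ≤ j → j + ℓ δ < K * n → dist (e j) (f^[j] a) < δ ∧
          ∀ θ, |l j θ - ℒ (f^[j] a) θ| ≤ δ) ∧
        (∀ j, ℓ δ ≤ j → j + ℓ δ < K' * n' → dist (e (K * n + j)) (f^[j] b) < δ ∧
          ∀ θ, |l (K * n + j) θ - ℒ (f^[j] b) θ| ≤ δ)) : False := by
  have hpi := Real.pi_pos
  have hτ : 0 < τ := by linarith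
  set L : ℕ → ℝ → ℝ := fun j => ℒ (f^[j] a) with hL
  set E : ℕ → M := fun j => f^[j] a with hE
  set L' : ℕ → ℝ → ℝ := fun j => ℒ (f^[j] b) with hL'
  set E' : ℕ → M := fun j => f^[j] b with hE'
  have hLm : ∀ j, Monotone (L j) := fun j => (hℒ.mono _).monotone
  have hLm' : ∀ j, Monotone (L' j) := fun j => (hℒ.mono _).monotone
  have hLp : ∀ j, L (j + n) = L j := fun j => by simp only [hL]; rw [per_point ha]
  have hLp' : ∀ j, L' (j + n') = L' j := fun j => by simp only [hL']; rw [per_point hb]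
  have hRa := retMap_periodic hℒ hn ha
  have hRb := retMap_periodic hℒ hn' hb
  have hfa := hRa.monoFam
  have hfb := hRb.monoFam
  have hXa := hX _ _ _ _ hn hRa
  have hXb := hX _ _ _ _ hn' hRb
  -- the two traps
  obtain ⟨W, W', hW, hW', hz1, hz2, huA⟩ := contracting_data hact hD hDm hℒ hn ha hXa
    (hN _ _ _ _ hn hRa) hda hε hετ
  obtain ⟨V, V', hV, hV', hz3, hz4, huB⟩ := expanding_data hact hfree hf' hinv hD hDm hℒ hn' hb hXb
    (hN _ _ _ _ hn' hRb) hdb hε hετ
  -- the shadowing chains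
  have hsh' : ∀ K K' : ℕ, 0 < K → 0 < K' → ∃ (e : ℕ → M) (l : ℕ → ℝ → ℝ),
      Chain f ℒ (K * n + K' * n') e l ∧ Passage f E L ε ℓ (K * n) e l ∧
      Passage f E' L' ε ℓ (K' * n') (fun j => e (K * n + j)) (fun j => l (K * n + j)) := by
    intro K K' hK hK'
    obtain ⟨e, l, hch, h1, h2, h3⟩ := hsh K K' hK hK'
    refine ⟨e, l, hch, ⟨fun j => (hch.mono hℒ j).monotone, hch.cont hℒ,
      fun j hj => hch.map j (by omega), h1, fun δ hδ => (h3 δ hδ).1⟩,
      ⟨fun j => (hch.mono hℒ _).monotone, fun j => hch.cont hℒ _,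
      fun j hj => hch.map (K * n + j) (by omega), h2, fun δ hδ => (h3 δ hδ).2⟩⟩
  -- the drift
  have hdrA : ∀ K : ℕ, W ≤ K * ε → ∀ x ≤ W, (orb L (-ε) n)^[K] x ≤ 0 := by
    intro K hK x hx
    have h0 : ∀ x ∈ Icc 0 W, orb L (-ε) n x ≤ x - ε := by
      intro x hx
      have h1 := hfa.incr (-ε) 0 x (by linarith)
      have h2 := hz1 x hx
      have h3 : orb L (-ε) n x + (0 - -ε) ≤ orb L 0 n x := h1
      linarith
    refine ((orb_mono hLm (-ε) n).iterate K hx).trans ?_
    refine iterate_le_of_drift (orb_mono hLm (-ε) n) hε.le ?_ h0 (by linarith)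
    have := h0 0 ⟨le_rfl, by linarith⟩
    linarith
  have hdrA' : ∀ K : ℕ, W' ≤ K * ε → ∀ x, -W' ≤ x → 0 ≤ (orb L ε n)^[K] x := by
    intro K hK x hx
    have h0 : ∀ x ∈ Icc (-W') 0, x + ε ≤ orb L ε n x := by
      intro x hx
      have h1 := hfa.incr 0 ε x hε.le
      have h2 := hz2 x hx
      have h3 : orb L 0 n x + (ε - 0) ≤ orb L ε n x := h1
      linarith
    refine le_trans ?_ ((orb_mono hLm ε n).iterate K hx)
    refine le_iterate_of_drift (orb_mono hLm ε n) hε.le ?_ h0 (by linarith)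
    have := h0 0 ⟨by linarith, le_rfl⟩
    linarith
  have hdrB : ∀ K : ℕ, V ≤ K * ε → ∀ x, 0 ≤ x → V ≤ (orb L' ε n')^[K] x := by
    intro K hK x hx
    have h0 : ∀ x ∈ Icc 0 V, x + ε ≤ orb L' ε n' x := by
      intro x hx
      have h1 := hfb.incr 0 ε x hε.le
      have h2 := hz3 x hx
      have h3 : orb L' 0 n' x + (ε - 0) ≤ orb L' ε n' x := h1
      linarith
    refine le_trans ?_ ((orb_mono hLm' ε n').iterate K hx)
    refine le_iterate_of_drift (orb_mono hLm' ε n') hε.le ?_ h0 (by linarith)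
    have := h0 V ⟨by linarith, le_rfl⟩
    linarith
  have hdrB' : ∀ K : ℕ, V' ≤ K * ε → ∀ x ≤ 0, (orb L' (-ε) n')^[K] x ≤ -V' := by
    intro K hK x hx
    have h0 : ∀ x ∈ Icc (-V') 0, orb L' (-ε) n' x ≤ x - ε := by
      intro x hx
      have h1 := hfb.incr (-ε) 0 x (by linarith)
      have h2 := hz4 x hx
      have h3 : orb L' (-ε) n' x + (0 - -ε) ≤ orb L' 0 n' x := h1
      linarith
    refine ((orb_mono hLm' (-ε) n').iterate K hx).trans ?_
    refine iterate_le_of_drift (orb_mono hLm' (-ε) n') hε.le ?_ h0 (by linarith)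
    have := h0 (-V') ⟨le_rfl, by linarith⟩
    linarith
  -- the minimal numbers of loops
  obtain ⟨K₀, hK₀⟩ := exists_nat_gt ((W + W' + V + V' + 4 * Real.pi) / ε)
  rw [div_lt_iff₀ hε] at hK₀
  have hK₀pos : 0 < K₀ := by
    by_contra hc
    have h1 : K₀ = 0 := by omega
    rw [h1] at hK₀
    push_cast at hK₀
    linarith
  have hbig : ∀ K ≥ K₀, W + W' + V + V' + 4 * Real.pi < K * ε := by
    intro K hK
    have h1 : (K₀ : ℝ) * ε ≤ K * ε := mul_le_mul_of_nonneg_right (by exact_mod_cast hK) hε.le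
    linarith
  -- the signs at the ends
  have hends : ∀ K ≥ K₀, ∀ K' ≥ K₀, ∀ (e : ℕ → M) (l : ℕ → ℝ → ℝ),
      Passage f E L ε ℓ (K * n) e l →
      Passage f E' L' ε ℓ (K' * n') (fun j => e (K * n + j)) (fun j => l (K * n + j)) →
      (∀ x ≤ W, orb l (-(2 * ε)) (K * n + K' * n') x ≤ -V') ∧
      ∀ x, -W' ≤ x → V ≤ orb l (2 * ε) (K * n + K' * n') x := by
    intro K hK K' hK' e l hp hp'
    have hb1 := hbig K hK
    have hb2 := hbig K' hK'
    constructor
    · intro x hx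
      have h1 := (two_passages hLm hLm' hLp hLp' hp hp' (-(2 * ε)) x).2
      rw [show -(2 * ε) + ε = -ε by ring] at h1
      exact h1.trans (hdrB' K' (by linarith) _ (hdrA K (by linarith) x hx))
    · intro x hx
      have h1 := (two_passages hLm hLm' hLp hLp' hp hp' (2 * ε) x).1
      rw [show 2 * ε - ε = ε by ring] at h1
      exact (hdrB K' (by linarith) _ (hdrA' K (by linarith) x hx)).trans h1
  -- the parameter with a zero at `0`
  have hzero : ∀ (N : ℕ) (e : ℕ → M) (l : ℕ → ℝ → ℝ), Chain f ℒ N e l →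
      (orb l (-(2 * ε)) N 0 ≤ -V') → V ≤ orb l (2 * ε) N 0 →
      ∃ t ∈ Ioo (-(2 * ε)) (2 * ε), orb l t N 0 = 0 := by
    intro N e l hch h1 h2
    have hc : Continuous fun s => orb l s N 0 :=
      (orb_cont (hch.cont hℒ) N).comp (continuous_id.prodMk continuous_const)
    obtain ⟨t, ht, ht0⟩ := intermediate_value_Icc (show -(2 * ε) ≤ 2 * ε by linarith)
      hc.continuousOn (show (0 : ℝ) ∈ Icc (orb l (-(2 * ε)) N 0) (orb l (2 * ε) N 0) from
        ⟨by linarith, by linarith⟩)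
    have ht0' : orb l t N 0 = 0 := ht0
    refine ⟨t, ⟨?_, ?_⟩, ht0'⟩
    · rcases ht.1.lt_or_eq with h3 | h3
      · exact h3
      · rw [← h3] at ht0'
        linarith
    · rcases ht.2.lt_or_eq with h3 | h3
      · exact h3
      · rw [h3] at ht0'
        linarith
  -- the expanding chain
  obtain ⟨γ₁, hγ₁, hgap⟩ := orb_gap hact hfree hf' hinv (K₀ * n) (γ := τ / 4) (by positivity)
  obtain ⟨K₁', hK₁'⟩ := huB ℓ γ₁ hγ₁
  obtain ⟨eG, lG, hchG, hpG, hpG'⟩ := hsh' K₀ (max K₀ K₁') hK₀pos (by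
    exact lt_of_lt_of_le hK₀pos (le_max_left _ _))
  obtain ⟨hG1, hG2⟩ := hends K₀ le_rfl (max K₀ K₁') (le_max_left _ _) eG lG hpG hpG'
  obtain ⟨tG, htG, htG0⟩ := hzero _ eG lG hchG (hG1 0 (by linarith)) (hG2 0 (by linarith))
  have htGI : tG ∈ Icc (-(2 * ε)) (2 * ε) := ⟨htG.1.le, htG.2.le⟩
  have hGr : τ / 4 < orb lG tG (K₀ * n + max K₀ K₁' * n') (τ / 4) := by
    have h1 := hgap eG lG hpG.mono (fun j hj => hpG.map j hj) tG 0 (τ / 4) (by linarith)
    have h2 := hK₁' (max K₀ K₁') (le_max_right _ _) tG htGI _ _ hpG' _ _ h1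
    rw [← orb_add, ← orb_add, htG0] at h2
    rcases h2 with h2 | h2
    · linarith
    · linarith
  have hGl : orb lG tG (K₀ * n + max K₀ K₁' * n') (-(τ / 4)) < -(τ / 4) := by
    have h1 := hgap eG lG hpG.mono (fun j hj => hpG.map j hj) tG (-(τ / 4)) 0 (by linarith)
    have h2 := hK₁' (max K₀ K₁') (le_max_right _ _) tG htGI _ _ hpG' _ _ h1
    rw [← orb_add, ← orb_add, htG0] at h2
    rcases h2 with h2 | h2
    · linarith
    · linarith
  -- the contracting chain
  obtain ⟨C, hC⟩ : ∃ C, ∀ y, |Dm y| ≤ C := by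
    obtain ⟨C, hC⟩ := isCompact_univ.exists_bound_of_continuousOn hD.continuousOn
    exact ⟨C, fun y => by simpa using hC y (mem_univ _)⟩
  set C' := max C 1 with hC'
  have hC'b : ∀ y, |Dm y| ≤ C' := fun y => (hC y).trans (le_max_left _ _)
  have hC'0 : 0 < C' := lt_of_lt_of_le one_pos (le_max_right _ _)
  obtain ⟨K₁, hK₁⟩ := huA ℓ (τ / 8 / C' ^ (K₀ * n')) (by positivity)
  obtain ⟨eH, lH, hchH, hpH, hpH'⟩ := hsh' (max K₀ K₁) K₀ (by
    exact lt_of_lt_of_le hK₀pos (le_max_left _ _)) hK₀pos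
  obtain ⟨hH1, hH2⟩ := hends (max K₀ K₁) (le_max_left _ _) K₀ le_rfl eH lH hpH hpH'
  obtain ⟨tH, htH, htH0⟩ := hzero _ eH lH hchH (hH1 0 (by linarith)) (hH2 0 (by linarith))
  have htHI : tH ∈ Icc (-(2 * ε)) (2 * ε) := ⟨htH.1.le, htH.2.le⟩
  have hcon : ∀ x y, x ∈ Icc (-W') W → y ∈ Icc (-W') W → x ≤ y →
      orb lH tH (max K₀ K₁ * n + K₀ * n') y - orb lH tH (max K₀ K₁ * n + K₀ * n') x ≤ τ / 8 := by
    intro x y hx hy hxy
    have h1 := hK₁ (max K₀ K₁) (le_max_right _ _) tH htHI _ _ hpH x y hx hy hxy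
    have h2 := orb_lip (l := fun k => lH (max K₀ K₁ * n + k))
      (e := fun k => eH (max K₀ K₁ * n + k)) (n := K₀ * n')
      (fun j hj θ => hDm (eH (max K₀ K₁ * n + j)) (eH (max K₀ K₁ * n + j + 1))
        (lH (max K₀ K₁ * n + j)) (hpH'.cont j) (hpH'.mono j) (hpH'.map j hj) θ) hC'b tH
      (orb_mono hpH.mono tH (max K₀ K₁ * n) hxy)
    rw [orb_add, orb_add]
    refine h2.trans ?_
    calc _ ≤ C' ^ (K₀ * n') * (τ / 8 / C' ^ (K₀ * n')) :=
          mul_le_mul_of_nonneg_left h1 (by positivity)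
      _ = τ / 8 := by
          field_simp
  have hHr : orb lH tH (max K₀ K₁ * n + K₀ * n') (τ / 4) < τ / 4 := by
    have := hcon 0 (τ / 4) ⟨by linarith, by linarith⟩ ⟨by linarith, by linarith⟩ (by linarith)
    rw [htH0] at this
    linarith
  have hHl : -(τ / 4) < orb lH tH (max K₀ K₁ * n + K₀ * n') (-(τ / 4)) := by
    have := hcon (-(τ / 4)) 0 ⟨by linarith, by linarith⟩ ⟨by linarith, by linarith⟩ (by linarith)
    rw [htH0] at this
    linarith
  -- the comparison of the two chains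
  have hRG := hchG.retMap hℒ
  have hRH := hchH.retMap hℒ
  have hXG := hX _ _ _ _ hchG.pos hRG
  have hXH := hX _ _ _ _ hchH.pos hRH
  have hz0 : ∀ {G : ℝ → ℝ → ℝ} (hG : MonoFam G) (hXG : NoTangency G τ) {t : ℝ},
      t ∈ Ioo (-(2 * ε)) (2 * ε) → G t 0 = 0 → ∃ θ, G 0 θ = θ := by
    intro G hG hXG t ht h0
    exact Dens.exists_zero hG hXG (t₁ := t) (θ₁ := 0) (by rw [abs_lt]; constructor <;> linarith [ht.1, ht.2])
      h0 0 (by rw [abs_zero]; exact hτ)
  have hza : ∀ s, |s| < τ → ∃ θ, orb L s n θ = θ := fun s hs =>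
    Dens.exists_zero hfa hXa (t₁ := 0) (θ₁ := 0) (by rw [abs_zero]; exact hτ)
      (orb_zero_zero hℒ a n) s hs
  have hzb : ∀ s, |s| < τ → ∃ θ, orb L' s n' θ = θ := fun s hs =>
    Dens.exists_zero hfb hXb (t₁ := 0) (θ₁ := 0) (by rw [abs_zero]; exact hτ)
      (orb_zero_zero hℒ b n') s hs
  have hcmp : ∀ t, |t| ≤ 5 * ε → ∀ x, orb lH (t - 3 * ε / 2) (max K₀ K₁ * n + K₀ * n') x ≤
      orb lG (t + 3 * ε / 2) (K₀ * n + max K₀ K₁' * n') x := by
    intro t ht x
    have ht' := abs_le.1 ht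
    have h1 := (two_passages hLm hLm' hLp hLp' hpH hpH' (t - 3 * ε / 2) x).2
    have h2 := (two_passages hLm hLm' hLp hLp' hpG hpG' (t + 3 * ε / 2) x).1
    rw [show t - 3 * ε / 2 + ε = t - ε / 2 by ring] at h1
    rw [show t + 3 * ε / 2 - ε = t + ε / 2 by ring] at h2
    have hKb : 4 * Real.pi ≤ K₀ * ε := by
      have := hbig K₀ le_rfl
      linarith
    have h3 : (orb L (t - ε / 2) n)^[max K₀ K₁] x ≤ (orb L (t + ε / 2) n)^[K₀] x := by
      have := iterate_comparison hfa (t := t - ε / 2) (δ := ε) hε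
        (hza (t - ε / 2 + ε / 2) (by rw [sub_add_cancel]; linarith)) hKb (K := K₀)
        (K' := max K₀ K₁) le_rfl (le_max_left _ _) x
      rwa [show t - ε / 2 + ε = t + ε / 2 by ring] at this
    have h4 : ∀ y, (orb L' (t - ε / 2) n')^[K₀] y ≤ (orb L' (t + ε / 2) n')^[max K₀ K₁'] y := by
      intro y
      have := iterate_comparison hfb (t := t - ε / 2) (δ := ε) hε
        (hzb (t - ε / 2 + ε / 2) (by rw [sub_add_cancel]; linarith)) hKb (K := max K₀ K₁')
        (K' := K₀) (le_max_left _ _) le_rfl y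
      rwa [show t - ε / 2 + ε = t + ε / 2 by ring] at this
    calc orb lH (t - 3 * ε / 2) (max K₀ K₁ * n + K₀ * n') x ≤ _ := h1
      _ ≤ (orb L' (t - ε / 2) n')^[K₀] ((orb L (t + ε / 2) n)^[K₀] x) :=
          (orb_mono hLm' _ _).iterate _ h3
      _ ≤ _ := h4 _
      _ ≤ _ := h2
  refine no_two_patterns (G := fun t => orb lG t (K₀ * n + max K₀ K₁' * n'))
    (H := fun t => orb lH t (max K₀ K₁ * n + K₀ * n')) hRG.monoFam hRH.monoFam hXG hXH
    (σ := τ / 2) (t₁ := -(2 * ε)) (t₂ := 2 * ε) (δ := 3 * ε) (tG := tG) (tH := tH) (k := τ / 4)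
    (by positivity) (hz0 hRG.monoFam hXG htG htG0) (hz0 hRH.monoFam hXH htH htH0) ?_ ?_ ?_ ?_ ?_ ?_
    ⟨by linarith, by linarith⟩ ?_ ?_ ?_ ?_ htG htH hGl hGr hHl hHr
  · intro x
    have := hcmp (2 * ε + 3 * ε / 2) (by rw [abs_of_pos (by positivity)]; linarith) x
    rw [show 2 * ε + 3 * ε / 2 - 3 * ε / 2 = 2 * ε by ring,
      show 2 * ε + 3 * ε / 2 + 3 * ε / 2 = 2 * ε + 3 * ε by ring] at this
    exact this
  · intro x
    have := hcmp (-(2 * ε) - 3 * ε / 2) (by rw [abs_of_neg (by linarith)]; linarith) x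
    rw [show -(2 * ε) - 3 * ε / 2 - 3 * ε / 2 = -(2 * ε) - 3 * ε by ring,
      show -(2 * ε) - 3 * ε / 2 + 3 * ε / 2 = -(2 * ε) by ring] at this
    exact this
  · rw [abs_of_neg (by linarith)]; linarith
  · rw [abs_of_pos (by linarith)]; linarith
  · rw [abs_of_neg (by linarith)]; linarith
  · rw [abs_of_pos (by linarith)]; linarith
  · intro x hx
    have := hG1 x (by linarith [hx.2])
    show orb lG (-(2 * ε)) (K₀ * n + max K₀ K₁' * n') x < x
    linarith [hx.1]
  · intro x hx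
    have := hG2 x (by linarith [hx.1])
    show x < orb lG (2 * ε) (K₀ * n + max K₀ K₁' * n') x
    linarith [hx.2]
  · intro x hx
    have := hH1 x (by linarith [hx.2])
    show orb lH (-(2 * ε)) (max K₀ K₁ * n + K₀ * n') x < x
    linarith [hx.1]
  · intro x hx
    have := hH2 x (by linarith [hx.1])
    show x < orb lH (2 * ε) (max K₀ K₁ * n + K₀ * n') x
    linarith [hx.2]

end Pair

end Dens

end Pool.Agent.OmegaStability

end
end
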