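import Pool.Agent.Work.MP_814647_an.PS.Geo2
import Pool.Agent.Work.MP_814647_an.Bd.B03
import Pool.Agent.Work.MP_814647_an.ProjP8c
import Pool.Agent.Work.MP_814647_an.PS.Geo
import Pool.Agent.Work.MP_814647_an.Bd.B06
import Pool.Agent.Work.MP_814647_an.Metric
import Pool.Agent.Work.MP_814647_an.Bd.B01
import Pool.Agent.Work.MP_814647_an.Bd.B05
import Pool.Agent.Work.MP_814647_an.PS.FibreHyp
import Pool.Agent.Work.MP_814647_an.PS.Pert

/-! Bundle of small proof modules (one section per former module). -/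

section

/-!
# Products, item 52: a diffeomorphism is expansive on a compact hyperbolic set
-/

open Set Filter Topology Function
open scoped Manifold ContDiff

noncomputable section

namespace Pool.Agent.OmegaPS

open Pool.Agent.OmegaStab (EE Dyn IsFam PP HypAt crTopology HypLin)
open Pool.Agent.OmegaStab.FinHyp (der)
open Pool.Agent.OmegaStability

namespace Expansive

/-- Difference quotients converge to the strict derivative. -/
theorem quot_tendsto {E F : Type*} [NormedAddCommGroup E] [NormedSpace ℝ E]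
    [NormedAddCommGroup F] [NormedSpace ℝ F] {g : E → F} {g' : E →L[ℝ] F} {p : E}
    (hg : HasStrictFDerivAt g g' p) {a b : ℕ → E} (ha : Tendsto a atTop (𝓝 p))
    (hb : Tendsto b atTop (𝓝 p)) {s : ℕ → ℝ} {w : E}
    (hw : Tendsto (fun k => s k • (a k - b k)) atTop (𝓝 w)) :
    Tendsto (fun k => s k • (g (a k) - g (b k))) atTop (𝓝 (g' w)) := by
  have h1 : (fun k => g (a k) - g (b k) - g' (a k - b k)) =o[atTop] fun k => a k - b k :=
    hg.isLittleO.comp_tendsto (ha.prodMk_nhds hb)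
  have h2 : (fun k => s k • (g (a k) - g (b k) - g' (a k - b k))) =o[atTop]
      fun k => s k • (a k - b k) := (Asymptotics.isBigO_refl s atTop).smul_isLittleO h1
  have h3 : (fun k => s k • (g (a k) - g (b k) - g' (a k - b k))) =o[atTop]
      fun _ => (1 : ℝ) := h2.trans_isBigO (hw.isBigO_one ℝ)
  have h4 := (Asymptotics.isLittleO_one_iff ℝ).1 h3
  have h5 : Tendsto (fun k => g' (s k • (a k - b k))) atTop (𝓝 (g' w)) :=
    (g'.continuous.tendsto w).comp hw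
  have h6 := h5.add h4
  rw [add_zero] at h6
  refine h6.congr fun k => ?_
  rw [map_smul, ← smul_add, add_sub_cancel]

section Man

variable {d : ℕ} {N : Type*} [MetricSpace N] [ChartedSpace (EE d) N]

/-- The derivative of a map to a euclidean space. -/
def dv {m : ℕ} (f : N → EE m) (x : N) : EE d →L[ℝ] EE m := mfderiv (𝓡 d) (𝓡 m) f x

theorem exists_split {E F : Submodule ℝ (EE d)} (h : IsCompl E F) (v : EE d) :
    ∃ s ∈ E, ∃ u ∈ F, s + u = v := Submodule.mem_sup.1 (h.sup_eq_top ▸ Submodule.mem_top)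

/-- The derivative in the chart at the point. -/
theorem strict_chart [IsManifold (𝓡 d) ∞ N] {m : ℕ} {f : N → EE m} {x : N}
    (hf : ContMDiffAt (𝓡 d) (𝓡 m) 1 f x) :
    HasStrictFDerivAt (fun u => f ((extChartAt (𝓡 d) x).symm u))
      (dv f x) (extChartAt (𝓡 d) x x) := by
  have h1 : ContDiffAt ℝ 1 (fun u => f ((extChartAt (𝓡 d) x).symm u))
      (extChartAt (𝓡 d) x x) := by
    have h2 := (contMDiffAt_iff.1 hf).2
    rw [ModelWithCorners.range_eq_univ, contDiffWithinAt_univ] at h2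
    exact h2
  have h3 : dv f x =
      fderiv ℝ (fun u => f ((extChartAt (𝓡 d) x).symm u)) (extChartAt (𝓡 d) x x) := by
    rw [dv, (hf.mdifferentiableAt one_ne_zero).mfderiv, ModelWithCorners.range_eq_univ,
      fderivWithin_univ]
    rfl
  rw [h3]
  exact h1.hasStrictFDerivAt one_ne_zero

/-- The norm of a continuous Riemannian metric is bounded by the norm in a euclidean space in which
the manifold is immersed. -/
theorem emb_compare [IsManifold (𝓡 d) ∞ N] [CompactSpace N] (γ : RMetric (EE d) N) {m : ℕ}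
    {e : N → EE m} (he : ContMDiff (𝓡 d) (𝓡 m) ∞ e)
    (hinj : ∀ x, Injective (mfderiv (𝓡 d) (𝓡 m) e x)) :
    ∃ β : ℝ, 0 < β ∧ ∀ (x : N) (v : TangentSpace (𝓡 d) x),
      rnorm γ x v ≤ β * ‖dv e x v‖ := by
  refine exists_comparison (E := EE d) (fun v => rnorm γ v.1 v.2)
    (fun v => ‖dv e v.1 v.2‖) (continuous_rnorm γ) ?_ ?_ ?_ ?_
  · have h1 : Continuous (tangentMap (𝓡 d) (𝓡 m) e) :=
      he.continuous_tangentMap (by exact_mod_cast le_top)
    have h2 := (tangentBundleModelSpaceHomeomorph (𝓡 m)).continuous.comp h1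
    exact (continuous_snd.comp h2).norm
  · intro x v t
    exact rnorm_smul γ x v t
  · intro x v t
    have h3 : dv e x (t • (v : EE d)) = t • dv e x v := map_smul _ t _
    have h4 : ‖dv e x (t • (v : EE d))‖ = |t| * ‖dv e x v‖ := by
      rw [h3, norm_smul, Real.norm_eq_abs]
    exact h4
  · intro x v hv
    show 0 < ‖dv e x v‖
    rw [norm_pos_iff]
    intro h0
    apply hv
    apply hinj x
    refine Eq.trans h0 ?_
    exact (map_zero (dv e x)).symm

theorem mdiff_iter {g : N → N} (hg : MDifferentiable (𝓡 d) (𝓡 d) g) (n : ℕ) :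
    MDifferentiable (𝓡 d) (𝓡 d) g^[n] := OmegaStab.FinHyp.mdiff_iter hg n

/-- The derivatives of inverse maps. -/
theorem der_inv {g g' : N → N} (hg : MDifferentiable (𝓡 d) (𝓡 d) g)
    (hg' : MDifferentiable (𝓡 d) (𝓡 d) g') (h : ∀ y, g' (g y) = y) (n : ℕ) (x : N) (v : EE d) :
    der (d := d) g'^[n] (g^[n] x) (der (d := d) g^[n] x v) = v := by
  have h1 := OmegaStab.FinHyp.der_comp (mdiff_iter hg' n) (mdiff_iter hg n) x
  have h2 : g'^[n] ∘ g^[n] = id := by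
    funext y
    exact (LeftInverse.iterate h n) y
  rw [h2, OmegaStab.FinHyp.der_id] at h1
  exact (DFunLike.congr_fun h1 v).symm

/-- Invariant families are invariant under the iterates. -/
theorem inv_iter {g : N → N} (hg : MDifferentiable (𝓡 d) (𝓡 d) g) {Λ : Set N}
    (hΛ : ∀ x ∈ Λ, g x ∈ Λ) {V : TFamily (EE d) N} (hV : InvariantOver g V Λ) (n : ℕ) :
    ∀ x ∈ Λ, ∀ v ∈ V x, g^[n] x ∈ Λ ∧ der (d := d) g^[n] x v ∈ V (g^[n] x) := by
  induction n with
  | zero =>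
    intro x hx v hv
    refine ⟨hx, ?_⟩
    have : der (d := d) g^[0] x v = v := by
      have := OmegaStab.FinHyp.der_id (d := d) x
      exact DFunLike.congr_fun this v
    rw [this]
    exact hv
  | succ n ih =>
    intro x hx v hv
    obtain ⟨h1, h2⟩ := ih (g x) (hΛ x hx) _ (hV x hx v hv)
    rw [Function.iterate_succ, OmegaStab.FinHyp.der_comp (mdiff_iter hg n) hg]
    exact ⟨h1, h2⟩

/-- A vector with bounded images under all iterates vanishes. -/
theorem eq_zero_of_bdd [IsManifold (𝓡 d) ∞ N] {g g' : N → N}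
    (hg : MDifferentiable (𝓡 d) (𝓡 d) g) (hg' : MDifferentiable (𝓡 d) (𝓡 d) g')
    (hgg' : ∀ y, g' (g y) = y) (hg'g : ∀ y, g (g' y) = y) {Λ : Set N}
    (h1 : ∀ x ∈ Λ, g x ∈ Λ) (h2 : ∀ x ∈ Λ, g' x ∈ Λ) {Es Eu : TFamily (EE d) N}
    (hc : ∀ x ∈ Λ, IsCompl (Es x) (Eu x)) (hs : InvariantOver g Es Λ)
    (hu : InvariantOver g Eu Λ) {γ : RMetric (EE d) N} {c μ : ℝ} (hc0 : 0 < c) (hμ : 0 < μ)
    (hμ1 : μ < 1) (hEs : ContractedOver g γ Es Λ c μ) (hEu : ContractedOver g' γ Eu Λ c μ)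
    {x : N} (hx : x ∈ Λ) (v : EE d) {B : ℝ}
    (hf : ∀ n : ℕ, rnorm γ (g^[n] x) (der (d := d) g^[n] x v) ≤ B)
    (hb : ∀ n : ℕ, rnorm γ (g'^[n] x) (der (d := d) g'^[n] x v) ≤ B) : v = 0 := by
  have hnn : ∀ (y : N) (w : EE d), 0 ≤ rnorm γ y w := fun y w => Real.sqrt_nonneg _
  have hadd : ∀ (y : N) (a b : EE d), rnorm γ y b ≤ rnorm γ y (a + b : EE d) + rnorm γ y a :=
    fun y a b => UnionHyp.rnorm_le_add γ y a b
  have hpos : ∀ (y : N) (w : EE d), w ≠ 0 → 0 < rnorm γ y w := fun y w hw => rnorm_pos γ y w hw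
  have hzero : ∀ (y : N) (w : EE d) (M : ℝ), (∀ n : ℕ, rnorm γ y w ≤ c * μ ^ n * M) → w = 0 := by
    intro y w M hM
    by_contra hw
    have h3 : Tendsto (fun n : ℕ => c * μ ^ n * M) atTop (𝓝 (c * 0 * M)) :=
      ((tendsto_pow_atTop_nhds_zero_of_lt_one hμ.le hμ1).const_mul c).mul_const M
    have h4 := ge_of_tendsto' h3 hM
    have h5 := hpos y w hw
    rw [mul_zero, zero_mul] at h4
    linarith
  -- the splitting
  obtain ⟨s, hsm, u, hum, rfl⟩ := exists_split (d := d) (hc x hx) v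
  have hu0 : u = 0 := by
    refine hzero x u (B + c * rnorm γ x s) fun n => ?_
    obtain ⟨h3, h4⟩ := inv_iter hg h1 hu n x hx u hum
    have h5 := hEu _ h3 _ h4 n
    have h6 : g'^[n] (g^[n] x) = x := (LeftInverse.iterate hgg' n) x
    have h7 : rnorm γ (g'^[n] (g^[n] x))
        (mfderiv 𝓘(ℝ, EE d) 𝓘(ℝ, EE d) g'^[n] (g^[n] x) (der (d := d) g^[n] x u)) =
        rnorm γ x u := by
      have h8 : (mfderiv 𝓘(ℝ, EE d) 𝓘(ℝ, EE d) g'^[n] (g^[n] x)
        (der (d := d) g^[n] x u) : EE d) = u := der_inv hg hg' hgg' n x u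
      have h9 : ∀ (y : N) (w : EE d), y = x → w = u → rnorm γ y w = rnorm γ x u := by
        rintro _ _ rfl rfl
        rfl
      exact h9 _ _ h6 h8
    rw [h7] at h5
    refine h5.trans (mul_le_mul_of_nonneg_left ?_ (by positivity))
    have h8 := hadd (g^[n] x) (der (d := d) g^[n] x s) (der (d := d) g^[n] x u)
    have h9 : der (d := d) g^[n] x s + der (d := d) g^[n] x u =
      der (d := d) g^[n] x (s + u) := (map_add _ _ _).symm
    rw [h9] at h8
    have h10 := hEs x hx s hsm n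
    have h11 : c * μ ^ n * rnorm γ x s ≤ c * rnorm γ x s := by
      have h12 : μ ^ n ≤ 1 := pow_le_one₀ hμ.le hμ1.le
      have h13 := hnn x s
      have h14 : c * μ ^ n ≤ c * 1 := mul_le_mul_of_nonneg_left h12 hc0.le
      rw [mul_one] at h14
      exact mul_le_mul_of_nonneg_right h14 h13
    have h12 : rnorm γ (g^[n] x) (der (d := d) g^[n] x s) ≤ c * rnorm γ x s :=
      le_trans h10 h11
    exact h8.trans (add_le_add (hf n) h12)
  subst hu0
  have hv : (s + 0 : EE d) = s := add_zero s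
  rw [hv] at hb ⊢
  -- the backward images are in the stable space
  refine hzero x s B fun n => ?_
  have hxn : g'^[n] x ∈ Λ := by
    have : ∀ n : ℕ, ∀ x ∈ Λ, g'^[n] x ∈ Λ := by
      intro n
      induction n with
      | zero => exact fun x hx => hx
      | succ n ih => exact fun x hx => ih _ (h2 x hx)
    exact this n x hx
  have hgx : g^[n] (g'^[n] x) = x := (LeftInverse.iterate hg'g n) x
  set z : EE d := der (d := d) g'^[n] x s with hz
  have hmem : z ∈ (Es (g'^[n] x) : Submodule ℝ (EE d)) := by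
    obtain ⟨s', hs', u', hu', hsum⟩ := exists_split (d := d) (hc _ hxn) z
    have h3 := (inv_iter hg h1 hs n _ hxn s' hs').2
    have h4 := (inv_iter hg h1 hu n _ hxn u' hu').2
    rw [hgx] at h3 h4
    have h5 : der (d := d) g^[n] (g'^[n] x) z = s := der_inv hg' hg hg'g n x s
    have h6 : der (d := d) g^[n] (g'^[n] x) s' + der (d := d) g^[n] (g'^[n] x) u' = s := by
      rw [← h5, ← hsum]
      exact (map_add _ _ _).symm
    have h7 : der (d := d) g^[n] (g'^[n] x) u' ∈ (Es x : Submodule ℝ (EE d)) := by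
      have h8 : der (d := d) g^[n] (g'^[n] x) u' =
        s - der (d := d) g^[n] (g'^[n] x) s' := by rw [← h6, add_sub_cancel_left]
      rw [h8]
      exact Submodule.sub_mem _ hsm h3
    have h8 : der (d := d) g^[n] (g'^[n] x) u' = 0 :=
      (Submodule.disjoint_def.1 (hc x hx).disjoint) _ h7 h4
    have h9 : (u' : EE d) = 0 := by
      have h10 := der_inv hg hg' hgg' n (g'^[n] x) u'
      rw [h8, map_zero] at h10
      exact h10.symm
    have h10 : z = s' := by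
      rw [← hsum]
      have : (s' + u' : EE d) = s' + 0 := by rw [h9]
      exact this.trans (add_zero _)
    rw [h10]
    exact hs'
  have h5 := hEs _ hxn z hmem n
  have h7 : rnorm γ (g^[n] (g'^[n] x))
      (mfderiv 𝓘(ℝ, EE d) 𝓘(ℝ, EE d) g^[n] (g'^[n] x) z) = rnorm γ x s := by
    have h8 : (mfderiv 𝓘(ℝ, EE d) 𝓘(ℝ, EE d) g^[n] (g'^[n] x) z : EE d) = s :=
      der_inv hg' hg hg'g n x s
    have h9 : ∀ (y : N) (w : EE d), y = x → w = s → rnorm γ y w = rnorm γ x s := by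
      rintro _ _ rfl rfl
      rfl
    exact h9 _ _ hgx h8
  rw [h7] at h5
  exact h5.trans (mul_le_mul_of_nonneg_left (hb n) (by positivity))

end Man

/-- Selection of a time at which the distance is nearly maximal. -/
theorem select {N : Type*} [MetricSpace N] (P : Equiv.Perm N) {Λ : Set N}
    (h1 : ∀ x ∈ Λ, P x ∈ Λ) (h2 : ∀ x ∈ Λ, P.symm x ∈ Λ) (D : N → N → ℝ) {B : ℝ}
    (hB : ∀ x y, D x y ≤ B) (hpos : ∀ x y, x ≠ y → 0 < D x y) {ε : ℝ} {x y : N} (hx : x ∈ Λ)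
    (hy : y ∈ Λ) (hxy : x ≠ y) (hf : ∀ n : ℕ, dist (P^[n] x) (P^[n] y) ≤ ε)
    (hb : ∀ n : ℕ, dist (P.symm^[n] x) (P.symm^[n] y) ≤ ε) :
    ∃ x' ∈ Λ, ∃ y' ∈ Λ, x' ≠ y' ∧ dist x' y' ≤ ε ∧
      (∀ n : ℕ, D (P^[n] x') (P^[n] y') ≤ 2 * D x' y') ∧
      ∀ n : ℕ, D (P.symm^[n] x') (P.symm^[n] y') ≤ 2 * D x' y' := by
  have hp : ∀ (n : ℕ) (z : N), (P ^ (n : ℤ)) z = P^[n] z := by
    intro n z
    rw [zpow_natCast, Equiv.Perm.iterate_eq_pow]
  have hm : ∀ (n : ℕ) (z : N), (P ^ (-(n : ℤ))) z = P.symm^[n] z := by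
    intro n z
    rw [zpow_neg, zpow_natCast, ← inv_pow, ← Equiv.Perm.iterate_eq_pow]
    rfl
  have hi1 : ∀ (n : ℕ), ∀ z ∈ Λ, P^[n] z ∈ Λ := by
    intro n
    induction n with
    | zero => exact fun x hx => hx
    | succ n ih => exact fun x hx => ih _ (h1 x hx)
  have hi2 : ∀ (n : ℕ), ∀ z ∈ Λ, P.symm^[n] z ∈ Λ := by
    intro n
    induction n with
    | zero => exact fun x hx => hx
    | succ n ih => exact fun x hx => ih _ (h2 x hx)
  have hall : ∀ k : ℤ, (P ^ k) x ∈ Λ ∧ (P ^ k) y ∈ Λ ∧ dist ((P ^ k) x) ((P ^ k) y) ≤ ε := by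
    intro k
    obtain ⟨n, rfl | rfl⟩ := k.eq_nat_or_neg
    · rw [hp, hp]
      exact ⟨hi1 n x hx, hi1 n y hy, hf n⟩
    · rw [hm, hm]
      exact ⟨hi2 n x hx, hi2 n y hy, hb n⟩
  have hbdd : BddAbove (range fun k : ℤ => D ((P ^ k) x) ((P ^ k) y)) := by
    refine ⟨B, ?_⟩
    rintro _ ⟨k, rfl⟩
    exact hB _ _
  set σ := ⨆ k : ℤ, D ((P ^ k) x) ((P ^ k) y) with hσ
  have hσ0 : 0 < σ := by
    have h3 : D ((P ^ (0 : ℤ)) x) ((P ^ (0 : ℤ)) y) ≤ σ := le_ciSup hbdd 0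
    have h4 : 0 < D x y := hpos x y hxy
    rw [zpow_zero] at h3
    exact lt_of_lt_of_le h4 h3
  obtain ⟨k, hk⟩ := exists_lt_of_lt_ciSup (show σ / 2 < ⨆ k : ℤ, D ((P ^ k) x) ((P ^ k) y) by
    rw [← hσ]
    linarith)
  have hle : ∀ l : ℤ, D ((P ^ l) ((P ^ k) x)) ((P ^ l) ((P ^ k) y)) ≤
      2 * D ((P ^ k) x) ((P ^ k) y) := by
    intro l
    have h3 : D ((P ^ (l + k)) x) ((P ^ (l + k)) y) ≤ σ := le_ciSup hbdd (l + k)
    rw [zpow_add] at h3
    have h4 : D ((P ^ l) ((P ^ k) x)) ((P ^ l) ((P ^ k) y)) ≤ σ := h3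
    linarith
  refine ⟨(P ^ k) x, (hall k).1, (P ^ k) y, (hall k).2.1, fun h => hxy ((P ^ k).injective h),
    (hall k).2.2, fun n => ?_, fun n => ?_⟩
  · have := hle n
    rwa [hp, hp] at this
  · have := hle (-n)
    rwa [hm, hm] at this

end Expansive

section One

variable {d : ℕ} {N : Type*} [MetricSpace N] [ChartedSpace (EE d) N] {r : ℕ∞}
  [IsManifold (𝓡 d) ∞ N]

open Expansive in
theorem expansive [CompactSpace N] (hr : 1 ≤ r) (F : Dyn d N r) {Λ : Set N} (hΛ : IsClosed Λ)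
    (h1 : ∀ x ∈ Λ, F x ∈ Λ) (h2 : ∀ x ∈ Λ, F.symm x ∈ Λ)
    (h : HyperbolicStructure (EE d) F F.symm Λ) :
    ∃ ε₀ : ℝ, 0 < ε₀ ∧ ∀ x ∈ Λ, ∀ y ∈ Λ, (∀ n : ℕ, dist (F^[n] x) (F^[n] y) ≤ ε₀) →
      (∀ n : ℕ, dist (F.symm^[n] x) (F.symm^[n] y) ≤ ε₀) → x = y := by
  obtain ⟨Es, Eu, -, -, hc, hs, hu, γ, c, μ, hc0, hμ, hμ1, hEs, hEu⟩ := h
  obtain ⟨m, e, he, hemb, hinj⟩ := exists_embedding_euclidean_of_compact (I := 𝓡 d) (M := N)
  obtain ⟨β, hβ, hcmp⟩ := emb_compare γ he hinj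
  have hr' : (1 : ℕ∞ω) ≤ (r : ℕ∞ω) := by exact_mod_cast hr
  have hF1 : ContMDiff (𝓡 d) (𝓡 d) 1 F := F.contMDiff.of_le hr'
  have hF2 : ContMDiff (𝓡 d) (𝓡 d) 1 F.symm := F.symm.contMDiff.of_le hr'
  have hg : MDifferentiable (𝓡 d) (𝓡 d) F := hF1.mdifferentiable one_ne_zero
  have hg' : MDifferentiable (𝓡 d) (𝓡 d) F.symm := hF2.mdifferentiable one_ne_zero
  have hiter : ∀ {g : N → N}, ContMDiff (𝓡 d) (𝓡 d) 1 g → ∀ n : ℕ,
      ContMDiff (𝓡 d) (𝓡 d) 1 g^[n] := by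
    intro g hg n
    induction n with
    | zero => exact contMDiff_id
    | succ n ih =>
      rw [Function.iterate_succ]
      exact ih.comp hg
  have he1 : ContMDiff (𝓡 d) (𝓡 m) 1 e := he.of_le (by exact_mod_cast le_top)
  by_contra hcon
  push Not at hcon
  -- the distance in the euclidean space
  set D : N → N → ℝ := fun x y => ‖e x - e y‖ with hD
  obtain ⟨B, hB⟩ : ∃ B : ℝ, ∀ x y, D x y ≤ B := by
    obtain ⟨C, hC⟩ := (isCompact_range hemb.continuous).isBounded.exists_norm_le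
    refine ⟨C + C, fun x y => ?_⟩
    exact (norm_sub_le _ _).trans (add_le_add (hC _ ⟨x, rfl⟩) (hC _ ⟨y, rfl⟩))
  have hDpos : ∀ x y, x ≠ y → 0 < D x y := fun x y hxy =>
    norm_pos_iff.2 (sub_ne_zero.2 fun h => hxy (hemb.injective h))
  have hsel : ∀ k : ℕ, ∃ x' ∈ Λ, ∃ y' ∈ Λ, x' ≠ y' ∧ dist x' y' ≤ 1 / ((k : ℝ) + 1) ∧
      (∀ n : ℕ, D (F^[n] x') (F^[n] y') ≤ 2 * D x' y') ∧
      ∀ n : ℕ, D (F.symm^[n] x') (F.symm^[n] y') ≤ 2 * D x' y' := by
    intro k
    obtain ⟨x, hx, y, hy, hf, hb, hxy⟩ := hcon (1 / ((k : ℝ) + 1)) (by positivity)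
    exact select F.toEquiv h1 h2 D hB hDpos hx hy hxy hf hb
  choose x hxΛ y hyΛ hxy hdist hDf hDb using hsel
  -- convergence
  obtain ⟨p, hpΛ, φ, hφ, hxp⟩ := (hΛ.isCompact).tendsto_subseq hxΛ
  have hdφ : Tendsto (fun k => dist (x (φ k)) (y (φ k))) atTop (𝓝 0) :=
    squeeze_zero (fun k => dist_nonneg) (fun k => hdist (φ k))
      (tendsto_one_div_add_atTop_nhds_zero_nat.comp hφ.tendsto_atTop)
  have hyp : Tendsto (y ∘ φ) atTop (𝓝 p) := by
    rw [tendsto_iff_dist_tendsto_zero] at hxp ⊢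
    refine squeeze_zero (fun k => dist_nonneg) (fun k => dist_triangle_left _ _ (x (φ k))) ?_
    simpa using hdφ.add hxp
  -- the chart at `p`
  set ψ := extChartAt (𝓡 d) p with hψ
  set a : ℕ → EE d := fun k => ψ (x (φ k)) with ha
  set b : ℕ → EE d := fun k => ψ (y (φ k)) with hb
  have hψc : ContinuousAt ψ p := continuousAt_extChartAt p
  have hat : Tendsto a atTop (𝓝 (ψ p)) := hψc.tendsto.comp hxp
  have hbt : Tendsto b atTop (𝓝 (ψ p)) := hψc.tendsto.comp hyp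
  have hsrc : ψ.source ∈ 𝓝 p := extChartAt_source_mem_nhds p
  have hax : ∀ᶠ k in atTop, ψ.symm (a k) = x (φ k) := by
    filter_upwards [hxp.eventually hsrc] with k hk
    exact ψ.left_inv hk
  have hby : ∀ᶠ k in atTop, ψ.symm (b k) = y (φ k) := by
    filter_upwards [hyp.eventually hsrc] with k hk
    exact ψ.left_inv hk
  -- the injective derivative
  have hst0 := strict_chart (f := e) (x := p) he1.contMDiffAt
  set A : EE d →L[ℝ] EE m := dv e p with hA
  obtain ⟨K, hK, hAK⟩ := LinearMap.exists_antilipschitzWith (A : EE d →ₗ[ℝ] EE m)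
    (LinearMap.ker_eq_bot.2 (hinj p))
  have hAK' : ∀ w : EE d, ‖w‖ ≤ K * ‖A w‖ := by
    intro w
    have := hAK.le_mul_dist w 0
    simpa using this
  have hK0 : (0 : ℝ) < K := by exact_mod_cast hK
  -- the displacement is bounded by the distance
  have hbnd : ∀ᶠ k in atTop, ‖a k - b k‖ ≤ 2 * K * D (x (φ k)) (y (φ k)) := by
    have h3 : (fun k => e (ψ.symm (a k)) - e (ψ.symm (b k)) - A (a k - b k)) =o[atTop]
        fun k => a k - b k := hst0.isLittleO.comp_tendsto (hat.prodMk_nhds hbt)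
    have h4 := h3.def (show (0 : ℝ) < 1 / (2 * K) by positivity)
    filter_upwards [h4, hax, hby] with k hk h5 h6
    rw [h5, h6] at hk
    have h7 := hAK' (a k - b k)
    have h8 : ‖A (a k - b k)‖ ≤ ‖e (x (φ k)) - e (y (φ k))‖ + 1 / (2 * K) * ‖a k - b k‖ := by
      have h9 := norm_sub_le (e (x (φ k)) - e (y (φ k)))
        (e (x (φ k)) - e (y (φ k)) - A (a k - b k))
      rw [sub_sub_cancel] at h9
      linarith
    have h9 : (K : ℝ) * ‖A (a k - b k)‖ ≤ K * D (x (φ k)) (y (φ k)) + 1 / 2 * ‖a k - b k‖ := by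
      have h10 := mul_le_mul_of_nonneg_left h8 hK0.le
      have h11 : (K : ℝ) * (‖e (x (φ k)) - e (y (φ k))‖ + 1 / (2 * K) * ‖a k - b k‖) =
          K * D (x (φ k)) (y (φ k)) + 1 / 2 * ‖a k - b k‖ := by
        rw [hD]
        field_simp
      rwa [h11] at h10
    linarith
  set t : ℕ → ℝ := fun k => (D (x (φ k)) (y (φ k)))⁻¹ with ht
  have htpos : ∀ k, 0 < D (x (φ k)) (y (φ k)) := fun k => hDpos _ _ (hxy _)
  have hwb : ∀ᶠ k in atTop, t k • (a k - b k) ∈ Metric.closedBall (0 : EE d) (2 * K) := by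
    filter_upwards [hbnd] with k hk
    rw [mem_closedBall_zero_iff, norm_smul, Real.norm_eq_abs, abs_of_pos (inv_pos.2 (htpos k))]
    rw [inv_mul_le_iff₀ (htpos k)]
    linarith
  obtain ⟨w, -, χ, hχ, hw⟩ := tendsto_subseq_of_frequently_bounded
    (Metric.isBounded_closedBall (x := (0 : EE d)) (r := 2 * K)) hwb.frequently
  have hat' := hat.comp hχ.tendsto_atTop
  have hbt' := hbt.comp hχ.tendsto_atTop
  -- the derivatives of the iterates
  have key : ∀ g : N → N, ContMDiff (𝓡 d) (𝓡 d) 1 g →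
      Tendsto (fun k => t (χ k) • (e (g (x (φ (χ k)))) - e (g (y (φ (χ k)))))) atTop
        (𝓝 (dv e (g p) (der (d := d) g p w))) := by
    intro g hg
    have h3 : ContMDiffAt (𝓡 d) (𝓡 m) 1 (fun z => e (g z)) p :=
      (he1.comp hg).contMDiffAt
    have h4 := quot_tendsto (strict_chart h3) hat' hbt' hw
    have h5 : dv (fun z => e (g z)) p w = dv e (g p) (der (d := d) g p w) := by
      have h6 := mfderiv_comp p (he1.mdifferentiable one_ne_zero (g p))
        (hg.mdifferentiable one_ne_zero p)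
      exact DFunLike.congr_fun h6 w
    rw [h5] at h4
    refine h4.congr' ?_
    filter_upwards [hχ.tendsto_atTop.eventually hax, hχ.tendsto_atTop.eventually hby] with k h6 h7
    simp only [Function.comp_apply]
    rw [h6, h7]
  have hbd : ∀ g : N → N, ContMDiff (𝓡 d) (𝓡 d) 1 g →
      (∀ k, D (g (x k)) (g (y k)) ≤ 2 * D (x k) (y k)) →
      rnorm γ (g p) (der (d := d) g p w) ≤ β * 2 := by
    intro g hg hgD
    refine (hcmp (g p) (der (d := d) g p w)).trans (mul_le_mul_of_nonneg_left ?_ hβ.le)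
    refine le_of_tendsto' (key g hg).norm fun k => ?_
    rw [norm_smul, Real.norm_eq_abs, abs_of_pos (inv_pos.2 (htpos (χ k))),
      inv_mul_le_iff₀ (htpos (χ k))]
    have := hgD (φ (χ k))
    rw [mul_comm]
    exact this
  have hw0 : w = 0 := by
    refine eq_zero_of_bdd hg hg' (fun y => F.symm_apply_apply y) (fun y => F.apply_symm_apply y)
      h1 h2 hc hs hu hc0 hμ hμ1 hEs hEu hpΛ w (B := β * 2) ?_ ?_
    · exact fun n => hbd _ (hiter hF1 n) fun k => hDf k n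
    · exact fun n => hbd _ (hiter hF2 n) fun k => hDb k n
  have h3 := (key id contMDiff_id).norm
  have h4 : ∀ k, ‖t (χ k) • (e (id (x (φ (χ k)))) - e (id (y (φ (χ k)))))‖ = 1 := by
    intro k
    rw [norm_smul, Real.norm_eq_abs, abs_of_pos (inv_pos.2 (htpos (χ k)))]
    exact inv_mul_cancel₀ (htpos (χ k)).ne'
  have h5 := tendsto_nhds_unique (tendsto_const_nhds.congr fun k => (h4 k).symm) h3
  rw [hw0, map_zero, map_zero, norm_zero] at h5
  exact one_ne_zero h5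

end One

end Pool.Agent.OmegaPS

end
end

section

/-!
# Products: frames and Riemannian norms (GE7b, GE7c0)
-/

open Set Filter Topology Function
open scoped Manifold ContDiff

noncomputable section

namespace Pool.Agent.OmegaPS

open Pool.Agent.OmegaStab (EE Dyn IsFam PP HypAt crTopology HypLin ConjClass)
open Pool.Agent.OmegaStab.FinHyp (der)
open Pool.Agent.OmegaStability

variable {d : ℕ} {N : Type*} [MetricSpace N] [ChartedSpace (EE d) N] {r : ℕ∞}
  [IsManifold (𝓡 d) ∞ N]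

theorem frame_metric [CompactSpace N] {At : Atlas d N r} {F : Dyn d N r} {ε : ℝ}
    (G : GeoSys At F ε) (γ : RMetric (EE d) N) : ∃ β : ℝ, 0 < β ∧ ∀ (z : N) (v : EE d),
      rnorm γ z v ≤ β * ‖G.frame z v‖ ∧ ‖G.frame z v‖ ≤ β * rnorm γ z v := by
  have hfin := At.fin
  choose b hb0 hb using fun j => fr_compare γ (At.ctr j) (At.closure_W j)
  obtain ⟨B, hB⟩ : ∃ B : ℝ, ∀ j, b j ≤ B := by
    obtain ⟨B, hB⟩ := (Set.finite_range b).bddAbove
    exact ⟨B, fun j => hB (mem_range_self j)⟩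
  set B' : ℝ := max B 1 with hB'
  set K : ℝ := max G.Kθ 1 with hK
  have hB1 : 1 ≤ B' := le_max_right _ _
  have hK1 : 1 ≤ K := le_max_right _ _
  refine ⟨B' * K, by positivity, fun z v => ?_⟩
  obtain ⟨j, hj⟩ := At.cover z
  obtain ⟨h1, h2⟩ := hb j z hj v
  obtain ⟨h3, h4⟩ := G.bound j z hj v
  have hfr : fr (At.ctr j) z v = G.e j z v := by
    rw [← G.e_eq j z hj]; rfl
  rw [hfr] at h1 h2
  have hbB : b j ≤ B' := (hB j).trans (le_max_left _ _)
  have hKK : G.Kθ ≤ K := le_max_left _ _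
  have hr0 : 0 ≤ rnorm γ z v := Real.sqrt_nonneg _
  constructor
  · calc rnorm γ z v ≤ b j * ‖G.e j z v‖ := h1
      _ ≤ B' * (K * ‖G.frame z v‖) := by
          apply mul_le_mul hbB (h4.trans (by gcongr)) (norm_nonneg _) (by positivity)
      _ = B' * K * ‖G.frame z v‖ := by ring
  · calc ‖G.frame z v‖ ≤ G.Kθ * ‖G.e j z v‖ := h3
      _ ≤ K * (B' * rnorm γ z v) := by
          apply mul_le_mul hKK (h2.trans (by gcongr)) (norm_nonneg _) (by positivity)
      _ = B' * K * rnorm γ z v := by ring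

namespace FrameLim

/-- The derivative of the inverse chart. -/
def ifr (c z : N) : EE d →L[ℝ] EE d :=
  mfderivWithin 𝓘(ℝ, EE d) (𝓡 d) (extChartAt (𝓡 d) c).symm (extChartAt (𝓡 d) c).target
    (extChartAt (𝓡 d) c z)

theorem ifr_eq (c : N) {z : N} (hz : z ∈ (extChartAt (𝓡 d) c).source) :
    ifr (d := d) c z = mfderivWithin 𝓘(ℝ, EE d) (𝓡 d) (extChartAt (𝓡 d) c).symm
      (range (𝓡 d)) (extChartAt (𝓡 d) c z) := by
  have h1 : extChartAt (𝓡 d) c z ∈ (extChartAt (𝓡 d) c).target :=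
    (extChartAt (𝓡 d) c).map_source hz
  unfold ifr
  rw [ModelWithCorners.Boundaryless.range_eq_univ, mfderivWithin_univ]
  exact mfderivWithin_eq_mfderiv ((isOpen_extChartAt_target c).uniqueMDiffOn _ h1)
    ((mdifferentiableOn_extChartAt_symm (I := 𝓡 d) (x := c)).mdifferentiableAt
      ((isOpen_extChartAt_target c).mem_nhds h1))

theorem fr_ifr (c : N) {z : N} (hz : z ∈ (extChartAt (𝓡 d) c).source) (v : EE d) :
    fr c z (ifr (d := d) c z v) = v := by
  rw [ifr_eq c hz]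
  exact congrArg (fun T : EE d →L[ℝ] EE d => T v)
    (mfderiv_extChartAt_comp_mfderivWithin_extChartAt_symm' (I := 𝓡 d) hz)

/-- The inverse chart on the tangent bundles. -/
def lift (c : N) (u v : EE d) : TangentBundle (𝓡 d) N :=
  tangentMapWithin 𝓘(ℝ, EE d) (𝓡 d) (extChartAt (𝓡 d) c).symm (extChartAt (𝓡 d) c).target
    ⟨u, v⟩

theorem lift_eq (c : N) {z : N} (hz : z ∈ (extChartAt (𝓡 d) c).source) (v : EE d) :
    lift c (extChartAt (𝓡 d) c z) v = ⟨z, ifr (d := d) c z v⟩ := by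
  have h1 : (extChartAt (𝓡 d) c).symm (extChartAt (𝓡 d) c z) = z :=
    (extChartAt (𝓡 d) c).left_inv hz
  have h2 : ∀ y : N, y = z → (⟨y, ifr (d := d) c z v⟩ : TangentBundle (𝓡 d) N) =
      ⟨z, ifr (d := d) c z v⟩ := by
    rintro y rfl; rfl
  exact h2 _ h1

theorem continuousAt_lift (c : N) {z : N} (hz : z ∈ (extChartAt (𝓡 d) c).source) (v : EE d) :
    ContinuousAt (fun q : EE d × EE d => lift c q.1 q.2) (extChartAt (𝓡 d) c z, v) := by
  have h1 : ContinuousOn (tangentMapWithin 𝓘(ℝ, EE d) (𝓡 d) (extChartAt (𝓡 d) c).symm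
      (extChartAt (𝓡 d) c).target)
      (Bundle.TotalSpace.proj (F := EE d) ⁻¹' (extChartAt (𝓡 d) c).target) :=
    (contMDiffOn_extChartAt_symm (I := 𝓡 d) (n := ∞) c).continuousOn_tangentMapWithin
      (by simp) (isOpen_extChartAt_target c).uniqueMDiffOn
  have h2 : Continuous fun q : EE d × EE d =>
      (⟨q.1, q.2⟩ : TangentBundle 𝓘(ℝ, EE d) (EE d)) :=
    (tangentBundleModelSpaceHomeomorph 𝓘(ℝ, EE d)).symm.continuous
  have h3 : ContinuousOn (fun q : EE d × EE d => lift c q.1 q.2)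
      {q | q.1 ∈ (extChartAt (𝓡 d) c).target} := h1.comp h2.continuousOn (fun q hq => hq)
  apply h3.continuousAt
  exact ((isOpen_extChartAt_target c).preimage continuous_fst).mem_nhds
    ((extChartAt (𝓡 d) c).map_source hz)

end FrameLim

theorem tendsto_rnorm_der {At : Atlas d N r} {F : Dyn d N r} {ε : ℝ}
    (G : GeoSys At F ε) (γ : RMetric (EE d) N) {H : N → N} (hH : ContMDiff (𝓡 d) (𝓡 d) 1 H)
    {j : At.J} {x : N} (hx : x ∈ At.W j) {z : ℕ → N} (hz : Tendsto z atTop (𝓝 x))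
    (hzW : ∀ l, z l ∈ At.W j) {α : ℕ → EE d} {a : EE d} (hα : Tendsto α atTop (𝓝 a)) :
    Tendsto (fun l => rnorm γ (H (z l)) (der (d := d) H (z l) ((G.e j (z l)).symm (α l)))) atTop
      (𝓝 (rnorm γ (H x) (der (d := d) H x ((G.e j x).symm a)))) := by
  set c := At.ctr j with hc
  have hsrc : ∀ y ∈ At.W j, y ∈ (extChartAt (𝓡 d) c).source := fun y hy =>
    At.closure_W j (subset_closure hy)
  have he : ∀ y ∈ At.W j, ∀ v : EE d, (G.e j y).symm v = FrameLim.ifr (d := d) c y v := by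
    intro y hy v
    rw [ContinuousLinearEquiv.symm_apply_eq]
    have h1 := FrameLim.fr_ifr (d := d) c (hsrc y hy) v
    rw [hc, ← G.e_eq j y hy] at h1
    exact h1.symm
  have h1 : Tendsto (fun l => FrameLim.lift c (extChartAt (𝓡 d) c (z l)) (α l)) atTop
      (𝓝 (FrameLim.lift c (extChartAt (𝓡 d) c x) a)) := by
    have h2 := FrameLim.continuousAt_lift (d := d) c (hsrc x hx) a
    have h3 : Tendsto (fun l => (extChartAt (𝓡 d) c (z l), α l)) atTop
        (𝓝 (extChartAt (𝓡 d) c x, a)) :=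
      (((continuousAt_extChartAt' (I := 𝓡 d) (hsrc x hx)).tendsto.comp hz)).prodMk_nhds hα
    exact h2.tendsto.comp h3
  have h4 : Continuous fun v : TangentBundle (𝓡 d) N =>
      rnorm γ (tangentMap (𝓡 d) (𝓡 d) H v).1 (tangentMap (𝓡 d) (𝓡 d) H v).2 :=
    (continuous_rnorm γ).comp (hH.continuous_tangentMap le_rfl)
  have h5 := (h4.tendsto _).comp h1
  have h6 : ∀ y ∈ At.W j, ∀ v : EE d,
      rnorm γ (tangentMap (𝓡 d) (𝓡 d) H (FrameLim.lift c (extChartAt (𝓡 d) c y) v)).1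
        (tangentMap (𝓡 d) (𝓡 d) H (FrameLim.lift c (extChartAt (𝓡 d) c y) v)).2 =
      rnorm γ (H y) (der (d := d) H y ((G.e j y).symm v)) := by
    intro y hy v
    rw [FrameLim.lift_eq c (hsrc y hy), he y hy]
    rfl
  rw [h6 x hx] at h5
  refine h5.congr fun l => ?_
  exact h6 (z l) (hzW l) (α l)

end Pool.Agent.OmegaPS

end
end

section

/-!
# Existence of the cocycle in bounded frames
-/

open Set Filter Topology Function
open scoped Manifold ContDiff

noncomputable section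

namespace Pool.Agent.OmegaPS

open Pool.Agent.OmegaStab (EE Dyn IsFam PP HypAt crTopology HypLin ConjClass)
open Pool.Agent.OmegaStab.FinHyp (der)
open Pool.Agent.OmegaStability

namespace GeoSysEx

section

variable {d : ℕ} {N : Type*} [MetricSpace N] [ChartedSpace (EE d) N] {r : ℕ∞}
  [IsManifold (𝓡 d) ∞ N]

open Classical in
/-- The derivative of the chart as an equivalence. -/
def ee (x z : N) : EE d ≃L[ℝ] EE d :=
  if h : (fr (d := d) x z).IsInvertible then h.choose else 1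

theorem coe_ee {x z : N} (hz : z ∈ (extChartAt (𝓡 d) x).source) :
    (ee (d := d) x z : EE d →L[ℝ] EE d) = fr x z := by
  have : IsManifold (𝓡 d) 1 N := .of_le (n := ∞) (by norm_cast)
  have h : (fr (d := d) x z).IsInvertible := isInvertible_mfderiv_extChartAt hz
  unfold ee
  rw [dif_pos h]
  exact h.choose_spec

/-- The derivative of a diffeomorphism. -/
def dF (hr : 1 ≤ r) (F : Dyn d N r) (z : N) : EE d ≃L[ℝ] EE d :=
  ContinuousLinearEquiv.equivOfInverse (der (d := d) F z) (der (d := d) F.symm (F z))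
    (fun v => by
      have h := Pool.Agent.OmegaStab.FinHyp.der_comp (d := d)
        (Pool.Agent.OmegaStab.FinHyp.mdiff_symm hr F) (Pool.Agent.OmegaStab.FinHyp.mdiff hr F) z
      have h2 : (⇑F.symm ∘ ⇑F) = id := by
        funext x; exact F.symm_apply_apply x
      rw [h2, Pool.Agent.OmegaStab.FinHyp.der_id] at h
      exact (congrArg (fun T : EE d →L[ℝ] EE d => T v) h).symm)
    (fun v => by
      have h := Pool.Agent.OmegaStab.FinHyp.der_comp (d := d)
        (Pool.Agent.OmegaStab.FinHyp.mdiff hr F) (Pool.Agent.OmegaStab.FinHyp.mdiff_symm hr F) (F z)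
      have h2 : (⇑F ∘ ⇑F.symm) = id := by
        funext x; exact F.apply_symm_apply x
      rw [h2, Pool.Agent.OmegaStab.FinHyp.der_id, F.symm_apply_apply] at h
      exact (congrArg (fun T : EE d →L[ℝ] EE d => T v) h).symm)

omit [IsManifold (𝓡 d) ∞ N] in
theorem dF_apply (hr : 1 ≤ r) (F : Dyn d N r) (z : N) (v : EE d) :
    dF hr F z v = der (d := d) F z v := rfl

omit [IsManifold (𝓡 d) ∞ N] in
theorem dF_inv_apply (hr : 1 ≤ r) (F : Dyn d N r) (z : N) (v : EE d) :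
    (dF hr F z)⁻¹ v = der (d := d) F.symm (F z) v := rfl

/-- Comparison constants. -/
theorem consts [CompactSpace N] (hr : 1 ≤ r) (At : Atlas d N r) (F : Dyn d N r) :
    ∃ (ρ : N → EE d → ℝ) (β β₁ β₂ : ℝ), 0 < β ∧ 0 < β₁ ∧ 0 < β₂ ∧
      (∀ z v, 0 ≤ ρ z v) ∧
      (∀ j, ∀ z ∈ At.W j, ∀ v : EE d, ρ z v ≤ β * ‖ee (At.ctr j) z v‖ ∧
        ‖ee (At.ctr j) z v‖ ≤ β * ρ z v) ∧
      (∀ z v, ρ (F z) (der (d := d) F z v) ≤ β₁ * ρ z v) ∧
      (∀ z v, ρ z (der (d := d) F.symm (F z) v) ≤ β₂ * ρ (F z) v) := by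
  obtain ⟨γ⟩ := Pool.Agent.OmegaStab.exists_metric d N
  have hr1 : (1 : ℕ∞ω) ≤ (r : ℕ∞ω) := by exact_mod_cast hr
  obtain ⟨β₁, hβ₁, h₁⟩ := rnorm_compare (γ : RMetric (EE d) N) γ (q := F)
    (F.contMDiff_toFun.of_le hr1)
  obtain ⟨β₂, hβ₂, h₂⟩ := rnorm_compare (γ : RMetric (EE d) N) γ (q := F.symm)
    (F.symm.contMDiff_toFun.of_le hr1)
  have hf := fun j => fr_compare (γ : RMetric (EE d) N) (At.ctr j) (At.closure_W j)
  choose b hb hb' using hf
  have := At.fin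
  obtain ⟨β, hβ⟩ : ∃ β : ℝ, 0 < β ∧ ∀ j, b j ≤ β := by
    obtain ⟨B, hB⟩ := (Set.finite_range b).bddAbove
    exact ⟨max B 1, lt_max_of_lt_right one_pos, fun j => (hB ⟨j, rfl⟩).trans (le_max_left _ _)⟩
  have hρ : ∀ (z : N) (v : EE d), 0 ≤ rnorm γ z v := fun z v => Real.sqrt_nonneg _
  refine ⟨fun z v => rnorm γ z v, β, β₁, β₂, hβ.1, hβ₁, hβ₂, hρ, ?_, ?_, ?_⟩
  · intro j z hz v
    have hc : ee (At.ctr j) z v = fr (At.ctr j) z v :=
      congrArg (fun T : EE d →L[ℝ] EE d => T v)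
        (coe_ee (d := d) (At.closure_W j (subset_closure hz)))
    rw [hc]
    have h := hb' j z hz v
    exact ⟨h.1.trans (mul_le_mul_of_nonneg_right (hβ.2 j) (norm_nonneg _)),
      h.2.trans (mul_le_mul_of_nonneg_right (hβ.2 j) (hρ _ _))⟩
  · intro z v
    exact h₁ z v
  · intro z v
    have h := h₂ (F z) v
    have e : F.symm (F z) = z := F.symm_apply_apply z
    have key : ∀ (y : N) (w : EE d), y = z → rnorm γ y w = rnorm γ z w := by
      rintro y w rfl; rfl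
    exact (key (F.symm (F z)) (der (d := d) F.symm (F z) v) e).symm.le.trans h

omit [IsManifold (𝓡 d) ∞ N] in
theorem finite_cells [CompactSpace N] (At : Atlas d N r) {ε : ℝ} (hε : 0 < ε) :
    ∃ t : At.J → Set (EE d), (∀ j, (t j).Finite) ∧ ∀ j, ∀ z ∈ At.W j,
      ∃ x ∈ t j, dist (extChartAt (𝓡 d) (At.ctr j) z) x < ε / 2 := by
  have h : ∀ j, ∃ t : Set (EE d), t.Finite ∧ ∀ z ∈ At.W j,
      ∃ x ∈ t, dist (extChartAt (𝓡 d) (At.ctr j) z) x < ε / 2 := by
    intro j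
    have hK : IsCompact (extChartAt (𝓡 d) (At.ctr j) '' closure (At.W j)) :=
      isClosed_closure.isCompact.image_of_continuousOn
        ((continuousOn_extChartAt (I := 𝓡 d) (At.ctr j)).mono (At.closure_W j))
    obtain ⟨t, -, htf, ht⟩ := hK.finite_cover_balls (half_pos hε)
    refine ⟨t, htf, fun z hz => ?_⟩
    have := ht ⟨z, subset_closure hz, rfl⟩
    simpa using this
  choose t h1 h2 using h
  exact ⟨t, h1, h2⟩

theorem near_bound {V : Type*} [NormedAddCommGroup V] [InnerProductSpace ℝ V] {c : ℝ}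
    (hc : c ≤ 1 / 2) {L : V ≃L[ℝ] V} (h : Near c L) (v : V) :
    ‖L v‖ ≤ 2 * ‖v‖ ∧ ‖v‖ ≤ 2 * ‖L v‖ := by
  have h1 : ‖L v - v‖ ≤ 1 / 2 * ‖v‖ := by
    have := ((L : V →L[ℝ] V) - ContinuousLinearMap.id ℝ V).le_of_opNorm_le (h.trans hc) v
    simpa using this
  have h2 : ‖L v‖ ≤ ‖L v - v‖ + ‖v‖ := by
    calc ‖L v‖ = ‖(L v - v) + v‖ := by congr 1; abel
      _ ≤ _ := norm_add_le _ _
  have h3 : ‖v‖ ≤ ‖L v - v‖ + ‖L v‖ := by
    calc ‖v‖ = ‖L v - (L v - v)‖ := by congr 1; abel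
      _ ≤ ‖L v‖ + ‖L v - v‖ := norm_sub_le _ _
      _ = _ := add_comm _ _
  have := norm_nonneg v
  constructor <;> linarith

end

end GeoSysEx

section

variable {d : ℕ} {N : Type*} [MetricSpace N] [ChartedSpace (EE d) N] {r : ℕ∞}
  [IsManifold (𝓡 d) ∞ N]

open GeoSysEx in
theorem exists_geoSys [CompactSpace N] (hr : 1 ≤ r) (At : Atlas d N r) (F : Dyn d N r) {ε : ℝ}
    (hε : 0 < ε) (hε' : ε ≤ 1 / 2) : Nonempty (GeoSys At F ε) := by
  classical
  obtain ⟨ρ, β, β₁, β₂, hβ, hβ₁, hβ₂, hρ, hcmp, hF, hF'⟩ := consts hr At F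
  obtain ⟨t, htf, ht⟩ := finite_cells At hε
  have hJ := At.fin
  have hcov := At.cover
  choose jj hjj using hcov
  let e : At.J → N → (EE d ≃L[ℝ] EE d) := fun j z => ee (At.ctr j) z
  let frame : N → (EE d ≃L[ℝ] EE d) := fun z => e (jj z) z
  have hframe : ∀ z, frame z = e (jj z) z := fun z => rfl
  have hfr1 : ∀ z v, ‖frame z v‖ ≤ β * ρ z v := fun z v => (hcmp (jj z) z (hjj z) v).2
  have hfr2 : ∀ z v, ρ z v ≤ β * ‖frame z v‖ := fun z v => (hcmp (jj z) z (hjj z) v).1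
  have hbound : ∀ j, ∀ z ∈ At.W j, ∀ v : EE d, ‖frame z v‖ ≤ β ^ 2 * ‖e j z v‖ ∧
      ‖e j z v‖ ≤ β ^ 2 * ‖frame z v‖ := by
    intro j z hz v
    constructor
    · calc ‖frame z v‖ ≤ β * ρ z v := hfr1 z v
        _ ≤ β * (β * ‖e j z v‖) := by gcongr; exact (hcmp j z hz v).1
        _ = _ := by ring
    · calc ‖e j z v‖ ≤ β * ρ z v := (hcmp j z hz v).2
        _ ≤ β * (β * ‖frame z v‖) := by gcongr; exact hfr2 z v
        _ = _ := by ring
  let T : Set (EE d) := ⋃ j, t j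
  have hT : T.Finite := Set.finite_iUnion htf
  have hcellx : ∀ z, ∃ x ∈ t (jj z), dist (extChartAt (𝓡 d) (At.ctr (jj z)) z) x < ε / 2 :=
    fun z => ht (jj z) z (hjj z)
  choose cx hcx1 hcx2 using hcellx
  let cell : N → At.J × T := fun z => (jj z, ⟨cx z, mem_iUnion.2 ⟨jj z, hcx1 z⟩⟩)
  have hTfin : Finite T := hT
  let a : N → (EE d ≃L[ℝ] EE d) := fun z => frame (F z) * dF hr F z * (frame z)⁻¹
  let K : ℝ := 1 + β ^ 2 * β₁ + β ^ 2 * β₂ + 2 * (β ^ 2) ^ 2
  have hK1 : 1 ≤ K := by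
    have : 0 ≤ β ^ 2 * β₁ + β ^ 2 * β₂ + 2 * (β ^ 2) ^ 2 := by positivity
    linarith [this, show K = 1 + (β ^ 2 * β₁ + β ^ 2 * β₂ + 2 * (β ^ 2) ^ 2) by ring]
  have hK2 : β ^ 2 * β₁ ≤ K := by
    have : 0 ≤ 1 + β ^ 2 * β₂ + 2 * (β ^ 2) ^ 2 := by positivity
    linarith [this, show K = β ^ 2 * β₁ + (1 + β ^ 2 * β₂ + 2 * (β ^ 2) ^ 2) by ring]
  have hK3 : β ^ 2 * β₂ ≤ K := by
    have : 0 ≤ 1 + β ^ 2 * β₁ + 2 * (β ^ 2) ^ 2 := by positivity
    linarith [this, show K = β ^ 2 * β₂ + (1 + β ^ 2 * β₁ + 2 * (β ^ 2) ^ 2) by ring]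
  have hK4 : 2 * (β ^ 2) ^ 2 ≤ K := by
    have : 0 ≤ 1 + β ^ 2 * β₁ + β ^ 2 * β₂ := by positivity
    linarith [this, show K = 2 * (β ^ 2) ^ 2 + (1 + β ^ 2 * β₁ + β ^ 2 * β₂) by ring]
  have hK0 : 0 ≤ K := zero_le_one.trans hK1
  have hfi : ∀ z v, frame z ((frame z)⁻¹ v) = v := fun z v => (frame z).apply_symm_apply v
  have hei : ∀ j z v, e j z ((e j z)⁻¹ v) = v := fun j z v => (e j z).apply_symm_apply v
  have hna : ∀ y, ‖(a y : EE d →L[ℝ] EE d)‖ ≤ K := by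
    intro y
    refine ContinuousLinearMap.opNorm_le_bound _ hK0 fun v => ?_
    change ‖frame (F y) (der (d := d) F y ((frame y)⁻¹ v))‖ ≤ _
    set w := (frame y)⁻¹ v with hw
    have hv : ‖frame y w‖ = ‖v‖ := by rw [hw, hfi]
    calc ‖frame (F y) (der (d := d) F y w)‖ ≤ β * ρ (F y) (der (d := d) F y w) := hfr1 _ _
      _ ≤ β * (β₁ * (β * ‖frame y w‖)) := by
          gcongr
          exact (hF y w).trans (by gcongr; exact hfr2 y w)
      _ = β ^ 2 * β₁ * ‖v‖ := by rw [hv]; ring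
      _ ≤ K * ‖v‖ := by gcongr
  have hna' : ∀ y, ‖((a y)⁻¹ : EE d ≃L[ℝ] EE d).toContinuousLinearMap‖ ≤ K := by
    intro y
    refine ContinuousLinearMap.opNorm_le_bound _ hK0 fun v => ?_
    change ‖frame y (der (d := d) F.symm (F y) ((frame (F y))⁻¹ v))‖ ≤ _
    set w := (frame (F y))⁻¹ v with hw
    have hv : ‖frame (F y) w‖ = ‖v‖ := by rw [hw, hfi]
    calc ‖frame y (der (d := d) F.symm (F y) w)‖ ≤ β * ρ y (der (d := d) F.symm (F y) w) :=
          hfr1 _ _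
      _ ≤ β * (β₂ * (β * ‖frame (F y) w‖)) := by
          gcongr
          exact (hF' y w).trans (by gcongr; exact hfr2 (F y) w)
      _ = β ^ 2 * β₂ * ‖v‖ := by rw [hv]; ring
      _ ≤ K * ‖v‖ := by gcongr
  let Tr : N → N → (EE d ≃L[ℝ] EE d) → Prop := fun z y D => ∃ j, z ∈ At.W j ∧ y ∈ At.W j ∧
    ‖extChartAt (𝓡 d) (At.ctr j) y - extChartAt (𝓡 d) (At.ctr j) z‖ ≤ ε ∧
    ∃ L, Near ε L ∧ D = frame y * (e j y)⁻¹ * L * e j z * (frame z)⁻¹
  have hnT : ∀ z y D, Tr z y D → ‖(D : EE d →L[ℝ] EE d)‖ ≤ K ∧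
      ‖(D⁻¹ : EE d ≃L[ℝ] EE d).toContinuousLinearMap‖ ≤ K := by
    rintro z y D ⟨j, hz, hy, -, L, hL, rfl⟩
    constructor
    · refine ContinuousLinearMap.opNorm_le_bound _ hK0 fun v => ?_
      change ‖frame y ((e j y)⁻¹ (L (e j z ((frame z)⁻¹ v))))‖ ≤ _
      set w := (frame z)⁻¹ v with hw
      have hv : ‖frame z w‖ = ‖v‖ := by rw [hw, hfi]
      calc ‖frame y ((e j y)⁻¹ (L (e j z w)))‖ ≤ β ^ 2 * ‖e j y ((e j y)⁻¹ (L (e j z w)))‖ :=
            (hbound j y hy _).1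
        _ = β ^ 2 * ‖L (e j z w)‖ := by rw [hei]
        _ ≤ β ^ 2 * (2 * (β ^ 2 * ‖frame z w‖)) := by
            gcongr
            exact (near_bound hε' hL _).1.trans (by gcongr; exact (hbound j z hz _).2)
        _ = 2 * (β ^ 2) ^ 2 * ‖v‖ := by rw [hv]; ring
        _ ≤ K * ‖v‖ := by gcongr
    · refine ContinuousLinearMap.opNorm_le_bound _ hK0 fun v => ?_
      change ‖frame z ((e j z)⁻¹ (L.symm (e j y ((frame y)⁻¹ v))))‖ ≤ _
      set w := (frame y)⁻¹ v with hw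
      have hv : ‖frame y w‖ = ‖v‖ := by rw [hw, hfi]
      have hLs : ‖L.symm (e j y w)‖ ≤ 2 * ‖e j y w‖ := by
        have := (near_bound hε' hL (L.symm (e j y w))).2
        rwa [L.apply_symm_apply] at this
      calc ‖frame z ((e j z)⁻¹ (L.symm (e j y w)))‖
            ≤ β ^ 2 * ‖e j z ((e j z)⁻¹ (L.symm (e j y w)))‖ := (hbound j z hz _).1
        _ = β ^ 2 * ‖L.symm (e j y w)‖ := by rw [hei]
        _ ≤ β ^ 2 * (2 * (β ^ 2 * ‖frame y w‖)) := by
            gcongr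
            exact hLs.trans (by gcongr; exact (hbound j y hy _).2)
        _ = 2 * (β ^ 2) ^ 2 * ‖v‖ := by rw [hv]; ring
        _ ≤ K * ‖v‖ := by gcongr
  have htc : ∀ z y D, cell z = cell y → Near ε D → Tr z y D := by
    intro z y D hc hD
    have h1 : jj z = jj y := congrArg Prod.fst hc
    have h2 : cx z = cx y := congrArg (fun q : At.J × T => (q.2 : EE d)) hc
    refine ⟨jj z, hjj z, h1 ▸ hjj y, ?_, D, hD, ?_⟩
    · have hz := hcx2 z
      have hy := hcx2 y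
      rw [← h1, ← h2, dist_comm] at hy
      rw [← dist_eq_norm, dist_comm]
      have := dist_triangle (extChartAt (𝓡 d) (At.ctr (jj z)) z) (cx z)
        (extChartAt (𝓡 d) (At.ctr (jj z)) y)
      linarith
    · have h3 : e (jj z) y = frame y := by rw [h1]
      have h4 : e (jj z) z = frame z := rfl
      rw [h3, h4]
      group
  exact ⟨{ S := { f := F.toEquiv, a := a, K := K, one_le_K := hK1, norm_a := hna, norm_a' := hna',
                  κ := At.J × T, fin := inferInstance, cell := cell, c := ε, c_pos := hε,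
                  c_le := hε', Tr := Tr, norm_Tr := hnT, tr_cell := htc }
           frame := frame
           e := e
           f_eq := fun z => rfl
           a_eq := fun z v => by
             change frame (F z) (der (d := d) F z ((frame z).symm (frame z v))) = _
             rw [(frame z).symm_apply_apply]
           e_eq := fun j z hz => coe_ee (At.closure_W j (subset_closure hz))
           tr_iff := fun z y D => Iff.rfl
           Kθ := β ^ 2
           bound := hbound }⟩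

end

end Pool.Agent.OmegaPS

end
end

section

/-!
# A hyperbolic structure from vectorwise hyperbolicity
-/

open Set Filter Topology Function
open scoped Manifold ContDiff

noncomputable section

namespace Pool.Agent.OmegaPS

open Pool.Agent.OmegaStab (EE Dyn IsFam PP HypAt crTopology HypLin ConjClass)
open Pool.Agent.OmegaStab.FinHyp (der)
open Pool.Agent.OmegaStability

namespace HypOfVec

section

variable {E : Type*} [NormedAddCommGroup E] [NormedSpace ℝ E]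
  {M : Type*} [MetricSpace M] [ChartedSpace E M] [IsManifold 𝓘(ℝ, E) ∞ M]

theorem rnorm_add_le (γ : RMetric E M) (x : M) (v w : TangentSpace 𝓘(ℝ, E) x) :
    rnorm γ x (v + w) ≤ rnorm γ x v + rnorm γ x w := by
  have h1 := UnionHyp.rnorm_le_add γ x (-v) (v + w)
  have h2 : rnorm γ x (-v) = rnorm γ x v := by
    have := rnorm_smul γ x v (-1)
    simpa using this
  rw [neg_add_cancel_left, h2] at h1
  linarith

/-- the vectors with bounded forward images -/
def Bd (g : M → M) (γ : RMetric E M) : TFamily E M := fun x =>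
  { carrier := {v | ∃ B : ℝ, ∀ n : ℕ,
      rnorm γ (g^[n] x) (mfderiv 𝓘(ℝ, E) 𝓘(ℝ, E) g^[n] x v) ≤ B}
    add_mem' := by
      rintro v w ⟨B, hB⟩ ⟨B', hB'⟩
      refine ⟨B + B', fun n => ?_⟩
      rw [map_add]
      exact (rnorm_add_le γ _ _ _).trans (add_le_add (hB n) (hB' n))
    zero_mem' := ⟨0, fun n => by
      rw [map_zero]
      have := rnorm_smul γ (g^[n] x) (0 : TangentSpace 𝓘(ℝ, E) (g^[n] x)) 0
      rw [zero_smul, abs_zero, zero_mul] at this
      rw [this]⟩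
    smul_mem' := by
      rintro c v ⟨B, hB⟩
      refine ⟨|c| * B, fun n => ?_⟩
      rw [map_smul, rnorm_smul]
      exact mul_le_mul_of_nonneg_left (hB n) (abs_nonneg c) }

theorem mem_Bd {g : M → M} {γ : RMetric E M} {x : M} {v : TangentSpace 𝓘(ℝ, E) x} :
    v ∈ Bd g γ x ↔ ∃ B : ℝ, ∀ n : ℕ,
      rnorm γ (g^[n] x) (mfderiv 𝓘(ℝ, E) 𝓘(ℝ, E) g^[n] x v) ≤ B := Iff.rfl

/-- a bounded vector which is expanded vanishes -/
theorem eq_zero {g : M → M} {γ : RMetric E M} {x : M} {C δ : ℝ} (hC : 1 ≤ C) (hδ : 0 < δ)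
    {s u : TangentSpace 𝓘(ℝ, E) x} (hv : s + u ∈ Bd g γ x)
    (hs : ∀ n : ℕ, rnorm γ (g^[n] x) (mfderiv 𝓘(ℝ, E) 𝓘(ℝ, E) g^[n] x s) ≤
      C * Real.exp (-δ * n) * rnorm γ x s)
    (hu : ∀ n : ℕ, rnorm γ x u ≤ C * Real.exp (-δ * n) *
      rnorm γ (g^[n] x) (mfderiv 𝓘(ℝ, E) 𝓘(ℝ, E) g^[n] x u)) : u = 0 := by
  obtain ⟨B, hB⟩ := hv
  have hbd : ∀ n : ℕ, rnorm γ x u ≤ C * (B + C * rnorm γ x s) * Real.exp (-δ) ^ n := by
    intro n
    have h0 := UnionHyp.rnorm_nonneg γ x s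
    have he : Real.exp (-δ * n) ≤ 1 := by
      rw [Real.exp_le_one_iff]
      have : (0 : ℝ) ≤ n := Nat.cast_nonneg n
      nlinarith
    have he0 := Real.exp_pos (-δ * n)
    have h1 : rnorm γ (g^[n] x) (mfderiv 𝓘(ℝ, E) 𝓘(ℝ, E) g^[n] x u) ≤
        B + C * rnorm γ x s := by
      have h2 := UnionHyp.rnorm_le_add γ (g^[n] x) (mfderiv 𝓘(ℝ, E) 𝓘(ℝ, E) g^[n] x s)
        (mfderiv 𝓘(ℝ, E) 𝓘(ℝ, E) g^[n] x u)
      rw [← map_add] at h2
      have h3 : C * Real.exp (-δ * n) * rnorm γ x s ≤ C * rnorm γ x s := by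
        apply mul_le_mul_of_nonneg_right _ h0
        nlinarith
      linarith [hB n, hs n]
    have h4 : Real.exp (-δ) ^ n = Real.exp (-δ * n) := by
      rw [← Real.exp_nat_mul]; ring_nf
    rw [h4]
    refine (hu n).trans ?_
    have h5 : 0 ≤ C * Real.exp (-δ * n) := by positivity
    calc C * Real.exp (-δ * n) * rnorm γ (g^[n] x) (mfderiv 𝓘(ℝ, E) 𝓘(ℝ, E) g^[n] x u)
        ≤ C * Real.exp (-δ * n) * (B + C * rnorm γ x s) := mul_le_mul_of_nonneg_left h1 h5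
      _ = C * (B + C * rnorm γ x s) * Real.exp (-δ * n) := by ring
  have hlt : Real.exp (-δ) < 1 := by
    rw [Real.exp_lt_one_iff]; linarith
  have hlim : Tendsto (fun n : ℕ => C * (B + C * rnorm γ x s) * Real.exp (-δ) ^ n)
      atTop (𝓝 0) := by
    have := (tendsto_pow_atTop_nhds_zero_of_lt_one (Real.exp_pos (-δ)).le hlt).const_mul
      (C * (B + C * rnorm γ x s))
    simpa using this
  exact UnionHyp.eq_zero_of_rnorm_nonpos γ x u (ge_of_tendsto' hlim hbd)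

theorem inv_fwd {g : M → M} (hg : MDifferentiable 𝓘(ℝ, E) 𝓘(ℝ, E) g) {γ : RMetric E M} {x : M}
    {v : TangentSpace 𝓘(ℝ, E) x} (hv : v ∈ Bd g γ x) :
    mfderiv 𝓘(ℝ, E) 𝓘(ℝ, E) g x v ∈ Bd g γ (g x) := by
  obtain ⟨B, hB⟩ := hv
  refine ⟨B, fun n => ?_⟩
  have h1 : mfderiv 𝓘(ℝ, E) 𝓘(ℝ, E) (g^[n] ∘ g) x =
      (mfderiv 𝓘(ℝ, E) 𝓘(ℝ, E) g^[n] (g x)).comp (mfderiv 𝓘(ℝ, E) 𝓘(ℝ, E) g x) :=
    mfderiv_comp x (UnionHyp.mdiff_iter hg n (g x)) (hg x)
  have h2 : rnorm γ ((g^[n] ∘ g) x) (mfderiv 𝓘(ℝ, E) 𝓘(ℝ, E) (g^[n] ∘ g) x v) ≤ B := by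
    have := hB (n + 1)
    rw [Function.iterate_succ] at this
    exact this
  rw [h1] at h2
  exact h2

theorem inv_bwd {g g' : M → M} (hg : MDifferentiable 𝓘(ℝ, E) 𝓘(ℝ, E) g)
    (hg' : MDifferentiable 𝓘(ℝ, E) 𝓘(ℝ, E) g') (hgg : ∀ x, g' (g x) = x)
    {γ : RMetric E M} {x : M} {v : TangentSpace 𝓘(ℝ, E) x} (hv : v ∈ Bd g' γ x) :
    mfderiv 𝓘(ℝ, E) 𝓘(ℝ, E) g x v ∈ Bd g' γ (g x) := by
  obtain ⟨B, hB⟩ := hv
  refine ⟨max B (rnorm γ (g'^[0] (g x)) (mfderiv 𝓘(ℝ, E) 𝓘(ℝ, E) g'^[0] (g x)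
    (mfderiv 𝓘(ℝ, E) 𝓘(ℝ, E) g x v))), fun n => ?_⟩
  cases n with
  | zero => exact le_max_right _ _
  | succ n =>
    refine le_trans ?_ (le_max_left _ _)
    have h1 : mfderiv 𝓘(ℝ, E) 𝓘(ℝ, E) (g'^[n + 1] ∘ g) x =
        (mfderiv 𝓘(ℝ, E) 𝓘(ℝ, E) g'^[n + 1] (g x)).comp (mfderiv 𝓘(ℝ, E) 𝓘(ℝ, E) g x) :=
      mfderiv_comp x (UnionHyp.mdiff_iter hg' (n + 1) (g x)) (hg x)
    have h3 : g'^[n + 1] ∘ g = g'^[n] := by
      funext y
      show g'^[n] (g' (g y)) = g'^[n] y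
      rw [hgg]
    have h2 : rnorm γ ((g'^[n + 1] ∘ g) x) (mfderiv 𝓘(ℝ, E) 𝓘(ℝ, E) (g'^[n + 1] ∘ g) x v) ≤ B := by
      rw [h3]
      exact hB n
    rw [h1] at h2
    exact h2

end

end HypOfVec

open HypOfVec

variable {d : ℕ} {N : Type*} [MetricSpace N] [ChartedSpace (EE d) N] [IsManifold (𝓡 d) ∞ N]
  {r : ℕ∞}

theorem hyperbolicStructure_of_vecHyp [CompactSpace N] (hr : 1 ≤ r) (F : Dyn d N r)
    (γ : RMetric (EE d) N) {Λ : Set N} (hΛ : IsClosed Λ) (h1 : ∀ x ∈ Λ, F x ∈ Λ)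
    (h2 : ∀ x ∈ Λ, F.symm x ∈ Λ) {C δ : ℝ} (hC : 1 ≤ C) (hδ : 0 < δ)
    (h : VecHyp F F.symm γ Λ C δ) : HyperbolicStructure (EE d) F F.symm Λ := by
  have hF : ContMDiff 𝓘(ℝ, EE d) 𝓘(ℝ, EE d) 1 F := F.contMDiff.of_le (by exact_mod_cast hr)
  have hF' : ContMDiff 𝓘(ℝ, EE d) 𝓘(ℝ, EE d) 1 F.symm :=
    F.symm.contMDiff.of_le (by exact_mod_cast hr)
  have hFd : MDifferentiable 𝓘(ℝ, EE d) 𝓘(ℝ, EE d) F := hF.mdifferentiable one_ne_zero
  have hFd' : MDifferentiable 𝓘(ℝ, EE d) 𝓘(ℝ, EE d) F.symm := hF'.mdifferentiable one_ne_zero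
  have hexp : ∀ n : ℕ, Real.exp (-δ) ^ n = Real.exp (-δ * n) := by
    intro n
    rw [← Real.exp_nat_mul]; ring_nf
  have hlt : Real.exp (-δ) < 1 := by
    rw [Real.exp_lt_one_iff]; linarith
  have hle : ∀ (n : ℕ) (y : ℝ), 0 ≤ y → C * Real.exp (-δ * n) * y ≤ C * y := by
    intro n y hy
    have he : Real.exp (-δ * n) ≤ 1 := by
      rw [Real.exp_le_one_iff]
      have : (0 : ℝ) ≤ n := Nat.cast_nonneg n
      nlinarith
    apply mul_le_mul_of_nonneg_right _ hy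
    nlinarith
  -- the decomposition
  have dec : ∀ x ∈ Λ, ∀ v : TangentSpace 𝓘(ℝ, EE d) x, ∃ s u : TangentSpace 𝓘(ℝ, EE d) x,
      v = s + u ∧ s ∈ Bd F γ x ∧ u ∈ Bd F.symm γ x ∧
      (v ∈ Bd F γ x → u = 0) ∧ (v ∈ Bd F.symm γ x → s = 0) ∧
      (∀ n : ℕ, rnorm γ (F^[n] x) (mfderiv 𝓘(ℝ, EE d) 𝓘(ℝ, EE d) F^[n] x s) ≤
        C * Real.exp (-δ * n) * rnorm γ x s) ∧
      (∀ n : ℕ, rnorm γ (F.symm^[n] x) (mfderiv 𝓘(ℝ, EE d) 𝓘(ℝ, EE d) F.symm^[n] x u) ≤
        C * Real.exp (-δ * n) * rnorm γ x u) := by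
    intro x hx v
    obtain ⟨s, u, hvsu, a1, a2, a3, a4⟩ := h x hx v
    refine ⟨s, u, hvsu, ?_, ?_, ?_, ?_, a1, a3⟩
    · exact ⟨C * rnorm γ x s, fun n => (a1 n).trans (hle n _ (UnionHyp.rnorm_nonneg γ x s))⟩
    · exact ⟨C * rnorm γ x u, fun n => (a3 n).trans (hle n _ (UnionHyp.rnorm_nonneg γ x u))⟩
    · intro hv
      rw [hvsu] at hv
      exact eq_zero hC hδ hv a1 a4
    · intro hv
      have hv' : (u + s : TangentSpace 𝓘(ℝ, EE d) x) ∈ Bd F.symm γ x := by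
        have e : v = (u + s : TangentSpace 𝓘(ℝ, EE d) x) := hvsu.trans (add_comm _ _)
        rw [e] at hv
        exact hv
      exact eq_zero hC hδ hv' a3 a2
  have hcompl : ∀ x ∈ Λ, IsCompl (Bd F γ x) (Bd F.symm γ x) := by
    intro x hx
    rw [isCompl_iff, Submodule.disjoint_def, codisjoint_iff, Submodule.eq_top_iff']
    constructor
    · intro v hv hv'
      obtain ⟨s, u, e, -, -, b1, b2, -⟩ := dec x hx v
      rw [e, b1 hv, b2 hv', add_zero]
    · intro v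
      obtain ⟨s, u, e, b1, b2, -⟩ := dec x hx v
      exact Submodule.mem_sup.2 ⟨s, b1, u, b2, e.symm⟩
  have hcs : ContractedOver F γ (Bd F γ) Λ C (Real.exp (-δ)) := by
    intro x hx v hv n
    obtain ⟨s, u, e, -, -, b1, -, b3, -⟩ := dec x hx v
    have : v = s := by rw [e, b1 hv, add_zero]
    rw [this, hexp]
    exact b3 n
  have hcu : ContractedOver F.symm γ (Bd F.symm γ) Λ C (Real.exp (-δ)) := by
    intro x hx v hv n
    obtain ⟨s, u, e, -, -, -, b1, -, b3⟩ := dec x hx v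
    have : v = u := by rw [e, b1 hv, zero_add]
    rw [this, hexp]
    exact b3 n
  have hinvs : InvariantOver F (Bd F γ) Λ := fun x _ v hv => inv_fwd hFd hv
  have hinvu : InvariantOver F (Bd F.symm γ) Λ := fun x _ v hv =>
    inv_bwd hFd hFd' (fun x => F.symm_apply_apply x) hv
  have hinvs' : InvariantOver F.symm (Bd F γ) Λ := fun x _ v hv =>
    inv_bwd hFd' hFd (fun x => F.apply_symm_apply x) hv
  have hC0 : 0 < C := by linarith
  refine ⟨Bd F γ, Bd F.symm γ, ?_, ?_, hcompl, hinvs, hinvu, γ, C, Real.exp (-δ), hC0,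
    Real.exp_pos _, hlt, hcs, hcu⟩
  · exact UnionHyp.closedOver hF hFd' (fun x => F.symm_apply_apply x) hC0 (Real.exp_pos _) hlt
      hcompl hinvu hcs hcu h1 hΛ
  · exact UnionHyp.closedOver hF' hFd (fun x => F.apply_symm_apply x) hC0 (Real.exp_pos _) hlt
      (fun x hx => (hcompl x hx).symm) hinvs' hcu hcs h2 hΛ

end Pool.Agent.OmegaPS

end
end

section

/-!
# Products, item 51: closed chains of a uniformly hyperbolic system are shadowed by periodic orbits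
-/

open Set Filter Topology Function
open scoped Manifold ContDiff

noncomputable section

namespace Pool.Agent.OmegaPS

open Pool.Agent.OmegaStab (EE Dyn IsFam PP HypAt crTopology HypLin)
open Pool.Agent.OmegaStab.FinHyp (der)

namespace ClosingTrack

open Closing

variable {d : ℕ} {N : Type*} [MetricSpace N] [ChartedSpace (EE d) N] {r : ℕ∞}
    [IsManifold (𝓡 d) ∞ N]

theorem shadow (hr : 1 ≤ r) {At : Atlas d N r} {F : Dyn d N r} {ε : ℝ} (G : GeoSys At F ε)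
    {ε₁ η₀ R C2 b ε₂ : ℝ} (hη₀ : 0 < η₀)
    (hrad : ∀ (j : At.J) (y : N), Metric.ball y η₀ ⊆ At.W j → ∀ u : EE d,
      ‖u - extChartAt (𝓡 d) (At.ctr j) y‖ ≤ R → u ∈ (extChartAt (𝓡 d) (At.ctr j)).target ∧
        dist ((extChartAt (𝓡 d) (At.ctr j)).symm u) y ≤ min ε₁ (η₀ / 2))
    (hunif : ∀ (j : At.J) (y z : N), y ∈ At.W j → z ∈ At.W j → dist z y ≤ ε₂ →
      ‖extChartAt (𝓡 d) (At.ctr j) z - extChartAt (𝓡 d) (At.ctr j) y‖ ≤ b)
    (hC20 : 0 < C2) (hb0 : 0 < b) (hb1 : 2 * C2 * b ≤ R / 2) (hb2 : b ≤ R / 2)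
    {ι : Type} [Fintype ι] (σ : Equiv.Perm ι) (y : ι → N) (j : ι → At.J)
    (hj : ∀ i, Metric.ball (y i) η₀ ⊆ At.W (j i))
    (hjump : ∀ i, dist (F (y i)) (y (σ i)) ≤ min ε₂ (η₀ / 2))
    (hlin : ∀ y' : ι → N, (∀ i, y' i ∈ At.W (j i)) → (∀ i, F (y' i) ∈ At.W (j (σ i))) →
      (∀ i, F (y i) = y (σ i) → F (y' i) = y' (σ i)) →
      (∀ i, ‖extChartAt (𝓡 d) (At.ctr (j (σ i))) (y' (σ i)) -
        extChartAt (𝓡 d) (At.ctr (j (σ i))) (F (y' i))‖ ≤ b) →
      ∀ (w : ι → EE d) (B : ℝ), (∀ i, ‖G.e (j (σ i)) (F (y' i)) (der (d := d) F (y' i)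
        ((G.e (j i) (y' i)).symm (w i))) - w (σ i)‖ ≤ B) → 0 ≤ B → ∀ i, ‖w i‖ ≤ C2 * B) :
    ∃ u : ι → N, (∀ i, F (u i) = u (σ i)) ∧ ∀ i, dist (u i) (y i) ≤ ε₁ := by
  let x : ι → N := fun q => At.ctr (j q)
  have hyW : ∀ q, y q ∈ At.W (j q) := fun q => hj q (Metric.mem_ball_self hη₀)
  have hyS : ∀ q, y q ∈ (extChartAt (𝓡 d) (x q)).source := fun q =>
    At.closure_W _ (subset_closure (hyW q))
  have hzW : ∀ q, F (y q) ∈ At.W (j (σ q)) := fun q =>
    hj (σ q) (Metric.mem_ball.2 (lt_of_le_of_lt ((hjump q).trans (min_le_right _ _))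
      (by linarith)))
  have hF1 : ContMDiff (𝓡 d) (𝓡 d) 1 F := contMDiff_iter hr F 1
  -- the map
  let Gm : (ι → EE d) → (ι → EE d) := fun u q =>
    loc (x (σ.symm q)) (x q) F (u (σ.symm q)) - u q
  let U : Set (ι → EE d) :=
    {u | ∀ q, u (σ.symm q) ∈ dom (d := d) (x (σ.symm q)) (x q) F}
  have hU1 : ∀ u ∈ U, ∀ q, u q ∈ dom (d := d) (x q) (x (σ q)) F := by
    intro u hu q
    have h1 := hu (σ q)
    simpa only [Equiv.symm_apply_apply] using h1
  have hU2 : ∀ u : ι → EE d, (∀ q, u q ∈ dom (d := d) (x q) (x (σ q)) F) →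
      u ∈ U := by
    intro u hu q
    have h1 := hu (σ.symm q)
    simpa only [Equiv.apply_symm_apply] using h1
  have hGm : ∀ u q, Gm u (σ q) = loc (x q) (x (σ q)) F (u q) - u (σ q) := by
    intro u q
    show loc (x (σ.symm (σ q))) (x (σ q)) F (u (σ.symm (σ q))) - u (σ q) = _
    rw [Equiv.symm_apply_apply]
  have hshift : ∀ P : ι → Prop, (∀ q, P (σ q)) → ∀ q, P q := by
    intro P hP q
    have h1 := hP (σ.symm q)
    rwa [Equiv.apply_symm_apply] at h1
  have hUo : IsOpen U := by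
    have : U = ⋂ q, (fun u : ι → EE d => u (σ.symm q)) ⁻¹'
        dom (d := d) (x (σ.symm q)) (x q) F := by
      ext u
      simp [U]
    rw [this]
    exact isOpen_iInter_of_finite fun q =>
      (isOpen_dom (x (σ.symm q)) (x q) hF1.continuous).preimage
        (continuous_apply (σ.symm q) : Continuous (fun u : ι → EE d => u (σ.symm q)))
  have hGmC : ContDiffOn ℝ 1 Gm U := by
    refine contDiffOn_pi.2 fun q => ContDiffOn.sub ?_ (contDiff_apply ℝ (EE d) q).contDiffOn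
    exact (contDiffOn_loc _ _ hF1).comp (contDiff_apply ℝ (EE d) (σ.symm q)).contDiffOn
      fun u hu => hu q
  let u₁ : ι → EE d := fun q => extChartAt (𝓡 d) (x q) (y q)
  have hleft : ∀ q, (extChartAt (𝓡 d) (x q)).symm (u₁ q) = y q := fun q =>
    (extChartAt (𝓡 d) (x q)).left_inv (hyS q)
  have hu₁ : u₁ ∈ U := by
    refine hU2 u₁ fun q => ⟨(extChartAt (𝓡 d) (x q)).map_source (hyS q), ?_⟩
    rw [hleft]
    exact At.closure_W _ (subset_closure (hzW q))
  set v : ι → EE d := Gm u₁ with hv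
  have hvσ : ∀ q, v (σ q) = extChartAt (𝓡 d) (x (σ q)) (F (y q)) -
      extChartAt (𝓡 d) (x (σ q)) (y (σ q)) := by
    intro q
    rw [hv, hGm]
    show extChartAt (𝓡 d) (x (σ q)) (F ((extChartAt (𝓡 d) (x q)).symm (u₁ q))) -
      extChartAt (𝓡 d) (x (σ q)) (y (σ q)) = _
    rw [hleft]
  have hvb : ∀ q, ‖v q‖ ≤ b := by
    refine hshift _ fun q => ?_
    rw [hvσ]
    exact hunif (j (σ q)) (y (σ q)) (F (y q)) (hyW _) (hzW _)
      ((hjump q).trans (min_le_left _ _))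
  have hvn : ‖v‖ ≤ b := (pi_norm_le_iff_of_nonneg hb0.le).2 hvb
  have hbound : 2 * C2 * ‖v‖ ≤ R / 2 :=
    (mul_le_mul_of_nonneg_left hvn (by positivity)).trans hb1
  -- points of the ball
  have hball : ∀ u ∈ Metric.closedBall u₁ (R / 2), ∀ q, ‖u q - u₁ q‖ ≤ R / 2 := by
    intro u hu q
    rw [mem_closedBall_iff_norm] at hu
    exact (norm_le_pi_norm (u - u₁) q).trans hu
  have hA1 : ∀ u ∈ Metric.closedBall u₁ (R / 2), ∀ q,
      u q ∈ (extChartAt (𝓡 d) (x q)).target ∧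
      dist ((extChartAt (𝓡 d) (x q)).symm (u q)) (y q) ≤ min ε₁ (η₀ / 2) := fun u hu q =>
    hrad (j q) (y q) (hj q) (u q) ((hball u hu q).trans (by linarith))
  have hA2 : ∀ u ∈ Metric.closedBall u₁ (R / 2), ∀ t ∈ Icc (0 : ℝ) 1, ∀ q,
      u q + t • v q ∈ (extChartAt (𝓡 d) (x q)).target ∧
      dist ((extChartAt (𝓡 d) (x q)).symm (u q + t • v q)) (y q) ≤ min ε₁ (η₀ / 2) := by
    intro u hu t ht q
    refine hrad (j q) (y q) (hj q) _ ?_
    have h1 : u q + t • v q - extChartAt (𝓡 d) (At.ctr (j q)) (y q) =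
        (u q - u₁ q) + t • v q := by
      show u q + t • v q - u₁ q = _
      abel
    rw [h1]
    refine (norm_add_le _ _).trans ?_
    rw [norm_smul, Real.norm_eq_abs, abs_of_nonneg ht.1]
    have h2 : t * ‖v q‖ ≤ 1 * b := mul_le_mul ht.2 (hvb q) (norm_nonneg _) zero_le_one
    have h3 := hball u hu q
    linarith
  have hWball : ∀ q z, dist z (y q) ≤ min ε₁ (η₀ / 2) → z ∈ At.W (j q) := fun q z hz =>
    hj q (Metric.mem_ball.2 (lt_of_le_of_lt (hz.trans (min_le_right _ _)) (by linarith)))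
  -- the equation Gm u = t v
  have heq : ∀ u ∈ Metric.closedBall u₁ (R / 2), ∀ t ∈ Icc (0 : ℝ) 1,
      ((u ∈ U ∧ Gm u = t • v) ↔ ∀ q, F ((extChartAt (𝓡 d) (x q)).symm (u q)) =
        (extChartAt (𝓡 d) (x (σ q))).symm (u (σ q) + t • v (σ q))) := by
    intro u hu t ht
    constructor
    · rintro ⟨huU, hu2⟩ q
      have h1 := congrFun hu2 (σ q)
      rw [hGm] at h1
      have h2 : extChartAt (𝓡 d) (x (σ q))
          (F ((extChartAt (𝓡 d) (x q)).symm (u q))) = u (σ q) + t • v (σ q) := by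
        have h3 : loc (x q) (x (σ q)) F (u q) = t • v (σ q) + u (σ q) :=
          sub_eq_iff_eq_add.1 h1
        exact h3.trans (add_comm _ _)
      rw [← h2]
      exact ((extChartAt (𝓡 d) (x (σ q))).left_inv (hU1 u huU q).2).symm
    · intro hq
      have hmem : ∀ q, u q ∈ dom (d := d) (x q) (x (σ q)) F := by
        intro q
        refine ⟨(hA1 u hu q).1, ?_⟩
        rw [hq q]
        exact (extChartAt (𝓡 d) (x (σ q))).map_target (hA2 u hu t ht (σ q)).1
      refine ⟨hU2 u hmem, ?_⟩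
      funext q
      revert q
      refine hshift _ fun q => ?_
      rw [hGm]
      have h1 : loc (x q) (x (σ q)) F (u q) = u (σ q) + t • v (σ q) := by
        show extChartAt (𝓡 d) (x (σ q))
          (F ((extChartAt (𝓡 d) (x q)).symm (u q))) = _
        rw [hq q]
        exact (extChartAt (𝓡 d) (x (σ q))).right_inv (hA2 u hu t ht (σ q)).1
      rw [h1]
      show _ = t • v (σ q)
      abel
  have hcl : IsClosed {P : ℝ × (ι → EE d) | P.1 ∈ Icc (0 : ℝ) 1 ∧
      P.2 ∈ Metric.closedBall u₁ (R / 2) ∧ P.2 ∈ U ∧ Gm P.2 = P.1 • v} := by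
    have hset : {P : ℝ × (ι → EE d) | P.1 ∈ Icc (0 : ℝ) 1 ∧
        P.2 ∈ Metric.closedBall u₁ (R / 2) ∧ P.2 ∈ U ∧ Gm P.2 = P.1 • v} =
        (Icc (0 : ℝ) 1 ×ˢ Metric.closedBall u₁ (R / 2)) ∩ ⋂ q : ι,
          ((Icc (0 : ℝ) 1 ×ˢ Metric.closedBall u₁ (R / 2)) ∩
            (fun P : ℝ × (ι → EE d) =>
              (F ((extChartAt (𝓡 d) (x q)).symm (P.2 q)),
                (extChartAt (𝓡 d) (x (σ q))).symm (P.2 (σ q) + P.1 • v (σ q)))) ⁻¹'
              diagonal N) := by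
      ext P
      constructor
      · rintro ⟨h1, h2, h3⟩
        refine ⟨⟨h1, h2⟩, mem_iInter.2 fun q => ⟨⟨h1, h2⟩, ?_⟩⟩
        exact (heq P.2 h2 P.1 h1).1 h3 q
      · rintro ⟨⟨h1, h2⟩, h3⟩
        refine ⟨h1, h2, ?_⟩
        exact (heq P.2 h2 P.1 h1).2 fun q => (mem_iInter.1 h3 q).2
    rw [hset]
    have hK : IsClosed (Icc (0 : ℝ) 1 ×ˢ Metric.closedBall u₁ (R / 2)) :=
      isClosed_Icc.prod Metric.isClosed_closedBall
    refine hK.inter (isClosed_iInter fun q => ?_)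
    refine ContinuousOn.preimage_isClosed_of_isClosed ?_ hK isClosed_diagonal
    refine ContinuousOn.prodMk ?_ ?_
    · refine hF1.continuous.comp_continuousOn ?_
      refine (continuousOn_extChartAt_symm (x q)).comp
        (((continuous_apply q).comp continuous_snd).continuousOn) fun P hP => ?_
      exact (hA1 P.2 hP.2 q).1
    · refine (continuousOn_extChartAt_symm (x (σ q))).comp
        (Continuous.continuousOn ?_) fun P hP => ?_
      · exact ((continuous_apply (σ q)).comp continuous_snd).add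
          (continuous_fst.smul continuous_const)
      · exact (hA2 P.2 hP.2 P.1 hP.1 (σ q)).1
  have hinv : ∀ t ∈ Icc (0 : ℝ) 1, ∀ u ∈ Metric.closedBall u₁ (R / 2) ∩ U, Gm u = t • v →
      ∀ w, ‖w‖ ≤ C2 * ‖fderiv ℝ Gm u w‖ := by
    rintro t ht u ⟨hu, huU⟩ hut w
    have hq := (heq u hu t ht).1 ⟨huU, hut⟩
    set y' : ι → N := fun q => (extChartAt (𝓡 d) (x q)).symm (u q) with hy'
    have hy'W : ∀ q, y' q ∈ At.W (j q) := fun q => hWball q _ (hA1 u hu q).2
    have hz'W : ∀ q, F (y' q) ∈ At.W (j (σ q)) := by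
      intro q
      rw [show F (y' q) = _ from hq q]
      exact hWball (σ q) _ (hA2 u hu t ht (σ q)).2
    have hdist : ∀ q, ‖extChartAt (𝓡 d) (At.ctr (j (σ q))) (y' (σ q)) -
        extChartAt (𝓡 d) (At.ctr (j (σ q))) (F (y' q))‖ ≤ b := by
      intro q
      have h1 : extChartAt (𝓡 d) (x (σ q)) (y' (σ q)) = u (σ q) :=
        (extChartAt (𝓡 d) (x (σ q))).right_inv (hA1 u hu (σ q)).1
      have h2 : extChartAt (𝓡 d) (x (σ q)) (F (y' q)) = u (σ q) + t • v (σ q) := by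
        rw [show F (y' q) = _ from hq q]
        exact (extChartAt (𝓡 d) (x (σ q))).right_inv (hA2 u hu t ht (σ q)).1
      show ‖extChartAt (𝓡 d) (x (σ q)) (y' (σ q)) -
        extChartAt (𝓡 d) (x (σ q)) (F (y' q))‖ ≤ b
      rw [h1, h2, sub_add_cancel_left, norm_neg, norm_smul, Real.norm_eq_abs,
        abs_of_nonneg ht.1]
      have h3 : t * ‖v (σ q)‖ ≤ 1 * b :=
        mul_le_mul ht.2 (hvb (σ q)) (norm_nonneg _) zero_le_one
      linarith
    have hexact : ∀ i, F (y i) = y (σ i) → F (y' i) = y' (σ i) := by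
      intro i hi
      have h1 : v (σ i) = 0 := by rw [hvσ, hi, sub_self]
      rw [show F (y' i) = _ from hq i, h1, smul_zero, add_zero]
    -- derivative
    have hder : ∀ q, fderiv ℝ Gm u w (σ q) =
        G.e (j (σ q)) (F (y' q)) (der (d := d) F (y' q)
          ((G.e (j q) (y' q)).symm (w q))) - w (σ q) := by
      intro q
      have hdiff : DifferentiableAt ℝ Gm u :=
        (hGmC.contDiffAt (hUo.mem_nhds huU)).differentiableAt one_ne_zero
      have h1 : fderiv ℝ Gm u w (σ q) = fderiv ℝ (fun a => Gm a (σ q)) u w := by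
        rw [fderiv_apply hdiff]
        rfl
      rw [h1]
      have hdom := hU1 u huU q
      have h2 : HasFDerivAt (fun a : ι → EE d => Gm a (σ q))
          ((fderiv ℝ (loc (d := d) (x q) (x (σ q)) F) (u q)).comp
            (ContinuousLinearMap.proj (R := ℝ) (φ := fun _ : ι => EE d) q) -
            ContinuousLinearMap.proj (R := ℝ) (φ := fun _ : ι => EE d) (σ q)) u := by
        have h3 : (fun a : ι → EE d => Gm a (σ q)) = fun a =>
            loc (x q) (x (σ q)) F (a q) - a (σ q) := funext fun a => hGm a q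
        rw [h3]
        refine HasFDerivAt.sub ?_
          (ContinuousLinearMap.proj (R := ℝ) (φ := fun _ : ι => EE d) (σ q)).hasFDerivAt
        have h4 : DifferentiableAt ℝ (loc (d := d) (x q) (x (σ q)) F) (u q) :=
          ((contDiffOn_loc (x q) (x (σ q)) hF1).contDiffAt
            ((isOpen_dom _ _ hF1.continuous).mem_nhds hdom)).differentiableAt one_ne_zero
        exact h4.hasFDerivAt.comp u
          (ContinuousLinearMap.proj (R := ℝ) (φ := fun _ : ι => EE d) q).hasFDerivAt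
      rw [h2.fderiv]
      show fderiv ℝ (loc (d := d) (x q) (x (σ q)) F) (u q) (w q) - w (σ q) = _
      have h7 : ∀ a, G.e (j (σ q)) (F (y' q)) a = fr (x (σ q)) (F (y' q)) a :=
        fun a => congrArg (fun T : EE d →L[ℝ] EE d => T a)
          (G.e_eq (j (σ q)) (F (y' q)) (hz'W q))
      rw [fderiv_loc (x q) (x (σ q)) (hF1.mdifferentiable one_ne_zero) hdom
        (G.e (j q) (y' q)) (G.e_eq (j q) (y' q) (hy'W q)) (w q), h7]
    refine (pi_norm_le_iff_of_nonneg (by positivity)).2 ?_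
    refine hlin y' hy'W hz'W hexact hdist w ‖fderiv ℝ Gm u w‖ (fun q => ?_) (norm_nonneg _)
    rw [← hder q]
    exact norm_le_pi_norm _ (σ q)
  obtain ⟨u, huU, hu0, hud⟩ := continuation hUo hGmC hu₁ rfl hC20 hbound hcl hinv
  have hub : u ∈ Metric.closedBall u₁ (R / 2) := by
    rw [mem_closedBall_iff_norm]
    exact hud.trans hbound
  refine ⟨fun q => (extChartAt (𝓡 d) (x q)).symm (u q), fun q => ?_, fun q =>
    (hA1 u hub q).2.trans (min_le_left _ _)⟩
  have h1 := (heq u hub 0 ⟨le_rfl, zero_le_one⟩).1 ⟨huU, by rw [hu0, zero_smul]⟩ q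
  rwa [zero_smul, add_zero] at h1

/-- The next step of a cyclic chain. -/
def nxt {p : ℕ} (n : ZMod p → ℕ) (hn : ∀ q, 1 ≤ n q) (i : Σ q : ZMod p, Fin (n q)) :
    Σ q : ZMod p, Fin (n q) :=
  if h : i.2.val + 1 < n i.1 then ⟨i.1, ⟨i.2.val + 1, h⟩⟩ else ⟨i.1 + 1, ⟨0, hn (i.1 + 1)⟩⟩

theorem nxt_injective {p : ℕ} (n : ZMod p → ℕ) (hn : ∀ q, 1 ≤ n q) : Injective (nxt n hn) := by
  rintro ⟨q, t, ht⟩ ⟨q', t', ht'⟩ h
  unfold nxt at h
  simp only at h
  by_cases h1 : t + 1 < n q <;> by_cases h2 : t' + 1 < n q'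
  · rw [dif_pos h1, dif_pos h2] at h
    have hq : q = q' := congrArg Sigma.fst h
    subst hq
    have h3 := (Sigma.mk.inj_iff.1 h).2
    have h4 := congrArg Fin.val (eq_of_heq h3)
    simp only [add_left_inj] at h4
    subst h4
    rfl
  · rw [dif_pos h1, dif_neg h2] at h
    exfalso
    have hq : q = q' + 1 := congrArg Sigma.fst h
    subst hq
    have h3 := (Sigma.mk.inj_iff.1 h).2
    have h4 := congrArg Fin.val (eq_of_heq h3)
    simp at h4
  · rw [dif_neg h1, dif_pos h2] at h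
    exfalso
    have hq : q + 1 = q' := congrArg Sigma.fst h
    subst hq
    have h3 := (Sigma.mk.inj_iff.1 h).2
    have h4 := congrArg Fin.val (eq_of_heq h3)
    simp at h4
  · rw [dif_neg h1, dif_neg h2] at h
    have hq : q = q' := add_right_cancel (congrArg Sigma.fst h)
    subst hq
    have h3 : t = t' := by omega
    subst h3
    rfl

end ClosingTrack

open ClosingTrack in
theorem closing_track {d : ℕ} {N : Type*} [MetricSpace N] [ChartedSpace (EE d) N] {r : ℕ∞}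
    [IsManifold (𝓡 d) ∞ N] [CompactSpace N] (hr : 1 ≤ r) {At : Atlas d N r} {F : Dyn d N r} {ε : ℝ}
    (hε : 0 < ε) (G : GeoSys At F ε) {p : ℕ} (hp : 1 ≤ p) {C δ : ℝ} {n₀ : ℕ} (hC : 1 ≤ C)
    (hδ : 0 < δ) (h : ChainUH G.S p C δ n₀) {ε₁ : ℝ} (hε₁ : 0 < ε₁) :
    ∃ (ε₂ : ℝ) (n₁ : ℕ), 0 < ε₂ ∧ ∀ (y : ZMod p → N) (n : ZMod p → ℕ), (∀ q, n₁ ≤ n q) →
      (∀ q, dist (F^[n q] (y q)) (y (q + 1)) ≤ ε₂) →
      ∃ u : ZMod p → N, (∀ q, F^[n q] (u q) = u (q + 1)) ∧
        ∀ q, ∀ t ≤ n q, dist (F^[t] (u q)) (F^[t] (y q)) ≤ ε₁ := by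
  have hne : NeZero p := ⟨by omega⟩
  obtain ⟨C', n₁, hC', hn₁, hsol⟩ := chain_solve_steps G.S hp hC hδ h
  obtain ⟨η₀, hη₀, hcov, hrad, hunif⟩ := atlas_radius At
  obtain ⟨R, hR, hrad⟩ := hrad (min (ε₁ / 2) (η₀ / 2)) (lt_min (by linarith) (by linarith))
  set Kp : ℝ := max |G.Kθ| 1 with hKp
  have hK1 : 1 ≤ Kp := le_max_right _ _
  have hK2 : G.Kθ ≤ Kp := (le_abs_self _).trans (le_max_left _ _)
  have hK0 : 0 < Kp := by linarith
  set C2 : ℝ := Kp * (Kp * C') with hC2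
  have hC20 : 0 < C2 := by positivity
  set b : ℝ := min (R / 2 / (2 * C2)) (min (R / 2) ε) with hb
  have hb0 : 0 < b := lt_min (by positivity) (lt_min (by linarith) hε)
  have hb1 : 2 * C2 * b ≤ R / 2 := by
    have : b ≤ R / 2 / (2 * C2) := min_le_left _ _
    rw [le_div_iff₀ (by positivity)] at this
    linarith
  have hb2 : b ≤ R / 2 := (min_le_right _ _).trans (min_le_left _ _)
  have hb3 : b ≤ ε := (min_le_right _ _).trans (min_le_right _ _)
  obtain ⟨ε₂, hε₂, hunif⟩ := hunif b hb0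
  refine ⟨min (min ε₂ (η₀ / 2)) (ε₁ / 2), n₁, lt_min (lt_min hε₂ (by linarith)) (by linarith),
    fun y n hn hjump => ?_⟩
  have hn1 : ∀ q, 1 ≤ n q := fun q => hn₁.trans (hn q)
  have hinj := nxt_injective n hn1
  let σ : Equiv.Perm (Σ q : ZMod p, Fin (n q)) :=
    Equiv.ofBijective (nxt n hn1) (Finite.injective_iff_bijective.1 hinj)
  have hσ1 : ∀ q t (ht : t < n q) (ht' : t + 1 < n q), σ ⟨q, ⟨t, ht⟩⟩ = ⟨q, ⟨t + 1, ht'⟩⟩ := by
    intro q t ht ht'
    show nxt n hn1 ⟨q, ⟨t, ht⟩⟩ = _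
    unfold nxt
    rw [dif_pos ht']
  have hσ2 : ∀ q t (ht : t < n q), ¬ t + 1 < n q → σ ⟨q, ⟨t, ht⟩⟩ = ⟨q + 1, ⟨0, hn1 (q + 1)⟩⟩ := by
    intro q t ht ht'
    show nxt n hn1 ⟨q, ⟨t, ht⟩⟩ = _
    unfold nxt
    rw [dif_neg ht']
  let Y : (Σ q : ZMod p, Fin (n q)) → N := fun i => F^[i.2.val] (y i.1)
  choose j hj using fun i => hcov (Y i)
  obtain ⟨u, hu1, hu2⟩ := shadow hr G (ε₁ := ε₁ / 2) hη₀ hrad hunif hC20 hb0 hb1 hb2 σ Y j hj
    (by
      rintro ⟨q, t, ht⟩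
      by_cases ht' : t + 1 < n q
      · rw [hσ1 q t ht ht']
        show dist (F (F^[t] (y q))) (F^[t + 1] (y q)) ≤ _
        rw [Function.iterate_succ_apply', dist_self]
        exact le_min hε₂.le (by linarith)
      · rw [hσ2 q t ht ht']
        show dist (F (F^[t] (y q))) (y (q + 1)) ≤ _
        have h1 : t + 1 = n q := by omega
        rw [← Function.iterate_succ_apply' F t (y q), show t.succ = n q from h1]
        exact (hjump q).trans (min_le_left _ _))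
    (by
      intro y' hy'W hz'W hexact hdist w B hB hB0
      -- the orbits
      have horb : ∀ q t (ht : t < n q), y' ⟨q, ⟨t, ht⟩⟩ = F^[t] (y' ⟨q, ⟨0, hn1 q⟩⟩) := by
        intro q t
        induction t with
        | zero => intro ht; rfl
        | succ t ih =>
          intro ht
          have h1 := hexact ⟨q, ⟨t, by omega⟩⟩ (by
            rw [hσ1 q t (by omega) ht]
            show F (F^[t] (y q)) = F^[t + 1] (y q)
            rw [Function.iterate_succ_apply'])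
          rw [hσ1 q t (by omega) ht] at h1
          rw [← h1, ih (by omega), Function.iterate_succ_apply']
      have hfr : ∀ i (z : N) (a : EE d), z ∈ At.W i →
          ‖G.frame z ((G.e i z).symm a)‖ ≤ Kp * ‖a‖ ∧
          ‖a‖ ≤ Kp * ‖G.frame z ((G.e i z).symm a)‖ := by
        intro i z a hz
        have h1 := G.bound i z hz ((G.e i z).symm a)
        rw [ContinuousLinearEquiv.apply_symm_apply] at h1
        exact ⟨h1.1.trans (mul_le_mul_of_nonneg_right hK2 (norm_nonneg _)),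
          h1.2.trans (mul_le_mul_of_nonneg_right hK2 (norm_nonneg _))⟩
      -- the vectors in frames
      let W0 : ∀ q t, t < n q → EE d := fun q t ht =>
        G.frame (y' ⟨q, ⟨t, ht⟩⟩) ((G.e (j ⟨q, ⟨t, ht⟩⟩) (y' ⟨q, ⟨t, ht⟩⟩)).symm (w ⟨q, ⟨t, ht⟩⟩))
      have hW0 : ∀ q t (ht : t < n q), G.S.a (y' ⟨q, ⟨t, ht⟩⟩) (W0 q t ht) =
          G.frame (F (y' ⟨q, ⟨t, ht⟩⟩)) (der (d := d) F (y' ⟨q, ⟨t, ht⟩⟩)
            ((G.e (j ⟨q, ⟨t, ht⟩⟩) (y' ⟨q, ⟨t, ht⟩⟩)).symm (w ⟨q, ⟨t, ht⟩⟩))) :=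
        fun q t ht => G.a_eq _ _
      let W' : ZMod p → ℕ → EE d := fun q t => if ht : t < n q then W0 q t ht else
        G.S.a (y' ⟨q, ⟨n q - 1, by have := hn1 q; omega⟩⟩)
          (W0 q (n q - 1) (by have := hn1 q; omega))
      let Yq : ZMod p → N := fun q => y' ⟨q, ⟨0, hn1 q⟩⟩
      have hlast : ∀ q, F^[n q] (Yq q) = F (y' ⟨q, ⟨n q - 1, by have := hn1 q; omega⟩⟩) := by
        intro q
        rw [horb q (n q - 1), ← Function.iterate_succ_apply' F]
        congr 2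
        have := hn1 q
        omega
      have hσl : ∀ q, σ ⟨q, ⟨n q - 1, by have := hn1 q; omega⟩⟩ = ⟨q + 1, ⟨0, hn1 (q + 1)⟩⟩ :=
        fun q => hσ2 q _ _ (by have := hn1 q; omega)
      have hz'L : ∀ q, F (y' ⟨q, ⟨n q - 1, by have := hn1 q; omega⟩⟩) ∈
          At.W (j ⟨q + 1, ⟨0, hn1 (q + 1)⟩⟩) := by
        intro q
        have h1 := hz'W ⟨q, ⟨n q - 1, by have := hn1 q; omega⟩⟩
        rwa [hσl] at h1
      have hdL : ∀ q, ‖extChartAt (𝓡 d) (At.ctr (j ⟨q + 1, ⟨0, hn1 (q + 1)⟩⟩)) (Yq (q + 1)) -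
          extChartAt (𝓡 d) (At.ctr (j ⟨q + 1, ⟨0, hn1 (q + 1)⟩⟩))
            (F (y' ⟨q, ⟨n q - 1, by have := hn1 q; omega⟩⟩))‖ ≤ b := by
        intro q
        have h1 := hdist ⟨q, ⟨n q - 1, by have := hn1 q; omega⟩⟩
        rwa [hσl] at h1
      have hBL : ∀ q, ‖G.e (j ⟨q + 1, ⟨0, hn1 (q + 1)⟩⟩)
          (F (y' ⟨q, ⟨n q - 1, by have := hn1 q; omega⟩⟩))
          (der (d := d) F (y' ⟨q, ⟨n q - 1, by have := hn1 q; omega⟩⟩)
            ((G.e (j ⟨q, ⟨n q - 1, by have := hn1 q; omega⟩⟩)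
              (y' ⟨q, ⟨n q - 1, by have := hn1 q; omega⟩⟩)).symm
              (w ⟨q, ⟨n q - 1, by have := hn1 q; omega⟩⟩))) - w ⟨q + 1, ⟨0, hn1 (q + 1)⟩⟩‖ ≤ B := by
        intro q
        have h1 := hB ⟨q, ⟨n q - 1, by have := hn1 q; omega⟩⟩
        rwa [hσl] at h1
      have hsolve := hsol Yq n (fun q => G.frame (Yq (q + 1)) *
          (G.e (j ⟨q + 1, ⟨0, hn1 (q + 1)⟩⟩) (Yq (q + 1)))⁻¹ *
          G.e (j ⟨q + 1, ⟨0, hn1 (q + 1)⟩⟩) (F^[n q] (Yq q)) * (G.frame (F^[n q] (Yq q)))⁻¹) hn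
        (by
          intro q
          rw [G.pow_eq]
          refine G.tr_one hε.le ?_ (hy'W ⟨q + 1, ⟨0, hn1 (q + 1)⟩⟩) ?_
          · rw [hlast]
            exact hz'L q
          · rw [hlast]
            exact (hdL q).trans hb3) W' (Kp * B)
        (by
          intro q t ht
          rw [G.pow_eq]
          have h0 : F^[t] (Yq q) = y' ⟨q, ⟨t, ht⟩⟩ := (horb q t ht).symm
          rw [h0]
          have h1 : W' q t = W0 q t ht := dif_pos ht
          rw [h1]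
          by_cases ht' : t + 1 < n q
          · have h2 : W' q (t + 1) = W0 q (t + 1) ht' := dif_pos ht'
            rw [h2, hW0]
            have h3 : F (y' ⟨q, ⟨t, ht⟩⟩) = y' ⟨q, ⟨t + 1, ht'⟩⟩ := by
              rw [horb q t ht, horb q (t + 1) ht', Function.iterate_succ_apply']
            have h4 := hB ⟨q, ⟨t, ht⟩⟩
            rw [hσ1 q t ht ht', h3] at h4
            rw [h3]
            show ‖G.frame (y' ⟨q, ⟨t + 1, ht'⟩⟩) ((G.e (j ⟨q, ⟨t + 1, ht'⟩⟩)
              (y' ⟨q, ⟨t + 1, ht'⟩⟩)).symm (w ⟨q, ⟨t + 1, ht'⟩⟩)) - _‖ ≤ _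
            rw [← map_sub]
            have h5 : (G.e (j ⟨q, ⟨t + 1, ht'⟩⟩) (y' ⟨q, ⟨t + 1, ht'⟩⟩)).symm
                (w ⟨q, ⟨t + 1, ht'⟩⟩) - der (d := d) F (y' ⟨q, ⟨t, ht⟩⟩)
                ((G.e (j ⟨q, ⟨t, ht⟩⟩) (y' ⟨q, ⟨t, ht⟩⟩)).symm (w ⟨q, ⟨t, ht⟩⟩)) =
                (G.e (j ⟨q, ⟨t + 1, ht'⟩⟩) (y' ⟨q, ⟨t + 1, ht'⟩⟩)).symm
                (w ⟨q, ⟨t + 1, ht'⟩⟩ - G.e (j ⟨q, ⟨t + 1, ht'⟩⟩) (y' ⟨q, ⟨t + 1, ht'⟩⟩)
                  (der (d := d) F (y' ⟨q, ⟨t, ht⟩⟩)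
                    ((G.e (j ⟨q, ⟨t, ht⟩⟩) (y' ⟨q, ⟨t, ht⟩⟩)).symm (w ⟨q, ⟨t, ht⟩⟩)))) := by
              rw [map_sub, ContinuousLinearEquiv.symm_apply_apply]
            rw [h5]
            refine (hfr _ _ _ (hy'W ⟨q, ⟨t + 1, ht'⟩⟩)).1.trans
              (mul_le_mul_of_nonneg_left ?_ hK0.le)
            rw [norm_sub_rev]
            exact h4
          · have h3 : n q - 1 = t := by omega
            subst h3
            have h2 : W' q (n q - 1 + 1) = G.S.a (y' ⟨q, ⟨n q - 1, ht⟩⟩)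
                (W0 q (n q - 1) ht) := dif_neg ht'
            rw [h2, sub_self, norm_zero]
            positivity)
        (by
          intro q
          have h1 : W' q (n q) = G.S.a (y' ⟨q, ⟨n q - 1, by have := hn1 q; omega⟩⟩)
              (W0 q (n q - 1) (by have := hn1 q; omega)) := dif_neg (lt_irrefl _)
          have h2 : W' (q + 1) 0 = W0 (q + 1) 0 (hn1 (q + 1)) := dif_pos (hn1 (q + 1))
          rw [h1, h2, hlast, hW0]
          set z := F (y' ⟨q, ⟨n q - 1, by have := hn1 q; omega⟩⟩) with hz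
          set a := der (d := d) F (y' ⟨q, ⟨n q - 1, by have := hn1 q; omega⟩⟩)
            ((G.e (j ⟨q, ⟨n q - 1, by have := hn1 q; omega⟩⟩)
              (y' ⟨q, ⟨n q - 1, by have := hn1 q; omega⟩⟩)).symm
              (w ⟨q, ⟨n q - 1, by have := hn1 q; omega⟩⟩)) with ha
          have h3 : (G.frame (Yq (q + 1)) * (G.e (j ⟨q + 1, ⟨0, hn1 (q + 1)⟩⟩) (Yq (q + 1)))⁻¹ *
              G.e (j ⟨q + 1, ⟨0, hn1 (q + 1)⟩⟩) z * (G.frame z)⁻¹) (G.frame z a) =
              G.frame (Yq (q + 1)) ((G.e (j ⟨q + 1, ⟨0, hn1 (q + 1)⟩⟩) (Yq (q + 1))).symm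
                (G.e (j ⟨q + 1, ⟨0, hn1 (q + 1)⟩⟩) z a)) := by
            show G.frame (Yq (q + 1)) ((G.e (j ⟨q + 1, ⟨0, hn1 (q + 1)⟩⟩) (Yq (q + 1))).symm
                (G.e (j ⟨q + 1, ⟨0, hn1 (q + 1)⟩⟩) z ((G.frame z).symm (G.frame z a)))) = _
            rw [ContinuousLinearEquiv.symm_apply_apply]
          show ‖W0 (q + 1) 0 (hn1 (q + 1)) - (G.frame (Yq (q + 1)) *
              (G.e (j ⟨q + 1, ⟨0, hn1 (q + 1)⟩⟩) (Yq (q + 1)))⁻¹ *
              G.e (j ⟨q + 1, ⟨0, hn1 (q + 1)⟩⟩) z * (G.frame z)⁻¹) (G.frame z a)‖ ≤ _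
          rw [h3]
          show ‖G.frame (Yq (q + 1)) ((G.e (j ⟨q + 1, ⟨0, hn1 (q + 1)⟩⟩) (Yq (q + 1))).symm
            (w ⟨q + 1, ⟨0, hn1 (q + 1)⟩⟩)) - _‖ ≤ _
          rw [← map_sub, ← map_sub]
          refine (hfr _ _ _ (hy'W ⟨q + 1, ⟨0, hn1 (q + 1)⟩⟩)).1.trans
            (mul_le_mul_of_nonneg_left ?_ hK0.le)
          rw [norm_sub_rev]
          exact hBL q)
      rintro ⟨q, t, ht⟩
      have h1 := hsolve q t ht.le
      have h2 : W' q t = W0 q t ht := dif_pos ht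
      rw [h2] at h1
      calc ‖w ⟨q, ⟨t, ht⟩⟩‖ ≤ Kp * ‖W0 q t ht‖ := (hfr _ _ _ (hy'W ⟨q, ⟨t, ht⟩⟩)).2
        _ ≤ Kp * (C' * (Kp * B)) := mul_le_mul_of_nonneg_left h1 hK0.le
        _ = C2 * B := by
            rw [hC2]
            ring)
  -- conclusion
  have horb : ∀ q t (ht : t < n q), u ⟨q, ⟨t, ht⟩⟩ = F^[t] (u ⟨q, ⟨0, hn1 q⟩⟩) := by
    intro q t
    induction t with
    | zero => intro ht; rfl
    | succ t ih =>
      intro ht
      have h1 := hu1 ⟨q, ⟨t, by omega⟩⟩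
      rw [hσ1 q t (by omega) ht] at h1
      rw [← h1, ih (by omega), Function.iterate_succ_apply']
  have hend : ∀ q, F^[n q] (u ⟨q, ⟨0, hn1 q⟩⟩) = u ⟨q + 1, ⟨0, hn1 (q + 1)⟩⟩ := by
    intro q
    have h0 := hn1 q
    have h1 := hu1 ⟨q, ⟨n q - 1, by omega⟩⟩
    rw [hσ2 q (n q - 1) (by omega) (by omega), horb q (n q - 1) (by omega),
      ← Function.iterate_succ_apply' F] at h1
    rw [← h1]
    congr 2
    omega
  refine ⟨fun q => u ⟨q, ⟨0, hn1 q⟩⟩, hend, fun q t ht => ?_⟩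
  rcases ht.lt_or_eq with ht | ht
  · have h1 := hu2 ⟨q, ⟨t, ht⟩⟩
    rw [horb q t ht] at h1
    exact h1.trans (by linarith)
  · subst ht
    show dist (F^[n q] (u ⟨q, ⟨0, hn1 q⟩⟩)) _ ≤ _
    rw [hend q]
    have h1 := hu2 ⟨q + 1, ⟨0, hn1 (q + 1)⟩⟩
    have h2 := (hjump q).trans (min_le_right _ _)
    calc dist (u ⟨q + 1, ⟨0, hn1 (q + 1)⟩⟩) (F^[n q] (y q))
        ≤ dist (u ⟨q + 1, ⟨0, hn1 (q + 1)⟩⟩) (y (q + 1)) + dist (y (q + 1)) (F^[n q] (y q)) :=
          dist_triangle _ _ _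
      _ ≤ ε₁ / 2 + ε₁ / 2 := by
          rw [dist_comm (y (q + 1))]
          exact add_le_add h1 h2
      _ = ε₁ := by ring

end Pool.Agent.OmegaPS

end
end

section

/-!
# Products: existence of a transverse homoclinic orbit (item 54)
-/

open Set Filter Topology Function
open scoped Manifold ContDiff

noncomputable section

namespace Pool.Agent.OmegaPS

open Pool.Agent.OmegaStab (EE Dyn IsFam PP HypAt crTopology HypLin ConjClass)
open Pool.Agent.OmegaStab.FinHyp (der)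
open Pool.Agent.OmegaStability

namespace AuxHom

variable {B : Type*} [MetricSpace B]

theorem orb_finite {G : B → B} {p : B} (hp : p ∈ periodicPts G) :
    (range fun n : ℕ => G^[n] p).Finite := by
  obtain ⟨a, ha, h⟩ := hp
  refine ((Finset.range a).finite_toSet.image (fun n => G^[n] p)).subset ?_
  rintro _ ⟨n, rfl⟩
  refine ⟨n % a, ?_, ?_⟩
  · rw [Finset.mem_coe, Finset.mem_range]
    exact Nat.mod_lt _ ha
  · exact h.iterate_mod_apply n

theorem symm_iter (G : B ≃ₜ B) {s n : ℕ} (h : s ≤ n) (x : B) :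
    G.symm^[s] (G^[n] x) = G^[n - s] x := by
  have h1 : G^[n] x = G^[s] (G^[n - s] x) := by
    rw [← iterate_add_apply]
    congr 2
    omega
  rw [h1]
  exact (Function.LeftInverse.iterate G.symm_apply_apply s) _

theorem inv_iter {G : B → B} {Λ : Set B} (hinv : ∀ x ∈ Λ, G x ∈ Λ) (n : ℕ) :
    ∀ x ∈ Λ, G^[n] x ∈ Λ := by
  induction n with
  | zero => intro x hx; exact hx
  | succ n ih => intro x hx; rw [iterate_succ_apply]; exact ih _ (hinv x hx)

theorem asym [CompactSpace B] (G : B ≃ₜ B) {Λ : Set B} (hΛ : IsClosed Λ)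
    (hinv : ∀ x ∈ Λ, G x ∈ Λ) {ε₀ ε₁ : ℝ} (hε : ε₁ ≤ ε₀)
    (hexp : ∀ x ∈ Λ, ∀ y ∈ Λ, (∀ n : ℕ, dist (G^[n] x) (G^[n] y) ≤ ε₀) →
      (∀ n : ℕ, dist (G.symm^[n] x) (G.symm^[n] y) ≤ ε₀) → x = y)
    {p u : B} (hp : p ∈ periodicPts G) (hpΛ : p ∈ Λ) (huΛ : u ∈ Λ) {n₀ : ℕ}
    (h : ∀ n, n₀ ≤ n → dist (G^[n] u) (G^[n] p) ≤ ε₁) :
    Tendsto (fun n : ℕ => G^[n] u) atTop (𝓝ˢ (range fun n : ℕ => G^[n] p)) := by
  have hO : IsClosed (range fun n : ℕ => G^[n] p) := (orb_finite hp).isClosed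
  intro U hU
  rw [mem_map]
  by_contra hcon
  obtain ⟨V, hVo, hOV, hVU⟩ := mem_nhdsSet_iff_exists.1 hU
  have hfreq : ∃ᶠ n in atTop, G^[n] u ∉ V := by
    intro hev
    exact hcon (hev.mono fun n hn => hVU (not_not.1 hn))
  obtain ⟨φ, hφ, hφV⟩ := extraction_of_frequently_atTop hfreq
  obtain ⟨⟨c, p'⟩, ψ, hψ, hlim⟩ :=
    CompactSpace.tendsto_subseq (fun i => ((G^[φ i] u, G^[φ i] p) : B × B))
  have h1 : Tendsto (fun i => G^[φ (ψ i)] u) atTop (𝓝 c) :=
    (continuous_fst.tendsto (c, p')).comp hlim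
  have h2 : Tendsto (fun i => G^[φ (ψ i)] p) atTop (𝓝 p') :=
    (continuous_snd.tendsto (c, p')).comp hlim
  have hc : c ∈ Vᶜ := hVo.isClosed_compl.mem_of_tendsto h1 (Eventually.of_forall fun i => hφV _)
  have hp'O : p' ∈ range fun n : ℕ => G^[n] p :=
    hO.mem_of_tendsto h2 (Eventually.of_forall fun i => ⟨_, rfl⟩)
  have hcΛ : c ∈ Λ := hΛ.mem_of_tendsto h1 (Eventually.of_forall fun i => inv_iter hinv _ u huΛ)
  have hp'Λ : p' ∈ Λ := hΛ.mem_of_tendsto h2 (Eventually.of_forall fun i => inv_iter hinv _ p hpΛ)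
  have hφψ : Tendsto (fun i => φ (ψ i)) atTop atTop := hφ.tendsto_atTop.comp hψ.tendsto_atTop
  have e1 : ∀ s : ℕ, dist (G^[s] c) (G^[s] p') ≤ ε₁ := by
    intro s
    have l1 : Tendsto (fun i => dist (G^[s] (G^[φ (ψ i)] u)) (G^[s] (G^[φ (ψ i)] p))) atTop
        (𝓝 (dist (G^[s] c) (G^[s] p'))) :=
      (((G.continuous.iterate s).tendsto c).comp h1).dist
        (((G.continuous.iterate s).tendsto p').comp h2)
    refine le_of_tendsto l1 ?_
    filter_upwards [hφψ.eventually_ge_atTop n₀] with i hi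
    rw [← iterate_add_apply, ← iterate_add_apply]
    exact h _ (by omega)
  have e2 : ∀ s : ℕ, dist (G.symm^[s] c) (G.symm^[s] p') ≤ ε₁ := by
    intro s
    have l1 : Tendsto (fun i => dist (G.symm^[s] (G^[φ (ψ i)] u)) (G.symm^[s] (G^[φ (ψ i)] p)))
        atTop (𝓝 (dist (G.symm^[s] c) (G.symm^[s] p'))) :=
      (((G.symm.continuous.iterate s).tendsto c).comp h1).dist
        (((G.symm.continuous.iterate s).tendsto p').comp h2)
    refine le_of_tendsto l1 ?_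
    filter_upwards [hφψ.eventually_ge_atTop (n₀ + s)] with i hi
    rw [symm_iter G (by omega), symm_iter G (by omega)]
    exact h _ (by omega)
  have heq := hexp c hcΛ p' hp'Λ (fun n => (e1 n).trans hε) (fun n => (e2 n).trans hε)
  exact hc (heq ▸ hOV hp'O)

theorem top [CompactSpace B] (F : B ≃ₜ B)
    (hinf : (Omega F).Infinite) (hper : Omega F ⊆ closure (periodicPts F))
    (htrack : ∀ ε₁ > 0, ∃ (ε₂ : ℝ) (n₁ : ℕ), 0 < ε₂ ∧ ∀ (y : ZMod 2 → B) (n : ZMod 2 → ℕ),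
      (∀ q, n₁ ≤ n q) → (∀ q, dist (F^[n q] (y q)) (y (q + 1)) ≤ ε₂) →
      ∃ u : ZMod 2 → B, (∀ q, F^[n q] (u q) = u (q + 1)) ∧
        ∀ q, ∀ t ≤ n q, dist (F^[t] (u q)) (F^[t] (y q)) ≤ ε₁)
    (hexp : ∃ ε₀ : ℝ, 0 < ε₀ ∧ ∀ x ∈ Omega F, ∀ y ∈ Omega F,
      (∀ n : ℕ, dist (F^[n] x) (F^[n] y) ≤ ε₀) →
      (∀ n : ℕ, dist (F.symm^[n] x) (F.symm^[n] y) ≤ ε₀) → x = y) :
    ∃ p u : B, p ∈ periodicPts F ∧ u ∉ periodicPts F ∧ u ∈ Omega F ∧
      Tendsto (fun n : ℕ => F^[n] u) atTop (𝓝ˢ (range fun n : ℕ => F^[n] p)) ∧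
      Tendsto (fun n : ℕ => F.symm^[n] u) atTop (𝓝ˢ (range fun n : ℕ => F^[n] p)) := by
  obtain ⟨ε₀, hε₀, hexp⟩ := hexp
  obtain ⟨ε₂, n₁, hε₂, htr⟩ := htrack (ε₀ / 2) (by linarith)
  obtain ⟨p, q', hp, hq', hd, hne⟩ := exists_close_periodic hinf hper hε₂
  obtain ⟨a, ha, hpa⟩ := hp
  obtain ⟨b, hb, hqb⟩ := hq'
  have hp : p ∈ periodicPts F := ⟨a, ha, hpa⟩
  have hq' : q' ∈ periodicPts F := ⟨b, hb, hqb⟩
  obtain ⟨P, hP⟩ : ∃ P, P = a * b := ⟨_, rfl⟩
  have hP0 : 0 < P := by rw [hP]; positivity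
  have hpP : IsPeriodicPt F P p := by rw [hP]; exact hpa.mul_const b
  have hqP : IsPeriodicPt F P q' := by rw [hP]; exact hqb.const_mul a
  obtain ⟨L, hL⟩ : ∃ L, L = (n₁ + 1) * P := ⟨_, rfl⟩
  have hLn : n₁ + 1 ≤ L := by rw [hL]; exact Nat.le_mul_of_pos_right _ hP0
  have hLP : P ≤ L := by rw [hL]; exact Nat.le_mul_of_pos_left _ (Nat.succ_pos _)
  have hpL : IsPeriodicPt F L p := by rw [hL]; exact hpP.const_mul _
  have hqL : IsPeriodicPt F L q' := by rw [hL]; exact hqP.const_mul _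
  have hkey : ∀ k : ℕ, ∃ w : B, F^[L + (k + 1) * L] w = w ∧
      (∀ t ≤ L, dist (F^[t] w) (F^[t] q') ≤ ε₀ / 2) ∧
      ∀ t ≤ (k + 1) * L, dist (F^[L + t] w) (F^[t] p) ≤ ε₀ / 2 := by
    intro k
    have h10 : (1 : ZMod 2) ≠ 0 := by decide
    have h11 : (1 : ZMod 2) + 1 = 0 := by decide
    have hpM : F^[(k + 1) * L] p = p := hpL.const_mul (k + 1)
    have hML : L ≤ (k + 1) * L := Nat.le_mul_of_pos_left _ (Nat.succ_pos _)
    obtain ⟨u, hu1, hu2⟩ := htr (fun i => if i = 0 then q' else p)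
      (fun i => if i = 0 then L else (k + 1) * L)
      (by
        intro q
        by_cases h : q = 0
        · simp only [if_pos h]; omega
        · simp only [if_neg h]; omega)
      (by
        intro q
        have hq01 : ∀ q : ZMod 2, q = 0 ∨ q = 1 := by decide
        rcases hq01 q with h | h
        · subst h
          simp only [if_true, zero_add, if_neg h10]
          rw [show F^[L] q' = q' from hqL, dist_comm]
          exact hd.le
        · subst h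
          simp only [if_neg h10, h11, if_true]
          rw [hpM]
          exact hd.le)
    refine ⟨u 0, ?_, ?_, ?_⟩
    · have e1 := hu1 0
      have e2 := hu1 1
      simp only [if_true, zero_add] at e1
      simp only [if_neg h10, h11] at e2
      rw [Nat.add_comm, iterate_add_apply, e1, e2]
    · intro t ht
      have := hu2 0 t (by simp only [if_true]; exact ht)
      simp only [if_true] at this
      exact this
    · intro t ht
      have e1 := hu1 0
      simp only [if_true, zero_add] at e1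
      have := hu2 1 t (by simp only [if_neg h10]; exact ht)
      simp only [if_neg h10] at this
      rw [Nat.add_comm, iterate_add_apply, e1]
      exact this
  choose w hw1 hw2 hw3 using hkey
  obtain ⟨u, φ, hφ, hlim⟩ := CompactSpace.tendsto_subseq w
  have hMφ : ∀ t : ℕ, ∀ᶠ i in atTop, t ≤ (φ i + 1) * L := by
    intro t
    filter_upwards [hφ.tendsto_atTop.eventually_ge_atTop t] with i hi
    calc t ≤ φ i + 1 := by omega
      _ ≤ (φ i + 1) * L := Nat.le_mul_of_pos_right _ (by omega)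
  have hc : ∀ (g : B → B) (_ : Continuous g) (z : B) (e : ℝ),
      (∀ᶠ i in atTop, dist (g (w (φ i))) z ≤ e) → dist (g u) z ≤ e := by
    intro g hg z e he
    exact le_of_tendsto (((hg.tendsto u).comp hlim).dist tendsto_const_nhds) he
  have h2 : ∀ t ≤ L, dist (F^[t] u) (F^[t] q') ≤ ε₀ / 2 := by
    intro t ht
    exact hc _ (F.continuous.iterate t) _ _ (Eventually.of_forall fun i => hw2 _ t ht)
  have h3 : ∀ t, dist (F^[L + t] u) (F^[t] p) ≤ ε₀ / 2 := by
    intro t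
    refine hc _ (F.continuous.iterate _) _ _ ?_
    filter_upwards [hMφ t] with i hi
    exact hw3 _ t hi
  have h4 : ∀ t, dist (F.symm^[t] u) (F.symm^[t] p) ≤ ε₀ / 2 := by
    intro t
    refine hc _ (F.symm.continuous.iterate _) _ _ ?_
    filter_upwards [hMφ t] with i hi
    have e1 : F.symm^[t] (w (φ i)) = F^[L + ((φ i + 1) * L - t)] (w (φ i)) := by
      conv_lhs => rw [← hw1 (φ i)]
      rw [symm_iter F (by omega)]
      congr 2
      omega
    have e2 : F.symm^[t] p = F^[(φ i + 1) * L - t] p := by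
      have hpM : F^[(φ i + 1) * L] p = p := hpL.const_mul (φ i + 1)
      conv_lhs => rw [← hpM]
      rw [symm_iter F hi]
    rw [e1, e2]
    exact hw3 _ _ (by omega)
  have hΛ := isClosed_Omega (F : B → B)
  have hinv : ∀ x ∈ Omega F, F x ∈ Omega F := fun x hx => (Omega_map F hx).1
  have hinv' : ∀ x ∈ Omega F, F.symm x ∈ Omega F := fun x hx => (Omega_map F hx).2
  have huΩ : u ∈ Omega F := by
    refine hΛ.mem_of_tendsto hlim (Eventually.of_forall fun i => NoCyc.per_mem_Omega ?_)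
    exact ⟨L + (φ i + 1) * L, by omega, hw1 (φ i)⟩
  have hpΩ : p ∈ Omega F := NoCyc.per_mem_Omega hp
  have hqΩ : q' ∈ Omega F := NoCyc.per_mem_Omega hq'
  have hfwd : Tendsto (fun n : ℕ => F^[n] u) atTop (𝓝ˢ (range fun n : ℕ => F^[n] p)) := by
    refine asym F hΛ hinv (by linarith : ε₀ / 2 ≤ ε₀) hexp hp hpΩ huΩ (n₀ := L) ?_
    intro n hn
    have e := h3 (n - L)
    have e1 : F^[n] p = F^[n - L] p := by
      conv_lhs => rw [show n = (n - L) + L from by omega]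
      rw [iterate_add_apply, show F^[L] p = p from hpL]
    rw [e1]
    rwa [show L + (n - L) = n from by omega] at e
  have hsymp : p ∈ periodicPts F.symm := by
    refine ⟨P, hP0, ?_⟩
    have h5 := symm_iter F (le_refl P) p
    rw [show F^[P] p = p from hpP, Nat.sub_self] at h5
    exact h5
  have hrange : (range fun n : ℕ => F.symm^[n] p) ⊆ range fun n : ℕ => F^[n] p := by
    rintro _ ⟨n, rfl⟩
    refine ⟨n * P - n, ?_⟩
    have h6 : F^[n * P] p = p := hpP.const_mul n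
    have h7 := symm_iter F (show n ≤ n * P from Nat.le_mul_of_pos_right _ hP0) p
    rw [h6] at h7
    exact h7.symm
  have hbwd : Tendsto (fun n : ℕ => F.symm^[n] u) atTop (𝓝ˢ (range fun n : ℕ => F^[n] p)) := by
    refine Tendsto.mono_right ?_ (nhdsSet_mono hrange)
    refine asym F.symm hΛ hinv' (by linarith : ε₀ / 2 ≤ ε₀) ?_ hsymp hpΩ huΩ (n₀ := 0) ?_
    · intro x hx y hy g1 g2
      exact hexp x hx y hy g2 g1
    · intro n _
      exact h4 n
  refine ⟨p, u, hp, ?_, huΩ, hfwd, hbwd⟩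
  rintro ⟨m, hm, hum⟩
  have hO : IsClosed (range fun n : ℕ => F^[n] p) := (orb_finite hp).isClosed
  have huO : u ∈ range fun n : ℕ => F^[n] p := by
    by_contra hcon
    have hV : {u}ᶜ ∈ 𝓝ˢ (range fun n : ℕ => F^[n] p) := by
      refine isOpen_compl_singleton.mem_nhdsSet.2 ?_
      intro x hx hxu
      exact hcon (hxu ▸ hx)
    have hev := hfwd.eventually (eventually_mem_set.2 hV)
    obtain ⟨N₀, hN₀⟩ := eventually_atTop.1 hev
    have := hN₀ (N₀ * m) (Nat.le_mul_of_pos_right _ hm)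
    exact this (hum.const_mul N₀)
  obtain ⟨i, hi⟩ := huO
  have huP : F^[P] u = u := by
    rw [← hi]
    show F^[P] (F^[i] p) = F^[i] p
    rw [← iterate_add_apply, Nat.add_comm, iterate_add_apply, show F^[P] p = p from hpP]
  have hfw : ∀ s : ℕ, dist (F^[s] u) (F^[s] q') ≤ ε₀ / 2 := by
    intro s
    have e1 : F^[s % P] u = F^[s] u := IsPeriodicPt.iterate_mod_apply huP s
    have e2 : F^[s % P] q' = F^[s] q' := hqP.iterate_mod_apply s
    rw [← e1, ← e2]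
    exact h2 _ ((Nat.mod_lt _ hP0).le.trans hLP)
  have hbw : ∀ s : ℕ, dist (F.symm^[s] u) (F.symm^[s] q') ≤ ε₀ / 2 := by
    intro s
    have g1 : F^[s * P] u = u := IsPeriodicPt.const_mul (show IsPeriodicPt F P u from huP) s
    have g2 : F^[s * P] q' = q' := hqP.const_mul s
    have e1 : F.symm^[s] u = F^[s * P - s] u := by
      conv_lhs => rw [← g1]
      rw [symm_iter F (Nat.le_mul_of_pos_right _ hP0)]
    have e2 : F.symm^[s] q' = F^[s * P - s] q' := by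
      conv_lhs => rw [← g2]
      rw [symm_iter F (Nat.le_mul_of_pos_right _ hP0)]
    rw [e1, e2]
    exact hfw _
  have huq := hexp u huΩ q' hqΩ (fun n => (hfw n).trans (by linarith))
    (fun n => (hbw n).trans (by linarith))
  exact hne i (hi.trans huq)

end AuxHom

section One

variable {d : ℕ} {N : Type*} [MetricSpace N] [ChartedSpace (EE d) N] {r : ℕ∞}
  [IsManifold (𝓡 d) ∞ N]

theorem exists_homoclinic [CompactSpace N] (F : Dyn d N r)
    (hinf : (Omega F).Infinite) (hper : Omega F ⊆ closure (periodicPts F))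
    (hhyp : HyperbolicStructure (EE d) F F.symm (Omega F))
    (htrack : ∀ ε₁ > 0, ∃ (ε₂ : ℝ) (n₁ : ℕ), 0 < ε₂ ∧ ∀ (y : ZMod 2 → N) (n : ZMod 2 → ℕ),
      (∀ q, n₁ ≤ n q) → (∀ q, dist (F^[n q] (y q)) (y (q + 1)) ≤ ε₂) →
      ∃ u : ZMod 2 → N, (∀ q, F^[n q] (u q) = u (q + 1)) ∧
        ∀ q, ∀ t ≤ n q, dist (F^[t] (u q)) (F^[t] (y q)) ≤ ε₁)
    (hexp : ∃ ε₀ : ℝ, 0 < ε₀ ∧ ∀ x ∈ Omega F, ∀ y ∈ Omega F,
      (∀ n : ℕ, dist (F^[n] x) (F^[n] y) ≤ ε₀) →
      (∀ n : ℕ, dist (F.symm^[n] x) (F.symm^[n] y) ≤ ε₀) → x = y) :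
    HasTransverseHomoclinicOrbit (EE d) F F.symm := by
  obtain ⟨p, u, h1, h2, h3, h4, h5⟩ := AuxHom.top F.toHomeomorph hinf hper htrack hexp
  refine ⟨p, u, h1, h2, h4, h5, hyperbolicStructure_mono isClosed_closure ?_ hhyp⟩
  refine closure_minimal ?_ (isClosed_Omega F)
  rintro x ⟨n, hx | hx⟩
  · rw [hx]
    exact AuxHom.inv_iter (fun y hy => (Omega_map F.toHomeomorph hy).1) n u h3
  · rw [hx]
    exact AuxHom.inv_iter (fun y hy => (Omega_map F.toHomeomorph hy).2) n u h3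

end One

end Pool.Agent.OmegaPS

end
end

section

/-!
# Products: return times near a transverse homoclinic point (GE6)
-/

open Set Filter Topology Function
open scoped Manifold ContDiff

noncomputable section

namespace Pool.Agent.OmegaPS

open Pool.Agent.OmegaStab (EE Dyn IsFam PP HypAt crTopology HypLin ConjClass)
open Pool.Agent.OmegaStab.FinHyp (der)
open Pool.Agent.OmegaStability

namespace ReturnHom

section Lin

variable {E : Type*} [NormedAddCommGroup E] [NormedSpace ℝ E]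

theorem rot_pow {D : E →L[ℝ] E} {θ : ℝ} {v w : E} (hv : D v = Real.cos θ • v - Real.sin θ • w)
    (hw : D w = Real.sin θ • v + Real.cos θ • w) (n : ℕ) :
    (D ^ n) v = Real.cos (n * θ) • v - Real.sin (n * θ) • w ∧
      (D ^ n) w = Real.sin (n * θ) • v + Real.cos (n * θ) • w := by
  induction n with
  | zero => simp
  | succ n ih =>
    have e1 : Real.cos (((n + 1 : ℕ) : ℝ) * θ) =
        Real.cos (n * θ) * Real.cos θ - Real.sin (n * θ) * Real.sin θ := by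
      rw [← Real.cos_add]; push_cast; ring_nf
    have e2 : Real.sin (((n + 1 : ℕ) : ℝ) * θ) =
        Real.sin (n * θ) * Real.cos θ + Real.cos (n * θ) * Real.sin θ := by
      rw [← Real.sin_add]; push_cast; ring_nf
    rw [pow_succ', e1, e2]
    constructor
    · change D ((D ^ n) v) = _
      rw [ih.1, map_sub, map_smul, map_smul, hv, hw]
      module
    · change D ((D ^ n) w) = _
      rw [ih.2, map_add, map_smul, map_smul, hv, hw]
      module

theorem rot_bound {D : E →L[ℝ] E} {θ : ℝ} {v w : E} (hv : D v = Real.cos θ • v - Real.sin θ • w)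
    (hw : D w = Real.sin θ • v + Real.cos θ • w) (n : ℕ) :
    ‖(D ^ n) v‖ ≤ ‖v‖ + ‖w‖ ∧ ‖(D ^ n) w‖ ≤ ‖v‖ + ‖w‖ := by
  obtain ⟨h1, h2⟩ := rot_pow hv hw n
  have a1 : ∀ (s : ℝ) (u : E), |s| ≤ 1 → ‖s • u‖ ≤ ‖u‖ := by
    intro s u hs
    rw [norm_smul, Real.norm_eq_abs]
    exact mul_le_of_le_one_left (norm_nonneg _) hs
  rw [h1, h2]
  constructor
  · exact (norm_sub_le _ _).trans (add_le_add (a1 _ _ (Real.abs_cos_le_one _))
      (a1 _ _ (Real.abs_sin_le_one _)))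
  · exact (norm_add_le _ _).trans (add_le_add (a1 _ _ (Real.abs_sin_le_one _))
      (a1 _ _ (Real.abs_cos_le_one _)))

theorem rot_inv {D D' : E →L[ℝ] E} (h : ∀ u, D' (D u) = u) {θ : ℝ} {v w : E}
    (hv : D v = Real.cos θ • v - Real.sin θ • w)
    (hw : D w = Real.sin θ • v + Real.cos θ • w) :
    D' v = Real.cos (-θ) • v - Real.sin (-θ) • w ∧
      D' w = Real.sin (-θ) • v + Real.cos (-θ) • w := by
  have hcs : Real.cos θ * Real.cos θ + Real.sin θ * Real.sin θ = 1 := by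
    have := Real.cos_sq_add_sin_sq θ
    nlinarith
  have e1 : D (Real.cos θ • v + Real.sin θ • w) = v := by
    rw [map_add, map_smul, map_smul, hv, hw]
    calc _ = (Real.cos θ * Real.cos θ + Real.sin θ * Real.sin θ) • v := by module
      _ = v := by rw [hcs, one_smul]
  have e2 : D (-Real.sin θ • v + Real.cos θ • w) = w := by
    rw [map_add, map_smul, map_smul, hv, hw]
    calc _ = (Real.cos θ * Real.cos θ + Real.sin θ * Real.sin θ) • w := by module
      _ = w := by rw [hcs, one_smul]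
  rw [Real.cos_neg, Real.sin_neg]
  constructor
  · conv_lhs => rw [← e1]
    rw [h]; module
  · conv_lhs => rw [← e2]
    rw [h]

theorem surj_of_compl {D : E →L[ℝ] E} (hD : Surjective D) {Es Eu Es' Eu' : Submodule ℝ E}
    (h : IsCompl Es Eu) (h' : IsCompl Es' Eu') (hs : ∀ v ∈ Es, D v ∈ Es')
    (hu : ∀ v ∈ Eu, D v ∈ Eu') {w : E} (hw : w ∈ Es') : ∃ v ∈ Es, D v = w := by
  obtain ⟨v, rfl⟩ := hD w
  obtain ⟨s, u, hs', hu', rfl⟩ := Submodule.codisjoint_iff_exists_add_eq.1 h.codisjoint v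
  refine ⟨s, hs', ?_⟩
  have h1 : D u ∈ Es' := by
    have h2 : D u = D (s + u) - D s := by rw [map_add]; abel
    rw [h2]
    exact Es'.sub_mem hw (hs s hs')
  have h2 : D u = 0 := (Submodule.disjoint_def.1 h'.disjoint) _ h1 (hu u hu')
  rw [map_add, h2, add_zero]

end Lin

section Hyp

variable {d : ℕ} {N : Type*} [MetricSpace N] [ChartedSpace (EE d) N] {r : ℕ∞}

open Pool.Agent.OmegaStab.FinHyp (mdiff mdiff_symm mdiff_iter der_comp der_id)

theorem der_symm_iter (hr : 1 ≤ r) (A : Dyn d N r) (n : ℕ) (z : N) (v : EE d) :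
    der (d := d) A.symm^[n] (A^[n] z) (der (d := d) A^[n] z v) = v := by
  have h1 : (A.symm^[n] : N → N) ∘ A^[n] = id := by
    funext y
    exact (Function.LeftInverse.iterate (fun z => A.symm_apply_apply z) n) y
  have h2 := der_comp (mdiff_iter (mdiff_symm hr A) n) (mdiff_iter (mdiff hr A) n) z
  rw [h1, der_id] at h2
  exact (congrArg (fun T : EE d →L[ℝ] EE d => T v) h2).symm

theorem der_iter_symm (hr : 1 ≤ r) (A : Dyn d N r) (n : ℕ) (z : N) (v : EE d) :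
    der (d := d) A^[n] (A.symm^[n] z) (der (d := d) A.symm^[n] z v) = v := by
  have h1 : (A^[n] : N → N) ∘ A.symm^[n] = id := by
    funext y
    exact (Function.LeftInverse.iterate (fun z => A.apply_symm_apply z) n) y
  have h2 := der_comp (mdiff_iter (mdiff hr A) n) (mdiff_iter (mdiff_symm hr A) n) z
  rw [h1, der_id] at h2
  exact (congrArg (fun T : EE d →L[ℝ] EE d => T v) h2).symm

theorem der_succ (hr : 1 ≤ r) (A : Dyn d N r) (n : ℕ) (z : N) (v : EE d) :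
    der (d := d) A^[n + 1] z v = der (d := d) A (A^[n] z) (der (d := d) A^[n] z v) := by
  rw [Function.iterate_succ', der_comp (mdiff hr A) (mdiff_iter (mdiff hr A) n)]
  rfl

/-- A vector over a hyperbolic set with bounded forward and backward images is zero: abstract
form. -/
theorem eq_zero_aux (hr : 1 ≤ r) (A : Dyn d N r) {Λ : Set N} (hΛ1 : ∀ x ∈ Λ, A x ∈ Λ)
    (hΛ2 : ∀ x ∈ Λ, A.symm x ∈ Λ) {Es Eu : N → Submodule ℝ (EE d)}
    (hcp : ∀ x ∈ Λ, IsCompl (Es x) (Eu x)) (hs : ∀ x ∈ Λ, ∀ v ∈ Es x, der (d := d) A x v ∈ Es (A x))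
    (hu : ∀ x ∈ Λ, ∀ v ∈ Eu x, der (d := d) A x v ∈ Eu (A x)) {nr : N → EE d → ℝ}
    (nr0 : ∀ x v, 0 ≤ nr x v) (nr1 : ∀ x v, nr x v ≤ 0 → v = 0)
    (nr2 : ∀ x v w, nr x w ≤ nr x (v + w) + nr x v) {c μ : ℝ} (hc0 : 0 < c) (hμ : 0 < μ)
    (hμ1 : μ < 1)
    (h1 : ∀ x ∈ Λ, ∀ v ∈ Es x, ∀ n : ℕ, nr (A^[n] x) (der (d := d) A^[n] x v) ≤ c * μ ^ n * nr x v)
    (h2 : ∀ x ∈ Λ, ∀ v ∈ Eu x, ∀ n : ℕ,
      nr (A.symm^[n] x) (der (d := d) A.symm^[n] x v) ≤ c * μ ^ n * nr x v)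
    {z : N} (hz : z ∈ Λ) (v : EE d) {B : ℝ}
    (hB1 : ∀ n : ℕ, ∃ k : ℕ, n ≤ k ∧ nr (A^[k] z) (der (d := d) A^[k] z v) ≤ B)
    (hB2 : ∀ n : ℕ, ∃ k : ℕ, n ≤ k ∧ nr (A.symm^[k] z) (der (d := d) A.symm^[k] z v) ≤ B) :
    v = 0 := by
  have hiter : ∀ n : ℕ, ∀ x ∈ Λ, A^[n] x ∈ Λ := by
    intro n
    induction n with
    | zero => intro x hx; exact hx
    | succ n ih => intro x hx; rw [Function.iterate_succ_apply']; exact hΛ1 _ (ih x hx)
  have hiter' : ∀ n : ℕ, ∀ x ∈ Λ, A.symm^[n] x ∈ Λ := by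
    intro n
    induction n with
    | zero => intro x hx; exact hx
    | succ n ih => intro x hx; rw [Function.iterate_succ_apply']; exact hΛ2 _ (ih x hx)
  have huf : ∀ n : ℕ, ∀ x ∈ Λ, ∀ w ∈ Eu x, der (d := d) A^[n] x w ∈ Eu (A^[n] x) := by
    intro n x hx w hw
    induction n with
    | zero => rw [Function.iterate_zero, der_id]; exact hw
    | succ n ih =>
      rw [der_succ hr, Function.iterate_succ_apply']
      exact hu _ (hiter n x hx) _ ih
  have hsf : ∀ n : ℕ, ∀ x ∈ Λ, ∀ w ∈ Es x, der (d := d) A^[n] x w ∈ Es (A^[n] x) := by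
    intro n x hx w hw
    induction n with
    | zero => rw [Function.iterate_zero, der_id]; exact hw
    | succ n ih =>
      rw [der_succ hr, Function.iterate_succ_apply']
      exact hs _ (hiter n x hx) _ ih
  -- the components
  obtain ⟨s, u, hs', hu', hv⟩ := Submodule.codisjoint_iff_exists_add_eq.1 (hcp z hz).codisjoint v
  have hlim : ∀ K : ℝ, ∀ a : ℝ, (∀ n : ℕ, ∃ k : ℕ, n ≤ k ∧ a ≤ c * μ ^ k * K) → a ≤ 0 := by
    intro K a ha
    have hl : Tendsto (fun n : ℕ => c * μ ^ n * |K|) atTop (𝓝 (c * 0 * |K|)) :=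
      ((tendsto_pow_atTop_nhds_zero_of_lt_one hμ.le hμ1).const_mul c).mul_const _
    rw [mul_zero, zero_mul] at hl
    refine ge_of_tendsto' hl fun n => ?_
    obtain ⟨k, hk, hk'⟩ := ha n
    refine hk'.trans ?_
    have h3 : μ ^ k ≤ μ ^ n := pow_le_pow_of_le_one hμ.le hμ1.le hk
    have h4 : 0 ≤ μ ^ k := (pow_pos hμ k).le
    calc c * μ ^ k * K ≤ c * μ ^ k * |K| := by gcongr; exact le_abs_self K
      _ ≤ c * μ ^ n * |K| := by gcongr
  -- the unstable component vanishes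
  have hu0 : u = 0 := by
    apply nr1 z u
    apply hlim (B + c * nr z s)
    intro n
    obtain ⟨k, hk, hkB⟩ := hB1 n
    refine ⟨k, hk, ?_⟩
    have h3 := h2 (A^[k] z) (hiter k z hz) _ (huf k z hz u hu') k
    have h4 : A.symm^[k] (A^[k] z) = z :=
      (Function.LeftInverse.iterate (fun z => A.symm_apply_apply z) k) z
    rw [der_symm_iter hr A k z u, h4] at h3
    refine h3.trans ?_
    have h7 : nr (A^[k] z) (der (d := d) A^[k] z u) ≤ B + c * nr z s := by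
      have h8 := nr2 (A^[k] z) (der (d := d) A^[k] z s) (der (d := d) A^[k] z u)
      rw [← map_add, hv] at h8
      have h11 := h1 z hz s hs' k
      have h12 : c * μ ^ k * nr z s ≤ c * 1 * nr z s := by
        have := pow_le_one₀ hμ.le hμ1.le (n := k)
        have := nr0 z s
        gcongr
      linarith
    have := pow_pos hμ k
    gcongr
  rw [hu0, add_zero] at hv
  rw [← hv]
  -- the stable component vanishes
  have hback : ∀ n : ℕ, ∀ x ∈ Λ, ∀ w ∈ Es x, ∃ w' ∈ Es (A.symm^[n] x),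
      der (d := d) A^[n] (A.symm^[n] x) w' = w := by
    intro n x hx w hw
    have hsurj : Surjective (der (d := d) A^[n] (A.symm^[n] x)) := fun w =>
      ⟨_, der_iter_symm hr A n x w⟩
    have e1 : A^[n] (A.symm^[n] x) = x :=
      (Function.LeftInverse.iterate (fun z => A.apply_symm_apply z) n) x
    refine surj_of_compl hsurj (hcp _ (hiter' n x hx)) (hcp x hx) ?_ ?_ hw
    · intro w' hw'
      have := hsf n _ (hiter' n x hx) w' hw'
      rwa [e1] at this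
    · intro w' hw'
      have := huf n _ (hiter' n x hx) w' hw'
      rwa [e1] at this
  apply nr1 z s
  apply hlim B
  intro n
  obtain ⟨k, hk, hkB⟩ := hB2 n
  refine ⟨k, hk, ?_⟩
  obtain ⟨w', hw', hw''⟩ := hback k z hz s hs'
  have e1 : A^[k] (A.symm^[k] z) = z :=
    (Function.LeftInverse.iterate (fun z => A.apply_symm_apply z) k) z
  have h3 := h1 _ (hiter' k z hz) w' hw' k
  have h4 : w' = der (d := d) A.symm^[k] z s := by
    have h5 := der_symm_iter hr A k (A.symm^[k] z) w'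
    rw [hw'', e1] at h5
    exact h5.symm
  rw [hw'', e1] at h3
  refine h3.trans ?_
  have h7 : nr (A.symm^[k] z) w' ≤ B := by
    rw [h4, hv]; exact hkB
  have := pow_pos hμ k
  gcongr

variable [IsManifold (𝓡 d) ∞ N]

/-- A vector over a hyperbolic set with bounded forward and backward images is zero. -/
theorem eq_zero_of_bounded (hr : 1 ≤ r) (A : Dyn d N r) {Λ : Set N} (hΛ1 : ∀ x ∈ Λ, A x ∈ Λ)
    (hΛ2 : ∀ x ∈ Λ, A.symm x ∈ Λ) {Es Eu : TFamily (EE d) N}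
    (hcp : ∀ x ∈ Λ, IsCompl (Es x) (Eu x)) (hs : InvariantOver A Es Λ)
    (hu : InvariantOver A Eu Λ) {γ : RMetric (EE d) N} {c μ : ℝ} (hc0 : 0 < c) (hμ : 0 < μ)
    (hμ1 : μ < 1) (h1 : ContractedOver A γ Es Λ c μ) (h2 : ContractedOver A.symm γ Eu Λ c μ)
    {z : N} (hz : z ∈ Λ) (v : EE d) {B : ℝ}
    (hB1 : ∀ n : ℕ, ∃ k : ℕ, n ≤ k ∧ rnorm γ (A^[k] z) (der (d := d) A^[k] z v) ≤ B)
    (hB2 : ∀ n : ℕ, ∃ k : ℕ, n ≤ k ∧ rnorm γ (A.symm^[k] z) (der (d := d) A.symm^[k] z v) ≤ B) :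
    v = 0 :=
  eq_zero_aux hr A hΛ1 hΛ2 (Es := Es) (Eu := Eu) hcp hs hu (nr := fun x v => rnorm γ x v)
    (fun x v => UnionHyp.rnorm_nonneg γ x v) (fun x v => UnionHyp.eq_zero_of_rnorm_nonpos γ x v)
    (fun x v w => UnionHyp.rnorm_le_add γ x v w) hc0 hμ hμ1 h1 h2 hz v hB1 hB2

/-- A fixed point in a hyperbolic set is hyperbolic. -/
theorem hypAt_fix (hr : 1 ≤ r) (A : Dyn d N r) {Λ : Set N} (hΛ1 : ∀ x ∈ Λ, A x ∈ Λ)
    (hΛ2 : ∀ x ∈ Λ, A.symm x ∈ Λ) {Es Eu : TFamily (EE d) N}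
    (hcp : ∀ x ∈ Λ, IsCompl (Es x) (Eu x)) (hs : InvariantOver A Es Λ)
    (hu : InvariantOver A Eu Λ) {γ : RMetric (EE d) N} {c μ : ℝ} (hc0 : 0 < c) (hμ : 0 < μ)
    (hμ1 : μ < 1) (h1 : ContractedOver A γ Es Λ c μ) (h2 : ContractedOver A.symm γ Eu Λ c μ)
    {p : N} (hp : p ∈ Λ) (hfp : A p = p) : HypAt (d := d) A p := by
  have hfp' : A.symm p = p := by
    conv_lhs => rw [← hfp]
    exact A.symm_apply_apply p
  have hmin : minimalPeriod A p = 1 := Function.minimalPeriod_eq_one_iff_isFixedPt.2 hfp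
  refine ⟨⟨1, one_pos, hfp⟩, ?_⟩
  rw [hmin, Function.iterate_one, ← Pool.Agent.OmegaStab.FinHyp.der_eq_fderiv (mdiff hr A) hfp]
  intro θ v w hv hw
  obtain ⟨β, hβ0, hβ, -⟩ := Pool.Agent.OmegaStab.FinHyp.metric_comparison γ p
  have hD' : ∀ u, der (d := d) A.symm p (der (d := d) A p u) = u := by
    intro u
    have := der_symm_iter hr A 1 p u
    simp only [Function.iterate_one] at this
    rwa [hfp] at this
  obtain ⟨hv', hw'⟩ := rot_inv hD' hv hw
  have e1 : ∀ n : ℕ, der (d := d) A^[n] p = der (d := d) A p ^ n := by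
    intro n
    have := Pool.Agent.OmegaStab.FinHyp.der_iter_mul (mdiff hr A) (x := p) (k := 1) hfp n
    simpa only [one_mul, Function.iterate_one] using this
  have e2 : ∀ n : ℕ, der (d := d) A.symm^[n] p = der (d := d) A.symm p ^ n := by
    intro n
    have := Pool.Agent.OmegaStab.FinHyp.der_iter_mul (mdiff_symm hr A) (x := p) (k := 1) hfp' n
    simpa only [one_mul, Function.iterate_one] using this
  have e3 : ∀ n : ℕ, A^[n] p = p := fun n => Function.iterate_fixed hfp n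
  have e4 : ∀ n : ℕ, A.symm^[n] p = p := fun n => Function.iterate_fixed hfp' n
  have key : ∀ u : EE d, (∀ n : ℕ, ‖(der (d := d) A p ^ n) u‖ ≤ ‖v‖ + ‖w‖) →
      (∀ n : ℕ, ‖(der (d := d) A.symm p ^ n) u‖ ≤ ‖v‖ + ‖w‖) → u = 0 := by
    intro u hu1 hu2
    refine eq_zero_of_bounded hr A hΛ1 hΛ2 hcp hs hu hc0 hμ hμ1 h1 h2 hp u
      (B := β * (‖v‖ + ‖w‖)) (fun n => ⟨n, le_rfl, ?_⟩) (fun n => ⟨n, le_rfl, ?_⟩)
    · rw [e1, e3]
      exact (hβ _).trans (mul_le_mul_of_nonneg_left (hu1 n) hβ0.le)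
    · rw [e2, e4]
      exact (hβ _).trans (mul_le_mul_of_nonneg_left (hu2 n) hβ0.le)
  exact ⟨key v (fun n => (rot_bound hv hw n).1) (fun n => (rot_bound hv' hw' n).1),
    key w (fun n => (rot_bound hv hw n).2) (fun n => (rot_bound hv' hw' n).2)⟩

end Hyp

section Local

open Pool.Agent.OmegaStab.FinHyp (mdiff mdiff_symm mdiff_iter der_comp der_id)
open Pool.Agent.OmegaStab (inCharts LocModel)

variable {d : ℕ} {N : Type*} [MetricSpace N] [ChartedSpace (EE d) N] {r : ℕ∞}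
  [IsManifold (𝓡 d) ∞ N]

theorem ifr_fr (c : N) {z : N} (hz : z ∈ (extChartAt (𝓡 d) c).source) (v : EE d) :
    FrameLim.ifr (d := d) c z (fr c z v) = v := by
  rw [FrameLim.ifr_eq c hz]
  exact congrArg (fun T : EE d →L[ℝ] EE d => T v)
    (mfderivWithin_extChartAt_symm_comp_mfderiv_extChartAt' (I := 𝓡 d) hz)

theorem hasMFDerivAt_symm (c : N) {z : N} (hz : z ∈ (extChartAt (𝓡 d) c).source) :
    HasMFDerivAt 𝓘(ℝ, EE d) (𝓡 d) (extChartAt (𝓡 d) c).symm (extChartAt (𝓡 d) c z)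
      (FrameLim.ifr (d := d) c z) := by
  have h1 : extChartAt (𝓡 d) c z ∈ (extChartAt (𝓡 d) c).target :=
    (extChartAt (𝓡 d) c).map_source hz
  have h2 : MDifferentiableAt 𝓘(ℝ, EE d) (𝓡 d) (extChartAt (𝓡 d) c).symm
      (extChartAt (𝓡 d) c z) :=
    (mdifferentiableOn_extChartAt_symm (I := 𝓡 d) (x := c)).mdifferentiableAt
      ((isOpen_extChartAt_target c).mem_nhds h1)
  have h3 := h2.hasMFDerivAt
  rw [← mfderivWithin_eq_mfderiv ((isOpen_extChartAt_target c).uniqueMDiffOn _ h1) h2] at h3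
  exact h3

theorem hasFDerivAt_inCharts (p : N) {g : N → N} (hg : MDifferentiable (𝓡 d) (𝓡 d) g) {z : N}
    (hz : z ∈ (extChartAt (𝓡 d) p).source) (hgz : g z ∈ (extChartAt (𝓡 d) p).source) :
    HasFDerivAt (inCharts (d := d) p p g)
      (fr p (g z) ∘L der (d := d) g z ∘L FrameLim.ifr (d := d) p z) (extChartAt (𝓡 d) p z) := by
  have h1 := hasMFDerivAt_symm (d := d) p hz
  have e1 : (extChartAt (𝓡 d) p).symm (extChartAt (𝓡 d) p z) = z :=
    (extChartAt (𝓡 d) p).left_inv hz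
  have h2 : HasMFDerivAt (𝓡 d) (𝓡 d) g z (der (d := d) g z) := (hg z).hasMFDerivAt
  have h3 : HasMFDerivAt (𝓡 d) 𝓘(ℝ, EE d) (extChartAt (𝓡 d) p) (g z) (fr p (g z)) :=
    (mdifferentiableAt_extChartAt (by rwa [extChartAt_source] at hgz)).hasMFDerivAt
  have h4 : HasMFDerivAt 𝓘(ℝ, EE d) 𝓘(ℝ, EE d)
      (extChartAt (𝓡 d) p ∘ g ∘ (extChartAt (𝓡 d) p).symm) (extChartAt (𝓡 d) p z)
      (fr p (g z) ∘L der (d := d) g z ∘L FrameLim.ifr (d := d) p z) := by
    have h2' : HasMFDerivAt (𝓡 d) (𝓡 d) g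
        ((extChartAt (𝓡 d) p).symm (extChartAt (𝓡 d) p z)) (der (d := d) g z) := by
      rw [e1]; exact h2
    have h5 := h2'.comp _ h1
    have h3' : HasMFDerivAt (𝓡 d) 𝓘(ℝ, EE d) (extChartAt (𝓡 d) p)
        ((g ∘ (extChartAt (𝓡 d) p).symm) (extChartAt (𝓡 d) p z)) (fr p (g z)) := by
      rw [Function.comp_apply, e1]; exact h3
    exact h3'.comp _ h5
  exact h4.hasFDerivAt

/-- The derivative of the local expression of a map in the coordinates of the model. -/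
theorem hasFDerivAt_local {A : N → N} {p : N} (W : LocModel (d := d) A p) {g : N → N}
    (hg : MDifferentiable (𝓡 d) (𝓡 d) g) {z : N} (hz : z ∈ (extChartAt (𝓡 d) p).source)
    (hgz : g z ∈ (extChartAt (𝓡 d) p).source) :
    HasFDerivAt (fun u => W.ψ (g (W.ι u)))
      ((W.Θ : EE d →L[ℝ] W.Es × W.Eu) ∘L (fr p (g z) ∘L der (d := d) g z ∘L
        FrameLim.ifr (d := d) p z) ∘L (W.Θ.symm : W.Es × W.Eu →L[ℝ] EE d)) (W.ψ z) := by
  have h1 := hasFDerivAt_inCharts p hg hz hgz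
  have e1 : extChartAt (𝓡 d) p p + W.Θ.symm (W.ψ z) = extChartAt (𝓡 d) p z := by
    change extChartAt (𝓡 d) p p + W.Θ.symm (W.Θ (extChartAt (𝓡 d) p z - extChartAt (𝓡 d) p p)) = _
    rw [W.Θ.symm_apply_apply, add_sub_cancel]
  have h2 : HasFDerivAt (fun u : W.Es × W.Eu => extChartAt (𝓡 d) p p + W.Θ.symm u)
      (W.Θ.symm : W.Es × W.Eu →L[ℝ] EE d) (W.ψ z) := W.Θ.symm.hasFDerivAt.const_add _
  rw [← e1] at h1
  have h3 := h1.comp (W.ψ z) h2
  exact W.Θ.hasFDerivAt.comp (W.ψ z) (h3.sub_const (extChartAt (𝓡 d) p p))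

/-- The tangent vector at `z` with local coordinates `w`. -/
def tv {A : N → N} {p : N} (W : LocModel (d := d) A p) (z : N) (w : W.Es × W.Eu) : EE d :=
  FrameLim.ifr (d := d) p z (W.Θ.symm w)

theorem tv_fderiv {A : N → N} {p : N} (W : LocModel (d := d) A p) {g : N → N}
    (hg : MDifferentiable (𝓡 d) (𝓡 d) g) {z : N} (hz : z ∈ (extChartAt (𝓡 d) p).source)
    (hgz : g z ∈ (extChartAt (𝓡 d) p).source) (w : W.Es × W.Eu) :
    tv W (g z) (fderiv ℝ (fun u => W.ψ (g (W.ι u))) (W.ψ z) w) = der (d := d) g z (tv W z w) := by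
  rw [(hasFDerivAt_local W hg hz hgz).fderiv]
  unfold tv
  change FrameLim.ifr (d := d) p (g z) (W.Θ.symm (W.Θ (fr p (g z) _))) = _
  rw [W.Θ.symm_apply_apply, ifr_fr p hgz]
  rfl

theorem tv_eq_zero {A : N → N} {p : N} (W : LocModel (d := d) A p) {z : N}
    (hz : z ∈ (extChartAt (𝓡 d) p).source) {w : W.Es × W.Eu} (h : tv W z w = 0) : w = 0 := by
  have h1 := FrameLim.fr_ifr (d := d) p hz (W.Θ.symm w)
  unfold tv at h
  rw [h, map_zero] at h1
  have h2 := congrArg W.Θ h1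
  rw [map_zero, W.Θ.apply_symm_apply] at h2
  exact h2.symm

end Local

section Main

open Pool.Agent.OmegaStab.FinHyp (mdiff mdiff_symm mdiff_iter der_comp der_id)
open Pool.Agent.OmegaStab (inCharts LocModel bwdBdd fwdBdd)

variable {d : ℕ} {N : Type*} [MetricSpace N] [ChartedSpace (EE d) N] {r : ℕ∞}
  [IsManifold (𝓡 d) ∞ N]

omit [MetricSpace N] [ChartedSpace (EE d) N] [IsManifold (𝓡 d) ∞ N] in
theorem iterate_orbit {A : N → N} {P : ℤ → N} (hPA : ∀ j, A (P j) = P (j + 1)) (n : ℕ) (j : ℤ) :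
    A^[n] (P j) = P (j + n) := by
  induction n with
  | zero => simp
  | succ n ih =>
    rw [Function.iterate_succ_apply', ih, hPA]
    push_cast
    ring_nf

omit [IsManifold (𝓡 d) ∞ N] in
/-- Uniform continuity of finitely many maps on the ball. -/
theorem exists_eps [CompactSpace N] {A : N → N} (hA : Continuous A) {p : N}
    (W : LocModel (d := d) A p) (K : ℕ) {η : ℝ} (hη : 0 < η) :
    ∃ ε : ℝ, 0 < ε ∧ ∀ t ≤ K, ∀ u v : W.Es × W.Eu, ‖u‖ ≤ W.ρ → ‖v‖ ≤ W.ρ → ‖u - v‖ ≤ ε →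
      dist (A^[t] (W.ι u)) (A^[t] (W.ι v)) ≤ η := by
  have hK : IsCompact (Metric.closedBall (0 : W.Es × W.Eu) W.ρ) := isCompact_closedBall _ _
  have huc : ∀ t : ℕ, UniformContinuousOn (fun u => A^[t] (W.ι u))
      (Metric.closedBall (0 : W.Es × W.Eu) W.ρ) := fun t =>
    hK.uniformContinuousOn_of_continuous
      ((hA.iterate t).comp_continuousOn (W.continuousOn_ι.mono W.hball))
  have h1 : ∀ t : ℕ, ∃ δ : ℝ, 0 < δ ∧ ∀ u v : W.Es × W.Eu, ‖u‖ ≤ W.ρ → ‖v‖ ≤ W.ρ →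
      ‖u - v‖ < δ → dist (A^[t] (W.ι u)) (A^[t] (W.ι v)) < η := by
    intro t
    obtain ⟨δ, hδ, h2⟩ := Metric.uniformContinuousOn_iff.1 (huc t) η hη
    exact ⟨δ, hδ, fun u v hu hv huv => h2 u (by simpa using hu) v (by simpa using hv)
      (by rwa [dist_eq_norm])⟩
  choose δf hδf hδf' using h1
  have hne : (Finset.range (K + 1)).Nonempty := ⟨0, by simp⟩
  refine ⟨(Finset.range (K + 1)).inf' hne δf / 2, ?_, ?_⟩
  · apply half_pos
    rw [Finset.lt_inf'_iff]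
    exact fun s _ => hδf s
  · intro t ht u v hu hv huv
    refine (hδf' t u v hu hv ?_).le
    have h2 : (Finset.range (K + 1)).inf' hne δf ≤ δf t :=
      Finset.inf'_le _ (Finset.mem_range.2 (by omega))
    have h3 : 0 < (Finset.range (K + 1)).inf' hne δf := by
      rw [Finset.lt_inf'_iff]
      exact fun s _ => hδf s
    linarith

theorem aux [CompactSpace N] (hr : 1 ≤ r) (A : Dyn d N r) {p : N} (W : LocModel (d := d) A p)
    {q : N} {ℓ₀ : ℕ} {P : ℤ → N} (hP0 : P 0 = q)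
    (hPA : ∀ j, A (P j) = P (j + 1))
    (hP1 : ∀ j : ℤ, j ≤ 0 ∨ (ℓ₀ : ℤ) ≤ j →
      P j ∈ (extChartAt (𝓡 d) p).source ∧ ‖W.ψ (P j)‖ < W.ρ)
    {ρ₀ : ℝ} (hρ₀ : 0 < ρ₀) (hfar : ∀ j : ℤ, j ≠ 0 → 3 * ρ₀ ≤ dist (P j) q)
    (htr : ∀ s : Fin W.m, ∀ v ∈ bwdBdd W.G (fun n : ℕ => W.ψ (P (-(W.m * n : ℕ)))),
      fderiv ℝ (fun u => W.ψ (A^[ℓ₀ + s] (W.ι u))) (W.ψ q) v ∈
        fwdBdd W.G (fun n : ℕ => W.ψ (P ((ℓ₀ + s + W.m * n : ℕ)))) → v = 0)
    {ρ : ℝ} (hρ : 0 < ρ) :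
    ∃ n₀ : ℕ, ∀ (k : ℕ) (g : ℕ → ℕ), 0 < k → (∀ i < k, n₀ ≤ g i) →
      ∃ x : ℕ → N, x k = x 0 ∧ ∀ i < k, dist (x i) q ≤ ρ ∧ A^[g i] (x i) = x (i + 1) ∧
        ∀ t, 0 < t → t < g i → ρ₀ ≤ dist (A^[t] (x i)) q := by
  have hm := W.hm
  set a : ℕ → W.Es × W.Eu := fun n => W.ψ (P (-(W.m * n : ℕ))) with ha
  set b : Fin W.m → ℕ → W.Es × W.Eu := fun s n => W.ψ (P ((ℓ₀ + s + W.m * n : ℕ))) with hb
  set T : Fin W.m → W.Es × W.Eu → W.Es × W.Eu := fun s u => W.ψ (A^[ℓ₀ + s] (W.ι u)) with hT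
  have hPa : ∀ n : ℕ, P (-(W.m * n : ℕ)) ∈ (extChartAt (𝓡 d) p).source ∧ ‖a n‖ < W.ρ :=
    fun n => hP1 _ (Or.inl (by have := Int.natCast_nonneg (W.m * n); omega))
  have hPb : ∀ (s : Fin W.m) (n : ℕ), P ((ℓ₀ + s + W.m * n : ℕ)) ∈
      (extChartAt (𝓡 d) p).source ∧ ‖b s n‖ < W.ρ :=
    fun s n => hP1 _ (Or.inr (by have := Int.natCast_nonneg (W.m * n); push_cast at *; omega))
  have hιa : ∀ n, W.ι (a n) = P (-(W.m * n : ℕ)) := fun n => W.ι_ψ (hPa n).1
  have hιb : ∀ s n, W.ι (b s n) = P ((ℓ₀ + s + W.m * n : ℕ)) := fun s n => W.ι_ψ (hPb s n).1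
  have hιa0 : W.ι (a 0) = q := by rw [hιa]; simp [hP0]
  have ha0 : a 0 = W.ψ q := by simp [ha, hP0]
  have hqs : q ∈ (extChartAt (𝓡 d) p).source := by
    have := (hPa 0).1
    simpa [hP0] using this
  have hit : ∀ (n : ℕ) (j : ℤ), A^[n] (P j) = P (j + n) := fun n j => iterate_orbit hPA n j
  have hitq : ∀ n : ℕ, A^[n] q = P n := by
    intro n
    rw [← hP0, hit, zero_add]
  have hTs : ∀ s : Fin W.m, A^[ℓ₀ + s] q ∈ (extChartAt (𝓡 d) p).source := by
    intro s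
    rw [hitq]
    have := (hPb s 0).1
    simpa using this
  -- hypotheses of the horseshoe theorem
  have hGb : ∀ s n, W.G (b s n) = b s (n + 1) := by
    intro s n
    change W.G (W.ψ _) = W.ψ _
    rw [W.G_ψ (hPb s n).1, hit]
    congr 2
    push_cast
    ring
  have hGa : ∀ n, W.G (a (n + 1)) = a n := by
    intro n
    change W.G (W.ψ _) = W.ψ _
    rw [W.G_ψ (hPa (n + 1)).1, hit]
    congr 2
    push_cast
    ring
  have hTab : ∀ s, T s (a 0) = b s 0 := by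
    intro s
    change W.ψ (A^[ℓ₀ + s] (W.ι (a 0))) = W.ψ _
    rw [hιa0, hitq]
    simp
  have hTC : ∀ s, ContDiffAt ℝ 1 (T s) (a 0) := by
    intro s
    have h1 := Pool.Agent.OmegaStab.contDiffAt_inCharts_iterate hr A (ℓ₀ + s) p p q hqs (hTs s)
    have hca : extChartAt (𝓡 d) p p + W.Θ.symm (a 0) = extChartAt (𝓡 d) p q := by
      rw [ha0]
      change extChartAt (𝓡 d) p p + W.Θ.symm (W.Θ (extChartAt (𝓡 d) p q -
        extChartAt (𝓡 d) p p)) = _
      rw [W.Θ.symm_apply_apply, add_sub_cancel]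
    rw [← hca] at h1
    have h3 : ContDiffAt ℝ 1 (fun u : W.Es × W.Eu => extChartAt (𝓡 d) p p + W.Θ.symm u) (a 0) :=
      contDiffAt_const.add W.Θ.symm.contDiff.contDiffAt
    have h4 : ContDiffAt ℝ 1 ((inCharts (d := d) p p A^[ℓ₀ + s]) ∘
      (fun u : W.Es × W.Eu => extChartAt (𝓡 d) p p + W.Θ.symm u)) (a 0) := h1.comp (a 0) h3
    exact W.Θ.contDiff.contDiffAt.comp (a 0) (h4.sub contDiffAt_const)
  rw [← ha0] at htr
  -- the precision
  obtain ⟨ε₁, hε₁, hε₁'⟩ := exists_eps A.continuous W (ℓ₀ + W.m) (lt_min hρ hρ₀)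
  obtain ⟨ε₂, hε₂, hε₂'⟩ : ∃ ε₂ : ℝ, 0 < ε₂ ∧ ∀ u, ‖u - a 0‖ ≤ ε₂ → ∀ s : Fin W.m,
      A^[ℓ₀ + s] (W.ι u) ∈ (extChartAt (𝓡 d) p).source := by
    have haΩ : a 0 ∈ W.Ω := W.ball_sub (hPa 0).2.le
    have hιc : ContinuousAt W.ι (a 0) := W.continuousOn_ι.continuousAt (W.hΩ.mem_nhds haΩ)
    have h1 : ∀ s : Fin W.m, ∀ᶠ u in 𝓝 (a 0),
        A^[ℓ₀ + s] (W.ι u) ∈ (extChartAt (𝓡 d) p).source := by
      intro s
      have h2 : ContinuousAt (fun u => A^[ℓ₀ + s] (W.ι u)) (a 0) :=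
        (A.continuous.iterate (ℓ₀ + s)).continuousAt.comp hιc
      refine h2.eventually ((isOpen_extChartAt_source (I := 𝓡 d) p).mem_nhds ?_)
      change A^[ℓ₀ + s] (W.ι (a 0)) ∈ _
      rw [hιa0]
      exact hTs s
    obtain ⟨δ, hδ, h3⟩ := Metric.eventually_nhds_iff.1 (eventually_all.2 h1)
    refine ⟨δ / 2, half_pos hδ, fun u hu s => h3 ?_ s⟩
    rw [dist_eq_norm]
    linarith
  obtain ⟨n₁, hn₁1, hn₁⟩ := W.hyp'.horseshoe_per W.hΩ W.hball W.smooth' hm b a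
    (fun s n => (hPb s n).2) hGb (fun n => (hPa n).2) hGa T hTC hTab htr (lt_min hε₁ hε₂)
  refine ⟨ℓ₀ + W.m * (n₁ + 1), fun k g hk hg => ?_⟩
  have hkne : NeZero k := ⟨hk.ne'⟩
  -- the codes
  set σ' : ℕ → Fin W.m := fun i => ⟨(g i - ℓ₀) % W.m, Nat.mod_lt _ hm⟩ with hσ'
  set L' : ℕ → ℕ := fun i => (g i - ℓ₀) / W.m with hL'
  have hgi : ∀ i < k, g i = ℓ₀ + σ' i + W.m * L' i := by
    intro i hi
    have h1 := hg i hi
    have h2 : ℓ₀ ≤ g i := le_trans (Nat.le_add_right _ _) h1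
    have h3 := Nat.mod_add_div (g i - ℓ₀) W.m
    change g i = ℓ₀ + (g i - ℓ₀) % W.m + W.m * ((g i - ℓ₀) / W.m)
    omega
  have hLi : ∀ i < k, n₁ ≤ L' i := by
    intro i hi
    have h1 := hg i hi
    change n₁ ≤ (g i - ℓ₀) / W.m
    rw [Nat.le_div_iff_mul_le hm]
    have h2 : W.m * (n₁ + 1) = n₁ * W.m + W.m := by ring
    omega
  obtain ⟨z, hz⟩ := hn₁ k (fun j => σ' (j - 1).val) (fun j => L' (j - 1).val) hk
    (fun j => hLi _ (ZMod.val_lt _))
  set l : ZMod k → ℕ := fun j => L' (j - 1).val with hl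
  set σ : ZMod k → Fin W.m := fun j => σ' (j - 1).val with hσ
  have hball : ∀ j, ∀ i ≤ l j, ‖W.G^[i] (z j)‖ ≤ W.ρ := fun j i hi => ((hz j).2.1 i hi).1
  have hιG : ∀ j, ∀ i ≤ l j, A^[W.m * i] (W.ι (z j)) = W.ι (W.G^[i] (z j)) := by
    intro j i
    induction i with
    | zero => intro _; rfl
    | succ i ih =>
      intro hi
      rw [Nat.mul_succ, Nat.add_comm, Function.iterate_add_apply, ih (by omega),
        Function.iterate_succ_apply' W.G i, W.ι_G (W.ball_sub (hball j i (by omega)))]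
  set X : ZMod k → N := fun j => W.ι (W.G^[l j] (z j)) with hX
  have hXstep : ∀ j, A^[ℓ₀ + σ (j + 1)] (X j) = W.ι (z (j + 1)) := by
    intro j
    have h1 := (hz j).2.2.1
    have h2 := (hz j).2.2.2
    rw [← h2]
    change _ = W.ι (W.ψ (A^[ℓ₀ + σ (j + 1)] (W.ι (W.G^[l j] (z j)))))
    rw [W.ι_ψ (hε₂' _ (h1.trans (min_le_right _ _)) _)]
  have hXnear : ∀ j, ∀ t ≤ ℓ₀ + W.m, dist (A^[t] (X j)) (P t) ≤ min ρ ρ₀ := by
    intro j t ht
    have h1 := hε₁' t ht (W.G^[l j] (z j)) (a 0) (hball j _ le_rfl) (hPa 0).2.le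
      ((hz j).2.2.1.trans (min_le_left _ _))
    rwa [hιa0, hitq] at h1
  refine ⟨fun i => X (i : ZMod k), ?_, fun i hi => ?_⟩
  · simp
  have hval : ((i : ZMod k) + 1 - 1).val = i := by
    rw [add_sub_cancel_right, ZMod.val_natCast_of_lt hi]
  have hσi : σ ((i : ZMod k) + 1) = σ' i := by
    change σ' ((i : ZMod k) + 1 - 1).val = σ' i
    rw [hval]
  have hli : l ((i : ZMod k) + 1) = L' i := by
    change L' ((i : ZMod k) + 1 - 1).val = L' i
    rw [hval]
  have hstep := hXstep (i : ZMod k)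
  rw [hσi] at hstep
  have hcast : ((i + 1 : ℕ) : ZMod k) = (i : ZMod k) + 1 := by push_cast; rfl
  refine ⟨?_, ?_, ?_⟩
  · have h1 := hXnear (i : ZMod k) 0 (Nat.zero_le _)
    rw [Nat.cast_zero, hP0] at h1
    exact h1.trans (min_le_left _ _)
  · change A^[g i] (X (i : ZMod k)) = X ((i + 1 : ℕ) : ZMod k)
    rw [hcast, hgi i hi, Nat.add_comm, Function.iterate_add_apply, hstep, ← hli]
    exact hιG _ _ le_rfl
  · intro t ht0 htg
    change ρ₀ ≤ dist (A^[t] (X (i : ZMod k))) q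
    have hmain : ∃ j : ℤ, j ≠ 0 ∧ dist (A^[t] (X (i : ZMod k))) (P j) ≤ ρ₀ := by
      by_cases hcase : t ≤ ℓ₀ + σ' i
      · refine ⟨t, by omega, ?_⟩
        have h1 := (σ' i).2
        exact (hXnear _ t (by omega)).trans (min_le_right _ _)
      · rw [not_le] at hcase
        set e := t - (ℓ₀ + σ' i) with he
        have hme := Nat.mod_add_div e W.m
        have hmlt := Nat.mod_lt e hm
        set i' := e / W.m with hi'
        set s' := e % W.m with hs'
        have hte : t = s' + (W.m * i' + (ℓ₀ + σ' i)) := by omega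
        have hi'L : i' < L' i := by
          have h1 := hgi i hi
          have h2 : W.m * i' < W.m * L' i := by omega
          exact lt_of_mul_lt_mul_left h2 (Nat.zero_le _)
        have hAt : A^[t] (X (i : ZMod k)) = A^[s'] (W.ι (W.G^[i'] (z ((i : ZMod k) + 1)))) := by
          rw [hte, Function.iterate_add_apply, Function.iterate_add_apply, hstep,
            hιG _ _ (by rw [hli]; exact hi'L.le)]
        rw [hAt]
        have hor := ((hz ((i : ZMod k) + 1)).2.1 i' (by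
          change i' ≤ l ((i : ZMod k) + 1)
          rw [hli]; exact hi'L.le)).2
        rcases hor with h1 | h1
        · refine ⟨((ℓ₀ + σ' i + W.m * i' : ℕ) : ℤ) + s', by omega, ?_⟩
          have h2 := hε₁' s' (by omega) _ (b (σ' i) i') (hball _ i' (by rw [hli]; exact hi'L.le))
            (hPb _ _).2.le (by
              have h3 : ‖W.G^[i'] (z ((i : ZMod k) + 1)) - b (σ ((i : ZMod k) + 1)) i'‖ ≤
                min ε₁ ε₂ := h1
              rw [hσi] at h3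
              exact h3.trans (min_le_left _ _))
          rw [hιb, hit] at h2
          exact h2.trans (min_le_right _ _)
        · refine ⟨-((W.m * (L' i - i') : ℕ) : ℤ) + s', ?_, ?_⟩
          · have h2 : W.m * 1 ≤ W.m * (L' i - i') := Nat.mul_le_mul_left _ (by omega)
            omega
          · have h2 := hε₁' s' (by omega) _ (a (L' i - i')) (hball _ i' (by
              rw [hli]; exact hi'L.le)) (hPa _).2.le (by
              have h3 : ‖W.G^[i'] (z ((i : ZMod k) + 1)) - a (l ((i : ZMod k) + 1) - i')‖ ≤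
                min ε₁ ε₂ := h1
              rw [hli] at h3
              exact h3.trans (min_le_left _ _))
            rw [hιa, hit] at h2
            exact h2.trans (min_le_right _ _)
    obtain ⟨j, hj0, hj⟩ := hmain
    have h1 := hfar j hj0
    have h2 := dist_triangle_left (P j) q (A^[t] (X (i : ZMod k)))
    linarith

/-- The tangent vectors along the orbit given by bounded local coordinates are bounded. -/
theorem exists_tv_bound [CompactSpace N] {A : N → N} {p : N} (W : LocModel (d := d) A p)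
    (γ : RMetric (EE d) N) : ∃ β : ℝ, 0 < β ∧ ∀ z ∈ (extChartAt (𝓡 d) p).source,
      ‖W.ψ z‖ ≤ W.ρ → ∀ w : W.Es × W.Eu, rnorm γ z (tv W z w) ≤ β * ‖w‖ := by
  have hcl : closure (W.ι '' Metric.closedBall (0 : W.Es × W.Eu) W.ρ) ⊆
      (extChartAt (𝓡 d) p).source := by
    have h1 : IsCompact (W.ι '' Metric.closedBall (0 : W.Es × W.Eu) W.ρ) :=
      (isCompact_closedBall _ _).image_of_continuousOn (W.continuousOn_ι.mono W.hball)
    rw [h1.isClosed.closure_eq]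
    rintro _ ⟨u, hu, rfl⟩
    exact W.ι_mem (W.hball hu)
  obtain ⟨β, hβ, h⟩ := fr_compare γ p hcl
  refine ⟨β * (‖(W.Θ.symm : W.Es × W.Eu →L[ℝ] EE d)‖ + 1), by positivity, ?_⟩
  intro z hz hzρ w
  have hmem : z ∈ W.ι '' Metric.closedBall (0 : W.Es × W.Eu) W.ρ :=
    ⟨W.ψ z, by simpa using hzρ, W.ι_ψ hz⟩
  have h1 := (h z hmem (tv W z w)).1
  unfold tv at h1 ⊢
  rw [FrameLim.fr_ifr p hz] at h1
  refine h1.trans ?_
  rw [mul_assoc]
  refine mul_le_mul_of_nonneg_left ?_ hβ.le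
  have h2 := (W.Θ.symm : W.Es × W.Eu →L[ℝ] EE d).le_opNorm w
  refine h2.trans ?_
  have := norm_nonneg w
  nlinarith

theorem transverse [CompactSpace N] (hr : 1 ≤ r) (A : Dyn d N r) {p : N}
    (W : LocModel (d := d) A p) (γ : RMetric (EE d) N)
    {q : N} {ℓ₀ : ℕ} {P : ℤ → N} (hP0 : P 0 = q)
    (hPA : ∀ j, A (P j) = P (j + 1))
    (hP1 : ∀ j : ℤ, j ≤ 0 ∨ (ℓ₀ : ℤ) ≤ j →
      P j ∈ (extChartAt (𝓡 d) p).source ∧ ‖W.ψ (P j)‖ < W.ρ)
    (hz : ∀ (v : EE d) (B : ℝ),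
      (∀ n : ℕ, ∃ k : ℕ, n ≤ k ∧ rnorm γ (A^[k] q) (der (d := d) A^[k] q v) ≤ B) →
      (∀ n : ℕ, ∃ k : ℕ, n ≤ k ∧ rnorm γ (A.symm^[k] q) (der (d := d) A.symm^[k] q v) ≤ B) →
      v = 0) (s : Fin W.m) (v : W.Es × W.Eu)
    (hv : v ∈ bwdBdd W.G (fun n : ℕ => W.ψ (P (-(W.m * n : ℕ)))))
    (hv' : fderiv ℝ (fun u => W.ψ (A^[ℓ₀ + s] (W.ι u))) (W.ψ q) v ∈
        fwdBdd W.G (fun n : ℕ => W.ψ (P ((ℓ₀ + s + W.m * n : ℕ))))) : v = 0 := by
  have hm := W.hm
  obtain ⟨β, hβ, hβ'⟩ := exists_tv_bound W γ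
  obtain ⟨w, hw0, hw, C, hwC⟩ := hv
  obtain ⟨w', hw'0, hw', C', hw'C⟩ := hv'
  have hit : ∀ (n : ℕ) (j : ℤ), A^[n] (P j) = P (j + n) := fun n j => iterate_orbit hPA n j
  have hitq : ∀ n : ℕ, A^[n] q = P n := by
    intro n
    rw [← hP0, hit, zero_add]
  have hPa : ∀ n : ℕ, P (-(W.m * n : ℕ)) ∈ (extChartAt (𝓡 d) p).source ∧
      ‖W.ψ (P (-(W.m * n : ℕ)))‖ < W.ρ :=
    fun n => hP1 _ (Or.inl (by have := Int.natCast_nonneg (W.m * n); omega))
  have hPb : ∀ (n : ℕ), P ((ℓ₀ + s + W.m * n : ℕ)) ∈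
      (extChartAt (𝓡 d) p).source ∧ ‖W.ψ (P ((ℓ₀ + s + W.m * n : ℕ)))‖ < W.ρ :=
    fun n => hP1 _ (Or.inr (by have := Int.natCast_nonneg (W.m * n); push_cast at *; omega))
  have hmd : ∀ n : ℕ, MDifferentiable (𝓡 d) (𝓡 d) A^[n] := fun n => mdiff_iter (mdiff hr A) n
  have hqs : q ∈ (extChartAt (𝓡 d) p).source := by
    have := (hPa 0).1
    simpa [hP0] using this
  -- one backward step
  have hb1 : ∀ n : ℕ, der (d := d) A^[W.m] (P (-(W.m * (n + 1) : ℕ)))
      (tv W (P (-(W.m * (n + 1) : ℕ))) (w (n + 1))) = tv W (P (-(W.m * n : ℕ))) (w n) := by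
    intro n
    have e1 : A^[W.m] (P (-(W.m * (n + 1) : ℕ))) = P (-(W.m * n : ℕ)) := by
      rw [hit]
      congr 1
      push_cast
      ring
    have h1 := tv_fderiv W (hmd W.m) (hPa (n + 1)).1 (by rw [e1]; exact (hPa n).1) (w (n + 1))
    rw [e1] at h1
    rw [← h1]
    congr 1
    exact hw n
  have hb2 : ∀ n : ℕ, der (d := d) A^[W.m * n] (P (-(W.m * n : ℕ)))
      (tv W (P (-(W.m * n : ℕ))) (w n)) = tv W q (w 0) := by
    intro n
    induction n with
    | zero => simp [der_id, hP0]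
    | succ n ih =>
      rw [← ih, ← hb1 n]
      have e1 : A^[W.m] (P (-(W.m * (n + 1) : ℕ))) = P (-(W.m * n : ℕ)) := by
        rw [hit]
        congr 1
        push_cast
        ring
      rw [show W.m * (n + 1) = W.m * n + W.m by ring, Function.iterate_add,
        der_comp (hmd _) (hmd _)]
      rw [show W.m * n + W.m = W.m * (n + 1) by ring, e1]
      rfl
  have hb3 : ∀ n : ℕ, A.symm^[W.m * n] q = P (-(W.m * n : ℕ)) := by
    intro n
    have e1 : A^[W.m * n] (P (-(W.m * n : ℕ))) = q := by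
      rw [hit, neg_add_cancel, hP0]
    rw [← e1]
    exact (Function.LeftInverse.iterate (fun z => A.symm_apply_apply z) (W.m * n)) _
  have hb4 : ∀ n : ℕ, der (d := d) A.symm^[W.m * n] q (tv W q (w 0)) =
      tv W (P (-(W.m * n : ℕ))) (w n) := by
    intro n
    have e1 : A^[W.m * n] (P (-(W.m * n : ℕ))) = q := by
      rw [hit, neg_add_cancel, hP0]
    have h1 := der_symm_iter hr A (W.m * n) (P (-(W.m * n : ℕ)))
      (tv W (P (-(W.m * n : ℕ))) (w n))
    rw [hb2 n, e1] at h1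
    exact h1
  -- the transit
  have ht1 : der (d := d) A^[ℓ₀ + s] q (tv W q (w 0)) = tv W (P ((ℓ₀ + s + W.m * 0 : ℕ))) (w' 0) := by
    have e1 : A^[ℓ₀ + s] q = P ((ℓ₀ + s + W.m * 0 : ℕ)) := by
      rw [hitq]; simp
    have h1 := tv_fderiv W (hmd (ℓ₀ + s)) hqs (by rw [e1]; exact (hPb 0).1) (w 0)
    rw [← h1, e1, hw'0, hw0]
  -- forward steps
  have hf1 : ∀ n : ℕ, der (d := d) A^[W.m] (P ((ℓ₀ + s + W.m * n : ℕ)))
      (tv W (P ((ℓ₀ + s + W.m * n : ℕ))) (w' n)) =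
        tv W (P ((ℓ₀ + s + W.m * (n + 1) : ℕ))) (w' (n + 1)) := by
    intro n
    have e1 : A^[W.m] (P ((ℓ₀ + s + W.m * n : ℕ))) = P ((ℓ₀ + s + W.m * (n + 1) : ℕ)) := by
      rw [hit]
      congr 1
      push_cast
      ring
    have h1 := tv_fderiv W (hmd W.m) (hPb n).1 (by rw [e1]; exact (hPb (n + 1)).1) (w' n)
    rw [e1] at h1
    rw [← h1]
    congr 1
    exact hw' n
  have hf2 : ∀ n : ℕ, der (d := d) A^[ℓ₀ + s + W.m * n] q (tv W q (w 0)) =
      tv W (P ((ℓ₀ + s + W.m * n : ℕ))) (w' n) := by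
    intro n
    induction n with
    | zero => exact ht1
    | succ n ih =>
      rw [← hf1 n, ← ih]
      rw [show ℓ₀ + s + W.m * (n + 1) = W.m + (ℓ₀ + s + W.m * n) by ring, Function.iterate_add,
        der_comp (hmd _) (hmd _), hitq]
      rfl
  have h0 : tv W q (w 0) = 0 := by
    refine hz _ (β * max C C') (fun n => ⟨ℓ₀ + s + W.m * n, ?_, ?_⟩)
      (fun n => ⟨W.m * n, ?_, ?_⟩)
    · have : 1 * n ≤ W.m * n := Nat.mul_le_mul_right _ hm
      omega
    · rw [hf2, hitq]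
      refine (hβ' _ (hPb n).1 (hPb n).2.le _).trans ?_
      exact mul_le_mul_of_nonneg_left ((hw'C n).trans (le_max_right _ _)) hβ.le
    · have : 1 * n ≤ W.m * n := Nat.mul_le_mul_right _ hm
      omega
    · rw [hb4, hb3]
      refine (hβ' _ (hPa n).1 (hPa n).2.le _).trans ?_
      exact mul_le_mul_of_nonneg_left ((hwC n).trans (le_max_left _ _)) hβ.le
  rw [← hw0]
  exact tv_eq_zero W hqs h0

end Main

end ReturnHom

open Pool.Agent.OmegaStab (exists_locModel zpow_add_apply zpow_natCast_apply zpow_neg_natCast_apply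
  apply_zpow zpow_zero_apply) in
theorem returnSeq_of_homoclinic {d : ℕ} {N : Type*} [MetricSpace N] [ChartedSpace (EE d) N]
    {r : ℕ∞} [IsManifold (𝓡 d) ∞ N] [CompactSpace N] (hr : 1 ≤ r) (A : Dyn d N r)
    (h : HasTransverseHomoclinicPoint (EE d) A A.symm) : ReturnSeq A := by
  obtain ⟨p, q₀, hp, hqp, hqf, hqb, Es, Eu, -, -, hcp, hs, hu, γ, c, μ, hc0, hμ, hμ1, h1, h2⟩ := h
  set O : Set N := {x | ∃ n : ℕ, x = A^[n] q₀ ∨ x = A.symm^[n] q₀} with hO
  have hO1 : MapsTo A O O := by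
    rintro x ⟨n, rfl | rfl⟩
    · exact ⟨n + 1, Or.inl (Function.iterate_succ_apply' A n q₀).symm⟩
    · cases n with
      | zero => exact ⟨1, Or.inl rfl⟩
      | succ n =>
        refine ⟨n, Or.inr ?_⟩
        rw [Function.iterate_succ_apply']
        exact A.apply_symm_apply _
  have hO2 : MapsTo A.symm O O := by
    rintro x ⟨n, rfl | rfl⟩
    · cases n with
      | zero => exact ⟨1, Or.inr rfl⟩
      | succ n =>
        refine ⟨n, Or.inl ?_⟩
        rw [Function.iterate_succ_apply']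
        exact A.symm_apply_apply _
    · exact ⟨n + 1, Or.inr (Function.iterate_succ_apply' A.symm n q₀).symm⟩
  have hΛ1 : ∀ x ∈ closure O, A x ∈ closure O := fun x hx =>
    map_mem_closure A.continuous hx hO1
  have hΛ2 : ∀ x ∈ closure O, A.symm x ∈ closure O := fun x hx =>
    map_mem_closure A.symm.continuous hx hO2
  have hpΛ : p ∈ closure O :=
    mem_closure_of_tendsto hqf (Eventually.of_forall fun n => ⟨n, Or.inl rfl⟩)
  have hyp : HypAt (d := d) A p :=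
    ReturnHom.hypAt_fix hr A hΛ1 hΛ2 hcp hs hu hc0 hμ hμ1 h1 h2 hpΛ hp
  obtain ⟨W⟩ := exists_locModel hr A p hyp
  have hev := W.eventually_small W.ρ W.hyp.rho_pos
  obtain ⟨l₁, hl₁⟩ := eventually_atTop.1 (hqf.eventually hev)
  obtain ⟨l₂, hl₂⟩ := eventually_atTop.1 (hqb.eventually hev)
  set H : N ≃ₜ N := A.toHomeomorph with hH
  have hHA : ∀ x, H x = A x := fun x => rfl
  have hHA' : ∀ x, H.symm x = A.symm x := fun x => rfl
  have hHn : ∀ (n : ℕ) x, H^[n] x = A^[n] x := fun n x => rfl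
  have hHn' : ∀ (n : ℕ) x, H.symm^[n] x = A.symm^[n] x := fun n x => rfl
  set P : ℤ → N := fun j => (H ^ (j - l₂)) q₀ with hP
  set q : N := P 0 with hq
  have hPA : ∀ j, A (P j) = P (j + 1) := by
    intro j
    rw [← hHA]
    change H ((H ^ (j - l₂)) q₀) = (H ^ (j + 1 - l₂)) q₀
    rw [apply_zpow]
    congr 2
    ring
  have hP1 : ∀ j : ℤ, j ≤ 0 ∨ ((l₁ + l₂ : ℕ) : ℤ) ≤ j →
      P j ∈ (extChartAt (𝓡 d) p).source ∧ ‖W.ψ (P j)‖ < W.ρ := by
    rintro j (hj | hj)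
    · obtain ⟨n, hn⟩ := Int.eq_ofNat_of_zero_le (show 0 ≤ -j by omega)
      have e1 : P j = A.symm^[l₂ + n] q₀ := by
        rw [← hHn', ← zpow_neg_natCast_apply]
        change (H ^ (j - l₂)) q₀ = _
        congr 2
        push_cast
        omega
      rw [e1]
      exact hl₂ _ (by omega)
    · obtain ⟨n, hn⟩ := Int.eq_ofNat_of_zero_le (show 0 ≤ j - ((l₁ + l₂ : ℕ) : ℤ) by omega)
      have e1 : P j = A^[l₁ + n] q₀ := by
        rw [← hHn, ← zpow_natCast_apply]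
        change (H ^ (j - l₂)) q₀ = _
        congr 2
        push_cast at *
        omega
      rw [e1]
      exact hl₁ _ (by omega)
  -- limits
  have hlim1 : Tendsto (fun n : ℕ => P n) atTop (𝓝 p) := by
    have e1 : ∀ n : ℕ, P ((n + l₂ : ℕ)) = A^[n] q₀ := by
      intro n
      rw [← hHn, ← zpow_natCast_apply]
      change (H ^ _) q₀ = _
      congr 2
      push_cast
      ring
    have h3 : Tendsto (fun n : ℕ => P ((n + l₂ : ℕ))) atTop (𝓝 p) := by
      simp only [e1]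
      exact hqf
    exact (tendsto_add_atTop_iff_nat (f := fun n : ℕ => P (n : ℤ)) l₂).1 h3
  have hlim2 : Tendsto (fun n : ℕ => P (-(n : ℤ))) atTop (𝓝 p) := by
    have e1 : ∀ n : ℕ, P (-(n : ℤ)) = A.symm^[n + l₂] q₀ := by
      intro n
      rw [← hHn', ← zpow_neg_natCast_apply]
      change (H ^ _) q₀ = _
      congr 2
      push_cast
      ring
    simp only [e1]
    exact (tendsto_add_atTop_iff_nat (f := fun n : ℕ => A.symm^[n] q₀) l₂).2 hqb
  have hPadd : ∀ i j : ℤ, P (i + j) = (H ^ i) (P j) := by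
    intro i j
    change (H ^ (i + j - l₂)) q₀ = (H ^ i) ((H ^ (j - l₂)) q₀)
    rw [← zpow_add_apply]
    congr 2
    ring
  have hpn : ∀ n : ℤ, (H ^ n) p = p := by
    intro n
    rcases Int.eq_nat_or_neg n with ⟨k, rfl | rfl⟩
    · rw [zpow_natCast_apply, hHn]
      exact Function.iterate_fixed hp k
    · rw [zpow_neg_natCast_apply, hHn']
      refine Function.iterate_fixed ?_ k
      conv_lhs => rw [← hp]
      exact A.symm_apply_apply p
  have hPne : ∀ j, P j ≠ p := by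
    intro j hj
    apply hqp
    have h3 := hPadd (l₂ - j) j
    rw [hj, hpn] at h3
    have h4 : P (l₂ - j + j) = q₀ := by
      change (H ^ _) q₀ = q₀
      rw [show (l₂ : ℤ) - j + j - l₂ = 0 by ring, zpow_zero_apply]
    rw [← h4, h3]
  have hPinj : ∀ j : ℤ, j ≠ 0 → P j ≠ q := by
    intro j hj he
    -- periodic, hence constant along multiples
    have h3 : ∀ k : ℕ, P (k * j) = q := by
      intro k
      induction k with
      | zero => simp [hq]
      | succ k ih =>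
        rw [show ((k + 1 : ℕ) : ℤ) * j = j + k * j by push_cast; ring, hPadd, ih, hq,
          ← hPadd, add_zero, ← hq]
        exact he
    rcases lt_or_gt_of_ne hj with hneg | hpos
    · have h4 : Tendsto (fun k : ℕ => k * (-j).toNat) atTop atTop :=
        tendsto_id.atTop_mul_const' (by omega)
      have h5 := hlim2.comp h4
      have h6 : (fun n : ℕ => P (-(n : ℤ))) ∘ (fun k : ℕ => k * (-j).toNat) = fun _ => q := by
        funext k
        have h7 : (-(((k * (-j).toNat : ℕ)) : ℤ)) = k * j := by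
          rw [Nat.cast_mul, Int.toNat_of_nonneg (by omega)]
          ring
        simp only [Function.comp_apply]
        rw [h7, h3]
      rw [h6] at h5
      exact hPne 0 (tendsto_nhds_unique tendsto_const_nhds h5)
    · have h4 : Tendsto (fun k : ℕ => k * j.toNat) atTop atTop :=
        tendsto_id.atTop_mul_const' (by omega)
      have h5 := hlim1.comp h4
      have h6 : (fun n : ℕ => P (n : ℤ)) ∘ (fun k : ℕ => k * j.toNat) = fun _ => q := by
        funext k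
        have h7 : (((k * j.toNat : ℕ)) : ℤ) = k * j := by
          rw [Nat.cast_mul, Int.toNat_of_nonneg (by omega)]
        simp only [Function.comp_apply]
        rw [h7, h3]
      rw [h6] at h5
      exact hPne 0 (tendsto_nhds_unique tendsto_const_nhds h5)
  -- the distance
  obtain ⟨δ, hδ, hδ'⟩ : ∃ δ : ℝ, 0 < δ ∧ ∀ j : ℤ, j ≠ 0 → δ ≤ dist (P j) q := by
    have hpq : 0 < dist p q := dist_pos.2 fun he => hPne 0 (hq ▸ he.symm)
    have h3 : ∀ᶠ n : ℕ in atTop, dist p q / 2 < dist (P n) q :=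
      (hlim1.dist tendsto_const_nhds).eventually (lt_mem_nhds (by linarith))
    have h4 : ∀ᶠ n : ℕ in atTop, dist p q / 2 < dist (P (-(n : ℤ))) q :=
      (hlim2.dist tendsto_const_nhds).eventually (lt_mem_nhds (by linarith))
    obtain ⟨n₁, hn₁⟩ := eventually_atTop.1 h3
    obtain ⟨n₂, hn₂⟩ := eventually_atTop.1 h4
    set S : Finset ℤ := (Finset.Icc (-(n₂ : ℤ)) n₁).erase 0 with hS
    have h5 : ∃ δ : ℝ, 0 < δ ∧ ∀ j ∈ S, δ ≤ dist (P j) q := by
      rcases S.eq_empty_or_nonempty with he | hne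
      · exact ⟨1, one_pos, by rw [he]; simp⟩
      · refine ⟨S.inf' hne (fun j => dist (P j) q), ?_, fun j hj => Finset.inf'_le _ hj⟩
        rw [Finset.lt_inf'_iff]
        intro j hj
        exact dist_pos.2 (hPinj j (Finset.ne_of_mem_erase hj))
    obtain ⟨δ, hδ, hδS⟩ := h5
    refine ⟨min δ (dist p q / 2), lt_min hδ (by linarith), fun j hj => ?_⟩
    by_cases hj1 : (n₁ : ℤ) ≤ j
    · obtain ⟨n, rfl⟩ := Int.eq_ofNat_of_zero_le (show 0 ≤ j by omega)
      exact (min_le_right _ _).trans (hn₁ n (by exact_mod_cast hj1)).le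
    · by_cases hj2 : (n₂ : ℤ) ≤ -j
      · obtain ⟨n, hn⟩ := Int.eq_ofNat_of_zero_le (show 0 ≤ -j by omega)
        have h6 := hn₂ n (by omega)
        rw [show -(n : ℤ) = j by omega] at h6
        exact (min_le_right _ _).trans h6.le
      · refine (min_le_left _ _).trans (hδS j ?_)
        rw [hS, Finset.mem_erase, Finset.mem_Icc]
        exact ⟨hj, by omega, by omega⟩
  have hqΛ : q ∈ closure O := by
    apply subset_closure
    refine ⟨l₂, Or.inr ?_⟩
    change (H ^ ((0 : ℤ) - l₂)) q₀ = _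
    rw [zero_sub, zpow_neg_natCast_apply]
    rfl
  refine ⟨q, δ / 3, by linarith, ?_, fun ρ hρ _ => ?_⟩
  · rintro ⟨n, hn, hnq⟩
    have h3 : A^[n] q = P n := by
      rw [hq, ReturnHom.iterate_orbit hPA, zero_add]
    exact hPinj n (by omega) (h3.symm.trans hnq)
  · refine ReturnHom.aux hr A W (ℓ₀ := l₁ + l₂) (P := P) rfl hPA hP1 (by linarith)
      (fun j hj => by have := hδ' j hj; linarith) ?_ hρ
    intro s v hv hv'
    refine ReturnHom.transverse hr A W γ (P := P) rfl hPA hP1 ?_ s v hv hv'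
    intro v B hB1 hB2
    exact ReturnHom.eq_zero_of_bounded hr A hΛ1 hΛ2 hcp hs hu hc0 hμ hμ1 h1 h2 hqΛ v hB1 hB2

end Pool.Agent.OmegaPS

end
end

section

/-!
# Products: closed words are hyperbolic
-/

open Set Filter Topology Function
open scoped Manifold ContDiff

noncomputable section

namespace Pool.Agent.OmegaPS

open Pool.Agent.OmegaStab (EE Dyn IsFam PP HypAt crTopology HypLin ConjClass)
open Pool.Agent.OmegaStab.FinHyp (der)
open Pool.Agent.OmegaStability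

namespace StarSw

theorem hypLin_conj {E : Type*} [NormedAddCommGroup E] [NormedSpace ℝ E] {A B : E →L[ℝ] E}
    (T : E ≃L[ℝ] E) (h : ∀ v, T (A v) = B (T v)) (hA : HypLin A) : HypLin B := by
  intro θ v w h1 h2
  have h3 := hA θ (T.symm v) (T.symm w)
  have h4 : ∀ u, A (T.symm u) = T.symm (B u) := by
    intro u
    apply T.injective
    rw [h, T.apply_symm_apply, T.apply_symm_apply]
  have h5 := h3 (by rw [h4, h1]; simp) (by rw [h4, h2]; simp)
  refine ⟨?_, ?_⟩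
  · have := congrArg T h5.1
    rwa [T.apply_symm_apply, map_zero] at this
  · have := congrArg T h5.2
    rwa [T.apply_symm_apply, map_zero] at this

section

variable {d : ℕ} {N : Type*} [MetricSpace N] [ChartedSpace (EE d) N] {r : ℕ∞}

theorem mdiff (hr : 1 ≤ r) (g : Dyn d N r) : MDifferentiable (𝓡 d) (𝓡 d) g := by
  have h1 : ContMDiff (𝓡 d) (𝓡 d) (r : ℕ∞ω) g := g.contMDiff
  refine h1.mdifferentiable ?_
  intro h0
  have h2 : (1 : ℕ∞ω) ≤ (r : ℕ∞ω) := by exact_mod_cast hr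
  rw [h0] at h2
  exact absurd h2 (by simp)

end

end StarSw

section Product

variable {d₁ d₂ d : ℕ} {N₁ N₂ M : Type*} [MetricSpace N₁] [ChartedSpace (EE d₁) N₁]
  [IsManifold (𝓡 d₁) ∞ N₁] [MetricSpace N₂] [ChartedSpace (EE d₂) N₂]
  [IsManifold (𝓡 d₂) ∞ N₂] [MetricSpace M] [ChartedSpace (EE d) M] [IsManifold (𝓡 d) ∞ M]
  [CompactSpace N₁] [CompactSpace N₂] [CompactSpace M] {r : ℕ∞}

/-- The core: a switching orbit makes the product of the transitions hyperbolic. -/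
theorem StarSw.core (hr : 1 ≤ r)
    (Φ : Diffeomorph (𝓡 d) ((𝓡 d₁).prod (𝓡 d₂)) M (N₁ × N₂) ∞)
    (f₁ : Dyn d₁ N₁ r) (f₂ : Dyn d₂ N₂ r) (g : Dyn d M r)
    (hhyp : ∀ p ∈ periodicPts g, HypAt (d := d) g p) (At : Atlas d₁ N₁ r) {ε : ℝ}
    (G : GeoSys At f₁ ε) {ι : Type} {k : ℕ} (emb : ι → Fin k) (D : Fin k → Set N₂) (E : Set N₂)
    (τ : ι → Trans N₁ (EE d₁)) (jj : ι → At.J) (ππ : ι → PP d₁)
    (hmap : ∀ a, At.h (jj a) (ππ a) (τ a).src = (τ a).tgt)
    (hder : ∀ a v, (τ a).mat (G.frame (τ a).src v) =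
        G.frame (τ a).tgt (der (d := d₁) (At.h (jj a) (ππ a)) (τ a).src v))
    (hgE : ∀ y x, f₂ x ∈ E → Φ (g (Φ.symm (y, x))) = (f₁ y, f₂ x))
    (hgD : ∀ a y x, f₂ x ∈ D (emb a) →
      Φ (g (Φ.symm (y, x))) = (At.h (jj a) (ππ a) (f₁ y), f₂ x))
    (p : ℕ) (s : ℕ → ι) (l : ℕ → ℕ) (P : ℕ → EE d₁ ≃L[ℝ] EE d₁) (hp : 0 < p) (hsp : s p = s 0)
    (hl : ∀ q < p, 1 ≤ l q ∧ (G.S.f ^ l q) (τ (s q)).tgt = (τ (s (q + 1))).src)
    (hP0 : P 0 = 1)
    (hPs : ∀ q < p, P (q + 1) = (τ (s (q + 1))).mat * G.S.coc (l q) (τ (s q)).tgt * P q)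
    (x : ℕ → N₂) (hxp : x p = x 0)
    (hx : ∀ q < p, x q ∈ D (emb (s q)) ∧ f₂^[l q] (x q) = x (q + 1) ∧
      ∀ t, 0 < t → t < l q → f₂^[t] (x q) ∈ E) : Hyp (P p) := by
  have hxD : ∀ q < p, x (q + 1) ∈ D (emb (s (q + 1))) := by
    intro q hq
    by_cases hq1 : q + 1 < p
    · exact (hx (q + 1) hq1).1
    · have h1 : q + 1 = p := by omega
      have h2 := (hx 0 hp).1
      rw [h1, hxp, hsp]
      exact h2
  -- the fibre maps
  set Hq : ℕ → N₁ → N₁ := fun q y => At.h (jj (s (q + 1))) (ππ (s (q + 1))) (f₁^[l q] y) with hHq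
  have hstep0 : ∀ q < p, ∀ y t, t < l q →
      g^[t] (Φ.symm (y, x q)) = Φ.symm (f₁^[t] y, f₂^[t] (x q)) := by
    intro q hq y t
    induction t with
    | zero => intro _; rfl
    | succ t ih =>
      intro ht
      have h1 := ih (by omega)
      rw [Function.iterate_succ_apply', h1]
      have h2 : f₂ (f₂^[t] (x q)) ∈ E := by
        rw [← Function.iterate_succ_apply' f₂ t (x q)]
        exact (hx q hq).2.2 (t + 1) (by omega) ht
      have h3 := hgE (f₁^[t] y) (f₂^[t] (x q)) h2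
      have h4 := congrArg Φ.symm h3
      rw [Φ.symm_apply_apply] at h4
      rw [h4, Function.iterate_succ_apply', Function.iterate_succ_apply']
  have hstep : ∀ q < p, ∀ y, g^[l q] (Φ.symm (y, x q)) = Φ.symm (Hq q y, x (q + 1)) := by
    intro q hq y
    have hlq : 1 ≤ l q := (hl q hq).1
    obtain ⟨t, ht⟩ := Nat.exists_eq_add_of_le' hlq
    have h1 := hstep0 q hq y t (by omega)
    rw [ht, Function.iterate_succ_apply', h1]
    have h5 : f₂ (f₂^[t] (x q)) = x (q + 1) := by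
      rw [← Function.iterate_succ_apply' f₂ t (x q)]
      have h6 := (hx q hq).2.1
      rw [ht] at h6
      exact h6
    have h3 := hgD (s (q + 1)) (f₁^[t] y) (f₂^[t] (x q)) (by rw [h5]; exact hxD q hq)
    have h4 := congrArg Φ.symm h3
    rw [Φ.symm_apply_apply, h5] at h4
    rw [h4]
    simp only [hHq, ht, Function.iterate_succ_apply']
  let HH : ℕ → N₁ → N₁ := fun q => Nat.rec id (fun q H => Hq q ∘ H) q
  have hHH0 : HH 0 = id := rfl
  have hHHs : ∀ q, HH (q + 1) = Hq q ∘ HH q := fun q => rfl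
  have hcomp : ∀ q, q ≤ p → ∀ y,
      g^[∑ q' ∈ Finset.range q, l q'] (Φ.symm (y, x 0)) = Φ.symm (HH q y, x q) := by
    intro q
    induction q with
    | zero => intro _ y; rfl
    | succ q ih =>
      intro hq y
      rw [Finset.sum_range_succ, add_comm, Function.iterate_add_apply, ih (by omega) y,
        hstep q (by omega), hHHs]
      rfl
  have hpt : ∀ q, q ≤ p → HH q (τ (s 0)).tgt = (τ (s q)).tgt := by
    intro q
    induction q with
    | zero => intro _; rw [hHH0]; rfl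
    | succ q ih =>
      intro hq
      rw [hHHs, Function.comp_apply, ih (by omega)]
      simp only [hHq]
      rw [← G.pow_eq, (hl q (by omega)).2, hmap]
  have hmd1 : ∀ t, MDifferentiable (𝓡 d₁) (𝓡 d₁) f₁^[t] := fun t =>
    Pool.Agent.OmegaStab.FinHyp.mdiff_iter (StarSw.mdiff hr f₁) t
  have hmdq : ∀ q, MDifferentiable (𝓡 d₁) (𝓡 d₁) (Hq q) := fun q =>
    (StarSw.mdiff hr (At.h (jj (s (q + 1))) (ππ (s (q + 1))))).comp (hmd1 (l q))
  have hmdH : ∀ q, MDifferentiable (𝓡 d₁) (𝓡 d₁) (HH q) := by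
    intro q
    induction q with
    | zero => exact mdifferentiable_id
    | succ q ih => exact (hmdq q).comp ih
  have hderq : ∀ q, ∀ z v, der (d := d₁) (Hq q) z v =
      der (d := d₁) (At.h (jj (s (q + 1))) (ππ (s (q + 1)))) (f₁^[l q] z)
        (der (d := d₁) f₁^[l q] z v) := by
    intro q z v
    have := Pool.Agent.OmegaStab.FinHyp.der_comp
      (StarSw.mdiff hr (At.h (jj (s (q + 1))) (ππ (s (q + 1))))) (hmd1 (l q)) z
    exact congrArg (fun T : EE d₁ →L[ℝ] EE d₁ => T v) this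
  have hframe : ∀ q, q ≤ p → ∀ v, G.frame (τ (s q)).tgt (der (d := d₁) (HH q) (τ (s 0)).tgt v) =
      P q (G.frame (τ (s 0)).tgt v) := by
    intro q
    induction q with
    | zero =>
      intro _ v
      rw [hHH0, hP0, Pool.Agent.OmegaStab.FinHyp.der_id]
      rfl
    | succ q ih =>
      intro hq v
      have e1 : der (d := d₁) (HH (q + 1)) (τ (s 0)).tgt v =
          der (d := d₁) (Hq q) (HH q (τ (s 0)).tgt) (der (d := d₁) (HH q) (τ (s 0)).tgt v) := by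
        have := Pool.Agent.OmegaStab.FinHyp.der_comp (hmdq q) (hmdH q) (τ (s 0)).tgt
        exact congrArg (fun T : EE d₁ →L[ℝ] EE d₁ => T v) this
      rw [e1, hpt q (by omega), hderq, hPs q (by omega)]
      have e2 : f₁^[l q] (τ (s q)).tgt = (τ (s (q + 1))).src := by
        rw [← G.pow_eq, (hl q (by omega)).2]
      have e3 := G.coc_frame hr (l q) (τ (s q)).tgt (der (d := d₁) (HH q) (τ (s 0)).tgt v)
      rw [e2, ih (by omega) v] at e3
      rw [e2, ← hder (s (q + 1)), ← e3]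
      rfl
  obtain ⟨n, hn⟩ : ∃ n, n = ∑ q ∈ Finset.range p, l q := ⟨_, rfl⟩
  have hnpos : 0 < n := by
    rw [hn]
    have h1 : l 0 ≤ ∑ q ∈ Finset.range p, l q :=
      Finset.single_le_sum (fun _ _ => Nat.zero_le _) (Finset.mem_range.2 hp)
    have h2 := (hl 0 hp).1
    omega
  have hfin : ∀ y, g^[n] (Φ.symm (y, x 0)) = Φ.symm (HH p y, x 0) := by
    intro y
    rw [hn, hcomp p le_rfl y, hxp]
  have hfix : HH p (τ (s 0)).tgt = (τ (s 0)).tgt := by rw [hpt p le_rfl, hsp]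
  have hper : Φ.symm ((τ (s 0)).tgt, x 0) ∈ periodicPts g := by
    refine ⟨n, hnpos, ?_⟩
    show g^[n] (Φ.symm ((τ (s 0)).tgt, x 0)) = Φ.symm ((τ (s 0)).tgt, x 0)
    rw [hfin, hfix]
  have hlin := fibre_hyp hr Φ g hnpos (hhyp _ hper) (hmdH p (τ (s 0)).tgt) hfix hfin
  refine StarSw.hypLin_conj (G.frame (τ (s 0)).tgt) (fun v => ?_) hlin
  have := hframe p le_rfl v
  rw [hsp] at this
  exact this

theorem star_of_switchable (hr : 1 ≤ r)
    (Φ : Diffeomorph (𝓡 d) ((𝓡 d₁).prod (𝓡 d₂)) M (N₁ × N₂) ∞) (f : Dyn d M r)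
    (f₁ : Dyn d₁ N₁ r) (f₂ : Dyn d₂ N₂ r) (hf : ∀ x, Φ (f x) = (f₁ (Φ x).1, f₂ (Φ x).2))
    {𝒩 : Set (Dyn d M r)} (h𝒩 : IsOpen[crTopology d M r] 𝒩) (hf𝒩 : f ∈ 𝒩)
    (hhyp : ∀ g ∈ 𝒩, ∀ p ∈ periodicPts g, HypAt (d := d) g p) (At : Atlas d₁ N₁ r)
    (hsw : Switchable f₂) (k : ℕ) :
    ∃ (ε₀ : ℝ) (m : ℕ), 0 < ε₀ ∧ 1 ≤ m ∧ ∀ ε ≤ ε₀, ∀ G : GeoSys At f₁ ε, Star G.S m k := by
  classical
  obtain ⟨m, D, E, hm, hDc, hEc, hDD, hDE, hreal⟩ := hsw k
  obtain ⟨c₀, hc₀, hpert⟩ := pert Φ f f₁ f₂ hf h𝒩 hf𝒩 At D E hDc hEc hDD hDE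
  obtain ⟨ε₀, hε₀, hrealise⟩ := realise hr At hc₀
  refine ⟨ε₀, m, hε₀, hm, ?_⟩
  intro ε hε G ι _ hcard τ hτ i n M' hpath
  obtain ⟨emb⟩ : Nonempty (ι ↪ Fin k) :=
    Function.Embedding.nonempty_of_card_le (by rwa [Fintype.card_fin])
  have hch : ∀ a : ι, ∃ (j : At.J) (π : PP d₁), ‖π‖ ≤ c₀ ∧ At.h j π (τ a).src = (τ a).tgt ∧
      ∀ v, (τ a).mat (G.frame (τ a).src v) =
        G.frame (τ a).tgt (der (d := d₁) (At.h j π) (τ a).src v) :=
    fun a => hrealise ε hε f₁ G _ _ _ (hτ a)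
  choose jj ππ hπ hmap hder using hch
  set J' : Fin k → At.J := Function.extend emb jj (fun _ => jj i) with hJ'
  set qq' : Fin k → PP d₁ := Function.extend emb ππ (fun _ => 0) with hqdef
  have hJe : ∀ a, J' (emb a) = jj a := fun a => emb.injective.extend_apply _ _ _
  have hqe : ∀ a, qq' (emb a) = ππ a := fun a => emb.injective.extend_apply _ _ _
  have hq0' : ∀ c, ‖qq' c‖ ≤ c₀ := by
    intro c
    by_cases hc : ∃ a, emb a = c
    · obtain ⟨a, rfl⟩ := hc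
      rw [hqe]
      exact hπ a
    · rw [hqdef, Function.extend_apply' _ _ _ hc, norm_zero]
      exact hc₀.le
  obtain ⟨g, hg𝒩, hgE, hgD⟩ := hpert J' qq' hq0'
  obtain ⟨p, s, l, P, hp, hs0, hsp, hl, hn, hP0, hPs, hPp⟩ := path_seq G.S hpath
  obtain ⟨x, hxp, hx⟩ := hreal p (fun q => emb (s q)) l hp (by rw [hsp, hs0])
    (fun q hq => (hl q hq).1)
  rw [hPp]
  refine StarSw.core hr Φ f₁ f₂ g (hhyp g hg𝒩) At G emb D E τ jj ππ hmap hder hgE ?_ p s l P hp
    (by rw [hsp, hs0]) (fun q hq => ⟨hm.trans (hl q hq).1, (hl q hq).2⟩) hP0 hPs x hxp hx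
  intro a y x' hx'
  have := hgD (emb a) y x' hx'
  rw [hJe, hqe] at this
  exact this

end Product

end Pool.Agent.OmegaPS

end
end

section

/-!
# Vectorwise hyperbolicity from uniformly hyperbolic closed chains (helper27)
-/

open Set Filter Topology Function
open scoped Manifold ContDiff

noncomputable section

namespace Pool.Agent.OmegaPS

open Pool.Agent.OmegaStab (EE Dyn IsFam PP HypAt crTopology HypLin ConjClass)
open Pool.Agent.OmegaStab.FinHyp (der)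
open Pool.Agent.OmegaStability

namespace VecHypEx

section Lin

variable {X V : Type*} [NormedAddCommGroup V] [InnerProductSpace ℝ V]

/-- Chains with one jump. -/
theorem uh1 {S : Sys X V} {C δ : ℝ} {n₀ : ℕ} (h : ChainUH S 1 C δ n₀) (y : X) (n : ℕ)
    (D : V ≃L[ℝ] V) (hn : n₀ ≤ n) (hD : S.Tr ((S.f ^ n) y) y D) :
    ∃ Es Eu : Submodule ℝ V, IsCompl Es Eu ∧
      (∀ v ∈ Es, ∀ w ∈ Eu, ‖v‖ ≤ C * ‖v + w‖ ∧ ‖w‖ ≤ C * ‖v + w‖) ∧
      (∀ v ∈ Es, D (S.coc n y v) ∈ Es) ∧ (∀ v ∈ Eu, D (S.coc n y v) ∈ Eu) ∧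
      (∀ v ∈ Es, ∀ t₁ t₂ : ℕ, t₁ ≤ t₂ → t₂ ≤ n →
        ‖S.coc t₂ y v‖ ≤ C * Real.exp (-δ * (t₂ - t₁)) * ‖S.coc t₁ y v‖) ∧
      (∀ v ∈ Eu, ∀ t₁ t₂ : ℕ, t₁ ≤ t₂ → t₂ ≤ n →
        ‖S.coc t₁ y v‖ ≤ C * Real.exp (-δ * (t₂ - t₁)) * ‖S.coc t₂ y v‖) := by
  obtain ⟨Es, Eu, h1, h2, h3, h4, h5, h6⟩ := h (fun _ => y) (fun _ => n) (fun _ => D)
    (fun _ => hn) (fun _ => hD)
  have e : ∀ q : ZMod 1, q = 0 := fun q => Subsingleton.elim _ _
  refine ⟨Es 0, Eu 0, h1 0, h2 0, ?_, ?_, h5 0, h6 0⟩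
  · intro v hv
    have := h3 0 v hv
    rwa [e (0 + 1)] at this
  · intro v hv
    have := h4 0 v hv
    rwa [e (0 + 1)] at this

/-- An invertible map which maps a subspace into itself maps it onto itself. -/
theorem surj_sub [FiniteDimensional ℝ V] {T : V ≃L[ℝ] V} {S : Submodule ℝ V}
    (hS : ∀ v ∈ S, T v ∈ S) {v : V} (hv : v ∈ S) : ∃ c ∈ S, T c = v := by
  let T' : S →ₗ[ℝ] S := ((T : V →L[ℝ] V) : V →ₗ[ℝ] V).restrict hS
  have hinj : Function.Injective T' := by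
    intro a b hab
    have h1 : T a = T b := congrArg Subtype.val hab
    exact Subtype.ext (T.injective h1)
  obtain ⟨t, ht⟩ := (LinearMap.injective_iff_surjective.1 hinj) ⟨v, hv⟩
  exact ⟨t, t.2, congrArg Subtype.val ht⟩

end Lin

section Man

variable {d : ℕ} {N : Type*} [MetricSpace N] [ChartedSpace (EE d) N] {r : ℕ∞}
  [IsManifold (𝓡 d) ∞ N]

omit [IsManifold (𝓡 d) ∞ N] in
theorem contMDiff_iter (hr : 1 ≤ r) (F : Dyn d N r) (n : ℕ) :
    ContMDiff (𝓡 d) (𝓡 d) 1 F^[n] := by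
  have h1 : ContMDiff (𝓡 d) (𝓡 d) 1 F := F.contMDiff.of_le (by exact_mod_cast hr)
  induction n with
  | zero => exact contMDiff_id
  | succ n ih => rw [Function.iterate_succ]; exact ih.comp h1

omit [IsManifold (𝓡 d) ∞ N] in
theorem symm_iter (F : Dyn d N r) (n : ℕ) (z : N) : F.symm^[n] (F^[n] z) = z :=
  Function.LeftInverse.iterate (f := F) (g := F.symm) (fun x => F.symm_apply_apply x) n z

theorem der_symm_iter (hr : 1 ≤ r) (F : Dyn d N r) (n : ℕ) (z : N) (w : EE d) :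
    der (d := d) F.symm^[n] (F^[n] z) (der (d := d) F^[n] z w) = w := by
  have h1 := OmegaStab.FinHyp.der_comp (d := d)
    ((contMDiff_iter hr F.symm n).mdifferentiable one_ne_zero)
    ((contMDiff_iter hr F n).mdifferentiable one_ne_zero) z
  have h2 : (F.symm^[n] ∘ F^[n]) = id := funext fun z => symm_iter F n z
  rw [h2, OmegaStab.FinHyp.der_id] at h1
  exact (congrArg (fun T : EE d →L[ℝ] EE d => T w) h1).symm

variable {At : Atlas d N r} {F : Dyn d N r} {ε : ℝ}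

/-- Passing to the limit in inequalities between norms. -/
theorem limit (G : GeoSys At F ε) (γ : RMetric (EE d) N) {H₁ H₂ : N → N}
    (hH₁ : ContMDiff (𝓡 d) (𝓡 d) 1 H₁) (hH₂ : ContMDiff (𝓡 d) (𝓡 d) 1 H₂)
    {j : At.J} {x : N} (hx : x ∈ At.W j) {z : ℕ → N} (hz : Tendsto z atTop (𝓝 x))
    (hzW : ∀ l, z l ∈ At.W j) {α : ℕ → EE d} {a : EE d} (hα : Tendsto α atTop (𝓝 a)) (K : ℝ)
    (h : ∀ᶠ l in atTop, rnorm γ (H₁ (z l)) (der (d := d) H₁ (z l) ((G.e j (z l)).symm (α l))) ≤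
      K * rnorm γ (H₂ (z l)) (der (d := d) H₂ (z l) ((G.e j (z l)).symm (α l)))) :
    rnorm γ (H₁ x) (der (d := d) H₁ x ((G.e j x).symm a)) ≤
      K * rnorm γ (H₂ x) (der (d := d) H₂ x ((G.e j x).symm a)) :=
  le_of_tendsto_of_tendsto (tendsto_rnorm_der G γ hH₁ hx hz hzW hα)
    ((tendsto_rnorm_der G γ hH₂ hx hz hzW hα).const_mul K) h

theorem rnorm_id (γ : RMetric (EE d) N) (x : N) (w : EE d) :
    rnorm γ (id x) (der (d := d) (id : N → N) x w) = rnorm γ x w := by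
  rw [OmegaStab.FinHyp.der_id]; rfl

theorem rnorm_nonneg (γ : RMetric (EE d) N) (x : N) (w : EE d) : 0 ≤ rnorm γ x w :=
  Real.sqrt_nonneg _

end Man

end VecHypEx

open VecHypEx

variable {d : ℕ} {N : Type*} [MetricSpace N] [ChartedSpace (EE d) N] {r : ℕ∞}
  [IsManifold (𝓡 d) ∞ N]

theorem vecHyp_of_chainUH [CompactSpace N] (hr : 1 ≤ r) {At : Atlas d N r} {F : Dyn d N r}
    {ε : ℝ} (hε : 0 < ε) (G : GeoSys At F ε) {C δ : ℝ} {n₀ : ℕ} (hC : 1 ≤ C) (hδ : 0 < δ)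
    (h : ChainUH G.S 1 C δ n₀) (γ : RMetric (EE d) N) :
    ∃ C' : ℝ, 1 ≤ C' ∧ VecHyp F F.symm γ (Omega F) C' δ := by
  obtain ⟨β₀, hβ₀, hfm⟩ := frame_metric G γ
  set C' := max 1 (β₀ ^ 2 * C) with hC'
  refine ⟨C', le_max_left _ _, ?_⟩
  intro x hx v
  obtain ⟨j, hj⟩ := At.cover x
  -- a radius
  obtain ⟨η₀, hη₀, hη₀'⟩ : ∃ η₀ > 0, ∀ z : N, dist z x < η₀ → z ∈ At.W j ∧
      ‖extChartAt (𝓡 d) (At.ctr j) z - extChartAt (𝓡 d) (At.ctr j) x‖ ≤ ε / 2 := by
    have hxs : x ∈ (extChartAt (𝓡 d) (At.ctr j)).source := At.closure_W j (subset_closure hj)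
    have h1 : ∀ᶠ z in 𝓝 x, z ∈ At.W j := (At.isOpen_W j).mem_nhds hj
    have h2 : Tendsto (extChartAt (𝓡 d) (At.ctr j)) (𝓝 x)
        (𝓝 (extChartAt (𝓡 d) (At.ctr j) x)) := continuousAt_extChartAt' hxs
    have h3 : ∀ᶠ z in 𝓝 x,
        ‖extChartAt (𝓡 d) (At.ctr j) z - extChartAt (𝓡 d) (At.ctr j) x‖ ≤ ε / 2 := by
      have := h2.eventually (Metric.closedBall_mem_nhds _ (half_pos hε))
      filter_upwards [this] with z hz
      rwa [dist_eq_norm] at hz
    obtain ⟨η₀, h4, h5⟩ := Metric.eventually_nhds_iff.1 (h1.and h3)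
    exact ⟨η₀, h4, fun z hz => h5 hz⟩
  have hret := fun l : ℕ => omega_return (F := F) F.continuous hx
    (η := min (1 / ((l : ℝ) + 1)) η₀) (lt_min (by positivity) hη₀) (max n₀ l)
  choose y n hn hy hz using hret
  set z : ℕ → N := fun l => F^[n l] (y l) with hzdef
  have hyt : Tendsto y atTop (𝓝 x) := by
    rw [tendsto_iff_dist_tendsto_zero]
    exact squeeze_zero (fun l => dist_nonneg) (fun l => ((hy l).le.trans (min_le_left _ _)))
      tendsto_one_div_add_atTop_nhds_zero_nat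
  have hzt : Tendsto z atTop (𝓝 x) := by
    rw [tendsto_iff_dist_tendsto_zero]
    exact squeeze_zero (fun l => dist_nonneg) (fun l => ((hz l).le.trans (min_le_left _ _)))
      tendsto_one_div_add_atTop_nhds_zero_nat
  have hyW : ∀ l, y l ∈ At.W j := fun l => (hη₀' _ ((hy l).trans_le (min_le_right _ _))).1
  have hzW : ∀ l, z l ∈ At.W j := fun l => (hη₀' _ ((hz l).trans_le (min_le_right _ _))).1
  have hyz : ∀ l, ‖extChartAt (𝓡 d) (At.ctr j) (y l) -
      extChartAt (𝓡 d) (At.ctr j) (z l)‖ ≤ ε := by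
    intro l
    have h1 := (hη₀' _ ((hy l).trans_le (min_le_right _ _))).2
    have h2 := (hη₀' _ ((hz l).trans_le (min_le_right _ _))).2
    calc ‖extChartAt (𝓡 d) (At.ctr j) (y l) - extChartAt (𝓡 d) (At.ctr j) (z l)‖
        = ‖(extChartAt (𝓡 d) (At.ctr j) (y l) - extChartAt (𝓡 d) (At.ctr j) x) -
          (extChartAt (𝓡 d) (At.ctr j) (z l) - extChartAt (𝓡 d) (At.ctr j) x)‖ := by
          congr 1; abel
      _ ≤ _ := norm_sub_le _ _
      _ ≤ ε / 2 + ε / 2 := add_le_add h1 h2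
      _ = ε := by ring
  set D : ℕ → (EE d ≃L[ℝ] EE d) := fun l =>
    G.frame (y l) * (G.e j (y l))⁻¹ * G.e j (z l) * (G.frame (z l))⁻¹ with hD
  have htr : ∀ l, G.S.Tr ((G.S.f ^ n l) (y l)) (y l) (D l) := by
    intro l
    rw [G.pow_eq]
    exact G.tr_one hε.le (hzW l) (hyW l) (hyz l)
  have huh := fun l => uh1 h (y l) (n l) (D l) ((le_max_left _ _).trans (hn l)) (htr l)
  choose Es Eu hcompl hbd hEs hEu hws hwu using huh
  -- decompose
  have hdec : ∀ l, ∃ a ∈ Es l, ∃ b ∈ Eu l,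
      a + b = G.frame (y l) ((G.e j (y l)).symm (G.e j x v)) := by
    intro l
    have : G.frame (y l) ((G.e j (y l)).symm (G.e j x v)) ∈ Es l ⊔ Eu l := by
      rw [(hcompl l).sup_eq_top]; trivial
    exact Submodule.mem_sup.1 this
  choose a ha b hb hab using hdec
  set α : ℕ → EE d := fun l => G.e j (y l) ((G.frame (y l)).symm (a l)) with hα
  set β : ℕ → EE d := fun l => G.e j (y l) ((G.frame (y l)).symm (b l)) with hβ
  have hαβ : ∀ l, α l + β l = G.e j x v := by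
    intro l
    simp only [hα, hβ]
    rw [← map_add, ← map_add, hab, ContinuousLinearEquiv.symm_apply_apply,
      ContinuousLinearEquiv.apply_symm_apply]
  have hαb : ∃ R, ∀ l, ‖α l‖ ≤ R := by
    refine ⟨|G.Kθ| * (C * (|G.Kθ| * ‖G.e j x v‖)), fun l => ?_⟩
    have h1 := (G.bound j (y l) (hyW l) ((G.frame (y l)).symm (a l))).2
    rw [ContinuousLinearEquiv.apply_symm_apply] at h1
    have h2 := (hbd l (a l) (ha l) (b l) (hb l)).1
    rw [hab] at h2
    have h3 := (G.bound j (y l) (hyW l) ((G.e j (y l)).symm (G.e j x v))).1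
    rw [ContinuousLinearEquiv.apply_symm_apply] at h3
    calc ‖α l‖ ≤ G.Kθ * ‖a l‖ := h1
      _ ≤ |G.Kθ| * ‖a l‖ := mul_le_mul_of_nonneg_right (le_abs_self _) (norm_nonneg _)
      _ ≤ |G.Kθ| * (C * (|G.Kθ| * ‖G.e j x v‖)) := by
        refine mul_le_mul_of_nonneg_left (h2.trans ?_) (abs_nonneg _)
        refine mul_le_mul_of_nonneg_left (h3.trans ?_) (by linarith)
        exact mul_le_mul_of_nonneg_right (le_abs_self _) (norm_nonneg _)
  obtain ⟨R, hR⟩ := hαb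
  obtain ⟨α₀, -, φ, hφ, hα₀⟩ := tendsto_subseq_of_bounded (Metric.isBounded_closedBall
    (x := (0 : EE d)) (r := R)) (x := α) (fun l => by
      rw [Metric.mem_closedBall, dist_zero_right]; exact hR l)
  set β₁ : EE d := G.e j x v - α₀ with hβ₁
  have hβt : Tendsto (β ∘ φ) atTop (𝓝 β₁) := by
    have : (β ∘ φ) = fun l => G.e j x v - (α ∘ φ) l := by
      funext l
      simp only [Function.comp]
      rw [← hαβ (φ l)]; abel
    rw [this]
    exact tendsto_const_nhds.sub hα₀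
  have hyt' : Tendsto (y ∘ φ) atTop (𝓝 x) := hyt.comp hφ.tendsto_atTop
  have hzt' : Tendsto (z ∘ φ) atTop (𝓝 x) := hzt.comp hφ.tendsto_atTop
  have hnl : ∀ (m : ℕ), ∀ᶠ l in atTop, m ≤ n (φ l) := by
    intro m
    filter_upwards [eventually_ge_atTop m] with l hl
    exact hl.trans ((hφ.id_le l).trans ((le_max_right _ _).trans (hn (φ l))))
  -- the two one-sided estimates with frames
  have fr1 : ∀ (z : N) (w w' : EE d) (z' : N) (K : ℝ), 0 ≤ K →
      ‖G.frame z w‖ ≤ C * K * ‖G.frame z' w'‖ → rnorm γ z w ≤ C' * K * rnorm γ z' w' := by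
    intro z w w' z' K hK hle
    have h1 := (hfm z w).1
    have h2 := (hfm z' w').2
    calc rnorm γ z w ≤ β₀ * ‖G.frame z w‖ := h1
      _ ≤ β₀ * (C * K * ‖G.frame z' w'‖) := mul_le_mul_of_nonneg_left hle hβ₀.le
      _ ≤ β₀ * (C * K * (β₀ * rnorm γ z' w')) := by
        refine mul_le_mul_of_nonneg_left (mul_le_mul_of_nonneg_left h2 ?_) hβ₀.le
        exact mul_nonneg (by linarith) hK
      _ = (β₀ ^ 2 * C) * (K * rnorm γ z' w') := by ring
      _ ≤ C' * (K * rnorm γ z' w') :=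
        mul_le_mul_of_nonneg_right (le_max_right _ _) (mul_nonneg hK (rnorm_nonneg _ _ _))
      _ = C' * K * rnorm γ z' w' := by ring
  have hcoc : ∀ (m : ℕ) (z : N) (w : EE d), G.S.coc m z w =
      G.frame (F^[m] z) (der (d := d) F^[m] z ((G.frame z).symm w)) := by
    intro m z w
    have := G.coc_frame hr m z ((G.frame z).symm w)
    rwa [ContinuousLinearEquiv.apply_symm_apply] at this
  have hcoc0 : ∀ (z : N) (w : EE d), G.S.coc 0 z w = w := fun z w => rfl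
  -- vectors at `y`
  have hey : ∀ l (w : EE d), (G.e j (y l)).symm (G.e j (y l) ((G.frame (y l)).symm w)) =
      (G.frame (y l)).symm w := fun l w => ContinuousLinearEquiv.symm_apply_apply _ _
  -- backward vectors
  have hback : ∀ l (w : EE d) (S : Submodule ℝ (EE d)),
      (∀ v ∈ S, D l (G.S.coc (n l) (y l) v) ∈ S) → w ∈ S →
      ∃ c ∈ S, (∀ m ≤ n l, G.frame (F.symm^[m] (z l)) (der (d := d) F.symm^[m] (z l)
        ((G.e j (z l)).symm (G.e j (y l) ((G.frame (y l)).symm w)))) =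
          G.S.coc (n l - m) (y l) c) := by
    intro l w S hS hw
    obtain ⟨c, hc, hcw⟩ := surj_sub (T := D l * G.S.coc (n l) (y l)) hS hw
    refine ⟨c, hc, fun m hm => ?_⟩
    have hcw' : G.frame (y l) ((G.e j (y l)).symm (G.e j (z l) ((G.frame (z l)).symm
        (G.S.coc (n l) (y l) c)))) = w := hcw
    have h1 : (G.e j (z l)).symm (G.e j (y l) ((G.frame (y l)).symm w)) =
        (G.frame (z l)).symm (G.S.coc (n l) (y l) c) := by
      rw [← hcw', ContinuousLinearEquiv.symm_apply_apply, ContinuousLinearEquiv.apply_symm_apply,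
        ContinuousLinearEquiv.symm_apply_apply]
    rw [h1, hcoc (n l), hcoc (n l - m)]
    have h2 : z l = F^[m] (F^[n l - m] (y l)) := by
      rw [hzdef, ← Function.iterate_add_apply, Nat.add_sub_cancel' hm]
    have h3 : der (d := d) F^[n l] (y l) ((G.frame (y l)).symm c) =
        der (d := d) F^[m] (F^[n l - m] (y l))
          (der (d := d) F^[n l - m] (y l) ((G.frame (y l)).symm c)) := by
      have h4 := OmegaStab.FinHyp.der_comp (d := d)
        ((contMDiff_iter hr F m).mdifferentiable one_ne_zero)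
        ((contMDiff_iter hr F (n l - m)).mdifferentiable one_ne_zero) (y l)
      rw [← Function.iterate_add, Nat.add_sub_cancel' hm] at h4
      exact congrArg (fun T : EE d →L[ℝ] EE d => T ((G.frame (y l)).symm c)) h4
    have h5 : (G.frame (z l)).symm (G.frame (F^[n l] (y l)) (der (d := d) F^[n l] (y l)
        ((G.frame (y l)).symm c))) = der (d := d) F^[n l] (y l) ((G.frame (y l)).symm c) :=
      ContinuousLinearEquiv.symm_apply_apply _ _
    rw [h5, h3, h2, der_symm_iter hr, symm_iter]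
  refine ⟨(G.e j x).symm α₀, (G.e j x).symm β₁, ?_, ?_, ?_, ?_, ?_⟩
  · rw [← map_add, hβ₁, add_sub_cancel, ContinuousLinearEquiv.symm_apply_apply]
  · intro m
    have := limit G γ (contMDiff_iter hr F m) contMDiff_id hj hyt' (fun l => hyW _) hα₀
      (C' * Real.exp (-δ * m)) (by
        filter_upwards [hnl m] with l hl
        rw [rnorm_id]
        refine fr1 _ _ _ _ _ (Real.exp_pos _).le ?_
        have h1 := hws (φ l) (a (φ l)) (ha (φ l)) 0 m (Nat.zero_le _) hl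
        rw [hcoc0, hcoc m, Nat.cast_zero, sub_zero] at h1
        simp only [Function.comp, hα]
        rw [hey, ContinuousLinearEquiv.apply_symm_apply]
        exact h1)
    rwa [rnorm_id] at this
  · intro m
    have := limit G γ contMDiff_id (contMDiff_iter hr F.symm m) hj hzt' (fun l => hzW _) hα₀
      (C' * Real.exp (-δ * m)) (by
        filter_upwards [hnl m] with l hl
        rw [rnorm_id]
        refine fr1 _ _ _ _ _ (Real.exp_pos _).le ?_
        obtain ⟨c, hc, hcc⟩ := hback (φ l) (a (φ l)) (Es (φ l)) (hEs (φ l)) (ha (φ l))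
        have h1 := hws (φ l) c hc (n (φ l) - m) (n (φ l)) (Nat.sub_le _ _) le_rfl
        rw [Nat.cast_sub hl, sub_sub_cancel] at h1
        have h2 := hcc 0 (Nat.zero_le _)
        have h3 := hcc m hl
        rw [Nat.sub_zero] at h2
        simp only [Function.comp, hα]
        rw [h3]
        refine le_trans (le_of_eq ?_) h1
        rw [← h2]
        congr 2
        rw [Function.iterate_zero, OmegaStab.FinHyp.der_id]; rfl)
    rwa [rnorm_id] at this
  · intro m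
    have := limit G γ (contMDiff_iter hr F.symm m) contMDiff_id hj hzt' (fun l => hzW _) hβt
      (C' * Real.exp (-δ * m)) (by
        filter_upwards [hnl m] with l hl
        rw [rnorm_id]
        refine fr1 _ _ _ _ _ (Real.exp_pos _).le ?_
        obtain ⟨c, hc, hcc⟩ := hback (φ l) (b (φ l)) (Eu (φ l)) (hEu (φ l)) (hb (φ l))
        have h1 := hwu (φ l) c hc (n (φ l) - m) (n (φ l)) (Nat.sub_le _ _) le_rfl
        rw [Nat.cast_sub hl, sub_sub_cancel] at h1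
        have h2 := hcc 0 (Nat.zero_le _)
        have h3 := hcc m hl
        rw [Nat.sub_zero] at h2
        simp only [Function.comp, hβ]
        rw [h3]
        refine le_trans h1 (le_of_eq ?_)
        rw [← h2]
        congr 3
        rw [Function.iterate_zero, OmegaStab.FinHyp.der_id]; rfl)
    rwa [rnorm_id] at this
  · intro m
    have := limit G γ contMDiff_id (contMDiff_iter hr F m) hj hyt' (fun l => hyW _) hβt
      (C' * Real.exp (-δ * m)) (by
        filter_upwards [hnl m] with l hl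
        rw [rnorm_id]
        refine fr1 _ _ _ _ _ (Real.exp_pos _).le ?_
        have h1 := hwu (φ l) (b (φ l)) (hb (φ l)) 0 m (Nat.zero_le _) hl
        rw [hcoc0, hcoc m, Nat.cast_zero, sub_zero] at h1
        simp only [Function.comp, hβ]
        rw [hey, ContinuousLinearEquiv.apply_symm_apply]
        exact h1)
    rwa [rnorm_id] at this

end Pool.Agent.OmegaPS

end
end
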