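import Pool.Agent.Work.MP_814647_an.Bd.B08
import Pool.Agent.Work.MP_814647_an.PS.Geo2
import Pool.Agent.Work.MP_814647_an.ModelUse
import Pool.Agent.Work.MP_814647_an.Bd.B01

/-! Bundle of small proof modules (one section per former module). -/

section

/-!
# Products: return times near a transverse homoclinic orbit of a periodic orbit (GE6, item 41)
-/

open Set Filter Topology Function
open scoped Manifold ContDiff

noncomputable section

namespace Pool.Agent.OmegaPS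

open Pool.Agent.OmegaStab (EE Dyn IsFam PP HypAt crTopology HypLin ConjClass)
open Pool.Agent.OmegaStab.FinHyp (der)
open Pool.Agent.OmegaStability

namespace ReturnMod

open ReturnHom

section Hyp

variable {d : ℕ} {N : Type*} [MetricSpace N] [ChartedSpace (EE d) N] {r : ℕ∞}
  [IsManifold (𝓡 d) ∞ N]

open Pool.Agent.OmegaStab.FinHyp (mdiff mdiff_symm mdiff_iter der_comp der_id)

/-- A periodic point in a hyperbolic set is hyperbolic. -/
theorem hypAt_per (hr : 1 ≤ r) (A : Dyn d N r) {Λ : Set N} (hΛ1 : ∀ x ∈ Λ, A x ∈ Λ)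
    (hΛ2 : ∀ x ∈ Λ, A.symm x ∈ Λ) {Es Eu : TFamily (EE d) N}
    (hcp : ∀ x ∈ Λ, IsCompl (Es x) (Eu x)) (hs : InvariantOver A Es Λ)
    (hu : InvariantOver A Eu Λ) {γ : RMetric (EE d) N} {c μ : ℝ} (hc0 : 0 < c) (hμ : 0 < μ)
    (hμ1 : μ < 1) (h1 : ContractedOver A γ Es Λ c μ) (h2 : ContractedOver A.symm γ Eu Λ c μ)
    {p : N} (hp : p ∈ Λ) (hper : p ∈ periodicPts A) : HypAt (d := d) A p := by
  set k := minimalPeriod A p with hk
  have hk0 : 0 < k := minimalPeriod_pos_of_mem_periodicPts hper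
  have hfp : A^[k] p = p := iterate_minimalPeriod
  have hfp' : A.symm^[k] p = p := by
    have h3 : A.symm^[k] (A^[k] p) = p :=
      (Function.LeftInverse.iterate (fun z => A.symm_apply_apply z) k) p
    rwa [hfp] at h3
  refine ⟨hper, ?_⟩
  rw [← hk, ← Pool.Agent.OmegaStab.FinHyp.der_eq_fderiv (mdiff_iter (mdiff hr A) k) hfp]
  intro θ v w hv hw
  obtain ⟨β, hβ0, hβ, -⟩ := Pool.Agent.OmegaStab.FinHyp.metric_comparison γ p
  have hD' : ∀ u, der (d := d) A.symm^[k] p (der (d := d) A^[k] p u) = u := by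
    intro u
    have := der_symm_iter hr A k p u
    rwa [hfp] at this
  obtain ⟨hv', hw'⟩ := rot_inv hD' hv hw
  have e1 : ∀ n : ℕ, der (d := d) A^[k * n] p = der (d := d) A^[k] p ^ n := fun n =>
    Pool.Agent.OmegaStab.FinHyp.der_iter_mul (mdiff hr A) (x := p) (k := k) hfp n
  have e2 : ∀ n : ℕ, der (d := d) A.symm^[k * n] p = der (d := d) A.symm^[k] p ^ n := fun n =>
    Pool.Agent.OmegaStab.FinHyp.der_iter_mul (mdiff_symm hr A) (x := p) (k := k) hfp' n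
  have e3 : ∀ n : ℕ, A^[k * n] p = p := fun n => by
    rw [Function.iterate_mul]; exact Function.iterate_fixed hfp n
  have e4 : ∀ n : ℕ, A.symm^[k * n] p = p := fun n => by
    rw [Function.iterate_mul]; exact Function.iterate_fixed hfp' n
  have hkn : ∀ n : ℕ, n ≤ k * n := fun n => Nat.le_mul_of_pos_left n hk0
  have key : ∀ u : EE d, (∀ n : ℕ, ‖(der (d := d) A^[k] p ^ n) u‖ ≤ ‖v‖ + ‖w‖) →
      (∀ n : ℕ, ‖(der (d := d) A.symm^[k] p ^ n) u‖ ≤ ‖v‖ + ‖w‖) → u = 0 := by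
    intro u hu1 hu2
    refine eq_zero_of_bounded hr A hΛ1 hΛ2 hcp hs hu hc0 hμ hμ1 h1 h2 hp u
      (B := β * (‖v‖ + ‖w‖)) (fun n => ⟨k * n, hkn n, ?_⟩) (fun n => ⟨k * n, hkn n, ?_⟩)
    · rw [e1, e3]
      exact (hβ _).trans (mul_le_mul_of_nonneg_left (hu1 n) hβ0.le)
    · rw [e2, e4]
      exact (hβ _).trans (mul_le_mul_of_nonneg_left (hu2 n) hβ0.le)
  exact ⟨key v (fun n => (rot_bound hv hw n).1) (fun n => (rot_bound hv' hw' n).1),
    key w (fun n => (rot_bound hv hw n).2) (fun n => (rot_bound hv' hw' n).2)⟩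

end Hyp

section Main

open Pool.Agent.OmegaStab.FinHyp (mdiff mdiff_symm mdiff_iter der_comp der_id)
open Pool.Agent.OmegaStab (inCharts LocModel bwdBdd fwdBdd)

variable {d : ℕ} {N : Type*} [MetricSpace N] [ChartedSpace (EE d) N] {r : ℕ∞}
  [IsManifold (𝓡 d) ∞ N]

theorem aux [CompactSpace N] (hr : 1 ≤ r) (A : Dyn d N r) {p : N} (W : LocModel (d := d) A p)
    {q : N} {ℓ₀ : ℕ} {P : ℤ → N} (hP0 : P 0 = q)
    (hPA : ∀ j, A (P j) = P (j + 1))
    (hPa' : ∀ n : ℕ, P (-(W.m * n : ℕ)) ∈ (extChartAt (𝓡 d) p).source ∧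
      ‖W.ψ (P (-(W.m * n : ℕ)))‖ < W.ρ)
    (hPb' : ∀ n : ℕ, P ((ℓ₀ + W.m * n : ℕ)) ∈ (extChartAt (𝓡 d) p).source ∧
      ‖W.ψ (P ((ℓ₀ + W.m * n : ℕ)))‖ < W.ρ)
    {ρ₀ : ℝ} (hρ₀ : 0 < ρ₀) (hfar : ∀ j : ℤ, j ≠ 0 → 3 * ρ₀ ≤ dist (P j) q)
    (htr : ∀ v ∈ bwdBdd W.G (fun n : ℕ => W.ψ (P (-(W.m * n : ℕ)))),
      fderiv ℝ (fun u => W.ψ (A^[ℓ₀] (W.ι u))) (W.ψ q) v ∈
        fwdBdd W.G (fun n : ℕ => W.ψ (P ((ℓ₀ + W.m * n : ℕ)))) → v = 0)
    {ρ : ℝ} (hρ : 0 < ρ) :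
    ∃ n₀ : ℕ, ∀ (k : ℕ) (g : ℕ → ℕ), 0 < k → (∀ i < k, n₀ ≤ g i ∧ g i ≡ ℓ₀ [MOD W.m]) →
      ∃ x : ℕ → N, x k = x 0 ∧ ∀ i < k, dist (x i) q ≤ ρ ∧ A^[g i] (x i) = x (i + 1) ∧
        ∀ t, 0 < t → t < g i → ρ₀ ≤ dist (A^[t] (x i)) q := by
  have hm := W.hm
  set a : ℕ → W.Es × W.Eu := fun n => W.ψ (P (-(W.m * n : ℕ))) with ha
  set b : ℕ → W.Es × W.Eu := fun n => W.ψ (P ((ℓ₀ + W.m * n : ℕ))) with hb
  set T : W.Es × W.Eu → W.Es × W.Eu := fun u => W.ψ (A^[ℓ₀] (W.ι u)) with hT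
  have hPa : ∀ n : ℕ, P (-(W.m * n : ℕ)) ∈ (extChartAt (𝓡 d) p).source ∧ ‖a n‖ < W.ρ := hPa'
  have hPb : ∀ (n : ℕ), P ((ℓ₀ + W.m * n : ℕ)) ∈
      (extChartAt (𝓡 d) p).source ∧ ‖b n‖ < W.ρ := hPb'
  have hιa : ∀ n, W.ι (a n) = P (-(W.m * n : ℕ)) := fun n => W.ι_ψ (hPa n).1
  have hιb : ∀ n, W.ι (b n) = P ((ℓ₀ + W.m * n : ℕ)) := fun n => W.ι_ψ (hPb n).1
  have hιa0 : W.ι (a 0) = q := by rw [hιa]; simp [hP0]
  have ha0 : a 0 = W.ψ q := by simp [ha, hP0]
  have hqs : q ∈ (extChartAt (𝓡 d) p).source := by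
    have := (hPa 0).1
    simpa [hP0] using this
  have hit : ∀ (n : ℕ) (j : ℤ), A^[n] (P j) = P (j + n) := fun n j => iterate_orbit hPA n j
  have hitq : ∀ n : ℕ, A^[n] q = P n := by
    intro n
    rw [← hP0, hit, zero_add]
  have hTs : A^[ℓ₀] q ∈ (extChartAt (𝓡 d) p).source := by
    rw [hitq]
    have := (hPb 0).1
    simpa using this
  -- hypotheses of the horseshoe theorem
  have hGb : ∀ n, W.G (b n) = b (n + 1) := by
    intro n
    change W.G (W.ψ _) = W.ψ _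
    rw [W.G_ψ (hPb n).1, hit]
    congr 2
    push_cast
    ring
  have hGa : ∀ n, W.G (a (n + 1)) = a n := by
    intro n
    change W.G (W.ψ _) = W.ψ _
    rw [W.G_ψ (hPa (n + 1)).1, hit]
    congr 2
    push_cast
    ring
  have hTab : T (a 0) = b 0 := by
    change W.ψ (A^[ℓ₀] (W.ι (a 0))) = W.ψ _
    rw [hιa0, hitq]
    simp
  have hTC : ContDiffAt ℝ 1 T (a 0) := by
    have h1 := Pool.Agent.OmegaStab.contDiffAt_inCharts_iterate hr A ℓ₀ p p q hqs hTs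
    have hca : extChartAt (𝓡 d) p p + W.Θ.symm (a 0) = extChartAt (𝓡 d) p q := by
      rw [ha0]
      change extChartAt (𝓡 d) p p + W.Θ.symm (W.Θ (extChartAt (𝓡 d) p q -
        extChartAt (𝓡 d) p p)) = _
      rw [W.Θ.symm_apply_apply, add_sub_cancel]
    rw [← hca] at h1
    have h3 : ContDiffAt ℝ 1 (fun u : W.Es × W.Eu => extChartAt (𝓡 d) p p + W.Θ.symm u) (a 0) :=
      contDiffAt_const.add W.Θ.symm.contDiff.contDiffAt
    have h4 : ContDiffAt ℝ 1 ((inCharts (d := d) p p A^[ℓ₀]) ∘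
      (fun u : W.Es × W.Eu => extChartAt (𝓡 d) p p + W.Θ.symm u)) (a 0) := h1.comp (a 0) h3
    exact W.Θ.contDiff.contDiffAt.comp (a 0) (h4.sub contDiffAt_const)
  rw [← ha0] at htr
  -- the precision
  obtain ⟨ε₁, hε₁, hε₁'⟩ := exists_eps A.continuous W (ℓ₀ + W.m) (lt_min hρ hρ₀)
  obtain ⟨ε₂, hε₂, hε₂'⟩ : ∃ ε₂ : ℝ, 0 < ε₂ ∧ ∀ u, ‖u - a 0‖ ≤ ε₂ →
      A^[ℓ₀] (W.ι u) ∈ (extChartAt (𝓡 d) p).source := by
    have haΩ : a 0 ∈ W.Ω := W.ball_sub (hPa 0).2.le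
    have hιc : ContinuousAt W.ι (a 0) := W.continuousOn_ι.continuousAt (W.hΩ.mem_nhds haΩ)
    have h1 : ∀ᶠ u in 𝓝 (a 0), A^[ℓ₀] (W.ι u) ∈ (extChartAt (𝓡 d) p).source := by
      have h2 : ContinuousAt (fun u => A^[ℓ₀] (W.ι u)) (a 0) :=
        (A.continuous.iterate ℓ₀).continuousAt.comp hιc
      refine h2.eventually ((isOpen_extChartAt_source (I := 𝓡 d) p).mem_nhds ?_)
      change A^[ℓ₀] (W.ι (a 0)) ∈ _
      rw [hιa0]
      exact hTs
    obtain ⟨δ, hδ, h3⟩ := Metric.eventually_nhds_iff.1 h1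
    refine ⟨δ / 2, half_pos hδ, fun u hu => h3 ?_⟩
    rw [dist_eq_norm]
    linarith
  obtain ⟨n₁, hn₁1, hn₁⟩ := W.hyp'.horseshoe_per W.hΩ W.hball W.smooth' one_pos
    (fun _ : Fin 1 => b) a (fun _ n => (hPb n).2) (fun _ => hGb) (fun n => (hPa n).2) hGa
    (fun _ => T) (fun _ => hTC) (fun _ => hTab) (fun _ => htr) (lt_min hε₁ hε₂)
  refine ⟨ℓ₀ + W.m * (n₁ + 1), fun k g hk hg => ?_⟩
  have hkne : NeZero k := ⟨hk.ne'⟩
  -- the codes
  set L' : ℕ → ℕ := fun i => (g i - ℓ₀) / W.m with hL'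
  have hgi : ∀ i < k, g i = ℓ₀ + W.m * L' i := by
    intro i hi
    have h1 := (hg i hi).1
    have h2 : ℓ₀ ≤ g i := le_trans (Nat.le_add_right _ _) h1
    have h3 : W.m ∣ g i - ℓ₀ := (Nat.modEq_iff_dvd' h2).1 (hg i hi).2.symm
    have h4 := Nat.mul_div_cancel' h3
    change g i = ℓ₀ + W.m * ((g i - ℓ₀) / W.m)
    omega
  have hLi : ∀ i < k, n₁ ≤ L' i := by
    intro i hi
    have h1 := (hg i hi).1
    change n₁ ≤ (g i - ℓ₀) / W.m
    rw [Nat.le_div_iff_mul_le hm]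
    have h2 : W.m * (n₁ + 1) = n₁ * W.m + W.m := by ring
    omega
  obtain ⟨z, hz⟩ := hn₁ k (fun _ => 0) (fun j => L' (j - 1).val) hk
    (fun j => hLi _ (ZMod.val_lt _))
  set l : ZMod k → ℕ := fun j => L' (j - 1).val with hl
  have hball : ∀ j, ∀ i ≤ l j, ‖W.G^[i] (z j)‖ ≤ W.ρ := fun j i hi => ((hz j).2.1 i hi).1
  have hιG : ∀ j, ∀ i ≤ l j, A^[W.m * i] (W.ι (z j)) = W.ι (W.G^[i] (z j)) := by
    intro j i
    induction i with
    | zero => intro _; rfl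
    | succ i ih =>
      intro hi
      rw [Nat.mul_succ, Nat.add_comm, Function.iterate_add_apply, ih (by omega),
        Function.iterate_succ_apply' W.G i, W.ι_G (W.ball_sub (hball j i (by omega)))]
  set X : ZMod k → N := fun j => W.ι (W.G^[l j] (z j)) with hX
  have hXstep : ∀ j, A^[ℓ₀] (X j) = W.ι (z (j + 1)) := by
    intro j
    have h1 := (hz j).2.2.1
    have h2 := (hz j).2.2.2
    rw [← h2]
    change _ = W.ι (W.ψ (A^[ℓ₀] (W.ι (W.G^[l j] (z j)))))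
    rw [W.ι_ψ (hε₂' _ (h1.trans (min_le_right _ _)))]
  have hXnear : ∀ j, ∀ t ≤ ℓ₀ + W.m, dist (A^[t] (X j)) (P t) ≤ min ρ ρ₀ := by
    intro j t ht
    have h1 := hε₁' t ht (W.G^[l j] (z j)) (a 0) (hball j _ le_rfl) (hPa 0).2.le
      ((hz j).2.2.1.trans (min_le_left _ _))
    rwa [hιa0, hitq] at h1
  refine ⟨fun i => X (i : ZMod k), ?_, fun i hi => ?_⟩
  · simp
  have hval : ((i : ZMod k) + 1 - 1).val = i := by
    rw [add_sub_cancel_right, ZMod.val_natCast_of_lt hi]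
  have hli : l ((i : ZMod k) + 1) = L' i := by
    change L' ((i : ZMod k) + 1 - 1).val = L' i
    rw [hval]
  have hstep := hXstep (i : ZMod k)
  have hcast : ((i + 1 : ℕ) : ZMod k) = (i : ZMod k) + 1 := by push_cast; rfl
  refine ⟨?_, ?_, ?_⟩
  · have h1 := hXnear (i : ZMod k) 0 (Nat.zero_le _)
    rw [Nat.cast_zero, hP0] at h1
    exact h1.trans (min_le_left _ _)
  · change A^[g i] (X (i : ZMod k)) = X ((i + 1 : ℕ) : ZMod k)
    rw [hcast, hgi i hi, Nat.add_comm, Function.iterate_add_apply, hstep, ← hli]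
    exact hιG _ _ le_rfl
  · intro t ht0 htg
    change ρ₀ ≤ dist (A^[t] (X (i : ZMod k))) q
    have hmain : ∃ j : ℤ, j ≠ 0 ∧ dist (A^[t] (X (i : ZMod k))) (P j) ≤ ρ₀ := by
      by_cases hcase : t ≤ ℓ₀
      · refine ⟨t, by omega, ?_⟩
        exact (hXnear _ t (by omega)).trans (min_le_right _ _)
      · rw [not_le] at hcase
        set e := t - ℓ₀ with he
        have hme := Nat.mod_add_div e W.m
        have hmlt := Nat.mod_lt e hm
        set i' := e / W.m with hi'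
        set s' := e % W.m with hs'
        have hte : t = s' + (W.m * i' + ℓ₀) := by omega
        have hi'L : i' < L' i := by
          have h1 := hgi i hi
          have h2 : W.m * i' < W.m * L' i := by omega
          exact lt_of_mul_lt_mul_left h2 (Nat.zero_le _)
        have hAt : A^[t] (X (i : ZMod k)) = A^[s'] (W.ι (W.G^[i'] (z ((i : ZMod k) + 1)))) := by
          rw [hte, Function.iterate_add_apply, Function.iterate_add_apply, hstep,
            hιG _ _ (by rw [hli]; exact hi'L.le)]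
        rw [hAt]
        have hor := ((hz ((i : ZMod k) + 1)).2.1 i' (by
          change i' ≤ l ((i : ZMod k) + 1)
          rw [hli]; exact hi'L.le)).2
        rcases hor with h1 | h1
        · refine ⟨((ℓ₀ + W.m * i' : ℕ) : ℤ) + s', ?_, ?_⟩
          · rcases Nat.eq_zero_or_pos i' with h0 | h0
            · rw [h0, Nat.mul_zero]
              have h3 : 0 < s' := by
                rw [h0, Nat.mul_zero] at hte
                omega
              omega
            · have h2 : W.m * 1 ≤ W.m * i' := Nat.mul_le_mul_left _ h0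
              omega
          · have h2 := hε₁' s' (by omega) _ (b i') (hball _ i' (by rw [hli]; exact hi'L.le))
              (hPb _).2.le (by
                have h3 : ‖W.G^[i'] (z ((i : ZMod k) + 1)) - b i'‖ ≤ min ε₁ ε₂ := h1
                exact h3.trans (min_le_left _ _))
            rw [hιb, hit] at h2
            exact h2.trans (min_le_right _ _)
        · refine ⟨-((W.m * (L' i - i') : ℕ) : ℤ) + s', ?_, ?_⟩
          · have h2 : W.m * 1 ≤ W.m * (L' i - i') := Nat.mul_le_mul_left _ (by omega)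
            omega
          · have h2 := hε₁' s' (by omega) _ (a (L' i - i')) (hball _ i' (by
              rw [hli]; exact hi'L.le)) (hPa _).2.le (by
              have h3 : ‖W.G^[i'] (z ((i : ZMod k) + 1)) - a (l ((i : ZMod k) + 1) - i')‖ ≤
                min ε₁ ε₂ := h1
              rw [hli] at h3
              exact h3.trans (min_le_left _ _))
            rw [hιa, hit] at h2
            exact h2.trans (min_le_right _ _)
    obtain ⟨j, hj0, hj⟩ := hmain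
    have h1 := hfar j hj0
    have h2 := dist_triangle_left (P j) q (A^[t] (X (i : ZMod k)))
    linarith

theorem transverse [CompactSpace N] (hr : 1 ≤ r) (A : Dyn d N r) {p : N}
    (W : LocModel (d := d) A p) (γ : RMetric (EE d) N)
    {q : N} {ℓ₀ : ℕ} {P : ℤ → N} (hP0 : P 0 = q)
    (hPA : ∀ j, A (P j) = P (j + 1))
    (hPa : ∀ n : ℕ, P (-(W.m * n : ℕ)) ∈ (extChartAt (𝓡 d) p).source ∧
      ‖W.ψ (P (-(W.m * n : ℕ)))‖ < W.ρ)
    (hPb : ∀ n : ℕ, P ((ℓ₀ + W.m * n : ℕ)) ∈ (extChartAt (𝓡 d) p).source ∧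
      ‖W.ψ (P ((ℓ₀ + W.m * n : ℕ)))‖ < W.ρ)
    (hz : ∀ (v : EE d) (B : ℝ),
      (∀ n : ℕ, ∃ k : ℕ, n ≤ k ∧ rnorm γ (A^[k] q) (der (d := d) A^[k] q v) ≤ B) →
      (∀ n : ℕ, ∃ k : ℕ, n ≤ k ∧ rnorm γ (A.symm^[k] q) (der (d := d) A.symm^[k] q v) ≤ B) →
      v = 0) (v : W.Es × W.Eu)
    (hv : v ∈ bwdBdd W.G (fun n : ℕ => W.ψ (P (-(W.m * n : ℕ)))))
    (hv' : fderiv ℝ (fun u => W.ψ (A^[ℓ₀] (W.ι u))) (W.ψ q) v ∈
        fwdBdd W.G (fun n : ℕ => W.ψ (P ((ℓ₀ + W.m * n : ℕ))))) : v = 0 := by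
  have hm := W.hm
  obtain ⟨β, hβ, hβ'⟩ := exists_tv_bound W γ
  obtain ⟨w, hw0, hw, C, hwC⟩ := hv
  obtain ⟨w', hw'0, hw', C', hw'C⟩ := hv'
  have hit : ∀ (n : ℕ) (j : ℤ), A^[n] (P j) = P (j + n) := fun n j => iterate_orbit hPA n j
  have hitq : ∀ n : ℕ, A^[n] q = P n := by
    intro n
    rw [← hP0, hit, zero_add]
  have hmd : ∀ n : ℕ, MDifferentiable (𝓡 d) (𝓡 d) A^[n] := fun n => mdiff_iter (mdiff hr A) n
  have hqs : q ∈ (extChartAt (𝓡 d) p).source := by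
    have := (hPa 0).1
    simpa [hP0] using this
  -- one backward step
  have hb1 : ∀ n : ℕ, der (d := d) A^[W.m] (P (-(W.m * (n + 1) : ℕ)))
      (tv W (P (-(W.m * (n + 1) : ℕ))) (w (n + 1))) = tv W (P (-(W.m * n : ℕ))) (w n) := by
    intro n
    have e1 : A^[W.m] (P (-(W.m * (n + 1) : ℕ))) = P (-(W.m * n : ℕ)) := by
      rw [hit]
      congr 1
      push_cast
      ring
    have h1 := tv_fderiv W (hmd W.m) (hPa (n + 1)).1 (by rw [e1]; exact (hPa n).1) (w (n + 1))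
    rw [e1] at h1
    rw [← h1]
    congr 1
    exact hw n
  have hb2 : ∀ n : ℕ, der (d := d) A^[W.m * n] (P (-(W.m * n : ℕ)))
      (tv W (P (-(W.m * n : ℕ))) (w n)) = tv W q (w 0) := by
    intro n
    induction n with
    | zero => simp [der_id, hP0]
    | succ n ih =>
      rw [← ih, ← hb1 n]
      have e1 : A^[W.m] (P (-(W.m * (n + 1) : ℕ))) = P (-(W.m * n : ℕ)) := by
        rw [hit]
        congr 1
        push_cast
        ring
      rw [show W.m * (n + 1) = W.m * n + W.m by ring, Function.iterate_add,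
        der_comp (hmd _) (hmd _)]
      rw [show W.m * n + W.m = W.m * (n + 1) by ring, e1]
      rfl
  have hb3 : ∀ n : ℕ, A.symm^[W.m * n] q = P (-(W.m * n : ℕ)) := by
    intro n
    have e1 : A^[W.m * n] (P (-(W.m * n : ℕ))) = q := by
      rw [hit, neg_add_cancel, hP0]
    rw [← e1]
    exact (Function.LeftInverse.iterate (fun z => A.symm_apply_apply z) (W.m * n)) _
  have hb4 : ∀ n : ℕ, der (d := d) A.symm^[W.m * n] q (tv W q (w 0)) =
      tv W (P (-(W.m * n : ℕ))) (w n) := by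
    intro n
    have e1 : A^[W.m * n] (P (-(W.m * n : ℕ))) = q := by
      rw [hit, neg_add_cancel, hP0]
    have h1 := der_symm_iter hr A (W.m * n) (P (-(W.m * n : ℕ)))
      (tv W (P (-(W.m * n : ℕ))) (w n))
    rw [hb2 n, e1] at h1
    exact h1
  -- the transit
  have ht1 : der (d := d) A^[ℓ₀] q (tv W q (w 0)) = tv W (P ((ℓ₀ + W.m * 0 : ℕ))) (w' 0) := by
    have e1 : A^[ℓ₀] q = P ((ℓ₀ + W.m * 0 : ℕ)) := by
      rw [hitq]; simp
    have h1 := tv_fderiv W (hmd ℓ₀) hqs (by rw [e1]; exact (hPb 0).1) (w 0)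
    rw [← h1, e1, hw'0, hw0]
  -- forward steps
  have hf1 : ∀ n : ℕ, der (d := d) A^[W.m] (P ((ℓ₀ + W.m * n : ℕ)))
      (tv W (P ((ℓ₀ + W.m * n : ℕ))) (w' n)) =
        tv W (P ((ℓ₀ + W.m * (n + 1) : ℕ))) (w' (n + 1)) := by
    intro n
    have e1 : A^[W.m] (P ((ℓ₀ + W.m * n : ℕ))) = P ((ℓ₀ + W.m * (n + 1) : ℕ)) := by
      rw [hit]
      congr 1
      push_cast
      ring
    have h1 := tv_fderiv W (hmd W.m) (hPb n).1 (by rw [e1]; exact (hPb (n + 1)).1) (w' n)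
    rw [e1] at h1
    rw [← h1]
    congr 1
    exact hw' n
  have hf2 : ∀ n : ℕ, der (d := d) A^[ℓ₀ + W.m * n] q (tv W q (w 0)) =
      tv W (P ((ℓ₀ + W.m * n : ℕ))) (w' n) := by
    intro n
    induction n with
    | zero => exact ht1
    | succ n ih =>
      rw [← hf1 n, ← ih]
      rw [show ℓ₀ + W.m * (n + 1) = W.m + (ℓ₀ + W.m * n) by ring, Function.iterate_add,
        der_comp (hmd _) (hmd _), hitq]
      rfl
  have h0 : tv W q (w 0) = 0 := by
    refine hz _ (β * max C C') (fun n => ⟨ℓ₀ + W.m * n, ?_, ?_⟩)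
      (fun n => ⟨W.m * n, ?_, ?_⟩)
    · have : 1 * n ≤ W.m * n := Nat.mul_le_mul_right _ hm
      omega
    · rw [hf2, hitq]
      refine (hβ' _ (hPb n).1 (hPb n).2.le _).trans ?_
      exact mul_le_mul_of_nonneg_left ((hw'C n).trans (le_max_right _ _)) hβ.le
    · have : 1 * n ≤ W.m * n := Nat.mul_le_mul_right _ hm
      omega
    · rw [hb4, hb3]
      refine (hβ' _ (hPa n).1 (hPa n).2.le _).trans ?_
      exact mul_le_mul_of_nonneg_left ((hwC n).trans (le_max_left _ _)) hβ.le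
  rw [← hw0]
  exact tv_eq_zero W hqs h0

end Main

end ReturnMod

open Pool.Agent.OmegaStab (exists_locModel zpow_add_apply zpow_natCast_apply zpow_neg_natCast_apply
  apply_zpow zpow_zero_apply Orb Orb_finite Orb_symm zpow_mem_Orb mem_Orb_of_zpow symm_periodicPts
  exists_iterate_follow mem_Orb_self mem_Orb_of_tendsto periodic_of_mem_Orb eventually_close) in
theorem returnSeqMod_of_homoclinic {d : ℕ} {N : Type*} [MetricSpace N] [ChartedSpace (EE d) N]
    {r : ℕ∞} [IsManifold (𝓡 d) ∞ N] [CompactSpace N] (hr : 1 ≤ r) (A : Dyn d N r)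
    (h : HasTransverseHomoclinicOrbit (EE d) A A.symm) : ReturnSeqMod A := by
  obtain ⟨p, q₀, hp, hqp, hqf, hqb, Es, Eu, -, -, hcp, hs, hu, γ, c, μ, hc0, hμ, hμ1, h1, h2⟩ := h
  set O : Set N := {x | ∃ n : ℕ, x = A^[n] q₀ ∨ x = A.symm^[n] q₀} with hO
  have hO1 : MapsTo A O O := by
    rintro x ⟨n, rfl | rfl⟩
    · exact ⟨n + 1, Or.inl (Function.iterate_succ_apply' A n q₀).symm⟩
    · cases n with
      | zero => exact ⟨1, Or.inl rfl⟩
      | succ n =>
        refine ⟨n, Or.inr ?_⟩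
        rw [Function.iterate_succ_apply']
        exact A.apply_symm_apply _
  have hO2 : MapsTo A.symm O O := by
    rintro x ⟨n, rfl | rfl⟩
    · cases n with
      | zero => exact ⟨1, Or.inr rfl⟩
      | succ n =>
        refine ⟨n, Or.inl ?_⟩
        rw [Function.iterate_succ_apply']
        exact A.symm_apply_apply _
    · exact ⟨n + 1, Or.inr (Function.iterate_succ_apply' A.symm n q₀).symm⟩
  have hΛ1 : ∀ x ∈ closure O, A x ∈ closure O := fun x hx =>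
    map_mem_closure A.continuous hx hO1
  have hΛ2 : ∀ x ∈ closure O, A.symm x ∈ closure O := fun x hx =>
    map_mem_closure A.symm.continuous hx hO2
  set H : N ≃ₜ N := A.toHomeomorph with hH
  have hHA : ∀ x, H x = A x := fun x => rfl
  have hHA' : ∀ x, H.symm x = A.symm x := fun x => rfl
  have hHn : ∀ (n : ℕ) x, H^[n] x = A^[n] x := fun n x => rfl
  have hHn' : ∀ (n : ℕ) x, H.symm^[n] x = A.symm^[n] x := fun n x => rfl
  have hpH : p ∈ periodicPts H := hp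
  have hqf' : Tendsto (fun n : ℕ => H^[n] q₀) atTop (𝓝ˢ (Orb H p)) := hqf
  have hqb' : Tendsto (fun n : ℕ => H.symm^[n] q₀) atTop (𝓝ˢ (Orb H p)) := hqb
  have hpΛ : p ∈ closure O := by
    rw [Metric.mem_closure_iff]
    intro ε hε
    obtain ⟨l, hl⟩ := exists_iterate_follow H hpH hqf' (ε / 2) (half_pos hε)
    refine ⟨A^[l + 0] q₀, ⟨l + 0, Or.inl rfl⟩, ?_⟩
    have h3 := hl 0
    rw [dist_comm]
    change dist (A^[l + 0] q₀) p ≤ ε / 2 at h3
    linarith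
  have hyp : HypAt (d := d) A p :=
    ReturnMod.hypAt_per hr A hΛ1 hΛ2 hcp hs hu hc0 hμ hμ1 h1 h2 hpΛ hp
  obtain ⟨W⟩ := exists_locModel hr A p hyp
  obtain ⟨l₁, hl₁⟩ := Pool.Agent.OmegaStab.LocModel.fwd_seq (h := H) W hqf' W.ρ W.hyp.rho_pos
  obtain ⟨l₂, hl₂⟩ := Pool.Agent.OmegaStab.LocModel.bwd_seq (h := H) W hqb' W.ρ W.hyp.rho_pos
  set P : ℤ → N := fun j => (H ^ (j - l₂)) q₀ with hP
  set q : N := P 0 with hq
  have hPA : ∀ j, A (P j) = P (j + 1) := by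
    intro j
    rw [← hHA]
    change H ((H ^ (j - l₂)) q₀) = (H ^ (j + 1 - l₂)) q₀
    rw [apply_zpow]
    congr 2
    ring
  have hPa : ∀ n : ℕ, P (-(W.m * n : ℕ)) ∈ (extChartAt (𝓡 d) p).source ∧
      ‖W.ψ (P (-(W.m * n : ℕ)))‖ < W.ρ := by
    intro n
    have e1 : P (-(W.m * n : ℕ)) = H.symm^[l₂ + W.m * n] q₀ := by
      rw [← zpow_neg_natCast_apply]
      change (H ^ (-((W.m * n : ℕ) : ℤ) - l₂)) q₀ = _
      congr 2
      push_cast
      ring
    rw [e1]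
    exact ⟨(hl₂ n).1, (hl₂ n).2.1⟩
  have hPb : ∀ n : ℕ, P ((l₁ + l₂ + W.m * n : ℕ)) ∈ (extChartAt (𝓡 d) p).source ∧
      ‖W.ψ (P ((l₁ + l₂ + W.m * n : ℕ)))‖ < W.ρ := by
    intro n
    have e1 : P ((l₁ + l₂ + W.m * n : ℕ)) = H^[l₁ + W.m * n] q₀ := by
      rw [← zpow_natCast_apply]
      change (H ^ (((l₁ + l₂ + W.m * n : ℕ) : ℤ) - l₂)) q₀ = _
      congr 2
      push_cast
      ring
    rw [e1]
    exact ⟨(hl₁ n).1, (hl₁ n).2.1⟩
  have hPadd : ∀ i j : ℤ, P (i + j) = (H ^ i) (P j) := by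
    intro i j
    change (H ^ (i + j - l₂)) q₀ = (H ^ i) ((H ^ (j - l₂)) q₀)
    rw [← zpow_add_apply]
    congr 2
    ring
  have hPl : P l₂ = q₀ := by
    change (H ^ _) q₀ = q₀
    rw [sub_self, zpow_zero_apply]
  -- the points of the orbit are not periodic
  have hPper : ∀ j, P j ∉ periodicPts H := by
    intro j hj
    apply hqp
    obtain ⟨n, hn, hn'⟩ := hj
    have hn'' : H^[n] (P j) = P j := hn'
    refine ⟨n, hn, ?_⟩
    change A^[n] q₀ = q₀
    have h3 : q₀ = (H ^ (l₂ - j : ℤ)) (P j) := by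
      rw [← hPadd, sub_add_cancel, hPl]
    rw [← hHn, ← zpow_natCast_apply, h3, ← zpow_add_apply, add_comm, zpow_add_apply,
      zpow_natCast_apply, hn'']
  have hPorb : ∀ j, P j ∉ Orb H p := fun j hj => hPper j (periodic_of_mem_Orb hpH hj)
  have hPinj : ∀ j : ℤ, j ≠ 0 → P j ≠ q := by
    intro j hj he
    apply hPper 0
    have h3 : (H ^ j) (P 0) = P 0 := by
      rw [← hPadd, add_zero]
      exact he
    rcases Int.eq_nat_or_neg j with ⟨n, rfl | rfl⟩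
    · refine ⟨n, by omega, ?_⟩
      change H^[n] (P 0) = P 0
      rw [← zpow_natCast_apply, h3]
    · refine ⟨n, by omega, ?_⟩
      change H^[n] (P 0) = P 0
      rw [← zpow_natCast_apply]
      conv_lhs => rw [← h3]
      rw [← zpow_add_apply, add_neg_cancel, zpow_zero_apply]
  -- the distance
  have hfin : (Orb H p).Finite := Orb_finite hpH
  obtain ⟨δ, hδ, hδ'⟩ : ∃ δ : ℝ, 0 < δ ∧ ∀ j : ℤ, j ≠ 0 → δ ≤ dist (P j) q := by
    obtain ⟨κ, hκ, hκ'⟩ : ∃ κ : ℝ, 0 < κ ∧ ∀ x ∈ Orb H p, κ ≤ dist x q := by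
      have hne : (Orb H p).Nonempty := ⟨p, mem_Orb_self _ _⟩
      obtain ⟨x₀, hx₀, hx₀'⟩ := hfin.isCompact.exists_isMinOn hne
        (f := fun x => dist x q) (by fun_prop)
      refine ⟨dist x₀ q, dist_pos.2 fun he => hPorb 0 (by
        change q ∈ Orb H p
        rw [← he]; exact hx₀), fun x hx => hx₀' hx⟩
    have h3 : ∃ n₁ : ℕ, ∀ n : ℕ, n₁ ≤ n → κ / 2 ≤ dist (H^[n] q₀) q := by
      obtain ⟨n₁, hn₁⟩ := eventually_close H hqf' (κ / 2) (half_pos hκ)
      refine ⟨n₁, fun n hn => ?_⟩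
      obtain ⟨x, hx, hd⟩ := hn₁ n hn
      have h4 := hκ' x hx
      have h5 := dist_triangle_left x q (H^[n] q₀)
      linarith
    have h4 : ∃ n₂ : ℕ, ∀ n : ℕ, n₂ ≤ n → κ / 2 ≤ dist (H.symm^[n] q₀) q := by
      have hqb'' : Tendsto (fun n : ℕ => H.symm^[n] q₀) atTop (𝓝ˢ (Orb H.symm p)) := by
        rw [Orb_symm H hpH]; exact hqb'
      obtain ⟨n₂, hn₂⟩ := eventually_close H.symm hqb'' (κ / 2) (half_pos hκ)
      refine ⟨n₂, fun n hn => ?_⟩
      obtain ⟨x, hx, hd⟩ := hn₂ n hn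
      rw [Orb_symm H hpH] at hx
      have h4 := hκ' x hx
      have h5 := dist_triangle_left x q (H.symm^[n] q₀)
      linarith
    obtain ⟨n₁, hn₁⟩ := h3
    obtain ⟨n₂, hn₂⟩ := h4
    set S : Finset ℤ := (Finset.Icc (-(n₂ : ℤ)) (n₁ + l₂ : ℕ)).erase 0 with hS
    have h5 : ∃ δ : ℝ, 0 < δ ∧ ∀ j ∈ S, δ ≤ dist (P j) q := by
      rcases S.eq_empty_or_nonempty with he | hne
      · exact ⟨1, one_pos, by rw [he]; simp⟩
      · refine ⟨S.inf' hne (fun j => dist (P j) q), ?_, fun j hj => Finset.inf'_le _ hj⟩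
        rw [Finset.lt_inf'_iff]
        intro j hj
        exact dist_pos.2 (hPinj j (Finset.ne_of_mem_erase hj))
    obtain ⟨δ, hδ, hδS⟩ := h5
    refine ⟨min δ (κ / 2), lt_min hδ (by linarith), fun j hj => ?_⟩
    by_cases hj1 : ((n₁ + l₂ : ℕ) : ℤ) ≤ j
    · obtain ⟨n, hn⟩ := Int.eq_ofNat_of_zero_le (show 0 ≤ j - l₂ by push_cast at hj1; omega)
      have e1 : P j = H^[n] q₀ := by
        rw [← zpow_natCast_apply]
        change (H ^ (j - l₂)) q₀ = _
        rw [hn]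
      rw [e1]
      exact (min_le_right _ _).trans (hn₁ n (by push_cast at hj1; omega))
    · by_cases hj2 : (n₂ : ℤ) ≤ -j
      · obtain ⟨n, hn⟩ := Int.eq_ofNat_of_zero_le (show 0 ≤ -(j - l₂) by omega)
        have e1 : P j = H.symm^[n] q₀ := by
          rw [← zpow_neg_natCast_apply]
          change (H ^ (j - l₂)) q₀ = _
          congr 2
          omega
        rw [e1]
        exact (min_le_right _ _).trans (hn₂ n (by omega))
      · refine (min_le_left _ _).trans (hδS j ?_)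
        rw [hS, Finset.mem_erase, Finset.mem_Icc]
        exact ⟨hj, by omega, by omega⟩
  have hqΛ : q ∈ closure O := by
    apply subset_closure
    refine ⟨l₂, Or.inr ?_⟩
    change (H ^ ((0 : ℤ) - l₂)) q₀ = _
    rw [zero_sub, zpow_neg_natCast_apply]
    rfl
  refine ⟨q, δ / 3, W.m, l₁ + l₂, by linarith, W.hm, ?_, fun ρ hρ _ => ?_⟩
  · exact hPper 0
  · refine ReturnMod.aux hr A W (ℓ₀ := l₁ + l₂) (P := P) rfl hPA hPa hPb (by linarith)
      (fun j hj => by have := hδ' j hj; linarith) ?_ hρ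
    intro v hv hv'
    refine ReturnMod.transverse hr A W γ (P := P) rfl hPA hPa hPb ?_ v hv hv'
    intro v B hB1 hB2
    exact ReturnHom.eq_zero_of_bounded hr A hΛ1 hΛ2 hcp hs hu hc0 hμ hμ1 h1 h2 hqΛ v hB1 hB2

end Pool.Agent.OmegaPS

end
end

section

/-!
# Products: closed words are hyperbolic, version with congruences
-/

open Set Filter Topology Function
open scoped Manifold ContDiff

noncomputable section

namespace Pool.Agent.OmegaPS

open Pool.Agent.OmegaStab (EE Dyn IsFam PP HypAt crTopology HypLin ConjClass)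
open Pool.Agent.OmegaStab.FinHyp (der)
open Pool.Agent.OmegaStability

namespace StarMod

theorem sum_mod (l : ℕ → ℕ) (p w : ℕ) :
    ∑ q ∈ Finset.range (w * p), l (q % p) = w * ∑ q ∈ Finset.range p, l q := by
  induction w with
  | zero => simp
  | succ w ih =>
    rw [Nat.succ_mul, Finset.sum_range_add, ih, Nat.succ_mul]
    congr 1
    refine Finset.sum_congr rfl (fun q hq => ?_)
    rw [Nat.add_comm, Nat.add_mul_mod_self_right, Nat.mod_eq_of_lt (Finset.mem_range.1 hq)]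

end StarMod

section Product

variable {d₁ d₂ d : ℕ} {N₁ N₂ M : Type*} [MetricSpace N₁] [ChartedSpace (EE d₁) N₁]
  [IsManifold (𝓡 d₁) ∞ N₁] [MetricSpace N₂] [ChartedSpace (EE d₂) N₂]
  [IsManifold (𝓡 d₂) ∞ N₂] [MetricSpace M] [ChartedSpace (EE d) M] [IsManifold (𝓡 d) ∞ M]
  [CompactSpace N₁] [CompactSpace N₂] [CompactSpace M] {r : ℕ∞}

theorem star_of_switchableMod (hr : 1 ≤ r)
    (Φ : Diffeomorph (𝓡 d) ((𝓡 d₁).prod (𝓡 d₂)) M (N₁ × N₂) ∞) (f : Dyn d M r)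
    (f₁ : Dyn d₁ N₁ r) (f₂ : Dyn d₂ N₂ r) (hf : ∀ x, Φ (f x) = (f₁ (Φ x).1, f₂ (Φ x).2))
    {𝒩 : Set (Dyn d M r)} (h𝒩 : IsOpen[crTopology d M r] 𝒩) (hf𝒩 : f ∈ 𝒩)
    (hhyp : ∀ g ∈ 𝒩, ∀ p ∈ periodicPts g, HypAt (d := d) g p) (At : Atlas d₁ N₁ r)
    (hsw : SwitchableMod f₂) (k : ℕ) :
    ∃ (ε₀ : ℝ) (m : ℕ), 0 < ε₀ ∧ 1 ≤ m ∧ ∀ ε ≤ ε₀, ∀ G : GeoSys At f₁ ε, Star G.S m k := by
  classical
  obtain ⟨w, hw, hsw⟩ := hsw
  obtain ⟨m, D, E, hm, hDc, hEc, hDD, hDE, hreal⟩ := hsw k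
  obtain ⟨c₀, hc₀, hpert⟩ := pert Φ f f₁ f₂ hf h𝒩 hf𝒩 At D E hDc hEc hDD hDE
  obtain ⟨ε₀, hε₀, hrealise⟩ := realise hr At hc₀
  refine ⟨ε₀, m, hε₀, hm, ?_⟩
  intro ε hε G ι _ hcard τ hτ i n M' hpath
  obtain ⟨emb⟩ : Nonempty (ι ↪ Fin k) :=
    Function.Embedding.nonempty_of_card_le (by rwa [Fintype.card_fin])
  have hch : ∀ a : ι, ∃ (j : At.J) (π : PP d₁), ‖π‖ ≤ c₀ ∧ At.h j π (τ a).src = (τ a).tgt ∧
      ∀ v, (τ a).mat (G.frame (τ a).src v) =
        G.frame (τ a).tgt (der (d := d₁) (At.h j π) (τ a).src v) :=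
    fun a => hrealise ε hε f₁ G _ _ _ (hτ a)
  choose jj ππ hπ hmap hder using hch
  set J' : Fin k → At.J := Function.extend emb jj (fun _ => jj i) with hJ'
  set qq' : Fin k → PP d₁ := Function.extend emb ππ (fun _ => 0) with hqdef
  have hJe : ∀ a, J' (emb a) = jj a := fun a => emb.injective.extend_apply _ _ _
  have hqe : ∀ a, qq' (emb a) = ππ a := fun a => emb.injective.extend_apply _ _ _
  have hq0' : ∀ c, ‖qq' c‖ ≤ c₀ := by
    intro c
    by_cases hc : ∃ a, emb a = c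
    · obtain ⟨a, rfl⟩ := hc
      rw [hqe]
      exact hπ a
    · rw [hqdef, Function.extend_apply' _ _ _ hc, norm_zero]
      exact hc₀.le
  obtain ⟨g, hg𝒩, hgE, hgD⟩ := hpert J' qq' hq0'
  obtain ⟨p, s, l, P, hp, hs0, hsp, hl, hn, hP0, hPs, hPp⟩ := path_seq G.S hpath
  -- repeat the word `w` times
  have hwp : 0 < w * p := Nat.mul_pos hw hp
  have hmod0 : w * p % p = 0 := Nat.mul_mod_left w p
  have hsucc : ∀ q, (q % p + 1 < p ∧ (q + 1) % p = q % p + 1 ∧ (q + 1) / p = q / p) ∨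
      (q % p + 1 = p ∧ (q + 1) % p = 0 ∧ (q + 1) / p = q / p + 1) := by
    intro q
    have h1 := Nat.mod_lt q hp
    have h2 := Nat.div_add_mod q p
    by_cases h3 : q % p + 1 < p
    · left
      refine ⟨h3, ?_, ?_⟩
      · have h4 : q + 1 = (q % p + 1) + p * (q / p) := by omega
        rw [h4, Nat.add_mul_mod_self_left, Nat.mod_eq_of_lt h3]
      · have h4 : q + 1 = (q % p + 1) + p * (q / p) := by omega
        conv_lhs => rw [h4]
        rw [Nat.add_mul_div_left _ _ hp, Nat.div_eq_of_lt h3, zero_add]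
    · right
      have h3' : q % p + 1 = p := by omega
      have h4 : q + 1 = p * (q / p + 1) := by rw [Nat.mul_succ]; omega
      refine ⟨h3', ?_, ?_⟩
      · rw [h4, Nat.mul_mod_right]
      · conv_lhs => rw [h4]
        rw [Nat.mul_div_cancel_left _ hp]
  have hs' : ∀ q, s ((q + 1) % p) = s (q % p + 1) := by
    intro q
    rcases hsucc q with ⟨-, h1, -⟩ | ⟨h0, h1, -⟩
    · rw [h1]
    · rw [h1, h0, hs0, hsp]
  obtain ⟨x, hxp, hx⟩ := hreal (w * p) (fun q => emb (s (q % p))) (fun q => l (q % p)) hwp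
    (Dvd.intro _ rfl) (by rw [StarMod.sum_mod]; exact Dvd.intro _ rfl)
    (by rw [hmod0, Nat.zero_mod]) (fun q _ => (hl (q % p) (Nat.mod_lt _ hp)).1)
  have key : Hyp (P p ^ w) := by
    have h1 := StarSw.core hr Φ f₁ f₂ g (hhyp g hg𝒩) At G emb D E τ jj ππ hmap hder hgE
      (by
        intro a y x' hx'
        have := hgD (emb a) y x' hx'
        rw [hJe, hqe] at this
        exact this) (w * p) (fun q => s (q % p)) (fun q => l (q % p))
      (fun q => P (q % p) * P p ^ (q / p)) hwp (by rw [hmod0, Nat.zero_mod])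
      (fun q _ => by
        have h2 := hl (q % p) (Nat.mod_lt _ hp)
        refine ⟨hm.trans h2.1, ?_⟩
        rw [h2.2, hs' q])
      (by rw [Nat.zero_mod, Nat.zero_div, pow_zero, mul_one, hP0])
      (fun q _ => by
        have h2 := hPs (q % p) (Nat.mod_lt _ hp)
        rw [hs' q]
        rcases hsucc q with ⟨-, h3, h4⟩ | ⟨h0, h3, h4⟩
        · rw [h3, h4, h2, mul_assoc]
        · rw [h3, h4, hP0, one_mul, pow_succ']
          nth_rewrite 1 [← h0]
          rw [h2, mul_assoc]) x hxp hx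
    have h2 : w * p / p = w := Nat.mul_div_cancel _ hp
    rw [hmod0, h2, hP0, one_mul] at h1
    exact h1
  rw [hPp]
  exact hyp_of_pow key

end Product

end Pool.Agent.OmegaPS

end
end
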